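import Pool.Agent.H890.Nef
import Pool.Graph.R_seed8.Y173.QA.Pl

/-!
Functions on the covering space without poles along the horizontal prime divisors.
-/

set_option autoImplicit false
set_option linter.unusedSectionVars false
set_option linter.overlappingInstances false

open FF MvPolynomial Pool.Agent.W602.GT Pool.Agent.W603.LV Pool.Agent.Y172
  Pool.Agent.TH122.AB Pool.Agent.R887

namespace Pool.Agent.H890

section

variable {k M : Type} [Field k] [CharZero k] [Field M] [Algebra k M]

/-- a transcendental element is contained in a transcendence basis -/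
theorem exists_cons {r : ℕ} (hr : Algebra.trdeg k M = r) {g : M} (hg : Transcendental k g) :
    ∃ (m : ℕ) (y : Fin m → M), IsTranscendenceBasis k (Fin.cons g y : Fin (m + 1) → M) := by
  classical
  have hs : AlgebraicIndepOn k id ({g} : Set M) := by
    let _ : Unique ({g} : Set M) := Set.uniqueSingleton g
    exact algebraicIndependent_unique_type_iff.2 hg
  obtain ⟨B, hgB, hB⟩ := exists_isTranscendenceBasis_superset hs
  have h1 := hB.cardinalMk_eq_trdeg
  rw [hr] at h1
  have h2 : Nonempty (Fin r ≃ B) := by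
    have h3 : Cardinal.lift.{0} (Cardinal.mk (Fin r)) = Cardinal.lift.{0} (Cardinal.mk B) := by
      rw [h1]
      simp
    exact Cardinal.lift_mk_eq'.1 h3
  obtain ⟨e⟩ := h2
  obtain ⟨m, rfl⟩ : ∃ m, r = m + 1 := by
    have := Fin.pos (e.symm ⟨g, hgB rfl⟩)
    exact ⟨r - 1, by omega⟩
  let e' : Fin (m + 1) ≃ B := (Equiv.swap 0 (e.symm ⟨g, hgB rfl⟩)).trans e
  have he' : e' 0 = ⟨g, hgB rfl⟩ := by
    change e (Equiv.swap 0 _ 0) = _
    rw [Equiv.swap_apply_left, Equiv.apply_symm_apply]
  refine ⟨m, fun i => (e' i.succ : M), ?_⟩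
  have h3 : (Fin.cons g fun i => (e' i.succ : M) : Fin (m + 1) → M) = Subtype.val ∘ e' := by
    funext a
    refine Fin.cases ?_ (fun i => ?_) a
    · rw [Fin.cons_zero]
      change g = (e' 0 : M)
      rw [he']
    · rw [Fin.cons_succ]
      rfl
  rw [h3]
  exact (isTranscendenceBasis_equiv e').2 hB

/-- a transcendental element has a pole -/
theorem exists_pole_at [Algebra.EssFiniteType k M] {r : ℕ} (hr : Algebra.trdeg k M = r) {h : M}
    (hh : Transcendental k h) : ∃ P : Place k M, P.ord h < 0 := by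
  have hg : Transcendental k h⁻¹ := fun h1 => hh (by simpa using h1.inv)
  obtain ⟨m, y, hy⟩ := exists_cons hr hg
  obtain ⟨P, hP⟩ := Pool.Agent.Y173.QA.exists_adicP hy (fd_basis hy)
    ((X_prime (R := k) (i := (0 : Fin (m + 1)))).irreducible)
  refine ⟨P, ?_⟩
  have h1 := hP (X 0) (X_ne_zero _)
  rw [aeval_X, Fin.cons_zero, P.ord_inv] at h1
  rcases lt_or_eq_of_le h1.1 with h2 | h2
  · omega
  · exact absurd (dvd_refl _) (h1.2.1 h2.symm)

/-- derivations vanish on algebraic elements -/
theorem der_alg (D : Derivation k M M) {g : M} (hg : IsAlgebraic k g) : D g = 0 := by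
  have h1 := D.map_aeval (minpoly k g) g
  rw [minpoly.aeval, map_zero] at h1
  have h2 : Polynomial.aeval g (Polynomial.derivative (minpoly k g)) ≠ 0 :=
    (minpoly.irreducible hg.isIntegral).separable.aeval_derivative_ne_zero (minpoly.aeval k g)
  rcases smul_eq_zero.1 h1.symm with h3 | h3
  · exact absurd h3 h2
  · exact h3

/-- elements on which all derivations vanish are algebraic -/
theorem alg_of_der {r : ℕ} {t : Fin r → M} (ht : IsTranscendenceBasis k t)
    {E : Fin r → Derivation k M M} (hE : ∀ i j, E i (t j) = if i = j then 1 else 0) {w : M}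
    (hw : ∀ i, E i w = 0) : IsAlgebraic k w := by
  by_contra hcon
  have hr : Algebra.trdeg k M = r := by
    rw [← ht.cardinalMk_eq_trdeg]
    simp
  obtain ⟨m, y, hy⟩ := exists_cons hr hcon
  obtain ⟨D, hD⟩ := exists_der (L := k) _ hy (Fin.cons 1 fun _ => 0)
  have h1 := hD 0
  rw [Fin.cons_zero, Fin.cons_zero] at h1
  have h2 := Pool.Agent.W73.PG.PULL.expand t ht E hE D
  have h3 : D w = ∑ b, D (t b) * E b w := by
    conv_lhs => rw [← h2]
    rw [Pool.Agent.Y172.sum_smul_apply]
  rw [h3, Finset.sum_eq_zero fun b _ => by rw [hw, mul_zero]] at h1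
  exact zero_ne_one h1

end

section triv

variable {K M : Type} [Field K] [Field M] [Algebra ℂ K] [Algebra ℂ M] [Algebra K M]
  [IsScalarTower ℂ K M]

/-- places over `K` as places over `ℂ` -/
def restr (P : Place K M) : Place ℂ M where
  ord := P.ord
  ord_zero := P.ord_zero
  ord_mul := P.ord_mul
  ord_add := P.ord_add
  ord_const := fun {c} hc => by
    rw [IsScalarTower.algebraMap_apply ℂ K M]
    exact P.ord_const (by rwa [Ne, map_eq_zero])
  surj := P.surj

theorem restr_ord (P : Place K M) (f : M) : (restr P).ord f = P.ord f := rfl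

theorem restr_triv (P : Place K M) (f : K) : (restr P).ord (algebraMap K M f) = 0 := by
  by_cases hf : f = 0
  · rw [hf, map_zero, (restr P).ord_zero]
  · exact P.ord_const hf

end triv

theorem der_pow {k L : Type} [Field k] [Field L] [Algebra k L] (D : Derivation k L L) (a : L)
    (n : ℕ) : a * D (a ^ n) = n * a ^ n * D a := by
  rcases n with _ | n
  · rw [pow_zero, D.map_one_eq_zero]
    push_cast
    ring
  · rw [D.leibniz_pow]
    simp only [smul_eq_mul, nsmul_eq_mul, Nat.add_sub_cancel]
    push_cast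
    ring

section

variable {K L M : Type} [Field K] [Field L] [Field M] [Algebra ℂ K] [Algebra ℂ L]
  [Algebra ℂ M] [Algebra K L] [Algebra L M] [Algebra K M] [IsScalarTower ℂ K L]
  [IsScalarTower ℂ L M] [IsScalarTower ℂ K M] [IsScalarTower K L M] [FiniteDimensional L M]
  {N : ℕ} {y : Fin (N + 1) → K} {n r : ℕ} {G : Place ℂ K → ℤ}
  {S : Mod K L M y n r G} {b : ℕ} {z : M}

/-- **The base field is algebraically closed in the function field of the covering space.** -/
theorem Cov.alg_mem (h : Cov S b z) (hr : 0 < r) {g : M} (hg : IsAlgebraic K g) :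
    ∃ a : K, g = algebraMap K M a := by
  classical
  have hK0 : CharZero K := charZero_of_injective_algebraMap (algebraMap ℂ K).injective
  have hL0 : CharZero L := charZero_of_injective_algebraMap (algebraMap ℂ L).injective
  have hM0 : CharZero M := charZero_of_injective_algebraMap (algebraMap ℂ M).injective
  have hgens := S.gens
  have hbas := Gens_basis hgens
  obtain ⟨p0, hp0⟩ : ∃ p0 : Fin r, p0 = ⟨0, hr⟩ := ⟨_, rfl⟩
  obtain ⟨v, hv1, hv2⟩ := exists_adic hgens (X_prime (R := K) (i := p0)).irreducible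
  rw [aeval_X] at hv1
  have ht : ∀ p, v.ord (ts S.l 1 p) = if p = p0 then 1 else 0 := by
    intro p
    by_cases hp : p = p0
    · rw [if_pos hp, hp, hv1]
    · rw [if_neg hp]
      have h1 := (hv2 (X p) (X_ne_zero p)).2.2 (fun h1 => hp (X_dvd_X.1 h1).symm)
      rwa [aeval_X] at h1
  have hlast : v.ord (S.l (Fin.last (r + 1)) / S.l 0) = 0 := by
    have h1 := S.sys.one_add 1
    have h2 : S.l (Fin.last (r + 1)) / S.l 0 = - aeval (ts S.l 1)
        (1 + ∑ p, X p : MvPolynomial (Fin r) K) := by
      rw [map_add, map_one, map_sum]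
      simp only [aeval_X]
      rw [h1, neg_neg]
      rfl
    have h3 : constantCoeff (1 + ∑ p, X p : MvPolynomial (Fin r) K) = 1 := by
      rw [map_add, map_one, map_sum]
      simp
    have h4 : ¬ (X p0 : MvPolynomial (Fin r) K) ∣ (1 + ∑ p, X p) := by
      rintro ⟨F, hF⟩
      rw [hF, map_mul, constantCoeff_X, zero_mul] at h3
      exact zero_ne_one h3
    have h5 : (1 + ∑ p, X p : MvPolynomial (Fin r) K) ≠ 0 := by
      intro h5
      rw [h5, map_zero] at h3
      exact zero_ne_one h3
    rw [h2, v.ord_neg]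
    exact (hv2 _ h5).2.2 h4
  have ho : ∀ k, v.ord (S.l k) - v.ord (S.l 0) = if k = p0.succ.castSucc then 1 else 0 := by
    intro k
    by_cases hk0 : k = 0
    · rw [hk0, sub_self, if_neg]
      intro h3
      have h4 := congrArg Fin.val h3
      simp only [Fin.val_zero, Fin.val_castSucc, Fin.val_succ] at h4
      omega
    by_cases hkl : k = Fin.last (r + 1)
    · rw [v.ord_div (S.sys.ne _) (S.sys.ne _)] at hlast
      rw [hkl, hlast, if_neg]
      intro h3
      have h4 := congrArg Fin.val h3
      simp only [Fin.val_last, Fin.val_castSucc, Fin.val_succ] at h4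
      omega
    obtain ⟨p, rfl⟩ := mid_of_ne hk0 hkl
    have h1 := ht p
    change v.ord (S.l p.succ.castSucc / S.l 0) = _ at h1
    rw [v.ord_div (S.sys.ne _) (S.sys.ne _)] at h1
    rw [h1]
    by_cases hp : p = p0
    · rw [if_pos hp, hp, if_pos rfl]
    · rw [if_neg hp, if_neg]
      intro h3
      apply hp
      have h4 := congrArg Fin.val h3
      simp only [Fin.val_castSucc, Fin.val_succ] at h4
      exact Fin.ext (by omega)
  obtain ⟨φ, hφd⟩ : ∃ φ, φ = ∏ k, S.l k ^ sg k := ⟨_, rfl⟩
  have hφ0 : φ ≠ 0 := by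
    rw [hφd]
    exact phi_ne S.sys
  obtain ⟨σ, hσ⟩ : ∃ σ : ℤ, σ = sg (p0.succ.castSucc) := ⟨_, rfl⟩
  have hφ : v.ord φ = σ := by
    have h1 := h.phi_ord (restr v) 0
    rw [← hφd] at h1
    simp only [restr_ord, ho] at h1
    rw [h1]
    simp only [mul_ite, mul_one, mul_zero, Finset.sum_ite_eq', Finset.mem_univ, if_true]
    exact hσ.symm
  have hσ1 : σ = 1 ∨ σ = -1 := by
    rw [hσ]
    exact sg_cases _
  have hzN := h.zN
  rw [← hφd] at hzN
  -- the place above
  obtain ⟨P, e, hP⟩ := exists_above (L := M) v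
  have hz : ((r + 2 : ℕ) : ℤ) * P.ord z = e * σ := by
    rw [← hφ, ← hP.2, ← hzN, P.ord_pow]
  have hdvd : ((r + 2 : ℕ) : ℤ) ∣ e := by
    rcases hσ1 with h4 | h4
    · exact ⟨P.ord z, by rw [hz, h4, mul_one]⟩
    · exact ⟨- P.ord z, by rw [mul_neg, hz, h4]; ring⟩
  have hle : e ≤ r + 2 := (over_le hP).trans h.fin
  have he : e = r + 2 := by
    have h4 : r + 2 ∣ e := by exact_mod_cast hdvd
    have h5 := Nat.le_of_dvd hP.1 h4
    omega
  subst he
  have hzo : P.ord z = σ := by
    have h4 : ((r + 2 : ℕ) : ℤ) ≠ 0 := by positivity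
    exact mul_left_cancel₀ h4 hz
  have hz0 : z ≠ 0 := by
    rintro rfl
    rw [P.ord_zero] at hzo
    omega
  have hind : LinearIndependent L (fun i : Fin (r + 2) => z ^ (i : ℕ)) := by
    refine indep_pow hP hz0 fun i j hi hj hd => ?_
    have h1 : ((r + 2 : ℕ) : ℤ) ∣ (i - j : ℤ) := by
      rw [hzo] at hd
      rcases hσ1 with h4 | h4
      · rwa [h4, mul_one] at hd
      · rw [h4, mul_neg, mul_one] at hd
        exact (dvd_neg).1 hd
    by_contra hne
    rcases lt_or_gt_of_ne hne with h3 | h3
    · have h4 : ((r + 2 : ℕ) : ℤ) ∣ (j - i : ℤ) := by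
        have := dvd_neg.2 h1
        rwa [neg_sub] at this
      have := Int.le_of_dvd (by omega) h4
      omega
    · have := Int.le_of_dvd (by omega) h1
      omega
  -- the expansion
  obtain ⟨c, hc⟩ : ∃ c : Fin (r + 2) → L, g = ∑ i, c i • z ^ (i : ℕ) := by
    obtain ⟨p, hp⟩ := h.gen g
    obtain ⟨q, hq⟩ : ∃ q : Polynomial L, q = Polynomial.X ^ (r + 2) - Polynomial.C φ := ⟨_, rfl⟩
    have hqm : q.Monic := by
      rw [hq]
      exact Polynomial.monic_X_pow_sub_C φ (by omega)
    have hqd : q.natDegree = r + 2 := by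
      rw [hq]
      exact Polynomial.natDegree_X_pow_sub_C
    have hqz : Polynomial.aeval z q = 0 := by
      rw [hq, map_sub, map_pow, Polynomial.aeval_X, Polynomial.aeval_C, hzN, sub_self]
    have h1 := Polynomial.aeval_modByMonic_eq_self_of_root (p := p) hqz
    have h2 : (p %ₘ q).natDegree < r + 2 := by
      have h3 := Polynomial.natDegree_modByMonic_lt p hqm (fun h3 => by
        rw [h3, Polynomial.natDegree_one] at hqd
        omega)
      rwa [hqd] at h3
    rw [Polynomial.aeval_eq_sum_range' h2, Finset.sum_range] at h1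
    exact ⟨fun i => (p %ₘ q).coeff i, by rw [hp, h1]⟩
  -- derivations
  choose E hE using fun p : Fin r => exists_der (L := K) _ hbas (fun j => if p = j then (1 : L) else 0)
  have hder : ∀ p i, ((r + 2 : ℕ) : L) * φ * E p (c i) = - ((i : ℕ) * c i * E p φ) := by
    intro p
    obtain ⟨D', hD'⟩ := exists_lift (L := M) S.trdeg_KL (E p)
    have hg0 : D' g = 0 := der_alg D' hg
    obtain ⟨A, hA⟩ : ∃ A : L, A = E p φ / (((r + 2 : ℕ) : L) * φ) := ⟨_, rfl⟩
    have hN0 : ((r + 2 : ℕ) : L) ≠ 0 := Nat.cast_ne_zero.2 (by omega)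
    have hDz : D' z = z * algebraMap L M A := by
      have h1 := der_pow D' z (r + 2)
      rw [hzN, hD'] at h1
      have h2 : algebraMap L M φ ≠ 0 := by rwa [Ne, map_eq_zero]
      have h3 : ((r + 2 : ℕ) : M) ≠ 0 := Nat.cast_ne_zero.2 (by omega)
      rw [hA, map_div₀, map_mul, map_natCast]
      field_simp
      linear_combination -h1
    have hterm : ∀ i : Fin (r + 2), D' (c i • z ^ (i : ℕ)) =
        (E p (c i) + (i : ℕ) * c i * A) • z ^ (i : ℕ) := by
      intro i
      have h1 : z * D' (z ^ (i : ℕ)) = z * ((i : ℕ) * z ^ (i : ℕ) * algebraMap L M A) := by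
        rw [der_pow, hDz]
        ring
      have h2 := mul_left_cancel₀ hz0 h1
      rw [Algebra.smul_def, D'.leibniz, h2, hD', smul_eq_mul, smul_eq_mul, Algebra.smul_def,
        map_add, map_mul, map_mul, map_natCast]
      ring
    have h1 : ∑ i : Fin (r + 2), (E p (c i) + (i : ℕ) * c i * A) • z ^ (i : ℕ) = 0 := by
      rw [← hg0, hc, map_sum]
      exact Finset.sum_congr rfl fun i _ => (hterm i).symm
    have h2 := (Fintype.linearIndependent_iff.1 hind) _ h1
    intro i
    have h3 := h2 i
    rw [hA] at h3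
    field_simp at h3
    linear_combination h3
  -- the constants
  have hw : ∀ i, IsAlgebraic K (c i ^ (r + 2) * φ ^ (i : ℕ)) := by
    intro i
    refine alg_of_der hbas hE fun p => ?_
    by_cases hci : c i = 0
    · rw [hci, zero_pow (by omega), zero_mul, map_zero]
    have h1 : c i * φ * E p (c i ^ (r + 2) * φ ^ (i : ℕ)) = 0 := by
      rw [(E p).leibniz, smul_eq_mul, smul_eq_mul]
      have h2 := der_pow (E p) (c i) (r + 2)
      have h3 := der_pow (E p) φ i
      have h4 := hder p i
      linear_combination (c i * c i ^ (r + 2)) * h3 + (φ * φ ^ (i : ℕ)) * h2 +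
        (φ ^ (i : ℕ) * c i ^ (r + 2)) * h4
    rcases mul_eq_zero.1 h1 with h2 | h2
    · exact absurd h2 (mul_ne_zero hci hφ0)
    · exact h2
  have hc0 : ∀ i, i ≠ 0 → c i = 0 := by
    intro i hi
    by_contra hci
    have h1 := v.ord_eq_zero_of_isAlgebraic (mul_ne_zero (pow_ne_zero _ hci) (pow_ne_zero _ hφ0))
      (hw i)
    rw [v.ord_mul (pow_ne_zero _ hci) (pow_ne_zero _ hφ0), v.ord_pow, v.ord_pow, hφ] at h1
    have h2 : ((r + 2 : ℕ) : ℤ) ∣ (i : ℕ) := by
      rcases hσ1 with h4 | h4
      · rw [h4, mul_one] at h1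
        exact ⟨- v.ord (c i), by linarith⟩
      · rw [h4] at h1
        exact ⟨v.ord (c i), by linarith⟩
    have h3 : (r + 2) ∣ (i : ℕ) := by exact_mod_cast h2
    have h4 : (i : ℕ) ≠ 0 := fun h4 => hi (Fin.ext h4)
    have h5 := Nat.le_of_dvd (Nat.pos_of_ne_zero h4) h3
    have := i.2
    omega
  have hg1 : g = algebraMap L M (c 0) := by
    rw [hc, Finset.sum_eq_single 0]
    · rw [Fin.val_zero, pow_zero, Algebra.smul_def, mul_one]
    · intro i _ hi
      rw [hc0 i hi, zero_smul]
    · intro h1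
      exact absurd (Finset.mem_univ _) h1
  have hca : IsAlgebraic K (c 0) := by
    refine alg_of_der hbas hE fun p => ?_
    have h1 := hder p 0
    rw [Fin.val_zero] at h1
    have hN0 : ((r + 2 : ℕ) : L) ≠ 0 := Nat.cast_ne_zero.2 (by omega)
    have h2 : ((r + 2 : ℕ) : L) * φ * E p (c 0) = 0 := by
      rw [h1]
      push_cast
      ring
    rcases mul_eq_zero.1 h2 with h3 | h3
    · exact absurd h3 (mul_ne_zero hN0 hφ0)
    · exact h3
  -- algebraic elements of the field of rational functions
  obtain ⟨F, hF⟩ := poly_of_reg hgens (z := c 0) fun p _ w _ _ => by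
    by_cases h0 : c 0 = 0
    · rw [h0]
      exact w.reg_zero
    · exact Or.inr (w.ord_eq_zero_of_isAlgebraic h0 hca).ge
  by_cases hF0 : F = 0
  · refine ⟨0, ?_⟩
    rw [hg1, hF, hF0, map_zero, map_zero, map_zero]
  obtain ⟨w, hw'⟩ := exists_degree hgens hr
  have h1 := hw' F hF0
  rw [← hF, w.ord_eq_zero_of_isAlgebraic (by rw [hF]; exact hgens.ne hF0) hca] at h1
  have h2 : F.totalDegree = 0 := by omega
  rw [totalDegree_eq_zero_iff_eq_C] at h2
  refine ⟨F.coeff 0, ?_⟩
  rw [hg1, hF, h2, aeval_C, coeff_C, if_pos rfl, ← IsScalarTower.algebraMap_apply]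

/-- **Functions without poles along the horizontal prime divisors.** -/
theorem Cov.const (h : Cov S b z) (hr : 0 < r) {g : M}
    (hg : ∀ P, IsPrimeDivisor S.v P → (∀ f : K, P.ord (algebraMap K M f) = 0) → P.Reg g) :
    ∃ a : K, g = algebraMap K M a := by
  have hK0 : CharZero K := charZero_of_injective_algebraMap (algebraMap ℂ K).injective
  have hessM := S.essM
  have hess : Algebra.EssFiniteType K M := Algebra.EssFiniteType.of_comp ℂ K M
  refine h.alg_mem hr ?_
  by_contra hcon
  obtain ⟨P, hP⟩ := exists_pole_at S.trdeg_KM hcon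
  have h1 : g ∈ localRing S.v (restr P) := mem_localRing_of_reg S.nv fun P' hP' hT =>
    hg P' hP' (h.through_triv hT (restr_triv P))
  have h2 := reg_ord_nonneg (localRing_reg h1)
  rw [restr_ord] at h2
  omega

end

end Pool.Agent.H890
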