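import Pool.Agent.H890.KDefs8
import Pool.Graph.R_seed8.Helper386.D5V.Helper399_OverDefs

/-!
Definitions: automorphisms, and the cone conjecture.
-/

set_option autoImplicit false

open FF Pool.Agent.W602.GT Pool.Agent.Y172 Pool.Agent.R887

namespace Pool.Agent.H890

section

variable {K : Type} [Field K] [Algebra ℂ K] {N : ℕ}

/-- The automorphism `φ` of the function field `K` over `ℂ` is given by an automorphism of `X`, `n`
being the dimension of `X`: it maps the local rings of `X` (at the centres of the prime divisors over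
`X`) onto local rings of `X`. -/
def IsAut (y : Fin (N + 1) → K) (n : ℕ) (φ : K ≃ₐ[ℂ] K) : Prop :=
  ∀ Q : Place ℂ K, Divisorial n Q → ∀ f, f ∈ localRing y (Q.comp φ) ↔ φ f ∈ localRing y Q

/-- the pull-back of the divisor `E` by the automorphism `φ` -/
noncomputable def tw (φ : K ≃ₐ[ℂ] K) (E : Place ℂ K → ℚ) (P : Place ℂ K) : ℚ := E (P.comp φ)

/-- The cone conjecture for the pair `(X, Δ)`, `n` being the dimension of `X`: there are finitely many
effective nef `ℚ`-divisors `E i` on `X`, spanning a cone `Π`, such that for every cone spanned by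
finitely many effective nef `ℚ`-divisors `A i` there is a finite set `Φ` of automorphisms of `X`
which preserve `Δ`, such that every `ℚ`-divisor in this cone is numerically equivalent to an element
of `φ^* Π` for some `φ ∈ Φ`. -/
def ConeConjecture (y : Fin (N + 1) → K) (n : ℕ) (Δ : Place ℂ K → ℚ) : Prop :=
  ∃ (k : ℕ) (E : Fin k → Place ℂ K → ℚ), (∀ i, Effective y (E i) ∧ NefDivisor y n (E i)) ∧
    ∀ (j : ℕ) (A : Fin j → Place ℂ K → ℚ), (∀ i, Effective y (A i) ∧ NefDivisor y n (A i)) →
      ∃ Φ : Set (K ≃ₐ[ℂ] K), Φ.Finite ∧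
        (∀ φ ∈ Φ, IsAut y n φ ∧ ∀ P, IsPrimeDivisor y P → Δ (P.comp φ) = Δ P) ∧
        ∀ t : Fin j → ℚ, (∀ i, 0 ≤ t i) → ∃ φ ∈ Φ, ∃ a : Fin k → ℚ, (∀ i, 0 ≤ a i) ∧
          NumEquiv y n (∑ i, t i • A i) (tw φ (∑ i, a i • E i))

end

/-- The variety `V` with generic point `v` and function field `M`, of dimension `d`, can replace the
pair `(X, Δ)` with generic point `y` and function field `K`, `n` being its dimension: `V` is a normal
projective variety; it has klt singularities (without boundary) if `(X, Δ)` is klt; `K_V` is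
`ℚ`-linearly equivalent to zero if `K_X + Δ` is so; every `ℚ`-divisor `E` on `X` has a pull-back to
`V`, which is nef if and only if `E` is nef; and, if `K_X + Δ` is `ℚ`-linearly equivalent to zero, the
cone conjecture for `V` (without boundary) implies the cone conjecture for `(X, Δ)`. -/
structure ConeReplaces {K M : Type} [Field K] [Algebra ℂ K] [Field M] [Algebra ℂ M] [Algebra K M]
    {N N' : ℕ} (v : Fin (N' + 1) → M) (d : ℕ) (y : Fin (N + 1) → K) (n : ℕ)
    (Δ : Place ℂ K → ℚ) : Prop where
  normal : NormalModel v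
  klt : Klt y n Δ → Klt v d 0
  trivial : LogTrivial y n Δ → LogTrivial v d 0
  nef : ∀ E : Place ℂ K → ℚ, QDivisor y E → ∃ E' : Place ℂ M → ℚ,
    IsPullBack y v E E' ∧ QDivisor v E' ∧ (NefDivisor v d E' ↔ NefDivisor y n E)
  cone : LogTrivial y n Δ → ConeConjecture v d 0 → ConeConjecture y n Δ

/-- The cone conjecture for the klt Calabi-Yau pairs `(X, Δ)` such that `X` has the function field `K`
and the dimension `n`, and `Δ` is an effective `ℚ`-divisor with `b Δ` Cartier. -/
def PairConeConjecture (K : Type) [Field K] [Algebra ℂ K] (n b : ℕ) : Prop :=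
  ∀ (N : ℕ) (y : Fin (N + 1) → K), NormalModel y → ∀ Δ : Place ℂ K → ℚ, Effective y Δ →
    CartierMul y n b Δ → Klt y n Δ → LogTrivial y n Δ → ConeConjecture y n Δ

/-- The cone conjecture for the klt Calabi-Yau varieties (without boundary) of dimension `n` with
function field `K`. -/
def VarietyConeConjecture (K : Type) [Field K] [Algebra ℂ K] (n : ℕ) : Prop :=
  ∀ (N : ℕ) (y : Fin (N + 1) → K), NormalModel y → Klt y n 0 → LogTrivial y n 0 →
    ConeConjecture y n 0

/-- The cone conjecture for the klt Calabi-Yau varieties (without boundary) which are birational to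
`Z × P ^ m` for a variety `Z` and some `m ≥ 2`: their function field `M` is the field of rational
functions in `m` variables `t` over the function field `K` of `Z`. -/
def RuledConeConjecture : Prop :=
  ∀ (K M : Type) [Field K] [Algebra ℂ K] [Field M] [Algebra ℂ M] [Algebra K M]
    [IsScalarTower ℂ K M] (n m : ℕ) (t : Fin m → M), Algebra.trdeg ℂ K = n → 2 ≤ m →
    AlgebraicIndependent K t → IntermediateField.adjoin K (Set.range t) = ⊤ →
    VarietyConeConjecture M (n + m)

end Pool.Agent.H890
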