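import Pool.Agent.H890.Num
import Pool.Agent.H890.KDefs9

/-!
Automorphisms of projective varieties and their action on divisors.
-/

set_option autoImplicit false
set_option linter.unusedSectionVars false
set_option linter.overlappingInstances false

open FF MvPolynomial Pool.Agent.W602.GT Pool.Agent.W603.LV Pool.Agent.Y172
  Pool.Agent.TH122.AB Pool.Agent.R887

namespace Pool.Agent.H890

section

variable {K : Type} [Field K] [Algebra ℂ K] {N n : ℕ} {y : Fin (N + 1) → K}

theorem comp_ord (Q : Place ℂ K) (φ : K ≃ₐ[ℂ] K) (f : K) : (Q.comp φ).ord f = Q.ord (φ f) := rfl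

theorem comp_symm (Q : Place ℂ K) (φ : K ≃ₐ[ℂ] K) : (Q.comp φ).comp φ.symm = Q := by
  apply Place.ext
  funext f
  rw [comp_ord, comp_ord, AlgEquiv.apply_symm_apply]

theorem symm_comp (Q : Place ℂ K) (φ : K ≃ₐ[ℂ] K) : (Q.comp φ.symm).comp φ = Q := by
  apply Place.ext
  funext f
  rw [comp_ord, comp_ord, AlgEquiv.symm_apply_apply]

theorem comp_reg {Q : Place ℂ K} {φ : K ≃ₐ[ℂ] K} {f : K} : (Q.comp φ).Reg f ↔ Q.Reg (φ f) := by
  by_cases hf : f = 0
  · rw [hf, map_zero]
    exact ⟨fun _ => Q.reg_zero, fun _ => (Q.comp φ).reg_zero⟩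
  · have hf' : φ f ≠ 0 := by
      rw [Ne, EmbeddingLike.map_eq_zero_iff]
      exact hf
    rw [(Q.comp φ).reg_iff hf, Q.reg_iff hf', comp_ord]

theorem divisorial_comp {Q : Place ℂ K} (φ : K ≃ₐ[ℂ] K) (hQ : Divisorial n Q) :
    Divisorial n (Q.comp φ) := by
  obtain ⟨u, hu⟩ := hQ
  refine ⟨fun i => φ.symm (u i), fun F hF => ?_⟩
  have h1 : φ (aeval (fun i => φ.symm (u i)) F) = aeval u F := by
    have h2 := MvPolynomial.comp_aeval_apply (B := K) (fun i => φ.symm (u i))
      (φ : K →ₐ[ℂ] K) F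
    have h3 : (fun i => (φ : K →ₐ[ℂ] K) (φ.symm (u i))) = u := by
      funext i
      exact φ.apply_symm_apply (u i)
    rw [h3] at h2
    exact h2
  obtain ⟨h2, h3⟩ := hu F hF
  refine ⟨fun h0 => h2 ?_, ?_⟩
  · rw [← h1, h0, map_zero]
  · rw [comp_ord, h1]
    exact h3

theorem IsAut.symm {φ : K ≃ₐ[ℂ] K} (h : IsAut y n φ) : IsAut y n φ.symm := by
  intro Q hQ f
  have h1 := h (Q.comp φ.symm) (divisorial_comp _ hQ) (φ.symm f)
  rw [symm_comp, AlgEquiv.apply_symm_apply] at h1
  exact h1.symm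

variable {φ : K ≃ₐ[ℂ] K}

theorem IsAut.prime (h : IsAut y n φ) (hy : NormalModel y) (hn : Algebra.trdeg ℂ K = n)
    {P : Place ℂ K} (hP : IsPrimeDivisor y P) : IsPrimeDivisor y (P.comp φ) := fun f hf =>
  (h P (hP.divisorial hy hn) f).2 (hP _ (comp_reg.1 hf))

theorem IsAut.through (h : IsAut y n φ) {P Q : Place ℂ K} (hQ : Divisorial n Q)
    (hPQ : Through y P Q) : Through y (P.comp φ) (Q.comp φ) := fun f hf =>
  comp_reg.2 (hPQ _ ((h Q hQ f).1 hf))

theorem IsAut.through' (h : IsAut y n φ) {P Q : Place ℂ K} (hQ : Divisorial n Q)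
    (hPQ : Through y P (Q.comp φ)) : Through y (P.comp φ.symm) Q := by
  have h1 := h.symm.through (divisorial_comp φ hQ) hPQ
  rwa [comp_symm] at h1

theorem IsAut.sec (h : IsAut y n φ) (hy : NormalModel y) (hn : Algebra.trdeg ℂ K = n)
    {E : Place ℂ K → ℚ} {f : K} (hf : IsSec y E f) : IsSec y (tw φ E) (φ f) :=
  ⟨by
    rw [Ne, EmbeddingLike.map_eq_zero_iff]
    exact hf.1, fun P hP => hf.2 _ (h.prime hy hn hP)⟩

theorem IsAut.effective (h : IsAut y n φ) (hy : NormalModel y) (hn : Algebra.trdeg ℂ K = n)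
    {E : Place ℂ K → ℚ} (hE : Effective y E) : Effective y (tw φ E) := by
  refine ⟨fun P hP => hE.1 _ (h.prime hy hn hP), ?_⟩
  refine (hE.2.image fun P => P.comp φ.symm).subset ?_
  rintro P ⟨hP, h0⟩
  exact ⟨P.comp φ, ⟨h.prime hy hn hP, h0⟩, comp_symm P φ⟩

/-- the pull-back of a semiample divisor -/
theorem IsAut.semi (h : IsAut y n φ) (hy : NormalModel y) (hn : Algebra.trdeg ℂ K = n)
    {E : Place ℂ K → ℚ} (hE : SemiampleDivisor y n E) : SemiampleDivisor y n (tw φ E) := by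
  obtain ⟨m, hm, h1⟩ := hE
  refine ⟨m, hm, fun Q hQ => ?_⟩
  obtain ⟨f, hf, h2⟩ := h1 (Q.comp φ) (divisorial_comp φ hQ)
  refine ⟨φ f, h.sec hy hn hf, fun P hP hPQ => ?_⟩
  exact h2 _ (h.prime hy hn hP) (h.through hQ hPQ)

/-- generation in a chart -/
theorem chart_gen' (hy : NormalModel y) {G : Place ℂ K → ℤ}
    (hGfin : {P | IsPrimeDivisor y P ∧ G P ≠ 0}.Finite)
    (hGloc : ∀ Q, Divisorial n Q → ∃ g : K, g ≠ 0 ∧ ∀ P, IsPrimeDivisor y P → Through y P Q →
      P.ord g = G P) (j : Fin (N + 1)) :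
    ∃ T : Finset K, (∀ f ∈ T, f ≠ 0) ∧
      (∀ D, IsPrimeDivisor y D → Centred y j D → ∀ f ∈ T, - G D ≤ D.ord f) ∧
      ∀ Q, Divisorial n Q → Centred y j Q → ∃ f ∈ T, ∀ D, IsPrimeDivisor y D → Through y D Q →
        D.ord f = - G D := by
  classical
  obtain ⟨s, hs, hs0, hsG⟩ := exists_high (y := y) (j := j)
    (S := {P | IsPrimeDivisor y P ∧ Centred y j P ∧ G P ≠ 0})
    (hGfin.subset fun P hP => ⟨hP.1, hP.2.2⟩) (fun P hP => hP.2.1) (fun P hP => hP.1)
    (fun P => (G P).toNat)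
  have hsG' : ∀ D, IsPrimeDivisor y D → Centred y j D → G D ≤ D.ord s := by
    intro D hD hDj
    by_cases h0 : G D = 0
    · rw [h0]
      exact reg_ord_nonneg (hDj.reg s hs)
    · have := hsG D ⟨hD, hDj, h0⟩
      omega
  -- the ideal
  let I : Ideal (chart y j) :=
    { carrier := {a | ∀ D, IsPrimeDivisor y D → Centred y j D → Ge D (D.ord s - G D) (a : K)}
      add_mem' := fun {a b} ha hb D hD hDj => (ha D hD hDj).add (hb D hD hDj)
      zero_mem' := fun D _ _ => Or.inl rfl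
      smul_mem' := fun c {a} ha D hD hDj => by
        have h1 : Ge D 0 (c : K) := hDj.reg c c.2
        have h2 := h1.mul (ha D hD hDj)
        rw [zero_add] at h2
        exact h2 }
  have hI : ∀ a : chart y j, a ∈ I ↔
      ∀ D, IsPrimeDivisor y D → Centred y j D → Ge D (D.ord s - G D) (a : K) := fun _ => Iff.rfl
  obtain ⟨T, hT⟩ := (isNoetherianRing_iff_ideal_fg (chart y j)).1 inferInstance I
  refine ⟨(T.image fun a : chart y j => (a : K) / s).filter fun f => f ≠ 0, fun f hf =>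
    (Finset.mem_filter.1 hf).2, ?_, ?_⟩
  · intro D hD hDj f hf
    rw [Finset.mem_filter, Finset.mem_image] at hf
    obtain ⟨⟨a, ha, rfl⟩, hf0⟩ := hf
    have ha0 : (a : K) ≠ 0 := by
      intro h0
      rw [h0, zero_div] at hf0
      exact hf0 rfl
    have h1 : a ∈ I := by
      rw [← hT]
      exact Ideal.subset_span ha
    have h2 := ((hI a).1 h1 D hD hDj).resolve_left ha0
    rw [D.ord_div ha0 hs0]
    omega
  · intro Q hQ hQj
    obtain ⟨g, hg0, hg⟩ := hGloc Q hQ
    have hsg : s / g ∈ localRing y Q := by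
      refine mem_localRing_of_reg hy fun D hD hDQ => Or.inr ?_
      rw [D.ord_div hs0 hg0, hg D hD hDQ]
      have := hsG' D hD (hDQ.centred hQj)
      omega
    obtain ⟨a₁, ha₁, b₁, hb₁, hb₁0, hb₁o, hab₁⟩ := (mem_localRing hQj).1 hsg
    have hsg0 : s / g ≠ 0 := div_ne_zero hs0 hg0
    have ha₁0 : a₁ ≠ 0 := by
      rw [← hab₁]
      exact mul_ne_zero hsg0 hb₁0
    -- the bad places
    have hBfin : {D | IsPrimeDivisor y D ∧ Centred y j D ∧ ¬ Through y D Q ∧
        (D.ord s ≠ 0 ∨ G D ≠ 0)}.Finite := by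
      refine ((finite_ord hy hs0).union hGfin).subset ?_
      rintro D ⟨hD, -, -, h | h⟩
      · exact Or.inl ⟨hD, h⟩
      · exact Or.inr ⟨hD, h⟩
    obtain ⟨κ, hκ⟩ : ∃ κ : ℕ, ∀ D ∈ {D | IsPrimeDivisor y D ∧ Centred y j D ∧ ¬ Through y D Q ∧
        (D.ord s ≠ 0 ∨ G D ≠ 0)}, D.ord s - G D ≤ κ := by
      obtain ⟨κ, hκ⟩ := (hBfin.image fun D => (D.ord s - G D).toNat).bddAbove
      refine ⟨κ, fun D hD => ?_⟩
      have h1 : (D.ord s - G D).toNat ≤ κ := hκ ⟨D, hD, rfl⟩
      omega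
    obtain ⟨c, hc, hc0, hco, hcB⟩ := exists_sep_many hQj hBfin (fun D hD => hD.2.1)
      (fun D hD => hD.2.2.1) κ
    have haI : (⟨a₁ * c, (chart y j).mul_mem ha₁ hc⟩ : chart y j) ∈ I := by
      rw [hI]
      intro D hD hDj
      right
      change D.ord s - G D ≤ D.ord (a₁ * c)
      rw [D.ord_mul ha₁0 hc0]
      have h1 := reg_ord_nonneg (hDj.reg a₁ ha₁)
      have h2 := reg_ord_nonneg (hDj.reg c hc)
      by_cases hDQ : Through y D Q
      · have h3 := congrArg D.ord hab₁
        rw [D.ord_mul hsg0 hb₁0, D.ord_div hs0 hg0, hg D hD hDQ] at h3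
        have h4 := reg_ord_nonneg (hDj.reg b₁ hb₁)
        omega
      · by_cases hbad : D.ord s ≠ 0 ∨ G D ≠ 0
        · have h3 := hcB D ⟨hD, hDj, hDQ, hbad⟩
          have h4 := hκ D ⟨hD, hDj, hDQ, hbad⟩
          omega
        · push Not at hbad
          omega
    -- elements of the ideal times `g / s`
    have hreg : ∀ a : chart y j, a ∈ I → (a : K) * (g / s) ∈ localRing y Q := by
      intro a ha
      refine mem_localRing_of_reg hy fun D hD hDQ => ?_
      by_cases ha0 : (a : K) = 0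
      · rw [ha0, zero_mul]
        exact D.reg_zero
      right
      have h1 := ((hI a).1 ha D hD (hDQ.centred hQj)).resolve_left ha0
      rw [D.ord_mul ha0 (div_ne_zero hg0 hs0), D.ord_div hg0 hs0, hg D hD hDQ]
      omega
    have hex : ∃ a ∈ T, ¬ Ge Q 1 ((a : K) * (g / s)) := by
      by_contra hcon
      push Not at hcon
      have h1 : ∀ a ∈ I, Ge Q 1 ((a : K) * (g / s)) := by
        intro a ha
        rw [← hT] at ha
        refine Submodule.span_induction (p := fun (a : chart y j) _ => Ge Q 1 ((a : K) * (g / s))) ?_ ?_ ?_ ?_ ha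
        · intro a ha
          exact hcon a ha
        · exact Or.inl (by simp)
        · intro a b _ _ ha hb
          have : ((a + b : chart y j) : K) * (g / s) = (a : K) * (g / s) + (b : K) * (g / s) := by
            push_cast
            ring
          rw [this]
          exact ha.add hb
        · intro c a _ ha
          have : ((c • a : chart y j) : K) * (g / s) = (c : K) * ((a : K) * (g / s)) := by
            rw [smul_eq_mul]
            push_cast
            ring
          rw [this]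
          have h2 : Ge Q 0 (c : K) := hQj.reg c c.2
          have h3 := h2.mul ha
          rwa [zero_add] at h3
      have h2 := h1 _ haI
      have h3 : ((⟨a₁ * c, (chart y j).mul_mem ha₁ hc⟩ : chart y j) : K) * (g / s) = b₁ * c := by
        change a₁ * c * (g / s) = b₁ * c
        rw [← hab₁]
        field_simp
      rw [h3] at h2
      rcases h2 with h4 | h4
      · exact mul_ne_zero hb₁0 hc0 h4
      · rw [Q.ord_mul hb₁0 hc0, hb₁o, hco] at h4
        omega
    obtain ⟨a, haT, ha⟩ := hex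
    have haI' : a ∈ I := by
      rw [← hT]
      exact Ideal.subset_span haT
    have ha0 : (a : K) ≠ 0 := by
      intro h0
      apply ha
      left
      rw [h0, zero_mul]
    have hags0 : (a : K) * (g / s) ≠ 0 := mul_ne_zero ha0 (div_ne_zero hg0 hs0)
    have hao : Q.ord ((a : K) * (g / s)) = 0 := by
      have h1 := reg_ord_nonneg (localRing_reg (hreg a haI'))
      have h2 : ¬ (1 : ℤ) ≤ Q.ord ((a : K) * (g / s)) := fun h => ha (Or.inr h)
      omega
    refine ⟨(a : K) / s, Finset.mem_filter.2 ⟨Finset.mem_image.2 ⟨a, haT, rfl⟩,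
      div_ne_zero ha0 hs0⟩, fun D hD hDQ => ?_⟩
    have h1 := unit_through hDQ (hreg a haI') hags0 hao
    rw [D.ord_mul ha0 (div_ne_zero hg0 hs0), D.ord_div hg0 hs0, hg D hD hDQ] at h1
    rw [D.ord_div ha0 hs0]
    omega

/-- **Serre's theorem**: for a Cartier divisor `G` some `c H + G` is generated. -/
theorem serre (hy : NormalModel y) {G : Place ℂ K → ℤ}
    (hfin : {P | IsPrimeDivisor y P ∧ G P ≠ 0}.Finite)
    (hloc : ∀ Q, Divisorial n Q → ∃ g : K, g ≠ 0 ∧ ∀ P, IsPrimeDivisor y P → Through y P Q →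
      P.ord g = G P) {H : Place ℂ K → ℚ} (hH : Hyperplane y H) :
    ∃ c : ℕ, SemiampleDivisor y n (fun P => c * H P + G P) := by
  classical
  obtain ⟨a, ha, hHo⟩ := hH
  obtain ⟨B, hB⟩ : ∃ B : ℕ, ∀ P, IsPrimeDivisor y P → -(B : ℤ) ≤ G P := by
    obtain ⟨B, hB⟩ := (hfin.image fun P => (-(G P)).toNat).bddAbove
    refine ⟨B, fun P hP => ?_⟩
    by_cases h0 : G P = 0
    · rw [h0]
      have := Int.natCast_nonneg B
      omega
    · have h1 : (-(G P)).toNat ≤ B := hB ⟨P, ⟨hP, h0⟩, rfl⟩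
      omega
  choose T hT0 hTlow hTgen using fun j => chart_gen' hy hfin hloc j
  have hfin' : ∀ j, {D | IsPrimeDivisor y D ∧ ∃ f ∈ T j, D.ord f < 0}.Finite := by
    intro j
    have h1 : {D | IsPrimeDivisor y D ∧ ∃ f ∈ T j, D.ord f < 0} ⊆
        ⋃ f ∈ (T j : Set K), {D | IsPrimeDivisor y D ∧ D.ord f ≠ 0} := by
      rintro D ⟨hD, f, hf, h⟩
      refine Set.mem_iUnion₂.2 ⟨f, hf, hD, ?_⟩
      omega
    refine Set.Finite.subset ?_ h1
    exact Set.Finite.biUnion (T j).finite_toSet fun f hf => finite_ord hy (hT0 j f hf)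
  have hκ : ∀ j, ∃ κ : ℕ, ∀ D, IsPrimeDivisor y D → ∀ f ∈ T j, - (κ : ℤ) ≤ D.ord f := by
    intro j
    obtain ⟨κ, hκ⟩ := ((hfin' j).image fun D => (T j).sup fun f => (- D.ord f).toNat).bddAbove
    refine ⟨κ, fun D hD f hf => ?_⟩
    by_cases h0 : 0 ≤ D.ord f
    · have := Int.natCast_nonneg κ
      omega
    · have h1 : ((T j).sup fun f => (- D.ord f).toNat) ≤ κ :=
        hκ ⟨D, ⟨hD, f, hf, by omega⟩, rfl⟩
      have h2 : (- D.ord f).toNat ≤ (T j).sup fun f => (- D.ord f).toNat :=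
        Finset.le_sup (f := fun f => (- D.ord f).toNat) hf
      omega
  choose κ hκ using hκ
  obtain ⟨c, hc⟩ : ∃ c, c = Finset.univ.sup κ + B := ⟨_, rfl⟩
  have hcκ : ∀ j, (κ j : ℤ) + B ≤ c := fun j => by
    have := Finset.le_sup (f := κ) (Finset.mem_univ j)
    omega
  refine ⟨c, 1, le_rfl, fun Q hQ => ?_⟩
  obtain ⟨j, hj⟩ := exists_centred hy Q
  obtain ⟨f, hf, hfQ⟩ := hTgen j Q hQ hj
  have hf0 := hT0 j f hf
  have hja : y j / y a ≠ 0 := div_ne_zero hj.1 ha
  have hfj : f * (y j / y a) ^ c ≠ 0 := mul_ne_zero hf0 (pow_ne_zero _ hja)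
  refine ⟨f * (y j / y a) ^ c, ⟨hfj, fun D hD => ?_⟩, fun D hD hDQ => ?_⟩
  · obtain ⟨l, hl⟩ := exists_centred hy D
    change -(((1 : ℕ) : ℚ) * (c * H D + G D)) ≤ _
    rw [hHo D l hD hl, D.ord_mul hf0 (pow_ne_zero _ hja), D.ord_pow, D.ord_div hj.1 ha,
      D.ord_div ha hl.1]
    have h1 : -((c : ℤ) * (D.ord (y a) - D.ord (y l)) + G D) ≤
        D.ord f + c * (D.ord (y j) - D.ord (y a)) := by
      by_cases hcj : Centred y j D
      · have h2 := hTlow j D hD hcj f hf
        rw [cen_eq hl hcj]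
        linarith
      · have h2 : D.ord (y l) + 1 ≤ D.ord (y j) := by
          have h3 := cen_ord hl hj.1
          by_contra hcon
          have h4 : D.ord (y l) = D.ord (y j) := by omega
          apply hcj
          refine ⟨hj.1, fun i' => ?_⟩
          by_cases hi' : y i' = 0
          · rw [hi', zero_div]
            exact D.reg_zero
          · right
            rw [D.ord_div hi' hj.1]
            have := cen_ord hl hi'
            omega
        have h5 := hκ j D hD f hf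
        have h6 := hB D hD
        have h7 := hcκ j
        have h8 := mul_le_mul_of_nonneg_left h2 (Int.natCast_nonneg c)
        linarith
    have h2 : ((-((c : ℤ) * (D.ord (y a) - D.ord (y l)) + G D) : ℤ) : ℚ) ≤
        ((D.ord f + c * (D.ord (y j) - D.ord (y a)) : ℤ) : ℚ) := by exact_mod_cast h1
    push_cast at h2 ⊢
    linarith
  · change (D.ord (f * (y j / y a) ^ c) : ℚ) = -(((1 : ℕ) : ℚ) * (c * H D + G D))
    rw [hHo D j hD (hDQ.centred hj), D.ord_mul hf0 (pow_ne_zero _ hja), D.ord_pow,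
      D.ord_div hj.1 ha, D.ord_div ha hj.1, hfQ D hD hDQ]
    push_cast
    ring

theorem NefDivisor.of_semi (hy : NormalModel y) {E : Place ℂ K → ℚ}
    (hE : SemiampleDivisor y n E) : NefDivisor y n E := by
  intro H hH q hq
  exact (hE.nsmul q).add (hyperplane_semi hy hH)

/-- the pull-back of a nef divisor -/
theorem IsAut.nef (h : IsAut y n φ) (hy : NormalModel y) (hn : Algebra.trdeg ℂ K = n)
    {E : Place ℂ K → ℚ} (hE : NefDivisor y n E) : NefDivisor y n (tw φ E) := by
  classical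
  intro H hH q hq
  obtain ⟨a, ha, hHo⟩ := id hH
  -- the divisor `- φ^* H` is Cartier
  obtain ⟨l, hl⟩ : ∃ l : Place ℂ K → Fin (N + 1), ∀ P, Centred y (l P) P :=
    ⟨fun P => (exists_centred hy P).choose, fun P => (exists_centred hy P).choose_spec⟩
  obtain ⟨G, hG⟩ : ∃ G : Place ℂ K → ℤ, ∀ P, G P =
      -((P.comp φ).ord (y a / y (l (P.comp φ)))) := ⟨_, fun _ => rfl⟩
  have hGH : ∀ P, IsPrimeDivisor y P → (G P : ℚ) = - tw φ H P := by
    intro P hP
    rw [hG]
    unfold tw
    rw [hHo _ _ (h.prime hy hn hP) (hl _)]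
    push_cast
    ring
  have hHf : {P | IsPrimeDivisor y P ∧ H P ≠ 0}.Finite := by
    have h2 : ∀ l, {P | IsPrimeDivisor y P ∧ P.ord (y a / y l) ≠ 0}.Finite := by
      intro l
      by_cases hl : y l = 0
      · refine Set.finite_empty.subset ?_
        rintro P ⟨-, h0⟩
        apply h0
        rw [hl, div_zero, P.ord_zero]
      · exact finite_ord hy (div_ne_zero ha hl)
    refine (Set.finite_iUnion h2).subset ?_
    rintro P ⟨hP, h0⟩
    refine Set.mem_iUnion.2 ⟨l P, hP, fun h3 => h0 ?_⟩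
    rw [hHo P _ hP (hl P), h3, Int.cast_zero]
  obtain ⟨c, hc⟩ := serre (n := n) hy (G := G) (by
    refine (hHf.image fun P => P.comp φ.symm).subset ?_
    rintro P ⟨hP, h0⟩
    refine ⟨P.comp φ, ⟨h.prime hy hn hP, fun h1 => h0 ?_⟩, comp_symm P φ⟩
    have h2 := hGH P hP
    unfold tw at h2
    rw [h1, neg_zero] at h2
    exact_mod_cast h2) (by
    intro Q hQ
    obtain ⟨i, hi⟩ := exists_centred hy (Q.comp φ)
    refine ⟨φ (y i / y a), ?_, fun P hP hPQ => ?_⟩
    · rw [Ne, EmbeddingLike.map_eq_zero_iff]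
      exact div_ne_zero hi.1 ha
    · have h1 := h.through hQ hPQ
      have h2 := h1.centred hi
      rw [hG, ← comp_ord, (P.comp φ).ord_div hi.1 ha, (P.comp φ).ord_div ha (hl _).1,
        cen_eq (hl (P.comp φ)) h2]
      ring) hH
  -- the sum
  have h1 := (h.semi hy hn (hE H hH (q * (c + 1)) (Nat.mul_pos hq (Nat.succ_pos c)))).add hc
  have h2 := h1.add (hyperplane_semi hy hH)
  refine SemiampleDivisor.unscale (k := c + 1) (Nat.succ_pos c) (h2.congr fun P hP => ?_)
  rw [hGH P hP]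
  unfold tw
  push_cast
  ring

theorem tw_lin (a b : ℚ) (E E' : Place ℂ K → ℚ) :
    tw φ (fun Q => a * E Q + b * E' Q) = fun Q => a * tw φ E Q + b * tw φ E' Q := rfl

theorem NefDivisor.add {E E' : Place ℂ K → ℚ} (h : NefDivisor y n E) (h' : NefDivisor y n E') :
    NefDivisor y n (fun P => E P + E' P) := by
  intro H hH q hq
  have h1 := (h H hH (2 * q) (by omega)).add (h' H hH (2 * q) (by omega))
  refine SemiampleDivisor.unscale (k := 2) (by omega) (h1.congr fun P _ => ?_)
  push_cast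
  ring

/-- multiples by nonnegative integers -/
theorem NefDivisor.nsmul {E : Place ℂ K → ℚ} (hy : NormalModel y) (h : NefDivisor y n E) (k : ℕ) :
    NefDivisor y n (fun P => k * E P) := by
  intro H hH q hq
  rcases Nat.eq_zero_or_pos k with rfl | hk
  · refine (hyperplane_semi hy hH).congr fun P _ => ?_
    push_cast
    ring
  · refine (h H hH (q * k) (Nat.mul_pos hq hk)).congr fun P _ => ?_
    push_cast
    ring

theorem NefDivisor.undiv {E : Place ℂ K → ℚ} (hy : NormalModel y) {k : ℕ} (hk : 0 < k)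
    (h : NefDivisor y n (fun P => k * E P)) : NefDivisor y n E := by
  intro H hH q hq
  have h1 := (h H hH q hq).add ((hyperplane_semi (n := n) hy hH).nsmul (k - 1))
  refine SemiampleDivisor.unscale (k := k) hk (h1.congr fun P _ => ?_)
  have h2 : ((k - 1 : ℕ) : ℚ) = k - 1 := by
    rw [Nat.cast_sub hk, Nat.cast_one]
  rw [h2]
  ring

/-- multiples by nonnegative rational numbers -/
theorem NefDivisor.smul {E : Place ℂ K → ℚ} (hy : NormalModel y) (h : NefDivisor y n E) {c : ℚ}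
    (hc : 0 ≤ c) : NefDivisor y n (fun P => c * E P) := by
  refine NefDivisor.undiv (k := c.den) hy c.den_pos ((h.nsmul hy c.num.toNat).congr fun P _ => ?_)
  have h1 : ((c.num.toNat : ℕ) : ℚ) = c.num := by
    have h2 : 0 ≤ c.num := Rat.num_nonneg.2 hc
    exact_mod_cast Int.toNat_of_nonneg h2
  have h3 : (c.den : ℚ) * c = c.num := by
    rw [mul_comm]
    exact Rat.mul_den_eq_num c
  rw [h1, ← mul_assoc, h3]

end

end Pool.Agent.H890
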