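import Mathlib

/-!
Finitely generated cones over the rational numbers are closed.
-/

set_option autoImplicit false
set_option linter.unusedSectionVars false

namespace Pool.Agent.H890

section

variable {W : Type} [AddCommGroup W] [Module ℚ W] {ι : Type} [Fintype ι] [DecidableEq ι]

/-- `x` is a combination of the `e i`, `i ∈ T`, with positive coefficients -/
def PosOn (e : ι → W) (T : Finset ι) (x : W) : Prop :=
  ∃ a : ι → ℚ, (∀ i ∈ T, 0 < a i) ∧ x = ∑ i ∈ T, a i • e i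

theorem posOn_of_nonneg {e : ι → W} {x : W} {a : ι → ℚ} (ha : ∀ i, 0 ≤ a i)
    (hx : x = ∑ i, a i • e i) : ∃ T, PosOn e T x := by
  refine ⟨Finset.univ.filter fun i => 0 < a i, a, fun i hi => (Finset.mem_filter.1 hi).2, ?_⟩
  rw [hx, Finset.sum_filter_of_ne]
  intro i _ hi
  refine lt_of_le_of_ne (ha i) fun h0 => hi ?_
  rw [← h0, zero_smul]

/-- Caratheodory's theorem for cones -/
theorem exists_indep {e : ι → W} {x : W} (h : ∃ T, PosOn e T x) :
    ∃ T, PosOn e T x ∧ LinearIndepOn ℚ e (T : Set ι) := by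
  classical
  obtain ⟨T, hT, hmin⟩ : ∃ T, PosOn e T x ∧ ∀ T', PosOn e T' x → T.card ≤ T'.card := by
    have h1 : (Finset.univ.filter fun T : Finset ι => PosOn e T x).Nonempty := by
      obtain ⟨T, hT⟩ := h
      exact ⟨T, Finset.mem_filter.2 ⟨Finset.mem_univ _, hT⟩⟩
    obtain ⟨T, hT, hm⟩ := Finset.exists_min_image _ Finset.card h1
    exact ⟨T, (Finset.mem_filter.1 hT).2, fun T' hT' =>
      hm T' (Finset.mem_filter.2 ⟨Finset.mem_univ _, hT'⟩)⟩
  refine ⟨T, hT, ?_⟩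
  by_contra hdep
  obtain ⟨a, ha, hx⟩ := hT
  rw [linearIndepOn_finset_iff] at hdep
  push Not at hdep
  obtain ⟨c₀, hc₀, i₀, hi₀, hci₀⟩ := hdep
  -- a relation with a positive coefficient
  obtain ⟨c, hc, i₁, hi₁, hci₁⟩ : ∃ c : ι → ℚ, ∑ i ∈ T, c i • e i = 0 ∧ ∃ i ∈ T, 0 < c i := by
    rcases lt_or_gt_of_ne hci₀ with h1 | h1
    · refine ⟨fun i => - c₀ i, ?_, i₀, hi₀, by linarith⟩
      simp only [neg_smul, Finset.sum_neg_distrib, hc₀, neg_zero]
    · exact ⟨c₀, hc₀, i₀, hi₀, h1⟩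
  have hne : (T.filter fun i => 0 < c i).Nonempty := ⟨i₁, Finset.mem_filter.2 ⟨hi₁, hci₁⟩⟩
  obtain ⟨j, hj, hjmin⟩ := Finset.exists_min_image _ (fun i => a i / c i) hne
  obtain ⟨hjT, hcj⟩ := Finset.mem_filter.1 hj
  have h0 : ∀ i ∈ T, 0 ≤ a i - a j / c j * c i := by
    intro i hi
    by_cases hci : 0 < c i
    · have h1 := hjmin i (Finset.mem_filter.2 ⟨hi, hci⟩)
      rw [le_div_iff₀ hci] at h1
      linarith
    · push Not at hci
      have h1 : 0 < a j / c j := div_pos (ha j hjT) hcj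
      have h2 : a j / c j * c i ≤ 0 := mul_nonpos_of_nonneg_of_nonpos h1.le hci
      have h3 := ha i hi
      linarith
  have hx' : x = ∑ i ∈ T, (a i - a j / c j * c i) • e i := by
    simp only [sub_smul, mul_smul]
    rw [Finset.sum_sub_distrib, ← Finset.smul_sum, hc, smul_zero, sub_zero]
    exact hx
  have h2 : PosOn e (T.filter fun i => 0 < a i - a j / c j * c i) x := by
    refine ⟨fun i => a i - a j / c j * c i, fun i hi => (Finset.mem_filter.1 hi).2, ?_⟩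
    rw [hx', Finset.sum_filter_of_ne]
    intro i hi hne
    refine lt_of_le_of_ne (h0 i hi) fun h3 => hne ?_
    change (a i - a j / c j * c i) • e i = 0
    rw [← h3, zero_smul]
  have h3 := hmin _ h2
  have h4 : (T.filter fun i => 0 < a i - a j / c j * c i).card < T.card := by
    refine Finset.card_lt_card ?_
    rw [Finset.filter_ssubset]
    refine ⟨j, hjT, ?_⟩
    rw [div_mul_cancel₀ _ hcj.ne', sub_self]
    exact lt_irrefl _
  omega

/-- **Finitely generated cones are closed.** -/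
theorem cone_closed {e : ι → W} {x h : W} {S : Set ℕ} (hS : S.Infinite)
    (hx : ∀ n ∈ S, ∃ a : ι → ℚ, (∀ i, 0 ≤ a i) ∧ x + (1 / ((n : ℚ) + 1)) • h = ∑ i, a i • e i) :
    ∃ a : ι → ℚ, (∀ i, 0 ≤ a i) ∧ x = ∑ i, a i • e i := by
  classical
  have h1 : ∀ n : S, ∃ T, PosOn e T (x + (1 / (((n : ℕ) : ℚ) + 1)) • h) ∧
      LinearIndepOn ℚ e (T : Set ι) := fun n => by
    obtain ⟨a, ha, hxa⟩ := hx n n.2
    exact exists_indep (posOn_of_nonneg ha hxa)
  choose T hT hTi using h1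
  have : Infinite S := hS.to_subtype
  obtain ⟨T₀, hT₀⟩ := Finite.exists_infinite_fiber T
  have hT₀' : (T ⁻¹' {T₀}).Infinite := Set.infinite_coe_iff.1 hT₀
  obtain ⟨n₁, hn₁⟩ := hT₀'.nonempty
  obtain ⟨n₂, hn₂, hne⟩ : ∃ n₂ ∈ T ⁻¹' {T₀}, n₂ ≠ n₁ := by
    obtain ⟨n₂, hn₂⟩ := (hT₀'.sdiff (Set.finite_singleton n₁)).nonempty
    exact ⟨n₂, hn₂.1, hn₂.2⟩
  have hind : LinearIndepOn ℚ e (T₀ : Set ι) := by
    have := hTi n₁
    rwa [show T n₁ = T₀ from hn₁] at this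
  have hrep : ∀ n ∈ T ⁻¹' {T₀}, ∃ a : ι → ℚ, (∀ i ∈ T₀, 0 < a i) ∧
      x + (1 / (((n : ℕ) : ℚ) + 1)) • h = ∑ i ∈ T₀, a i • e i := by
    intro n hn
    have := hT n
    rwa [show T n = T₀ from hn] at this
  obtain ⟨a₁, ha₁, hx₁⟩ := hrep n₁ hn₁
  obtain ⟨a₂, ha₂, hx₂⟩ := hrep n₂ hn₂
  have hp₁ : (0 : ℚ) < ((n₁ : ℕ) : ℚ) + 1 := by positivity
  have hp₂ : (0 : ℚ) < ((n₂ : ℕ) : ℚ) + 1 := by positivity
  obtain ⟨δ, hδ⟩ : ∃ δ : ℚ, δ = 1 / (((n₁ : ℕ) : ℚ) + 1) - 1 / (((n₂ : ℕ) : ℚ) + 1) := ⟨_, rfl⟩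
  have hδ0 : δ ≠ 0 := by
    rw [hδ, sub_ne_zero]
    intro h0
    apply hne
    rw [div_eq_div_iff hp₁.ne' hp₂.ne'] at h0
    have h2 : ((n₂ : ℕ) : ℚ) = ((n₁ : ℕ) : ℚ) := by linarith
    exact Subtype.ext (by exact_mod_cast h2)
  -- `h` and `x` are combinations
  obtain ⟨β, hβ⟩ : ∃ β : ι → ℚ, β = fun i => (a₁ i - a₂ i) / δ := ⟨_, rfl⟩
  have hh : h = ∑ i ∈ T₀, β i • e i := by
    have h2 : δ • h = ∑ i ∈ T₀, (a₁ i - a₂ i) • e i := by
      simp only [sub_smul]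
      rw [Finset.sum_sub_distrib, ← hx₁, ← hx₂, hδ, sub_smul]
      abel
    have h3 : h = δ⁻¹ • (δ • h) := by
      rw [smul_smul, inv_mul_cancel₀ hδ0, one_smul]
    rw [h3, h2, Finset.smul_sum, hβ]
    refine Finset.sum_congr rfl fun i _ => ?_
    rw [smul_smul]
    congr 1
    ring
  obtain ⟨α, hα⟩ : ∃ α : ι → ℚ, α = fun i => a₁ i - 1 / (((n₁ : ℕ) : ℚ) + 1) * β i := ⟨_, rfl⟩
  have hxα : x = ∑ i ∈ T₀, α i • e i := by
    have h2 : x = (x + (1 / (((n₁ : ℕ) : ℚ) + 1)) • h) - (1 / (((n₁ : ℕ) : ℚ) + 1)) • h := by abel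
    rw [h2, hx₁]
    conv_lhs => rw [hh]
    rw [Finset.smul_sum, ← Finset.sum_sub_distrib, hα]
    refine Finset.sum_congr rfl fun i _ => ?_
    rw [sub_smul, smul_smul]
  have hpos : ∀ n ∈ T ⁻¹' {T₀}, ∀ i ∈ T₀, 0 < α i + 1 / (((n : ℕ) : ℚ) + 1) * β i := by
    intro n hn i hi
    obtain ⟨a, ha, hxa⟩ := hrep n hn
    have h2 : ∑ i ∈ T₀, (a i - (α i + 1 / (((n : ℕ) : ℚ) + 1) * β i)) • e i = 0 := by
      simp only [sub_smul, add_smul, mul_smul]
      rw [Finset.sum_sub_distrib, Finset.sum_add_distrib, ← Finset.smul_sum, ← hxa, ← hxα, ← hh]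
      abel
    have h3 := linearIndepOn_finset_iff.1 hind _ h2 i hi
    have h4 := ha i hi
    linarith
  refine ⟨fun i => if i ∈ T₀ then α i else 0, fun i => ?_, ?_⟩
  · by_cases hi : i ∈ T₀
    · simp only [hi, if_true]
      by_contra hcon
      push Not at hcon
      -- choose a large index
      obtain ⟨B, hB⟩ := exists_nat_gt (|β i| / (-α i))
      obtain ⟨n, hn, hnB⟩ : ∃ n ∈ T ⁻¹' {T₀}, B < (n : ℕ) := by
        by_contra hcon2
        push Not at hcon2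
        apply hT₀'
        refine Set.Finite.of_finite_image (f := fun n : S => (n : ℕ)) ?_
          (fun _ _ _ _ h => Subtype.ext h)
        refine (Set.finite_Iic B).subset ?_
        rintro _ ⟨n, hn, rfl⟩
        exact hcon2 n hn
      have h2 := hpos n hn i hi
      have h3 : (0 : ℚ) < ((n : ℕ) : ℚ) + 1 := by positivity
      have h4 : |β i| < (((n : ℕ) : ℚ) + 1) * (-α i) := by
        rw [div_lt_iff₀ (by linarith)] at hB
        have h5 : (B : ℚ) < (n : ℕ) := by exact_mod_cast hnB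
        nlinarith
      have h5 : 1 / (((n : ℕ) : ℚ) + 1) * β i ≤ 1 / (((n : ℕ) : ℚ) + 1) * |β i| :=
        mul_le_mul_of_nonneg_left (le_abs_self _) (by positivity)
      have h6 : 1 / (((n : ℕ) : ℚ) + 1) * |β i| < -α i := by
        rw [one_div, inv_mul_lt_iff₀ h3]
        exact h4
      linarith
    · simp only [hi, if_false]
      exact le_rfl
  · rw [hxα]
    simp only [ite_smul, zero_smul]
    rw [Finset.sum_ite_mem, Finset.univ_inter]

end

end Pool.Agent.H890
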