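import Pool.Agent.H890.Ca1
import Pool.Agent.H890.Ca2

/-!
The space of the divisors modulo numerical equivalence.
-/

set_option autoImplicit false
set_option linter.unusedSectionVars false
set_option linter.overlappingInstances false

open FF MvPolynomial Pool.Agent.W602.GT Pool.Agent.W603.LV Pool.Agent.Y172
  Pool.Agent.TH122.AB Pool.Agent.R887

namespace Pool.Agent.H890

section

variable {K : Type} [Field K] [Algebra ℂ K] {N n : ℕ} {y : Fin (N + 1) → K}

theorem NefDivisor.zero (hy : NormalModel y) : NefDivisor y n 0 := by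
  intro H hH q hq
  refine (hyperplane_semi hy hH).congr fun P _ => ?_
  rw [Pi.zero_apply]
  ring

/-- the numerically trivial divisors -/
def numTriv (hy : NormalModel y) (n : ℕ) : Submodule ℚ (Place ℂ K → ℚ) where
  carrier := {E | NefDivisor y n E ∧ NefDivisor y n (-E)}
  zero_mem' := ⟨NefDivisor.zero hy, by rw [neg_zero]; exact NefDivisor.zero hy⟩
  add_mem' := by
    rintro E E' ⟨h1, h2⟩ ⟨h3, h4⟩
    refine ⟨(h1.add h3).congr fun P _ => rfl, (h2.add h4).congr fun P _ => ?_⟩
    simp only [Pi.neg_apply, Pi.add_apply]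
    ring
  smul_mem' := by
    rintro c E ⟨h1, h2⟩
    rcases le_total 0 c with hc | hc
    · refine ⟨(h1.smul hy hc).congr fun P _ => rfl, (h2.smul hy hc).congr fun P _ => ?_⟩
      simp only [Pi.neg_apply, Pi.smul_apply, smul_eq_mul]
      ring
    · have hc' : 0 ≤ -c := by linarith
      refine ⟨(h2.smul hy hc').congr fun P _ => ?_, (h1.smul hy hc').congr fun P _ => ?_⟩
      · simp only [Pi.neg_apply, Pi.smul_apply, smul_eq_mul]
        ring
      · simp only [Pi.neg_apply, Pi.smul_apply, smul_eq_mul]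
        ring

/-- the class of a divisor -/
def cl (hy : NormalModel y) (n : ℕ) : (Place ℂ K → ℚ) →ₗ[ℚ] ((Place ℂ K → ℚ) ⧸ numTriv hy n) :=
  (numTriv hy n).mkQ

variable {hy : NormalModel y} {E E' : Place ℂ K → ℚ}

theorem cl_eq : cl hy n E = cl hy n E' ↔ NumEquiv y n E E' := by
  unfold cl
  rw [Submodule.mkQ_apply, Submodule.mkQ_apply, Submodule.Quotient.eq]
  change (NefDivisor y n (E - E') ∧ NefDivisor y n (-(E - E'))) ↔ _
  rw [neg_sub]
  exact Iff.rfl

theorem cl_congr (h : ∀ P, IsPrimeDivisor y P → E P = E' P) : cl hy n E = cl hy n E' :=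
  cl_eq.2 ⟨(NefDivisor.zero hy).congr fun P hP => by rw [Pi.sub_apply, h P hP, sub_self]; rfl,
    (NefDivisor.zero hy).congr fun P hP => by rw [Pi.sub_apply, h P hP, sub_self]; rfl⟩

/-- nefness depends only on the class -/
theorem nef_of_cl (h : cl hy n E = cl hy n E') (hE : NefDivisor y n E) : NefDivisor y n E' := by
  have h1 := (cl_eq.1 h).2
  refine (hE.add h1).congr fun P _ => ?_
  rw [Pi.sub_apply]
  ring

theorem NefDivisor.sum (hy : NormalModel y) {ι : Type} (s : Finset ι) {F : ι → Place ℂ K → ℚ}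
    {a : ι → ℚ} (ha : ∀ i ∈ s, 0 ≤ a i) (hF : ∀ i ∈ s, NefDivisor y n (F i)) :
    NefDivisor y n (∑ i ∈ s, a i • F i) := by
  classical
  induction s using Finset.induction_on with
  | empty => rw [Finset.sum_empty]; exact NefDivisor.zero hy
  | insert i s hi ih =>
    rw [Finset.sum_insert hi]
    refine (((hF i (Finset.mem_insert_self _ _)).smul hy (ha i (Finset.mem_insert_self _ _))).add
      (ih (fun j hj => ha j (Finset.mem_insert_of_mem hj)) fun j hj =>
        hF j (Finset.mem_insert_of_mem hj))).congr fun P _ => rfl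

theorem effective_sum {ι : Type} (s : Finset ι) {F : ι → Place ℂ K → ℚ}
    {a : ι → ℚ} (ha : ∀ i ∈ s, 0 ≤ a i) (hF : ∀ i ∈ s, Effective y (F i)) :
    Effective y (∑ i ∈ s, a i • F i) := by
  classical
  induction s using Finset.induction_on with
  | empty =>
    rw [Finset.sum_empty]
    exact ⟨fun _ _ => le_rfl, Set.finite_empty.subset (by rintro P ⟨-, h⟩; exact h rfl)⟩
  | insert i s hi ih =>
    rw [Finset.sum_insert hi]
    obtain ⟨h1, h2⟩ := ih (fun j hj => ha j (Finset.mem_insert_of_mem hj)) fun j hj =>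
      hF j (Finset.mem_insert_of_mem hj)
    obtain ⟨h3, h4⟩ := hF i (Finset.mem_insert_self _ _)
    have h5 := ha i (Finset.mem_insert_self _ _)
    refine ⟨fun P hP => ?_, (h2.union h4).subset ?_⟩
    · rw [Pi.add_apply, Pi.smul_apply, smul_eq_mul]
      have := h1 P hP
      have := mul_nonneg h5 (h3 P hP)
      linarith
    · rintro P ⟨hP, h0⟩
      by_contra hcon
      simp only [Set.mem_union, Set.mem_ofPred_eq, not_or, not_and, not_not] at hcon
      apply h0
      rw [Pi.add_apply, Pi.smul_apply, smul_eq_mul, hcon.2 hP, mul_zero, zero_add]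
      exact hcon.1 hP

variable {φ φ' : K ≃ₐ[ℂ] K}

/-- the action on the divisors -/
noncomputable def twL (φ : K ≃ₐ[ℂ] K) : (Place ℂ K → ℚ) →ₗ[ℚ] (Place ℂ K → ℚ) where
  toFun := tw φ
  map_add' _ _ := rfl
  map_smul' _ _ := rfl

theorem twL_apply (E : Place ℂ K → ℚ) : twL φ E = tw φ E := rfl

theorem cl_tw (h : IsAut y n φ) (hn : Algebra.trdeg ℂ K = n) (he : cl hy n E = cl hy n E') :
    cl hy n (tw φ E) = cl hy n (tw φ E') := by
  obtain ⟨h1, h2⟩ := cl_eq.1 he
  exact cl_eq.2 ⟨h.nef hy hn h1, h.nef hy hn h2⟩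

theorem comp_mul (Q : Place ℂ K) (φ φ' : K ≃ₐ[ℂ] K) : Q.comp (φ * φ') = (Q.comp φ).comp φ' := by
  apply Place.ext
  funext f
  rfl

theorem tw_tw (φ φ' : K ≃ₐ[ℂ] K) (E : Place ℂ K → ℚ) : tw φ (tw φ' E) = tw (φ * φ') E := by
  funext P
  unfold tw
  rw [comp_mul]

theorem IsAut.mul (h : IsAut y n φ) (h' : IsAut y n φ') : IsAut y n (φ * φ') := by
  intro Q hQ f
  rw [comp_mul, h' _ (divisorial_comp φ hQ), h _ hQ]
  rfl

theorem IsAut.inv (h : IsAut y n φ) : IsAut y n φ⁻¹ := h.symm

theorem comp_one' (Q : Place ℂ K) : Q.comp (1 : K ≃ₐ[ℂ] K) = Q := by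
  apply Place.ext
  funext f
  rfl

theorem isAut_one : IsAut y n (1 : K ≃ₐ[ℂ] K) := by
  intro Q _ f
  rw [comp_one']
  rfl

end

end Pool.Agent.H890
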