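import Pool.Agent.H890.CaI

/-!
Fibrations: vertical divisors and descent of automorphisms.
-/

set_option autoImplicit false
set_option linter.unusedSectionVars false
set_option linter.overlappingInstances false

open FF MvPolynomial Pool.Agent.W602.GT Pool.Agent.W603.LV Pool.Agent.Y172
  Pool.Agent.TH122.AB Pool.Agent.R887

namespace Pool.Agent.H890

section

variable {K M : Type} [Field K] [Field M] [Algebra ℂ K] [Algebra ℂ M] [Algebra K M]
  [IsScalarTower ℂ K M] {N N' n d : ℕ} {y : Fin (N + 1) → K} {v : Fin (N' + 1) → M}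

/-- the properties of the fibration which are used -/
structure Fib (y : Fin (N + 1) → K) (n : ℕ) (v : Fin (N' + 1) → M) (d : ℕ) : Prop where
  ny : NormalModel y
  nv : NormalModel v
  trK : Algebra.trdeg ℂ K = n
  trM : Algebra.trdeg ℂ M = d
  ex : ∃ Q : Place ℂ K, Divisorial n Q
  cases : ∀ {P : Place ℂ M}, IsPrimeDivisor v P → (∀ f : K, P.ord (algebraMap K M f) = 0) ∨
    ∃ Q, IsPrimeDivisor y Q ∧ ∀ f, P.ord (algebraMap K M f) = Q.ord f
  exP : ∀ {Q : Place ℂ K}, IsPrimeDivisor y Q →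
    ∃ P : Place ℂ M, IsPrimeDivisor v P ∧ ∀ f, P.ord (algebraMap K M f) = Q.ord f
  uniq : ∀ {Q : Place ℂ K}, IsPrimeDivisor y Q → ∀ {P P' : Place ℂ M}, IsPrimeDivisor v P →
    IsPrimeDivisor v P' → (∀ f, P.ord (algebraMap K M f) = Q.ord f) →
      (∀ f, P'.ord (algebraMap K M f) = Q.ord f) → P = P'
  const : ∀ {g : M}, (∀ P, IsPrimeDivisor v P → (∀ f : K, P.ord (algebraMap K M f) = 0) →
    P.Reg g) → ∃ a : K, g = algebraMap K M a
  bound : ∀ {P₀ : Place ℂ M}, IsPrimeDivisor v P₀ → (∀ f : K, P₀.ord (algebraMap K M f) = 0) →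
    ∀ {H : Place ℂ M → ℚ}, Hyperplane v H → ∃ C : ℕ, ∀ m : ℕ, ∀ f : M, f ≠ 0 →
      (∀ P, IsPrimeDivisor v P → (∀ c : K, P.ord (algebraMap K M c) = 0) →
        -((m : ℚ) * H P) ≤ P.ord f) → (P₀.ord f : ℚ) ≤ C * m
  nef_up : ∀ {E : Place ℂ K → ℚ}, NefDivisor y n E → NefDivisor v d (pb y M E)
  nef_down : ∀ {E : Place ℂ K → ℚ}, NefDivisor v d (pb y M E) → NefDivisor y n E
  down : ∀ {Q : Place ℂ K}, Divisorial n Q → ∃ (P : Place ℂ M) (e : ℕ), Divisorial d P ∧
    Over P Q e ∧ ∀ g : K, algebraMap K M g ∈ localRing v P → g ∈ localRing y Q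
  local_le : ∀ {P : Place ℂ M} {Q : Place ℂ K} {e : ℕ}, Over P Q e → ∀ f ∈ localRing y Q,
    algebraMap K M f ∈ localRing v P

/-- **Effective divisors whose opposite is relatively nef are vertical.** -/
theorem Fib.vert (h : Fib y n v d) {B : Place ℂ K → ℚ} {F : Place ℂ M → ℚ}
    (hF : ∀ P, IsPrimeDivisor v P → 0 ≤ F P) {c : ℚ} (hc : 0 < c)
    (hn : NefDivisor v d fun P => pb y M B P - c * F P) {P₀ : Place ℂ M}
    (hP₀ : IsPrimeDivisor v P₀) (htr : ∀ f : K, P₀.ord (algebraMap K M f) = 0) : F P₀ = 0 := by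
  by_contra hne
  have hpos : 0 < F P₀ := lt_of_le_of_ne (hF P₀ hP₀) (Ne.symm hne)
  obtain ⟨a, ha⟩ := h.nv.ne
  obtain ⟨H, hH, -⟩ := exists_hyperplane h.nv ha
  obtain ⟨C, hC⟩ := h.bound hP₀ htr hH
  obtain ⟨Q, hQ⟩ := h.ex
  obtain ⟨P, e, hP, -⟩ := h.down hQ
  have hcF : 0 < c * F P₀ := mul_pos hc hpos
  obtain ⟨q, hq⟩ := exists_nat_gt ((C + H P₀) / (c * F P₀))
  rw [div_lt_iff₀ hcF] at hq
  obtain ⟨m, hm, hsec⟩ := hn H hH (q + 1) (Nat.succ_pos q)
  obtain ⟨f, hf, -⟩ := hsec P hP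
  have hm0 : (0 : ℚ) < m := by exact_mod_cast hm
  have h1 := hC m f hf.1 fun P' hP' htr' => by
    have h2 : -((m : ℚ) * (((q + 1 : ℕ) : ℚ) * (pb y M B P' - c * F P') + H P')) ≤ P'.ord f :=
      hf.2 P' hP'
    rw [pb_triv htr'] at h2
    have h3 := mul_nonneg hc.le (hF P' hP')
    have h4 : (0 : ℚ) ≤ m * (((q + 1 : ℕ) : ℚ) * (c * F P')) := by positivity
    linarith
  have h2 : -((m : ℚ) * (((q + 1 : ℕ) : ℚ) * (pb y M B P₀ - c * F P₀) + H P₀)) ≤ P₀.ord f :=
    hf.2 P₀ hP₀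
  rw [pb_triv htr] at h2
  push_cast at h2
  have h3 : (m : ℚ) * (C + H P₀) < m * ((q + 1) * (c * F P₀)) := by
    refine mul_lt_mul_of_pos_left ?_ hm0
    linarith
  linarith

/-- **Vertical divisors are pull-backs.** -/
theorem Fib.exists_pb (h : Fib y n v d) {F : Place ℂ M → ℚ} (hF : Effective v F)
    (hv : ∀ P, IsPrimeDivisor v P → (∀ f : K, P.ord (algebraMap K M f) = 0) → F P = 0) :
    ∃ E : Place ℂ K → ℚ, Effective y E ∧ ∀ P, IsPrimeDivisor v P → F P = pb y M E P := by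
  classical
  have hch : ∀ Q : Place ℂ K, ∃ P : Place ℂ M, IsPrimeDivisor y Q →
      IsPrimeDivisor v P ∧ ∀ f, P.ord (algebraMap K M f) = Q.ord f := by
    intro Q
    by_cases hQ : IsPrimeDivisor y Q
    · obtain ⟨P, hP⟩ := h.exP hQ
      exact ⟨P, fun _ => hP⟩
    · obtain ⟨Q', hQ'⟩ := h.ex
      obtain ⟨P, -⟩ := h.down hQ'
      exact ⟨P, fun h1 => absurd h1 hQ⟩
  choose p hp using hch
  refine ⟨fun Q => F (p Q), ⟨fun Q hQ => hF.1 _ (hp Q hQ).1, ?_⟩, fun P hP => ?_⟩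
  · have hinj : Set.InjOn p {Q | IsPrimeDivisor y Q ∧ F (p Q) ≠ 0} := by
      rintro Q ⟨hQ, -⟩ Q' ⟨hQ', -⟩ he
      apply Place.ext
      funext f
      rw [← (hp Q hQ).2, ← (hp Q' hQ').2, he]
    refine Set.Finite.of_finite_image (hF.2.subset ?_) hinj
    rintro _ ⟨Q, ⟨hQ, h0⟩, rfl⟩
    exact ⟨(hp Q hQ).1, h0⟩
  · rcases h.cases hP with htr | ⟨Q, hQ, hPQ⟩
    · rw [pb_triv htr, hv P hP htr]
    · rw [pb_over hQ hPQ, h.uniq hQ hP (hp Q hQ).1 hPQ (hp Q hQ).2]

variable {u : M ≃ₐ[ℂ] M} {φ : K ≃ₐ[ℂ] K}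

/-- an automorphism which preserves the verticality of the hyperplane sections of the base preserves
the function field of the base -/
theorem Fib.maps (h : Fib y n v d) (hu : IsAut v d u) {H : Place ℂ K → ℚ} (hH : Hyperplane y H)
    (hv : ∀ P, IsPrimeDivisor v P → (∀ f : K, P.ord (algebraMap K M f) = 0) →
      tw u (pb y M H) P = 0) (f : K) : ∃ g : K, u (algebraMap K M f) = algebraMap K M g := by
  obtain ⟨a, ha, hHa⟩ := hH
  -- the generators
  have hgen : ∀ i, ∃ g : K, u (algebraMap K M (y i / y a)) = algebraMap K M g := by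
    intro i
    by_cases hi : y i = 0
    · exact ⟨0, by rw [hi, zero_div, map_zero, map_zero]⟩
    refine h.const fun P hP htr => ?_
    have hP' := hu.prime h.nv h.trM hP
    have h0 := hv P hP htr
    rw [← comp_reg]
    right
    rcases h.cases hP' with h1 | ⟨D, hD, h1⟩
    · exact (h1 _).ge
    · rw [h1]
      change pb y M H (P.comp u) = 0 at h0
      rw [pb_over hD h1] at h0
      obtain ⟨l, hl⟩ := exists_centred h.ny D
      rw [hHa D l hD hl] at h0
      have h2 : D.ord (y a / y l) = 0 := by exact_mod_cast h0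
      rw [D.ord_div ha hl.1] at h2
      rw [D.ord_div hi ha]
      have := cen_ord hl hi
      omega
  let F : IntermediateField ℂ K :=
    { carrier := {f | ∃ g : K, u (algebraMap K M f) = algebraMap K M g}
      mul_mem' := by
        rintro f f' ⟨g, hg⟩ ⟨g', hg'⟩
        exact ⟨g * g', by rw [map_mul, map_mul, hg, hg', map_mul]⟩
      add_mem' := by
        rintro f f' ⟨g, hg⟩ ⟨g', hg'⟩
        exact ⟨g + g', by rw [map_add, map_add, hg, hg', map_add]⟩
      algebraMap_mem' := fun c => ⟨algebraMap ℂ K c, by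
        rw [← IsScalarTower.algebraMap_apply, u.commutes]⟩
      inv_mem' := by
        rintro f ⟨g, hg⟩
        exact ⟨g⁻¹, by rw [map_inv₀, map_inv₀, hg, map_inv₀]⟩ }
  have h1 : IntermediateField.adjoin ℂ (Set.range fun i => y i / y a) ≤ F := by
    rw [IntermediateField.adjoin_le_iff]
    rintro _ ⟨i, rfl⟩
    exact hgen i
  rw [h.ny.field a ha] at h1
  exact h1 IntermediateField.mem_top

/-- descent of an automorphism of fields -/
theorem exists_desc (h1 : ∀ f : K, ∃ g : K, u (algebraMap K M f) = algebraMap K M g)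
    (h2 : ∀ f : K, ∃ g : K, u⁻¹ (algebraMap K M f) = algebraMap K M g) :
    ∃ φ : K ≃ₐ[ℂ] K, ∀ f, u (algebraMap K M f) = algebraMap K M (φ f) := by
  have key : ∀ w : M ≃ₐ[ℂ] M, (∀ f : K, ∃ g : K, w (algebraMap K M f) = algebraMap K M g) →
      ∃ φ : K →ₐ[ℂ] K, ∀ f, w (algebraMap K M f) = algebraMap K M (φ f) := by
    intro w hw
    choose g hg using hw
    have hinj := (algebraMap K M).injective
    refine ⟨{ toFun := g, map_one' := ?_, map_mul' := ?_, map_zero' := ?_, map_add' := ?_,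
              commutes' := ?_ }, hg⟩
    · apply hinj
      rw [← hg, map_one, map_one]
    · intro a b
      apply hinj
      rw [← hg, map_mul, map_mul, hg, hg, map_mul]
    · apply hinj
      rw [← hg, map_zero, map_zero]
    · intro a b
      apply hinj
      rw [← hg, map_add, map_add, hg, hg, map_add]
    · intro c
      apply hinj
      rw [← hg, ← IsScalarTower.algebraMap_apply, w.commutes]
  obtain ⟨φ₁, hφ₁⟩ := key u h1
  obtain ⟨φ₂, hφ₂⟩ := key u⁻¹ h2
  refine ⟨AlgEquiv.ofAlgHom φ₁ φ₂ ?_ ?_, hφ₁⟩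
  · ext f
    apply (algebraMap K M).injective
    change algebraMap K M (φ₁ (φ₂ f)) = algebraMap K M f
    rw [← hφ₁, ← hφ₂]
    exact u.apply_symm_apply _
  · ext f
    apply (algebraMap K M).injective
    change algebraMap K M (φ₂ (φ₁ f)) = algebraMap K M f
    rw [← hφ₂, ← hφ₁]
    exact u.symm_apply_apply _

theorem compat_symm (hc : ∀ f, u (algebraMap K M f) = algebraMap K M (φ f)) (f : K) :
    u.symm (algebraMap K M f) = algebraMap K M (φ.symm f) := by
  rw [AlgEquiv.symm_apply_eq, hc, AlgEquiv.apply_symm_apply]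

theorem over_comp (hc : ∀ f, u (algebraMap K M f) = algebraMap K M (φ f)) {P : Place ℂ M}
    {Q : Place ℂ K} {e : ℕ} (h : Over P Q e) : Over (P.comp u) (Q.comp φ) e :=
  ⟨h.1, fun f => by rw [comp_ord, comp_ord, hc, h.2]⟩

/-- **Descent of automorphisms.** -/
theorem Fib.aut (h : Fib y n v d) (hu : IsAut v d u)
    (hc : ∀ f, u (algebraMap K M f) = algebraMap K M (φ f)) : IsAut y n φ := by
  have key : ∀ (u : M ≃ₐ[ℂ] M) (φ : K ≃ₐ[ℂ] K), IsAut v d u →
      (∀ f, u (algebraMap K M f) = algebraMap K M (φ f)) → ∀ Q : Place ℂ K, Divisorial n Q →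
      ∀ f, f ∈ localRing y (Q.comp φ) → φ f ∈ localRing y Q := by
    intro u φ hu hc Q hQ f hf
    obtain ⟨P, e, hP, hPQ, hdown⟩ := h.down hQ
    have h1 := h.local_le (over_comp hc hPQ) f hf
    have h2 := (hu P hP _).1 h1
    rw [hc] at h2
    exact hdown _ h2
  intro Q hQ f
  refine ⟨key u φ hu hc Q hQ f, fun hf => ?_⟩
  have h1 := key u.symm φ.symm hu.symm (compat_symm hc) (Q.comp φ) (divisorial_comp φ hQ) (φ f)
    (by rwa [comp_symm])
  rwa [AlgEquiv.symm_apply_apply] at h1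

/-- compatibility of the pull-backs -/
theorem Fib.pb_tw (h : Fib y n v d) (hu : IsAut v d u)
    (hc : ∀ f, u (algebraMap K M f) = algebraMap K M (φ f)) (E : Place ℂ K → ℚ) {P : Place ℂ M}
    (hP : IsPrimeDivisor v P) : tw u (pb y M E) P = pb y M (tw φ E) P := by
  have hφ := h.aut hu hc
  rcases h.cases hP with htr | ⟨Q, hQ, hPQ⟩
  · rw [pb_triv htr]
    change pb y M E (P.comp u) = 0
    refine pb_triv fun f => ?_
    rw [comp_ord, hc, htr]
  · rw [pb_over hQ hPQ]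
    change pb y M E (P.comp u) = E (Q.comp φ)
    refine pb_over (hφ.prime h.ny h.trK hQ) fun f => ?_
    rw [comp_ord, comp_ord, hc, hPQ]

end

end Pool.Agent.H890
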