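import Pool.Agent.H890.Ca4

/-!
Fibrations: the cone conjecture.
-/

set_option autoImplicit false
set_option linter.unusedSectionVars false
set_option linter.overlappingInstances false

open FF MvPolynomial Pool.Agent.W602.GT Pool.Agent.W603.LV Pool.Agent.Y172
  Pool.Agent.TH122.AB Pool.Agent.R887

namespace Pool.Agent.H890

section base

variable {K : Type} [Field K] [Algebra ℂ K] {N n : ℕ} {y : Fin (N + 1) → K}
  {E E' F F' : Place ℂ K → ℚ}

theorem NumEquiv.trans' {E'' : Place ℂ K → ℚ} (h : NumEquiv y n E E') (h' : NumEquiv y n E' E'') :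
    NumEquiv y n E E'' := by
  refine ⟨(h.1.add h'.1).congr fun P _ => ?_, (h.2.add h'.2).congr fun P _ => ?_⟩
  · simp only [Pi.sub_apply]
    ring
  · simp only [Pi.sub_apply]
    ring

theorem NumEquiv.symm' (h : NumEquiv y n E E') : NumEquiv y n E' E := ⟨h.2, h.1⟩

theorem NumEquiv.congr' (h : NumEquiv y n E E') (h1 : ∀ P, IsPrimeDivisor y P → E P = F P)
    (h2 : ∀ P, IsPrimeDivisor y P → E' P = F' P) : NumEquiv y n F F' :=
  ⟨h.1.congr fun P hP => by rw [Pi.sub_apply, Pi.sub_apply, h1 P hP, h2 P hP],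
    h.2.congr fun P hP => by rw [Pi.sub_apply, Pi.sub_apply, h1 P hP, h2 P hP]⟩

theorem NumEquiv.tw {φ : K ≃ₐ[ℂ] K} (h : NumEquiv y n E E') (hφ : IsAut y n φ)
    (hy : NormalModel y) (hn : Algebra.trdeg ℂ K = n) :
    NumEquiv y n (Pool.Agent.H890.tw φ E) (Pool.Agent.H890.tw φ E') :=
  ⟨hφ.nef hy hn h.1, hφ.nef hy hn h.2⟩

theorem tw_sum (φ : K ≃ₐ[ℂ] K) {ι : Type} (s : Finset ι) (a : ι → ℚ) (E : ι → Place ℂ K → ℚ) :
    tw φ (∑ i ∈ s, a i • E i) = ∑ i ∈ s, a i • tw φ (E i) := by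
  funext P
  unfold tw
  rw [Finset.sum_apply, Finset.sum_apply]
  rfl

end base

section

variable {K M : Type} [Field K] [Field M] [Algebra ℂ K] [Algebra ℂ M] [Algebra K M]
  [IsScalarTower ℂ K M] {N N' n d : ℕ} {y : Fin (N + 1) → K} {v : Fin (N' + 1) → M}

theorem pb_sum {ι : Type} (s : Finset ι) (a : ι → ℚ) (E : ι → Place ℂ K → ℚ) (P : Place ℂ M) :
    pb y M (∑ i ∈ s, a i • E i) P = ∑ i ∈ s, a i * pb y M (E i) P := by
  by_cases hq : ∃ Q, IsPrimeDivisor y Q ∧ ∀ f, P.ord (algebraMap K M f) = Q.ord f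
  · obtain ⟨Q, hQ, hPQ⟩ := hq
    rw [pb_over hQ hPQ, Finset.sum_apply]
    refine Finset.sum_congr rfl fun i _ => ?_
    rw [pb_over hQ hPQ]
    rfl
  · unfold pb
    rw [dif_neg hq]
    symm
    refine Finset.sum_eq_zero fun i _ => ?_
    rw [dif_neg hq, mul_zero]

/-- the reference data -/
def Good (y : Fin (N + 1) → K) (n : ℕ) (v : Fin (N' + 1) → M) (d : ℕ) (H : Place ℂ K → ℚ) {k : ℕ}
    (E : Fin k → Place ℂ M → ℚ) (T : Finset (Fin k)) (ψ : M ≃ₐ[ℂ] M) : Prop :=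
  IsAut v d ψ ∧ ∃ (B : Place ℂ K → ℚ) (ε : ℚ) (a : Fin k → ℚ), 0 < ε ∧
    NefDivisor y n (fun P => B P - ε * H P) ∧ (∀ i ∈ T, 0 < a i) ∧
    NumEquiv v d (pb y M B) (tw ψ (∑ i ∈ T, a i • E i))

variable {H : Place ℂ K → ℚ} {k : ℕ} {E : Fin k → Place ℂ M → ℚ} {T : Finset (Fin k)}
  {ψ ψ' : M ≃ₐ[ℂ] M}

/-- the generators are pull-backs -/
theorem Good.vert (hg : Good y n v d H E T ψ) (h : Fib y n v d)
    (hE : ∀ i, Effective v (E i) ∧ NefDivisor v d (E i)) {i : Fin k} (hi : i ∈ T) :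
    ∃ E₀ : Place ℂ K → ℚ, (Effective y E₀ ∧ NefDivisor y n E₀) ∧
      ∀ P, IsPrimeDivisor v P → tw ψ (E i) P = pb y M E₀ P := by
  obtain ⟨hψ, B, ε, a, hε, hB, ha, h1, h2⟩ := hg
  have hEψ : ∀ i, Effective v (tw ψ (E i)) ∧ NefDivisor v d (tw ψ (E i)) := fun i =>
    ⟨hψ.effective h.nv h.trM (hE i).1, hψ.nef h.nv h.trM (hE i).2⟩
  have h3 : NefDivisor v d (fun P => pb y M B P - a i * tw ψ (E i) P) := by
    have h4 := NefDivisor.sum (n := d) h.nv (T.erase i) (F := fun i => tw ψ (E i)) (a := a)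
      (fun j hj => (ha j (Finset.mem_of_mem_erase hj)).le) (fun j _ => (hEψ j).2)
    refine (h1.add h4).congr fun P _ => ?_
    rw [tw_sum, Pi.sub_apply, Finset.sum_apply, Finset.sum_apply,
      ← Finset.add_sum_erase _ _ hi]
    simp only [Pi.smul_apply, smul_eq_mul]
    ring
  obtain ⟨E₀, hE₀, hpb⟩ := h.exists_pb (hEψ i).1 fun P hP htr =>
    h.vert (fun P hP => (hEψ i).1.1 P hP) (ha i hi) h3 hP htr
  exact ⟨E₀, ⟨hE₀, h.nef_down ((hEψ i).2.congr hpb)⟩, hpb⟩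

/-- comparison of two automorphisms with the same reference data -/
theorem Good.comp (hg : Good y n v d H E T ψ) (hg' : Good y n v d H E T ψ') (h : Fib y n v d)
    (hE : ∀ i, Effective v (E i) ∧ NefDivisor v d (E i)) (hH : Effective y H) {P : Place ℂ M}
    (hP : IsPrimeDivisor v P) (htr : ∀ f : K, P.ord (algebraMap K M f) = 0) :
    tw (ψ * ψ'⁻¹) (pb y M H) P = 0 := by
  obtain ⟨u, hu⟩ : ∃ u, u = ψ * ψ'⁻¹ := ⟨_, rfl⟩
  have huψ : u * ψ' = ψ := by rw [hu, mul_assoc, inv_mul_cancel, mul_one]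
  have hua : IsAut v d u := by
    rw [hu]
    exact hg.1.mul hg'.1.inv
  rw [← hu]
  have hch : ∀ i, ∃ E₀ : Place ℂ K → ℚ, i ∈ T → ∀ P, IsPrimeDivisor v P →
      tw ψ (E i) P = pb y M E₀ P := by
    intro i
    by_cases hi : i ∈ T
    · obtain ⟨E₀, -, h1⟩ := hg.vert h hE hi
      exact ⟨E₀, fun _ => h1⟩
    · exact ⟨0, fun h1 => absurd h1 hi⟩
  choose E₀ hE₀ using hch
  obtain ⟨hψ', B, ε, a, hε, hB, ha, hnum⟩ := hg'
  have h1 := (hnum.tw hua h.nv h.trM).2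
  rw [tw_tw, huψ] at h1
  have h2 := hua.nef h.nv h.trM (h.nef_up hB)
  have h3 : NefDivisor v d (fun P => pb y M (∑ i ∈ T, a i • E₀ i) P - ε * tw u (pb y M H) P) := by
    refine (h1.add h2).congr fun P hP => ?_
    have h4 : tw u (pb y M fun P => B P - ε * H P) P =
        tw u (pb y M B) P - ε * tw u (pb y M H) P := by
      have h5 := pb_lin (y := y) (M := M) 1 (-ε) B H (P.comp u)
      have h6 : (fun Q => (1 : ℚ) * B Q + -ε * H Q) = fun Q => B Q - ε * H Q := by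
        funext Q
        ring
      rw [h6] at h5
      change pb y M (fun Q => B Q - ε * H Q) (P.comp u) = _
      rw [h5]
      change _ = pb y M B (P.comp u) - ε * pb y M H (P.comp u)
      ring
    rw [h4, pb_sum, tw_sum, Pi.sub_apply, Finset.sum_apply]
    have h5 : ∑ i ∈ T, (a i • tw ψ (E i)) P = ∑ i ∈ T, a i * pb y M (E₀ i) P :=
      Finset.sum_congr rfl fun i hi => by
        rw [Pi.smul_apply, smul_eq_mul, hE₀ i hi P hP]
    rw [h5]
    ring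
  refine h.vert (fun P hP => ?_) hε h3 hP htr
  have h4 := hua.prime h.nv h.trM hP
  change 0 ≤ pb y M H (P.comp u)
  rcases h.cases h4 with h5 | ⟨D, hD, h5⟩
  · rw [pb_triv h5]
  · rw [pb_over hD h5]
    exact hH.1 D hD

/-- the quotient of the two automorphisms descends -/
theorem Good.desc (hg : Good y n v d H E T ψ) (hg' : Good y n v d H E T ψ') (h : Fib y n v d)
    (hE : ∀ i, Effective v (E i) ∧ NefDivisor v d (E i)) (hH : Effective y H)
    (hHy : Hyperplane y H) : ∃ φ : K ≃ₐ[ℂ] K, IsAut y n φ ∧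
      ∀ f, (ψ * ψ'⁻¹) (algebraMap K M f) = algebraMap K M (φ f) := by
  have h1 := h.maps (hg.1.mul hg'.1.inv) hHy fun P hP htr => hg.comp hg' h hE hH hP htr
  have h2 := h.maps (hg'.1.mul hg.1.inv) hHy fun P hP htr => hg'.comp hg h hE hH hP htr
  have h3 : ψ' * ψ⁻¹ = (ψ * ψ'⁻¹)⁻¹ := by rw [mul_inv_rev, inv_inv]
  rw [h3] at h2
  obtain ⟨φ, hφ⟩ := exists_desc h1 h2
  exact ⟨φ, h.aut (hg.1.mul hg'.1.inv) hφ, hφ⟩

end

end Pool.Agent.H890
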