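import Pool.Agent.H890.Ca5

/-!
Fibrations: the cone conjecture descends.
-/

set_option autoImplicit false
set_option linter.unusedSectionVars false
set_option linter.overlappingInstances false

open FF MvPolynomial Pool.Agent.W602.GT Pool.Agent.W603.LV Pool.Agent.Y172
  Pool.Agent.TH122.AB Pool.Agent.R887

namespace Pool.Agent.H890

theorem hyperplane_effective {K : Type} [Field K] [Algebra ℂ K] {N : ℕ} {y : Fin (N + 1) → K}
    (hy : NormalModel y) {H : Place ℂ K → ℚ} (hH : Hyperplane y H) : Effective y H := by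
  obtain ⟨a, ha, hHa⟩ := hH
  refine ⟨fun P hP => ?_, ?_⟩
  · obtain ⟨l, hl⟩ := exists_centred hy P
    rw [hHa P l hP hl]
    exact_mod_cast reg_ord_nonneg (hl.2 a)
  · have h2 : ∀ l, {P | IsPrimeDivisor y P ∧ P.ord (y a / y l) ≠ 0}.Finite := by
      intro l
      by_cases hl : y l = 0
      · refine Set.finite_empty.subset ?_
        rintro P ⟨-, h0⟩
        apply h0
        rw [hl, div_zero, P.ord_zero]
      · exact finite_ord hy (div_ne_zero ha hl)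
    refine (Set.finite_iUnion h2).subset ?_
    rintro P ⟨hP, h0⟩
    obtain ⟨l, hl⟩ := exists_centred hy P
    refine Set.mem_iUnion.2 ⟨l, hP, fun h3 => h0 ?_⟩
    rw [hHa P l hP hl, h3, Int.cast_zero]

section

variable {K M : Type} [Field K] [Field M] [Algebra ℂ K] [Algebra ℂ M] [Algebra K M]
  [IsScalarTower ℂ K M] {N N' n d : ℕ} {y : Fin (N + 1) → K} {v : Fin (N' + 1) → M}

theorem Fib.pb_effective (h : Fib y n v d) {E : Place ℂ K → ℚ} (hE : Effective y E) :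
    Effective v (pb y M E) := by
  refine ⟨fun P hP => ?_, ?_⟩
  · rcases h.cases hP with h1 | ⟨Q, hQ, h1⟩
    · rw [pb_triv h1]
    · rw [pb_over hQ h1]
      exact hE.1 Q hQ
  · obtain ⟨π, hπ⟩ : ∃ π : Place ℂ K → K, ∀ Q : Place ℂ K, π Q ≠ 0 ∧ Q.ord (π Q) = 1 :=
      ⟨fun Q => Q.surj.choose, fun Q => Q.surj.choose_spec⟩
    refine (hE.2.biUnion fun Q _ => finite_ord h.nv (f := algebraMap K M (π Q)) (by
      rw [Ne, map_eq_zero]
      exact (hπ Q).1)).subset ?_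
    rintro P ⟨hP, h0⟩
    rcases h.cases hP with h1 | ⟨Q, hQ, h1⟩
    · rw [pb_triv h1] at h0
      exact absurd rfl h0
    · rw [pb_over hQ h1] at h0
      rw [Set.mem_iUnion₂]
      refine ⟨Q, ⟨hQ, h0⟩, hP, ?_⟩
      rw [h1, (hπ Q).2]
      exact one_ne_zero

/-- **The cone conjecture descends.** -/
theorem Fib.cone (h : Fib y n v d) {Δ : Place ℂ K → ℚ}
    (hpres : ∀ (φ : K ≃ₐ[ℂ] K) (ψ : M ≃ₐ[ℂ] M), IsAut y n φ → IsAut v d ψ →
      (∀ f, ψ (algebraMap K M f) = algebraMap K M (φ f)) →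
        ∀ P, IsPrimeDivisor y P → Δ (P.comp φ) = Δ P)
    (hV : ConeConjecture v d 0) : ConeConjecture y n Δ := by
  classical
  obtain ⟨k, E, hE, hV⟩ := hV
  obtain ⟨a₀, ha₀⟩ := h.ny.ne
  obtain ⟨H, hHy, -⟩ := exists_hyperplane h.ny ha₀
  have hHe := hyperplane_effective h.ny hHy
  have hHn : NefDivisor y n H := NefDivisor.of_semi h.ny (hyperplane_semi h.ny hHy)
  -- the reference data
  have key : ∀ T : Finset (Fin k), ∃ (ψ₀ : M ≃ₐ[ℂ] M) (E₀ : Fin k → Place ℂ K → ℚ),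
      (∀ i, Effective y (E₀ i) ∧ NefDivisor y n (E₀ i)) ∧
      ((∃ ψ, Good y n v d H E T ψ) → Good y n v d H E T ψ₀ ∧
        ∀ i ∈ T, ∀ P, IsPrimeDivisor v P → tw ψ₀ (E i) P = pb y M (E₀ i) P) := by
    intro T
    have hzero : Effective y (0 : Place ℂ K → ℚ) ∧ NefDivisor y n (0 : Place ℂ K → ℚ) :=
      ⟨⟨fun _ _ => le_rfl, Set.finite_empty.subset (by rintro P ⟨-, h0⟩; exact h0 rfl)⟩,
        NefDivisor.zero h.ny⟩
    by_cases hT : ∃ ψ, Good y n v d H E T ψ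
    · obtain ⟨ψ₀, hψ₀⟩ := hT
      have hch : ∀ i, ∃ E₀ : Place ℂ K → ℚ, (Effective y E₀ ∧ NefDivisor y n E₀) ∧
          (i ∈ T → ∀ P, IsPrimeDivisor v P → tw ψ₀ (E i) P = pb y M E₀ P) := by
        intro i
        by_cases hi : i ∈ T
        · obtain ⟨E₀, h1, h2⟩ := hψ₀.vert h hE hi
          exact ⟨E₀, h1, fun _ => h2⟩
        · exact ⟨0, hzero, fun h1 => absurd h1 hi⟩
      choose E₀ h1 h2 using hch
      exact ⟨ψ₀, E₀, h1, fun _ => ⟨hψ₀, h2⟩⟩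
    · exact ⟨1, fun _ => 0, fun _ => hzero, fun h1 => absurd h1 hT⟩
  choose ψ₀ E₀ hE₀ hgood using key
  obtain ⟨e⟩ : Nonempty (Fin (Fintype.card (Finset (Fin k) × Fin k)) ≃ Finset (Fin k) × Fin k) :=
    ⟨(Fintype.equivFin _).symm⟩
  refine ⟨_, fun x => E₀ (e x).1 (e x).2, fun x => hE₀ _ _, fun j A hA => ?_⟩
  obtain ⟨Φ', hfin, hΦ', hcov⟩ := hV (j + 1) (Fin.cons (pb y M H) fun i => pb y M (A i)) (by
    intro i
    refine Fin.cases ?_ (fun i => ?_) i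
    · rw [Fin.cons_zero]
      exact ⟨h.pb_effective hHe, h.nef_up hHn⟩
    · rw [Fin.cons_succ]
      exact ⟨h.pb_effective (hA i).1, h.nef_up (hA i).2⟩)
  -- the automorphisms of the base
  obtain ⟨F, hF⟩ : ∃ F : Finset (Fin k) × (M ≃ₐ[ℂ] M) → (K ≃ₐ[ℂ] K), ∀ p,
      (IsAut y n (F p) ∧ ∀ P, IsPrimeDivisor y P → Δ (P.comp (F p)) = Δ P) ∧
      ((∃ φ : K ≃ₐ[ℂ] K, (IsAut y n φ ∧ ∀ P, IsPrimeDivisor y P → Δ (P.comp φ) = Δ P) ∧
        ∀ f, (p.2 * (ψ₀ p.1)⁻¹) (algebraMap K M f) = algebraMap K M (φ f)) →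
        ∀ f, (p.2 * (ψ₀ p.1)⁻¹) (algebraMap K M f) = algebraMap K M (F p f)) := by
    have hch : ∀ p : Finset (Fin k) × (M ≃ₐ[ℂ] M), ∃ φ : K ≃ₐ[ℂ] K,
        (IsAut y n φ ∧ ∀ P, IsPrimeDivisor y P → Δ (P.comp φ) = Δ P) ∧
        ((∃ φ : K ≃ₐ[ℂ] K, (IsAut y n φ ∧ ∀ P, IsPrimeDivisor y P → Δ (P.comp φ) = Δ P) ∧
          ∀ f, (p.2 * (ψ₀ p.1)⁻¹) (algebraMap K M f) = algebraMap K M (φ f)) →
          ∀ f, (p.2 * (ψ₀ p.1)⁻¹) (algebraMap K M f) = algebraMap K M (φ f)) := by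
      intro p
      by_cases hp : ∃ φ : K ≃ₐ[ℂ] K, (IsAut y n φ ∧ ∀ P, IsPrimeDivisor y P → Δ (P.comp φ) = Δ P) ∧
          ∀ f, (p.2 * (ψ₀ p.1)⁻¹) (algebraMap K M f) = algebraMap K M (φ f)
      · obtain ⟨φ, h1, h2⟩ := hp
        exact ⟨φ, h1, fun _ => h2⟩
      · exact ⟨1, ⟨isAut_one, fun P _ => by rw [comp_one']⟩, fun h1 => absurd h1 hp⟩
    choose F hF using hch
    exact ⟨F, hF⟩
  refine ⟨F '' (Set.univ ×ˢ Φ'), (Set.finite_univ.prod hfin).image F, ?_, fun t ht => ?_⟩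
  · rintro _ ⟨p, -, rfl⟩
    exact (hF p).1
  -- the approximations
  obtain ⟨x, hx⟩ : ∃ x : Place ℂ K → ℚ, x = ∑ i, t i • A i := ⟨_, rfl⟩
  have hxn : NefDivisor y n x := by
    rw [hx]
    exact NefDivisor.sum h.ny _ (fun i _ => ht i) fun i _ => (hA i).2
  have happ : ∀ m : ℕ, ∃ ψ ∈ Φ', ∃ a : Fin k → ℚ, (∀ i, 0 ≤ a i) ∧
      NumEquiv v d (pb y M (x + (1 / ((m : ℚ) + 1)) • H)) (tw ψ (∑ i, a i • E i)) := by
    intro m
    have hm0 : (0 : ℚ) ≤ 1 / ((m : ℚ) + 1) := by positivity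
    obtain ⟨ψ, hψ, a, ha, h1⟩ := hcov (Fin.cons (1 / ((m : ℚ) + 1)) t) (by
      intro i
      refine Fin.cases ?_ (fun i => ?_) i
      · rw [Fin.cons_zero]
        exact hm0
      · rw [Fin.cons_succ]
        exact ht i)
    refine ⟨ψ, hψ, a, ha, h1.congr' (fun P _ => ?_) fun _ _ => rfl⟩
    rw [Fin.sum_univ_succ]
    simp only [Fin.cons_zero, Fin.cons_succ]
    rw [Pi.add_apply, Finset.sum_apply, pb_add, hx, pb_sum]
    have h2 := pb_congr (M := M) (y := y) (E := (1 / ((m : ℚ) + 1)) • H) (E' := H)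
      (1 / ((m : ℚ) + 1)) (fun _ _ => rfl) P
    rw [h2, add_comm]
    rfl
  choose ψ hψ a ha hnum using happ
  obtain ⟨T, hT⟩ : ∃ T : ℕ → Finset (Fin k), ∀ m, T m = Finset.univ.filter fun i => 0 < a m i :=
    ⟨_, fun _ => rfl⟩
  have hsum : ∀ m, ∑ i, a m i • E i = ∑ i ∈ T m, a m i • E i := by
    intro m
    rw [hT, Finset.sum_filter_of_ne]
    intro i _ hi
    refine lt_of_le_of_ne (ha m i) fun h0 => hi ?_
    rw [← h0, zero_smul]
  -- the pigeonhole principle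
  have hfin' : Finite Φ' := hfin
  obtain ⟨⟨T₀, ψ₁⟩, hinf⟩ := Finite.exists_infinite_fiber fun m : ℕ =>
    (⟨T m, ⟨ψ m, hψ m⟩⟩ : Finset (Fin k) × Φ')
  have hinf' : (_ ⁻¹' {((T₀, ψ₁) : Finset (Fin k) × Φ')} : Set ℕ).Infinite :=
    Set.infinite_coe_iff.1 hinf
  obtain ⟨Sn, hSn⟩ : ∃ Sn : Set ℕ, Sn.Infinite ∧ ∀ m ∈ Sn, T m = T₀ ∧ ψ m = ψ₁ := by
    refine ⟨_, hinf', fun m hm => ?_⟩
    have h1 : ((T m, ⟨ψ m, hψ m⟩) : Finset (Fin k) × Φ') = (T₀, ψ₁) := hm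
    rw [Prod.mk.injEq] at h1
    exact ⟨h1.1, congrArg Subtype.val h1.2⟩
  obtain ⟨hSinf, hSn⟩ := hSn
  have hgoodm : ∀ m ∈ Sn, Good y n v d H E T₀ (ψ₁ : M ≃ₐ[ℂ] M) := by
    intro m hm
    obtain ⟨h1, h2⟩ := hSn m hm
    refine ⟨(hΦ' _ ψ₁.2).1, x + (1 / ((m : ℚ) + 1)) • H, 1 / ((m : ℚ) + 1), a m, by positivity,
      hxn.congr fun P _ => ?_, fun i hi => ?_, ?_⟩
    · rw [Pi.add_apply, Pi.smul_apply, smul_eq_mul]
      ring
    · rw [← h1, hT] at hi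
      exact (Finset.mem_filter.1 hi).2
    · rw [← h1, ← hsum, ← h2]
      exact hnum m
  obtain ⟨m₀, hm₀⟩ := hSinf.nonempty
  have hG := hgoodm m₀ hm₀
  obtain ⟨hG₀, hpb⟩ := hgood T₀ ⟨_, hG⟩
  obtain ⟨φ₁, hφ₁, hφ₁c⟩ := hG.desc hG₀ h hE hHe hHy
  obtain ⟨φ, hφ⟩ : ∃ φ, φ = F (T₀, (ψ₁ : M ≃ₐ[ℂ] M)) := ⟨_, rfl⟩
  have hua : IsAut v d ((ψ₁ : M ≃ₐ[ℂ] M) * (ψ₀ T₀)⁻¹) := hG.1.mul hG₀.1.inv
  have hφc := (hF (T₀, (ψ₁ : M ≃ₐ[ℂ] M))).2 ⟨φ₁, ⟨hφ₁, hpres _ _ hφ₁ hua hφ₁c⟩, hφ₁c⟩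
  rw [← hφ] at hφc
  change ∀ f, ((ψ₁ : M ≃ₐ[ℂ] M) * (ψ₀ T₀)⁻¹) (algebraMap K M f) = algebraMap K M (φ f) at hφc
  have hφa : IsAut y n φ := h.aut hua hφc
  -- the cone
  have hdown : ∀ m ∈ Sn, NumEquiv y n (x + (1 / ((m : ℚ) + 1)) • H)
      (∑ i ∈ T₀, a m i • tw φ (E₀ T₀ i)) := by
    intro m hm
    obtain ⟨h1, h2⟩ := hSn m hm
    have h3 := hnum m
    rw [hsum, h1, h2, tw_sum] at h3
    have h4 : ∀ P, IsPrimeDivisor v P → (∑ i ∈ T₀, a m i • tw (ψ₁ : M ≃ₐ[ℂ] M) (E i)) P =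
        pb y M (∑ i ∈ T₀, a m i • tw φ (E₀ T₀ i)) P := by
      intro P hP
      rw [pb_sum, Finset.sum_apply]
      refine Finset.sum_congr rfl fun i hi => ?_
      rw [Pi.smul_apply, smul_eq_mul]
      congr 1
      rw [← h.pb_tw hua hφc (E₀ T₀ i) hP]
      change _ = pb y M (E₀ T₀ i) (P.comp _)
      rw [← hpb i hi _ (hua.prime h.nv h.trM hP)]
      change _ = tw ((ψ₁ : M ≃ₐ[ℂ] M) * (ψ₀ T₀)⁻¹) (tw (ψ₀ T₀) (E i)) P
      rw [tw_tw, mul_assoc, inv_mul_cancel, mul_one]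
    have h5 := h3.congr' (F := pb y M (x + (1 / ((m : ℚ) + 1)) • H))
      (F' := pb y M (∑ i ∈ T₀, a m i • tw φ (E₀ T₀ i))) (fun _ _ => rfl) h4
    have hsub : ∀ (B B' : Place ℂ K → ℚ) (P : Place ℂ M),
        pb y M (B - B') P = pb y M B P - pb y M B' P := by
      intro B B' P
      have h6 := pb_lin (y := y) (M := M) 1 (-1) B B' P
      have h7 : (fun Q => (1 : ℚ) * B Q + -1 * B' Q) = B - B' := by
        funext Q
        rw [Pi.sub_apply]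
        ring
      rw [h7] at h6
      rw [h6]
      ring
    refine ⟨h.nef_down (h5.1.congr fun P _ => ?_), h.nef_down (h5.2.congr fun P _ => ?_)⟩
    · rw [hsub, Pi.sub_apply]
    · rw [hsub, Pi.sub_apply]
  obtain ⟨c, hc, hxc⟩ := cone_closed (W := (Place ℂ K → ℚ) ⧸ numTriv h.ny n)
    (e := fun i => if i ∈ T₀ then cl h.ny n (tw φ (E₀ T₀ i)) else 0) (x := cl h.ny n x)
    (h := cl h.ny n H) hSinf (by
      intro m hm
      refine ⟨a m, ha m, ?_⟩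
      have h1 := cl_eq (hy := h.ny).2 (hdown m hm)
      rw [map_add, map_smul, map_sum] at h1
      rw [h1, ← Finset.sum_filter_add_sum_filter_not Finset.univ (fun i => i ∈ T₀)]
      have h2 : ∑ i ∈ Finset.univ.filter (fun i => ¬ i ∈ T₀), a m i •
          (if i ∈ T₀ then cl h.ny n (tw φ (E₀ T₀ i)) else 0) = 0 := by
        refine Finset.sum_eq_zero fun i hi => ?_
        rw [if_neg (Finset.mem_filter.1 hi).2, smul_zero]
      rw [h2, add_zero, Finset.filter_mem_eq_inter, Finset.univ_inter]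
      refine Finset.sum_congr rfl fun i hi => ?_
      rw [if_pos hi, map_smul])
  refine ⟨φ, ⟨(T₀, ψ₁), ⟨Set.mem_univ _, ψ₁.2⟩, hφ.symm⟩,
    fun z => if (e z).1 = T₀ ∧ (e z).2 ∈ T₀ then c (e z).2 else 0, fun z => ?_, ?_⟩
  · change 0 ≤ if (e z).1 = T₀ ∧ (e z).2 ∈ T₀ then c (e z).2 else 0
    split_ifs
    · exact hc _
    · exact le_rfl
  rw [← hx]
  refine cl_eq (hy := h.ny).1 ?_
  have h1 : ∑ z, (if (e z).1 = T₀ ∧ (e z).2 ∈ T₀ then c (e z).2 else 0) • E₀ (e z).1 (e z).2 =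
      ∑ i ∈ T₀, c i • E₀ T₀ i := by
    rw [Equiv.sum_comp e fun p => (if p.1 = T₀ ∧ p.2 ∈ T₀ then c p.2 else 0) • E₀ p.1 p.2,
      Fintype.sum_prod_type, Finset.sum_eq_single T₀]
    · rw [← Finset.sum_filter_add_sum_filter_not Finset.univ (fun i => i ∈ T₀)]
      have h2 : ∑ i ∈ Finset.univ.filter (fun i => ¬ i ∈ T₀),
          (if T₀ = T₀ ∧ i ∈ T₀ then c i else 0) • E₀ T₀ i = 0 := by
        refine Finset.sum_eq_zero fun i hi => ?_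
        rw [if_neg fun h3 => (Finset.mem_filter.1 hi).2 h3.2, zero_smul]
      rw [h2, add_zero, Finset.filter_mem_eq_inter, Finset.univ_inter]
      refine Finset.sum_congr rfl fun i hi => ?_
      rw [if_pos ⟨rfl, hi⟩]
    · intro T' _ hT'
      refine Finset.sum_eq_zero fun i _ => ?_
      rw [if_neg fun h3 => hT' h3.1, zero_smul]
    · intro h3
      exact absurd (Finset.mem_univ _) h3
  rw [h1, tw_sum, map_sum, hxc,
    ← Finset.sum_filter_add_sum_filter_not Finset.univ (fun i => i ∈ T₀)]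
  have h2 : ∑ i ∈ Finset.univ.filter (fun i => ¬ i ∈ T₀), c i •
      (if i ∈ T₀ then cl h.ny n (tw φ (E₀ T₀ i)) else 0) = 0 := by
    refine Finset.sum_eq_zero fun i hi => ?_
    rw [if_neg (Finset.mem_filter.1 hi).2, smul_zero]
  rw [h2, add_zero, Finset.filter_mem_eq_inter, Finset.univ_inter]
  refine Finset.sum_congr rfl fun i hi => ?_
  rw [if_pos hi, map_smul]

end

end Pool.Agent.H890
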