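import Pool.Agent.H890.Ver
import Pool.Graph.R_seed8.W828.PG.DIVI

/-!
Divisorial places and field extensions of positive transcendence degree.
-/

set_option autoImplicit false
set_option linter.unusedSectionVars false
set_option linter.overlappingInstances false

open FF MvPolynomial Pool.Agent.W602.GT Pool.Agent.W603.LV Pool.Agent.Y172
  Pool.Agent.TH122.AB Pool.Agent.R887

namespace Pool.Agent.H890

section

variable {k K L : Type} [Field k] [CharZero k] [Field K] [Field L] [Algebra k K] [Algebra k L]
  [Algebra K L] [IsScalarTower k K L]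

/-- restriction of divisorial places -/
theorem div_base {n r : ℕ} (hr : Algebra.trdeg K L ≤ r) {w : Place k L} {v : Place k K} {e : ℕ}
    (hov : Over w v e) (hw : Divisorial (n + r) w) : Divisorial n v := by
  classical
  obtain ⟨y, hy⟩ := hw
  have hyr : ∀ i, w.Reg (y i) := by
    intro i
    have h := hy (X i) (X_ne_zero i)
    rw [aeval_X] at h
    exact Or.inr h.2.ge
  have hc : AlgebraicIndependent k (fun i => w.red (y i)) := by
    rw [algebraicIndependent_iff]
    intro p hp
    by_contra hp0
    have h := hy p hp0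
    have h2 := Pool.Agent.W828.PG.red_aeval w y hyr p
    exact w.red_ne_zero h.1 h.2 (h2.2.trans hp)
  let _ : Algebra v.RF w.RF := hov.resMap.toRingHom.toAlgebra
  have hmap : ∀ a : v.RF, algebraMap v.RF w.RF a = hov.resMap a := fun a => rfl
  have : IsScalarTower k v.RF w.RF := IsScalarTower.of_algebraMap_eq fun c => by
    rw [hmap]
    exact (hov.resMap.commutes c).symm
  -- the relative transcendence degree
  have hrel : Algebra.trdeg v.RF w.RF ≤ r := by
    by_contra hcon
    push Not at hcon
    obtain ⟨s, hs⟩ := exists_isTranscendenceBasis v.RF w.RF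
    have h1 : ((r + 1 : ℕ) : Cardinal) ≤ Cardinal.mk s := by
      rw [hs.cardinalMk_eq_trdeg]
      have := Order.succ_le_of_lt hcon
      rw [Cardinal.succ_natCast] at this
      push_cast
      exact this
    have h2 : Nonempty (Fin (r + 1) ↪ s) := by
      rw [← Cardinal.lift_mk_le']
      simpa using h1
    obtain ⟨g⟩ := h2
    have hd : AlgebraicIndependent v.RF (fun i : Fin (r + 1) => ((g i : s) : w.RF)) :=
      hs.1.comp g g.injective
    choose z hz1 hz2 using fun i : Fin (r + 1) => w.red_surjective ((g i : s) : w.RF)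
    have hz : AlgebraicIndependent K z := by
      rw [algebraicIndependent_iff]
      intro p hp
      by_contra hp0
      obtain ⟨j, hj, hmin⟩ := Finset.exists_min_image p.support (fun i => v.ord (p.coeff i))
        (support_nonempty.2 hp0)
      have hj0 : p.coeff j ≠ 0 := mem_support_iff.1 hj
      have hq : ∀ i, v.Reg (p.coeff i / p.coeff j) := by
        intro i
        by_cases hi : p.coeff i = 0
        · rw [hi, zero_div]
          exact v.reg_zero
        · right
          rw [v.ord_div hi hj0]
          have := hmin i (mem_support_iff.2 hi)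
          linarith
      let Q : MvPolynomial (Fin (r + 1)) v.RF :=
        ∑ i ∈ p.support, monomial i (v.red (p.coeff i / p.coeff j))
      have hQ : Q = 0 := by
        apply (algebraicIndependent_iff.1 hd) Q
        have hmon : ∀ i : Fin (r + 1) →₀ ℕ, w.Reg (∏ a, z a ^ i a) ∧
            w.red (∏ a, z a ^ i a) = ∏ a, w.red (z a) ^ i a := by
          intro i
          have h3 := Pool.Agent.W828.PG.red_aeval w z hz1 (monomial i 1 : MvPolynomial _ k)
          rw [aeval_monomial, aeval_monomial, map_one, one_mul, map_one, one_mul,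
            Finsupp.prod_fintype _ _ (fun _ => pow_zero _),
            Finsupp.prod_fintype _ _ (fun _ => pow_zero _)] at h3
          exact h3
        have h2 : aeval (fun i : Fin (r + 1) => ((g i : s) : w.RF)) Q =
            ∑ i ∈ p.support, w.red (algebraMap K L (p.coeff i / p.coeff j) * ∏ a, z a ^ i a) := by
          simp only [Q, map_sum, aeval_monomial]
          refine Finset.sum_congr rfl fun i _ => ?_
          rw [hmap, hov.resMap_red (hq i), w.red_mul (hov.reg.2 (hq i)) (hmon i).1, (hmon i).2,
            Finsupp.prod_fintype _ _ (fun _ => pow_zero _)]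
          congr 1
          exact Finset.prod_congr rfl fun a _ => by rw [hz2]
        have h3 := Pool.Agent.W828.PG.red_sum w p.support
          (fun i => algebraMap K L (p.coeff i / p.coeff j) * ∏ a, z a ^ i a)
          (fun i _ => w.reg_mul (hov.reg.2 (hq i)) (hmon i).1)
        rw [h2, ← h3.2]
        have h4 : ∑ i ∈ p.support, algebraMap K L (p.coeff i / p.coeff j) * ∏ a, z a ^ i a = 0 := by
          have h5 : ∑ i ∈ p.support, algebraMap K L (p.coeff i / p.coeff j) * ∏ a, z a ^ i a =
              (algebraMap K L (p.coeff j))⁻¹ * aeval z p := by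
            rw [aeval_def, eval₂_eq', Finset.mul_sum]
            refine Finset.sum_congr rfl fun i _ => ?_
            rw [map_div₀]
            ring
          rw [h5, hp, mul_zero]
        rw [h4, w.red_zero]
      have h1 : Q.coeff j = 1 := by
        simp only [Q, coeff_sum, coeff_monomial]
        rw [Finset.sum_ite_eq' p.support j, if_pos hj, div_self hj0, v.red_one]
      rw [hQ, coeff_zero] at h1
      exact zero_ne_one h1
    have h3 := hz.lift_cardinalMk_le_trdeg
    have h4 : ((r + 1 : ℕ) : Cardinal) ≤ Algebra.trdeg K L := by simpa using h3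
    have h5 := h4.trans hr
    have h6 : r + 1 ≤ r := by exact_mod_cast h5
    omega
  have h1 : ((n + r - 1 : ℕ) : Cardinal) ≤ Algebra.trdeg k w.RF := by
    have := hc.lift_cardinalMk_le_trdeg
    simpa using this
  obtain ⟨s, hs⟩ := exists_isTranscendenceBasis k v.RF
  have h3 : ((n - 1 : ℕ) : Cardinal) ≤ Cardinal.mk s := by
    by_contra hcon
    push Not at hcon
    rw [hs.cardinalMk_eq_trdeg] at hcon
    obtain ⟨a, ha⟩ := Cardinal.lt_aleph0.1 (hcon.trans (Cardinal.natCast_lt_aleph0))
    rw [ha] at hcon
    have h4 : a < n - 1 := by exact_mod_cast hcon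
    have h5 : ((n + r - 1 : ℕ) : Cardinal) ≤ ((a + r : ℕ) : Cardinal) := by
      refine h1.trans ?_
      rw [← trdeg_add_eq k v.RF (A := w.RF), ha]
      push_cast
      gcongr
    have h6 : n + r - 1 ≤ a + r := by exact_mod_cast h5
    omega
  have h4 : Nonempty (Fin (n - 1) ↪ s) := by
    rw [← Cardinal.lift_mk_le']
    simpa using h3
  obtain ⟨g⟩ := h4
  have hd : AlgebraicIndependent k (fun i : Fin (n - 1) => ((g i : s) : v.RF)) :=
    hs.1.comp g g.injective
  choose z hz1 hz2 using fun i : Fin (n - 1) => v.red_surjective ((g i : s) : v.RF)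
  refine ⟨z, fun p hp => ?_⟩
  have h5 := Pool.Agent.W828.PG.red_aeval v z hz1 p
  have h6 : v.red (aeval z p) ≠ 0 := by
    rw [h5.2]
    intro h7
    apply hp
    refine (algebraicIndependent_iff.1 hd) p ?_
    rw [← h7]
    congr 2
    funext i
    exact (hz2 i).symm
  have h8 : aeval z p ≠ 0 := by
    intro h9
    rw [h9, v.red_zero] at h6
    exact h6 rfl
  refine ⟨h8, ?_⟩
  have h9 : ¬ (0 < v.ord (aeval z p)) := fun h =>
    h6 ((v.red_eq_zero_iff h5.1).2 (Or.inr h))
  have h10 := (v.reg_iff h8).1 h5.1
  omega

end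

section

variable {K L : Type} [Field K] [Field L] [Algebra ℂ K] [Algebra ℂ L] [Algebra K L]
  [IsScalarTower ℂ K L] {r n : ℕ} {t : Fin r → L}

/-- Gauss extensions of divisorial places are divisorial -/
theorem IsGauss.divisorial {D : Place ℂ K} {P : Place ℂ L} (h : IsGauss t D P)
    (ht : Gens (k := K) t) (hn : 0 < n) (hD : Divisorial n D) : Divisorial (n + r) P := by
  classical
  obtain ⟨u, hu⟩ := hD
  have hcard : n + r - 1 = (n - 1) + r := by omega
  let σ : Fin (n + r - 1) ≃ Fin r ⊕ Fin (n - 1) :=
    (finCongr hcard).trans (finSumFinEquiv.symm.trans (Equiv.sumComm _ _))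
  let ψ : Fin r ⊕ Fin (n - 1) → L := Sum.elim t fun a => algebraMap K L (u a)
  refine ⟨fun i => ψ (σ i), fun F hF => ?_⟩
  let G : MvPolynomial (Fin r) (MvPolynomial (Fin (n - 1)) ℂ) :=
    sumAlgEquiv ℂ (Fin r) (Fin (n - 1)) (rename σ F)
  have hG0 : G ≠ 0 := by
    intro h0
    apply hF
    apply rename_injective σ σ.injective
    apply (sumAlgEquiv ℂ (Fin r) (Fin (n - 1))).injective
    rw [map_zero, map_zero]
    exact h0
  let f : MvPolynomial (Fin (n - 1)) ℂ →+* K := ((aeval u : MvPolynomial (Fin (n - 1)) ℂ →ₐ[ℂ] K) :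
    MvPolynomial (Fin (n - 1)) ℂ →+* K)
  have hval : aeval (fun i => ψ (σ i)) F = aeval t (map f G) := by
    have h1 : aeval (fun i => ψ (σ i)) F = aeval ψ (rename σ F) := by
      rw [aeval_rename]
      rfl
    rw [h1]
    change _ = aeval t (map f (sumAlgEquiv ℂ (Fin r) (Fin (n - 1)) (rename σ F)))
    generalize rename σ F = H
    induction H using MvPolynomial.induction_on with
    | C a =>
      rw [aeval_C]
      have h2 : sumAlgEquiv ℂ (Fin r) (Fin (n - 1)) (C a) = C (C a) := sumAlgEquiv_C_inl _ _ _ a
      rw [h2, map_C, aeval_C]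
      change _ = algebraMap K L (aeval u (C a))
      rw [aeval_C, ← IsScalarTower.algebraMap_apply]
    | add p q hp hq => rw [map_add, map_add, map_add, map_add, hp, hq]
    | mul_X p i hp =>
      rw [map_mul, map_mul, map_mul, map_mul, hp, aeval_X]
      congr 1
      rcases i with i | i
      · have h2 : sumAlgEquiv ℂ (Fin r) (Fin (n - 1)) (X (Sum.inl i)) = X i :=
          sumAlgEquiv_X_inl _ _ _ i
        rw [h2, map_X, aeval_X]
        rfl
      · have h2 : sumAlgEquiv ℂ (Fin r) (Fin (n - 1)) (X (Sum.inr i)) = C (X i) :=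
          sumAlgEquiv_X_inr _ _ _ i
        rw [h2, map_C, aeval_C]
        change _ = algebraMap K L (aeval u (X i))
        rw [aeval_X]
        rfl
  have hcoef : ∀ α, G.coeff α ≠ 0 → (map f G).coeff α ≠ 0 ∧ D.ord ((map f G).coeff α) = 0 := by
    intro α hα
    rw [coeff_map]
    exact hu _ hα
  obtain ⟨α, hα⟩ := ne_zero_iff.1 hG0
  have hm0 : map f G ≠ 0 := fun h0 => (hcoef α hα).1 (by rw [h0, coeff_zero])
  rw [hval]
  refine ⟨ht.ne hm0, le_antisymm ?_ ?_⟩
  · by_contra hcon
    have h1 : (1 : ℤ) ≤ P.ord (aeval t (map f G)) := by omega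
    rw [h.le_iff hm0] at h1
    have h2 := h1 α (mem_support_iff.2 (hcoef α hα).1)
    rw [(hcoef α hα).2] at h2
    omega
  · rw [h.le_iff hm0]
    intro β hβ
    have h1 : G.coeff β ≠ 0 := by
      intro h0
      apply mem_support_iff.1 hβ
      rw [coeff_map, h0, map_zero]
    rw [(hcoef β h1).2]

end

end Pool.Agent.H890
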