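import Pool.Agent.H890.Alg
import Pool.Agent.H890.Dv

set_option autoImplicit false
set_option linter.unusedSectionVars false
set_option linter.overlappingInstances false

open FF MvPolynomial Pool.Agent.W602.GT

namespace Pool.Agent.H890

/-- a place which is trivial on a larger field `K`, as a place over `K` -/
def placeOver {k K M : Type} [Field k] [Field K] [Field M] [Algebra k M] [Algebra K M]
    (P₀ : Place k M) (h : ∀ f : K, P₀.ord (algebraMap K M f) = 0) : Place K M where
  ord := P₀.ord
  ord_zero := P₀.ord_zero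
  ord_mul := P₀.ord_mul
  ord_add := P₀.ord_add
  ord_const := fun {c} _ => h c
  surj := P₀.surj

/-- a place is not trivial on an algebraic extension -/
theorem placeOver_not_alg {k K M : Type} [Field k] [Field K] [Field M] [Algebra k M] [Algebra K M]
    (P₀ : Place k M) (h : ∀ f : K, P₀.ord (algebraMap K M f) = 0) :
    ¬ Algebra.IsAlgebraic K M := by
  intro halg
  obtain ⟨t, ht0, ht⟩ := (placeOver P₀ h).surj
  have h1 := (placeOver P₀ h).ord_eq_zero_of_isAlgebraic ht0 (halg.isAlgebraic t)
  omega

/-- TASK CN-B1. **A field of constants of codimension one for a divisorial place.** -/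
theorem exists_const_field {K M : Type} [Field K] [Field M] [Algebra ℂ K] [Algebra ℂ M]
    [Algebra K M] [IsScalarTower ℂ K M] [Algebra.EssFiniteType ℂ M] {d : ℕ}
    (hd : Algebra.trdeg ℂ M = d) {P₀ : Place ℂ M} (hP : Divisorial d P₀)
    (htr : ∀ f : K, P₀.ord (algebraMap K M f) = 0) :
    ∃ F : IntermediateField K M, IsFF F M ∧ ∀ f : F, P₀.ord (f : M) = 0 := by
  classical
  let P : Place K M := placeOver P₀ htr
  have hPord : ∀ f, P.ord f = P₀.ord f := fun _ => rfl
  obtain ⟨u, hu⟩ := hP
  -- the residue field, as an algebra over `ℂ`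
  let _ : Algebra ℂ P.RF := ((algebraMap K P.RF).comp (algebraMap ℂ K)).toAlgebra
  have : IsScalarTower ℂ K P.RF := IsScalarTower.of_algebraMap_eq fun _ => rfl
  obtain ⟨s, hs⟩ := exists_isTranscendenceBasis K P.RF
  choose z hz1 hz2 using fun i : s => P.red_surjective (i : P.RF)
  have hres : ∀ p : MvPolynomial s K, P.Reg (aeval z p) ∧
      P.red (aeval z p) = aeval (fun i : s => (i : P.RF)) p := by
    intro p
    have h1 := Pool.Agent.W828.PG.red_aeval P z hz1 p
    refine ⟨h1.1, h1.2.trans ?_⟩
    congr 2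
    funext i
    exact hz2 i
  have hz : ∀ p : MvPolynomial s K, p ≠ 0 → aeval z p ≠ 0 ∧ P.ord (aeval z p) = 0 := by
    intro p hp
    have h1 := hres p
    have h2 : P.red (aeval z p) ≠ 0 := by
      rw [h1.2]
      intro h3
      exact hp ((algebraicIndependent_iff.1 hs.1) p h3)
    have h3 : aeval z p ≠ 0 := by
      intro h4
      rw [h4, P.red_zero] at h2
      exact h2 rfl
    refine ⟨h3, ?_⟩
    have h4 : ¬ (0 < P.ord (aeval z p)) := fun h => h2 ((P.red_eq_zero_iff h1.1).2 (Or.inr h))
    have h5 := (P.reg_iff h3).1 h1.1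
    omega
  let F : IntermediateField K M := IntermediateField.adjoin K (Set.range z)
  have htrF : ∀ f : F, P₀.ord (f : M) = 0 := by
    rintro ⟨f, hf⟩
    obtain ⟨p, q, rfl⟩ := (IntermediateField.mem_adjoin_range_iff K z f).1 hf
    show P.ord (aeval z p / aeval z q) = 0
    by_cases hp : p = 0
    · rw [hp, map_zero, zero_div, P.ord_zero]
    by_cases hq : q = 0
    · rw [hq, map_zero, div_zero, P.ord_zero]
    rw [P.ord_div (hz p hp).1 (hz q hq).1, (hz p hp).2, (hz q hq).2, sub_zero]
  refine ⟨F, ?_, htrF⟩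
  -- (b)
  have hb : Algebra.trdeg F M ≠ 0 := by
    intro h0
    exact placeOver_not_alg (K := F) P₀ htrF (_root_.trdeg_eq_zero_iff.1 h0)
  -- the transcendence degree of the residue field
  have hreg : ∀ i, P.Reg (u i) := by
    intro i
    have h := hu (X i) (X_ne_zero i)
    rw [aeval_X] at h
    exact Or.inr h.2.ge
  have hui : AlgebraicIndependent ℂ (fun i => P.red (u i)) := by
    rw [algebraicIndependent_iff]
    intro p hp
    by_contra hp0
    have h1 := Pool.Agent.W828.PG.red_aeval P u hreg (map (algebraMap ℂ K) p)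
    rw [aeval_map_algebraMap, aeval_map_algebraMap] at h1
    have h2 := hu p hp0
    exact P.red_ne_zero h2.1 h2.2 (h1.2.trans hp)
  have hc1 : ((d - 1 : ℕ) : Cardinal) ≤ Algebra.trdeg ℂ P.RF := by
    have := hui.lift_cardinalMk_le_trdeg
    simpa using this
  have hzF : AlgebraicIndependent K (fun i : s => (⟨z i, IntermediateField.subset_adjoin K _
      ⟨i, rfl⟩⟩ : F)) := by
    have h1 : AlgebraicIndependent K z := by
      rw [algebraicIndependent_iff]
      intro p hp
      by_contra hp0
      exact (hz p hp0).1 hp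
    exact (AlgHom.algebraicIndependent_iff F.val Subtype.val_injective).1 h1
  have hc2 : Algebra.trdeg K P.RF ≤ Algebra.trdeg K F := by
    rw [← hs.cardinalMk_eq_trdeg]
    have := hzF.lift_cardinalMk_le_trdeg
    simpa using this
  have hc3 : Algebra.trdeg ℂ P.RF ≤ Algebra.trdeg ℂ F := by
    rw [← _root_.trdeg_add_eq ℂ K (A := P.RF), ← _root_.trdeg_add_eq ℂ K (A := F)]
    gcongr
  have hsc : IsScalarTower ℂ F M := IsScalarTower.of_algebraMap_eq fun _ => rfl
  have hsum : Algebra.trdeg ℂ F + Algebra.trdeg F M = d := by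
    rw [_root_.trdeg_add_eq ℂ F (A := M), hd]
  have hfin1 : Algebra.trdeg ℂ F < Cardinal.aleph0 :=
    (self_le_add_right _ _).trans_lt (hsum ▸ Cardinal.natCast_lt_aleph0)
  have hfin2 : Algebra.trdeg F M < Cardinal.aleph0 :=
    (self_le_add_left _ _).trans_lt (hsum ▸ Cardinal.natCast_lt_aleph0)
  obtain ⟨a, ha⟩ := Cardinal.lt_aleph0.1 hfin1
  obtain ⟨b, hb'⟩ := Cardinal.lt_aleph0.1 hfin2
  have h1 : d - 1 ≤ a := by
    have := hc1.trans hc3
    rw [ha] at this
    exact_mod_cast this
  have h2 : a + b = d := by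
    rw [ha, hb'] at hsum
    exact_mod_cast hsum
  have h3 : b ≠ 0 := by
    intro h
    rw [hb', h] at hb
    exact hb Nat.cast_zero
  have h4 : b = 1 := by omega
  constructor
  · exact Algebra.EssFiniteType.of_comp ℂ F M
  · rw [hb', h4, Nat.cast_one]

end Pool.Agent.H890
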