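import Pool.Agent.H890.KDefs5

/-!
Definitions: nef and semiample `ℚ`-divisors, regular `1`-forms.
-/

set_option autoImplicit false

open FF Pool.Agent.W602.GT Pool.Agent.Y172 Pool.Agent.R887

namespace Pool.Agent.H890

section

variable {K : Type} [Field K] [Algebra ℂ K] {N : ℕ}

/-- The `ℚ`-divisor `E` on `X` is semiample, `n` being the dimension of `X`: for some `m ≥ 1` the
divisor `m E` is generated by its sections, that is, for every prime divisor `Q` over `X` there is a
section `f` of `m E` such that the effective divisor `div f + m E` does not contain the centre of `Q`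
on `X`: its coefficients at the prime divisors `P` of `X` through this centre are zero, and so `m E`
is the Cartier divisor `- div f` there. -/
def SemiampleDivisor (y : Fin (N + 1) → K) (n : ℕ) (E : Place ℂ K → ℚ) : Prop :=
  ∃ m : ℕ, 1 ≤ m ∧ ∀ Q : Place ℂ K, Divisorial n Q → ∃ f, IsSec y (fun P => m * E P) f ∧
    ∀ P, IsPrimeDivisor y P → Through y P Q → (P.ord f : ℚ) = -(m * E P)

/-- The `ℚ`-divisor `E` on `X` is `ℚ`-Cartier and nef, `n` being the dimension of `X`: for all `q ≥ 1`
the divisor `q E + H`, `H` being a hyperplane section, is semiample. -/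
def NefDivisor (y : Fin (N + 1) → K) (n : ℕ) (E : Place ℂ K → ℚ) : Prop :=
  ∀ H, Hyperplane y H → ∀ q : ℕ, 1 ≤ q → SemiampleDivisor y n fun P => q * E P + H P

/-- The divisor `K_X + Δ` is `ℚ`-linearly equivalent to zero, `n` being the dimension of `X`. -/
def LogTrivial (y : Fin (N + 1) → K) (n : ℕ) (Δ : Place ℂ K → ℚ) : Prop :=
  ∀ C, CanonicalDivisor y n C → QEquiv y (C + Δ) 0

/-- The rational `1`-form `ω` (a linear form on the rational vector fields) is regular at `P`: its
values on the vector fields which are regular at `P` are regular at `P`. -/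
def RegularForm (P : Place ℂ K) (ω : Derivation ℂ K K →ₗ[K] K) : Prop :=
  ∀ D : Derivation ℂ K K, DerReg P D → P.Reg (ω D)

end

/-- The irregularity of the smooth projective varieties with function field `K`, of dimension `n`, is
zero: there is no rational `1`-form `ω ≠ 0` which is regular at all prime divisors over these
varieties. -/
def NoForms (K : Type) [Field K] [Algebra ℂ K] (n : ℕ) : Prop :=
  ∀ ω : Derivation ℂ K K →ₗ[K] K, (∀ P : Place ℂ K, Divisorial n P → RegularForm P ω) → ω = 0

/-- The `ℚ`-divisor `E'` on `V` is the pull-back of the `ℚ`-divisor `E` on `X`, the function field of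
`V` being an extension of the function field of `X`: every prime divisor `P` of `V` either dominates
`X`, and then its coefficient in `E'` is zero, or it lies over a prime divisor `Q` of `X`, with
ramification index `e`, and then its coefficient in `E'` is `e` times the coefficient of `Q` in
`E`. -/
def IsPullBack {K M : Type} [Field K] [Algebra ℂ K] [Field M] [Algebra ℂ M] [Algebra K M] {N N' : ℕ}
    (y : Fin (N + 1) → K) (v : Fin (N' + 1) → M) (E : Place ℂ K → ℚ) (E' : Place ℂ M → ℚ) : Prop :=
  ∀ P, IsPrimeDivisor v P → ((∀ f : K, P.ord (algebraMap K M f) = 0) ∧ E' P = 0) ∨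
    ∃ (Q : Place ℂ K) (e : ℕ), IsPrimeDivisor y Q ∧ 1 ≤ e ∧
      (∀ f : K, P.ord (algebraMap K M f) = e * Q.ord f) ∧ E' P = e * E Q

/-- The variety `V` with generic point `v` and function field `M`, of dimension `d`, can replace the
klt pair `(X, Δ)` with generic point `y` and function field `K`, `n` being its dimension: `V` is a
normal projective variety with klt singularities (without boundary); `K_V` is `ℚ`-linearly equivalent
to zero if `K_X + Δ` is so; the irregularity of `V` is zero if the irregularity of `X` is zero; and
every nef divisor `E` on `X` has a nef pull-back `E'` to `V`, which is semiample if and only if `E` is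
semiample. -/
structure TrivialReplaces {K M : Type} [Field K] [Algebra ℂ K] [Field M] [Algebra ℂ M] [Algebra K M]
    {N N' : ℕ} (v : Fin (N' + 1) → M) (d : ℕ) (y : Fin (N + 1) → K) (n : ℕ)
    (Δ : Place ℂ K → ℚ) : Prop where
  normal : NormalModel v
  klt : Klt v d 0
  trivial : LogTrivial y n Δ → LogTrivial v d 0
  forms : NoForms K n → NoForms M d
  nef : ∀ E : Place ℂ K → ℚ, QDivisor y E → NefDivisor y n E → ∃ E' : Place ℂ M → ℚ,
    IsPullBack y v E E' ∧ QDivisor v E' ∧ NefDivisor v d E' ∧
      (SemiampleDivisor v d E' ↔ SemiampleDivisor y n E)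

/-- Abundance for the nef divisors on the klt pairs `(X, Δ)` with `K_X + Δ` `ℚ`-linearly equivalent to
zero, such that `X` has the function field `K`, the dimension `n` and irregularity zero, and `Δ` is an
effective `ℚ`-divisor with `b Δ` Cartier: every nef divisor on `X` is semiample. -/
def TrivialPairAbundance (K : Type) [Field K] [Algebra ℂ K] (n b : ℕ) : Prop :=
  ∀ (N : ℕ) (y : Fin (N + 1) → K), NormalModel y → ∀ Δ : Place ℂ K → ℚ, Effective y Δ →
    CartierMul y n b Δ → Klt y n Δ → NoForms K n → LogTrivial y n Δ →
    ∀ E : Place ℂ K → ℚ, QDivisor y E → NefDivisor y n E → SemiampleDivisor y n E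

/-- Abundance for the nef divisors on the klt varieties `X` with `K_X` `ℚ`-linearly equivalent to
zero, of dimension `n` and irregularity zero and with function field `K`: every nef divisor on `X` is
semiample. -/
def TrivialVarietyAbundance (K : Type) [Field K] [Algebra ℂ K] (n : ℕ) : Prop :=
  ∀ (N : ℕ) (y : Fin (N + 1) → K), NormalModel y → Klt y n 0 → NoForms K n → LogTrivial y n 0 →
    ∀ E : Place ℂ K → ℚ, QDivisor y E → NefDivisor y n E → SemiampleDivisor y n E

end Pool.Agent.H890
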