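import Pool.Agent.H890.Dvs3
import Pool.Agent.H890.KDefs7

/-!
Divisors on the covering space: nef and semiample divisors.
-/

set_option autoImplicit false
set_option linter.unusedSectionVars false
set_option linter.overlappingInstances false

open FF MvPolynomial Pool.Agent.W602.GT Pool.Agent.W603.LV Pool.Agent.Y172
  Pool.Agent.TH122.AB Pool.Agent.R887

namespace Pool.Agent.H890

/-- a multiple of `E` is a Cartier divisor at the centre of `Q` -/
def LocGen {K : Type} [Field K] [Algebra ℂ K] {N : ℕ} (y : Fin (N + 1) → K) (E : Place ℂ K → ℚ)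
    (Q : Place ℂ K) : Prop :=
  ∃ (m : ℕ) (u : K), 1 ≤ m ∧ u ≠ 0 ∧ ∀ D, IsPrimeDivisor y D → Through y D Q →
    (D.ord u : ℚ) = m * E D

/-- local generators of nef divisors -/
theorem NefDivisor.gen {K : Type} [Field K] [Algebra ℂ K] {N n : ℕ} {y : Fin (N + 1) → K}
    (hy : NormalModel y) {E : Place ℂ K → ℚ} (hE : NefDivisor y n E) {Q : Place ℂ K}
    (hQ : Divisorial n Q) : LocGen y E Q := by
  obtain ⟨a₀, ha₀⟩ := hy.ne
  obtain ⟨H, hH, hHo⟩ := exists_hyperplane hy ha₀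
  obtain ⟨m, hm, hsec⟩ := hE H hH 1 le_rfl
  obtain ⟨f, hf, hfQ⟩ := hsec Q hQ
  obtain ⟨l, hl⟩ := exists_centred hy Q
  have h0 : y a₀ / y l ≠ 0 := div_ne_zero ha₀ hl.1
  refine ⟨m, (f * (y a₀ / y l) ^ m)⁻¹, hm, inv_ne_zero (mul_ne_zero hf.1 (pow_ne_zero _ h0)),
    fun D hD hDQ => ?_⟩
  have h1 : (D.ord f : ℚ) = -(m * (((1 : ℕ) : ℚ) * E D + H D)) := hfQ D hD hDQ
  rw [hHo D l (hDQ.centred hl)] at h1
  rw [D.ord_inv, D.ord_mul hf.1 (pow_ne_zero _ h0), D.ord_pow]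
  push_cast at h1 ⊢
  linarith

theorem SemiampleDivisor.gen {K : Type} [Field K] [Algebra ℂ K] {N n : ℕ} {y : Fin (N + 1) → K}
    {E : Place ℂ K → ℚ} (hE : SemiampleDivisor y n E) {Q : Place ℂ K}
    (hQ : Divisorial n Q) : LocGen y E Q := by
  obtain ⟨m, hm, hsec⟩ := hE
  obtain ⟨f, hf, hfQ⟩ := hsec Q hQ
  refine ⟨m, f⁻¹, hm, inv_ne_zero hf.1, fun D hD hDQ => ?_⟩
  have h1 := hfQ D hD hDQ
  rw [D.ord_inv]
  push_cast
  linarith

section

variable {K L M : Type} [Field K] [Field L] [Field M] [Algebra ℂ K] [Algebra ℂ L]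
  [Algebra ℂ M] [Algebra K L] [Algebra L M] [Algebra K M] [IsScalarTower ℂ K L]
  [IsScalarTower ℂ L M] [IsScalarTower ℂ K M] [IsScalarTower K L M] [FiniteDimensional L M]
  {N : ℕ} {y : Fin (N + 1) → K} {n r : ℕ} {G : Place ℂ K → ℤ}

variable {S : Mod K L M y n r G} {b : ℕ} {Γ : Place ℂ K → ℤ}
  {T : ℕ → (Fin n → K) → K → (Fin (n + r) → Derivation ℂ M M) → M}

/-- the place below a place -/
theorem Mod.below (S : Mod K L M y n r G) (hex : ∃ Q : Place ℂ K, Divisorial n Q) {P : Place ℂ M}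
    (hP : Divisorial (n + r) P) : ∃ Q : Place ℂ K, Divisorial n Q ∧
      ((∀ f : K, P.ord (algebraMap K M f) = 0) ∨ ∃ e, Over P Q e) := by
  have hessK := S.essK
  have hessM := S.essM
  by_cases htr : ∀ f : K, P.ord (algebraMap K M f) = 0
  · obtain ⟨Q, hQ⟩ := hex
    exact ⟨Q, hQ, Or.inl htr⟩
  · push Not at htr
    obtain ⟨e, Q, hPQ⟩ := FF.exists_over P htr
    exact ⟨Q, div_base (L := M) (by rw [S.trdeg_KM]) hPQ hP, Or.inr ⟨e, hPQ⟩⟩

theorem triv_not {P : Place ℂ M} {Q : Place ℂ K} (htr : ∀ f : K, P.ord (algebraMap K M f) = 0)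
    (hPQ : ∀ f, P.ord (algebraMap K M f) = Q.ord f) : False := by
  obtain ⟨t, -, ht⟩ := Q.surj
  have h1 := hPQ t
  rw [htr, ht] at h1
  exact zero_ne_one h1

theorem over_of_eq {P : Place ℂ M} {Q : Place ℂ K}
    (hPQ : ∀ f, P.ord (algebraMap K M f) = Q.ord f) : Over P Q 1 :=
  ⟨one_pos, fun f => by rw [hPQ, Nat.cast_one, one_mul]⟩

/-- **The pull-back of a semiample divisor.** -/
theorem CovG.semi_up (h : CovG S b Γ T) {E : Place ℂ K → ℚ}
    (hex : ∃ Q : Place ℂ K, Divisorial n Q) (hE : SemiampleDivisor y n E) :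
    SemiampleDivisor S.v (n + r) (pb y M E) := by
  obtain ⟨m, hm, hsec⟩ := hE
  refine ⟨m, hm, fun P hP => ?_⟩
  obtain ⟨Q, hQ, hQP⟩ := S.below hex hP
  obtain ⟨f, hf, hfQ⟩ := hsec Q hQ
  have h1 := h.sec_up' hf
  refine ⟨algebraMap K M f, ⟨h1.1, fun P' hP' => ?_⟩, fun P' hP' hT => ?_⟩
  · have h2 := h1.2 P' hP'
    rwa [pb_congr (m : ℚ) (E' := E) (fun Q _ => rfl)] at h2
  · rcases h.cases hP' with htr | ⟨D, hD, hPD⟩
    · rw [pb_triv htr, htr]
      simp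
    · rw [pb_over hD hPD, hPD]
      refine hfQ D hD ?_
      rcases hQP with h2 | ⟨e, h2⟩
      · exact (triv_not (h.through_triv hT h2) hPD).elim
      · exact h.through hT h2 (over_of_eq hPD)

/-- **Descent of semiample divisors.** -/
theorem CovG.semi_down (h : CovG S b Γ T) {E : Place ℂ K → ℚ}
    (hgen : ∀ Q, Divisorial n Q → LocGen y E Q)
    (hE : SemiampleDivisor S.v (n + r) (pb y M E)) : SemiampleDivisor y n E := by
  obtain ⟨m, hm, hsec⟩ := hE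
  refine ⟨m, hm, fun Q hQ => ?_⟩
  obtain ⟨P, e, hPd, hPQ⟩ := h.exists_over hQ
  obtain ⟨g, hg, hgP⟩ := hsec P hPd
  have hg' : IsSec S.v (pb y M fun D => m * E D) g := by
    refine ⟨hg.1, fun P' hP' => ?_⟩
    rw [pb_congr (m : ℚ) (E' := E) (fun Q _ => rfl)]
    exact hg.2 P' hP'
  obtain ⟨f, hgf, hf⟩ := h.sec_down' hg'
  refine ⟨f, hf, ?_⟩
  obtain ⟨k, u, hk, hu0, hu⟩ := hgen Q hQ
  -- the function `f ^ k * u ^ m` is a unit at the centre
  have hw0 : f ^ k * u ^ m ≠ 0 := mul_ne_zero (pow_ne_zero _ hf.1) (pow_ne_zero _ hu0)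
  have hwo : ∀ D, IsPrimeDivisor y D → Through y D Q →
      (D.ord (f ^ k * u ^ m) : ℚ) = k * (D.ord f + m * E D) := by
    intro D hD hDQ
    rw [D.ord_mul (pow_ne_zero _ hf.1) (pow_ne_zero _ hu0), D.ord_pow, D.ord_pow]
    push_cast
    rw [hu D hD hDQ]
    ring
  have hk0 : (0 : ℚ) < k := by exact_mod_cast hk
  have hmem : f ^ k * u ^ m ∈ localRing y Q := by
    refine mem_localRing_of_reg S.ny fun D hD hDQ => Or.inr ?_
    have h1 := hf.2 D hD
    have h2 : (0 : ℚ) ≤ D.ord (f ^ k * u ^ m) := by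
      rw [hwo D hD hDQ]
      refine mul_nonneg hk0.le ?_
      linarith
    exact_mod_cast h2
  have hwM0 : algebraMap K M (f ^ k * u ^ m) ≠ 0 := by rwa [Ne, map_eq_zero]
  have hz : ∀ P', IsPrimeDivisor S.v P' → Through S.v P' P →
      P'.ord (algebraMap K M (f ^ k * u ^ m)) = 0 := by
    intro P' hP' hT
    rcases h.cases hP' with htr | ⟨D, hD, hPD⟩
    · exact htr _
    · have hDQ : Through y D Q := h.through hT hPQ (over_of_eq hPD)
      have h1 := hgP P' hP' hT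
      rw [pb_over hD hPD, hgf, hPD] at h1
      rw [hPD]
      have h2 := hwo D hD hDQ
      rw [h1] at h2
      have h3 : (D.ord (f ^ k * u ^ m) : ℚ) = 0 := by
        rw [h2]
        ring
      exact_mod_cast h3
  have hmem' : (algebraMap K M (f ^ k * u ^ m))⁻¹ ∈ localRing S.v P :=
    mem_localRing_of_reg S.nv fun P' hP' hT => Or.inr (by
      rw [P'.ord_inv, hz P' hP' hT, neg_zero])
  have h1 := reg_ord_nonneg (localRing_reg hmem)
  have h2 := reg_ord_nonneg (localRing_reg hmem')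
  rw [P.ord_inv, hPQ.2] at h2
  have h3 : (0 : ℤ) < e := by exact_mod_cast hPQ.1
  have h4 : Q.ord (f ^ k * u ^ m) = 0 := by nlinarith
  intro D hD hDQ
  have h5 := unit_through hDQ hmem hw0 h4
  have h6 := hwo D hD hDQ
  rw [h5] at h6
  push_cast at h6
  have h7 : (D.ord f : ℚ) + m * E D = 0 := by
    rcases mul_eq_zero.1 h6.symm with h8 | h8
    · exact absurd h8 hk0.ne'
    · exact h8
  linarith

/-- **The pull-back of a nef divisor.** -/
theorem CovG.nef_up (h : CovG S b Γ T) {E : Place ℂ K → ℚ}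
    (hex : ∃ Q : Place ℂ K, Divisorial n Q) (hE : NefDivisor y n E) :
    NefDivisor S.v (n + r) (pb y M E) := by
  obtain ⟨a₀, ha₀⟩ := S.ny.ne
  obtain ⟨H, hH, hHo⟩ := exists_hyperplane S.ny ha₀
  rintro H' ⟨i₀, hi₀, hH'⟩ q hq
  obtain ⟨m, hm, hsec⟩ := hE H hH q hq
  refine ⟨m, hm, fun P₀ hP₀ => ?_⟩
  obtain ⟨Q₀, hQ₀, hQP⟩ := S.below hex hP₀
  obtain ⟨f, hf, hfQ⟩ := hsec Q₀ hQ₀
  obtain ⟨κ, hκ0, hκ⟩ := h.hyper ha₀ hi₀ P₀
  have hf0 : algebraMap K M f ≠ 0 := by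
    rw [Ne, map_eq_zero]
    exact hf.1
  have hm0 : (0 : ℚ) ≤ m := Nat.cast_nonneg m
  refine ⟨algebraMap K M f * κ ^ m, ⟨mul_ne_zero hf0 (pow_ne_zero _ hκ0), fun P hP => ?_⟩,
    fun P hP hT => ?_⟩
  · obtain ⟨l', hl'⟩ := exists_centred S.nv P
    obtain ⟨h1, h2⟩ := hκ P hP l' hl'
    change -((m : ℚ) * (q * pb y M E P + H' P)) ≤ _
    rw [P.ord_mul hf0 (pow_ne_zero _ hκ0), P.ord_pow, hH' P l' hP hl']
    rcases h.cases hP with htr | ⟨Q, hQ, hPQ⟩
    · rw [pb_triv htr, htr]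
      have h3 : (0 : ℚ) ≤ P.ord κ + P.ord (S.v i₀ / S.v l') := by exact_mod_cast (h1 htr).1
      have h4 := mul_le_mul_of_nonneg_left h3 hm0
      push_cast
      linarith
    · obtain ⟨l, hl⟩ := exists_centred S.ny Q
      rw [pb_over hQ hPQ, hPQ]
      have h3 : (Q.ord (y a₀ / y l) : ℚ) ≤ P.ord κ + P.ord (S.v i₀ / S.v l') := by
        exact_mod_cast (h2 Q l hQ hPQ hl).1
      have h4 := mul_le_mul_of_nonneg_left h3 hm0
      have h5 : -(m * (q * E Q + H Q)) ≤ (Q.ord f : ℚ) := hf.2 Q hQ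
      rw [hHo Q l hl] at h5
      push_cast
      linarith
  · obtain ⟨l', hl'⟩ := exists_centred S.nv P
    obtain ⟨h1, h2⟩ := hκ P hP l' hl'
    change _ = -((m : ℚ) * (q * pb y M E P + H' P))
    rw [P.ord_mul hf0 (pow_ne_zero _ hκ0), P.ord_pow, hH' P l' hP hl']
    rcases h.cases hP with htr | ⟨Q, hQ, hPQ⟩
    · rw [pb_triv htr, htr]
      have h3 : (P.ord κ + P.ord (S.v i₀ / S.v l') : ℚ) = 0 := by exact_mod_cast (h1 htr).2 hT
      push_cast
      linear_combination (m : ℚ) * h3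
    · obtain ⟨l, hl⟩ := exists_centred S.ny Q
      rw [pb_over hQ hPQ, hPQ]
      have h3 : (P.ord κ + P.ord (S.v i₀ / S.v l') : ℚ) = Q.ord (y a₀ / y l) := by
        exact_mod_cast (h2 Q l hQ hPQ hl).2 hT
      have hQQ : Through y Q Q₀ := by
        rcases hQP with h2 | ⟨e, h2⟩
        · exact (triv_not (h.through_triv hT h2) hPQ).elim
        · exact h.through hT h2 (over_of_eq hPQ)
      have h5 : (Q.ord f : ℚ) = -(m * (q * E Q + H Q)) := hfQ Q hQ hQQ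
      rw [hHo Q l hl] at h5
      push_cast
      rw [h5]
      linear_combination (m : ℚ) * h3

end

end Pool.Agent.H890
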