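import Pool.Agent.H890.Res2
import Pool.Agent.H890.Nf

/-!
Fermat coverings: residues of the functions on the section.
-/

set_option autoImplicit false
set_option linter.unusedSectionVars false
set_option linter.overlappingInstances false

open FF MvPolynomial Pool.Agent.W602.GT Pool.Agent.W603.LV Pool.Agent.Y172
  Pool.Agent.TH122.AB Pool.Agent.R887

namespace Pool.Agent.H890

section base

variable {K : Type} [Field K] [Algebra ℂ K] {N : ℕ} {y : Fin (N + 1) → K}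

/-- the local ring of a prime divisor through the centre of `Q` -/
theorem through_le {D Q : Place ℂ K} (hD : IsPrimeDivisor y D) (hDQ : Through y D Q) {f : K}
    (hf : f ∈ localRing y Q) : f ∈ localRing y D := hD f (hDQ f hf)

theorem through_trans {D D' Q : Place ℂ K} (hD : IsPrimeDivisor y D) (hDQ : Through y D Q)
    (hDD : Through y D' D) : Through y D' Q := fun f hf => hDD f (through_le hD hDQ hf)

theorem through_self (D : Place ℂ K) : Through y D D := fun _ hf => localRing_reg hf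

theorem lsub_inv (hy : NormalModel y) {Q : Place ℂ K} {f : K} (hf : f ∈ lsub y Q) (h0 : f ≠ 0)
    (ho : Q.ord f = 0) : f⁻¹ ∈ lsub y Q :=
  (lsub_iff hy).2 (localRing_inv ((lsub_iff hy).1 hf) h0 ho)

theorem lsub_reg (hy : NormalModel y) {Q : Place ℂ K} {f : K} (hf : f ∈ lsub y Q) : Q.Reg f :=
  localRing_reg ((lsub_iff hy).1 hf)

theorem lsub_unit {D Q : Place ℂ K} (hy : NormalModel y) (hDQ : Through y D Q) {f : K}
    (hf : f ∈ lsub y Q) (h0 : f ≠ 0) (ho : Q.ord f = 0) : D.ord f = 0 :=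
  unit_through hDQ ((lsub_iff hy).1 hf) h0 ho

end base

section ge

variable {M : Type} [Field M] [Algebra ℂ M]

/-- elements with a nonzero residue are units -/
theorem ge_unit {P : Place ℂ M} {a κ : M} (h : Ge P 1 (a - κ)) (hκ : κ ≠ 0) (ho : P.ord κ = 0) :
    a ≠ 0 ∧ P.ord a = 0 := by
  have h1 : a ≠ 0 := by
    rintro rfl
    rw [zero_sub] at h
    have h2 := h.neg
    rw [neg_neg] at h2
    rcases h2 with h3 | h3
    · exact hκ h3
    · omega
  refine ⟨h1, ?_⟩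
  have h2 : 0 ≤ P.ord a := by
    have h3 := (h.mono (show (0 : ℤ) ≤ 1 by norm_num)).add (show Ge P 0 κ from Or.inr ho.ge)
    rw [sub_add_cancel] at h3
    exact h3.resolve_left h1
  by_contra h3
  have h4 : Ge P 1 a := Or.inr (by omega)
  have h5 := h4.sub h
  rw [sub_sub_cancel] at h5
  rcases h5 with h6 | h6
  · exact hκ h6
  · omega

/-- quotients of elements with residues -/
theorem ge_div {P : Place ℂ M} {a b κ μ : M} (ha : Ge P 1 (a - κ)) (hb : Ge P 1 (b - μ))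
    (hμ : μ ≠ 0) (ho : P.ord μ = 0) (hκ : Ge P 0 κ) : Ge P 1 (a / b - κ / μ) := by
  obtain ⟨hb0, hbo⟩ := ge_unit hb hμ ho
  have hb' : Ge P 0 b⁻¹ := Or.inr (by rw [P.ord_inv, hbo]; norm_num)
  have hμ' : Ge P 0 μ⁻¹ := Or.inr (by rw [P.ord_inv, ho]; norm_num)
  have h1 : a / b - κ / μ = b⁻¹ * ((a - κ) - κ * μ⁻¹ * (b - μ)) := by
    field_simp
    ring
  rw [h1]
  have h2 := (hκ.mul hμ').mul hb
  rw [add_zero, zero_add] at h2
  have h3 := hb'.mul (ha.sub h2)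
  rwa [zero_add] at h3

theorem ge_mul {P : Place ℂ M} {a b κ μ : M} (ha : Ge P 1 (a - κ)) (hb : Ge P 1 (b - μ))
    (hκ : Ge P 0 κ) (hμ : Ge P 0 μ) : Ge P 1 (a * b - κ * μ) := by
  have hb' : Ge P 0 b := by
    have h3 := (hb.mono (show (0 : ℤ) ≤ 1 by norm_num)).add hμ
    rwa [sub_add_cancel] at h3
  have h1 : a * b - κ * μ = (a - κ) * b + κ * (b - μ) := by ring
  rw [h1]
  have h2 := ha.mul hb'
  have h3 := hκ.mul hb
  rw [add_zero] at h2
  rw [zero_add] at h3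
  exact h2.add h3

end ge

section

variable {K L M : Type} [Field K] [Field L] [Field M] [Algebra ℂ K] [Algebra ℂ L]
  [Algebra ℂ M] [Algebra K L] [Algebra L M] [Algebra K M] [IsScalarTower ℂ K L]
  [IsScalarTower ℂ L M] [IsScalarTower ℂ K M] [IsScalarTower K L M] [FiniteDimensional L M]
  {N : ℕ} {y : Fin (N + 1) → K} {n r : ℕ} {G : Place ℂ K → ℤ}
  {S : Mod K L M y n r G} {s : K} {z : Fin (r + 2) → M} {w : ℤ}

/-- local data at the centre of `Q` -/
structure LocD (S : Mod K L M y n r G) (s : K) (Q : Place ℂ K) (lam f₀ : K)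
    (c : Fin (S.s + 1)) : Prop where
  lam0 : lam ≠ 0
  g : ∀ D, IsPrimeDivisor y D → Through y D Q → D.ord (s * lam ^ (r + 2)) = G D
  f0 : f₀ ≠ 0
  u : S.u c = algebraMap K L f₀
  f : ∀ D, IsPrimeDivisor y D → Through y D Q → ∀ j, Centred y j D → D.ord f₀ = S.c * D.ord (y j)

theorem LocD.gmem (_ : Fer S s z w) {Q : Place ℂ K} {lam f₀ : K} {c : Fin (S.s + 1)}
    (hd : LocD S s Q lam f₀ c) : s * lam ^ (r + 2) ∈ lsub y Q := by
  intro D hD hDQ
  right
  rw [hd.g D hD hDQ]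
  exact S.car.nonneg D hD

theorem LocD.fmem (h : Fer S s z w) {Q : Place ℂ K} {lam f₀ : K} {c : Fin (S.s + 1)}
    (hd : LocD S s Q lam f₀ c) (i : Fin (r + 1)) {f' : K} (hf' : f' ∈ S.F i) :
    (s * lam ^ (r + 2)) ^ (S.wt i.castSucc) * (f' / f₀) ∈ lsub y Q := by
  intro D hD hDQ
  right
  obtain ⟨j, hj⟩ := exists_centred S.ny D
  have h1 := (S.fam i).low D hD j hj f' hf'
  have h2 : s * lam ^ (r + 2) ≠ 0 := mul_ne_zero h.s0 (pow_ne_zero _ hd.lam0)
  rw [D.ord_mul (zpow_ne_zero _ h2) (div_ne_zero ((S.fam i).ne f' hf') hd.f0), D.ord_zpow,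
    D.ord_div ((S.fam i).ne f' hf') hd.f0, hd.g D hD hDQ, hd.f D hD hDQ j hj]
  linarith

theorem exists_locD (h : Fer S s z w) {Q : Place ℂ K} (hQ : Divisorial n Q)
    (hloc : ∃ lam : K, lam ≠ 0 ∧ ∀ D, IsPrimeDivisor y D → Through y D Q →
      D.ord (s * lam ^ (r + 2)) = G D) : ∃ lam f₀ c, LocD S s Q lam f₀ c := by
  obtain ⟨lam, hl, hg⟩ := hloc
  obtain ⟨f₀, hf₀, hgen⟩ := (S.fam 0).gen Q hQ
  obtain ⟨c, hc⟩ := S.exists_u 0 hf₀
  refine ⟨lam, f₀, c, hl, hg, (S.fam 0).ne f₀ hf₀, ?_, fun D hD hDQ j hj => ?_⟩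
  · rw [hc]
    change S.l 0 * _ = _
    rw [h.l0, one_mul]
  · rw [hgen D hD hDQ j hj]
    have : S.wt (Fin.castSucc 0) = 0 := S.wt0
    rw [this, zero_mul, sub_zero]

/-- the variables on the section -/
noncomputable def zz (S : Mod K L M y n r G) (z : Fin (r + 2) → M) (lam : K) (p : Fin r) : M :=
  wk S z lam p.succ.castSucc

theorem good_mono {A B : Subalgebra ℂ K} (hAB : A ≤ B) {Z : Fin r → M} {x : M} {ζ : ℂ}
    {P : Place ℂ M} (hP : GoodAt B Z x ζ P) : GoodAt A Z x ζ P :=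
  ⟨fun c hc => hP.reg c (hAB hc), hP.var, hP.root⟩

/-- changing the local equation -/
theorem LocD.good (h : Fer S s z w) {Q : Place ℂ K} {lam lam' f₀ : K}
    {c : Fin (S.s + 1)} (hd : LocD S s Q lam f₀ c) (hl' : lam' ≠ 0)
    (hg' : ∀ D, IsPrimeDivisor y D → Through y D Q → D.ord (s * lam' ^ (r + 2)) = G D) {ζ : ℂ}
    {P : Place ℂ M} (hP : GoodAt (lsub y Q) (zz S z lam) (z (Fin.last (r + 1))) ζ P) :
    GoodAt (lsub y Q) (zz S z lam') (z (Fin.last (r + 1))) ζ P := by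
  have hl := hd.lam0
  have h1 : ∀ D, IsPrimeDivisor y D → Through y D Q → D.ord (lam' / lam) = 0 := by
    intro D hD hDQ
    have h2 := hd.g D hD hDQ
    have h3 := hg' D hD hDQ
    rw [D.ord_mul h.s0 (pow_ne_zero _ hl), D.ord_pow] at h2
    rw [D.ord_mul h.s0 (pow_ne_zero _ hl'), D.ord_pow] at h3
    rw [D.ord_div hl' hl]
    have h4 : ((r + 2 : ℕ) : ℤ) * (D.ord lam' - D.ord lam) = 0 := by linarith
    rcases mul_eq_zero.1 h4 with h5 | h5
    · exfalso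
      have : ((r + 2 : ℕ) : ℤ) ≠ 0 := by positivity
      exact this h5
    · exact h5
  refine ⟨hP.reg, fun p => ?_, hP.root⟩
  have h2 : zz S z lam' p = zz S z lam p *
      algebraMap K M ((lam' / lam) ^ (- S.wt p.succ.castSucc)) := by
    unfold zz wk
    rw [mul_assoc, ← map_mul, div_zpow]
    congr 2
    have := zpow_ne_zero (- S.wt p.succ.castSucc) hl
    field_simp
  rw [h2]
  have h3 : (lam' / lam) ^ (- S.wt p.succ.castSucc) ∈ lsub y Q := by
    intro D hD hDQ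
    right
    rw [D.ord_zpow, h1 D hD hDQ, mul_zero]
  have h4 := (hP.var p).mul (show Ge P 0 _ from hP.reg _ h3)
  rwa [add_zero] at h4

/-- the chart -/
theorem LocD.cen (h : Fer S s z w) {Q : Place ℂ K} {lam f₀ : K} {c : Fin (S.s + 1)}
    (hd : LocD S s Q lam f₀ c) {ζ : ℂ} {P : Place ℂ M}
    (hP : GoodAt (lsub y Q) (zz S z lam) (z (Fin.last (r + 1))) ζ P) : S.Cen c P := by
  intro c'
  obtain ⟨i, f', hf', hu'⟩ := S.u_eq c'
  have hf0 : f' ≠ 0 := (S.fam i).ne f' hf'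
  have h1 := hP.reg _ (hd.fmem h i hf')
  have hg0 : s * lam ^ (r + 2) ≠ 0 := mul_ne_zero h.s0 (pow_ne_zero _ hd.lam0)
  have h2 : 0 ≤ P.ord (algebraMap K M ((s * lam ^ (r + 2)) ^ (S.wt i.castSucc) * (f' / f₀))) :=
    reg_ord_nonneg h1
  have h3 : 0 ≤ P.ord (wk S z lam i.castSucc) := by
    revert i
    refine Fin.cases ?_ fun p => ?_
    · intro _ _ _ _
      have h4 : wk S z lam (Fin.castSucc 0) = 1 := by
        change wk S z lam 0 = 1
        unfold wk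
        rw [h.z0, S.wt0, neg_zero, zpow_zero, map_one, mul_one]
      rw [h4, P.ord_one]
    · intro _ _ _ _
      rcases hP.var p with h4 | h4
      · exact absurd h4 (h.wk_ne hd.lam0 _)
      · exact le_trans (by norm_num) h4
  have h4 : algebraMap L M (S.u c') = algebraMap L M (S.u c) * (wk S z lam i.castSucc ^ (r + 2) *
      algebraMap K M ((s * lam ^ (r + 2)) ^ (S.wt i.castSucc) * (f' / f₀))) := by
    have h5 := h.wk_pow hd.lam0 i.castSucc
    change algebraMap L M (S.l i.castSucc) = _ at h5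
    have h6 : algebraMap K M f₀ ≠ 0 := by
      rw [Ne, map_eq_zero]
      exact hd.f0
    rw [hu', hd.u, map_mul, h5, ← IsScalarTower.algebraMap_apply, ← IsScalarTower.algebraMap_apply,
      map_mul, map_div₀]
    field_simp
  have h5 : algebraMap K M ((s * lam ^ (r + 2)) ^ (S.wt i.castSucc) * (f' / f₀)) ≠ 0 := by
    rw [Ne, map_eq_zero]
    exact mul_ne_zero (zpow_ne_zero _ hg0) (div_ne_zero hf0 hd.f0)
  have h6 := pow_ne_zero (r + 2) (h.wk_ne hd.lam0 i.castSucc)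
  rw [h4, P.ord_mul (S.uM_ne c) (mul_ne_zero h6 h5), P.ord_mul h6 h5, P.ord_pow]
  have h7 : (0 : ℤ) ≤ ((r + 2 : ℕ) : ℤ) * P.ord (wk S z lam i.castSucc) :=
    mul_nonneg (by positivity) h3
  linarith

/-- the place `P` is a prime divisor over the centre of `Q` on the section -/
structure SecAt (S : Mod K L M y n r G) (s : K) (z : Fin (r + 2) → M) (ζ : ℂ) (Q : Place ℂ K)
    (P : Place ℂ M) : Prop where
  div : Divisorial (n + r) P
  ovr : ∃ e, Over P Q e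
  good : ∀ lam : K, lam ≠ 0 → (∀ D, IsPrimeDivisor y D → Through y D Q →
    D.ord (s * lam ^ (r + 2)) = G D) →
      GoodAt (lsub y Q) (zz S z lam) (z (Fin.last (r + 1))) ζ P

/-- the place `W` has its centre at the generic point of the section -/
structure GenAt (K : Type) {M : Type} [Field K] [Field M] [Algebra ℂ M] [Algebra K M] {r : ℕ}
    (z : Fin (r + 2) → M) (ζ : ℂ) (W : Place ℂ M) : Prop where
  triv : ∀ f : K, W.ord (algebraMap K M f) = 0
  var : ∀ p : Fin r, Ge W 1 (z p.succ.castSucc)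
  root : Ge W 1 (z (Fin.last (r + 1)) - algebraMap ℂ M ζ)

theorem GenAt.good (S : Mod K L M y n r G) {ζ : ℂ} {W : Place ℂ M} (hW : GenAt K z ζ W)
    (A : Subalgebra ℂ K) (lam : K) : GoodAt A (zz S z lam) (z (Fin.last (r + 1))) ζ W := by
  refine ⟨fun c _ => Or.inr (hW.triv c).ge, fun p => ?_, hW.root⟩
  have h1 := (hW.var p).mul (show Ge W 0 (algebraMap K M (lam ^ (- S.wt p.succ.castSucc))) from
    Or.inr (hW.triv _).ge)
  rwa [add_zero] at h1

theorem Fer.exists_secAt (h : Fer S s z w) {Q : Place ℂ K} (hQ : Divisorial n Q) (hn : 0 < n)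
    (hloc : ∃ lam : K, lam ≠ 0 ∧ ∀ D, IsPrimeDivisor y D → Through y D Q →
      D.ord (s * lam ^ (r + 2)) = G D) {ζ : ℂ} (hζ : ζ ^ (r + 2) = -1) :
    ∃ P, SecAt S s z ζ Q P := by
  obtain ⟨lam, f₀, c, hd⟩ := exists_locD h hQ hloc
  obtain ⟨P, e, hP, hPQ, hgood⟩ := h.exists_sec hd.lam0 hQ hn (hd.gmem h)
    (fun a ha => lsub_reg S.ny ha) hζ
  exact ⟨P, hP, ⟨e, hPQ⟩, fun lam' hl' hg' => hd.good h hl' hg' hgood⟩

/-- **Residues of the functions in the local rings.** -/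
theorem LocD.res (h : Fer S s z w) {Q : Place ℂ K} {lam f₀ : K} {c : Fin (S.s + 1)}
    (hd : LocD S s Q lam f₀ c) {ζ : ℂ} (hζ : ζ ≠ 0) {P : Place ℂ M}
    (hP : GoodAt (lsub y Q) (zz S z lam) (z (Fin.last (r + 1))) ζ P) {e : ℕ} (hPQ : Over P Q e)
    {b : M} (hb : b ∈ localRing S.v P) : ∃ κ ∈ lsub y Q, ∀ P' : Place ℂ M,
      GoodAt (lsub y Q) (zz S z lam) (z (Fin.last (r + 1))) ζ P' →
      (∀ μ ∈ lsub y Q, μ ≠ 0 → Q.ord μ = 0 → P'.ord (algebraMap K M μ) = 0) →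
      b ∈ localRing S.v P' ∧ Ge P' 1 (b - algebraMap K M κ) := by
  have hc := hd.cen h hP
  obtain ⟨a, ha, b', hb', hb0, hbo, hab⟩ := (mem_localRing hc.centred).1 hb
  obtain ⟨κ₁, hκ₁, h1⟩ := h.res hd.lam0 (lsub_ci S.ny Q) (hd.gmem h) hd.u
    (fun i f' hf' => hd.fmem h i hf') ((S.chart_iff c _).1 ha) hζ
  obtain ⟨κ₂, hκ₂, h2⟩ := h.res hd.lam0 (lsub_ci S.ny Q) (hd.gmem h) hd.u
    (fun i f' hf' => hd.fmem h i hf') ((S.chart_iff c _).1 hb') hζ
  have h3 := (h2 P hP).neg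
  rw [neg_sub] at h3
  obtain ⟨h4, h5⟩ := ge_unit h3 hb0 hbo
  have hκ0 : κ₂ ≠ 0 := by
    rintro rfl
    exact h4 (map_zero _)
  have hκQ : Q.ord κ₂ = 0 := by
    rw [hPQ.2] at h5
    rcases mul_eq_zero.1 h5 with h6 | h6
    · have := hPQ.1
      omega
    · exact h6
  refine ⟨κ₁ * κ₂⁻¹, (lsub y Q).mul_mem hκ₁ (lsub_inv S.ny hκ₂ hκ0 hκQ), fun P' hP' hunit => ?_⟩
  have h6 := hunit κ₂ hκ₂ hκ0 hκQ
  obtain ⟨h7, h8⟩ := ge_unit (h2 P' hP') h4 h6
  refine ⟨⟨S.j c, (hd.cen h hP').centred, a, ha, b', hb', hb0, h8, hab⟩, ?_⟩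
  have h9 : b = a / b' := by
    rw [← hab]
    field_simp
  rw [h9, map_mul, map_inv₀, ← div_eq_mul_inv]
  exact ge_div (h1 P' hP') (h2 P' hP') h4 h6 (hP'.reg κ₁ hκ₁)

/-- **The local rings along the section.** -/
theorem SecAt.le (h : Fer S s z w) {ζ : ℂ} (hζ : ζ ≠ 0) {D Q : Place ℂ K} {P P' : Place ℂ M}
    (hloc : ∃ lam f₀ c, LocD S s Q lam f₀ c) (hP : SecAt S s z ζ Q P) (hP' : SecAt S s z ζ D P')
    (hD : IsPrimeDivisor y D) (hDQ : Through y D Q) {b : M} (hb : b ∈ localRing S.v P) :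
    b ∈ localRing S.v P' := by
  obtain ⟨lam, f₀, c, hd⟩ := hloc
  obtain ⟨e, he⟩ := hP.ovr
  obtain ⟨e', he'⟩ := hP'.ovr
  obtain ⟨κ, -, h1⟩ := hd.res h hζ (hP.good lam hd.lam0 hd.g) he hb
  have hle : lsub y Q ≤ lsub y D := fun f hf => (lsub_iff S.ny).2
    (through_le hD hDQ ((lsub_iff S.ny).1 hf))
  refine (h1 P' (good_mono hle (hP'.good lam hd.lam0 fun D' hD' hDD' =>
    hd.g D' hD' (through_trans hD hDQ hDD'))) fun μ hμ hμ0 hμQ => ?_).1
  rw [he'.2, lsub_unit S.ny hDQ hμ hμ0 hμQ, mul_zero]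

/-- residues at the generic point of the section -/
theorem SecAt.gen (h : Fer S s z w) {ζ : ℂ} (hζ : ζ ≠ 0) {Q : Place ℂ K} {P W : Place ℂ M}
    (hloc : ∃ lam f₀ c, LocD S s Q lam f₀ c) (hP : SecAt S s z ζ Q P) (hW : GenAt K z ζ W) {b : M}
    (hb : b ∈ localRing S.v P) :
    b ∈ localRing S.v W ∧ ∃ κ ∈ lsub y Q, Ge W 1 (b - algebraMap K M κ) := by
  obtain ⟨lam, f₀, c, hd⟩ := hloc
  obtain ⟨e, he⟩ := hP.ovr
  obtain ⟨κ, hκ, h1⟩ := hd.res h hζ (hP.good lam hd.lam0 hd.g) he hb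
  obtain ⟨h2, h3⟩ := h1 W (hW.good S _ lam) fun μ _ _ _ => hW.triv μ
  exact ⟨h2, κ, hκ, h3⟩

/-- residues of all functions in the local ring at the generic point of the section -/
theorem GenAt.res (h : Fer S s z w) {ζ : ℂ} (hζ : ζ ≠ 0) {Q : Place ℂ K} {W : Place ℂ M}
    (hloc : ∃ lam f₀ c, LocD S s Q lam f₀ c) (hW : GenAt K z ζ W) {b : M}
    (hb : b ∈ localRing S.v W) : ∃ κ : K, Ge W 1 (b - algebraMap K M κ) := by
  obtain ⟨lam, f₀, c, hd⟩ := hloc
  have hc := hd.cen h (hW.good S _ lam)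
  obtain ⟨a, ha, b', hb', hb0, hbo, hab⟩ := (mem_localRing hc.centred).1 hb
  obtain ⟨κ₁, -, h1⟩ := h.res hd.lam0 ci_top Algebra.mem_top hd.u
    (fun _ _ _ => Algebra.mem_top) ((S.chart_iff c _).1 ha) hζ
  obtain ⟨κ₂, -, h2⟩ := h.res hd.lam0 ci_top Algebra.mem_top hd.u
    (fun _ _ _ => Algebra.mem_top) ((S.chart_iff c _).1 hb') hζ
  have hWt := hW.good S ⊤ lam
  have h3 := (h2 W hWt).neg
  rw [neg_sub] at h3
  obtain ⟨h4, h5⟩ := ge_unit h3 hb0 hbo
  refine ⟨κ₁ * κ₂⁻¹, ?_⟩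
  have h9 : b = a / b' := by
    rw [← hab]
    field_simp
  rw [h9, map_mul, map_inv₀, ← div_eq_mul_inv]
  exact ge_div (h1 W hWt) (h2 W hWt) h4 h5 (Or.inr (hW.triv κ₁).ge)

/-- the residue is unique -/
theorem GenAt.unique {ζ : ℂ} {W : Place ℂ M} (hW : GenAt K z ζ W) {b : M} {κ κ' : K}
    (h1 : Ge W 1 (b - algebraMap K M κ)) (h2 : Ge W 1 (b - algebraMap K M κ')) : κ = κ' := by
  have h3 := h2.sub h1
  rw [sub_sub_sub_cancel_left, ← map_sub] at h3
  rcases h3 with h4 | h4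
  · exact sub_eq_zero.1 ((map_eq_zero _).1 h4)
  · rw [hW.triv] at h4
    omega

end

end Pool.Agent.H890
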