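import Pool.Agent.H890.KDefs5
import Pool.Agent.H890.Res3
import Pool.Graph.R_seed8.Helper386.D5V.Helper386_FF_RR

set_option autoImplicit false
set_option linter.unusedSectionVars false
set_option linter.overlappingInstances false

open FF MvPolynomial Pool.Agent.W602.GT Pool.Agent.W603.LV Pool.Agent.Y172
  Pool.Agent.TH122.AB Pool.Agent.R887

namespace Pool.Agent.H890

/-- the sum of the orders times the degrees, over any finite set which contains the support -/
theorem sum_ord_deg {k M : Type} [Field k] [Field M] [Algebra k M] [CharZero k] [IsFF k M] (f : M)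
    {U : Finset (Place k M)} (hU : (divisor k f).support ⊆ U) :
    ∑ P ∈ U, P.ord f * (P.deg : ℤ) = 0 := by
  have h1 := ddeg_divisor (k := k) f
  unfold ddeg at h1
  rw [Finsupp.sum_of_support_subset _ hU _ (fun P _ => by rw [zero_mul])] at h1
  exact h1

/-- TASK CN-B2. **Bound for the vanishing order of sections along a horizontal prime divisor.** -/
theorem bound_of_const {K M : Type} [Field K] [Field M] [Algebra ℂ K] [Algebra ℂ M]
    [Algebra K M] [IsScalarTower ℂ K M] {N' : ℕ} {v : Fin (N' + 1) → M} (nv : NormalModel v)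
    (htriv : ∀ {P P' : Place ℂ M}, Through v P' P → (∀ f : K, P.ord (algebraMap K M f) = 0) →
      ∀ f : K, P'.ord (algebraMap K M f) = 0)
    {P₀ : Place ℂ M} {F : IntermediateField K M} (hF : IsFF F M) (hP₀ : ∀ f : F, P₀.ord (f : M) = 0)
    {H : Place ℂ M → ℚ} (hH : Hyperplane v H) :
    ∃ C : ℕ, ∀ m : ℕ, ∀ f : M, f ≠ 0 →
      (∀ P, IsPrimeDivisor v P → (∀ c : K, P.ord (algebraMap K M c) = 0) →
        -((m : ℚ) * H P) ≤ P.ord f) → (P₀.ord f : ℚ) ≤ C * m := by
  classical
  have hc0 : CharZero F := charZero_of_injective_algebraMap (algebraMap ℂ F).injective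
  have htow : IsScalarTower ℂ F M := IsScalarTower.of_algebraMap_eq fun c => rfl
  obtain ⟨a, ha, hHa⟩ := hH
  let P₁ : Place F M :=
    { ord := P₀.ord
      ord_zero := P₀.ord_zero
      ord_mul := P₀.ord_mul
      ord_add := P₀.ord_add
      ord_const := fun {c} _ => hP₀ c
      surj := P₀.surj }
  have hP₁ : ∀ f : M, P₁.ord f = P₀.ord f := fun _ => rfl
  -- the bound
  let B : Place F M → ℤ := fun P => ∑ l : Fin (N' + 1), |P.ord (v a / v l)|
  have hB0 : ∀ P, 0 ≤ B P := fun P => Finset.sum_nonneg fun _ _ => abs_nonneg _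
  let S : Finset (Place F M) := Finset.univ.biUnion fun l : Fin (N' + 1) =>
    (divisor F (v a / v l)).support
  have hBS : ∀ P, P ∉ S → B P = 0 := by
    intro P hP
    refine Finset.sum_eq_zero fun l _ => ?_
    have h1 : P ∉ (divisor F (v a / v l)).support := fun h =>
      hP (Finset.mem_biUnion.2 ⟨l, Finset.mem_univ _, h⟩)
    rw [Finsupp.notMem_support_iff, divisor_apply] at h1
    rw [h1, abs_zero]
  refine ⟨(∑ P ∈ S, B P * (P.deg : ℤ)).toNat, ?_⟩
  intro m f hf0 hf
  have hCn : 0 ≤ ∑ P ∈ S, B P * (P.deg : ℤ) :=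
    Finset.sum_nonneg fun P _ => mul_nonneg (hB0 P) (Int.natCast_nonneg _)
  -- the orders of `f`
  have hord : ∀ P : Place F M, -((m : ℤ) * B P) ≤ P.ord f := by
    intro P
    obtain ⟨l, hl⟩ := exists_centred nv (restr P)
    have hu : v a / v l ≠ 0 := div_ne_zero ha hl.1
    have hg0 : f * (v a / v l) ^ m ≠ 0 := mul_ne_zero hf0 (pow_ne_zero _ hu)
    have htP : ∀ c : K, (restr P).ord (algebraMap K M c) = 0 := fun c =>
      restr_triv P (algebraMap K F c)
    have h1 : f * (v a / v l) ^ m ∈ localRing v (restr P) := by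
      refine mem_localRing_of_reg nv fun P' hP' hT => (P'.reg_iff hg0).2 ?_
      have h2 := hf P' hP' (htriv hT htP)
      rw [hHa P' l hP' (hT.centred hl)] at h2
      rw [P'.ord_mul hf0 (pow_ne_zero _ hu), P'.ord_pow]
      have h3 : (0 : ℚ) ≤ ((P'.ord f + m * P'.ord (v a / v l) : ℤ) : ℚ) := by
        push_cast
        linarith
      exact_mod_cast h3
    have h4 := reg_ord_nonneg (localRing_reg h1)
    rw [restr_ord, P.ord_mul hf0 (pow_ne_zero _ hu), P.ord_pow] at h4
    have h5 : P.ord (v a / v l) ≤ B P := (le_abs_self _).trans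
      (Finset.single_le_sum (f := fun l => |P.ord (v a / v l)|) (fun _ _ => abs_nonneg _)
        (Finset.mem_univ l))
    have h6 : (m : ℤ) * P.ord (v a / v l) ≤ m * B P :=
      mul_le_mul_of_nonneg_left h5 (Int.natCast_nonneg _)
    linarith
  -- the sum
  by_cases hneg : P₀.ord f ≤ 0
  · have h1 : (P₀.ord f : ℚ) ≤ 0 := by exact_mod_cast hneg
    have h2 : (0 : ℚ) ≤ ((∑ P ∈ S, B P * (P.deg : ℤ)).toNat : ℚ) * m := by positivity
    exact h1.trans h2
  rw [not_le] at hneg
  have hsum := sum_ord_deg (k := F) f (U := insert P₁ ((divisor F f).support ∪ S))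
    (fun P hP => Finset.mem_insert_of_mem (Finset.mem_union_left _ hP))
  rw [← Finset.add_sum_erase _ _ (Finset.mem_insert_self P₁ _), hP₁] at hsum
  have h1 : ∀ P ∈ (insert P₁ ((divisor F f).support ∪ S)).erase P₁,
      -((m : ℤ) * (B P * P.deg)) ≤ P.ord f * (P.deg : ℤ) := by
    intro P _
    have := mul_le_mul_of_nonneg_right (hord P) (Int.natCast_nonneg P.deg)
    linarith
  have h2 := Finset.sum_le_sum h1
  rw [Finset.sum_neg_distrib, ← Finset.mul_sum] at h2
  have h3 : ∑ P ∈ (insert P₁ ((divisor F f).support ∪ S)).erase P₁, B P * (P.deg : ℤ) ≤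
      ∑ P ∈ S, B P * (P.deg : ℤ) := by
    have h4 : ∑ P ∈ (insert P₁ ((divisor F f).support ∪ S)).erase P₁, B P * (P.deg : ℤ) ≤
        ∑ P ∈ insert P₁ ((divisor F f).support ∪ S), B P * (P.deg : ℤ) :=
      Finset.sum_le_sum_of_subset_of_nonneg (Finset.erase_subset _ _) fun P _ _ =>
        mul_nonneg (hB0 P) (Int.natCast_nonneg _)
    refine h4.trans (le_of_eq ?_)
    symm
    refine Finset.sum_subset (fun P hP => Finset.mem_insert_of_mem
      (Finset.mem_union_right _ hP)) fun P _ hP => ?_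
    rw [hBS P hP, zero_mul]
  have h5 : P₀.ord f * 1 ≤ P₀.ord f * (P₁.deg : ℤ) := by
    apply mul_le_mul_of_nonneg_left _ hneg.le
    have := P₁.deg_pos
    exact_mod_cast this
  have h6 : (m : ℤ) * ∑ P ∈ (insert P₁ ((divisor F f).support ∪ S)).erase P₁, B P * (P.deg : ℤ) ≤
      m * ∑ P ∈ S, B P * (P.deg : ℤ) := mul_le_mul_of_nonneg_left h3 (Int.natCast_nonneg _)
  have h7 : P₀.ord f ≤ m * ∑ P ∈ S, B P * (P.deg : ℤ) := by linarith
  have h8 : (P₀.ord f : ℚ) ≤ ((m * ∑ P ∈ S, B P * (P.deg : ℤ) : ℤ) : ℚ) := by exact_mod_cast h7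
  refine h8.trans (le_of_eq ?_)
  have h9 : (((∑ P ∈ S, B P * (P.deg : ℤ)).toNat : ℕ) : ℚ) =
      ((∑ P ∈ S, B P * (P.deg : ℤ) : ℤ) : ℚ) := by
    have := Int.toNat_of_nonneg hCn
    exact_mod_cast this
  rw [h9]
  push_cast
  ring

end Pool.Agent.H890
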