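import Pool.Agent.H890.CaI

set_option autoImplicit false
set_option linter.unusedSectionVars false
set_option linter.overlappingInstances false

open FF MvPolynomial Pool.Agent.W602.GT Pool.Agent.W603.LV Pool.Agent.Y172
  Pool.Agent.TH122.AB Pool.Agent.R887

namespace Pool.Agent.H890

namespace NefDown

variable {K M : Type} [Field K] [Field M] [Algebra ℂ K] [Algebra ℂ M] [Algebra K M]
    [IsScalarTower ℂ K M] {N N' n d : ℕ} {y : Fin (N + 1) → K} {v : Fin (N' + 1) → M}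
    {W : Place ℂ M} {sec : Place ℂ K → Place ℂ M}

theorem unique (h : Sct y n v d W sec) {b : M} {κ κ' : K}
    (h1 : Ge W 1 (b - algebraMap K M κ)) (h2 : Ge W 1 (b - algebraMap K M κ')) : κ = κ' := by
  have h3 := h2.sub h1
  rw [sub_sub_sub_cancel_left, ← map_sub] at h3
  rcases h3 with h4 | h4
  · exact sub_eq_zero.1 ((map_eq_zero _).1 h4)
  · rw [h.triv] at h4
    omega

theorem mul (h : Sct y n v d W sec) {a b : M} {κ μ : K}
    (h1 : Ge W 1 (a - algebraMap K M κ)) (h2 : Ge W 1 (b - algebraMap K M μ)) :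
    Ge W 1 (a * b - algebraMap K M (κ * μ)) := by
  rw [map_mul]
  exact ge_mul h1 h2 (Or.inr (h.triv κ).ge) (Or.inr (h.triv μ).ge)

theorem self (κ : K) : Ge W 1 (algebraMap K M κ - algebraMap K M κ) := by
  rw [sub_self]
  exact Ge.zero

theorem one : Ge W 1 ((1 : M) - algebraMap K M 1) := by
  rw [map_one, sub_self]
  exact Ge.zero

/-- residues of units -/
theorem unit (h : Sct y n v d W sec) {Q : Place ℂ K} (hQ : Divisorial n Q) {b : M} (hb0 : b ≠ 0)
    (hb : b ∈ localRing v (sec Q)) (hb' : b⁻¹ ∈ localRing v (sec Q)) {κ : K}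
    (hκ : Ge W 1 (b - algebraMap K M κ)) {D : Place ℂ K} (hDQ : Through y D Q) :
    κ ≠ 0 ∧ D.ord κ = 0 := by
  obtain ⟨-, κ₁, h1, h2⟩ := h.gen Q hQ b hb
  obtain ⟨-, κ₂, h3, h4⟩ := h.gen Q hQ b⁻¹ hb'
  have h5 : κ = κ₁ := unique h hκ h2
  have h6 := mul h hκ h4
  rw [mul_inv_cancel₀ hb0] at h6
  have h7 : κ * κ₂ = 1 := unique h h6 one
  have h8 : κ ≠ 0 := left_ne_zero_of_mul_eq_one h7
  have h9 : κ₂ ≠ 0 := right_ne_zero_of_mul_eq_one h7
  refine ⟨h8, ?_⟩
  have h10 := reg_ord_nonneg (hDQ κ (h5 ▸ h1))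
  have h11 := reg_ord_nonneg (hDQ κ₂ h3)
  have h12 : D.ord κ + D.ord κ₂ = 0 := by
    rw [← D.ord_mul h8 h9, h7, D.ord_one]
  omega

/-- prime divisors through a point of the section -/
theorem cases' (h : Sct y n v d W sec)
    (cases : ∀ {P : Place ℂ M}, IsPrimeDivisor v P → (∀ f : K, P.ord (algebraMap K M f) = 0) ∨
      ∃ Q, IsPrimeDivisor y Q ∧ ∀ f, P.ord (algebraMap K M f) = Q.ord f)
    (through : ∀ {P P' : Place ℂ M}, Through v P' P → ∀ {Q Q' : Place ℂ K} {e e' : ℕ},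
      Over P Q e → Over P' Q' e' → Through y Q' Q)
    {D : Place ℂ K} (hD : IsPrimeDivisor y D) (hDd : Divisorial n D) {P' : Place ℂ M}
    (hP' : IsPrimeDivisor v P') (hT : Through v P' (sec D)) :
    (∀ f : K, P'.ord (algebraMap K M f) = 0) ∨ ∀ f, P'.ord (algebraMap K M f) = D.ord f := by
  rcases cases hP' with h1 | ⟨D', hD', h1⟩
  · exact Or.inl h1
  · right
    obtain ⟨e, he⟩ := h.ovr D hDd
    have h2 : Through y D' D := through hT he (over_of_eq h1)
    have h3 : D' = D := place_eq fun f hf => h2 f (hD f hf)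
    rw [← h3]
    exact h1

/-- there is a prime divisor over `D` through the point of the section -/
theorem exists_over' (h : Sct y n v d W sec) (nv : NormalModel v)
    (cases : ∀ {P : Place ℂ M}, IsPrimeDivisor v P → (∀ f : K, P.ord (algebraMap K M f) = 0) ∨
      ∃ Q, IsPrimeDivisor y Q ∧ ∀ f, P.ord (algebraMap K M f) = Q.ord f)
    (through : ∀ {P P' : Place ℂ M}, Through v P' P → ∀ {Q Q' : Place ℂ K} {e e' : ℕ},
      Over P Q e → Over P' Q' e' → Through y Q' Q)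
    {D : Place ℂ K} (hD : IsPrimeDivisor y D) (hDd : Divisorial n D) :
    ∃ P', IsPrimeDivisor v P' ∧ Through v P' (sec D) ∧
      ∀ f, P'.ord (algebraMap K M f) = D.ord f := by
  obtain ⟨π, hπ0, hπ⟩ := D.surj
  obtain ⟨e, he⟩ := h.ovr D hDd
  by_contra hcon
  push Not at hcon
  have hmem : (algebraMap K M π)⁻¹ ∈ localRing v (sec D) := by
    refine mem_localRing_of_reg nv fun P' hP' hT => ?_
    rcases cases' h cases through hD hDd hP' hT with h1 | h1
    · exact Or.inr (by rw [P'.ord_inv, h1, neg_zero])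
    · obtain ⟨f, hf⟩ := hcon P' hP' hT
      exact absurd (h1 f) hf
  have h2 := reg_ord_nonneg (localRing_reg hmem)
  rw [(sec D).ord_inv, he.2, hπ] at h2
  have h3 := he.1
  omega

/-- residues of functions with the divisor of a pull-back -/
theorem resB (h : Sct y n v d W sec) (ny : NormalModel y) (nv : NormalModel v)
    (hn : Algebra.trdeg ℂ K = n)
    (cases : ∀ {P : Place ℂ M}, IsPrimeDivisor v P → (∀ f : K, P.ord (algebraMap K M f) = 0) ∨
      ∃ Q, IsPrimeDivisor y Q ∧ ∀ f, P.ord (algebraMap K M f) = Q.ord f)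
    (through : ∀ {P P' : Place ℂ M}, Through v P' P → ∀ {Q Q' : Place ℂ K} {e e' : ℕ},
      Over P Q e → Over P' Q' e' → Through y Q' Q)
    (through_triv : ∀ {P P' : Place ℂ M}, Through v P' P →
      (∀ f : K, P.ord (algebraMap K M f) = 0) → ∀ f : K, P'.ord (algebraMap K M f) = 0)
    {Q : Place ℂ K} (hQ : Divisorial n Q) {x : M} (hx0 : x ≠ 0) {E₁ : Place ℂ K → ℚ}
    (hx : ∀ P', IsPrimeDivisor v P' → Through v P' (sec Q) → (P'.ord x : ℚ) = pb y M E₁ P') :
    ∃ κ : K, κ ≠ 0 ∧ Ge W 1 (x - algebraMap K M κ) ∧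
      ∀ D, IsPrimeDivisor y D → Through y D Q → (D.ord κ : ℚ) = E₁ D := by
  have hW0 : ∀ P', IsPrimeDivisor v P' → Through v P' W → P'.ord x = 0 := by
    intro P' hP' hT
    have h1 := hx P' hP' fun f hf => hT f (h.gen Q hQ f hf).1
    rw [pb_triv (through_triv hT h.triv)] at h1
    exact_mod_cast h1
  have hW1 : x ∈ localRing v W := mem_localRing_of_reg nv fun P' hP' hT =>
    Or.inr (hW0 P' hP' hT).ge
  have hW2 : x⁻¹ ∈ localRing v W := mem_localRing_of_reg nv fun P' hP' hT =>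
    Or.inr (by rw [P'.ord_inv, hW0 P' hP' hT, neg_zero])
  obtain ⟨κ, hκ⟩ := h.res x hW1
  obtain ⟨κ', hκ'⟩ := h.res x⁻¹ hW2
  have h6 := mul h hκ hκ'
  rw [mul_inv_cancel₀ hx0] at h6
  have h7 : κ * κ' = 1 := unique h h6 one
  have hκ0 : κ ≠ 0 := left_ne_zero_of_mul_eq_one h7
  refine ⟨κ, hκ0, hκ, fun D hD hDQ => ?_⟩
  have hDd := hD.divisorial ny hn
  obtain ⟨π, hπ0, hπ⟩ := D.surj
  have hsub : ∀ P' : Place ℂ M, Through v P' (sec D) → Through v P' (sec Q) :=
    fun P' hT f hf => hT f (h.le D Q hD hDd hQ hDQ f hf)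
  obtain ⟨P₁, hP₁, hT₁, hPD⟩ := exists_over' h nv cases through hD hDd
  have ha : (P₁.ord x : ℚ) = E₁ D := by
    rw [hx P₁ hP₁ (hsub P₁ hT₁), pb_over hD hPD]
  obtain ⟨a, haa⟩ : ∃ a, a = P₁.ord x := ⟨_, rfl⟩
  rw [← haa] at ha
  have hπM : ∀ k : ℤ, algebraMap K M (π ^ k) ≠ 0 := by
    intro k
    rw [Ne, map_eq_zero]
    exact zpow_ne_zero _ hπ0
  have hord : ∀ P', IsPrimeDivisor v P' → Through v P' (sec D) →
      P'.ord (x * algebraMap K M (π ^ (-a))) = 0 := by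
    intro P' hP' hT
    have h1 := hx P' hP' (hsub P' hT)
    rw [P'.ord_mul hx0 (hπM _)]
    rcases cases' h cases through hD hDd hP' hT with h2 | h2
    · rw [pb_triv h2] at h1
      rw [h2, add_zero]
      exact_mod_cast h1
    · rw [pb_over hD h2, ← ha] at h1
      have h3 : P'.ord x = a := by exact_mod_cast h1
      rw [h2, h3, D.ord_zpow, hπ]
      ring
  have hne : x * algebraMap K M (π ^ (-a)) ≠ 0 := mul_ne_zero hx0 (hπM _)
  have hmem : x * algebraMap K M (π ^ (-a)) ∈ localRing v (sec D) :=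
    mem_localRing_of_reg nv fun P' hP' hT => Or.inr (hord P' hP' hT).ge
  have hmem' : (x * algebraMap K M (π ^ (-a)))⁻¹ ∈ localRing v (sec D) :=
    mem_localRing_of_reg nv fun P' hP' hT =>
      Or.inr (by rw [P'.ord_inv, hord P' hP' hT, neg_zero])
  have h8 := (unit h hDd hne hmem hmem' (mul h hκ (self _)) (through_self D)).2
  rw [D.ord_mul hκ0 (zpow_ne_zero _ hπ0), D.ord_zpow, hπ] at h8
  have h9 : D.ord κ = a := by linarith
  rw [h9, ha]

/-- residues and lower bounds of the orders -/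
theorem resC (h : Sct y n v d W sec) (ny : NormalModel y) (nv : NormalModel v)
    (hn : Algebra.trdeg ℂ K = n)
    (cases : ∀ {P : Place ℂ M}, IsPrimeDivisor v P → (∀ f : K, P.ord (algebraMap K M f) = 0) ∨
      ∃ Q, IsPrimeDivisor y Q ∧ ∀ f, P.ord (algebraMap K M f) = Q.ord f)
    (through : ∀ {P P' : Place ℂ M}, Through v P' P → ∀ {Q Q' : Place ℂ K} {e e' : ℕ},
      Over P Q e → Over P' Q' e' → Through y Q' Q)
    {x : M} (hx0 : x ≠ 0) {κ : K} (hκ0 : κ ≠ 0) (hκ : Ge W 1 (x - algebraMap K M κ))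
    {E₁ : Place ℂ K → ℚ} {D : Place ℂ K} (hD : IsPrimeDivisor y D)
    (hx : ∀ P', IsPrimeDivisor v P' → Through v P' (sec D) → pb y M E₁ P' ≤ (P'.ord x : ℚ)) :
    E₁ D ≤ (D.ord κ : ℚ) := by
  have hDd := hD.divisorial ny hn
  obtain ⟨π, hπ0, hπ⟩ := D.surj
  obtain ⟨a, haa⟩ : ∃ a, a = ⌈E₁ D⌉ := ⟨_, rfl⟩
  have ha : E₁ D ≤ a := by
    rw [haa]
    exact Int.le_ceil _
  have hπM : ∀ k : ℤ, algebraMap K M (π ^ k) ≠ 0 := by
    intro k
    rw [Ne, map_eq_zero]
    exact zpow_ne_zero _ hπ0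
  have hmem : x * algebraMap K M (π ^ (-a)) ∈ localRing v (sec D) := by
    refine mem_localRing_of_reg nv fun P' hP' hT => Or.inr ?_
    have h1 := hx P' hP' hT
    rw [P'.ord_mul hx0 (hπM _)]
    rcases cases' h cases through hD hDd hP' hT with h2 | h2
    · rw [pb_triv h2] at h1
      rw [h2, add_zero]
      exact_mod_cast h1
    · rw [pb_over hD h2] at h1
      have h3 : a ≤ P'.ord x := by
        rw [haa]
        exact Int.ceil_le.2 h1
      rw [h2, D.ord_zpow, hπ]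
      linarith
  obtain ⟨-, κ₁, h4, h5⟩ := h.gen D hDd _ hmem
  have h6 := unique h (mul h hκ (self (π ^ (-a)))) h5
  have h7 := reg_ord_nonneg (localRing_reg h4)
  rw [← h6, D.ord_mul hκ0 (zpow_ne_zero _ hπ0), D.ord_zpow, hπ] at h7
  have h8 : a ≤ D.ord κ := by linarith
  refine ha.trans ?_
  exact_mod_cast h8

end NefDown

open NefDown in
/-- **Descent of nef divisors along a fibration with a section.** -/
theorem Sct.nef_down {K M : Type} [Field K] [Field M] [Algebra ℂ K] [Algebra ℂ M] [Algebra K M]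
    [IsScalarTower ℂ K M] {N N' n d : ℕ} {y : Fin (N + 1) → K} {v : Fin (N' + 1) → M}
    {W : Place ℂ M} {sec : Place ℂ K → Place ℂ M} (h : Sct y n v d W sec)
    (ny : NormalModel y) (nv : NormalModel v) (hn : Algebra.trdeg ℂ K = n)
    (hex : ∃ Q : Place ℂ K, Divisorial n Q)
    (cases : ∀ {P : Place ℂ M}, IsPrimeDivisor v P → (∀ f : K, P.ord (algebraMap K M f) = 0) ∨
      ∃ Q, IsPrimeDivisor y Q ∧ ∀ f, P.ord (algebraMap K M f) = Q.ord f)
    (through : ∀ {P P' : Place ℂ M}, Through v P' P → ∀ {Q Q' : Place ℂ K} {e e' : ℕ},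
      Over P Q e → Over P' Q' e' → Through y Q' Q)
    (through_triv : ∀ {P P' : Place ℂ M}, Through v P' P →
      (∀ f : K, P.ord (algebraMap K M f) = 0) → ∀ f : K, P'.ord (algebraMap K M f) = 0)
    {E : Place ℂ K → ℚ} (hE : NefDivisor v d (pb y M E)) : NefDivisor y n E := by
  rintro H ⟨a, ha, hHo⟩ q hq
  obtain ⟨c, v₀, hv₀, hhyp⟩ := h.hyp
  obtain ⟨Q₀, hQ₀⟩ := hex
  obtain ⟨l₀, g₀, hl₀, hg₀, hvl₀, -⟩ := hhyp Q₀ hQ₀
  obtain ⟨H', hH', hHo'⟩ := exists_hyperplane nv hl₀.1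
  obtain ⟨q', hq'⟩ : ∃ q', q' = q * (c + 1) := ⟨_, rfl⟩
  have hq'1 : 1 ≤ q' := by
    rw [hq']
    exact Nat.mul_pos hq (by omega)
  obtain ⟨m, hm, hsec⟩ := hE H' hH' q' hq'1
  obtain ⟨E₁, hE₁⟩ : ∃ E₁ : Place ℂ K → ℚ, E₁ = fun D => (-((m : ℚ) * q')) * E D := ⟨_, rfl⟩
  have hpb : ∀ P : Place ℂ M, pb y M E₁ P = (-((m : ℚ) * q')) * pb y M E P := fun P =>
    pb_congr _ (fun Q _ => by rw [hE₁]) P
  have key : SemiampleDivisor y n (fun D => (q' : ℚ) * E D + (c : ℚ) * H D) := by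
    refine ⟨m, hm, fun Q hQ => ?_⟩
    obtain ⟨f, hf, hfP⟩ := hsec (sec Q) (h.div Q hQ)
    obtain ⟨l, g, hl, hg, hvl, hgD⟩ := hhyp Q hQ
    have hxne : ∀ l, v l ≠ 0 → f * (v l₀ / v l) ^ m ≠ 0 := fun l hl =>
      mul_ne_zero hf.1 (pow_ne_zero _ (div_ne_zero hl₀.1 hl))
    have hxo : ∀ l, v l ≠ 0 → ∀ P' : Place ℂ M, Centred v l P' →
        (P'.ord (f * (v l₀ / v l) ^ m) : ℚ) = P'.ord f + m * H' P' := by
      intro l hl P' hP'
      rw [P'.ord_mul hf.1 (pow_ne_zero _ (div_ne_zero hl₀.1 hl)), P'.ord_pow, hHo' P' l hP']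
      push_cast
      ring
    obtain ⟨κ, hκ0, hκ, hκD⟩ := resB h ny nv hn cases through through_triv hQ
      (hxne l hl.1) (E₁ := E₁) (fun P' hP' hT => by
        rw [hxo l hl.1 P' (hT.centred hl), hfP P' hP' hT, hpb]
        ring)
    have hga : g ^ m / y a ^ (m * c) ≠ 0 := div_ne_zero (pow_ne_zero _ hg) (pow_ne_zero _ ha)
    have hso : ∀ D : Place ℂ K, (D.ord (κ * (g ^ m / y a ^ (m * c))) : ℚ) =
        D.ord κ + m * D.ord g - m * c * D.ord (y a) := by
      intro D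
      rw [D.ord_mul hκ0 hga, D.ord_div (pow_ne_zero _ hg) (pow_ne_zero _ ha), D.ord_pow,
        D.ord_pow]
      push_cast
      ring
    refine ⟨κ * (g ^ m / y a ^ (m * c)), ⟨mul_ne_zero hκ0 hga, fun D hD => ?_⟩,
      fun D hD hDQ => ?_⟩
    · have hDd := hD.divisorial ny hn
      obtain ⟨l', g', hl', hg', hvl', hgD'⟩ := hhyp D hDd
      obtain ⟨j, hj⟩ := exists_centred ny D
      have hres : Ge W 1 (f * (v l₀ / v l') ^ m - algebraMap K M (κ * (g / g') ^ m)) := by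
        have e1 : f * (v l₀ / v l') ^ m = (f * (v l₀ / v l) ^ m) *
            algebraMap K M ((g / g') ^ m) := by
          have e2 : algebraMap K M g ≠ 0 := by rwa [Ne, map_eq_zero]
          have e3 : algebraMap K M g' ≠ 0 := by rwa [Ne, map_eq_zero]
          rw [mul_assoc, map_pow, ← mul_pow, map_div₀, hvl, hvl']
          congr 2
          field_simp
        rw [e1]
        exact mul h hκ (self _)
      have h1 := resC h ny nv hn cases through (hxne l' hl'.1)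
        (mul_ne_zero hκ0 (pow_ne_zero _ (div_ne_zero hg hg'))) hres (E₁ := E₁) hD
        (fun P' hP' hT => by
          rw [hxo l' hl'.1 P' (hT.centred hl'), hpb]
          have h2 := hf.2 P' hP'
          change -((m : ℚ) * (q' * pb y M E P' + H' P')) ≤ _ at h2
          linarith)
      rw [D.ord_mul hκ0 (pow_ne_zero _ (div_ne_zero hg hg')), D.ord_pow, D.ord_div hg hg',
        hgD' D hD (through_self D) j hj, hE₁] at h1
      push_cast at h1
      change -((m : ℚ) * (q' * E D + c * H D)) ≤ _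
      rw [hso, hHo D j hD hj, D.ord_div ha hj.1]
      push_cast
      linarith
    · obtain ⟨j, hj⟩ := exists_centred ny D
      change _ = -((m : ℚ) * (q' * E D + c * H D))
      rw [hso, hκD D hD hDQ, hgD D hD hDQ j hj, hHo D j hD hj, D.ord_div ha hj.1, hE₁]
      push_cast
      ring
  have h4 := key.add (hyperplane_semi (n := n) ny ⟨a, ha, hHo⟩)
  refine SemiampleDivisor.unscale (k := c + 1) (by omega) (h4.congr fun D _ => ?_)
  rw [hq']
  push_cast
  ring

end Pool.Agent.H890
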