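import Pool.Agent.H890.Fo2
import Pool.Agent.H890.Res3

set_option autoImplicit false
set_option linter.unusedSectionVars false
set_option linter.overlappingInstances false

open FF MvPolynomial Pool.Agent.W602.GT Pool.Agent.W603.LV Pool.Agent.Y172
  Pool.Agent.TH122.AB Pool.Agent.R887

namespace Pool.Agent.H890

/-- The components of an integral element of a cyclic extension are integral. -/
theorem kres_cmp {F M : Type} [Field F] [Field M] [Algebra ℂ F] [Algebra ℂ M] [Algebra F M]
    [IsScalarTower ℂ F M] [FiniteDimensional F M] (R : Subalgebra ℂ F) {N : ℕ} {x : M} {a : F}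
    (hN : 0 < N) (hx : x ^ N = algebraMap F M a) (ha : a ≠ 0)
    (htop : IntermediateField.adjoin F {x} = ⊤) (hfin : Module.finrank F M = N) {b : M}
    (hb : IsIntegral R b) :
    ∃ s : ℕ → F, (N : M) * b = ∑ i ∈ Finset.range N, algebraMap F M (s i) * x ^ i ∧
      ∀ i < N, IsIntegral R (algebraMap F M (s i) * x ^ i) := by
  classical
  have hM0 : CharZero M := charZero_of_injective_algebraMap (algebraMap ℂ M).injective
  have hN' : (N : M) ≠ 0 := Nat.cast_ne_zero.2 hN.ne'
  obtain ⟨s, hs⟩ := exists_cmp hN hx ha htop hfin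
  obtain ⟨ζ, hζ⟩ : ∃ ζ : ℂ, IsPrimitiveRoot ζ N := ⟨_, Complex.isPrimitiveRoot_exp N hN.ne'⟩
  have hζ0 : ζ ≠ 0 := hζ.ne_zero hN.ne'
  obtain ⟨σ, hσ⟩ := kum_aut hN hx htop hfin hζ.pow_eq_one
  have hσc : ∀ (j : ℕ) (c : ℂ), (σ ^ j) (algebraMap ℂ M c) = algebraMap ℂ M c := by
    intro j c
    rw [IsScalarTower.algebraMap_apply ℂ F M, AlgHom.commutes]
  have hσx : ∀ j : ℕ, (σ ^ j) x = algebraMap ℂ M (ζ ^ j) * x := by
    intro j
    induction j with
    | zero => rw [pow_zero, pow_zero, map_one, one_mul]; rfl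
    | succ j ih =>
      rw [pow_succ, AlgHom.mul_apply, hσ, map_mul, hσc, ih, ← mul_assoc, ← map_mul, pow_succ,
        mul_comm ζ]
  -- the average
  have hkey : ∀ i < N, algebraMap F M (s i b) * x ^ i =
      ∑ j ∈ Finset.range N, algebraMap ℂ M (ζ⁻¹ ^ (i * j)) * (σ ^ j) b := by
    intro i hi
    have h1 : (N : M) * ∑ j ∈ Finset.range N, algebraMap ℂ M (ζ⁻¹ ^ (i * j)) * (σ ^ j) b =
        ∑ j ∈ Finset.range N, algebraMap ℂ M (ζ⁻¹ ^ (i * j)) * (σ ^ j) ((N : M) * b) := by
      rw [Finset.mul_sum]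
      refine Finset.sum_congr rfl fun j _ => ?_
      rw [map_mul, map_natCast]
      ring
    have h2 : ∑ j ∈ Finset.range N, algebraMap ℂ M (ζ⁻¹ ^ (i * j)) * (σ ^ j) ((N : M) * b) =
        ∑ k ∈ Finset.range N, algebraMap F M (s k b) * x ^ k *
          algebraMap ℂ M (∑ j ∈ Finset.range N, (ζ⁻¹ ^ i * ζ ^ k) ^ j) := by
      rw [hs.sum b]
      simp only [map_sum, map_mul, map_pow, AlgHom.commutes, hσx, Finset.mul_sum]
      rw [Finset.sum_comm]
      refine Finset.sum_congr rfl fun k _ => Finset.sum_congr rfl fun j _ => ?_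
      simp only [map_inv₀]
      ring
    have h3 : ∀ k ∈ Finset.range N, algebraMap F M (s k b) * x ^ k *
        algebraMap ℂ M (∑ j ∈ Finset.range N, (ζ⁻¹ ^ i * ζ ^ k) ^ j) =
        if k = i then (N : M) * (algebraMap F M (s i b) * x ^ i) else 0 := by
      intro k hk
      by_cases hki : k = i
      · rw [if_pos hki, hki]
        have h4 : ζ⁻¹ ^ i * ζ ^ i = 1 := by
          rw [inv_pow, inv_mul_cancel₀ (pow_ne_zero _ hζ0)]
        rw [h4]
        simp only [one_pow, Finset.sum_const, Finset.card_range, nsmul_eq_mul, mul_one,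
          map_natCast]
        ring
      · rw [if_neg hki, sum_root, map_zero, mul_zero]
        · rw [mul_pow, ← pow_mul, ← pow_mul, mul_comm i, mul_comm k, pow_mul, pow_mul, inv_pow,
            hζ.pow_eq_one, inv_one, one_pow, one_pow, one_mul]
        · intro h4
          rw [inv_pow, inv_mul_eq_one₀ (pow_ne_zero _ hζ0)] at h4
          exact hki (hζ.pow_inj hi (Finset.mem_range.1 hk) h4).symm
    rw [h2, Finset.sum_congr rfl h3, Finset.sum_ite_eq' (Finset.range N) i,
      if_pos (Finset.mem_range.2 hi)] at h1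
    exact (mul_left_cancel₀ hN' h1).symm
  refine ⟨fun i => s i b, hs.sum b, fun i hi => ?_⟩
  rw [hkey i hi]
  refine IsIntegral.sum _ fun j _ => IsIntegral.mul ?_ ?_
  · have h1 : algebraMap ℂ M (ζ⁻¹ ^ (i * j)) = algebraMap R M (algebraMap ℂ R (ζ⁻¹ ^ (i * j))) := by
      rw [← IsScalarTower.algebraMap_apply ℂ R M]
    rw [h1]
    exact isIntegral_algebraMap
  · exact hb.map ((σ ^ j).restrictScalars R)

theorem kum_res {K L M : Type} [Field K] [Field L] [Field M] [Algebra ℂ K] [Algebra ℂ L]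
    [Algebra ℂ M] [Algebra K L] [Algebra L M] [Algebra K M] [IsScalarTower ℂ K L]
    [IsScalarTower ℂ L M] [IsScalarTower ℂ K M] [IsScalarTower K L M] [FiniteDimensional L M]
    {r : ℕ} {t : Fin r → L} (ht : Gens (k := K) t) {A : Subalgebra ℂ K} {S₀ : Set (Place ℂ K)}
    (hA : CI A S₀) {N : ℕ} (hN : 0 < N) {z : M} {φ : L} (hz : z ^ N = algebraMap L M φ)
    (hφ0 : φ ≠ 0) (htop : IntermediateField.adjoin L {z} = ⊤) (hfin : Module.finrank L M = N)
    {p₀ : Fin r} {v : Place K L} (hv : ∀ F : MvPolynomial (Fin r) K, F ≠ 0 → ¬ (X p₀ ∣ F) →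
      v.ord (aeval t F) = 0) (hvφ : v.ord φ = 1 ∨ v.ord φ = -1) {b : M}
    (hb : IsIntegral (RR A t) b) :
    ∃ κ ∈ A, ∀ P : Place ℂ M, (∀ c ∈ A, P.Reg (algebraMap K M c)) →
      (∀ p, Ge P 1 (algebraMap L M (t p))) → Ge P 1 (b - algebraMap K M κ) := by
  classical
  have hM0 : CharZero M := charZero_of_injective_algebraMap (algebraMap ℂ M).injective
  have hN' : (N : M) ≠ 0 := Nat.cast_ne_zero.2 hN.ne'
  have hz0 : z ≠ 0 := by
    rintro rfl
    rw [zero_pow hN.ne'] at hz
    exact hφ0 ((map_eq_zero _).1 hz.symm)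
  obtain ⟨s, hs1, hs2⟩ := kres_cmp (RR A t) hN hz hφ0 htop hfin hb
  obtain ⟨Z, hZ⟩ : ∃ Z : Fin r → M, ∀ p, Z p = algebraMap L M (t p) :=
    ⟨fun p => algebraMap L M (t p), fun p => rfl⟩
  -- all components have residues
  have hcomp : ∀ i < N, HasRes A Z (0 : M) 0 (algebraMap L M (s i) * z ^ i) := by
    intro i hi
    have hint := hs2 i hi
    rcases Nat.eq_zero_or_pos i with rfl | hi0
    · rw [pow_zero, mul_one] at hint ⊢
      have h1 : IsIntegral (RR A t) (s 0) :=
        (isIntegral_algebraMap_iff (algebraMap L M).injective).1 hint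
      exact HasRes.ring hZ (RR_closed ht hA h1)
    · by_cases hs0 : s i = 0
      · rw [hs0, map_zero, zero_mul]
        have := HasRes.base (K := K) (A := A) (Z := Z) (x := (0 : M)) (ζ := 0) A.zero_mem
        rwa [map_zero] at this
      · have hu0 : algebraMap L M (s i) * z ^ i ≠ 0 :=
          mul_ne_zero (by rwa [Ne, map_eq_zero]) (pow_ne_zero _ hz0)
        have h1 : (algebraMap L M (s i) * z ^ i) ^ N = algebraMap L M (s i ^ N * φ ^ i) := by
          rw [mul_pow, ← pow_mul, mul_comm i N, pow_mul, hz, map_mul, map_pow, map_pow]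
        have h2 : IsIntegral (RR A t) (s i ^ N * φ ^ i) := by
          refine (isIntegral_algebraMap_iff (algebraMap L M).injective).1 ?_
          rw [← h1]
          exact hint.pow N
        obtain ⟨F, hF1, hF2⟩ := mem_RR.1 (RR_closed ht hA h2)
        have h3 : s i ^ N * φ ^ i ≠ 0 := mul_ne_zero (pow_ne_zero _ hs0) (pow_ne_zero _ hφ0)
        have hF0 : F ≠ 0 := by
          rintro rfl
          rw [map_zero] at hF2
          exact h3 hF2.symm
        have h4 : v.ord (aeval t F) ≠ 0 := by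
          rw [hF2, v.ord_mul (pow_ne_zero _ hs0) (pow_ne_zero _ hφ0), v.ord_pow, v.ord_pow]
          intro h5
          have h6 : (N : ℤ) ∣ (i : ℤ) := by
            rcases hvφ with h | h
            · rw [h] at h5
              exact ⟨-v.ord (s i), by linarith⟩
            · rw [h] at h5
              exact ⟨v.ord (s i), by linarith⟩
          have h7 := Int.le_of_dvd (by exact_mod_cast hi0) h6
          omega
        have h5 : X p₀ ∣ F := by
          by_contra h6
          exact h4 (hv F hF0 h6)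
        obtain ⟨G, rfl⟩ := h5
        have hG : aeval t G ∈ RR A t := by
          rw [mem_RR]
          refine ⟨G, fun α => ?_, rfl⟩
          have := hF1 (α + Finsupp.single p₀ 1)
          rwa [add_comm, X, coeff_monomial_mul, one_mul] at this
        refine ⟨0, A.zero_mem, fun P hP => ?_⟩
        rw [map_zero, sub_zero]
        obtain ⟨κ, hκ, h6⟩ := HasRes.ring (x := (0 : M)) (ζ := 0) hZ hG
        have h7 : Ge P 0 (algebraMap L M (aeval t G)) := by
          have h8 := ((h6 P hP).mono (show (0 : ℤ) ≤ 1 by norm_num)).add (hP.reg κ hκ)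
          rwa [sub_add_cancel] at h8
        have h8 : Ge P 1 ((algebraMap L M (s i) * z ^ i) ^ N) := by
          rw [h1, ← hF2, map_mul, aeval_X, map_mul, ← hZ]
          have := (hP.var p₀).mul h7
          rwa [add_zero] at this
        right
        have h9 := h8.resolve_left (pow_ne_zero _ hu0)
        rw [P.ord_pow] at h9
        by_contra h10
        push Not at h10
        have h11 : P.ord (algebraMap L M (s i) * z ^ i) ≤ 0 := by omega
        have h12 : (N : ℤ) * P.ord (algebraMap L M (s i) * z ^ i) ≤ 0 :=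
          mul_nonpos_of_nonneg_of_nonpos (Int.natCast_nonneg N) h11
        omega
  have hsum : ∀ m ≤ N, HasRes A Z (0 : M) 0
      (∑ i ∈ Finset.range m, algebraMap L M (s i) * z ^ i) := by
    intro m
    induction m with
    | zero =>
      intro _
      rw [Finset.sum_range_zero]
      have := HasRes.base (K := K) (A := A) (Z := Z) (x := (0 : M)) (ζ := 0) A.zero_mem
      rwa [map_zero] at this
    | succ m ih =>
      intro hm
      rw [Finset.sum_range_succ]
      exact (ih (by omega)).add (hcomp m (by omega))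
  have hNb := hsum N le_rfl
  rw [← hs1] at hNb
  have hc := HasRes.base (K := K) (A := A) (Z := Z) (x := (0 : M)) (ζ := 0)
    (A.algebraMap_mem ((N : ℂ)⁻¹))
  have hbb := hc.mul hNb
  have h1 : algebraMap K M (algebraMap ℂ K ((N : ℂ)⁻¹)) * ((N : M) * b) = b := by
    rw [← IsScalarTower.algebraMap_apply ℂ K M, map_inv₀, map_natCast, ← mul_assoc,
      inv_mul_cancel₀ hN', one_mul]
  rw [h1] at hbb
  obtain ⟨κ, hκ, h2⟩ := hbb
  refine ⟨κ, hκ, fun P hP1 hP2 => h2 P ⟨hP1, fun p => ?_, ?_⟩⟩
  · rw [hZ]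
    exact hP2 p
  · rw [map_zero, sub_zero]
    exact Ge.zero

end Pool.Agent.H890
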