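import Pool.Agent.H890.KDefs2

/-!
Definitions: terminal varieties, canonical pairs, smooth varieties and divisors.
-/

set_option autoImplicit false

open FF Pool.Agent.W602.GT Pool.Agent.Y172 Pool.Agent.R887

namespace Pool.Agent.H890

section

variable {K : Type} [Field K] [Algebra ℂ K] {N : ℕ}

/-- The divisor `K_X + Δ` is `ℚ`-Cartier, `n` being the dimension of `X`: for every prime divisor `Q`
over `X` there is an `r`-canonical form `η`, `r ≥ 1`, which generates `r (K_X + Δ)` at the centre of
`Q` on `X`. -/
def QCar (y : Fin (N + 1) → K) (n : ℕ) (Δ : Place ℂ K → ℚ) : Prop :=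
  ∀ Q : Place ℂ K, Divisorial n Q → ∃ r : ℕ, 0 < r ∧ ∃ η : (Fin n → Derivation ℂ K K) → K,
    IsPluri r η ∧ ∀ P, IsPrimeDivisor y P → Through y P Q → OrdEq P η (-(r * Δ P))

/-- The variety `X` has terminal singularities, `n` being the dimension of `X`: for every prime
divisor `Q` over `X` there is an `r`-canonical form `η`, `r ≥ 1`, which generates `r K_X` at the
centre of `Q` on `X` (it has no zero or pole along the prime divisors `P` of `X` through this
centre), and `η` has a zero along `Q` if `Q` is not a prime divisor of `X`. -/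
def Terminal (y : Fin (N + 1) → K) (n : ℕ) : Prop :=
  ∀ Q : Place ℂ K, Divisorial n Q → ∃ r : ℕ, 0 < r ∧ ∃ η : (Fin n → Derivation ℂ K K) → K,
    IsPluri r η ∧ (∀ P, IsPrimeDivisor y P → Through y P Q → OrdEq P η 0) ∧
      (¬ IsPrimeDivisor y Q → OrdGe Q η 1)

/-- The pair `(X, D)` is canonical, `n` being the dimension of `X`: for every prime divisor `Q` over
`X` there is an `r`-canonical form `η`, `r ≥ 1`, which generates `r (K_X + D)` at the centre of `Q` on
`X`, and `η` has no pole along `Q` if `Q` is not a prime divisor of `X`. -/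
def CanonicalPair (y : Fin (N + 1) → K) (n : ℕ) (D : Place ℂ K → ℤ) : Prop :=
  ∀ Q : Place ℂ K, Divisorial n Q → ∃ r : ℕ, 0 < r ∧ ∃ η : (Fin n → Derivation ℂ K K) → K,
    IsPluri r η ∧ (∀ P, IsPrimeDivisor y P → Through y P Q → OrdEq P η (-(r * D P))) ∧
      (¬ IsPrimeDivisor y Q → OrdGe Q η 0)

/-- The divisor `Λ` is Cartier: at the centre of every prime divisor `Q` over `X` it is the divisor of
a function `g`. -/
def IsCartier (y : Fin (N + 1) → K) (n : ℕ) (Λ : Place ℂ K → ℤ) : Prop :=
  ∀ Q : Place ℂ K, Divisorial n Q → ∃ g : K, g ≠ 0 ∧ ∀ P, IsPrimeDivisor y P → Through y P Q →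
    P.ord g = Λ P

/-- The divisor `D` is effective and reduced. -/
def IsReduced (y : Fin (N + 1) → K) (D : Place ℂ K → ℤ) : Prop :=
  (∀ P, IsPrimeDivisor y P → D P = 0 ∨ D P = 1) ∧ {P | IsPrimeDivisor y P ∧ D P ≠ 0}.Finite

/-- The functions `x i` and the vector fields `E i` are coordinates (up to constants) and the dual
coordinate vector fields at the centre of `Q` on `X`. -/
structure IsCoord (y : Fin (N + 1) → K) (Q : Place ℂ K) {n : ℕ} (x : Fin n → K)
    (E : Fin n → Derivation ℂ K K) : Prop where
  reg : ∀ j, x j ∈ localRing y Q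
  pres : ∀ i, ∀ f ∈ localRing y Q, E i f ∈ localRing y Q
  dual : ∀ i j, E i (x j) = if i = j then 1 else 0

/-- The variety `X` is smooth, `n` being the dimension of `X`: there are coordinates at the centre of
every prime divisor over `X`. -/
def SmoothVariety (y : Fin (N + 1) → K) (n : ℕ) : Prop :=
  ∀ Q : Place ℂ K, Divisorial n Q → ∃ (x : Fin n → K) (E : Fin n → Derivation ℂ K K),
    IsCoord y Q x E

/-- The variety `X`, of dimension `n`, is smooth, and the divisor `D` is effective and smooth (it may
be zero or reducible, the components being disjoint): at the centre of every prime divisor `Q` over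
`X` there are coordinates, and `D` is the divisor of a function `g` such that `g` or one of its
partial derivatives does not vanish at this centre. -/
def SmoothPair (y : Fin (N + 1) → K) (n : ℕ) (D : Place ℂ K → ℤ) : Prop :=
  ∀ Q : Place ℂ K, Divisorial n Q → ∃ (x : Fin n → K) (E : Fin n → Derivation ℂ K K) (g : K),
    IsCoord y Q x E ∧ g ≠ 0 ∧ g ∈ localRing y Q ∧
      (∀ P, IsPrimeDivisor y P → Through y P Q → P.ord g = D P) ∧
      (Q.ord g = 0 ∨ ∃ i, E i g ≠ 0 ∧ Q.ord (E i g) = 0)

end

end Pool.Agent.H890
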