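import Pool.Agent.H890.Desc
import Pool.Agent.H890.KDefs3

/-!
Coverings of projective bundles with pluricanonical forms given by the forms on the base: the general
properties.
-/

set_option autoImplicit false
set_option linter.unusedSectionVars false
set_option linter.overlappingInstances false

open FF MvPolynomial Pool.Agent.W602.GT Pool.Agent.W603.LV Pool.Agent.Y172
  Pool.Agent.TH122.AB Pool.Agent.R887

namespace Pool.Agent.H890

section

variable {K L M : Type} [Field K] [Field L] [Field M] [Algebra ℂ K] [Algebra ℂ L]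
  [Algebra ℂ M] [Algebra K L] [Algebra L M] [Algebra K M] [IsScalarTower ℂ K L]
  [IsScalarTower ℂ L M] [IsScalarTower ℂ K M] [IsScalarTower K L M] [FiniteDimensional L M]
  {N : ℕ} {y : Fin (N + 1) → K} {n r : ℕ} {G : Place ℂ K → ℤ}

/-- the properties of the covering space which are used -/
structure CovG (S : Mod K L M y n r G) (b : ℕ) (Γ : Place ℂ K → ℤ)
    (T : ℕ → (Fin n → K) → K → (Fin (n + r) → Derivation ℂ M M) → M) : Prop where
  b1 : 1 ≤ b
  trK : Algebra.trdeg ℂ K = n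
  pluri : ∀ q x c, IsPluri (2 * (b * q)) (T q x c)
  add : ∀ q x c c' D, T q x (c + c') D = T q x c D + T q x c' D
  mul : ∀ q x c c' D, T q x (c' * c) D = algebraMap K M c' * T q x c D
  pow : ∀ q a x c D, T (q * a) x (c ^ a) D = T q x c D ^ a
  ne : ∀ (q : ℕ) (x : Fin n → K) (c : K), IsTranscendenceBasis ℂ x → c ≠ 0 →
    ∀ F : Fin (n + r) → Derivation ℂ M M,
      (∀ u v, F u ((Fin.append (fun i => algebraMap K M (x i)) (ts S.lM (sA 0)) :
        Fin (n + r) → M) v) = if u = v then 1 else 0) → T q x c F ≠ 0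
  ver : ∀ {P : Place ℂ M}, IsPrimeDivisor S.v P → ∀ {Q : Place ℂ K} {e : ℕ}, Over P Q e →
    IsPrimeDivisor y Q ∧ Divisorial n Q ∧ (∀ f, P.ord (algebraMap K M f) = Q.ord f) ∧
      ∀ (q : ℕ) (η : (Fin n → Derivation ℂ K K) → K), IsPluri (2 * (b * q)) η → ∀ c : ℤ,
        OrdEq Q η c → ∀ (x : Fin n → K) (E : Fin n → Derivation ℂ K K), IsTranscendenceBasis ℂ x →
        (∀ i j, E i (x j) = if i = j then 1 else 0) →
        OrdEq P (T q x (η E)) (c + 2 * q * Γ Q : ℤ)
  hor : ∀ {P : Place ℂ M}, IsPrimeDivisor S.v P → (∀ f : K, P.ord (algebraMap K M f) = 0) →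
    ∀ (q : ℕ) {x : Fin n → K} {E : Fin n → Derivation ℂ K K}, IsTranscendenceBasis ℂ x →
      (∀ i j, E i (x j) = if i = j then 1 else 0) → ∀ {c : K}, c ≠ 0 → OrdEq P (T q x c) 0
  alg : ∀ g : M, IsAlgebraic K g → ∃ a : K, g = algebraMap K M a

variable {S : Mod K L M y n r G} {b : ℕ} {Γ : Place ℂ K → ℤ}
  {T : ℕ → (Fin n → K) → K → (Fin (n + r) → Derivation ℂ M M) → M}

theorem CovG.zero (h : CovG S b Γ T) (q : ℕ) (x : Fin n → K)
    (D : Fin (n + r) → Derivation ℂ M M) : T q x 0 D = 0 := by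
  have h1 := h.mul q x 0 0 D
  rw [mul_zero, map_zero, zero_mul] at h1
  exact h1

theorem CovG.trL (h : CovG S b Γ T) : Algebra.trdeg ℂ L = (n + r : ℕ) := by
  obtain ⟨x, -, hx, -⟩ := exists_crd h.trK
  have h1 := append_basis hx (Gens_basis S.gens)
  rw [← h1.cardinalMk_eq_trdeg]
  simp

theorem CovG.trM (h : CovG S b Γ T) : Algebra.trdeg ℂ M = (n + r : ℕ) := trdeg_up (K := L) h.trL

/-- compatibility of the centres -/
theorem Mod.through (S : Mod K L M y n r G) {P P' : Place ℂ M} (hT : Through S.v P' P)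
    {Q Q' : Place ℂ K} {e e' : ℕ} (hPQ : Over P Q e) (hPQ' : Over P' Q' e') : Through y Q' Q :=
  fun _ hf => hPQ'.reg.1 (hT _ (S.local_le hPQ hf))

theorem Mod.through_triv (S : Mod K L M y n r G) {P P' : Place ℂ M} (hT : Through S.v P' P)
    (htr : ∀ f : K, P.ord (algebraMap K M f) = 0) (f : K) : P'.ord (algebraMap K M f) = 0 := by
  by_cases hf : f = 0
  · rw [hf, map_zero, P'.ord_zero]
  have h1 := reg_ord_nonneg (hT _ (S.local_triv htr f))
  have h2 := reg_ord_nonneg (hT _ (S.local_triv htr f⁻¹))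
  rw [map_inv₀, P'.ord_inv] at h2
  omega

theorem CovG.through (_ : CovG S b Γ T) {P P' : Place ℂ M} (hT : Through S.v P' P)
    {Q Q' : Place ℂ K} {e e' : ℕ} (hPQ : Over P Q e) (hPQ' : Over P' Q' e') : Through y Q' Q :=
  S.through hT hPQ hPQ'

theorem CovG.through_triv (_ : CovG S b Γ T) {P P' : Place ℂ M} (hT : Through S.v P' P)
    (htr : ∀ f : K, P.ord (algebraMap K M f) = 0) (f : K) : P'.ord (algebraMap K M f) = 0 :=
  S.through_triv hT htr f

/-- **The form generates the canonical divisor of the covering space.** -/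
theorem CovG.gen0 (h : CovG S b Γ T) {P : Place ℂ M} {Q : Place ℂ K} {e : ℕ}
    (hPQ : Over P Q e) {q : ℕ} {η : (Fin n → Derivation ℂ K K) → K}
    (hη : IsPluri (2 * (b * q)) η)
    (hgen : ∀ D, IsPrimeDivisor y D → Through y D Q → OrdEq D η (-(2 * q * Γ D) : ℤ))
    {x : Fin n → K} {E : Fin n → Derivation ℂ K K} (hx : IsTranscendenceBasis ℂ x)
    (hE : ∀ i j, E i (x j) = if i = j then 1 else 0) {P' : Place ℂ M}
    (hP' : IsPrimeDivisor S.v P') (hT : Through S.v P' P) :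
    OrdEq P' (T q x (η E)) 0 := by
  by_cases htr : ∀ f : K, P'.ord (algebraMap K M f) = 0
  · refine h.hor hP' htr q hx hE ?_
    obtain ⟨D, hD, hDQ⟩ := exists_through S.ny Q
    exact val_ne hη hx hE (hgen D hD hDQ)
  · push Not at htr
    obtain ⟨e', Q', hPQ'⟩ := FF.exists_over P' htr
    obtain ⟨hQ', -, -, h4⟩ := h.ver hP' hPQ'
    have h5 := h4 q η hη _ (hgen Q' hQ' (h.through hT hPQ hPQ')) x E hx hE
    have h6 : (-(2 * q * Γ Q') + 2 * q * Γ Q' : ℤ) = 0 := by ring
    rw [h6] at h5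
    exact_mod_cast h5

/-- **Functions without poles along the horizontal prime divisors.** -/
theorem CovG.const (h : CovG S b Γ T) {g : M}
    (hg : ∀ P, IsPrimeDivisor S.v P → (∀ f : K, P.ord (algebraMap K M f) = 0) → P.Reg g) :
    ∃ a : K, g = algebraMap K M a := by
  have hK0 : CharZero K := charZero_of_injective_algebraMap (algebraMap ℂ K).injective
  have hessM := S.essM
  have hess : Algebra.EssFiniteType K M := Algebra.EssFiniteType.of_comp ℂ K M
  refine h.alg g ?_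
  by_contra hcon
  obtain ⟨P, hP⟩ := exists_pole_at S.trdeg_KM hcon
  have h1 : g ∈ localRing S.v (restr P) := mem_localRing_of_reg S.nv fun P' hP' hT =>
    hg P' hP' (h.through_triv hT (restr_triv P))
  have h2 := reg_ord_nonneg (localRing_reg h1)
  rw [restr_ord] at h2
  omega

theorem Mod.basM (S : Mod K L M y n r G) {x : Fin n → K} (hx : IsTranscendenceBasis ℂ x) :
    IsTranscendenceBasis ℂ (Fin.append (fun i => algebraMap K M (x i))
      (ts S.lM (sA 0)) : Fin (n + r) → M) := by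
  refine append_basis hx ?_
  have h1 : IsTranscendenceBasis K (algebraMap L M ∘ ts S.l (sA 0)) :=
    (Gens_basis (gens_ts S.sys S.gens (sA 0))).algebraMap_comp
  have h2 : ts S.lM (sA 0) = algebraMap L M ∘ ts S.l (sA 0) := by
    funext p
    exact ts_up _ _
  rw [h2]
  exact h1

/-- places over a given place -/
theorem CovG.exists_over (h : CovG S b Γ T) {Q : Place ℂ K} (hQ : Divisorial n Q) :
    ∃ (P : Place ℂ M) (e : ℕ), Divisorial (n + r) P ∧ Over P Q e := by
  have hessK := S.essK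
  obtain ⟨w, F, i0, hw⟩ := exists_loc h.trK hQ
  have hn : 0 < n := Fin.pos i0
  obtain ⟨P₁, hP₁⟩ := exists_gauss S.gens Q 0
  have hg : IsGauss (ts S.l 1) Q P₁ := hP₁
  obtain ⟨P, e, hP⟩ := exists_above (L := M) P₁
  refine ⟨P, e, divisorial_up hP (hg.divisorial S.gens hn hQ), hP.1, fun f => ?_⟩
  rw [IsScalarTower.algebraMap_apply K L M, hP.2, hg.base]

/-- **Comparison of a section with a local generator.** -/
theorem CovG.compare (h : CovG S b Γ T) {Δ : Place ℂ K → ℚ}
    (hG : ∀ P, IsPrimeDivisor y P → (Γ P : ℚ) = b * Δ P) (hklt : QCar y n Δ) {x : Fin n → K}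
    {E : Fin n → Derivation ℂ K K} (hx : IsTranscendenceBasis ℂ x)
    (hE : ∀ i j, E i (x j) = if i = j then 1 else 0) {R : ℕ} {a : K} (ha : a ≠ 0)
    (hsec : ∀ P', IsPrimeDivisor S.v P' →
      OrdGe P' (T R x a) 0)
    {P : Place ℂ M} {Q : Place ℂ K} {e : ℕ} (hQ : Divisorial n Q) (hPQ : Over P Q e) :
    ∃ (q : ℕ) (κ : K), 0 < q ∧ κ ≠ 0 ∧ 0 ≤ Q.ord κ ∧
      (∀ D, IsPrimeDivisor y D → Through y D Q → ∀ c : ℤ, OrdEq D (frm x (2 * (b * R)) a) c →
        q * c = D.ord κ - 2 * q * R * Γ D) ∧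
      ((∀ P', IsPrimeDivisor S.v P' → Through S.v P' P →
        OrdEq P' (T R x a) 0) →
          Q.ord κ = 0) := by
  have hessK := S.essK
  obtain ⟨q, hq, η₀, hη₀, hgen₀⟩ := hklt Q hQ
  obtain ⟨η, hηd⟩ : ∃ η : (Fin n → Derivation ℂ K K) → K, η = fun D => η₀ D ^ (2 * b) :=
    ⟨_, rfl⟩
  have hη : IsPluri (2 * (b * q)) η := by
    have h1 := pluri_pow hη₀ (2 * b)
    rw [show q * (2 * b) = 2 * (b * q) by ring] at h1
    rw [hηd]
    exact h1
  have hgen : ∀ D, IsPrimeDivisor y D → Through y D Q → OrdEq D η (-(2 * q * Γ D) : ℤ) := by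
    intro D hD hDQ
    have h1 := ordEq_pow (hgen₀ D hD hDQ) (2 * b)
    rw [← hηd] at h1
    have h2 : ((2 * b : ℕ) : ℚ) * (-(q * Δ D)) = (-(2 * q * Γ D) : ℤ) := by
      push_cast
      rw [hG D hD]
      ring
    rw [h2] at h1
    exact h1
  obtain ⟨D₀, hD₀, hD₀Q⟩ := exists_through S.ny Q
  have hηE : η E ≠ 0 := val_ne hη hx hE (hgen D₀ hD₀ hD₀Q)
  obtain ⟨κ, hκ⟩ : ∃ κ, κ = a ^ q / η E ^ R := ⟨_, rfl⟩
  have hκ0 : κ ≠ 0 := by
    rw [hκ]
    exact div_ne_zero (pow_ne_zero _ ha) (pow_ne_zero _ hηE)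
  have hκe : κ * η E ^ R = a ^ q := by
    rw [hκ]
    field_simp
  -- the forms on the covering space
  have hform : ∀ D, T R x a D ^ q =
      algebraMap K M κ * T q x (η E) D ^ R := by
    intro D
    rw [← h.pow, ← h.pow, ← h.mul, hκe, mul_comm q R]
  have hκM : algebraMap K M κ ≠ 0 := by rwa [Ne, map_eq_zero]
  have hone : ∀ P', IsPrimeDivisor S.v P' → Through S.v P' P →
      OrdEq P' (fun D => T q x (η E) D ^ R)
        0 := by
    intro P' hP' hT
    have h1 := ordEq_pow (h.gen0 hPQ hη hgen hx hE hP' hT) R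
    rwa [mul_zero] at h1
  have hreg : ∀ P', IsPrimeDivisor S.v P' → Through S.v P' P →
      0 ≤ P'.ord (algebraMap K M κ) := by
    intro P' hP' hT
    have h1 := ordGe_pow (hsec P' hP') q
    rw [mul_zero] at h1
    simp only [hform] at h1
    have h2 := (ratio_ge (hone P' hP' hT) h1).resolve_left hκM
    have h3 : (0 : ℚ) ≤ P'.ord (algebraMap K M κ) := by linarith
    exact_mod_cast h3
  have hmem : algebraMap K M κ ∈ localRing S.v P :=
    mem_localRing_of_reg S.nv fun P' hP' hT => Or.inr (hreg P' hP' hT)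
  refine ⟨q, κ, hq, hκ0, reg_ord_nonneg (hPQ.reg.1 (localRing_reg hmem)), ?_, ?_⟩
  · intro D hD hDQ c hc
    have hDd : Divisorial n D := hD.divisorial S.ny h.trK
    have h1 := ordEq_pow hc q
    have h2 := ordEq_smul hκ0 (ordEq_pow (hgen D hD hDQ) R)
    have hfp := frm_pluri x (2 * (b * R)) a
    have hfun : (fun D => frm x (2 * (b * R)) a D ^ q) = fun D => κ * η D ^ R := by
      funext D'
      rw [pluri_coord hx hE hfp D', pluri_coord hx hE hη D', frm_self hE, mul_pow, mul_pow,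
        ← pow_mul, ← pow_mul, ← hκe]
      rw [show 2 * (b * R) * q = 2 * (b * q) * R by ring]
      ring
    rw [hfun] at h1
    have h3 := ordEq_unique h.trK hDd (pluri_smul' (pluri_pow hη R) κ) h1 h2
    have h4 : ((q * c : ℤ) : ℚ) = ((D.ord κ - 2 * q * R * Γ D : ℤ) : ℚ) := by
      push_cast at h3 ⊢
      linarith
    exact_mod_cast h4
  · intro hall
    have hzero : ∀ P', IsPrimeDivisor S.v P' → Through S.v P' P →
        P'.ord (algebraMap K M κ)⁻¹ = 0 := by
      intro P' hP' hT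
      have h1 := ordEq_pow (hall P' hP' hT) q
      rw [mul_zero] at h1
      simp only [hform] at h1
      have h2 := ordEq_smul (inv_ne_zero hκM) h1
      have h3 : (fun D => (algebraMap K M κ)⁻¹ * (algebraMap K M κ *
          T q x (η E) D ^ R)) =
          fun D => T q x (η E) D ^ R := by
        funext D
        rw [← mul_assoc, inv_mul_cancel₀ hκM, one_mul]
      rw [h3] at h2
      have hP'd := hP'.divisorial S.nv h.trM
      have hessM := S.essM
      have h4 := ordEq_unique h.trM hP'd (pluri_pow (h.pluri q x (η E)) R) h2 (hone P' hP' hT)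
      have h5 : ((P'.ord (algebraMap K M κ)⁻¹ : ℤ) : ℚ) = ((0 : ℤ) : ℚ) := by
        push_cast
        linarith
      exact_mod_cast h5
    have hmem' : (algebraMap K M κ)⁻¹ ∈ localRing S.v P :=
      mem_localRing_of_reg S.nv fun P' hP' hT => Or.inr (hzero P' hP' hT).ge
    have h1 := reg_ord_nonneg (hPQ.reg.1 (localRing_reg hmem))
    have h2 := reg_ord_nonneg (localRing_reg hmem')
    rw [P.ord_inv, hPQ.2] at h2
    have h3 : (0 : ℤ) < e := by exact_mod_cast hPQ.1
    nlinarith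

/-- **Descent of semiampleness.** -/
theorem CovG.desc (h : CovG S b Γ T) {Δ : Place ℂ K → ℚ}
    (hG : ∀ P, IsPrimeDivisor y P → (Γ P : ℚ) = b * Δ P) (hklt : QCar y n Δ)
    (hsa : LogSemiample S.v (n + r) 0) : LogSemiample y n Δ := by
  classical
  have hessK := S.essK
  have hessM := S.essM
  have hb1 : 1 ≤ b := h.b1
  obtain ⟨R, hR, hsec⟩ := hsa
  have hpos : 1 ≤ 2 * (b * R) := by
    have : 1 ≤ b * R := Nat.mul_pos hb1 hR
    omega
  refine ⟨2 * (b * R), hpos, fun Q hQ => ?_⟩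
  obtain ⟨P, e, hPd, hPQ⟩ := h.exists_over hQ
  obtain ⟨ω, hωp, hωge, hωeq⟩ := hsec P hPd
  obtain ⟨W, hWd⟩ : ∃ W : (Fin (n + r) → Derivation ℂ M M) → M, W = fun D => ω D ^ (2 * b) :=
    ⟨_, rfl⟩
  have hWp : IsPluri (2 * (b * R)) W := by
    have h1 := pluri_pow hωp (2 * b)
    rw [show R * (2 * b) = 2 * (b * R) by ring] at h1
    rw [hWd]
    exact h1
  have hWge : ∀ P', IsPrimeDivisor S.v P' → OrdGe P' W 0 := by
    intro P' hP'
    have h1 := ordGe_pow (hωge P' hP') (2 * b)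
    rw [← hWd] at h1
    simpa using h1
  have hWeq : ∀ P', IsPrimeDivisor S.v P' → Through S.v P' P → OrdEq P' W 0 := by
    intro P' hP' hT
    have h1 := ordEq_pow (hωeq P' hP' hT) (2 * b)
    rw [← hWd] at h1
    simpa using h1
  obtain ⟨x, E, hx, hE⟩ := exists_crd h.trK
  obtain ⟨θ, hθ⟩ : ∃ θ, θ = T R x 1 :=
    ⟨_, rfl⟩
  have hθp : IsPluri (2 * (b * R)) θ := by
    rw [hθ]
    exact h.pluri _ _ _
  -- the quotient
  have hbas := S.basM (L := L) (M := M) hx
  choose F hF using fun u : Fin (n + r) => exists_der (L := ℂ) _ hbas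
    (fun v => if u = v then (1 : M) else 0)
  have hθF : θ F ≠ 0 := by
    rw [hθ]
    exact h.ne R x 1 hx one_ne_zero F hF
  obtain ⟨g, hg⟩ : ∃ g, g = W F / θ F := ⟨_, rfl⟩
  have hWθ : W = fun D => g * θ D := by
    funext D
    rw [pluri_coord hbas hF hWp D, pluri_coord hbas hF hθp D, hg]
    field_simp
  obtain ⟨a, hga⟩ := h.const (g := g) fun P' hP' htr => by
    have h1 := hWge P' hP'
    rw [hWθ] at h1
    have h2 := h.hor hP' htr R hx hE (one_ne_zero (α := K))
    rw [← hθ] at h2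
    rcases ratio_ge h2 h1 with h3 | h3
    · rw [h3]
      exact P'.reg_zero
    · right
      have h4 : (0 : ℚ) ≤ P'.ord g := by linarith
      exact_mod_cast h4
  have hWa : W = T R x a := by
    rw [hWθ, hga, hθ]
    funext D
    rw [← h.mul, mul_one]
  have ha : a ≠ 0 := by
    rintro rfl
    obtain ⟨P', hP', hT⟩ := exists_through S.nv P
    obtain ⟨D, -, h0, -⟩ := (hWeq P' hP' hT).2
    apply h0
    rw [hWa, h.zero]
  rw [hWa] at hWge hWeq
  have hηp := frm_pluri x (2 * (b * R)) a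
  have hηE : frm x (2 * (b * R)) a E ≠ 0 := by rwa [frm_self hE]
  have hcast : ∀ D, IsPrimeDivisor y D →
      (-(((2 * (b * R) : ℕ) : ℚ) * Δ D)) = ((-(2 * R * Γ D) : ℤ) : ℚ) := by
    intro D hD
    push_cast
    rw [hG D hD]
    ring
  -- the section
  have hge : ∀ D, IsPrimeDivisor y D → ∀ c : ℤ, OrdEq D (frm x (2 * (b * R)) a) c →
      -(2 * R * Γ D) ≤ c := by
    intro D hD c hc
    have hDd := hD.divisorial S.ny h.trK
    obtain ⟨P₂, e₂, -, hP₂⟩ := h.exists_over hDd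
    obtain ⟨q, κ, hq, -, hκ, h1, -⟩ := h.compare hG hklt hx hE ha hWge hDd hP₂
    have h2 := h1 D hD (fun f hf => localRing_reg hf) c hc
    have h3 : (0 : ℤ) < q := by exact_mod_cast hq
    nlinarith
  refine ⟨frm x (2 * (b * R)) a, hηp, fun D hD => ?_, fun D hD hDQ => ?_⟩
  · have hDd := hD.divisorial S.ny h.trK
    obtain ⟨c, hc⟩ := exists_ordEq h.trK hDd hηp hx hE hηE
    rw [hcast D hD]
    refine hc.1.mono ?_
    have h1 := hge D hD c hc
    exact_mod_cast h1
  · have hDd := hD.divisorial S.ny h.trK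
    obtain ⟨q, κ, hq, hκ0, hκ, h1, h2⟩ := h.compare hG hklt hx hE ha hWge hQ hPQ
    have hκQ := h2 hWeq
    have h3 : (0 : ℤ) < q := by exact_mod_cast hq
    have hmem : κ ∈ localRing y Q := by
      refine mem_localRing_of_reg S.ny fun D' hD' hD'Q => Or.inr ?_
      have hD'd := hD'.divisorial S.ny h.trK
      obtain ⟨c', hc'⟩ := exists_ordEq h.trK hD'd hηp hx hE hηE
      have h4 := h1 D' hD' hD'Q c' hc'
      have h5 := hge D' hD' c' hc'
      nlinarith
    have hκD := unit_through hDQ hmem hκ0 hκQ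
    obtain ⟨c, hc⟩ := exists_ordEq h.trK hDd hηp hx hE hηE
    have h4 := h1 D hD hDQ c hc
    rw [hκD] at h4
    have h5 : c = -(2 * R * Γ D) := by
      have h6 : (q : ℤ) * c = q * (-(2 * R * Γ D)) := by linarith
      exact mul_left_cancel₀ h3.ne' h6
    rw [hcast D hD, ← h5]
    exact hc

/-- **Semiample divisors on the base.** -/
theorem CovG.asc (h : CovG S b Γ T) {Δ : Place ℂ K → ℚ}
    (hG : ∀ P, IsPrimeDivisor y P → (Γ P : ℚ) = b * Δ P) (hsa : LogSemiample y n Δ)
    (hex : ∃ Q : Place ℂ K, Divisorial n Q) : LogSemiample S.v (n + r) 0 := by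
  classical
  have hessK := S.essK
  have hessM := S.essM
  have hb1 : 1 ≤ b := h.b1
  obtain ⟨x, E, hx, hE⟩ := exists_crd h.trK
  obtain ⟨R, hR, hsec⟩ := hsa
  have hpos : 1 ≤ 2 * (b * R) := by
    have : 1 ≤ b * R := Nat.mul_pos hb1 hR
    omega
  refine ⟨2 * (b * R), hpos, fun P hP => ?_⟩
  obtain ⟨Q, hQ, hQP⟩ : ∃ Q : Place ℂ K, Divisorial n Q ∧
      ((∀ f : K, P.ord (algebraMap K M f) = 0) ∨ ∃ e, Over P Q e) := by
    by_cases htr : ∀ f : K, P.ord (algebraMap K M f) = 0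
    · obtain ⟨Q, hQ⟩ := hex
      exact ⟨Q, hQ, Or.inl htr⟩
    · have htr' := htr
      push Not at htr
      obtain ⟨e, Q, hPQ⟩ := FF.exists_over P htr
      exact ⟨Q, div_base (L := M) (by rw [S.trdeg_KM]) hPQ hP, Or.inr ⟨e, hPQ⟩⟩
  obtain ⟨s, hs1, hs2, hs3⟩ := hsec Q hQ
  obtain ⟨η, hηd⟩ : ∃ η : (Fin n → Derivation ℂ K K) → K, η = fun D => s D ^ (2 * b) :=
    ⟨_, rfl⟩
  have hη : IsPluri (2 * (b * R)) η := by
    have h1 := pluri_pow hs1 (2 * b)
    rw [show R * (2 * b) = 2 * (b * R) by ring] at h1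
    rw [hηd]
    exact h1
  have hcst : ∀ D, IsPrimeDivisor y D →
      ((2 * b : ℕ) : ℚ) * (-(R * Δ D)) = (-(2 * R * Γ D) : ℤ) := by
    intro D hD
    push_cast
    rw [hG D hD]
    ring
  have hηge : ∀ D, IsPrimeDivisor y D → OrdGe D η (-(2 * R * Γ D) : ℤ) := by
    intro D hD
    have h1 := ordGe_pow (hs2 D hD) (2 * b)
    rw [← hηd, hcst D hD] at h1
    exact h1
  have hηeq : ∀ D, IsPrimeDivisor y D → Through y D Q → OrdEq D η (-(2 * R * Γ D) : ℤ) := by
    intro D hD hDQ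
    have h1 := ordEq_pow (hs3 D hD hDQ) (2 * b)
    rw [← hηd, hcst D hD] at h1
    exact h1
  have hηE : η E ≠ 0 := by
    obtain ⟨D, hD, hDQ⟩ := exists_through S.ny Q
    exact val_ne hη hx hE (hηeq D hD hDQ)
  have hz : ∀ P' : Place ℂ M, (-(((2 * (b * R) : ℕ) : ℚ) * (0 : Place ℂ M → ℚ) P')) = 0 := by
    intro P'
    simp
  refine ⟨T R x (η E),
    h.pluri _ _ _, fun P' hP' => ?_, fun P' hP' hT => ?_⟩
  · rw [hz]
    by_cases htr : ∀ f : K, P'.ord (algebraMap K M f) = 0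
    · exact (h.hor hP' htr R hx hE hηE).1
    · push Not at htr
      obtain ⟨e', D, hPD⟩ := FF.exists_over P' htr
      obtain ⟨hD, hDd, -, hDθ⟩ := h.ver hP' hPD
      obtain ⟨c', hc'⟩ := exists_ordEq h.trK hDd hη hx hE hηE
      have h1 := hDθ R η hη c' hc' x E hx hE
      have h2 := ordEq_le h.trK hDd hη hc' (hηge D hD)
      have h3 : -(2 * R * Γ D) ≤ c' := by exact_mod_cast h2
      refine h1.1.mono ?_
      have h4 : (0 : ℤ) ≤ c' + 2 * R * Γ D := by linarith
      exact_mod_cast h4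
  · rw [hz]
    by_cases htr : ∀ f : K, P'.ord (algebraMap K M f) = 0
    · exact h.hor hP' htr R hx hE hηE
    · have htr' := htr
      push Not at htr
      obtain ⟨e', D, hPD⟩ := FF.exists_over P' htr
      obtain ⟨hD, hDd, -, hDθ⟩ := h.ver hP' hPD
      have hDQ : Through y D Q := by
        rcases hQP with h1 | ⟨e, h1⟩
        · exact absurd (h.through_triv hT h1) htr'
        · exact h.through hT h1 hPD
      have h1 := hDθ R η hη _ (hηeq D hD hDQ) x E hx hE
      have h2 : (-(2 * R * Γ D) + 2 * R * Γ D : ℤ) = 0 := by ring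
      rw [h2] at h1
      exact_mod_cast h1

end

end Pool.Agent.H890

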