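import Pool.Agent.H890.Cstr
import Pool.Agent.H890.Gn1

/-!
The covering space of the projective bundle, with its structure.
-/

set_option autoImplicit false
set_option linter.unusedSectionVars false
set_option linter.overlappingInstances false

open FF MvPolynomial Pool.Agent.W602.GT Pool.Agent.W603.LV Pool.Agent.Y172
  Pool.Agent.TH122.AB Pool.Agent.R887

namespace Pool.Agent.H890

section

variable {K L M : Type} [Field K] [Field L] [Field M] [Algebra ℂ K] [Algebra ℂ L]
  [Algebra ℂ M] [Algebra K L] [Algebra L M] [Algebra K M] [IsScalarTower ℂ K L]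
  [IsScalarTower ℂ L M] [IsScalarTower ℂ K M] [IsScalarTower K L M] [FiniteDimensional L M]
  {N : ℕ} {y : Fin (N + 1) → K} {n r : ℕ} {G : Place ℂ K → ℤ}
  {S : Mod K L M y n r G} {b : ℕ} {z : M}

/-- the cyclic covering as a covering with pluricanonical forms from the base -/
theorem Cov.covG (h : Cov S b z) (hr : 0 < r) : CovG S b G
    (fun q x c => th S.lM b q (fun i => algebraMap K M (x i)) (algebraMap K M c)) where
  b1 := by
    have := h.hb
    omega
  trK := h.trK
  pluri := fun q x c => th_pluri S.sysM _ _ _ _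
  add := fun q x c c' D => by
    unfold th
    rw [map_add]
    ring
  mul := fun q x c c' D => by
    rw [map_mul, th_mul]
  pow := fun q a x c D => by
    rw [map_pow, th_pow]
  ne := fun q x c hx hc F hF => by
    rw [th_self S.sysM (i := 0) (Or.inl rfl) hF]
    exact div_ne_zero (mul_ne_zero (pow_ne_zero _ (S.sysM.ne _)) (by
      rwa [Ne, map_eq_zero]))
      (pow_ne_zero _ (Finset.prod_ne_zero_iff.2 fun k _ => S.sysM.ne k))
  ver := fun hP _ _ hPQ => h.ver hP hPQ
  hor := fun hP htr q _ _ hx hE _ hc => h.hor hP htr q hx hE hc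
  alg := fun g hg => h.alg_mem hr hg

end

/-- the construction -/
theorem core2 {K L M : Type} [Field K] [Field L] [Field M] [Algebra ℂ K] [Algebra ℂ L]
    [Algebra ℂ M] [Algebra K L] [Algebra L M] [Algebra K M] [IsScalarTower ℂ K L]
    [IsScalarTower ℂ L M] [IsScalarTower ℂ K M] [IsScalarTower K L M] [FiniteDimensional L M]
    {n b r : ℕ} (hrb : r + 2 = 2 * b) (hr2 : 2 ≤ r) {t : Fin r → L} (ht : Gens (k := K) t) {z : M}
    (hzN : z ^ (r + 2) = algebraMap L M (∏ k, lfs t k ^ sg k))
    (hgen : ∀ x : M, ∃ p : Polynomial L, x = Polynomial.aeval z p)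
    (hfin : Module.finrank L M ≤ r + 2) (hn : Algebra.trdeg ℂ K = n) {N : ℕ}
    {y : Fin (N + 1) → K} (hy : NormalModel y) {Δ : Place ℂ K → ℚ} (hΔ : Effective y Δ)
    (hcar : CartierMul y n b Δ) :
    ∃ (G : Place ℂ K → ℤ) (S : Mod K L M y n r G), Cov S b z ∧
      ∀ P, IsPrimeDivisor y P → (G P : ℚ) = b * Δ P := by
  classical
  -- the Cartier divisor
  obtain ⟨G, hGd⟩ : ∃ G : Place ℂ K → ℤ, G = fun P => ⌊(b : ℚ) * Δ P⌋ := ⟨_, rfl⟩
  have hG : ∀ P, IsPrimeDivisor y P → (G P : ℚ) = b * Δ P := by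
    intro P hP
    obtain ⟨g, -, hg⟩ := hcar P (hP.divisorial hy hn)
    have h1 := hg P hP fun f hf => localRing_reg hf
    rw [hGd]
    change ((⌊(b : ℚ) * Δ P⌋ : ℤ) : ℚ) = _
    rw [← h1, Int.floor_intCast]
  have hGcar : Car y n G := by
    refine ⟨fun P hP => ?_, ?_, fun Q hQ => ?_⟩
    · have h1 : (0 : ℚ) ≤ G P := by
        rw [hG P hP]
        exact mul_nonneg (Nat.cast_nonneg _) (hΔ.1 P hP)
      exact_mod_cast h1
    · refine hΔ.2.subset ?_
      rintro P ⟨hP, h0⟩
      refine ⟨hP, fun h1 => h0 ?_⟩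
      have h2 := hG P hP
      rw [h1, mul_zero] at h2
      exact_mod_cast h2
    · obtain ⟨g, hg0, hg⟩ := hcar Q hQ
      refine ⟨g, hg0, fun P hP hPQ => ?_⟩
      have h1 := hg P hP hPQ
      rw [← hG P hP] at h1
      exact_mod_cast h1
  have hsys := lfs_sys ht
  -- weights
  obtain ⟨a, ha⟩ : ∃ a : Fin (r + 2), (a : ℕ) = r - 1 := ⟨⟨r - 1, by omega⟩, rfl⟩
  obtain ⟨a', ha'⟩ : ∃ a' : Fin (r + 2), (a' : ℕ) = r := ⟨⟨r, by omega⟩, rfl⟩
  have haa : a ≠ a' := fun h1 => by
    have := congrArg Fin.val h1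
    omega
  have hw01 := wts01 haa
  have hw0 : wts a a' 0 = 0 := by
    unfold wts
    rw [if_neg, if_neg]
    · norm_num
    · intro h1
      have := congrArg Fin.val h1
      simp only [Fin.val_zero] at this
      omega
    · intro h1
      have := congrArg Fin.val h1
      simp only [Fin.val_zero] at this
      omega
  have hwl : wts a a' (Fin.last (r + 1)) = 0 := by
    unfold wts
    rw [if_neg, if_neg]
    · norm_num
    · intro h1
      have := congrArg Fin.val h1
      simp only [Fin.val_last] at this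
      omega
    · intro h1
      have := congrArg Fin.val h1
      simp only [Fin.val_last] at this
      omega
  -- families
  have hcari : ∀ i : Fin (r + 1), Car y n (fun P => wts a a' i.castSucc * G P) := by
    intro i
    rcases hw01 i.castSucc with h1 | h1
    · refine ⟨fun P hP => ?_, ?_, fun Q hQ => ⟨1, one_ne_zero, fun P hP _ => ?_⟩⟩
      · rw [h1, zero_mul]
      · refine Set.finite_empty.subset ?_
        rintro P ⟨-, h0⟩
        rw [h1, zero_mul] at h0
        exact h0 rfl
      · rw [h1, zero_mul, P.ord_one]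
    · simp only [h1, one_mul]
      exact hGcar
  choose c₀ hc₀ using fun i => exists_fam hy (hcari i)
  obtain ⟨c, hc⟩ : ∃ c, c = Finset.univ.sup c₀ := ⟨_, rfl⟩
  choose F hF using fun i : Fin (r + 1) => hc₀ i c (by
    rw [hc]
    exact Finset.le_sup (Finset.mem_univ i))
  -- the coordinates on the bundle
  obtain ⟨s, u, hu⟩ : ∃ (s : ℕ) (u : Fin (s + 1) → L), ∀ x, x ∈ Set.range u ↔
      ∃ i, ∃ f ∈ F i, x = lfs t i.castSucc * algebraMap K L f := by
    have hfin : (⋃ i : Fin (r + 1), (fun f => lfs t i.castSucc * algebraMap K L f) ''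
        (F i : Set K)).Finite := Set.finite_iUnion fun i => (F i).finite_toSet.image _
    obtain ⟨f₀, hf₀⟩ := (hF 0).non
    obtain ⟨s, u, hu⟩ := exists_fin_range hfin ⟨_, Set.mem_iUnion.2 ⟨0, f₀, hf₀, rfl⟩⟩
    refine ⟨s, u, fun x => ?_⟩
    rw [hu, Set.mem_iUnion]
    constructor
    · rintro ⟨i, f, hf, rfl⟩
      exact ⟨i, f, hf, rfl⟩
    · rintro ⟨i, f, hf, rfl⟩
      exact ⟨i, f, hf, rfl⟩
  have hu0 : ∀ c, u c ≠ 0 := by
    intro c
    obtain ⟨i, f, hf, h1⟩ := (hu _).1 ⟨c, rfl⟩
    rw [h1]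
    refine mul_ne_zero (hsys.ne _) ?_
    rw [Ne, map_eq_zero]
    exact (hF i).ne f hf
  obtain ⟨N', v, d, j, hd, hv, hvj, hch⟩ := exists_nrm (M := M) hu0
    (gen_top hy ht hF hu)
  let S : Mod K L M y n r G :=
    { l := lfs t
      wt := wts a a'
      c := c
      F := F
      s := s
      N' := N'
      d := d
      u := u
      v := v
      j := j
      ny := hy
      car := hGcar
      sys := hsys
      gens := by rw [lfs_ts]; exact ht
      wt0 := hw0
      wtl := hwl
      wt01 := hw01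
      fam := hF
      ran := hu
      nv := hv
      dpos := hd
      vj := hvj
      chart_iff := hch }
  have hcov : Cov S b z := ⟨hrb, wts_sum a a', wts_sg a a' (by omega), hzN, hgen, hfin, hn⟩
  exact ⟨G, S, hcov, hG⟩

end Pool.Agent.H890
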