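import Pool.Agent.H890.Frm1

/-!
Regular `1`-forms on purely transcendental extensions: the main theorem.
-/

set_option autoImplicit false
set_option linter.unusedSectionVars false
set_option linter.overlappingInstances false

open FF MvPolynomial Pool.Agent.W602.GT Pool.Agent.W603.LV Pool.Agent.Y172
  Pool.Agent.TH122.AB Pool.Agent.R887

namespace Pool.Agent.H890

section

variable {K L : Type} [Field K] [Field L] [Algebra ℂ K] [Algebra ℂ L] [Algebra K L]
  [IsScalarTower ℂ K L]

theorem gens_of_top {r : ℕ} {s : Fin r → L} (hs : AlgebraicIndependent K s)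
    (htop : IntermediateField.adjoin K (Set.range s) = ⊤) : Gens (k := K) s := by
  refine ⟨hs, fun z => ?_⟩
  have h1 : z ∈ IntermediateField.adjoin K (Set.range s) := by
    rw [htop]
    exact IntermediateField.mem_top
  obtain ⟨P, Q, h2⟩ := (IntermediateField.mem_adjoin_range_iff K s z).1 h1
  by_cases hQ : Q = 0
  · refine ⟨0, 1, one_ne_zero, ?_⟩
    rw [h2, hQ, map_zero, div_zero, zero_div]
  · exact ⟨P, Q, hQ, h2⟩

theorem reg_smul_iff {P : Place ℂ L} {Q : Place ℂ K}
    (h : ∀ f : K, P.ord (algebraMap K L f) = Q.ord f) {a : K} (ha : P.Reg (algebraMap K L a)) :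
    Q.Reg a := by
  rcases ha with h1 | h1
  · left
    rwa [map_eq_zero] at h1
  · right
    rwa [h] at h1

/-- the value of a `1`-form on the lift of a vector field -/
theorem form_lift {n m : ℕ} {x : Fin n → K} {F : Fin m → Derivation ℂ L L} {c : Fin n → Fin m}
    {ω : Derivation ℂ L L →ₗ[L] L} {a : Fin n → K} (ha : ∀ i, ω (F (c i)) = algebraMap K L (a i))
    (D : Derivation ℂ K K) : ω (∑ i, algebraMap K L (D (x i)) • F (c i)) =
      algebraMap K L (∑ i, D (x i) * a i) := by
  rw [map_sum, map_sum]
  refine Finset.sum_congr rfl fun i _ => ?_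
  rw [map_smul, ha, smul_eq_mul, map_mul]

/-- the form on the base -/
def baseForm {n : ℕ} (x : Fin n → K) (a : Fin n → K) : Derivation ℂ K K →ₗ[K] K where
  toFun D := ∑ i, D (x i) * a i
  map_add' D D' := by
    simp only [Derivation.add_apply, add_mul, Finset.sum_add_distrib]
  map_smul' c D := by
    simp only [Derivation.smul_apply, smul_eq_mul, RingHom.id_apply, Finset.mul_sum, mul_assoc]

theorem baseForm_apply {n : ℕ} (x : Fin n → K) (a : Fin n → K) (D : Derivation ℂ K K) :
    baseForm x a D = ∑ i, D (x i) * a i := rfl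

theorem baseForm_zero {n : ℕ} {x : Fin n → K} {E : Fin n → Derivation ℂ K K}
    (hE : ∀ i j, E i (x j) = if i = j then 1 else 0) {a : Fin n → K} (h : baseForm x a = 0)
    (i : Fin n) : a i = 0 := by
  have h1 := congrArg (fun φ => φ (E i)) h
  change ∑ j, E i (x j) * a j = 0 at h1
  simp only [hE, ite_mul, one_mul, zero_mul, Finset.sum_ite_eq, Finset.mem_univ, if_true] at h1
  exact h1

variable {t : L}

theorem Simple.inv (h : Simple K t) (hL : IntermediateField.adjoin K {t} = ⊤) :
    Simple K t⁻¹ := by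
  refine simple_of (fun h1 => h.tr (by simpa using h1.inv)) ?_
  rw [eq_top_iff, ← hL, IntermediateField.adjoin_le_iff]
  intro z hz
  rw [Set.mem_singleton_iff] at hz
  have h1 : t⁻¹ ∈ IntermediateField.adjoin K {t⁻¹} := IntermediateField.mem_adjoin_simple_self K _
  have h2 := (IntermediateField.adjoin K {t⁻¹}).inv_mem h1
  rw [hz]
  rwa [inv_inv] at h2

/-- **Regular `1`-forms on the product with a line.** -/
theorem noForms_simple {n : ℕ} (hn : Algebra.trdeg ℂ K = n) (hn1 : 0 < n)
    (ht : Transcendental K t)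
    (hL : IntermediateField.adjoin K {t} = ⊤) (hK : NoForms K n) : NoForms L (n + 1) := by
  classical
  intro ω hω
  have hK0 : CharZero K := charZero_of_injective_algebraMap (algebraMap ℂ K).injective
  have hess : Algebra.EssFiniteType K L := by
    have h1 : (⊤ : IntermediateField K L).FG := by
      rw [← hL]
      exact ⟨{t}, by simp⟩
    exact IntermediateField.fg_top_iff.1 h1
  have hsim := simple_of ht hL
  have hsim' := hsim.inv hL
  have ht0 : t ≠ 0 := by
    rintro rfl
    exact ht (isAlgebraic_zero)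
  have hgens : Gens (k := K) (fun _ : Fin 1 => t) := by
    refine gens_of_top ?_ (by rwa [Set.range_const])
    exact (algebraicIndependent_unique_type_iff (R := K) (x := fun _ : Fin 1 => t)).2 ht
  have hb := Gens_basis hgens
  have htr : Algebra.trdeg K L = 1 := by
    rw [← hb.cardinalMk_eq_trdeg]
    simp
  obtain ⟨x, E, hx, hE⟩ := exists_crd hn
  have hbas := append_basis hx hb
  choose F hF using fun u : Fin (n + 1) => exists_der (L := ℂ) _ hbas
    (fun v => if u = v then (1 : L) else 0)
  obtain ⟨hF1, hF2⟩ := frame_base hx hE hF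
  have hFt : ∀ i : Fin n, F (Fin.castAdd 1 i) t = 0 := by
    intro i
    have h1 := hF (Fin.castAdd 1 i) (Fin.natAdd n 0)
    rw [Fin.append_right, if_neg] at h1
    · exact h1
    · intro h
      have := congrArg Fin.val h
      simp only [Fin.val_natAdd, Fin.val_castAdd, Fin.val_zero] at this
      omega
  have hFtt : F (Fin.natAdd n 0) t = 1 := by
    have h1 := hF (Fin.natAdd n 0) (Fin.natAdd n 0)
    rwa [Fin.append_right, if_pos rfl] at h1
  have hinv : ∀ D : Derivation ℂ L L, D t⁻¹ = -(t⁻¹ ^ 2 * D t) := by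
    intro D
    rw [D.leibniz_inv]
    simp only [smul_eq_mul, neg_mul]
  -- places
  have hdiv : ∀ P : Place ℂ L, (∀ f : K, P.ord (algebraMap K L f) = 0) → Divisorial (n + 1) P := by
    intro P hP
    refine ⟨fun i => algebraMap K L (x i), fun G hG => ?_⟩
    have h1 : aeval (fun i => algebraMap K L (x i)) G = algebraMap K L (aeval x G) := by
      have h2 := MvPolynomial.aeval_algebraMap_apply (R := ℂ) (A := K) L x G
      exact h2
    have h2 : aeval x G ≠ 0 := fun h0 => hG ((injective_iff_map_eq_zero _).1 hx.1 G h0)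
    have h3 : (aeval (fun i => algebraMap K L (x i)) G : L) ≠ 0 := by
      rw [h1, Ne, map_eq_zero]
      exact h2
    refine ⟨h3, ?_⟩
    change P.ord (aeval (fun i => algebraMap K L (x i)) G) = 0
    rw [h1, hP]
  have hinvreg : ∀ P : Place ℂ L, ¬ P.Reg t → P.Reg t⁻¹ ∧ P.ord t < 0 := by
    intro P hP
    have h1 : P.ord t < 0 := by
      by_contra hcon
      exact hP (Or.inr (by omega))
    exact ⟨Or.inr (by rw [P.ord_inv]; omega), h1⟩
  -- the vector fields from the base
  have hreg1 : ∀ P : Place ℂ L, (∀ f : K, P.ord (algebraMap K L f) = 0) → ∀ i : Fin n,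
      DerReg P (F (Fin.castAdd 1 i)) := by
    intro P hP i
    by_cases hreg : P.Reg t
    · exact hsim.derReg hP hreg (fun f => ⟨Polynomial.C (E i f), by rw [hF1, Polynomial.aeval_C]⟩)
        ⟨0, by rw [hFt, map_zero]⟩
    · exact hsim'.derReg hP (hinvreg P hreg).1
        (fun f => ⟨Polynomial.C (E i f), by rw [hF1, Polynomial.aeval_C]⟩)
        ⟨0, by rw [hinv, hFt, map_zero, mul_zero, neg_zero]⟩
  have ha : ∀ i : Fin n, ∃ a : K, ω (F (Fin.castAdd 1 i)) = algebraMap K L a := fun i =>
    hsim.const hK0 hess htr fun P hP => hω P (hdiv P hP) _ (hreg1 P hP i)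
  choose a ha using ha
  -- the vertical vector field
  have hg0 : ω (F (Fin.natAdd n 0)) = 0 := by
    have hinf : ∀ P : Place ℂ L, (∀ f : K, P.ord (algebraMap K L f) = 0) → ¬ P.Reg t →
        ω (F (Fin.natAdd n 0)) ≠ 0 → 0 < P.ord (ω (F (Fin.natAdd n 0))) := by
      intro P hP hreg hg
      obtain ⟨h1, h2⟩ := hinvreg P hreg
      have h3 : DerReg P (t ^ 2 • F (Fin.natAdd n 0)) := by
        refine hsim'.derReg hP h1 (fun f => ⟨0, ?_⟩) ⟨-1, ?_⟩
        · rw [Derivation.smul_apply, hF2, smul_zero, map_zero]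
        · rw [Derivation.smul_apply, hinv, hFtt, smul_eq_mul, map_neg, map_one]
          field_simp
      have h4 := hω P (hdiv P hP) _ h3
      rw [map_smul, smul_eq_mul, P.reg_iff (mul_ne_zero (pow_ne_zero _ ht0) hg),
        P.ord_mul (pow_ne_zero _ ht0) hg, P.ord_pow] at h4
      push_cast at h4
      omega
    obtain ⟨b, hb⟩ := hsim.const hK0 hess htr (g := ω (F (Fin.natAdd n 0))) fun P hP => by
      by_cases hreg : P.Reg t
      · exact hω P (hdiv P hP) _ (hsim.derReg hP hreg (fun f => ⟨0, by rw [hF2, map_zero]⟩)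
          ⟨1, by rw [hFtt, map_one]⟩)
      · by_cases hg : ω (F (Fin.natAdd n 0)) = 0
        · exact Or.inl hg
        · exact Or.inr (hinf P hP hreg hg).le
    by_contra hcon
    obtain ⟨P, hP⟩ := exists_pole_at (r := 1) (by rw [htr, Nat.cast_one]) ht
    have hreg : ¬ (restr P).Reg t := by
      rw [(restr P).reg_iff ht0, restr_ord]
      omega
    have h1 := hinf (restr P) (restr_triv P) hreg hcon
    rw [hb, restr_triv] at h1
    exact lt_irrefl _ h1
  -- the form on the base
  have hbase : baseForm x a = 0 := by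
    refine hK _ fun Q hQ D hD => ?_
    obtain ⟨P, hP⟩ := exists_gauss hgens Q 0
    have hg : IsGauss (fun _ : Fin 1 => t) Q P := hP
    have hPd : Divisorial (n + 1) P := hg.divisorial hgens hn1 hQ
    have hosub : ∀ c ∈ osub Q, Q.Reg c := fun c hc => hc
    have hosub' : ∀ c, Q.Reg c → c ∈ osub Q := fun c hc => hc
    have hlift : ∀ f : K, (∑ i, algebraMap K L (D (x i)) • F (Fin.castAdd 1 i))
        (algebraMap K L f) = algebraMap K L (D f) := by
      intro f
      rw [Pool.Agent.Y172.sum_smul_apply]
      have h1 := Pool.Agent.W73.PG.PULL.expand x hx E hE D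
      have h2 : D f = ∑ i, D (x i) * E i f := by
        conv_lhs => rw [← h1]
        rw [Pool.Agent.Y172.sum_smul_apply]
      rw [h2, map_sum]
      refine Finset.sum_congr rfl fun i _ => ?_
      rw [hF1, map_mul]
    have hDreg : DerReg P (∑ i, algebraMap K L (D (x i)) • F (Fin.castAdd 1 i)) := by
      refine derReg_of_ring (hg.reg hosub) (fun z hz => hg.rep hgens hosub' hz) fun b hb =>
        RR_der (fun c hc => ?_) (fun p => ?_) hb
      · rw [hlift]
        exact RR_base (hosub' _ (hD c hc))
      · rw [Pool.Agent.Y172.sum_smul_apply]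
        rw [Finset.sum_eq_zero fun i _ => by rw [hFt, mul_zero]]
        exact Subalgebra.zero_mem _
    have h1 := hω P hPd _ hDreg
    rw [form_lift (c := Fin.castAdd 1) ha D] at h1
    exact reg_smul_iff hg.base h1
  have ha0 := baseForm_zero hE hbase
  have hFz : ∀ u, ω (F u) = 0 := by
    intro u
    refine Fin.addCases (fun i => ?_) (fun p => ?_) u
    · rw [ha, ha0, map_zero]
    · rw [Subsingleton.elim p 0, hg0]
  apply LinearMap.ext
  intro D
  rw [← Pool.Agent.W73.PG.PULL.expand _ hbas F hF D, map_sum, LinearMap.zero_apply]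
  refine Finset.sum_eq_zero fun u _ => ?_
  rw [map_smul, hFz, smul_zero]

end

end Pool.Agent.H890
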