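import Pool.Agent.H890.Smo3
import Pool.Agent.H890.Frm2

/-!
Cyclic extensions: automorphisms, integral elements and residues.
-/

set_option autoImplicit false
set_option linter.unusedSectionVars false
set_option linter.overlappingInstances false

open FF Polynomial Pool.Agent.W602.GT Pool.Agent.W603.LV Pool.Agent.Y172
  Pool.Agent.TH122.AB Pool.Agent.R887

namespace Pool.Agent.H890

section cyc

variable {F M : Type} [Field F] [Field M] [Algebra ℂ F] [Algebra ℂ M] [Algebra F M]
  [IsScalarTower ℂ F M] [FiniteDimensional F M] {N : ℕ} {x : M} {a : F}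

theorem minpoly_kum (hN : 0 < N) (hx : x ^ N = algebraMap F M a)
    (htop : IntermediateField.adjoin F {x} = ⊤) (hfin : Module.finrank F M = N) :
    minpoly F x = X ^ N - C a := by
  have hint : IsIntegral F x := Algebra.IsIntegral.isIntegral _
  have h6 : Module.finrank F M = (minpoly F x).natDegree := by
    rw [← IntermediateField.adjoin.finrank hint, htop, IntermediateField.finrank_top']
  have h7 : aeval x (X ^ N - C a) = 0 := by
    rw [map_sub, map_pow, aeval_X, aeval_C, hx, sub_self]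
  refine (eq_of_monic_of_dvd_of_natDegree_le (minpoly.monic hint) (monic_X_pow_sub_C _ hN.ne')
    (minpoly.dvd F x h7) ?_).symm
  rw [natDegree_X_pow_sub_C, ← h6, hfin]

theorem kum_aut (hN : 0 < N) (hx : x ^ N = algebraMap F M a)
    (htop : IntermediateField.adjoin F {x} = ⊤) (hfin : Module.finrank F M = N) {η : ℂ}
    (hη : η ^ N = 1) : ∃ σ : M →ₐ[F] M, σ x = algebraMap ℂ M η * x := by
  have hint : IsIntegral F x := Algebra.IsIntegral.isIntegral _
  let e : IntermediateField.adjoin F {x} ≃ₐ[F] M :=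
    (IntermediateField.equivOfEq htop).trans IntermediateField.topEquiv
  let pb := (IntermediateField.adjoin.powerBasis hint).map e
  have hgen : pb.gen = x := by
    change e (IntermediateField.adjoin.powerBasis hint).gen = x
    rw [IntermediateField.adjoin.powerBasis_gen]
    rfl
  have hy : aeval (algebraMap ℂ M η * x) (minpoly F pb.gen) = 0 := by
    rw [hgen, minpoly_kum hN hx htop hfin, map_sub, map_pow, aeval_X, aeval_C, mul_pow, hx,
      ← map_pow, hη, map_one, one_mul, sub_self]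
  exact ⟨pb.lift (algebraMap ℂ M η * x) hy,
    (congrArg (pb.lift (algebraMap ℂ M η * x) hy) hgen.symm).trans (pb.lift_gen _ hy)⟩

/-- **Integral elements of a cyclic extension.** -/
theorem int_rep (R : Subalgebra ℂ F) [IsIntegrallyClosed R] [IsFractionRing R F] (hN : 0 < N)
    (hx : x ^ N = algebraMap F M a) (haR : a ∈ R)
    (htop : IntermediateField.adjoin F {x} = ⊤) (hfin : Module.finrank F M = N) {b : M}
    (hb : IsIntegral R b) : (N : M) * x ^ (N - 1) * b ∈ Algebra.adjoin R {x} := by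
  have hF0 : CharZero F := charZero_of_injective_algebraMap (algebraMap ℂ F).injective
  have hM0 : CharZero M := charZero_of_injective_algebraMap (algebraMap ℂ M).injective
  have hxi : IsIntegral R x := by
    refine ⟨X ^ N - C ⟨a, haR⟩, monic_X_pow_sub_C _ hN.ne', ?_⟩
    rw [eval₂_sub, eval₂_X_pow, eval₂_C, hx]
    exact sub_self _
  by_cases hx0 : x = 0
  · subst hx0
    by_cases h1 : N = 1
    · subst h1
      have htop' : (⊥ : IntermediateField F M) = ⊤ := by
        rw [← htop]
        symm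
        rw [IntermediateField.adjoin_simple_eq_bot_iff]
        exact zero_mem _
      have h2 : b ∈ (⊥ : IntermediateField F M) := by
        rw [htop']
        exact IntermediateField.mem_top
      obtain ⟨c, rfl⟩ := IntermediateField.mem_bot.1 h2
      have h3 : IsIntegral R c := (isIntegral_algebraMap_iff (algebraMap F M).injective).1 hb
      obtain ⟨c', hc'⟩ := IsIntegrallyClosed.isIntegral_iff.1 h3
      rw [← hc']
      simp only [Nat.cast_one, Nat.sub_self, pow_zero, mul_one, one_mul]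
      exact (Algebra.adjoin R {(0 : M)}).algebraMap_mem c'
    · rw [zero_pow (by omega), mul_zero, zero_mul]
      exact zero_mem _
  have hadj : Algebra.adjoin F {x} = ⊤ := by
    have h1 := congrArg IntermediateField.toSubalgebra htop
    rwa [IntermediateField.adjoin_simple_toSubalgebra_of_isAlgebraic
      (Algebra.IsAlgebraic.isAlgebraic x), IntermediateField.top_toSubalgebra] at h1
  have h2 := traceForm_dualSubmodule_adjoin R F hadj hxi
  have h3 : b ∈ (Algebra.traceForm F M).dualSubmodule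
      (Subalgebra.toSubmodule (Algebra.adjoin R {x})) := by
    rw [LinearMap.BilinForm.mem_dualSubmodule]
    intro c hc
    rw [Algebra.traceForm_apply]
    have hci : IsIntegral R c := by
      have h4 : Algebra.adjoin R {x} ≤ integralClosure R M := by
        apply Algebra.adjoin_le
        rintro _ rfl
        exact hxi
      exact h4 hc
    have h5 : IsIntegral R (Algebra.trace F M (b * c)) := Algebra.isIntegral_trace (hb.mul hci)
    obtain ⟨c', hc'⟩ := IsIntegrallyClosed.isIntegral_iff.1 h5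
    rw [Submodule.mem_one]
    exact ⟨c', hc'⟩
  rw [h2, minpoly_kum hN hx htop hfin] at h3
  obtain ⟨u, hu, hub⟩ := h3
  have h4 : aeval x (derivative (X ^ N - C a)) = (N : M) * x ^ (N - 1) := by
    rw [derivative_sub, derivative_X_pow, derivative_C, sub_zero]
    simp
  have h5 : (N : M) * x ^ (N - 1) ≠ 0 :=
    mul_ne_zero (Nat.cast_ne_zero.2 hN.ne') (pow_ne_zero _ hx0)
  have h6 : (N : M) * x ^ (N - 1) * b = u := by
    rw [← hub]
    change (N : M) * x ^ (N - 1) * ((aeval x (derivative (X ^ N - C a)))⁻¹ • u) = u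
    rw [h4, smul_eq_mul, mul_inv_cancel_left₀ h5]
  rw [h6]
  exact hu

/-- the conjugate place -/
def twist (P : Place ℂ M) (σ : M →ₐ[F] M) : Place ℂ M where
  ord f := P.ord (σ f)
  ord_zero := by rw [map_zero, P.ord_zero]
  ord_mul := fun {f g} hf hg => by
    rw [map_mul, P.ord_mul ((map_ne_zero_iff σ σ.toRingHom.injective).2 hf)
      ((map_ne_zero_iff σ σ.toRingHom.injective).2 hg)]
  ord_add := fun {f g} hf hg hfg => by
    rw [map_add]
    refine P.ord_add ((map_ne_zero_iff σ σ.toRingHom.injective).2 hf)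
      ((map_ne_zero_iff σ σ.toRingHom.injective).2 hg) ?_
    rw [← map_add]
    exact (map_ne_zero_iff σ σ.toRingHom.injective).2 hfg
  ord_const := fun {c} hc => by
    have h1 : σ (algebraMap ℂ M c) = algebraMap ℂ M c := by
      rw [IsScalarTower.algebraMap_apply ℂ F M, σ.commutes]
    rw [h1]
    exact P.ord_const hc
  surj := by
    obtain ⟨t, ht, h1⟩ := P.surj
    obtain ⟨u, rfl⟩ := (AlgHom.bijective σ).2 t
    exact ⟨u, fun h0 => ht (by rw [h0, map_zero]), h1⟩

theorem twist_ord (P : Place ℂ M) (σ : M →ₐ[F] M) (f : M) : (twist P σ).ord f = P.ord (σ f) := rfl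

theorem prod_le {P : Place ℂ M} {ι : Type} (s : Finset ι) {f : ι → M}
    (h : ∀ i ∈ s, ¬ Ge P 1 (f i)) : ¬ Ge P 1 (∏ i ∈ s, f i) := by
  classical
  induction s using Finset.induction_on with
  | empty =>
    rw [Finset.prod_empty]
    rintro (h1 | h1)
    · exact one_ne_zero h1
    · rw [P.ord_one] at h1
      omega
  | insert i s hi ih =>
    rw [Finset.prod_insert hi]
    have h1 := h i (Finset.mem_insert_self i s)
    have h2 := ih fun j hj => h j (Finset.mem_insert_of_mem hj)
    unfold Ge at h1 h2 ⊢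
    push Not at h1 h2 ⊢
    refine ⟨mul_ne_zero h1.1 h2.1, ?_⟩
    rw [P.ord_mul h1.1 h2.1]
    omega

/-- **The places over a given place where the root has a given value.** -/
theorem exists_root_place (hN : 0 < N) (hx : x ^ N = algebraMap F M a)
    (htop : IntermediateField.adjoin F {x} = ⊤) (hfin : Module.finrank F M = N) {ζ : ℂ}
    (hζ : ζ ^ N = -1) {P₀ : Place ℂ F} (ha : Ge P₀ 1 (a + 1)) :
    ∃ (P : Place ℂ M) (e : ℕ), Over P P₀ e ∧ Ge P 1 (x - algebraMap ℂ M ζ) := by
  obtain ⟨P, e, hP⟩ := exists_above (L := M) P₀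
  obtain ⟨ξ, hξ⟩ : ∃ ξ : ℂ, IsPrimitiveRoot ξ N := ⟨_, Complex.isPrimitiveRoot_exp N hN.ne'⟩
  have hξM : IsPrimitiveRoot (algebraMap ℂ M ξ) N :=
    hξ.map_of_injective (algebraMap ℂ M).injective
  have h1 : Ge P 1 (x ^ N - (algebraMap ℂ M ζ) ^ N) := by
    have h2 : x ^ N - (algebraMap ℂ M ζ) ^ N = algebraMap F M (a + 1) := by
      rw [hx, ← map_pow, hζ, map_add, map_one, map_neg, map_one]
      ring
    rw [h2]
    rcases ha with h3 | h3
    · left
      rw [h3, map_zero]
    · right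
      rw [hP.2]
      have h4 : (1 : ℤ) ≤ e := by exact_mod_cast hP.1
      nlinarith
  obtain ⟨η, hη, hηP⟩ : ∃ η ∈ nthRootsFinset N (1 : M), Ge P 1 (x - η * algebraMap ℂ M ζ) := by
    by_contra hcon
    push Not at hcon
    refine prod_le _ hcon ?_
    rwa [← hξM.pow_sub_pow_eq_prod_sub_mul _ _ hN]
  rw [mem_nthRootsFinset hN] at hη
  have hN' : NeZero N := ⟨hN.ne'⟩
  obtain ⟨i, -, hi⟩ := hξM.eq_pow_of_pow_eq_one hη
  obtain ⟨η', hη'⟩ : ∃ η', η' = ξ ^ i := ⟨_, rfl⟩
  have hη1 : algebraMap ℂ M η' = η := by rw [hη', map_pow, hi]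
  have hη0 : η' ≠ 0 := by
    rw [hη']
    exact pow_ne_zero _ (hξ.ne_zero hN.ne')
  have hηN : η'⁻¹ ^ N = 1 := by
    rw [hη', inv_pow, ← pow_mul, mul_comm, pow_mul, hξ.pow_eq_one, one_pow, inv_one]
  obtain ⟨σ, hσ⟩ := kum_aut hN hx htop hfin hηN
  refine ⟨twist P σ, e, ⟨hP.1, fun f => ?_⟩, ?_⟩
  · rw [twist_ord, σ.commutes, hP.2]
  · have h3 : σ (x - algebraMap ℂ M ζ) = algebraMap ℂ M η'⁻¹ * (x - η * algebraMap ℂ M ζ) := by
      have h4 : σ (algebraMap ℂ M ζ) = algebraMap ℂ M ζ := by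
        rw [IsScalarTower.algebraMap_apply ℂ F M, σ.commutes]
      have h5 : algebraMap ℂ M η' ≠ 0 := by rwa [Ne, map_eq_zero]
      rw [map_sub, hσ, h4, ← hη1, map_inv₀]
      field_simp
    have h4 : Ge P 1 (σ (x - algebraMap ℂ M ζ)) := by
      rw [h3]
      have := (Ge.const (P := P) η'⁻¹).mul hηP
      rwa [zero_add] at this
    rcases h4 with h5 | h5
    · left
      exact (map_eq_zero_iff σ σ.toRingHom.injective).1 h5
    · right
      exact h5

end cyc

section res

variable {K F M : Type} [Field K] [Field F] [Field M] [Algebra ℂ K] [Algebra ℂ F] [Algebra ℂ M]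
  [Algebra K F] [Algebra F M] [Algebra K M] [IsScalarTower ℂ K F] [IsScalarTower ℂ F M]
  [IsScalarTower ℂ K M] [IsScalarTower K F M] [FiniteDimensional F M] {r : ℕ}

/-- the place `P` has its centre at the point where the variables vanish and the root is `ζ` -/
structure GoodAt (A : Subalgebra ℂ K) (Z : Fin r → M) (x : M) (ζ : ℂ) (P : Place ℂ M) : Prop where
  reg : ∀ c ∈ A, P.Reg (algebraMap K M c)
  var : ∀ p, Ge P 1 (Z p)
  root : Ge P 1 (x - algebraMap ℂ M ζ)

variable {A : Subalgebra ℂ K} {t : Fin r → F} {Z : Fin r → M} {x : M} {ζ : ℂ}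

/-- the element has a residue -/
def HasRes (A : Subalgebra ℂ K) (Z : Fin r → M) (x : M) (ζ : ℂ) (u : M) : Prop :=
  ∃ κ ∈ A, ∀ P, GoodAt A Z x ζ P → Ge P 1 (u - algebraMap K M κ)

theorem HasRes.add {u v : M} (hu : HasRes A Z x ζ u) (hv : HasRes A Z x ζ v) :
    HasRes A Z x ζ (u + v) := by
  obtain ⟨κ, hκ, h1⟩ := hu
  obtain ⟨κ', hκ', h2⟩ := hv
  refine ⟨κ + κ', A.add_mem hκ hκ', fun P hP => ?_⟩
  have h3 := (h1 P hP).add (h2 P hP)
  have h4 : u + v - algebraMap K M (κ + κ') =
      u - algebraMap K M κ + (v - algebraMap K M κ') := by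
    rw [map_add]
    ring
  rwa [h4]

theorem HasRes.mul {u v : M} (hu : HasRes A Z x ζ u) (hv : HasRes A Z x ζ v) :
    HasRes A Z x ζ (u * v) := by
  obtain ⟨κ, hκ, h1⟩ := hu
  obtain ⟨κ', hκ', h2⟩ := hv
  refine ⟨κ * κ', A.mul_mem hκ hκ', fun P hP => ?_⟩
  have h0 : Ge P 0 u := by
    have h3 := ((h1 P hP).mono (show (0 : ℤ) ≤ 1 by norm_num)).add (hP.reg κ hκ)
    rwa [sub_add_cancel] at h3
  have h3 := h0.mul (h2 P hP)
  have h4 := (h1 P hP).mul (show Ge P 0 (algebraMap K M κ') from hP.reg κ' hκ')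
  rw [zero_add] at h3
  rw [add_zero] at h4
  have h5 : u * v - algebraMap K M (κ * κ') =
      u * (v - algebraMap K M κ') + (u - algebraMap K M κ) * algebraMap K M κ' := by
    rw [map_mul]
    ring
  rw [h5]
  exact h3.add h4

theorem HasRes.base {c : K} (hc : c ∈ A) : HasRes A Z x ζ (algebraMap K M c) :=
  ⟨c, hc, fun P _ => by rw [sub_self]; exact Ge.zero⟩

theorem HasRes.ring (hZ : ∀ p, Z p = algebraMap F M (t p)) {c : F} (hc : c ∈ RR A t) :
    HasRes A Z x ζ (algebraMap F M c) := by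
  induction hc using Algebra.adjoin_induction with
  | mem y hy =>
    rcases hy with ⟨a, ha, rfl⟩ | ⟨p, rfl⟩
    · rw [← IsScalarTower.algebraMap_apply K F M]
      exact HasRes.base ha
    · refine ⟨0, A.zero_mem, fun P hP => ?_⟩
      rw [map_zero, sub_zero, ← hZ]
      exact hP.var p
  | algebraMap z =>
    rw [← IsScalarTower.algebraMap_apply ℂ F M, IsScalarTower.algebraMap_apply ℂ K M]
    exact HasRes.base (A.algebraMap_mem z)
  | add y y' _ _ h h' =>
    rw [map_add]
    exact h.add h'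
  | mul y y' _ _ h h' =>
    rw [map_mul]
    exact h.mul h'

theorem HasRes.root : HasRes A Z x ζ x := by
  refine ⟨algebraMap ℂ K ζ, A.algebraMap_mem ζ, fun P hP => ?_⟩
  rw [← IsScalarTower.algebraMap_apply ℂ K M]
  exact hP.root

theorem HasRes.adjoin (hZ : ∀ p, Z p = algebraMap F M (t p)) {u : M}
    (hu : u ∈ Algebra.adjoin (RR A t) {x}) : HasRes A Z x ζ u := by
  induction hu using Algebra.adjoin_induction with
  | mem y hy =>
    rw [Set.mem_singleton_iff.1 hy]
    exact HasRes.root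
  | algebraMap c => exact HasRes.ring hZ c.2
  | add y y' _ _ h h' => exact h.add h'
  | mul y y' _ _ h h' => exact h.mul h'

/-- **Residues of integral elements.** -/
theorem resid (hZ : ∀ p, Z p = algebraMap F M (t p)) {S₀ : Set (Place ℂ K)} (hA : CI A S₀) (ht : Gens (k := K) t) {N : ℕ} (hN : 0 < N)
    {a : F} (hx : x ^ N = algebraMap F M a) (haR : a ∈ RR A t)
    (htop : IntermediateField.adjoin F {x} = ⊤) (hfin : Module.finrank F M = N) (hζ : ζ ≠ 0)
    {b : M} (hb : IsIntegral (RR A t) b) : HasRes A Z x ζ b := by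
  have hR := RR_normal ht hA
  have hRf := RR_frac ht hA.frac
  have hK0 : CharZero K := charZero_of_injective_algebraMap (algebraMap ℂ K).injective
  have hM0 : CharZero M := charZero_of_injective_algebraMap (algebraMap ℂ M).injective
  obtain ⟨κ, hκ, h1⟩ := HasRes.adjoin (ζ := ζ) hZ (int_rep (RR A t) hN hx haR htop hfin hb)
  have hd : HasRes A Z x ζ ((N : M) * x ^ (N - 1)) := by
    refine HasRes.adjoin hZ (Subalgebra.mul_mem _ (natCast_mem _ N) (Subalgebra.pow_mem _ ?_ _))
    exact Algebra.subset_adjoin rfl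
  obtain ⟨c, hc⟩ : ∃ c : ℂ, c = ((N : ℂ) * ζ ^ (N - 1))⁻¹ := ⟨_, rfl⟩
  have hc0 : (N : ℂ) * ζ ^ (N - 1) ≠ 0 := mul_ne_zero (Nat.cast_ne_zero.2 hN.ne') (pow_ne_zero _ hζ)
  refine ⟨algebraMap ℂ K c * κ, A.mul_mem (A.algebraMap_mem c) hκ, fun P hP => ?_⟩
  have hxr : Ge P 1 (x - algebraMap ℂ M ζ) := hP.root
  have hx0 : Ge P 0 x := by
    have h3 := (hxr.mono (show (0 : ℤ) ≤ 1 by norm_num)).add (Ge.const (P := P) ζ)
    rwa [sub_add_cancel] at h3
  have hxpow : ∀ m : ℕ, Ge P 1 (x ^ m - (algebraMap ℂ M ζ) ^ m) := by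
    intro m
    induction m with
    | zero =>
      rw [pow_zero, pow_zero, sub_self]
      exact Ge.zero
    | succ m ih =>
      have h3 := hx0.mul ih
      have h4 := hxr.mul ((Ge.const (P := P) ζ).pow m)
      rw [zero_add] at h3
      rw [mul_zero, add_zero] at h4
      have h5 : x ^ (m + 1) - (algebraMap ℂ M ζ) ^ (m + 1) =
          x * (x ^ m - (algebraMap ℂ M ζ) ^ m) +
            (x - algebraMap ℂ M ζ) * (algebraMap ℂ M ζ) ^ m := by ring
      rw [h5]
      exact h3.add h4
  obtain ⟨g, hg⟩ : ∃ g : M, g = (N : M) * x ^ (N - 1) := ⟨_, rfl⟩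
  rw [← hg] at h1
  have hgc : Ge P 1 (g - algebraMap ℂ M ((N : ℂ) * ζ ^ (N - 1))) := by
    have h3 := (Ge.natCast (P := P) N).mul (hxpow (N - 1))
    rw [zero_add] at h3
    have h4 : g - algebraMap ℂ M ((N : ℂ) * ζ ^ (N - 1)) =
        (N : M) * (x ^ (N - 1) - (algebraMap ℂ M ζ) ^ (N - 1)) := by
      rw [hg, map_mul, map_natCast, map_pow]
      ring
    rw [h4]
    exact h3
  have hb0 : Ge P 0 b := by
    refine reg_of_int (R := RR A t) (fun a ha => ?_) hb
    obtain ⟨κ', hκ', h5⟩ := HasRes.ring (x := x) (ζ := ζ) hZ ha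
    have h3 := ((h5 P hP).mono (show (0 : ℤ) ≤ 1 by norm_num)).add (hP.reg κ' hκ')
    rwa [sub_add_cancel] at h3
  have h6 : b - algebraMap K M (algebraMap ℂ K c * κ) = algebraMap ℂ M c *
      ((g * b - algebraMap K M κ) - (g - algebraMap ℂ M ((N : ℂ) * ζ ^ (N - 1))) * b) := by
    have h7 : algebraMap ℂ M c * algebraMap ℂ M ((N : ℂ) * ζ ^ (N - 1)) = 1 := by
      rw [← map_mul, hc, inv_mul_cancel₀ hc0, map_one]
    rw [map_mul, ← IsScalarTower.algebraMap_apply ℂ K M]
    linear_combination (-b) * h7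
  rw [h6]
  have h8 := hgc.mul hb0
  rw [add_zero] at h8
  have h9 := (Ge.const (P := P) c).mul ((h1 P hP).sub h8)
  rwa [zero_add] at h9

end res

end Pool.Agent.H890
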