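import Pool.Agent.H890.Fo1
import Pool.Agent.H890.Res1

/-!
The components of the elements of a cyclic extension.
-/

set_option autoImplicit false
set_option linter.unusedSectionVars false
set_option linter.overlappingInstances false

open FF Polynomial Pool.Agent.W602.GT Pool.Agent.W603.LV Pool.Agent.Y172
  Pool.Agent.TH122.AB Pool.Agent.R887

namespace Pool.Agent.H890

section comp

variable {F M : Type} [Field F] [Field M] [Algebra ℂ F] [Algebra ℂ M] [Algebra F M]
  [IsScalarTower ℂ F M] [FiniteDimensional F M] {N : ℕ} {x : M} {a : F}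

/-- the components of the elements of `F(x)`, where `x ^ N` is in `F` -/
structure Cmp (x : M) (N : ℕ) (s : ℕ → M → F) : Prop where
  sum : ∀ h, (N : M) * h = ∑ i ∈ Finset.range N, algebraMap F M (s i h) * x ^ i
  lin : ∀ i < N, ∀ (b b' : F) (h h' : M), s i (algebraMap F M b * h + algebraMap F M b' * h') =
    b * s i h + b' * s i h'
  ge : ∀ (v : Place ℂ F) (c : ℕ → ℤ) (h : M), (∀ P e, Over P v e → Ge P (c e) h) →
    ∀ P e, Over P v e → ∀ i < N, Ge P (c e) (algebraMap F M (s i h) * x ^ i)

theorem sum_root {θ : ℂ} (hθ : θ ^ N = 1) (h1 : θ ≠ 1) : ∑ j ∈ Finset.range N, θ ^ j = 0 := by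
  have h2 := mul_neg_geom_sum θ N
  rw [hθ, sub_self] at h2
  exact (mul_eq_zero.1 h2).resolve_left (sub_ne_zero.2 h1.symm)

theorem exists_cmp (hN : 0 < N) (hx : x ^ N = algebraMap F M a) (ha : a ≠ 0)
    (htop : IntermediateField.adjoin F {x} = ⊤) (hfin : Module.finrank F M = N) :
    ∃ s : ℕ → M → F, Cmp x N s := by
  classical
  have hx0 : x ≠ 0 := by
    rintro rfl
    rw [zero_pow hN.ne'] at hx
    exact ha ((map_eq_zero _).1 hx.symm)
  obtain ⟨ζ, hζ⟩ : ∃ ζ : ℂ, IsPrimitiveRoot ζ N := ⟨_, Complex.isPrimitiveRoot_exp N hN.ne'⟩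
  have hζ0 : ζ ≠ 0 := hζ.ne_zero hN.ne'
  obtain ⟨σ, hσ⟩ := kum_aut hN hx htop hfin hζ.pow_eq_one
  have hσc : ∀ (j : ℕ) (c : ℂ), (σ ^ j) (algebraMap ℂ M c) = algebraMap ℂ M c := by
    intro j c
    rw [IsScalarTower.algebraMap_apply ℂ F M, AlgHom.commutes]
  have hσx : ∀ j : ℕ, (σ ^ j) x = algebraMap ℂ M (ζ ^ j) * x := by
    intro j
    induction j with
    | zero => rw [pow_zero, pow_zero, map_one, one_mul]; rfl
    | succ j ih =>
      rw [pow_succ, AlgHom.mul_apply, hσ, map_mul, hσc, ih, ← mul_assoc, ← map_mul, pow_succ,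
        mul_comm ζ]
  -- the components as elements of `M`
  obtain ⟨c, hc⟩ : ∃ c : ℕ → M → M, c = fun i h =>
    ∑ j ∈ Finset.range N, algebraMap ℂ M (ζ⁻¹ ^ (i * j)) * (σ ^ j) h := ⟨_, rfl⟩
  have hlin : ∀ (i : ℕ) (b b' : F) (h h' : M),
      c i (algebraMap F M b * h + algebraMap F M b' * h') =
        algebraMap F M b * c i h + algebraMap F M b' * c i h' := by
    intro i b b' h h'
    rw [hc]
    simp only [map_add, map_mul, AlgHom.commutes, Finset.mul_sum]
    rw [← Finset.sum_add_distrib]
    exact Finset.sum_congr rfl fun j _ => by ring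
  have hmon : ∀ i < N, ∀ (b : F) (k : ℕ), ∃ s : F, c i (algebraMap F M b * x ^ k) =
      algebraMap F M s * x ^ i := by
    intro i hi b k
    obtain ⟨θ, hθ⟩ : ∃ θ, θ = ζ⁻¹ ^ i * ζ ^ k := ⟨_, rfl⟩
    have h1 : c i (algebraMap F M b * x ^ k) =
        algebraMap F M b * x ^ k * algebraMap ℂ M (∑ j ∈ Finset.range N, θ ^ j) := by
      rw [hc]
      simp only [map_mul, map_pow, AlgHom.commutes, hσx, map_sum, Finset.mul_sum]
      refine Finset.sum_congr rfl fun j _ => ?_
      rw [hθ]
      simp only [map_mul, map_pow, map_inv₀]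
      ring
    by_cases hθ1 : θ = 1
    · have h2 : ζ ^ k = ζ ^ i := by
        rw [hθ, inv_pow, inv_mul_eq_one₀ (pow_ne_zero _ hζ0)] at hθ1
        exact hθ1.symm
      have h3 : k % N = i := by
        refine hζ.pow_inj (Nat.mod_lt _ hN) hi ?_
        rw [← h2]
        conv_rhs => rw [← Nat.div_add_mod k N, pow_add, pow_mul, hζ.pow_eq_one, one_pow, one_mul]
      refine ⟨b * a ^ (k / N) * (N : F), ?_⟩
      rw [h1, hθ1]
      simp only [one_pow, Finset.sum_const, Finset.card_range, nsmul_eq_mul, mul_one, map_natCast,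
        map_mul, map_pow, ← hx, ← pow_mul]
      have h4 : x ^ k = x ^ (N * (k / N)) * x ^ i := by
        rw [← pow_add]
        congr 1
        have := Nat.div_add_mod k N
        omega
      rw [h4]
      ring
    · refine ⟨0, ?_⟩
      have h2 : θ ^ N = 1 := by
        rw [hθ, mul_pow, ← pow_mul, ← pow_mul, mul_comm i, mul_comm k, pow_mul, pow_mul, inv_pow,
          hζ.pow_eq_one, inv_one, one_pow, one_pow, one_mul]
      rw [h1, sum_root h2 hθ1, map_zero, mul_zero, map_zero, zero_mul]
  have hex : ∀ (i : ℕ) (h : M), ∃ s : F, i < N → c i h = algebraMap F M s * x ^ i := by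
    intro i h
    by_cases hi : i < N
    · obtain ⟨p, rfl⟩ := gen_of_top (Algebra.IsIntegral.isIntegral x) htop h
      have hadd : ∀ u w : M, c i (u + w) = c i u + c i w := fun u w => by
        have := hlin i 1 1 u w
        rwa [map_one, one_mul, one_mul, one_mul, one_mul] at this
      induction p using Polynomial.induction_on' with
      | add p q hp hq =>
        obtain ⟨s, hs⟩ := hp
        obtain ⟨s', hs'⟩ := hq
        exact ⟨s + s', fun hi => by rw [map_add, hadd, hs hi, hs' hi, map_add, add_mul]⟩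
      | monomial k b =>
        obtain ⟨s, hs⟩ := hmon i hi b k
        exact ⟨s, fun _ => by rw [aeval_monomial, hs]⟩
    · exact ⟨0, fun h => absurd h hi⟩
  choose s hs using hex
  refine ⟨s, fun h => ?_, fun i hi b b' h h' => ?_, fun v w h hb P e hP i hi => ?_⟩
  · rw [Finset.sum_congr rfl fun i hi => (hs i h (Finset.mem_range.1 hi)).symm, hc]
    simp only
    rw [Finset.sum_comm]
    have h1 : ∀ j ∈ Finset.range N, ∑ i ∈ Finset.range N, algebraMap ℂ M (ζ⁻¹ ^ (i * j)) *
        (σ ^ j) h = if j = 0 then (N : M) * h else 0 := by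
      intro j hj
      rw [← Finset.sum_mul, ← map_sum]
      by_cases hj0 : j = 0
      · rw [if_pos hj0, hj0]
        simp
      · rw [if_neg hj0]
        have h2 : ∑ i ∈ Finset.range N, ζ⁻¹ ^ (i * j) = ∑ i ∈ Finset.range N, (ζ⁻¹ ^ j) ^ i :=
          Finset.sum_congr rfl fun i _ => by rw [← pow_mul, mul_comm]
        rw [h2, sum_root, map_zero, zero_mul]
        · rw [← pow_mul, mul_comm, pow_mul, inv_pow, hζ.pow_eq_one, inv_one, one_pow]
        · intro h3
          rw [inv_pow, inv_eq_one] at h3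
          have h4 := Nat.le_of_dvd (Nat.pos_of_ne_zero hj0) (hζ.dvd_of_pow_eq_one j h3)
          have := Finset.mem_range.1 hj
          omega
    rw [Finset.sum_congr rfl h1, Finset.sum_ite_eq' (Finset.range N) 0,
      if_pos (Finset.mem_range.2 hN)]
  · have h1 := hs i (algebraMap F M b * h + algebraMap F M b' * h') hi
    rw [hlin, hs i h hi, hs i h' hi] at h1
    have h2 : algebraMap F M (b * s i h + b' * s i h') * x ^ i =
        algebraMap F M (s i (algebraMap F M b * h + algebraMap F M b' * h')) * x ^ i := by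
      rw [← h1, map_add, map_mul, map_mul]
      ring
    exact ((algebraMap F M).injective (mul_right_cancel₀ (pow_ne_zero _ hx0) h2)).symm
  · rw [← hs i h hi, hc]
    refine Ge.sum (P := P) _ _ fun j _ => ?_
    have h1 : Ge P (w e) ((σ ^ j) h) := by
      have h2 := hb (twist P (σ ^ j)) e ⟨hP.1, fun f => by
        rw [twist_ord, AlgHom.commutes, hP.2]⟩
      rcases h2 with h2 | h2
      · left
        rw [h2, map_zero]
      · right
        exact h2
    have h2 := (Ge.const (P := P) (ζ⁻¹ ^ (i * j))).mul h1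
    rwa [zero_add] at h2

end comp

end Pool.Agent.H890
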