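import Pool.Agent.H890.CaI
import Pool.Agent.H890.CaKr
import Pool.Agent.H890.Fo2
import Pool.Agent.H890.Cstr2

set_option autoImplicit false
set_option linter.unusedSectionVars false
set_option linter.overlappingInstances false

open FF MvPolynomial Pool.Agent.W602.GT Pool.Agent.W603.LV Pool.Agent.Y172
  Pool.Agent.TH122.AB Pool.Agent.R887

namespace Pool.Agent.H890

section

variable {K L M : Type} [Field K] [Field L] [Field M] [Algebra ℂ K] [Algebra ℂ L]
  [Algebra ℂ M] [Algebra K L] [Algebra L M] [Algebra K M] [IsScalarTower ℂ K L]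
  [IsScalarTower ℂ L M] [IsScalarTower ℂ K M] [IsScalarTower K L M] [FiniteDimensional L M]
  {N : ℕ} {y : Fin (N + 1) → K} {n r : ℕ} {G : Place ℂ K → ℤ}
  {S : Mod K L M y n r G} {b : ℕ} {z : M}

namespace CvS

/-- the variables -/
noncomputable def tt (S : Mod K L M y n r G) (gg : Fin (r + 1) → K) (p : Fin r) : L :=
  ts S.l 1 p * algebraMap K L (gg p.succ / gg 0)

/-- local equations at the centre of `Q` -/
structure GG (S : Mod K L M y n r G) (Q : Place ℂ K) (gg : Fin (r + 1) → K) : Prop where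
  ne : ∀ i, gg i ≠ 0
  ord : ∀ i, ∀ D, IsPrimeDivisor y D → Through y D Q → ∀ j, Centred y j D →
    D.ord (gg i) = S.c * D.ord (y j) - S.wt i.castSucc * G D

/-- places with centre on the section -/
structure Gd (A : Subalgebra ℂ K) (τ : Fin r → L) (P : Place ℂ M) : Prop where
  reg : ∀ c ∈ A, P.Reg (algebraMap K M c)
  var : ∀ p, Ge P 1 (algebraMap L M (τ p))

theorem tt_gens (S : Mod K L M y n r G) {gg : Fin (r + 1) → K} (hg : ∀ i, gg i ≠ 0) :
    Gens (k := K) (tt S gg) := by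
  refine gens_change S.gens fun p => ?_
  have h1 : ts S.l 1 p = tt S gg p * algebraMap K L (gg p.succ / gg 0)⁻¹ := by
    unfold tt
    rw [mul_assoc, ← map_mul, mul_inv_cancel₀ (div_ne_zero (hg _) (hg _)), map_one, mul_one]
  rw [h1]
  exact mul_mem (IntermediateField.subset_adjoin K _ ⟨p, rfl⟩)
    (IntermediateField.algebraMap_mem _ _)

/-- the quotients of the sections are polynomials -/
theorem quot_mem {gg : Fin (r + 1) → K} (hg : ∀ i, gg i ≠ 0) {A : Subalgebra ℂ K}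
    (hf : ∀ i, ∀ f ∈ S.F i, f / gg i ∈ A) {c : Fin (S.s + 1)}
    (hu : S.u c = S.l 0 * algebraMap K L (gg 0)) (c' : Fin (S.s + 1)) :
    S.u c' / S.u c ∈ RR A (tt S gg) := by
  obtain ⟨i, f', hf', hu'⟩ := S.u_eq c'
  have h0 := hf i f' hf'
  have hl0 : S.l 0 ≠ 0 := S.sys.ne _
  have hg0 : algebraMap K L (gg 0) ≠ 0 := by
    rw [Ne, map_eq_zero]
    exact hg 0
  revert i
  refine Fin.cases ?_ fun p => ?_
  · intro hf' hu' h0
    have h1 : S.u c' / S.u c = algebraMap K L (f' / gg 0) := by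
      rw [hu', hu, map_div₀]
      change S.l 0 * _ / _ = _
      rw [mul_div_mul_left _ _ hl0]
    rw [h1]
    exact RR_base h0
  · intro hf' hu' h0
    have hgp : algebraMap K L (gg p.succ) ≠ 0 := by
      rw [Ne, map_eq_zero]
      exact hg _
    have h1 : S.u c' / S.u c = tt S gg p * algebraMap K L (f' / gg p.succ) := by
      unfold tt ts
      rw [hu', hu, map_div₀, map_div₀]
      change _ = S.l p.succ.castSucc / S.l 0 * _ * _
      field_simp
    rw [h1]
    exact (RR A (tt S gg)).mul_mem (RR_var p) (RR_base h0)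

theorem chart_le {gg : Fin (r + 1) → K} (hg : ∀ i, gg i ≠ 0) {A : Subalgebra ℂ K}
    (hf : ∀ i, ∀ f ∈ S.F i, f / gg i ∈ A) {c : Fin (S.s + 1)}
    (hu : S.u c = S.l 0 * algebraMap K L (gg 0)) : chart S.u c ≤ RR A (tt S gg) := by
  apply Algebra.adjoin_le
  rintro _ ⟨c', rfl⟩
  exact quot_mem hg hf hu c'

theorem GG.quot {Q : Place ℂ K} {gg : Fin (r + 1) → K} (hG : GG S Q gg) (i : Fin (r + 1)) {f : K}
    (hf : f ∈ S.F i) : f / gg i ∈ lsub y Q := by
  intro D hD hDQ
  right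
  obtain ⟨j, hj⟩ := exists_centred S.ny D
  have h1 := (S.fam i).low D hD j hj f hf
  rw [D.ord_div ((S.fam i).ne f hf) (hG.ne i), hG.ord i D hD hDQ j hj]
  linarith

theorem Gd.ring {A : Subalgebra ℂ K} {τ : Fin r → L} {P : Place ℂ M} (hP : Gd A τ P) :
    ∀ x ∈ RR A τ, P.Reg (algebraMap L M x) := by
  intro x hx
  induction hx using Algebra.adjoin_induction with
  | mem x hx =>
    rcases hx with ⟨c, hc, rfl⟩ | ⟨p, rfl⟩
    · rw [← IsScalarTower.algebraMap_apply]
      exact hP.reg c hc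
    · exact (hP.var p).mono (show (0 : ℤ) ≤ 1 by norm_num)
  | algebraMap z =>
    rw [← IsScalarTower.algebraMap_apply]
    exact P.reg_const z
  | add x y _ _ hx hy =>
    rw [map_add]
    exact P.reg_add hx hy
  | mul x y _ _ hx hy =>
    rw [map_mul]
    exact P.reg_mul hx hy

theorem Gd.mono {A B : Subalgebra ℂ K} (hAB : A ≤ B) {τ : Fin r → L} {P : Place ℂ M}
    (hP : Gd B τ P) : Gd A τ P := ⟨fun c hc => hP.reg c (hAB hc), hP.var⟩

theorem Gd.cen {gg : Fin (r + 1) → K} (hg : ∀ i, gg i ≠ 0) {A : Subalgebra ℂ K}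
    (hf : ∀ i, ∀ f ∈ S.F i, f / gg i ∈ A) {c : Fin (S.s + 1)}
    (hu : S.u c = S.l 0 * algebraMap K L (gg 0)) {P : Place ℂ M} (hP : Gd A (tt S gg) P) :
    S.Cen c P := by
  intro c'
  have h1 := hP.ring _ (quot_mem hg hf hu c')
  rw [map_div₀] at h1
  have h2 := (P.reg_iff (div_ne_zero (S.uM_ne c') (S.uM_ne c))).1 h1
  rw [P.ord_div (S.uM_ne c') (S.uM_ne c)] at h2
  linarith

/-- changing the local equations -/
theorem GG.change {Q : Place ℂ K} {gg gg' : Fin (r + 1) → K} (hG : GG S Q gg) (hG' : GG S Q gg')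
    {P : Place ℂ M} (hP : Gd (lsub y Q) (tt S gg) P) : Gd (lsub y Q) (tt S gg') P := by
  refine ⟨hP.reg, fun p => ?_⟩
  have h0 : ∀ i, ∀ D, IsPrimeDivisor y D → Through y D Q → D.ord (gg i) = D.ord (gg' i) := by
    intro i D hD hDQ
    obtain ⟨j, hj⟩ := exists_centred S.ny D
    rw [hG.ord i D hD hDQ j hj, hG'.ord i D hD hDQ j hj]
  have h1 : (gg' p.succ / gg' 0) / (gg p.succ / gg 0) ∈ lsub y Q := by
    intro D hD hDQ
    right
    rw [D.ord_div (div_ne_zero (hG'.ne _) (hG'.ne _)) (div_ne_zero (hG.ne _) (hG.ne _)),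
      D.ord_div (hG'.ne _) (hG'.ne _), D.ord_div (hG.ne _) (hG.ne _), h0 _ D hD hDQ,
      h0 _ D hD hDQ, sub_self]
  have h2 : algebraMap L M (tt S gg' p) = algebraMap L M (tt S gg p) *
      algebraMap K M ((gg' p.succ / gg' 0) / (gg p.succ / gg 0)) := by
    rw [IsScalarTower.algebraMap_apply K L M, ← map_mul]
    congr 1
    unfold tt
    rw [mul_assoc, ← map_mul]
    congr 2
    have := hG.ne 0
    have := hG.ne p.succ
    field_simp
  rw [h2]
  have h3 := (hP.var p).mul (show Ge P 0 _ from hP.reg _ h1)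
  rwa [add_zero] at h3

/-- the place along a variable -/
theorem exists_v (h : Cov S b z) (hr : 0 < r) {gg : Fin (r + 1) → K} (hg : ∀ i, gg i ≠ 0) :
    ∃ v : Place K L, (∀ F : MvPolynomial (Fin r) K, F ≠ 0 → ¬ (X (⟨0, hr⟩ : Fin r) ∣ F) →
      v.ord (aeval (tt S gg) F) = 0) ∧
      (v.ord (∏ k, S.l k ^ sg k) = 1 ∨ v.ord (∏ k, S.l k ^ sg k) = -1) := by
  classical
  have hgens := tt_gens S hg
  obtain ⟨p0, hp0⟩ : ∃ p0 : Fin r, p0 = ⟨0, hr⟩ := ⟨_, rfl⟩
  rw [← hp0]
  obtain ⟨v, hv1, hv2⟩ := exists_adic hgens (X_prime (R := K) (i := p0)).irreducible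
  rw [aeval_X] at hv1
  have hgq : ∀ p : Fin r, gg p.succ / gg 0 ≠ 0 := fun p => div_ne_zero (hg _) (hg _)
  have hgo : ∀ p : Fin r, v.ord (algebraMap K L (gg p.succ / gg 0)) = 0 := fun p =>
    v.ord_const (hgq p)
  have hgL : ∀ p : Fin r, algebraMap K L (gg p.succ / gg 0) ≠ 0 := fun p => by
    rw [Ne, map_eq_zero]
    exact hgq p
  have htt : ∀ p, v.ord (tt S gg p) = v.ord (ts S.l 1 p) := fun p => by
    unfold tt
    rw [v.ord_mul (S.sys.ts_ne 1 p) (hgL p), hgo, add_zero]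
  have ht : ∀ p, v.ord (ts S.l 1 p) = if p = p0 then 1 else 0 := by
    intro p
    rw [← htt]
    by_cases hp : p = p0
    · rw [if_pos hp, hp, hv1]
    · rw [if_neg hp]
      have h1 := (hv2 (X p) (X_ne_zero p)).2.2 (fun h1 => hp (X_dvd_X.1 h1).symm)
      rwa [aeval_X] at h1
  have hlast : v.ord (S.l (Fin.last (r + 1)) / S.l 0) = 0 := by
    have h1 := S.sys.one_add 1
    have h2 : S.l (Fin.last (r + 1)) / S.l 0 = - aeval (tt S gg)
        (1 + ∑ p, C (gg p.succ / gg 0)⁻¹ * X p : MvPolynomial (Fin r) K) := by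
      rw [map_add, map_one, map_sum]
      have h3 : ∀ p : Fin r, aeval (tt S gg) (C (gg p.succ / gg 0)⁻¹ * X p :
          MvPolynomial (Fin r) K) = ts S.l 1 p := by
        intro p
        rw [map_mul, aeval_C, aeval_X]
        unfold tt
        rw [mul_comm, mul_assoc, ← map_mul, mul_inv_cancel₀ (hgq p), map_one, mul_one]
      rw [Finset.sum_congr rfl fun p _ => h3 p, h1, neg_neg]
      rfl
    have h3 : constantCoeff (1 + ∑ p, C (gg p.succ / gg 0)⁻¹ * X p : MvPolynomial (Fin r) K) =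
        1 := by
      rw [map_add, map_one, map_sum]
      simp
    have h4 : ¬ (X p0 : MvPolynomial (Fin r) K) ∣ (1 + ∑ p, C (gg p.succ / gg 0)⁻¹ * X p) := by
      rintro ⟨F, hF⟩
      rw [hF, map_mul, constantCoeff_X, zero_mul] at h3
      exact zero_ne_one h3
    have h5 : (1 + ∑ p, C (gg p.succ / gg 0)⁻¹ * X p : MvPolynomial (Fin r) K) ≠ 0 := by
      intro h5
      rw [h5, map_zero] at h3
      exact zero_ne_one h3
    rw [h2, v.ord_neg]
    exact (hv2 _ h5).2.2 h4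
  have ho : ∀ k, v.ord (S.l k) - v.ord (S.l 0) = if k = p0.succ.castSucc then 1 else 0 := by
    intro k
    by_cases hk0 : k = 0
    · rw [hk0, sub_self, if_neg]
      intro h3
      have h4 := congrArg Fin.val h3
      simp only [Fin.val_zero, Fin.val_castSucc, Fin.val_succ] at h4
      omega
    by_cases hkl : k = Fin.last (r + 1)
    · rw [v.ord_div (S.sys.ne _) (S.sys.ne _)] at hlast
      rw [hkl, hlast, if_neg]
      intro h3
      have h4 := congrArg Fin.val h3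
      simp only [Fin.val_last, Fin.val_castSucc, Fin.val_succ] at h4
      omega
    obtain ⟨p, rfl⟩ := mid_of_ne hk0 hkl
    have h1 := ht p
    change v.ord (S.l p.succ.castSucc / S.l 0) = _ at h1
    rw [v.ord_div (S.sys.ne _) (S.sys.ne _)] at h1
    rw [h1]
    by_cases hp : p = p0
    · rw [if_pos hp, hp, if_pos rfl]
    · rw [if_neg hp, if_neg]
      intro h3
      apply hp
      have h4 := congrArg Fin.val h3
      simp only [Fin.val_castSucc, Fin.val_succ] at h4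
      exact Fin.ext (by omega)
  refine ⟨v, fun F hF hd => (hv2 F hF).2.2 hd, ?_⟩
  have h1 := h.phi_ord (restr v) 0
  simp only [restr_ord, ho] at h1
  rw [h1]
  simp only [mul_ite, mul_one, mul_zero, Finset.sum_ite_eq', Finset.mem_univ, if_true]
  exact sg_cases _

theorem top_eq (h : Cov S b z) : IntermediateField.adjoin L {z} = ⊤ := by
  rw [eq_top_iff]
  intro x _
  obtain ⟨p, hp⟩ := h.gen x
  rw [hp]
  exact IntermediateField.algebra_adjoin_le_adjoin L _ (Polynomial.aeval_mem_adjoin_singleton L z)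

theorem fin_eq (h : Cov S b z) (hr : 0 < r) : Module.finrank L M = r + 2 := by
  obtain ⟨v, -, hv⟩ := exists_v h hr (gg := fun _ => 1) fun _ => one_ne_zero
  obtain ⟨P, e, hP⟩ := exists_above (L := M) (restr v)
  have hz : ((r + 2 : ℕ) : ℤ) * P.ord z = e * v.ord (∏ k, S.l k ^ sg k) := by
    rw [← restr_ord v, ← hP.2, ← h.zN, P.ord_pow]
  have hdvd : ((r + 2 : ℕ) : ℤ) ∣ e := by
    rcases hv with h4 | h4
    · exact ⟨P.ord z, by rw [hz, h4, mul_one]⟩
    · exact ⟨- P.ord z, by rw [mul_neg, hz, h4]; ring⟩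
  have h4 : r + 2 ∣ e := by exact_mod_cast hdvd
  have h5 := Nat.le_of_dvd hP.1 h4
  have h6 := over_le hP
  have h7 := h.fin
  omega

/-- residues of the integral elements -/
theorem ires (h : Cov S b z) (hr : 0 < r) {gg : Fin (r + 1) → K} (hg : ∀ i, gg i ≠ 0)
    {A : Subalgebra ℂ K} {S₀ : Set (Place ℂ K)} (hA : CI A S₀)
    (hf : ∀ i, ∀ f ∈ S.F i, f / gg i ∈ A) {c : Fin (S.s + 1)}
    (hu : S.u c = S.l 0 * algebraMap K L (gg 0)) {x : M} (hx : x ∈ chart S.v (S.j c)) :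
    ∃ κ ∈ A, ∀ P : Place ℂ M, Gd A (tt S gg) P → Ge P 1 (x - algebraMap K M κ) := by
  obtain ⟨v, hv1, hv2⟩ := exists_v h hr hg
  obtain ⟨κ, hκ, h1⟩ := kum_res (tt_gens S hg) hA (Nat.succ_pos _) h.zN (phi_ne S.sys) (top_eq h)
    (fin_eq h hr) hv1 hv2 (int_mono (chart_le hg hf hu) ((S.chart_iff c x).1 hx))
  exact ⟨κ, hκ, fun P hP => h1 P hP.reg hP.var⟩

/-- **The places over the places of `K` with centre on the section.** -/
theorem exists_sec {gg : Fin (r + 1) → K} (hg : ∀ i, gg i ≠ 0) {Q : Place ℂ K}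
    (hQ : Divisorial n Q) (hn : 0 < n) {A : Subalgebra ℂ K} (hAQ : ∀ a ∈ A, Q.Reg a) :
    ∃ (P : Place ℂ M) (e : ℕ), Divisorial (n + r) P ∧ Over P Q e ∧ Gd A (tt S gg) P := by
  have hessK := S.essK
  have hgens := tt_gens S hg
  obtain ⟨π, hπ0, hπ⟩ := Q.surj
  obtain ⟨t', ht'⟩ : ∃ t' : Fin r → L, t' = fun p => tt S gg p * algebraMap K L π⁻¹ := ⟨_, rfl⟩
  have htt : ∀ p, tt S gg p = t' p * algebraMap K L π := fun p => by
    rw [ht']
    change tt S gg p = tt S gg p * _ * _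
    rw [mul_assoc, ← map_mul, inv_mul_cancel₀ hπ0, map_one, mul_one]
  have hgens' : Gens (k := K) t' := gens_change hgens fun p => by
    rw [htt]
    exact mul_mem (IntermediateField.subset_adjoin K _ ⟨p, rfl⟩)
      (IntermediateField.algebraMap_mem _ _)
  obtain ⟨P₀, hP₀⟩ := exists_gauss hgens' Q 0
  have hgs : IsGauss t' Q P₀ := hP₀
  have hreg : ∀ a ∈ A, P₀.Reg (algebraMap K L a) := fun a ha => by
    rcases hAQ a ha with h1 | h1
    · left
      rw [h1, map_zero]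
    · right
      rwa [hgs.base]
  have hvar : ∀ p, P₀.ord (tt S gg p) = 1 := fun p => by
    rw [htt, P₀.ord_mul (by
      rintro h0
      have h1 := hgens.ne (X_ne_zero p)
      rw [aeval_X, htt, h0, zero_mul] at h1
      exact h1 rfl) (by rwa [Ne, map_eq_zero]), hgs.var, hgs.base, hπ, zero_add]
  obtain ⟨P, e, hP⟩ := exists_above (L := M) P₀
  have he : (1 : ℤ) ≤ e := by exact_mod_cast hP.1
  refine ⟨P, e, divisorial_up hP (hgs.divisorial hgens' hn hQ), ⟨hP.1, fun f => ?_⟩,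
    fun a ha => ?_, fun p => ?_⟩
  · rw [IsScalarTower.algebraMap_apply K L M, hP.2, hgs.base]
  · rw [IsScalarTower.algebraMap_apply K L M]
    exact hP.reg.2 (hreg a ha)
  · right
    rw [hP.2, hvar, mul_one]
    exact he

/-- **The place at the generic point of the section.** -/
theorem exists_gen (S : Mod K L M y n r G) (hr : 0 < r) : ∃ W : Place ℂ M,
    (∀ f : K, W.ord (algebraMap K M f) = 0) ∧ ∀ p, Ge W 1 (algebraMap L M (ts S.l 1 p)) := by
  have hgens := S.gens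
  obtain ⟨p0, hp0⟩ : ∃ p0 : Fin r, p0 = ⟨0, hr⟩ := ⟨_, rfl⟩
  obtain ⟨t, ht⟩ : ∃ t : Fin r → L, t = ts S.l 1 := ⟨_, rfl⟩
  rw [← ht] at hgens
  have htne : ∀ p, t p ≠ 0 := fun p => by
    have h1 := hgens.ne (X_ne_zero p)
    rwa [aeval_X] at h1
  obtain ⟨u, hu⟩ : ∃ u : Fin r → L, u = fun p => if p = p0 then t p0 else t p / t p0 := ⟨_, rfl⟩
  have hu0 : u p0 = t p0 := by rw [hu]; exact if_pos rfl
  have hup : ∀ p, p ≠ p0 → t p = u p * u p0 := fun p hp => by
    rw [hu0, hu]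
    change t p = (if p = p0 then t p0 else t p / t p0) * t p0
    rw [if_neg hp]
    have := htne p0
    field_simp
  have hgens' : Gens (k := K) u := gens_change hgens fun p => by
    have h1 : ∀ p, u p ∈ IntermediateField.adjoin K (Set.range u) := fun p =>
      IntermediateField.subset_adjoin K _ ⟨p, rfl⟩
    by_cases hp : p = p0
    · rw [hp, ← hu0]
      exact h1 _
    · rw [hup p hp]
      exact mul_mem (h1 _) (h1 _)
  obtain ⟨v, hv1, hv2⟩ := exists_adic hgens' (X_prime (R := K) (i := p0)).irreducible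
  rw [aeval_X] at hv1
  have hvt : ∀ p, v.ord (t p) = 1 := by
    intro p
    by_cases hp : p = p0
    · rw [hp, ← hu0, hv1]
    · have h1 := (hv2 (X p) (X_ne_zero p)).2.2 (fun h1 => hp (X_dvd_X.1 h1).symm)
      rw [aeval_X] at h1
      have h2 : u p ≠ 0 := fun h0 => htne p (by rw [hup p hp, h0, zero_mul])
      have h3 : u p0 ≠ 0 := by rw [hu0]; exact htne p0
      rw [hup p hp, v.ord_mul h2 h3, h1, hv1, zero_add]
  obtain ⟨P, e, hP⟩ := exists_above (L := M) (restr v)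
  have he : (1 : ℤ) ≤ e := by exact_mod_cast hP.1
  refine ⟨P, fun f => ?_, fun p => ?_⟩
  · rw [IsScalarTower.algebraMap_apply K L M, hP.2, restr_triv, mul_zero]
  · right
    rw [← ht, hP.2, restr_ord, hvt, mul_one]
    exact he

theorem gen_good (S : Mod K L M y n r G) {W : Place ℂ M}
    (hW : ∀ f : K, W.ord (algebraMap K M f) = 0) (hWt : ∀ p, Ge W 1 (algebraMap L M (ts S.l 1 p)))
    (A : Subalgebra ℂ K) (gg : Fin (r + 1) → K) : Gd A (tt S gg) W := by
  refine ⟨fun c _ => Or.inr (hW c).ge, fun p => ?_⟩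
  have h1 := (hWt p).mul (show Ge W 0 (algebraMap K M (gg p.succ / gg 0)) from
    Or.inr (hW _).ge)
  rw [add_zero, IsScalarTower.algebraMap_apply K L M, ← map_mul] at h1
  exact h1

/-- **Residues of the functions in the local rings.** -/
theorem lres (h : Cov S b z) (hr : 0 < r) {Q : Place ℂ K} {gg : Fin (r + 1) → K}
    (hG : GG S Q gg) {c : Fin (S.s + 1)} (hu : S.u c = S.l 0 * algebraMap K L (gg 0))
    {P : Place ℂ M} (hP : Gd (lsub y Q) (tt S gg) P) {e : ℕ} (hPQ : Over P Q e)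
    {x : M} (hx : x ∈ localRing S.v P) : ∃ κ ∈ lsub y Q, ∀ P' : Place ℂ M,
      Gd (lsub y Q) (tt S gg) P' →
      (∀ μ ∈ lsub y Q, μ ≠ 0 → Q.ord μ = 0 → P'.ord (algebraMap K M μ) = 0) →
      x ∈ localRing S.v P' ∧ Ge P' 1 (x - algebraMap K M κ) := by
  have hf : ∀ i, ∀ f ∈ S.F i, f / gg i ∈ lsub y Q := fun i f hf => hG.quot i hf
  have hc := hP.cen hG.ne hf hu
  obtain ⟨a, ha, b', hb', hb0, hbo, hab⟩ := (mem_localRing hc.centred).1 hx
  obtain ⟨κ₁, hκ₁, h1⟩ := ires h hr hG.ne (lsub_ci S.ny Q) hf hu ha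
  obtain ⟨κ₂, hκ₂, h2⟩ := ires h hr hG.ne (lsub_ci S.ny Q) hf hu hb'
  have h3 := (h2 P hP).neg
  rw [neg_sub] at h3
  obtain ⟨h4, h5⟩ := ge_unit h3 hb0 hbo
  have hκ0 : κ₂ ≠ 0 := by
    rintro rfl
    exact h4 (map_zero _)
  have hκQ : Q.ord κ₂ = 0 := by
    rw [hPQ.2] at h5
    rcases mul_eq_zero.1 h5 with h6 | h6
    · have := hPQ.1
      omega
    · exact h6
  refine ⟨κ₁ * κ₂⁻¹, (lsub y Q).mul_mem hκ₁ (lsub_inv S.ny hκ₂ hκ0 hκQ), fun P' hP' hunit => ?_⟩
  have h6 := hunit κ₂ hκ₂ hκ0 hκQ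
  obtain ⟨h7, h8⟩ := ge_unit (h2 P' hP') h4 h6
  refine ⟨⟨S.j c, (hP'.cen hG.ne hf hu).centred, a, ha, b', hb', hb0, h8, hab⟩, ?_⟩
  have h9 : x = a / b' := by
    rw [← hab]
    field_simp
  rw [h9, map_mul, map_inv₀, ← div_eq_mul_inv]
  exact ge_div (h1 P' hP') (h2 P' hP') h4 h6 (hP'.reg κ₁ hκ₁)

/-- local equations exist -/
theorem exists_GG (S : Mod K L M y n r G) {Q : Place ℂ K} (hQ : Divisorial n Q) :
    ∃ (gg : Fin (r + 1) → K) (c : Fin (S.s + 1)), GG S Q gg ∧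
      S.u c = S.l 0 * algebraMap K L (gg 0) := by
  choose gg hgg hggD using fun i => (S.fam i).gen Q hQ
  obtain ⟨c, hc⟩ := S.exists_u 0 (hgg 0)
  refine ⟨gg, c, ⟨fun i => (S.fam i).ne _ (hgg i), fun i D hD hDQ j hj => ?_⟩, hc⟩
  exact hggD i D hD hDQ j hj

/-- the place `P` has its centre at the point of the section over the centre of `Q` -/
structure At (S : Mod K L M y n r G) (Q : Place ℂ K) (P : Place ℂ M) : Prop where
  div : Divisorial (n + r) P
  ovr : ∃ e, Over P Q e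
  good : ∀ gg, GG S Q gg → Gd (lsub y Q) (tt S gg) P

theorem exists_At (S : Mod K L M y n r G) (hn : 0 < n) {Q : Place ℂ K} (hQ : Divisorial n Q) :
    ∃ P, At S Q P := by
  obtain ⟨gg, c, hG, hu⟩ := exists_GG S hQ
  obtain ⟨P, e, hP, hPQ, hgd⟩ := exists_sec (S := S) hG.ne hQ hn (A := lsub y Q)
    (fun a ha => lsub_reg S.ny ha)
  exact ⟨P, hP, ⟨e, hPQ⟩, fun gg' hG' => hG.change hG' hgd⟩

end CvS

open CvS in
/-- TASK CN-SCT. **The section of the cyclic covering** (the point of the fibre where all the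
variables vanish).

This is the translation of Pool/Agent/H890/Res2.lean and Res3.lean (the Fermat coverings, structures
`LocD`, `SecAt`, `GenAt`) to the covering `Cov`; it is simpler here. PROOF.
(0) Let `Q` be divisorial. `choose gg` with `gg i ∈ S.F i`, `D.ord (gg i) = S.c * D.ord (y a) -
S.wt i.castSucc * G D` for prime divisors `D` through `Q` (`(S.fam i).gen Q hQ`). Put
`g p = gg p.succ / gg 0`, so `D.ord (g p) = - S.wt p.succ.castSucc * G D` (`S.wt0`),
`τ p = ts S.l 1 p * algebraMap K L (g p)` (`ts S.l 1 p = S.l p.succ.castSucc / S.l 0`),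
`A = lsub y Q` (`lsub_ci S.ny Q : CI ..`, `lsub_iff`, `lsub_inv`, `lsub_reg`, `lsub_unit`).
`Gens τ` by `gens_change`. Let `c` be the chart with `S.u c = S.l 0 * algebraMap K L (gg 0)`
(`S.exists_u 0`). Then `chart S.u c ≤ RR A τ`, because `S.u c' / S.u c` is
`algebraMap (f' / gg 0)` or `τ p * algebraMap (f' / gg p.succ)`, `f' ∈ S.F _`, and `f' / gg i ∈ A`
by `(S.fam i).low` (compare the proof of `Mod.ver`, Ver.lean, step on the ring).
(1) Put `φ = ∏ k, S.l k ^ sg k`, `p₀ = 0 : Fin r`. `exists_adic (Gens τ) (X_prime (i := p₀)).irreducible`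
gives `v : Place K L` with `v.ord (τ p₀) = 1` and `v.ord (aeval τ F) = 0 ↔ ¬ X p₀ ∣ F`. The order of
`S.l k / S.l 0` is 1 for `k = p₀.succ.castSucc` and 0 for all other `k` (for the last one it is
`-(1 + ∑ p, τ p / g p)` by `S.sys.sum`, a polynomial with constant term `-1`; constants from `K` have
order 0). So by `h.phi_ord (restr v) 0` (`restr_ord`), `v.ord φ = sg (p₀.succ.castSucc) = ± 1`.
(2) `Module.finrank L M = r + 2`: `≤` is `h.fin`; take `w` over `restr v` (`exists_above`), ramification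
`e`: `(r + 2) * w.ord z = ± e`, so `r + 2 ∣ e ≤ finrank` (`over_le`). `adjoin L {z} = ⊤` from `h.gen`.
So `kum_res` applies to `RR A τ` and also to `RR ⊤ τ` (`ci_top`).
(3) Call `P : Place ℂ M` good for `Q` if it is regular on `A` and `Ge P 1 (algebraMap L M (τ p))` for all
`p`. `sec Q`: let `Q.ord π = 1`, `τ' p = τ p * algebraMap K L π⁻¹`, `P₀` the Gauss place over `Q` for `τ'`
(`exists_gauss`, `IsGauss.base`, `IsGauss.var`, `IsGauss.divisorial`), so `P₀.ord (τ p) = 1`; `sec Q` is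
a place over `P₀` (`exists_above`, `divisorial_up`); it is good, divisorial, and over `Q`
(see `Fer.exists_sec` in Res2.lean). `W`: a place over the place of `L`, trivial on `K`, for which all
`ts S.l 1 p` have order 1 (see `Fer.exists_gen` in Res2.lean, with `F := L`); it is good for every `Q`.
(`sec` is chosen by `Classical.choice` for divisorial `Q`, arbitrary otherwise.)
(4) If `P` is good for `Q` then `S.Cen c P` (elements of `RR A τ` are regular at `P`), so
`Centred S.v (S.j c) P`. (5) `gen`, `res`, `le`: as `LocD.res`, `SecAt.le`, `SecAt.gen`, `GenAt.res` in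
Res3.lean: `b ∈ localRing S.v P` is `a / b'` with `a, b'` in `chart S.v (S.j c)`, i.e. integral over
`chart S.u c` (`S.chart_iff`), so integral over `RR A τ` (`int_mono`), with residues `κ₁`, `κ₂` at ALL
good places; `b'` is a unit at `P`, so `κ₂ ≠ 0`; for `P = sec Q`: `Q.ord κ₂ = 0`, `κ₂⁻¹ ∈ A`; at every
good place `P'` at which `κ₂` is a unit: `b ∈ localRing S.v P'` (same chart) and
`Ge P' 1 (b - κ₁ / κ₂)` (`ge_unit`, `ge_div`). `le`: `sec D` is good for `Q` if `D` is a prime divisor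
through `Q`: `τ_Q p / τ_D p = algebraMap (g_Q p / g_D p)`, which has order 0 at `D`.
(6) `hyp`: `c := S.d * S.c`, `v₀ := algebraMap L M (S.l 0) ^ S.d`, `l := S.j c`, `g := gg 0 ^ S.d`
(`S.vj`), `S.wt0`. -/
theorem Cov.exists_sct (h : Cov S b z) (hr : 0 < r) (hn : 1 ≤ n) :
    ∃ (W : Place ℂ M) (sec : Place ℂ K → Place ℂ M), Sct y n S.v (n + r) W sec := by
  classical
  obtain ⟨W, hW, hWt⟩ := exists_gen S hr
  obtain ⟨sec, hsec⟩ : ∃ sec : Place ℂ K → Place ℂ M, ∀ Q, Divisorial n Q → At S Q (sec Q) := by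
    refine ⟨fun Q => if hQ : Divisorial n Q then (exists_At S hn hQ).choose else W,
      fun Q hQ => ?_⟩
    change At S Q (if hQ : Divisorial n Q then (exists_At S hn hQ).choose else W)
    rw [dif_pos hQ]
    exact (exists_At S hn hQ).choose_spec
  refine ⟨W, sec, hW, fun x hx => ?_, fun Q hQ => (hsec Q hQ).div, fun Q hQ => (hsec Q hQ).ovr,
    fun Q hQ x hx => ?_, fun D Q hD hDd hQ hDQ x hx => ?_, S.d * S.c, algebraMap L M (S.l 0) ^ S.d,
    ?_, fun Q hQ => ?_⟩
  · -- residues at the generic point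
    choose gg hgg using fun i => (S.fam i).non
    obtain ⟨c, hu⟩ := S.exists_u 0 (hgg 0)
    have hg : ∀ i, gg i ≠ 0 := fun i => (S.fam i).ne _ (hgg i)
    have hf : ∀ i, ∀ f ∈ S.F i, f / gg i ∈ (⊤ : Subalgebra ℂ K) := fun _ _ _ => Algebra.mem_top
    have hWg := gen_good S hW hWt ⊤ gg
    have hc := hWg.cen hg hf hu
    obtain ⟨a, ha, b', hb', hb0, hbo, hab⟩ := (mem_localRing hc.centred).1 hx
    obtain ⟨κ₁, -, h1⟩ := ires h hr hg ci_top hf hu ha
    obtain ⟨κ₂, -, h2⟩ := ires h hr hg ci_top hf hu hb'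
    have h3 := (h2 W hWg).neg
    rw [neg_sub] at h3
    obtain ⟨h4, h5⟩ := ge_unit h3 hb0 hbo
    refine ⟨κ₁ * κ₂⁻¹, ?_⟩
    have h9 : x = a / b' := by
      rw [← hab]
      field_simp
    rw [h9, map_mul, map_inv₀, ← div_eq_mul_inv]
    exact ge_div (h1 W hWg) (h2 W hWg) h4 h5 (Or.inr (hW κ₁).ge)
  · obtain ⟨gg, c, hG, hu⟩ := exists_GG S hQ
    obtain ⟨e, he⟩ := (hsec Q hQ).ovr
    obtain ⟨κ, hκ, h1⟩ := lres h hr hG hu ((hsec Q hQ).good gg hG) he hx
    obtain ⟨h2, h3⟩ := h1 W (gen_good S hW hWt _ gg) fun μ _ _ _ => hW μ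
    exact ⟨h2, κ, (lsub_iff S.ny).1 hκ, h3⟩
  · obtain ⟨gg, c, hG, hu⟩ := exists_GG S hQ
    obtain ⟨e, he⟩ := (hsec Q hQ).ovr
    obtain ⟨e', he'⟩ := (hsec D hDd).ovr
    obtain ⟨κ, -, h1⟩ := lres h hr hG hu ((hsec Q hQ).good gg hG) he hx
    have hle : lsub y Q ≤ lsub y D := fun f hf => (lsub_iff S.ny).2
      (through_le hD hDQ ((lsub_iff S.ny).1 hf))
    have hGD : GG S D gg := ⟨hG.ne, fun i D' hD' hDD' j hj =>
      hG.ord i D' hD' (through_trans hD hDQ hDD') j hj⟩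
    refine (h1 (sec D) (((hsec D hDd).good gg hGD).mono hle) fun μ hμ hμ0 hμQ => ?_).1
    rw [he'.2, lsub_unit S.ny hDQ hμ hμ0 hμQ, mul_zero]
  · refine pow_ne_zero _ ?_
    rw [Ne, map_eq_zero]
    exact S.sys.ne _
  · obtain ⟨gg, c, hG, hu⟩ := exists_GG S hQ
    have hc := ((hsec Q hQ).good gg hG).cen hG.ne (fun i f hf => hG.quot i hf) hu
    refine ⟨S.j c, gg 0 ^ S.d, hc.centred, pow_ne_zero _ (hG.ne 0), ?_, fun D hD hDQ j hj => ?_⟩
    · rw [S.vj, hu, map_mul, mul_pow, map_pow, ← IsScalarTower.algebraMap_apply]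
    · rw [D.ord_pow, hG.ord 0 D hD hDQ j hj, Fin.castSucc_zero, S.wt0]
      push_cast
      ring

end

end Pool.Agent.H890

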