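import Pool.Agent.H890.Ver

set_option autoImplicit false
set_option linter.unusedSectionVars false
set_option linter.overlappingInstances false

open FF MvPolynomial IsLocalRing Pool.Agent.W602.GT Pool.Agent.W603.LV Pool.Agent.Y172
  Pool.Agent.TH122.AB Pool.Agent.R887

namespace Pool.Agent.H890

section

variable {K L M : Type} [Field K] [Field L] [Field M] [Algebra ℂ K] [Algebra ℂ L]
  [Algebra ℂ M] [Algebra K L] [Algebra L M] [Algebra K M] [IsScalarTower ℂ K L]
  [IsScalarTower ℂ L M] [IsScalarTower ℂ K M] [IsScalarTower K L M] [FiniteDimensional L M]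
  {N : ℕ} {y : Fin (N + 1) → K} {n r : ℕ} {G : Place ℂ K → ℤ}

variable (S : Mod K L M y n r G)

/-- The vertical prime divisors in a given chart with given generators. -/
theorem Mod.ver_at {P : Place ℂ M} {Q : Place ℂ K} {e : ℕ} (h : Over P Q e)
    (hP : IsPrimeDivisor S.v P) {P₁ : Place ℂ L} {e₁ : ℕ} (h₁ : Over P P₁ e₁)
    {c₀ : Fin (S.s + 1)} (hc₀ : S.Cen c₀ P) {i : Fin (r + 1)} {f₀ : K} (hf₀ : f₀ ∈ S.F i)
    (hu₀ : S.u c₀ = S.l i.castSucc * algebraMap K L f₀)
    (gg : Fin (r + 1) → K) (hgg : ∀ i, gg i ∈ S.F i)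
    (hggD : ∀ i D, IsPrimeDivisor y D → Through y D Q → ∀ a, Centred y a D →
      D.ord (gg i) = S.c * D.ord (y a) - S.wt i.castSucc * G D)
    {ix : Fin r → Fin (r + 1)} (hix : ∀ p : Fin r, sA i p.succ.castSucc = (ix p).castSucc) :
    Gens (k := K) (fun p => ts S.l (sA i) p * algebraMap K L (gg (ix p) / gg i)) ∧
      IsGauss (fun p => ts S.l (sA i) p * algebraMap K L (gg (ix p) / gg i)) Q P₁ := by
  classical
  have hy := S.ny
  have he : (0 : ℤ) < e := by exact_mod_cast h.1
  have he₁ : (0 : ℤ) < e₁ := by exact_mod_cast h₁.1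
  obtain ⟨a, ha⟩ := exists_centred hy Q
  have hgg0 : ∀ i, gg i ≠ 0 := fun i => (S.fam i).ne _ (hgg i)
  have hf₀0 : f₀ ≠ 0 := (S.fam i).ne _ hf₀
  have hfQ : ∀ i, ∀ f ∈ S.F i, f / gg i ∈ localRing y Q := by
    intro i f hf
    refine mem_localRing_of_reg hy fun D hD hDQ => Or.inr ?_
    rw [D.ord_div ((S.fam i).ne f hf) (hgg0 i), hggD i D hD hDQ a (hDQ.centred ha)]
    have := (S.fam i).low D hD a (hDQ.centred ha) f hf
    omega
  have hordM : ∀ (i : Fin (r + 1)) (f : K), f ≠ 0 →
      P.ord (algebraMap L M (S.l i.castSucc * algebraMap K L f)) =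
        P.ord (algebraMap L M (S.l i.castSucc)) + e * Q.ord f := by
    intro i f hf
    have h1 : algebraMap L M (S.l i.castSucc) ≠ 0 := by
      rw [Ne, map_eq_zero]
      exact S.sys.ne _
    have h2 : algebraMap K M f ≠ 0 := by rwa [Ne, map_eq_zero]
    rw [map_mul, ← IsScalarTower.algebraMap_apply, P.ord_mul h1 h2, h.2]
  have h0 : Q.ord f₀ = Q.ord (gg i) := by
    apply le_antisymm
    · obtain ⟨c', hc'⟩ := S.exists_u i (hgg i)
      have h1 := hc₀ c'
      rw [hu₀, hc', hordM i f₀ hf₀0, hordM i _ (hgg0 i)] at h1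
      have h2 : (e : ℤ) * Q.ord f₀ ≤ e * Q.ord (gg i) := by linarith
      exact le_of_mul_le_mul_left h2 he
    · have h1 := reg_ord_nonneg (localRing_reg (hfQ i f₀ hf₀))
      rw [Q.ord_div hf₀0 (hgg0 i)] at h1
      omega
  have h0D : ∀ D, IsPrimeDivisor y D → Through y D Q → D.ord f₀ = D.ord (gg i) := by
    intro D hD hDQ
    have h1 := unit_through hDQ (hfQ i f₀ hf₀) (div_ne_zero hf₀0 (hgg0 i)) (by
      rw [Q.ord_div hf₀0 (hgg0 i), h0, sub_self])
    rw [D.ord_div hf₀0 (hgg0 i)] at h1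
    omega
  have h0' : gg i / f₀ ∈ localRing y Q := by
    refine mem_localRing_of_reg hy fun D hD hDQ => Or.inr ?_
    rw [D.ord_div (hgg0 i) hf₀0, h0D D hD hDQ, sub_self]
  -- the indices
  have hixs : ∀ i', i' ≠ i → ∃ p, ix p = i' := by
    intro i' hi'
    have h1 : (sA i).symm i'.castSucc ≠ 0 := by
      intro h2
      apply hi'
      apply Fin.castSucc_injective
      have h3 := sA_zero i
      rw [← h2, Equiv.apply_symm_apply] at h3
      exact h3
    have h2 : (sA i).symm i'.castSucc ≠ Fin.last (r + 1) := by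
      intro h3
      have h4 : i'.castSucc = Fin.last (r + 1) := by
        rw [← sA_last i, ← h3, Equiv.apply_symm_apply]
      have := congrArg Fin.val h4
      simp only [Fin.val_castSucc, Fin.val_last] at this
      omega
    obtain ⟨p, hp⟩ := mid_of_ne h1 h2
    refine ⟨p, ?_⟩
    apply Fin.castSucc_injective
    rw [← hix p, ← hp, Equiv.apply_symm_apply]
  obtain ⟨g, hg⟩ : ∃ g : Fin r → K, ∀ p, g p = gg (ix p) / gg i := ⟨_, fun _ => rfl⟩
  have hg0 : ∀ p, g p ≠ 0 := fun p => by
    rw [hg]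
    exact div_ne_zero (hgg0 _) (hgg0 _)
  obtain ⟨τ, hτ⟩ : ∃ τ : Fin r → L, τ = fun p => ts S.l (sA i) p * algebraMap K L (g p) :=
    ⟨_, rfl⟩
  have hτ1 : ∀ p, τ p = (S.l (ix p).castSucc * algebraMap K L (gg (ix p))) /
      (S.l i.castSucc * algebraMap K L (gg i)) := by
    intro p
    rw [hτ]
    change ts S.l (sA i) p * algebraMap K L (g p) = _
    unfold ts
    rw [hix, sA_zero, hg, map_div₀, div_mul_div_comm]
  have hl0 : ∀ k, S.l k ≠ 0 := S.sys.ne
  have hgL : ∀ i, algebraMap K L (gg i) ≠ 0 := fun i => by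
    rw [Ne, map_eq_zero]
    exact hgg0 i
  have hf₀L : algebraMap K L f₀ ≠ 0 := by rwa [Ne, map_eq_zero]
  have hτreg : ∀ p, P.Reg (algebraMap L M (τ p)) := by
    intro p
    right
    obtain ⟨c', hc'⟩ := S.exists_u (ix p) (hgg (ix p))
    have h1 := hc₀ c'
    rw [hu₀, hc', hordM i f₀ hf₀0, hordM _ _ (hgg0 _), h0] at h1
    have h2 : ∀ i, algebraMap L M (S.l i.castSucc * algebraMap K L (gg i)) ≠ 0 := fun i => by
      rw [Ne, map_eq_zero]
      exact mul_ne_zero (hl0 _) (hgL i)
    rw [hτ1, map_div₀, P.ord_div (h2 _) (h2 _), hordM _ _ (hgg0 _), hordM _ _ (hgg0 _)]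
    linarith
  have hτg : Gens (k := K) τ := by
    refine gens_change (gens_ts S.sys S.gens (sA i)) fun p => ?_
    have h1 : ts S.l (sA i) p = τ p * algebraMap K L (g p)⁻¹ := by
      rw [hτ]
      change _ = ts S.l (sA i) p * algebraMap K L (g p) * algebraMap K L (g p)⁻¹
      rw [mul_assoc, ← map_mul, mul_inv_cancel₀ (hg0 p), map_one, mul_one]
    rw [h1]
    exact mul_mem (IntermediateField.subset_adjoin K _ ⟨p, rfl⟩)
      (IntermediateField.algebraMap_mem _ _)
  -- the ring
  have hA := lsub_ci hy Q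
  have hchart : chart S.u c₀ ≤ RR (lsub y Q) τ := by
    apply Algebra.adjoin_le
    rintro _ ⟨c', rfl⟩
    change S.u c' / S.u c₀ ∈ RR (lsub y Q) τ
    obtain ⟨i', f', hf', hu'⟩ := S.u_eq c'
    have hmem : (f' / gg i') * (gg i / f₀) ∈ lsub y Q :=
      Subalgebra.mul_mem _ ((lsub_iff hy).2 (hfQ i' f' hf')) ((lsub_iff hy).2 h0')
    by_cases hi : i' = i
    · subst hi
      have h1 : S.u c' / S.u c₀ = algebraMap K L ((f' / gg i') * (gg i' / f₀)) := by
        rw [hu', hu₀, div_mul_div_cancel₀ (hgg0 i'), map_div₀, mul_div_mul_left _ _ (hl0 _)]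
      rw [h1]
      exact RR_base hmem
    · obtain ⟨p, rfl⟩ := hixs i' hi
      have h1 : S.u c' / S.u c₀ =
          τ p * algebraMap K L ((f' / gg (ix p)) * (gg i / f₀)) := by
        have e1 := hl0 (ix p).castSucc
        have e2 := hl0 i.castSucc
        have e3 := hgL i
        have e4 := hgL (ix p)
        rw [hu', hu₀, hτ1, map_mul, map_div₀, map_div₀]
        field_simp
      rw [h1]
      exact (RR (lsub y Q) τ).mul_mem (RR_var p) (RR_base hmem)
  have hbaseQ : ∀ c ∈ lsub y Q, Q.Reg c := fun c hc => localRing_reg ((lsub_iff hy).1 hc)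
  have hRreg : ∀ x ∈ RR (lsub y Q) τ, P.Reg (algebraMap L M x) := by
    intro x hx
    induction hx using Algebra.adjoin_induction with
    | mem x hx =>
      rcases hx with ⟨c, hc, rfl⟩ | ⟨p, rfl⟩
      · rw [← IsScalarTower.algebraMap_apply]
        exact h.reg.2 (hbaseQ c hc)
      · exact hτreg p
    | algebraMap z =>
      rw [← IsScalarTower.algebraMap_apply]
      exact P.reg_const z
    | add x y _ _ hx hy =>
      rw [map_add]
      exact P.reg_add hx hy
    | mul x y _ _ hx hy =>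
      rw [map_mul]
      exact P.reg_mul hx hy
  have hnor : IsIntegrallyClosed (RR (lsub y Q) τ) := RR_normal hτg hA
  have hloc := S.loc hc₀ hP hchart
  -- the Gauss place
  obtain ⟨D, hD, hDQ⟩ := exists_through hy Q
  obtain ⟨PD, hPD⟩ := exists_gauss hτg D 0
  have hPD' : IsGauss τ D PD := hPD
  have hPDreg : ∀ x ∈ RR (lsub y Q) τ, PD.Reg x := hPD'.reg fun c hc => hc D hD hDQ
  have hpos : ∀ c ∈ lsub y Q, 0 < D.ord c → 0 < Q.ord c := by
    intro c hc hcD
    have h1 := reg_ord_nonneg (hbaseQ c hc)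
    by_contra h2
    have h3 : Q.ord c = 0 := by omega
    have hc0 : c ≠ 0 := by
      rintro rfl
      rw [D.ord_zero] at hcD
      exact lt_irrefl _ hcD
    have := unit_through hDQ ((lsub_iff hy).1 hc) hc0 h3
    omega
  let q : Ideal (RR (lsub y Q) τ) := centre (RR (lsub y Q) τ) PD hPDreg
  have hq : ∀ x : RR (lsub y Q) τ, x ∈ q ↔ (x = 0 ∨ 0 < PD.ord (x : L)) := fun x => mem_centre
  have hDa := hDQ.centred ha
  have hq0 : q ≠ ⊥ := by
    obtain ⟨π, hπ0, hπ⟩ := D.surj
    obtain ⟨x, hx, z, hz, hz0, hzo, hxz⟩ := (mem_localRing hDa).1 (hD π (Or.inr (by omega)))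
    have hx0 : x ≠ 0 := by
      rw [← hxz]
      exact mul_ne_zero hπ0 hz0
    have hxo : D.ord x = 1 := by rw [← hxz, D.ord_mul hπ0 hz0, hπ, hzo, add_zero]
    have hxA : x ∈ lsub y Q := (lsub_iff hy).2 (chart_localRing ha hx)
    intro h1
    have h2 : (⟨_, RR_base hxA⟩ : RR (lsub y Q) τ) ∈ q := by
      rw [hq]
      right
      change 0 < PD.ord (algebraMap K L x)
      rw [hPD'.base, hxo]
      exact one_pos
    rw [h1, Ideal.mem_bot] at h2
    have h3 : algebraMap K L x = 0 := congrArg Subtype.val h2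
    rw [map_eq_zero] at h3
    exact hx0 h3
  have hgoing := fun (x : RR (lsub y Q) τ) => going (M := M) (RR (lsub y Q) τ) hRreg hloc q hq0
    (fun x hx => by
      by_cases hx0 : x = 0
      · exact Or.inl hx0
      right
      have h1 := ((hq x).1 hx).resolve_left hx0
      obtain ⟨F, hF, hFx⟩ := mem_RR.1 x.2
      have hF0 : F ≠ 0 := by
        rintro rfl
        rw [map_zero] at hFx
        exact hx0 (Subtype.ext hFx.symm)
      have h2 : (1 : ℤ) ≤ PD.ord (aeval τ F) := by
        rw [hFx]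
        omega
      rw [hPD'.le_iff hF0] at h2
      have h3 : Ge P 1 (algebraMap L M (x : L)) := by
        rw [← hFx, aeval_def, eval₂_eq', map_sum]
        refine Ge.sum _ _ fun α hα => ?_
        rw [map_mul, ← IsScalarTower.algebraMap_apply, map_prod]
        have h4 : Ge P 1 (algebraMap K M (F.coeff α)) := by
          right
          rw [h.2]
          have := hpos _ (hF α) (by have := h2 α hα; omega)
          nlinarith
        have h5 : Ge P 0 (∏ p, algebraMap L M (τ p ^ α p)) := by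
          have := Ge.prod (P := P) Finset.univ (fun p => algebraMap L M (τ p ^ α p))
            (fun _ => 0) fun p _ => by
              have := (show Ge P 0 (algebraMap L M (τ p)) from hτreg p).pow (α p)
              rw [mul_zero, ← map_pow] at this
              exact this
          simpa using this
        have h6 := h4.mul h5
        rwa [add_zero] at h6
      have h4 : algebraMap L M (x : L) ≠ 0 := by
        rw [Ne, map_eq_zero]
        exact fun h => hx0 (Subtype.ext h)
      have := h3.resolve_left h4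
      omega) x
  -- `D = Q`
  have hDQeq : D = Q := by
    refine hD.eq_of_centre hDa ha ?_
    ext x
    rw [mem_centre, mem_centre]
    have hxA : (x : K) ∈ lsub y Q := (lsub_iff hy).2 (chart_localRing ha x.2)
    refine or_congr_right' fun hx0 => ?_
    constructor
    · exact hpos _ hxA
    · intro h1
      have h2 := hgoing ⟨_, RR_base hxA⟩ (Or.inr (by
        change 0 < P.ord (algebraMap L M (algebraMap K L (x : K)))
        rw [← IsScalarTower.algebraMap_apply, h.2]
        positivity))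
      rw [hq] at h2
      rcases h2 with h3 | h3
      · exfalso
        have h4 : algebraMap K L (x : K) = 0 := congrArg Subtype.val h3
        rw [map_eq_zero] at h4
        exact hx0 (Subtype.ext h4)
      · change 0 < PD.ord (algebraMap K L (x : K)) at h3
        rwa [hPD'.base] at h3
  subst hDQeq
  have hAll : ∀ c, D.Reg c → c ∈ lsub y D := fun c hc => (lsub_iff hy).2 (hD c hc)
  have hPeq : PD = P₁ := by
    apply Place.eq_of_le
    intro f hf0 hf
    obtain ⟨x, hx, z, hz, hz0, hzo, hxz⟩ := hPD'.rep hτg hAll (Or.inr hf : PD.Reg f)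
    have h1 : P₁.Reg x := h₁.reg.1 (hRreg x hx)
    have h2 : P₁.ord z = 0 := by
      have h3 := reg_ord_nonneg (h₁.reg.1 (hRreg z hz))
      by_contra h4
      have h5 : 0 < P.ord (algebraMap L M z) := by
        rw [h₁.2]
        have : 0 < P₁.ord z := by omega
        positivity
      have h6 := (hq ⟨z, hz⟩).1 (hgoing ⟨z, hz⟩ (Or.inr h5))
      rcases h6 with h7 | h7
      · exact hz0 (congrArg Subtype.val h7)
      · change 0 < PD.ord z at h7
        omega
    have hx0 : x ≠ 0 := by
      rintro rfl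
      rw [zero_div] at hxz
      exact hf0 hxz
    rw [hxz, P₁.ord_div hx0 hz0, h2, sub_zero]
    exact reg_ord_nonneg h1
  subst hPeq
  have hτe : τ = fun p => ts S.l (sA i) p * algebraMap K L (gg (ix p) / gg i) := by
    rw [hτ]
    funext p
    rw [hg]
  rw [← hτe]
  exact ⟨hτg, hPD'⟩

theorem sA_one : sA (0 : Fin (r + 1)) = 1 := by
  unfold sA
  rw [Fin.castSucc_zero, Equiv.swap_self]
  rfl

/-- TASK CN-VER0. **Vertical prime divisors in the chart `0`, with given local generators.**

PROOF. Copy the proof of `Mod.ver` (Pool/Agent/H890/Ver.lean, about 330 lines) once more, in two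
steps. (A) `Mod.ver_at`: the same proof, but with `c₀`, `hc₀ : S.Cen c₀ P`, `i`, `f₀ ∈ S.F i`,
`hu₀ : S.u c₀ = S.l i.castSucc * algebraMap K L f₀` and the generators `gg` (with `hgg`, `hggD`, as
below) GIVEN instead of chosen; conclusion: the conclusion of `Mod.ver` for this `i` with the explicit
`g p = gg (ix p) / gg i` (for `i = 0`: `ix p = p.succ`, because `sA 0 = 1` or `sA 0` fixes everything,
see `sA`; if this is awkward, only do the case `i = 0` in a second copy), i.e. for `i = 0`:
`IsGauss (fun p => ts S.l 1 p * algebraMap K L (gg p.succ / gg 0)) Q P₁` and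
`∀ k, P₁.ord (S.l k) - P₁.ord (S.l 0) = (S.wt k - S.wt 0) * G Q`.
(B) By `Mod.ver` itself (chart `i` chosen there) one knows
`P₁.ord (S.l k) - P₁.ord (S.l i.castSucc) = (S.wt k - S.wt i.castSucc) * G Q` for all `k`, and `Q` is a
prime divisor (so `Through y Q Q` and `D = Q` is allowed in `hggD`). So for all `i'` the element
`S.l i'.castSucc * algebraMap K L (gg i')` has the same order at `P₁` (`Q.ord (gg i') =
S.c * Q.ord (y a) - S.wt i'.castSucc * G Q`), and every `S.u c' = S.l i'.castSucc * algebraMap K L f'`,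
`f' ∈ S.F i'`, has at least this order (`(S.fam i').low`). Hence the chart `c` with
`S.u c = S.l 0 * algebraMap K L (gg 0)` (`S.exists_u 0 (hgg 0)`) satisfies `S.Cen c P`, and (A) applies
with `i = 0`, `f₀ = gg 0`. -/
theorem Mod.ver0 {P : Place ℂ M} {Q : Place ℂ K} {e : ℕ} (h : Over P Q e) (hQ : Divisorial n Q)
    (hP : IsPrimeDivisor S.v P) {P₁ : Place ℂ L} {e₁ : ℕ} (h₁ : Over P P₁ e₁)
    (gg : Fin (r + 1) → K) (hgg : ∀ i, gg i ∈ S.F i)
    (hggD : ∀ i D, IsPrimeDivisor y D → Through y D Q → ∀ a, Centred y a D →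
      D.ord (gg i) = S.c * D.ord (y a) - S.wt i.castSucc * G D) :
    Gens (k := K) (fun p : Fin r => ts S.l 1 p * algebraMap K L (gg p.succ / gg 0)) ∧
      IsGauss (fun p : Fin r => ts S.l 1 p * algebraMap K L (gg p.succ / gg 0)) Q P₁ := by
  classical
  obtain ⟨hQp, i, g, hg0, -, hG, hord⟩ := S.ver h hQ hP h₁
  have hy := S.ny
  obtain ⟨a, ha⟩ := exists_centred hy Q
  have he₁ : (0 : ℤ) < e₁ := by exact_mod_cast h₁.1
  have hggo : ∀ i, Q.ord (gg i) = S.c * Q.ord (y a) - S.wt i.castSucc * G Q := fun i =>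
    hggD i Q hQp (fun f hf => localRing_reg hf) a ha
  have hordu : ∀ (i' : Fin (r + 1)) (f : K), f ≠ 0 →
      P.ord (algebraMap L M (S.l i'.castSucc * algebraMap K L f)) =
        e₁ * (P₁.ord (S.l i.castSucc) + (S.wt i'.castSucc - S.wt i.castSucc) * G Q + Q.ord f) := by
    intro i' f hf
    rw [h₁.2, P₁.ord_mul (S.sys.ne _) (by rwa [Ne, map_eq_zero]), hG.base, ← hord i'.castSucc]
    ring
  obtain ⟨c, hc⟩ := S.exists_u 0 (hgg 0)
  have hcen : S.Cen c P := by
    intro c'
    obtain ⟨i', f', hf', hu'⟩ := S.u_eq c'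
    have hlow := (S.fam i').low Q hQp a ha f' hf'
    rw [hc, hu', hordu 0 _ ((S.fam 0).ne _ (hgg 0)), hordu i' _ ((S.fam i').ne _ hf'), hggo]
    refine mul_le_mul_of_nonneg_left ?_ he₁.le
    linarith
  have h2 := S.ver_at h hP h₁ hcen (hgg 0) hc gg hgg hggD (ix := fun p => p.succ) (fun p => by
    rw [sA_one]
    rfl)
  rw [sA_one] at h2
  exact h2

end

end Pool.Agent.H890
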