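import Pool.Agent.H890.CaKU
import Pool.Agent.H890.CaVer
import Pool.Agent.H890.CaB1
import Pool.Agent.H890.CaB2
import Pool.Agent.H890.CaSct
import Pool.Agent.H890.CaNef
import Pool.Agent.H890.Ca4

/-!
The cyclic covering is a fibration with the required properties.
-/

set_option autoImplicit false
set_option linter.unusedSectionVars false
set_option linter.overlappingInstances false

open FF MvPolynomial Pool.Agent.W602.GT Pool.Agent.W603.LV Pool.Agent.Y172
  Pool.Agent.TH122.AB Pool.Agent.R887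

namespace Pool.Agent.H890

section

variable {K L M : Type} [Field K] [Field L] [Field M] [Algebra ℂ K] [Algebra ℂ L]
  [Algebra ℂ M] [Algebra K L] [Algebra L M] [Algebra K M] [IsScalarTower ℂ K L]
  [IsScalarTower ℂ L M] [IsScalarTower ℂ K M] [IsScalarTower K L M] [FiniteDimensional L M]
  {N : ℕ} {y : Fin (N + 1) → K} {n r : ℕ} {G : Place ℂ K → ℤ}
  {S : Mod K L M y n r G} {b : ℕ} {z : M}

/-- a Gauss place is determined by the place of the base -/
theorem IsGauss.unique {τ : Fin r → L} (ht : Gens (k := K) τ) {Q : Place ℂ K} {P P' : Place ℂ L}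
    (h : IsGauss τ Q P) (h' : IsGauss τ Q P') : P = P' := by
  apply Place.ext
  funext x
  obtain ⟨F, F', hF', hx⟩ := ht.gen x
  by_cases hF : F = 0
  · rw [hx, hF, map_zero, zero_div, P.ord_zero, P'.ord_zero]
  · rw [hx, P.ord_div (ht.ne hF) (ht.ne hF'), P'.ord_div (ht.ne hF) (ht.ne hF'), h F hF,
      h F' hF', h' F hF, h' F' hF']

/-- the order of the equation of the covering along the monomial places -/
theorem Cov.phi_mono (h : Cov S b z) {Q : Place ℂ K} (hQ : IsPrimeDivisor y Q)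
    {gg : Fin (r + 1) → K} (hgg : ∀ i, gg i ≠ 0)
    (hggQ : ∀ i, ∀ a, Centred y a Q → Q.ord (gg i) = S.c * Q.ord (y a) - S.wt i.castSucc * G Q)
    (p₀ : Fin r) {A : ℕ} {v : Place ℂ L}
    (hv : ∀ F : MvPolynomial (Fin r) K, F ≠ 0 →
      v.ord (aeval (fun p : Fin r => ts S.l 1 p * algebraMap K L (gg p.succ / gg 0)) F) =
        mval Q A (Pi.single p₀ 1) F) :
    v.ord (∏ k, S.l k ^ sg k) = 1 ∨ v.ord (∏ k, S.l k ^ sg k) = -1 := by
  classical
  obtain ⟨τ, hτ⟩ : ∃ τ : Fin r → L, τ = fun p => ts S.l 1 p * algebraMap K L (gg p.succ / gg 0) :=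
    ⟨_, rfl⟩
  rw [← hτ] at hv
  have hl0 : ∀ k, S.l k ≠ 0 := S.sys.ne
  have hg0 : ∀ p : Fin r, gg p.succ / gg 0 ≠ 0 := fun p => div_ne_zero (hgg _) (hgg _)
  have hgL : ∀ p : Fin r, algebraMap K L (gg p.succ / gg 0) ≠ 0 := fun p => by
    rw [Ne, map_eq_zero]
    exact hg0 p
  have hbase : ∀ f : K, v.ord (algebraMap K L f) = A * Q.ord f := by
    intro f
    by_cases hf : f = 0
    · rw [hf, map_zero, v.ord_zero, Q.ord_zero, mul_zero]
    · have h1 := hv (C f) (by rwa [Ne, C_eq_zero])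
      rwa [aeval_C, mval_C hf] at h1
  have hvar : ∀ p, v.ord (τ p) = if p = p₀ then 1 else 0 := by
    intro p
    have h1 := hv (X p) (X_ne_zero p)
    rw [aeval_X, mval_X] at h1
    rw [h1, Pi.single_apply]
  obtain ⟨a, ha⟩ := exists_centred S.ny Q
  have hgo : ∀ p : Fin r, Q.ord (gg p.succ / gg 0) = - (S.wt p.succ.castSucc * G Q) := by
    intro p
    rw [Q.ord_div (hgg _) (hgg _), hggQ _ a ha, hggQ _ a ha]
    have h1 : S.wt (Fin.castSucc 0) = 0 := S.wt0
    rw [h1]
    ring
  have hG0 : 0 ≤ G Q := S.car.nonneg Q hQ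
  have hw0 : ∀ k, 0 ≤ S.wt k := fun k => by
    rcases S.wt01 k with h1 | h1
    · rw [h1]
    · rw [h1]
      norm_num
  have hmid : ∀ p : Fin r, v.ord (S.l p.succ.castSucc) - v.ord (S.l 0) =
      A * (S.wt p.succ.castSucc * G Q) + if p = p₀ then 1 else 0 := by
    intro p
    have h1 : τ p = S.l p.succ.castSucc / S.l 0 * algebraMap K L (gg p.succ / gg 0) := by
      rw [hτ]
      rfl
    have h2 := hvar p
    rw [h1, v.ord_mul (div_ne_zero (hl0 _) (hl0 _)) (hgL p), v.ord_div (hl0 _) (hl0 _), hbase,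
      hgo] at h2
    linarith
  have hlast : v.ord (S.l (Fin.last (r + 1))) - v.ord (S.l 0) = 0 := by
    have h1 : S.l (Fin.last (r + 1)) / S.l 0 =
        -(1 + ∑ p, τ p * algebraMap K L (gg p.succ / gg 0)⁻¹) := by
      have h2 := S.sys.sum
      rw [Fin.sum_univ_castSucc, Fin.sum_univ_succ] at h2
      have h3 : ∀ p : Fin r, τ p * algebraMap K L (gg p.succ / gg 0)⁻¹ =
          S.l p.succ.castSucc / S.l 0 := by
        intro p
        rw [hτ]
        change S.l p.succ.castSucc / S.l 0 * algebraMap K L (gg p.succ / gg 0) * _ = _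
        rw [mul_assoc, ← map_mul, mul_inv_cancel₀ (hg0 p), map_one, mul_one]
      rw [Finset.sum_congr rfl fun p _ => h3 p, ← Finset.sum_div]
      have h4 := hl0 0
      have h5 : S.l (Fin.castSucc 0) = S.l 0 := rfl
      rw [h5] at h2
      field_simp
      linear_combination h2
    obtain ⟨F, hF⟩ : ∃ F : MvPolynomial (Fin r) K, F = 1 + ∑ p, X p * C (gg p.succ / gg 0)⁻¹ :=
      ⟨_, rfl⟩
    have hFe : aeval τ F = 1 + ∑ p, τ p * algebraMap K L (gg p.succ / gg 0)⁻¹ := by
      rw [hF, map_add, map_one, map_sum]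
      simp only [map_mul, aeval_X, aeval_C]
    have hF0 : coeff 0 F = 1 := by
      rw [hF, coeff_add, coeff_sum]
      have h2 : ∀ p ∈ (Finset.univ : Finset (Fin r)),
          coeff 0 (X p * C (gg p.succ / gg 0)⁻¹ : MvPolynomial (Fin r) K) = 0 := by
        intro p _
        rw [mul_comm, coeff_C_mul, coeff_zero_X, mul_zero]
      rw [Finset.sum_eq_zero h2, add_zero, coeff_zero_one]
    have hFne : F ≠ 0 := by
      rintro h2
      rw [h2, coeff_zero] at hF0
      exact zero_ne_one hF0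
    have h2 : v.ord (aeval τ F) ≤ 0 := by
      rw [hv F hFne]
      have h3 : (0 : Fin r →₀ ℕ) ∈ F.support := by
        rw [mem_support_iff, hF0]
        exact one_ne_zero
      refine (mval_le h3).trans ?_
      rw [hF0]
      unfold Pool.Agent.H890.wt
      rw [Q.ord_one]
      simp
    have h3 : Ge v 0 (aeval τ F) := by
      rw [hFe]
      have hone : Ge v 0 (1 : L) := Or.inr v.ord_one.ge
      refine hone.add (Ge.sum _ _ fun p _ => ?_)
      by_cases hτ0 : τ p = 0
      · left
        rw [hτ0, zero_mul]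
      right
      have h4 : algebraMap K L (gg p.succ / gg 0)⁻¹ ≠ 0 := by
        rw [Ne, map_eq_zero]
        exact inv_ne_zero (hg0 p)
      rw [v.ord_mul hτ0 h4, hvar, hbase, Q.ord_inv, hgo, neg_neg]
      have h5 := mul_nonneg (Int.natCast_nonneg A) (mul_nonneg (hw0 p.succ.castSucc) hG0)
      split_ifs
      · omega
      · omega
    have h4 : aeval τ F ≠ 0 := by
      intro h5
      rw [hFe] at h5
      rw [h5, neg_zero] at h1
      exact div_ne_zero (hl0 _) (hl0 _) h1
    have h5 := h3.resolve_left h4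
    rw [← v.ord_div (hl0 _) (hl0 _), h1, v.ord_neg, ← hFe]
    omega
  have hall : ∀ k, v.ord (S.l k) - v.ord (S.l 0) = A * (S.wt k * G Q) +
      if k = p₀.succ.castSucc then 1 else 0 := by
    intro k
    by_cases hk0 : k = 0
    · subst hk0
      rw [sub_self, S.wt0, zero_mul, mul_zero, zero_add, if_neg]
      intro h1
      have := congrArg Fin.val h1
      simp only [Fin.val_zero, Fin.val_castSucc, Fin.val_succ] at this
      omega
    by_cases hkl : k = Fin.last (r + 1)
    · subst hkl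
      rw [hlast, S.wtl, zero_mul, mul_zero, zero_add, if_neg]
      intro h1
      have := congrArg Fin.val h1
      simp only [Fin.val_last, Fin.val_castSucc, Fin.val_succ] at this
      have := p₀.2
      omega
    · obtain ⟨p, hp⟩ := mid_of_ne hk0 hkl
      have hp' : k = p.succ.castSucc := hp
      rw [hp', hmid]
      congr 1
      by_cases h1 : p = p₀
      · rw [if_pos h1, if_pos (by rw [h1])]
      · rw [if_neg h1, if_neg]
        intro h2
        exact h1 (Fin.succ_injective _ (Fin.castSucc_injective _ h2))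
  rw [h.phi_ord v 0]
  have h1 : ∑ k, sg k * (v.ord (S.l k) - v.ord (S.l 0)) = sg (p₀.succ.castSucc) := by
    have h2 : ∀ k, sg k * (v.ord (S.l k) - v.ord (S.l 0)) = (sg k * S.wt k) * (A * G Q) +
        (if k = p₀.succ.castSucc then sg k else 0) := by
      intro k
      rw [hall]
      split_ifs
      · ring
      · ring
    rw [Finset.sum_congr rfl fun k _ => h2 k, Finset.sum_add_distrib, ← Finset.sum_mul, h.wsg,
      zero_mul, zero_add, Finset.sum_ite_eq' Finset.univ, if_pos (Finset.mem_univ _)]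
  rw [h1]
  exact sg_cases _

/-- **The vertical prime divisor over a prime divisor of the base is unique.** -/
theorem Cov.uniq (h : Cov S b z) (hr : 0 < r) {Q : Place ℂ K} (hQ : IsPrimeDivisor y Q)
    {P P' : Place ℂ M} (hP : IsPrimeDivisor S.v P) (hP' : IsPrimeDivisor S.v P')
    (h1 : ∀ f, P.ord (algebraMap K M f) = Q.ord f)
    (h2 : ∀ f, P'.ord (algebraMap K M f) = Q.ord f) : P = P' := by
  classical
  have hessK := S.essK
  have hQd := hQ.divisorial S.ny h.trK
  choose gg hgg hggD using fun i => (S.fam i).gen Q hQd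
  have hgg0 : ∀ i, gg i ≠ 0 := fun i => (S.fam i).ne _ (hgg i)
  have hself : Through y Q Q := through_self Q
  obtain ⟨P₁, e₁, h₁⟩ := exists_below (K := L) P
  obtain ⟨P₁', e₁', h₁'⟩ := exists_below (K := L) P'
  obtain ⟨ht, hg⟩ := S.ver0 (over_of_eq h1) hQd hP h₁ gg hgg hggD
  obtain ⟨-, hg'⟩ := S.ver0 (over_of_eq h2) hQd hP' h₁' gg hgg hggD
  have he := hg.unique ht hg'
  subst he
  obtain ⟨π, -, hπ⟩ := Q.surj
  have he1 : ∀ {P : Place ℂ M} {e : ℕ}, Over P P₁ e →
      (∀ f, P.ord (algebraMap K M f) = Q.ord f) → e = 1 := by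
    intro P e ho hPQ
    have h3 := hPQ π
    rw [IsScalarTower.algebraMap_apply K L M, ho.2, hg.base, hπ, mul_one] at h3
    exact_mod_cast h3
  have e1 := he1 h₁ h1
  have e2 := he1 h₁' h2
  subst e1
  subst e2
  have hφ : P₁.ord (∏ k, S.l k ^ sg k) = 0 := by
    obtain ⟨-, i, -, -, -, -, ho⟩ := S.ver (over_of_eq h1) hQd hP h₁
    rw [h.phi_ord P₁ i.castSucc]
    have h3 : ∀ k, sg k * (P₁.ord (S.l k) - P₁.ord (S.l i.castSucc)) =
        sg k * S.wt k * G Q - sg k * (S.wt i.castSucc * G Q) := by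
      intro k
      rw [ho]
      ring
    rw [Finset.sum_congr rfl fun k _ => h3 k, Finset.sum_sub_distrib, ← Finset.sum_mul,
      ← Finset.sum_mul, h.wsg, sum_sg h.hb]
    ring
  exact gauss_unique ht hg (Nat.succ_pos _) h.zN (phi_ne S.sys) hφ h.gen ⟨0, hr⟩
    (fun A _ v hv => h.phi_mono hQ hgg0 (fun i a ha => hggD i Q hQ hself a ha) _ hv) h₁ h₁'

/-- **The covering is a fibration with the required properties.** -/
theorem Cov.fib (h : Cov S b z) (hr : 0 < r) (hn : 1 ≤ n) : Fib y n S.v (n + r) := by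
  have hessK := S.essK
  have hessM := S.essM
  have hc := h.covG hr
  have hex := exists_divisorial h.trK hn S.ny
  obtain ⟨W, sec, hs⟩ := h.exists_sct hr hn
  refine ⟨S.ny, S.nv, h.trK, h.trM, hex, fun hP => hc.cases hP, fun hQ => hc.exists_prime hQ,
    fun hQ _ _ hP hP' h1 h2 => h.uniq hr hQ hP hP' h1 h2, fun hg => hc.const hg, ?_,
    fun hE => hc.nef_up hex hE, fun hE => hs.nef_down S.ny S.nv h.trK hex (fun hP => hc.cases hP)
      (fun hT _ _ _ _ h1 h2 => hc.through hT h1 h2) (fun hT h1 => hc.through_triv hT h1) hE,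
    fun {Q} hQ => ?_, fun h1 f hf => S.local_le h1 hf⟩
  · intro P₀ hP₀ htr H hH
    obtain ⟨F, hF, hF0⟩ := exists_const_field h.trM (hP₀.divisorial S.nv h.trM) htr
    exact bound_of_const S.nv (fun hT h1 => hc.through_triv hT h1) hF hF0 hH
  · obtain ⟨e, he⟩ := hs.ovr Q hQ
    refine ⟨sec Q, e, hs.div Q hQ, he, fun g hg => ?_⟩
    obtain ⟨-, κ, hκ, h1⟩ := hs.gen Q hQ _ hg
    rw [← map_sub] at h1
    rcases h1 with h2 | h2
    · rw [map_eq_zero] at h2
      rwa [sub_eq_zero.1 h2]
    · rw [hs.triv] at h2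
      omega

end

end Pool.Agent.H890
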