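import Pool.Agent.H890.CaI
import Pool.Agent.H890.Cstr2

set_option autoImplicit false
set_option linter.unusedSectionVars false
set_option linter.overlappingInstances false

open FF MvPolynomial Pool.Agent.W602.GT Pool.Agent.W603.LV Pool.Agent.Y172
  Pool.Agent.TH122.AB Pool.Agent.R887

namespace Pool.Agent.H890

theorem cnj_symm_cnj225 {M : Type} [Field M] [Algebra ℂ M] (ψ : M ≃ₐ[ℂ] M) (D : Derivation ℂ M M) :
    cnj ψ.symm (cnj ψ D) = D := by
  apply Derivation.ext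
  intro f
  rw [cnj_apply, cnj_apply, AlgEquiv.symm_symm, AlgEquiv.symm_apply_apply,
    AlgEquiv.symm_apply_apply]

theorem cnj_cnj_symm225 {M : Type} [Field M] [Algebra ℂ M] (ψ : M ≃ₐ[ℂ] M) (D : Derivation ℂ M M) :
    cnj ψ (cnj ψ.symm D) = D := by
  apply Derivation.ext
  intro f
  rw [cnj_apply, cnj_apply, AlgEquiv.symm_symm, AlgEquiv.apply_symm_apply,
    AlgEquiv.apply_symm_apply]

theorem der_sum_ap225 {M : Type} [Field M] [Algebra ℂ M] {d : ℕ} (D : Fin d → Derivation ℂ M M)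
    (f : M) : (∑ j, D j) f = ∑ j, D j f := by
  have h1 := map_sum (Derivation.coeFnAddMonoidHom (R := ℂ) (A := M) (M := M)) D Finset.univ
  have h2 := congrFun h1 f
  rw [Finset.sum_apply] at h2
  exact h2

theorem cnj_sum225 {M : Type} [Field M] [Algebra ℂ M] {d : ℕ} (ψ : M ≃ₐ[ℂ] M) (a : Fin d → M)
    (D : Fin d → Derivation ℂ M M) :
    cnj ψ (∑ j, a j • D j) = ∑ j, ψ (a j) • cnj ψ (D j) := by
  apply Derivation.ext
  intro f
  rw [cnj_apply, der_sum_ap225, der_sum_ap225, map_sum]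
  refine Finset.sum_congr rfl fun j _ => ?_
  rw [Derivation.smul_apply, Derivation.smul_apply, cnj_apply, smul_eq_mul, smul_eq_mul, map_mul]

theorem trf_pluri {M : Type} [Field M] [Algebra ℂ M] {d m : ℕ} (ψ : M ≃ₐ[ℂ] M)
    {ω : (Fin d → Derivation ℂ M M) → M} (h : IsPluri m ω) : IsPluri m (trf ψ ω) := by
  intro A D
  unfold trf
  have h1 := h (A.map ψ.symm) fun j => cnj ψ.symm (D j)
  have h2 : (fun i => cnj ψ.symm (∑ j, A i j • D j)) =
      fun i => ∑ j, (A.map ψ.symm) i j • cnj ψ.symm (D j) := by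
    funext i
    rw [cnj_sum225]
    rfl
  rw [h2, h1, map_mul, map_pow]
  have h3 : ψ (A.map ψ.symm).det = A.det := by
    have h4 := (AlgEquiv.map_det ψ.symm A).symm
    have h5 : (A.map ψ.symm).det = ψ.symm A.det := h4
    rw [h5, AlgEquiv.apply_symm_apply]
  rw [h3]

theorem cnj_reg225 {M : Type} [Field M] [Algebra ℂ M] (ψ : M ≃ₐ[ℂ] M) {P : Place ℂ M}
    {D : Derivation ℂ M M} (h : DerReg P D) : DerReg (P.comp ψ) (cnj ψ.symm D) := by
  intro f hf
  rw [comp_reg] at hf ⊢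
  rw [cnj_apply, AlgEquiv.symm_symm, AlgEquiv.apply_symm_apply]
  exact h _ hf

theorem cnj_reg225' {M : Type} [Field M] [Algebra ℂ M] (ψ : M ≃ₐ[ℂ] M) {P : Place ℂ M}
    {D : Derivation ℂ M M} (h : DerReg (P.comp ψ) D) : DerReg P (cnj ψ D) := by
  have h1 := cnj_reg225 ψ.symm h
  rw [comp_symm] at h1
  exact h1

theorem trf_ordEq {M : Type} [Field M] [Algebra ℂ M] {d : ℕ} (ψ : M ≃ₐ[ℂ] M)
    {ω : (Fin d → Derivation ℂ M M) → M} {P : Place ℂ M} {c : ℚ} :
    OrdEq P (trf ψ ω) c ↔ OrdEq (P.comp ψ) ω c := by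
  have hz : ∀ a : M, ψ a = 0 ↔ a = 0 := fun a => EmbeddingLike.map_eq_zero_iff
  have h0 : ∀ E : Fin d → Derivation ℂ M M, trf ψ ω (fun i => cnj ψ (E i)) = ψ (ω E) := by
    intro E
    unfold trf
    simp only [cnj_symm_cnj225]
  constructor
  · rintro ⟨h1, E, hE, h2, h3⟩
    refine ⟨fun F hF => ?_, fun i => cnj ψ.symm (E i), fun i => cnj_reg225 ψ (hE i), ?_, h3⟩
    · have h4 := h1 (fun i => cnj ψ (F i)) fun i => cnj_reg225' ψ (hF i)
      rw [h0] at h4
      rcases h4 with h4 | h4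
      · exact Or.inl ((hz _).1 h4)
      · exact Or.inr h4
    · intro h4
      apply h2
      unfold trf
      rw [h4, map_zero]
  · rintro ⟨h1, E, hE, h2, h3⟩
    refine ⟨fun F hF => ?_, fun i => cnj ψ (E i), fun i => cnj_reg225' ψ (hE i), ?_, ?_⟩
    · rcases h1 (fun i => cnj ψ.symm (F i)) fun i => cnj_reg225 ψ (hF i) with h4 | h4
      · left
        unfold trf
        rw [h4, map_zero]
      · exact Or.inr h4
    · rw [h0]
      exact fun h4 => h2 ((hz _).1 h4)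
    · rw [h0]
      exact h3

section

variable {K L M : Type} [Field K] [Field L] [Field M] [Algebra ℂ K] [Algebra ℂ L]
  [Algebra ℂ M] [Algebra K L] [Algebra L M] [Algebra K M] [IsScalarTower ℂ K L]
  [IsScalarTower ℂ L M] [IsScalarTower ℂ K M] [IsScalarTower K L M] [FiniteDimensional L M]
  {N : ℕ} {y : Fin (N + 1) → K} {n r : ℕ} {G : Place ℂ K → ℤ}
  {S : Mod K L M y n r G} {b : ℕ} {z : M}

theorem sA_zero_one225 : (sA (0 : Fin (r + 1))) = 1 := by
  unfold sA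
  rw [Fin.castSucc_zero, Equiv.swap_self]
  rfl

/-- all the linear forms have the same order at the Gauss place -/
theorem gauss_ord225 (S : Mod K L M y n r G) {D : Place ℂ K} {P₁ : Place ℂ L}
    (hg : IsGauss (ts S.l 1) D P₁) (k : Fin (r + 2)) : P₁.ord (S.l k) = P₁.ord (S.l 0) := by
  classical
  by_cases h0 : k = 0
  · rw [h0]
  by_cases hl : k = Fin.last (r + 1)
  · let F : MvPolynomial (Fin r) K := 1 + ∑ p, X p
    have hFe : aeval (ts S.l 1) F = - (S.l (Fin.last (r + 1)) / S.l 0) := by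
      have h1 := S.sys.one_add 1
      change _ = - (S.l (Fin.last (r + 1)) / S.l 0) at h1
      rw [← h1]
      change aeval (ts S.l 1) (1 + ∑ p, X p) = _
      rw [map_add, map_one, map_sum]
      simp only [aeval_X]
    have hc : F.coeff 0 = 1 := by
      change (1 + ∑ p, X p : MvPolynomial (Fin r) K).coeff 0 = 1
      rw [coeff_add, coeff_sum, coeff_zero_one]
      simp
    have hF0 : F ≠ 0 := by
      intro h1
      rw [h1, coeff_zero] at hc
      exact zero_ne_one hc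
    have h1 : P₁.ord (aeval (ts S.l 1) F) = P₁.ord (S.l (Fin.last (r + 1))) - P₁.ord (S.l 0) := by
      rw [hFe, P₁.ord_neg, P₁.ord_div (S.sys.ne _) (S.sys.ne _)]
    have h2 := (hg.le_iff hF0 (m := P₁.ord (aeval (ts S.l 1) F))).1 le_rfl 0
      (by rw [mem_support_iff, hc]; exact one_ne_zero)
    rw [hc, D.ord_one] at h2
    have h3 : (0 : ℤ) ≤ P₁.ord (aeval (ts S.l 1) F) := by
      rw [hg.le_iff hF0]
      intro α hα
      have h4 : ∃ m : ℂ, F.coeff α = algebraMap ℂ K m := by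
        refine ⟨(1 + ∑ p, X p : MvPolynomial (Fin r) ℂ).coeff α, ?_⟩
        have h5 : F = MvPolynomial.map (algebraMap ℂ K) (1 + ∑ p, X p) := by
          change (1 + ∑ p, X p : MvPolynomial (Fin r) K) = _
          rw [map_add, map_one, map_sum]
          simp only [MvPolynomial.map_X]
        rw [h5, coeff_map]
      obtain ⟨m, hm⟩ := h4
      have h5 : m ≠ 0 := by
        rintro rfl
        rw [map_zero] at hm
        exact (mem_support_iff.1 hα) hm
      rw [hm, D.ord_const h5]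
    rw [hl]
    omega
  · obtain ⟨p, hp⟩ := mid_of_ne h0 hl
    have h1 := hg.var p
    unfold ts at h1
    rw [P₁.ord_div (S.sys.ne _) (S.sys.ne _)] at h1
    rw [hp]
    have h2 : P₁.ord (S.l ((1 : Equiv.Perm (Fin (r + 2))) p.succ.castSucc)) =
      P₁.ord (S.l p.succ.castSucc) := rfl
    have h3 : P₁.ord (S.l ((1 : Equiv.Perm (Fin (r + 2))) 0)) = P₁.ord (S.l 0) := rfl
    rw [h2, h3] at h1
    omega

theorem Cov.uns (h : Cov S b z) {D : Place ℂ K} (hD : Divisorial n D) :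
    ∃ P : Place ℂ M, Divisorial (n + r) P ∧ Over P D 1 ∧ ∀ (q : ℕ)
      (η : (Fin n → Derivation ℂ K K) → K), IsPluri (2 * (b * q)) η → ∀ c : ℤ, OrdEq D η c →
      ∀ (x : Fin n → K) (E : Fin n → Derivation ℂ K K), IsTranscendenceBasis ℂ x →
        (∀ i j, E i (x j) = if i = j then 1 else 0) →
        OrdEq P (th S.lM b q (fun i => algebraMap K M (x i)) (algebraMap K M (η E))) c := by
  have hessK := S.essK
  have hessL := S.essL
  have hessM := S.essM
  obtain ⟨w, F, i0, hw⟩ := exists_loc h.trK hD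
  have hn : 0 < n := Fin.pos i0
  obtain ⟨P₁, hP₁⟩ := exists_gauss S.gens D 0
  have hg : IsGauss (ts S.l 1) D P₁ := hP₁
  have ho := gauss_ord225 S hg
  have hφ : P₁.ord (∏ k, S.l k ^ sg k) = 0 := by
    rw [h.phi_ord P₁ 0]
    refine Finset.sum_eq_zero fun k _ => ?_
    rw [ho k, sub_self, mul_zero]
  obtain ⟨P, e, hP⟩ := exists_above (L := M) P₁
  have he : e = 1 := kummer_unr hP (Nat.succ_pos _) (phi_ne S.sys) hφ h.zN h.gen
  subst he
  have hPd : Divisorial (n + r) P₁ := hg.divisorial S.gens hn hD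
  refine ⟨P, divisorial_up hP hPd, ⟨Nat.one_pos, fun f => ?_⟩, ?_⟩
  · rw [IsScalarTower.algebraMap_apply K L M, hP.2, hg.base]
  · intro q η hη c hc x E hx hE
    have hg' : (fun p => ts S.l (sA 0) p * algebraMap K L ((fun _ : Fin r => (1 : K)) p)) =
        ts S.l 1 := by
      funext p
      rw [map_one, mul_one, sA_zero_one225]
    have h1 := ver_ord S.sys h.trK hD (i := 0) (g := fun _ => 1) (fun _ => one_ne_zero)
      (by rw [hg']; exact S.gens) (by rw [hg']; exact hg) S.wtl h.ws (γ := 0)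
      (fun k => by rw [ho k, Fin.castSucc_zero, sub_self, mul_zero]) h.hb hη hc hx hE
    have h2 : OrdEq P₁ (th S.l b q (fun i => algebraMap K L (x i)) (algebraMap K L (η E)))
        ((c : ℤ) : ℚ) := by
      rw [Int.cast_zero, mul_zero, add_zero] at h1
      exact h1
    have h3 := up_th rfl h.trL S.sys hP hPd
      (append_basis hx (Gens_basis (gens_ts S.sys S.gens (sA 0)))) h2
    simp only [← IsScalarTower.algebraMap_apply] at h3
    have h4 : ((1 : ℕ) * (c + (2 * (b * q) : ℕ)) - (2 * (b * q) : ℕ) : ℤ) = c := by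
      push_cast
      ring
    rw [h4] at h3
    exact h3

theorem Cov.exists_form225 (h : Cov S b z) {Δ : Place ℂ K → ℚ}
    (hG : ∀ P, IsPrimeDivisor y P → (G P : ℚ) = b * Δ P) (ht : LogTrivial y n Δ) :
    ∃ R : ℕ, 1 ≤ R ∧ ∃ η : (Fin n → Derivation ℂ K K) → K, IsPluri (2 * (b * R)) η ∧
      ∀ D, IsPrimeDivisor y D → OrdEq D η ((-(2 * R * G D) : ℤ) : ℚ) := by
  classical
  have hessK := S.essK
  obtain ⟨x, E, hx, hE⟩ := exists_crd h.trK
  have hp := frm_pluri x 1 (1 : K)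
  have hE1 : frm x 1 1 E ≠ 0 := by
    rw [frm_self hE]
    exact one_ne_zero
  have hC : ∀ P, IsPrimeDivisor y P → ∃ c : ℤ, OrdEq P (frm x 1 1) c := fun P hP =>
    exists_ordEq h.trK (hP.divisorial S.ny h.trK) hp hx hE hE1
  obtain ⟨C, hCd⟩ : ∃ C : Place ℂ K → ℚ, ∀ P, IsPrimeDivisor y P → OrdEq P (frm x 1 1) (C P) := by
    refine ⟨fun P => if hP : IsPrimeDivisor y P then ((hC P hP).choose : ℚ) else 0,
      fun P hP => ?_⟩
    simp only [dif_pos hP]
    exact (hC P hP).choose_spec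
  obtain ⟨m, hm, f, hf, hfo⟩ := ht C ⟨frm x 1 1, hp, hCd⟩
  refine ⟨m, hm, fun D => (f⁻¹ * frm x 1 1 D ^ m) ^ (2 * b), ?_, fun D hD => ?_⟩
  · have h1 := pluri_pow (pluri_smul' (pluri_pow hp m) f⁻¹) (2 * b)
    rw [show 1 * m * (2 * b) = 2 * (b * m) by ring] at h1
    exact h1
  · have h1 := ordEq_pow (ordEq_smul (inv_ne_zero hf) (ordEq_pow (hCd D hD) m)) (2 * b)
    have h2 : ((2 * b : ℕ) : ℚ) * ((D.ord f⁻¹ : ℚ) + m * C D) = ((-(2 * m * G D) : ℤ) : ℚ) := by
      have h3 := hfo D hD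
      rw [D.ord_inv]
      push_cast
      rw [h3, hG D hD]
      change (2 * (b : ℚ)) * (-(m * ((C D + Δ D) - 0)) + m * C D) = -(2 * m * (b * Δ D))
      ring
    rw [h2] at h1
    exact h1

theorem Cov.pres_le225 (h : Cov S b z) {R : ℕ} (hR : 1 ≤ R) {η : (Fin n → Derivation ℂ K K) → K}
    (hη : IsPluri (2 * (b * R)) η)
    (hηo : ∀ D, IsPrimeDivisor y D → OrdEq D η ((-(2 * R * G D) : ℤ) : ℚ))
    {φ : K ≃ₐ[ℂ] K} (hφ : IsAut y n φ) {ψ : M ≃ₐ[ℂ] M} (hψ : IsAut S.v (n + r) ψ)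
    (hc : ∀ f, ψ (algebraMap K M f) = algebraMap K M (φ f)) {D : Place ℂ K}
    (hD : IsPrimeDivisor y D) : G D ≤ G (D.comp φ) := by
  classical
  have hessK := S.essK
  have hessM := S.essM
  obtain ⟨x, E, hx, hE⟩ := exists_crd h.trK
  have hηE : η E ≠ 0 := val_ne hη hx hE (hηo D hD)
  obtain ⟨Ω, hΩ⟩ : ∃ Ω, Ω = th S.lM b R (fun i => algebraMap K M (x i))
    (algebraMap K M (η E)) := ⟨_, rfl⟩
  have hΩp : IsPluri (2 * (b * R)) Ω := by
    rw [hΩ]
    exact th_pluri S.sysM b R _ _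
  have hΩ'p := trf_pluri ψ hΩp
  have h0 : ∀ P', IsPrimeDivisor S.v P' → OrdEq P' Ω 0 := by
    intro P' hP'
    rw [hΩ]
    by_cases htr : ∀ f : K, P'.ord (algebraMap K M f) = 0
    · exact h.hor hP' htr R hx hE hηE
    · push Not at htr
      obtain ⟨e', Q', hPQ'⟩ := FF.exists_over P' htr
      obtain ⟨hQ', -, -, h4⟩ := h.ver hP' hPQ'
      have h5 := h4 R η hη _ (hηo Q' hQ') x E hx hE
      have h6 : (-(2 * R * G Q') + 2 * R * G Q' : ℤ) = 0 := by ring
      rw [h6] at h5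
      exact_mod_cast h5
  have h0' : ∀ P', IsPrimeDivisor S.v P' → OrdEq P' (trf ψ Ω) 0 := fun P' hP' =>
    (trf_ordEq ψ).2 (h0 _ (hψ.prime S.nv h.trM hP'))
  obtain ⟨P, hPd, hPD, hPo⟩ := h.uns (hD.divisorial S.ny h.trK)
  obtain ⟨P₀, hP₀, -⟩ := exists_through S.nv P
  -- the ratio
  have hbas := S.basM (L := L) (M := M) hx
  choose F hF using fun u : Fin (n + r) => exists_der (L := ℂ) _ hbas
    (fun v => if u = v then (1 : M) else 0)
  have hΩF : Ω F ≠ 0 := val_ne hΩp hbas hF (h0 P₀ hP₀)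
  have hΩ'F : trf ψ Ω F ≠ 0 := val_ne hΩ'p hbas hF (h0' P₀ hP₀)
  obtain ⟨u, hu⟩ : ∃ u, u = trf ψ Ω F / Ω F := ⟨_, rfl⟩
  have hu0 : u ≠ 0 := by
    rw [hu]
    exact div_ne_zero hΩ'F hΩF
  have huΩ : trf ψ Ω = fun D => u * Ω D := by
    funext D
    rw [pluri_coord hbas hF hΩ'p D, pluri_coord hbas hF hΩp D, hu]
    field_simp
  have huP : ∀ P', IsPrimeDivisor S.v P' → P'.ord u = 0 := by
    intro P' hP'
    have h1 := ordEq_smul hu0 (h0 P' hP')
    rw [← huΩ] at h1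
    have h2 := ordEq_unique h.trM (hP'.divisorial S.nv h.trM) hΩ'p h1 (h0' P' hP')
    rw [add_zero] at h2
    exact_mod_cast h2
  have hu1 : P.ord u = 0 := by
    have h1 : u ∈ localRing S.v P := mem_localRing_of_reg S.nv fun P' hP' _ =>
      Or.inr (huP P' hP').ge
    have h2 : u⁻¹ ∈ localRing S.v P := mem_localRing_of_reg S.nv fun P' hP' _ =>
      Or.inr (by rw [P'.ord_inv, huP P' hP', neg_zero])
    have h3 := reg_ord_nonneg (localRing_reg h1)
    have h4 := reg_ord_nonneg (localRing_reg h2)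
    rw [P.ord_inv] at h4
    omega
  have h1 : OrdEq P Ω ((-(2 * R * G D) : ℤ) : ℚ) := by
    rw [hΩ]
    exact hPo R η hη _ (hηo D hD) x E hx hE
  have h2 : OrdEq (P.comp ψ) Ω ((-(2 * R * G D) : ℤ) : ℚ) := by
    have h3 := ordEq_smul hu0 h1
    rw [← huΩ, hu1, Int.cast_zero, zero_add] at h3
    exact (trf_ordEq ψ).1 h3
  have hov : Over (P.comp ψ) (D.comp φ) 1 := by
    refine ⟨Nat.one_pos, fun f => ?_⟩
    rw [comp_ord, hc, hPD.2, comp_ord]
  have h3 := h.ge_over (divisorial_comp ψ hPd) hov hη (a := -(2 * R * G (D.comp φ)))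
    (hηo _ (hφ.prime S.ny h.trK hD)).1 hx hE
  rw [← hΩ] at h3
  have h4 := ordEq_le h.trM (divisorial_comp ψ hPd) hΩp h2 h3
  have h5 : (((1 : ℕ) * (2 * (b * R) + -(2 * R * G (D.comp φ))) : ℤ) : ℚ) -
      ((2 * (b * R) : ℕ) : ℚ) = ((-(2 * R * G (D.comp φ)) : ℤ) : ℚ) := by
    push_cast
    ring
  rw [h5] at h4
  have h6 : -(2 * R * G (D.comp φ)) ≤ -(2 * R * G D) := by exact_mod_cast h4
  have h7 : (0 : ℤ) < R := by exact_mod_cast hR
  have h8 : (2 * R : ℤ) * G D ≤ (2 * R : ℤ) * G (D.comp φ) := by linarith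
  exact le_of_mul_le_mul_left h8 (by omega)

theorem Cov.pres (h : Cov S b z) {Δ : Place ℂ K → ℚ}
    (hG : ∀ P, IsPrimeDivisor y P → (G P : ℚ) = b * Δ P) (ht : LogTrivial y n Δ)
    {φ : K ≃ₐ[ℂ] K} (hφ : IsAut y n φ) {ψ : M ≃ₐ[ℂ] M} (hψ : IsAut S.v (n + r) ψ)
    (hc : ∀ f, ψ (algebraMap K M f) = algebraMap K M (φ f)) {D : Place ℂ K}
    (hD : IsPrimeDivisor y D) : Δ (D.comp φ) = Δ D := by
  obtain ⟨R, hR, η, hη, hηo⟩ := h.exists_form225 hG ht
  have hD' := hφ.prime S.ny h.trK hD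
  have h1 := h.pres_le225 hR hη hηo hφ hψ hc hD
  have hc' : ∀ f, ψ.symm (algebraMap K M f) = algebraMap K M (φ.symm f) := by
    intro f
    rw [AlgEquiv.symm_apply_eq, hc, AlgEquiv.apply_symm_apply]
  have h2 := h.pres_le225 hR hη hηo hφ.symm hψ.symm hc' hD'
  rw [comp_symm] at h2
  have h3 : G (D.comp φ) = G D := le_antisymm h2 h1
  have h4 : (b : ℚ) * Δ (D.comp φ) = b * Δ D := by
    rw [← hG _ hD', ← hG _ hD, h3]
  have hb : (b : ℚ) ≠ 0 := by
    have := h.hb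
    have hb' : b ≠ 0 := by omega
    exact_mod_cast hb'
  exact mul_left_cancel₀ hb h4

end

end Pool.Agent.H890
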