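import Pool.Agent.H890.Frm2

/-!
Regular `1`-forms on purely transcendental extensions: several variables.
-/

set_option autoImplicit false
set_option linter.unusedSectionVars false
set_option linter.overlappingInstances false

open FF MvPolynomial Pool.Agent.W602.GT Pool.Agent.W603.LV Pool.Agent.Y172
  Pool.Agent.TH122.AB Pool.Agent.R887

namespace Pool.Agent.H890

/-- **Regular `1`-forms on the product with a projective space.** -/
theorem noForms_rational (r : ℕ) : ∀ (K M : Type) [Field K] [Field M] [Algebra ℂ K] [Algebra ℂ M]
    [Algebra K M] [IsScalarTower ℂ K M] (n : ℕ) (s : Fin (r + 1) → M), Algebra.trdeg ℂ K = n →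
    0 < n → AlgebraicIndependent K s → IntermediateField.adjoin K (Set.range s) = ⊤ →
    NoForms K n → NoForms M (n + (r + 1)) := by
  classical
  induction r with
  | zero =>
    intro K M _ _ _ _ _ _ n s hn hn1 hs htop hK
    have h2 : Transcendental K (s 0) := hs.transcendental 0
    refine noForms_simple (t := s 0) hn hn1 h2 ?_ hK
    rw [← htop]
    congr 1
    ext z
    constructor
    · intro hz
      rw [Set.mem_singleton_iff] at hz
      exact ⟨0, hz.symm⟩
    · rintro ⟨i, rfl⟩
      have hi : i = 0 := Fin.ext (by have := i.2; simp only [Fin.val_zero]; omega)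
      rw [hi]
      exact Set.mem_singleton _
  | succ r ih =>
    intro K M _ _ _ _ _ _ n s hn hn1 hs htop hK
    obtain ⟨K', hK'⟩ : ∃ K', K' = IntermediateField.adjoin K {s 0} := ⟨_, rfl⟩
    have h0 : s 0 ∈ K' := by
      rw [hK']
      exact IntermediateField.mem_adjoin_simple_self K _
    have h2 : Transcendental K (s 0) := hs.transcendental 0
    obtain ⟨g, hg⟩ : ∃ g : K', (g : M) = s 0 := ⟨⟨s 0, h0⟩, rfl⟩
    have hgt : Transcendental K g := by
      intro h3
      apply h2
      rw [← hg]
      exact h3.algebraMap
    have hgtop : IntermediateField.adjoin K {g} = ⊤ := by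
      apply IntermediateField.lift_injective K'
      rw [IntermediateField.lift_adjoin_simple, IntermediateField.lift_top, hg, hK']
    have hKn : NoForms K' (n + 1) := noForms_simple hn hn1 hgt hgtop hK
    have htr1 : Algebra.trdeg K K' = 1 := by
      have hgens : Gens (k := K) (fun _ : Fin 1 => g) := by
        refine gens_of_top ?_ (by rwa [Set.range_const])
        exact (algebraicIndependent_unique_type_iff (R := K) (x := fun _ : Fin 1 => g)).2 hgt
      rw [← (Gens_basis hgens).cardinalMk_eq_trdeg]
      simp
    have htr2 : Algebra.trdeg ℂ K' = (n + 1 : ℕ) := by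
      have h3 := trdeg_add_eq ℂ K (A := K')
      rw [hn, htr1] at h3
      rw [← h3]
      push_cast
      rfl
    have htr3 : Algebra.trdeg K' M = (r + 1 : ℕ) := by
      have h3 := trdeg_add_eq K K' (A := M)
      rw [trdeg_of_top hs htop, htr1] at h3
      have h4 : Algebra.trdeg K' M < Cardinal.aleph0 := by
        refine lt_of_le_of_lt ?_ (Cardinal.natCast_lt_aleph0 (n := r + 1 + 1))
        rw [← h3]
        exact le_add_self
      obtain ⟨c, hc⟩ := Cardinal.lt_aleph0.1 h4
      rw [hc] at h3 ⊢
      have h5 : 1 + c = r + 1 + 1 := by exact_mod_cast h3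
      have h6 : c = r + 1 := by omega
      rw [h6]
    obtain ⟨T, hT⟩ : ∃ T : Finset M, T = Finset.univ.image fun i : Fin (r + 1) => s i.succ :=
      ⟨_, rfl⟩
    have hTcard : T.card ≤ r + 1 := by
      rw [hT]
      refine Finset.card_image_le.trans ?_
      rw [Finset.card_univ, Fintype.card_fin]
    have hTtop : IntermediateField.adjoin K' (T : Set M) = ⊤ := by
      apply IntermediateField.restrictScalars_injective K
      rw [IntermediateField.restrictScalars_top, eq_top_iff, ← htop,
        IntermediateField.adjoin_le_iff]
      rintro _ ⟨i, rfl⟩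
      change s i ∈ IntermediateField.adjoin K' (T : Set M)
      refine Fin.cases ?_ (fun i => ?_) i
      · rw [← hg]
        exact (IntermediateField.adjoin K' (T : Set M)).algebraMap_mem g
      · refine IntermediateField.subset_adjoin K' _ ?_
        rw [hT]
        simp
    obtain ⟨s', hs', hs'top⟩ := exists_ind htr3 hTcard hTtop
    have _ : IsScalarTower ℂ K' M := IsScalarTower.of_algebraMap_eq fun c => rfl
    have h3 := ih K' M (n + 1) s' htr2 (Nat.succ_pos _) hs' hs'top hKn
    have h4 : n + (r + 1 + 1) = n + 1 + (r + 1) := by omega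
    rw [h4]
    exact h3

end Pool.Agent.H890
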