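import Pool.Agent.H890.Top
import Pool.Agent.H890.Cstr2
import Pool.Agent.H890.Nf
import Pool.Agent.H890.Frm3

/-!
Main theorem: nef divisors on klt pairs with trivial log canonical class.
-/

set_option autoImplicit false
set_option linter.unusedSectionVars false
set_option linter.overlappingInstances false

open FF MvPolynomial Pool.Agent.W602.GT Pool.Agent.W603.LV Pool.Agent.Y172
  Pool.Agent.TH122.AB Pool.Agent.R887

namespace Pool.Agent.H890

section

variable {K L M : Type} [Field K] [Field L] [Field M] [Algebra ℂ K] [Algebra ℂ L]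
  [Algebra ℂ M] [Algebra K L] [Algebra L M] [Algebra K M] [IsScalarTower ℂ K L]
  [IsScalarTower ℂ L M] [IsScalarTower ℂ K M] [IsScalarTower K L M] [FiniteDimensional L M]
  {N : ℕ} {y : Fin (N + 1) → K} {n r : ℕ} {G : Place ℂ K → ℤ}
  {S : Mod K L M y n r G} {b : ℕ} {Γ : Place ℂ K → ℤ}
  {T : ℕ → (Fin n → K) → K → (Fin (n + r) → Derivation ℂ M M) → M}

/-- **The canonical class of the covering space.** -/
theorem CovG.trivial (h : CovG S b Γ T) {Δ : Place ℂ K → ℚ}
    (hG : ∀ P, IsPrimeDivisor y P → (Γ P : ℚ) = b * Δ P) (hex : ∃ Q : Place ℂ K, Divisorial n Q)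
    (ht : LogTrivial y n Δ) : LogTrivial S.v (n + r) 0 := by
  intro C' hC'
  obtain ⟨C, hC⟩ := exists_canonical S.ny h.trK
  obtain ⟨m, hm, f, hf0, hf⟩ := h.qequiv hG hex hC hC' (ht C hC)
  refine ⟨m, hm, f, hf0, fun P hP => ?_⟩
  have h1 := hf P hP
  have h2 : pb y M (0 : Place ℂ K → ℚ) P = 0 := by
    have h3 := pb_congr (y := y) (M := M) (E := 0) (E' := 0) (0 : ℚ) (fun Q _ => by simp) P
    rw [h3, zero_mul]
  rw [h2] at h1
  rw [h1, Pi.add_apply, Pi.zero_apply, add_zero]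

theorem CovG.pullBack (h : CovG S b Γ T) (E : Place ℂ K → ℚ) : IsPullBack y S.v E (pb y M E) := by
  intro P hP
  rcases h.cases hP with htr | ⟨Q, hQ, hPQ⟩
  · exact Or.inl ⟨htr, pb_triv htr⟩
  · refine Or.inr ⟨Q, 1, hQ, le_rfl, fun f => ?_, ?_⟩
    · rw [hPQ, Nat.cast_one, one_mul]
    · rw [pb_over hQ hPQ, Nat.cast_one, one_mul]

end

/-- **Removal of the boundary.** -/
theorem trivial_removal (K : Type) [Field K] [Algebra ℂ K] {n b : ℕ} (hb : 2 ≤ b) (hn1 : 1 ≤ n)
    (hn : Algebra.trdeg ℂ K = n) {N : ℕ} {y : Fin (N + 1) → K} (hy : NormalModel y)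
    {Δ : Place ℂ K → ℚ} (hΔ : Effective y Δ) (hcar : CartierMul y n b Δ)
    (hklt : Klt y n Δ) :
    ∃ (M : Type) (_ : Field M) (_ : Algebra ℂ M) (_ : Algebra K M) (_ : IsScalarTower ℂ K M)
      (t : Fin (2 * b - 2) → M) (N' : ℕ) (v : Fin (N' + 1) → M), AlgebraicIndependent K t ∧
      IntermediateField.adjoin K (Set.range t) = ⊤ ∧
      TrivialReplaces v (n + (2 * b - 2)) y n Δ := by
  obtain ⟨r, hr⟩ : ∃ r, r = 2 * b - 2 := ⟨_, rfl⟩
  rw [← hr]
  obtain ⟨b', hb'⟩ : ∃ b', b = b' + 2 := ⟨b - 2, by omega⟩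
  have hrb : r + 2 = 2 * b := by omega
  have hr0 : 0 < r := by omega
  obtain ⟨L, _, _, _, _, t, ht⟩ := exists_L K r
  obtain ⟨M, _, _, _, z, hz, hgen, hfin⟩ := exists_M (∏ k, lfs t k ^ sg k)
    (N := r + 2) (Nat.succ_pos _)
  let _ : Algebra ℂ M := ((algebraMap L M).comp (algebraMap ℂ L)).toAlgebra
  let _ : Algebra K M := ((algebraMap L M).comp (algebraMap K L)).toAlgebra
  have _ : IsScalarTower ℂ L M := IsScalarTower.of_algebraMap_eq' rfl
  have _ : IsScalarTower K L M := IsScalarTower.of_algebraMap_eq' rfl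
  have _ : IsScalarTower ℂ K M := IsScalarTower.of_algebraMap_eq fun c => by
    rw [IsScalarTower.algebraMap_apply ℂ L M, IsScalarTower.algebraMap_apply ℂ K L,
      ← IsScalarTower.algebraMap_apply K L M]
  have htr : Algebra.trdeg K M = r := by
    have h1 : IsTranscendenceBasis K (algebraMap L M ∘ t) := (Gens_basis ht).algebraMap_comp
    rw [← h1.cardinalMk_eq_trdeg]
    simp
  obtain ⟨s, hs1, hs2⟩ := rational (b' := b') (by omega) (lfs_sys ht)
    (by rw [lfs_ts]; exact ht) htr hz hgen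
    (fun k k' hk hk' => lfs_pair ht k k' (by omega) hk hk')
  obtain ⟨G, S, hcov, hG⟩ := core2 (L := L) (M := M) hrb (by omega) ht hz hgen hfin hn hy
    hΔ hcar
  have hex := exists_divisorial hn hn1 hy
  have hcG := hcov.covG hr0
  refine ⟨M, inferInstance, inferInstance, inferInstance, inferInstance, s, S.N', S.v, hs1, hs2,
    S.nv, hcov.klt hG hklt, hcG.trivial hG hex, fun hK => ?_, fun E hE hnef => ?_⟩
  · obtain ⟨r', hr'⟩ : ∃ r', r = r' + 1 := ⟨r - 1, by omega⟩
    subst hr'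
    exact noForms_rational r' K M n s hn hn1 hs1 hs2 hK
  · exact ⟨pb y M E, hcG.pullBack E, pb_finite (S := S) hE, hcG.nef_up hex hnef,
      hcG.semi_down fun Q hQ => hnef.gen hy hQ, hcG.semi_up hex⟩

/-- the trivial boundary -/
theorem trivial_pair_variety {K : Type} [Field K] [Algebra ℂ K] {n b : ℕ}
    (h : TrivialPairAbundance K n b) : TrivialVarietyAbundance K n := by
  intro N y hy hklt hforms htriv E hE hnef
  refine h N y hy 0 ⟨fun P _ => le_rfl, ?_⟩ (fun Q _ => ⟨1, one_ne_zero, fun P _ _ => ?_⟩) hklt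
    hforms htriv E hE hnef
  · refine Set.finite_empty.subset ?_
    rintro P ⟨-, h0⟩
    exact h0 rfl
  · rw [P.ord_one]
    simp

theorem trivial_pair_mul {K : Type} [Field K] [Algebra ℂ K] {n b c : ℕ}
    (h : TrivialPairAbundance K n (c * b)) : TrivialPairAbundance K n b := by
  intro N y hy Δ hΔ hcar
  refine h N y hy Δ hΔ (fun Q hQ => ?_)
  obtain ⟨g, hg0, hg⟩ := hcar Q hQ
  refine ⟨g ^ c, pow_ne_zero _ hg0, fun P hP hPQ => ?_⟩
  rw [P.ord_pow]
  push_cast
  rw [hg P hP hPQ]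
  ring

/-- **Nef divisors on klt varieties and on klt pairs with trivial log canonical class.** -/
theorem trivial_equivalence :
    (∀ (K : Type) [Field K] [Algebra ℂ K] (n : ℕ), Algebra.trdeg ℂ K = n →
      TrivialVarietyAbundance K n) ↔
      ∀ (K : Type) [Field K] [Algebra ℂ K] (n b : ℕ), Algebra.trdeg ℂ K = n → 1 ≤ b →
        TrivialPairAbundance K n b := by
  constructor
  · intro h K _ _ n b hn hb
    refine trivial_pair_mul (c := 2) fun N y hy Δ hΔ hcar hklt hforms htriv E hE hnef => ?_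
    by_cases hn1 : 1 ≤ n
    · obtain ⟨M, _, _, _, _, t, N', v, h1, h2, h3⟩ := trivial_removal K
        (show 2 ≤ 2 * b by omega) hn1 hn hy hΔ hcar hklt
      have h4 := trdeg_add_eq ℂ K (A := M)
      rw [hn, trdeg_of_top h1 h2] at h4
      obtain ⟨E', -, hE', hnef', hiff⟩ := h3.nef E hE hnef
      refine hiff.1 (h M (n + (2 * (2 * b) - 2)) ?_ N' v h3.normal h3.klt (h3.forms hforms)
        (h3.trivial htriv) E' hE' hnef')
      rw [← h4, Nat.cast_add]
    · refine ⟨1, le_rfl, fun Q hQ => ?_⟩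
      exfalso
      have hess := hy.ess
      obtain ⟨-, -, i0, -⟩ := exists_loc hn hQ
      exact hn1 (Fin.pos i0)
  · intro h K _ _ n hn
    exact trivial_pair_variety (h K n 1 hn le_rfl)

end Pool.Agent.H890
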