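import Pool.Agent.H890.Ca6
import Pool.Agent.H890.Ca7
import Pool.Agent.H890.CaPres
import Pool.Agent.H890.Top4

/-!
Main theorem: the cone conjecture for klt Calabi-Yau pairs and for klt Calabi-Yau varieties.
-/

set_option autoImplicit false
set_option linter.unusedSectionVars false
set_option linter.overlappingInstances false

open FF MvPolynomial Pool.Agent.W602.GT Pool.Agent.W603.LV Pool.Agent.Y172
  Pool.Agent.TH122.AB Pool.Agent.R887

namespace Pool.Agent.H890

/-- **Removal of the boundary.** -/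
theorem cone_removal (K : Type) [Field K] [Algebra ℂ K] {n b : ℕ} (hb : 2 ≤ b) (hn1 : 1 ≤ n)
    (hn : Algebra.trdeg ℂ K = n) {N : ℕ} {y : Fin (N + 1) → K} (hy : NormalModel y)
    {Δ : Place ℂ K → ℚ} (hΔ : Effective y Δ) (hcar : CartierMul y n b Δ) :
    ∃ (M : Type) (_ : Field M) (_ : Algebra ℂ M) (_ : Algebra K M) (_ : IsScalarTower ℂ K M)
      (t : Fin (2 * b - 2) → M) (N' : ℕ) (v : Fin (N' + 1) → M), AlgebraicIndependent K t ∧
      IntermediateField.adjoin K (Set.range t) = ⊤ ∧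
      ConeReplaces v (n + (2 * b - 2)) y n Δ := by
  obtain ⟨r, hr⟩ : ∃ r, r = 2 * b - 2 := ⟨_, rfl⟩
  rw [← hr]
  obtain ⟨b', hb'⟩ : ∃ b', b = b' + 2 := ⟨b - 2, by omega⟩
  have hrb : r + 2 = 2 * b := by omega
  have hr0 : 0 < r := by omega
  obtain ⟨L, _, _, _, _, t, ht⟩ := exists_L K r
  obtain ⟨M, _, _, _, z, hz, hgen, hfin⟩ := exists_M (∏ k, lfs t k ^ sg k)
    (N := r + 2) (Nat.succ_pos _)
  let _ : Algebra ℂ M := ((algebraMap L M).comp (algebraMap ℂ L)).toAlgebra
  let _ : Algebra K M := ((algebraMap L M).comp (algebraMap K L)).toAlgebra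
  have _ : IsScalarTower ℂ L M := IsScalarTower.of_algebraMap_eq' rfl
  have _ : IsScalarTower K L M := IsScalarTower.of_algebraMap_eq' rfl
  have _ : IsScalarTower ℂ K M := IsScalarTower.of_algebraMap_eq fun c => by
    rw [IsScalarTower.algebraMap_apply ℂ L M, IsScalarTower.algebraMap_apply ℂ K L,
      ← IsScalarTower.algebraMap_apply K L M]
  have htr : Algebra.trdeg K M = r := by
    have h1 : IsTranscendenceBasis K (algebraMap L M ∘ t) := (Gens_basis ht).algebraMap_comp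
    rw [← h1.cardinalMk_eq_trdeg]
    simp
  obtain ⟨s, hs1, hs2⟩ := rational (b' := b') (by omega) (lfs_sys ht)
    (by rw [lfs_ts]; exact ht) htr hz hgen
    (fun k k' hk hk' => lfs_pair ht k k' (by omega) hk hk')
  obtain ⟨G, S, hcov, hG⟩ := core2 (L := L) (M := M) hrb (by omega) ht hz hgen hfin hn hy
    hΔ hcar
  have hex := exists_divisorial hn hn1 hy
  have hcG := hcov.covG hr0
  have hfib := hcov.fib hr0 hn1
  refine ⟨M, inferInstance, inferInstance, inferInstance, inferInstance, s, S.N', S.v, hs1, hs2,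
    S.nv, fun hklt => hcov.klt hG hklt, hcG.trivial hG hex, fun E hE => ?_, fun htriv hV => ?_⟩
  · exact ⟨pb y M E, hcG.pullBack E, pb_finite (S := S) hE, hfib.nef_down, hfib.nef_up⟩
  · exact hfib.cone (fun φ ψ hφ hψ hc P hP => hcov.pres hG htriv hφ hψ hc hP) hV

/-- the trivial boundary -/
theorem cone_pair_variety {K : Type} [Field K] [Algebra ℂ K] {n b : ℕ}
    (h : PairConeConjecture K n b) : VarietyConeConjecture K n := by
  intro N y hy hklt htriv
  refine h N y hy 0 ⟨fun P _ => le_rfl, ?_⟩ (fun Q _ => ⟨1, one_ne_zero, fun P _ _ => ?_⟩) hklt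
    htriv
  · refine Set.finite_empty.subset ?_
    rintro P ⟨-, h0⟩
    exact h0 rfl
  · rw [P.ord_one]
    simp

theorem cone_pair_mul {K : Type} [Field K] [Algebra ℂ K] {n b c : ℕ}
    (h : PairConeConjecture K n (c * b)) : PairConeConjecture K n b := by
  intro N y hy Δ hΔ hcar
  refine h N y hy Δ hΔ (fun Q hQ => ?_)
  obtain ⟨g, hg0, hg⟩ := hcar Q hQ
  refine ⟨g ^ c, pow_ne_zero _ hg0, fun P hP hPQ => ?_⟩
  rw [P.ord_pow]
  push_cast
  rw [hg P hP hPQ]
  ring

/-- the cone conjecture in dimension zero -/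
theorem cone_zero {K : Type} [Field K] [Algebra ℂ K] (hn : Algebra.trdeg ℂ K = (0 : ℕ)) {N : ℕ}
    {y : Fin (N + 1) → K} (hy : NormalModel y) (Δ : Place ℂ K → ℚ) : ConeConjecture y 0 Δ := by
  have hno : ∀ Q : Place ℂ K, ¬ Divisorial 0 Q := by
    intro Q hQ
    have hess := hy.ess
    obtain ⟨-, -, i0, -⟩ := exists_loc hn hQ
    exact absurd (Fin.pos i0) (lt_irrefl 0)
  have hnef : ∀ E : Place ℂ K → ℚ, NefDivisor y 0 E := fun E H _ q _ =>
    ⟨1, le_rfl, fun Q hQ => absurd hQ (hno Q)⟩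
  refine ⟨0, fun _ => 0, fun i => i.elim0, fun j A _ => ⟨{1}, Set.finite_singleton 1, ?_,
    fun t _ => ⟨1, rfl, fun _ => 0, fun _ => le_rfl, hnef _, hnef _⟩⟩⟩
  rintro _ rfl
  exact ⟨isAut_one, fun P _ => by rw [comp_one']⟩

/-- the pairs follow from the ruled varieties -/
theorem cone_of_ruled (h : RuledConeConjecture) (K : Type) [Field K] [Algebra ℂ K] (n b : ℕ)
    (hn : Algebra.trdeg ℂ K = n) (hb : 1 ≤ b) : PairConeConjecture K n b := by
  refine cone_pair_mul (c := 2) fun N y hy Δ hΔ hcar hklt htriv => ?_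
  by_cases hn1 : 1 ≤ n
  · obtain ⟨M, _, _, _, _, t, N', v, h1, h2, h3⟩ := cone_removal K
      (show 2 ≤ 2 * b by omega) hn1 hn hy hΔ hcar
    exact h3.cone htriv (h K M n (2 * (2 * b) - 2) t hn (by omega) h1 h2 N' v h3.normal
      (h3.klt hklt) (h3.trivial htriv))
  · obtain rfl : n = 0 := by omega
    exact cone_zero hn hy Δ

/-- **The cone conjecture for klt Calabi-Yau varieties and for klt Calabi-Yau pairs.** -/
theorem cone_equivalence :
    ((∀ (K : Type) [Field K] [Algebra ℂ K] (n : ℕ), Algebra.trdeg ℂ K = n →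
      VarietyConeConjecture K n) ↔
      ∀ (K : Type) [Field K] [Algebra ℂ K] (n b : ℕ), Algebra.trdeg ℂ K = n → 1 ≤ b →
        PairConeConjecture K n b) ∧
    (RuledConeConjecture ↔
      ∀ (K : Type) [Field K] [Algebra ℂ K] (n b : ℕ), Algebra.trdeg ℂ K = n → 1 ≤ b →
        PairConeConjecture K n b) := by
  have h1 : (∀ (K : Type) [Field K] [Algebra ℂ K] (n : ℕ), Algebra.trdeg ℂ K = n →
      VarietyConeConjecture K n) → RuledConeConjecture := by
    intro h K M _ _ _ _ _ _ n m t hn hm h1 h2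
    have h4 := trdeg_add_eq ℂ K (A := M)
    rw [hn, trdeg_of_top h1 h2] at h4
    refine h M (n + m) ?_
    rw [← h4, Nat.cast_add]
  have h2 : (∀ (K : Type) [Field K] [Algebra ℂ K] (n b : ℕ), Algebra.trdeg ℂ K = n → 1 ≤ b →
      PairConeConjecture K n b) → ∀ (K : Type) [Field K] [Algebra ℂ K] (n : ℕ),
      Algebra.trdeg ℂ K = n → VarietyConeConjecture K n := fun h K _ _ n hn =>
    cone_pair_variety (h K n 1 hn le_rfl)
  exact ⟨⟨fun h => cone_of_ruled (h1 h), h2⟩, ⟨cone_of_ruled, fun h => h1 (h2 h)⟩⟩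

end Pool.Agent.H890
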