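import Pool.Graph.R_seed8.R887.DefsNef
import Pool.Graph.R_seed8.R887.DefsNefP

/-!
Definitions: klt pairs, and semiample divisors `K_X + Δ`.
-/

set_option autoImplicit false

open FF Pool.Agent.W602.GT Pool.Agent.Y172 Pool.Agent.R887

namespace Pool.Agent.H890

section

variable {K : Type} [Field K] [Algebra ℂ K] {N : ℕ}

/-- The pair `(X, Δ)` is klt, `n` being the dimension of `X`: for every prime divisor `Q` over `X`
there is an `r`-canonical form `η` which generates `r (K_X + Δ)` at the centre of `Q` on `X` (its
order is `- r Δ P` along all prime divisors `P` of `X` through this centre), with order at least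
`1 - r` along `Q`. -/
def Klt (y : Fin (N + 1) → K) (n : ℕ) (Δ : Place ℂ K → ℚ) : Prop :=
  ∀ Q : Place ℂ K, Divisorial n Q → ∃ r : ℕ, 0 < r ∧ ∃ η : (Fin n → Derivation ℂ K K) → K,
    IsPluri r η ∧ (∀ P, IsPrimeDivisor y P → Through y P Q → OrdEq P η (-(r * Δ P))) ∧
      OrdGe Q η (1 - r)

/-- The divisor `K_X + Δ` is semiample, `n` being the dimension of `X`: for some `R ≥ 1` the divisor
`R (K_X + Δ)` is generated by its sections, that is, for every prime divisor `Q` over `X` there is a
section of `R (K_X + Δ)` without zero along the prime divisors `P` of `X` through the centre of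
`Q`. -/
def LogSemiample (y : Fin (N + 1) → K) (n : ℕ) (Δ : Place ℂ K → ℚ) : Prop :=
  ∃ R : ℕ, 1 ≤ R ∧ ∀ Q : Place ℂ K, Divisorial n Q → ∃ ω : (Fin n → Derivation ℂ K K) → K,
    IsPluri R ω ∧ (∀ P, IsPrimeDivisor y P → OrdGe P ω (-(R * Δ P))) ∧
      ∀ P, IsPrimeDivisor y P → Through y P Q → OrdEq P ω (-(R * Δ P))

/-- The divisor `b Δ` is a Cartier divisor: at the centre of every prime divisor `Q` over `X` it is
the divisor of a function `g`. -/
def CartierMul (y : Fin (N + 1) → K) (n : ℕ) (b : ℕ) (Δ : Place ℂ K → ℚ) : Prop :=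
  ∀ Q : Place ℂ K, Divisorial n Q → ∃ g : K, g ≠ 0 ∧ ∀ P, IsPrimeDivisor y P → Through y P Q →
    (P.ord g : ℚ) = b * Δ P

end

/-- The variety `V` with generic point `v`, of dimension `d`, can replace the pair `(X, Δ)`, `y` being
the generic point and `n` the dimension of `X`: it is normal and projective, it has, without
boundary, log canonical singularities, and klt singularities if `(X, Δ)` is klt, `K_V` is nef if
`K_X + Δ` is nef, and `K_V` is semiample if and only if `K_X + Δ` is semiample. -/
structure Replaces {K M : Type} [Field K] [Algebra ℂ K] [Field M] [Algebra ℂ M] {N N' : ℕ}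
    (v : Fin (N' + 1) → M) (d : ℕ) (y : Fin (N + 1) → K) (n : ℕ) (Δ : Place ℂ K → ℚ) : Prop where
  normal : NormalModel v
  lc : LogCanonical v d 0
  klt : Klt y n Δ → Klt v d 0
  nef : LogNef y n Δ → CanonicalNef v d
  semiample : LogSemiample v d 0 ↔ LogSemiample y n Δ

/-- The abundance conjecture for the klt varieties (without boundary) of dimension `n` with function
field `K`: if `K_X` is nef, then it is semiample. -/
def VarietyAbundance (K : Type) [Field K] [Algebra ℂ K] (n : ℕ) : Prop :=
  ∀ (N : ℕ) (y : Fin (N + 1) → K), NormalModel y → Klt y n 0 → CanonicalNef y n →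
    LogSemiample y n 0

/-- The abundance conjecture for the klt pairs `(X, Δ)` of dimension `n` with function field `K` and
an effective `ℚ`-divisor `Δ` such that `b Δ` is Cartier: if `K_X + Δ` is nef, then it is
semiample. -/
def PairAbundance (K : Type) [Field K] [Algebra ℂ K] (n b : ℕ) : Prop :=
  ∀ (N : ℕ) (y : Fin (N + 1) → K), NormalModel y → ∀ Δ : Place ℂ K → ℚ, Effective y Δ →
    CartierMul y n b Δ → Klt y n Δ → LogNef y n Δ → LogSemiample y n Δ

end Pool.Agent.H890
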