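import Pool.Agent.H890.Cov
import Pool.Agent.H890.KDefs

/-!
The covering space has klt singularities.
-/

set_option autoImplicit false
set_option linter.unusedSectionVars false
set_option linter.overlappingInstances false

open FF MvPolynomial Pool.Agent.W602.GT Pool.Agent.W603.LV Pool.Agent.Y172
  Pool.Agent.TH122.AB Pool.Agent.R887

namespace Pool.Agent.H890

section pow

variable {K : Type} [Field K] [Algebra ℂ K] {n : ℕ} {P : Place ℂ K}
  {ω : (Fin n → Derivation ℂ K K) → K} {c : ℚ}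

theorem ordGe_pow (h : OrdGe P ω c) (k : ℕ) : OrdGe P (fun D => ω D ^ k) (k * c) := by
  intro D hD
  by_cases h0 : ω D = 0
  · by_cases hk : k = 0
    · right
      change (k : ℚ) * c ≤ P.ord (ω D ^ k)
      rw [hk, pow_zero, P.ord_one]
      push_cast
      linarith
    · left
      change ω D ^ k = 0
      rw [h0, zero_pow hk]
  · right
    have h1 := (h D hD).resolve_left h0
    rw [P.ord_pow]
    push_cast
    have : (0 : ℚ) ≤ k := Nat.cast_nonneg k
    nlinarith

theorem ordEq_pow (h : OrdEq P ω c) (k : ℕ) : OrdEq P (fun D => ω D ^ k) (k * c) := by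
  refine ⟨ordGe_pow h.1 k, ?_⟩
  obtain ⟨D, hD, h0, h1⟩ := h.2
  refine ⟨D, hD, pow_ne_zero _ h0, ?_⟩
  rw [P.ord_pow]
  push_cast
  rw [h1]

/-- the value on a frame is not zero -/
theorem val_ne {m : ℕ} (hω : IsPluri m ω) {x : Fin n → K} {E : Fin n → Derivation ℂ K K}
    (hx : IsTranscendenceBasis ℂ x) (hE : ∀ i j, E i (x j) = if i = j then 1 else 0)
    (h : OrdEq P ω c) : ω E ≠ 0 := by
  obtain ⟨D, -, h0, -⟩ := h.2
  intro h1
  apply h0
  rw [pluri_coord hx hE hω D, h1, mul_zero]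

end pow

section ge

variable {M : Type} [Field M] [Algebra ℂ M] {n r : ℕ} {l : Fin (r + 2) → M} {P : Place ℂ M}

theorem dt_ge {x : Fin n → M} {t : Fin r → M} {D : Fin (n + r) → Derivation ℂ M M} {a : Fin n → ℤ}
    {c : Fin r → ℤ} (ha : ∀ u i, Ge P (a i) (D u (x i))) (hc : ∀ u p, Ge P (c p) (D u (t p))) :
    Ge P (∑ i, a i + ∑ p, c p) (dt x t D) := by
  unfold dt
  rw [← Matrix.det_transpose]
  refine ge_det P _ _ (fun v _ => (Fin.append a c : Fin (n + r) → ℤ) v) (fun v u => ?_) fun σ => ?_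
  · change Ge P ((Fin.append a c : Fin (n + r) → ℤ) v)
      (D u ((Fin.append x t : Fin (n + r) → M) v))
    refine Fin.addCases (fun i => ?_) (fun p => ?_) v
    · rw [Fin.append_left, Fin.append_left]
      exact ha u i
    · rw [Fin.append_right, Fin.append_right]
      exact hc u p
  · rw [Equiv.sum_comp σ (fun v => (Fin.append a c : Fin (n + r) → ℤ) v), Fin.sum_univ_add]
    simp only [Fin.append_left, Fin.append_right]
    exact le_rfl

theorem th_ge (hl : Sys l) {i : Fin (r + 1)} {s : Equiv.Perm (Fin (r + 2))} (hs : Adm i s)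
    (hs2 : P.ord (l (s (Fin.last (r + 1)))) = P.ord (l (s 0))) {b q : ℕ} (hb : r + 2 = 2 * b)
    {x : Fin n → M} {D : Fin (n + r) → Derivation ℂ M M} {κ a : ℤ} {c : M} (hc : Ge P a c)
    (hκ : Ge P κ (dt x (ts l s) D)) :
    Ge P (2 * (b * q) * κ + a - (r + 1) * q * ∑ p, P.ord (ts l s p)) (th l b q x c D) := by
  rw [th_frm hl hs]
  have h1 : frm (Fin.append x (ts l s)) (2 * (b * q)) (l (s 0) ^ ((r + 1) * (2 * (b * q))) * c /
      (∏ k, l k) ^ ((r + 1) * q)) D = dt x (ts l s) D ^ (2 * (b * q)) *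
        (l (s 0) ^ ((r + 1) * (2 * (b * q))) * c / (∏ k, l k) ^ ((r + 1) * q)) := rfl
  rw [h1]
  have h2 : l (s 0) ^ ((r + 1) * (2 * (b * q))) ≠ 0 := pow_ne_zero _ (hl.ne _)
  have h3 : ∏ k, l k ≠ 0 := Finset.prod_ne_zero_iff.2 fun k _ => hl.ne k
  have h4 : (∏ k, l k) ^ ((r + 1) * q) ≠ 0 := pow_ne_zero _ h3
  have h5 : Ge P (((r + 1) * (2 * (b * q)) : ℕ) * P.ord (l (s 0)) + a -
      ((r + 1) * q : ℕ) * ∑ k, P.ord (l k))
      (l (s 0) ^ ((r + 1) * (2 * (b * q))) * c / (∏ k, l k) ^ ((r + 1) * q)) := by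
    rcases hc with hc | hc
    · left
      rw [hc]
      simp
    · by_cases hc0 : c = 0
      · left
        rw [hc0]
        simp
      right
      rw [P.ord_div (mul_ne_zero h2 hc0) h4, P.ord_mul h2 hc0, P.ord_pow, P.ord_pow,
        ord_prod' P _ _ fun k _ => hl.ne k]
      linarith
  refine ((hκ.pow _).mul h5).mono (le_of_eq ?_)
  have hs3 := sum_sub s (fun k => P.ord (l k))
  rw [hs2, sub_self, add_zero] at hs3
  have hs4 : ∑ p : Fin r, (P.ord (l (s p.succ.castSucc)) - P.ord (l (s 0))) =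
      ∑ p, P.ord (ts l s p) := by
    refine Finset.sum_congr rfl fun p _ => ?_
    unfold ts
    rw [P.ord_div (hl.ne _) (hl.ne _)]
  rw [hs4] at hs3
  rw [hs3]
  have hb' : (r : ℤ) + 2 = 2 * b := by exact_mod_cast hb
  have hr : (r : ℤ) = 2 * b - 2 := by linarith
  push_cast
  rw [hr]
  ring

end ge

section

variable {K L M : Type} [Field K] [Field L] [Field M] [Algebra ℂ K] [Algebra ℂ L]
  [Algebra ℂ M] [Algebra K L] [Algebra L M] [Algebra K M] [IsScalarTower ℂ K L]
  [IsScalarTower ℂ L M] [IsScalarTower ℂ K M] [IsScalarTower K L M] [FiniteDimensional L M]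
  {N : ℕ} {y : Fin (N + 1) → K} {n r : ℕ} {G : Place ℂ K → ℤ}
  {S : Mod K L M y n r G} {b : ℕ} {z : M}

theorem ge_of_triv {P : Place ℂ M} (htr : ∀ f : K, P.ord (algebraMap K M f) = 0) (f : K) :
    Ge P 0 (algebraMap K M f) := Or.inr (htr f).ge

/-- from logarithmic to regular vector fields -/
theorem ordGe_of_log [Algebra.EssFiniteType ℂ M] {d : ℕ} (hd : Algebra.trdeg ℂ M = d)
    {P : Place ℂ M} (hP : Divisorial d P) {m : ℕ} {ω : (Fin d → Derivation ℂ M M) → M}
    (hω : IsPluri m ω) {c : ℤ}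
    (h : ∀ D : Fin d → Derivation ℂ M M, (∀ u, DerLog P (D u)) → Ge P c (ω D)) :
    OrdGe P ω (c - m) := by
  obtain ⟨X, E, i0, hl⟩ := exists_loc hd hP
  rw [hl.rg.ordGe_iff hω]
  by_cases h0 : ω E = 0
  · exact Or.inl h0
  right
  have h1 := h _ hl.log
  rw [pluri_diag hω, prod_lc] at h1
  have h2 := h1.resolve_left (mul_ne_zero (pow_ne_zero _ hl.ne) h0)
  rw [P.ord_mul (pow_ne_zero _ hl.ne) h0, P.ord_pow, hl.unif, mul_one] at h2
  have h3 : (c : ℚ) ≤ m + P.ord (ω E) := by exact_mod_cast h2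
  linarith

/-- the order along a place over a place of the base -/
theorem Cov.ge_over (h : Cov S b z) {P : Place ℂ M} (hP : Divisorial (n + r) P) {Q : Place ℂ K}
    {e : ℕ} (hPQ : Over P Q e) {q : ℕ} {η : (Fin n → Derivation ℂ K K) → K}
    (hη : IsPluri (2 * (b * q)) η) {a : ℤ} (ha : OrdGe Q η a) {x : Fin n → K}
    {E : Fin n → Derivation ℂ K K} (hx : IsTranscendenceBasis ℂ x)
    (hE : ∀ i j, E i (x j) = if i = j then 1 else 0) :
    OrdGe P (th S.lM b q (fun i => algebraMap K M (x i)) (algebraMap K M (η E)))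
      ((e * (2 * (b * q) + a) : ℤ) - (2 * (b * q) : ℕ)) := by
  classical
  have hessK := S.essK
  have hessM := S.essM
  have hQd : Divisorial n Q := div_base (L := M) (by rw [S.trdeg_KM]) hPQ hP
  obtain ⟨w, F, i0, hw⟩ := exists_loc h.trK hQd
  rw [th_change hx hw.bas hE hw.dual hη]
  refine ordGe_of_log h.trM hP (th_pluri S.sysM b q _ _) fun D hD => ?_
  obtain ⟨i, -, hi⟩ := Finset.exists_min_image Finset.univ
    (fun i : Fin (r + 1) => P.ord (S.lM i.castSucc)) ⟨0, Finset.mem_univ _⟩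
  obtain ⟨s, hs, hs1, hs2⟩ := exists_good S.sysM P fun i' => hi i' (Finset.mem_univ _)
  have htord : ∀ p, P.ord (ts S.lM s p) = P.ord (S.lM (s p.succ.castSucc)) -
      P.ord (S.lM (s 0)) := fun p => by
    unfold ts
    rw [P.ord_div (S.sysM.ne _) (S.sysM.ne _)]
  have hT : 0 ≤ ∑ p, P.ord (ts S.lM s p) := Finset.sum_nonneg fun p _ => by
    rw [htord]
    have := hs1 (s p.succ.castSucc)
    omega
  have hdt := dt_ge (P := P) (x := fun i => algebraMap K M (w i)) (t := ts S.lM s) (D := D)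
    (a := fun i => if i = i0 then (e : ℤ) else 0) (c := fun p => P.ord (ts S.lM s p))
    (fun u i => by
      split_ifs with hi
      · rw [hi]
        refine DerLog.ge (hD u) (Or.inr ?_)
        rw [hPQ.2, hw.unif, mul_one]
      · exact DerLog.ge (hD u) (hPQ.reg.2 (hw.reg i)))
    (fun u p => DerLog.ge (hD u) (ge_ord P _))
  rw [Finset.sum_ite_eq' Finset.univ i0, if_pos (Finset.mem_univ _)] at hdt
  have hηge : Ge P (e * a) (algebraMap K M (η F)) := by
    rcases (hw.rg.ordGe_iff hη).1 ha with h1 | h1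
    · left
      rw [h1, map_zero]
    · right
      rw [hPQ.2]
      have h2 : a ≤ Q.ord (η F) := by exact_mod_cast h1
      have h3 : (0 : ℤ) ≤ e := Int.natCast_nonneg _
      nlinarith
  refine (th_ge S.sysM hs hs2 h.hb hηge hdt (q := q)).mono ?_
  obtain ⟨T, hT'⟩ : ∃ T, T = ∑ p, P.ord (ts S.lM s p) := ⟨_, rfl⟩
  rw [← hT'] at hT ⊢
  have hb' : (r : ℤ) + 2 = 2 * b := by exact_mod_cast h.hb
  have hr : (r : ℤ) = 2 * b - 2 := by linarith
  rw [hr]
  have h4 : (0 : ℤ) ≤ q * T := mul_nonneg (Int.natCast_nonneg _) hT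
  linarith

/-- the order along a place which is trivial on the base -/
theorem Cov.ge_triv (h : Cov S b z) {P : Place ℂ M} (hP : Divisorial (n + r) P)
    (htr : ∀ f : K, P.ord (algebraMap K M f) = 0) {q : ℕ} (hq : 0 < q) {x : Fin n → K} {c : K} :
    OrdGe P (th S.lM b q (fun i => algebraMap K M (x i)) (algebraMap K M c))
      (1 - (2 * (b * q) : ℕ)) := by
  classical
  have hessM := S.essM
  have hb1 : 1 ≤ b := by
    have := h.hb
    omega
  obtain ⟨i, -, hi⟩ := Finset.exists_min_image Finset.univ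
    (fun i : Fin (r + 1) => P.ord (S.lM i.castSucc)) ⟨0, Finset.mem_univ _⟩
  obtain ⟨s, hs, hs1, hs2⟩ := exists_good S.sysM P fun i' => hi i' (Finset.mem_univ _)
  have htord : ∀ p, P.ord (ts S.lM s p) = P.ord (S.lM (s p.succ.castSucc)) -
      P.ord (S.lM (s 0)) := fun p => by
    unfold ts
    rw [P.ord_div (S.sysM.ne _) (S.sysM.ne _)]
  have hT0 : ∀ p, 0 ≤ P.ord (ts S.lM s p) := fun p => by
    rw [htord]
    have := hs1 (s p.succ.castSucc)
    omega
  by_cases hT : ∑ p, P.ord (ts S.lM s p) = 0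
  · have hT' : ∀ p, P.ord (ts S.lM s p) = 0 := fun p =>
      (Finset.sum_eq_zero_iff_of_nonneg fun p _ => hT0 p).1 hT p (Finset.mem_univ _)
    intro D hD
    have hdt := dt_ge (P := P) (x := fun i => algebraMap K M (x i)) (t := ts S.lM s) (D := D)
      (a := fun _ => 0) (c := fun _ => 0)
      (fun u i => hD u _ (ge_of_triv htr _)) (fun u p => hD u _ (Or.inr (hT' p).ge))
    simp only [Finset.sum_const_zero, add_zero] at hdt
    have h1 := th_ge S.sysM hs hs2 h.hb (ge_of_triv htr c) hdt (q := q)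
    rw [hT] at h1
    simp only [mul_zero, add_zero, sub_zero] at h1
    refine h1.imp_right fun h2 => ?_
    have h3 : (0 : ℚ) ≤ P.ord (th S.lM b q (fun i => algebraMap K M (x i))
      (algebraMap K M c) D) := by exact_mod_cast h2
    have h4 : 1 ≤ 2 * (b * q) := by
      have : 1 ≤ b * q := Nat.mul_pos hb1 hq
      omega
    have h5 : (1 : ℚ) ≤ (2 * (b * q) : ℕ) := by exact_mod_cast h4
    linarith
  · have hT1 : 1 ≤ ∑ p, P.ord (ts S.lM s p) := by
      have := Finset.sum_nonneg fun p (_ : p ∈ Finset.univ) => hT0 p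
      omega
    have h1 := ordGe_of_log h.trM hP (th_pluri S.sysM b q (fun i => algebraMap K M (x i))
      (algebraMap K M c)) (c := 1) fun D hD => by
        have hdt := dt_ge (P := P) (x := fun i => algebraMap K M (x i)) (t := ts S.lM s) (D := D)
          (a := fun _ => 0) (c := fun p => P.ord (ts S.lM s p))
          (fun u i => DerLog.ge (hD u) (ge_of_triv htr _))
          (fun u p => DerLog.ge (hD u) (ge_ord P _))
        simp only [Finset.sum_const_zero, zero_add] at hdt
        refine (th_ge S.sysM hs hs2 h.hb (ge_of_triv htr c) hdt (q := q)).mono ?_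
        obtain ⟨T, hT'⟩ : ∃ T, T = ∑ p, P.ord (ts S.lM s p) := ⟨_, rfl⟩
        rw [← hT'] at hT1 ⊢
        have hb' : (r : ℤ) + 2 = 2 * b := by exact_mod_cast h.hb
        have hr : (r : ℤ) = 2 * b - 2 := by linarith
        rw [hr]
        have h4 : (1 : ℤ) ≤ q := by exact_mod_cast hq
        nlinarith
    exact_mod_cast h1

/-- compatibility of the centres -/
theorem Cov.through (h : Cov S b z) {P P' : Place ℂ M} (hT : Through S.v P' P) {Q Q' : Place ℂ K}
    {e e' : ℕ} (hPQ : Over P Q e) (hPQ' : Over P' Q' e') : Through y Q' Q :=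
  fun _ hf => hPQ'.reg.1 (hT _ (S.local_le hPQ hf))

theorem Cov.through_triv (h : Cov S b z) {P P' : Place ℂ M} (hT : Through S.v P' P)
    (htr : ∀ f : K, P.ord (algebraMap K M f) = 0) (f : K) : P'.ord (algebraMap K M f) = 0 := by
  by_cases hf : f = 0
  · rw [hf, map_zero, P'.ord_zero]
  have h1 := reg_ord_nonneg (hT _ (S.local_triv htr f))
  have h2 := reg_ord_nonneg (hT _ (S.local_triv htr f⁻¹))
  rw [map_inv₀, P'.ord_inv] at h2
  omega

/-- **The form generates the canonical divisor of the covering space.** -/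
theorem Cov.gen0 (h : Cov S b z) {P : Place ℂ M} {Q : Place ℂ K} {e : ℕ}
    (hPQ : Over P Q e) {q : ℕ} {η : (Fin n → Derivation ℂ K K) → K}
    (hη : IsPluri (2 * (b * q)) η)
    (hgen : ∀ D, IsPrimeDivisor y D → Through y D Q → OrdEq D η (-(2 * q * G D) : ℤ))
    {x : Fin n → K} {E : Fin n → Derivation ℂ K K} (hx : IsTranscendenceBasis ℂ x)
    (hE : ∀ i j, E i (x j) = if i = j then 1 else 0) {P' : Place ℂ M}
    (hP' : IsPrimeDivisor S.v P') (hT : Through S.v P' P) :
    OrdEq P' (th S.lM b q (fun i => algebraMap K M (x i)) (algebraMap K M (η E))) 0 := by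
  by_cases htr : ∀ f : K, P'.ord (algebraMap K M f) = 0
  · refine h.hor hP' htr q hx hE ?_
    obtain ⟨D, hD, hDQ⟩ := exists_through S.ny Q
    exact val_ne hη hx hE (hgen D hD hDQ)
  · push Not at htr
    obtain ⟨e', Q', hPQ'⟩ := FF.exists_over P' htr
    obtain ⟨hQ', -, -, h4⟩ := h.ver hP' hPQ'
    have h5 := h4 q η hη _ (hgen Q' hQ' (h.through hT hPQ hPQ')) x E hx hE
    have h6 : (-(2 * q * G Q') + 2 * q * G Q' : ℤ) = 0 := by ring
    rw [h6] at h5
    exact_mod_cast h5

/-- klt pairs are log canonical -/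
theorem Klt.lc {Δ : Place ℂ K → ℚ} (h : Klt y n Δ) : LogCanonical y n Δ := by
  intro Q hQ
  obtain ⟨r, hr, η, h1, h2, h3⟩ := h Q hQ
  refine ⟨r, hr, η, h1, h2, fun E hE => (h3 E hE).imp_right fun h4 => ?_⟩
  linarith

/-- **The covering space is log canonical.** -/
theorem Cov.lc (h : Cov S b z) {Δ : Place ℂ K → ℚ}
    (hG : ∀ P, IsPrimeDivisor y P → (G P : ℚ) = b * Δ P) (hlc : LogCanonical y n Δ) :
    LogCanonical S.v (n + r) 0 := by
  have hb1 : 1 ≤ b := by
    have := h.hb
    omega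
  obtain ⟨x, E, hx, hE⟩ := exists_crd h.trK
  intro P hP
  by_cases htr : ∀ f : K, P.ord (algebraMap K M f) = 0
  · refine ⟨2 * (b * 1), by omega, th S.lM b 1 (fun i => algebraMap K M (x i)) (algebraMap K M 1),
      th_pluri S.sysM _ _ _ _, fun P' hP' hT => ?_, fun D hD =>
        (h.ge_triv hP htr one_pos D hD).imp_right fun h4 => by linarith⟩
    have h1 := h.hor hP' (h.through_triv hT htr) 1 hx hE (one_ne_zero (α := K))
    simpa using h1
  · push Not at htr
    obtain ⟨e, Q, hPQ⟩ := FF.exists_over P htr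
    have hQd : Divisorial n Q := div_base (L := M) (by rw [S.trdeg_KM]) hPQ hP
    obtain ⟨q, hq, η₀, hη₀, hgen₀, hge₀⟩ := hlc Q hQd
    obtain ⟨η, hηd⟩ : ∃ η : (Fin n → Derivation ℂ K K) → K, η = fun D => η₀ D ^ (2 * b) :=
      ⟨_, rfl⟩
    have hη : IsPluri (2 * (b * q)) η := by
      have h1 := pluri_pow hη₀ (2 * b)
      rw [show q * (2 * b) = 2 * (b * q) by ring] at h1
      rw [hηd]
      exact h1
    have hgen : ∀ D, IsPrimeDivisor y D → Through y D Q → OrdEq D η (-(2 * q * G D) : ℤ) := by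
      intro D hD hDQ
      have h1 := ordEq_pow (hgen₀ D hD hDQ) (2 * b)
      rw [← hηd] at h1
      have h2 : ((2 * b : ℕ) : ℚ) * (-(q * Δ D)) = (-(2 * q * G D) : ℤ) := by
        push_cast
        rw [hG D hD]
        ring
      rw [h2] at h1
      exact h1
    have hge : OrdGe Q η (- (2 * (b * q)) : ℤ) := by
      have h1 := ordGe_pow hge₀ (2 * b)
      rw [← hηd] at h1
      have h2 : ((2 * b : ℕ) : ℚ) * (- q) = (- (2 * (b * q)) : ℤ) := by
        push_cast
        ring
      rw [h2] at h1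
      exact h1
    have hpos : 0 < 2 * (b * q) := by
      have : 0 < b * q := Nat.mul_pos hb1 hq
      omega
    refine ⟨2 * (b * q), hpos, th S.lM b q (fun i => algebraMap K M (x i)) (algebraMap K M (η E)),
      th_pluri S.sysM _ _ _ _, fun P' hP' hT => ?_, ?_⟩
    · have h1 := h.gen0 hPQ hη hgen hx hE hP' hT
      simpa using h1
    · have h1 := h.ge_over hP hPQ hη hge hx hE
      refine h1.mono ?_
      have h2 : (e * (2 * (b * q) + (- (2 * (b * q)))) : ℤ) = 0 := by ring
      rw [h2]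
      push_cast
      linarith

/-- **The covering space is klt.** -/
theorem Cov.klt (h : Cov S b z) {Δ : Place ℂ K → ℚ}
    (hG : ∀ P, IsPrimeDivisor y P → (G P : ℚ) = b * Δ P) (hklt : Klt y n Δ) :
    Klt S.v (n + r) 0 := by
  have hb1 : 1 ≤ b := by
    have := h.hb
    omega
  obtain ⟨x, E, hx, hE⟩ := exists_crd h.trK
  intro P hP
  by_cases htr : ∀ f : K, P.ord (algebraMap K M f) = 0
  · refine ⟨2 * (b * 1), by omega, th S.lM b 1 (fun i => algebraMap K M (x i)) (algebraMap K M 1),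
      th_pluri S.sysM _ _ _ _, fun P' hP' hT => ?_, h.ge_triv hP htr one_pos⟩
    have h1 := h.hor hP' (h.through_triv hT htr) 1 hx hE (one_ne_zero (α := K))
    simpa using h1
  · push Not at htr
    obtain ⟨e, Q, hPQ⟩ := FF.exists_over P htr
    have hQd : Divisorial n Q := div_base (L := M) (by rw [S.trdeg_KM]) hPQ hP
    obtain ⟨q, hq, η₀, hη₀, hgen₀, hge₀⟩ := hklt Q hQd
    obtain ⟨η, hηd⟩ : ∃ η : (Fin n → Derivation ℂ K K) → K, η = fun D => η₀ D ^ (2 * b) :=
      ⟨_, rfl⟩
    have hη : IsPluri (2 * (b * q)) η := by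
      have h1 := pluri_pow hη₀ (2 * b)
      rw [show q * (2 * b) = 2 * (b * q) by ring] at h1
      rw [hηd]
      exact h1
    have hgen : ∀ D, IsPrimeDivisor y D → Through y D Q → OrdEq D η (-(2 * q * G D) : ℤ) := by
      intro D hD hDQ
      have h1 := ordEq_pow (hgen₀ D hD hDQ) (2 * b)
      rw [← hηd] at h1
      have h2 : ((2 * b : ℕ) : ℚ) * (-(q * Δ D)) = (-(2 * q * G D) : ℤ) := by
        push_cast
        rw [hG D hD]
        ring
      rw [h2] at h1
      exact h1
    have hge : OrdGe Q η (2 * b - 2 * (b * q) : ℤ) := by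
      have h1 := ordGe_pow hge₀ (2 * b)
      rw [← hηd] at h1
      have h2 : ((2 * b : ℕ) : ℚ) * (1 - q) = (2 * b - 2 * (b * q) : ℤ) := by
        push_cast
        ring
      rw [h2] at h1
      exact h1
    have hpos : 0 < 2 * (b * q) := by
      have : 0 < b * q := Nat.mul_pos hb1 hq
      omega
    refine ⟨2 * (b * q), hpos, th S.lM b q (fun i => algebraMap K M (x i)) (algebraMap K M (η E)),
      th_pluri S.sysM _ _ _ _, fun P' hP' hT => ?_, ?_⟩
    · have h1 := h.gen0 hPQ hη hgen hx hE hP' hT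
      simpa using h1
    · have h1 := h.ge_over hP hPQ hη hge hx hE
      refine h1.mono ?_
      have h2 : (1 : ℤ) ≤ e * (2 * (b * q) + (2 * b - 2 * (b * q))) := by
        have h3 : (1 : ℤ) ≤ e := by exact_mod_cast hPQ.1
        have h4 : (1 : ℤ) ≤ b := by exact_mod_cast hb1
        nlinarith
      have h3 : (1 : ℚ) ≤ ((e * (2 * (b * q) + (2 * b - 2 * (b * q))) : ℤ) : ℚ) := by
        exact_mod_cast h2
      linarith

end

end Pool.Agent.H890
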