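import Pool.Agent.H890.Ca3
import Pool.Agent.H890.Res3
import Pool.Agent.H890.Klt
import Pool.Agent.H890.Gn1

/-!
Sections of a fibration (interface).
-/

set_option autoImplicit false
set_option linter.unusedSectionVars false
set_option linter.overlappingInstances false

open FF MvPolynomial Pool.Agent.W602.GT Pool.Agent.W603.LV Pool.Agent.Y172
  Pool.Agent.TH122.AB Pool.Agent.R887

namespace Pool.Agent.H890

/-- A section of the map from `V` (generic point `v`, dimension `d`) to `X` (generic point `y`,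
dimension `n`): the place `W` has its centre at the generic point of the section, and for the place
`Q` of `K` the place `sec Q` has its centre at the point of the section over the centre of `Q`. The
functions in the local rings have residues on the section. -/
structure Sct {K M : Type} [Field K] [Field M] [Algebra ℂ K] [Algebra ℂ M] [Algebra K M]
    {N N' : ℕ} (y : Fin (N + 1) → K) (n : ℕ) (v : Fin (N' + 1) → M) (d : ℕ) (W : Place ℂ M)
    (sec : Place ℂ K → Place ℂ M) : Prop where
  triv : ∀ f : K, W.ord (algebraMap K M f) = 0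
  res : ∀ b ∈ localRing v W, ∃ κ : K, Ge W 1 (b - algebraMap K M κ)
  div : ∀ Q, Divisorial n Q → Divisorial d (sec Q)
  ovr : ∀ Q, Divisorial n Q → ∃ e, Over (sec Q) Q e
  gen : ∀ Q, Divisorial n Q → ∀ b ∈ localRing v (sec Q), b ∈ localRing v W ∧
    ∃ κ ∈ localRing y Q, Ge W 1 (b - algebraMap K M κ)
  le : ∀ D Q, IsPrimeDivisor y D → Divisorial n D → Divisorial n Q → Through y D Q →
    ∀ b ∈ localRing v (sec Q), b ∈ localRing v (sec D)
  hyp : ∃ (c : ℕ) (v₀ : M), v₀ ≠ 0 ∧ ∀ Q, Divisorial n Q → ∃ (l : Fin (N' + 1)) (g : K),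
    Centred v l (sec Q) ∧ g ≠ 0 ∧ v l = v₀ * algebraMap K M g ∧
      ∀ D, IsPrimeDivisor y D → Through y D Q → ∀ j, Centred y j D → D.ord g = c * D.ord (y j)

/-- the conjugate of a derivation by an automorphism -/
noncomputable def cnj {M : Type} [Field M] [Algebra ℂ M] (ψ : M ≃ₐ[ℂ] M) (D : Derivation ℂ M M) :
    Derivation ℂ M M :=
  Derivation.mk' ((ψ : M →ₗ[ℂ] M) ∘ₗ (D : M →ₗ[ℂ] M) ∘ₗ (ψ.symm : M →ₗ[ℂ] M)) fun a b => by
    simp only [LinearMap.comp_apply, smul_eq_mul]
    change ψ (D (ψ.symm (a * b))) = a * ψ (D (ψ.symm b)) + b * ψ (D (ψ.symm a))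
    rw [map_mul, D.leibniz, map_add, smul_eq_mul, smul_eq_mul, map_mul, map_mul,
      AlgEquiv.apply_symm_apply, AlgEquiv.apply_symm_apply]

theorem cnj_apply {M : Type} [Field M] [Algebra ℂ M] (ψ : M ≃ₐ[ℂ] M) (D : Derivation ℂ M M)
    (f : M) : cnj ψ D f = ψ (D (ψ.symm f)) := rfl

/-- the image of a form under an automorphism -/
noncomputable def trf {M : Type} [Field M] [Algebra ℂ M] {d : ℕ} (ψ : M ≃ₐ[ℂ] M)
    (ω : (Fin d → Derivation ℂ M M) → M) (D : Fin d → Derivation ℂ M M) : M :=
  ψ (ω fun i => cnj ψ.symm (D i))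

end Pool.Agent.H890
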