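import Pool.Graph.R_seed8.Y172.Cov2

/-!
Ramification in Kummer extensions.
-/

set_option autoImplicit false
set_option linter.unusedSectionVars false
set_option linter.overlappingInstances false

open FF Polynomial Pool.Agent.W602.GT Pool.Agent.W603.LV Pool.Agent.Y172

namespace Pool.Agent.H890

section

variable {k L M : Type} [Field k] [Field L] [Field M] [Algebra k L] [Algebra k M] [Algebra L M]
  [IsScalarTower k L M]

theorem sum_distinct {Q : Place k M} {ι : Type} [DecidableEq ι] (s : Finset ι) (hs : s.Nonempty)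
    (f : ι → M) (hf : ∀ i ∈ s, f i ≠ 0)
    (hd : ∀ i ∈ s, ∀ j ∈ s, i ≠ j → Q.ord (f i) ≠ Q.ord (f j)) :
    ∑ i ∈ s, f i ≠ 0 ∧ ∃ i ∈ s, Q.ord (∑ i ∈ s, f i) = Q.ord (f i) ∧
      ∀ j ∈ s, Q.ord (f i) ≤ Q.ord (f j) := by
  classical
  induction s using Finset.induction_on with
  | empty => exact absurd hs (by simp)
  | insert a s ha ih =>
    by_cases hs' : s.Nonempty
    · obtain ⟨h1, i, hi, h2, h3⟩ := ih hs' (fun i hi => hf i (Finset.mem_insert_of_mem hi))
        fun i hi j hj => hd i (Finset.mem_insert_of_mem hi) j (Finset.mem_insert_of_mem hj)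
      have h4 : Q.ord (f a) ≠ Q.ord (f i) := hd a (Finset.mem_insert_self _ _) i
        (Finset.mem_insert_of_mem hi) (fun h => ha (h ▸ hi))
      have hfa := hf a (Finset.mem_insert_self _ _)
      rw [Finset.sum_insert ha]
      rcases lt_or_gt_of_ne h4 with h5 | h5
      · obtain ⟨h6, h7⟩ := Q.ord_add_eq hfa h1 (by rw [h2]; exact h5)
        refine ⟨h6, a, Finset.mem_insert_self _ _, h7, fun j hj => ?_⟩
        rcases Finset.mem_insert.1 hj with rfl | hj
        · exact le_rfl
        · exact h5.le.trans (h3 j hj)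
      · obtain ⟨h6, h7⟩ := Q.ord_add_eq h1 hfa (by rw [h2]; exact h5)
        rw [add_comm] at h6 h7
        refine ⟨h6, i, Finset.mem_insert_of_mem hi, by rw [h7, h2], fun j hj => ?_⟩
        rcases Finset.mem_insert.1 hj with rfl | hj
        · exact h5.le
        · exact h3 j hj
    · rw [Finset.not_nonempty_iff_eq_empty] at hs'
      subst hs'
      refine ⟨?_, a, by simp, by simp, ?_⟩
      · simpa using hf a (Finset.mem_insert_self _ _)
      · intro j hj
        have : j = a := by simpa using hj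
        rw [this]

/-- the powers of `z` are linearly independent if the order of `z` has large order modulo `e` -/
theorem indep_pow {Q : Place k M} {P : Place k L} {e : ℕ} (h : Over Q P e) {z : M} (hz : z ≠ 0)
    {N : ℕ} (hN : ∀ i j : ℕ, i < N → j < N → (e : ℤ) ∣ (i - j : ℤ) * Q.ord z → i = j) :
    LinearIndependent L (fun i : Fin N => z ^ (i : ℕ)) := by
  classical
  rw [Fintype.linearIndependent_iff]
  intro g hg
  by_contra hcon
  push Not at hcon
  obtain ⟨i0, hi0⟩ := hcon
  have h1 : ∑ i ∈ Finset.univ.filter (fun i => g i ≠ 0), g i • z ^ (i : ℕ) = 0 := by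
    rw [Finset.sum_filter]
    refine Eq.trans (Finset.sum_congr rfl fun i _ => ?_) hg
    by_cases hi : g i = 0
    · rw [if_neg (by simpa using hi), hi, zero_smul]
    · rw [if_pos hi]
  have h2 := (sum_distinct (Q := Q) (Finset.univ.filter (fun i => g i ≠ 0))
    ⟨i0, by simpa using hi0⟩ (fun i : Fin N => g i • z ^ (i : ℕ)) (fun i hi => by
      have hi' : g i ≠ 0 := by simpa using hi
      rw [Algebra.smul_def]
      refine mul_ne_zero ?_ (pow_ne_zero _ hz)
      rwa [Ne, map_eq_zero]) (fun i hi j hj hij heq => by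
      have hi' : g i ≠ 0 := by simpa using hi
      have hj' : g j ≠ 0 := by simpa using hj
      have hi'' : algebraMap L M (g i) ≠ 0 := by rwa [Ne, map_eq_zero]
      have hj'' : algebraMap L M (g j) ≠ 0 := by rwa [Ne, map_eq_zero]
      rw [Algebra.smul_def, Algebra.smul_def, Q.ord_mul hi'' (pow_ne_zero _ hz),
        Q.ord_mul hj'' (pow_ne_zero _ hz), h.2, h.2, Q.ord_pow, Q.ord_pow] at heq
      apply hij
      apply Fin.ext
      refine hN i j i.2 j.2 ⟨P.ord (g j) - P.ord (g i), ?_⟩
      linarith)).1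
  exact h2 h1

theorem over_le [FiniteDimensional L M] {Q : Place k M} {P : Place k L} {e : ℕ}
    (h : Over Q P e) : e ≤ Module.finrank L M := by
  obtain ⟨z, hz0, hz⟩ := Q.surj
  have h1 : LinearIndependent L (fun i : Fin e => z ^ (i : ℕ)) := by
    refine indep_pow h hz0 fun i j hi hj hd => ?_
    rw [hz, mul_one] at hd
    by_contra hne
    rcases lt_or_gt_of_ne hne with h3 | h3
    · have h4 : (e : ℤ) ∣ (j - i : ℤ) := by
        have := dvd_neg.2 hd
        rwa [neg_sub] at this
      have := Int.le_of_dvd (by omega) h4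
      omega
    · have := Int.le_of_dvd (by omega) hd
      omega
  have h2 := h1.fintype_card_le_finrank
  rwa [Fintype.card_fin] at h2

/-- **Kummer extensions by units are unramified.** -/
theorem kummer_unr [CharZero k] {Q : Place k M} {P : Place k L} {e : ℕ} (h : Over Q P e)
    {N : ℕ} (hN : 0 < N) {z : M} {φ : L} (hφ : φ ≠ 0) (hφP : P.ord φ = 0)
    (hz : z ^ N = algebraMap L M φ) (hgen : ∀ x : M, ∃ p : L[X], x = aeval z p) : e = 1 := by
  classical
  have he : (0 : ℤ) < e := by exact_mod_cast h.1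
  have hcL : CharZero L := charZero_of_injective_algebraMap (algebraMap k L).injective
  have hz0 : z ≠ 0 := by
    rintro rfl
    rw [zero_pow hN.ne'] at hz
    exact hφ ((map_eq_zero _).1 hz.symm)
  have hzQ : Q.ord z = 0 := by
    have h1 := congrArg Q.ord hz
    rw [Q.ord_pow, h.2, hφP, mul_zero] at h1
    rcases mul_eq_zero.1 h1 with h2 | h2
    · omega
    · exact h2
  obtain ⟨ev, hevC, hevX, hevsum, hevmap⟩ : ∃ ev : P.O[X] →+* M,
      (∀ a : P.O, ev (C a) = algebraMap L M (a : L)) ∧ ev X = z ∧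
      (∀ G : P.O[X], ev G = ∑ i ∈ G.support, algebraMap L M (G.coeff i : L) * z ^ i) ∧
      ∀ G : P.O[X], ev G = aeval z (G.map (P.O.subtype : P.O →+* L)) := by
    refine ⟨Polynomial.eval₂RingHom ((algebraMap L M).comp P.O.subtype) z, fun a => ?_, ?_,
      fun G => ?_, fun G => ?_⟩
    · rw [coe_eval₂RingHom, eval₂_C]
      rfl
    · rw [coe_eval₂RingHom, eval₂_X]
    · rw [coe_eval₂RingHom, eval₂_def, Polynomial.sum]
      rfl
    · rw [coe_eval₂RingHom, aeval_def, eval₂_map]
  have hzi : ∀ i : ℕ, Ge Q 0 (z ^ i) := fun i => Or.inr (by rw [Q.ord_pow, hzQ, mul_zero])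
  have hc0 : ∀ a : P.O, Ge Q 0 (algebraMap L M (a : L)) := fun a => h.reg.2 a.2
  have hc1 : ∀ a : P.O, Ge P 1 (a : L) → Ge Q 1 (algebraMap L M (a : L)) := fun a ha =>
    ((over_ge h).2 ha).mono (by omega)
  have hev0 : ∀ G : P.O[X], Ge Q 0 (ev G) := fun G => by
    rw [hevsum]
    refine Ge.sum _ _ fun i _ => ?_
    have := (hc0 (G.coeff i)).mul (hzi i)
    rwa [add_zero] at this
  have hev1 : ∀ G : P.O[X], (∀ i, Ge P 1 (G.coeff i : L)) → Ge Q 1 (ev G) := fun G hG => by
    rw [hevsum]
    refine Ge.sum _ _ fun i _ => ?_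
    have := (hc1 (G.coeff i) (hG i)).mul (hzi i)
    rwa [add_zero] at this
  -- elements of `O` which are not in the maximal ideal
  have hunit : ∀ a : P.O, ¬ Ge P 1 (a : L) → IsUnit a := fun a ha => by
    have h1 : (a : L) ≠ 0 := fun h0 => ha (Or.inl h0)
    have h2 := (P.reg_iff h1).1 a.2
    have h3 : ¬ (1 : ℤ) ≤ P.ord (a : L) := fun h4 => ha (Or.inr h4)
    exact (P.isUnit_O_iff a.2).2 ⟨h1, by omega⟩
  -- the minimal polynomial modulo the maximal ideal
  obtain ⟨φO, hφO⟩ : ∃ φO : P.O, (φO : L) = φ := ⟨⟨φ, Or.inr hφP.ge⟩, rfl⟩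
  obtain ⟨T, hT⟩ : ∃ T : P.O[X], T = X ^ N - C φO := ⟨_, rfl⟩
  have hTm : T.Monic := by
    rw [hT]
    exact monic_X_pow_sub_C _ hN.ne'
  have hTev : ev T = 0 := by
    rw [hT, map_sub, map_pow, hevX, hevC, hφO, hz, sub_self]
  have hex : ∃ d : ℕ, ∃ G : P.O[X], G.Monic ∧ G.natDegree = d ∧ Ge Q 1 (ev G) :=
    ⟨T.natDegree, T, hTm, rfl, by rw [hTev]; exact Ge.zero⟩
  obtain ⟨m₀, hm₀m, hm₀d, hm₀⟩ := Nat.find_spec hex
  have hmin : ∀ G : P.O[X], G.Monic → Ge Q 1 (ev G) → m₀.natDegree ≤ G.natDegree :=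
    fun G hG hG1 => by
      rw [hm₀d]
      exact Nat.find_min' hex ⟨G, hG, rfl, hG1⟩
  have hm₀1 : m₀ ≠ 1 := by
    rintro rfl
    rw [map_one] at hm₀
    rcases hm₀ with h1 | h1
    · exact one_ne_zero h1
    · rw [Q.ord_one] at h1
      omega
  -- polynomials of small degree
  have hsmall : ∀ B : P.O[X], B.degree < m₀.degree → Ge Q 1 (ev B) →
      ∀ i, Ge P 1 (B.coeff i : L) := by
    intro B hB hB1
    by_contra hcon
    push Not at hcon
    obtain ⟨i0, hi0⟩ := hcon
    have hne : (B.support.filter fun i => ¬ Ge P 1 (B.coeff i : L)).Nonempty := by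
      refine ⟨i0, Finset.mem_filter.2 ⟨?_, hi0⟩⟩
      rw [mem_support_iff]
      intro h0
      apply hi0
      rw [h0]
      exact Or.inl rfl
    obtain ⟨d, hd, hdmax⟩ := Finset.exists_max_image _ (fun i => i) hne
    rw [Finset.mem_filter] at hd
    let B₁ : P.O[X] := ∑ i ∈ Finset.range (d + 1), C (B.coeff i) * X ^ i
    have hB₁c : ∀ i, B₁.coeff i = if i ≤ d then B.coeff i else 0 := fun i => by
      change (∑ j ∈ Finset.range (d + 1), C (B.coeff j) * X ^ j).coeff i = _
      rw [finsetSum_coeff]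
      simp only [coeff_C_mul, coeff_X_pow, mul_ite, mul_one, mul_zero]
      rw [Finset.sum_ite_eq]
      simp only [Finset.mem_range, Nat.lt_succ_iff]
    have hB2 : Ge Q 1 (ev (B - B₁)) := by
      apply hev1
      intro i
      rw [coeff_sub, hB₁c]
      split_ifs with hi
      · rw [sub_self]
        exact Or.inl rfl
      · rw [sub_zero]
        by_contra hcon
        have h1 : i ∈ B.support := by
          rw [mem_support_iff]
          intro h0
          apply hcon
          rw [h0]
          exact Or.inl rfl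
        exact hi (hdmax i (Finset.mem_filter.2 ⟨h1, hcon⟩))
    have hB₁1 : Ge Q 1 (ev B₁) := by
      have h1 : ev B₁ = ev B - ev (B - B₁) := by rw [map_sub]; ring
      rw [h1]
      exact hB1.sub hB2
    have hB₁d : B₁.natDegree = d := by
      apply le_antisymm
      · rw [natDegree_le_iff_coeff_eq_zero]
        intro i hi
        rw [hB₁c, if_neg (by omega)]
      · apply le_natDegree_of_ne_zero
        rw [hB₁c, if_pos le_rfl]
        exact mem_support_iff.1 hd.1
    obtain ⟨u, hu⟩ := hunit _ hd.2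
    let G : P.O[X] := C ((u⁻¹ : P.Oˣ) : P.O) * B₁
    have hGc : ∀ i, G.coeff i = ((u⁻¹ : P.Oˣ) : P.O) * B₁.coeff i := fun i => coeff_C_mul _
    have hGd : G.natDegree ≤ d := by
      rw [natDegree_le_iff_coeff_eq_zero]
      intro i hi
      rw [hGc, hB₁c, if_neg (by omega), mul_zero]
    have hGd1 : G.coeff d = 1 := by
      rw [hGc, hB₁c, if_pos le_rfl, ← hu, Units.inv_mul]
    have hGm : G.Monic := monic_of_natDegree_le_of_coeff_eq_one d hGd hGd1
    have hG1 : Ge Q 1 (ev G) := by
      have h1 : ev G = algebraMap L M (((u⁻¹ : P.Oˣ) : P.O) : L) * ev B₁ := by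
        change ev (C ((u⁻¹ : P.Oˣ) : P.O) * B₁) = _
        rw [map_mul, hevC]
      rw [h1]
      have := (hc0 ((u⁻¹ : P.Oˣ) : P.O)).mul hB₁1
      rwa [zero_add] at this
    have h2 := hmin G hGm hG1
    have h3 : d ≤ B.natDegree := le_natDegree_of_mem_supp _ hd.1
    have h4 : B.natDegree < m₀.natDegree := by
      apply natDegree_lt_natDegree _ hB
      intro h0
      rw [h0] at hd
      simp at hd
    omega
  -- division
  have hdiv : ∀ G : P.O[X], Ge Q 1 (ev G) → ∃ A B : P.O[X], G = m₀ * A + B ∧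
      ∀ i, Ge P 1 (B.coeff i : L) := by
    intro G hG
    refine ⟨G /ₘ m₀, G %ₘ m₀, ?_, ?_⟩
    · have := modByMonic_add_div G m₀
      rw [add_comm] at this
      exact this.symm
    · apply hsmall _ (degree_modByMonic_lt G hm₀m)
      have h1 : ev (G %ₘ m₀) = ev G - ev m₀ * ev (G /ₘ m₀) := by
        have h2 := congrArg ev (modByMonic_add_div G m₀)
        rw [map_add, map_mul] at h2
        rw [← h2]
        ring
      rw [h1]
      refine hG.sub ?_
      have := hm₀.mul (hev0 (G /ₘ m₀))
      rwa [add_zero] at this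
  obtain ⟨A, B, hTAB, hB⟩ := hdiv T (by rw [hTev]; exact Ge.zero)
  have hAev : ¬ Ge Q 1 (ev A) := by
    intro hA
    obtain ⟨A', B', hA', hB'⟩ := hdiv A hA
    have h1 : derivative T = m₀ * (2 * derivative m₀ * A' + m₀ * derivative A') +
        (derivative (m₀ * B') + derivative B) := by
      rw [hTAB, hA', derivative_add, derivative_mul, derivative_add, derivative_mul]
      rw [derivative_mul]
      ring
    have h2 : Ge Q 1 (ev (derivative T)) := by
      rw [h1, map_add ev, map_add ev (derivative (m₀ * B')) (derivative B), map_mul ev m₀]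
      refine Ge.add ?_ (Ge.add ?_ ?_)
      · have := hm₀.mul (hev0 (2 * derivative m₀ * A' + m₀ * derivative A'))
        rwa [add_zero] at this
      · apply hev1
        intro i
        rw [coeff_derivative]
        have h3 : ∀ i, Ge P 1 ((m₀ * B').coeff i : L) := by
          intro i
          rw [coeff_mul]
          have h4 : ((∑ x ∈ Finset.HasAntidiagonal.antidiagonal i, m₀.coeff x.1 * B'.coeff x.2 :
              P.O) : L) = ∑ x ∈ Finset.HasAntidiagonal.antidiagonal i,
                (m₀.coeff x.1 : L) * (B'.coeff x.2 : L) := by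
            rw [← P.O.coe_subtype, map_sum]
            rfl
          rw [h4]
          refine Ge.sum _ _ fun x _ => ?_
          have h5 : Ge P 0 (m₀.coeff x.1 : L) := (m₀.coeff x.1).2
          have := h5.mul (hB' x.2)
          rwa [zero_add] at this
        have h4 : ((((m₀ * B').coeff (i + 1) * ((i : P.O) + 1) : P.O)) : L) =
            ((m₀ * B').coeff (i + 1) : L) * ((i + 1 : ℕ) : L) := by
          push_cast
          rfl
        rw [h4]
        have := (h3 (i + 1)).mul (Ge.natCast (P := P) (i + 1))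
        rwa [add_zero] at this
      · apply hev1
        intro i
        rw [coeff_derivative]
        have h4 : (((B.coeff (i + 1) * ((i : P.O) + 1) : P.O)) : L) =
            (B.coeff (i + 1) : L) * ((i + 1 : ℕ) : L) := by
          push_cast
          rfl
        rw [h4]
        have := (hB (i + 1)).mul (Ge.natCast (P := P) (i + 1))
        rwa [add_zero] at this
    have h3 : ev (derivative T) = algebraMap k M (N : k) * z ^ (N - 1) := by
      rw [hT, derivative_sub, derivative_C, sub_zero, derivative_X_pow, map_mul, map_pow, hevX]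
      congr 1
      rw [hevC, map_natCast]
      have h5 : (((N : P.O)) : L) = (N : L) := by push_cast; rfl
      rw [h5, map_natCast]
    rw [h3] at h2
    have hNk : (N : k) ≠ 0 := by exact_mod_cast hN.ne'
    rcases h2 with h4 | h4
    · refine mul_ne_zero ?_ (pow_ne_zero _ hz0) h4
      rwa [Ne, map_eq_zero]
    · rw [Q.ord_mul (by rwa [Ne, map_eq_zero]) (pow_ne_zero _ hz0), Q.ord_const hNk, Q.ord_pow,
        hzQ] at h4
      omega
  -- the uniformizer
  obtain ⟨π, hπ0, hπ⟩ := P.surj
  obtain ⟨πO, hπO⟩ : ∃ πO : P.O, (πO : L) = π := ⟨⟨π, Or.inr (by omega)⟩, rfl⟩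
  have hfac : ∀ B : P.O[X], (∀ i, Ge P 1 (B.coeff i : L)) → ∃ B' : P.O[X],
      B = C πO * B' := by
    intro B hB
    have h1 : (C πO) ∣ B := by
      rw [C_dvd_iff_dvd_coeff]
      intro i
      have h2 : P.Reg ((B.coeff i : L) / π) := by
        rcases hB i with h3 | h3
        · rw [h3, zero_div]
          exact P.reg_zero
        · by_cases h0 : (B.coeff i : L) = 0
          · rw [h0, zero_div]
            exact P.reg_zero
          · right
            rw [P.ord_div h0 hπ0, hπ]
            omega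
      refine ⟨⟨_, h2⟩, ?_⟩
      apply Subtype.ext
      change (B.coeff i : L) = (πO : L) * ((B.coeff i : L) / π)
      rw [hπO, mul_div_cancel₀ _ hπ0]
    exact h1
  have hA0 : ev A ≠ 0 := fun h0 => hAev (Or.inl h0)
  have hAord : Q.ord (ev A) = 0 := by
    have h1 := (Q.reg_iff hA0).1 (hev0 A)
    have h2 : ¬ (1 : ℤ) ≤ Q.ord (ev A) := fun h3 => hAev (Or.inr h3)
    omega
  have hπM : algebraMap L M π ≠ 0 := by rwa [Ne, map_eq_zero]
  have hstep : ∀ G : P.O[X], Ge Q 1 (ev G) → ∃ G' : P.O[X],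
      ev G * ev A = algebraMap L M π * ev G' := by
    intro G hG
    obtain ⟨A₁, B₁, hG1, hB₁⟩ := hdiv G hG
    obtain ⟨C₁, hC₁⟩ := hfac B hB
    obtain ⟨C₂, hC₂⟩ := hfac B₁ hB₁
    refine ⟨- C₁ * A₁ + C₂ * A, ?_⟩
    have h1 : ev m₀ * ev A + ev B = 0 := by
      rw [← map_mul, ← map_add, ← hTAB, hTev]
    have h2 : ev B = algebraMap L M π * ev C₁ := by
      rw [hC₁, map_mul, hevC, hπO]
    have h3 : ev B₁ = algebraMap L M π * ev C₂ := by
      rw [hC₂, map_mul, hevC, hπO]
    have h5 : ev (- C₁ * A₁ + C₂ * A) = - ev C₁ * ev A₁ + ev C₂ * ev A := by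
      rw [map_add, map_mul, map_mul, map_neg]
    have h6 : ev G = ev m₀ * ev A₁ + algebraMap L M π * ev C₂ := by
      rw [hG1, map_add, map_mul, h3]
    rw [h5, h6]
    rw [h2] at h1
    have h4 : ev m₀ * ev A = - (algebraMap L M π * ev C₁) := eq_neg_of_add_eq_zero_left h1
    calc (ev m₀ * ev A₁ + algebraMap L M π * ev C₂) * ev A
        = (ev m₀ * ev A) * ev A₁ + algebraMap L M π * ev C₂ * ev A := by ring
      _ = _ := by rw [h4]; ring
  have hdvd : ∀ (a : ℕ) (G : P.O[X]), ev G ≠ 0 → Q.ord (ev G) ≤ a → (e : ℤ) ∣ Q.ord (ev G) := by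
    intro a
    induction a with
    | zero =>
      intro G hG0 hG
      have h1 := (Q.reg_iff hG0).1 (hev0 G)
      have h2 : Q.ord (ev G) = 0 := by
        push_cast at hG
        omega
      rw [h2]
      exact dvd_zero _
    | succ a ih =>
      intro G hG0 hG
      by_cases h1 : Q.ord (ev G) ≤ a
      · exact ih G hG0 h1
      have h2 : Ge Q 1 (ev G) := Or.inr (by
        have : (0 : ℤ) ≤ a := Int.natCast_nonneg a
        omega)
      obtain ⟨G', hG'⟩ := hstep G h2
      have hG'0 : ev G' ≠ 0 := by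
        intro h0
        rw [h0, mul_zero] at hG'
        exact mul_ne_zero hG0 hA0 hG'
      have h3 := congrArg Q.ord hG'
      rw [Q.ord_mul hG0 hA0, hAord, Q.ord_mul hπM hG'0, h.2, hπ, add_zero, mul_one] at h3
      have h4 := ih G' hG'0 (by push_cast at hG; omega)
      rw [h3]
      exact (dvd_refl _).add h4
  -- all elements
  have hall : ∀ x : M, x ≠ 0 → (e : ℤ) ∣ Q.ord x := by
    intro x hx
    obtain ⟨p, hp⟩ := hgen x
    obtain ⟨κ, hκ⟩ : ∃ κ : ℕ, ∀ i, P.Reg (π ^ κ * p.coeff i) := by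
      refine ⟨p.support.sup fun i => (- P.ord (p.coeff i)).toNat, fun i => ?_⟩
      by_cases hi : p.coeff i = 0
      · rw [hi, mul_zero]
        exact P.reg_zero
      right
      rw [P.ord_mul (pow_ne_zero _ hπ0) hi, P.ord_pow, hπ, mul_one]
      have h1 : (- P.ord (p.coeff i)).toNat ≤
          p.support.sup fun i => (- P.ord (p.coeff i)).toNat :=
        Finset.le_sup (f := fun i => (- P.ord (p.coeff i)).toNat) (mem_support_iff.2 hi)
      omega
    have h1 : (C (π ^ κ) * p) ∈ Polynomial.lifts (P.O.subtype : P.O →+* L) := by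
      rw [lifts_iff_coeff_lifts]
      intro i
      rw [coeff_C_mul]
      exact ⟨⟨_, hκ i⟩, rfl⟩
    obtain ⟨G, hG⟩ := (mem_lifts _).1 h1
    have h2 : ev G = algebraMap L M (π ^ κ) * x := by
      rw [hp]
      have h3 : algebraMap L M (π ^ κ) * aeval z p = aeval z (C (π ^ κ) * p) := by
        rw [map_mul, aeval_C]
      rw [h3, ← hG]
      exact hevmap G
    have hπκ : algebraMap L M (π ^ κ) ≠ 0 := by
      rw [Ne, map_eq_zero]
      exact pow_ne_zero _ hπ0
    have h3 := hdvd (Q.ord (ev G)).toNat G (by rw [h2]; exact mul_ne_zero hπκ hx) (by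
      exact Int.self_le_toNat _)
    rw [h2, Q.ord_mul hπκ hx, h.2] at h3
    exact (Int.dvd_add_right (dvd_mul_right _ _)).1 h3
  obtain ⟨x, hx0, hx⟩ := Q.surj
  have h1 := hall x hx0
  rw [hx] at h1
  have h2 : e ∣ 1 := by exact_mod_cast h1
  exact Nat.dvd_one.1 h2

end

end Pool.Agent.H890
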