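import Pool.Agent.H890.Ver
import Pool.Agent.H890.Unr

set_option autoImplicit false
set_option linter.unusedSectionVars false
set_option linter.overlappingInstances false

open FF MvPolynomial Pool.Agent.W602.GT Pool.Agent.W603.LV Pool.Agent.Y172
  Pool.Agent.TH122.AB Pool.Agent.R887

namespace Pool.Agent.H890

namespace KU

section elem

variable {k L M : Type} [Field k] [Field L] [Field M] [Algebra k L] [Algebra k M] [Algebra L M]
  [IsScalarTower k L M]

/-- a sum of elements of large order -/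
theorem sum_ge {P : Place k M} {ι : Type} (s : Finset ι) (f : ι → M) (B : ℤ)
    (h : ∀ i ∈ s, f i = 0 ∨ B ≤ P.ord (f i)) :
    ∑ i ∈ s, f i = 0 ∨ B ≤ P.ord (∑ i ∈ s, f i) := by
  classical
  induction s using Finset.induction_on with
  | empty => left; simp
  | insert a s ha ih =>
    have h1 := ih fun i hi => h i (Finset.mem_insert_of_mem hi)
    have h2 := h a (Finset.mem_insert_self _ _)
    rw [Finset.sum_insert ha]
    rcases h2 with h2 | h2
    · rw [h2, zero_add]
      exact h1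
    · rcases h1 with h1 | h1
      · rw [h1, add_zero]
        exact Or.inr h2
      · by_cases ha0 : f a = 0
        · rw [ha0, zero_add]
          exact Or.inr h1
        by_cases hs0 : ∑ i ∈ s, f i = 0
        · rw [hs0, add_zero]
          exact Or.inr h2
        by_cases hs1 : f a + ∑ i ∈ s, f i = 0
        · exact Or.inl hs1
        · exact Or.inr ((le_min h2 h1).trans (P.ord_add ha0 hs0 hs1))

theorem aeval_sum (z : M) (H : Polynomial L) :
    Polynomial.aeval z H = ∑ i ∈ H.support, algebraMap L M (H.coeff i) * z ^ i := by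
  rw [Polynomial.aeval_def, Polynomial.eval₂_eq_sum, Polynomial.sum_def]

theorem term_ord {v : Place k L} {w : Place k M} {e : ℕ} (h : Over w v e) {z : M} (hz0 : z ≠ 0)
    {a : L} (ha : a ≠ 0) (i : ℕ) :
    w.ord (algebraMap L M a * z ^ i) = e * v.ord a + i * w.ord z := by
  rw [w.ord_mul (by rwa [Ne, map_eq_zero]) (pow_ne_zero _ hz0), h.2, w.ord_pow]

/-- polynomials in `z` of degree less than `N` -/
theorem eval_le {v : Place k L} {w : Place k M} {e : ℕ} (h : Over w v e) {z : M} (hz0 : z ≠ 0)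
    {N : ℕ} (hc : (N : ℤ) * w.ord z = e ∨ (N : ℤ) * w.ord z = -e) {H : Polynomial L} (hH : H ≠ 0)
    (hd : H.natDegree < N) :
    Polynomial.aeval z H ≠ 0 ∧ ∀ i ∈ H.support,
      w.ord (Polynomial.aeval z H) ≤ e * v.ord (H.coeff i) + i * w.ord z := by
  classical
  have he : (0 : ℤ) < e := by exact_mod_cast h.1
  have hc0 : w.ord z ≠ 0 := by
    intro h0
    rw [h0, mul_zero] at hc
    omega
  have hne : H.support.Nonempty := Polynomial.support_nonempty.2 hH
  have hlt : ∀ i ∈ H.support, i < N := fun i hi =>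
    (Polynomial.le_natDegree_of_mem_supp i hi).trans_lt hd
  have hcf : ∀ i ∈ H.support, H.coeff i ≠ 0 := fun i hi => Polynomial.mem_support_iff.1 hi
  obtain ⟨h1, i, hi, h2, h3⟩ := sum_distinct (Q := w) H.support hne
    (fun i => algebraMap L M (H.coeff i) * z ^ i)
    (fun i hi => mul_ne_zero (by rw [Ne, map_eq_zero]; exact hcf i hi) (pow_ne_zero _ hz0)) (by
      intro i hi j hj hij heq
      apply hij
      rw [term_ord h hz0 (hcf i hi), term_ord h hz0 (hcf j hj)] at heq
      have hi1 := hlt i hi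
      have hj1 := hlt j hj
      have h4 : (N : ℤ) ∣ (j : ℤ) - i := by
        rcases hc with hc | hc
        · refine ⟨v.ord (H.coeff i) - v.ord (H.coeff j), ?_⟩
          refine mul_right_cancel₀ hc0 ?_
          rw [← hc] at heq
          linear_combination -heq
        · refine ⟨v.ord (H.coeff j) - v.ord (H.coeff i), ?_⟩
          refine mul_right_cancel₀ hc0 ?_
          have hc' : (e : ℤ) = -(N * w.ord z) := by linarith
          rw [hc'] at heq
          linear_combination -heq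
      have h5 := Int.eq_zero_of_abs_lt_dvd h4 (by rw [abs_lt]; constructor <;> omega)
      omega)
  rw [aeval_sum]
  refine ⟨h1, fun j hj => ?_⟩
  rw [h2]
  refine (h3 j hj).trans ?_
  rw [term_ord h hz0 (hcf j hj)]

end elem

variable {K L M : Type} [Field K] [Field L] [Field M] [Algebra ℂ K] [Algebra ℂ L]
    [Algebra ℂ M] [Algebra K L] [Algebra L M] [IsScalarTower ℂ K L] [IsScalarTower ℂ L M]

/-- the bound of the orders at the monomial places -/
theorem bound {r : ℕ} {τ : Fin r → L} (ht : Gens (k := K) τ) {Q : Place ℂ K}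
    {P₁ : Place ℂ L} (hg : IsGauss τ Q P₁) (p₀ : Fin r) {x : L} (hx : x ≠ 0)
    (h1 : 1 ≤ P₁.ord x) :
    ∃ C : ℤ, ∀ A : ℕ, 0 < A → ∀ v : Place ℂ L, (∀ F : MvPolynomial (Fin r) K, F ≠ 0 →
      v.ord (aeval τ F) = mval Q A (Pi.single p₀ 1) F) → (A : ℤ) - C ≤ v.ord x := by
  obtain ⟨F, F', hF', hxF⟩ := ht.gen x
  have hF : F ≠ 0 := by
    rintro rfl
    apply hx
    rw [hxF, map_zero, zero_div]
  obtain ⟨α, hα, hα1⟩ := exists_mval (Q := Q) (e := 1) (a := (0 : Fin r → ℤ)) hF'
  refine ⟨α p₀, fun A hA v hv => ?_⟩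
  have e1 : P₁.ord x = mval Q 1 0 F - mval Q 1 0 F' := by
    rw [hxF, P₁.ord_div (ht.ne hF) (ht.ne hF'), hg F hF, hg F' hF']
  have e2 : v.ord x = mval Q A (Pi.single p₀ 1) F - mval Q A (Pi.single p₀ 1) F' := by
    rw [hxF, v.ord_div (ht.ne hF) (ht.ne hF'), hv F hF, hv F' hF']
  have hA' : (0 : ℤ) < A := by exact_mod_cast hA
  have e3 : (A : ℤ) * mval Q 1 0 F ≤ mval Q A (Pi.single p₀ 1) F := by
    refine (le_mval hF).2 fun β hβ => ?_
    have h2 := mval_le (Q := Q) (e := 1) (a := (0 : Fin r → ℤ)) hβ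
    rw [wt_zero] at h2
    have h3 : 0 ≤ ∑ j, (β j : ℤ) * (Pi.single p₀ 1 : Fin r → ℤ) j := by
      refine Finset.sum_nonneg fun j _ => mul_nonneg (by positivity) ?_
      rw [Pi.single_apply]
      split_ifs <;> norm_num
    unfold wt
    have h4 := mul_le_mul_of_nonneg_left h2 hA'.le
    linarith
  have e4 : mval Q A (Pi.single p₀ 1) F' ≤ (A : ℤ) * mval Q 1 0 F' + α p₀ := by
    refine (mval_le hα).trans ?_
    rw [hα1, wt_zero]
    unfold wt
    have h3 : ∑ j, (α j : ℤ) * (Pi.single p₀ 1 : Fin r → ℤ) j = α p₀ := by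
      rw [Finset.sum_eq_single p₀]
      · rw [Pi.single_eq_same, mul_one]
      · intro j _ hj
        rw [Pi.single_eq_of_ne hj, mul_zero]
      · intro h
        exact absurd (Finset.mem_univ _) h
    rw [h3]
  rw [e2]
  rw [e1] at h1
  have h5 := mul_le_mul_of_nonneg_left h1 hA'.le
  linarith

/-- lifting of polynomials -/
theorem mem_lifts_res (P₁ : Place ℂ L) (f : Polynomial P₁.RF) :
    f ∈ Polynomial.lifts P₁.resHom := by
  rw [Polynomial.lifts_iff_coeff_lifts]
  intro n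
  obtain ⟨a, ha⟩ := P₁.resHom_surjective (f.coeff n)
  exact ⟨a, ha⟩

/-- the equation is irreducible modulo the place -/
theorem irr [FiniteDimensional L M] {r : ℕ} {τ : Fin r → L} (ht : Gens (k := K) τ)
    {Q : Place ℂ K} {P₁ : Place ℂ L} (hg : IsGauss τ Q P₁) {N : ℕ} (hN : 0 < N) {z : M} {φ : L}
    (hz : z ^ N = algebraMap L M φ) (hφ0 : φ ≠ 0) (hreg : P₁.Reg φ) (p₀ : Fin r)
    (hA : ∀ A : ℕ, 0 < A → ∀ v : Place ℂ L, (∀ F : MvPolynomial (Fin r) K, F ≠ 0 →
      v.ord (aeval τ F) = mval Q A (Pi.single p₀ 1) F) → v.ord φ = 1 ∨ v.ord φ = -1) :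
    Irreducible (Polynomial.X ^ N - Polynomial.C (P₁.resHom ⟨φ, hreg⟩) : Polynomial P₁.RF) := by
  classical
  have hz0 : z ≠ 0 := by
    rintro rfl
    rw [zero_pow hN.ne'] at hz
    exact hφ0 ((map_eq_zero (algebraMap L M)).1 hz.symm)
  have hpm : (Polynomial.X ^ N - Polynomial.C (P₁.resHom ⟨φ, hreg⟩) : Polynomial P₁.RF).Monic :=
    Polynomial.monic_X_pow_sub_C _ hN.ne'
  have hpd : (Polynomial.X ^ N - Polynomial.C (P₁.resHom ⟨φ, hreg⟩) :
    Polynomial P₁.RF).natDegree = N := Polynomial.natDegree_X_pow_sub_C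
  rw [hpm.irreducible_iff_natDegree']
  refine ⟨fun h1 => ?_, fun f g hf hg' hfg hmem => ?_⟩
  · rw [h1, Polynomial.natDegree_one] at hpd
    omega
  rw [Finset.mem_Ioc, hpd] at hmem
  obtain ⟨H, hH1, hH2, hH3⟩ := Polynomial.lifts_and_natDegree_eq_and_monic
    (mem_lifts_res P₁ f) hf
  obtain ⟨G, hG1, hG2, hG3⟩ := Polynomial.lifts_and_natDegree_eq_and_monic
    (mem_lifts_res P₁ g) hg'
  have hdeg : H.natDegree + G.natDegree = N := by
    rw [hH2, hG2, ← hf.natDegree_mul hg', hfg, hpd]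
  have hG0 : 0 < G.natDegree := by rw [hG2]; exact hmem.1
  have hG4 : G.natDegree ≤ N / 2 := by rw [hG2]; exact hmem.2
  have hHN : H.natDegree < N := by omega
  have hGN : G.natDegree < N := by omega
  obtain ⟨R, hR⟩ : ∃ R : Polynomial P₁.O, R = Polynomial.X ^ N - Polynomial.C ⟨φ, hreg⟩ - H * G :=
    ⟨_, rfl⟩
  have hR0 : R.map P₁.resHom = 0 := by
    rw [hR, Polynomial.map_sub, Polynomial.map_sub, Polynomial.map_mul, Polynomial.map_pow,
      Polynomial.map_X, Polynomial.map_C, hH1, hG1, hfg, sub_self]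
  have hRc : ∀ i, (R.coeff i : L) ≠ 0 → 1 ≤ P₁.ord (R.coeff i : L) := by
    intro i hi
    have h1 : P₁.resHom (R.coeff i) = 0 := by
      rw [← Polynomial.coeff_map, hR0, Polynomial.coeff_zero]
    have h2 : P₁.red (R.coeff i : L) = 0 := by
      rw [P₁.red_of_reg (R.coeff i).2]
      exact h1
    rcases (P₁.red_eq_zero_iff (R.coeff i).2).1 h2 with h3 | h3
    · exact absurd h3 hi
    · omega
  have hRd : R.natDegree ≤ N := by
    rw [hR]
    refine (Polynomial.natDegree_sub_le _ _).trans (max_le ?_ ?_)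
    · refine (Polynomial.natDegree_sub_le _ _).trans (max_le ?_ ?_)
      · exact (Polynomial.natDegree_X_pow_le N)
      · rw [Polynomial.natDegree_C]
        exact Nat.zero_le _
    · rw [hH3.natDegree_mul hG3, hdeg]
  -- the polynomials over `L`
  have hHm : (H.map P₁.O.subtype).Monic := hH3.map _
  have hGm : (G.map P₁.O.subtype).Monic := hG3.map _
  have hHd : (H.map P₁.O.subtype).natDegree = H.natDegree := hH3.natDegree_map _
  have hGd : (G.map P₁.O.subtype).natDegree = G.natDegree := hG3.natDegree_map _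
  have hRev : Polynomial.aeval z (R.map P₁.O.subtype) =
      - (Polynomial.aeval z (H.map P₁.O.subtype) * Polynomial.aeval z (G.map P₁.O.subtype)) := by
    rw [hR, Polynomial.map_sub, Polynomial.map_sub, Polynomial.map_mul, Polynomial.map_pow,
      Polynomial.map_X, Polynomial.map_C, map_sub, map_sub, map_mul, map_pow, Polynomial.aeval_X,
      Polynomial.aeval_C, hz]
    change algebraMap L M φ - algebraMap L M φ - _ = _
    ring
  -- the constants
  have hCi : ∀ i : ℕ, ∃ C : ℤ, (R.coeff i : L) ≠ 0 → ∀ A : ℕ, 0 < A → ∀ v : Place ℂ L,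
      (∀ F : MvPolynomial (Fin r) K, F ≠ 0 →
      v.ord (aeval τ F) = mval Q A (Pi.single p₀ 1) F) → (A : ℤ) - C ≤ v.ord (R.coeff i : L) := by
    intro i
    by_cases h0 : (R.coeff i : L) = 0
    · exact ⟨0, fun h => absurd h0 h⟩
    · obtain ⟨C, hC⟩ := bound ht hg p₀ h0 (hRc i h0)
      exact ⟨C, fun _ => hC⟩
  choose Ci hCi using hCi
  obtain ⟨A, hAdef⟩ : ∃ A : ℕ, A = (∑ i ∈ Finset.range (N + 1), (Ci i).natAbs) + 3 := ⟨_, rfl⟩
  have hA0 : 0 < A := by omega
  have hAC : ∀ i, i ≤ N → 3 ≤ (A : ℤ) - Ci i := by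
    intro i hi
    have h1 := Finset.single_le_sum (f := fun i => (Ci i).natAbs) (s := Finset.range (N + 1))
      (fun _ _ => Nat.zero_le _) (Finset.mem_range.2 (Nat.lt_succ_of_le hi))
    beta_reduce at h1
    omega
  -- the places
  obtain ⟨v, d, hd, hv⟩ := exists_mono (L := L) ht Q hA0 (Pi.single p₀ 1)
  have hd1 : d = 1 := by
    have h1 := hv (X p₀) (X_ne_zero p₀)
    rw [mval_X, Pi.single_eq_same] at h1
    have h2 : (d : ℤ) ∣ 1 := ⟨_, h1.symm⟩
    have h3 : d ∣ 1 := by exact_mod_cast h2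
    exact Nat.dvd_one.1 h3
  have hv' : ∀ F : MvPolynomial (Fin r) K, F ≠ 0 →
      v.ord (aeval τ F) = mval Q A (Pi.single p₀ 1) F := by
    intro F hF
    have h1 := hv F hF
    rw [hd1] at h1
    simpa using h1
  obtain ⟨w, e, hw⟩ := exists_above (L := M) v
  have he : (0 : ℤ) < e := by exact_mod_cast hw.1
  have hzw : (N : ℤ) * w.ord z = e * v.ord φ := by
    rw [← w.ord_pow, hz, hw.2]
  have hφv := hA A hA0 v hv'
  have hc : (N : ℤ) * w.ord z = e ∨ (N : ℤ) * w.ord z = -e := by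
    rcases hφv with h | h
    · left; rw [hzw, h, mul_one]
    · right; rw [hzw, h]; ring
  have hN' : (0 : ℤ) < N := by exact_mod_cast hN
  obtain ⟨hH5, hH6⟩ := eval_le hw hz0 hc hHm.ne_zero (by rw [hHd]; exact hHN)
  obtain ⟨hG5, hG6⟩ := eval_le hw hz0 hc hGm.ne_zero (by rw [hGd]; exact hGN)
  have hH7 : w.ord (Polynomial.aeval z (H.map P₁.O.subtype)) ≤ H.natDegree * w.ord z := by
    have h1 := hH6 H.natDegree (by
      rw [Polynomial.mem_support_iff, ← hHd, hHm.coeff_natDegree]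
      exact one_ne_zero)
    rw [← hHd, hHm.coeff_natDegree, v.ord_one, mul_zero, zero_add, hHd] at h1
    exact h1
  have hG7 : w.ord (Polynomial.aeval z (G.map P₁.O.subtype)) ≤ G.natDegree * w.ord z := by
    have h1 := hG6 G.natDegree (by
      rw [Polynomial.mem_support_iff, ← hGd, hGm.coeff_natDegree]
      exact one_ne_zero)
    rw [← hGd, hGm.coeff_natDegree, v.ord_one, mul_zero, zero_add, hGd] at h1
    exact h1
  have hRz0 : Polynomial.aeval z (R.map P₁.O.subtype) ≠ 0 := by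
    rw [hRev]
    exact neg_ne_zero.2 (mul_ne_zero hH5 hG5)
  have hRz1 : w.ord (Polynomial.aeval z (R.map P₁.O.subtype)) ≤ e := by
    rw [hRev, w.ord_neg, w.ord_mul hH5 hG5]
    have h1 : ((H.natDegree : ℤ) + G.natDegree) * w.ord z = N * w.ord z := by
      rw [← hdeg]
      push_cast
      ring
    rcases hc with h | h <;> nlinarith
  have hRz2 : Polynomial.aeval z (R.map P₁.O.subtype) = 0 ∨
      2 * (e : ℤ) ≤ w.ord (Polynomial.aeval z (R.map P₁.O.subtype)) := by
    rw [aeval_sum]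
    refine sum_ge _ _ _ fun i hi => Or.inr ?_
    have hi0 : (R.map P₁.O.subtype).coeff i ≠ 0 := Polynomial.mem_support_iff.1 hi
    have hi1 : i ≤ N := (Polynomial.le_natDegree_of_mem_supp i hi).trans
      ((Polynomial.natDegree_map_le).trans hRd)
    rw [term_ord hw hz0 hi0]
    rw [Polynomial.coeff_map] at hi0 ⊢
    have h1 : (A : ℤ) - Ci i ≤ v.ord (R.coeff i : L) := hCi i hi0 A hA0 v hv'
    have h2 := hAC i hi1
    have h3 : (3 : ℤ) ≤ v.ord (P₁.O.subtype (R.coeff i)) := h2.trans h1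
    have h4 : -(e : ℤ) ≤ i * w.ord z := by
      have hi2 : (i : ℤ) ≤ N := by exact_mod_cast hi1
      have hi3 : (0 : ℤ) ≤ i := by positivity
      rcases hc with h | h
      · have h5 : 0 < w.ord z := by
          by_contra hcon
          push Not at hcon
          nlinarith
        nlinarith
      · have h5 : w.ord z < 0 := by
          by_contra hcon
          push Not at hcon
          nlinarith
        nlinarith
    nlinarith
  rcases hRz2 with h | h
  · exact hRz0 h
  · omega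

/-- values of polynomials which are not zero modulo the place -/
theorem value {P₁ : Place ℂ L} {N : ℕ} (hN : 0 < N) {z : M} {φ : L}
    (hz : z ^ N = algebraMap L M φ) (hφ : P₁.ord φ = 0) (hreg : P₁.Reg φ)
    (hirr : Irreducible
      (Polynomial.X ^ N - Polynomial.C (P₁.resHom ⟨φ, hreg⟩) : Polynomial P₁.RF))
    {P : Place ℂ M} (h : Over P P₁ 1) {H : Polynomial P₁.O} (hH : H.map P₁.resHom ≠ 0)
    (hd : H.natDegree < N) :
    P.ord (Polynomial.aeval z (H.map P₁.O.subtype)) = 0 := by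
  have hN' : (0 : ℤ) < N := by exact_mod_cast hN
  have hPz : P.ord z = 0 := by
    have h1 : (N : ℤ) * P.ord z = 0 := by
      rw [← P.ord_pow, hz, h.2, hφ, mul_zero]
    rcases mul_eq_zero.1 h1 with h2 | h2
    · omega
    · exact h2
  have hzr : P.Reg z := Or.inr hPz.ge
  obtain ⟨ι, hι⟩ : ∃ ι : P₁.O →+* P.O, ∀ a, ((ι a : P.O) : M) = algebraMap L M (a : L) :=
    ⟨((algebraMap L M).comp P₁.O.subtype).codRestrict P.O (fun f => h.reg.2 f.2), fun a => rfl⟩
  have hres : ∀ a : P₁.O, h.resMap (P₁.resHom a) = P.resHom (ι a) := by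
    intro a
    have h1 := h.resMap_red (f := (a : L)) a.2
    rw [P₁.red_of_reg a.2, P.red_of_reg (h.reg.2 a.2)] at h1
    rw [show (⟨(a : L), a.2⟩ : P₁.O) = a from rfl] at h1
    rw [h1]
    congr 1
    exact Subtype.ext (hι a).symm
  obtain ⟨x, hx⟩ : ∃ x : P.O, x = Polynomial.eval₂ ι ⟨z, hzr⟩ H := ⟨_, rfl⟩
  have hx1 : (x : M) = Polynomial.aeval z (H.map P₁.O.subtype) := by
    change P.O.subtype x = _
    rw [hx, Polynomial.hom_eval₂, Polynomial.aeval_def, Polynomial.eval₂_map]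
    congr 1
    ext a
    exact hι a
  have hcomp : P.resHom.comp ι = (h.resMap : P₁.RF →+* P.RF).comp P₁.resHom := by
    ext a
    exact (hres a).symm
  have hx2 : P.resHom x = Polynomial.eval₂ (h.resMap : P₁.RF →+* P.RF) (P.resHom ⟨z, hzr⟩)
      (H.map P₁.resHom) := by
    rw [hx, Polynomial.hom_eval₂, Polynomial.eval₂_map, hcomp]
  have hroot : Polynomial.eval₂ (h.resMap : P₁.RF →+* P.RF) (P.resHom ⟨z, hzr⟩)
      (Polynomial.X ^ N - Polynomial.C (P₁.resHom ⟨φ, hreg⟩)) = 0 := by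
    rw [Polynomial.eval₂_sub, Polynomial.eval₂_pow, Polynomial.eval₂_X, Polynomial.eval₂_C]
    change P.resHom ⟨z, hzr⟩ ^ N - h.resMap (P₁.resHom ⟨φ, hreg⟩) = 0
    rw [hres, ← map_pow, ← map_sub]
    have : (⟨z, hzr⟩ : P.O) ^ N - ι ⟨φ, hreg⟩ = 0 := by
      apply Subtype.ext
      change z ^ N - ((ι ⟨φ, hreg⟩ : P.O) : M) = 0
      rw [hι, hz, sub_self]
    rw [this, map_zero]
  have hcop : IsCoprime (Polynomial.X ^ N - Polynomial.C (P₁.resHom ⟨φ, hreg⟩))
      (H.map P₁.resHom) := by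
    rw [hirr.coprime_iff_not_dvd]
    intro hdvd
    have h1 := Polynomial.natDegree_le_of_dvd hdvd hH
    rw [Polynomial.natDegree_X_pow_sub_C] at h1
    have h2 : (H.map P₁.resHom).natDegree ≤ H.natDegree := Polynomial.natDegree_map_le
    omega
  have hunit : IsUnit (P.resHom x) := by
    rw [hx2]
    have h1 := hcop.map (Polynomial.eval₂RingHom (h.resMap : P₁.RF →+* P.RF)
      (P.resHom ⟨z, hzr⟩))
    rw [Polynomial.coe_eval₂RingHom, hroot, isCoprime_zero_left] at h1
    exact h1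
  have hx3 : P.red (x : M) ≠ 0 := by
    rw [P.red_of_reg x.2]
    exact hunit.ne_zero
  rw [Ne, P.red_eq_zero_iff x.2] at hx3
  push Not at hx3
  rw [← hx1]
  exact le_antisymm hx3.2 ((P.reg_iff hx3.1).1 x.2)

/-- the order of a polynomial in `z` -/
theorem ord_eq {P₁ : Place ℂ L} {N : ℕ} (hN : 0 < N) {z : M} {φ : L}
    (hz : z ^ N = algebraMap L M φ) (hφ : P₁.ord φ = 0) (hreg : P₁.Reg φ)
    (hirr : Irreducible
      (Polynomial.X ^ N - Polynomial.C (P₁.resHom ⟨φ, hreg⟩) : Polynomial P₁.RF))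
    {p : Polynomial L} (hp : p ≠ 0) (hd : p.natDegree < N) (hp0 : Polynomial.aeval z p ≠ 0) :
    ∃ m : ℤ, ∀ P : Place ℂ M, Over P P₁ 1 → P.ord (Polynomial.aeval z p) = m := by
  classical
  obtain ⟨i₀, hi₀, hmin⟩ := Finset.exists_min_image p.support (fun i => P₁.ord (p.coeff i))
    (Polynomial.support_nonempty.2 hp)
  obtain ⟨π, hπ0, hπ⟩ := P₁.surj
  obtain ⟨m, hm⟩ : ∃ m : ℤ, m = P₁.ord (p.coeff i₀) := ⟨_, rfl⟩
  have hi₀' : p.coeff i₀ ≠ 0 := Polynomial.mem_support_iff.1 hi₀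
  have hc0 : π ^ (-m) ≠ 0 := zpow_ne_zero _ hπ0
  have hcord : P₁.ord (π ^ (-m)) = -m := by rw [P₁.ord_zpow, hπ, mul_one]
  obtain ⟨G, hG⟩ : ∃ G : Polynomial L, G = Polynomial.C (π ^ (-m)) * p := ⟨_, rfl⟩
  have hGc : ∀ i, G.coeff i = π ^ (-m) * p.coeff i := by
    intro i
    rw [hG, Polynomial.coeff_C_mul]
  have hGl : G ∈ Polynomial.lifts P₁.O.subtype := by
    rw [Polynomial.lifts_iff_coeff_lifts]
    intro i
    have h1 : P₁.Reg (G.coeff i) := by
      by_cases h0 : p.coeff i = 0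
      · left
        rw [hGc, h0, mul_zero]
      · right
        rw [hGc, P₁.ord_mul hc0 h0, hcord]
        have h2 := hmin i (Polynomial.mem_support_iff.2 h0)
        beta_reduce at h2
        omega
    exact ⟨⟨G.coeff i, h1⟩, rfl⟩
  obtain ⟨H, hH⟩ := (Polynomial.mem_lifts G).1 hGl
  have hinj : Function.Injective P₁.O.subtype := Subtype.val_injective
  have hHd : H.natDegree < N := by
    rw [← Polynomial.natDegree_map_eq_of_injective hinj, hH, hG,
      Polynomial.natDegree_C_mul hc0]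
    exact hd
  have hH0 : H.map P₁.resHom ≠ 0 := by
    intro h0
    have h1 : P₁.resHom (H.coeff i₀) = 0 := by
      rw [← Polynomial.coeff_map, h0, Polynomial.coeff_zero]
    have h2 : (H.coeff i₀ : L) = π ^ (-m) * p.coeff i₀ := by
      rw [← hGc, ← hH, Polynomial.coeff_map]
      rfl
    have h3 : P₁.red (H.coeff i₀ : L) = 0 := by
      rw [P₁.red_of_reg (H.coeff i₀).2]
      exact h1
    rw [P₁.red_eq_zero_iff (H.coeff i₀).2, h2] at h3
    rcases h3 with h3 | h3
    · exact mul_ne_zero hc0 hi₀' h3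
    · rw [P₁.ord_mul hc0 hi₀', hcord] at h3
      omega
  refine ⟨m, fun P hP => ?_⟩
  have h1 := value hN hz hφ hreg hirr hP hH0 hHd
  rw [hH, hG, map_mul, Polynomial.aeval_C, P.ord_mul (by rwa [Ne, map_eq_zero]) hp0, hP.2,
    hcord] at h1
  push_cast at h1
  linarith

end KU

/-- TASK CN-KU. **The place of a Kummer extension over a Gauss place is unique.** -/
theorem gauss_unique {K L M : Type} [Field K] [Field L] [Field M] [Algebra ℂ K] [Algebra ℂ L]
    [Algebra ℂ M] [Algebra K L] [Algebra L M] [IsScalarTower ℂ K L] [IsScalarTower ℂ L M]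
    [FiniteDimensional L M] {r : ℕ} {τ : Fin r → L} (ht : Gens (k := K) τ) {Q : Place ℂ K}
    {P₁ : Place ℂ L} (hg : IsGauss τ Q P₁) {N : ℕ} (hN : 0 < N) {z : M} {φ : L}
    (hz : z ^ N = algebraMap L M φ) (hφ0 : φ ≠ 0) (hφ : P₁.ord φ = 0)
    (hgen : ∀ x : M, ∃ p : Polynomial L, x = Polynomial.aeval z p) (p₀ : Fin r)
    (hA : ∀ A : ℕ, 0 < A → ∀ v : Place ℂ L, (∀ F : MvPolynomial (Fin r) K, F ≠ 0 →
      v.ord (aeval τ F) = mval Q A (Pi.single p₀ 1) F) → v.ord φ = 1 ∨ v.ord φ = -1)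
    {P P' : Place ℂ M} (h : Over P P₁ 1) (h' : Over P' P₁ 1) : P = P' := by
  have hreg : P₁.Reg φ := Or.inr hφ.ge
  have hirr := KU.irr ht hg hN hz hφ0 hreg p₀ hA
  refine place_ext fun x => ?_
  by_cases hx : x = 0
  · rw [hx, P.ord_zero, P'.ord_zero]
  obtain ⟨p, hp⟩ := hgen x
  have hroot : Polynomial.aeval z (Polynomial.X ^ N - Polynomial.C φ : Polynomial L) = 0 := by
    rw [map_sub, map_pow, Polynomial.aeval_X, Polynomial.aeval_C, hz, sub_self]
  have hm : (Polynomial.X ^ N - Polynomial.C φ : Polynomial L).Monic :=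
    Polynomial.monic_X_pow_sub_C _ hN.ne'
  have hdeg : (Polynomial.X ^ N - Polynomial.C φ : Polynomial L).natDegree = N :=
    Polynomial.natDegree_X_pow_sub_C
  have h1 : Polynomial.aeval z (p %ₘ (Polynomial.X ^ N - Polynomial.C φ)) = x := by
    rw [Polynomial.aeval_modByMonic_eq_self_of_root hroot, hp]
  have h2 : (p %ₘ (Polynomial.X ^ N - Polynomial.C φ)).natDegree < N := by
    have h3 := Polynomial.natDegree_modByMonic_lt p hm (by
      intro h4
      rw [h4, Polynomial.natDegree_one] at hdeg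
      omega)
    rwa [hdeg] at h3
  have h3 : p %ₘ (Polynomial.X ^ N - Polynomial.C φ) ≠ 0 := by
    intro h4
    rw [h4, map_zero] at h1
    exact hx h1.symm
  obtain ⟨m, hm'⟩ := KU.ord_eq hN hz hφ hreg hirr h3 h2 (by rw [h1]; exact hx)
  rw [h1] at hm'
  rw [hm' P h, hm' P' h']

end Pool.Agent.H890
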