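import Pool.Agent.H890.Jc

/-!
Log discrepancies and the codimension of the centre in étale coordinates; a criterion for prime
divisors.
-/

set_option autoImplicit false
set_option linter.unusedSectionVars false
set_option linter.overlappingInstances false

open FF MvPolynomial Pool.Agent.W602.GT Pool.Agent.W603.LV Pool.Agent.W619.PQ Pool.Agent.Y172
  Pool.Agent.TH122.AB Pool.Agent.R887

namespace Pool.Agent.H890

section poly

variable {M : Type} [Field M] [Algebra ℂ M]

theorem der_aeval_zero {ι : Type} {Z : ι → M} {D : Derivation ℂ M M} (hD : ∀ j, D (Z j) = 0)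
    (G : MvPolynomial ι ℂ) : D (aeval Z G) = 0 := by
  induction G using MvPolynomial.induction_on with
  | C a => rw [aeval_C, D.map_algebraMap]
  | add P Q hP hQ => rw [map_add, map_add, hP, hQ, add_zero]
  | mul_X P j hP => rw [map_mul, aeval_X, D.leibniz, hP, hD, smul_zero, smul_zero, add_zero]

theorem der_aeval_one {m : ℕ} {Z : Fin m → M} {D : Derivation ℂ M M} {i : Fin m}
    (hD : ∀ j, D (Z j) = if i = j then 1 else 0) (G : MvPolynomial (Fin m) ℂ) :
    D (aeval Z G) = aeval Z (pderiv i G) := by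
  classical
  induction G using MvPolynomial.induction_on with
  | C a => rw [aeval_C, D.map_algebraMap, pderiv_C, map_zero]
  | add P Q hP hQ => rw [map_add, map_add, hP, hQ, map_add, map_add]
  | mul_X P j hP =>
    rw [map_mul, aeval_X, D.leibniz, hP, hD, pderiv_mul, map_add, map_mul, map_mul, aeval_X,
      pderiv_X, smul_eq_mul, smul_eq_mul]
    by_cases hij : i = j
    · subst hij
      rw [if_pos rfl, Pi.single_eq_same, map_one]
      ring
    · rw [if_neg hij, Pi.single_eq_of_ne (Ne.symm hij), map_zero]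
      ring

theorem const_of_pderiv {m : ℕ} {G : MvPolynomial (Fin m) ℂ} (h : ∀ j, pderiv j G = 0) :
    ∃ c, G = C c := by
  classical
  have h1 : ∀ a ∈ G.support, a = 0 := by
    intro a ha
    ext b
    by_contra hmb
    have hmb' : a b ≠ 0 := hmb
    have h3 : a - Finsupp.single b 1 + Finsupp.single b 1 = a := by
      ext b'
      by_cases hb' : b' = b
      · subst hb'
        simp
        omega
      · simp [Ne.symm hb']
    have h2 := congrArg (coeff (a - Finsupp.single b 1)) (h b)
    rw [coeff_zero, coeff_pderiv, h3] at h2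
    rcases mul_eq_zero.1 h2 with h4 | h4
    · exact (mem_support_iff.1 ha) h4
    · have h5 : (((a - Finsupp.single b 1 : Fin m →₀ ℕ) b + 1 : ℕ) : ℂ) = 0 := by
        push_cast
        exact h4
      have h6 : ((a - Finsupp.single b 1 : Fin m →₀ ℕ) b + 1 : ℕ) = 0 := by exact_mod_cast h5
      omega
  have h2 : G.totalDegree = 0 := by
    rw [totalDegree_eq_zero_iff]
    intro a ha j
    rw [h1 a ha]
    rfl
  exact ⟨_, totalDegree_eq_zero_iff_eq_C.1 h2⟩

theorem not_ge_one {P : Place ℂ M} {c : ℂ} (hc : c ≠ 0) : ¬ Ge P 1 (algebraMap ℂ M c) := by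
  rintro (h | h)
  · exact hc ((map_eq_zero _).1 h)
  · rw [P.ord_const hc] at h
    omega

end poly

section cod

variable {M : Type} [Field M] [Algebra ℂ M] {d : ℕ} {P : Place ℂ M} {X : Fin (d + 1) → M}
  {F : Fin (d + 1) → Derivation ℂ M M}

/-- independence of residues -/
theorem indep_res (hF : ∀ i j, F i (X j) = if i = j then 1 else 0) {B : Subalgebra ℂ M}
    (hXB : ∀ u, X u ∈ B) (u1 : Fin (d + 1))
    (H : ∀ b ∈ B, Ge P 1 b → F u1 b = 0 → ∀ u, Ge P 1 (F u b)) :
    ∀ (m : ℕ) (G : MvPolynomial (Fin d) ℂ), G.totalDegree ≤ m → G ≠ 0 →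
      ¬ Ge P 1 (aeval (fun j => X (u1.succAbove j)) G) := by
  have hmem : ∀ G : MvPolynomial (Fin d) ℂ, aeval (fun j => X (u1.succAbove j)) G ∈ B := by
    intro G
    have h1 : aeval (fun j => X (u1.succAbove j)) G ∈
        Algebra.adjoin ℂ (Set.range fun j => X (u1.succAbove j)) := by
      rw [Algebra.adjoin_range_eq_range_aeval]
      exact ⟨G, rfl⟩
    refine (Algebra.adjoin_le ?_ : Algebra.adjoin ℂ (Set.range fun j => X (u1.succAbove j)) ≤ B) h1
    rintro _ ⟨j, rfl⟩
    exact hXB _
  have hd1 : ∀ (j : Fin d) (G : MvPolynomial (Fin d) ℂ),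
      F (u1.succAbove j) (aeval (fun j => X (u1.succAbove j)) G) =
        aeval (fun j => X (u1.succAbove j)) (pderiv j G) := by
    intro j G
    refine der_aeval_one (fun j' => ?_) G
    rw [hF]
    by_cases hj : j = j'
    · rw [hj, if_pos rfl, if_pos rfl]
    · rw [if_neg hj, if_neg fun h => hj (Fin.succAbove_right_injective h)]
  have hd0 : ∀ G : MvPolynomial (Fin d) ℂ,
      F u1 (aeval (fun j => X (u1.succAbove j)) G) = 0 := by
    intro G
    refine der_aeval_zero (fun j' => ?_) G
    rw [hF, if_neg (Fin.succAbove_ne u1 j').symm]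
  have hconst : ∀ G : MvPolynomial (Fin d) ℂ, G ≠ 0 → (∀ j, pderiv j G = 0) →
      ¬ Ge P 1 (aeval (fun j => X (u1.succAbove j)) G) := by
    intro G hG hj
    obtain ⟨c, rfl⟩ := const_of_pderiv hj
    rw [aeval_C]
    exact not_ge_one fun h0 => hG (by rw [h0, C_0])
  intro m
  induction m with
  | zero =>
    intro G hGd hG hge
    refine hconst G hG (fun j => ?_) hge
    by_contra hj
    have := deg_pderiv hj
    omega
  | succ m ih =>
    intro G hGd hG hge
    refine hconst G hG (fun j => ?_) hge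
    by_contra hj
    have h1 := H _ (hmem G) hge (hd0 G) (u1.succAbove j)
    rw [hd1] at h1
    have := deg_pderiv hj
    exact ih _ (by omega) hj h1

/-- **Log discrepancies in étale coordinates.** -/
theorem codim (hX : IsTranscendenceBasis ℂ X) (hF : ∀ i j, F i (X j) = if i = j then 1 else 0)
    {B : Subalgebra ℂ M} (hB : ∀ b ∈ B, P.Reg b) (hFB : ∀ u, ∀ b ∈ B, F u b ∈ B)
    (hXB : ∀ u, X u ∈ B) :
    (∃ u1 : Fin (d + 1), ∀ G : MvPolynomial (Fin d) ℂ, G ≠ 0 →
      ¬ Ge P 1 (aeval (fun j => X (u1.succAbove j)) G)) ∨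
    ∀ D : Fin (d + 1) → Derivation ℂ M M, (∀ u, DerLog P (D u)) →
      Ge P 2 (Matrix.of fun a b => D a (X b)).det := by
  classical
  by_cases h0 : ∃ b ∈ B, Ge P 1 b ∧ ∃ u1, ¬ Ge P 1 (F u1 b)
  · obtain ⟨b1, hb1, hb1', u1, hu1⟩ := h0
    by_cases h2 : ∃ b ∈ B, Ge P 1 b ∧ ∃ u2, ¬ Ge P 1 (F u1 b1 * F u2 b - F u1 b * F u2 b1)
    · right
      obtain ⟨b2, hb2, hb2', u2, hu2⟩ := h2
      intro D hD
      have hu12 : u2 ≠ u1 := by
        rintro rfl
        apply hu2
        left
        ring
      obtain ⟨A, hA⟩ : ∃ A : Matrix (Fin (d + 1)) (Fin (d + 1)) M,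
        A = Matrix.of fun a b => D a (X b) := ⟨_, rfl⟩
      obtain ⟨c, hc⟩ : ∃ c : Fin (d + 1) → M, c = fun u => F u b1 := ⟨_, rfl⟩
      obtain ⟨e, he⟩ : ∃ e : Fin (d + 1) → M, e = fun u => F u b2 := ⟨_, rfl⟩
      have hc1 : c u1 ≠ 0 := by
        intro h3
        apply hu1
        left
        rw [hc] at h3
        exact h3
      have hexp : ∀ (a : Fin (d + 1)) (f : M), D a f = ∑ u, D a (X u) * F u f := by
        intro a f
        have h3 := Pool.Agent.W73.PG.PULL.expand X hX F hF (D a)
        conv_lhs => rw [← h3]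
        rw [Pool.Agent.Y172.sum_smul_apply]
      -- the first column
      obtain ⟨A1, hA1⟩ : ∃ A1, A1 = A.updateCol u1 (fun a => D a b1) := ⟨_, rfl⟩
      have hdet1 : A1.det = c u1 * A.det := by
        have h3 := Matrix.det_updateCol_sum A u1 c
        have h4 : (fun k => ∑ i, c i • A k i) = fun a => D a b1 := by
          funext a
          rw [hexp a b1]
          refine Finset.sum_congr rfl fun u _ => ?_
          rw [hA, Matrix.of_apply, hc, smul_eq_mul, mul_comm]
        rw [h4] at h3
        rw [hA1, h3, smul_eq_mul]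
      -- the second column
      obtain ⟨c2, hc2⟩ : ∃ c2 : Fin (d + 1) → M,
        c2 = fun u => if u = u1 then e u1 / c u1 else e u - e u1 * c u / c u1 := ⟨_, rfl⟩
      obtain ⟨A2, hA2⟩ : ∃ A2, A2 = A1.updateCol u2 (fun a => D a b2) := ⟨_, rfl⟩
      have hdet2 : A2.det = c2 u2 * A1.det := by
        have h3 := Matrix.det_updateCol_sum A1 u2 c2
        have h4 : (fun k => ∑ i, c2 i • A1 k i) = fun a => D a b2 := by
          funext a
          rw [hexp a b2, ← Finset.add_sum_erase _ _ (Finset.mem_univ u1),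
            ← Finset.add_sum_erase _ (fun u => D a (X u) * F u b2) (Finset.mem_univ u1)]
          have h5 : A1 a u1 = D a b1 := by rw [hA1, Matrix.updateCol_self]
          have h6 : ∀ u, u ≠ u1 → A1 a u = D a (X u) := fun u hu => by
            rw [hA1, Matrix.updateCol_ne hu, hA, Matrix.of_apply]
          have h7 : ∑ u ∈ Finset.univ.erase u1, c2 u • A1 a u =
              ∑ u ∈ Finset.univ.erase u1, D a (X u) * F u b2 -
                e u1 / c u1 * ∑ u ∈ Finset.univ.erase u1, D a (X u) * F u b1 := by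
            rw [Finset.mul_sum, ← Finset.sum_sub_distrib]
            refine Finset.sum_congr rfl fun u hu => ?_
            have hu' := Finset.ne_of_mem_erase hu
            rw [h6 u hu', hc2]
            dsimp only
            rw [if_neg hu', smul_eq_mul, hc, he]
            ring
          rw [h7, h5, hexp a b1, ← Finset.add_sum_erase _ _ (Finset.mem_univ u1), hc2]
          dsimp only
          rw [if_pos rfl, smul_eq_mul]
          have h8 : F u1 b1 = c u1 := by rw [hc]
          have h9 : F u1 b2 = e u1 := by rw [he]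
          rw [h8, h9]
          field_simp
          ring
        rw [h4] at h3
        rw [hA2, h3, smul_eq_mul]
      have hge : Ge P 2 A2.det := by
        refine ge_det P A2 2 (fun _ j => if j = u1 ∨ j = u2 then 1 else 0) (fun i j => ?_)
          fun σ => ?_
        · split_ifs with hj
          · rcases hj with rfl | rfl
            · rw [hA2, Matrix.updateCol_ne hu12.symm, hA1, Matrix.updateCol_self]
              exact DerLog.ge (hD i) hb1'
            · rw [hA2, Matrix.updateCol_self]
              exact DerLog.ge (hD i) hb2'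
          · push Not at hj
            rw [hA2, Matrix.updateCol_ne hj.2, hA1, Matrix.updateCol_ne hj.1, hA, Matrix.of_apply]
            exact DerLog.ge (hD i) (hB _ (hXB j))
        · have h3 : ∑ i : Fin (d + 1), (if i = u1 ∨ i = u2 then (1 : ℤ) else 0) = 2 := by
            have h4 : ∀ i : Fin (d + 1), (if i = u1 ∨ i = u2 then (1 : ℤ) else 0) =
                (if i = u1 then 1 else 0) + if i = u2 then 1 else 0 := by
              intro i
              by_cases h5 : i = u1
              · rw [if_pos (Or.inl h5), if_pos h5, if_neg (fun h6 => hu12 (h6.symm.trans h5))]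
                norm_num
              · by_cases h6 : i = u2
                · rw [if_pos (Or.inr h6), if_neg h5, if_pos h6]
                  norm_num
                · rw [if_neg (by tauto), if_neg h5, if_neg h6]
                  norm_num
            rw [Finset.sum_congr rfl fun i _ => h4 i, Finset.sum_add_distrib, Finset.sum_ite_eq',
              Finset.sum_ite_eq', if_pos (Finset.mem_univ _), if_pos (Finset.mem_univ _)]
            norm_num
          exact h3.ge
      rw [hdet2, hdet1, ← mul_assoc] at hge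
      have hμ : c2 u2 * c u1 = F u1 b1 * F u2 b2 - F u1 b2 * F u2 b1 := by
        rw [hc2]
        dsimp only
        rw [if_neg hu12, hc, he]
        rw [hc] at hc1
        dsimp only at hc1
        field_simp
      rw [hμ] at hge
      have hμB : F u1 b1 * F u2 b2 - F u1 b2 * F u2 b1 ∈ B :=
        B.sub_mem (B.mul_mem (hFB _ _ hb1) (hFB _ _ hb2)) (B.mul_mem (hFB _ _ hb2) (hFB _ _ hb1))
      have hμ0 : F u1 b1 * F u2 b2 - F u1 b2 * F u2 b1 ≠ 0 := fun h3 => hu2 (Or.inl h3)
      have hμo : P.ord (F u1 b1 * F u2 b2 - F u1 b2 * F u2 b1) = 0 := by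
        have h3 := reg_ord_nonneg (hB _ hμB)
        have h4 : ¬ 1 ≤ P.ord (F u1 b1 * F u2 b2 - F u1 b2 * F u2 b1) := fun h5 => hu2 (Or.inr h5)
        omega
      rw [← hA]
      rcases hge with h3 | h3
      · left
        exact (mul_eq_zero.1 h3).resolve_left hμ0
      · by_cases h4 : A.det = 0
        · exact Or.inl h4
        · right
          rw [P.ord_mul hμ0 h4, hμo, zero_add] at h3
          exact h3
    · left
      push Not at h2
      have hc0 : F u1 b1 ≠ 0 := fun h3 => hu1 (Or.inl h3)
      have hco : P.ord (F u1 b1) = 0 := by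
        have h3 := reg_ord_nonneg (hB _ (hFB u1 b1 hb1))
        have h4 : ¬ 1 ≤ P.ord (F u1 b1) := fun h5 => hu1 (Or.inr h5)
        omega
      refine ⟨u1, fun G hG => indep_res hF hXB u1 (fun b hb hb' hub u => ?_) _ G le_rfl hG⟩
      have h3 := h2 b hb hb' u
      rw [hub, zero_mul, sub_zero] at h3
      rcases h3 with h4 | h4
      · exact Or.inl ((mul_eq_zero.1 h4).resolve_left hc0)
      · by_cases h5 : F u b = 0
        · exact Or.inl h5
        · right
          rw [P.ord_mul hc0 h5, hco, zero_add] at h4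
          exact h4
  · left
    push Not at h0
    exact ⟨0, fun G hG => indep_res hF hXB 0 (fun b hb hb' _ u => h0 b hb hb' u) _ G le_rfl hG⟩

end cod

section prime

variable {M : Type} [Field M] [Algebra ℂ M] {d : ℕ} {P : Place ℂ M}

/-- a place which is trivial on a transcendence basis does not exist -/
theorem no_triv [CharZero M] {d : ℕ} (hd : Algebra.trdeg ℂ M = d) (P : Place ℂ M) (Y : Fin d → M)
    (hY : ∀ G : MvPolynomial (Fin d) ℂ, G ≠ 0 → aeval Y G ≠ 0 ∧ P.ord (aeval Y G) = 0) : False := by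
  have hind : AlgebraicIndependent ℂ Y := by
    rw [algebraicIndependent_iff]
    intro G hG
    by_contra h0
    exact (hY G h0).1 hG
  obtain ⟨A, hA⟩ : ∃ A, A = IntermediateField.adjoin ℂ (Set.range Y) := ⟨_, rfl⟩
  have hord : ∀ c : A, c ≠ 0 → P.ord (c : M) = 0 := by
    intro c hc
    have h1 : (c : M) ∈ IntermediateField.adjoin ℂ (Set.range Y) := by
      rw [← hA]
      exact c.2
    rw [IntermediateField.mem_adjoin_iff_div] at h1
    obtain ⟨a, ha, b, hb, hab⟩ := h1
    rw [Algebra.adjoin_range_eq_range_aeval] at ha hb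
    obtain ⟨F, rfl⟩ := ha
    obtain ⟨H, rfl⟩ := hb
    have hc0 : (c : M) ≠ 0 := fun h0 => hc (Subtype.ext h0)
    have hF : aeval Y F ≠ 0 := by
      intro h0
      apply hc0
      rw [hab]
      change aeval Y F / aeval Y H = 0
      rw [h0, zero_div]
    have hH : aeval Y H ≠ 0 := by
      intro h0
      apply hc0
      rw [hab]
      change aeval Y F / aeval Y H = 0
      rw [h0, div_zero]
    have hF0 : F ≠ 0 := by
      rintro rfl
      exact hF (map_zero _)
    have hH0 : H ≠ 0 := by
      rintro rfl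
      exact hH (map_zero _)
    rw [hab]
    change P.ord (aeval Y F / aeval Y H) = 0
    rw [P.ord_div hF hH, (hY F hF0).2, (hY H hH0).2, sub_zero]
  let w : Place A M :=
    { ord := P.ord
      ord_zero := P.ord_zero
      ord_mul := P.ord_mul
      ord_add := P.ord_add
      ord_const := fun {c} hc => hord c hc
      surj := P.surj }
  have hbas : IsTranscendenceBasis ℂ Y := by
    have hle : Algebra.trdeg ℂ M ≤ Cardinal.mk (Fin d) := by
      rw [hd]
      simp
    exact hind.isTranscendenceBasis_of_trdeg_le (by rw [hd]; exact Cardinal.natCast_lt_aleph0) hle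
  have halg : Algebra.IsAlgebraic A M := by
    rw [hA]
    exact hbas.isAlgebraic_field
  obtain ⟨τ, hτ0, hτ⟩ := P.surj
  have h1 := w.ord_eq_zero_of_isAlgebraic hτ0 (Algebra.IsAlgebraic.isAlgebraic τ)
  change P.ord τ = 0 at h1
  omega

/-- **A criterion for prime divisors.** -/
theorem prime_of_indep {N' : ℕ} {v : Fin (N' + 1) → M} (hv : NormalModel v)
    (hd : Algebra.trdeg ℂ M = (d + 1 : ℕ)) {X : Fin d → M} (hX : ∀ j, X j ∈ localRing v P)
    (hind : ∀ G : MvPolynomial (Fin d) ℂ, G ≠ 0 → ¬ Ge P 1 (aeval X G)) :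
    IsPrimeDivisor v P := by
  classical
  have hM0 : CharZero M := charZero_of_injective_algebraMap (algebraMap ℂ M).injective
  obtain ⟨P', hP', hT⟩ := exists_through hv P
  have hmem : ∀ G : MvPolynomial (Fin d) ℂ, aeval X G ∈ lsub v P := by
    intro G
    have h1 : aeval X G ∈ Algebra.adjoin ℂ (Set.range X) := by
      rw [Algebra.adjoin_range_eq_range_aeval]
      exact ⟨G, rfl⟩
    refine (Algebra.adjoin_le ?_ : Algebra.adjoin ℂ (Set.range X) ≤ lsub v P) h1
    rintro _ ⟨j, rfl⟩
    exact (lsub_iff hv).2 (hX j)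
  have hreg : ∀ f ∈ lsub v P, P.Reg f := fun f hf => localRing_reg ((lsub_iff hv).1 hf)
  have hunit : ∀ f ∈ lsub v P, ¬ Ge P 1 f → f ≠ 0 ∧ P'.ord f = 0 := by
    intro f hf hf1
    have hf0 : f ≠ 0 := fun h0 => hf1 (Or.inl h0)
    refine ⟨hf0, unit_through hT ((lsub_iff hv).1 hf) hf0 ?_⟩
    have h1 := (P.reg_iff hf0).1 (hreg f hf)
    have h2 : ¬ 1 ≤ P.ord f := fun h3 => hf1 (Or.inr h3)
    omega
  -- the maximal ideals are equal
  have hmax : ∀ f ∈ lsub v P, Ge P 1 f → Ge P' 1 f := by
    intro f hf hf1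
    by_contra hcon
    have hf0 : f ≠ 0 := fun h0 => hcon (Or.inl h0)
    have hfo : P'.ord f = 0 := by
      have h1 := (P'.reg_iff hf0).1 (hT f ((lsub_iff hv).1 hf))
      have h2 : ¬ 1 ≤ P'.ord f := fun h3 => hcon (Or.inr h3)
      omega
    refine no_triv hd P' (Fin.cons f X) fun G hG => ?_
    obtain ⟨Gh, hGh⟩ : ∃ Gh, Gh = finSuccEquiv ℂ d G := ⟨_, rfl⟩
    have hGh0 : Gh ≠ 0 := by
      rw [hGh]
      intro h0
      exact hG ((finSuccEquiv ℂ d).injective (by rw [h0, map_zero]))
    have hval : aeval (Fin.cons f X : Fin (d + 1) → M) G =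
        Polynomial.eval₂ (aeval X : MvPolynomial (Fin d) ℂ →ₐ[ℂ] M).toRingHom f Gh := by
      rw [hGh]
      clear hGh hGh0 hG
      induction G using MvPolynomial.induction_on with
      | C a =>
        have h1 : finSuccEquiv ℂ d (C a) = Polynomial.C (C a) := by
          rw [finSuccEquiv_apply, eval₂Hom_C]
          rfl
        rw [aeval_C, h1, Polynomial.eval₂_C]
        change _ = aeval X (C a)
        rw [aeval_C]
      | add p q hp hq => rw [map_add, map_add, Polynomial.eval₂_add, hp, hq]
      | mul_X p i hp =>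
        rw [map_mul, map_mul, Polynomial.eval₂_mul, hp, aeval_X]
        congr 1
        refine Fin.cases ?_ (fun j => ?_) i
        · rw [finSuccEquiv_X_zero, Polynomial.eval₂_X, Fin.cons_zero]
        · rw [finSuccEquiv_X_succ, Polynomial.eval₂_C, Fin.cons_succ]
          change _ = aeval X (MvPolynomial.X j)
          rw [aeval_X]
    -- the first coefficient
    obtain ⟨k, Gk, hk, hGk⟩ : ∃ (k : ℕ) (Gk : Polynomial (MvPolynomial (Fin d) ℂ)),
        Gh = Polynomial.X ^ k * Gk ∧ Gk.coeff 0 ≠ 0 := by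
      obtain ⟨Gk, hk, hGk⟩ := Polynomial.exists_eq_pow_rootMultiplicity_mul_and_not_dvd Gh hGh0 0
      rw [Polynomial.C_0, sub_zero] at hk hGk
      refine ⟨_, Gk, hk, fun h0 => hGk ?_⟩
      exact Polynomial.X_dvd_iff.2 h0
    obtain ⟨φ, hφ⟩ : ∃ φ, φ = Polynomial.eval₂ (aeval X : MvPolynomial (Fin d) ℂ →ₐ[ℂ] M).toRingHom
      f Gk := ⟨_, rfl⟩
    have hval2 : aeval (Fin.cons f X : Fin (d + 1) → M) G = f ^ k * φ := by
      rw [hval, hk, Polynomial.eval₂_mul, Polynomial.eval₂_pow, Polynomial.eval₂_X, hφ]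
    obtain ⟨H, hH⟩ : ∃ H, Gk = Polynomial.X * H + Polynomial.C (Gk.coeff 0) := by
      refine ⟨Gk.divX, ?_⟩
      rw [mul_comm]
      exact (Polynomial.divX_mul_X_add Gk).symm
    obtain ⟨ψ, hψ⟩ : ∃ ψ, ψ = Polynomial.eval₂ (aeval X : MvPolynomial (Fin d) ℂ →ₐ[ℂ] M).toRingHom
      f H := ⟨_, rfl⟩
    have hψmem : ψ ∈ lsub v P := by
      rw [hψ, Polynomial.eval₂_eq_sum, Polynomial.sum]
      exact Subalgebra.sum_mem _ fun i _ => Subalgebra.mul_mem _ (hmem _)
        (Subalgebra.pow_mem _ hf _)
    have hφ2 : φ = f * ψ + aeval X (Gk.coeff 0) := by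
      rw [hφ, hH, Polynomial.eval₂_add, Polynomial.eval₂_mul, Polynomial.eval₂_X,
        Polynomial.eval₂_C, ← hψ, ← hH]
      rfl
    have hφmem : φ ∈ lsub v P := by
      rw [hφ2]
      exact Subalgebra.add_mem _ (Subalgebra.mul_mem _ hf hψmem) (hmem _)
    have hφ1 : ¬ Ge P 1 φ := by
      intro h1
      apply hind _ hGk
      have h2 : aeval X (Gk.coeff 0) = φ - f * ψ := by
        rw [hφ2]
        ring
      rw [h2]
      refine h1.sub ?_
      have h3 := hf1.mul (show Ge P 0 ψ from hreg ψ hψmem)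
      rwa [add_zero] at h3
    obtain ⟨hφ0, hφo⟩ := hunit φ hφmem hφ1
    rw [hval2]
    refine ⟨mul_ne_zero (pow_ne_zero _ hf0) hφ0, ?_⟩
    rw [P'.ord_mul (pow_ne_zero _ hf0) hφ0, P'.ord_pow, hfo, hφo]
    ring
  obtain ⟨j, hj⟩ := exists_centred hv P
  have hle : P' = P := by
    apply Place.eq_of_le
    intro f hf0 hf
    obtain ⟨a, ha, b, hb, hb0, hbo, hab⟩ :=
      (mem_localRing (hT.centred hj)).1 (hP' f (Or.inr hf))
    have ha' : a ∈ lsub v P := (lsub_iff hv).2 (chart_localRing hj ha)
    have hb' : b ∈ lsub v P := (lsub_iff hv).2 (chart_localRing hj hb)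
    have hbP : P.ord b = 0 := by
      have h1 := (P.reg_iff hb0).1 (hreg b hb')
      by_contra h2
      rcases hmax b hb' (Or.inr (by omega)) with h3 | h3
      · exact hb0 h3
      · omega
    have h1 := hreg a ha'
    rw [← hab] at h1
    have h2 := (P.reg_iff (mul_ne_zero hf0 hb0)).1 h1
    rw [P.ord_mul hf0 hb0, hbP, add_zero] at h2
    exact h2
  rw [← hle]
  exact hP'

end prime

end Pool.Agent.H890
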