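import Pool.Agent.H890.Ord3

/-!
The cyclic covering of the projective bundle.
-/

set_option autoImplicit false
set_option linter.unusedSectionVars false
set_option linter.overlappingInstances false

open FF MvPolynomial Pool.Agent.W602.GT Pool.Agent.W603.LV Pool.Agent.W619.PQ Pool.Agent.Y172
  Pool.Agent.TH122.AB Pool.Agent.R887

namespace Pool.Agent.H890

/-- the sign of an index -/
def sg {r : ℕ} (k : Fin (r + 2)) : ℤ := if (k : ℕ) % 2 = 0 then 1 else -1

theorem sg_cases {r : ℕ} (k : Fin (r + 2)) : sg k = 1 ∨ sg k = -1 := by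
  unfold sg
  split_ifs
  · exact Or.inl rfl
  · exact Or.inr rfl

theorem sum_sg {r b : ℕ} (h : r + 2 = 2 * b) : ∑ k : Fin (r + 2), sg k = 0 := by
  have h1 : ∀ b : ℕ, ∑ k ∈ Finset.range (2 * b), (if k % 2 = 0 then (1 : ℤ) else -1) = 0 := by
    intro b
    induction b with
    | zero => simp
    | succ b ih =>
      have e1 : 2 * (b + 1) = 2 * b + 1 + 1 := by ring
      rw [e1, Finset.sum_range_succ, Finset.sum_range_succ, ih]
      have e2 : (2 * b) % 2 = 0 := by omega
      have e3 : ¬ (2 * b + 1) % 2 = 0 := by omega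
      rw [if_pos e2, if_neg e3]
      norm_num
  have h2 := h1 b
  rw [← h, Finset.sum_range] at h2
  exact h2

section

variable {K L M : Type} [Field K] [Field L] [Field M] [Algebra ℂ K] [Algebra ℂ L]
  [Algebra ℂ M] [Algebra K L] [Algebra L M] [Algebra K M] [IsScalarTower ℂ K L]
  [IsScalarTower ℂ L M] [IsScalarTower ℂ K M] [IsScalarTower K L M] [FiniteDimensional L M]
  {N : ℕ} {y : Fin (N + 1) → K} {n r : ℕ} {G : Place ℂ K → ℤ}

/-- the data of the cyclic covering -/
structure Cov (S : Mod K L M y n r G) (b : ℕ) (z : M) : Prop where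
  hb : r + 2 = 2 * b
  ws : ∑ k, S.wt k = 2
  wsg : ∑ k, sg k * S.wt k = 0
  zN : z ^ (r + 2) = algebraMap L M (∏ k, S.l k ^ sg k)
  gen : ∀ x : M, ∃ p : Polynomial L, x = Polynomial.aeval z p
  fin : Module.finrank L M ≤ r + 2
  trK : Algebra.trdeg ℂ K = n

variable (S : Mod K L M y n r G)

/-- the forms on the covering space -/
noncomputable def Mod.lM (k : Fin (r + 2)) : M := algebraMap L M (S.l k)

theorem Mod.sysM : Sys (S.lM) := S.sys.up

include S in
theorem Mod.trdeg_KL : Algebra.trdeg K L = r := by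
  rw [← (Gens_basis S.gens).cardinalMk_eq_trdeg]
  simp

include S in
theorem Mod.trdeg_KM : Algebra.trdeg K M = r := by
  have h1 : IsTranscendenceBasis K (algebraMap L M ∘ ts S.l 1) :=
    (Gens_basis S.gens).algebraMap_comp
  rw [← h1.cardinalMk_eq_trdeg]
  simp

include S in
theorem Mod.essK : Algebra.EssFiniteType ℂ K := S.ny.ess

include S in
theorem Mod.essM : Algebra.EssFiniteType ℂ M := S.nv.ess

include S in
theorem Mod.essL : Algebra.EssFiniteType ℂ L := by
  have h1 : (⊤ : IntermediateField K L).FG := by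
    have h2 : IntermediateField.adjoin K (Set.range (ts S.l 1)) = ⊤ := by
      rw [eq_top_iff]
      intro z _
      obtain ⟨P, Q, -, hz⟩ := S.gens.gen z
      rw [hz]
      refine div_mem ?_ ?_
      · exact IntermediateField.algebra_adjoin_le_adjoin K _
          (Algebra.adjoin_range_eq_range_aeval K (ts S.l 1) ▸ ⟨P, rfl⟩)
      · exact IntermediateField.algebra_adjoin_le_adjoin K _
          (Algebra.adjoin_range_eq_range_aeval K (ts S.l 1) ▸ ⟨Q, rfl⟩)
    rw [← h2]
    exact ⟨(Set.finite_range _).toFinset, by rw [Set.Finite.coe_toFinset]⟩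
  have h2 : Algebra.EssFiniteType K L := IntermediateField.fg_top_iff.1 h1
  have h3 := S.essK
  exact Algebra.EssFiniteType.comp ℂ K L

variable {S} {b : ℕ} {z : M}

theorem Cov.trL (h : Cov S b z) : Algebra.trdeg ℂ L = (n + r : ℕ) := by
  obtain ⟨x, -, hx, -⟩ := exists_crd h.trK
  have h1 := append_basis hx (Gens_basis S.gens)
  rw [← h1.cardinalMk_eq_trdeg]
  simp

theorem Cov.trM (h : Cov S b z) : Algebra.trdeg ℂ M = (n + r : ℕ) := trdeg_up (K := L) h.trL

theorem phi_ne (hl : Sys S.l) : ∏ k, S.l k ^ sg k ≠ 0 :=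
  Finset.prod_ne_zero_iff.2 fun k _ => zpow_ne_zero _ (hl.ne k)

theorem Cov.phi_ord (h : Cov S b z) (P : Place ℂ L) (i : Fin (r + 2)) :
    P.ord (∏ k, S.l k ^ sg k) = ∑ k, sg k * (P.ord (S.l k) - P.ord (S.l i)) := by
  rw [ord_prod' P _ _ fun k _ => zpow_ne_zero _ (S.sys.ne k)]
  have h1 : ∀ k, P.ord (S.l k ^ sg k) = sg k * (P.ord (S.l k) - P.ord (S.l i)) +
      sg k * P.ord (S.l i) := by
    intro k
    rw [P.ord_zpow]
    ring
  rw [Finset.sum_congr rfl fun k _ => h1 k, Finset.sum_add_distrib, ← Finset.sum_mul,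
    sum_sg h.hb, zero_mul, add_zero]

/-- **The form along vertical prime divisors.** -/
theorem Cov.ver (h : Cov S b z) {P : Place ℂ M} (hP : IsPrimeDivisor S.v P) {Q : Place ℂ K} {e : ℕ}
    (hPQ : Over P Q e) : IsPrimeDivisor y Q ∧ Divisorial n Q ∧
      (∀ f, P.ord (algebraMap K M f) = Q.ord f) ∧
      ∀ (q : ℕ) (η : (Fin n → Derivation ℂ K K) → K), IsPluri (2 * (b * q)) η → ∀ c : ℤ,
        OrdEq Q η c → ∀ (x : Fin n → K) (E : Fin n → Derivation ℂ K K), IsTranscendenceBasis ℂ x →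
        (∀ i j, E i (x j) = if i = j then 1 else 0) →
        OrdEq P (th S.lM b q (fun i => algebraMap K M (x i)) (algebraMap K M (η E)))
          (c + 2 * q * G Q : ℤ) := by
  have hessK := S.essK
  have hessL := S.essL
  have hessM := S.essM
  have hPd : Divisorial (n + r) P := hP.divisorial S.nv h.trM
  have hQd : Divisorial n Q := div_base (L := M) (by rw [S.trdeg_KM]) hPQ hPd
  obtain ⟨P₁, e₁, h₁⟩ := exists_below (K := L) P
  have hP₁ : Divisorial (n + r) P₁ := divisorial_down h₁ hPd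
  obtain ⟨hQ, i, g, hg0, hτ, hgau, ho⟩ := S.ver hPQ hQd hP h₁
  have hφ0 := phi_ne (S := S) S.sys
  have hφ : P₁.ord (∏ k, S.l k ^ sg k) = 0 := by
    rw [h.phi_ord P₁ i.castSucc]
    have h1 : ∀ k, sg k * (P₁.ord (S.l k) - P₁.ord (S.l i.castSucc)) =
        sg k * S.wt k * G Q - sg k * (S.wt i.castSucc * G Q) := by
      intro k
      rw [ho]
      ring
    rw [Finset.sum_congr rfl fun k _ => h1 k, Finset.sum_sub_distrib, ← Finset.sum_mul,
      ← Finset.sum_mul, h.wsg, sum_sg h.hb]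
    ring
  have he₁ : e₁ = 1 := kummer_unr h₁ (Nat.succ_pos _) hφ0 hφ h.zN h.gen
  subst he₁
  refine ⟨hQ, hQd, fun f => ?_, fun q η hη c hc x E hx hE => ?_⟩
  · rw [IsScalarTower.algebraMap_apply K L M, h₁.2, hgau.base, Nat.cast_one, one_mul]
  · have h1 := ver_ord S.sys h.trK hQd hg0 hτ hgau S.wtl h.ws ho h.hb hη hc hx hE
    have h2 : OrdEq P₁ (th S.l b q (fun i => algebraMap K L (x i)) (algebraMap K L (η E)))
        ((c + 2 * q * G Q : ℤ) : ℚ) := by
      push_cast
      exact h1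
    have h3 := up_th rfl h.trL S.sys h₁ hP₁
      (append_basis hx (Gens_basis (gens_ts S.sys S.gens (sA 0)))) h2
    simp only [← IsScalarTower.algebraMap_apply] at h3
    have h4 : ((1 : ℕ) * (c + 2 * q * G Q + (2 * (b * q) : ℕ)) - (2 * (b * q) : ℕ) : ℤ) =
        c + 2 * q * G Q := by
      push_cast
      ring
    rw [h4] at h3
    exact h3

/-- **The form along horizontal prime divisors.** -/
theorem Cov.hor (h : Cov S b z) {P : Place ℂ M} (hP : IsPrimeDivisor S.v P)
    (htr : ∀ f : K, P.ord (algebraMap K M f) = 0) (q : ℕ) {x : Fin n → K}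
    {E : Fin n → Derivation ℂ K K} (hx : IsTranscendenceBasis ℂ x)
    (hE : ∀ i j, E i (x j) = if i = j then 1 else 0) {c : K} (hc : c ≠ 0) :
    OrdEq P (th S.lM b q (fun i => algebraMap K M (x i)) (algebraMap K M c)) 0 := by
  classical
  have hessK := S.essK
  have hessL := S.essL
  have hessM := S.essM
  have hPd : Divisorial (n + r) P := hP.divisorial S.nv h.trM
  obtain ⟨P₁, e₁, h₁⟩ := exists_below (K := L) P
  have hP₁ : Divisorial (n + r) P₁ := divisorial_down h₁ hPd
  have he₁ : (0 : ℤ) < e₁ := by exact_mod_cast h₁.1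
  have htr₁ : ∀ f : K, P₁.ord (algebraMap K L f) = 0 := by
    intro f
    have h1 := htr f
    rw [IsScalarTower.algebraMap_apply K L M, h₁.2] at h1
    rcases mul_eq_zero.1 h1 with h2 | h2
    · omega
    · exact h2
  obtain ⟨c₀, hc₀⟩ := S.exists_cen P
  obtain ⟨i, f₀, hf₀, hu₀⟩ := S.u_eq c₀
  -- `l i` has minimal order
  have hmin : ∀ i' : Fin (r + 1), P₁.ord (S.l i.castSucc) ≤ P₁.ord (S.l i'.castSucc) := by
    intro i'
    obtain ⟨j₀, hj₀⟩ := S.ny.ne
    obtain ⟨f', hf'⟩ := (S.fam i').non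
    obtain ⟨c', hc'⟩ := S.exists_u i' hf'
    have h1 := hc₀ c'
    rw [h₁.2, h₁.2] at h1
    have h2 := le_of_mul_le_mul_left h1 he₁
    have h3 : ∀ (i : Fin (r + 1)) (f : K), f ≠ 0 →
        P₁.ord (S.l i.castSucc * algebraMap K L f) = P₁.ord (S.l i.castSucc) := by
      intro i f hf
      rw [P₁.ord_mul (S.sys.ne _) (by rwa [Ne, map_eq_zero]), htr₁, add_zero]
    rw [hu₀, hc', h3 _ _ ((S.fam i).ne _ hf₀), h3 _ _ ((S.fam i').ne _ hf')] at h2
    exact h2
  obtain ⟨s, hs, hs1, hs2⟩ := exists_good S.sys P₁ hmin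
  have ht := gens_ts S.sys S.gens s
  have htord : ∀ p, P₁.ord (ts S.l s p) = P₁.ord (S.l (s p.succ.castSucc)) - P₁.ord (S.l (s 0)) :=
    fun p => by
      unfold ts
      rw [P₁.ord_div (S.sys.ne _) (S.sys.ne _)]
  have hreg : ∀ p, P₁.Reg (ts S.l s p) := by
    intro p
    right
    rw [htord]
    have := hs1 (s p.succ.castSucc)
    omega
  -- the chart is contained in the ring of polynomials
  have hmem : ∀ i' : Fin (r + 2), S.l i' / S.l i.castSucc ∈ RR (⊤ : Subalgebra ℂ K) (ts S.l s) := by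
    intro i'
    rw [← hs.zero]
    have h1 := ratio_mem (K := K) S.sys s i'
    rw [Algebra.adjoin_range_eq_range_aeval] at h1
    obtain ⟨F, hF⟩ := h1
    exact mem_RR_top.2 ⟨F, hF⟩
  have hchart : chart S.u c₀ ≤ RR (⊤ : Subalgebra ℂ K) (ts S.l s) := by
    apply Algebra.adjoin_le
    rintro _ ⟨c', rfl⟩
    change S.u c' / S.u c₀ ∈ RR (⊤ : Subalgebra ℂ K) (ts S.l s)
    obtain ⟨i', f', hf', hu'⟩ := S.u_eq c'
    have h1 : S.u c' / S.u c₀ = S.l i'.castSucc / S.l i.castSucc * algebraMap K L (f' / f₀) := by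
      rw [hu', hu₀, map_div₀, div_mul_div_comm]
    rw [h1]
    exact (RR _ _).mul_mem (hmem _) (RR_base Algebra.mem_top)
  obtain ⟨hrep, hord, huniq⟩ := hor_prime ht h₁ htr₁ hreg (S.loc hc₀ hP hchart)
  have h1 := hor_ord S.sys hs ht htr₁ hreg hrep h.hb (q := q) hx hE hc
  have h2 := up_th rfl h.trL S.sys h₁ hP₁
    (append_basis hx (Gens_basis (gens_ts S.sys S.gens (sA 0)))) h1
  simp only [← IsScalarTower.algebraMap_apply] at h2
  -- the orders of the forms
  have hcase : (∀ k, P₁.ord (S.l k) - P₁.ord (S.l (s 0)) = 0) ∨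
      ∃ k₀, ∀ k, P₁.ord (S.l k) - P₁.ord (S.l (s 0)) = if k = k₀ then 1 else 0 := by
    by_cases hex : ∃ p, P₁.ord (ts S.l s p) = 1
    · right
      obtain ⟨p, hp⟩ := hex
      refine ⟨s p.succ.castSucc, fun k => ?_⟩
      obtain ⟨k', rfl⟩ := s.surjective k
      by_cases hk0 : k' = 0
      · rw [hk0, sub_self, if_neg]
        intro h3
        have h4 := congrArg Fin.val (s.injective h3)
        simp only [Fin.val_zero, Fin.val_castSucc, Fin.val_succ] at h4
        omega
      by_cases hkl : k' = Fin.last (r + 1)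
      · rw [hkl, hs2, sub_self, if_neg]
        intro h3
        have h4 := congrArg Fin.val (s.injective h3)
        simp only [Fin.val_last, Fin.val_castSucc, Fin.val_succ] at h4
        omega
      obtain ⟨p', rfl⟩ := mid_of_ne hk0 hkl
      rw [← htord]
      by_cases hpp : p' = p
      · rw [hpp, hp, if_pos rfl]
      · rw [if_neg]
        · rcases hord p' with h3 | h3
          · exact h3
          · exact absurd (huniq _ _ h3 hp) hpp
        · intro h3
          apply hpp
          have h4 := congrArg Fin.val (s.injective h3)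
          simp only [Fin.val_castSucc, Fin.val_succ] at h4
          exact Fin.ext (by omega)
    · left
      push Not at hex
      intro k
      obtain ⟨k', rfl⟩ := s.surjective k
      by_cases hk0 : k' = 0
      · rw [hk0, sub_self]
      by_cases hkl : k' = Fin.last (r + 1)
      · rw [hkl, hs2, sub_self]
      obtain ⟨p', rfl⟩ := mid_of_ne hk0 hkl
      rw [← htord]
      exact (hord p').resolve_right (hex p')
  have hφ0 := phi_ne (S := S) S.sys
  rcases hcase with hcase | ⟨k₀, hcase⟩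
  · have hφ : P₁.ord (∏ k, S.l k ^ sg k) = 0 := by
      rw [h.phi_ord P₁ (s 0)]
      exact Finset.sum_eq_zero fun k _ => by rw [hcase, mul_zero]
    have he : e₁ = 1 := kummer_unr h₁ (Nat.succ_pos _) hφ0 hφ h.zN h.gen
    subst he
    have h3 : ∑ k, (P₁.ord (S.l k) - P₁.ord (S.l (s 0))) = 0 :=
      Finset.sum_eq_zero fun k _ => hcase k
    rw [h3] at h2
    have h4 : ((1 : ℕ) * (-((r + 1) * q * 0) + (2 * (b * q) : ℕ)) - (2 * (b * q) : ℕ) : ℤ) = 0 := by
      push_cast
      ring
    rw [h4] at h2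
    exact_mod_cast h2
  · have h3 : ∑ k, (P₁.ord (S.l k) - P₁.ord (S.l (s 0))) = 1 := by
      rw [Finset.sum_congr rfl fun k _ => hcase k, Finset.sum_ite_eq' Finset.univ k₀,
        if_pos (Finset.mem_univ _)]
    have hφ : P₁.ord (∏ k, S.l k ^ sg k) = sg k₀ := by
      rw [h.phi_ord P₁ (s 0), Finset.sum_congr rfl fun k _ => by rw [hcase k]]
      simp only [mul_ite, mul_one, mul_zero, Finset.sum_ite_eq', Finset.mem_univ, if_true]
    have hz : ((r + 2 : ℕ) : ℤ) * P.ord z = e₁ * sg k₀ := by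
      rw [← hφ, ← h₁.2, ← h.zN, P.ord_pow]
    have hdvd : ((r + 2 : ℕ) : ℤ) ∣ e₁ := by
      rcases sg_cases k₀ with h4 | h4
      · exact ⟨P.ord z, by rw [hz, h4, mul_one]⟩
      · exact ⟨- P.ord z, by rw [mul_neg, hz, h4]; ring⟩
    have hle : e₁ ≤ r + 2 := (over_le h₁).trans h.fin
    have he : e₁ = r + 2 := by
      have h4 : r + 2 ∣ e₁ := by exact_mod_cast hdvd
      have h5 := Nat.le_of_dvd h₁.1 h4
      omega
    subst he
    rw [h3] at h2
    have hb := h.hb
    have hb' : (r : ℤ) + 2 = 2 * b := by exact_mod_cast hb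
    have h4 : ((r + 2 : ℕ) * (-((r + 1) * q * 1) + (2 * (b * q) : ℕ)) - (2 * (b * q) : ℕ) : ℤ) =
        0 := by
      push_cast
      have hr : (r : ℤ) = 2 * b - 2 := by linarith
      rw [hr]
      ring
    rw [h4] at h2
    exact_mod_cast h2

end

end Pool.Agent.H890
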