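import Pool.Graph.R_seed8.Y172.Loc3

/-!
The normalization of a projective variety in a finite extension of its function field.
-/

set_option autoImplicit false
set_option linter.unusedSectionVars false
set_option linter.overlappingInstances false

open FF Pool.Agent.Y172

namespace Pool.Agent.H890

section fin

/-- finiteness of the integral closure -/
theorem fin_clos {M : Type} [Field M] [Algebra ℂ M] [Algebra.EssFiniteType ℂ M] {R : Type}
    [CommRing R] [IsDomain R] [Algebra ℂ R] [Algebra R M] [IsScalarTower ℂ R M]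
    [Algebra.FiniteType ℂ R] [FaithfulSMul R M] [Algebra.IsAlgebraic R M] :
    ∃ (q : ℕ) (b : Fin q → M), ∀ x, IsIntegral R x ↔ x ∈ Algebra.adjoin ℂ (Set.range b) := by
  obtain ⟨s, g, hg, hgint⟩ := exists_integral_inj_algHom_of_fg ℂ R
  let S := MvPolynomial (Fin s) ℂ
  let _ : Algebra S R := g.toRingHom.toAlgebra
  have : IsScalarTower ℂ S R := IsScalarTower.of_algebraMap_eq fun c => (g.commutes c).symm
  have hint : Algebra.IsIntegral S R := ⟨hgint⟩
  have hf : FaithfulSMul S R := (faithfulSMul_iff_algebraMap_injective _ R).2 hg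
  let _ : Algebra S M := ((algebraMap R M).comp g.toRingHom).toAlgebra
  have hSRM : IsScalarTower S R M := IsScalarTower.of_algebraMap_eq fun _ => rfl
  have : IsScalarTower ℂ S M := IsScalarTower.of_algebraMap_eq fun c => by
    have h1 : algebraMap S M (algebraMap ℂ S c) = algebraMap R M (algebraMap S R (algebraMap ℂ S c)) :=
      rfl
    rw [h1, ← IsScalarTower.algebraMap_apply ℂ S R, ← IsScalarTower.algebraMap_apply ℂ R M]
  have hfM : FaithfulSMul S M := by
    rw [faithfulSMul_iff_algebraMap_injective]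
    exact (FaithfulSMul.algebraMap_injective R M).comp hg
  have halg : Algebra.IsAlgebraic S M := Algebra.IsAlgebraic.trans S R M
  let F := FractionRing S
  let _ : Algebra F M := FractionRing.liftAlgebra S M
  have : IsScalarTower S F M := FractionRing.isScalarTower_liftAlgebra S M
  have : IsScalarTower ℂ F M := IsScalarTower.of_algebraMap_eq fun c => by
    rw [IsScalarTower.algebraMap_apply ℂ S M, IsScalarTower.algebraMap_apply ℂ S F,
      ← IsScalarTower.algebraMap_apply S F M]
  have : Algebra.IsAlgebraic F M := by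
    rw [← IsFractionRing.comap_isAlgebraic_iff (A := S) (K := F) (C := M)]
    exact halg
  have : Algebra.EssFiniteType F M := Algebra.EssFiniteType.of_comp ℂ F M
  have : FiniteDimensional F M := by
    obtain ⟨s, hs⟩ := IntermediateField.fg_top F M
    have h1 : FiniteDimensional F (IntermediateField.adjoin F (s : Set M)) :=
      IntermediateField.finiteDimensional_adjoin fun x _ =>
        (Algebra.IsAlgebraic.isAlgebraic (R := F) x).isIntegral
    rw [hs] at h1
    exact h1.equiv IntermediateField.topEquiv.toLinearEquiv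
  have hF0 : CharZero F := charZero_of_injective_algebraMap (algebraMap ℂ F).injective
  have hfin : Module.Finite S (integralClosure S M) :=
    IsIntegralClosure.finite S F M (integralClosure S M)
  have hft : Algebra.FiniteType ℂ (integralClosure S M) :=
    Algebra.FiniteType.trans (R := ℂ) (S := S) (A := integralClosure S M) inferInstance inferInstance
  have hft' : ((integralClosure S M).restrictScalars ℂ).FG := by
    rw [Subalgebra.fg_iff_finiteType]
    exact hft
  obtain ⟨t, ht⟩ := hft'
  obtain ⟨q, b, hb⟩ : ∃ (q : ℕ) (b : Fin q → M), Set.range b = t :=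
    ⟨t.card, fun i => (t.equivFin.symm i : M), by
      ext x
      constructor
      · rintro ⟨i, rfl⟩
        exact (t.equivFin.symm i).2
      · intro hx
        exact ⟨t.equivFin ⟨x, hx⟩, by simp⟩⟩
  refine ⟨q, b, fun x => ?_⟩
  rw [hb, ht, Subalgebra.mem_restrictScalars, mem_integralClosure_iff]
  constructor
  · intro h
    exact isIntegral_trans (R := S) x h
  · intro h
    exact h.tower_top

end fin

section scale

variable {L M : Type} [Field L] [Field M] [Algebra ℂ L] [Algebra ℂ M] [Algebra L M]
  [IsScalarTower ℂ L M]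

/-- clearing denominators in an integral equation -/
theorem scale_int {A₁ A₂ : Subalgebra ℂ L} {s : L} (hs : s ∈ A₂)
    (h : ∀ γ ∈ A₁, ∃ k : ℕ, γ * s ^ k ∈ A₂) {x : M} (hx : IsIntegral A₁ x) :
    ∃ k₀ : ℕ, ∀ k, k₀ ≤ k → IsIntegral A₂ (algebraMap L M s ^ k * x) := by
  classical
  obtain ⟨p, hp, hpx⟩ := hx
  choose! κ hκ using h
  refine ⟨(Finset.range (p.natDegree + 1)).sup fun i => κ (p.coeff i), fun k hk => ?_⟩
  obtain ⟨P, hP⟩ : ∃ P : Polynomial L, P = p.map (algebraMap A₁ L) := ⟨_, rfl⟩
  have hPm : P.Monic := by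
    rw [hP]
    exact hp.map _
  have hPd : P.natDegree = p.natDegree := by
    rw [hP]
    exact hp.natDegree_map _
  have hPx : P.eval₂ (algebraMap L M) x = 0 := by
    rw [hP, Polynomial.eval₂_map]
    exact hpx
  have h1 : Polynomial.scaleRoots P (s ^ k) ∈ Polynomial.lifts (algebraMap A₂ L) := by
    rw [Polynomial.lifts_iff_coeff_lifts]
    intro i
    rw [Polynomial.coeff_scaleRoots]
    rcases lt_trichotomy i P.natDegree with hi | hi | hi
    · have h2 : P.coeff i = ((p.coeff i : A₁) : L) := by
        rw [hP, Polynomial.coeff_map]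
        rfl
      obtain ⟨e, he⟩ : ∃ e, P.natDegree - i = e + 1 := ⟨P.natDegree - i - 1, by omega⟩
      have h3 : κ (p.coeff i : L) ≤ k := by
        refine le_trans ?_ hk
        exact Finset.le_sup (f := fun i => κ (p.coeff i : L)) (by
          rw [Finset.mem_range]
          omega)
      have h4 : P.coeff i * (s ^ k) ^ (P.natDegree - i) ∈ A₂ := by
        rw [h2, he]
        have h5 : (p.coeff i : L) * (s ^ k) ^ (e + 1) =
            ((p.coeff i : L) * s ^ κ (p.coeff i : L)) * (s ^ (k - κ (p.coeff i : L)) * (s ^ k) ^ e) := by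
          have h6 : s ^ k = s ^ κ (p.coeff i : L) * s ^ (k - κ (p.coeff i : L)) := by
            rw [← pow_add, Nat.add_sub_cancel' h3]
          rw [pow_succ]
          calc (p.coeff i : L) * ((s ^ k) ^ e * s ^ k)
              = (p.coeff i : L) * ((s ^ k) ^ e * (s ^ κ (p.coeff i : L) *
                s ^ (k - κ (p.coeff i : L)))) := by rw [← h6]
            _ = _ := by ring
        rw [h5]
        exact A₂.mul_mem (hκ _ (p.coeff i).2) (A₂.mul_mem (A₂.pow_mem hs _)
          (A₂.pow_mem (A₂.pow_mem hs _) _))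
      exact ⟨⟨_, h4⟩, rfl⟩
    · rw [hi, Nat.sub_self, pow_zero, mul_one]
      exact ⟨1, by rw [map_one]; exact hPm.leadingCoeff.symm⟩
    · rw [Polynomial.coeff_eq_zero_of_natDegree_lt hi, zero_mul]
      exact ⟨0, map_zero _⟩
  obtain ⟨q, hq, -, hqm⟩ := Polynomial.lifts_and_natDegree_eq_and_monic h1
    ((Polynomial.monic_scaleRoots_iff _).2 hPm)
  refine ⟨q, hqm, ?_⟩
  have h2 := Polynomial.scaleRoots_eval₂_eq_zero (algebraMap L M) (s := s ^ k) hPx
  rw [map_pow] at h2
  rw [← h2, ← hq, Polynomial.eval₂_map]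
  rfl

/-- valuation rings are integrally closed -/
theorem int_mem {A : Subalgebra ℂ L} {O : ValuationSubring M}
    (hA : ∀ a ∈ A, algebraMap L M a ∈ O) {x : M} (hx : IsIntegral A x) : x ∈ O := by
  obtain ⟨p, hp, hpx⟩ := hx
  let φ : A →+* O := ((algebraMap L M).comp (A.subtype : A →+* L)).codRestrict O.toSubring
    fun a => hA _ a.2
  have h1 : IsIntegral O x := by
    refine ⟨p.map φ, hp.map φ, ?_⟩
    rw [Polynomial.eval₂_map, ← hpx]
    rfl
  obtain ⟨y, hy⟩ := (IsIntegrallyClosed.isIntegral_iff (R := O) (K := M)).1 h1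
  rw [← hy]
  exact y.2

end scale

section nrm

variable {L M : Type} [Field L] [Field M] [Algebra ℂ L] [Algebra ℂ M] [Algebra L M]
  [IsScalarTower ℂ L M] {s : ℕ} {u : Fin (s + 1) → L}

theorem chart_frac {c : Fin (s + 1)}
    (hf : IntermediateField.adjoin ℂ (Set.range fun i => u i / u c) = ⊤) :
    IsFractionRing (chart u c) L := by
  refine IsFractionRing.of_field _ L fun z => ?_
  have hz : z ∈ IntermediateField.adjoin ℂ (Set.range fun i => u i / u c) := by
    rw [hf]
    trivial
  rw [IntermediateField.mem_adjoin_iff_div] at hz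
  obtain ⟨a, ha, b, hb, rfl⟩ := hz
  exact ⟨⟨a, ha⟩, ⟨b, hb⟩, rfl⟩

theorem field_of_chart {N : ℕ} {v : Fin (N + 1) → M} {j : Fin (N + 1)}
    (h : ∀ x : M, ∃ a ∈ chart v j, ∃ b ∈ chart v j, x = a / b) :
    IntermediateField.adjoin ℂ (Set.range fun i => v i / v j) = ⊤ := by
  rw [eq_top_iff]
  intro x _
  rw [IntermediateField.mem_adjoin_iff_div]
  obtain ⟨a, ha, b, hb, hx⟩ := h x
  exact ⟨a, ha, b, hb, hx⟩

/-- **Normality of the charts.** -/
theorem nrm_normal {N : ℕ} {v : Fin (N + 1) → M} (hfr : ∀ j, v j ≠ 0 → IsFractionRing (chart v j) M)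
    {J : Set (Fin (N + 1))} (hJ : ∀ j ∈ J, v j ≠ 0)
    (hnor : ∀ j ∈ J, IsIntegrallyClosed (chart v j))
    (hcov : ∀ O : ValuationSubring M, (∀ c : ℂ, algebraMap ℂ M c ∈ O) →
      ∃ j ∈ J, ∀ i, v i / v j ∈ O)
    {j : Fin (N + 1)} (hj : v j ≠ 0) : IsIntegrallyClosed (chart v j) := by
  classical
  have := hfr j hj
  rw [isIntegrallyClosed_iff M]
  intro x hx
  -- the conductor
  let I : Ideal (chart v j).toSubring :=
    { carrier := {a | (a : M) * x ∈ chart v j}
      add_mem' := fun {a b} ha hb => by
        change ((a : M) + b) * x ∈ chart v j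
        rw [add_mul]
        exact (chart v j).add_mem ha hb
      zero_mem' := by
        change (0 : M) * x ∈ chart v j
        rw [zero_mul]
        exact (chart v j).zero_mem
      smul_mem' := fun c {a} ha => by
        change ((c : M) * a) * x ∈ chart v j
        rw [mul_assoc]
        exact (chart v j).mul_mem c.2 ha }
  have hI : ∀ a : (chart v j).toSubring, a ∈ I ↔ (a : M) * x ∈ chart v j := fun _ => Iff.rfl
  by_cases hIt : I = ⊤
  · have h1 : (1 : (chart v j).toSubring) ∈ I := by
      rw [hIt]
      trivial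
    have h2 := (hI _).1 h1
    have h3 : ((1 : (chart v j).toSubring) : M) * x = x := by
      change (1 : M) * x = x
      rw [one_mul]
    rw [h3] at h2
    exact ⟨⟨x, h2⟩, rfl⟩
  exfalso
  obtain ⟨O, hO, hIO⟩ := Ideal.image_subset_nonunits_valuationSubring I hIt
  obtain ⟨c, hcJ, hc⟩ := hcov O fun z => hO ((chart v j).algebraMap_mem z)
  have hvc := hJ c hcJ
  -- `s = v j / v c`, an element of the chart `c`
  have hs : v j / v c ∈ chart v c := gen_mem v c j
  have ha : v c / v j ∈ chart v j := gen_mem v j c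
  have h1 : ∀ γ ∈ chart v j, ∃ k : ℕ, γ * (v j / v c) ^ k ∈ chart v c := fun γ hγ =>
    chart_change hvc hj hγ
  obtain ⟨k, hk⟩ := scale_int (M := M) hs h1 hx
  have h2 := hk k le_rfl
  have := hfr c hvc
  have := hnor c hcJ
  obtain ⟨z, hz⟩ := (IsIntegrallyClosed.isIntegral_iff (R := chart v c) (K := M)).1 h2
  have h3 : (v j / v c) ^ k * x ∈ chart v c := by
    have h4 : algebraMap M M (v j / v c) ^ k * x = (v j / v c) ^ k * x := rfl
    rw [← h4, ← hz]
    exact z.2
  obtain ⟨k', hk'⟩ := chart_change hj hvc h3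
  have h4 : (v c / v j) ^ (k + k') * x ∈ chart v j := by
    have h5 : (v j / v c) ^ k * x * (v c / v j) ^ k' * (v c / v j) ^ (k + k) =
        (v c / v j) ^ (k + k') * x := by
      have h6 : (v j / v c) ^ k * (v c / v j) ^ k = 1 := by
        rw [← mul_pow, div_mul_div_cancel₀ hvc, div_self hj, one_pow]
      calc (v j / v c) ^ k * x * (v c / v j) ^ k' * (v c / v j) ^ (k + k)
          = ((v j / v c) ^ k * (v c / v j) ^ k) * ((v c / v j) ^ (k + k') * x) := by ring
        _ = _ := by rw [h6, one_mul]
    rw [← h5]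
    exact (chart v j).mul_mem hk' ((chart v j).pow_mem ha _)
  have h5 : (⟨(v c / v j) ^ (k + k'), (chart v j).pow_mem ha _⟩ : (chart v j).toSubring) ∈ I :=
    (hI _).2 h4
  have h6 : (v c / v j) ^ (k + k') ∈ O.nonunits := hIO ⟨_, h5, rfl⟩
  have h7 : ((v c / v j) ^ (k + k'))⁻¹ ∈ O := by
    rw [← inv_pow, inv_div]
    exact O.pow_mem (hc j) _
  have h8 := (ValuationSubring.mem_nonunits_iff (A := O)).1 h6
  have h9 := (O.valuation_le_one_iff _).2 h7
  rw [map_inv₀] at h9
  have h10 : O.valuation ((v c / v j) ^ (k + k')) ≠ 0 := by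
    rw [Ne, map_eq_zero]
    exact pow_ne_zero _ (div_ne_zero hvc hj)
  have h11 := (inv_le_one₀ (zero_lt_iff.2 h10)).1 h9
  exact absurd h8 (not_lt.2 h11)

theorem exists_fin_range {T : Set M} (hT : T.Finite) (hne : T.Nonempty) :
    ∃ (N : ℕ) (v : Fin (N + 1) → M), Set.range v = T := by
  classical
  obtain ⟨t, rfl⟩ := hT.exists_finset_coe
  have hc : 0 < t.card := Finset.card_pos.2 (by simpa using hne)
  obtain ⟨N, hN⟩ : ∃ N, t.card = N + 1 := ⟨t.card - 1, by omega⟩
  refine ⟨N, fun i => (t.equivFin.symm (Fin.cast hN.symm i) : M), ?_⟩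
  ext x
  constructor
  · rintro ⟨i, rfl⟩
    exact (t.equivFin.symm _).2
  · intro hx
    refine ⟨Fin.cast hN (t.equivFin ⟨x, hx⟩), ?_⟩
    simp

theorem chart_unit {c c' : Fin (s + 1)} (hc' : u c' ≠ 0) {a : L} (ha : a ∈ chart u c)
    (hc : u c ≠ 0) : ∃ k : ℕ, a * (u c / u c') ^ k ∈ chart u c' :=
  chart_change hc' hc ha

/-- **The normalization of a projective variety in a finite extension of its function field.** -/
theorem exists_nrm [FiniteDimensional L M] (hu : ∀ c, u c ≠ 0)
    (hf : ∀ c, IntermediateField.adjoin ℂ (Set.range fun i => u i / u c) = ⊤) :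
    ∃ (N : ℕ) (v : Fin (N + 1) → M) (d : ℕ) (j : Fin (s + 1) → Fin (N + 1)), 0 < d ∧
      NormalModel v ∧ (∀ c, v (j c) = algebraMap L M (u c) ^ d) ∧
      ∀ c x, x ∈ chart v (j c) ↔ IsIntegral (chart u c) x := by
  classical
  have hess1 : Algebra.EssFiniteType ℂ L := by
    have h2 : (⊤ : IntermediateField ℂ L).FG := by
      rw [← hf 0]
      exact ⟨(Set.finite_range fun i => u i / u 0).toFinset, by rw [Set.Finite.coe_toFinset]⟩
    exact IntermediateField.fg_top_iff.1 h2
  have hess2 : Algebra.EssFiniteType L M := inferInstance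
  have hess : Algebra.EssFiniteType ℂ M := Algebra.EssFiniteType.comp ℂ L M
  have hfr : ∀ c, IsFractionRing (chart u c) L := fun c => chart_frac (hf c)
  have hfaith : ∀ c, FaithfulSMul (chart u c) M := fun c => by
    rw [faithfulSMul_iff_algebraMap_injective]
    exact (algebraMap L M).injective.comp Subtype.val_injective
  have halg : ∀ c, Algebra.IsAlgebraic (chart u c) M := fun c => by
    have := hfr c
    rw [IsFractionRing.comap_isAlgebraic_iff (A := chart u c) (K := L) (C := M)]
    infer_instance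
  have hfin : ∀ c, ∃ (q : ℕ) (b : Fin q → M), ∀ x, IsIntegral (chart u c) x ↔
      x ∈ Algebra.adjoin ℂ (Set.range b) := fun c => fin_clos
  choose q b hb using hfin
  have hU : ∀ c, algebraMap L M (u c) ≠ 0 := fun c => by
    rw [Ne, map_eq_zero]
    exact hu c
  have hbint : ∀ c l, IsIntegral (chart u c) (b c l) := fun c l =>
    (hb c _).2 (Algebra.subset_adjoin ⟨l, rfl⟩)
  -- the exponent
  have hk : ∀ c c' l, ∃ k₀ : ℕ, ∀ k, k₀ ≤ k →
      IsIntegral (chart u c') (algebraMap L M (u c / u c') ^ k * b c l) := fun c c' l =>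
    scale_int (gen_mem u c' c) (fun γ hγ => chart_change (hu c') (hu c) hγ) (hbint c l)
  choose κ hκ using hk
  obtain ⟨d, hd⟩ : ∃ d : ℕ, d = 1 + Finset.univ.sup fun c => Finset.univ.sup fun c' =>
    Finset.univ.sup fun l => κ c c' l := ⟨_, rfl⟩
  have hκd : ∀ c c' l, κ c c' l ≤ d := fun c c' l => by
    have h1 : κ c c' l ≤ Finset.univ.sup fun l => κ c c' l :=
      Finset.le_sup (f := fun l => κ c c' l) (Finset.mem_univ l)
    have h2 : (Finset.univ.sup fun l => κ c c' l) ≤ Finset.univ.sup fun c' =>
        Finset.univ.sup fun l => κ c c' l :=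
      Finset.le_sup (f := fun c' => Finset.univ.sup fun l => κ c c' l) (Finset.mem_univ c')
    have h3 : (Finset.univ.sup fun c' => Finset.univ.sup fun l => κ c c' l) ≤
        Finset.univ.sup fun c => Finset.univ.sup fun c' => Finset.univ.sup fun l => κ c c' l :=
      Finset.le_sup (f := fun c => Finset.univ.sup fun c' => Finset.univ.sup fun l => κ c c' l)
        (Finset.mem_univ c)
    omega
  -- the coordinates
  obtain ⟨N, v, hv⟩ := exists_fin_range (M := M)
    (T := (Set.range fun f : Fin d → Fin (s + 1) => ∏ k, algebraMap L M (u (f k))) ∪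
      ⋃ c, Set.range fun l => algebraMap L M (u c) ^ d * b c l)
    ((Set.finite_range _).union (Set.finite_iUnion fun c => Set.finite_range _))
    ⟨_, Or.inl ⟨fun _ => 0, rfl⟩⟩
  have hv1 : ∀ i, (∃ f : Fin d → Fin (s + 1), v i = ∏ k, algebraMap L M (u (f k))) ∨
      ∃ c l, v i = algebraMap L M (u c) ^ d * b c l := by
    intro i
    have h1 : v i ∈ Set.range v := ⟨i, rfl⟩
    rw [hv] at h1
    rcases h1 with ⟨f, hf⟩ | h1
    · exact Or.inl ⟨f, hf.symm⟩
    · obtain ⟨c, hc⟩ := Set.mem_iUnion.1 h1
      obtain ⟨l, hl⟩ := hc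
      exact Or.inr ⟨c, l, hl.symm⟩
  have hj : ∀ c, ∃ j, v j = algebraMap L M (u c) ^ d := by
    intro c
    have h1 : algebraMap L M (u c) ^ d ∈ Set.range v := by
      rw [hv]
      left
      exact ⟨fun _ => c, by simp⟩
    exact h1
  choose j hj using hj
  have hb' : ∀ c l, ∃ i, v i = algebraMap L M (u c) ^ d * b c l := by
    intro c l
    have h1 : algebraMap L M (u c) ^ d * b c l ∈ Set.range v := by
      rw [hv]
      right
      exact Set.mem_iUnion.2 ⟨c, l, rfl⟩
    exact h1
  have hvj : ∀ c, v (j c) ≠ 0 := fun c => by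
    rw [hj]
    exact pow_ne_zero _ (hU c)
  have hclos : ∀ c, ∀ x, x ∈ (integralClosure (chart u c) M).restrictScalars ℂ ↔
      IsIntegral (chart u c) x := fun c x => by
    rw [Subalgebra.mem_restrictScalars, mem_integralClosure_iff]
  have hchart : ∀ c x, x ∈ chart v (j c) ↔ IsIntegral (chart u c) x := by
    intro c x
    constructor
    · intro hx
      have h1 : chart v (j c) ≤ (integralClosure (chart u c) M).restrictScalars ℂ := by
        apply Algebra.adjoin_le
        rintro _ ⟨i, rfl⟩
        change v i / v (j c) ∈ (integralClosure (chart u c) M).restrictScalars ℂ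
        rw [hclos]
        rcases hv1 i with ⟨f, hf⟩ | ⟨c', l, hl⟩
        · have h2 : v i / v (j c) = algebraMap L M (∏ k, u (f k) / u c) := by
            rw [hf, hj, map_prod]
            simp only [map_div₀]
            rw [Finset.prod_div_distrib, Finset.prod_const, Finset.card_univ, Fintype.card_fin]
          rw [h2]
          have h3 : (∏ k, u (f k) / u c) ∈ chart u c :=
            (chart u c).prod_mem fun k _ => gen_mem u c (f k)
          exact isIntegral_algebraMap (R := chart u c) (A := M) (x := ⟨_, h3⟩)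
        · have h2 : v i / v (j c) = algebraMap L M (u c' / u c) ^ d * b c' l := by
            rw [hl, hj, map_div₀, div_pow]
            ring
          rw [h2]
          exact hκ c' c l d (hκd c' c l)
      exact (hclos c x).1 (h1 hx)
    · intro hx
      rw [hb c] at hx
      have h1 : Algebra.adjoin ℂ (Set.range (b c)) ≤ chart v (j c) := by
        apply Algebra.adjoin_le
        rintro _ ⟨l, rfl⟩
        obtain ⟨i, hi⟩ := hb' c l
        have h2 : b c l = v i / v (j c) := by
          rw [hi, hj, mul_comm, mul_div_assoc, div_self (pow_ne_zero d (hU c)), mul_one]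
        change b c l ∈ chart v (j c)
        rw [h2]
        exact gen_mem v (j c) i
      exact h1 hx
  -- fractions
  have hfrc : ∀ c, IsFractionRing (chart v (j c)) M := by
    intro c
    refine IsFractionRing.of_field _ M fun z => ?_
    have := hfr c
    have hz : IsAlgebraic (chart u c) z := (halg c).isAlgebraic z
    obtain ⟨a, ha0, ha⟩ := hz.exists_integral_multiple
    have h1 : algebraMap (chart u c) M a ∈ chart v (j c) := by
      rw [hchart]
      exact isIntegral_algebraMap
    have h2 : algebraMap (chart u c) M a * z ∈ chart v (j c) := by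
      rw [hchart, ← Algebra.smul_def]
      exact ha
    have h3 : algebraMap (chart u c) M a ≠ 0 := by
      intro h0
      exact ha0 ((FaithfulSMul.algebraMap_injective (chart u c) M) (by rw [h0, map_zero]))
    refine ⟨⟨_, h2⟩, ⟨_, h1⟩, ?_⟩
    change z = algebraMap (chart u c) M a * z / algebraMap (chart u c) M a
    field_simp
  have hfrac : ∀ i, v i ≠ 0 → IsFractionRing (chart v i) M := by
    intro i hi
    refine IsFractionRing.of_field _ M fun z => ?_
    have := hfrc 0
    obtain ⟨x, y, hxy⟩ := IsFractionRing.div_surjective (A := chart v (j 0)) z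
    obtain ⟨k, hk⟩ := chart_change hi (hvj 0) x.2
    obtain ⟨k', hk'⟩ := chart_change hi (hvj 0) y.2
    have ha : v (j 0) / v i ∈ chart v i := gen_mem v i (j 0)
    refine ⟨⟨_, (chart v i).mul_mem hk ((chart v i).pow_mem ha k')⟩,
      ⟨_, (chart v i).mul_mem hk' ((chart v i).pow_mem ha k)⟩, ?_⟩
    change z = (x : M) * (v (j 0) / v i) ^ k * (v (j 0) / v i) ^ k' /
      ((y : M) * (v (j 0) / v i) ^ k' * (v (j 0) / v i) ^ k)
    have h1 : (v (j 0) / v i) ≠ 0 := div_ne_zero (hvj 0) hi
    rw [← hxy.2]
    change (x : M) / (y : M) = _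
    have h2 : (v (j 0) / v i) ^ k ≠ 0 := pow_ne_zero _ h1
    have h3 : (v (j 0) / v i) ^ k' ≠ 0 := pow_ne_zero _ h1
    have h4 : (x : M) * (v (j 0) / v i) ^ k * (v (j 0) / v i) ^ k' =
      (x : M) * ((v (j 0) / v i) ^ k' * (v (j 0) / v i) ^ k) := by ring
    have h5 : (y : M) * (v (j 0) / v i) ^ k' * (v (j 0) / v i) ^ k =
      (y : M) * ((v (j 0) / v i) ^ k' * (v (j 0) / v i) ^ k) := by ring
    rw [h4, h5, mul_div_mul_right _ _ (mul_ne_zero h3 h2)]
  have hnorc : ∀ i ∈ Set.range j, IsIntegrallyClosed (chart v i) := by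
    rintro _ ⟨c, rfl⟩
    have := hfrc c
    rw [isIntegrallyClosed_iff M]
    intro x hx
    have h1 : IsIntegral (chart u c) x := by
      have h2 : IsIntegral (integralClosure (chart u c) M) x := by
        obtain ⟨p, hp, hpx⟩ := hx
        let φ : chart v (j c) →+* integralClosure (chart u c) M :=
          ((chart v (j c)).subtype : chart v (j c) →+* M).codRestrict
            (integralClosure (chart u c) M).toSubring fun a => (hchart c _).1 a.2
        refine ⟨p.map φ, hp.map φ, ?_⟩
        rw [Polynomial.eval₂_map, ← hpx]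
        rfl
      exact isIntegral_trans (R := chart u c) x h2
    exact ⟨⟨x, (hchart c x).2 h1⟩, rfl⟩
  refine ⟨N, v, d, j, by omega, ⟨⟨j 0, hvj 0⟩, fun i hi => ?_, fun i hi => ?_⟩, hj, hchart⟩
  · apply field_of_chart
    intro x
    have := hfrac i hi
    obtain ⟨a, b', hab⟩ := IsFractionRing.div_surjective (A := chart v i) x
    exact ⟨_, a.2, _, b'.2, hab.2.symm⟩
  · refine nrm_normal hfrac (J := Set.range j) ?_ hnorc ?_ hi
    · rintro _ ⟨c, rfl⟩
      exact hvj c
    · intro O hO
      obtain ⟨c, -, hc⟩ := Finset.exists_max_image Finset.univ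
        (fun c => O.valuation (algebraMap L M (u c))) ⟨0, Finset.mem_univ _⟩
      refine ⟨j c, ⟨c, rfl⟩, fun i => ?_⟩
      have h1 : ∀ a ∈ chart u c, algebraMap L M a ∈ O := by
        intro a ha
        induction ha using Algebra.adjoin_induction with
        | mem x hx =>
          obtain ⟨i, rfl⟩ := hx
          rw [← O.valuation_le_one_iff, map_div₀, map_div₀]
          exact div_le_one_of_le₀ (hc i (Finset.mem_univ _)) (by simp)
        | algebraMap r =>
          rw [← IsScalarTower.algebraMap_apply]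
          exact hO r
        | add x y _ _ hx hy =>
          rw [map_add]
          exact O.add_mem _ _ hx hy
        | mul x y _ _ hx hy =>
          rw [map_mul]
          exact O.mul_mem _ _ hx hy
      exact int_mem h1 ((hchart c _).1 (gen_mem v (j c) i))

end nrm

end Pool.Agent.H890
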