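import Pool.Agent.H890.Desc
import Pool.Agent.H890.Nrm

/-!
Construction of the covering space.
-/

set_option autoImplicit false
set_option linter.unusedSectionVars false
set_option linter.overlappingInstances false

open FF MvPolynomial Pool.Agent.W602.GT Pool.Agent.W603.LV Pool.Agent.Y172
  Pool.Agent.TH122.AB Pool.Agent.R887

namespace Pool.Agent.H890

/-- fields of rational functions -/
theorem frac_gens (K : Type) [Field K] (r : ℕ) : Gens (k := K) fun p : Fin r =>
    algebraMap (MvPolynomial (Fin r) K) (FractionRing (MvPolynomial (Fin r) K)) (X p) := by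
  obtain ⟨t, ht⟩ : ∃ t : Fin r → FractionRing (MvPolynomial (Fin r) K), t = fun p : Fin r =>
    algebraMap (MvPolynomial (Fin r) K) (FractionRing (MvPolynomial (Fin r) K)) (X p) := ⟨_, rfl⟩
  rw [← ht]
  have hae : ∀ F : MvPolynomial (Fin r) K, aeval t F =
      algebraMap (MvPolynomial (Fin r) K) (FractionRing (MvPolynomial (Fin r) K)) F := by
    intro F
    have h1 := aeval_algebraMap_apply (R := K) (A := MvPolynomial (Fin r) K)
      (FractionRing (MvPolynomial (Fin r) K)) (X : Fin r → MvPolynomial (Fin r) K) F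
    rw [aeval_X_left, AlgHom.id_apply] at h1
    rw [ht]
    exact h1
  refine ⟨?_, fun z => ?_⟩
  · rw [algebraicIndependent_iff]
    intro p hp
    rw [hae] at hp
    exact (IsFractionRing.injective (MvPolynomial (Fin r) K)
      (FractionRing (MvPolynomial (Fin r) K))) (by rw [hp, map_zero])
  · obtain ⟨a, b, hb, hab⟩ := IsFractionRing.div_surjective (MvPolynomial (Fin r) K) z
    exact ⟨a, b, nonZeroDivisors.ne_zero hb, by rw [hae, hae, hab]⟩

theorem exists_L (K : Type) [Field K] [Algebra ℂ K] (r : ℕ) :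
    ∃ (L : Type) (_ : Field L) (_ : Algebra ℂ L) (_ : Algebra K L) (_ : IsScalarTower ℂ K L)
      (t : Fin r → L), Gens (k := K) t :=
  ⟨FractionRing (MvPolynomial (Fin r) K), inferInstance, inferInstance, inferInstance,
    inferInstance, _, frac_gens K r⟩

/-- roots -/
theorem exists_M {L : Type} [Field L] (φ : L) {N : ℕ} (hN : 0 < N) :
    ∃ (M : Type) (_ : Field M) (_ : Algebra L M) (_ : FiniteDimensional L M) (z : M),
      z ^ N = algebraMap L M φ ∧ (∀ x : M, ∃ p : Polynomial L, x = Polynomial.aeval z p) ∧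
        Module.finrank L M ≤ N := by
  have hf0 : (Polynomial.X ^ N - Polynomial.C φ : Polynomial L) ≠ 0 :=
    (Polynomial.monic_X_pow_sub_C φ hN.ne').ne_zero
  obtain ⟨g, hg, hgf⟩ := Polynomial.exists_irreducible_of_degree_pos
    (f := (Polynomial.X ^ N - Polynomial.C φ : Polynomial L)) (by
      rw [Polynomial.degree_X_pow_sub_C hN]
      exact_mod_cast hN)
  have hfact : Fact (Irreducible g) := ⟨hg⟩
  let pb := AdjoinRoot.powerBasis hg.ne_zero
  refine ⟨AdjoinRoot g, inferInstance, inferInstance, pb.finite, AdjoinRoot.root g, ?_,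
    fun x => ?_, ?_⟩
  · obtain ⟨q, hq⟩ := hgf
    have h1 : Polynomial.aeval (AdjoinRoot.root g) (Polynomial.X ^ N - Polynomial.C φ) = 0 := by
      rw [hq, map_mul, AdjoinRoot.aeval_eq, AdjoinRoot.mk_self, zero_mul]
    rw [map_sub, map_pow, Polynomial.aeval_X, Polynomial.aeval_C] at h1
    exact sub_eq_zero.1 h1
  · obtain ⟨p, rfl⟩ := AdjoinRoot.mk_surjective x
    exact ⟨p, (AdjoinRoot.aeval_eq p).symm⟩
  · rw [pb.finrank, AdjoinRoot.powerBasis_dim]
    have h1 := Polynomial.natDegree_le_of_dvd hgf hf0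
    rwa [Polynomial.natDegree_X_pow_sub_C] at h1

section

variable {K L : Type} [Field K] [Field L] [Algebra ℂ K] [Algebra ℂ L] [Algebra K L]
  [IsScalarTower ℂ K L] {r : ℕ} {t : Fin r → L}

theorem one_add_ne (ht : Gens (k := K) t) : 1 + ∑ p, t p ≠ 0 := by
  have h1 : aeval t (1 + ∑ p, X p : MvPolynomial (Fin r) K) = 1 + ∑ p, t p := by
    rw [map_add, map_one, map_sum]
    simp only [aeval_X]
  rw [← h1]
  apply ht.ne
  intro h2
  have h3 : constantCoeff (1 + ∑ p, X p : MvPolynomial (Fin r) K) = 1 := by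
    rw [map_add, map_one, map_sum]
    simp
  rw [h2, map_zero] at h3
  exact zero_ne_one h3

/-- the linear forms -/
def lfs (t : Fin r → L) : Fin (r + 2) → L :=
  Fin.snoc (α := fun _ => L) (Fin.cons 1 t : Fin (r + 1) → L) (-(1 + ∑ p, t p))

theorem lfs_cs (t : Fin r → L) (i : Fin (r + 1)) :
    lfs t i.castSucc = (Fin.cons 1 t : Fin (r + 1) → L) i := Fin.snoc_castSucc ..

theorem lfs_last (t : Fin r → L) : lfs t (Fin.last (r + 1)) = -(1 + ∑ p, t p) :=
  Fin.snoc_last ..

theorem lfs_zero (t : Fin r → L) : lfs t 0 = 1 := by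
  have h1 := lfs_cs t 0
  rw [Fin.castSucc_zero, Fin.cons_zero] at h1
  exact h1

theorem lfs_succ (t : Fin r → L) (p : Fin r) : lfs t p.succ.castSucc = t p := by
  rw [lfs_cs, Fin.cons_succ]

theorem lfs_sys (ht : Gens (k := K) t) : Sys (lfs t) := by
  refine ⟨fun k => ?_, ?_⟩
  · refine Fin.lastCases ?_ (fun i => ?_) k
    · rw [lfs_last]
      exact neg_ne_zero.2 (one_add_ne ht)
    · rw [lfs_cs]
      refine Fin.cases ?_ (fun p => ?_) i
      · rw [Fin.cons_zero]
        exact one_ne_zero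
      · rw [Fin.cons_succ]
        exact ht.ind.ne_zero p
  · rw [Fin.sum_univ_castSucc, lfs_last, Fin.sum_univ_succ, Fin.castSucc_zero, lfs_zero]
    simp only [lfs_succ]
    ring

theorem lfs_ts (t : Fin r → L) : ts (lfs t) 1 = t := by
  funext p
  unfold ts
  rw [Equiv.Perm.one_apply, Equiv.Perm.one_apply, lfs_succ, lfs_zero, div_one]

end

section wts

/-- the weights -/
def wts {r : ℕ} (a b : Fin (r + 2)) (k : Fin (r + 2)) : ℤ :=
  (if k = a then 1 else 0) + if k = b then 1 else 0

theorem wts01 {r : ℕ} {a b : Fin (r + 2)} (hab : a ≠ b) (k : Fin (r + 2)) :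
    wts a b k = 0 ∨ wts a b k = 1 := by
  unfold wts
  by_cases ha : k = a
  · right
    rw [if_pos ha, if_neg (fun h => hab (ha.symm.trans h))]
    norm_num
  · by_cases hb : k = b
    · right
      rw [if_neg ha, if_pos hb]
      norm_num
    · left
      rw [if_neg ha, if_neg hb]
      norm_num

theorem wts_sum {r : ℕ} (a b : Fin (r + 2)) : ∑ k, wts a b k = 2 := by
  unfold wts
  rw [Finset.sum_add_distrib, Finset.sum_ite_eq', Finset.sum_ite_eq', if_pos (Finset.mem_univ _),
    if_pos (Finset.mem_univ _)]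
  norm_num

theorem wts_sg {r : ℕ} (a b : Fin (r + 2)) (h : (b : ℕ) = a + 1) :
    ∑ k, sg k * wts a b k = 0 := by
  unfold wts
  simp only [mul_add, mul_ite, mul_one, mul_zero]
  rw [Finset.sum_add_distrib, Finset.sum_ite_eq', Finset.sum_ite_eq', if_pos (Finset.mem_univ _),
    if_pos (Finset.mem_univ _)]
  unfold sg
  rw [h]
  by_cases h2 : (a : ℕ) % 2 = 0
  · rw [if_pos h2, if_neg (by omega)]
    norm_num
  · rw [if_neg h2, if_pos (by omega)]
    norm_num

end wts

section gen

variable {K L : Type} [Field K] [Field L] [Algebra ℂ K] [Algebra ℂ L] [Algebra K L]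
  [IsScalarTower ℂ K L] {N : ℕ} {y : Fin (N + 1) → K} {n r : ℕ} {t : Fin r → L}

/-- the quotients generate the field -/
theorem gen_top (hy : NormalModel y) (ht : Gens (k := K) t) {c : ℕ} {γ : Fin (r + 1) → Place ℂ K → ℤ}
    {F : Fin (r + 1) → Finset K} (hF : ∀ i, Fam y n (γ i) c (F i)) {s : ℕ} {u : Fin (s + 1) → L}
    (hran : ∀ x, x ∈ Set.range u ↔ ∃ i, ∃ f ∈ F i, x = lfs t i.castSucc * algebraMap K L f)
    (c₀ : Fin (s + 1)) :
    IntermediateField.adjoin ℂ (Set.range fun i => u i / u c₀) = ⊤ := by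
  have hl := (lfs_sys ht).ne
  obtain ⟨A, hA⟩ : ∃ A, A = IntermediateField.adjoin ℂ (Set.range fun i => u i / u c₀) := ⟨_, rfl⟩
  rw [← hA]
  have hu : ∀ c, u c / u c₀ ∈ A := fun c => by
    rw [hA]
    exact IntermediateField.subset_adjoin ℂ _ ⟨c, rfl⟩
  obtain ⟨i, f, hf, hcf⟩ := (hran _).1 ⟨c₀, rfl⟩
  have hf0 := (hF i).ne f hf
  have hfL : algebraMap K L f ≠ 0 := by rwa [Ne, map_eq_zero]
  obtain ⟨a, ha, hfa⟩ := (hF i).mul f hf
  have hK : ∀ x : K, algebraMap K L x ∈ A := by
    intro x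
    have h1 : IntermediateField.adjoin ℂ (Set.range fun i => y i / y a) ≤
        A.comap (IsScalarTower.toAlgHom ℂ K L) := by
      rw [IntermediateField.adjoin_le_iff]
      rintro _ ⟨a', rfl⟩
      change algebraMap K L (y a' / y a) ∈ A
      by_cases ha' : y a' = 0
      · rw [ha', zero_div, map_zero]
        exact zero_mem A
      · obtain ⟨c', hc'⟩ := (hran _).2 ⟨i, _, hfa a' ha', rfl⟩
        have h2 := hu c'
        have h3 : u c' / u c₀ = algebraMap K L (y a' / y a) := by
          rw [hc', hcf, map_mul, mul_div_mul_left _ _ (hl _), mul_div_assoc, mul_comm, div_mul_cancel₀]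
          exact hfL
        rwa [h3] at h2
    rw [hy.field a ha] at h1
    exact h1 (show x ∈ (⊤ : IntermediateField ℂ K) from trivial)
  have hli : ∀ i' : Fin (r + 1), lfs t i'.castSucc / lfs t i.castSucc ∈ A := by
    intro i'
    obtain ⟨f', hf'⟩ := (hF i').non
    obtain ⟨c', hc'⟩ := (hran _).2 ⟨i', f', hf', rfl⟩
    have hf'0 := (hF i').ne f' hf'
    have hf'L : algebraMap K L f' ≠ 0 := by rwa [Ne, map_eq_zero]
    have h2 := A.mul_mem (hu c') (hK (f / f'))
    have h3 : u c' / u c₀ * algebraMap K L (f / f') = lfs t i'.castSucc / lfs t i.castSucc := by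
      have := hl i.castSucc
      rw [hc', hcf, map_div₀]
      field_simp
    rwa [h3] at h2
  have ht' : ∀ p, t p ∈ A := by
    intro p
    have h1 := A.div_mem (hli p.succ) (hli 0)
    rw [div_div_div_cancel_right₀ (hl _), lfs_succ, Fin.castSucc_zero, lfs_zero, div_one] at h1
    exact h1
  rw [eq_top_iff]
  intro z _
  have hpoly : ∀ P : MvPolynomial (Fin r) K, aeval t P ∈ A := by
    intro P
    induction P using MvPolynomial.induction_on with
    | C x =>
      rw [aeval_C]
      exact hK x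
    | add p q hp hq =>
      rw [map_add]
      exact A.add_mem hp hq
    | mul_X p i hp =>
      rw [map_mul, aeval_X]
      exact A.mul_mem hp (ht' i)
  obtain ⟨P, Q, -, hz⟩ := ht.gen z
  rw [hz]
  exact A.div_mem (hpoly P) (hpoly Q)

end gen

/-- **Main construction.** -/
theorem core {K L M : Type} [Field K] [Field L] [Field M] [Algebra ℂ K] [Algebra ℂ L]
    [Algebra ℂ M] [Algebra K L] [Algebra L M] [Algebra K M] [IsScalarTower ℂ K L]
    [IsScalarTower ℂ L M] [IsScalarTower ℂ K M] [IsScalarTower K L M] [FiniteDimensional L M]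
    {n b r : ℕ} (hrb : r + 2 = 2 * b) (hr2 : 2 ≤ r) {t : Fin r → L} (ht : Gens (k := K) t) {z : M}
    (hzN : z ^ (r + 2) = algebraMap L M (∏ k, lfs t k ^ sg k))
    (hgen : ∀ x : M, ∃ p : Polynomial L, x = Polynomial.aeval z p)
    (hfin : Module.finrank L M ≤ r + 2) (hn : Algebra.trdeg ℂ K = n) {N : ℕ}
    {y : Fin (N + 1) → K} (hy : NormalModel y) {Δ : Place ℂ K → ℚ} (hΔ : Effective y Δ)
    (hcar : CartierMul y n b Δ) (hlc : LogCanonical y n Δ) (hex : ∃ Q : Place ℂ K, Divisorial n Q) :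
    ∃ (N' : ℕ) (v : Fin (N' + 1) → M), NormalModel v ∧ LogCanonical v (n + r) 0 ∧
      (Klt y n Δ → Klt v (n + r) 0) ∧ (LogNef y n Δ → CanonicalNef v (n + r)) ∧
      (LogSemiample v (n + r) 0 ↔ LogSemiample y n Δ) := by
  classical
  -- the Cartier divisor
  obtain ⟨G, hGd⟩ : ∃ G : Place ℂ K → ℤ, G = fun P => ⌊(b : ℚ) * Δ P⌋ := ⟨_, rfl⟩
  have hG : ∀ P, IsPrimeDivisor y P → (G P : ℚ) = b * Δ P := by
    intro P hP
    obtain ⟨g, -, hg⟩ := hcar P (hP.divisorial hy hn)
    have h1 := hg P hP fun f hf => localRing_reg hf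
    rw [hGd]
    change ((⌊(b : ℚ) * Δ P⌋ : ℤ) : ℚ) = _
    rw [← h1, Int.floor_intCast]
  have hGcar : Car y n G := by
    refine ⟨fun P hP => ?_, ?_, fun Q hQ => ?_⟩
    · have h1 : (0 : ℚ) ≤ G P := by
        rw [hG P hP]
        exact mul_nonneg (Nat.cast_nonneg _) (hΔ.1 P hP)
      exact_mod_cast h1
    · refine hΔ.2.subset ?_
      rintro P ⟨hP, h0⟩
      refine ⟨hP, fun h1 => h0 ?_⟩
      have h2 := hG P hP
      rw [h1, mul_zero] at h2
      exact_mod_cast h2
    · obtain ⟨g, hg0, hg⟩ := hcar Q hQ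
      refine ⟨g, hg0, fun P hP hPQ => ?_⟩
      have h1 := hg P hP hPQ
      rw [← hG P hP] at h1
      exact_mod_cast h1
  have hsys := lfs_sys ht
  -- weights
  obtain ⟨a, ha⟩ : ∃ a : Fin (r + 2), (a : ℕ) = r - 1 := ⟨⟨r - 1, by omega⟩, rfl⟩
  obtain ⟨a', ha'⟩ : ∃ a' : Fin (r + 2), (a' : ℕ) = r := ⟨⟨r, by omega⟩, rfl⟩
  have haa : a ≠ a' := fun h1 => by
    have := congrArg Fin.val h1
    omega
  have hw01 := wts01 haa
  have hw0 : wts a a' 0 = 0 := by
    unfold wts
    rw [if_neg, if_neg]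
    · norm_num
    · intro h1
      have := congrArg Fin.val h1
      simp only [Fin.val_zero] at this
      omega
    · intro h1
      have := congrArg Fin.val h1
      simp only [Fin.val_zero] at this
      omega
  have hwl : wts a a' (Fin.last (r + 1)) = 0 := by
    unfold wts
    rw [if_neg, if_neg]
    · norm_num
    · intro h1
      have := congrArg Fin.val h1
      simp only [Fin.val_last] at this
      omega
    · intro h1
      have := congrArg Fin.val h1
      simp only [Fin.val_last] at this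
      omega
  -- families
  have hcari : ∀ i : Fin (r + 1), Car y n (fun P => wts a a' i.castSucc * G P) := by
    intro i
    rcases hw01 i.castSucc with h1 | h1
    · refine ⟨fun P hP => ?_, ?_, fun Q hQ => ⟨1, one_ne_zero, fun P hP _ => ?_⟩⟩
      · rw [h1, zero_mul]
      · refine Set.finite_empty.subset ?_
        rintro P ⟨-, h0⟩
        rw [h1, zero_mul] at h0
        exact h0 rfl
      · rw [h1, zero_mul, P.ord_one]
    · simp only [h1, one_mul]
      exact hGcar
  choose c₀ hc₀ using fun i => exists_fam hy (hcari i)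
  obtain ⟨c, hc⟩ : ∃ c, c = Finset.univ.sup c₀ := ⟨_, rfl⟩
  choose F hF using fun i : Fin (r + 1) => hc₀ i c (by
    rw [hc]
    exact Finset.le_sup (Finset.mem_univ i))
  -- the coordinates on the bundle
  obtain ⟨s, u, hu⟩ : ∃ (s : ℕ) (u : Fin (s + 1) → L), ∀ x, x ∈ Set.range u ↔
      ∃ i, ∃ f ∈ F i, x = lfs t i.castSucc * algebraMap K L f := by
    have hfin : (⋃ i : Fin (r + 1), (fun f => lfs t i.castSucc * algebraMap K L f) ''
        (F i : Set K)).Finite := Set.finite_iUnion fun i => (F i).finite_toSet.image _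
    obtain ⟨f₀, hf₀⟩ := (hF 0).non
    obtain ⟨s, u, hu⟩ := exists_fin_range hfin ⟨_, Set.mem_iUnion.2 ⟨0, f₀, hf₀, rfl⟩⟩
    refine ⟨s, u, fun x => ?_⟩
    rw [hu, Set.mem_iUnion]
    constructor
    · rintro ⟨i, f, hf, rfl⟩
      exact ⟨i, f, hf, rfl⟩
    · rintro ⟨i, f, hf, rfl⟩
      exact ⟨i, f, hf, rfl⟩
  have hu0 : ∀ c, u c ≠ 0 := by
    intro c
    obtain ⟨i, f, hf, h1⟩ := (hu _).1 ⟨c, rfl⟩
    rw [h1]
    refine mul_ne_zero (hsys.ne _) ?_
    rw [Ne, map_eq_zero]
    exact (hF i).ne f hf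
  obtain ⟨N', v, d, j, hd, hv, hvj, hch⟩ := exists_nrm (M := M) hu0
    (gen_top hy ht hF hu)
  let S : Mod K L M y n r G :=
    { l := lfs t
      wt := wts a a'
      c := c
      F := F
      s := s
      N' := N'
      d := d
      u := u
      v := v
      j := j
      ny := hy
      car := hGcar
      sys := hsys
      gens := by rw [lfs_ts]; exact ht
      wt0 := hw0
      wtl := hwl
      wt01 := hw01
      fam := hF
      ran := hu
      nv := hv
      dpos := hd
      vj := hvj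
      chart_iff := hch }
  have hcov : Cov S b z := ⟨hrb, wts_sum a a', wts_sg a a' (by omega), hzN, hgen, hfin, hn⟩
  exact ⟨N', v, hv, hcov.lc hG hlc, fun h => hcov.klt hG h, fun h => hcov.nef hG h hex,
    fun h => hcov.desc (by omega) hG hlc h, fun h => hcov.asc hG h hex⟩

end Pool.Agent.H890
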