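import Pool.Agent.H890.Alg

/-!
Descent of semiampleness from the covering space.
-/

set_option autoImplicit false
set_option linter.unusedSectionVars false
set_option linter.overlappingInstances false

open FF MvPolynomial Pool.Agent.W602.GT Pool.Agent.W603.LV Pool.Agent.Y172
  Pool.Agent.TH122.AB Pool.Agent.R887

namespace Pool.Agent.H890

section ratio

variable {K : Type} [Field K] [Algebra ℂ K] {n : ℕ} {P : Place ℂ K}
  {ω : (Fin n → Derivation ℂ K K) → K} {c c' : ℚ} {g : K}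

theorem ratio_ge (h : OrdEq P ω c) (h' : OrdGe P (fun D => g * ω D) c') :
    g = 0 ∨ c' - c ≤ P.ord g := by
  obtain ⟨D, hD, h0, h1⟩ := h.2
  by_cases hg : g = 0
  · exact Or.inl hg
  right
  have h2 := (h' D hD).resolve_left (mul_ne_zero hg h0)
  have h3 : c' ≤ (P.ord (g * ω D) : ℚ) := h2
  rw [P.ord_mul hg h0] at h3
  push_cast at h3
  linarith

theorem ordEq_unique [Algebra.EssFiniteType ℂ K] (hn : Algebra.trdeg ℂ K = n)
    (hP : Divisorial n P) {m : ℕ} (hω : IsPluri m ω) (h : OrdEq P ω c) (h' : OrdEq P ω c') :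
    c = c' := le_antisymm (ordEq_le hn hP hω h' h.1) (ordEq_le hn hP hω h h'.1)

end ratio

section

variable {K L M : Type} [Field K] [Field L] [Field M] [Algebra ℂ K] [Algebra ℂ L]
  [Algebra ℂ M] [Algebra K L] [Algebra L M] [Algebra K M] [IsScalarTower ℂ K L]
  [IsScalarTower ℂ L M] [IsScalarTower ℂ K M] [IsScalarTower K L M] [FiniteDimensional L M]
  {N : ℕ} {y : Fin (N + 1) → K} {n r : ℕ} {G : Place ℂ K → ℤ}
  {S : Mod K L M y n r G} {b : ℕ} {z : M}

/-- places over a given place -/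
theorem Cov.exists_over (h : Cov S b z) {Q : Place ℂ K} (hQ : Divisorial n Q) :
    ∃ (P : Place ℂ M) (e : ℕ), Divisorial (n + r) P ∧ Over P Q e := by
  have hessK := S.essK
  obtain ⟨w, F, i0, hw⟩ := exists_loc h.trK hQ
  have hn : 0 < n := Fin.pos i0
  obtain ⟨P₁, hP₁⟩ := exists_gauss S.gens Q 0
  have hg : IsGauss (ts S.l 1) Q P₁ := hP₁
  obtain ⟨P, e, hP⟩ := exists_above (L := M) P₁
  refine ⟨P, e, divisorial_up hP (hg.divisorial S.gens hn hQ), hP.1, fun f => ?_⟩
  rw [IsScalarTower.algebraMap_apply K L M, hP.2, hg.base]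

/-- **Comparison of a section with a local generator.** -/
theorem Cov.compare (h : Cov S b z) {Δ : Place ℂ K → ℚ}
    (hG : ∀ P, IsPrimeDivisor y P → (G P : ℚ) = b * Δ P) (hklt : LogCanonical y n Δ) {x : Fin n → K}
    {E : Fin n → Derivation ℂ K K} (hx : IsTranscendenceBasis ℂ x)
    (hE : ∀ i j, E i (x j) = if i = j then 1 else 0) {R : ℕ} {a : K} (ha : a ≠ 0)
    (hsec : ∀ P', IsPrimeDivisor S.v P' →
      OrdGe P' (th S.lM b R (fun i => algebraMap K M (x i)) (algebraMap K M a)) 0)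
    {P : Place ℂ M} {Q : Place ℂ K} {e : ℕ} (hQ : Divisorial n Q) (hPQ : Over P Q e) :
    ∃ (q : ℕ) (κ : K), 0 < q ∧ κ ≠ 0 ∧ 0 ≤ Q.ord κ ∧
      (∀ D, IsPrimeDivisor y D → Through y D Q → ∀ c : ℤ, OrdEq D (frm x (2 * (b * R)) a) c →
        q * c = D.ord κ - 2 * q * R * G D) ∧
      ((∀ P', IsPrimeDivisor S.v P' → Through S.v P' P →
        OrdEq P' (th S.lM b R (fun i => algebraMap K M (x i)) (algebraMap K M a)) 0) →
          Q.ord κ = 0) := by
  have hessK := S.essK
  obtain ⟨q, hq, η₀, hη₀, hgen₀, -⟩ := hklt Q hQ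
  obtain ⟨η, hηd⟩ : ∃ η : (Fin n → Derivation ℂ K K) → K, η = fun D => η₀ D ^ (2 * b) :=
    ⟨_, rfl⟩
  have hη : IsPluri (2 * (b * q)) η := by
    have h1 := pluri_pow hη₀ (2 * b)
    rw [show q * (2 * b) = 2 * (b * q) by ring] at h1
    rw [hηd]
    exact h1
  have hgen : ∀ D, IsPrimeDivisor y D → Through y D Q → OrdEq D η (-(2 * q * G D) : ℤ) := by
    intro D hD hDQ
    have h1 := ordEq_pow (hgen₀ D hD hDQ) (2 * b)
    rw [← hηd] at h1
    have h2 : ((2 * b : ℕ) : ℚ) * (-(q * Δ D)) = (-(2 * q * G D) : ℤ) := by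
      push_cast
      rw [hG D hD]
      ring
    rw [h2] at h1
    exact h1
  obtain ⟨D₀, hD₀, hD₀Q⟩ := exists_through S.ny Q
  have hηE : η E ≠ 0 := val_ne hη hx hE (hgen D₀ hD₀ hD₀Q)
  obtain ⟨κ, hκ⟩ : ∃ κ, κ = a ^ q / η E ^ R := ⟨_, rfl⟩
  have hκ0 : κ ≠ 0 := by
    rw [hκ]
    exact div_ne_zero (pow_ne_zero _ ha) (pow_ne_zero _ hηE)
  have hκe : κ * η E ^ R = a ^ q := by
    rw [hκ]
    field_simp
  -- the forms on the covering space
  have hform : ∀ D, th S.lM b R (fun i => algebraMap K M (x i)) (algebraMap K M a) D ^ q =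
      algebraMap K M κ * th S.lM b q (fun i => algebraMap K M (x i)) (algebraMap K M (η E)) D ^ R := by
    intro D
    rw [← th_pow, ← th_pow, ← th_mul, ← map_pow, ← map_pow, ← map_mul, hκe, mul_comm q R]
  have hκM : algebraMap K M κ ≠ 0 := by rwa [Ne, map_eq_zero]
  have hone : ∀ P', IsPrimeDivisor S.v P' → Through S.v P' P →
      OrdEq P' (fun D => th S.lM b q (fun i => algebraMap K M (x i)) (algebraMap K M (η E)) D ^ R)
        0 := by
    intro P' hP' hT
    have h1 := ordEq_pow (h.gen0 hPQ hη hgen hx hE hP' hT) R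
    rwa [mul_zero] at h1
  have hreg : ∀ P', IsPrimeDivisor S.v P' → Through S.v P' P →
      0 ≤ P'.ord (algebraMap K M κ) := by
    intro P' hP' hT
    have h1 := ordGe_pow (hsec P' hP') q
    rw [mul_zero] at h1
    simp only [hform] at h1
    have h2 := (ratio_ge (hone P' hP' hT) h1).resolve_left hκM
    have h3 : (0 : ℚ) ≤ P'.ord (algebraMap K M κ) := by linarith
    exact_mod_cast h3
  have hmem : algebraMap K M κ ∈ localRing S.v P :=
    mem_localRing_of_reg S.nv fun P' hP' hT => Or.inr (hreg P' hP' hT)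
  refine ⟨q, κ, hq, hκ0, reg_ord_nonneg (hPQ.reg.1 (localRing_reg hmem)), ?_, ?_⟩
  · intro D hD hDQ c hc
    have hDd : Divisorial n D := hD.divisorial S.ny h.trK
    have h1 := ordEq_pow hc q
    have h2 := ordEq_smul hκ0 (ordEq_pow (hgen D hD hDQ) R)
    have hfp := frm_pluri x (2 * (b * R)) a
    have hfun : (fun D => frm x (2 * (b * R)) a D ^ q) = fun D => κ * η D ^ R := by
      funext D'
      rw [pluri_coord hx hE hfp D', pluri_coord hx hE hη D', frm_self hE, mul_pow, mul_pow,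
        ← pow_mul, ← pow_mul, ← hκe]
      rw [show 2 * (b * R) * q = 2 * (b * q) * R by ring]
      ring
    rw [hfun] at h1
    have h3 := ordEq_unique h.trK hDd (pluri_smul' (pluri_pow hη R) κ) h1 h2
    have h4 : ((q * c : ℤ) : ℚ) = ((D.ord κ - 2 * q * R * G D : ℤ) : ℚ) := by
      push_cast at h3 ⊢
      linarith
    exact_mod_cast h4
  · intro hall
    have hzero : ∀ P', IsPrimeDivisor S.v P' → Through S.v P' P →
        P'.ord (algebraMap K M κ)⁻¹ = 0 := by
      intro P' hP' hT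
      have h1 := ordEq_pow (hall P' hP' hT) q
      rw [mul_zero] at h1
      simp only [hform] at h1
      have h2 := ordEq_smul (inv_ne_zero hκM) h1
      have h3 : (fun D => (algebraMap K M κ)⁻¹ * (algebraMap K M κ *
          th S.lM b q (fun i => algebraMap K M (x i)) (algebraMap K M (η E)) D ^ R)) =
          fun D => th S.lM b q (fun i => algebraMap K M (x i)) (algebraMap K M (η E)) D ^ R := by
        funext D
        rw [← mul_assoc, inv_mul_cancel₀ hκM, one_mul]
      rw [h3] at h2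
      have hP'd := hP'.divisorial S.nv h.trM
      have hessM := S.essM
      have h4 := ordEq_unique h.trM hP'd (pluri_pow (th_pluri S.sysM b q
        (fun i => algebraMap K M (x i)) (algebraMap K M (η E))) R) h2 (hone P' hP' hT)
      have h5 : ((P'.ord (algebraMap K M κ)⁻¹ : ℤ) : ℚ) = ((0 : ℤ) : ℚ) := by
        push_cast
        linarith
      exact_mod_cast h5
    have hmem' : (algebraMap K M κ)⁻¹ ∈ localRing S.v P :=
      mem_localRing_of_reg S.nv fun P' hP' hT => Or.inr (hzero P' hP' hT).ge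
    have h1 := reg_ord_nonneg (hPQ.reg.1 (localRing_reg hmem))
    have h2 := reg_ord_nonneg (localRing_reg hmem')
    rw [P.ord_inv, hPQ.2] at h2
    have h3 : (0 : ℤ) < e := by exact_mod_cast hPQ.1
    nlinarith

/-- **Descent of semiampleness.** -/
theorem Cov.desc (h : Cov S b z) (hr : 0 < r) {Δ : Place ℂ K → ℚ}
    (hG : ∀ P, IsPrimeDivisor y P → (G P : ℚ) = b * Δ P) (hklt : LogCanonical y n Δ)
    (hsa : LogSemiample S.v (n + r) 0) : LogSemiample y n Δ := by
  classical
  have hessK := S.essK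
  have hessM := S.essM
  have hb1 : 1 ≤ b := by
    have := h.hb
    omega
  obtain ⟨R, hR, hsec⟩ := hsa
  have hpos : 1 ≤ 2 * (b * R) := by
    have : 1 ≤ b * R := Nat.mul_pos hb1 hR
    omega
  refine ⟨2 * (b * R), hpos, fun Q hQ => ?_⟩
  obtain ⟨P, e, hPd, hPQ⟩ := h.exists_over hQ
  obtain ⟨ω, hωp, hωge, hωeq⟩ := hsec P hPd
  obtain ⟨W, hWd⟩ : ∃ W : (Fin (n + r) → Derivation ℂ M M) → M, W = fun D => ω D ^ (2 * b) :=
    ⟨_, rfl⟩
  have hWp : IsPluri (2 * (b * R)) W := by
    have h1 := pluri_pow hωp (2 * b)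
    rw [show R * (2 * b) = 2 * (b * R) by ring] at h1
    rw [hWd]
    exact h1
  have hWge : ∀ P', IsPrimeDivisor S.v P' → OrdGe P' W 0 := by
    intro P' hP'
    have h1 := ordGe_pow (hωge P' hP') (2 * b)
    rw [← hWd] at h1
    simpa using h1
  have hWeq : ∀ P', IsPrimeDivisor S.v P' → Through S.v P' P → OrdEq P' W 0 := by
    intro P' hP' hT
    have h1 := ordEq_pow (hωeq P' hP' hT) (2 * b)
    rw [← hWd] at h1
    simpa using h1
  obtain ⟨x, E, hx, hE⟩ := exists_crd h.trK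
  obtain ⟨θ, hθ⟩ : ∃ θ, θ = th S.lM b R (fun i => algebraMap K M (x i)) (algebraMap K M 1) :=
    ⟨_, rfl⟩
  have hθp : IsPluri (2 * (b * R)) θ := by
    rw [hθ]
    exact th_pluri S.sysM _ _ _ _
  -- the quotient
  have hbas : IsTranscendenceBasis ℂ (Fin.append (fun i => algebraMap K M (x i))
      (ts S.lM (sA 0)) : Fin (n + r) → M) := by
    refine append_basis hx ?_
    have h1 : IsTranscendenceBasis K (algebraMap L M ∘ ts S.l (sA 0)) :=
      (Gens_basis (gens_ts S.sys S.gens (sA 0))).algebraMap_comp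
    have h2 : ts S.lM (sA 0) = algebraMap L M ∘ ts S.l (sA 0) := by
      funext p
      exact ts_up _ _
    rw [h2]
    exact h1
  choose F hF using fun u : Fin (n + r) => exists_der (L := ℂ) _ hbas
    (fun v => if u = v then (1 : M) else 0)
  have hθF : θ F ≠ 0 := by
    rw [hθ, th_self S.sysM (i := 0) (Or.inl rfl) hF, map_one, mul_one]
    exact div_ne_zero (pow_ne_zero _ (S.sysM.ne _))
      (pow_ne_zero _ (Finset.prod_ne_zero_iff.2 fun k _ => S.sysM.ne k))
  obtain ⟨g, hg⟩ : ∃ g, g = W F / θ F := ⟨_, rfl⟩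
  have hWθ : W = fun D => g * θ D := by
    funext D
    rw [pluri_coord hbas hF hWp D, pluri_coord hbas hF hθp D, hg]
    field_simp
  obtain ⟨a, hga⟩ := h.const hr (g := g) fun P' hP' htr => by
    have h1 := hWge P' hP'
    rw [hWθ] at h1
    have h2 := h.hor hP' htr R hx hE (one_ne_zero (α := K))
    rw [← hθ] at h2
    rcases ratio_ge h2 h1 with h3 | h3
    · rw [h3]
      exact P'.reg_zero
    · right
      have h4 : (0 : ℚ) ≤ P'.ord g := by linarith
      exact_mod_cast h4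
  have hWa : W = th S.lM b R (fun i => algebraMap K M (x i)) (algebraMap K M a) := by
    rw [hWθ, hga, hθ]
    funext D
    rw [← th_mul, ← map_mul, mul_one]
  have ha : a ≠ 0 := by
    rintro rfl
    obtain ⟨P', hP', hT⟩ := exists_through S.nv P
    obtain ⟨D, -, h0, -⟩ := (hWeq P' hP' hT).2
    apply h0
    rw [hWa, map_zero, th_zero]
  rw [hWa] at hWge hWeq
  have hηp := frm_pluri x (2 * (b * R)) a
  have hηE : frm x (2 * (b * R)) a E ≠ 0 := by rwa [frm_self hE]
  have hcast : ∀ D, IsPrimeDivisor y D →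
      (-(((2 * (b * R) : ℕ) : ℚ) * Δ D)) = ((-(2 * R * G D) : ℤ) : ℚ) := by
    intro D hD
    push_cast
    rw [hG D hD]
    ring
  -- the section
  have hge : ∀ D, IsPrimeDivisor y D → ∀ c : ℤ, OrdEq D (frm x (2 * (b * R)) a) c →
      -(2 * R * G D) ≤ c := by
    intro D hD c hc
    have hDd := hD.divisorial S.ny h.trK
    obtain ⟨P₂, e₂, -, hP₂⟩ := h.exists_over hDd
    obtain ⟨q, κ, hq, -, hκ, h1, -⟩ := h.compare hG hklt hx hE ha hWge hDd hP₂
    have h2 := h1 D hD (fun f hf => localRing_reg hf) c hc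
    have h3 : (0 : ℤ) < q := by exact_mod_cast hq
    nlinarith
  refine ⟨frm x (2 * (b * R)) a, hηp, fun D hD => ?_, fun D hD hDQ => ?_⟩
  · have hDd := hD.divisorial S.ny h.trK
    obtain ⟨c, hc⟩ := exists_ordEq h.trK hDd hηp hx hE hηE
    rw [hcast D hD]
    refine hc.1.mono ?_
    have h1 := hge D hD c hc
    exact_mod_cast h1
  · have hDd := hD.divisorial S.ny h.trK
    obtain ⟨q, κ, hq, hκ0, hκ, h1, h2⟩ := h.compare hG hklt hx hE ha hWge hQ hPQ
    have hκQ := h2 hWeq
    have h3 : (0 : ℤ) < q := by exact_mod_cast hq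
    have hmem : κ ∈ localRing y Q := by
      refine mem_localRing_of_reg S.ny fun D' hD' hD'Q => Or.inr ?_
      have hD'd := hD'.divisorial S.ny h.trK
      obtain ⟨c', hc'⟩ := exists_ordEq h.trK hD'd hηp hx hE hηE
      have h4 := h1 D' hD' hD'Q c' hc'
      have h5 := hge D' hD' c' hc'
      nlinarith
    have hκD := unit_through hDQ hmem hκ0 hκQ
    obtain ⟨c, hc⟩ := exists_ordEq h.trK hDd hηp hx hE hηE
    have h4 := h1 D hD hDQ c hc
    rw [hκD] at h4
    have h5 : c = -(2 * R * G D) := by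
      have h6 : (q : ℤ) * c = q * (-(2 * R * G D)) := by linarith
      exact mul_left_cancel₀ h3.ne' h6
    rw [hcast D hD, ← h5]
    exact hc

/-- **Semiample divisors on the base.** -/
theorem Cov.asc (h : Cov S b z) {Δ : Place ℂ K → ℚ}
    (hG : ∀ P, IsPrimeDivisor y P → (G P : ℚ) = b * Δ P) (hsa : LogSemiample y n Δ)
    (hex : ∃ Q : Place ℂ K, Divisorial n Q) : LogSemiample S.v (n + r) 0 := by
  classical
  have hessK := S.essK
  have hessM := S.essM
  have hb1 : 1 ≤ b := by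
    have := h.hb
    omega
  obtain ⟨x, E, hx, hE⟩ := exists_crd h.trK
  obtain ⟨R, hR, hsec⟩ := hsa
  have hpos : 1 ≤ 2 * (b * R) := by
    have : 1 ≤ b * R := Nat.mul_pos hb1 hR
    omega
  refine ⟨2 * (b * R), hpos, fun P hP => ?_⟩
  obtain ⟨Q, hQ, hQP⟩ : ∃ Q : Place ℂ K, Divisorial n Q ∧
      ((∀ f : K, P.ord (algebraMap K M f) = 0) ∨ ∃ e, Over P Q e) := by
    by_cases htr : ∀ f : K, P.ord (algebraMap K M f) = 0
    · obtain ⟨Q, hQ⟩ := hex
      exact ⟨Q, hQ, Or.inl htr⟩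
    · have htr' := htr
      push Not at htr
      obtain ⟨e, Q, hPQ⟩ := FF.exists_over P htr
      exact ⟨Q, div_base (L := M) (by rw [S.trdeg_KM]) hPQ hP, Or.inr ⟨e, hPQ⟩⟩
  obtain ⟨s, hs1, hs2, hs3⟩ := hsec Q hQ
  obtain ⟨η, hηd⟩ : ∃ η : (Fin n → Derivation ℂ K K) → K, η = fun D => s D ^ (2 * b) :=
    ⟨_, rfl⟩
  have hη : IsPluri (2 * (b * R)) η := by
    have h1 := pluri_pow hs1 (2 * b)
    rw [show R * (2 * b) = 2 * (b * R) by ring] at h1
    rw [hηd]
    exact h1
  have hcst : ∀ D, IsPrimeDivisor y D →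
      ((2 * b : ℕ) : ℚ) * (-(R * Δ D)) = (-(2 * R * G D) : ℤ) := by
    intro D hD
    push_cast
    rw [hG D hD]
    ring
  have hηge : ∀ D, IsPrimeDivisor y D → OrdGe D η (-(2 * R * G D) : ℤ) := by
    intro D hD
    have h1 := ordGe_pow (hs2 D hD) (2 * b)
    rw [← hηd, hcst D hD] at h1
    exact h1
  have hηeq : ∀ D, IsPrimeDivisor y D → Through y D Q → OrdEq D η (-(2 * R * G D) : ℤ) := by
    intro D hD hDQ
    have h1 := ordEq_pow (hs3 D hD hDQ) (2 * b)
    rw [← hηd, hcst D hD] at h1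
    exact h1
  have hηE : η E ≠ 0 := by
    obtain ⟨D, hD, hDQ⟩ := exists_through S.ny Q
    exact val_ne hη hx hE (hηeq D hD hDQ)
  have hz : ∀ P' : Place ℂ M, (-(((2 * (b * R) : ℕ) : ℚ) * (0 : Place ℂ M → ℚ) P')) = 0 := by
    intro P'
    simp
  refine ⟨th S.lM b R (fun i => algebraMap K M (x i)) (algebraMap K M (η E)),
    th_pluri S.sysM _ _ _ _, fun P' hP' => ?_, fun P' hP' hT => ?_⟩
  · rw [hz]
    by_cases htr : ∀ f : K, P'.ord (algebraMap K M f) = 0
    · exact (h.hor hP' htr R hx hE hηE).1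
    · push Not at htr
      obtain ⟨e', D, hPD⟩ := FF.exists_over P' htr
      obtain ⟨hD, hDd, -, hDθ⟩ := h.ver hP' hPD
      obtain ⟨c', hc'⟩ := exists_ordEq h.trK hDd hη hx hE hηE
      have h1 := hDθ R η hη c' hc' x E hx hE
      have h2 := ordEq_le h.trK hDd hη hc' (hηge D hD)
      have h3 : -(2 * R * G D) ≤ c' := by exact_mod_cast h2
      refine h1.1.mono ?_
      have h4 : (0 : ℤ) ≤ c' + 2 * R * G D := by linarith
      exact_mod_cast h4
  · rw [hz]
    by_cases htr : ∀ f : K, P'.ord (algebraMap K M f) = 0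
    · exact h.hor hP' htr R hx hE hηE
    · have htr' := htr
      push Not at htr
      obtain ⟨e', D, hPD⟩ := FF.exists_over P' htr
      obtain ⟨hD, hDd, -, hDθ⟩ := h.ver hP' hPD
      have hDQ : Through y D Q := by
        rcases hQP with h1 | ⟨e, h1⟩
        · exact absurd (h.through_triv hT h1) htr'
        · exact h.through hT h1 hPD
      have h1 := hDθ R η hη _ (hηeq D hD hDQ) x E hx hE
      have h2 : (-(2 * R * G D) + 2 * R * G D : ℤ) = 0 := by ring
      rw [h2] at h1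
      exact_mod_cast h1

end

end Pool.Agent.H890
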