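import Pool.Agent.H890.KDefs4

/-!
Definitions: `ℚ`-divisors, their sections and their Iitaka dimensions.
-/

set_option autoImplicit false

open FF Pool.Agent.W602.GT Pool.Agent.Y172 Pool.Agent.R887

namespace Pool.Agent.H890

section

variable {K : Type} [Field K] [Algebra ℂ K] {N : ℕ}

/-- `E` is a `ℚ`-divisor on `X`: `E P` is the coefficient of the prime divisor `P` (the values of `E`
at the other places are irrelevant). -/
def QDivisor (y : Fin (N + 1) → K) (E : Place ℂ K → ℚ) : Prop :=
  {P | IsPrimeDivisor y P ∧ E P ≠ 0}.Finite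

/-- `f` is a section of the `ℚ`-divisor `E` on `X`: a rational function `f ≠ 0` such that the divisor
`div f + E` is effective. -/
def IsSec (y : Fin (N + 1) → K) (E : Place ℂ K → ℚ) (f : K) : Prop :=
  f ≠ 0 ∧ ∀ P, IsPrimeDivisor y P → -(E P) ≤ P.ord f

/-- The Iitaka dimension of the `ℚ`-divisor `E` on `X` is at least `k`: for some `m ≥ 1` there are
sections of `m E` whose quotients contain `k` algebraically independent functions. -/
def KappaGe (y : Fin (N + 1) → K) (E : Place ℂ K → ℚ) (k : ℕ) : Prop :=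
  ∃ m : ℕ, 1 ≤ m ∧ ∃ (f : K) (g : Fin k → K), IsSec y (fun P => m * E P) f ∧
    (∀ i, IsSec y (fun P => m * E P) (g i)) ∧ AlgebraicIndependent ℂ fun i => g i / f

/-- The `ℚ`-divisors `E` and `E'` on `X` are `ℚ`-linearly equivalent. -/
def QEquiv (y : Fin (N + 1) → K) (E E' : Place ℂ K → ℚ) : Prop :=
  ∃ m : ℕ, 1 ≤ m ∧ ∃ f : K, f ≠ 0 ∧ ∀ P, IsPrimeDivisor y P → (P.ord f : ℚ) = m * (E P - E' P)

/-- `H` is the hyperplane section `y a = 0` of `X` for some coordinate `y a`. -/
def Hyperplane (y : Fin (N + 1) → K) (H : Place ℂ K → ℚ) : Prop :=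
  ∃ a, y a ≠ 0 ∧ ∀ P l, IsPrimeDivisor y P → Centred y l P → H P = P.ord (y a / y l)

/-- The `ℚ`-divisor `E` on `X` is pseudo-effective: for all `q ≥ 1` the divisor `q E + H`, `H` being a
hyperplane section, is `ℚ`-linearly equivalent to an effective divisor, that is, some multiple of it
has a section. -/
def Psef (y : Fin (N + 1) → K) (E : Place ℂ K → ℚ) : Prop :=
  ∀ H, Hyperplane y H → ∀ q : ℕ, 1 ≤ q → ∃ m : ℕ, 1 ≤ m ∧ ∃ f,
    IsSec y (fun P => m * (q * E P + H P)) f

/-- `C` is a canonical divisor of `X`, `n` being the dimension of `X`: the divisor of a rational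
canonical form. -/
def CanonicalDivisor (y : Fin (N + 1) → K) (n : ℕ) (C : Place ℂ K → ℚ) : Prop :=
  ∃ ω : (Fin n → Derivation ℂ K K) → K, IsPluri 1 ω ∧ ∀ P, IsPrimeDivisor y P → OrdEq P ω (C P)

/-- `f` is a section of the `ℚ`-divisor `E` on the generic fibre of the map from `X` to a variety with
function field `B`: `f ≠ 0` and the coefficients of `div f + E` at the prime divisors of `X` which
dominate this variety are not negative. -/
def IsRelSec (B : Type) [Field B] [Algebra B K] (y : Fin (N + 1) → K) (E : Place ℂ K → ℚ)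
    (f : K) : Prop :=
  f ≠ 0 ∧ ∀ P, IsPrimeDivisor y P → (∀ c : B, P.ord (algebraMap B K c) = 0) → -(E P) ≤ P.ord f

/-- The Iitaka dimension of the restriction of the `ℚ`-divisor `E` to the generic fibre of the map from
`X` to a variety with function field `B` is at least `k`. -/
def RelKappaGe (B : Type) [Field B] [Algebra B K] (y : Fin (N + 1) → K) (E : Place ℂ K → ℚ)
    (k : ℕ) : Prop :=
  ∃ m : ℕ, 1 ≤ m ∧ ∃ (f : K) (g : Fin k → K), IsRelSec B y (fun P => m * E P) f ∧
    (∀ i, IsRelSec B y (fun P => m * E P) (g i)) ∧ AlgebraicIndependent B fun i => g i / f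

end

end Pool.Agent.H890
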