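import Pool.Agent.H890.Smo3
import Pool.Agent.H890.KDefs5

/-!
Divisors on the covering space: pull-back, sections, pseudo-effective divisors, Iitaka dimensions.
-/

set_option autoImplicit false
set_option linter.unusedSectionVars false
set_option linter.overlappingInstances false

open FF MvPolynomial Pool.Agent.W602.GT Pool.Agent.W603.LV Pool.Agent.Y172
  Pool.Agent.TH122.AB Pool.Agent.R887

namespace Pool.Agent.H890

/-- inclusion of valuation rings -/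
theorem place_eq {K : Type} [Field K] [Algebra ℂ K] {D Q : Place ℂ K}
    (h : ∀ f, Q.Reg f → D.Reg f) : D = Q := by
  obtain ⟨π, hπ0, hπ⟩ := Q.surj
  have h0 : ∀ f, f ≠ 0 → Q.ord f = 0 → D.ord f = 0 := by
    intro f hf hf0
    have h1 := reg_ord_nonneg (h f (Or.inr hf0.ge))
    have h2 := reg_ord_nonneg (h f⁻¹ (Or.inr (by rw [Q.ord_inv, hf0, neg_zero])))
    rw [D.ord_inv] at h2
    omega
  have h1 : ∀ f, f ≠ 0 → D.ord f = Q.ord f * D.ord π := by
    intro f hf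
    have h2 := h0 (f * (π ^ Q.ord f)⁻¹) (mul_ne_zero hf (inv_ne_zero (zpow_ne_zero _ hπ0))) (by
      rw [Q.ord_mul hf (inv_ne_zero (zpow_ne_zero _ hπ0)), Q.ord_inv, Q.ord_zpow, hπ]
      ring)
    rw [D.ord_mul hf (inv_ne_zero (zpow_ne_zero _ hπ0)), D.ord_inv, D.ord_zpow] at h2
    linarith
  have h2 : 0 ≤ D.ord π := reg_ord_nonneg (h π (Or.inr (by rw [hπ]; exact zero_le_one)))
  obtain ⟨t, ht0, ht⟩ := D.surj
  have h3 := h1 t ht0
  rw [ht] at h3
  have h4 : D.ord π = 1 := by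
    rcases Int.eq_one_or_neg_one_of_mul_eq_one' h3.symm with h5 | h5
    · exact h5.2
    · omega
  apply Place.ext
  funext f
  by_cases hf : f = 0
  · rw [hf, D.ord_zero, Q.ord_zero]
  · rw [h1 f hf, h4, mul_one]

section

variable {K L M : Type} [Field K] [Field L] [Field M] [Algebra ℂ K] [Algebra ℂ L]
  [Algebra ℂ M] [Algebra K L] [Algebra L M] [Algebra K M] [IsScalarTower ℂ K L]
  [IsScalarTower ℂ L M] [IsScalarTower ℂ K M] [IsScalarTower K L M] [FiniteDimensional L M]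
  {N : ℕ} {y : Fin (N + 1) → K} {n r : ℕ} {G : Place ℂ K → ℤ}

variable {S : Mod K L M y n r G} {b : ℕ} {Γ : Place ℂ K → ℤ}
  {T : ℕ → (Fin n → K) → K → (Fin (n + r) → Derivation ℂ M M) → M}

/-- prime divisors over a given prime divisor -/
theorem CovG.exists_prime (h : CovG S b Γ T) {Q : Place ℂ K} (hQ : IsPrimeDivisor y Q) :
    ∃ P : Place ℂ M, IsPrimeDivisor S.v P ∧ ∀ f, P.ord (algebraMap K M f) = Q.ord f := by
  obtain ⟨P₂, e₂, -, hP₂⟩ := h.exists_over (hQ.divisorial S.ny h.trK)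
  obtain ⟨π, hπ0, hπ⟩ := Q.surj
  have hπM : algebraMap K M π ≠ 0 := by rwa [Ne, map_eq_zero]
  have h1 : (algebraMap K M π)⁻¹ ∉ localRing S.v P₂ := by
    intro h1
    have h2 := reg_ord_nonneg (localRing_reg h1)
    rw [P₂.ord_inv, hP₂.2, hπ] at h2
    have h3 := hP₂.1
    omega
  have h2 : ∃ P', IsPrimeDivisor S.v P' ∧ Through S.v P' P₂ ∧ ¬ P'.Reg (algebraMap K M π)⁻¹ := by
    by_contra hcon
    push Not at hcon
    exact h1 (mem_localRing_of_reg S.nv fun P' hP' hT => hcon P' hP' hT)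
  obtain ⟨P', hP', hT, hreg⟩ := h2
  have h3 : P'.ord (algebraMap K M π) ≠ 0 := by
    intro h3
    exact hreg (Or.inr (by rw [P'.ord_inv, h3, neg_zero]))
  obtain ⟨e', D, hPD⟩ := FF.exists_over P' ⟨π, h3⟩
  obtain ⟨hD, -, hDo, -⟩ := h.ver hP' hPD
  have hDQ : Through y D Q := h.through hT hP₂ hPD
  have h4 : D = Q := place_eq fun f hf => hDQ f (hQ f hf)
  rw [← h4]
  exact ⟨P', hP', hDo⟩

open scoped Classical in
/-- the pull-back of a divisor -/
noncomputable def pb (y : Fin (N + 1) → K) (M : Type) [Field M] [Algebra ℂ M] [Algebra K M]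
    (E : Place ℂ K → ℚ) (P : Place ℂ M) : ℚ :=
  if h : ∃ Q, IsPrimeDivisor y Q ∧ ∀ f, P.ord (algebraMap K M f) = Q.ord f then E h.choose else 0

theorem pb_over {E : Place ℂ K → ℚ} {P : Place ℂ M} {Q : Place ℂ K} (hQ : IsPrimeDivisor y Q)
    (hPQ : ∀ f, P.ord (algebraMap K M f) = Q.ord f) : pb y M E P = E Q := by
  have h : ∃ Q, IsPrimeDivisor y Q ∧ ∀ f, P.ord (algebraMap K M f) = Q.ord f := ⟨Q, hQ, hPQ⟩
  have h1 : h.choose = Q := by
    apply Place.ext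
    funext f
    rw [← h.choose_spec.2 f, hPQ f]
  unfold pb
  rw [dif_pos h, h1]

theorem pb_triv {E : Place ℂ K → ℚ} {P : Place ℂ M} (htr : ∀ f : K, P.ord (algebraMap K M f) = 0) :
    pb y M E P = 0 := by
  unfold pb
  rw [dif_neg]
  rintro ⟨Q, -, hQ⟩
  obtain ⟨t, -, ht⟩ := Q.surj
  have h1 := hQ t
  rw [htr, ht] at h1
  exact zero_ne_one h1

/-- the two kinds of prime divisors -/
theorem CovG.cases (h : CovG S b Γ T) {P : Place ℂ M} (hP : IsPrimeDivisor S.v P) :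
    (∀ f : K, P.ord (algebraMap K M f) = 0) ∨
      ∃ Q, IsPrimeDivisor y Q ∧ ∀ f, P.ord (algebraMap K M f) = Q.ord f := by
  by_cases htr : ∀ f : K, P.ord (algebraMap K M f) = 0
  · exact Or.inl htr
  · push Not at htr
    obtain ⟨e', D, hPD⟩ := FF.exists_over P htr
    obtain ⟨hD, -, hDo, -⟩ := h.ver hP hPD
    exact Or.inr ⟨D, hD, hDo⟩

theorem CovG.sec_up' (h : CovG S b Γ T) {E : Place ℂ K → ℚ} {f : K} (hf : IsSec y E f) :
    IsSec S.v (pb y M E) (algebraMap K M f) := by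
  refine ⟨by
    rw [Ne, map_eq_zero]
    exact hf.1, fun P hP => ?_⟩
  rcases h.cases hP with htr | ⟨Q, hQ, hPQ⟩
  · rw [pb_triv htr, htr]
    simp
  · rw [pb_over hQ hPQ, hPQ]
    exact hf.2 Q hQ

/-- **The sections of the pull-back of a divisor.** -/
theorem CovG.sec_down' (h : CovG S b Γ T) {E : Place ℂ K → ℚ} {g : M}
    (hg : IsSec S.v (pb y M E) g) : ∃ f, g = algebraMap K M f ∧ IsSec y E f := by
  obtain ⟨f, hf⟩ := h.const (g := g) fun P hP htr => by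
    have h1 := hg.2 P hP
    rw [pb_triv htr, neg_zero] at h1
    right
    exact_mod_cast h1
  refine ⟨f, hf, ?_, fun Q hQ => ?_⟩
  · intro h0
    exact hg.1 (by rw [hf, h0, map_zero])
  · obtain ⟨P, hP, hPQ⟩ := h.exists_prime hQ
    have h1 := hg.2 P hP
    rw [pb_over hQ hPQ, hf, hPQ] at h1
    exact h1

theorem pb_congr {E E' : Place ℂ K → ℚ} (c : ℚ) (h : ∀ Q, IsPrimeDivisor y Q → E Q = c * E' Q)
    (P : Place ℂ M) : pb y M E P = c * pb y M E' P := by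
  by_cases hq : ∃ Q, IsPrimeDivisor y Q ∧ ∀ f, P.ord (algebraMap K M f) = Q.ord f
  · obtain ⟨Q, hQ, hPQ⟩ := hq
    rw [pb_over hQ hPQ, pb_over hQ hPQ, h Q hQ]
  · unfold pb
    rw [dif_neg hq, dif_neg hq, mul_zero]

theorem pb_add (E E' : Place ℂ K → ℚ) (P : Place ℂ M) :
    pb y M (E + E') P = pb y M E P + pb y M E' P := by
  by_cases hq : ∃ Q, IsPrimeDivisor y Q ∧ ∀ f, P.ord (algebraMap K M f) = Q.ord f
  · obtain ⟨Q, hQ, hPQ⟩ := hq
    rw [pb_over hQ hPQ, pb_over hQ hPQ, pb_over hQ hPQ, Pi.add_apply]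
  · unfold pb
    rw [dif_neg hq, dif_neg hq, dif_neg hq, add_zero]

theorem pb_finite {E : Place ℂ K → ℚ} (hE : QDivisor y E) : QDivisor S.v (pb y M E) := by
  obtain ⟨π, hπ⟩ : ∃ π : Place ℂ K → K, ∀ Q : Place ℂ K, π Q ≠ 0 ∧ Q.ord (π Q) = 1 :=
    ⟨fun Q => Q.surj.choose, fun Q => Q.surj.choose_spec⟩
  refine (hE.biUnion fun Q _ => finite_ord S.nv (f := algebraMap K M (π Q)) (by
    rw [Ne, map_eq_zero]
    exact (hπ Q).1)).subset ?_
  rintro P ⟨hP, h0⟩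
  by_cases hq : ∃ Q, IsPrimeDivisor y Q ∧ ∀ f, P.ord (algebraMap K M f) = Q.ord f
  · obtain ⟨Q, hQ, hPQ⟩ := hq
    rw [pb_over hQ hPQ] at h0
    rw [Set.mem_iUnion₂]
    refine ⟨Q, ⟨hQ, h0⟩, hP, ?_⟩
    rw [hPQ, (hπ Q).2]
    exact one_ne_zero
  · exfalso
    apply h0
    unfold pb
    rw [dif_neg hq]

theorem pb_effective {E : Place ℂ K → ℚ} (hE : Effective y E) : Effective S.v (pb y M E) := by
  refine ⟨fun P _ => ?_, pb_finite (S := S) hE.2⟩
  by_cases hq : ∃ Q, IsPrimeDivisor y Q ∧ ∀ f, P.ord (algebraMap K M f) = Q.ord f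
  · obtain ⟨Q, hQ, hPQ⟩ := hq
    rw [pb_over hQ hPQ]
    exact hE.1 Q hQ
  · unfold pb
    rw [dif_neg hq]

end

end Pool.Agent.H890
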