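import Pool.Agent.H890.Dvs

/-!
Divisors on the covering space: canonical divisors, pseudo-effective divisors, Iitaka dimensions.
-/

set_option autoImplicit false
set_option linter.unusedSectionVars false
set_option linter.overlappingInstances false

open FF MvPolynomial Pool.Agent.W602.GT Pool.Agent.W603.LV Pool.Agent.Y172
  Pool.Agent.TH122.AB Pool.Agent.R887

namespace Pool.Agent.H890

theorem exists_canonical {K : Type} [Field K] [Algebra ℂ K] {N n : ℕ} {y : Fin (N + 1) → K}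
    (hy : NormalModel y) (hn : Algebra.trdeg ℂ K = n) : ∃ C, CanonicalDivisor y n C := by
  classical
  have hess := hy.ess
  obtain ⟨x, E, hx, hE⟩ := exists_crd hn
  have h1 : ∀ P : Place ℂ K, ∃ c : ℤ, IsPrimeDivisor y P → OrdEq P (frm x 1 1) c := fun P => by
    by_cases hP : IsPrimeDivisor y P
    · obtain ⟨c, hc⟩ := exists_ordEq hn (hP.divisorial hy hn) (frm_pluri x 1 1) hx hE (by
        rw [frm_self hE]
        exact one_ne_zero)
      exact ⟨c, fun _ => hc⟩
    · exact ⟨0, fun h => absurd h hP⟩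
  choose c hc using h1
  exact ⟨fun P => c P, frm x 1 1, frm_pluri x 1 1, fun P hP => hc P hP⟩

/-- canonical divisors are integral -/
theorem CanonicalDivisor.int {K : Type} [Field K] [Algebra ℂ K] {N n : ℕ} {y : Fin (N + 1) → K}
    {C : Place ℂ K → ℚ} (h : CanonicalDivisor y n C) {P : Place ℂ K} (hP : IsPrimeDivisor y P) :
    ∃ c : ℤ, C P = c := by
  obtain ⟨ω, -, h1⟩ := h
  obtain ⟨D, -, -, h2⟩ := (h1 P hP).2
  exact ⟨_, h2.symm⟩

/-- powers of independent functions are independent -/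
theorem indep_pw {B K : Type} [Field B] [Field K] [Algebra B K] {k m : ℕ} (hm : m ≠ 0)
    {x : Fin k → K} (hx : AlgebraicIndependent B x) :
    AlgebraicIndependent B fun i => x i ^ m := by
  rw [algebraicIndependent_iff]
  intro p hp
  have h1 : aeval x (expand m p) = aeval (fun i => x i ^ m) p := by
    rw [aeval_expand]
    rfl
  rw [hp] at h1
  have h2 := (algebraicIndependent_iff.1 hx) _ h1
  exact (expand_eq_zero (Nat.pos_of_ne_zero hm)).1 h2

section

variable {K L M : Type} [Field K] [Field L] [Field M] [Algebra ℂ K] [Algebra ℂ L]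
  [Algebra ℂ M] [Algebra K L] [Algebra L M] [Algebra K M] [IsScalarTower ℂ K L]
  [IsScalarTower ℂ L M] [IsScalarTower ℂ K M] [IsScalarTower K L M] [FiniteDimensional L M]
  {N : ℕ} {y : Fin (N + 1) → K} {n r : ℕ} {G : Place ℂ K → ℤ}

variable {S : Mod K L M y n r G} {b : ℕ} {Γ : Place ℂ K → ℤ}
  {T : ℕ → (Fin n → K) → K → (Fin (n + r) → Derivation ℂ M M) → M}

/-- **The canonical divisor of the covering space.** -/
theorem CovG.canonical (h : CovG S b Γ T) {Δ : Place ℂ K → ℚ}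
    (hG : ∀ P, IsPrimeDivisor y P → (Γ P : ℚ) = b * Δ P) (hex : ∃ Q : Place ℂ K, Divisorial n Q)
    {C : Place ℂ K → ℚ} (hC : CanonicalDivisor y n C) {C' : Place ℂ M → ℚ}
    (hC' : CanonicalDivisor S.v (n + r) C') : ∃ φ : M, φ ≠ 0 ∧ ∀ P, IsPrimeDivisor S.v P →
      (P.ord φ : ℚ) = (2 * b : ℕ) * (C' P - pb y M (C + Δ) P) := by
  classical
  have hessK := S.essK
  have hessM := S.essM
  obtain ⟨ω, hω, hωC⟩ := hC
  obtain ⟨ω', hω', hωC'⟩ := hC'
  obtain ⟨x, E, hx, hE⟩ := exists_crd h.trK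
  obtain ⟨Q₀, hQ₀⟩ := hex
  obtain ⟨D₀, hD₀, -⟩ := exists_through S.ny Q₀
  obtain ⟨η, hηd⟩ : ∃ η : (Fin n → Derivation ℂ K K) → K, η = fun D => ω D ^ (2 * b) :=
    ⟨_, rfl⟩
  have hη : IsPluri (2 * (b * 1)) η := by
    have h1 := pluri_pow hω (2 * b)
    rw [show 1 * (2 * b) = 2 * (b * 1) by ring] at h1
    rw [hηd]
    exact h1
  have hηC : ∀ D, IsPrimeDivisor y D → OrdEq D η ((2 * b : ℕ) * C D) := by
    intro D hD
    rw [hηd]
    exact ordEq_pow (hωC D hD) (2 * b)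
  have hηE : η E ≠ 0 := val_ne hη hx hE (hηC D₀ hD₀)
  obtain ⟨θ, hθ⟩ : ∃ θ, θ = T 1 x (η E) := ⟨_, rfl⟩
  have hθp : IsPluri (2 * (b * 1)) θ := by
    rw [hθ]
    exact h.pluri _ _ _
  have hθo : ∀ P, IsPrimeDivisor S.v P → OrdEq P θ ((2 * b : ℕ) * pb y M (C + Δ) P) := by
    intro P hP
    by_cases htr : ∀ f : K, P.ord (algebraMap K M f) = 0
    · rw [pb_triv htr, mul_zero, hθ]
      exact h.hor hP htr 1 hx hE hηE
    · push Not at htr
      obtain ⟨e', D, hPD⟩ := FF.exists_over P htr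
      obtain ⟨hD, hDd, hDo, hDθ⟩ := h.ver hP hPD
      obtain ⟨c, hc⟩ := CanonicalDivisor.int ⟨ω, hω, hωC⟩ hD
      have h1 := hηC D hD
      rw [hc] at h1
      have h2 := hDθ 1 η hη ((2 * b : ℕ) * c) (by
        push_cast at h1 ⊢
        exact h1) x E hx hE
      rw [pb_over hD hDo, hθ, Pi.add_apply, hc]
      have h3 : (((2 * b : ℕ) * c + 2 * 1 * Γ D : ℤ) : ℚ) = (2 * b : ℕ) * (c + Δ D) := by
        push_cast
        rw [hG D hD]
        ring
      rw [← h3]
      exact h2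
  obtain ⟨W, hWd⟩ : ∃ W : (Fin (n + r) → Derivation ℂ M M) → M, W = fun D => ω' D ^ (2 * b) :=
    ⟨_, rfl⟩
  have hWp : IsPluri (2 * (b * 1)) W := by
    have h1 := pluri_pow hω' (2 * b)
    rw [show 1 * (2 * b) = 2 * (b * 1) by ring] at h1
    rw [hWd]
    exact h1
  have hWo : ∀ P, IsPrimeDivisor S.v P → OrdEq P W ((2 * b : ℕ) * C' P) := by
    intro P hP
    rw [hWd]
    exact ordEq_pow (hωC' P hP) (2 * b)
  have hbas := S.basM (L := L) (M := M) hx
  choose F hF using fun u : Fin (n + r) => exists_der (L := ℂ) _ hbas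
    (fun v => if u = v then (1 : M) else 0)
  have hθF : θ F ≠ 0 := by
    rw [hθ]
    exact h.ne 1 x _ hx hηE F hF
  obtain ⟨P₀, hP₀, -⟩ := h.exists_prime hD₀
  have hWF : W F ≠ 0 := val_ne hWp hbas hF (hWo P₀ hP₀)
  refine ⟨W F / θ F, div_ne_zero hWF hθF, fun P hP => ?_⟩
  have hWθ : W = fun D => W F / θ F * θ D := by
    funext D
    rw [pluri_coord hbas hF hWp D, pluri_coord hbas hF hθp D]
    field_simp
  have h1 := ordEq_smul (div_ne_zero hWF hθF) (hθo P hP)
  rw [← hWθ] at h1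
  have h2 := ordEq_unique h.trM (hP.divisorial S.nv h.trM) hWp h1 (hWo P hP)
  push_cast at h2 ⊢
  linarith

/-- **The Iitaka dimension of the canonical divisor of the covering space.** -/
theorem CovG.kappa_down (h : CovG S b Γ T) {Δ : Place ℂ K → ℚ}
    (hG : ∀ P, IsPrimeDivisor y P → (Γ P : ℚ) = b * Δ P) (hex : ∃ Q : Place ℂ K, Divisorial n Q)
    {C : Place ℂ K → ℚ} (hC : CanonicalDivisor y n C) {C' : Place ℂ M → ℚ}
    (hC' : CanonicalDivisor S.v (n + r) C') {k : ℕ} (hk : KappaGe S.v C' k) :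
    KappaGe y (C + Δ) k := by
  have hb1 := h.b1
  obtain ⟨φ, hφ0, hφ⟩ := h.canonical hG hex hC hC'
  obtain ⟨m, hm, f, g, hf, hg, hfg⟩ := hk
  have key : ∀ f : M, IsSec S.v (fun P => m * C' P) f →
      ∃ a, f ^ (2 * b) * φ ^ m = algebraMap K M a ∧
        IsSec y (fun P => (m * (2 * b) : ℕ) * (C + Δ) P) a := by
    intro f hf
    apply h.sec_down'
    refine ⟨mul_ne_zero (pow_ne_zero _ hf.1) (pow_ne_zero _ hφ0), fun P hP => ?_⟩
    rw [pb_congr ((m * (2 * b) : ℕ) : ℚ) (E' := C + Δ) (fun Q _ => rfl),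
      P.ord_mul (pow_ne_zero _ hf.1) (pow_ne_zero _ hφ0), P.ord_pow, P.ord_pow]
    have h1 : -(m * C' P) ≤ (P.ord f : ℚ) := hf.2 P hP
    have h2 := hφ P hP
    have h3 : (0 : ℚ) ≤ 2 * b := by positivity
    have h4 := mul_le_mul_of_nonneg_left h1 h3
    push_cast at h2 ⊢
    rw [h2]
    linarith
  obtain ⟨a, hfa, ha⟩ := key f hf
  choose c hgc hc using fun i => key (g i) (hg i)
  refine ⟨m * (2 * b), Nat.mul_pos hm (by omega), a, c, ha, hc, ?_⟩
  have h1 := indep_pw (m := 2 * b) (by omega) hfg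
  have h2 : (fun i => (g i / f) ^ (2 * b)) = fun i => algebraMap K M (c i / a) := by
    funext i
    rw [map_div₀, ← hgc i, ← hfa, div_pow, mul_div_mul_right _ _ (pow_ne_zero _ hφ0)]
  rw [h2] at h1
  exact (AlgHom.algebraicIndependent_iff (f := IsScalarTower.toAlgHom ℂ K M)
    (algebraMap K M).injective).1 h1

theorem CovG.kappa_up (h : CovG S b Γ T) {Δ : Place ℂ K → ℚ}
    (hG : ∀ P, IsPrimeDivisor y P → (Γ P : ℚ) = b * Δ P) (hex : ∃ Q : Place ℂ K, Divisorial n Q)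
    {C : Place ℂ K → ℚ} (hC : CanonicalDivisor y n C) {C' : Place ℂ M → ℚ}
    (hC' : CanonicalDivisor S.v (n + r) C') {B : Type} [Field B] [Algebra B K] [Algebra B M]
    [IsScalarTower B K M] {k : ℕ} (hk : RelKappaGe B y (C + Δ) k) :
    RelKappaGe B S.v C' k := by
  have hb1 := h.b1
  obtain ⟨φ, hφ0, hφ⟩ := h.canonical hG hex hC hC'
  obtain ⟨m, hm, f, g, hf, hg, hfg⟩ := hk
  have key : ∀ f : K, IsRelSec B y (fun P => m * (C + Δ) P) f →
      IsRelSec B S.v (fun P => (m * (2 * b) : ℕ) * C' P)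
        (algebraMap K M f ^ (2 * b) * (φ ^ m)⁻¹) := by
    intro f hf
    have hf0 : algebraMap K M f ≠ 0 := by
      rw [Ne, map_eq_zero]
      exact hf.1
    refine ⟨mul_ne_zero (pow_ne_zero _ hf0) (inv_ne_zero (pow_ne_zero _ hφ0)),
      fun P hP hPB => ?_⟩
    rw [P.ord_mul (pow_ne_zero _ hf0) (inv_ne_zero (pow_ne_zero _ hφ0)), P.ord_inv, P.ord_pow,
      P.ord_pow]
    have h1 : -(m * pb y M (C + Δ) P) ≤ (P.ord (algebraMap K M f) : ℚ) := by
      rcases h.cases hP with htr | ⟨Q, hQ, hPQ⟩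
      · rw [pb_triv htr, htr]
        simp
      · rw [pb_over hQ hPQ, hPQ]
        refine hf.2 Q hQ fun c => ?_
        rw [← hPQ, ← IsScalarTower.algebraMap_apply]
        exact hPB c
    have h2 := hφ P hP
    have h3 : (0 : ℚ) ≤ 2 * b := by positivity
    have h4 := mul_le_mul_of_nonneg_left h1 h3
    push_cast at h2 ⊢
    rw [h2]
    linarith
  refine ⟨m * (2 * b), Nat.mul_pos hm (by omega), _, _, key f hf, fun i => key (g i) (hg i), ?_⟩
  have h1 := indep_pw (m := 2 * b) (by omega) hfg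
  have h2 : (fun i => algebraMap K M (g i) ^ (2 * b) * (φ ^ m)⁻¹ /
      (algebraMap K M f ^ (2 * b) * (φ ^ m)⁻¹)) = fun i => algebraMap K M ((g i / f) ^ (2 * b)) := by
    funext i
    rw [map_pow, map_div₀, div_pow, mul_div_mul_right _ _ (inv_ne_zero (pow_ne_zero _ hφ0))]
  rw [h2]
  exact (AlgHom.algebraicIndependent_iff (f := IsScalarTower.toAlgHom B K M)
    (algebraMap K M).injective).2 h1

end

end Pool.Agent.H890
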