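import Pool.Agent.H890.Dvs2

/-!
Divisors on the covering space: hyperplane sections.
-/

set_option autoImplicit false
set_option linter.unusedSectionVars false
set_option linter.overlappingInstances false

open FF MvPolynomial Pool.Agent.W602.GT Pool.Agent.W603.LV Pool.Agent.Y172
  Pool.Agent.TH122.AB Pool.Agent.R887

namespace Pool.Agent.H890

theorem exists_hyperplane {K : Type} [Field K] [Algebra ℂ K] {N : ℕ} {y : Fin (N + 1) → K}
    (hy : NormalModel y) {a : Fin (N + 1)} (ha : y a ≠ 0) :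
    ∃ H : Place ℂ K → ℚ, Hyperplane y H ∧
      ∀ P l, Centred y l P → H P = P.ord (y a / y l) := by
  choose l hl using fun P : Place ℂ K => exists_centred hy P
  have h1 : ∀ P l', Centred y l' P → (P.ord (y a / y (l P)) : ℚ) = P.ord (y a / y l') := by
    intro P l' hl'
    rw [P.ord_div ha (hl P).1, P.ord_div ha hl'.1, cen_eq (hl P) hl']
  exact ⟨fun P => P.ord (y a / y (l P)), ⟨a, ha, fun P l' _ hl' => h1 P l' hl'⟩, h1⟩

section

variable {K L M : Type} [Field K] [Field L] [Field M] [Algebra ℂ K] [Algebra ℂ L]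
  [Algebra ℂ M] [Algebra K L] [Algebra L M] [Algebra K M] [IsScalarTower ℂ K L]
  [IsScalarTower ℂ L M] [IsScalarTower ℂ K M] [IsScalarTower K L M] [FiniteDimensional L M]
  {N : ℕ} {y : Fin (N + 1) → K} {n r : ℕ} {G : Place ℂ K → ℤ}

variable {S : Mod K L M y n r G} {b : ℕ} {Γ : Place ℂ K → ℤ}
  {T : ℕ → (Fin n → K) → K → (Fin (n + r) → Derivation ℂ M M) → M}

/-- **Comparison of the hyperplane sections**: for every place `P` of the covering space, the
hyperplane section `i₀` on the covering space is the pull-back of the hyperplane section `a₀` plus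
the divisor of a function plus an effective divisor which does not contain the centre of `P`. -/
theorem CovG.hyper (_ : CovG S b Γ T) {a₀ : Fin (N + 1)} (ha₀ : y a₀ ≠ 0)
    {i₀ : Fin (S.N' + 1)} (hi₀ : S.v i₀ ≠ 0) (P : Place ℂ M) :
    ∃ κ : M, κ ≠ 0 ∧ ∀ P', IsPrimeDivisor S.v P' → ∀ l', Centred S.v l' P' →
      ((∀ f : K, P'.ord (algebraMap K M f) = 0) →
        0 ≤ P'.ord κ + P'.ord (S.v i₀ / S.v l') ∧
        (Through S.v P' P → P'.ord κ + P'.ord (S.v i₀ / S.v l') = 0)) ∧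
      ∀ D l, IsPrimeDivisor y D → (∀ f, P'.ord (algebraMap K M f) = D.ord f) → Centred y l D →
        D.ord (y a₀ / y l) ≤ P'.ord κ + P'.ord (S.v i₀ / S.v l') ∧
        (Through S.v P' P → P'.ord κ + P'.ord (S.v i₀ / S.v l') = D.ord (y a₀ / y l)) := by
  obtain ⟨c₀, hc₀⟩ := S.exists_cen P
  obtain ⟨i, f, hf, hu⟩ := S.u_eq c₀
  obtain ⟨α, hα, hfα⟩ := (S.fam i).mul f hf
  have hf0 : f ≠ 0 := (S.fam i).ne f hf
  obtain ⟨κ, hκ⟩ : ∃ κ, κ = algebraMap K M (y a₀ / y α) * (S.v (S.j c₀) / S.v i₀) := ⟨_, rfl⟩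
  have hyM : algebraMap K M (y a₀ / y α) ≠ 0 := by
    rw [Ne, map_eq_zero]
    exact div_ne_zero ha₀ hα
  have hvM : S.v (S.j c₀) / S.v i₀ ≠ 0 := div_ne_zero (S.vj_ne c₀) hi₀
  have hκ0 : κ ≠ 0 := by
    rw [hκ]
    exact mul_ne_zero hyM hvM
  have hκo : ∀ P' : Place ℂ M, P'.ord κ = P'.ord (algebraMap K M (y a₀ / y α)) +
      (P'.ord (S.v (S.j c₀)) - P'.ord (S.v i₀)) := by
    intro P'
    rw [hκ, P'.ord_mul hyM hvM, P'.ord_div (S.vj_ne c₀) hi₀]
  have hvj : ∀ (P' : Place ℂ M) (c : Fin (S.s + 1)),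
      P'.ord (S.v (S.j c)) = S.d * P'.ord (algebraMap L M (S.u c)) := by
    intro P' c
    rw [S.vj, P'.ord_pow]
  have hdpos : (1 : ℤ) ≤ S.d := by exact_mod_cast S.dpos
  have hmul : ∀ (P' : Place ℂ M) (D : Place ℂ K), (∀ f, P'.ord (algebraMap K M f) = D.ord f) →
      ∀ l, y l ≠ 0 → ∃ c'', P'.ord (algebraMap L M (S.u c'')) =
        P'.ord (algebraMap L M (S.u c₀)) + (D.ord (y l) - D.ord (y α)) := by
    intro P' D hD l hl
    obtain ⟨c'', hc''⟩ := S.exists_u i (hfα l hl)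
    refine ⟨c'', ?_⟩
    have h1 : S.u c'' = S.u c₀ * algebraMap K L (y l / y α) := by
      rw [hc'', hu, map_mul, mul_assoc]
    have h2 : algebraMap K M (y l / y α) ≠ 0 := by
      rw [Ne, map_eq_zero]
      exact div_ne_zero hl hα
    rw [h1, map_mul, ← IsScalarTower.algebraMap_apply, P'.ord_mul (S.uM_ne c₀) h2, hD,
      D.ord_div hl hα]
  refine ⟨κ, hκ0, fun P' _ l' hl' => ⟨fun htr => ?_, fun D l _ hDo hl => ?_⟩⟩
  · have hmin : P'.ord (S.v l') ≤ P'.ord (S.v (S.j c₀)) := cen_ord hl' (S.vj_ne c₀)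
    rw [P'.ord_div hi₀ hl'.1, hκo, htr]
    refine ⟨by omega, fun hT => ?_⟩
    have hcen : Centred S.v (S.j c₀) P' := hT.centred hc₀.centred
    have h1 : P'.ord (S.v l') = P'.ord (S.v (S.j c₀)) := cen_eq hcen hl' |>.symm
    omega
  · obtain ⟨c₁, hc₁⟩ := S.exists_cen P'
    have h4 : P'.ord (S.v l') = P'.ord (S.v (S.j c₁)) := cen_eq hc₁.centred hl' |>.symm
    obtain ⟨c'', hc''⟩ := hmul P' D hDo l hl.1
    have h5 := hc₁ c''
    rw [hc''] at h5
    have h6 : D.ord (y l) ≤ D.ord (y α) := cen_ord hl hα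
    rw [P'.ord_div hi₀ hl'.1, hκo, hDo, D.ord_div ha₀ hα, D.ord_div ha₀ hl.1]
    constructor
    · rw [h4, hvj, hvj]
      have h9 : (D.ord (y α) - D.ord (y l)) ≤
          S.d * (P'.ord (algebraMap L M (S.u c₀)) - P'.ord (algebraMap L M (S.u c₁))) := by
        nlinarith
      linarith
    · intro hT
      have hcen : Centred S.v (S.j c₀) P' := hT.centred hc₀.centred
      have hmin : P'.ord (S.v l') = P'.ord (S.v (S.j c₀)) := cen_eq hcen hl' |>.symm
      have hc₂ := S.cen_of_centred hcen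
      have h7 := hc₂ c''
      rw [hc''] at h7
      rw [hmin]
      omega

/-- **The pull-back of a pseudo-effective divisor.** -/
theorem CovG.psef_up (h : CovG S b Γ T) {E : Place ℂ K → ℚ} (hE : Psef y E)
    (hex : ∃ Q : Place ℂ M, Divisorial (n + r) Q) : Psef S.v (pb y M E) := by
  obtain ⟨a₀, ha₀⟩ := S.ny.ne
  obtain ⟨H, hH, hHo⟩ := exists_hyperplane S.ny ha₀
  rintro H' ⟨i₀, hi₀, hH'⟩ q hq
  obtain ⟨m, hm, f, hf⟩ := hE H hH q hq
  obtain ⟨P₀, -⟩ := hex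
  obtain ⟨κ, hκ0, hκ⟩ := h.hyper ha₀ hi₀ P₀
  have hf0 : algebraMap K M f ≠ 0 := by
    rw [Ne, map_eq_zero]
    exact hf.1
  refine ⟨m, hm, algebraMap K M f * κ ^ m, mul_ne_zero hf0 (pow_ne_zero _ hκ0), fun P hP => ?_⟩
  obtain ⟨l', hl'⟩ := exists_centred S.nv P
  obtain ⟨h1, h2⟩ := hκ P hP l' hl'
  change -((m : ℚ) * (q * pb y M E P + H' P)) ≤ _
  rw [P.ord_mul hf0 (pow_ne_zero _ hκ0), P.ord_pow, hH' P l' hP hl']
  have hm0 : (0 : ℚ) ≤ m := Nat.cast_nonneg m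
  rcases h.cases hP with htr | ⟨Q, hQ, hPQ⟩
  · rw [pb_triv htr, htr]
    have h3 : (0 : ℚ) ≤ P.ord κ + P.ord (S.v i₀ / S.v l') := by exact_mod_cast (h1 htr).1
    have h4 := mul_le_mul_of_nonneg_left h3 hm0
    push_cast
    linarith
  · obtain ⟨l, hl⟩ := exists_centred S.ny Q
    rw [pb_over hQ hPQ, hPQ]
    have h3 : (Q.ord (y a₀ / y l) : ℚ) ≤ P.ord κ + P.ord (S.v i₀ / S.v l') := by
      exact_mod_cast (h2 Q l hQ hPQ hl).1
    have h4 := mul_le_mul_of_nonneg_left h3 hm0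
    have h5 : -(m * (q * E Q + H Q)) ≤ (Q.ord f : ℚ) := hf.2 Q hQ
    rw [hHo Q l hl] at h5
    push_cast
    linarith

/-- pull-back of the Iitaka dimension -/
theorem CovG.kappa_pb (h : CovG S b Γ T) {E : Place ℂ K → ℚ} {k : ℕ} (hk : KappaGe y E k) :
    KappaGe S.v (pb y M E) k := by
  obtain ⟨m, hm, f, g, hf, hg, hfg⟩ := hk
  have key : ∀ f : K, IsSec y (fun P => m * E P) f →
      IsSec S.v (fun P => m * pb y M E P) (algebraMap K M f) := by
    intro f hf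
    have h1 := h.sec_up' hf
    refine ⟨h1.1, fun P hP => ?_⟩
    have h2 := h1.2 P hP
    rwa [pb_congr (m : ℚ) (E' := E) (fun Q _ => rfl)] at h2
  refine ⟨m, hm, _, fun i => algebraMap K M (g i), key f hf, fun i => key (g i) (hg i), ?_⟩
  have h2 : (fun i => algebraMap K M (g i) / algebraMap K M f) =
      fun i => algebraMap K M (g i / f) := by
    funext i
    rw [map_div₀]
  rw [h2]
  exact (AlgHom.algebraicIndependent_iff (f := IsScalarTower.toAlgHom ℂ K M)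
    (algebraMap K M).injective).2 hfg

/-- **Linear equivalence on the covering space.** -/
theorem CovG.qequiv (h : CovG S b Γ T) {Δ : Place ℂ K → ℚ}
    (hG : ∀ P, IsPrimeDivisor y P → (Γ P : ℚ) = b * Δ P) (hex : ∃ Q : Place ℂ K, Divisorial n Q)
    {C : Place ℂ K → ℚ} (hC : CanonicalDivisor y n C) {C' : Place ℂ M → ℚ}
    (hC' : CanonicalDivisor S.v (n + r) C') {A : Place ℂ K → ℚ} (hA : QEquiv y (C + Δ) A) :
    QEquiv S.v C' (pb y M A) := by
  have hb1 := h.b1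
  obtain ⟨φ, hφ0, hφ⟩ := h.canonical hG hex hC hC'
  obtain ⟨m, hm, f, hf0, hf⟩ := hA
  have hf0' : algebraMap K M f ≠ 0 := by rwa [Ne, map_eq_zero]
  refine ⟨m * (2 * b), Nat.mul_pos hm (by omega), φ ^ m * algebraMap K M f ^ (2 * b),
    mul_ne_zero (pow_ne_zero _ hφ0) (pow_ne_zero _ hf0'), fun P hP => ?_⟩
  rw [P.ord_mul (pow_ne_zero _ hφ0) (pow_ne_zero _ hf0'), P.ord_pow, P.ord_pow]
  have h2 := hφ P hP
  have h1 : (P.ord (algebraMap K M f) : ℚ) = m * (pb y M (C + Δ) P - pb y M A P) := by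
    rcases h.cases hP with htr | ⟨Q, hQ, hPQ⟩
    · rw [pb_triv htr, pb_triv htr, htr]
      simp
    · rw [pb_over hQ hPQ, pb_over hQ hPQ, hPQ]
      exact hf Q hQ
  push_cast at h2 ⊢
  rw [h1, h2]
  ring

end

end Pool.Agent.H890
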