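import Pool.Agent.H890.KDefs5

/-!
Definitions: the conjecture of Campana and Peternell, and fibrations.
-/

set_option autoImplicit false

open FF Pool.Agent.W602.GT Pool.Agent.Y172 Pool.Agent.R887

namespace Pool.Agent.H890

/-- The conjecture of Campana and Peternell for `K_X + Δ`, `n` being the dimension of `X`: if
`K_X + Δ` is `ℚ`-linearly equivalent to `A + B`, `A` being an effective and `B` a pseudo-effective
`ℚ`-divisor, then the Iitaka dimension of `K_X + Δ` is at least the Iitaka dimension of `A`. -/
def CampanaPeternell {K : Type} [Field K] [Algebra ℂ K] {N : ℕ} (y : Fin (N + 1) → K) (n : ℕ)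
    (Δ : Place ℂ K → ℚ) : Prop :=
  ∀ C A B : Place ℂ K → ℚ, CanonicalDivisor y n C → Effective y A → QDivisor y B → Psef y B →
    QEquiv y (C + Δ) (A + B) → ∀ k, KappaGe y A k → KappaGe y (C + Δ) k

/-- The map from the variety `X` with generic point `y` and function field `K`, of dimension `n`, to the
variety `Z` with generic point `u` and function field `B ⊆ K` is a fibration: it is a morphism (it is
defined at the centre on `X` of every prime divisor `Q` over `X`), and it has connected fibres (`B` is
algebraically closed in `K`). -/
structure Fibration {B K : Type} [Field B] [Algebra ℂ B] [Field K] [Algebra ℂ K] [Algebra B K]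
    {N₀ N : ℕ} (u : Fin (N₀ + 1) → B) (y : Fin (N + 1) → K) (n : ℕ) : Prop where
  morphism : ∀ Q : Place ℂ K, Divisorial n Q → ∃ j, u j ≠ 0 ∧
    ∀ i, algebraMap B K (u i / u j) ∈ localRing y Q
  connected : ∀ x : K, IsAlgebraic B x → ∃ c : B, x = algebraMap B K c

/-- Iitaka's inequality for the divisor `K_X + Δ` and the map from `X` to the variety `Z` with generic
point `u` and function field `B`, of dimension `d`, `n` being the dimension of `X`: if the Iitaka
dimension of the restriction of `K_X + Δ` to the generic fibre is at least `j` and the Kodaira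
dimension of `Z` is at least `k`, then the Iitaka dimension of `K_X + Δ` is at least `j + k`. -/
def IitakaInequality {B K : Type} [Field B] [Algebra ℂ B] [Field K] [Algebra ℂ K] [Algebra B K]
    {N₀ N : ℕ} (u : Fin (N₀ + 1) → B) (d : ℕ) (y : Fin (N + 1) → K) (n : ℕ)
    (Δ : Place ℂ K → ℚ) : Prop :=
  ∀ C C₀, CanonicalDivisor y n C → CanonicalDivisor u d C₀ → ∀ j k : ℕ,
    RelKappaGe B y (C + Δ) j → KappaGe u C₀ k → KappaGe y (C + Δ) (j + k)

end Pool.Agent.H890
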