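import Pool.Agent.H890.Dvs3
import Pool.Agent.H890.KDefs6

/-!
The conjecture of Campana and Peternell and the covering space.
-/

set_option autoImplicit false
set_option linter.unusedSectionVars false
set_option linter.overlappingInstances false

open FF MvPolynomial Pool.Agent.W602.GT Pool.Agent.W603.LV Pool.Agent.Y172
  Pool.Agent.TH122.AB Pool.Agent.R887

namespace Pool.Agent.H890

theorem relKappa_C {K : Type} [Field K] [Algebra ℂ K] {N : ℕ} {y : Fin (N + 1) → K}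
    {E : Place ℂ K → ℚ} {k : ℕ} : RelKappaGe ℂ y E k ↔ KappaGe y E k := by
  have h0 : ∀ (P : Place ℂ K) (c : ℂ), P.ord (algebraMap ℂ K c) = 0 := by
    intro P c
    by_cases hc : c = 0
    · rw [hc, map_zero, P.ord_zero]
    · exact P.ord_const hc
  constructor
  · rintro ⟨m, hm, f, g, hf, hg, hfg⟩
    exact ⟨m, hm, f, g, ⟨hf.1, fun P hP => hf.2 P hP (h0 P)⟩, fun i => ⟨(hg i).1, fun P hP =>
      (hg i).2 P hP (h0 P)⟩, hfg⟩
  · rintro ⟨m, hm, f, g, hf, hg, hfg⟩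
    exact ⟨m, hm, f, g, ⟨hf.1, fun P hP _ => hf.2 P hP⟩, fun i => ⟨(hg i).1, fun P hP _ =>
      (hg i).2 P hP⟩, hfg⟩

section

variable {K L M : Type} [Field K] [Field L] [Field M] [Algebra ℂ K] [Algebra ℂ L]
  [Algebra ℂ M] [Algebra K L] [Algebra L M] [Algebra K M] [IsScalarTower ℂ K L]
  [IsScalarTower ℂ L M] [IsScalarTower ℂ K M] [IsScalarTower K L M] [FiniteDimensional L M]
  {N : ℕ} {y : Fin (N + 1) → K} {n r : ℕ} {G : Place ℂ K → ℤ}

variable {S : Mod K L M y n r G} {b : ℕ} {Γ : Place ℂ K → ℤ}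
  {T : ℕ → (Fin n → K) → K → (Fin (n + r) → Derivation ℂ M M) → M}

theorem CovG.kappa_iff (h : CovG S b Γ T) {Δ : Place ℂ K → ℚ}
    (hG : ∀ P, IsPrimeDivisor y P → (Γ P : ℚ) = b * Δ P) (hex : ∃ Q : Place ℂ K, Divisorial n Q)
    {C : Place ℂ K → ℚ} (hC : CanonicalDivisor y n C) {C' : Place ℂ M → ℚ}
    (hC' : CanonicalDivisor S.v (n + r) C') (k : ℕ) :
    KappaGe S.v C' k ↔ KappaGe y (C + Δ) k :=
  ⟨fun hk => h.kappa_down hG hex hC hC' hk, fun hk =>
    relKappa_C.1 (h.kappa_up hG hex hC hC' (relKappa_C.2 hk))⟩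

/-- **The conjecture of Campana and Peternell descends.** -/
theorem CovG.campana (h : CovG S b Γ T) {Δ : Place ℂ K → ℚ}
    (hG : ∀ P, IsPrimeDivisor y P → (Γ P : ℚ) = b * Δ P) (hex : ∃ Q : Place ℂ K, Divisorial n Q)
    (hv : CampanaPeternell S.v (n + r) 0) : CampanaPeternell y n Δ := by
  intro C A B hC hA hB hBp hAB k hk
  obtain ⟨C', hC'⟩ := exists_canonical S.nv h.trM
  have hexM : ∃ P : Place ℂ M, Divisorial (n + r) P := by
    obtain ⟨Q, hQ⟩ := hex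
    obtain ⟨P, e, hP, -⟩ := h.exists_over hQ
    exact ⟨P, hP⟩
  have h1 := h.qequiv hG hex hC hC' hAB
  have h2 : pb y M (A + B) = pb y M A + pb y M B := by
    funext P
    rw [pb_add, Pi.add_apply]
  rw [h2, ← add_zero C'] at h1
  have h3 := hv C' (pb y M A) (pb y M B) hC' (pb_effective (S := S) hA) (pb_finite (S := S) hB)
    (h.psef_up hBp hexM) h1 k (h.kappa_pb hk)
  rw [add_zero] at h3
  exact h.kappa_down hG hex hC hC' h3

end

/-- **Fermat coverings over smooth varieties** -/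
theorem fermat_campana (K : Type) [Field K] [Algebra ℂ K] {n r : ℕ} (hr : 0 < r)
    (hn1 : 1 ≤ n) (hn : Algebra.trdeg ℂ K = n) {N : ℕ} {y : Fin (N + 1) → K}
    (hy : NormalModel y) {D Λ : Place ℂ K → ℤ} {s : K} (hD : Divides y n (r + 2) D Λ s)
    (hsm : SmoothPair y n D) :
    ∃ (M : Type) (_ : Field M) (_ : Algebra ℂ M) (_ : Algebra K M) (_ : IsScalarTower ℂ K M)
      (z : Fin (r + 2) → M) (N' : ℕ) (v : Fin (N' + 1) → M), FermatField K s r 1 z ∧
      Algebra.trdeg ℂ M = (n + r : ℕ) ∧ NormalModel v ∧ SmoothVariety v (n + r) ∧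
      (∀ C C', CanonicalDivisor y n C → CanonicalDivisor v (n + r) C' → ∀ k,
        (KappaGe v C' k ↔ KappaGe y (C + fun P => (1 : ℚ) / (r + 2 : ℕ) * D P) k)) ∧
      (CampanaPeternell v (n + r) 0 →
        CampanaPeternell y n fun P => (1 : ℚ) / (r + 2 : ℕ) * D P) := by
  obtain ⟨L, M, _, _, _, _, _, _, _, _, _, _, _, _, S, z, hwt, h⟩ :=
    exists_fer K hr (show 1 ≤ r from hr) hn hy hD
  have hG : ∀ P, IsPrimeDivisor y P → (((1 : ℕ) : ℤ) * D P : ℤ) =
      ((r + 2 : ℕ) : ℚ) * ((1 : ℚ) / (r + 2 : ℕ) * D P) := by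
    intro P _
    have h3 : ((r + 2 : ℕ) : ℚ) ≠ 0 := by exact_mod_cast Nat.succ_ne_zero (r + 1)
    push_cast at h3 ⊢
    field_simp
  have hex := exists_divisorial hn hn1 hy
  exact ⟨M, _, _, _, ‹_›, z, S.N', S.v, h.fermatField hwt, h.trM, S.nv, h.smooth hwt hD hsm,
    fun C C' hC hC' k => h.cov.kappa_iff (Δ := fun P => (1 : ℚ) / (r + 2 : ℕ) * D P) hG hex hC
      hC' k, fun hv => h.cov.campana hG hex hv⟩

end Pool.Agent.H890
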