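import Pool.Agent.H890.Dvs4

/-!
Iitaka's inequality and the covering space.
-/

set_option autoImplicit false
set_option linter.unusedSectionVars false
set_option linter.overlappingInstances false

open FF MvPolynomial Pool.Agent.W602.GT Pool.Agent.W603.LV Pool.Agent.Y172
  Pool.Agent.TH122.AB Pool.Agent.R887

namespace Pool.Agent.H890

section

variable {K L M : Type} [Field K] [Field L] [Field M] [Algebra ℂ K] [Algebra ℂ L]
  [Algebra ℂ M] [Algebra K L] [Algebra L M] [Algebra K M] [IsScalarTower ℂ K L]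
  [IsScalarTower ℂ L M] [IsScalarTower ℂ K M] [IsScalarTower K L M] [FiniteDimensional L M]
  {N : ℕ} {y : Fin (N + 1) → K} {n r : ℕ} {G : Place ℂ K → ℤ}

variable {S : Mod K L M y n r G} {b : ℕ} {Γ : Place ℂ K → ℤ}
  {T : ℕ → (Fin n → K) → K → (Fin (n + r) → Derivation ℂ M M) → M}

/-- the fibration of the covering space -/
theorem CovG.fibration (h : CovG S b Γ T) {B : Type} [Field B] [Algebra ℂ B] [Algebra B K]
    [Algebra B M] [IsScalarTower B K M] {N₀ : ℕ} {u : Fin (N₀ + 1) → B} (hu : ∃ j, u j ≠ 0)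
    (hf : Fibration u y n) : Fibration u S.v (n + r) := by
  have hK0 : CharZero K := charZero_of_injective_algebraMap (algebraMap ℂ K).injective
  refine ⟨fun P hP => ?_, fun x hx => ?_⟩
  · by_cases htr : ∀ f : K, P.ord (algebraMap K M f) = 0
    · obtain ⟨j, hj⟩ := hu
      refine ⟨j, hj, fun i => ?_⟩
      rw [IsScalarTower.algebraMap_apply B K M]
      exact S.local_triv htr _
    · push Not at htr
      obtain ⟨e, Q, hPQ⟩ := FF.exists_over P htr
      have hQd : Divisorial n Q := div_base (L := M) (by rw [S.trdeg_KM]) hPQ hP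
      obtain ⟨j, hj, h1⟩ := hf.morphism Q hQd
      refine ⟨j, hj, fun i => ?_⟩
      rw [IsScalarTower.algebraMap_apply B K M]
      exact S.local_le hPQ (h1 i)
  · obtain ⟨a, rfl⟩ := h.alg x (hx.extendScalars (algebraMap B K).injective)
    obtain ⟨c, rfl⟩ := hf.connected a ((isAlgebraic_algebraMap_iff (algebraMap K M).injective).1 hx)
    exact ⟨c, (IsScalarTower.algebraMap_apply B K M c).symm⟩

/-- **Iitaka's inequality descends.** -/
theorem CovG.iitaka (h : CovG S b Γ T) {Δ : Place ℂ K → ℚ}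
    (hG : ∀ P, IsPrimeDivisor y P → (Γ P : ℚ) = b * Δ P) (hex : ∃ Q : Place ℂ K, Divisorial n Q)
    {B : Type} [Field B] [Algebra ℂ B] [Algebra B K] [Algebra B M] [IsScalarTower B K M]
    {N₀ : ℕ} {u : Fin (N₀ + 1) → B} {d : ℕ} (hv : IitakaInequality u d S.v (n + r) 0) :
    IitakaInequality u d y n Δ := by
  intro C C₀ hC hC₀ j k hj hk
  obtain ⟨C', hC'⟩ := exists_canonical S.nv h.trM
  have h1 := hv C' C₀ hC' hC₀ j k (by
    rw [add_zero]
    exact h.kappa_up hG hex hC hC' hj) hk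
  rw [add_zero] at h1
  exact h.kappa_down hG hex hC hC' h1

end

/-- **Fermat coverings over smooth varieties** -/
theorem fermat_iitaka (B K : Type) [Field B] [Algebra ℂ B] [Field K] [Algebra ℂ K] [Algebra B K]
    [IsScalarTower ℂ B K] {d n r : ℕ} (hr : 0 < r)
    (hn1 : 1 ≤ n) (hn : Algebra.trdeg ℂ K = n) {N₀ N : ℕ} {u : Fin (N₀ + 1) → B}
    {y : Fin (N + 1) → K} (hu : NormalModel u) (hf : Fibration u y n)
    (hy : NormalModel y) {D Λ : Place ℂ K → ℤ} {s : K} (hD : Divides y n (r + 2) D Λ s)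
    (hsm : SmoothPair y n D) :
    ∃ (M : Type) (_ : Field M) (_ : Algebra ℂ M) (_ : Algebra B M) (_ : Algebra K M)
      (_ : IsScalarTower ℂ B M) (_ : IsScalarTower ℂ K M) (_ : IsScalarTower B K M)
      (z : Fin (r + 2) → M) (N' : ℕ) (v : Fin (N' + 1) → M), FermatField K s r 1 z ∧
      Algebra.trdeg ℂ M = (n + r : ℕ) ∧ NormalModel v ∧ SmoothVariety v (n + r) ∧
      Fibration u v (n + r) ∧
      (IitakaInequality u d v (n + r) 0 →
        IitakaInequality u d y n fun P => (1 : ℚ) / (r + 2 : ℕ) * D P) := by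
  obtain ⟨L, M, _, _, _, _, _, _, _, _, _, _, _, _, S, z, hwt, h⟩ :=
    exists_fer K hr (show 1 ≤ r from hr) hn hy hD
  have hG : ∀ P, IsPrimeDivisor y P → (((1 : ℕ) : ℤ) * D P : ℤ) =
      ((r + 2 : ℕ) : ℚ) * ((1 : ℚ) / (r + 2 : ℕ) * D P) := by
    intro P _
    have h3 : ((r + 2 : ℕ) : ℚ) ≠ 0 := by exact_mod_cast Nat.succ_ne_zero (r + 1)
    push_cast at h3 ⊢
    field_simp
  have hex := exists_divisorial hn hn1 hy
  let _ : Algebra B M := ((algebraMap K M).comp (algebraMap B K)).toAlgebra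
  have _ : IsScalarTower B K M := IsScalarTower.of_algebraMap_eq' rfl
  have _ : IsScalarTower ℂ B M := IsScalarTower.of_algebraMap_eq fun c => by
    rw [IsScalarTower.algebraMap_apply B K M, ← IsScalarTower.algebraMap_apply ℂ B K,
      ← IsScalarTower.algebraMap_apply ℂ K M]
  exact ⟨M, _, _, _, _, ‹_›, ‹_›, ‹_›, z, S.N', S.v, h.fermatField hwt, h.trM, S.nv,
    h.smooth hwt hD hsm, h.cov.fibration hu.ne hf, fun hv => h.cov.iitaka hG hex hv⟩

end Pool.Agent.H890
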