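import Pool.Agent.H890.Kum

/-!
Algebraic elements in fields generated by several roots.
-/

set_option autoImplicit false
set_option linter.unusedSectionVars false
set_option linter.overlappingInstances false

open FF Polynomial Pool.Agent.W602.GT Pool.Agent.W603.LV Pool.Agent.Y172 Pool.Agent.TH122.AB

namespace Pool.Agent.H890

theorem fin_le {F M : Type} [Field F] [Field M] [Algebra F M] [FiniteDimensional F M] {N : ℕ}
    (hN : 0 < N) {z : M} {φ : F} (hz : z ^ N = algebraMap F M φ)
    (h : IntermediateField.adjoin F {z} = ⊤) : Module.finrank F M ≤ N := by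
  have hint : IsIntegral F z := Algebra.IsIntegral.isIntegral _
  have h6 : Module.finrank F M = (minpoly F z).natDegree := by
    rw [← IntermediateField.adjoin.finrank hint, h, IntermediateField.finrank_top']
  rw [h6]
  have h7 : aeval z (X ^ N - C φ) = 0 := by
    rw [map_sub, map_pow, aeval_X, aeval_C, hz, sub_self]
  have h8 := natDegree_le_of_dvd (minpoly.dvd F z h7) (monic_X_pow_sub_C _ hN.ne').ne_zero
  rwa [natDegree_X_pow_sub_C] at h8

/-- **Algebraic elements: one root.** -/
theorem kum_step {K L M : Type} [Field K] [CharZero K] [Field L] [Field M] [Algebra K L]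
    [Algebra K M] [Algebra L M] [IsScalarTower K L M] [FiniteDimensional L M] {r : ℕ}
    (hr : Algebra.trdeg K L = r) {N : ℕ} (hN : 0 < N) {z : M} {φ : L}
    (hzN : z ^ N = algebraMap L M φ) (hgen : ∀ x : M, ∃ p : L[X], x = aeval z p)
    (hfin : Module.finrank L M ≤ N) {v : Place K L} (hφ : v.ord φ = 1) {g : M}
    (hg : IsAlgebraic K g) : ∃ g' : L, g = algebraMap L M g' ∧ IsAlgebraic K g' := by
  classical
  have hL0 : CharZero L := charZero_of_injective_algebraMap (algebraMap K L).injective
  have hM0 : CharZero M := charZero_of_injective_algebraMap (algebraMap K M).injective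
  obtain ⟨t, E, hbas, hE⟩ := exists_crd hr
  have hφ0 : φ ≠ 0 := by
    rintro rfl
    rw [v.ord_zero] at hφ
    omega
  -- the place above
  obtain ⟨P, e, hP⟩ := exists_above (L := M) v
  have hz : (N : ℤ) * P.ord z = e := by
    rw [← P.ord_pow, hzN, hP.2, hφ, mul_one]
  have hdvd : (N : ℤ) ∣ e := ⟨P.ord z, hz.symm⟩
  have hle : e ≤ N := (over_le hP).trans hfin
  have he : e = N := by
    have h4 : N ∣ e := by exact_mod_cast hdvd
    have h5 := Nat.le_of_dvd hP.1 h4
    omega
  subst he
  have hzo : P.ord z = 1 := by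
    have h4 : (e : ℤ) ≠ 0 := by positivity
    exact mul_left_cancel₀ h4 (by rw [hz, mul_one])
  have hz0 : z ≠ 0 := by
    rintro rfl
    rw [P.ord_zero] at hzo
    omega
  have hind : LinearIndependent L (fun i : Fin e => z ^ (i : ℕ)) := by
    refine indep_pow hP hz0 fun i j hi hj hd => ?_
    rw [hzo, mul_one] at hd
    by_contra hne
    rcases lt_or_gt_of_ne hne with h3 | h3
    · have h4 : (e : ℤ) ∣ (j - i : ℤ) := by
        have := dvd_neg.2 hd
        rwa [neg_sub] at this
      have := Int.le_of_dvd (by omega) h4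
      omega
    · have := Int.le_of_dvd (by omega) hd
      omega
  -- the expansion
  obtain ⟨c, hc⟩ : ∃ c : Fin e → L, g = ∑ i, c i • z ^ (i : ℕ) := by
    obtain ⟨p, hp⟩ := hgen g
    obtain ⟨q, hq⟩ : ∃ q : Polynomial L, q = Polynomial.X ^ e - Polynomial.C φ := ⟨_, rfl⟩
    have hqm : q.Monic := by
      rw [hq]
      exact Polynomial.monic_X_pow_sub_C φ (by omega)
    have hqd : q.natDegree = e := by
      rw [hq]
      exact Polynomial.natDegree_X_pow_sub_C
    have hqz : Polynomial.aeval z q = 0 := by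
      rw [hq, map_sub, map_pow, Polynomial.aeval_X, Polynomial.aeval_C, hzN, sub_self]
    have h1 := Polynomial.aeval_modByMonic_eq_self_of_root (p := p) hqz
    have h2 : (p %ₘ q).natDegree < e := by
      have h3 := Polynomial.natDegree_modByMonic_lt p hqm (fun h3 => by
        rw [h3, Polynomial.natDegree_one] at hqd
        omega)
      rwa [hqd] at h3
    rw [Polynomial.aeval_eq_sum_range' h2, Finset.sum_range] at h1
    exact ⟨fun i => (p %ₘ q).coeff i, by rw [hp, h1]⟩
  -- derivations
  have hN0 : (e : L) ≠ 0 := Nat.cast_ne_zero.2 (by omega)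
  have hder : ∀ p i, (e : L) * φ * E p (c i) = - ((i : ℕ) * c i * E p φ) := by
    intro p
    obtain ⟨D', hD'⟩ := exists_lift (L := M) hr (E p)
    have hg0 : D' g = 0 := der_alg D' hg
    obtain ⟨A, hA⟩ : ∃ A : L, A = E p φ / ((e : L) * φ) := ⟨_, rfl⟩
    have hDz : D' z = z * algebraMap L M A := by
      have h1 := der_pow D' z e
      rw [hzN, hD'] at h1
      have h2 : algebraMap L M φ ≠ 0 := by rwa [Ne, map_eq_zero]
      have h3 : (e : M) ≠ 0 := Nat.cast_ne_zero.2 (by omega)
      rw [hA, map_div₀, map_mul, map_natCast]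
      field_simp
      linear_combination -h1
    have hterm : ∀ i : Fin e, D' (c i • z ^ (i : ℕ)) =
        (E p (c i) + (i : ℕ) * c i * A) • z ^ (i : ℕ) := by
      intro i
      have h1 : z * D' (z ^ (i : ℕ)) = z * ((i : ℕ) * z ^ (i : ℕ) * algebraMap L M A) := by
        rw [der_pow, hDz]
        ring
      have h2 := mul_left_cancel₀ hz0 h1
      rw [Algebra.smul_def, D'.leibniz, h2, hD', smul_eq_mul, smul_eq_mul, Algebra.smul_def,
        map_add, map_mul, map_mul, map_natCast]
      ring
    have h1 : ∑ i : Fin e, (E p (c i) + (i : ℕ) * c i * A) • z ^ (i : ℕ) = 0 := by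
      rw [← hg0, hc, map_sum]
      exact Finset.sum_congr rfl fun i _ => (hterm i).symm
    have h2 := (Fintype.linearIndependent_iff.1 hind) _ h1
    intro i
    have h3 := h2 i
    rw [hA] at h3
    field_simp at h3
    linear_combination h3
  -- the constants
  have hw : ∀ i, IsAlgebraic K (c i ^ e * φ ^ (i : ℕ)) := by
    intro i
    refine alg_of_der hbas hE fun p => ?_
    by_cases hci : c i = 0
    · rw [hci, zero_pow (by omega), zero_mul, map_zero]
    have h1 : c i * φ * E p (c i ^ e * φ ^ (i : ℕ)) = 0 := by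
      rw [(E p).leibniz, smul_eq_mul, smul_eq_mul]
      have h2 := der_pow (E p) (c i) e
      have h3 := der_pow (E p) φ i
      have h4 := hder p i
      linear_combination (c i * c i ^ e) * h3 + (φ * φ ^ (i : ℕ)) * h2 +
        (φ ^ (i : ℕ) * c i ^ e) * h4
    rcases mul_eq_zero.1 h1 with h2 | h2
    · exact absurd h2 (mul_ne_zero hci hφ0)
    · exact h2
  have hc0 : ∀ i : Fin e, (i : ℕ) ≠ 0 → c i = 0 := by
    intro i hi
    by_contra hci
    have h1 := v.ord_eq_zero_of_isAlgebraic (mul_ne_zero (pow_ne_zero _ hci) (pow_ne_zero _ hφ0))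
      (hw i)
    rw [v.ord_mul (pow_ne_zero _ hci) (pow_ne_zero _ hφ0), v.ord_pow, v.ord_pow, hφ, mul_one] at h1
    have h2 : (e : ℤ) ∣ (i : ℕ) := ⟨- v.ord (c i), by linarith⟩
    have h3 : e ∣ (i : ℕ) := by exact_mod_cast h2
    have h5 := Nat.le_of_dvd (Nat.pos_of_ne_zero hi) h3
    have := i.2
    omega
  have hg1 : g = algebraMap L M (c ⟨0, hN⟩) := by
    rw [hc, Finset.sum_eq_single ⟨0, hN⟩]
    · rw [pow_zero, Algebra.smul_def, mul_one]
    · intro i _ hi
      rw [hc0 i fun h0 => hi (Fin.ext h0), zero_smul]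
    · intro h1
      exact absurd (Finset.mem_univ _) h1
  refine ⟨_, hg1, alg_of_der hbas hE fun p => ?_⟩
  have h1 := hder p ⟨0, hN⟩
  have h2 : (e : L) * φ * E p (c ⟨0, hN⟩) = 0 := by
    rw [h1]
    push_cast
    ring
  rcases mul_eq_zero.1 h2 with h3 | h3
  · exact absurd h3 (mul_ne_zero hN0 hφ0)
  · exact h3

/-- **Algebraic elements: several roots.** -/
theorem kum_alg {K L : Type} [Field K] [CharZero K] [Field L] [Algebra K L] {r : ℕ}
    (hr : Algebra.trdeg K L = r) {N : ℕ} (hN : 0 < N) : ∀ (m : ℕ) (M : Type) [Field M]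
    [Algebra K M] [Algebra L M] [IsScalarTower K L M] [FiniteDimensional L M] (z : Fin m → M)
    (a : Fin m → L), IntermediateField.adjoin L (Set.range z) = ⊤ →
    (∀ i, z i ^ N = algebraMap L M (a i)) →
    (∀ i, ∃ v : Place K L, ∀ j, v.ord (a j) = if j = i then 1 else 0) → (∀ i, a i ≠ 0) →
    ∀ g : M, IsAlgebraic K g → ∃ g' : L, g = algebraMap L M g' ∧ IsAlgebraic K g' := by
  intro m
  induction m with
  | zero =>
    intro M _ _ _ _ _ z a hgen hz _ _ g hg
    have h1 : (⊥ : IntermediateField L M) = ⊤ := by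
      rw [← hgen, Set.range_eq_empty, IntermediateField.adjoin_empty]
    have h2 : g ∈ (⊥ : IntermediateField L M) := by
      rw [h1]
      exact IntermediateField.mem_top
    obtain ⟨f, rfl⟩ := IntermediateField.mem_bot.1 h2
    exact ⟨f, rfl, (isAlgebraic_algebraMap_iff (algebraMap L M).injective).1 hg⟩
  | succ m ih =>
    intro M _ _ _ _ _ z a hgen hz hv ha g hg
    obtain ⟨F, z', hz', hF1, hF2⟩ := kum_tower (0 : Fin (m + 1)) hgen
    have hsc : IsScalarTower K F M := IsScalarTower.of_algebraMap_eq fun c => rfl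
    have hz'' : ∀ i, z' i ^ N = algebraMap L F (a ((0 : Fin (m + 1)).succAbove i)) := fun i => by
      apply Subtype.ext
      change (z' i : M) ^ N = algebraMap L M _
      rw [hz', hz]
    obtain ⟨v, hv0⟩ := hv 0
    obtain ⟨w, e, hw⟩ := exists_above (L := F) v
    have he : e = 1 := kummer_multi hN m F z' (fun i => a ((0 : Fin (m + 1)).succAbove i)) hF1 hz''
      (fun i => ha _) w v e hw fun i => by
        rw [hv0, if_neg (Fin.succAbove_ne 0 i)]
        exact dvd_zero _
    subst he
    have hrF : Algebra.trdeg K F = r := trdeg_up (K := L) hr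
    obtain ⟨g', hg', hga⟩ := kum_step (L := F) hrF hN (z := z 0) (φ := algebraMap L F (a 0))
      (by rw [hz, ← IsScalarTower.algebraMap_apply])
      (gen_of_top (Algebra.IsIntegral.isIntegral _) hF2)
      (fin_le hN (φ := algebraMap L F (a 0)) (by rw [hz, ← IsScalarTower.algebraMap_apply]) hF2)
      (v := w) (by rw [hw.2, hv0, if_pos rfl]; norm_num) hg
    obtain ⟨g'', hg'', hga'⟩ := ih F z' (fun i => a ((0 : Fin (m + 1)).succAbove i)) hF1 hz''
      (fun i => by
        obtain ⟨v', hv'⟩ := hv ((0 : Fin (m + 1)).succAbove i)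
        refine ⟨v', fun j => ?_⟩
        rw [hv']
        by_cases hj : j = i
        · rw [hj, if_pos rfl, if_pos rfl]
        · rw [if_neg hj, if_neg fun h => hj (Fin.succAbove_right_injective h)])
      (fun i => ha _) g' hga
    exact ⟨g'', by rw [hg', hg'', ← IsScalarTower.algebraMap_apply], hga'⟩

/-- algebraic elements of fields of rational functions -/
theorem gens_alg {K L : Type} [Field K] [CharZero K] [Field L] [Algebra K L] {r : ℕ}
    {t : Fin r → L} (ht : Gens (k := K) t) (hr : 0 < r) {g : L} (hg : IsAlgebraic K g) :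
    ∃ a : K, g = algebraMap K L a := by
  obtain ⟨F, hF⟩ := poly_of_reg ht (z := g) fun p _ w _ _ => by
    by_cases h0 : g = 0
    · rw [h0]
      exact w.reg_zero
    · exact Or.inr (w.ord_eq_zero_of_isAlgebraic h0 hg).ge
  by_cases hF0 : F = 0
  · refine ⟨0, ?_⟩
    rw [hF, hF0, map_zero, map_zero]
  obtain ⟨w, hw'⟩ := exists_degree ht hr
  have h1 := hw' F hF0
  rw [← hF, w.ord_eq_zero_of_isAlgebraic (by rw [hF]; exact ht.ne hF0) hg] at h1
  have h2 : F.totalDegree = 0 := by omega
  rw [MvPolynomial.totalDegree_eq_zero_iff_eq_C] at h2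
  refine ⟨F.coeff 0, ?_⟩
  rw [hF, h2, MvPolynomial.aeval_C, MvPolynomial.coeff_C, if_pos rfl]

end Pool.Agent.H890
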