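import Pool.Agent.H890.Tq
import Pool.Agent.H890.Kum2
import Pool.Agent.H890.Gn1

/-!
Fermat coverings of the projective bundle.
-/

set_option autoImplicit false
set_option linter.unusedSectionVars false
set_option linter.overlappingInstances false

open FF MvPolynomial Pool.Agent.W602.GT Pool.Agent.W603.LV Pool.Agent.W619.PQ Pool.Agent.Y172
  Pool.Agent.TH122.AB Pool.Agent.R887

namespace Pool.Agent.H890

section van

variable {K L : Type} [Field K] [Field L] [Algebra K L] {r : ℕ} {l : Fin (r + 2) → L}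

/-- the place where only one of the linear forms vanishes -/
theorem exists_van (hl : Sys l) (hg : Gens (k := K) (ts l 1)) (p0 : Fin r) :
    ∃ v : Place K L, ∀ k, v.ord (l k) - v.ord (l 0) = if k = p0.succ.castSucc then 1 else 0 := by
  classical
  obtain ⟨v, hv1, hv2⟩ := exists_adic hg (X_prime (R := K) (i := p0)).irreducible
  rw [aeval_X] at hv1
  have ht : ∀ p, v.ord (ts l 1 p) = if p = p0 then 1 else 0 := by
    intro p
    by_cases hp : p = p0
    · rw [if_pos hp, hp, hv1]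
    · rw [if_neg hp]
      have h1 := (hv2 (X p) (X_ne_zero p)).2.2 (fun h1 => hp (X_dvd_X.1 h1).symm)
      rwa [aeval_X] at h1
  have hlast : v.ord (l (Fin.last (r + 1)) / l 0) = 0 := by
    have h1 := hl.one_add 1
    have h2 : l (Fin.last (r + 1)) / l 0 = - aeval (ts l 1)
        (1 + ∑ p, X p : MvPolynomial (Fin r) K) := by
      rw [map_add, map_one, map_sum]
      simp only [aeval_X]
      rw [h1, neg_neg]
      rfl
    have h3 : constantCoeff (1 + ∑ p, X p : MvPolynomial (Fin r) K) = 1 := by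
      rw [map_add, map_one, map_sum]
      simp
    have h4 : ¬ (X p0 : MvPolynomial (Fin r) K) ∣ (1 + ∑ p, X p) := by
      rintro ⟨F, hF⟩
      rw [hF, map_mul, constantCoeff_X, zero_mul] at h3
      exact zero_ne_one h3
    have h5 : (1 + ∑ p, X p : MvPolynomial (Fin r) K) ≠ 0 := by
      intro h5
      rw [h5, map_zero] at h3
      exact zero_ne_one h3
    rw [h2, v.ord_neg]
    exact (hv2 _ h5).2.2 h4
  refine ⟨v, fun k => ?_⟩
  by_cases hk0 : k = 0
  · rw [hk0, sub_self, if_neg]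
    intro h3
    have h4 := congrArg Fin.val h3
    simp only [Fin.val_zero, Fin.val_castSucc, Fin.val_succ] at h4
    omega
  by_cases hkl : k = Fin.last (r + 1)
  · rw [v.ord_div (hl.ne _) (hl.ne _)] at hlast
    rw [hkl, hlast, if_neg]
    intro h3
    have h4 := congrArg Fin.val h3
    simp only [Fin.val_last, Fin.val_castSucc, Fin.val_succ] at h4
    omega
  obtain ⟨p, rfl⟩ := mid_of_ne hk0 hkl
  have h1 := ht p
  change v.ord (l p.succ.castSucc / l 0) = _ at h1
  rw [v.ord_div (hl.ne _) (hl.ne _)] at h1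
  rw [h1]
  by_cases hp : p = p0
  · rw [if_pos hp, hp, if_pos rfl]
  · rw [if_neg hp, if_neg]
    intro h3
    apply hp
    have h4 := congrArg Fin.val h3
    simp only [Fin.val_castSucc, Fin.val_succ] at h4
    exact Fin.ext (by omega)

/-- the place where only the linear form `l k` vanishes -/
theorem exists_van' (hl : Sys l) (hg : Gens (k := K) (ts l 1)) (hr : 0 < r) {k : Fin (r + 2)}
    (hk : k ≠ 0) : ∃ v : Place K L, ∀ j, v.ord (l j) - v.ord (l 0) = if j = k then 1 else 0 := by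
  classical
  obtain ⟨p0, hp0⟩ : ∃ p0 : Fin r, p0 = ⟨0, hr⟩ := ⟨_, rfl⟩
  obtain ⟨s, hs⟩ : ∃ s : Equiv.Perm (Fin (r + 2)), s = Equiv.swap p0.succ.castSucc k := ⟨_, rfl⟩
  have hp00 : (0 : Fin (r + 2)) ≠ p0.succ.castSucc := by
    intro h
    have := congrArg Fin.val h
    simp at this
  have hs0 : s 0 = 0 := by
    rw [hs]
    exact Equiv.swap_apply_of_ne_of_ne hp00 hk.symm
  have hl' : Sys (fun j => l (s j)) :=
    ⟨fun j => hl.ne _, by rw [Equiv.sum_comp s l, hl.sum]⟩
  have hts : ts (fun j => l (s j)) 1 = ts l s := rfl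
  obtain ⟨v, hv⟩ := exists_van hl' (by rw [hts]; exact gens_ts hl hg s) p0
  refine ⟨v, fun j => ?_⟩
  obtain ⟨j', rfl⟩ := s.surjective j
  have h1 := hv j'
  simp only [hs0] at h1
  rw [h1]
  have h2 : k = s p0.succ.castSucc := by rw [hs, Equiv.swap_apply_left]
  by_cases hj : j' = p0.succ.castSucc
  · rw [if_pos hj, if_pos (by rw [hj, ← h2])]
  · rw [if_neg hj, if_neg]
    intro h3
    apply hj
    rw [h2] at h3
    exact s.injective h3

end van

section

variable {K L M : Type} [Field K] [Field L] [Field M] [Algebra ℂ K] [Algebra ℂ L]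
  [Algebra ℂ M] [Algebra K L] [Algebra L M] [Algebra K M] [IsScalarTower ℂ K L]
  [IsScalarTower ℂ L M] [IsScalarTower ℂ K M] [IsScalarTower K L M] [FiniteDimensional L M]
  {N : ℕ} {y : Fin (N + 1) → K} {n r : ℕ} {G : Place ℂ K → ℤ}

/-- the data of the Fermat covering -/
structure Fer (S : Mod K L M y n r G) (s : K) (z : Fin (r + 2) → M) (w : ℤ) : Prop where
  rpos : 0 < r
  ws : ∑ k, S.wt k = w
  l0 : S.l 0 = 1
  z0 : z 0 = 1
  s0 : s ≠ 0
  zN : ∀ k, z k ^ (r + 2) = algebraMap L M (S.l k * algebraMap K L (s ^ (- S.wt k)))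
  gen : IntermediateField.adjoin L (Set.range z) = ⊤
  sG : ∀ P, IsPrimeDivisor y P → ((r + 2 : ℕ) : ℤ) ∣ P.ord s - G P
  trK : Algebra.trdeg ℂ K = n

variable {S : Mod K L M y n r G} {s : K} {z : Fin (r + 2) → M} {w : ℤ}

theorem Fer.zne (h : Fer S s z w) (k : Fin (r + 2)) : z k ≠ 0 := by
  intro h0
  have h1 := h.zN k
  rw [h0, zero_pow (by omega)] at h1
  have h2 := (map_eq_zero (algebraMap L M)).1 h1.symm
  rcases mul_eq_zero.1 h2 with h3 | h3
  · exact S.sys.ne k h3
  · rw [map_eq_zero] at h3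
    exact zpow_ne_zero _ h.s0 h3

theorem Fer.trL (h : Fer S s z w) : Algebra.trdeg ℂ L = (n + r : ℕ) := by
  obtain ⟨x, -, hx, -⟩ := exists_crd h.trK
  have h1 := append_basis hx (Gens_basis S.gens)
  rw [← h1.cardinalMk_eq_trdeg]
  simp

theorem Fer.trM (h : Fer S s z w) : Algebra.trdeg ℂ M = (n + r : ℕ) := trdeg_up (K := L) h.trL

/-- the `N`-th powers of the quotients of the generators -/
def Fer.aq (S : Mod K L M y n r G) (s : K) (j k : Fin (r + 2)) : L :=
  S.l k / S.l j * algebraMap K L (s ^ (S.wt j - S.wt k))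

theorem Fer.aq_ne (h : Fer S s z w) (j k : Fin (r + 2)) : Fer.aq S s j k ≠ 0 := by
  refine mul_ne_zero (div_ne_zero (S.sys.ne _) (S.sys.ne _)) ?_
  rw [Ne, map_eq_zero]
  exact zpow_ne_zero _ h.s0

theorem Fer.quot (h : Fer S s z w) (j k : Fin (r + 2)) :
    (z k / z j) ^ (r + 2) = algebraMap L M (Fer.aq S s j k) := by
  rw [div_pow, h.zN, h.zN, ← map_div₀]
  congr 1
  unfold Fer.aq
  have h1 := S.sys.ne j
  have h2 : ∀ m : ℤ, algebraMap K L (s ^ m) ≠ 0 := fun m => by
    rw [Ne, map_eq_zero]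
    exact zpow_ne_zero _ h.s0
  have h3 : s ^ (S.wt j - S.wt k) = s ^ (- S.wt k) / s ^ (- S.wt j) := by
    rw [← zpow_sub₀ h.s0]
    congr 1
    ring
  rw [h3, map_div₀, mul_div_mul_comm]

theorem Fer.gen' (h : Fer S s z w) (j : Fin (r + 2)) :
    IntermediateField.adjoin L (Set.range fun k => z k / z j) = ⊤ := by
  obtain ⟨F, hF⟩ : ∃ F, F = IntermediateField.adjoin L (Set.range fun k => z k / z j) := ⟨_, rfl⟩
  rw [← hF]
  have h1 : ∀ k, z k / z j ∈ F := fun k => by
    rw [hF]
    exact IntermediateField.subset_adjoin L _ ⟨k, rfl⟩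
  rw [eq_top_iff, ← h.gen, IntermediateField.adjoin_le_iff]
  rintro _ ⟨k, rfl⟩
  have h2 := h1 0
  rw [h.z0] at h2
  have h3 := F.div_mem (h1 k) h2
  rwa [div_div_div_cancel_right₀ (h.zne j), div_one] at h3

theorem Fer.aq_ord (h : Fer S s z w) (P : Place ℂ L) (j k : Fin (r + 2)) :
    P.ord (Fer.aq S s j k) = P.ord (S.l k) - P.ord (S.l j) +
      (S.wt j - S.wt k) * P.ord (algebraMap K L s) := by
  unfold Fer.aq
  rw [P.ord_mul (div_ne_zero (S.sys.ne _) (S.sys.ne _)) (by
    rw [Ne, map_eq_zero]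
    exact zpow_ne_zero _ h.s0), P.ord_div (S.sys.ne _) (S.sys.ne _), map_zpow₀, P.ord_zpow]

/-- **The form along vertical prime divisors.** -/
theorem Fer.ver (h : Fer S s z w) {P : Place ℂ M} (hP : IsPrimeDivisor S.v P) {Q : Place ℂ K}
    {e : ℕ} (hPQ : Over P Q e) : IsPrimeDivisor y Q ∧ Divisorial n Q ∧
      (∀ f, P.ord (algebraMap K M f) = Q.ord f) ∧
      ∀ (q : ℕ) (η : (Fin n → Derivation ℂ K K) → K), IsPluri (2 * ((r + 2) * q)) η → ∀ c : ℤ,
        OrdEq Q η c → ∀ (x : Fin n → K) (E : Fin n → Derivation ℂ K K), IsTranscendenceBasis ℂ x →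
        (∀ i j, E i (x j) = if i = j then 1 else 0) →
        OrdEq P (tq S.lM q (fun i => algebraMap K M (x i)) (algebraMap K M (η E)))
          (c + 2 * q * (w * G Q) : ℤ) := by
  have hessK := S.essK
  have hessL := S.essL
  have hessM := S.essM
  have hPd : Divisorial (n + r) P := hP.divisorial S.nv h.trM
  have hQd : Divisorial n Q := div_base (L := M) (by rw [S.trdeg_KM]) hPQ hPd
  obtain ⟨P₁, e₁, h₁⟩ := exists_below (K := L) P
  have hP₁ : Divisorial (n + r) P₁ := divisorial_down h₁ hPd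
  obtain ⟨hQ, i, g, hg0, hτ, hgau, ho⟩ := S.ver hPQ hQd hP h₁
  have he₁ : e₁ = 1 := by
    refine kummer_multi (N := r + 2) (by omega) (r + 2) M (fun k => z k / z i.castSucc)
      (Fer.aq S s i.castSucc) (h.gen' _) (h.quot _) (h.aq_ne _) P P₁ e₁ h₁ fun k => ?_
    rw [h.aq_ord, ho, hgau.base]
    have h1 := h.sG Q hQ
    have h2 : (S.wt k - S.wt i.castSucc) * G Q + (S.wt i.castSucc - S.wt k) * Q.ord s =
        (S.wt i.castSucc - S.wt k) * (Q.ord s - G Q) := by ring
    rw [h2]
    exact h1.mul_left _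
  subst he₁
  refine ⟨hQ, hQd, fun f => ?_, fun q η hη c hc x E hx hE => ?_⟩
  · rw [IsScalarTower.algebraMap_apply K L M, h₁.2, hgau.base, Nat.cast_one, one_mul]
  · have h1 := verq_ord S.sys h.trK hQd hg0 hτ hgau S.wtl h.ws ho hη hc hx hE
    have h2 : OrdEq P₁ (tq S.l q (fun i => algebraMap K L (x i)) (algebraMap K L (η E)))
        ((c + 2 * q * (w * G Q) : ℤ) : ℚ) := by
      push_cast
      exact h1
    have h3 := up_tq rfl h.trL S.sys h₁ hP₁
      (append_basis hx (Gens_basis (gens_ts S.sys S.gens (sA 0)))) h2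
    simp only [← IsScalarTower.algebraMap_apply] at h3
    have h4 : ((1 : ℕ) * (c + 2 * q * (w * G Q) + (2 * ((r + 2) * q) : ℕ)) -
        (2 * ((r + 2) * q) : ℕ) : ℤ) = c + 2 * q * (w * G Q) := by
      push_cast
      ring
    rw [h4] at h3
    exact h3

/-- **The form along horizontal prime divisors.** -/
theorem Fer.hor (h : Fer S s z w) {P : Place ℂ M} (hP : IsPrimeDivisor S.v P)
    (htr : ∀ f : K, P.ord (algebraMap K M f) = 0) (q : ℕ) {x : Fin n → K}
    {E : Fin n → Derivation ℂ K K} (hx : IsTranscendenceBasis ℂ x)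
    (hE : ∀ i j, E i (x j) = if i = j then 1 else 0) {c : K} (hc : c ≠ 0) :
    OrdEq P (tq S.lM q (fun i => algebraMap K M (x i)) (algebraMap K M c)) 0 := by
  classical
  have hessK := S.essK
  have hessL := S.essL
  have hessM := S.essM
  have hPd : Divisorial (n + r) P := hP.divisorial S.nv h.trM
  obtain ⟨P₁, e₁, h₁⟩ := exists_below (K := L) P
  have hP₁ : Divisorial (n + r) P₁ := divisorial_down h₁ hPd
  have he₁ : (0 : ℤ) < e₁ := by exact_mod_cast h₁.1
  have htr₁ : ∀ f : K, P₁.ord (algebraMap K L f) = 0 := by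
    intro f
    have h1 := htr f
    rw [IsScalarTower.algebraMap_apply K L M, h₁.2] at h1
    rcases mul_eq_zero.1 h1 with h2 | h2
    · omega
    · exact h2
  obtain ⟨c₀, hc₀⟩ := S.exists_cen P
  obtain ⟨i, f₀, hf₀, hu₀⟩ := S.u_eq c₀
  -- `l i` has minimal order
  have hmin : ∀ i' : Fin (r + 1), P₁.ord (S.l i.castSucc) ≤ P₁.ord (S.l i'.castSucc) := by
    intro i'
    obtain ⟨j₀, hj₀⟩ := S.ny.ne
    obtain ⟨f', hf'⟩ := (S.fam i').non
    obtain ⟨c', hc'⟩ := S.exists_u i' hf'
    have h1 := hc₀ c'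
    rw [h₁.2, h₁.2] at h1
    have h2 := le_of_mul_le_mul_left h1 he₁
    have h3 : ∀ (i : Fin (r + 1)) (f : K), f ≠ 0 →
        P₁.ord (S.l i.castSucc * algebraMap K L f) = P₁.ord (S.l i.castSucc) := by
      intro i f hf
      rw [P₁.ord_mul (S.sys.ne _) (by rwa [Ne, map_eq_zero]), htr₁, add_zero]
    rw [hu₀, hc', h3 _ _ ((S.fam i).ne _ hf₀), h3 _ _ ((S.fam i').ne _ hf')] at h2
    exact h2
  obtain ⟨σ, hσ, hσ1, hσ2⟩ := exists_good S.sys P₁ hmin
  have ht := gens_ts S.sys S.gens σ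
  have htord : ∀ p, P₁.ord (ts S.l σ p) = P₁.ord (S.l (σ p.succ.castSucc)) - P₁.ord (S.l (σ 0)) :=
    fun p => by
      unfold ts
      rw [P₁.ord_div (S.sys.ne _) (S.sys.ne _)]
  have hreg : ∀ p, P₁.Reg (ts S.l σ p) := by
    intro p
    right
    rw [htord]
    have := hσ1 (σ p.succ.castSucc)
    omega
  -- the chart is contained in the ring of polynomials
  have hmem : ∀ i' : Fin (r + 2), S.l i' / S.l i.castSucc ∈ RR (⊤ : Subalgebra ℂ K) (ts S.l σ) := by
    intro i'
    rw [← hσ.zero]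
    have h1 := ratio_mem (K := K) S.sys σ i'
    rw [Algebra.adjoin_range_eq_range_aeval] at h1
    obtain ⟨F, hF⟩ := h1
    exact mem_RR_top.2 ⟨F, hF⟩
  have hchart : chart S.u c₀ ≤ RR (⊤ : Subalgebra ℂ K) (ts S.l σ) := by
    apply Algebra.adjoin_le
    rintro _ ⟨c', rfl⟩
    change S.u c' / S.u c₀ ∈ RR (⊤ : Subalgebra ℂ K) (ts S.l σ)
    obtain ⟨i', f', hf', hu'⟩ := S.u_eq c'
    have h1 : S.u c' / S.u c₀ = S.l i'.castSucc / S.l i.castSucc * algebraMap K L (f' / f₀) := by
      rw [hu', hu₀, map_div₀, div_mul_div_comm]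
    rw [h1]
    exact (RR _ _).mul_mem (hmem _) (RR_base Algebra.mem_top)
  obtain ⟨hrep, hord, huniq⟩ := hor_prime ht h₁ htr₁ hreg (S.loc hc₀ hP hchart)
  have h1 := horq_ord S.sys hσ ht htr₁ hreg hrep (q := q) hx hE hc
  have h2 := up_tq rfl h.trL S.sys h₁ hP₁
    (append_basis hx (Gens_basis (gens_ts S.sys S.gens (sA 0)))) h1
  simp only [← IsScalarTower.algebraMap_apply] at h2
  -- the orders of the forms
  have hcase : (∀ k, P₁.ord (S.l k) - P₁.ord (S.l (σ 0)) = 0) ∨
      ∃ k₀, ∀ k, P₁.ord (S.l k) - P₁.ord (S.l (σ 0)) = if k = k₀ then 1 else 0 := by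
    by_cases hex : ∃ p, P₁.ord (ts S.l σ p) = 1
    · right
      obtain ⟨p, hp⟩ := hex
      refine ⟨σ p.succ.castSucc, fun k => ?_⟩
      obtain ⟨k', rfl⟩ := σ.surjective k
      by_cases hk0 : k' = 0
      · rw [hk0, sub_self, if_neg]
        intro h3
        have h4 := congrArg Fin.val (σ.injective h3)
        simp only [Fin.val_zero, Fin.val_castSucc, Fin.val_succ] at h4
        omega
      by_cases hkl : k' = Fin.last (r + 1)
      · rw [hkl, hσ2, sub_self, if_neg]
        intro h3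
        have h4 := congrArg Fin.val (σ.injective h3)
        simp only [Fin.val_last, Fin.val_castSucc, Fin.val_succ] at h4
        omega
      obtain ⟨p', rfl⟩ := mid_of_ne hk0 hkl
      rw [← htord]
      by_cases hpp : p' = p
      · rw [hpp, hp, if_pos rfl]
      · rw [if_neg]
        · rcases hord p' with h3 | h3
          · exact h3
          · exact absurd (huniq _ _ h3 hp) hpp
        · intro h3
          apply hpp
          have h4 := congrArg Fin.val (σ.injective h3)
          simp only [Fin.val_castSucc, Fin.val_succ] at h4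
          exact Fin.ext (by omega)
    · left
      push Not at hex
      intro k
      obtain ⟨k', rfl⟩ := σ.surjective k
      by_cases hk0 : k' = 0
      · rw [hk0, sub_self]
      by_cases hkl : k' = Fin.last (r + 1)
      · rw [hkl, hσ2, sub_self]
      obtain ⟨p', rfl⟩ := mid_of_ne hk0 hkl
      rw [← htord]
      exact (hord p').resolve_right (hex p')
  have haq : ∀ k, P₁.ord (Fer.aq S s (σ 0) k) = P₁.ord (S.l k) - P₁.ord (S.l (σ 0)) := fun k => by
    rw [h.aq_ord, htr₁, mul_zero, add_zero]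
  rcases hcase with hcase | ⟨k₀, hcase⟩
  · have he : e₁ = 1 := by
      refine kummer_multi (N := r + 2) (by omega) (r + 2) M (fun k => z k / z (σ 0))
        (Fer.aq S s (σ 0)) (h.gen' _) (h.quot _) (h.aq_ne _) P P₁ e₁ h₁ fun k => ?_
      rw [haq, hcase]
      exact dvd_zero _
    subst he
    have h3 : ∑ k, (P₁.ord (S.l k) - P₁.ord (S.l (σ 0))) = 0 :=
      Finset.sum_eq_zero fun k _ => hcase k
    rw [h3] at h2
    have h4 : ((1 : ℕ) * (-((r + 1) * (2 * q) * 0) + (2 * ((r + 2) * q) : ℕ)) -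
        (2 * ((r + 2) * q) : ℕ) : ℤ) = 0 := by
      push_cast
      ring
    rw [h4] at h2
    exact_mod_cast h2
  · have h3 : ∑ k, (P₁.ord (S.l k) - P₁.ord (S.l (σ 0))) = 1 := by
      rw [Finset.sum_congr rfl fun k _ => hcase k, Finset.sum_ite_eq' Finset.univ k₀,
        if_pos (Finset.mem_univ _)]
    have hz : ((r + 2 : ℕ) : ℤ) * P.ord (z k₀ / z (σ 0)) = e₁ := by
      rw [← P.ord_pow, h.quot, h₁.2, haq, hcase, if_pos rfl, mul_one]
    have hdvd : ((r + 2 : ℕ) : ℤ) ∣ e₁ := ⟨_, hz.symm⟩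
    have hle : e₁ ≤ r + 2 := by
      refine kummer_one (N := r + 2) (by omega) (h.gen' (σ 0)) (h.quot (σ 0)) (h.aq_ne (σ 0)) h₁ k₀
        fun k hk => ?_
      rw [haq, hcase, if_neg hk]
      exact dvd_zero _
    have he : e₁ = r + 2 := by
      have h4 : r + 2 ∣ e₁ := by exact_mod_cast hdvd
      have h5 := Nat.le_of_dvd h₁.1 h4
      omega
    subst he
    rw [h3] at h2
    have h4 : ((r + 2 : ℕ) * (-((r + 1) * (2 * q) * 1) + (2 * ((r + 2) * q) : ℕ)) -
        (2 * ((r + 2) * q) : ℕ) : ℤ) = 0 := by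
      push_cast
      ring
    rw [h4] at h2
    exact_mod_cast h2

/-- **The base field is algebraically closed in the function field of the covering space.** -/
theorem Fer.alg_mem (h : Fer S s z w) {g : M} (hg : IsAlgebraic K g) :
    ∃ a : K, g = algebraMap K M a := by
  classical
  have hK0 : CharZero K := charZero_of_injective_algebraMap (algebraMap ℂ K).injective
  have hgen : IntermediateField.adjoin L (Set.range fun i : Fin (r + 1) => z i.succ) = ⊤ := by
    obtain ⟨F, hF⟩ : ∃ F, F = IntermediateField.adjoin L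
        (Set.range fun i : Fin (r + 1) => z i.succ) := ⟨_, rfl⟩
    rw [← hF, eq_top_iff, ← h.gen, IntermediateField.adjoin_le_iff]
    rintro _ ⟨k, rfl⟩
    refine Fin.cases ?_ (fun i => ?_) k
    · rw [h.z0]
      exact F.one_mem
    · rw [hF]
      exact IntermediateField.subset_adjoin L _ ⟨i, rfl⟩
  obtain ⟨g', hg', hga⟩ := kum_alg S.trdeg_KL (N := r + 2) (by omega) (r + 1) M
    (fun i => z i.succ) (fun i => S.l i.succ * algebraMap K L (s ^ (- S.wt i.succ))) hgen
    (fun i => h.zN i.succ) (fun i => by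
      obtain ⟨v, hv⟩ := exists_van' S.sys S.gens h.rpos (Fin.succ_ne_zero i)
      refine ⟨v, fun j => ?_⟩
      have h1 : algebraMap K L (s ^ (- S.wt j.succ)) ≠ 0 := by
        rw [Ne, map_eq_zero]
        exact zpow_ne_zero _ h.s0
      have h2 := hv j.succ
      rw [h.l0, v.ord_one, sub_zero] at h2
      rw [v.ord_mul (S.sys.ne _) h1, v.ord_const (zpow_ne_zero _ h.s0), add_zero, h2]
      by_cases hj : j = i
      · rw [if_pos hj, if_pos (by rw [hj])]
      · rw [if_neg hj, if_neg fun h3 => hj (Fin.succ_injective _ h3)])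
    (fun i => mul_ne_zero (S.sys.ne _) (by
      rw [Ne, map_eq_zero]
      exact zpow_ne_zero _ h.s0)) g hg
  obtain ⟨a, ha⟩ := gens_alg S.gens h.rpos hga
  exact ⟨a, by rw [hg', ha, ← IsScalarTower.algebraMap_apply]⟩

/-- **The Fermat covering.** -/
theorem Fer.cov (h : Fer S s z w) : CovG S (r + 2) (fun P => w * G P)
    (fun q x c => tq S.lM q (fun i => algebraMap K M (x i)) (algebraMap K M c)) where
  b1 := by omega
  trK := h.trK
  pluri := fun q x c => tq_pluri S.sysM _ _ _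
  add := fun q x c c' D => by
    unfold tq
    rw [map_add]
    ring
  mul := fun q x c c' D => by
    rw [map_mul, tq_mul]
  pow := fun q a x c D => by
    rw [map_pow, tq_pow]
  ne := fun q x c hx hc F hF => by
    rw [tq_self S.sysM (i := 0) (Or.inl rfl) hF]
    exact div_ne_zero (mul_ne_zero (pow_ne_zero _ (S.sysM.ne _)) (by
      rwa [Ne, map_eq_zero]))
      (pow_ne_zero _ (Finset.prod_ne_zero_iff.2 fun k _ => S.sysM.ne k))
  ver := fun hP _ _ hPQ => h.ver hP hPQ
  hor := fun hP htr q _ _ hx hE _ hc => h.hor hP htr q hx hE hc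
  alg := fun g hg => h.alg_mem hg

end

end Pool.Agent.H890
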