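import Mathlib

/-!
Upper limits of sequences of dimensions.
-/

set_option autoImplicit false

open Filter Topology

namespace Pool.Agent.H890

theorem kd_pos {h₁ h₂ : ℕ → ℕ} {S₁ S₂ : Set ℕ} {c k : ℕ} (hc : 1 ≤ c)
    (h : ∀ m ∈ S₁, 1 ≤ m ∧ c * m ∈ S₂ ∧ h₁ m ≤ h₂ (c * m))
    (hp : 0 < limsup (fun m : ℕ => (h₁ m : ENNReal) / (m : ENNReal) ^ k) (atTop ⊓ 𝓟 S₁)) :
    0 < limsup (fun m : ℕ => (h₂ m : ENNReal) / (m : ENNReal) ^ k) (atTop ⊓ 𝓟 S₂) := by
  obtain ⟨ε, hε0, hε⟩ := exists_between hp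
  have h1 := frequently_lt_of_lt_limsup (by isBoundedDefault) hε
  have htend : Tendsto (fun m => c * m) (atTop ⊓ 𝓟 S₁) (atTop ⊓ 𝓟 S₂) := by
    refine tendsto_inf.2 ⟨?_, ?_⟩
    · refine Tendsto.mono_left ?_ inf_le_left
      exact tendsto_id.const_mul_atTop' (by omega)
    · rw [tendsto_principal, eventually_inf_principal]
      exact Eventually.of_forall fun m hm => (h m hm).2.1
  have hc0 : (c : ENNReal) ≠ 0 := by
    have : c ≠ 0 := by omega
    exact_mod_cast this
  have hct : (c : ENNReal) ≠ ⊤ := ENNReal.natCast_ne_top c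
  have hck : (c : ENNReal) ^ k ≠ 0 := pow_ne_zero _ hc0
  have hckt : (c : ENNReal) ^ k ≠ ⊤ := ENNReal.pow_ne_top hct
  have h2 : ∃ᶠ m in atTop ⊓ 𝓟 S₁, ε / (c : ENNReal) ^ k ≤
      (fun m : ℕ => (h₂ m : ENNReal) / (m : ENNReal) ^ k) (c * m) := by
    have h3 : ∀ᶠ m in atTop ⊓ 𝓟 S₁, m ∈ S₁ := by
      rw [eventually_inf_principal]
      exact Eventually.of_forall fun m hm => hm
    refine (h1.and_eventually h3).mono ?_
    rintro m ⟨hm, hmS⟩
    obtain ⟨hm1, -, hle⟩ := h m hmS
    have h4 : (h₁ m : ENNReal) ≤ h₂ (c * m) := by exact_mod_cast hle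
    have h5 : ((c * m : ℕ) : ENNReal) ^ k = (m : ENNReal) ^ k * (c : ENNReal) ^ k := by
      push_cast
      rw [mul_comm, mul_pow]
    change ε / (c : ENNReal) ^ k ≤ (h₂ (c * m) : ENNReal) / ((c * m : ℕ) : ENNReal) ^ k
    rw [h5, div_eq_mul_inv, div_eq_mul_inv, ENNReal.mul_inv (Or.inr hckt) (Or.inr hck), ← mul_assoc,
      ← div_eq_mul_inv (h₂ (c * m) : ENNReal)]
    refine mul_le_mul_left ?_ _
    exact hm.le.trans (ENNReal.div_le_div_right h4 _)
  have h6 := htend.frequently (p := fun m' : ℕ => ε / (c : ENNReal) ^ k ≤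
    (fun m : ℕ => (h₂ m : ENNReal) / (m : ENNReal) ^ k) m') h2
  have h7 : ε / (c : ENNReal) ^ k ≤
      limsup (fun m : ℕ => (h₂ m : ENNReal) / (m : ENNReal) ^ k) (atTop ⊓ 𝓟 S₂) :=
    le_limsup_of_frequently_le h6 (by isBoundedDefault)
  refine lt_of_lt_of_le ?_ h7
  exact ENNReal.div_pos hε0.ne' hckt

theorem log_cast {a : ℕ} (ha : 1 ≤ a) : ENNReal.log (a : ENNReal) = ((Real.log a : ℝ) : EReal) := by
  have h1 : (0 : ℝ) < a := by exact_mod_cast ha
  have h2 : (a : ENNReal) = ENNReal.ofReal (a : ℝ) := (ENNReal.ofReal_natCast a).symm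
  rw [h2, ENNReal.log_ofReal_of_pos h1]

theorem nu_mono {h₁ h₂ : ℕ → ℕ} {S₁ S₂ : Set ℕ} {f : ℕ → ℕ} {c : ℕ}
    (hf : ∀ m, m ≤ f m ∧ f m ≤ m + c)
    (h : ∀ m ∈ S₁, f m ∈ S₂ ∧ h₁ m ≤ h₂ (f m)) :
    limsup (fun m : ℕ => ENNReal.log (h₁ m : ENNReal) / (Real.log m : EReal)) (atTop ⊓ 𝓟 S₁) ≤
      limsup (fun m : ℕ => ENNReal.log (h₂ m : ENNReal) / (Real.log m : EReal))
        (atTop ⊓ 𝓟 S₂) := by
  by_contra hcon
  push Not at hcon
  obtain ⟨u, hu1, hu2⟩ := EReal.lt_iff_exists_real_btwn.1 hcon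
  have h1 := eventually_lt_of_limsup_lt hu1 (by isBoundedDefault)
  have htend : Tendsto f (atTop ⊓ 𝓟 S₁) (atTop ⊓ 𝓟 S₂) := by
    refine tendsto_inf.2 ⟨?_, ?_⟩
    · refine Tendsto.mono_left ?_ inf_le_left
      exact tendsto_atTop_mono (fun m => (hf m).1) tendsto_id
    · rw [tendsto_principal, eventually_inf_principal]
      exact Eventually.of_forall fun m hm => (h m hm).1
  have h2 := htend.eventually h1
  have h3 : ∀ᶠ m in atTop ⊓ 𝓟 S₁, m ∈ S₁ := by
    rw [eventually_inf_principal]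
    exact Eventually.of_forall fun m hm => hm
  have h4 : ∀ᶠ m : ℕ in atTop ⊓ 𝓟 S₁, 2 ≤ m := by
    rw [eventually_inf_principal]
    filter_upwards [eventually_ge_atTop 2] with m hm _ using hm
  -- the bound
  have h5 : ∀ᶠ m : ℕ in atTop ⊓ 𝓟 S₁, ENNReal.log (h₁ m : ENNReal) / (Real.log m : EReal) ≤
      ((max u 0 * (Real.log ((m + c : ℕ) : ℝ) / Real.log m) : ℝ) : EReal) ∧
      (u < 0 → ENNReal.log (h₁ m : ENNReal) / (Real.log m : EReal) = ⊥) := by
    filter_upwards [h2, h3, h4] with m hm2 hmS hm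
    obtain ⟨-, hle⟩ := h m hmS
    have hlog : 0 < Real.log m := Real.log_pos (by exact_mod_cast (by omega : 1 < m))
    by_cases h0 : h₁ m = 0
    · have e1 : ENNReal.log (h₁ m : ENNReal) / (Real.log m : EReal) = ⊥ := by
        rw [h0, Nat.cast_zero, ENNReal.log_zero]
        exact EReal.bot_div_of_pos_ne_top (by exact_mod_cast hlog) (EReal.coe_ne_top _)
      rw [e1]
      exact ⟨bot_le, fun _ => rfl⟩
    have h1m : 1 ≤ h₁ m := Nat.one_le_iff_ne_zero.2 h0
    have h2m : 1 ≤ h₂ (f m) := h1m.trans hle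
    have hfm := (hf m).1
    have hfm2 := (hf m).2
    have hlogf : 0 < Real.log (f m) := Real.log_pos (by exact_mod_cast (by omega : 1 < f m))
    rw [log_cast h2m, ← EReal.coe_div] at hm2
    have hm3 : Real.log (h₂ (f m)) / Real.log (f m) < u := by exact_mod_cast hm2
    have hnn : 0 ≤ Real.log (h₂ (f m)) := Real.log_natCast_nonneg _
    have hu0 : 0 < u := lt_of_le_of_lt (div_nonneg hnn hlogf.le) hm3
    refine ⟨?_, fun hneg => absurd hu0 (not_lt.2 hneg.le)⟩
    rw [log_cast h1m, ← EReal.coe_div, EReal.coe_le_coe_iff, max_eq_left hu0.le, ← mul_div_assoc]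
    refine div_le_div_of_nonneg_right ?_ hlog.le
    have h6 : Real.log (h₁ m) ≤ Real.log (h₂ (f m)) :=
      Real.log_le_log (by exact_mod_cast h1m) (by exact_mod_cast hle)
    have h7 : Real.log (h₂ (f m)) < u * Real.log (f m) := (div_lt_iff₀ hlogf).1 hm3
    have h8 : Real.log (f m) ≤ Real.log ((m + c : ℕ) : ℝ) :=
      Real.log_le_log (by exact_mod_cast (by omega : 0 < f m)) (by exact_mod_cast hfm2)
    have h9 : u * Real.log (f m) ≤ u * Real.log ((m + c : ℕ) : ℝ) :=
      mul_le_mul_of_nonneg_left h8 hu0.le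
    linarith
  rcases lt_or_ge u 0 with hneg | hpos
  · have h6 : limsup (fun m : ℕ => ENNReal.log (h₁ m : ENNReal) / (Real.log m : EReal))
        (atTop ⊓ 𝓟 S₁) ≤ ⊥ := by
      refine limsup_le_of_le (by isBoundedDefault) ?_
      filter_upwards [h5] with m hm
      exact (hm.2 hneg).le
    rw [le_bot_iff] at h6
    rw [h6] at hu2
    exact not_lt_bot hu2
  · have h6 : Tendsto (fun m : ℕ => ((max u 0 * (Real.log ((m + c : ℕ) : ℝ) / Real.log m) : ℝ) :
        EReal)) atTop (𝓝 ((max u 0 * 1 : ℝ) : EReal)) := by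
      refine (continuous_coe_real_ereal.tendsto _).comp ?_
      refine Tendsto.const_mul _ ?_
      have h7 : Tendsto (fun m : ℕ => 1 + (Real.log ((m + c : ℕ) : ℝ) - Real.log m) / Real.log m)
          atTop (𝓝 (1 + 0)) := by
        refine Tendsto.const_add _ ?_
        have h8 : Tendsto (fun m : ℕ => Real.log (1 + c) / Real.log m) atTop (𝓝 0) :=
          Tendsto.const_div_atTop (Real.tendsto_log_atTop.comp tendsto_natCast_atTop_atTop) _
        refine tendsto_of_tendsto_of_tendsto_of_le_of_le' tendsto_const_nhds h8 ?_ ?_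
        · filter_upwards [eventually_ge_atTop 2] with m hm
          have hlog : 0 < Real.log m := Real.log_pos (by exact_mod_cast (by omega : 1 < m))
          refine div_nonneg ?_ hlog.le
          have : Real.log m ≤ Real.log ((m + c : ℕ) : ℝ) :=
            Real.log_le_log (by exact_mod_cast (by omega : 0 < m)) (by exact_mod_cast (by omega))
          linarith
        · filter_upwards [eventually_ge_atTop 2] with m hm
          have hlog : 0 < Real.log m := Real.log_pos (by exact_mod_cast (by omega : 1 < m))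
          refine div_le_div_of_nonneg_right ?_ hlog.le
          have hm0 : (0 : ℝ) < m := by exact_mod_cast (by omega : 0 < m)
          rw [← Real.log_div (by positivity) hm0.ne']
          refine Real.log_le_log (by positivity) ?_
          rw [div_le_iff₀ hm0]
          push_cast
          have hm1 : (1 : ℝ) ≤ m := by exact_mod_cast (by omega : 1 ≤ m)
          have hc : (0 : ℝ) ≤ c := Nat.cast_nonneg _
          nlinarith
      rw [add_zero] at h7
      refine h7.congr' ?_
      filter_upwards [eventually_ge_atTop 2] with m hm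
      have hlog : 0 < Real.log m := Real.log_pos (by exact_mod_cast (by omega : 1 < m))
      field_simp
      ring
    have h7 : limsup (fun m : ℕ => ENNReal.log (h₁ m : ENNReal) / (Real.log m : EReal))
        (atTop ⊓ 𝓟 S₁) ≤ ((max u 0 * 1 : ℝ) : EReal) := by
      by_cases hbot : (atTop ⊓ 𝓟 S₁ : Filter ℕ).NeBot
      · have h8 := (h6.mono_left (inf_le_left (b := 𝓟 S₁))).limsup_eq
        rw [← h8]
        refine limsup_le_limsup ?_ (by isBoundedDefault) (by isBoundedDefault)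
        filter_upwards [h5] with m hm using hm.1
      · rw [not_neBot] at hbot
        rw [hbot, limsup_bot]
        exact bot_le
    rw [mul_one, max_eq_left hpos] at h7
    exact absurd hu2 (not_lt.2 h7)

end Pool.Agent.H890
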