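import Pool.Agent.H890.Kap
import Pool.Agent.H890.KapL

/-!
The Kodaira dimension and the numerical dimension of the covering space.
-/

set_option autoImplicit false
set_option linter.unusedSectionVars false
set_option linter.overlappingInstances false

open FF MvPolynomial Filter Pool.Agent.W602.GT Pool.Agent.W603.LV Pool.Agent.Y172
  Pool.Agent.TH122.AB Pool.Agent.R887

namespace Pool.Agent.H890

section

variable {K L M : Type} [Field K] [Field L] [Field M] [Algebra ℂ K] [Algebra ℂ L]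
  [Algebra ℂ M] [Algebra K L] [Algebra L M] [Algebra K M] [IsScalarTower ℂ K L]
  [IsScalarTower ℂ L M] [IsScalarTower ℂ K M] [IsScalarTower K L M] [FiniteDimensional L M]
  {N : ℕ} {y : Fin (N + 1) → K} {n r : ℕ} {G : Place ℂ K → ℤ}
  {S : Mod K L M y n r G} {b : ℕ} {z : M}

/-- **The Kodaira dimension of the covering space.** -/
theorem Cov.kappa (h : Cov S b z) (hr : 0 < r) {Δ : Place ℂ K → ℚ} (hΔ : Effective y Δ)
    (hG : ∀ P, IsPrimeDivisor y P → (G P : ℚ) = b * Δ P) (hlc : LogCanonical y n Δ) :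
    kodairaDim S.v (n + r) 0 = kodairaDim y n Δ := by
  classical
  have hb1 : 1 ≤ b := by
    have := h.hb
    omega
  have h2b : 1 ≤ 2 * b := by omega
  have hassoc : ∀ m, 2 * b * m = 2 * (b * m) := fun m => by ring
  have heq : ∀ m, h0 S.v (n + r) (2 * b * m) ((2 * b * m) • (0 : Place ℂ M → ℚ)) =
      h0 y n (2 * b * m) ((2 * b * m) • Δ) := by
    intro m
    rw [hassoc]
    exact h.h0_eq hr hG hlc m
  have hint : ∀ m : ℕ, Integral y ((2 * b * m) • Δ) := by
    intro m P hP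
    refine ⟨2 * m * G P, ?_⟩
    rw [Pi.smul_apply, nsmul_eq_mul]
    push_cast
    rw [hG P hP]
    ring
  have hint0 : ∀ m : ℕ, Integral S.v (m • (0 : Place ℂ M → ℚ)) := by
    intro m P _
    refine ⟨0, ?_⟩
    rw [smul_zero]
    simp
  have hup : ∀ m, 1 ≤ m → h0 y n m (m • Δ) ≤
      h0 S.v (n + r) (2 * b * m) ((2 * b * m) • (0 : Place ℂ M → ℚ)) := by
    intro m hm
    rw [heq]
    exact h0_mul_le S.ny h.trK hΔ hm h2b
  have hdn : ∀ m, 1 ≤ m → h0 S.v (n + r) m (m • (0 : Place ℂ M → ℚ)) ≤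
      h0 y n (2 * b * m) ((2 * b * m) • Δ) := by
    intro m hm
    rw [← heq]
    exact h0_mul_le S.nv h.trM (effective_zero _) hm h2b
  unfold kodairaDim
  have hiff : (∀ m : ℕ, 1 ≤ m → Integral S.v (m • (0 : Place ℂ M → ℚ)) →
      h0 S.v (n + r) m (m • (0 : Place ℂ M → ℚ)) = 0) ↔
      ∀ m : ℕ, 1 ≤ m → Integral y (m • Δ) → h0 y n m (m • Δ) = 0 := by
    constructor
    · intro h1 m hm _
      have h2 := h1 (2 * b * m) (Nat.mul_pos h2b hm) (hint0 _)
      have h3 := hup m hm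
      rw [h2] at h3
      exact Nat.le_zero.1 h3
    · intro h1 m hm _
      have h2 := h1 (2 * b * m) (Nat.mul_pos h2b hm) (hint _)
      have h3 := hdn m hm
      rw [h2] at h3
      exact Nat.le_zero.1 h3
  have hset : {k : ℕ | 0 < limsup (fun m : ℕ =>
      (h0 S.v (n + r) m (m • (0 : Place ℂ M → ℚ)) : ENNReal) / (m : ENNReal) ^ k)
      (atTop ⊓ 𝓟 {m : ℕ | 1 ≤ m ∧ Integral S.v (m • (0 : Place ℂ M → ℚ))})} =
      {k : ℕ | 0 < limsup (fun m : ℕ => (h0 y n m (m • Δ) : ENNReal) / (m : ENNReal) ^ k)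
      (atTop ⊓ 𝓟 {m : ℕ | 1 ≤ m ∧ Integral y (m • Δ)})} := by
    apply Set.Subset.antisymm
    · intro k hk
      refine kd_pos (c := 2 * b) h2b (h₁ := fun m => h0 S.v (n + r) m (m • (0 : Place ℂ M → ℚ)))
        (h₂ := fun m => h0 y n m (m • Δ)) (fun m hm => ?_) hk
      exact ⟨hm.1, ⟨Nat.mul_pos h2b hm.1, hint m⟩, hdn m hm.1⟩
    · intro k hk
      refine kd_pos (c := 2 * b) h2b (h₁ := fun m => h0 y n m (m • Δ))
        (h₂ := fun m => h0 S.v (n + r) m (m • (0 : Place ℂ M → ℚ))) (fun m hm => ?_) hk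
      exact ⟨hm.1, ⟨Nat.mul_pos h2b hm.1, hint0 _⟩, hup m hm.1⟩
  rw [hset]
  by_cases hc : ∀ m : ℕ, 1 ≤ m → Integral y (m • Δ) → h0 y n m (m • Δ) = 0
  · rw [if_pos hc, if_pos (hiff.2 hc)]
  · rw [if_neg hc, if_neg (fun h' => hc (hiff.1 h'))]

/-- **The numerical dimension of the covering space.** -/
theorem Cov.nu (h : Cov S b z) {Δ : Place ℂ K → ℚ} (hΔ : Effective y Δ)
    (hG : ∀ P, IsPrimeDivisor y P → (G P : ℚ) = b * Δ P) {A : Place ℂ K → ℚ}
    (hA : Effective y A) :
    ∃ A' : Place ℂ M → ℚ, Effective S.v A' ∧ Integral S.v A' ∧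
      numericalDim y n Δ A ≤ numericalDim S.v (n + r) 0 A' := by
  classical
  have hessK := S.essK
  have hessM := S.essM
  have hb1 : 1 ≤ b := by
    have := h.hb
    omega
  have h2b : 1 ≤ 2 * b := by omega
  obtain ⟨x, E, hx, hE⟩ := exists_crd h.trK
  obtain ⟨xM, hxM⟩ : ∃ xM : Fin n → M, xM = fun i => algebraMap K M (x i) := ⟨_, rfl⟩
  obtain ⟨τ, hτ⟩ : ∃ τ : (Fin n → Derivation ℂ K K) → K, τ = frm x 1 1 := ⟨_, rfl⟩
  have hτp : IsPluri 1 τ := by rw [hτ]; exact frm_pluri x 1 1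
  have hτE : τ E = 1 := by rw [hτ, frm_self hE]
  -- the poles of `τ`
  have hTfin := finite_poles S.ny h.trK (effective_zero y) hτp
  have hex : ∀ P, IsPrimeDivisor y P → ∃ c : ℕ, OrdGe P τ (-(c : ℚ)) := by
    intro P hP
    obtain ⟨c, hc⟩ := exists_ordEq h.trK (hP.divisorial S.ny h.trK) hτp hx hE
      (by rw [hτE]; exact one_ne_zero)
    refine ⟨(-c).toNat, hc.1.mono ?_⟩
    have h1 := Int.self_le_toNat (-c)
    have h2 : -((((-c).toNat : ℕ) : ℤ)) ≤ c := by omega
    exact_mod_cast h2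
  choose! c₀ hc₀ using hex
  obtain ⟨B, hBd⟩ : ∃ B : Place ℂ K → ℚ, B = fun P =>
      if IsPrimeDivisor y P ∧ ¬ OrdGe P τ (-(((1 : ℕ) : ℚ) * (0 : Place ℂ K → ℚ) P)) then
        (c₀ P : ℚ) else 0 := ⟨_, rfl⟩
  have hB : Effective y B := by
    refine ⟨fun P _ => ?_, hTfin.subset ?_⟩
    · rw [hBd]
      dsimp only
      split_ifs
      · exact Nat.cast_nonneg _
      · exact le_rfl
    · rintro P ⟨hP, hP0⟩
      by_contra h1
      apply hP0
      rw [hBd]
      exact if_neg h1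
  have hτs : IsSection y n 1 B τ := by
    refine ⟨hτp, fun P hP => ?_⟩
    by_cases h1 : OrdGe P τ (-(((1 : ℕ) : ℚ) * (0 : Place ℂ K → ℚ) P))
    · have h2 : B P = 0 := by
        rw [hBd]
        exact if_neg fun h3 => h3.2 h1
      rw [h2]
      simpa using h1
    · have h2 : B P = c₀ P := by
        rw [hBd]
        exact if_pos ⟨hP, h1⟩
      rw [h2]
      exact hc₀ P hP
  -- the divisor on the base
  obtain ⟨A₂, hA₂⟩ : ∃ A₂ : Place ℂ K → ℚ, A₂ = fun P => A P + (2 * b : ℕ) * B P := ⟨_, rfl⟩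
  have hA₂0 : ∀ P, IsPrimeDivisor y P → 0 ≤ A₂ P := by
    intro P hP
    rw [hA₂]
    exact add_nonneg (hA.1 P hP) (mul_nonneg (Nat.cast_nonneg _) (hB.1 P hP))
  have hA₂fin : {P | IsPrimeDivisor y P ∧ A₂ P ≠ 0}.Finite := by
    refine (hA.2.union hB.2).subset ?_
    rintro P ⟨hP, h0⟩
    by_contra h1
    rw [Set.mem_union] at h1
    push Not at h1
    apply h0
    have e1 : A P = 0 := by
      by_contra h2
      exact h1.1 ⟨hP, h2⟩
    have e2 : B P = 0 := by
      by_contra h2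
      exact h1.2 ⟨hP, h2⟩
    rw [hA₂]
    simp only [e1, e2, mul_zero, add_zero]
  -- the divisor on the covering space
  obtain ⟨A', hA'⟩ : ∃ A' : Place ℂ M → ℚ, A' = fun P =>
      if hq : ∃ Q, IsPrimeDivisor y Q ∧ ∀ f, P.ord (algebraMap K M f) = Q.ord f then
        (⌈A₂ hq.choose⌉ : ℚ) else 0 := ⟨_, rfl⟩
  have hA'eq : ∀ P Q, IsPrimeDivisor y Q → (∀ f, P.ord (algebraMap K M f) = Q.ord f) →
      A' P = ⌈A₂ Q⌉ := by
    intro P Q hQ hPQ
    have hq : ∃ Q, IsPrimeDivisor y Q ∧ ∀ f, P.ord (algebraMap K M f) = Q.ord f := ⟨Q, hQ, hPQ⟩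
    have h1 : hq.choose = Q := by
      apply Place.ext
      funext f
      rw [← hq.choose_spec.2 f, hPQ f]
    rw [hA']
    dsimp only
    rw [dif_pos hq, h1]
  have hA'0 : ∀ P, 0 ≤ A' P := by
    intro P
    by_cases hq : ∃ Q, IsPrimeDivisor y Q ∧ ∀ f, P.ord (algebraMap K M f) = Q.ord f
    · obtain ⟨Q, hQ, hPQ⟩ := hq
      rw [hA'eq P Q hQ hPQ]
      exact_mod_cast Int.ceil_nonneg (hA₂0 Q hQ)
    · rw [hA']
      dsimp only
      rw [dif_neg hq]
  have hA'int : Integral S.v A' := by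
    intro P _
    by_cases hq : ∃ Q, IsPrimeDivisor y Q ∧ ∀ f, P.ord (algebraMap K M f) = Q.ord f
    · obtain ⟨Q, hQ, hPQ⟩ := hq
      exact ⟨_, hA'eq P Q hQ hPQ⟩
    · refine ⟨0, ?_⟩
      rw [hA']
      dsimp only
      rw [dif_neg hq]
      simp
  have hA'eff : Effective S.v A' := by
    refine ⟨fun P _ => hA'0 P, ?_⟩
    obtain ⟨π, hπ⟩ : ∃ π : Place ℂ K → K, ∀ Q : Place ℂ K, π Q ≠ 0 ∧ Q.ord (π Q) = 1 :=
      ⟨fun Q => Q.surj.choose, fun Q => Q.surj.choose_spec⟩
    refine (hA₂fin.biUnion fun Q _ => finite_ord S.nv (f := algebraMap K M (π Q)) (by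
      rw [Ne, map_eq_zero]
      exact (hπ Q).1)).subset ?_
    rintro P ⟨hP, h0⟩
    by_cases hq : ∃ Q, IsPrimeDivisor y Q ∧ ∀ f, P.ord (algebraMap K M f) = Q.ord f
    · obtain ⟨Q, hQ, hPQ⟩ := hq
      rw [hA'eq P Q hQ hPQ] at h0
      rw [Set.mem_iUnion₂]
      refine ⟨Q, ⟨hQ, fun h1 => h0 ?_⟩, hP, ?_⟩
      · rw [h1]
        simp
      · rw [hPQ, (hπ Q).2]
        exact one_ne_zero
    · exfalso
      apply h0
      rw [hA']
      dsimp only
      rw [dif_neg hq]
  refine ⟨A', hA'eff, hA'int, ?_⟩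
  -- comparison
  unfold numericalDim
  refine nu_mono (f := fun m => 2 * (b * ((m + (2 * b - 1)) / (2 * b)))) (c := 2 * b)
    (h₁ := fun m => h0 y n m (m • Δ + A))
    (h₂ := fun m => h0 S.v (n + r) m (m • (0 : Place ℂ M → ℚ) + A')) (fun m => ?_) ?_
  · have e1 : 2 * (b * ((m + (2 * b - 1)) / (2 * b))) =
        2 * b * ((m + (2 * b - 1)) / (2 * b)) := by ring
    rw [e1]
    have h1 := Nat.div_add_mod (m + (2 * b - 1)) (2 * b)
    have h2 := Nat.mod_lt (m + (2 * b - 1)) (show 0 < 2 * b by omega)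
    constructor
    · omega
    · omega
  · rintro m ⟨hm, -⟩
    obtain ⟨R, hR⟩ : ∃ R, R = (m + (2 * b - 1)) / (2 * b) := ⟨_, rfl⟩
    have hfm : m ≤ 2 * (b * R) ∧ 2 * (b * R) ≤ m + 2 * b := by
      have e1 : 2 * (b * R) = 2 * b * ((m + (2 * b - 1)) / (2 * b)) := by
        rw [hR]
        ring
      have h1 := Nat.div_add_mod (m + (2 * b - 1)) (2 * b)
      have h2 := Nat.mod_lt (m + (2 * b - 1)) (show 0 < 2 * b by omega)
      rw [e1]
      constructor
      · omega
      · omega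
    rw [← hR]
    obtain ⟨j, hj⟩ : ∃ j, 2 * (b * R) = m + j := ⟨2 * (b * R) - m, by omega⟩
    have hj2 : j ≤ 2 * b := by omega
    have hpos : 1 ≤ 2 * (b * R) := by omega
    refine ⟨⟨hpos, ?_⟩, ?_⟩
    · intro P hP
      obtain ⟨w, hw⟩ := hA'int P hP
      refine ⟨w, ?_⟩
      rw [Pi.add_apply, hw, smul_zero]
      simp
    have hfinM := fin_sec S.nv h.trM (effective_zero _) hA'eff (m := 2 * (b * R)) hpos
    rw [Y172.h0_eq, Y172.h0_eq]
    have hη : ∀ ω : secSub y n m (m • Δ + A), IsPluri (2 * (b * R))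
        (fun D => (ω : (Fin n → Derivation ℂ K K) → K) D * τ D ^ j) ∧ ∀ D, IsPrimeDivisor y D →
        OrdGe D (fun D => (ω : (Fin n → Derivation ℂ K K) → K) D * τ D ^ j)
          (-(((2 * (b * R) : ℕ) : ℚ) * Δ D + A₂ D)) := by
      intro ω
      have h1 := IsSection.mul ω.2 (hτs.pow j)
      refine ⟨?_, fun D hD => (h1.2 D hD).mono ?_⟩
      · have h2 := h1.1
        rw [mul_one, ← hj] at h2
        exact h2
      · have e3 : (m • Δ + A + j • B) D = m * Δ D + A D + j * B D := by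
          rw [Pi.add_apply, Pi.add_apply, Pi.smul_apply, Pi.smul_apply, nsmul_eq_mul,
            nsmul_eq_mul]
        rw [e3, hA₂, hj]
        have h3 : (0 : ℚ) ≤ Δ D := hΔ.1 D hD
        have h4 : (0 : ℚ) ≤ B D := hB.1 D hD
        have h5 : (j : ℚ) ≤ (2 * b : ℕ) := by exact_mod_cast hj2
        have h6 : (j : ℚ) * B D ≤ (2 * b : ℕ) * B D := mul_le_mul_of_nonneg_right h5 h4
        have h7 : (0 : ℚ) ≤ j * Δ D := mul_nonneg (Nat.cast_nonneg _) h3
        push_cast at h6 ⊢
        linarith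
    let φ : secSub y n m (m • Δ + A) →ₗ[ℂ]
        secSub S.v (n + r) (2 * (b * R)) ((2 * (b * R)) • (0 : Place ℂ M → ℚ) + A') :=
      { toFun := fun ω => ⟨th S.lM b R xM
          (algebraMap K M ((ω : (Fin n → Derivation ℂ K K) → K) E)),
          th_pluri S.sysM _ _ _ _, fun P hP => by
            have h1 := h.sec_up (A := A₂) (B := A') hG (fun P Q hP hQ hPQ => by
                rw [hA'eq P Q hQ hPQ]
                exact_mod_cast Int.floor_le_ceil (A₂ Q))
              (fun P _ => hA'0 P) hx hE (hη ω).1 (hη ω).2 P hP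
            have e1 : ((2 * (b * R)) • (0 : Place ℂ M → ℚ) + A') P = A' P := by
              rw [smul_zero, zero_add]
            rw [e1, hxM]
            simp only [hτE, one_pow, mul_one] at h1
            exact h1⟩
        map_add' := fun ω ω' => by
          apply Subtype.ext
          funext D
          change th S.lM b R xM (algebraMap K M ((ω : (Fin n → Derivation ℂ K K) → K) E +
            (ω' : (Fin n → Derivation ℂ K K) → K) E)) D =
            th S.lM b R xM (algebraMap K M ((ω : (Fin n → Derivation ℂ K K) → K) E)) D +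
            th S.lM b R xM (algebraMap K M ((ω' : (Fin n → Derivation ℂ K K) → K) E)) D
          unfold th
          rw [map_add]
          ring
        map_smul' := fun a ω => by
          apply Subtype.ext
          funext D
          change th S.lM b R xM (algebraMap K M (a • (ω : (Fin n → Derivation ℂ K K) → K) E)) D =
            a • th S.lM b R xM (algebraMap K M ((ω : (Fin n → Derivation ℂ K K) → K) E)) D
          generalize (ω : (Fin n → Derivation ℂ K K) → K) E = w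
          rw [Algebra.smul_def, map_mul, ← IsScalarTower.algebraMap_apply ℂ K M, th_mul,
            Algebra.smul_def] }
    refine LinearMap.finrank_le_finrank_of_injective (f := φ) ?_
    rw [← LinearMap.ker_eq_bot, LinearMap.ker_eq_bot']
    intro ω hω
    apply Subtype.ext
    apply pluri_zero (frame_dual hx hE) ω.2.1
    by_contra h0
    have h1 := congrArg Subtype.val hω
    have h2 : th S.lM b R xM (algebraMap K M ((ω : (Fin n → Derivation ℂ K K) → K) E)) = 0 := h1
    have hbas : IsTranscendenceBasis ℂ (Fin.append (fun i => algebraMap K M (x i))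
        (ts S.lM (sA 0)) : Fin (n + r) → M) := by
      refine append_basis hx ?_
      have h1 : IsTranscendenceBasis K (algebraMap L M ∘ ts S.l (sA 0)) :=
        (Gens_basis (gens_ts S.sys S.gens (sA 0))).algebraMap_comp
      have h2 : ts S.lM (sA 0) = algebraMap L M ∘ ts S.l (sA 0) := by
        funext p
        exact ts_up _ _
      rw [h2]
      exact h1
    choose F hF using fun u : Fin (n + r) => exists_der (L := ℂ) _ hbas
      (fun v => if u = v then (1 : M) else 0)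
    have h3 := congrFun h2 F
    rw [hxM, th_self S.sysM (i := 0) (Or.inl rfl) hF] at h3
    exact div_ne_zero (mul_ne_zero (pow_ne_zero _ (S.sysM.ne _)) (by
      rwa [Ne, map_eq_zero]))
      (pow_ne_zero _ (Finset.prod_ne_zero_iff.2 fun k _ => S.sysM.ne k)) h3

end

end Pool.Agent.H890
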