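import Pool.Agent.H890.Gn1
import Pool.Agent.H890.Kap2

/-!
Coverings of projective bundles: Kodaira dimension and numerical dimension.
-/

set_option autoImplicit false
set_option linter.unusedSectionVars false
set_option linter.overlappingInstances false

open FF MvPolynomial Filter Pool.Agent.W602.GT Pool.Agent.W603.LV Pool.Agent.Y172
  Pool.Agent.TH122.AB Pool.Agent.R887

namespace Pool.Agent.H890

section

variable {K L M : Type} [Field K] [Field L] [Field M] [Algebra ℂ K] [Algebra ℂ L]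
  [Algebra ℂ M] [Algebra K L] [Algebra L M] [Algebra K M] [IsScalarTower ℂ K L]
  [IsScalarTower ℂ L M] [IsScalarTower ℂ K M] [IsScalarTower K L M] [FiniteDimensional L M]
  {N : ℕ} {y : Fin (N + 1) → K} {n r : ℕ} {G : Place ℂ K → ℤ}
  {S : Mod K L M y n r G} {b : ℕ} {Γ : Place ℂ K → ℤ}
  {T : ℕ → (Fin n → K) → K → (Fin (n + r) → Derivation ℂ M M) → M}

/-- **The sections on the covering space come from the base.** -/
theorem CovG.sec_down (h : CovG S b Γ T) {Δ : Place ℂ K → ℚ}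
    (hG : ∀ P, IsPrimeDivisor y P → (Γ P : ℚ) = b * Δ P) (hlc : QCar y n Δ)
    {x : Fin n → K} {E : Fin n → Derivation ℂ K K} (hx : IsTranscendenceBasis ℂ x)
    (hE : ∀ i j, E i (x j) = if i = j then 1 else 0) {R : ℕ}
    {W : (Fin (n + r) → Derivation ℂ M M) → M} (hWp : IsPluri (2 * (b * R)) W)
    (hWge : ∀ P', IsPrimeDivisor S.v P' → OrdGe P' W 0) :
    ∃ a : K, W = T R x a ∧
      ∀ D, IsPrimeDivisor y D →
        OrdGe D (frm x (2 * (b * R)) a) (-(((2 * (b * R) : ℕ) : ℚ) * Δ D)) := by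
  classical
  have hessK := S.essK
  have hessM := S.essM
  obtain ⟨θ, hθ⟩ : ∃ θ, θ = T R x 1 :=
    ⟨_, rfl⟩
  have hθp : IsPluri (2 * (b * R)) θ := by
    rw [hθ]
    exact h.pluri _ _ _
  have hbas := S.basM (L := L) (M := M) hx
  choose F hF using fun u : Fin (n + r) => exists_der (L := ℂ) _ hbas
    (fun v => if u = v then (1 : M) else 0)
  have hθF : θ F ≠ 0 := by
    rw [hθ]
    exact h.ne R x 1 hx one_ne_zero F hF
  obtain ⟨g, hg⟩ : ∃ g, g = W F / θ F := ⟨_, rfl⟩
  have hWθ : W = fun D => g * θ D := by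
    funext D
    rw [pluri_coord hbas hF hWp D, pluri_coord hbas hF hθp D, hg]
    field_simp
  obtain ⟨a, hga⟩ := h.const (g := g) fun P' hP' htr => by
    have h1 := hWge P' hP'
    rw [hWθ] at h1
    have h2 := h.hor hP' htr R hx hE (one_ne_zero (α := K))
    rw [← hθ] at h2
    rcases ratio_ge h2 h1 with h3 | h3
    · rw [h3]
      exact P'.reg_zero
    · right
      have h4 : (0 : ℚ) ≤ P'.ord g := by linarith
      exact_mod_cast h4
  have hWa : W = T R x a := by
    rw [hWθ, hga, hθ]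
    funext D
    rw [← h.mul, mul_one]
  refine ⟨a, hWa, fun D hD => ?_⟩
  by_cases ha : a = 0
  · intro F' _
    left
    rw [ha]
    unfold frm
    rw [mul_zero]
  rw [hWa] at hWge
  have hηp := frm_pluri x (2 * (b * R)) a
  have hηE : frm x (2 * (b * R)) a E ≠ 0 := by rwa [frm_self hE]
  have hcast : (-(((2 * (b * R) : ℕ) : ℚ) * Δ D)) = ((-(2 * R * Γ D) : ℤ) : ℚ) := by
    push_cast
    rw [hG D hD]
    ring
  have hDd := hD.divisorial S.ny h.trK
  obtain ⟨c, hc⟩ := exists_ordEq h.trK hDd hηp hx hE hηE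
  obtain ⟨P₂, e₂, -, hP₂⟩ := h.exists_over hDd
  obtain ⟨q, κ, hq, -, hκ, h1, -⟩ := h.compare hG hlc hx hE ha hWge hDd hP₂
  have h2 := h1 D hD (fun f hf => localRing_reg hf) c hc
  have h3 : (0 : ℤ) < q := by exact_mod_cast hq
  rw [hcast]
  refine hc.1.mono ?_
  have h4 : -(2 * R * Γ D) ≤ c := by nlinarith
  exact_mod_cast h4

/-- **The sections on the base give sections on the covering space.** -/
theorem CovG.sec_up (h : CovG S b Γ T) {Δ A : Place ℂ K → ℚ} {B : Place ℂ M → ℚ}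
    (hG : ∀ P, IsPrimeDivisor y P → (Γ P : ℚ) = b * Δ P)
    (hB : ∀ P Q, IsPrimeDivisor S.v P → IsPrimeDivisor y Q →
      (∀ f, P.ord (algebraMap K M f) = Q.ord f) → (⌊A Q⌋ : ℚ) ≤ B P)
    (hB0 : ∀ P, IsPrimeDivisor S.v P → 0 ≤ B P)
    {x : Fin n → K} {E : Fin n → Derivation ℂ K K} (hx : IsTranscendenceBasis ℂ x)
    (hE : ∀ i j, E i (x j) = if i = j then 1 else 0) {R : ℕ}
    {η : (Fin n → Derivation ℂ K K) → K} (hη : IsPluri (2 * (b * R)) η)
    (hηge : ∀ D, IsPrimeDivisor y D →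
      OrdGe D η (-(((2 * (b * R) : ℕ) : ℚ) * Δ D + A D))) :
    ∀ P', IsPrimeDivisor S.v P' →
      OrdGe P' (T R x (η E)) (-(B P')) := by
  classical
  have hessK := S.essK
  have hessM := S.essM
  intro P' hP'
  by_cases hηE : η E = 0
  · intro F' _
    left
    rw [hηE, h.zero]
  by_cases htr : ∀ f : K, P'.ord (algebraMap K M f) = 0
  · refine (h.hor hP' htr R hx hE hηE).1.mono ?_
    have := hB0 P' hP'
    linarith
  · push Not at htr
    obtain ⟨e', D, hPD⟩ := FF.exists_over P' htr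
    obtain ⟨hD, hDd, hord, hDθ⟩ := h.ver hP' hPD
    obtain ⟨c', hc'⟩ := exists_ordEq h.trK hDd hη hx hE hηE
    have h1 := hDθ R η hη c' hc' x E hx hE
    have h2 := ordEq_le h.trK hDd hη hc' (hηge D hD)
    have h3 : -(2 * R * Γ D) - ⌊A D⌋ ≤ c' := by
      have h4 : (-(((2 * (b * R) : ℕ) : ℚ) * Δ D + A D)) = -(2 * R * (Γ D : ℚ)) - A D := by
        rw [hG D hD]
        push_cast
        ring
      rw [h4] at h2
      have h5 : -(2 * R * (Γ D : ℚ)) - c' ≤ A D := by linarith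
      have h6 : ((-(2 * R * Γ D) - c' : ℤ) : ℚ) ≤ A D := by
        push_cast
        exact h5
      have h7 := Int.le_floor.2 h6
      linarith
    refine h1.1.mono ?_
    have h8 := hB P' D hP' hD hord
    have h9 : -(2 * R * (Γ D : ℚ)) - ⌊A D⌋ ≤ c' := by exact_mod_cast h3
    push_cast
    linarith

/-- **The number of sections.** -/
theorem CovG.h0_eq (h : CovG S b Γ T) {Δ : Place ℂ K → ℚ}
    (hG : ∀ P, IsPrimeDivisor y P → (Γ P : ℚ) = b * Δ P) (hlc : QCar y n Δ) (R : ℕ) :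
    h0 S.v (n + r) (2 * (b * R)) ((2 * (b * R)) • (0 : Place ℂ M → ℚ)) =
      h0 y n (2 * (b * R)) ((2 * (b * R)) • Δ) := by
  classical
  have hessK := S.essK
  have hessM := S.essM
  obtain ⟨x, E, hx, hE⟩ := exists_crd h.trK
  have e0 : ∀ D, ((2 * (b * R)) • Δ) D = ((2 * (b * R) : ℕ) : ℚ) * Δ D := fun D => by
    rw [Pi.smul_apply, nsmul_eq_mul]
  have e1 : ∀ P : Place ℂ M, ((2 * (b * R)) • (0 : Place ℂ M → ℚ)) P = 0 := fun P => by
    rw [smul_zero]
    rfl
  rw [Y172.h0_eq, Y172.h0_eq]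
  symm
  let φ : secSub y n (2 * (b * R)) ((2 * (b * R)) • Δ) →ₗ[ℂ]
      secSub S.v (n + r) (2 * (b * R)) ((2 * (b * R)) • (0 : Place ℂ M → ℚ)) :=
    { toFun := fun ω => ⟨T R x (((ω : (Fin n → Derivation ℂ K K) → K) E)),
        h.pluri _ _ _, fun P hP => by
          have h1 := h.sec_up (A := 0) (B := 0) hG (fun P Q _ _ _ => by simp)
            (fun P _ => le_rfl) hx hE ω.2.1 (fun D hD => by
              have h2 := ω.2.2 D hD
              rw [e0] at h2
              simpa using h2) P hP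
          rw [e1]
          exact h1⟩
      map_add' := fun ω ω' => by
        apply Subtype.ext
        funext D
        change T R x (((ω : (Fin n → Derivation ℂ K K) → K) E +
          (ω' : (Fin n → Derivation ℂ K K) → K) E)) D =
          T R x (((ω : (Fin n → Derivation ℂ K K) → K) E)) D +
          T R x (((ω' : (Fin n → Derivation ℂ K K) → K) E)) D
        exact h.add _ _ _ _ _
      map_smul' := fun a ω => by
        apply Subtype.ext
        funext D
        change T R x ((a • (ω : (Fin n → Derivation ℂ K K) → K) E)) D =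
          a • T R x (((ω : (Fin n → Derivation ℂ K K) → K) E)) D
        generalize (ω : (Fin n → Derivation ℂ K K) → K) E = w
        rw [Algebra.smul_def, h.mul, ← IsScalarTower.algebraMap_apply ℂ K M, Algebra.smul_def] }
  refine (LinearEquiv.ofBijective φ ⟨?_, ?_⟩).finrank_eq
  · rw [← LinearMap.ker_eq_bot, LinearMap.ker_eq_bot']
    intro ω hω
    apply Subtype.ext
    apply pluri_zero (frame_dual hx hE) ω.2.1
    by_contra h0
    have h1 := congrArg Subtype.val hω
    have h2 : T R x (((ω : (Fin n → Derivation ℂ K K) → K) E)) = 0 := h1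
    have hbas := S.basM (L := L) (M := M) hx
    choose F hF using fun u : Fin (n + r) => exists_der (L := ℂ) _ hbas
      (fun v => if u = v then (1 : M) else 0)
    exact h.ne R x _ hx h0 F hF (congrFun h2 F)
  · rintro ⟨W, hWp, hWge⟩
    obtain ⟨a, hW, ha⟩ := h.sec_down hG hlc hx hE hWp (fun P' hP' => by
      have h1 := hWge P' hP'
      rw [e1, neg_zero] at h1
      exact h1)
    refine ⟨⟨frm x (2 * (b * R)) a, frm_pluri x _ _, fun D hD => ?_⟩, ?_⟩
    · rw [e0]
      exact ha D hD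
    · apply Subtype.ext
      change T R x ((frm x (2 * (b * R)) a E)) = W
      rw [frm_self hE, hW]

/-- **The Kodaira dimension of the covering space.** -/
theorem CovG.kappa (h : CovG S b Γ T) {Δ : Place ℂ K → ℚ} (hΔ : Effective y Δ)
    (hG : ∀ P, IsPrimeDivisor y P → (Γ P : ℚ) = b * Δ P) (hlc : QCar y n Δ) :
    kodairaDim S.v (n + r) 0 = kodairaDim y n Δ := by
  classical
  have hb1 : 1 ≤ b := h.b1
  have h2b : 1 ≤ 2 * b := by omega
  have hassoc : ∀ m, 2 * b * m = 2 * (b * m) := fun m => by ring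
  have heq : ∀ m, h0 S.v (n + r) (2 * b * m) ((2 * b * m) • (0 : Place ℂ M → ℚ)) =
      h0 y n (2 * b * m) ((2 * b * m) • Δ) := by
    intro m
    rw [hassoc]
    exact h.h0_eq hG hlc m
  have hint : ∀ m : ℕ, Integral y ((2 * b * m) • Δ) := by
    intro m P hP
    refine ⟨2 * m * Γ P, ?_⟩
    rw [Pi.smul_apply, nsmul_eq_mul]
    push_cast
    rw [hG P hP]
    ring
  have hint0 : ∀ m : ℕ, Integral S.v (m • (0 : Place ℂ M → ℚ)) := by
    intro m P _
    refine ⟨0, ?_⟩
    rw [smul_zero]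
    simp
  have hup : ∀ m, 1 ≤ m → h0 y n m (m • Δ) ≤
      h0 S.v (n + r) (2 * b * m) ((2 * b * m) • (0 : Place ℂ M → ℚ)) := by
    intro m hm
    rw [heq]
    exact h0_mul_le S.ny h.trK hΔ hm h2b
  have hdn : ∀ m, 1 ≤ m → h0 S.v (n + r) m (m • (0 : Place ℂ M → ℚ)) ≤
      h0 y n (2 * b * m) ((2 * b * m) • Δ) := by
    intro m hm
    rw [← heq]
    exact h0_mul_le S.nv h.trM (effective_zero _) hm h2b
  unfold kodairaDim
  have hiff : (∀ m : ℕ, 1 ≤ m → Integral S.v (m • (0 : Place ℂ M → ℚ)) →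
      h0 S.v (n + r) m (m • (0 : Place ℂ M → ℚ)) = 0) ↔
      ∀ m : ℕ, 1 ≤ m → Integral y (m • Δ) → h0 y n m (m • Δ) = 0 := by
    constructor
    · intro h1 m hm _
      have h2 := h1 (2 * b * m) (Nat.mul_pos h2b hm) (hint0 _)
      have h3 := hup m hm
      rw [h2] at h3
      exact Nat.le_zero.1 h3
    · intro h1 m hm _
      have h2 := h1 (2 * b * m) (Nat.mul_pos h2b hm) (hint _)
      have h3 := hdn m hm
      rw [h2] at h3
      exact Nat.le_zero.1 h3
  have hset : {k : ℕ | 0 < limsup (fun m : ℕ =>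
      (h0 S.v (n + r) m (m • (0 : Place ℂ M → ℚ)) : ENNReal) / (m : ENNReal) ^ k)
      (atTop ⊓ 𝓟 {m : ℕ | 1 ≤ m ∧ Integral S.v (m • (0 : Place ℂ M → ℚ))})} =
      {k : ℕ | 0 < limsup (fun m : ℕ => (h0 y n m (m • Δ) : ENNReal) / (m : ENNReal) ^ k)
      (atTop ⊓ 𝓟 {m : ℕ | 1 ≤ m ∧ Integral y (m • Δ)})} := by
    apply Set.Subset.antisymm
    · intro k hk
      refine kd_pos (c := 2 * b) h2b (h₁ := fun m => h0 S.v (n + r) m (m • (0 : Place ℂ M → ℚ)))
        (h₂ := fun m => h0 y n m (m • Δ)) (fun m hm => ?_) hk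
      exact ⟨hm.1, ⟨Nat.mul_pos h2b hm.1, hint m⟩, hdn m hm.1⟩
    · intro k hk
      refine kd_pos (c := 2 * b) h2b (h₁ := fun m => h0 y n m (m • Δ))
        (h₂ := fun m => h0 S.v (n + r) m (m • (0 : Place ℂ M → ℚ))) (fun m hm => ?_) hk
      exact ⟨hm.1, ⟨Nat.mul_pos h2b hm.1, hint0 _⟩, hup m hm.1⟩
  rw [hset]
  by_cases hc : ∀ m : ℕ, 1 ≤ m → Integral y (m • Δ) → h0 y n m (m • Δ) = 0
  · rw [if_pos hc, if_pos (hiff.2 hc)]
  · rw [if_neg hc, if_neg (fun h' => hc (hiff.1 h'))]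

/-- **The numerical dimension of the covering space.** -/
theorem CovG.nu (h : CovG S b Γ T) {Δ : Place ℂ K → ℚ} (hΔ : Effective y Δ)
    (hG : ∀ P, IsPrimeDivisor y P → (Γ P : ℚ) = b * Δ P) {A : Place ℂ K → ℚ}
    (hA : Effective y A) :
    ∃ A' : Place ℂ M → ℚ, Effective S.v A' ∧ Integral S.v A' ∧
      numericalDim y n Δ A ≤ numericalDim S.v (n + r) 0 A' := by
  classical
  have hessK := S.essK
  have hessM := S.essM
  have hb1 : 1 ≤ b := h.b1
  have h2b : 1 ≤ 2 * b := by omega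
  obtain ⟨x, E, hx, hE⟩ := exists_crd h.trK
  obtain ⟨τ, hτ⟩ : ∃ τ : (Fin n → Derivation ℂ K K) → K, τ = frm x 1 1 := ⟨_, rfl⟩
  have hτp : IsPluri 1 τ := by rw [hτ]; exact frm_pluri x 1 1
  have hτE : τ E = 1 := by rw [hτ, frm_self hE]
  -- the poles of `τ`
  have hTfin := finite_poles S.ny h.trK (effective_zero y) hτp
  have hex : ∀ P, IsPrimeDivisor y P → ∃ c : ℕ, OrdGe P τ (-(c : ℚ)) := by
    intro P hP
    obtain ⟨c, hc⟩ := exists_ordEq h.trK (hP.divisorial S.ny h.trK) hτp hx hE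
      (by rw [hτE]; exact one_ne_zero)
    refine ⟨(-c).toNat, hc.1.mono ?_⟩
    have h1 := Int.self_le_toNat (-c)
    have h2 : -((((-c).toNat : ℕ) : ℤ)) ≤ c := by omega
    exact_mod_cast h2
  choose! c₀ hc₀ using hex
  obtain ⟨B, hBd⟩ : ∃ B : Place ℂ K → ℚ, B = fun P =>
      if IsPrimeDivisor y P ∧ ¬ OrdGe P τ (-(((1 : ℕ) : ℚ) * (0 : Place ℂ K → ℚ) P)) then
        (c₀ P : ℚ) else 0 := ⟨_, rfl⟩
  have hB : Effective y B := by
    refine ⟨fun P _ => ?_, hTfin.subset ?_⟩
    · rw [hBd]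
      dsimp only
      split_ifs
      · exact Nat.cast_nonneg _
      · exact le_rfl
    · rintro P ⟨hP, hP0⟩
      by_contra h1
      apply hP0
      rw [hBd]
      exact if_neg h1
  have hτs : IsSection y n 1 B τ := by
    refine ⟨hτp, fun P hP => ?_⟩
    by_cases h1 : OrdGe P τ (-(((1 : ℕ) : ℚ) * (0 : Place ℂ K → ℚ) P))
    · have h2 : B P = 0 := by
        rw [hBd]
        exact if_neg fun h3 => h3.2 h1
      rw [h2]
      simpa using h1
    · have h2 : B P = c₀ P := by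
        rw [hBd]
        exact if_pos ⟨hP, h1⟩
      rw [h2]
      exact hc₀ P hP
  -- the divisor on the base
  obtain ⟨A₂, hA₂⟩ : ∃ A₂ : Place ℂ K → ℚ, A₂ = fun P => A P + (2 * b : ℕ) * B P := ⟨_, rfl⟩
  have hA₂0 : ∀ P, IsPrimeDivisor y P → 0 ≤ A₂ P := by
    intro P hP
    rw [hA₂]
    exact add_nonneg (hA.1 P hP) (mul_nonneg (Nat.cast_nonneg _) (hB.1 P hP))
  have hA₂fin : {P | IsPrimeDivisor y P ∧ A₂ P ≠ 0}.Finite := by
    refine (hA.2.union hB.2).subset ?_
    rintro P ⟨hP, h0⟩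
    by_contra h1
    rw [Set.mem_union] at h1
    push Not at h1
    apply h0
    have e1 : A P = 0 := by
      by_contra h2
      exact h1.1 ⟨hP, h2⟩
    have e2 : B P = 0 := by
      by_contra h2
      exact h1.2 ⟨hP, h2⟩
    rw [hA₂]
    simp only [e1, e2, mul_zero, add_zero]
  -- the divisor on the covering space
  obtain ⟨A', hA'⟩ : ∃ A' : Place ℂ M → ℚ, A' = fun P =>
      if hq : ∃ Q, IsPrimeDivisor y Q ∧ ∀ f, P.ord (algebraMap K M f) = Q.ord f then
        (⌈A₂ hq.choose⌉ : ℚ) else 0 := ⟨_, rfl⟩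
  have hA'eq : ∀ P Q, IsPrimeDivisor y Q → (∀ f, P.ord (algebraMap K M f) = Q.ord f) →
      A' P = ⌈A₂ Q⌉ := by
    intro P Q hQ hPQ
    have hq : ∃ Q, IsPrimeDivisor y Q ∧ ∀ f, P.ord (algebraMap K M f) = Q.ord f := ⟨Q, hQ, hPQ⟩
    have h1 : hq.choose = Q := by
      apply Place.ext
      funext f
      rw [← hq.choose_spec.2 f, hPQ f]
    rw [hA']
    dsimp only
    rw [dif_pos hq, h1]
  have hA'0 : ∀ P, 0 ≤ A' P := by
    intro P
    by_cases hq : ∃ Q, IsPrimeDivisor y Q ∧ ∀ f, P.ord (algebraMap K M f) = Q.ord f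
    · obtain ⟨Q, hQ, hPQ⟩ := hq
      rw [hA'eq P Q hQ hPQ]
      exact_mod_cast Int.ceil_nonneg (hA₂0 Q hQ)
    · rw [hA']
      dsimp only
      rw [dif_neg hq]
  have hA'int : Integral S.v A' := by
    intro P _
    by_cases hq : ∃ Q, IsPrimeDivisor y Q ∧ ∀ f, P.ord (algebraMap K M f) = Q.ord f
    · obtain ⟨Q, hQ, hPQ⟩ := hq
      exact ⟨_, hA'eq P Q hQ hPQ⟩
    · refine ⟨0, ?_⟩
      rw [hA']
      dsimp only
      rw [dif_neg hq]
      simp
  have hA'eff : Effective S.v A' := by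
    refine ⟨fun P _ => hA'0 P, ?_⟩
    obtain ⟨π, hπ⟩ : ∃ π : Place ℂ K → K, ∀ Q : Place ℂ K, π Q ≠ 0 ∧ Q.ord (π Q) = 1 :=
      ⟨fun Q => Q.surj.choose, fun Q => Q.surj.choose_spec⟩
    refine (hA₂fin.biUnion fun Q _ => finite_ord S.nv (f := algebraMap K M (π Q)) (by
      rw [Ne, map_eq_zero]
      exact (hπ Q).1)).subset ?_
    rintro P ⟨hP, h0⟩
    by_cases hq : ∃ Q, IsPrimeDivisor y Q ∧ ∀ f, P.ord (algebraMap K M f) = Q.ord f
    · obtain ⟨Q, hQ, hPQ⟩ := hq
      rw [hA'eq P Q hQ hPQ] at h0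
      rw [Set.mem_iUnion₂]
      refine ⟨Q, ⟨hQ, fun h1 => h0 ?_⟩, hP, ?_⟩
      · rw [h1]
        simp
      · rw [hPQ, (hπ Q).2]
        exact one_ne_zero
    · exfalso
      apply h0
      rw [hA']
      dsimp only
      rw [dif_neg hq]
  refine ⟨A', hA'eff, hA'int, ?_⟩
  -- comparison
  unfold numericalDim
  refine nu_mono (f := fun m => 2 * (b * ((m + (2 * b - 1)) / (2 * b)))) (c := 2 * b)
    (h₁ := fun m => h0 y n m (m • Δ + A))
    (h₂ := fun m => h0 S.v (n + r) m (m • (0 : Place ℂ M → ℚ) + A')) (fun m => ?_) ?_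
  · have e1 : 2 * (b * ((m + (2 * b - 1)) / (2 * b))) =
        2 * b * ((m + (2 * b - 1)) / (2 * b)) := by ring
    rw [e1]
    have h1 := Nat.div_add_mod (m + (2 * b - 1)) (2 * b)
    have h2 := Nat.mod_lt (m + (2 * b - 1)) (show 0 < 2 * b by omega)
    constructor
    · omega
    · omega
  · rintro m ⟨hm, -⟩
    obtain ⟨R, hR⟩ : ∃ R, R = (m + (2 * b - 1)) / (2 * b) := ⟨_, rfl⟩
    have hfm : m ≤ 2 * (b * R) ∧ 2 * (b * R) ≤ m + 2 * b := by
      have e1 : 2 * (b * R) = 2 * b * ((m + (2 * b - 1)) / (2 * b)) := by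
        rw [hR]
        ring
      have h1 := Nat.div_add_mod (m + (2 * b - 1)) (2 * b)
      have h2 := Nat.mod_lt (m + (2 * b - 1)) (show 0 < 2 * b by omega)
      rw [e1]
      constructor
      · omega
      · omega
    rw [← hR]
    obtain ⟨j, hj⟩ : ∃ j, 2 * (b * R) = m + j := ⟨2 * (b * R) - m, by omega⟩
    have hj2 : j ≤ 2 * b := by omega
    have hpos : 1 ≤ 2 * (b * R) := by omega
    refine ⟨⟨hpos, ?_⟩, ?_⟩
    · intro P hP
      obtain ⟨w, hw⟩ := hA'int P hP
      refine ⟨w, ?_⟩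
      rw [Pi.add_apply, hw, smul_zero]
      simp
    have hfinM := fin_sec S.nv h.trM (effective_zero _) hA'eff (m := 2 * (b * R)) hpos
    rw [Y172.h0_eq, Y172.h0_eq]
    have hη : ∀ ω : secSub y n m (m • Δ + A), IsPluri (2 * (b * R))
        (fun D => (ω : (Fin n → Derivation ℂ K K) → K) D * τ D ^ j) ∧ ∀ D, IsPrimeDivisor y D →
        OrdGe D (fun D => (ω : (Fin n → Derivation ℂ K K) → K) D * τ D ^ j)
          (-(((2 * (b * R) : ℕ) : ℚ) * Δ D + A₂ D)) := by
      intro ω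
      have h1 := IsSection.mul ω.2 (hτs.pow j)
      refine ⟨?_, fun D hD => (h1.2 D hD).mono ?_⟩
      · have h2 := h1.1
        rw [mul_one, ← hj] at h2
        exact h2
      · have e3 : (m • Δ + A + j • B) D = m * Δ D + A D + j * B D := by
          rw [Pi.add_apply, Pi.add_apply, Pi.smul_apply, Pi.smul_apply, nsmul_eq_mul,
            nsmul_eq_mul]
        rw [e3, hA₂, hj]
        have h3 : (0 : ℚ) ≤ Δ D := hΔ.1 D hD
        have h4 : (0 : ℚ) ≤ B D := hB.1 D hD
        have h5 : (j : ℚ) ≤ (2 * b : ℕ) := by exact_mod_cast hj2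
        have h6 : (j : ℚ) * B D ≤ (2 * b : ℕ) * B D := mul_le_mul_of_nonneg_right h5 h4
        have h7 : (0 : ℚ) ≤ j * Δ D := mul_nonneg (Nat.cast_nonneg _) h3
        push_cast at h6 ⊢
        linarith
    let φ : secSub y n m (m • Δ + A) →ₗ[ℂ]
        secSub S.v (n + r) (2 * (b * R)) ((2 * (b * R)) • (0 : Place ℂ M → ℚ) + A') :=
      { toFun := fun ω => ⟨T R x (((ω : (Fin n → Derivation ℂ K K) → K) E)),
          h.pluri _ _ _, fun P hP => by
            have h1 := h.sec_up (A := A₂) (B := A') hG (fun P Q hP hQ hPQ => by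
                rw [hA'eq P Q hQ hPQ]
                exact_mod_cast Int.floor_le_ceil (A₂ Q))
              (fun P _ => hA'0 P) hx hE (hη ω).1 (hη ω).2 P hP
            have e1 : ((2 * (b * R)) • (0 : Place ℂ M → ℚ) + A') P = A' P := by
              rw [smul_zero, zero_add]
            rw [e1]
            simp only [hτE, one_pow, mul_one] at h1
            exact h1⟩
        map_add' := fun ω ω' => by
          apply Subtype.ext
          funext D
          change T R x (((ω : (Fin n → Derivation ℂ K K) → K) E +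
            (ω' : (Fin n → Derivation ℂ K K) → K) E)) D =
            T R x (((ω : (Fin n → Derivation ℂ K K) → K) E)) D +
            T R x (((ω' : (Fin n → Derivation ℂ K K) → K) E)) D
          exact h.add _ _ _ _ _
        map_smul' := fun a ω => by
          apply Subtype.ext
          funext D
          change T R x ((a • (ω : (Fin n → Derivation ℂ K K) → K) E)) D =
            a • T R x (((ω : (Fin n → Derivation ℂ K K) → K) E)) D
          generalize (ω : (Fin n → Derivation ℂ K K) → K) E = w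
          rw [Algebra.smul_def, h.mul, ← IsScalarTower.algebraMap_apply ℂ K M, Algebra.smul_def] }
    refine LinearMap.finrank_le_finrank_of_injective (f := φ) ?_
    rw [← LinearMap.ker_eq_bot, LinearMap.ker_eq_bot']
    intro ω hω
    apply Subtype.ext
    apply pluri_zero (frame_dual hx hE) ω.2.1
    by_contra h0
    have h1 := congrArg Subtype.val hω
    have h2 : T R x (((ω : (Fin n → Derivation ℂ K K) → K) E)) = 0 := h1
    have hbas := S.basM (L := L) (M := M) hx
    choose F hF using fun u : Fin (n + r) => exists_der (L := ℂ) _ hbas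
      (fun v => if u = v then (1 : M) else 0)
    exact h.ne R x _ hx h0 F hF (congrFun h2 F)

end

end Pool.Agent.H890
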