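import Pool.Agent.H890.KDefs

/-!
Definitions: weak abundance.
-/

set_option autoImplicit false

open FF Pool.Agent.W602.GT Pool.Agent.Y172 Pool.Agent.R887

namespace Pool.Agent.H890

/-- Weak abundance for the pair `(X, Δ)`, `n` being the dimension of `X`: the numerical dimension of
`K_X + Δ` (with respect to any effective divisor `A`) is at most the Kodaira dimension of `K_X + Δ`,
that is, equal to it if `A` is ample. -/
def WeakAbundance {K : Type} [Field K] [Algebra ℂ K] {N : ℕ} (y : Fin (N + 1) → K) (n : ℕ)
    (Δ : Place ℂ K → ℚ) : Prop :=
  ∀ A : Place ℂ K → ℚ, Effective y A →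
    (kodairaDim y n Δ = ⊥ → numericalDim y n Δ A = ⊥) ∧
      ∀ k : ℕ, kodairaDim y n Δ = k → numericalDim y n Δ A ≤ k

/-- The variety `V` with generic point `v`, of dimension `d`, can replace the pair `(X, Δ)`, `y` being
the generic point and `n` the dimension of `X`, in questions on the Kodaira dimension and on the
numerical dimension: it is normal and projective, it has, without boundary, log canonical
singularities, and klt singularities if `(X, Δ)` is klt, `K_V` and `K_X + Δ` have the same Kodaira
dimension, and the numerical dimension of `K_V` (with respect to a suitable divisor `A'`) is at least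
the numerical dimension of `K_X + Δ` (with respect to any effective divisor `A`). -/
structure WeaklyReplaces {K M : Type} [Field K] [Algebra ℂ K] [Field M] [Algebra ℂ M] {N N' : ℕ}
    (v : Fin (N' + 1) → M) (d : ℕ) (y : Fin (N + 1) → K) (n : ℕ) (Δ : Place ℂ K → ℚ) : Prop where
  normal : NormalModel v
  lc : LogCanonical v d 0
  klt : Klt y n Δ → Klt v d 0
  kappa : kodairaDim v d 0 = kodairaDim y n Δ
  nu : ∀ A, Effective y A → ∃ A', Effective v A' ∧ Integral v A' ∧
    numericalDim y n Δ A ≤ numericalDim v d 0 A'

end Pool.Agent.H890
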