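import Pool.Agent.H890.Top
import Pool.Agent.H890.Kap2
import Pool.Agent.H890.KDefs2

/-!
Weak abundance and nonvanishing for pairs and for varieties without boundary.
-/

set_option autoImplicit false
set_option linter.unusedSectionVars false
set_option linter.overlappingInstances false

open FF MvPolynomial Pool.Agent.W602.GT Pool.Agent.W603.LV Pool.Agent.Y172
  Pool.Agent.TH122.AB Pool.Agent.R887

namespace Pool.Agent.H890

/-- **The covering space.** -/
theorem exists_cov {K L M : Type} [Field K] [Field L] [Field M] [Algebra ℂ K] [Algebra ℂ L]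
    [Algebra ℂ M] [Algebra K L] [Algebra L M] [Algebra K M] [IsScalarTower ℂ K L]
    [IsScalarTower ℂ L M] [IsScalarTower ℂ K M] [IsScalarTower K L M] [FiniteDimensional L M]
    {n b r : ℕ} (hrb : r + 2 = 2 * b) (hr2 : 2 ≤ r) {t : Fin r → L} (ht : Gens (k := K) t) {z : M}
    (hzN : z ^ (r + 2) = algebraMap L M (∏ k, lfs t k ^ sg k))
    (hgen : ∀ x : M, ∃ p : Polynomial L, x = Polynomial.aeval z p)
    (hfin : Module.finrank L M ≤ r + 2) (hn : Algebra.trdeg ℂ K = n) {N : ℕ}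
    {y : Fin (N + 1) → K} (hy : NormalModel y) {Δ : Place ℂ K → ℚ} (hΔ : Effective y Δ)
    (hcar : CartierMul y n b Δ) :
    ∃ G : Place ℂ K → ℤ, (∀ P, IsPrimeDivisor y P → (G P : ℚ) = b * Δ P) ∧
      ∃ S : Mod K L M y n r G, Cov S b z := by
  classical
  -- the Cartier divisor
  obtain ⟨G, hGd⟩ : ∃ G : Place ℂ K → ℤ, G = fun P => ⌊(b : ℚ) * Δ P⌋ := ⟨_, rfl⟩
  have hG : ∀ P, IsPrimeDivisor y P → (G P : ℚ) = b * Δ P := by
    intro P hP
    obtain ⟨g, -, hg⟩ := hcar P (hP.divisorial hy hn)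
    have h1 := hg P hP fun f hf => localRing_reg hf
    rw [hGd]
    change ((⌊(b : ℚ) * Δ P⌋ : ℤ) : ℚ) = _
    rw [← h1, Int.floor_intCast]
  have hGcar : Car y n G := by
    refine ⟨fun P hP => ?_, ?_, fun Q hQ => ?_⟩
    · have h1 : (0 : ℚ) ≤ G P := by
        rw [hG P hP]
        exact mul_nonneg (Nat.cast_nonneg _) (hΔ.1 P hP)
      exact_mod_cast h1
    · refine hΔ.2.subset ?_
      rintro P ⟨hP, h0⟩
      refine ⟨hP, fun h1 => h0 ?_⟩
      have h2 := hG P hP
      rw [h1, mul_zero] at h2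
      exact_mod_cast h2
    · obtain ⟨g, hg0, hg⟩ := hcar Q hQ
      refine ⟨g, hg0, fun P hP hPQ => ?_⟩
      have h1 := hg P hP hPQ
      rw [← hG P hP] at h1
      exact_mod_cast h1
  refine ⟨G, hG, ?_⟩
  have hsys := lfs_sys ht
  -- weights
  obtain ⟨a, ha⟩ : ∃ a : Fin (r + 2), (a : ℕ) = r - 1 := ⟨⟨r - 1, by omega⟩, rfl⟩
  obtain ⟨a', ha'⟩ : ∃ a' : Fin (r + 2), (a' : ℕ) = r := ⟨⟨r, by omega⟩, rfl⟩
  have haa : a ≠ a' := fun h1 => by
    have := congrArg Fin.val h1
    omega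
  have hw01 := wts01 haa
  have hw0 : wts a a' 0 = 0 := by
    unfold wts
    rw [if_neg, if_neg]
    · norm_num
    · intro h1
      have := congrArg Fin.val h1
      simp only [Fin.val_zero] at this
      omega
    · intro h1
      have := congrArg Fin.val h1
      simp only [Fin.val_zero] at this
      omega
  have hwl : wts a a' (Fin.last (r + 1)) = 0 := by
    unfold wts
    rw [if_neg, if_neg]
    · norm_num
    · intro h1
      have := congrArg Fin.val h1
      simp only [Fin.val_last] at this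
      omega
    · intro h1
      have := congrArg Fin.val h1
      simp only [Fin.val_last] at this
      omega
  -- families
  have hcari : ∀ i : Fin (r + 1), Car y n (fun P => wts a a' i.castSucc * G P) := by
    intro i
    rcases hw01 i.castSucc with h1 | h1
    · refine ⟨fun P hP => ?_, ?_, fun Q hQ => ⟨1, one_ne_zero, fun P hP _ => ?_⟩⟩
      · rw [h1, zero_mul]
      · refine Set.finite_empty.subset ?_
        rintro P ⟨-, h0⟩
        rw [h1, zero_mul] at h0
        exact h0 rfl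
      · rw [h1, zero_mul, P.ord_one]
    · simp only [h1, one_mul]
      exact hGcar
  choose c₀ hc₀ using fun i => exists_fam hy (hcari i)
  obtain ⟨c, hc⟩ : ∃ c, c = Finset.univ.sup c₀ := ⟨_, rfl⟩
  choose F hF using fun i : Fin (r + 1) => hc₀ i c (by
    rw [hc]
    exact Finset.le_sup (Finset.mem_univ i))
  -- the coordinates on the bundle
  obtain ⟨s, u, hu⟩ : ∃ (s : ℕ) (u : Fin (s + 1) → L), ∀ x, x ∈ Set.range u ↔
      ∃ i, ∃ f ∈ F i, x = lfs t i.castSucc * algebraMap K L f := by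
    have hfin : (⋃ i : Fin (r + 1), (fun f => lfs t i.castSucc * algebraMap K L f) ''
        (F i : Set K)).Finite := Set.finite_iUnion fun i => (F i).finite_toSet.image _
    obtain ⟨f₀, hf₀⟩ := (hF 0).non
    obtain ⟨s, u, hu⟩ := exists_fin_range hfin ⟨_, Set.mem_iUnion.2 ⟨0, f₀, hf₀, rfl⟩⟩
    refine ⟨s, u, fun x => ?_⟩
    rw [hu, Set.mem_iUnion]
    constructor
    · rintro ⟨i, f, hf, rfl⟩
      exact ⟨i, f, hf, rfl⟩
    · rintro ⟨i, f, hf, rfl⟩
      exact ⟨i, f, hf, rfl⟩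
  have hu0 : ∀ c, u c ≠ 0 := by
    intro c
    obtain ⟨i, f, hf, h1⟩ := (hu _).1 ⟨c, rfl⟩
    rw [h1]
    refine mul_ne_zero (hsys.ne _) ?_
    rw [Ne, map_eq_zero]
    exact (hF i).ne f hf
  obtain ⟨N', v, d, j, hd, hv, hvj, hch⟩ := exists_nrm (M := M) hu0
    (gen_top hy ht hF hu)
  let S : Mod K L M y n r G :=
    { l := lfs t
      wt := wts a a'
      c := c
      F := F
      s := s
      N' := N'
      d := d
      u := u
      v := v
      j := j
      ny := hy
      car := hGcar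
      sys := hsys
      gens := by rw [lfs_ts]; exact ht
      wt0 := hw0
      wtl := hwl
      wt01 := hw01
      fam := hF
      ran := hu
      nv := hv
      dpos := hd
      vj := hvj
      chart_iff := hch }
  exact ⟨S, hrb, wts_sum a a', wts_sg a a' (by omega), hzN, hgen, hfin, hn⟩

/-- **Removal of the boundary**: all properties. -/
theorem removal2 (K : Type) [Field K] [Algebra ℂ K] {n b : ℕ} (hb : 2 ≤ b) (hn1 : 1 ≤ n)
    (hn : Algebra.trdeg ℂ K = n) {N : ℕ} {y : Fin (N + 1) → K} (hy : NormalModel y)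
    {Δ : Place ℂ K → ℚ} (hΔ : Effective y Δ) (hcar : CartierMul y n b Δ)
    (hlc : LogCanonical y n Δ) :
    ∃ (M : Type) (_ : Field M) (_ : Algebra ℂ M) (_ : Algebra K M) (_ : IsScalarTower ℂ K M)
      (t : Fin (2 * b - 2) → M) (N' : ℕ) (v : Fin (N' + 1) → M), AlgebraicIndependent K t ∧
      IntermediateField.adjoin K (Set.range t) = ⊤ ∧
      Replaces v (n + (2 * b - 2)) y n Δ ∧ WeaklyReplaces v (n + (2 * b - 2)) y n Δ := by
  obtain ⟨r, hr⟩ : ∃ r, r = 2 * b - 2 := ⟨_, rfl⟩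
  rw [← hr]
  obtain ⟨b', hb'⟩ : ∃ b', b = b' + 2 := ⟨b - 2, by omega⟩
  have hrb : r + 2 = 2 * b := by omega
  obtain ⟨L, _, _, _, _, t, ht⟩ := exists_L K r
  obtain ⟨M, _, _, _, z, hz, hgen, hfin⟩ := exists_M (∏ k, lfs t k ^ sg k)
    (N := r + 2) (Nat.succ_pos _)
  let _ : Algebra ℂ M := ((algebraMap L M).comp (algebraMap ℂ L)).toAlgebra
  let _ : Algebra K M := ((algebraMap L M).comp (algebraMap K L)).toAlgebra
  have _ : IsScalarTower ℂ L M := IsScalarTower.of_algebraMap_eq' rfl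
  have _ : IsScalarTower K L M := IsScalarTower.of_algebraMap_eq' rfl
  have _ : IsScalarTower ℂ K M := IsScalarTower.of_algebraMap_eq fun c => by
    rw [IsScalarTower.algebraMap_apply ℂ L M, IsScalarTower.algebraMap_apply ℂ K L,
      ← IsScalarTower.algebraMap_apply K L M]
  have htr : Algebra.trdeg K M = r := by
    have h1 : IsTranscendenceBasis K (algebraMap L M ∘ t) := (Gens_basis ht).algebraMap_comp
    rw [← h1.cardinalMk_eq_trdeg]
    simp
  obtain ⟨s, hs1, hs2⟩ := rational (b' := b') (by omega) (lfs_sys ht)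
    (by rw [lfs_ts]; exact ht) htr hz hgen
    (fun k k' hk hk' => lfs_pair ht k k' (by omega) hk hk')
  obtain ⟨G, hG, S, hS⟩ := exists_cov (L := L) (M := M) hrb (by omega) ht hz hgen hfin hn hy
    hΔ hcar
  have hex := exists_divisorial hn hn1 hy
  refine ⟨M, inferInstance, inferInstance, inferInstance, inferInstance, s, S.N', S.v, hs1, hs2,
    ⟨S.nv, hS.lc hG hlc, fun h => hS.klt hG h, fun h => hS.nef hG h hex,
      fun h => hS.desc (by omega) hG hlc h, fun h => hS.asc hG h hex⟩,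
    ⟨S.nv, hS.lc hG hlc, fun h => hS.klt hG h, hS.kappa (by omega) hΔ hG hlc,
      fun A hA => hS.nu hΔ hG hA⟩⟩

theorem cartierMul_mul {K : Type} [Field K] [Algebra ℂ K] {n b : ℕ} (c : ℕ) {N : ℕ}
    {y : Fin (N + 1) → K} {Δ : Place ℂ K → ℚ} (hcar : CartierMul y n b Δ) :
    CartierMul y n (c * b) Δ := by
  intro Q hQ
  obtain ⟨g, hg0, hg⟩ := hcar Q hQ
  refine ⟨g ^ c, pow_ne_zero _ hg0, fun P hP hPQ => ?_⟩
  rw [P.ord_pow]
  push_cast
  rw [hg P hP hPQ]
  ring

theorem cartierMul_zero {K : Type} [Field K] [Algebra ℂ K] (n b : ℕ) {N : ℕ}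
    (y : Fin (N + 1) → K) : CartierMul y n b 0 :=
  fun Q _ => ⟨1, one_ne_zero, fun P _ _ => by rw [P.ord_one]; simp⟩

theorem trdeg_of {K M : Type} [Field K] [Field M] [Algebra ℂ K] [Algebra ℂ M] [Algebra K M]
    [IsScalarTower ℂ K M] {n r : ℕ} (hn : Algebra.trdeg ℂ K = n) {t : Fin r → M}
    (h1 : AlgebraicIndependent K t) (h2 : IntermediateField.adjoin K (Set.range t) = ⊤) :
    Algebra.trdeg ℂ M = (n + r : ℕ) := by
  have h4 := trdeg_add_eq ℂ K (A := M)
  rw [hn, trdeg_of_top h1 h2] at h4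
  rw [← h4, Nat.cast_add]

/-- weak abundance descends -/
theorem weak_of_replaces {K M : Type} [Field K] [Algebra ℂ K] [Field M] [Algebra ℂ M] {N N' : ℕ}
    {v : Fin (N' + 1) → M} {d : ℕ} {y : Fin (N + 1) → K} {n : ℕ} {Δ : Place ℂ K → ℚ}
    (h : WeaklyReplaces v d y n Δ) (hv : WeakAbundance v d 0) : WeakAbundance y n Δ := by
  intro A hA
  obtain ⟨A', hA', -, hle⟩ := h.nu A hA
  obtain ⟨h1, h2⟩ := hv A' hA'
  rw [h.kappa] at h1 h2
  refine ⟨fun h3 => ?_, fun k hk => hle.trans (h2 k hk)⟩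
  rw [h1 h3] at hle
  exact le_bot_iff.1 hle

end Pool.Agent.H890
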