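import Pool.Agent.H890.Fer
import Pool.Agent.H890.Top2
import Pool.Agent.H890.Gn2
import Pool.Agent.H890.Gn3

/-!
Existence of the Fermat coverings.
-/

set_option autoImplicit false
set_option linter.unusedSectionVars false
set_option linter.overlappingInstances false

open FF MvPolynomial Pool.Agent.W602.GT Pool.Agent.W603.LV Pool.Agent.Y172
  Pool.Agent.TH122.AB Pool.Agent.R887

namespace Pool.Agent.H890

/-- roots of several elements -/
theorem exists_Mz {L : Type} [Field L] {m N : ℕ} (hN : 0 < N) (a : Fin m → L) :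
    ∃ (M : Type) (_ : Field M) (_ : Algebra L M) (_ : FiniteDimensional L M) (z : Fin m → M),
      (∀ i, z i ^ N = algebraMap L M (a i)) ∧ (∀ i, a i = 1 → z i = 1) ∧
        IntermediateField.adjoin L (Set.range z) = ⊤ := by
  classical
  have hex : ∀ i, ∃ w : AlgebraicClosure L, w ^ N = algebraMap L _ (a i) ∧ (a i = 1 → w = 1) := by
    intro i
    by_cases h1 : a i = 1
    · exact ⟨1, by rw [h1, map_one, one_pow], fun _ => rfl⟩
    · obtain ⟨w, hw⟩ := IsAlgClosed.exists_pow_nat_eq (algebraMap L (AlgebraicClosure L) (a i)) hN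
      exact ⟨w, hw, fun h => absurd h h1⟩
  choose w hw hw1 using hex
  obtain ⟨F, hF⟩ : ∃ F : IntermediateField L (AlgebraicClosure L),
    F = IntermediateField.adjoin L (Set.range w) := ⟨_, rfl⟩
  have hwF : ∀ i, w i ∈ F := fun i => by
    rw [hF]
    exact IntermediateField.subset_adjoin L _ ⟨i, rfl⟩
  have hfd : FiniteDimensional L F := by
    rw [hF]
    exact IntermediateField.finiteDimensional_adjoin fun x _ => Algebra.IsIntegral.isIntegral x
  refine ⟨F, inferInstance, inferInstance, hfd, fun i => ⟨w i, hwF i⟩, fun i => ?_, fun i hi => ?_,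
    ?_⟩
  · apply Subtype.ext
    exact hw i
  · apply Subtype.ext
    exact hw1 i hi
  · apply IntermediateField.map_injective (IntermediateField.val _)
    rw [IntermediateField.adjoin_map, ← Set.range_comp, ← AlgHom.fieldRange_eq_map,
      IntermediateField.fieldRange_val]
    exact hF.symm

/-- existence of the model -/
theorem exists_mod {K L M : Type} [Field K] [Field L] [Field M] [Algebra ℂ K] [Algebra ℂ L]
    [Algebra ℂ M] [Algebra K L] [Algebra L M] [Algebra K M] [IsScalarTower ℂ K L]
    [IsScalarTower ℂ L M] [IsScalarTower ℂ K M] [IsScalarTower K L M] [FiniteDimensional L M]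
    {n r : ℕ} {t : Fin r → L} (ht : Gens (k := K) t) {N : ℕ} {y : Fin (N + 1) → K}
    (hy : NormalModel y) {G : Place ℂ K → ℤ} (hGcar : Car y n G) {wt : Fin (r + 2) → ℤ}
    (hw0 : wt 0 = 0) (hwl : wt (Fin.last (r + 1)) = 0) (hw01 : ∀ k, wt k = 0 ∨ wt k = 1) :
    ∃ S : Mod K L M y n r G, S.l = lfs t ∧ S.wt = wt := by
  classical
  have hsys := lfs_sys ht
  have hcari : ∀ i : Fin (r + 1), Car y n (fun P => wt i.castSucc * G P) := by
    intro i
    rcases hw01 i.castSucc with h1 | h1
    · refine ⟨fun P hP => ?_, ?_, fun Q hQ => ⟨1, one_ne_zero, fun P hP _ => ?_⟩⟩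
      · rw [h1, zero_mul]
      · refine Set.finite_empty.subset ?_
        rintro P ⟨-, h0⟩
        rw [h1, zero_mul] at h0
        exact h0 rfl
      · rw [h1, zero_mul, P.ord_one]
    · simp only [h1, one_mul]
      exact hGcar
  choose c₀ hc₀ using fun i => exists_fam hy (hcari i)
  obtain ⟨c, hc⟩ : ∃ c, c = Finset.univ.sup c₀ := ⟨_, rfl⟩
  choose F hF using fun i : Fin (r + 1) => hc₀ i c (by
    rw [hc]
    exact Finset.le_sup (Finset.mem_univ i))
  -- the coordinates on the bundle
  obtain ⟨s, u, hu⟩ : ∃ (s : ℕ) (u : Fin (s + 1) → L), ∀ x, x ∈ Set.range u ↔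
      ∃ i, ∃ f ∈ F i, x = lfs t i.castSucc * algebraMap K L f := by
    have hfin : (⋃ i : Fin (r + 1), (fun f => lfs t i.castSucc * algebraMap K L f) ''
        (F i : Set K)).Finite := Set.finite_iUnion fun i => (F i).finite_toSet.image _
    obtain ⟨f₀, hf₀⟩ := (hF 0).non
    obtain ⟨s, u, hu⟩ := exists_fin_range hfin ⟨_, Set.mem_iUnion.2 ⟨0, f₀, hf₀, rfl⟩⟩
    refine ⟨s, u, fun x => ?_⟩
    rw [hu, Set.mem_iUnion]
    constructor
    · rintro ⟨i, f, hf, rfl⟩
      exact ⟨i, f, hf, rfl⟩
    · rintro ⟨i, f, hf, rfl⟩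
      exact ⟨i, f, hf, rfl⟩
  have hu0 : ∀ c, u c ≠ 0 := by
    intro c
    obtain ⟨i, f, hf, h1⟩ := (hu _).1 ⟨c, rfl⟩
    rw [h1]
    refine mul_ne_zero (hsys.ne _) ?_
    rw [Ne, map_eq_zero]
    exact (hF i).ne f hf
  obtain ⟨N', v, d, j, hd, hv, hvj, hch⟩ := exists_nrm (M := M) hu0
    (gen_top hy ht hF hu)
  exact ⟨
    { l := lfs t
      wt := wt
      c := c
      F := F
      s := s
      N' := N'
      d := d
      u := u
      v := v
      j := j
      ny := hy
      car := hGcar
      sys := hsys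
      gens := by rw [lfs_ts]; exact ht
      wt0 := hw0
      wtl := hwl
      wt01 := hw01
      fam := hF
      ran := hu
      nv := hv
      dpos := hd
      vj := hvj
      chart_iff := hch }, rfl, rfl⟩

/-- weights with a given sum -/
theorem exists_wt {r d : ℕ} (hd : d ≤ r) : ∃ wt : Fin (r + 2) → ℤ, wt 0 = 0 ∧
    wt (Fin.last (r + 1)) = 0 ∧ (∀ k, wt k = 0 ∨ wt k = 1) ∧ ∑ k, wt k = d := by
  classical
  refine ⟨fun k => if 1 ≤ (k : ℕ) ∧ (k : ℕ) ≤ d then 1 else 0, ?_, ?_, fun k => ?_, ?_⟩
  · dsimp only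
    rw [if_neg]
    intro h
    have := h.1
    simp at this
  · dsimp only
    rw [if_neg]
    intro h
    have := h.2
    rw [Fin.val_last] at this
    omega
  · dsimp only
    split_ifs
    · exact Or.inr rfl
    · exact Or.inl rfl
  · have h1 : ∀ m : ℕ, ∑ k ∈ Finset.range (m + 1), (if 1 ≤ k ∧ k ≤ d then (1 : ℤ) else 0) =
        min m d := by
      intro m
      induction m with
      | zero => simp
      | succ m ih =>
        rw [Finset.sum_range_succ, ih]
        split_ifs with h
        · push_cast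
          have := h.2
          omega
        · push_cast
          omega
    have h2 := h1 (r + 1)
    rw [Finset.sum_range] at h2
    rw [h2]
    push_cast
    omega

end Pool.Agent.H890
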