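import Pool.Agent.H890.Ftop

/-!
Coordinates on smooth varieties.
-/

set_option autoImplicit false
set_option linter.unusedSectionVars false
set_option linter.overlappingInstances false

open FF MvPolynomial Pool.Agent.W602.GT Pool.Agent.W603.LV Pool.Agent.W619.PQ Pool.Agent.Y172
  Pool.Agent.TH122.AB Pool.Agent.R887

namespace Pool.Agent.H890

section frame

variable {M : Type} [Field M] [Algebra ℂ M]

/-- elements with dual derivations are algebraically independent -/
theorem indep_of_dual {d : ℕ} {x : Fin d → M} {E : Fin d → Derivation ℂ M M}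
    (hE : ∀ i j, E i (x j) = if i = j then 1 else 0) : AlgebraicIndependent ℂ x := by
  rw [algebraicIndependent_iff]
  have h1 : ∀ (m : ℕ) (G : MvPolynomial (Fin d) ℂ), G.totalDegree ≤ m → aeval x G = 0 → G = 0 := by
    intro m
    induction m with
    | zero =>
      intro G hG h0
      obtain ⟨c, rfl⟩ := const_of_pderiv (G := G) fun j => by
        by_contra hj
        have := deg_pderiv hj
        omega
      rw [aeval_C, map_eq_zero] at h0
      rw [h0, C_0]
    | succ m ih =>
      intro G hG h0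
      obtain ⟨c, rfl⟩ := const_of_pderiv (G := G) fun j => by
        by_contra hj
        have h2 := deg_pderiv hj
        apply hj
        refine ih _ (by omega) ?_
        rw [← der_aeval_one (hE j) G, h0, map_zero]
      rw [aeval_C, map_eq_zero] at h0
      rw [h0, C_0]
  intro G hG
  exact h1 _ G le_rfl hG

theorem basis_of_dual {d : ℕ} {x : Fin d → M} {E : Fin d → Derivation ℂ M M}
    (hE : ∀ i j, E i (x j) = if i = j then 1 else 0) (hd : Algebra.trdeg ℂ M = d) :
    IsTranscendenceBasis ℂ x := by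
  have hle : Algebra.trdeg ℂ M ≤ Cardinal.mk (Fin d) := by
    rw [hd]
    simp
  exact (indep_of_dual hE).isTranscendenceBasis_of_trdeg_le
    (by rw [hd]; exact Cardinal.natCast_lt_aleph0) hle

/-- dual frames from a determinant -/
theorem dual_of_det {m : ℕ} {X : Fin m → M} {F : Fin m → Derivation ℂ M M}
    (h : (Matrix.of fun a b => F a (X b)).det ≠ 0) :
    ∃ F' : Fin m → Derivation ℂ M M, ∀ i j, F' i (X j) = if i = j then 1 else 0 := by
  obtain ⟨J, hJ⟩ : ∃ J : Matrix (Fin m) (Fin m) M, J = Matrix.of fun a b => F a (X b) := ⟨_, rfl⟩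
  rw [← hJ] at h
  refine ⟨fun i => ∑ u, J⁻¹ i u • F u, fun i j => ?_⟩
  rw [Pool.Agent.Y172.sum_smul_apply]
  have h1 := Matrix.nonsing_inv_mul J (isUnit_iff_ne_zero.2 h)
  have h2 := congrFun (congrFun h1 i) j
  rw [Matrix.mul_apply, Matrix.one_apply] at h2
  rw [← h2]
  refine Finset.sum_congr rfl fun u _ => ?_
  rw [hJ, Matrix.of_apply]

variable {N' m : ℕ} {v : Fin (N' + 1) → M} {P : Place ℂ M}

/-- units of the local ring -/
structure IsU (v : Fin (N' + 1) → M) (P : Place ℂ M) (f : M) : Prop where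
  mem : f ∈ localRing v P
  ne : f ≠ 0
  ord : P.ord f = 0

theorem IsU.inv {f : M} (h : IsU v P f) : IsU v P f⁻¹ :=
  ⟨localRing_inv h.mem h.ne h.ord, inv_ne_zero h.ne, by rw [P.ord_inv, h.ord, neg_zero]⟩

theorem IsU.mul (hv : NormalModel v) {f g : M} (h : IsU v P f) (h' : IsU v P g) :
    IsU v P (f * g) :=
  ⟨(lsub_iff hv).1 ((lsub v P).mul_mem ((lsub_iff hv).2 h.mem) ((lsub_iff hv).2 h'.mem)),
    mul_ne_zero h.ne h'.ne, by rw [P.ord_mul h.ne h'.ne, h.ord, h'.ord, add_zero]⟩

theorem IsU.pow (hv : NormalModel v) {f : M} (h : IsU v P f) (k : ℕ) : IsU v P (f ^ k) :=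
  ⟨(lsub_iff hv).1 ((lsub v P).pow_mem ((lsub_iff hv).2 h.mem) k), pow_ne_zero _ h.ne, by
    rw [P.ord_pow, h.ord, mul_zero]⟩

theorem IsU.const (hv : NormalModel v) {c : ℂ} (hc : c ≠ 0) : IsU v P (algebraMap ℂ M c) :=
  ⟨(lsub_iff hv).1 ((lsub v P).algebraMap_mem c), by rwa [Ne, map_eq_zero], P.ord_const hc⟩

theorem IsU.zpow (hv : NormalModel v) {f : M} (h : IsU v P f) (k : ℤ) : IsU v P (f ^ k) := by
  rcases Int.eq_nat_or_neg k with ⟨n, rfl | rfl⟩
  · rw [zpow_natCast]
    exact h.pow hv n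
  · rw [zpow_neg, zpow_natCast]
    exact (h.pow hv n).inv

/-- **A criterion for coordinates.** -/
theorem coord_of_form [Algebra.EssFiniteType ℂ M] (hv : NormalModel v)
    (hd : Algebra.trdeg ℂ M = m) {X : Fin m → M}
    {F : Fin m → Derivation ℂ M M} (hF : ∀ i j, F i (X j) = if i = j then 1 else 0)
    (hX : ∀ j, X j ∈ localRing v P) {k : ℕ} (hk : 0 < k) {κ : M} (hκ : IsU v P κ)
    {ω : (Fin m → Derivation ℂ M M) → M} (hω : IsPluri k ω)
    (hωX : ∀ D, ω D = κ * (Matrix.of fun a b => D a (X b)).det ^ k)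
    (hord : ∀ P', IsPrimeDivisor v P' → Through v P' P → OrdEq P' ω 0) :
    IsCoord v P X F := by
  refine ⟨hX, fun i f hf => mem_localRing_of_reg hv fun P' hP' hT => ?_, hF⟩
  obtain ⟨Y, E', i0, hE⟩ := exists_loc hd (hP'.divisorial hv hd)
  obtain ⟨h1, h2⟩ := (hE.rg.ordEq_iff hω).1 (hord P' hP' hT)
  have h3 : P'.ord (ω E') = 0 := by exact_mod_cast h2
  rw [hωX] at h1 h3
  obtain ⟨A, hA⟩ : ∃ A : Matrix (Fin m) (Fin m) M, A = Matrix.of fun a b => E' a (X b) := ⟨_, rfl⟩
  rw [← hA] at h1 h3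
  have hdet0 : A.det ≠ 0 := by
    intro h0
    rw [h0, zero_pow hk.ne', mul_zero] at h1
    exact h1 rfl
  have hdeto : P'.ord A.det = 0 := by
    rw [P'.ord_mul hκ.ne (pow_ne_zero _ hdet0), P'.ord_pow, unit_through hT hκ.mem hκ.ne hκ.ord,
      zero_add] at h3
    rcases mul_eq_zero.1 h3 with h4 | h4
    · have : k = 0 := by exact_mod_cast h4
      omega
    · exact h4
  obtain ⟨B, hB⟩ : ∃ B : Matrix (Fin m) (Fin m) M, B = Matrix.of fun i j => F i (Y j) := ⟨_, rfl⟩
  have hexp : ∀ (i : Fin m) (f : M), F i f = ∑ j, B i j * E' j f := by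
    intro i f
    have h4 := Pool.Agent.W73.PG.PULL.expand Y hE.bas E' hE.dual (F i)
    conv_lhs => rw [← h4]
    rw [Pool.Agent.Y172.sum_smul_apply]
    refine Finset.sum_congr rfl fun j _ => ?_
    rw [hB, Matrix.of_apply]
  have hBA : B * A = 1 := by
    ext i j
    rw [Matrix.mul_apply, Matrix.one_apply, ← hF i j, hexp i (X j)]
    refine Finset.sum_congr rfl fun u _ => ?_
    rw [hA, Matrix.of_apply]
  have hBinv : B = A⁻¹ := (Matrix.inv_eq_left_inv hBA).symm
  have hAreg : ∀ i j, P'.Reg (A i j) := by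
    intro i j
    rw [hA, Matrix.of_apply]
    exact hE.pres i _ (hT _ (hX j))
  have hBreg : ∀ i j, P'.Reg (B i j) := by
    intro i j
    rw [hBinv, Matrix.inv_def, Matrix.smul_apply, smul_eq_mul, Ring.inverse_eq_inv]
    refine P'.reg_mul (Or.inr (by rw [P'.ord_inv, hdeto, neg_zero])) ?_
    rw [Matrix.adjugate_apply]
    refine det_reg fun a b => ?_
    by_cases ha : a = j
    · rw [ha, Matrix.updateRow_self]
      by_cases hb : b = i
      · rw [hb, Pi.single_eq_same]
        exact P'.reg_one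
      · rw [Pi.single_eq_of_ne hb]
        exact P'.reg_zero
    · rw [Matrix.updateRow_ne ha]
      exact hAreg a b
  rw [hexp]
  refine Ge.sum (P := P') (N := 0) _ _ fun j _ => ?_
  exact P'.reg_mul (hBreg i j) (hE.pres j _ (hT f hf))

/-- coordinates are regular along the prime divisors through the centre -/
theorem IsCoord.rg (hv : NormalModel v) (hd : Algebra.trdeg ℂ M = m) {X : Fin m → M}
    {F : Fin m → Derivation ℂ M M} (h : IsCoord v P X F) {P' : Place ℂ M}
    (hP' : IsPrimeDivisor v P') (hT : Through v P' P) : Rg P' X F := by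
  refine ⟨basis_of_dual h.dual hd, h.dual, fun i => hT _ (h.reg i), fun i => ?_⟩
  obtain ⟨j, hj⟩ := exists_centred hv P
  refine derReg_of_ring (R := lsub v P) (fun a ha => ha P' hP' hT) (fun x hx => ?_) fun a ha =>
    (lsub_iff hv).2 (h.pres i a ((lsub_iff hv).1 ha))
  obtain ⟨a, ha, b, hb, hb0, hbo, hab⟩ := (mem_localRing (hT.centred hj)).1 (hP' x hx)
  refine ⟨a, (lsub_iff hv).2 (chart_localRing hj ha), b, (lsub_iff hv).2 (chart_localRing hj hb),
    hb0, hbo, ?_⟩
  rw [← hab]
  field_simp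

/-- smooth varieties have a Cartier canonical divisor -/
theorem IsCoord.gen (hv : NormalModel v) (hd : Algebra.trdeg ℂ M = m) {X : Fin m → M}
    {F : Fin m → Derivation ℂ M M} (h : IsCoord v P X F) {P' : Place ℂ M}
    (hP' : IsPrimeDivisor v P') (hT : Through v P' P) (k : ℕ) : OrdEq P' (frm X k 1) 0 := by
  rw [(h.rg hv hd hP' hT).ordEq_iff (frm_pluri X k 1), frm_self h.dual]
  refine ⟨one_ne_zero, ?_⟩
  rw [P'.ord_one]
  rfl

end frame

end Pool.Agent.H890
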