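import Pool.Agent.H890.Frm2
import Pool.Agent.H890.Smo
import Pool.Graph.R_seed8.TH122.AB.Der

/-!
Places of rational function fields given by irreducible polynomials and by the degree in a variable,
and regular coordinates there.
-/

set_option autoImplicit false
set_option linter.unusedSectionVars false
set_option linter.overlappingInstances false

open FF MvPolynomial Pool.Agent.W602.GT Pool.Agent.W603.LV Pool.Agent.Y172
  Pool.Agent.TH122.AB Pool.Agent.R887

namespace Pool.Agent.H890

section

variable {K F : Type} [Field K] [Field F] [Algebra ℂ K] [Algebra ℂ F] [Algebra K F]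
  [IsScalarTower ℂ K F] {n : ℕ}

/-- places which are trivial on the polynomials in all variables but one are divisorial -/
theorem divisorial_of_vars {r' : ℕ} {t : Fin (r' + 1) → F} (ht : Gens (k := K) t) {x : Fin n → K}
    (hx : IsTranscendenceBasis ℂ x) (j : Fin (r' + 1)) {v : Place ℂ F}
    (h : ∀ g : MvPolynomial (Fin r') K, g ≠ 0 → v.ord (aeval (fun i => t (j.succAbove i)) g) = 0) :
    Divisorial (n + (r' + 1)) v := by
  classical
  have hb := append_basis hx (Gens_basis ht)
  obtain ⟨ι, hιd⟩ : ∃ ι : Fin (n + r') → Fin (n + (r' + 1)),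
      ι = Fin.addCases (fun i => Fin.castAdd _ i) (fun i => Fin.natAdd n (j.succAbove i)) := ⟨_, rfl⟩
  have hι1 : ∀ i : Fin n, ι (Fin.castAdd _ i) = Fin.castAdd _ i := fun i => by
    rw [hιd]
    exact Fin.addCases_left _
  have hι2 : ∀ i : Fin r', ι (Fin.natAdd n i) = Fin.natAdd n (j.succAbove i) := fun i => by
    rw [hιd]
    exact Fin.addCases_right _
  have hι : Function.Injective ι := by
    intro a b
    refine Fin.addCases (fun a => ?_) (fun a => ?_) a <;>
      refine Fin.addCases (fun b => ?_) (fun b => ?_) b <;> intro hab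
    · rw [hι1, hι1] at hab
      rw [Fin.castAdd_injective _ _ hab]
    · rw [hι1, hι2] at hab
      have := congrArg Fin.val hab
      simp only [Fin.val_castAdd, Fin.val_natAdd] at this
      omega
    · rw [hι1, hι2] at hab
      have := congrArg Fin.val hab
      simp only [Fin.val_castAdd, Fin.val_natAdd] at this
      omega
    · rw [hι2, hι2] at hab
      rw [Fin.succAbove_right_injective (Fin.natAdd_injective _ _ hab)]
  have hind := hb.1.comp ι hι
  obtain ⟨u, hu⟩ : ∃ u : Fin (n + r') → F, u =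
    (Fin.append (fun i => algebraMap K F (x i)) t : Fin (n + (r' + 1)) → F) ∘ ι := ⟨_, rfl⟩
  rw [← hu] at hind
  refine ⟨u, fun G hG => ?_⟩
  have hne : aeval u G ≠ 0 := fun h0 => hG ((injective_iff_map_eq_zero _).1 hind G h0)
  refine ⟨hne, ?_⟩
  obtain ⟨g, hg⟩ : ∃ g : MvPolynomial (Fin r') K, g =
    aeval (Fin.append (fun i => C (x i)) X : Fin (n + r') → MvPolynomial (Fin r') K) G := ⟨_, rfl⟩
  have h1 : aeval (fun i => t (j.succAbove i)) g = aeval u G := by
    have h2 : ((aeval (fun i => t (j.succAbove i)) : MvPolynomial (Fin r') K →ₐ[K] F).restrictScalars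
        ℂ).comp (aeval (Fin.append (fun i => C (x i)) X : Fin (n + r') → MvPolynomial (Fin r') K)) =
        (aeval u : MvPolynomial (Fin (n + r')) ℂ →ₐ[ℂ] F) := by
      apply MvPolynomial.algHom_ext
      intro i
      rw [AlgHom.comp_apply, aeval_X, aeval_X, AlgHom.restrictScalars_apply, hu]
      refine Fin.addCases (fun a => ?_) (fun a => ?_) i
      · rw [Fin.append_left, aeval_C, Function.comp_apply, hι1, Fin.append_left]
      · rw [Fin.append_right, aeval_X, Function.comp_apply, hι2, Fin.append_right]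
    rw [hg]
    exact DFunLike.congr_fun h2 G
  rw [← h1]
  refine h g fun h0 => hne ?_
  rw [← h1, h0, map_zero]

/-- the place of an irreducible polynomial -/
def AdicAt {r : ℕ} (t : Fin r → F) (f : MvPolynomial (Fin r) K) (v : Place K F) : Prop :=
  v.ord (aeval t f) = 1 ∧ ∀ g, g ≠ 0 → 0 ≤ v.ord (aeval t g) ∧ (v.ord (aeval t g) = 0 ↔ ¬ f ∣ g)

theorem exists_degreeOf {r : ℕ} {f : MvPolynomial (Fin r) K} (hf : Irreducible f) :
    ∃ j, f.degreeOf j ≠ 0 := by
  by_contra hcon
  push Not at hcon
  have h1 : f.totalDegree = 0 := by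
    rw [totalDegree_eq_zero_iff]
    intro m hm i
    have h2 := monomial_le_degreeOf i hm
    rw [hcon] at h2
    omega
  rw [totalDegree_eq_zero_iff_eq_C] at h1
  apply hf.not_isUnit
  rw [h1]
  refine (isUnit_iff_ne_zero.2 ?_).map C
  intro h0
  rw [h0, C_0] at h1
  exact hf.ne_zero h1

theorem degreeOf_le_of_dvd {r : ℕ} {f g : MvPolynomial (Fin r) K} (hg : g ≠ 0) (h : f ∣ g)
    (j : Fin r) : f.degreeOf j ≤ g.degreeOf j := by
  obtain ⟨q, rfl⟩ := h
  rw [degreeOf_mul_eq (left_ne_zero_of_mul hg) (right_ne_zero_of_mul hg)]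
  exact Nat.le_add_right _ _

theorem degreeOf_rename_succAbove {r' : ℕ} (j : Fin (r' + 1)) (g : MvPolynomial (Fin r') K) :
    (rename j.succAbove g).degreeOf j = 0 := by
  by_contra h5
  have h6 : j ∈ (rename j.succAbove g).vars := by
    rw [mem_vars_iff_mem_support]
    by_contra h7
    push Not at h7
    apply h5
    rw [← Nat.le_zero, degreeOf_le_iff]
    intro m hm
    have h8 := h7 m hm
    rw [Finsupp.mem_support_iff, not_not] at h8
    exact h8.le
  obtain ⟨i, -, hi⟩ := mem_vars_rename _ _ h6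
  exact Fin.succAbove_ne j i hi

theorem AdicAt.divisorial {r : ℕ} {t : Fin r → F} (ht : Gens (k := K) t) {x : Fin n → K}
    (hx : IsTranscendenceBasis ℂ x) {f : MvPolynomial (Fin r) K} (hf : Irreducible f)
    {v : Place K F} (h : AdicAt t f v) : Divisorial (n + r) (restr v) := by
  classical
  obtain ⟨j, hj⟩ := exists_degreeOf hf
  obtain ⟨r', rfl⟩ : ∃ r', r = r' + 1 := by
    cases r with
    | zero => exact j.elim0
    | succ r' => exact ⟨r', rfl⟩
  refine divisorial_of_vars ht hx j fun g hg => ?_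
  rw [restr_ord]
  have h1 : aeval (fun i => t (j.succAbove i)) g = aeval t (rename j.succAbove g) := by
    rw [aeval_rename]
    rfl
  have h2 : rename j.succAbove g ≠ 0 := fun h0 => hg
    (rename_injective _ (Fin.succAbove_right_injective (p := j)) (by rw [h0, map_zero]))
  rw [h1]
  refine (h.2 _ h2).2.2 fun hd => hj ?_
  have h3 := degreeOf_le_of_dvd h2 hd j
  have h4 := degreeOf_rename_succAbove j g
  omega

/-- orders of the coordinates -/
theorem AdicAt.nonneg {r : ℕ} {t : Fin r → F} {f : MvPolynomial (Fin r) K} {v : Place K F}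
    (h : AdicAt t f v) (g : MvPolynomial (Fin r) K) : (restr v).Reg (aeval t g) := by
  by_cases hg : g = 0
  · left
    rw [hg, map_zero]
  · right
    exact (h.2 g hg).1

theorem AdicAt.unit {r : ℕ} {t : Fin r → F} {f : MvPolynomial (Fin r) K} {v : Place K F}
    (h : AdicAt t f v) {g : MvPolynomial (Fin r) K} (hg : g ≠ 0) (hd : ¬ f ∣ g) :
    v.ord (aeval t g) = 0 := (h.2 g hg).2.2 hd

/-- coordinates are regular at the places where the polynomial ring is a chart -/
theorem rg_of_RR {r : ℕ} {t : Fin r → F} (ht : Gens (k := K) t) {x : Fin n → K}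
    {E : Fin n → Derivation ℂ K K} (hx : IsTranscendenceBasis ℂ x)
    (hE : ∀ i j, E i (x j) = if i = j then 1 else 0) {P : Place ℂ F}
    (hring : ∀ a ∈ RR (⊤ : Subalgebra ℂ K) t, P.Reg a)
    (hloc : ∀ z, P.Reg z → ∃ a ∈ RR (⊤ : Subalgebra ℂ K) t, ∃ b ∈ RR (⊤ : Subalgebra ℂ K) t,
      b ≠ 0 ∧ P.ord b = 0 ∧ z = a / b) {D : Fin (n + r) → Derivation ℂ F F}
    (hD : ∀ u w, D u ((Fin.append (fun i => algebraMap K F (x i)) t : Fin (n + r) → F) w) =
      if u = w then 1 else 0) :
    Rg P (Fin.append (fun i => algebraMap K F (x i)) t) D := by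
  have hK0 : CharZero K := charZero_of_injective_algebraMap (algebraMap ℂ K).injective
  obtain ⟨h1, h2⟩ := frame_base hx hE hD
  refine ⟨append_basis hx (Gens_basis ht), hD, fun u => ?_, fun u => derReg_of_ring hring
    hloc fun a ha => RR_der (fun c _ => ?_) (fun p => ?_) ha⟩
  · refine Fin.addCases (fun i => ?_) (fun p => ?_) u
    · rw [Fin.append_left]
      exact hring _ (RR_base Algebra.mem_top)
    · rw [Fin.append_right]
      exact hring _ (RR_var p)
  · revert u
    refine Fin.addCases (fun i => ?_) (fun p => ?_)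
    · rw [h1]
      exact RR_base Algebra.mem_top
    · rw [h2]
      exact Subalgebra.zero_mem _
  · have h3 := hD u (Fin.natAdd n p)
    rw [Fin.append_right] at h3
    rw [h3]
    split_ifs
    · exact Subalgebra.one_mem _
    · exact Subalgebra.zero_mem _

/-- the coordinates are regular at the place of an irreducible polynomial -/
theorem AdicAt.rg {r : ℕ} {t : Fin r → F} (ht : Gens (k := K) t) {x : Fin n → K}
    {E : Fin n → Derivation ℂ K K} (hx : IsTranscendenceBasis ℂ x)
    (hE : ∀ i j, E i (x j) = if i = j then 1 else 0) {f : MvPolynomial (Fin r) K}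
    (hf : Irreducible f) {v : Place K F} (h : AdicAt t f v) {D : Fin (n + r) → Derivation ℂ F F}
    (hD : ∀ u w, D u ((Fin.append (fun i => algebraMap K F (x i)) t : Fin (n + r) → F) w) =
      if u = w then 1 else 0) :
    Rg (restr v) (Fin.append (fun i => algebraMap K F (x i)) t) D := by
  have hK0 : CharZero K := charZero_of_injective_algebraMap (algebraMap ℂ K).injective
  refine rg_of_RR ht hx hE (fun a ha => ?_) (fun z hz => ?_) hD
  · obtain ⟨g, rfl⟩ := mem_RR_top.1 ha
    exact h.nonneg g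
  · obtain ⟨A, B, hB, hfB, rfl⟩ := frac_of_reg ht hf h.2 (z := z) hz
    exact ⟨_, mem_RR_top.2 ⟨A, rfl⟩, _, mem_RR_top.2 ⟨B, rfl⟩, ht.ne hB, h.unit hB hfB, rfl⟩

/-- the place of the degree in the variable `q` -/
def InfAt {r : ℕ} (t : Fin r → F) (q : Fin r) (v : Place K F) : Prop :=
  ∀ g : MvPolynomial (Fin r) K, g ≠ 0 → v.ord (aeval t g) = -(g.degreeOf q : ℤ)

theorem exists_inf {r : ℕ} {t : Fin r → F} (ht : Gens (k := K) t) (q : Fin r) :
    ∃ v : Place K F, InfAt t q v := by
  classical
  refine exists_place ht (ν := fun g => -(g.degreeOf q : ℤ)) ⟨?_, ?_, ?_⟩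
    ⟨1, X q, one_ne_zero, X_ne_zero _, ?_⟩
  · intro f g hf hg
    rw [degreeOf_mul_eq hf hg]
    push_cast
    ring
  · intro f g hf hg hfg
    have h1 := degreeOf_add_le q f g
    rcases le_max_iff.1 h1 with h2 | h2
    · exact le_trans (min_le_left _ _) (by omega)
    · exact le_trans (min_le_right _ _) (by omega)
  · intro c hc
    rw [degreeOf_C]
    rfl
  · rw [degreeOf_one, degreeOf_X_self]
    norm_num

theorem InfAt.divisorial {r : ℕ} {t : Fin r → F} (ht : Gens (k := K) t) {x : Fin n → K}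
    (hx : IsTranscendenceBasis ℂ x) {q : Fin r} {v : Place K F} (h : InfAt t q v) :
    Divisorial (n + r) (restr v) := by
  classical
  obtain ⟨r', rfl⟩ : ∃ r', r = r' + 1 := by
    cases r with
    | zero => exact q.elim0
    | succ r' => exact ⟨r', rfl⟩
  refine divisorial_of_vars ht hx q fun g hg => ?_
  rw [restr_ord]
  have h1 : aeval (fun i => t (q.succAbove i)) g = aeval t (rename q.succAbove g) := by
    rw [aeval_rename]
    rfl
  have h2 : rename q.succAbove g ≠ 0 := fun h0 => hg
    (rename_injective _ (Fin.succAbove_right_injective (p := q)) (by rw [h0, map_zero]))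
  rw [h1, h _ h2, degreeOf_rename_succAbove]
  rfl

theorem InfAt.var {r : ℕ} {t : Fin r → F} {q : Fin r} {v : Place K F} (h : InfAt t q v) :
    v.ord (t q) = -1 := by
  have h1 := h (X q) (X_ne_zero q)
  rw [aeval_X, degreeOf_X_self] at h1
  exact h1

theorem InfAt.other {r : ℕ} {t : Fin r → F} {q : Fin r} {v : Place K F} (h : InfAt t q v)
    {p : Fin r} (hp : p ≠ q) : v.ord (t p) = 0 := by
  have h1 := h (X p) (X_ne_zero p)
  rw [aeval_X, degreeOf_X_of_ne hp.symm] at h1
  exact h1

/-- polynomials of small degree in the chart at infinity -/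
theorem inf_mem {r : ℕ} {t : Fin r → F} {q : Fin r} (htq : t q ≠ 0) {g : MvPolynomial (Fin r) K}
    {d : ℕ} (hd : g.degreeOf q ≤ d) :
    aeval t g * (t q)⁻¹ ^ d ∈ RR (⊤ : Subalgebra ℂ K) (Function.update t q (t q)⁻¹) := by
  classical
  rw [aeval_def, eval₂_eq', Finset.sum_mul]
  refine Subalgebra.sum_mem _ fun α hα => ?_
  have h1 : α q ≤ d := (monomial_le_degreeOf q hα).trans hd
  rw [mul_assoc]
  refine (RR _ _).mul_mem (RR_base Algebra.mem_top) ?_
  rw [← Finset.mul_prod_erase Finset.univ (fun i => t i ^ α i) (Finset.mem_univ q)]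
  have h2 : t q ^ α q * (∏ i ∈ Finset.univ.erase q, t i ^ α i) * (t q)⁻¹ ^ d =
      (∏ i ∈ Finset.univ.erase q, t i ^ α i) * (t q)⁻¹ ^ (d - α q) := by
    have h3 : (t q)⁻¹ ^ d = (t q)⁻¹ ^ (α q) * (t q)⁻¹ ^ (d - α q) := by
      rw [← pow_add]
      congr 1
      omega
    rw [h3]
    have h4 : t q ^ α q * (t q)⁻¹ ^ (α q) = 1 := by
      rw [← mul_pow, mul_inv_cancel₀ htq, one_pow]
    linear_combination (∏ i ∈ Finset.univ.erase q, t i ^ α i) * (t q)⁻¹ ^ (d - α q) * h4
  rw [h2]
  refine (RR _ _).mul_mem (Subalgebra.prod_mem _ fun i hi => (RR _ _).pow_mem ?_ _)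
    ((RR _ _).pow_mem ?_ _)
  · have h3 := RR_var (A := (⊤ : Subalgebra ℂ K)) (t := Function.update t q (t q)⁻¹) i
    rwa [Function.update_of_ne (Finset.ne_of_mem_erase hi)] at h3
  · have h3 := RR_var (A := (⊤ : Subalgebra ℂ K)) (t := Function.update t q (t q)⁻¹) q
    rwa [Function.update_self] at h3

theorem gens_inf {r : ℕ} {t : Fin r → F} (ht : Gens (k := K) t) (q : Fin r) :
    Gens (k := K) (Function.update t q (t q)⁻¹) := by
  classical
  refine gens_change ht fun p => ?_
  have h1 : ∀ i, Function.update t q (t q)⁻¹ i ∈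
      IntermediateField.adjoin K (Set.range (Function.update t q (t q)⁻¹)) := fun i =>
    IntermediateField.subset_adjoin K _ ⟨i, rfl⟩
  by_cases hp : p = q
  · rw [hp]
    have h2 := inv_mem (h1 q)
    rwa [Function.update_self, inv_inv] at h2
  · have h2 := h1 p
    rwa [Function.update_of_ne hp] at h2

/-- the coordinates at infinity are regular -/
theorem InfAt.rg {r : ℕ} {t : Fin r → F} (ht : Gens (k := K) t) {x : Fin n → K}
    {E : Fin n → Derivation ℂ K K} (hx : IsTranscendenceBasis ℂ x)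
    (hE : ∀ i j, E i (x j) = if i = j then 1 else 0) {q : Fin r} {v : Place K F} (h : InfAt t q v)
    {D : Fin (n + r) → Derivation ℂ F F}
    (hD : ∀ u w, D u ((Fin.append (fun i => algebraMap K F (x i)) (Function.update t q (t q)⁻¹) :
      Fin (n + r) → F) w) = if u = w then 1 else 0) :
    Rg (restr v) (Fin.append (fun i => algebraMap K F (x i)) (Function.update t q (t q)⁻¹)) D := by
  classical
  have htq : t q ≠ 0 := by
    have := ht.ne (X_ne_zero q)
    rwa [aeval_X] at this
  refine rg_of_RR (gens_inf ht q) hx hE (fun a ha => ?_) (fun z hz => ?_) hD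
  · obtain ⟨g, rfl⟩ := mem_RR_top.1 ha
    induction g using MvPolynomial.induction_on with
    | C a =>
      rw [aeval_C]
      exact Or.inr (restr_triv v a).ge
    | add f g hf hg =>
      rw [map_add]
      exact (restr v).reg_add (hf (mem_RR_top.2 ⟨f, rfl⟩)) (hg (mem_RR_top.2 ⟨g, rfl⟩))
    | mul_X f i hf =>
      rw [map_mul, aeval_X]
      refine (restr v).reg_mul (hf (mem_RR_top.2 ⟨f, rfl⟩)) ?_
      by_cases hi : i = q
      · rw [hi, Function.update_self]
        right
        rw [(restr v).ord_inv, restr_ord, h.var]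
        norm_num
      · rw [Function.update_of_ne hi]
        right
        rw [restr_ord, h.other hi]
  · obtain ⟨A, B, hB, hz'⟩ := ht.gen z
    by_cases hA : A = 0
    · rw [hA, map_zero, zero_div] at hz'
      exact ⟨0, Subalgebra.zero_mem _, 1, Subalgebra.one_mem _, one_ne_zero, (restr v).ord_one, by
        rw [hz', zero_div]⟩
    have hA0 := ht.ne hA
    have hB0 := ht.ne hB
    have hz0 : z ≠ 0 := by
      rw [hz']
      exact div_ne_zero hA0 hB0
    have h1 := ((restr v).reg_iff hz0).1 hz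
    rw [hz', (restr v).ord_div hA0 hB0, restr_ord, restr_ord, h A hA, h B hB] at h1
    have hp : (t q)⁻¹ ^ B.degreeOf q ≠ 0 := pow_ne_zero _ (inv_ne_zero htq)
    refine ⟨_, inf_mem htq (g := A) (d := B.degreeOf q) (by omega), _,
      inf_mem htq (g := B) le_rfl, mul_ne_zero hB0 hp, ?_, ?_⟩
    · rw [(restr v).ord_mul hB0 hp, (restr v).ord_pow, (restr v).ord_inv, restr_ord, restr_ord,
        h B hB, h.var]
      ring
    · rw [hz', mul_div_mul_right _ _ hp]

end

section form

variable {M : Type} [Field M] [Algebra ℂ M] {m : ℕ}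

theorem Rg.gen {P : Place ℂ M} {X : Fin m → M} {D : Fin m → Derivation ℂ M M} (h : Rg P X D) :
    OrdEq P (frm X 1 1) 0 := by
  rw [h.ordEq_iff (frm_pluri X 1 1), frm_self h.dual]
  refine ⟨one_ne_zero, ?_⟩
  rw [P.ord_one]
  rfl

/-- **Values of regular `1`-forms on dual vector fields.** -/
theorem form_ge [Algebra.EssFiniteType ℂ M] (hd : Algebra.trdeg ℂ M = m) {P : Place ℂ M}
    (hP : Divisorial m P) {X : Fin m → M} {D : Fin m → Derivation ℂ M M}
    (hD : ∀ i j, D i (X j) = if i = j then 1 else 0) (hX : ∀ i, P.Reg (X i)) {c : ℤ}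
    (hord : OrdEq P (frm X 1 1) c) {ω : Derivation ℂ M M →ₗ[M] M} (hω : RegularForm P ω)
    (i : Fin m) : Ge P (-c) (ω (D i)) := by
  obtain ⟨Y, E', i0, hE⟩ := exists_loc hd hP
  obtain ⟨h1, h2⟩ := (hE.rg.ordEq_iff (frm_pluri X 1 1)).1 hord
  have h3 : P.ord (frm X 1 1 E') = c := by exact_mod_cast h2
  obtain ⟨A, hA⟩ : ∃ A : Matrix (Fin m) (Fin m) M, A = Matrix.of fun a b => E' a (X b) := ⟨_, rfl⟩
  have hfrm : frm X 1 1 E' = A.det := by
    unfold frm
    rw [mul_one, pow_one, hA]
  rw [hfrm] at h1 h3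
  obtain ⟨B, hB⟩ : ∃ B : Matrix (Fin m) (Fin m) M, B = Matrix.of fun i j => D i (Y j) := ⟨_, rfl⟩
  have hexp : ∀ i : Fin m, D i = ∑ j, B i j • E' j := by
    intro i
    conv_lhs => rw [← Pool.Agent.W73.PG.PULL.expand Y hE.bas E' hE.dual (D i)]
    refine Finset.sum_congr rfl fun j _ => ?_
    rw [hB, Matrix.of_apply]
  have hBA : B * A = 1 := by
    ext i j
    rw [Matrix.mul_apply, Matrix.one_apply, ← hD i j, hexp i, Pool.Agent.Y172.sum_smul_apply]
    refine Finset.sum_congr rfl fun u _ => ?_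
    rw [hA, Matrix.of_apply]
  have hBinv : B = A⁻¹ := (Matrix.inv_eq_left_inv hBA).symm
  have hAreg : ∀ i j, P.Reg (A i j) := by
    intro i j
    rw [hA, Matrix.of_apply]
    exact hE.pres i _ (hX j)
  have hBreg : ∀ i j, Ge P (-c) (B i j) := by
    intro i j
    rw [hBinv, Matrix.inv_def, Matrix.smul_apply, smul_eq_mul, Ring.inverse_eq_inv]
    have h4 : Ge P (-c) (A.det)⁻¹ := Or.inr (by rw [P.ord_inv, h3])
    have h5 : Ge P 0 (A.adjugate i j) := by
      rw [Matrix.adjugate_apply]
      refine det_reg fun a b => ?_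
      by_cases ha : a = j
      · rw [ha, Matrix.updateRow_self]
        by_cases hb : b = i
        · rw [hb, Pi.single_eq_same]
          exact P.reg_one
        · rw [Pi.single_eq_of_ne hb]
          exact P.reg_zero
      · rw [Matrix.updateRow_ne ha]
        exact hAreg a b
    have h6 := h4.mul h5
    rwa [add_zero] at h6
  rw [hexp, map_sum]
  refine Ge.sum (P := P) _ _ fun j _ => ?_
  rw [map_smul, smul_eq_mul]
  have h4 := (hBreg i j).mul (show Ge P 0 (ω (E' j)) from hω _ (hE.pres j))
  rwa [add_zero] at h4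

end form

end Pool.Agent.H890
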