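import Pool.Agent.H890.Fo2

/-!
The Fermat polynomial.
-/

set_option autoImplicit false
set_option linter.unusedSectionVars false
set_option linter.overlappingInstances false

open MvPolynomial

namespace Pool.Agent.H890

section

variable {K : Type} [Field K] [CharZero K] {r N : ℕ} {c : Fin r → K}

/-- the Fermat polynomial -/
noncomputable def phi (c : Fin r → K) (N : ℕ) : MvPolynomial (Fin r) K :=
  1 + ∑ p, C (c p) * X p ^ N

theorem phi_coeff (_ : 0 < N) (α : Fin r →₀ ℕ) (R : MvPolynomial (Fin r) K) :
    coeff α (phi c N * R) = coeff α R +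
      ∑ p, c p * (if N ≤ α p then coeff (α - Finsupp.single p N) R else 0) := by
  classical
  unfold phi
  rw [add_mul, one_mul, coeff_add, Finset.sum_mul, coeff_sum]
  congr 1
  refine Finset.sum_congr rfl fun p _ => ?_
  rw [mul_assoc, coeff_C_mul, X_pow_eq_monomial, coeff_monomial_mul', one_mul]
  congr 1
  have h1 : Finsupp.single p N ≤ α ↔ N ≤ α p := Finsupp.single_le_iff
  simp only [h1]

theorem phi_constant (hN : 0 < N) : constantCoeff (phi c N) = 1 := by
  unfold phi
  rw [map_add, map_one, map_sum, Finset.sum_eq_zero, add_zero]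
  intro p _
  rw [map_mul, map_pow, constantCoeff_X, zero_pow hN.ne', mul_zero]

theorem fphi_ne (hN : 0 < N) : phi c N ≠ 0 := by
  intro h0
  have h1 := phi_constant (c := c) hN
  rw [h0, map_zero] at h1
  exact zero_ne_one h1

theorem not_dvd_X (hN : 0 < N) {f : MvPolynomial (Fin r) K} (hf : Irreducible f)
    (h : f ∣ phi c N) (p : Fin r) : ¬ f ∣ X p := by
  rintro ⟨g, hg⟩
  rcases (X_prime (R := K) (i := p)).irreducible.isUnit_or_isUnit hg with h1 | h1
  · exact hf.not_isUnit h1
  · obtain ⟨q, hq⟩ := h
    have h2 := congrArg constantCoeff hq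
    have h3 := congrArg constantCoeff hg
    rw [phi_constant hN, map_mul] at h2
    rw [constantCoeff_X, map_mul] at h3
    rcases mul_eq_zero.1 h3.symm with h4 | h4
    · rw [h4, zero_mul] at h2
      exact one_ne_zero h2
    · have h5 := h1.map constantCoeff
      rw [h4] at h5
      exact not_isUnit_zero h5

theorem pderiv_phi (p : Fin r) : pderiv p (phi c N) = C (N * c p) * X p ^ (N - 1) := by
  classical
  unfold phi
  rw [map_add, map_sum, pderiv_one, zero_add]
  rw [Finset.sum_eq_single p]
  · rw [pderiv_C_mul, pderiv_pow, pderiv_X_self, mul_one, map_mul, map_natCast]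
    ring
  · intro q _ hq
    rw [pderiv_C_mul, pderiv_pow, pderiv_X_of_ne hq, mul_zero, mul_zero]
  · intro h
    exact absurd (Finset.mem_univ p) h

/-- the Fermat polynomial is squarefree -/
theorem phi_squarefree (hN : 0 < N) (p : Fin r) (hc : c p ≠ 0) {f g : MvPolynomial (Fin r) K}
    (hf : Irreducible f) (h : phi c N = f * g) : ¬ f ∣ g := by
  rintro ⟨q, rfl⟩
  have h1 : f ∣ pderiv p (phi c N) := by
    rw [h]
    refine ⟨pderiv p (f * q) + pderiv p f * q, ?_⟩
    rw [Derivation.leibniz, smul_eq_mul, smul_eq_mul]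
    ring
  rw [pderiv_phi] at h1
  have hu : IsUnit (C (N * c p) : MvPolynomial (Fin r) K) :=
    (isUnit_iff_ne_zero.2 (mul_ne_zero (Nat.cast_ne_zero.2 hN.ne') hc)).map C
  rw [hu.dvd_mul_left] at h1
  exact not_dvd_X hN hf ⟨_, h⟩ p (hf.prime.dvd_of_dvd_pow h1)

theorem phi_degreeOf (hN : 0 < N) (p : Fin r) (hc : c p ≠ 0) : (phi c N).degreeOf p = N := by
  classical
  apply le_antisymm
  · rw [degreeOf_le_iff]
    intro m hm
    have h1 := phi_coeff (c := c) hN m 1
    rw [mul_one] at h1
    by_contra hcon
    push Not at hcon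
    apply mem_support_iff.1 hm
    rw [h1, coeff_one, if_neg, zero_add]
    · refine Finset.sum_eq_zero fun q _ => ?_
      split_ifs with h2
      · rw [coeff_one, if_neg, mul_zero]
        intro h3
        have h4 := DFunLike.congr_fun h3 p
        rw [Finsupp.coe_zero, Pi.zero_apply, Finsupp.tsub_apply, Finsupp.single_apply] at h4
        split_ifs at h4 <;> omega
      · rw [mul_zero]
    · intro h3
      have h4 := DFunLike.congr_fun h3 p
      rw [Finsupp.coe_zero, Pi.zero_apply] at h4
      omega
  · have h1 := phi_coeff (c := c) hN (Finsupp.single p N) 1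
    rw [mul_one, coeff_one, if_neg, zero_add, Finset.sum_eq_single p, Finsupp.single_eq_same,
      if_pos le_rfl, tsub_self, coeff_one, if_pos rfl, mul_one] at h1
    · have h2 : Finsupp.single p N ∈ (phi c N).support := by
        rw [mem_support_iff, h1]
        exact hc
      have h3 := monomial_le_degreeOf p h2
      rwa [Finsupp.single_eq_same] at h3
    · intro q _ hq
      rw [if_neg, mul_zero]
      rw [Finsupp.single_eq_of_ne hq]
      omega
    · intro h
      exact absurd (Finset.mem_univ p) h
    · intro h3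
      have h4 := DFunLike.congr_fun h3 p
      rw [Finsupp.coe_zero, Pi.zero_apply, Finsupp.single_eq_same] at h4
      omega

/-- **The syzygies of the partial derivatives of the Fermat polynomial.** -/
theorem phi_syz (hN : 0 < N) {p q : Fin r} (hpq : p ≠ q) (hcp : c p ≠ 0) (hcq : c q ≠ 0)
    {Gp Gq R : MvPolynomial (Fin r) K}
    (h : C (c p) * X p ^ (N - 1) * Gq - C (c q) * X q ^ (N - 1) * Gp = phi c N * R)
    (h1 : Gp.degreeOf p + 2 ≤ N) (h2 : Gq.degreeOf q + 2 ≤ N) (h3 : Gp.degreeOf q + 1 ≤ N)
    (h4 : Gq.degreeOf p + 1 ≤ N) : Gp = 0 := by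
  classical
  -- degrees
  have hdeg : ∀ (u w : Fin r) (a : K) (g : MvPolynomial (Fin r) K), (C a * X w ^ (N - 1) *
      g).degreeOf u ≤ (if u = w then N - 1 else 0) + g.degreeOf u := by
    intro u w a g
    refine (degreeOf_mul_le _ _ _).trans (Nat.add_le_add_right ?_ _)
    refine (degreeOf_C_mul_le _ _ _).trans ?_
    by_cases huw : u = w
    · rw [if_pos huw, huw, degreeOf_X_self_pow]
    · rw [if_neg huw, degreeOf_X_pow_of_ne _ huw]
  have hR : R = 0 := by
    by_contra hR
    have h5 : ∀ u : Fin r, c u ≠ 0 → N + R.degreeOf u ≤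
        max ((C (c p) * X p ^ (N - 1) * Gq).degreeOf u)
          ((C (c q) * X q ^ (N - 1) * Gp).degreeOf u) := by
      intro u hu
      have h6 := degreeOf_sub_le u (C (c p) * X p ^ (N - 1) * Gq) (C (c q) * X q ^ (N - 1) * Gp)
      rwa [h, degreeOf_mul_eq (fphi_ne hN) hR, phi_degreeOf hN u hu] at h6
    have hp : R.degreeOf p < N - 1 := by
      have h6 := h5 p hcp
      have h7 := hdeg p p (c p) Gq
      have h8 := hdeg p q (c q) Gp
      rw [if_pos rfl] at h7
      rw [if_neg hpq] at h8
      rcases le_max_iff.1 h6 with h9 | h9 <;> omega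
    have hq : R.degreeOf q < N - 1 := by
      have h6 := h5 q hcq
      have h7 := hdeg q p (c p) Gq
      have h8 := hdeg q q (c q) Gp
      rw [if_neg hpq.symm] at h7
      rw [if_pos rfl] at h8
      rcases le_max_iff.1 h6 with h9 | h9 <;> omega
    obtain ⟨α, hα, hmin⟩ := Finset.exists_min_image R.support (fun α => α.degree)
      (support_nonempty.2 hR)
    have h6 := congrArg (coeff α) h
    have hαp := monomial_le_degreeOf p hα
    have hαq := monomial_le_degreeOf q hα
    rw [phi_coeff hN, Finset.sum_eq_zero, add_zero, coeff_sub, mul_assoc, mul_assoc, coeff_C_mul,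
      coeff_C_mul, X_pow_eq_monomial, X_pow_eq_monomial, coeff_monomial_mul', coeff_monomial_mul',
      if_neg, if_neg, mul_zero, mul_zero, sub_zero] at h6
    · exact mem_support_iff.1 hα h6.symm
    · rw [Finsupp.single_le_iff]
      omega
    · rw [Finsupp.single_le_iff]
      omega
    · intro w _
      split_ifs with h7
      · by_cases h8 : coeff (α - Finsupp.single w N) R = 0
        · rw [h8, mul_zero]
        · exfalso
          have h9 := hmin _ (mem_support_iff.2 h8)
          have h10 : (α - Finsupp.single w N) + Finsupp.single w N = α :=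
            tsub_add_cancel_of_le (Finsupp.single_le_iff.2 h7)
          have h11 := congrArg Finsupp.degree h10
          rw [map_add, Finsupp.degree_single] at h11
          omega
      · rw [mul_zero]
  by_contra hG
  obtain ⟨α, hα⟩ := support_nonempty.2 hG
  rw [hR, mul_zero, sub_eq_zero] at h
  have h5 := congrArg (coeff (α + Finsupp.single q (N - 1))) h
  have hαp := monomial_le_degreeOf p hα
  rw [mul_assoc, mul_assoc, coeff_C_mul, coeff_C_mul, X_pow_eq_monomial, X_pow_eq_monomial,
    coeff_monomial_mul', coeff_monomial_mul', if_neg, if_pos, one_mul, mul_zero,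
    add_tsub_cancel_right] at h5
  · rcases mul_eq_zero.1 h5.symm with h6 | h6
    · exact hcq h6
    · exact mem_support_iff.1 hα h6
  · exact self_le_add_left _ _
  · rw [Finsupp.single_le_iff, Finsupp.add_apply, Finsupp.single_eq_of_ne hpq]
    omega

end

end Pool.Agent.H890
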