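import Pool.Agent.H890.Fo3

/-!
Regular `1`-forms on Fermat coverings: the vertical part.
-/

set_option autoImplicit false
set_option linter.unusedSectionVars false
set_option linter.overlappingInstances false

open FF MvPolynomial Pool.Agent.W602.GT Pool.Agent.W603.LV Pool.Agent.W619.PQ Pool.Agent.Y172
  Pool.Agent.TH122.AB Pool.Agent.R887

namespace Pool.Agent.H890

section

variable {K F M : Type} [Field K] [Field F] [Field M] [Algebra ℂ K] [Algebra ℂ F]
  [Algebra ℂ M] [Algebra K F] [Algebra F M] [Algebra K M] [IsScalarTower ℂ K F]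
  [IsScalarTower ℂ F M] [IsScalarTower ℂ K M] [IsScalarTower K F M] [FiniteDimensional F M]
  {n r N : ℕ}

/-- the data of a cyclic covering of the affine space branched along a Fermat hypersurface -/
structure FC (x : M) (t : Fin r → F) (c : Fin r → K) (N : ℕ) : Prop where
  N0 : 0 < N
  gens : Gens (k := K) t
  c0 : ∀ p, c p ≠ 0
  eq : x ^ N = algebraMap F M (- aeval t (phi c N))
  top : IntermediateField.adjoin F {x} = ⊤
  fin : Module.finrank F M = N

variable {x : M} {t : Fin r → F} {c : Fin r → K}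

theorem charZero_K : CharZero K := charZero_of_injective_algebraMap (algebraMap ℂ K).injective

theorem FC.phi0 (h : FC x t c N) : aeval t (phi c N) ≠ 0 := by
  have hK0 : CharZero K := charZero_of_injective_algebraMap (algebraMap ℂ K).injective
  exact h.gens.ne (fphi_ne h.N0)

theorem FC.x0 (h : FC x t c N) : x ≠ 0 := by
  rintro rfl
  have h1 := h.eq
  rw [zero_pow h.N0.ne'] at h1
  exact h.phi0 (neg_eq_zero.1 ((map_eq_zero _).1 h1.symm))

theorem FC.cmp (h : FC x t c N) : ∃ s : ℕ → M → F, Cmp x N s :=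
  exists_cmp h.N0 h.eq (neg_ne_zero.2 h.phi0) h.top h.fin

theorem FC.ordx (h : FC x t c N) {v : Place K F} {P : Place ℂ M} {e : ℕ}
    (hP : Over P (restr v) e) : (N : ℤ) * P.ord x = e * v.ord (aeval t (phi c N)) := by
  rw [← P.ord_pow, h.eq, hP.2, (restr v).ord_neg, restr_ord]

/-- the base change of frames -/
theorem frame_up {B : Fin (n + r) → F} {D₀ : Fin (n + r) → Derivation ℂ F F}
    (hB : IsTranscendenceBasis ℂ B) (hD₀ : ∀ u w, D₀ u (B w) = if u = w then 1 else 0)
    {D : Fin (n + r) → Derivation ℂ M M}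
    (hD : ∀ u w, D u (algebraMap F M (B w)) = if u = w then 1 else 0) (u : Fin (n + r)) (f : F) :
    D u (algebraMap F M f) = algebraMap F M (D₀ u f) := by
  rw [Pool.Agent.W73.PG.PULL.chain B hB D₀ hD₀ (D u) f]
  rw [Finset.sum_eq_single u]
  · rw [hD, if_pos rfl, one_mul]
  · intro w _ hw
    rw [hD, if_neg hw.symm, zero_mul]
  · intro h
    exact absurd (Finset.mem_univ u) h

theorem algebraMap_append {y : Fin n → K} {t : Fin r → F} (w : Fin (n + r)) :
    algebraMap F M ((Fin.append (fun i => algebraMap K F (y i)) t : Fin (n + r) → F) w) =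
      (Fin.append (fun i => algebraMap K M (y i)) (fun p => algebraMap F M (t p)) :
        Fin (n + r) → M) w := by
  refine Fin.addCases (fun i => ?_) (fun p => ?_) w
  · rw [Fin.append_left, Fin.append_left, ← IsScalarTower.algebraMap_apply]
  · rw [Fin.append_right, Fin.append_right]

/-- the values of a regular form on the frame, at the places over the affine space -/
theorem form_adic [Algebra.EssFiniteType ℂ F] [Algebra.EssFiniteType ℂ M]
    (hn : Algebra.trdeg ℂ F = (n + r : ℕ)) {B : Fin (n + r) → F} {v : Place K F}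
    {D₀ : Fin (n + r) → Derivation ℂ F F} (hrg : Rg (restr v) B D₀)
    (hdiv : Divisorial (n + r) (restr v)) {D : Fin (n + r) → Derivation ℂ M M}
    (hD : ∀ u w, D u (algebraMap F M (B w)) = if u = w then 1 else 0)
    {P : Place ℂ M} {e : ℕ} (hP : Over P (restr v) e) {ω : Derivation ℂ M M →ₗ[M] M}
    (hω : RegularForm P ω) (u : Fin (n + r)) : Ge P (1 - e) (ω (D u)) := by
  have h1 : OrdEq (restr v) (frm B 1 1) ((0 : ℤ) : ℚ) := by
    rw [Int.cast_zero]
    exact hrg.gen
  have h2 := up_ordEq hn hP hdiv hrg.bas h1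
  rw [map_one] at h2
  have h3 := form_ge (trdeg_up (L := M) hn) (divisorial_up hP hdiv) hD
    (fun i => hP.reg.2 (hrg.reg i)) h2 hω u
  have h4 : -((e : ℤ) * (0 + (1 : ℕ)) - (1 : ℕ)) = 1 - e := by
    push_cast
    ring
  rwa [h4] at h3

/-- lifts of the vector fields which kill the branch divisor -/
theorem lift_kill {v : Place ℂ F} {T : Derivation ℂ F F} (hT : DerReg v T) {z : F} (hz : z ≠ 0)
    (hTz : T z = 0) (hzv : v.ord z ≠ 0) {T' : Derivation ℂ M M}
    (hT' : ∀ f, T' (algebraMap F M f) = algebraMap F M (T f)) {P : Place ℂ M} {e : ℕ}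
    (hP : Over P v e) : DerReg P T' :=
  Pool.Agent.TH152.AC.reg_of_log (lift_log hP (log_of_kill hT hz hTz hzv) hT')

end

end Pool.Agent.H890
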