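import Pool.Agent.H890.Fo4

/-!
Regular `1`-forms on Fermat coverings: the places at infinity.
-/

set_option autoImplicit false
set_option linter.unusedSectionVars false
set_option linter.overlappingInstances false

open FF MvPolynomial Pool.Agent.W602.GT Pool.Agent.W603.LV Pool.Agent.W619.PQ Pool.Agent.Y172
  Pool.Agent.TH122.AB Pool.Agent.R887

namespace Pool.Agent.H890

section

variable {K F M : Type} [Field K] [Field F] [Field M] [Algebra ℂ K] [Algebra ℂ F]
  [Algebra ℂ M] [Algebra K F] [Algebra F M] [Algebra K M] [IsScalarTower ℂ K F]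
  [IsScalarTower ℂ F M] [IsScalarTower ℂ K M] [IsScalarTower K F M] [FiniteDimensional F M]
  {n r N : ℕ} {x : M} {t : Fin r → F} {c : Fin r → K}

theorem aeval_phi : aeval t (phi c N) = 1 + ∑ p, algebraMap K F (c p) * t p ^ N := by
  unfold phi
  rw [map_add, map_one, map_sum]
  congr 1
  refine Finset.sum_congr rfl fun p _ => ?_
  rw [map_mul, map_pow, aeval_C, aeval_X]

theorem der_phi (D : Derivation ℂ F F) : D (aeval t (phi c N)) =
    ∑ p, (algebraMap K F (c p) * ((N : F) * t p ^ (N - 1) * D (t p)) +
      t p ^ N * D (algebraMap K F (c p))) := by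
  rw [aeval_phi, map_add, Derivation.map_one_eq_zero, zero_add, map_sum]
  refine Finset.sum_congr rfl fun p _ => ?_
  rw [D.leibniz, D.leibniz_pow]
  simp only [smul_eq_mul, nsmul_eq_mul]
  ring

theorem FC.inf_over (h : FC x t c N) {q : Fin r} {v : Place K F} (hv : InfAt t q v) {P : Place ℂ M}
    {e : ℕ} (hP : Over P (restr v) e) : e = 1 ∧ P.ord x = -1 := by
  have hK0 : CharZero K := charZero_of_injective_algebraMap (algebraMap ℂ K).injective
  have htq : t q ≠ 0 := by
    have := h.gens.ne (X_ne_zero q)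
    rwa [aeval_X] at this
  have htM : algebraMap F M (t q) ≠ 0 := by rwa [Ne, map_eq_zero]
  have hphi : v.ord (aeval t (phi c N)) = -(N : ℤ) := by
    rw [hv _ (fphi_ne h.N0), phi_degreeOf h.N0 q (h.c0 q)]
  have htop : IntermediateField.adjoin F {x * (algebraMap F M (t q))⁻¹} = ⊤ := by
    rw [eq_top_iff, ← h.top, IntermediateField.adjoin_le_iff]
    intro z hz
    rw [Set.mem_singleton_iff] at hz
    have h1 := mul_mem (IntermediateField.mem_adjoin_simple_self F (x * (algebraMap F M (t q))⁻¹))
      ((IntermediateField.adjoin F {x * (algebraMap F M (t q))⁻¹}).algebraMap_mem (t q))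
    rw [inv_mul_cancel_right₀ htM] at h1
    rw [hz]
    exact h1
  have he : e = 1 := by
    refine kummer_unr hP h.N0 (z := x * (algebraMap F M (t q))⁻¹)
      (φ := - aeval t (phi c N) * (t q)⁻¹ ^ N) ?_ ?_ ?_
      (gen_of_top (Algebra.IsIntegral.isIntegral _) htop)
    · exact mul_ne_zero (neg_ne_zero.2 h.phi0) (pow_ne_zero _ (inv_ne_zero htq))
    · rw [(restr v).ord_mul (neg_ne_zero.2 h.phi0) (pow_ne_zero _ (inv_ne_zero htq)),
        (restr v).ord_neg, (restr v).ord_pow, (restr v).ord_inv, restr_ord, restr_ord, hphi, hv.var]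
      ring
    · rw [mul_pow, h.eq, map_mul, map_pow, map_inv₀]
  refine ⟨he, ?_⟩
  have h1 := h.ordx hP
  rw [hphi, he] at h1
  have hN : (0 : ℤ) < N := by exact_mod_cast h.N0
  have h2 : (N : ℤ) * (P.ord x + 1) = 0 := by
    push_cast at h1
    linarith
  rcases mul_eq_zero.1 h2 with h3 | h3 <;> omega

variable {y : Fin n → K} {E : Fin n → Derivation ℂ K K}

/-- the values of a regular form on the frame, at infinity -/
theorem FC.inf_form [Algebra.EssFiniteType ℂ F] [Algebra.EssFiniteType ℂ M] (h : FC x t c N)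
    (hn : Algebra.trdeg ℂ F = (n + r : ℕ)) (hy : IsTranscendenceBasis ℂ y)
    (hE : ∀ i j, E i (y j) = if i = j then 1 else 0) {D : Fin (n + r) → Derivation ℂ M M}
    (hD : ∀ u w, D u (algebraMap F M ((Fin.append (fun i => algebraMap K F (y i)) t :
      Fin (n + r) → F) w)) = if u = w then 1 else 0)
    {q : Fin r} {v : Place K F} (hv : InfAt t q v) {P : Place ℂ M}
    {e : ℕ} (hP : Over P (restr v) e) {ω : Derivation ℂ M M →ₗ[M] M}
    (hω : RegularForm P ω) :
    (∀ i : Fin n, Ge P 0 (ω (D (Fin.castAdd r i)))) ∧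
      (∀ p : Fin r, p ≠ q → Ge P 0 (ω (D (Fin.natAdd n p)))) ∧ Ge P 2 (ω (D (Fin.natAdd n q))) := by
  classical
  have hK0 : CharZero K := charZero_of_injective_algebraMap (algebraMap ℂ K).injective
  obtain ⟨he, -⟩ := h.inf_over hv hP
  have htq : t q ≠ 0 := by
    have := h.gens.ne (X_ne_zero q)
    rwa [aeval_X] at this
  have htM : algebraMap F M (t q) ≠ 0 := by rwa [Ne, map_eq_zero]
  obtain ⟨B, hB⟩ : ∃ B : Fin (n + r) → F,
    B = Fin.append (fun i => algebraMap K F (y i)) (Function.update t q (t q)⁻¹) := ⟨_, rfl⟩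
  have hBb : IsTranscendenceBasis ℂ B := by
    rw [hB]
    exact append_basis hy (Gens_basis (gens_inf h.gens q))
  have hBM : IsTranscendenceBasis ℂ (fun u => algebraMap F M (B u)) := hBb.algebraMap_comp
  choose D₀ hD₀ using fun u : Fin (n + r) => exists_der (L := ℂ) B hBb
    (fun w => if u = w then (1 : F) else 0)
  choose D' hD' using fun u : Fin (n + r) => exists_der (L := ℂ) (fun u => algebraMap F M (B u)) hBM
    (fun w => if u = w then (1 : M) else 0)
  have hrg : Rg (restr v) B D₀ := by
    rw [hB]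
    exact hv.rg h.gens hy hE (by rw [← hB]; exact hD₀)
  have hge : ∀ u, Ge P 0 (ω (D' u)) := fun u => by
    have h1 := form_adic hn hrg (hv.divisorial h.gens hy) hD' hP hω u
    rw [he] at h1
    simpa using h1
  -- comparison of the frames
  have hl : ∀ i, B (Fin.castAdd r i) = algebraMap K F (y i) := fun i => by rw [hB, Fin.append_left]
  have hrq : B (Fin.natAdd n q) = (t q)⁻¹ := by
    rw [hB, Fin.append_right, Function.update_self]
  have hro : ∀ p, p ≠ q → B (Fin.natAdd n p) = t p := fun p hp => by
    rw [hB, Fin.append_right, Function.update_of_ne hp]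
  have hDl : ∀ u i, D u (algebraMap F M (algebraMap K F (y i))) =
      if u = Fin.castAdd r i then 1 else 0 := fun u i => by
    have := hD u (Fin.castAdd r i)
    rwa [Fin.append_left] at this
  have hDr : ∀ u p, D u (algebraMap F M (t p)) = if u = Fin.natAdd n p then 1 else 0 := fun u p => by
    have := hD u (Fin.natAdd n p)
    rwa [Fin.append_right] at this
  have hval : ∀ u w, w ≠ Fin.natAdd n q → D u (algebraMap F M (B w)) = if u = w then 1 else 0 := by
    intro u w
    refine Fin.addCases (fun i => ?_) (fun p => ?_) w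
    · intro _
      rw [hl, hDl]
    · intro hp
      have hp' : p ≠ q := fun h => hp (by rw [h])
      rw [hro p hp', hDr]
  have hvalq : ∀ u, D u (algebraMap F M (B (Fin.natAdd n q))) =
      if u = Fin.natAdd n q then -(algebraMap F M (t q))⁻¹ ^ 2 else 0 := by
    intro u
    rw [hrq, map_inv₀, (D u).leibniz_inv, hDr]
    split_ifs
    · rw [smul_eq_mul, mul_one]
    · rw [smul_zero]
  have hexp : ∀ u, ω (D u) = ∑ w, D u (algebraMap F M (B w)) * ω (D' w) := by
    intro u
    conv_lhs => rw [← Pool.Agent.W73.PG.PULL.expand _ hBM D' hD' (D u)]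
    rw [map_sum]
    exact Finset.sum_congr rfl fun w _ => by rw [map_smul, smul_eq_mul]
  have hsame : ∀ u, u ≠ Fin.natAdd n q → ω (D u) = ω (D' u) := by
    intro u hu
    rw [hexp, Finset.sum_eq_single u]
    · rw [hval u u hu, if_pos rfl, one_mul]
    · intro w _ hw
      by_cases hwq : w = Fin.natAdd n q
      · rw [hwq, hvalq, if_neg hu, zero_mul]
      · rw [hval u w hwq, if_neg hw.symm, zero_mul]
    · intro h
      exact absurd (Finset.mem_univ u) h
  refine ⟨fun i => ?_, fun p hp => ?_, ?_⟩
  · rw [hsame]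
    · exact hge _
    · intro h
      have := congrArg Fin.val h
      simp only [Fin.val_castAdd, Fin.val_natAdd] at this
      have := i.2
      omega
  · rw [hsame]
    · exact hge _
    · intro h
      exact hp (Fin.natAdd_injective _ _ h)
  · rw [hexp, Finset.sum_eq_single (Fin.natAdd n q)]
    · rw [hvalq, if_pos rfl]
      have h1 : Ge P 2 (-(algebraMap F M (t q))⁻¹ ^ 2) := by
        refine Ge.neg (Or.inr ?_)
        rw [P.ord_pow, P.ord_inv, hP.2, he, restr_ord, hv.var]
        norm_num
      have h2 := h1.mul (hge (Fin.natAdd n q))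
      rwa [add_zero] at h2
    · intro w _ hw
      rw [hval _ w hw, if_neg hw.symm, zero_mul]
    · intro h
      exact absurd (Finset.mem_univ _) h

end

end Pool.Agent.H890
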