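import Pool.Agent.H890.Fo5

/-!
Regular `1`-forms on Fermat coverings: the vertical part vanishes.
-/

set_option autoImplicit false
set_option linter.unusedSectionVars false
set_option linter.overlappingInstances false

open FF MvPolynomial Pool.Agent.W602.GT Pool.Agent.W603.LV Pool.Agent.W619.PQ Pool.Agent.Y172
  Pool.Agent.TH122.AB Pool.Agent.R887

namespace Pool.Agent.H890

section

variable {K F M : Type} [Field K] [Field F] [Field M] [Algebra ℂ K] [Algebra ℂ F]
  [Algebra ℂ M] [Algebra K F] [Algebra F M] [Algebra K M] [IsScalarTower ℂ K F]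
  [IsScalarTower ℂ F M] [IsScalarTower ℂ K M] [IsScalarTower K F M] [FiniteDimensional F M]
  {n r N : ℕ} {x : M} {t : Fin r → F} {c : Fin r → K} {y : Fin n → K}
  {E : Fin n → Derivation ℂ K K}

/-- the order of the root over the branch divisor -/
theorem FC.over_branch (h : FC x t c N) {f : MvPolynomial (Fin r) K} (hf : Irreducible f)
    {v : Place K F} (hv : AdicAt t f v) (hd : f ∣ phi c N) {p : Fin r} {P : Place ℂ M} {e : ℕ}
    (hP : Over P (restr v) e) : e = N ∧ P.ord x = 1 ∧ v.ord (aeval t (phi c N)) = 1 := by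
  have hK0 : CharZero K := charZero_of_injective_algebraMap (algebraMap ℂ K).injective
  obtain ⟨g, hg⟩ := hd
  have h1 := phi_squarefree h.N0 p (h.c0 p) hf hg
  have h2 : v.ord (aeval t (phi c N)) = 1 := by
    have hg0 : g ≠ 0 := by
      rintro rfl
      rw [mul_zero] at hg
      exact fphi_ne h.N0 hg
    rw [hg, map_mul, v.ord_mul (h.gens.ne hf.ne_zero) (h.gens.ne hg0), hv.1, hv.unit hg0 h1,
      add_zero]
  have h3 := h.ordx hP
  rw [h2, mul_one] at h3
  have hN : (0 : ℤ) < N := by exact_mod_cast h.N0
  have he : (1 : ℤ) ≤ e := by exact_mod_cast hP.1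
  have hle : (e : ℤ) ≤ N := by
    have := over_le hP
    rw [h.fin] at this
    exact_mod_cast this
  have h4 : P.ord x = 1 := by
    apply le_antisymm
    · by_contra hcon
      push Not at hcon
      nlinarith
    · by_contra hcon
      push Not at hcon
      nlinarith
  rw [h4, mul_one] at h3
  exact ⟨by exact_mod_cast h3.symm, h4, h2⟩

/-- the components at the places of the irreducible polynomials -/
theorem FC.comp_adic (h : FC x t c N) {f : MvPolynomial (Fin r) K} (hf : Irreducible f)
    {v : Place K F} (hv : AdicAt t f v) {p : Fin r} {s : F} {i : ℕ} (hi : i < N)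
    (hge : ∀ P e, Over P (restr v) e → Ge P (1 - e) (algebraMap F M s * x ^ i)) :
    v.Reg (aeval t (phi c N) * s) ∧ (i = 0 → v.Reg s) ∧ (¬ f ∣ phi c N → v.Reg s) := by
  have hK0 : CharZero K := charZero_of_injective_algebraMap (algebraMap ℂ K).injective
  by_cases hs : s = 0
  · rw [hs, mul_zero]
    exact ⟨v.reg_zero, fun _ => v.reg_zero, fun _ => v.reg_zero⟩
  obtain ⟨P, e, hP⟩ := exists_above (L := M) (restr v)
  have hsM : algebraMap F M s ≠ 0 := by rwa [Ne, map_eq_zero]
  have h1 := (hge P e hP).resolve_left (mul_ne_zero hsM (pow_ne_zero _ h.x0))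
  rw [P.ord_mul hsM (pow_ne_zero _ h.x0), P.ord_pow, hP.2, restr_ord] at h1
  have hN : (0 : ℤ) < N := by exact_mod_cast h.N0
  have he : (1 : ℤ) ≤ e := by exact_mod_cast hP.1
  by_cases hd : f ∣ phi c N
  · obtain ⟨h2, h3, h4⟩ := h.over_branch hf hv hd (p := p) hP
    rw [h3, h2] at h1
    have hi' : (i : ℤ) < N := by exact_mod_cast hi
    have h5 : -1 ≤ v.ord s := by
      by_contra hcon
      push Not at hcon
      nlinarith
    refine ⟨Or.inr ?_, fun h0 => Or.inr ?_, fun h6 => absurd hd h6⟩
    · rw [v.ord_mul h.phi0 hs, h4]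
      omega
    · rw [h0] at h1
      by_contra hcon
      push Not at hcon
      push_cast at h1
      nlinarith
  · have h2 := h.ordx hP
    rw [hv.unit (fphi_ne h.N0) hd, mul_zero] at h2
    have h3 : P.ord x = 0 := by
      rcases mul_eq_zero.1 h2 with h4 | h4 <;> omega
    rw [h3, mul_zero, add_zero] at h1
    have h5 : 0 ≤ v.ord s := by
      by_contra hcon
      push Not at hcon
      nlinarith
    refine ⟨Or.inr ?_, fun _ => Or.inr h5, fun _ => Or.inr h5⟩
    rw [v.ord_mul h.phi0 hs, hv.unit (fphi_ne h.N0) hd]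
    omega

/-- the components at infinity -/
theorem FC.comp_inf (h : FC x t c N) {q : Fin r} {v : Place K F} (hv : InfAt t q v) {s : F}
    (hs : s ≠ 0) {i : ℕ} {k : ℤ}
    (hge : ∀ P e, Over P (restr v) e → Ge P k (algebraMap F M s * x ^ i)) :
    k + i ≤ v.ord s := by
  obtain ⟨P, e, hP⟩ := exists_above (L := M) (restr v)
  obtain ⟨he, hx⟩ := h.inf_over hv hP
  have hsM : algebraMap F M s ≠ 0 := by rwa [Ne, map_eq_zero]
  have h1 := (hge P e hP).resolve_left (mul_ne_zero hsM (pow_ne_zero _ h.x0))
  rw [P.ord_mul hsM (pow_ne_zero _ h.x0), P.ord_pow, hP.2, restr_ord, he, hx] at h1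
  push_cast at h1
  linarith

/-- the components at the branch divisor, for regular elements -/
theorem FC.comp_branch (h : FC x t c N) {f : MvPolynomial (Fin r) K} (hf : Irreducible f)
    {v : Place K F} (hv : AdicAt t f v) (hd : f ∣ phi c N) {p : Fin r} {s : F} {i : ℕ} (hi : i < N)
    (hge : ∀ P e, Over P (restr v) e → Ge P 0 (algebraMap F M s * x ^ i)) : v.Reg s := by
  by_cases hs : s = 0
  · rw [hs]
    exact v.reg_zero
  obtain ⟨P, e, hP⟩ := exists_above (L := M) (restr v)
  obtain ⟨h2, h3, -⟩ := h.over_branch hf hv hd (p := p) hP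
  have hsM : algebraMap F M s ≠ 0 := by rwa [Ne, map_eq_zero]
  have h1 := (hge P e hP).resolve_left (mul_ne_zero hsM (pow_ne_zero _ h.x0))
  rw [P.ord_mul hsM (pow_ne_zero _ h.x0), P.ord_pow, hP.2, restr_ord, h2, h3] at h1
  have hN : (0 : ℤ) < N := by exact_mod_cast h.N0
  have hi' : (i : ℤ) < N := by exact_mod_cast hi
  right
  by_contra hcon
  push Not at hcon
  nlinarith

/-- **The vertical part of a regular form vanishes.** -/
theorem FC.vert [Algebra.EssFiniteType ℂ F] [Algebra.EssFiniteType ℂ M] (h : FC x t c N)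
    (hn : Algebra.trdeg ℂ F = (n + r : ℕ)) (hy : IsTranscendenceBasis ℂ y)
    (hE : ∀ i j, E i (y j) = if i = j then 1 else 0) {D : Fin (n + r) → Derivation ℂ M M}
    (hD : ∀ u w, D u (algebraMap F M ((Fin.append (fun i => algebraMap K F (y i)) t :
      Fin (n + r) → F) w)) = if u = w then 1 else 0) {ω : Derivation ℂ M M →ₗ[M] M}
    (hω : ∀ P : Place ℂ M, Divisorial (n + r) P → RegularForm P ω) {p q : Fin r} (hpq : p ≠ q) :
    ω (D (Fin.natAdd n p)) = 0 := by
  classical
  have hK0 : CharZero K := charZero_of_injective_algebraMap (algebraMap ℂ K).injective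
  have hM0 : CharZero M := charZero_of_injective_algebraMap (algebraMap ℂ M).injective
  obtain ⟨s, hs⟩ := h.cmp
  have hB := append_basis hy (Gens_basis h.gens)
  choose D₀ hD₀ using fun u : Fin (n + r) => exists_der (L := ℂ) _ hB
    (fun w => if u = w then (1 : F) else 0)
  obtain ⟨hb1, hb2⟩ := frame_base hy hE hD₀
  have hup := frame_up (M := M) hB hD₀ hD
  -- components of the values
  have hadic : ∀ (f : MvPolynomial (Fin r) K), Irreducible f → ∀ v : Place K F, AdicAt t f v →
      ∀ (w : Fin r) (i : ℕ), i < N → ∀ P e, Over P (restr v) e →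
        Ge P (1 - e) (algebraMap F M (s i (ω (D (Fin.natAdd n w)))) * x ^ i) := by
    intro f hf v hv w i hi P e hP
    exact hs.ge (restr v) (fun e => 1 - e) _ (fun P e hP =>
      form_adic hn (hv.rg h.gens hy hE hf hD₀) (hv.divisorial h.gens hy hf) hD hP
        (hω P (divisorial_up hP (hv.divisorial h.gens hy hf))) _) P e hP i hi
  have hinf : ∀ (u : Fin r) (v : Place K F), InfAt t u v → ∀ (w : Fin r) (i : ℕ), i < N →
      s i (ω (D (Fin.natAdd n w))) ≠ 0 →
        (if w = u then (2 : ℤ) else 0) + i ≤ v.ord (s i (ω (D (Fin.natAdd n w)))) := by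
    intro u v hv w i hi h0
    refine h.comp_inf hv h0 fun P e hP => ?_
    refine hs.ge (restr v) (fun _ => if w = u then (2 : ℤ) else 0) _ (fun P e hP => ?_) P e hP i hi
    obtain ⟨-, h2, h3⟩ := h.inf_form hn hy hE hD hv hP
      (hω P (divisorial_up hP (hv.divisorial h.gens hy)))
    by_cases hwu : w = u
    · rw [if_pos hwu, hwu]
      exact h3
    · rw [if_neg hwu]
      exact h2 w hwu
  -- the relation
  obtain ⟨a, ha⟩ : ∃ a : Fin r → F, a = fun w => algebraMap K F (c w) * t w ^ (N - 1) := ⟨_, rfl⟩
  have hvert : ∀ w : Fin r, D₀ (Fin.natAdd n w) (aeval t (phi c N)) = (N : F) * a w := by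
    intro w
    rw [der_phi, Finset.sum_eq_single w, hb2, mul_zero, add_zero, ha]
    · have h1 := hD₀ (Fin.natAdd n w) (Fin.natAdd n w)
      rw [Fin.append_right, if_pos rfl] at h1
      rw [h1]
      ring
    · intro u _ hu
      have h1 := hD₀ (Fin.natAdd n w) (Fin.natAdd n u)
      rw [Fin.append_right, if_neg fun h => hu (Fin.natAdd_injective _ _ h).symm] at h1
      rw [h1, hb2, mul_zero, mul_zero, mul_zero, add_zero]
    · intro h
      exact absurd (Finset.mem_univ _) h
  have hrel : ∀ (f : MvPolynomial (Fin r) K), Irreducible f → ∀ v : Place K F, AdicAt t f v →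
      f ∣ phi c N → ∀ P e, Over P (restr v) e →
        Ge P 0 (algebraMap F M (a p) * ω (D (Fin.natAdd n q)) +
          algebraMap F M (-(a q)) * ω (D (Fin.natAdd n p))) := by
    intro f hf v hv hd P e hP
    have hrg := hv.rg h.gens hy hE hf hD₀
    have hareg : ∀ w, (restr v).Reg (a w) := fun w => by
      have h1 : a w = aeval t (C (c w) * X w ^ (N - 1)) := by
        rw [map_mul, map_pow, aeval_C, aeval_X, ha]
      rw [h1]
      exact hv.nonneg _
    have h1 : DerReg P (algebraMap F M (a p) • D (Fin.natAdd n q) +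
        algebraMap F M (-(a q)) • D (Fin.natAdd n p)) := by
      refine lift_kill (v := restr v) (T := a p • D₀ (Fin.natAdd n q) + (-(a q)) •
        D₀ (Fin.natAdd n p)) (fun g hg => ?_) h.phi0 ?_ ?_ (fun g => ?_) hP
      · rw [Derivation.add_apply, Derivation.smul_apply, Derivation.smul_apply, smul_eq_mul,
          smul_eq_mul]
        exact (restr v).reg_add ((restr v).reg_mul (hareg p) (hrg.pres _ g hg))
          ((restr v).reg_mul ((restr v).reg_neg (hareg q)) (hrg.pres _ g hg))
      · rw [Derivation.add_apply, Derivation.smul_apply, Derivation.smul_apply, smul_eq_mul,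
          smul_eq_mul, hvert, hvert]
        ring
      · rw [restr_ord, (h.over_branch hf hv hd (p := p) hP).2.2]
        exact one_ne_zero
      · rw [Derivation.add_apply, Derivation.smul_apply, Derivation.smul_apply,
          Derivation.add_apply, Derivation.smul_apply, Derivation.smul_apply, hup, hup]
        simp only [smul_eq_mul, map_add, map_mul]
    have h2 := hω P (divisorial_up hP (hv.divisorial h.gens hy hf)) _ h1
    rw [map_add, map_smul, map_smul, smul_eq_mul, smul_eq_mul] at h2
    exact h2
  -- the components vanish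
  have hzero : ∀ i < N, s i (ω (D (Fin.natAdd n p))) = 0 := by
    intro i hi
    by_contra hsp
    obtain ⟨σ, hσ⟩ : ∃ σ : Fin r → F, σ = fun w => s i (ω (D (Fin.natAdd n w))) := ⟨_, rfl⟩
    have hσp : σ p ≠ 0 := by rw [hσ]; exact hsp
    by_cases hi0 : i = 0
    · obtain ⟨g, hg⟩ := poly_of_reg h.gens (z := σ p) fun f hf v hv1 hv2 => by
        have hv : AdicAt t f v := ⟨hv1, hv2⟩
        rw [hσ]
        exact (h.comp_adic hf hv (p := p) hi (hadic f hf v hv p i hi)).2.1 hi0
      have hg0 : g ≠ 0 := by
        rintro rfl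
        rw [map_zero] at hg
        exact hσp hg
      obtain ⟨v, hv⟩ := exists_inf h.gens p
      have h1 := hinf p v hv p i hi hsp
      have h2 : v.ord (s i (ω (D (Fin.natAdd n p)))) = -(g.degreeOf p : ℤ) := by
        have h3 : s i (ω (D (Fin.natAdd n p))) = aeval t g := by
          rw [← hg, hσ]
        rw [h3, hv g hg0]
      rw [if_pos rfl, h2] at h1
      omega
    · have hG : ∀ w, ∃ g : MvPolynomial (Fin r) K, aeval t (phi c N) * σ w = aeval t g := by
        intro w
        refine poly_of_reg h.gens fun f hf v hv1 hv2 => ?_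
        have hv : AdicAt t f v := ⟨hv1, hv2⟩
        rw [hσ]
        exact (h.comp_adic hf hv (p := p) hi (hadic f hf v hv w i hi)).1
      choose G hG using hG
      have hdeg : ∀ u w, G w ≠ 0 → (if w = u then (2 : ℤ) else 0) + i + (G w).degreeOf u ≤ N := by
        intro u w hw
        have hσw : σ w ≠ 0 := by
          intro h0
          have h1 := hG w
          rw [h0, mul_zero] at h1
          exact h.gens.ne hw h1.symm
        obtain ⟨v, hv⟩ := exists_inf h.gens u
        have h1 := hinf u v hv w i hi (by rw [hσ] at hσw; exact hσw)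
        have h2 : v.ord (s i (ω (D (Fin.natAdd n w)))) = v.ord (σ w) := by rw [hσ]
        rw [h2] at h1
        have h3 := congrArg v.ord (hG w)
        rw [v.ord_mul h.phi0 hσw, hv _ (fphi_ne h.N0), phi_degreeOf h.N0 u (h.c0 u), hv _ hw] at h3
        linarith
      -- the relation between the components
      obtain ⟨R, hR⟩ := poly_of_reg h.gens (z := a p * σ q - a q * σ p) fun f hf v hv1 hv2 => by
        have hv : AdicAt t f v := ⟨hv1, hv2⟩
        by_cases hd : f ∣ phi c N
        · have h1 := fun P e hP => hs.ge (restr v) (fun _ => 0) _ (hrel f hf v hv hd) P e hP i hi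
          rw [hs.lin i hi] at h1
          have h2 := h.comp_branch hf hv hd (p := p) hi h1
          have h3 : a p * σ q - a q * σ p = a p * s i (ω (D (Fin.natAdd n q))) +
              -(a q) * s i (ω (D (Fin.natAdd n p))) := by
            rw [hσ]
            ring
          rw [h3]
          exact h2
        · have h1 : ∀ w, v.Reg (σ w) := fun w => by
            rw [hσ]
            exact (h.comp_adic hf hv (p := p) hi (hadic f hf v hv w i hi)).2.2 hd
          have h2 : ∀ w, v.Reg (a w) := fun w => by
            have h1 : a w = aeval t (C (c w) * X w ^ (N - 1)) := by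
              rw [map_mul, map_pow, aeval_C, aeval_X, ha]
            rw [h1]
            exact hv.nonneg _
          rw [sub_eq_add_neg]
          exact v.reg_add (v.reg_mul (h2 p) (h1 q)) (v.reg_neg (v.reg_mul (h2 q) (h1 p)))
      have hGp : G p ≠ 0 := by
        intro h0
        have h1 := hG p
        rw [h0, map_zero] at h1
        exact mul_ne_zero h.phi0 hσp h1
      have hi1 : 1 ≤ i := Nat.pos_of_ne_zero hi0
      have e1 := hdeg p p hGp
      have e2 := hdeg q p hGp
      rw [if_pos rfl] at e1
      rw [if_neg hpq] at e2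
      have e3 : (G q).degreeOf q + 2 ≤ N ∧ (G q).degreeOf p + 1 ≤ N := by
        by_cases hGq : G q = 0
        · rw [hGq, degreeOf_zero, degreeOf_zero]
          omega
        · have e4 := hdeg q q hGq
          have e5 := hdeg p q hGq
          rw [if_pos rfl] at e4
          rw [if_neg hpq.symm] at e5
          omega
      refine hGp (phi_syz (c := c) h.N0 hpq (h.c0 p) (h.c0 q) (Gq := G q) (R := R) ?_ (by omega)
        e3.1 (by omega) e3.2)
      apply h.gens.inj
      rw [map_sub, map_mul, map_mul, map_mul, map_mul, map_mul, map_pow, map_pow, aeval_C, aeval_C,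
        aeval_X, aeval_X, ← hG, ← hG, ← hR, ha]
      ring
  have h1 := hs.sum (ω (D (Fin.natAdd n p)))
  rw [Finset.sum_eq_zero fun i hi => by
    rw [hzero i (Finset.mem_range.1 hi), map_zero, zero_mul]] at h1
  exact (mul_eq_zero.1 h1).resolve_left (Nat.cast_ne_zero.2 h.N0.ne')

end

end Pool.Agent.H890
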