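import Pool.Agent.H890.Fo6

/-!
Regular `1`-forms on Fermat coverings.
-/

set_option autoImplicit false
set_option linter.unusedSectionVars false
set_option linter.overlappingInstances false

open FF MvPolynomial Pool.Agent.W602.GT Pool.Agent.W603.LV Pool.Agent.W619.PQ Pool.Agent.Y172
  Pool.Agent.TH122.AB Pool.Agent.R887

namespace Pool.Agent.H890

section

variable {K F M : Type} [Field K] [Field F] [Field M] [Algebra ℂ K] [Algebra ℂ F]
  [Algebra ℂ M] [Algebra K F] [Algebra F M] [Algebra K M] [IsScalarTower ℂ K F]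
  [IsScalarTower ℂ F M] [IsScalarTower ℂ K M] [IsScalarTower K F M] [FiniteDimensional F M]
  {n r N : ℕ} {x : M} {t : Fin r → F} {c : Fin r → K} {y : Fin n → K}
  {E : Fin n → Derivation ℂ K K}

/-- **The horizontal part of a regular form is constant.** -/
theorem FC.hor_const [Algebra.EssFiniteType ℂ F] [Algebra.EssFiniteType ℂ M] (h : FC x t c N)
    (hn : Algebra.trdeg ℂ F = (n + r : ℕ)) (hy : IsTranscendenceBasis ℂ y)
    (hE : ∀ i j, E i (y j) = if i = j then 1 else 0) {D : Fin (n + r) → Derivation ℂ M M}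
    (hD : ∀ u w, D u (algebraMap F M ((Fin.append (fun i => algebraMap K F (y i)) t :
      Fin (n + r) → F) w)) = if u = w then 1 else 0) {ω : Derivation ℂ M M →ₗ[M] M}
    (hω : ∀ P : Place ℂ M, Divisorial (n + r) P → RegularForm P ω)
    (hv0 : ∀ p, ω (D (Fin.natAdd n p)) = 0) (q : Fin r) (k : Fin n) :
    ∃ b : K, ω (D (Fin.castAdd r k)) = algebraMap K M b := by
  classical
  have hK0 : CharZero K := charZero_of_injective_algebraMap (algebraMap ℂ K).injective
  have hF0 : CharZero F := charZero_of_injective_algebraMap (algebraMap ℂ F).injective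
  have hM0 : CharZero M := charZero_of_injective_algebraMap (algebraMap ℂ M).injective
  obtain ⟨s, hs⟩ := h.cmp
  have hB := append_basis hy (Gens_basis h.gens)
  choose D₀ hD₀ using fun u : Fin (n + r) => exists_der (L := ℂ) _ hB
    (fun w => if u = w then (1 : F) else 0)
  obtain ⟨hb1, hb2⟩ := frame_base hy hE hD₀
  have hup := frame_up (M := M) hB hD₀ hD
  obtain ⟨a, ha⟩ : ∃ a : F, a = algebraMap K F (c q) * t q ^ (N - 1) := ⟨_, rfl⟩
  have htq : t q ≠ 0 := by
    have := h.gens.ne (X_ne_zero q)
    rwa [aeval_X] at this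
  have ha0 : a ≠ 0 := by
    rw [ha]
    refine mul_ne_zero ?_ (pow_ne_zero _ htq)
    rw [Ne, map_eq_zero]
    exact h.c0 q
  have hNF : (N : F) ≠ 0 := Nat.cast_ne_zero.2 h.N0.ne'
  have hvert : D₀ (Fin.natAdd n q) (aeval t (phi c N)) = (N : F) * a := by
    rw [der_phi, Finset.sum_eq_single q, hb2, mul_zero, add_zero, ha]
    · have h1 := hD₀ (Fin.natAdd n q) (Fin.natAdd n q)
      rw [Fin.append_right, if_pos rfl] at h1
      rw [h1]
      ring
    · intro u _ hu
      have h1 := hD₀ (Fin.natAdd n q) (Fin.natAdd n u)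
      rw [Fin.append_right, if_neg fun h => hu (Fin.natAdd_injective _ _ h).symm] at h1
      rw [h1, hb2, mul_zero, mul_zero, mul_zero, add_zero]
    · intro h
      exact absurd (Finset.mem_univ _) h
  -- finite places
  have hfin : ∀ i < N, ∀ f : MvPolynomial (Fin r) K, Irreducible f → ∀ v : Place K F,
      AdicAt t f v → v.Reg (s i (ω (D (Fin.castAdd r k)))) := by
    intro i hi f hf v hv
    have hrg := hv.rg h.gens hy hE hf hD₀
    have hdiv := hv.divisorial h.gens hy hf
    by_cases hd : f ∣ phi c N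
    · refine h.comp_branch hf hv hd (p := q) hi fun P e hP => ?_
      refine hs.ge (restr v) (fun _ => 0) _ (fun P e hP => ?_) P e hP i hi
      -- the lift of the vector field which kills the branch divisor
      have haP : (restr v).ord a = 0 := by
        have h1 : a = aeval t (C (c q) * X q ^ (N - 1)) := by
          rw [map_mul, map_pow, aeval_C, aeval_X, ha]
        rw [restr_ord, h1]
        refine hv.unit ?_ fun h2 => ?_
        · exact mul_ne_zero (by rw [Ne, C_eq_zero]; exact h.c0 q) (pow_ne_zero _ (X_ne_zero q))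
        · rw [((isUnit_iff_ne_zero.2 (h.c0 q)).map C).dvd_mul_left] at h2
          exact not_dvd_X h.N0 hf hd q (hf.prime.dvd_of_dvd_pow h2)
      obtain ⟨β, hβ⟩ : ∃ β, β = -(D₀ (Fin.castAdd r k) (aeval t (phi c N)) * ((N : F) * a)⁻¹) :=
        ⟨_, rfl⟩
      have hβreg : (restr v).Reg β := by
        rw [hβ]
        refine (restr v).reg_neg ((restr v).reg_mul (hrg.pres _ _ (hv.nonneg _)) (Or.inr ?_))
        have h1 : (restr v).ord ((N : F)) = 0 := by
          have h2 : (N : F) = algebraMap ℂ F (N : ℂ) := by rw [map_natCast]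
          rw [h2]
          exact (restr v).ord_const (Nat.cast_ne_zero.2 h.N0.ne')
        rw [(restr v).ord_inv, (restr v).ord_mul hNF ha0, h1, haP]
        norm_num
      have h1 : DerReg P (D (Fin.castAdd r k) + algebraMap F M β • D (Fin.natAdd n q)) := by
        refine lift_kill (v := restr v) (T := D₀ (Fin.castAdd r k) + β • D₀ (Fin.natAdd n q))
          (fun g hg => ?_) h.phi0 ?_ ?_ (fun g => ?_) hP
        · rw [Derivation.add_apply, Derivation.smul_apply, smul_eq_mul]
          exact (restr v).reg_add (hrg.pres _ g hg) ((restr v).reg_mul hβreg (hrg.pres _ g hg))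
        · rw [Derivation.add_apply, Derivation.smul_apply, smul_eq_mul, hvert, hβ, neg_mul,
            mul_assoc, inv_mul_cancel₀ (mul_ne_zero hNF ha0), mul_one, add_neg_cancel]
        · rw [restr_ord, (h.over_branch hf hv hd (p := q) hP).2.2]
          exact one_ne_zero
        · rw [Derivation.add_apply, Derivation.smul_apply, Derivation.add_apply,
            Derivation.smul_apply, hup, hup]
          simp only [smul_eq_mul, map_add, map_mul]
      have h2 := hω P (divisorial_up hP hdiv) _ h1
      rw [map_add, map_smul, hv0, smul_zero, add_zero] at h2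
      exact h2
    · refine (h.comp_adic hf hv (p := q) hi fun P e hP => ?_).2.2 hd
      exact hs.ge (restr v) (fun e => 1 - e) _ (fun P e hP =>
        form_adic hn hrg hdiv hD hP (hω P (divisorial_up hP hdiv)) _) P e hP i hi
  have hpoly : ∀ i < N, ∃ g : MvPolynomial (Fin r) K, s i (ω (D (Fin.castAdd r k))) = aeval t g ∧
      (g ≠ 0 → i = 0 ∧ ∀ u, g.degreeOf u = 0) := by
    intro i hi
    obtain ⟨g, hg⟩ := poly_of_reg h.gens (z := s i (ω (D (Fin.castAdd r k)))) fun f hf v hv1 hv2 =>
      hfin i hi f hf v ⟨hv1, hv2⟩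
    refine ⟨g, hg, fun hg0 => ?_⟩
    have h1 : ∀ u, (i : ℤ) + g.degreeOf u ≤ 0 := by
      intro u
      obtain ⟨v, hv⟩ := exists_inf h.gens u
      have h2 := h.comp_inf hv (s := s i (ω (D (Fin.castAdd r k)))) (by
        rw [hg]
        exact h.gens.ne hg0) (i := i) (k := 0) fun P e hP =>
          hs.ge (restr v) (fun _ => 0) _ (fun P e hP => (h.inf_form hn hy hE hD hv hP
            (hω P (divisorial_up hP (hv.divisorial h.gens hy)))).1 k) P e hP i hi
      rw [hg, hv g hg0] at h2
      linarith
    have h2 := h1 q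
    exact ⟨by omega, fun u => by have := h1 u; omega⟩
  obtain ⟨g, hg, hg'⟩ := hpoly 0 h.N0
  have hgc : ∃ b : K, aeval t g = algebraMap K F b := by
    by_cases hg0 : g = 0
    · exact ⟨0, by rw [hg0, map_zero, map_zero]⟩
    · have h1 : g.totalDegree = 0 := by
        rw [totalDegree_eq_zero_iff]
        intro m hm i
        have h2 := monomial_le_degreeOf i hm
        rw [(hg' hg0).2] at h2
        omega
      rw [totalDegree_eq_zero_iff_eq_C] at h1
      refine ⟨coeff 0 g, ?_⟩
      conv_lhs => rw [h1]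
      rw [aeval_C]
  obtain ⟨b, hb⟩ := hgc
  have h1 := hs.sum (ω (D (Fin.castAdd r k)))
  rw [Finset.sum_eq_single 0] at h1
  · rw [pow_zero, mul_one, hg, hb, ← IsScalarTower.algebraMap_apply] at h1
    have hNM : (N : M) ≠ 0 := Nat.cast_ne_zero.2 h.N0.ne'
    refine ⟨b / N, ?_⟩
    rw [map_div₀, map_natCast, ← h1]
    field_simp
  · intro i hi hi0
    obtain ⟨g', hg1, hg2⟩ := hpoly i (Finset.mem_range.1 hi)
    have h2 : g' = 0 := by
      by_contra h3
      exact hi0 (hg2 h3).1
    rw [hg1, h2, map_zero, map_zero, zero_mul]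
  · intro h2
    exact absurd (Finset.mem_range.2 h.N0) h2

/-- **Regular `1`-forms on Fermat coverings.** -/
theorem FC.noForms [Algebra.EssFiniteType ℂ K] [Algebra.EssFiniteType ℂ F]
    [Algebra.EssFiniteType ℂ M] (h : FC x t c N) (hn : Algebra.trdeg ℂ K = n) (hn1 : 0 < n)
    (hr : 1 < r) (hK : NoForms K n) : NoForms M (n + r) := by
  classical
  intro ω hω
  have hK0 : CharZero K := charZero_of_injective_algebraMap (algebraMap ℂ K).injective
  obtain ⟨y, E, hy, hE⟩ := exists_crd hn
  have hB := append_basis hy (Gens_basis h.gens)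
  have hnF : Algebra.trdeg ℂ F = (n + r : ℕ) := by
    rw [← hB.cardinalMk_eq_trdeg]
    simp
  have hBM : IsTranscendenceBasis ℂ (fun u => algebraMap F M
    ((Fin.append (fun i => algebraMap K F (y i)) t : Fin (n + r) → F) u)) := hB.algebraMap_comp
  choose D hD using fun u : Fin (n + r) => exists_der (L := ℂ) _ hBM
    (fun w => if u = w then (1 : M) else 0)
  have hv0 : ∀ p, ω (D (Fin.natAdd n p)) = 0 := by
    intro p
    have : Nontrivial (Fin r) := Fin.nontrivial_iff_two_le.2 hr
    obtain ⟨q, hq⟩ := exists_ne p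
    exact h.vert hnF hy hE hD hω hq.symm
  have ha : ∀ k : Fin n, ∃ b : K, ω (D (Fin.castAdd r k)) = algebraMap K M b :=
    h.hor_const hnF hy hE hD hω hv0 ⟨0, by omega⟩
  choose b hb using ha
  have hexp : ∀ T : Derivation ℂ M M, ω T = ∑ i : Fin n, T (algebraMap K M (y i)) *
      algebraMap K M (b i) := by
    intro T
    conv_lhs => rw [← Pool.Agent.W73.PG.PULL.expand _ hBM D hD T]
    rw [map_sum, Fin.sum_univ_add, Finset.sum_eq_zero (s := Finset.univ (α := Fin r)), add_zero]
    · refine Finset.sum_congr rfl fun i _ => ?_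
      rw [map_smul, smul_eq_mul, hb, Fin.append_left, ← IsScalarTower.algebraMap_apply]
    · intro p _
      rw [map_smul, hv0, smul_zero]
  have hbase : baseForm y b = 0 := by
    refine hK _ fun Q hQ T hT => ?_
    obtain ⟨Y, G, i0, hY⟩ := exists_loc hn hQ
    obtain ⟨π, hπ0, hπ⟩ := Q.surj
    -- the coordinates
    obtain ⟨m, hm⟩ : ∃ m : ℕ, ∀ p, 1 ≤ (N : ℤ) * m + Q.ord (c p) := by
      refine ⟨1 + ∑ p, (Q.ord (c p)).natAbs, fun p => ?_⟩
      have h1 : (Q.ord (c p)).natAbs ≤ ∑ p, (Q.ord (c p)).natAbs :=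
        Finset.single_le_sum (f := fun p => (Q.ord (c p)).natAbs) (fun i _ => Nat.zero_le _)
          (Finset.mem_univ p)
      have h2 : (1 : ℤ) ≤ N := by exact_mod_cast h.N0
      have h3 : (((Q.ord (c p)).natAbs : ℕ) : ℤ) ≤ ((∑ p, (Q.ord (c p)).natAbs : ℕ) : ℤ) := by
        exact_mod_cast h1
      have h4 : -(((Q.ord (c p)).natAbs : ℕ) : ℤ) ≤ Q.ord (c p) := by omega
      have h5 : (0 : ℤ) ≤ ((∑ p, (Q.ord (c p)).natAbs : ℕ) : ℤ) := Int.natCast_nonneg _
      rw [Nat.cast_add, Nat.cast_one]
      nlinarith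
    obtain ⟨g, hg⟩ : ∃ g, g = π ^ m := ⟨_, rfl⟩
    have hg0 : g ≠ 0 := hg ▸ pow_ne_zero _ hπ0
    have hgF : algebraMap K F g ≠ 0 := by rwa [Ne, map_eq_zero]
    obtain ⟨t', ht'⟩ : ∃ t' : Fin r → F, t' = fun p => t p * algebraMap K F g⁻¹ := ⟨_, rfl⟩
    have htt : ∀ p, t p = t' p * algebraMap K F g := fun p => by
      rw [ht']
      change t p = t p * _ * _
      rw [mul_assoc, ← map_mul, inv_mul_cancel₀ hg0, map_one, mul_one]
    have hgens' : Gens (k := K) t' := gens_change h.gens fun p => by
      rw [htt]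
      exact mul_mem (IntermediateField.subset_adjoin K _ ⟨p, rfl⟩)
        (IntermediateField.algebraMap_mem _ _)
    obtain ⟨P₀, hP₀⟩ := exists_gauss hgens' Q 0
    have hga : IsGauss t' Q P₀ := hP₀
    have hP₀d : Divisorial (n + r) P₀ := hga.divisorial hgens' hn1 hQ
    obtain ⟨P, e, hP⟩ := exists_above (L := M) P₀
    -- the covering is not ramified
    have hφ1 : Ge P₀ 1 (aeval t (phi c N) - 1) := by
      rw [aeval_phi, add_sub_cancel_left]
      refine Ge.sum (P := P₀) _ _ fun p _ => ?_
      have htp : t' p ≠ 0 := by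
        have := hgens'.ne (X_ne_zero p)
        rwa [aeval_X] at this
      have hcF : algebraMap K F (c p) ≠ 0 := by
        rw [Ne, map_eq_zero]
        exact h.c0 p
      right
      rw [htt, mul_pow, P₀.ord_mul hcF (mul_ne_zero (pow_ne_zero _ htp) (pow_ne_zero _ hgF)),
        P₀.ord_mul (pow_ne_zero _ htp) (pow_ne_zero _ hgF), P₀.ord_pow, P₀.ord_pow, hga.var,
        hga.base, hga.base, hg, Q.ord_pow, hπ]
      have := hm p
      linarith
    have hφ : P₀.ord (aeval t (phi c N)) = 0 := by
      have h1 : P₀.Reg (aeval t (phi c N)) := by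
        have h2 := P₀.reg_add ((reg_iff_ge _ _).2 (hφ1.mono zero_le_one)) P₀.reg_one
        rwa [sub_add_cancel] at h2
      have h2 := (P₀.reg_iff h.phi0).1 h1
      by_contra hcon
      have h3 : Ge P₀ 1 (aeval t (phi c N)) := Or.inr (by omega)
      have h4 := h3.sub hφ1
      rw [sub_sub_cancel] at h4
      rcases h4 with h5 | h5
      · exact one_ne_zero h5
      · rw [P₀.ord_one] at h5
        omega
    have he : e = 1 := kummer_unr hP h.N0 (z := x) (φ := - aeval t (phi c N))
      (neg_ne_zero.2 h.phi0) (by rw [P₀.ord_neg, hφ]) h.eq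
      (gen_of_top (Algebra.IsIntegral.isIntegral _) h.top)
    subst he
    obtain ⟨D₁, hD₁, -⟩ := exists_rg hgens' (A := osub Q) hY.bas hY.dual (fun i => hY.reg i)
      (fun i a ha => hY.pres i a ha) (hga.reg fun a ha => ha)
      (fun x hx => hga.rep hgens' (fun a ha => ha) hx)
    have hB'M : IsTranscendenceBasis ℂ (fun u => algebraMap F M
      ((Fin.append (fun i => algebraMap K F (Y i)) t' : Fin (n + r) → F) u)) :=
      hD₁.bas.algebraMap_comp
    choose D' hD' using fun u : Fin (n + r) => exists_der (L := ℂ) _ hB'M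
      (fun w => if u = w then (1 : M) else 0)
    have hval : ∀ j : Fin n, Q.Reg (baseForm y b (G j)) := by
      intro j
      have h1 : OrdEq P₀ (frm (Fin.append (fun i => algebraMap K F (Y i)) t' : Fin (n + r) → F)
          1 1) ((0 : ℤ) : ℚ) := by
        rw [Int.cast_zero]
        exact hD₁.gen
      have h2 := up_ordEq hnF hP hP₀d hD₁.bas h1
      rw [map_one] at h2
      have h3 := form_ge (trdeg_up (L := M) hnF) (divisorial_up hP hP₀d) hD'
        (fun i => hP.reg.2 (hD₁.reg i)) h2 (hω P (divisorial_up hP hP₀d)) (Fin.castAdd r j)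
      have h4 : -((((1 : ℕ) : ℤ)) * (0 + (1 : ℕ)) - (1 : ℕ)) = 0 := by
        norm_num
      rw [h4, hexp] at h3
      have h5 : ∀ f : K, D' (Fin.castAdd r j) (algebraMap K M f) = algebraMap K M (G j f) := by
        have h6 : ∀ u w, D' u ((Fin.append (fun i => algebraMap K M (Y i))
            (fun p => algebraMap F M (t' p)) : Fin (n + r) → M) w) = if u = w then 1 else 0 := by
          intro u w
          rw [← algebraMap_append]
          exact hD' u w
        exact (frame_base hY.bas hY.dual h6).1 j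
      simp only [h5, ← map_mul] at h3
      rw [← map_sum] at h3
      have h6 : ∀ f : K, P.ord (algebraMap K M f) = Q.ord f := by
        intro f
        rw [IsScalarTower.algebraMap_apply K F M, hP.2, hga.base, Nat.cast_one, one_mul]
      exact reg_smul_iff h6 ((reg_iff_ge _ _).2 h3)
    have h1 : baseForm y b T = ∑ j, T (Y j) * baseForm y b (G j) := by
      conv_lhs => rw [← Pool.Agent.W73.PG.PULL.expand _ hY.bas G hY.dual T]
      rw [map_sum]
      exact Finset.sum_congr rfl fun j _ => by rw [map_smul, smul_eq_mul]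
    rw [h1]
    refine Ge.sum (P := Q) (N := 0) _ _ fun j _ => ?_
    exact Q.reg_mul (hT _ (hY.reg j)) (hval j)
  have hb0 := baseForm_zero hE hbase
  apply LinearMap.ext
  intro T
  rw [hexp, LinearMap.zero_apply]
  refine Finset.sum_eq_zero fun i _ => ?_
  rw [hb0, map_zero, mul_zero]

end

end Pool.Agent.H890
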