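import Pool.Agent.H890.Num
import Pool.Agent.H890.Top4

/-!
Main theorems: numerically semiample divisors and Fermat coverings.
-/

set_option autoImplicit false
set_option linter.unusedSectionVars false
set_option linter.overlappingInstances false

open FF MvPolynomial Pool.Agent.W602.GT Pool.Agent.W603.LV Pool.Agent.Y172
  Pool.Agent.TH122.AB Pool.Agent.R887

namespace Pool.Agent.H890

theorem ordEq_of_pow {K : Type} [Field K] [Algebra ℂ K] {n : ℕ} {P : Place ℂ K}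
    {ω : (Fin n → Derivation ℂ K K) → K} {k : ℕ} (hk : 0 < k)
    (h : OrdEq P (fun D => ω D ^ k) 0) : OrdEq P ω 0 := by
  have hk0 : (0 : ℚ) < k := by exact_mod_cast hk
  constructor
  · intro E hE
    rcases h.1 E hE with h1 | h1
    · exact Or.inl (pow_eq_zero_iff hk.ne' |>.1 h1)
    · right
      rw [P.ord_pow] at h1
      push_cast at h1
      by_contra h2
      push Not at h2
      nlinarith
  · obtain ⟨E, hE, h1, h2⟩ := h.2
    have h1' : ω E ^ k ≠ 0 := h1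
    refine ⟨E, hE, fun h3 => h1' (by rw [h3, zero_pow hk.ne']), ?_⟩
    rw [P.ord_pow] at h2
    push_cast at h2
    rcases mul_eq_zero.1 h2 with h3 | h3
    · exact absurd h3 hk0.ne'
    · exact h3

section

variable {K L M : Type} [Field K] [Field L] [Field M] [Algebra ℂ K] [Algebra ℂ L]
  [Algebra ℂ M] [Algebra K L] [Algebra L M] [Algebra K M] [IsScalarTower ℂ K L]
  [IsScalarTower ℂ L M] [IsScalarTower ℂ K M] [IsScalarTower K L M] [FiniteDimensional L M]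
  {N : ℕ} {y : Fin (N + 1) → K} {n r : ℕ} {G : Place ℂ K → ℤ}
  {S : Mod K L M y n r G} {s : K} {z : Fin (r + 2) → M} {w : ℤ} {ζ : ℂ} {W : Place ℂ M}

/-- **The canonical divisor of a Fermat covering is trivial.** -/
theorem Fer.zero_canonical (h : Fer S s z w) (hn1 : 1 ≤ n) {Λ : Place ℂ K → ℤ}
    (hD : Divides y n (r + 2) G Λ s)
    (hC : CanonicalDivisor y n fun P => -((w : ℚ) * Λ P)) : CanonicalDivisor S.v (n + r) 0 := by
  classical
  obtain ⟨ω, hω, hωo⟩ := hC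
  obtain ⟨x, E, hx, hE⟩ := exists_crd h.trK
  obtain ⟨Q₀, hQ₀⟩ := exists_divisorial h.trK hn1 S.ny
  obtain ⟨D₀, hD₀, -⟩ := exists_through S.ny Q₀
  have ha : ω E ≠ 0 := val_ne hω hx hE (hωo D₀ hD₀)
  obtain ⟨η, hη⟩ : ∃ η : (Fin n → Derivation ℂ K K) → K,
      η = fun D => s ^ (-(2 * w)) * ω D ^ (2 * (r + 2)) := ⟨_, rfl⟩
  have hs0 : s ^ (-(2 * w)) ≠ 0 := zpow_ne_zero _ h.s0
  have hηp : IsPluri (2 * ((r + 2) * 1)) η := by
    have h1 := pluri_smul' (pluri_pow hω (2 * (r + 2))) (s ^ (-(2 * w)))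
    rw [show 1 * (2 * (r + 2)) = 2 * ((r + 2) * 1) by ring] at h1
    rw [hη]
    exact h1
  have hηE : η E ≠ 0 := by
    rw [hη]
    exact mul_ne_zero hs0 (pow_ne_zero _ ha)
  have hηo : ∀ D, IsPrimeDivisor y D → OrdEq D η ((-(2 * w * G D) : ℤ) : ℚ) := by
    intro D hD'
    have h1 := ordEq_smul hs0 (ordEq_pow (hωo D hD') (2 * (r + 2)))
    rw [D.ord_zpow, hD.div D hD'] at h1
    rw [hη]
    convert h1 using 1
    push_cast
    ring
  obtain ⟨Ω, hΩ⟩ : ∃ Ω : (Fin (n + r) → Derivation ℂ M M) → M,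
      Ω = frm (Fin.append (fun i => algebraMap K M (x i)) (ts (wk S z 1) (sA 0))) 1
        (((r + 2 : ℕ) : M) ^ r * (wk S z 1 ((sA 0 : Equiv.Perm (Fin (r + 2))) 0) /
          wk S z 1 ((sA 0 : Equiv.Perm (Fin (r + 2))) (Fin.last (r + 1)))) ^ (r + 1) *
          algebraMap K M (ω E)) := ⟨_, rfl⟩
  have hpow : (fun D => Ω D ^ (2 * (r + 2))) =
      tq S.lM 1 (fun i => algebraMap K M (x i)) (algebraMap K M (η E)) := by
    funext D
    rw [h.tq_eq (lam := 1) one_ne_zero (i := 0) (σ := sA 0) (Or.inl rfl) hx hE 1 (η E) D, hΩ]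
    unfold frm
    rw [sA_last, S.wtl]
    have h1 : η E * (s * 1 ^ (r + 2)) ^ (2 * ((1 : ℕ) : ℤ) * w -
        ((2 * ((r + 2) * 1) : ℕ) : ℤ) * 0) = ω E ^ (2 * (r + 2)) := by
      rw [hη, one_pow, mul_one, mul_zero, sub_zero, Nat.cast_one, mul_one]
      have h2 : s ^ (-(2 * w)) * s ^ (2 * w) = 1 := by
        rw [← zpow_add₀ h.s0, neg_add_cancel, zpow_zero]
      linear_combination (ω E ^ (2 * (r + 2))) * h2
    rw [h1, map_pow]
    unfold dt
    ring
  refine ⟨Ω, by rw [hΩ]; exact frm_pluri _ _ _, fun P hP => ?_⟩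
  refine ordEq_of_pow (k := 2 * (r + 2)) (by omega) ?_
  rw [hpow]
  by_cases htr : ∀ f : K, P.ord (algebraMap K M f) = 0
  · exact h.hor hP htr 1 hx hE hηE
  · push Not at htr
    obtain ⟨e, Q, hPQ⟩ := FF.exists_over P htr
    obtain ⟨hQ, -, -, h4⟩ := h.ver hP hPQ
    have h5 := h4 1 η hηp _ (hηo Q hQ) x E hx hE
    have h6 : (-(2 * w * G Q) + 2 * ((1 : ℕ) : ℤ) * (w * G Q) : ℤ) = 0 := by
      push_cast
      ring
    rw [h6] at h5
    exact_mod_cast h5

/-- **The covering space in questions on nef divisors.** -/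
theorem SecD.replaces (h : SecD S s z w ζ W) {Δ : Place ℂ K → ℚ}
    (hG : ∀ P, IsPrimeDivisor y P → ((w * G P : ℤ) : ℚ) = (r + 2 : ℕ) * Δ P) :
    NumReplaces S.v (n + r) y n Δ := by
  have hc := h.fer.cov
  have hk : 1 ≤ 2 * (r + 2) := by omega
  refine ⟨S.nv, h.fer.trM, fun C C' hC hC' hps => ?_, fun ht => hc.trivial hG h.ex ht,
    fun E hE hnef => ?_⟩
  · obtain ⟨φ, hφ0, hφ⟩ := hc.canonical hG h.ex hC hC'
    obtain ⟨Q, hQ⟩ := h.ex
    obtain ⟨P, e, hP, -⟩ := hc.exists_over hQ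
    exact (hc.psef_up hps ⟨P, hP⟩).qshift hφ0 hk hφ
  · refine ⟨pb y M E, hc.pullBack E, pb_finite (S := S) hE, hc.nef_up h.ex hnef,
      h.num hE hnef, fun C C' hC hC' m hm => ?_⟩
    obtain ⟨φ, hφ0, hφ⟩ := hc.canonical hG h.ex hC hC'
    refine (hc.nef_up h.ex hm).qshift (φ := φ⁻¹) (inv_ne_zero hφ0) hk fun P hP => ?_
    have h3 := pb_lin (y := y) (M := M) (m : ℚ) (-1) E (C + Δ) P
    have h4 : (fun Q => (m : ℚ) * E Q + -1 * (C + Δ) Q) = m • E - (C + Δ) := by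
      funext Q
      rw [Pi.sub_apply, Pi.smul_apply, nsmul_eq_mul]
      ring
    rw [h4] at h3
    rw [h3, P.ord_inv, Pi.sub_apply, Pi.smul_apply, nsmul_eq_mul]
    push_cast
    rw [hφ P hP]
    push_cast
    ring

end

/-- generalised abundance -/
theorem NumReplaces.generalised {K M : Type} [Field K] [Algebra ℂ K] [Field M] [Algebra ℂ M]
    [Algebra K M] {N N' : ℕ} {v : Fin (N' + 1) → M} {d : ℕ} {y : Fin (N + 1) → K} {n : ℕ}
    {Δ : Place ℂ K → ℚ} (h : NumReplaces v d y n Δ) (hv : GeneralisedAbundance v d 0) :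
    GeneralisedAbundance y n Δ := by
  intro C hC hps E hE hnef m hm hmE
  obtain ⟨C', hC'⟩ := exists_canonical h.normal h.trdeg
  obtain ⟨E', -, h1, h2, h3, h4⟩ := h.nef E hE hnef
  have h5 : NefDivisor v d (m • E' - (C' + 0)) := by
    rw [add_zero]
    exact h4 C C' hC hC' m hmE
  exact h3.1 (hv C' hC' (by rw [add_zero]; exact h.psef C C' hC hC' hps) E' h1 h2 m hm h5)

/-- nef divisors -/
theorem NumReplaces.nefSemiample {K M : Type} [Field K] [Algebra ℂ K] [Field M] [Algebra ℂ M]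
    [Algebra K M] {N N' : ℕ} {v : Fin (N' + 1) → M} {d : ℕ} {y : Fin (N + 1) → K} {n : ℕ}
    {Δ : Place ℂ K → ℚ} (h : NumReplaces v d y n Δ) (hv : NefSemiample v d) :
    NefSemiample y n := by
  intro E hE hnef
  obtain ⟨E', -, h1, h2, h3, -⟩ := h.nef E hE hnef
  exact h3.1 (hv E' h1 h2)

/-- **Smooth Fermat coverings.** -/
theorem fermat_num (K : Type) [Field K] [Algebra ℂ K] {n r : ℕ} (hr : 0 < r)
    (hn1 : 1 ≤ n) (hn : Algebra.trdeg ℂ K = n) {N : ℕ} {y : Fin (N + 1) → K}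
    (hy : NormalModel y) {D Λ : Place ℂ K → ℤ} {s : K} (hD : Divides y n (r + 2) D Λ s)
    (hsm : SmoothPair y n D) :
    ∃ (M : Type) (_ : Field M) (_ : Algebra ℂ M) (_ : Algebra K M) (_ : IsScalarTower ℂ K M)
      (z : Fin (r + 2) → M) (N' : ℕ) (v : Fin (N' + 1) → M), FermatField K s r 1 z ∧
      SmoothVariety v (n + r) ∧
      NumReplaces v (n + r) y n (fun P => (1 : ℚ) / (r + 2 : ℕ) * D P) := by
  obtain ⟨L, M, _, _, _, _, _, _, _, _, _, _, _, _, S, z, hwt, h⟩ := exists_fer K hr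
    (show 1 ≤ r from hr) hn hy hD
  obtain ⟨ζ, W, hsec⟩ := h.exists_secD hn1 hD
  refine ⟨M, _, _, _, ‹_›, z, S.N', S.v, h.fermatField hwt, h.smooth hwt hD hsm,
    hsec.replaces fun P _ => ?_⟩
  have h3 : ((r + 2 : ℕ) : ℚ) ≠ 0 := by exact_mod_cast Nat.succ_ne_zero (r + 1)
  push_cast at h3 ⊢
  field_simp

/-- **Fermat coverings over terminal varieties.** -/
theorem fermat_num_terminal (K : Type) [Field K] [Algebra ℂ K] {n r d : ℕ} (hr : 0 < r)
    (hd : d ≤ r) (hn1 : 1 ≤ n) (hn : Algebra.trdeg ℂ K = n) {N : ℕ} {y : Fin (N + 1) → K}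
    (hy : NormalModel y) {D Λ : Place ℂ K → ℤ} {s : K} (hD : Divides y n (r + 2) D Λ s)
    (hter : Terminal y n) (hcan : CanonicalPair y n D) :
    ∃ (M : Type) (_ : Field M) (_ : Algebra ℂ M) (_ : Algebra K M) (_ : IsScalarTower ℂ K M)
      (z : Fin (r + 2) → M) (N' : ℕ) (v : Fin (N' + 1) → M), FermatField K s r d z ∧
      Terminal v (n + r) ∧ (CanonicalDivisor y n (fun P => -((d : ℚ) * Λ P)) →
        CanonicalDivisor v (n + r) 0) ∧
      NumReplaces v (n + r) y n (fun P => (d : ℚ) / (r + 2 : ℕ) * D P) := by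
  obtain ⟨L, M, _, _, _, _, _, _, _, _, _, _, _, _, S, z, hwt, h⟩ := exists_fer K hr hd hn hy hD
  obtain ⟨ζ, W, hsec⟩ := h.exists_secD hn1 hD
  refine ⟨M, _, _, _, ‹_›, z, S.N', S.v, h.fermatField hwt,
    h.terminal hD.cartier hD.div hD.reduced hcan hter, fun hC => h.zero_canonical hn1 hD ?_,
    hsec.replaces fun P _ => ?_⟩
  · exact_mod_cast hC
  · have h3 : ((r + 2 : ℕ) : ℚ) ≠ 0 := by exact_mod_cast Nat.succ_ne_zero (r + 1)
    push_cast at h3 ⊢
    field_simp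

end Pool.Agent.H890
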