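import Pool.Agent.H890.Fo7
import Pool.Agent.H890.Num2

/-!
Fermat coverings with trivial canonical class: irregularity, and nef divisors.
-/

set_option autoImplicit false
set_option linter.unusedSectionVars false
set_option linter.overlappingInstances false

open FF MvPolynomial Pool.Agent.W602.GT Pool.Agent.W603.LV Pool.Agent.Y172
  Pool.Agent.TH122.AB Pool.Agent.R887

namespace Pool.Agent.H890

section

variable {K L M : Type} [Field K] [Field L] [Field M] [Algebra ℂ K] [Algebra ℂ L]
  [Algebra ℂ M] [Algebra K L] [Algebra L M] [Algebra K M] [IsScalarTower ℂ K L]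
  [IsScalarTower ℂ L M] [IsScalarTower ℂ K M] [IsScalarTower K L M] [FiniteDimensional L M]
  {N : ℕ} {y : Fin (N + 1) → K} {n r : ℕ} {G : Place ℂ K → ℤ}
  {S : Mod K L M y n r G} {s : K} {z : Fin (r + 2) → M} {w : ℤ}

theorem ess_of_gens {K F : Type} [Field K] [Field F] [Algebra ℂ K] [Algebra ℂ F] [Algebra K F]
    [IsScalarTower ℂ K F] [Algebra.EssFiniteType ℂ K] {r : ℕ} {t : Fin r → F}
    (ht : Gens (k := K) t) : Algebra.EssFiniteType ℂ F := by
  have h1 : (⊤ : IntermediateField K F).FG := by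
    have h2 : IntermediateField.adjoin K (Set.range t) = ⊤ := by
      rw [eq_top_iff]
      intro z _
      obtain ⟨P, Q, -, hz⟩ := ht.gen z
      rw [hz]
      refine div_mem ?_ ?_
      · exact IntermediateField.algebra_adjoin_le_adjoin K _
          (Algebra.adjoin_range_eq_range_aeval K t ▸ ⟨P, rfl⟩)
      · exact IntermediateField.algebra_adjoin_le_adjoin K _
          (Algebra.adjoin_range_eq_range_aeval K t ▸ ⟨Q, rfl⟩)
    rw [← h2]
    exact ⟨(Set.finite_range _).toFinset, by rw [Set.Finite.coe_toFinset]⟩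
  have h2 : Algebra.EssFiniteType K F := IntermediateField.fg_top_iff.1 h1
  exact Algebra.EssFiniteType.comp ℂ K F

/-- **The irregularity of a Fermat covering.** -/
theorem Fer.noForms (h : Fer S s z w) (hn1 : 0 < n) (hr : 1 < r) (hK : NoForms K n) :
    NoForms M (n + r) := by
  have hessK := S.essK
  have hessM := S.essM
  obtain ⟨F, t, ht, hgens, htop, hfin⟩ := h.mid (one_ne_zero (α := K))
  have hsc : IsScalarTower K F M := IsScalarTower.of_algebraMap_eq fun c => rfl
  have hsc2 : IsScalarTower ℂ K F := IsScalarTower.of_algebraMap_eq fun c => Subtype.ext (by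
    change algebraMap ℂ M c = algebraMap K M (algebraMap ℂ K c)
    rw [← IsScalarTower.algebraMap_apply])
  have hsc3 : IsScalarTower ℂ F M := IsScalarTower.of_algebraMap_eq fun c => rfl
  have hessF : Algebra.EssFiniteType ℂ F := ess_of_gens hgens
  obtain ⟨c, hc⟩ : ∃ c : Fin r → K, c = fun p => (s * 1 ^ (r + 2)) ^ (S.wt p.succ.castSucc) :=
    ⟨_, rfl⟩
  have hs0 : s * 1 ^ (r + 2) ≠ 0 := by
    rw [one_pow, mul_one]
    exact h.s0
  have hFC : FC (z (Fin.last (r + 1))) t c (r + 2) := by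
    refine ⟨by omega, hgens, fun p => ?_, ?_, htop, hfin⟩
    · rw [hc]
      exact zpow_ne_zero _ hs0
    · have h1 : z (Fin.last (r + 1)) ^ (r + 2) =
          algebraMap F M (algebraMap L F (S.l (Fin.last (r + 1)))) := by
        rw [h.zN, S.wtl, neg_zero, zpow_zero, map_one, mul_one, ← IsScalarTower.algebraMap_apply]
      rw [h1]
      congr 1
      have h2 := h.lastF one_ne_zero ht
      rw [aeval_phi, hc]
      have h3 : ∑ p : Fin r, algebraMap K F ((s * 1 ^ (r + 2)) ^ (S.wt p.succ.castSucc)) *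
          t p ^ (r + 2) = ∑ p : Fin r, t p ^ (r + 2) *
          algebraMap K F ((s * 1 ^ (r + 2)) ^ (S.wt p.succ.castSucc)) :=
        Finset.sum_congr rfl fun p _ => mul_comm _ _
      rw [h3]
      linear_combination h2
  exact hFC.noForms h.trK hn1 hr hK

end

/-- **Manifolds with trivial canonical class.** -/
theorem fermat_cy (K : Type) [Field K] [Algebra ℂ K] {n r : ℕ} (hr : 1 < r)
    (hn1 : 1 ≤ n) (hn : Algebra.trdeg ℂ K = n) {N : ℕ} {y : Fin (N + 1) → K}
    (hy : NormalModel y) {D Λ : Place ℂ K → ℤ} {s : K} (hD : Divides y n (r + 2) D Λ s)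
    (hsm : SmoothPair y n D) (hcan : CanonicalDivisor y n fun P => -(Λ P : ℚ))
    (hK : NoForms K n) :
    ∃ (M : Type) (_ : Field M) (_ : Algebra ℂ M) (_ : Algebra K M) (_ : IsScalarTower ℂ K M)
      (z : Fin (r + 2) → M) (N' : ℕ) (v : Fin (N' + 1) → M), FermatField K s r 1 z ∧
      Algebra.trdeg ℂ M = (n + r : ℕ) ∧ NormalModel v ∧ SmoothVariety v (n + r) ∧
      CanonicalDivisor v (n + r) 0 ∧ NoForms M (n + r) ∧
      ∀ E : Place ℂ K → ℚ, QDivisor y E → NefDivisor y n E → ∃ E' : Place ℂ M → ℚ,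
        IsPullBack y v E E' ∧ QDivisor v E' ∧ NefDivisor v (n + r) E' ∧
          (SemiampleDivisor v (n + r) E' ↔ SemiampleDivisor y n E) := by
  obtain ⟨L, M, _, _, _, _, _, _, _, _, _, _, _, _, S, z, hwt, h⟩ := exists_fer K
    (show 0 < r by omega) (show 1 ≤ r by omega) hn hy hD
  have hex := exists_divisorial hn hn1 hy
  have hc := h.cov
  refine ⟨M, _, _, _, ‹_›, z, S.N', S.v, h.fermatField hwt, h.trM, S.nv, h.smooth hwt hD hsm,
    h.zero_canonical hn1 hD ?_, h.noForms hn1 hr hK, fun E hE hnef => ?_⟩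
  · have h2 : (fun P => -((((1 : ℕ) : ℤ) : ℚ) * (Λ P : ℚ))) = fun P => -(Λ P : ℚ) := by
      funext P
      push_cast
      ring
    rw [h2]
    exact hcan
  · exact ⟨pb y M E, hc.pullBack E, pb_finite (S := S) hE, hc.nef_up hex hnef,
      hc.semi_down fun Q hQ => hnef.gen hy hQ, hc.semi_up hex⟩

end Pool.Agent.H890
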