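import Pool.Agent.H890.Trm

/-!
Étale coordinates on Fermat coverings.
-/

set_option autoImplicit false
set_option linter.unusedSectionVars false
set_option linter.overlappingInstances false

open FF MvPolynomial Pool.Agent.W602.GT Pool.Agent.W603.LV Pool.Agent.W619.PQ Pool.Agent.Y172
  Pool.Agent.TH122.AB Pool.Agent.R887

namespace Pool.Agent.H890

section frame

variable {K M : Type} [Field K] [Field M] [Algebra ℂ K] [Algebra ℂ M] [Algebra K M]
  [IsScalarTower ℂ K M] {n r : ℕ}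

/-- dual frames and the base -/
theorem frame_base {x : Fin n → K} {E : Fin n → Derivation ℂ K K} (hx : IsTranscendenceBasis ℂ x)
    (hE : ∀ i j, E i (x j) = if i = j then 1 else 0) {t : Fin r → M}
    {F : Fin (n + r) → Derivation ℂ M M}
    (hF : ∀ u v, F u ((Fin.append (fun i => algebraMap K M (x i)) t : Fin (n + r) → M) v) =
      if u = v then 1 else 0) :
    (∀ (i : Fin n) (a : K), F (Fin.castAdd r i) (algebraMap K M a) = algebraMap K M (E i a)) ∧
      ∀ (p : Fin r) (a : K), F (Fin.natAdd n p) (algebraMap K M a) = 0 := by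
  have hc : ∀ (u : Fin (n + r)) (a : K), F u (algebraMap K M a) =
      ∑ c, (if u = Fin.castAdd r c then 1 else 0) * algebraMap K M (E c a) := by
    intro u a
    rw [Pool.Agent.W73.PG.PULL.chain x hx E hE (F u) a]
    refine Finset.sum_congr rfl fun c _ => ?_
    have h1 := hF u (Fin.castAdd r c)
    rw [Fin.append_left] at h1
    rw [h1]
  constructor
  · intro i a
    rw [hc, Finset.sum_eq_single i, if_pos rfl, one_mul]
    · intro c _ hci
      rw [if_neg, zero_mul]
      intro h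
      exact hci (Fin.castAdd_injective n r h).symm
    · intro h
      exact absurd (Finset.mem_univ _) h
  · intro p a
    rw [hc]
    refine Finset.sum_eq_zero fun c _ => ?_
    rw [if_neg, zero_mul]
    intro h
    have := congrArg Fin.val h
    simp only [Fin.val_natAdd, Fin.val_castAdd] at this
    omega

theorem der_adjoin {s : Set M} {D : Derivation ℂ M M} (h : ∀ a ∈ s, D a ∈ Algebra.adjoin ℂ s) :
    ∀ b ∈ Algebra.adjoin ℂ s, D b ∈ Algebra.adjoin ℂ s := by
  have h3 : ∀ x ∈ Algebra.adjoin ℂ s, x ∈ Algebra.adjoin ℂ s ∧ D x ∈ Algebra.adjoin ℂ s := by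
    intro x hx
    refine Algebra.adjoin_induction (p := fun x _ => x ∈ Algebra.adjoin ℂ s ∧
      D x ∈ Algebra.adjoin ℂ s) ?_ ?_ ?_ ?_ hx
    · intro x hx
      exact ⟨Algebra.subset_adjoin hx, h x hx⟩
    · intro c
      refine ⟨Subalgebra.algebraMap_mem _ c, ?_⟩
      rw [D.map_algebraMap]
      exact Subalgebra.zero_mem _
    · rintro x y _ _ ⟨hx, hx'⟩ ⟨hy, hy'⟩
      exact ⟨Subalgebra.add_mem _ hx hy, by rw [map_add]; exact Subalgebra.add_mem _ hx' hy'⟩
    · rintro x y _ _ ⟨hx, hx'⟩ ⟨hy, hy'⟩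
      refine ⟨Subalgebra.mul_mem _ hx hy, ?_⟩
      rw [D.leibniz]
      exact Subalgebra.add_mem _ (Subalgebra.mul_mem _ hx hy') (Subalgebra.mul_mem _ hy hx')
  intro b hb
  exact (h3 b hb).2

end frame

section

variable {K L M : Type} [Field K] [Field L] [Field M] [Algebra ℂ K] [Algebra ℂ L]
  [Algebra ℂ M] [Algebra K L] [Algebra L M] [Algebra K M] [IsScalarTower ℂ K L]
  [IsScalarTower ℂ L M] [IsScalarTower ℂ K M] [IsScalarTower K L M] [FiniteDimensional L M]
  {N : ℕ} {y : Fin (N + 1) → K} {n r : ℕ} {G : Place ℂ K → ℤ}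
  {S : Mod K L M y n r G} {s : K} {z : Fin (r + 2) → M} {w : ℤ}

/-- the étale coordinate rings -/
theorem Fer.etale (h : Fer S s z w) {lam : K} (hl : lam ≠ 0) (σ : Equiv.Perm (Fin (r + 2)))
    {x : Fin n → K} {E : Fin n → Derivation ℂ K K} (hx : IsTranscendenceBasis ℂ x)
    (hE : ∀ i j, E i (x j) = if i = j then 1 else 0) {A : Subalgebra ℂ K} (hxA : ∀ i, x i ∈ A)
    (hEA : ∀ i, ∀ a ∈ A, E i a ∈ A)
    (hA1 : ∀ p : Fin r, (s * lam ^ (r + 2)) ^ (S.wt (σ p.succ.castSucc) - S.wt (σ 0)) ∈ A)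
    (hA2 : (s * lam ^ (r + 2)) ^ (S.wt (σ 0) - S.wt (σ (Fin.last (r + 1)))) ∈ A)
    {P : Place ℂ M} (hAP : ∀ a ∈ A, P.Reg (algebraMap K M a))
    (hW : ∀ p, P.Reg (ts (wk S z lam) σ p))
    (hWl : P.ord (wk S z lam (σ (Fin.last (r + 1))) / wk S z lam (σ 0)) = 0)
    {F : Fin (n + r) → Derivation ℂ M M}
    (hF : ∀ u v, F u ((Fin.append (fun i => algebraMap K M (x i)) (ts (wk S z lam) σ) :
      Fin (n + r) → M) v) = if u = v then 1 else 0) :
    ∃ B : Subalgebra ℂ M, (∀ b ∈ B, P.Reg b) ∧ (∀ u, ∀ b ∈ B, F u b ∈ B) ∧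
      ∀ u, (Fin.append (fun i => algebraMap K M (x i)) (ts (wk S z lam) σ) :
        Fin (n + r) → M) u ∈ B := by
  obtain ⟨W, hWd⟩ : ∃ W, W = wk S z lam (σ (Fin.last (r + 1))) / wk S z lam (σ 0) := ⟨_, rfl⟩
  have hW0 : W ≠ 0 := by
    rw [hWd]
    exact div_ne_zero (h.wk_ne hl _) (h.wk_ne hl _)
  rw [← hWd] at hWl
  obtain ⟨s₀, hs₀⟩ : ∃ s₀ : Set M, s₀ = (RR A (ts (wk S z lam) σ) : Set M) ∪ {W, W⁻¹} := ⟨_, rfl⟩
  have hRs : ∀ a ∈ RR A (ts (wk S z lam) σ), a ∈ Algebra.adjoin ℂ s₀ := fun a ha => by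
    apply Algebra.subset_adjoin
    rw [hs₀]
    exact Or.inl ha
  have hWs : W ∈ Algebra.adjoin ℂ s₀ := by
    apply Algebra.subset_adjoin
    rw [hs₀]
    exact Or.inr (Or.inl rfl)
  have hWs' : W⁻¹ ∈ Algebra.adjoin ℂ s₀ := by
    apply Algebra.subset_adjoin
    rw [hs₀]
    exact Or.inr (Or.inr rfl)
  obtain ⟨hF1, hF2⟩ := frame_base hx hE hF
  have hRder : ∀ u, ∀ a ∈ RR A (ts (wk S z lam) σ), F u a ∈ RR A (ts (wk S z lam) σ) := by
    intro u a ha
    refine RR_der (fun a ha => ?_) (fun p => ?_) ha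
    · refine Fin.addCases (fun i => ?_) (fun p => ?_) u
      · rw [hF1]
        exact RR_base (hEA i a ha)
      · rw [hF2]
        exact (RR A _).zero_mem
    · have h1 := hF u (Fin.natAdd n p)
      rw [Fin.append_right] at h1
      rw [h1]
      split_ifs
      · exact (RR A _).one_mem
      · exact (RR A _).zero_mem
  have hWN : W ^ (r + 2) ∈ RR A (ts (wk S z lam) σ) := by
    rw [hWd, h.last_pow hl]
    refine (RR A _).mul_mem ((RR A _).neg_mem ((RR A _).add_mem (RR A _).one_mem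
      ((RR A _).sum_mem fun p _ => (RR A _).mul_mem ((RR A _).pow_mem (RR_var p) _)
        (RR_base (hA1 p))))) (RR_base hA2)
  have hFW : ∀ u, F u W ∈ Algebra.adjoin ℂ s₀ := by
    intro u
    have h1 := hRs _ (hRder u _ hWN)
    rw [(F u).leibniz_pow] at h1
    have h2 : r + 2 - 1 = r + 1 := by omega
    rw [h2, nsmul_eq_mul, smul_eq_mul] at h1
    have h3 : F u W = algebraMap ℂ M ((r + 2 : ℕ) : ℂ)⁻¹ * (W⁻¹ ^ (r + 1) *
        (((r + 2 : ℕ) : M) * (W ^ (r + 1) * F u W))) := by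
      have h4 : ((r + 2 : ℕ) : ℂ) ≠ 0 := by
        exact_mod_cast (by omega : r + 2 ≠ 0)
      have h5 : ((r + 2 : ℕ) : M) = algebraMap ℂ M ((r + 2 : ℕ) : ℂ) := by
        rw [map_natCast]
      have h6 : algebraMap ℂ M ((r + 2 : ℕ) : ℂ) ≠ 0 := by rwa [Ne, map_eq_zero]
      rw [h5, map_inv₀, inv_pow]
      have h7 := pow_ne_zero (r + 1) hW0
      field_simp
    rw [h3]
    exact Subalgebra.mul_mem _ (Subalgebra.algebraMap_mem _ _)
      (Subalgebra.mul_mem _ (Subalgebra.pow_mem _ hWs' _) h1)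
  refine ⟨Algebra.adjoin ℂ s₀, fun b hb => ?_, fun u b hb => ?_, fun u => hRs _ ?_⟩
  · induction hb using Algebra.adjoin_induction with
    | mem a ha =>
      rw [hs₀] at ha
      rcases ha with ha | ha | ha
      · change a ∈ RR A (ts (wk S z lam) σ) at ha
        induction ha using Algebra.adjoin_induction with
        | mem x hx =>
          rcases hx with ⟨c, hc, rfl⟩ | ⟨p, rfl⟩
          · exact hAP c hc
          · exact hW p
        | algebraMap z => exact P.reg_const z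
        | add x y _ _ hx hy => exact P.reg_add hx hy
        | mul x y _ _ hx hy => exact P.reg_mul hx hy
      · rw [ha]
        exact Or.inr hWl.ge
      · change a = W⁻¹ at ha
        rw [ha]
        right
        rw [P.ord_inv, hWl, neg_zero]
    | algebraMap z => exact P.reg_const z
    | add x y _ _ hx hy => exact P.reg_add hx hy
    | mul x y _ _ hx hy => exact P.reg_mul hx hy
  · refine der_adjoin (fun a ha => ?_) b hb
    rw [hs₀] at ha
    rcases ha with ha | ha | ha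
    · exact hRs _ (hRder u a ha)
    · rw [ha]
      exact hFW u
    · change a = W⁻¹ at ha
      rw [ha, (F u).leibniz_inv, neg_smul, smul_eq_mul]
      exact Subalgebra.neg_mem _ (Subalgebra.mul_mem _ (Subalgebra.pow_mem _ hWs' _) (hFW u))
  · refine Fin.addCases (fun i => ?_) (fun p => ?_) u
    · rw [Fin.append_left]
      exact RR_base (hxA i)
    · rw [Fin.append_right]
      exact RR_var p

/-- **Log vector fields in étale coordinates.** -/
theorem Fer.etale_ge (h : Fer S s z w) {lam : K} (hl : lam ≠ 0) (σ : Equiv.Perm (Fin (r + 2)))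
    {x : Fin n → K} {E : Fin n → Derivation ℂ K K} (hx : IsTranscendenceBasis ℂ x)
    (hE : ∀ i j, E i (x j) = if i = j then 1 else 0) {A : Subalgebra ℂ K} (hxA : ∀ i, x i ∈ A)
    (hEA : ∀ i, ∀ a ∈ A, E i a ∈ A)
    (hA1 : ∀ p : Fin r, (s * lam ^ (r + 2)) ^ (S.wt (σ p.succ.castSucc) - S.wt (σ 0)) ∈ A)
    (hA2 : (s * lam ^ (r + 2)) ^ (S.wt (σ 0) - S.wt (σ (Fin.last (r + 1)))) ∈ A)
    {P : Place ℂ M} (hAP : ∀ a ∈ A, algebraMap K M a ∈ localRing S.v P)
    (hW : ∀ p, ts (wk S z lam) σ p ∈ localRing S.v P)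
    (hWl : P.ord (wk S z lam (σ (Fin.last (r + 1))) / wk S z lam (σ 0)) = 0)
    (hP : ¬ IsPrimeDivisor S.v P) {D : Fin (n + r) → Derivation ℂ M M}
    (hD : ∀ u, DerLog P (D u)) :
    Ge P 2 (dt (fun i => algebraMap K M (x i)) (ts (wk S z lam) σ) D) := by
  have hr := h.rpos
  have hb := h.basXW hl σ hx
  choose F hF using fun u : Fin (n + r) => exists_der (L := ℂ) _ hb
    (fun v => if u = v then (1 : M) else 0)
  obtain ⟨B, hB1, hB2, hB3⟩ := h.etale hl σ hx hE hxA hEA hA1 hA2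
    (fun a ha => localRing_reg (hAP a ha)) (fun p => localRing_reg (hW p)) hWl hF
  have htr := h.trM
  obtain ⟨X, hX⟩ : ∃ X : Fin (n + r) → M,
    X = Fin.append (fun i => algebraMap K M (x i)) (ts (wk S z lam) σ) := ⟨_, rfl⟩
  have hXv : ∀ u, X u ∈ localRing S.v P := by
    intro u
    rw [hX]
    refine Fin.addCases (fun i => ?_) (fun p => ?_) u
    · rw [Fin.append_left]
      exact hAP _ (hxA i)
    · rw [Fin.append_right]
      exact hW p
  unfold dt
  rw [← hX] at hb hF hB3 ⊢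
  obtain ⟨d, hd⟩ : ∃ d, n + r = d + 1 := ⟨n + r - 1, by omega⟩
  clear hX
  have hv := S.nv
  generalize n + r = m at *
  subst hd
  rcases codim hb hF hB1 hB2 hB3 with ⟨u1, h1⟩ | h1
  · exact absurd (prime_of_indep hv htr (fun j => hXv (u1.succAbove j)) h1) hP
  · exact h1 D hD

end

end Pool.Agent.H890
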