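import Pool.Agent.H890.Rat
import Pool.Agent.H890.Trm2
import Pool.Agent.H890.KDefs7

/-!
Regular `1`-forms on purely transcendental extensions.
-/

set_option autoImplicit false
set_option linter.unusedSectionVars false
set_option linter.overlappingInstances false

open FF MvPolynomial Pool.Agent.W602.GT Pool.Agent.W603.LV Pool.Agent.Y172
  Pool.Agent.TH122.AB Pool.Agent.R887

namespace Pool.Agent.H890

section

variable {K L : Type} [Field K] [Field L] [Algebra ℂ K] [Algebra ℂ L] [Algebra K L]
  [IsScalarTower ℂ K L]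

/-- `L` is the field of rational functions in the variable `t` -/
structure Simple (K : Type) {L : Type} [Field K] [Field L] [Algebra K L] (t : L) : Prop where
  tr : Transcendental K t
  gen : ∀ z : L, ∃ p q : Polynomial K, IsCoprime p q ∧ q ≠ 0 ∧
    z = Polynomial.aeval t p / Polynomial.aeval t q

variable {t : L}

theorem Simple.ne (h : Simple K t) {p : Polynomial K} (hp : p ≠ 0) : Polynomial.aeval t p ≠ 0 :=
  fun h0 => hp ((transcendental_iff.1 h.tr) p h0)

theorem simple_of (ht : Transcendental K t) (hL : IntermediateField.adjoin K {t} = ⊤) :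
    Simple K t := by
  refine ⟨ht, fun z => ?_⟩
  have h1 : z ∈ IntermediateField.adjoin K {t} := by
    rw [hL]
    exact IntermediateField.mem_top
  obtain ⟨p, q, hpq⟩ := (IntermediateField.mem_adjoin_simple_iff K z).1 h1
  by_cases hz : z = 0
  · exact ⟨0, 1, isCoprime_zero_left.2 isUnit_one, one_ne_zero, by rw [hz, map_zero, zero_div]⟩
  have hp : p ≠ 0 := by
    rintro rfl
    apply hz
    rw [hpq, map_zero, zero_div]
  have hq : q ≠ 0 := by
    rintro rfl
    apply hz
    rw [hpq, map_zero, div_zero]
  obtain ⟨g, a, b, hg, hab, hp', hq'⟩ : ∃ g a b : Polynomial K, g ≠ 0 ∧ IsCoprime a b ∧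
      p = g * a ∧ q = g * b := by
    obtain ⟨a, b, g, hab, h1, h2⟩ := UniqueFactorizationMonoid.exists_reduced_factors' p q hq
    refine ⟨g, a, b, ?_, ?_, h1.symm, h2.symm⟩
    · rintro rfl
      rw [zero_mul] at h2
      exact hq h2.symm
    · exact hab.isCoprime
  have hb : b ≠ 0 := by
    rintro rfl
    rw [mul_zero] at hq'
    exact hq hq'
  refine ⟨a, b, hab, hb, ?_⟩
  have hg' : Polynomial.aeval t g ≠ 0 := fun h0 => hg ((transcendental_iff.1 ht) g h0)
  rw [hpq, hp', hq', map_mul, map_mul, mul_div_mul_left _ _ hg']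

/-- `K` is algebraically closed in `K(t)` -/
theorem Simple.alg (h : Simple K t) {g : L} (hg : IsAlgebraic K g) : ∃ a : K, g = algebraMap K L a := by
  obtain ⟨p, q, hpq, hq, hz⟩ := h.gen g
  obtain ⟨F, hF⟩ : ∃ F, F = IntermediateField.adjoin K {g} := ⟨_, rfl⟩
  have hgF : g ∈ F := by
    rw [hF]
    exact IntermediateField.mem_adjoin_simple_self K g
  have halg : Algebra.IsAlgebraic K F := by
    rw [hF]
    exact (IntermediateField.isAlgebraic_adjoin_simple hg.isIntegral)
  have htF : Transcendental F t := h.tr.extendScalars F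
  have h1 : Polynomial.aeval t (p.map (algebraMap K F) -
      Polynomial.C ⟨g, hgF⟩ * q.map (algebraMap K F)) = 0 := by
    rw [map_sub, map_mul, Polynomial.aeval_map_algebraMap, Polynomial.aeval_map_algebraMap,
      Polynomial.aeval_C]
    change Polynomial.aeval t p - g * Polynomial.aeval t q = 0
    rw [hz, div_mul_cancel₀ _ (h.ne hq), sub_self]
  have h2 := (transcendental_iff.1 htF) _ h1
  obtain ⟨i, hi⟩ : ∃ i, q.coeff i ≠ 0 := by
    by_contra hcon
    push Not at hcon
    exact hq (Polynomial.ext hcon)
  have h3 := congrArg (fun P => Polynomial.coeff P i) h2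
  simp only [Polynomial.coeff_sub, Polynomial.coeff_map, Polynomial.coeff_C_mul,
    Polynomial.coeff_zero] at h3
  have h4 := congrArg (fun a : F => (a : L)) h3
  change algebraMap K L (p.coeff i) - g * algebraMap K L (q.coeff i) = 0 at h4
  have h5 : algebraMap K L (q.coeff i) ≠ 0 := by rwa [Ne, map_eq_zero]
  refine ⟨p.coeff i / q.coeff i, ?_⟩
  rw [map_div₀, eq_div_iff h5]
  linear_combination -h4

/-- functions without poles on the line are constant -/
theorem Simple.const (h : Simple K t) (hK : CharZero K) (hess : Algebra.EssFiniteType K L)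
    (htr : Algebra.trdeg K L = 1) {g : L}
    (hg : ∀ P : Place ℂ L, (∀ f : K, P.ord (algebraMap K L f) = 0) → P.Reg g) :
    ∃ a : K, g = algebraMap K L a := by
  refine h.alg ?_
  by_contra hcon
  obtain ⟨P, hP⟩ := exists_pole_at (r := 1) (by rw [htr, Nat.cast_one]) hcon
  have h2 := reg_ord_nonneg (hg (restr P) (restr_triv P))
  rw [restr_ord] at h2
  omega

/-- vector fields which are regular on the line -/
theorem Simple.derReg (h : Simple K t) {P : Place ℂ L} (hP : ∀ f : K, P.ord (algebraMap K L f) = 0)
    (ht : P.Reg t) {D : Derivation ℂ L L} (hD : ∀ f : K, ∃ p : Polynomial K,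
      D (algebraMap K L f) = Polynomial.aeval t p) (hDt : ∃ p : Polynomial K,
      D t = Polynomial.aeval t p) : DerReg P D := by
  have hreg : ∀ p : Polynomial K, P.Reg (Polynomial.aeval t p) := by
    intro p
    induction p using Polynomial.induction_on' with
    | add p q hp hq =>
      rw [map_add]
      exact P.reg_add hp hq
    | monomial n a =>
      rw [Polynomial.aeval_monomial]
      refine P.reg_mul (Or.inr (hP a).ge) ?_
      have h1 : Ge P 0 t := ht
      have h2 := h1.pow n
      rwa [mul_zero] at h2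
  have hder : ∀ p : Polynomial K, ∃ q : Polynomial K, D (Polynomial.aeval t p) =
      Polynomial.aeval t q := by
    intro p
    induction p using Polynomial.induction_on' with
    | add p q hp hq =>
      obtain ⟨p', hp'⟩ := hp
      obtain ⟨q', hq'⟩ := hq
      exact ⟨p' + q', by rw [map_add, map_add, map_add, hp', hq']⟩
    | monomial n a =>
      obtain ⟨p', hp'⟩ := hD a
      obtain ⟨q', hq'⟩ := hDt
      refine ⟨Polynomial.C a * (Polynomial.C (n : K) * Polynomial.X ^ (n - 1) * q') +
        Polynomial.X ^ n * p', ?_⟩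
      rw [Polynomial.aeval_monomial, D.leibniz, D.leibniz_pow, hp', hq']
      simp only [smul_eq_mul, nsmul_eq_mul, map_add, map_mul, map_pow, Polynomial.aeval_C,
        Polynomial.aeval_X, map_natCast]
      ring
  intro f hf
  obtain ⟨p, q, hpq, hq, hz⟩ := h.gen f
  obtain ⟨p', hp'⟩ := hder p
  obtain ⟨q', hq'⟩ := hder q
  have hq0 := h.ne hq
  have hqo : P.ord (Polynomial.aeval t q) = 0 := by
    have h1 := reg_ord_nonneg (hreg q)
    by_contra hcon
    obtain ⟨a, b, hab⟩ := hpq
    have h2 := congrArg (Polynomial.aeval t) hab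
    rw [map_add, map_mul, map_mul, map_one] at h2
    have h3 : Ge P 1 (Polynomial.aeval t q) := Or.inr (by omega)
    have h4 : Ge P 1 (Polynomial.aeval t p) := by
      have h5 : Polynomial.aeval t p = f * Polynomial.aeval t q := by
        rw [hz, div_mul_cancel₀ _ hq0]
      rw [h5]
      have h6 : Ge P 0 f := hf
      have h7 := h6.mul h3
      rwa [zero_add] at h7
    have h5 : Ge P 0 (Polynomial.aeval t a) := hreg a
    have h6 : Ge P 0 (Polynomial.aeval t b) := hreg b
    have h7 := (h5.mul h4).add (h6.mul h3)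
    rw [h2] at h7
    rcases h7 with h8 | h8
    · exact one_ne_zero h8
    · rw [P.ord_one] at h8
      omega
  have h1 : D f = (p'.aeval t * q.aeval t - p.aeval t * q'.aeval t) / (q.aeval t) ^ 2 := by
    have h2 : f * q.aeval t = p.aeval t := by rw [hz, div_mul_cancel₀ _ hq0]
    have h3 := congrArg D h2
    rw [D.leibniz, hp', hq'] at h3
    simp only [smul_eq_mul] at h3
    rw [eq_div_iff (pow_ne_zero _ hq0)]
    rw [← h2]
    linear_combination (q.aeval t) * h3
  rw [h1]
  have h2 : Ge P 0 (p'.aeval t * q.aeval t - p.aeval t * q'.aeval t) := by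
    have h3 := P.reg_add (P.reg_mul (hreg p') (hreg q)) (P.reg_neg (P.reg_mul (hreg p) (hreg q')))
    rwa [← sub_eq_add_neg] at h3
  rcases h2 with h2 | h2
  · rw [h2, zero_div]
    exact P.reg_zero
  · by_cases h0 : p'.aeval t * q.aeval t - p.aeval t * q'.aeval t = 0
    · rw [h0, zero_div]
      exact P.reg_zero
    · right
      rw [P.ord_div h0 (pow_ne_zero _ hq0), P.ord_pow, hqo]
      omega

end

end Pool.Agent.H890
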