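import Pool.Agent.H890.KDefs3

/-!
Definitions: Fermat hypersurfaces over a field, and varieties with the canonical divisor of a pair.
-/

set_option autoImplicit false

open FF Pool.Agent.W602.GT Pool.Agent.Y172 Pool.Agent.R887

namespace Pool.Agent.H890

/-- The field `M` is the field of rational functions on the Fermat hypersurface
`z_0 ^ N + s (z_1 ^ N + … + z_d ^ N) + z_{d+1} ^ N + … + z_{N-1} ^ N = 0` of degree `N = r + 2` in the
projective space of dimension `N - 1 = r + 1` over the field `K`: it is generated over `K` by affine
coordinates `z`, `z_0 = 1`, which satisfy this equation, `z_1, …, z_r` being algebraically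
independent over `K`. -/
structure FermatField (K : Type) {M : Type} [Field K] [Field M] [Algebra K M] (s : K) (r d : ℕ)
    (z : Fin (r + 2) → M) : Prop where
  one : z 0 = 1
  eqn : ∑ k : Fin (r + 2), algebraMap K M (if 1 ≤ (k : ℕ) ∧ (k : ℕ) ≤ d then s else 1) *
    z k ^ (r + 2) = 0
  ind : AlgebraicIndependent K fun i : Fin r => z i.succ.castSucc
  gen : IntermediateField.adjoin K (Set.range z) = ⊤

/-- The canonical divisor of the variety `V` with generic point `v` behaves like the divisor
`K_X + Δ` on the variety `X` with generic point `y`, of dimension `n`: `V` is normal and projective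
of dimension `d'`, `K_V` is nef if `K_X + Δ` is nef, `K_V` is semiample if and only if `K_X + Δ` is
semiample, `K_V` and `K_X + Δ` have the same Kodaira dimension, and the numerical dimension of `K_V`
(with respect to a suitable divisor `A'`) is at least the numerical dimension of `K_X + Δ` (with
respect to any effective divisor `A`). -/
structure Lifts {K M : Type} [Field K] [Algebra ℂ K] [Field M] [Algebra ℂ M] {N N' : ℕ}
    (v : Fin (N' + 1) → M) (d' : ℕ) (y : Fin (N + 1) → K) (n : ℕ) (Δ : Place ℂ K → ℚ) : Prop where
  normal : NormalModel v
  trdeg : Algebra.trdeg ℂ M = d'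
  nef : LogNef y n Δ → CanonicalNef v d'
  semiample : LogSemiample v d' 0 ↔ LogSemiample y n Δ
  kappa : kodairaDim v d' 0 = kodairaDim y n Δ
  nu : ∀ A, Effective y A → ∃ A', Effective v A' ∧ Integral v A' ∧
    numericalDim y n Δ A ≤ numericalDim v d' 0 A'

/-- The pairs to which the construction applies: `D` is a reduced divisor on the variety `X` with
generic point `y`, of dimension `n`, `Λ` is a Cartier divisor and `D` is linearly equivalent to
`N Λ`, the function `s` having the divisor `D - N Λ`. -/
structure Divides {K : Type} [Field K] [Algebra ℂ K] {N' : ℕ} (y : Fin (N' + 1) → K) (n N : ℕ)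
    (D Λ : Place ℂ K → ℤ) (s : K) : Prop where
  reduced : IsReduced y D
  cartier : IsCartier y n Λ
  ne : s ≠ 0
  div : ∀ P, IsPrimeDivisor y P → P.ord s = D P - N * Λ P

end Pool.Agent.H890
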