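import Pool.Agent.H890.Top2

/-!
The trivial boundary.
-/

set_option autoImplicit false

open FF Pool.Agent.W602.GT Pool.Agent.Y172 Pool.Agent.R887

namespace Pool.Agent.H890

/-- nefness for the trivial boundary -/
theorem logNef_zero {K : Type} [Field K] [Algebra ℂ K] {n N : ℕ} {y : Fin (N + 1) → K} :
    LogNef y n 0 ↔ CanonicalNef y n := by
  constructor
  · intro hnef i hi q hq
    obtain ⟨m, hm, h1⟩ := hnef i hi q hq
    refine ⟨m, hm, fun Q hQ => ?_⟩
    obtain ⟨ω, ⟨h2, h3⟩, h4⟩ := h1 Q hQ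
    refine ⟨ω, ⟨h2, fun P l hP hl => ?_⟩, fun P l hP hT hl => ?_⟩
    · have h5 := h3 P l hP hl
      simpa using h5
    · have h5 := h4 P l hP hT hl
      simpa using h5
  · intro hnef i hi q hq
    obtain ⟨m, hm, h1⟩ := hnef i hi q hq
    refine ⟨m, hm, fun Q hQ => ?_⟩
    obtain ⟨ω, ⟨h2, h3⟩, h4⟩ := h1 Q hQ
    refine ⟨ω, ⟨h2, fun P l hP hl => ?_⟩, fun P l hP hT hl => ?_⟩
    · have h5 := h3 P l hP hl
      simpa using h5
    · have h5 := h4 P l hP hT hl
      simpa using h5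

end Pool.Agent.H890
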