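import Pool.Agent.H890.Trm4
import Pool.Agent.H890.KDefs4
import Pool.Agent.H890.Top3

/-!
Fermat coverings: the main theorem.
-/

set_option autoImplicit false
set_option linter.unusedSectionVars false
set_option linter.overlappingInstances false

open FF MvPolynomial Pool.Agent.W602.GT Pool.Agent.W603.LV Pool.Agent.Y172
  Pool.Agent.TH122.AB Pool.Agent.R887

namespace Pool.Agent.H890

/-- the weights -/
def wtd (r d : ℕ) (k : Fin (r + 2)) : ℤ := if 1 ≤ (k : ℕ) ∧ (k : ℕ) ≤ d then 1 else 0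

theorem wtd_zero (r d : ℕ) : wtd r d 0 = 0 := by
  unfold wtd
  rw [if_neg]
  intro h
  have := h.1
  simp at this

theorem wtd_last {r d : ℕ} (hd : d ≤ r) : wtd r d (Fin.last (r + 1)) = 0 := by
  unfold wtd
  rw [if_neg]
  intro h
  have := h.2
  rw [Fin.val_last] at this
  omega

theorem wtd_01 {r d : ℕ} (k : Fin (r + 2)) : wtd r d k = 0 ∨ wtd r d k = 1 := by
  unfold wtd
  split_ifs
  · exact Or.inr rfl
  · exact Or.inl rfl

theorem wtd_sum {r d : ℕ} (hd : d ≤ r) : ∑ k, wtd r d k = d := by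
  have h1 : ∀ m : ℕ, ∑ k ∈ Finset.range (m + 1), (if 1 ≤ k ∧ k ≤ d then (1 : ℤ) else 0) =
      min m d := by
    intro m
    induction m with
    | zero => simp
    | succ m ih =>
      rw [Finset.sum_range_succ, ih]
      split_ifs with h
      · push_cast
        have := h.2
        omega
      · push_cast
        omega
  have h2 := h1 (r + 1)
  rw [Finset.sum_range] at h2
  have h3 : ∑ k, wtd r d k = ∑ i : Fin (r + 1 + 1), (if 1 ≤ (i : ℕ) ∧ (i : ℕ) ≤ d then (1 : ℤ) else 0) :=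
    rfl
  rw [h3, h2]
  push_cast
  omega

section

variable {K : Type} [Field K] [Algebra ℂ K] {N' : ℕ} {y : Fin (N' + 1) → K} {n : ℕ}
  {D Λ : Place ℂ K → ℤ} {N : ℕ} {s : K}

/-- local equations -/
theorem Divides.loc (h : Divides y n N D Λ s) {Q : Place ℂ K} (hQ : Divisorial n Q) :
    ∃ lam : K, lam ≠ 0 ∧ ∀ P, IsPrimeDivisor y P → Through y P Q → P.ord (s * lam ^ N) = D P := by
  obtain ⟨lam, hl, hlam⟩ := h.cartier Q hQ
  refine ⟨lam, hl, fun P hP hPQ => ?_⟩
  rw [P.ord_mul h.ne (pow_ne_zero _ hl), P.ord_pow, hlam P hP hPQ, h.div P hP]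
  ring

theorem Divides.car (h : Divides y n N D Λ s) : Car y n D := by
  refine ⟨fun P hP => ?_, h.reduced.2, fun Q hQ => ?_⟩
  · rcases h.reduced.1 P hP with h1 | h1
    · rw [h1]
    · rw [h1]
      exact zero_le_one
  · obtain ⟨lam, hl, hlam⟩ := h.loc hQ
    exact ⟨_, mul_ne_zero h.ne (pow_ne_zero _ hl), hlam⟩

theorem Divides.qcar (h : Divides y n N D Λ s) (hN : 0 < N) (hq : QCar y n 0) (d : ℕ) :
    QCar y n (fun P => (d : ℚ) / N * D P) := by
  intro Q hQ
  obtain ⟨r₀, hr₀, η₀, hη₀, hgen⟩ := hq Q hQ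
  obtain ⟨lam, hl, hlam⟩ := h.loc hQ
  have hg0 : s * lam ^ N ≠ 0 := mul_ne_zero h.ne (pow_ne_zero _ hl)
  refine ⟨r₀ * N, Nat.mul_pos hr₀ hN, fun E => (s * lam ^ N) ^ (-(d * r₀ : ℤ)) * η₀ E ^ N,
    pluri_smul' (pluri_pow hη₀ N) _, fun P hP hPQ => ?_⟩
  have h1 := ordEq_smul (zpow_ne_zero (-(d * r₀ : ℤ)) hg0) (ordEq_pow (hgen P hP hPQ) N)
  rw [P.ord_zpow, hlam P hP hPQ] at h1
  have h2 : ((-(d * r₀ : ℤ) * D P : ℤ) : ℚ) + (N : ℚ) * (-(r₀ * (0 : Place ℂ K → ℚ) P)) =
      -(((r₀ * N : ℕ) : ℚ) * ((d : ℚ) / N * D P)) := by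
    have h3 : (N : ℚ) ≠ 0 := by exact_mod_cast hN.ne'
    push_cast
    rw [Pi.zero_apply]
    field_simp
    ring
  rw [h2] at h1
  exact h1

theorem Divides.effective (h : Divides y n N D Λ s) (d : ℕ) :
    Effective y (fun P => (d : ℚ) / N * D P) := by
  refine ⟨fun P hP => ?_, h.reduced.2.subset ?_⟩
  · have h1 : (0 : ℚ) ≤ D P := by exact_mod_cast h.car.nonneg P hP
    positivity
  · rintro P ⟨hP, h0⟩
    refine ⟨hP, fun h1 => h0 ?_⟩
    change (d : ℚ) / N * D P = 0
    rw [h1]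
    push_cast
    ring

end

section

variable {K L M : Type} [Field K] [Field L] [Field M] [Algebra ℂ K] [Algebra ℂ L]
  [Algebra ℂ M] [Algebra K L] [Algebra L M] [Algebra K M] [IsScalarTower ℂ K L]
  [IsScalarTower ℂ L M] [IsScalarTower ℂ K M] [IsScalarTower K L M] [FiniteDimensional L M]
  {N : ℕ} {y : Fin (N + 1) → K} {n r : ℕ} {G : Place ℂ K → ℤ}
  {S : Mod K L M y n r G} {s : K} {z : Fin (r + 2) → M} {w : ℤ}

theorem Fer.lifts (h : Fer S s z w) {Δ : Place ℂ K → ℚ} (hn1 : 1 ≤ n) (hΔ : Effective y Δ)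
    (hG : ∀ P, IsPrimeDivisor y P → ((w * G P : ℤ) : ℚ) = (r + 2 : ℕ) * Δ P)
    (hq : QCar y n Δ) : Lifts S.v (n + r) y n Δ := by
  have hex := exists_divisorial h.trK hn1 S.ny
  exact ⟨S.nv, h.trM, fun hnef => h.cov.nef hG hnef hex, ⟨fun hs => h.cov.desc hG hq hs,
    fun hs => h.cov.asc hG hs hex⟩, h.cov.kappa hΔ hG hq, fun A hA => h.cov.nu hΔ hG hA⟩

/-- the function field -/
theorem Fer.fermatField (h : Fer S s z w) {d : ℕ} (hwt : S.wt = wtd r d) :
    FermatField K s r d z := by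
  have hz0 : ∀ k, algebraMap L M (S.l k) = algebraMap K M (s ^ S.wt k) * z k ^ (r + 2) := by
    intro k
    rw [h.zN, map_mul, ← IsScalarTower.algebraMap_apply, mul_left_comm, ← map_mul,
      ← zpow_add₀ h.s0, add_neg_cancel, zpow_zero, map_one, mul_one]
  refine ⟨h.z0, ?_, ?_, ?_⟩
  · have h1 := S.sysM.sum
    have h2 : ∀ k, S.lM k = algebraMap K M (if 1 ≤ (k : ℕ) ∧ (k : ℕ) ≤ d then s else 1) *
        z k ^ (r + 2) := by
      intro k
      change algebraMap L M (S.l k) = _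
      rw [hz0, hwt]
      congr 2
      unfold wtd
      split_ifs
      · rw [zpow_one]
      · rw [zpow_zero]
    rw [← h1]
    exact Finset.sum_congr rfl fun k _ => (h2 k).symm
  · have h1 := (h.basW (one_ne_zero (α := K)) 1).1
    have h2 : ts (wk S z (1 : K)) 1 = fun i : Fin r => z i.succ.castSucc := by
      funext p
      unfold ts wk
      rw [Equiv.Perm.one_apply, Equiv.Perm.one_apply, one_zpow, one_zpow, map_one, mul_one,
        mul_one, h.z0, div_one]
    rw [h2] at h1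
    exact h1
  · -- generation
    obtain ⟨F, hF⟩ : ∃ F, F = IntermediateField.adjoin K (Set.range z) := ⟨_, rfl⟩
    rw [← hF]
    have hzF : ∀ k, z k ∈ F := fun k => by
      rw [hF]
      exact IntermediateField.subset_adjoin K _ ⟨k, rfl⟩
    have hlF : ∀ k, algebraMap L M (S.l k) ∈ F := fun k => by
      rw [hz0]
      exact F.mul_mem (F.algebraMap_mem _) (pow_mem (hzF k) _)
    have hLF : ∀ x : L, algebraMap L M x ∈ F := by
      intro x
      obtain ⟨P, Q, hQ, rfl⟩ := S.gens.gen x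
      have h1 : ∀ P : MvPolynomial (Fin r) K, algebraMap L M (aeval (ts S.l 1) P) ∈ F := by
        intro P
        induction P using MvPolynomial.induction_on with
        | C a =>
          rw [aeval_C, ← IsScalarTower.algebraMap_apply]
          exact F.algebraMap_mem a
        | add P Q hP hQ =>
          rw [map_add, map_add]
          exact F.add_mem hP hQ
        | mul_X P i hP =>
          rw [map_mul, map_mul, aeval_X]
          refine F.mul_mem hP ?_
          unfold ts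
          rw [map_div₀]
          exact F.div_mem (hlF _) (hlF _)
      rw [map_div₀]
      exact F.div_mem (h1 P) (h1 Q)
    rw [eq_top_iff]
    intro x _
    have h1 : x ∈ IntermediateField.adjoin L (Set.range z) := by
      rw [h.gen]
      exact IntermediateField.mem_top
    induction h1 using IntermediateField.adjoin_induction with
    | mem x hx =>
      obtain ⟨k, rfl⟩ := hx
      exact hzF k
    | algebraMap x => exact hLF x
    | add x y _ _ hx hy => exact F.add_mem (hx trivial) (hy trivial)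
    | inv x _ hx => exact F.inv_mem (hx trivial)
    | mul x y _ _ hx hy => exact F.mul_mem (hx trivial) (hy trivial)

end

/-- **Fermat coverings.** -/
theorem exists_fer (K : Type) [Field K] [Algebra ℂ K] {n r d : ℕ} (hr : 0 < r) (hd : d ≤ r)
    (hn : Algebra.trdeg ℂ K = n) {N : ℕ} {y : Fin (N + 1) → K} (hy : NormalModel y)
    {D Λ : Place ℂ K → ℤ} {s : K} (hD : Divides y n (r + 2) D Λ s) :
    ∃ (L M : Type) (_ : Field L) (_ : Field M) (_ : Algebra ℂ L) (_ : Algebra ℂ M)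
      (_ : Algebra K L) (_ : Algebra L M) (_ : Algebra K M) (_ : IsScalarTower ℂ K L)
      (_ : IsScalarTower ℂ L M) (_ : IsScalarTower ℂ K M) (_ : IsScalarTower K L M)
      (_ : FiniteDimensional L M) (S : Mod K L M y n r D) (z : Fin (r + 2) → M),
      S.wt = wtd r d ∧ Fer S s z d := by
  classical
  obtain ⟨L, _, _, _, _, t, ht⟩ := exists_L K r
  obtain ⟨M, _, _, _, z, hz, hz1, hgen⟩ := exists_Mz (N := r + 2) (Nat.succ_pos _)
    (fun k => lfs t k * algebraMap K L (s ^ (- wtd r d k)))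
  let _ : Algebra ℂ M := ((algebraMap L M).comp (algebraMap ℂ L)).toAlgebra
  let _ : Algebra K M := ((algebraMap L M).comp (algebraMap K L)).toAlgebra
  have _ : IsScalarTower ℂ L M := IsScalarTower.of_algebraMap_eq' rfl
  have _ : IsScalarTower K L M := IsScalarTower.of_algebraMap_eq' rfl
  have _ : IsScalarTower ℂ K M := IsScalarTower.of_algebraMap_eq fun c => by
    rw [IsScalarTower.algebraMap_apply ℂ L M, IsScalarTower.algebraMap_apply ℂ K L,
      ← IsScalarTower.algebraMap_apply K L M]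
  obtain ⟨S, hSl, hSw⟩ := exists_mod (M := M) ht hy hD.car (wtd_zero r d) (wtd_last hd) wtd_01
  refine ⟨L, M, _, _, _, _, _, _, _, ‹_›, ‹_›, ‹_›, ‹_›, ‹_›, S, z, hSw, ?_⟩
  exact
    { rpos := hr
      ws := by rw [hSw, wtd_sum hd]
      l0 := by rw [hSl, lfs_zero]
      z0 := hz1 0 (by rw [lfs_zero, wtd_zero, neg_zero, zpow_zero, map_one, mul_one])
      s0 := hD.ne
      zN := fun k => by rw [hz, hSl, hSw]
      gen := hgen
      sG := fun P hP => ⟨- Λ P, by
        rw [hD.div P hP]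
        ring⟩
      trK := hn }

/-- **Fermat coverings over terminal varieties.** -/
theorem fermat_terminal (K : Type) [Field K] [Algebra ℂ K] {n r d : ℕ} (hr : 0 < r) (hd : d ≤ r)
    (hn1 : 1 ≤ n) (hn : Algebra.trdeg ℂ K = n) {N : ℕ} {y : Fin (N + 1) → K}
    (hy : NormalModel y) {D Λ : Place ℂ K → ℤ} {s : K} (hD : Divides y n (r + 2) D Λ s)
    (hter : Terminal y n) (hcan : CanonicalPair y n D) :
    ∃ (M : Type) (_ : Field M) (_ : Algebra ℂ M) (_ : Algebra K M) (_ : IsScalarTower ℂ K M)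
      (z : Fin (r + 2) → M) (N' : ℕ) (v : Fin (N' + 1) → M), FermatField K s r d z ∧
      Lifts v (n + r) y n (fun P => (d : ℚ) / (r + 2 : ℕ) * D P) ∧ Terminal v (n + r) := by
  obtain ⟨L, M, _, _, _, _, _, _, _, _, _, _, _, _, S, z, hwt, h⟩ := exists_fer K hr hd hn hy hD
  have hq0 : QCar y n 0 := by
    intro Q hQ
    obtain ⟨r₀, hr₀, η₀, h1, h2, -⟩ := hter Q hQ
    refine ⟨r₀, hr₀, η₀, h1, fun P hP hPQ => ?_⟩
    rw [Pi.zero_apply, mul_zero, neg_zero]
    exact h2 P hP hPQ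
  refine ⟨M, _, _, _, ‹_›, z, S.N', S.v, h.fermatField hwt, h.lifts hn1 (hD.effective d)
    (fun P hP => ?_) (hD.qcar (Nat.succ_pos _) hq0 d),
    h.terminal hD.cartier hD.div hD.reduced hcan hter⟩
  have h3 : ((r + 2 : ℕ) : ℚ) ≠ 0 := by exact_mod_cast Nat.succ_ne_zero (r + 1)
  push_cast at h3 ⊢
  field_simp

/-- the trivial divisor -/
theorem divides_zero {K : Type} [Field K] [Algebra ℂ K] {N : ℕ} (y : Fin (N + 1) → K) (n m : ℕ) :
    Divides y n m 0 0 1 := by
  refine ⟨⟨fun P _ => Or.inl rfl, ?_⟩, fun Q _ => ⟨1, one_ne_zero, fun P _ _ => ?_⟩, one_ne_zero,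
    fun P _ => ?_⟩
  · refine Set.finite_empty.subset ?_
    rintro P ⟨-, h0⟩
    exact h0 rfl
  · rw [P.ord_one]
    rfl
  · rw [P.ord_one]
    simp

theorem canonicalPair_zero {K : Type} [Field K] [Algebra ℂ K] {N n : ℕ} {y : Fin (N + 1) → K}
    (h : Terminal y n) : CanonicalPair y n 0 := by
  intro Q hQ
  obtain ⟨r₀, hr₀, η₀, h1, h2, h3⟩ := h Q hQ
  refine ⟨r₀, hr₀, η₀, h1, fun P hP hPQ => ?_, fun hQp => (h3 hQp).mono zero_le_one⟩
  have h4 := h2 P hP hPQ
  simpa using h4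

end Pool.Agent.H890
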