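import Pool.Agent.H890.KDefsX

/-!
Definitions: the global index of log Calabi-Yau pairs.
-/

set_option autoImplicit false

open FF MvPolynomial Pool.Agent.W602.GT Pool.Agent.Y172 Pool.Agent.R887

namespace Pool.Agent.H890

section

variable {K : Type} [Field K] [Algebra ℂ K] {N : ℕ}

/-- `I (K_X + B) ∼ 0`, `n` being the dimension of `X`: there is an `I`-canonical form on `X` whose
order is `- I B P` along all prime divisors `P` of `X` (so `I B` is integral). -/
def IndexDivides (y : Fin (N + 1) → K) (n : ℕ) (B : Place ℂ K → ℚ) (I : ℕ) : Prop :=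
  ∃ η : (Fin n → Derivation ℂ K K) → K, IsPluri I η ∧
    ∀ P, IsPrimeDivisor y P → OrdEq P η (-(I * B P))

/-- `X` is locally factorial: every prime divisor `D` of `X` is a Cartier divisor, that is, at the
centre of every prime divisor over `X` it is the divisor of a function. -/
def LocallyFactorial (y : Fin (N + 1) → K) (n : ℕ) : Prop :=
  ∀ D, IsPrimeDivisor y D → ∀ Q, Divisorial n Q → ∃ g : K, g ≠ 0 ∧
    (Through y D Q → D.ord g = 1) ∧ ∀ P, IsPrimeDivisor y P → Through y P Q → P ≠ D → P.ord g = 0

end

/-- `I K_V ∼ 0` for all log canonical normal projective varieties `V` of dimension `d` with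
`K_V ∼_ℚ 0`. -/
def VarietyIndex (d I : ℕ) : Prop :=
  ∀ (K : Type) [Field K] [Algebra ℂ K] (N : ℕ) (y : Fin (N + 1) → K), Algebra.trdeg ℂ K = d →
    NormalModel y → LogCanonical y d 0 → (∃ s, 0 < s ∧ IndexDivides y d 0 s) →
      IndexDivides y d 0 I

/-- `I (K_X + B) ∼ 0` for all log canonical pairs `(X, B)` such that `X` is a normal projective variety
of dimension `d`, `B` is effective, `b B` is Cartier and `K_X + B ∼_ℚ 0`. -/
def PairIndex (d b I : ℕ) : Prop :=
  ∀ (K : Type) [Field K] [Algebra ℂ K] (N : ℕ) (y : Fin (N + 1) → K) (B : Place ℂ K → ℚ),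
    Algebra.trdeg ℂ K = d → NormalModel y → Effective y B → CartierMul y d b B →
      LogCanonical y d B → (∃ s, 0 < s ∧ IndexDivides y d B s) → IndexDivides y d B I

/-- `I (K_X + B) ∼ 0` for all log canonical pairs `(X, B)` such that `X` is a normal projective locally
factorial variety of dimension `d`, `B` is effective with coefficients in `Γ`, and
`K_X + B ∼_ℚ 0`. -/
def FactorialIndex (d : ℕ) (Γ : Set ℚ) (I : ℕ) : Prop :=
  ∀ (K : Type) [Field K] [Algebra ℂ K] (N : ℕ) (y : Fin (N + 1) → K) (B : Place ℂ K → ℚ),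
    Algebra.trdeg ℂ K = d → NormalModel y → LocallyFactorial y d → Effective y B →
      CoeffIn y Γ B → LogCanonical y d B → (∃ s, 0 < s ∧ IndexDivides y d B s) →
        IndexDivides y d B I

end Pool.Agent.H890
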