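import Pool.Agent.H890.Wx5
import Pool.Agent.H890.KDefsG

/-!
The global index of the pair and of the variety without boundary.
-/

set_option autoImplicit false
set_option linter.unusedSectionVars false
set_option linter.overlappingInstances false

open FF MvPolynomial Pool.Agent.W602.GT Pool.Agent.W603.LV Pool.Agent.W619.PQ Pool.Agent.Y172
  Pool.Agent.TH122.AB Pool.Agent.R887

namespace Pool.Agent.H890

/-- units on a projective variety are constant -/
theorem const_of_units {M : Type} [Field M] [Algebra ℂ M] {d N' : ℕ}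
    (hd : Algebra.trdeg ℂ M = d) {v : Fin (N' + 1) → M} (hv : NormalModel v) {u : M}
    (h : ∀ P, IsPrimeDivisor v P → P.ord u = 0) : ∃ c : ℂ, u = algebraMap ℂ M c := by
  have hess := hv.ess
  have halg : IsAlgebraic ℂ u := by
    by_contra hcon
    obtain ⟨P, hP⟩ := exists_pole_at hd hcon
    have h1 : u ∈ localRing v P := mem_localRing_of_reg hv fun P' hP' hT =>
      Or.inr (h P' hP').ge
    have h2 := reg_ord_nonneg (localRing_reg h1)
    omega
  have hint : IsIntegral ℂ u := halg.isIntegral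
  have h1 := IsAlgClosed.degree_eq_one_of_irreducible ℂ (minpoly.irreducible hint)
  obtain ⟨c, hc⟩ := minpoly.mem_range_of_degree_eq_one ℂ u h1
  exact ⟨c, hc.symm⟩

section

variable {K L M : Type} [Field K] [Field L] [Field M] [Algebra ℂ K] [Algebra ℂ L]
  [Algebra ℂ M] [Algebra K L] [Algebra L M] [Algebra K M] [IsScalarTower ℂ K L]
  [IsScalarTower ℂ L M] [IsScalarTower ℂ K M] [IsScalarTower K L M] [FiniteDimensional L M]
  {N : ℕ} {y : Fin (N + 1) → K} {n r : ℕ} {G : Place ℂ K → ℤ} {S : Mod K L M y n r G}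
  {b : ℕ} {z : M}

/-- the global generator on `V` -/
theorem Cov.gen_all (h : Cov S b z) {q : ℕ} {η : (Fin n → Derivation ℂ K K) → K}
    (hη : IsPluri (2 * (b * q)) η)
    (hgen : ∀ D, IsPrimeDivisor y D → OrdEq D η (-(2 * q * G D) : ℤ))
    {x : Fin n → K} {E : Fin n → Derivation ℂ K K} (hx : IsTranscendenceBasis ℂ x)
    (hE : ∀ i j, E i (x j) = if i = j then 1 else 0) (hηE : η E ≠ 0) {P' : Place ℂ M}
    (hP' : IsPrimeDivisor S.v P') :
    OrdEq P' (th S.lM b q (fun i => algebraMap K M (x i)) (algebraMap K M (η E))) 0 := by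
  by_cases htr : ∀ f : K, P'.ord (algebraMap K M f) = 0
  · exact h.hor hP' htr q hx hE hηE
  · push Not at htr
    obtain ⟨e', Q', hPQ'⟩ := FF.exists_over P' htr
    obtain ⟨hQ', -, -, h4⟩ := h.ver hP' hPQ'
    have h5 := h4 q η hη _ (hgen Q' hQ') x E hx hE
    have h6 : (-(2 * q * G Q') + 2 * q * G Q' : ℤ) = 0 := by ring
    rw [h6] at h5
    exact_mod_cast h5

/-- **The global index.** -/
theorem Cov.index (h : Cov S b z) (hr : 0 < r) (hn : 0 < n) {B : Place ℂ K → ℚ}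
    (hG : ∀ P, IsPrimeDivisor y P → (G P : ℚ) = b * B P) {q : ℕ} (hq : 0 < q)
    (hB : IndexDivides y n B q) :
    IndexDivides S.v (n + r) 0 (2 * (b * q)) ∧ ∀ s, 0 < s → IndexDivides S.v (n + r) 0 s →
      IndexDivides y n B (s * (r + 2)) := by
  have hy := S.ny
  have hessK := S.essK
  have hessM := S.essM
  have hb1 : 1 ≤ b := by
    have := h.hb
    omega
  obtain ⟨x, E, hx, hE⟩ := exists_crd h.trK
  obtain ⟨η₀, hη₀, hη₀o⟩ := hB
  obtain ⟨m, hm⟩ : ∃ m, m = 2 * (b * q) := ⟨_, rfl⟩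
  have hbq : 0 < b * q := Nat.mul_pos hb1 hq
  have hm0 : 0 < m := by omega
  obtain ⟨η, hηd⟩ : ∃ η : (Fin n → Derivation ℂ K K) → K, η = fun D => η₀ D ^ (2 * b) :=
    ⟨_, rfl⟩
  have hη : IsPluri (2 * (b * q)) η := by
    rw [hηd]
    have h1 := pluri_pow hη₀ (2 * b)
    have h2 : q * (2 * b) = 2 * (b * q) := by ring
    rwa [h2] at h1
  have hgen : ∀ D, IsPrimeDivisor y D → OrdEq D η (-(2 * q * G D) : ℤ) := by
    intro D hD
    have h1 := ordEq_pow (hη₀o D hD) (2 * b)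
    have h2 : ((2 * b : ℕ) : ℚ) * -(q * B D) = ((-(2 * q * G D) : ℤ) : ℚ) := by
      push_cast
      rw [hG D hD]
      ring
    rw [h2] at h1
    rw [hηd]
    exact h1
  have hηm : IsPluri m η := by
    rw [hm]
    exact hη
  have hηE : η E ≠ 0 := by
    obtain ⟨Q, hQ⟩ := exists_divisorial h.trK hn hy
    obtain ⟨D, hD, -⟩ := exists_through hy Q
    exact val_ne hη hx hE (hgen D hD)
  obtain ⟨θ, hθd⟩ : ∃ θ, θ = th S.lM b q (fun i => algebraMap K M (x i))
    (algebraMap K M (η E)) := ⟨_, rfl⟩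
  have hθ : IsPluri m θ := by
    rw [hθd, hm]
    exact th_pluri S.sysM b q (fun i => algebraMap K M (x i)) (algebraMap K M (η E))
  have hθo : ∀ P', IsPrimeDivisor S.v P' → OrdEq P' θ 0 := by
    intro P' hP'
    rw [hθd]
    exact h.gen_all hη hgen hx hE hηE hP'
  refine ⟨⟨θ, by rw [← hm]; exact hθ, fun P' hP' => ?_⟩, fun s hs hc => ?_⟩
  · have h1 := hθo P' hP'
    simpa using h1
  -- the coordinates of `V`
  have hX := basM S 0 hx
  obtain ⟨F, hF⟩ : ∃ F : Fin (n + r) → Derivation ℂ M M, ∀ i' j',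
      F i' ((Fin.append (fun i => algebraMap K M (x i)) (ts S.lM (sA 0)) : Fin (n + r) → M) j') =
        if i' = j' then 1 else 0 := by
    choose F hF using fun i' => exists_der (L := ℂ) _ hX (fun j' => if i' = j' then 1 else 0)
    exact ⟨F, hF⟩
  obtain ⟨ω, hω, hωo⟩ := hc
  have hk : ∀ P', IsPrimeDivisor S.v P' → ω F ≠ 0 ∧ θ F ≠ 0 ∧
      P'.ord (ω F ^ m / θ F ^ s) = 0 := by
    intro P' hP'
    obtain ⟨h2, h3, h4⟩ := ratio_ord h.trM hs hω hθ hX hF (hP'.divisorial S.nv h.trM)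
      (hωo P' hP') (hθo P' hP')
    refine ⟨h2, h3, ?_⟩
    rw [P'.ord_div (pow_ne_zero _ h2) (pow_ne_zero _ h3), P'.ord_pow, P'.ord_pow]
    have h5 : ((m * P'.ord (ω F) - s * P'.ord (θ F) : ℤ) : ℚ) = 0 := by
      push_cast
      rw [h4]
      simp
    exact_mod_cast h5
  obtain ⟨Q₁, hQ₁⟩ := exists_divisorial h.trM (by omega) S.nv
  obtain ⟨D₁, hD₁, -⟩ := exists_through S.nv Q₁
  obtain ⟨hω0, hθ0, -⟩ := hk D₁ hD₁
  obtain ⟨c, hc⟩ := const_of_units h.trM S.nv fun P' hP' => (hk P' hP').2.2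
  have hθs : θ F ^ s ≠ 0 := pow_ne_zero _ hθ0
  have hc0 : c ≠ 0 := by
    rintro rfl
    rw [map_zero] at hc
    exact div_ne_zero (pow_ne_zero _ hω0) hθs hc
  obtain ⟨hT0, hTv⟩ := th_val S.sysM h.hb 0 q (fun i => algebraMap K M (x i))
    (algebraMap K M (η E)) hF
  rw [← hθd] at hTv
  obtain ⟨T, hTd⟩ : ∃ T, T = thD r ((r + 1) * q) := ⟨_, rfl⟩
  rw [← hTd] at hT0 hTv
  have hTL : aeval (ts S.lM (sA 0)) T = algebraMap L M (aeval (ts S.l (sA 0)) T) := by
    have h2 : ts S.lM (sA 0) = fun p => algebraMap L M (ts S.l (sA 0) p) := by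
      funext p
      exact ts_up _ _
    rw [h2, ← aeval_algebraMap_apply]
    rfl
  have hkey : ω F ^ m * (algebraMap L M (aeval (ts S.l (sA 0)) T)) ^ s =
      algebraMap K M (η E) ^ s * algebraMap L M (algebraMap ℂ L c) := by
    have h1 : ω F ^ m = algebraMap ℂ M c * θ F ^ s := by
      rw [← hc, div_mul_cancel₀ _ hθs]
    rw [h1, ← hTL, ← hTv, mul_pow, IsScalarTower.algebraMap_apply ℂ L M]
    ring
  have hnorm := congrArg (Algebra.norm L) hkey
  rw [map_mul, map_mul, map_pow, map_pow, map_pow, Algebra.norm_algebraMap,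
    Algebra.norm_algebraMap, IsScalarTower.algebraMap_apply K L M, Algebra.norm_algebraMap,
    CvS.fin_eq h hr] at hnorm
  have hC : (C (algebraMap ℂ K c ^ (r + 2)) : MvPolynomial (Fin r) K).coeff 0 =
      algebraMap ℂ K c ^ (r + 2) := coeff_zero_C _
  obtain ⟨w', hw0, hw'⟩ := desc_pow (gens_ts S.sys S.gens (sA 0)) (w := Algebra.norm L (ω F))
    ((Algebra.norm_ne_zero_iff).2 hω0) hm0 (k := η E ^ (s * (r + 2))) (pow_ne_zero _ hηE)
    (A := C (algebraMap ℂ K c ^ (r + 2))) (B := 1)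
    (by
      rw [hC]
      exact pow_ne_zero _ (by rwa [Ne, map_eq_zero]))
    (by
      rw [coeff_zero_one]
      exact one_ne_zero) (D := T ^ (s * (r + 2))) (pow_ne_zero _ hT0) (by
      rw [map_pow, map_pow, map_one, mul_one, aeval_C, map_pow,
        ← IsScalarTower.algebraMap_apply ℂ K L]
      rw [← pow_mul, ← pow_mul, mul_comm (r + 2) s] at hnorm
      exact hnorm)
  rw [hC, coeff_zero_one, mul_one] at hw'
  -- the form on `X`
  refine ⟨frm x (s * (r + 2)) w', frm_pluri x _ w', fun D hD => ?_⟩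
  have hfE : frm x (s * (r + 2)) w' E = w' := by
    unfold frm
    have h1 : (Matrix.of fun i j => E i (x j)) = 1 := by
      ext i' j'
      rw [Matrix.of_apply, hE, Matrix.one_apply]
    rw [h1, Matrix.det_one, one_pow, one_mul]
  have hDd := hD.divisorial hy h.trK
  obtain ⟨c', hc'⟩ := exists_ordEq h.trK hDd (frm_pluri x (s * (r + 2)) w') hx hE (by
    rw [hfE]
    exact hw0)
  have hsr : 0 < s * (r + 2) := Nat.mul_pos hs (Nat.succ_pos _)
  obtain ⟨-, -, h1⟩ := ratio_ord h.trK hsr (frm_pluri x (s * (r + 2)) w') hηm hx hE hDd hc'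
    (hgen D hD)
  rw [hfE] at h1
  have hcK : algebraMap ℂ K c ≠ 0 := by rwa [Ne, map_eq_zero]
  have h2 : (m : ℤ) * D.ord w' = (s * (r + 2) : ℕ) * D.ord (η E) := by
    have h3 := congrArg D.ord hw'
    rw [D.ord_mul (pow_ne_zero _ hηE) (pow_ne_zero _ hcK), D.ord_pow, D.ord_pow, D.ord_pow,
      D.ord_const hc0, mul_zero, add_zero] at h3
    exact h3
  have h3 : (m : ℚ) * D.ord w' = (s * (r + 2) : ℕ) * D.ord (η E) := by exact_mod_cast h2
  rw [h3, sub_self] at h1
  have h4 := hG D hD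
  have h5 : (m : ℚ) ≠ 0 := by exact_mod_cast hm0.ne'
  have h6 : (c' : ℚ) = -((s * (r + 2) : ℕ) * B D) := by
    have h7 : (m : ℚ) = 2 * (b * q) := by
      rw [hm]
      push_cast
      ring
    have h8 : (m : ℚ) * c' = m * (-((s * (r + 2) : ℕ) * B D)) := by
      have h9 : (m : ℚ) * c' = (s * (r + 2) : ℕ) * ((-(2 * q * G D) : ℤ) : ℚ) := by
        linarith
      rw [h9, h7]
      push_cast
      rw [h4]
      ring
    exact mul_left_cancel₀ h5 h8
  rw [← h6]
  exact hc'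

end

end Pool.Agent.H890
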