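import Pool.Agent.H890.Gx1

/-!
The global index conjecture for pairs and for varieties without boundary.
-/

set_option autoImplicit false
set_option linter.unusedSectionVars false
set_option linter.overlappingInstances false

open FF MvPolynomial Pool.Agent.W602.GT Pool.Agent.W603.LV Pool.Agent.W619.PQ Pool.Agent.Y172
  Pool.Agent.TH122.AB Pool.Agent.R887

namespace Pool.Agent.H890

/-- **The variety without boundary, with the comparison of the global indices.** -/
theorem index_removal (K : Type) [Field K] [Algebra ℂ K] {n b : ℕ} (hb : 2 ≤ b) (hn1 : 1 ≤ n)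
    (hn : Algebra.trdeg ℂ K = n) {N : ℕ} {y : Fin (N + 1) → K} (hy : NormalModel y)
    {B : Place ℂ K → ℚ} (hB : Effective y B) (hcar : CartierMul y n b B)
    (htriv : ∃ s, 0 < s ∧ IndexDivides y n B s) :
    ∃ (M : Type) (_ : Field M) (_ : Algebra ℂ M) (_ : Algebra K M) (_ : IsScalarTower ℂ K M)
      (t : Fin (2 * b - 2) → M) (N' : ℕ) (v : Fin (N' + 1) → M), AlgebraicIndependent K t ∧
      IntermediateField.adjoin K (Set.range t) = ⊤ ∧ NormalModel v ∧
      Algebra.trdeg ℂ M = (n + (2 * b - 2) : ℕ) ∧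
      (LogCanonical y n B → LogCanonical v (n + (2 * b - 2)) 0) ∧
      (Klt y n B → Klt v (n + (2 * b - 2)) 0) ∧
      (∀ s, 0 < s → IndexDivides y n B s →
        IndexDivides v (n + (2 * b - 2)) 0 (2 * b * s)) ∧
      ∀ s, 0 < s → IndexDivides v (n + (2 * b - 2)) 0 s → IndexDivides y n B (2 * b * s) := by
  obtain ⟨r, hr⟩ : ∃ r, r = 2 * b - 2 := ⟨_, rfl⟩
  rw [← hr]
  obtain ⟨b', hb'⟩ : ∃ b', b = b' + 2 := ⟨b - 2, by omega⟩
  have hrb : r + 2 = 2 * b := by omega
  obtain ⟨L, _, _, _, _, t, ht⟩ := exists_L K r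
  obtain ⟨M, _, _, _, z, hz, hgen, hfin⟩ := exists_M (∏ k, lfs t k ^ sg k)
    (N := r + 2) (Nat.succ_pos _)
  let _ : Algebra ℂ M := ((algebraMap L M).comp (algebraMap ℂ L)).toAlgebra
  let _ : Algebra K M := ((algebraMap L M).comp (algebraMap K L)).toAlgebra
  have _ : IsScalarTower ℂ L M := IsScalarTower.of_algebraMap_eq' rfl
  have _ : IsScalarTower K L M := IsScalarTower.of_algebraMap_eq' rfl
  have _ : IsScalarTower ℂ K M := IsScalarTower.of_algebraMap_eq fun c => by
    rw [IsScalarTower.algebraMap_apply ℂ L M, IsScalarTower.algebraMap_apply ℂ K L,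
      ← IsScalarTower.algebraMap_apply K L M]
  have htr : Algebra.trdeg K M = r := by
    have h1 : IsTranscendenceBasis K (algebraMap L M ∘ t) := (Gens_basis ht).algebraMap_comp
    rw [← h1.cardinalMk_eq_trdeg]
    simp
  obtain ⟨s, hs1, hs2⟩ := rational (b' := b') (by omega) (lfs_sys ht)
    (by rw [lfs_ts]; exact ht) htr hz hgen
    (fun k k' hk hk' => lfs_pair ht k k' (by omega) hk hk')
  obtain ⟨G, hG, S, h⟩ := exists_cov (L := L) (M := M) hrb (by omega) ht hz hgen hfin hn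
    hy hB hcar
  refine ⟨M, inferInstance, inferInstance, inferInstance, inferInstance, s, S.N', S.v, hs1, hs2,
    S.nv, h.trM, fun hlc => h.lc hG hlc, fun hklt => h.klt hG hklt, fun s hs hsB => ?_,
    fun s hs hsV => ?_⟩
  · have h1 := (h.index (by omega) (by omega) hG hs hsB).1
    rwa [← mul_assoc] at h1
  · obtain ⟨q, hq, hqB⟩ := htriv
    have h1 := (h.index (by omega) (by omega) hG hq hqB).2 s hs hsV
    rwa [hrb, mul_comm] at h1

/-- the case of dimension `0` -/
theorem indexDivides_zero {K : Type} [Field K] [Algebra ℂ K] (hn : Algebra.trdeg ℂ K = (0 : ℕ))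
    {N : ℕ} {y : Fin (N + 1) → K} (hy : NormalModel y) (B : Place ℂ K → ℚ) (I : ℕ) :
    IndexDivides y 0 B I :=
  ⟨frm (fun i : Fin 0 => i.elim0) I 1, frm_pluri _ _ _, fun P hP =>
    absurd (hP.divisorial hy hn) (no_divisorial hn hy P)⟩

theorem pairIndex {n b I : ℕ} (hb : 2 ≤ b) (hI : 0 < I) (h : VarietyIndex (n + (2 * b - 2)) I) :
    PairIndex n b (2 * b * I) := by
  intro K _ _ N y B hn hy hB hcar hlc htriv
  by_cases hn1 : 1 ≤ n
  · obtain ⟨M, _, _, _, _, t, N', v, -, -, h3, h4, h5, -, h6, h7⟩ :=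
      index_removal K hb hn1 hn hy hB hcar htriv
    obtain ⟨s, hs, hsB⟩ := htriv
    exact h7 I hI (h M N' v h4 h3 (h5 hlc) ⟨2 * b * s, by positivity, h6 s hs hsB⟩)
  · obtain rfl : n = 0 := by omega
    exact indexDivides_zero hn hy B _

theorem CartierMul.mul {K : Type} [Field K] [Algebra ℂ K] {N n b : ℕ} {y : Fin (N + 1) → K}
    {B : Place ℂ K → ℚ} (h : CartierMul y n b B) (k : ℕ) : CartierMul y n (k * b) B := by
  intro Q hQ
  obtain ⟨g, hg0, hg⟩ := h Q hQ
  refine ⟨g ^ k, pow_ne_zero _ hg0, fun P hP hPQ => ?_⟩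
  rw [P.ord_pow]
  push_cast
  rw [hg P hP hPQ]
  ring

theorem index_iff : (∀ d, ∃ I, 0 < I ∧ VarietyIndex d I) ↔
    ∀ d b, 0 < b → ∃ I, 0 < I ∧ PairIndex d b I := by
  constructor
  · intro h d b hb
    obtain ⟨I, hI, h1⟩ := h (d + (2 * (2 * b) - 2))
    refine ⟨2 * (2 * b) * I, by positivity, ?_⟩
    intro K _ _ N y B hn hy hB hcar hlc htriv
    exact pairIndex (by omega) hI h1 K N y B hn hy hB (hcar.mul 2) hlc htriv
  · intro h d
    obtain ⟨I, hI, h1⟩ := h d 1 one_pos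
    refine ⟨I, hI, ?_⟩
    intro K _ _ N y hn hy hlc htriv
    exact h1 K N y 0 hn hy (eff_zero y)
      (fun Q _ => ⟨1, one_ne_zero, fun P _ _ => by simp [P.ord_one]⟩) hlc htriv

/-- integral divisors on a locally factorial variety are Cartier -/
theorem LocallyFactorial.cartier {K : Type} [Field K] [Algebra ℂ K] {N n b : ℕ}
    {y : Fin (N + 1) → K} (hy : LocallyFactorial y n) {B : Place ℂ K → ℚ} (hB : Effective y B)
    (hint : ∀ P, IsPrimeDivisor y P → ∃ m : ℤ, (b : ℚ) * B P = m) : CartierMul y n b B := by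
  classical
  intro Q hQ
  have hfin := hB.2
  choose! g hg0 hg1 hg2 using fun (D : Place ℂ K) (hD : IsPrimeDivisor y D) => hy D hD Q hQ
  choose! m hm using hint
  refine ⟨∏ D ∈ hfin.toFinset, g D ^ m D, ?_, fun P hP hPQ => ?_⟩
  · refine Finset.prod_ne_zero_iff.2 fun D hD => zpow_ne_zero _ (hg0 D ?_)
    exact ((hfin.mem_toFinset).1 hD).1
  · rw [ord_prod' P _ _ fun D hD => zpow_ne_zero _ (hg0 D ((hfin.mem_toFinset).1 hD).1)]
    have h1 : ∀ D ∈ hfin.toFinset, P.ord (g D ^ m D) = if D = P then m P else 0 := by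
      intro D hD
      have hDp := ((hfin.mem_toFinset).1 hD).1
      rw [P.ord_zpow]
      by_cases h2 : D = P
      · subst h2
        rw [if_pos rfl, hg1 D hDp hPQ, mul_one]
      · rw [if_neg h2, hg2 D hDp P hP hPQ fun h3 => h2 h3.symm, mul_zero]
    rw [Finset.sum_congr rfl h1, Finset.sum_ite_eq' hfin.toFinset P]
    by_cases h2 : P ∈ hfin.toFinset
    · rw [if_pos h2, ← hm P hP]
    · rw [if_neg h2]
      have h3 : B P = 0 := by
        by_contra h4
        exact h2 ((hfin.mem_toFinset).2 ⟨hP, h4⟩)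
      rw [h3, mul_zero, Int.cast_zero]

theorem factorialIndex (h : ∀ d, ∃ I, 0 < I ∧ VarietyIndex d I) (d : ℕ) (Γ : Set ℚ)
    (hΓ : Γ.Finite) : ∃ I, 0 < I ∧ FactorialIndex d Γ I := by
  obtain ⟨b, hb, hb'⟩ := exists_denom hΓ
  obtain ⟨I, hI, h1⟩ := h (d + (2 * b - 2))
  refine ⟨2 * b * I, by positivity, ?_⟩
  intro K _ _ N y B hn hy hfac hB hco hlc htriv
  refine pairIndex hb hI h1 K N y B hn hy hB (hfac.cartier hB fun P hP => ?_) hlc htriv
  rcases hco P hP with h2 | h2
  · exact ⟨0, by rw [h2]; simp⟩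
  · exact hb' _ h2

end Pool.Agent.H890
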