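import Pool.Agent.H890.Fex

/-!
The forms on the Fermat coverings in local coordinates.
-/

set_option autoImplicit false
set_option linter.unusedSectionVars false
set_option linter.overlappingInstances false

open FF MvPolynomial Pool.Agent.W602.GT Pool.Agent.W603.LV Pool.Agent.W619.PQ Pool.Agent.Y172
  Pool.Agent.TH122.AB Pool.Agent.R887

namespace Pool.Agent.H890

section dt

variable {K M : Type} [Field K] [Field M] [Algebra ℂ K] [Algebra ℂ M] [Algebra K M]
  [IsScalarTower ℂ K M] {n r : ℕ}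

/-- the determinant for powers of the coordinates -/
theorem dt_pow {x : Fin n → K} {E : Fin n → Derivation ℂ K K} (hx : IsTranscendenceBasis ℂ x)
    (hE : ∀ i j, E i (x j) = if i = j then 1 else 0) (W : Fin r → M) (c : Fin r → K) (m : ℕ)
    (D : Fin (n + r) → Derivation ℂ M M) :
    dt (fun i => algebraMap K M (x i)) (fun p => W p ^ m * algebraMap K M (c p)) D =
      (∏ p, (m * W p ^ (m - 1) * algebraMap K M (c p))) *
        dt (fun i => algebraMap K M (x i)) W D := by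
  classical
  let H : Matrix (Fin (n + r)) (Fin (n + r)) M := Matrix.of fun u v =>
    Fin.addCases (fun i => Fin.addCases (fun j => if i = j then 1 else 0)
      (fun p => W p ^ m * algebraMap K M (E i (c p))) v)
      (fun p => Fin.addCases (fun _ => 0)
        (fun p' => if p = p' then (m * W p ^ (m - 1) * algebraMap K M (c p)) else 0) v) u
  have hH : H.det = ∏ p, (m * W p ^ (m - 1) * algebraMap K M (c p)) := by
    rw [det_blk H (fun p i => by simp [H])]
    have e1 : (Matrix.of fun i j => H (Fin.castAdd r i) (Fin.castAdd r j)) =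
        (1 : Matrix (Fin n) (Fin n) M) := by
      ext i j
      simp [H, Matrix.one_apply]
    have e2 : (Matrix.of fun p p' => H (Fin.natAdd n p) (Fin.natAdd n p')) =
        Matrix.diagonal fun p => (m * W p ^ (m - 1) * algebraMap K M (c p)) := by
      ext p p'
      simp [H, Matrix.diagonal_apply]
    rw [e1, e2, Matrix.det_one, one_mul, Matrix.det_diagonal]
  rw [← hH, mul_comm]
  unfold dt
  rw [← Matrix.det_mul]
  congr 1
  ext a v
  rw [Matrix.mul_apply, Fin.sum_univ_add, Matrix.of_apply]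
  refine Fin.addCases (fun i => ?_) (fun p => ?_) v
  · simp only [Matrix.of_apply, Fin.append_left, Fin.append_right, H, Fin.addCases_left,
      Fin.addCases_right, mul_zero, Finset.sum_const_zero, add_zero, mul_ite, mul_one,
      Finset.sum_ite_eq', Finset.mem_univ, if_true]
  · simp only [Matrix.of_apply, Fin.append_left, Fin.append_right, H, Fin.addCases_left,
      Fin.addCases_right, mul_zero, mul_ite, Finset.sum_ite_eq', Finset.mem_univ, if_true]
    rw [(D a).leibniz, (D a).leibniz_pow,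
      Pool.Agent.W73.PG.PULL.chain x hx E hE (D a) (c p)]
    simp only [smul_eq_mul, nsmul_eq_mul]
    rw [Finset.mul_sum]
    congr 1
    · exact Finset.sum_congr rfl fun i _ => by ring
    · ring

end dt

theorem zpow_sum' {K : Type} [Field K] {ι : Type} [DecidableEq ι] {g : K} (hg : g ≠ 0)
    (s : Finset ι) (a : ι → ℤ) : g ^ (∑ k ∈ s, a k) = ∏ k ∈ s, g ^ a k := by
  induction s using Finset.induction_on with
  | empty => rw [Finset.sum_empty, Finset.prod_empty, zpow_zero]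
  | insert k s hk ih => rw [Finset.sum_insert hk, Finset.prod_insert hk, zpow_add₀ hg, ih]

/-- an identity of powers -/
theorem pow_id {M : Type} [Field M] {a₀ a₁ A G₂ G₁ G₃ C T c : M} (h1 : a₁ ≠ 0) (hA : A ≠ 0)
    (hG : G₂ ≠ 0) {r q : ℕ} (hG3 : G₁ ^ (2 * ((r + 2) * q)) = G₃ * G₂ ^ ((r + 1) * (2 * q))) :
    ((C * (a₀ ^ (r + 1) * A ^ (r + 1)) * G₁ * T) ^ 2) ^ ((r + 2) * q) * c /
      ((A * a₁) ^ (r + 2) * G₂) ^ ((r + 1) * (2 * q)) =
      (C * (a₀ / a₁) ^ (r + 1) * T) ^ (2 * ((r + 2) * q)) * (c * G₃) := by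
  have e1 : ((A * a₁) ^ (r + 2) * G₂) ^ ((r + 1) * (2 * q)) ≠ 0 :=
    pow_ne_zero _ (mul_ne_zero (pow_ne_zero _ (mul_ne_zero hA h1)) hG)
  rw [div_eq_iff e1, ← pow_mul]
  have e2 : ((A * a₁) ^ (r + 2) * G₂) ^ ((r + 1) * (2 * q)) =
      (A ^ (r + 1) * a₁ ^ (r + 1)) ^ (2 * ((r + 2) * q)) * G₂ ^ ((r + 1) * (2 * q)) := by
    rw [mul_pow, ← pow_mul, mul_pow, mul_pow, ← pow_mul, ← pow_mul]
    congr 2
    · congr 1
      ring
    · congr 1
      ring
  have e3 : (C * (a₀ / a₁) ^ (r + 1) * T) * (A ^ (r + 1) * a₁ ^ (r + 1)) =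
      C * (a₀ ^ (r + 1) * A ^ (r + 1)) * T := by
    rw [div_pow]
    have := pow_ne_zero (r + 1) h1
    field_simp
  rw [e2]
  calc (C * (a₀ ^ (r + 1) * A ^ (r + 1)) * G₁ * T) ^ (2 * ((r + 2) * q)) * c
      = (C * (a₀ ^ (r + 1) * A ^ (r + 1)) * T) ^ (2 * ((r + 2) * q)) *
          G₁ ^ (2 * ((r + 2) * q)) * c := by rw [← mul_pow]; congr 2; ring
    _ = ((C * (a₀ / a₁) ^ (r + 1) * T) * (A ^ (r + 1) * a₁ ^ (r + 1))) ^ (2 * ((r + 2) * q)) *
          (G₃ * G₂ ^ ((r + 1) * (2 * q))) * c := by rw [e3, hG3]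
    _ = _ := by
      rw [mul_pow]
      ring

section

variable {K L M : Type} [Field K] [Field L] [Field M] [Algebra ℂ K] [Algebra ℂ L]
  [Algebra ℂ M] [Algebra K L] [Algebra L M] [Algebra K M] [IsScalarTower ℂ K L]
  [IsScalarTower ℂ L M] [IsScalarTower ℂ K M] [IsScalarTower K L M] [FiniteDimensional L M]
  {N : ℕ} {y : Fin (N + 1) → K} {n r : ℕ} {G : Place ℂ K → ℤ}
  {S : Mod K L M y n r G} {s : K} {z : Fin (r + 2) → M} {w : ℤ}

/-- the homogeneous coordinates, `lam` being a local generator -/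
noncomputable def wk (S : Mod K L M y n r G) (z : Fin (r + 2) → M) (lam : K) (k : Fin (r + 2)) : M :=
  z k * algebraMap K M (lam ^ (- S.wt k))

theorem Fer.wk_ne (h : Fer S s z w) {lam : K} (hl : lam ≠ 0) (k : Fin (r + 2)) :
    wk S z lam k ≠ 0 := by
  refine mul_ne_zero (h.zne k) ?_
  rw [Ne, map_eq_zero]
  exact zpow_ne_zero _ hl

theorem Fer.wk_pow (h : Fer S s z w) {lam : K} (hl : lam ≠ 0) (k : Fin (r + 2)) :
    S.lM k = wk S z lam k ^ (r + 2) * algebraMap K M ((s * lam ^ (r + 2)) ^ (S.wt k)) := by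
  unfold wk
  rw [mul_pow, h.zN, map_mul, ← IsScalarTower.algebraMap_apply, mul_assoc, mul_assoc, ← map_pow,
    ← map_mul, ← map_mul]
  have h1 : s ^ (- S.wt k) * ((lam ^ (- S.wt k)) ^ (r + 2) * (s * lam ^ (r + 2)) ^ (S.wt k)) =
      1 := by
    have hs := h.s0
    rw [mul_zpow, ← zpow_natCast (lam ^ (- S.wt k)), ← zpow_natCast lam, ← zpow_mul, ← zpow_mul]
    have e1 : s ^ (- S.wt k) * (lam ^ (- S.wt k * ((r + 2 : ℕ) : ℤ)) *
        (s ^ S.wt k * lam ^ (((r + 2 : ℕ) : ℤ) * S.wt k))) =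
        (s ^ (- S.wt k) * s ^ S.wt k) * (lam ^ (- S.wt k * ((r + 2 : ℕ) : ℤ)) *
          lam ^ (((r + 2 : ℕ) : ℤ) * S.wt k)) := by ring
    rw [e1, ← zpow_add₀ hs, ← zpow_add₀ hl]
    have e2 : - S.wt k + S.wt k = 0 := by ring
    have e3 : - S.wt k * ((r + 2 : ℕ) : ℤ) + ((r + 2 : ℕ) : ℤ) * S.wt k = 0 := by ring
    rw [e2, e3, zpow_zero, zpow_zero, mul_one]
  rw [h1, map_one, mul_one]
  rfl

/-- **The forms in local coordinates.** -/
theorem Fer.tq_eq (h : Fer S s z w) {lam : K} (hl : lam ≠ 0) {i : Fin (r + 1)}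
    {σ : Equiv.Perm (Fin (r + 2))} (hσ : Adm i σ) {x : Fin n → K} {E : Fin n → Derivation ℂ K K}
    (hx : IsTranscendenceBasis ℂ x) (hE : ∀ i j, E i (x j) = if i = j then 1 else 0) (q : ℕ)
    (c : K) (D : Fin (n + r) → Derivation ℂ M M) :
    tq S.lM q (fun i => algebraMap K M (x i)) (algebraMap K M c) D =
      (((r + 2 : ℕ) : M) ^ r * (wk S z lam (σ 0) / wk S z lam (σ (Fin.last (r + 1)))) ^ (r + 1) *
        dt (fun i => algebraMap K M (x i)) (ts (wk S z lam) σ) D) ^ (2 * ((r + 2) * q)) *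
        algebraMap K M (c * (s * lam ^ (r + 2)) ^
          (2 * q * w - (2 * ((r + 2) * q) : ℕ) * S.wt (σ (Fin.last (r + 1))))) := by
  classical
  obtain ⟨g, hg⟩ : ∃ g, g = s * lam ^ (r + 2) := ⟨_, rfl⟩
  have hg0 : g ≠ 0 := by
    rw [hg]
    exact mul_ne_zero h.s0 (pow_ne_zero _ hl)
  have hgM : ∀ m : ℤ, algebraMap K M (g ^ m) ≠ 0 := fun m => by
    rw [Ne, map_eq_zero]
    exact zpow_ne_zero _ hg0
  obtain ⟨u, hu⟩ : ∃ u, u = wk S z lam := ⟨_, rfl⟩
  have hu0 : ∀ k, u k ≠ 0 := fun k => by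
    rw [hu]
    exact h.wk_ne hl k
  have hpow : ∀ k, S.lM k = u k ^ (r + 2) * algebraMap K M (g ^ (S.wt k)) := fun k => by
    rw [hu, hg]
    exact h.wk_pow hl k
  rw [← hg, ← hu]
  -- the coordinates
  have hts : ts S.lM σ = fun p => ts u σ p ^ (r + 2) *
      algebraMap K M (g ^ (S.wt (σ p.succ.castSucc) - S.wt (σ 0))) := by
    funext p
    unfold ts
    rw [hpow, hpow, zpow_sub₀ hg0, map_div₀, div_pow, mul_div_mul_comm]
  have hdt := dt_pow hx hE (ts u σ) (fun p => g ^ (S.wt (σ p.succ.castSucc) - S.wt (σ 0))) (r + 2) D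
  rw [← hts] at hdt
  have hsq : dsq (fun i => algebraMap K M (x i)) S.lM 1 D =
      (S.lM (σ 0) ^ (r + 1) * dt (fun i => algebraMap K M (x i)) (ts S.lM σ) D) ^ 2 := by
    rw [← hσ.dsq S.sysM]
    rfl
  obtain ⟨T, hT⟩ : ∃ T, T = dt (fun i => algebraMap K M (x i)) (ts u σ) D := ⟨_, rfl⟩
  rw [← hT] at hdt ⊢
  obtain ⟨Pm, hPm⟩ : ∃ Pm, Pm = ∏ p : Fin r, u (σ p.succ.castSucc) := ⟨_, rfl⟩
  have hPm0 : Pm ≠ 0 := by
    rw [hPm]
    exact Finset.prod_ne_zero_iff.2 fun p _ => hu0 _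
  -- the weights
  have hwt : S.wt (σ 0) + ∑ p : Fin r, S.wt (σ p.succ.castSucc) +
      S.wt (σ (Fin.last (r + 1))) = w := by
    rw [← h.ws, ← Equiv.sum_comp σ S.wt, Fin.sum_univ_castSucc, Fin.sum_univ_succ,
      Fin.castSucc_zero]
  -- the product of the linear forms
  have hprod : ∏ k, S.lM k = (u (σ 0) * Pm * u (σ (Fin.last (r + 1)))) ^ (r + 2) *
      algebraMap K M (g ^ w) := by
    have e1 : ∏ k, S.lM k = (∏ k, u k) ^ (r + 2) * algebraMap K M (g ^ (∑ k, S.wt k)) := by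
      rw [← Finset.prod_pow, zpow_sum' hg0, map_prod, ← Finset.prod_mul_distrib]
      exact Finset.prod_congr rfl fun k _ => hpow k
    rw [e1, h.ws, ← Equiv.prod_comp σ u, Fin.prod_univ_castSucc, Fin.prod_univ_succ,
      Fin.castSucc_zero, ← hPm]
  have hprodp : ∏ p : Fin r, ((r + 2 : ℕ) * ts u σ p ^ (r + 2 - 1) *
      algebraMap K M (g ^ (S.wt (σ p.succ.castSucc) - S.wt (σ 0)))) =
      ((r + 2 : ℕ) : M) ^ r * (Pm / u (σ 0) ^ r) ^ (r + 1) *
        algebraMap K M (g ^ (∑ p : Fin r, (S.wt (σ p.succ.castSucc) - S.wt (σ 0)))) := by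
    rw [Finset.prod_mul_distrib, Finset.prod_mul_distrib, Finset.prod_const, Finset.card_univ,
      Fintype.card_fin, zpow_sum' hg0, map_prod]
    congr 2
    have e2 : r + 2 - 1 = r + 1 := by omega
    rw [e2, Finset.prod_pow]
    congr 1
    unfold ts
    rw [Finset.prod_div_distrib, Finset.prod_const, Finset.card_univ, Fintype.card_fin, ← hPm]
  unfold tq
  rw [hsq, hdt, hprod, hprodp, map_mul]
  have hmain : S.lM (σ 0) ^ (r + 1) * (((r + 2 : ℕ) : M) ^ r * (Pm / u (σ 0) ^ r) ^ (r + 1) *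
      algebraMap K M (g ^ (∑ p : Fin r, (S.wt (σ p.succ.castSucc) - S.wt (σ 0)))) * T) =
      ((r + 2 : ℕ) : M) ^ r * (u (σ 0) ^ (r + 1) * (u (σ 0) * Pm) ^ (r + 1)) *
        algebraMap K M (g ^ (w - S.wt (σ (Fin.last (r + 1))))) * T := by
    have e3 : w - S.wt (σ (Fin.last (r + 1))) = ((r + 1 : ℕ) : ℤ) * S.wt (σ 0) +
        ∑ p : Fin r, (S.wt (σ p.succ.castSucc) - S.wt (σ 0)) := by
      rw [Finset.sum_sub_distrib, Finset.sum_const, Finset.card_univ, Fintype.card_fin,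
        nsmul_eq_mul, ← hwt]
      push_cast
      ring
    rw [e3, zpow_add₀ hg0, map_mul, hpow, mul_pow, ← map_pow]
    have e4 : g ^ (((r + 1 : ℕ) : ℤ) * S.wt (σ 0)) = (g ^ S.wt (σ 0)) ^ (r + 1) := by
      rw [mul_comm, zpow_mul, zpow_natCast]
    rw [e4, div_pow]
    have e5 := pow_ne_zero (r + 1) (pow_ne_zero r (hu0 (σ 0)))
    have e6 : (u (σ 0) ^ (r + 2)) ^ (r + 1) = u (σ 0) ^ (r + 1) * (u (σ 0) ^ (r + 1)) *
        (u (σ 0) ^ r) ^ (r + 1) := by
      rw [← pow_mul, ← pow_mul, ← pow_add, ← pow_add]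
      congr 1
      ring
    rw [e6, mul_pow (u (σ 0)) Pm]
    field_simp
  rw [hmain]
  refine pow_id (hu0 _) (mul_ne_zero (hu0 _) hPm0) (hgM _) ?_
  rw [← map_pow, ← map_pow, ← map_mul]
  congr 1
  rw [← zpow_natCast, ← zpow_natCast, ← zpow_mul, ← zpow_mul, ← zpow_add₀ hg0]
  congr 1
  push_cast
  ring

end

end Pool.Agent.H890
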