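import Pool.Agent.H890.KDefs7

/-!
Definitions: numerical equivalence, numerically semiample divisors, generalised abundance.
-/

set_option autoImplicit false

open FF Pool.Agent.W602.GT Pool.Agent.Y172 Pool.Agent.R887

namespace Pool.Agent.H890

section

variable {K : Type} [Field K] [Algebra ℂ K] {N : ℕ}

/-- The `ℚ`-divisors `E` and `E'` on `X` are numerically equivalent, `n` being the dimension of `X`:
`E - E'` and `E' - E` are `ℚ`-Cartier and nef. -/
def NumEquiv (y : Fin (N + 1) → K) (n : ℕ) (E E' : Place ℂ K → ℚ) : Prop :=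
  NefDivisor y n (E - E') ∧ NefDivisor y n (E' - E)

/-- The `ℚ`-divisor `E` on `X` is numerically semiample: it is numerically equivalent to a semiample
`ℚ`-divisor `F`. -/
def NumSemiample (y : Fin (N + 1) → K) (n : ℕ) (E : Place ℂ K → ℚ) : Prop :=
  ∃ F : Place ℂ K → ℚ, QDivisor y F ∧ SemiampleDivisor y n F ∧ NumEquiv y n E F

/-- Generalised abundance for the pair `(X, Δ)`, `n` being the dimension of `X`: if `K_X + Δ` is
pseudo-effective, then every nef `ℚ`-divisor `E` on `X` such that `m E - (K_X + Δ)` is nef for some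
integer `m ≥ 1` is numerically semiample. -/
def GeneralisedAbundance (y : Fin (N + 1) → K) (n : ℕ) (Δ : Place ℂ K → ℚ) : Prop :=
  ∀ C : Place ℂ K → ℚ, CanonicalDivisor y n C → Psef y (C + Δ) →
    ∀ E : Place ℂ K → ℚ, QDivisor y E → NefDivisor y n E →
      ∀ m : ℕ, 1 ≤ m → NefDivisor y n (m • E - (C + Δ)) → NumSemiample y n E

/-- All nef `ℚ`-divisors on `X` are numerically semiample, `n` being the dimension of `X`. -/
def NefSemiample (y : Fin (N + 1) → K) (n : ℕ) : Prop :=
  ∀ E : Place ℂ K → ℚ, QDivisor y E → NefDivisor y n E → NumSemiample y n E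

end

/-- The variety `V` with generic point `v`, of dimension `d`, can replace the pair `(X, Δ)`, `y` being
the generic point of `X` and `n` its dimension, in questions on nef divisors on `X`: `V` is a normal
projective variety; `K_V` is pseudo-effective if `K_X + Δ` is, and `ℚ`-linearly equivalent to zero if
`K_X + Δ` is; and every nef `ℚ`-divisor `E` on `X` has a nef pull-back `E'` to `V`, which is
numerically semiample if and only if `E` is numerically semiample, and such that `m E' - K_V` is nef
if `m E - (K_X + Δ)` is nef. -/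
structure NumReplaces {K M : Type} [Field K] [Algebra ℂ K] [Field M] [Algebra ℂ M] [Algebra K M]
    {N N' : ℕ} (v : Fin (N' + 1) → M) (d : ℕ) (y : Fin (N + 1) → K) (n : ℕ)
    (Δ : Place ℂ K → ℚ) : Prop where
  normal : NormalModel v
  trdeg : Algebra.trdeg ℂ M = d
  psef : ∀ C C', CanonicalDivisor y n C → CanonicalDivisor v d C' → Psef y (C + Δ) → Psef v C'
  trivial : LogTrivial y n Δ → LogTrivial v d 0
  nef : ∀ E : Place ℂ K → ℚ, QDivisor y E → NefDivisor y n E → ∃ E' : Place ℂ M → ℚ,
    IsPullBack y v E E' ∧ QDivisor v E' ∧ NefDivisor v d E' ∧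
      (NumSemiample v d E' ↔ NumSemiample y n E) ∧
      ∀ C C', CanonicalDivisor y n C → CanonicalDivisor v d C' → ∀ m : ℕ,
        NefDivisor y n (m • E - (C + Δ)) → NefDivisor v d (m • E' - C')

end Pool.Agent.H890
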