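import Pool.Agent.H890.KDefs

/-!
Definitions: log discrepancies, minimal log discrepancies, and their semicontinuity.
-/

set_option autoImplicit false

open FF MvPolynomial Pool.Agent.W602.GT Pool.Agent.Y172 Pool.Agent.R887

namespace Pool.Agent.H890

section

variable {K : Type} [Field K] [Algebra ℂ K] {N : ℕ}

/-- The log discrepancy of the prime divisor `Q` over `X` with respect to the pair `(X, Δ)` is `a`,
`n` being the dimension of `X`: for some `r ≥ 1` there is an `r`-canonical form `η` which generates
`r (K_X + Δ)` at the centre of `Q` on `X` (its order is `- r Δ P` along all prime divisors `P` of `X`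
through this centre), and the order of `η` along `Q` is `r (a - 1)`. -/
def LogDisc (y : Fin (N + 1) → K) (n : ℕ) (Δ : Place ℂ K → ℚ) (Q : Place ℂ K) (a : ℚ) : Prop :=
  ∃ r : ℕ, 0 < r ∧ ∃ η : (Fin n → Derivation ℂ K K) → K, IsPluri r η ∧
    (∀ P, IsPrimeDivisor y P → Through y P Q → OrdEq P η (-(r * Δ P))) ∧ OrdEq Q η (r * (a - 1))

/-- The centre of `Q` on `X` is a closed point: the values of the functions in the local ring at this
centre are complex numbers. -/
def ClosedPoint (y : Fin (N + 1) → K) (Q : Place ℂ K) : Prop :=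
  ∀ f ∈ localRing y Q, ∃ c : ℂ, f = algebraMap ℂ K c ∨ 0 < Q.ord (f - algebraMap ℂ K c)

/-- The functions `f i` belong to the local ring of `X` at the centre of `Q`, and their restrictions
to this centre are algebraically independent over `ℂ`. -/
def IndepAt (y : Fin (N + 1) → K) (Q : Place ℂ K) {d : ℕ} (f : Fin d → K) : Prop :=
  (∀ i, f i ∈ localRing y Q) ∧
    ∀ F : MvPolynomial (Fin d) ℂ, F ≠ 0 → aeval f F ≠ 0 ∧ Q.ord (aeval f F) = 0

/-- The centre of `Q` on `X` has dimension `d`. -/
def CentreDim (y : Fin (N + 1) → K) (Q : Place ℂ K) (d : ℕ) : Prop :=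
  (∃ f : Fin d → K, IndepAt y Q f) ∧ ∀ f : Fin (d + 1) → K, ¬ IndepAt y Q f

/-- The pair `(X, Δ)` is log canonical at the centre of `Q` on `X`: all prime divisors `P` over `X`
whose centre contains the centre of `Q` have a log discrepancy (`K_X + Δ` is `ℚ`-Cartier there),
which is not negative. -/
def LcAt (y : Fin (N + 1) → K) (n : ℕ) (Δ : Place ℂ K → ℚ) (Q : Place ℂ K) : Prop :=
  ∀ P, Divisorial n P → Through y P Q → ∃ a, LogDisc y n Δ P a ∧ 0 ≤ a

/-- The minimal log discrepancy of the pair `(X, Δ)` at the centre of `Q` on `X` is `c`: the number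
`c` is the least log discrepancy of the prime divisors `P` over `X` with the same centre. -/
def IsMld (y : Fin (N + 1) → K) (n : ℕ) (Δ : Place ℂ K → ℚ) (Q : Place ℂ K) (c : ℚ) : Prop :=
  (∀ P, Divisorial n P → localRing y P = localRing y Q → ∃ a, LogDisc y n Δ P a ∧ c ≤ a) ∧
    ∃ P, Divisorial n P ∧ localRing y P = localRing y Q ∧ LogDisc y n Δ P c

/-- Semicontinuity of minimal log discrepancies for the pair `(X, Δ)`: if `R` is a prime divisor over
`X` with centre of dimension `d` and log discrepancy `a`, and `x` (the centre of `Q`) is a closed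
point in the centre of `R`, at which `(X, Δ)` is log canonical, then the minimal log discrepancy at
`x` is at most `a + d`, that is, there is a prime divisor `P` over `X` with centre `x` and log
discrepancy at most `a + d`. -/
def Semicontinuous (y : Fin (N + 1) → K) (n : ℕ) (Δ : Place ℂ K → ℚ) : Prop :=
  ∀ Q R : Place ℂ K, Divisorial n Q → Divisorial n R → ClosedPoint y Q → LcAt y n Δ Q →
    Through y R Q → ∀ (d : ℕ) (a : ℚ), CentreDim y R d → LogDisc y n Δ R a →
      ∃ (P : Place ℂ K) (a' : ℚ), Divisorial n P ∧ localRing y P = localRing y Q ∧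
        LogDisc y n Δ P a' ∧ a' ≤ a + d

end

end Pool.Agent.H890
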