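import Pool.Agent.H890.KDefsM
import Pool.Graph.R_seed8.Helper386.D5V.Helper399_OverDefs

/-!
Definitions: log discrepancies and minimal log discrepancies of pairs with a real boundary, and their
semicontinuity.
-/

set_option autoImplicit false

open FF MvPolynomial Pool.Agent.W602.GT Pool.Agent.Y172 Pool.Agent.R887

namespace Pool.Agent.H890

section

variable {K : Type} [Field K] [Algebra ℂ K] {N : ℕ}

/-- The log discrepancy of the prime divisor `Q` over `X` with respect to the pair `(X, Δ)` is `a`
(`Δ` is an `ℝ`-divisor, `n` the dimension of `X`): for some `r ≥ 1` there is an `r`-canonical form `η`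
which generates `r K_X` at the centre of `Q` on `X` (its order is `0` along all prime divisors `P` of
`X` through this centre), the divisor `Δ` is `∑ t j * div (g j)` near this centre, `t j` real numbers
and `g j` rational functions, and `a = 1 + ord_Q η / r - ∑ t j * ord_Q (g j)`. -/
def RLogDisc (y : Fin (N + 1) → K) (n : ℕ) (Δ : Place ℂ K → ℝ) (Q : Place ℂ K) (a : ℝ) : Prop :=
  ∃ (r : ℕ) (k : ℤ) (η : (Fin n → Derivation ℂ K K) → K) (m : ℕ) (t : Fin m → ℝ) (g : Fin m → K),
    0 < r ∧ IsPluri r η ∧ (∀ P, IsPrimeDivisor y P → Through y P Q → OrdEq P η 0) ∧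
      OrdEq Q η k ∧ (∀ j, g j ≠ 0) ∧
      (∀ P, IsPrimeDivisor y P → Through y P Q → Δ P = ∑ j, t j * (P.ord (g j) : ℝ)) ∧
      a = 1 + k / r - ∑ j, t j * (Q.ord (g j) : ℝ)

/-- The pair `(X, Δ)` is log canonical at the centre of `Q` on `X`: the log discrepancies of all prime
divisors `P` over `X` whose centre contains the centre of `Q` are defined and not negative. -/
def RLcAt (y : Fin (N + 1) → K) (n : ℕ) (Δ : Place ℂ K → ℝ) (Q : Place ℂ K) : Prop :=
  ∀ P, Divisorial n P → Through y P Q → ∃ a, RLogDisc y n Δ P a ∧ 0 ≤ a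

/-- The pair `(X, Δ)` is klt at the centre of `Q` on `X`. -/
def RKltAt (y : Fin (N + 1) → K) (n : ℕ) (Δ : Place ℂ K → ℝ) (Q : Place ℂ K) : Prop :=
  ∀ P, Divisorial n P → Through y P Q → ∃ a, RLogDisc y n Δ P a ∧ 0 < a

/-- The minimal log discrepancy of the pair `(X, Δ)` at the centre of `Q` on `X` is `c`: the number
`c` is the infimum of the log discrepancies of the prime divisors `P` over `X` with the same centre. -/
def RMld (y : Fin (N + 1) → K) (n : ℕ) (Δ : Place ℂ K → ℝ) (Q : Place ℂ K) (c : ℝ) : Prop :=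
  (∀ P, Divisorial n P → localRing y P = localRing y Q → ∃ a, RLogDisc y n Δ P a ∧ c ≤ a) ∧
    ∀ ε, 0 < ε → ∃ P a, Divisorial n P ∧ localRing y P = localRing y Q ∧ RLogDisc y n Δ P a ∧
      a < c + ε

/-- Semicontinuity of the minimal log discrepancies of the pair `(X, Δ)` at the centre `x` of `Q` on
`X` (a closed point): if `R` is a prime divisor over `X` whose centre contains `x` and has the
dimension `d`, and `a` is its log discrepancy, then the minimal log discrepancy at `x` is at most
`a + d`. -/
def SemicontinuousAt (y : Fin (N + 1) → K) (n : ℕ) (Δ : Place ℂ K → ℝ) (Q : Place ℂ K) : Prop :=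
  ∀ R, Divisorial n R → Through y R Q → ∀ (d : ℕ) (a : ℝ), CentreDim y R d →
    RLogDisc y n Δ R a → ∀ ε, 0 < ε → ∃ P a', Divisorial n P ∧ localRing y P = localRing y Q ∧
      RLogDisc y n Δ P a' ∧ a' < a + d + ε

/-- `Δ` is an effective `ℝ`-divisor on `X`. -/
def REffective (y : Fin (N + 1) → K) (Δ : Place ℂ K → ℝ) : Prop :=
  (∀ P, IsPrimeDivisor y P → 0 ≤ Δ P) ∧ {P | IsPrimeDivisor y P ∧ Δ P ≠ 0}.Finite

/-- `Δ` is an `ℝ`-Cartier divisor on `X`: a combination of Cartier divisors with real coefficients. -/
def RCartier (y : Fin (N + 1) → K) (n : ℕ) (Δ : Place ℂ K → ℝ) : Prop :=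
  ∃ (m : ℕ) (t : Fin m → ℝ) (D : Fin m → Place ℂ K → ℚ), (∀ j, CartierMul y n 1 (D j)) ∧
    ∀ P, IsPrimeDivisor y P → Δ P = ∑ j, t j * (D j P : ℝ)

/-- The centre of `Q` on `X` is contained in the support of `Δ`. -/
def InSupport (y : Fin (N + 1) → K) (Δ : Place ℂ K → ℚ) (Q : Place ℂ K) : Prop :=
  ∃ P, IsPrimeDivisor y P ∧ Through y P Q ∧ Δ P ≠ 0

end

/-- The prime divisor `P` over the variety `V` (with generic point `v`, function field `M` and
dimension `d`) lies over the prime divisor `Q` over `X`, and the properties of `V` (without boundary)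
at the centre of `P` determine the properties of the pair `(X, Δ)` at the centre of `Q`, as follows:
the centre of `P` has the same dimension as the centre of `Q`, and it is a closed point if the centre of
`Q` is one; `V` is log canonical (klt) at this centre if `(X, Δ)` is so; if the centre of `Q` is
contained in the support of `Δ`, the minimal log discrepancy of `V` is the one of `(X, Δ)` plus `1 / b`;
and the minimal log discrepancies of the pair `(X, Δ)` are semicontinuous if this holds for `X` and
for `V` (without boundary). -/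
structure MldReplaces {K M : Type} [Field K] [Algebra ℂ K] [Field M] [Algebra ℂ M] [Algebra K M]
    {N N' : ℕ} (v : Fin (N' + 1) → M) (d : ℕ) (y : Fin (N + 1) → K) (n : ℕ) (Δ : Place ℂ K → ℚ)
    (b : ℕ) (P : Place ℂ M) (Q : Place ℂ K) : Prop where
  div : Divisorial d P
  above : ∃ e, Over P Q e
  dim : ∀ k, CentreDim y Q k → CentreDim v P k
  closed : ClosedPoint y Q → ClosedPoint v P
  lc : RLcAt y n (fun P => (Δ P : ℝ)) Q → RLcAt v d 0 P
  klt : RKltAt y n (fun P => (Δ P : ℝ)) Q → RKltAt v d 0 P
  mld : InSupport y Δ Q → ∀ c : ℝ, 0 ≤ c → RMld y n (fun P => (Δ P : ℝ)) Q c →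
    RMld v d 0 P (c + 1 / b)
  semicontinuous : RLcAt y n (fun P => (Δ P : ℝ)) Q → SemicontinuousAt y n 0 Q →
    SemicontinuousAt v d 0 P → SemicontinuousAt y n (fun P => (Δ P : ℝ)) Q

/-- The minimal log discrepancies of the varieties of dimension `n` (without boundary) are
semicontinuous: for every projective variety `X` of dimension `n` this is so at all closed points at
which `X` is log canonical (and so `ℚ`-Gorenstein). -/
def VarietySemicontinuity (n : ℕ) : Prop :=
  ∀ (K : Type) [Field K] [Algebra ℂ K] (N : ℕ) (y : Fin (N + 1) → K), Algebra.trdeg ℂ K = n →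
    NormalModel y → ∀ Q, Divisorial n Q → ClosedPoint y Q → RLcAt y n 0 Q →
      SemicontinuousAt y n 0 Q

/-- The minimal log discrepancies of the pairs of dimension `n` are semicontinuous: for every
projective variety `X` of dimension `n` and every effective `ℝ`-Cartier divisor `Δ` on `X` this is so
at all closed points at which the pair `(X, Δ)` is log canonical. -/
def PairSemicontinuity (n : ℕ) : Prop :=
  ∀ (K : Type) [Field K] [Algebra ℂ K] (N : ℕ) (y : Fin (N + 1) → K) (Δ : Place ℂ K → ℝ),
    Algebra.trdeg ℂ K = n → NormalModel y → REffective y Δ → RCartier y n Δ →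
      ∀ Q, Divisorial n Q → ClosedPoint y Q → RLcAt y n Δ Q → SemicontinuousAt y n Δ Q

/-- The minimal log discrepancies of the klt varieties of dimension `n` (without boundary) are
semicontinuous. -/
def KltVarietySemicontinuity (n : ℕ) : Prop :=
  ∀ (K : Type) [Field K] [Algebra ℂ K] (N : ℕ) (y : Fin (N + 1) → K), Algebra.trdeg ℂ K = n →
    NormalModel y → ∀ Q, Divisorial n Q → ClosedPoint y Q → RKltAt y n 0 Q →
      SemicontinuousAt y n 0 Q

/-- The minimal log discrepancies of the log canonical pairs `(X, Δ)` of dimension `n` such that `X`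
is klt are semicontinuous. -/
def KltPairSemicontinuity (n : ℕ) : Prop :=
  ∀ (K : Type) [Field K] [Algebra ℂ K] (N : ℕ) (y : Fin (N + 1) → K) (Δ : Place ℂ K → ℝ),
    Algebra.trdeg ℂ K = n → NormalModel y → REffective y Δ → RCartier y n Δ →
      ∀ Q, Divisorial n Q → ClosedPoint y Q → RKltAt y n 0 Q → RLcAt y n Δ Q →
        SemicontinuousAt y n Δ Q

end Pool.Agent.H890
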