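import Pool.Agent.H890.KDefsM
import Pool.Graph.R_seed8.Helper386.D5V.Helper399_OverDefs

/-!
Definitions: log trivial fibrations and their moduli parts.
-/

set_option autoImplicit false

open FF MvPolynomial Pool.Agent.W602.GT Pool.Agent.Y172 Pool.Agent.R887

namespace Pool.Agent.H890

section

variable {K F : Type} [Field K] [Algebra ℂ K] [Field F] [Algebra ℂ F] [Algebra F K] {N m : ℕ}

/-- The rational map from `X` to `Z` (with generic points `y`, `w` and function fields `K`, `F`) which
is given by the inclusion of `F` in `K` is a morphism: near the centre of every place of `K` on `X` the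
quotients of the homogeneous coordinates of `Z` by one of them are regular. -/
def IsMorphism (y : Fin (N + 1) → K) (w : Fin (m + 1) → F) : Prop :=
  ∀ Q : Place ℂ K, ∃ i, w i ≠ 0 ∧ ∀ j, algebraMap F K (w j / w i) ∈ localRing y Q

/-- `Λ P` is the multiplicity at `P` of the pull-back of a `ℚ`-Cartier `ℚ`-divisor `L` on `Z`, for all
prime divisors `P` over `Z` (`d` is the dimension of `Z`): for some `s ≥ 1`, near the centre of every
prime divisor over `Z` the divisor `s L` is the divisor of a function `g`. -/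
def CartierB (w : Fin (m + 1) → F) (d : ℕ) (Λ : Place ℂ F → ℚ) : Prop :=
  ∃ s : ℕ, 0 < s ∧ ∀ P, Divisorial d P → ∃ g : F, g ≠ 0 ∧
    ∀ P', Divisorial d P' → Through w P' P → (P'.ord g : ℚ) = s * Λ P'

/-- `K_X + B ∼_ℚ f^* L` (`n` is the dimension of `X`, and `Λ` the family of the multiplicities of `L`):
for some `s ≥ 1` there is an `s`-canonical form `η` on `X` with divisor `s (f^* L - B)`. The prime
divisors `D` of `X` which dominate `Z` are those which are trivial on `F`; otherwise the multiplicity of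
`f^* L` along `D` is `e Λ P`, if `D` lies over `P` with ramification index `e`. -/
def LogPullBack (y : Fin (N + 1) → K) (n : ℕ) (B : Place ℂ K → ℚ) (Λ : Place ℂ F → ℚ) : Prop :=
  ∃ (s : ℕ) (η : (Fin n → Derivation ℂ K K) → K), 0 < s ∧ IsPluri s η ∧
    ∀ D, IsPrimeDivisor y D →
      ((∀ f : F, D.ord (algebraMap F K f) = 0) → OrdEq D η (-(s * B D))) ∧
      ∀ (P : Place ℂ F) (e : ℕ), Over D P e → OrdEq D η (s * (e * Λ P - B D))

/-- The number `t` is the log canonical threshold `t_P` of the prime divisor `P` over `Z`, that is, the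
largest `t` such that `(X', B' + t f^* P)` is sub-log canonical over the generic point of `P` (`X'` a
model of `X` over the model of `Z` on which `P` lives, and `B'` the crepant pull-back of `B`): the
infimum of the quotients `a / e`, where `a` is the log discrepancy of a prime divisor over `X` which
lies over `P` with ramification index `e`. -/
def Threshold (y : Fin (N + 1) → K) (n : ℕ) (B : Place ℂ K → ℚ) (P : Place ℂ F) (t : ℚ) : Prop :=
  (∀ (Q : Place ℂ K) (e : ℕ) (a : ℚ), Divisorial n Q → Over Q P e → LogDisc y n B Q a →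
    e * t ≤ a) ∧
  ∀ ε : ℚ, 0 < ε → ∃ (Q : Place ℂ K) (e : ℕ) (a : ℚ), Divisorial n Q ∧ Over Q P e ∧
    LogDisc y n B Q a ∧ a < e * (t + ε)

/-- `μ` is the moduli `b`-divisor of the fibration, for the divisor `L` and the canonical divisor
`K_Z` which is the divisor of the `s`-canonical form `ω`, divided by `s`:
`μ P = L_P - (K_Z)_P - (1 - t_P)` for all prime divisors `P` over `Z`. -/
def ModuliPart (y : Fin (N + 1) → K) (n : ℕ) (B : Place ℂ K → ℚ) (d : ℕ) (Λ : Place ℂ F → ℚ)
    (μ : Place ℂ F → ℚ) : Prop :=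
  ∃ (s : ℕ) (ω : (Fin d → Derivation ℂ F F) → F), 0 < s ∧ IsPluri s ω ∧
    ∀ P, Divisorial d P → ∃ (k : ℤ) (t : ℚ), OrdEq P ω k ∧ Threshold y n B P t ∧
      μ P = Λ P - k / s - (1 - t)

/-- The `b`-divisor `μ` is `b`-semiample: for some `s ≥ 1` there are rational functions `f 0, ..., f m`
such that `s μ` is the pull-back of the hyperplane divisor under the rational map
`(f 0 : ... : f m)`, that is, `s μ P` is the largest of the numbers `- ord_P (f j)` for all prime
divisors `P` over `Z`. -/
def BSemiample (d : ℕ) (μ : Place ℂ F → ℚ) : Prop :=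
  ∃ (s m : ℕ) (f : Fin (m + 1) → F), 0 < s ∧ (∀ j, f j ≠ 0) ∧ ∀ P, Divisorial d P →
    (∀ j, -(P.ord (f j) : ℚ) ≤ s * μ P) ∧ ∃ j, s * μ P = -(P.ord (f j) : ℚ)

/-- `f : (X, B) → Z` is a contraction of normal projective varieties of dimensions `n` and `d`, the
divisor `B` is effective and `ℚ`-Cartier, `K_X + B` is `ℚ`-Cartier, and `K_X + B ∼_ℚ f^* L` for a
`ℚ`-Cartier `ℚ`-divisor `L` on `Z`. -/
structure LogTrivialFibration (y : Fin (N + 1) → K) (n : ℕ) (B : Place ℂ K → ℚ)
    (w : Fin (m + 1) → F) (d : ℕ) (Λ : Place ℂ F → ℚ) : Prop where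
  dimX : Algebra.trdeg ℂ K = n
  dimZ : Algebra.trdeg ℂ F = d
  normalX : NormalModel y
  normalZ : NormalModel w
  morphism : IsMorphism y w
  connected : ∀ x : K, IsAlgebraic F x → ∃ c : F, algebraMap F K c = x
  effective : Effective y B
  cartierB : ∃ b : ℕ, 0 < b ∧ CartierMul y n b B
  cartierK : ∀ Q, Divisorial n Q → ∃ a, LogDisc y n B Q a
  cartierL : CartierB w d Λ
  pullBack : LogPullBack y n B Λ

variable (F)

/-- `(X, B)` is klt over the generic point of `Z`: the prime divisors over `X` which dominate `Z` have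
positive log discrepancies. -/
def KltGeneric (y : Fin (N + 1) → K) (n : ℕ) (B : Place ℂ K → ℚ) : Prop :=
  ∀ Q, Divisorial n Q → (∀ f : F, Q.ord (algebraMap F K f) = 0) → ∃ a, LogDisc y n B Q a ∧ 0 < a

/-- `(X, B)` is log canonical over the generic point of `Z`. -/
def LcGeneric (y : Fin (N + 1) → K) (n : ℕ) (B : Place ℂ K → ℚ) : Prop :=
  ∀ Q, Divisorial n Q → (∀ f : F, Q.ord (algebraMap F K f) = 0) → ∃ a, LogDisc y n B Q a ∧ 0 ≤ a

end

/-- The moduli part is `b`-semiample for all fibrations `f : (X, B) → Z` as above such that `(X, B)` is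
klt over the generic point of `Z`. -/
def ModuliSemiampleKlt : Prop :=
  ∀ (K F : Type) [Field K] [Algebra ℂ K] [Field F] [Algebra ℂ F] [Algebra F K]
    [IsScalarTower ℂ F K] (n d N m : ℕ) (y : Fin (N + 1) → K) (B : Place ℂ K → ℚ)
    (w : Fin (m + 1) → F) (Λ μ : Place ℂ F → ℚ), LogTrivialFibration y n B w d Λ →
      KltGeneric F y n B → ModuliPart y n B d Λ μ → BSemiample d μ

/-- The same for the varieties `X` without boundary: `K_X ∼_ℚ f^* L`. -/
def ModuliSemiampleKltVariety : Prop :=
  ∀ (K F : Type) [Field K] [Algebra ℂ K] [Field F] [Algebra ℂ F] [Algebra F K]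
    [IsScalarTower ℂ F K] (n d N m : ℕ) (y : Fin (N + 1) → K)
    (w : Fin (m + 1) → F) (Λ μ : Place ℂ F → ℚ), LogTrivialFibration y n 0 w d Λ →
      KltGeneric F y n 0 → ModuliPart y n 0 d Λ μ → BSemiample d μ

/-- The moduli part is `b`-semiample for all fibrations `f : (X, B) → Z` as above such that `(X, B)` is
log canonical over the generic point of `Z`. -/
def ModuliSemiampleLc : Prop :=
  ∀ (K F : Type) [Field K] [Algebra ℂ K] [Field F] [Algebra ℂ F] [Algebra F K]
    [IsScalarTower ℂ F K] (n d N m : ℕ) (y : Fin (N + 1) → K) (B : Place ℂ K → ℚ)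
    (w : Fin (m + 1) → F) (Λ μ : Place ℂ F → ℚ), LogTrivialFibration y n B w d Λ →
      LcGeneric F y n B → ModuliPart y n B d Λ μ → BSemiample d μ

/-- The same for the varieties `X` without boundary: `K_X ∼_ℚ f^* L`. -/
def ModuliSemiampleLcVariety : Prop :=
  ∀ (K F : Type) [Field K] [Algebra ℂ K] [Field F] [Algebra ℂ F] [Algebra F K]
    [IsScalarTower ℂ F K] (n d N m : ℕ) (y : Fin (N + 1) → K)
    (w : Fin (m + 1) → F) (Λ μ : Place ℂ F → ℚ), LogTrivialFibration y n 0 w d Λ →
      LcGeneric F y n 0 → ModuliPart y n 0 d Λ μ → BSemiample d μ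

end Pool.Agent.H890
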