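import Pool.Agent.H890.KDefsM

/-!
Definitions: sets of minimal log discrepancies, and the ascending chain condition.
-/

set_option autoImplicit false

open FF MvPolynomial Pool.Agent.W602.GT Pool.Agent.Y172 Pool.Agent.R887

namespace Pool.Agent.H890

section

variable {K : Type} [Field K] [Algebra ℂ K] {N : ℕ}

/-- The divisor `Δ` is `ℚ`-Cartier near the centre of `Q` on `X`: near this centre a multiple `I Δ`,
`I ≥ 1`, is the divisor of a rational function. -/
def QCartierAt (y : Fin (N + 1) → K) (Δ : Place ℂ K → ℚ) (Q : Place ℂ K) : Prop :=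
  ∃ (I : ℕ) (g : K), 0 < I ∧ g ≠ 0 ∧ ∀ P, IsPrimeDivisor y P → Through y P Q →
    (P.ord g : ℚ) = I * Δ P

/-- The coefficients of the divisor `Δ` belong to `Γ`. -/
def CoeffIn (y : Fin (N + 1) → K) (Γ : Set ℚ) (Δ : Place ℂ K → ℚ) : Prop :=
  ∀ P, IsPrimeDivisor y P → Δ P = 0 ∨ Δ P ∈ Γ

/-- The centre of `Q` on `X` is contained in the support of `Δ`. -/
def InSupp (y : Fin (N + 1) → K) (Δ : Place ℂ K → ℚ) (Q : Place ℂ K) : Prop :=
  ∃ P, IsPrimeDivisor y P ∧ Through y P Q ∧ Δ P ≠ 0

end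

/-- The set of the minimal log discrepancies `c ≥ 0` of the pairs `(X, Δ)` at closed points `x`, where
`X` is a normal projective variety of dimension `k` and `Δ` is an effective divisor with coefficients
in `Γ` which is `ℚ`-Cartier near `x` (and `K_X + Δ` is `ℚ`-Cartier near `x`). For `Γ = ∅` these are the
minimal log discrepancies of the varieties without boundary. -/
def MldSet (k : ℕ) (Γ : Set ℚ) : Set ℚ :=
  {c | 0 ≤ c ∧ ∃ (K : Type) (_ : Field K) (_ : Algebra ℂ K) (N : ℕ) (y : Fin (N + 1) → K)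
    (Δ : Place ℂ K → ℚ) (Q : Place ℂ K), Algebra.trdeg ℂ K = k ∧ NormalModel y ∧ Effective y Δ ∧
      CoeffIn y Γ Δ ∧ Divisorial k Q ∧ ClosedPoint y Q ∧ QCartierAt y Δ Q ∧ IsMld y k Δ Q c}

/-- The set `s` satisfies the ascending chain condition: every non-decreasing sequence in `s` is
eventually constant. -/
def SatisfiesACC (s : Set ℚ) : Prop :=
  ∀ f : ℕ → ℚ, (∀ i, f i ∈ s) → Monotone f → ∃ m, ∀ i, m ≤ i → f i = f m

end Pool.Agent.H890
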