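import Pool.Agent.H890.KDefsW

/-!
Definitions: the Cartier index of log pairs, and bounds for it.
-/

set_option autoImplicit false

open FF MvPolynomial Pool.Agent.W602.GT Pool.Agent.Y172 Pool.Agent.R887

namespace Pool.Agent.H890

/-- The divisor `r (K_X + Δ)` is Cartier near the centre of `Q` on `X`: there is an `r`-canonical form
which generates it there, that is, its order is `- r Δ P` along all prime divisors `P` of `X` through
this centre (so `r Δ` is integral there). -/
def LogCartierAt {K : Type} [Field K] [Algebra ℂ K] {N : ℕ} (y : Fin (N + 1) → K) (n : ℕ)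
    (Δ : Place ℂ K → ℚ) (r : ℕ) (Q : Place ℂ K) : Prop :=
  ∃ η : (Fin n → Derivation ℂ K K) → K, IsPluri r η ∧
    ∀ P, IsPrimeDivisor y P → Through y P Q → OrdEq P η (-(r * Δ P))

/-- For all pairs `(X, Δ)` and all points `x` of `X` such that `X` is a normal projective variety of
dimension `k`, `Δ` is an effective divisor with coefficients in `Γ` which is `ℚ`-Cartier near `x`, and
the minimal log discrepancy at `x` is `ε`, the divisor `I (K_X + Δ)` is Cartier near `x`. (The points
`x` are the centres of the prime divisors `Q` over `X`.) -/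
def IndexBound (k : ℕ) (Γ : Set ℚ) (ε : ℚ) (I : ℕ) : Prop :=
  ∀ (K : Type) [Field K] [Algebra ℂ K] (N : ℕ) (y : Fin (N + 1) → K) (Δ : Place ℂ K → ℚ)
    (Q : Place ℂ K), Algebra.trdeg ℂ K = k → NormalModel y → Effective y Δ → CoeffIn y Γ Δ →
      Divisorial k Q → QCartierAt y Δ Q → IsMld y k Δ Q ε → LogCartierAt y k Δ I Q

end Pool.Agent.H890
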