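import Pool.Agent.H890.Desc
import Pool.Graph.R_seed8.Y172.Dim3

/-!
Sections of the multiples of the canonical divisor of the covering space and sections of the
multiples of `K_X + Δ`.
-/

set_option autoImplicit false
set_option linter.unusedSectionVars false
set_option linter.overlappingInstances false

open FF MvPolynomial Pool.Agent.W602.GT Pool.Agent.W603.LV Pool.Agent.Y172
  Pool.Agent.TH122.AB Pool.Agent.R887

namespace Pool.Agent.H890

section fin

variable {K : Type} [Field K] [Algebra ℂ K] {N : ℕ} {y : Fin (N + 1) → K} {n : ℕ}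

theorem frame_dual {x : Fin n → K} {E : Fin n → Derivation ℂ K K} (hx : IsTranscendenceBasis ℂ x)
    (hE : ∀ i j, E i (x j) = if i = j then 1 else 0) : IsFrame E := fun D =>
  ⟨fun j => D (x j), (Pool.Agent.W73.PG.PULL.expand x hx E hE D).symm⟩

/-- the spaces of sections are finite dimensional -/
theorem fin_sec (hy : NormalModel y) (hn : Algebra.trdeg ℂ K = n) {Δ A : Place ℂ K → ℚ}
    (hΔ : Effective y Δ) (hA : Effective y A) {m : ℕ} (hm : 1 ≤ m) :
    Module.Finite ℂ (secSub y n m (m • Δ + A)) := by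
  have hess := hy.ess
  obtain ⟨x, E, hx, hE⟩ := exists_crd hn
  obtain ⟨C, hC⟩ := sec_growth hy hn hΔ hA E
  exact (finite_h0 (frame_dual hx hE) (hC m hm)).1

theorem effective_zero (y : Fin (N + 1) → K) : Effective y 0 := by
  refine ⟨fun P _ => le_rfl, Set.finite_empty.subset ?_⟩
  rintro P ⟨-, h0⟩
  exact h0 rfl

theorem fin_sec0 (hy : NormalModel y) (hn : Algebra.trdeg ℂ K = n) {Δ : Place ℂ K → ℚ}
    (hΔ : Effective y Δ) {m : ℕ} (hm : 1 ≤ m) :
    Module.Finite ℂ (secSub y n m (m • Δ)) := by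
  have h1 := fin_sec hy hn hΔ (effective_zero y) hm
  rwa [add_zero] at h1

/-- powers of sections -/
theorem h0_mul_le (hy : NormalModel y) (hn : Algebra.trdeg ℂ K = n) {Δ : Place ℂ K → ℚ}
    (hΔ : Effective y Δ) {m c : ℕ} (hm : 1 ≤ m) (hc : 1 ≤ c) :
    h0 y n m (m • Δ) ≤ h0 y n (c * m) ((c * m) • Δ) := by
  classical
  by_cases h0' : ∃ s, IsSection y n m (m • Δ) s ∧ s ≠ 0
  · obtain ⟨s, hs, hs0⟩ := h0'
    obtain ⟨c', rfl⟩ : ∃ c', c = c' + 1 := ⟨c - 1, by omega⟩
    have hess := hy.ess
    obtain ⟨x, E, hx, hE⟩ := exists_crd hn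
    have hsE : s E ≠ 0 := fun h => hs0 (pluri_zero (frame_dual hx hE) hs.1 h)
    have h2 := hs.pow c'
    have h1 := fin_sec0 hy hn hΔ (m := (c' + 1) * m) (Nat.mul_pos hc hm)
    rw [h0_eq, h0_eq]
    let φ : secSub y n m (m • Δ) →ₗ[ℂ] secSub y n ((c' + 1) * m) (((c' + 1) * m) • Δ) :=
      { toFun := fun ω => ⟨fun D => s D ^ c' * (ω : (Fin n → Derivation ℂ K K) → K) D, by
          have h3 := h2.mul ω.2
          have e1 : c' * m + m = (c' + 1) * m := by ring
          have e2 : c' • m • Δ + m • Δ = ((c' + 1) * m) • Δ := by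
            rw [← mul_smul, ← add_smul, e1]
          rw [e1, e2] at h3
          exact h3⟩
        map_add' := fun ω ω' => by
          apply Subtype.ext
          funext D
          change s D ^ c' * ((ω : (Fin n → Derivation ℂ K K) → K) D +
            (ω' : (Fin n → Derivation ℂ K K) → K) D) = _
          rw [mul_add]
          rfl
        map_smul' := fun a ω => by
          apply Subtype.ext
          funext D
          change s D ^ c' * (a • (ω : (Fin n → Derivation ℂ K K) → K) D) =
            a • (s D ^ c' * (ω : (Fin n → Derivation ℂ K K) → K) D)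
          rw [mul_smul_comm] }
    refine LinearMap.finrank_le_finrank_of_injective (f := φ) ?_
    rw [← LinearMap.ker_eq_bot, LinearMap.ker_eq_bot']
    intro ω hω
    apply Subtype.ext
    apply pluri_zero (frame_dual hx hE) ω.2.1
    have h3 := congrFun (congrArg Subtype.val hω) E
    exact (mul_eq_zero.1 h3).resolve_left (pow_ne_zero _ hsE)
  · push Not at h0'
    rw [h0_zero h0']
    exact Nat.zero_le _

end fin

section

variable {K L M : Type} [Field K] [Field L] [Field M] [Algebra ℂ K] [Algebra ℂ L]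
  [Algebra ℂ M] [Algebra K L] [Algebra L M] [Algebra K M] [IsScalarTower ℂ K L]
  [IsScalarTower ℂ L M] [IsScalarTower ℂ K M] [IsScalarTower K L M] [FiniteDimensional L M]
  {N : ℕ} {y : Fin (N + 1) → K} {n r : ℕ} {G : Place ℂ K → ℤ}
  {S : Mod K L M y n r G} {b : ℕ} {z : M}

/-- **The sections on the covering space come from the base.** -/
theorem Cov.sec_down (h : Cov S b z) (hr : 0 < r) {Δ : Place ℂ K → ℚ}
    (hG : ∀ P, IsPrimeDivisor y P → (G P : ℚ) = b * Δ P) (hlc : LogCanonical y n Δ)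
    {x : Fin n → K} {E : Fin n → Derivation ℂ K K} (hx : IsTranscendenceBasis ℂ x)
    (hE : ∀ i j, E i (x j) = if i = j then 1 else 0) {R : ℕ}
    {W : (Fin (n + r) → Derivation ℂ M M) → M} (hWp : IsPluri (2 * (b * R)) W)
    (hWge : ∀ P', IsPrimeDivisor S.v P' → OrdGe P' W 0) :
    ∃ a : K, W = th S.lM b R (fun i => algebraMap K M (x i)) (algebraMap K M a) ∧
      ∀ D, IsPrimeDivisor y D →
        OrdGe D (frm x (2 * (b * R)) a) (-(((2 * (b * R) : ℕ) : ℚ) * Δ D)) := by
  classical
  have hessK := S.essK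
  have hessM := S.essM
  obtain ⟨θ, hθ⟩ : ∃ θ, θ = th S.lM b R (fun i => algebraMap K M (x i)) (algebraMap K M 1) :=
    ⟨_, rfl⟩
  have hθp : IsPluri (2 * (b * R)) θ := by
    rw [hθ]
    exact th_pluri S.sysM _ _ _ _
  have hbas : IsTranscendenceBasis ℂ (Fin.append (fun i => algebraMap K M (x i))
      (ts S.lM (sA 0)) : Fin (n + r) → M) := by
    refine append_basis hx ?_
    have h1 : IsTranscendenceBasis K (algebraMap L M ∘ ts S.l (sA 0)) :=
      (Gens_basis (gens_ts S.sys S.gens (sA 0))).algebraMap_comp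
    have h2 : ts S.lM (sA 0) = algebraMap L M ∘ ts S.l (sA 0) := by
      funext p
      exact ts_up _ _
    rw [h2]
    exact h1
  choose F hF using fun u : Fin (n + r) => exists_der (L := ℂ) _ hbas
    (fun v => if u = v then (1 : M) else 0)
  have hθF : θ F ≠ 0 := by
    rw [hθ, th_self S.sysM (i := 0) (Or.inl rfl) hF, map_one, mul_one]
    exact div_ne_zero (pow_ne_zero _ (S.sysM.ne _))
      (pow_ne_zero _ (Finset.prod_ne_zero_iff.2 fun k _ => S.sysM.ne k))
  obtain ⟨g, hg⟩ : ∃ g, g = W F / θ F := ⟨_, rfl⟩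
  have hWθ : W = fun D => g * θ D := by
    funext D
    rw [pluri_coord hbas hF hWp D, pluri_coord hbas hF hθp D, hg]
    field_simp
  obtain ⟨a, hga⟩ := h.const hr (g := g) fun P' hP' htr => by
    have h1 := hWge P' hP'
    rw [hWθ] at h1
    have h2 := h.hor hP' htr R hx hE (one_ne_zero (α := K))
    rw [← hθ] at h2
    rcases ratio_ge h2 h1 with h3 | h3
    · rw [h3]
      exact P'.reg_zero
    · right
      have h4 : (0 : ℚ) ≤ P'.ord g := by linarith
      exact_mod_cast h4
  have hWa : W = th S.lM b R (fun i => algebraMap K M (x i)) (algebraMap K M a) := by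
    rw [hWθ, hga, hθ]
    funext D
    rw [← th_mul, ← map_mul, mul_one]
  refine ⟨a, hWa, fun D hD => ?_⟩
  by_cases ha : a = 0
  · intro F' _
    left
    rw [ha]
    unfold frm
    rw [mul_zero]
  rw [hWa] at hWge
  have hηp := frm_pluri x (2 * (b * R)) a
  have hηE : frm x (2 * (b * R)) a E ≠ 0 := by rwa [frm_self hE]
  have hcast : (-(((2 * (b * R) : ℕ) : ℚ) * Δ D)) = ((-(2 * R * G D) : ℤ) : ℚ) := by
    push_cast
    rw [hG D hD]
    ring
  have hDd := hD.divisorial S.ny h.trK
  obtain ⟨c, hc⟩ := exists_ordEq h.trK hDd hηp hx hE hηE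
  obtain ⟨P₂, e₂, -, hP₂⟩ := h.exists_over hDd
  obtain ⟨q, κ, hq, -, hκ, h1, -⟩ := h.compare hG hlc hx hE ha hWge hDd hP₂
  have h2 := h1 D hD (fun f hf => localRing_reg hf) c hc
  have h3 : (0 : ℤ) < q := by exact_mod_cast hq
  rw [hcast]
  refine hc.1.mono ?_
  have h4 : -(2 * R * G D) ≤ c := by nlinarith
  exact_mod_cast h4

/-- **The sections on the base give sections on the covering space.** -/
theorem Cov.sec_up (h : Cov S b z) {Δ A : Place ℂ K → ℚ} {B : Place ℂ M → ℚ}
    (hG : ∀ P, IsPrimeDivisor y P → (G P : ℚ) = b * Δ P)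
    (hB : ∀ P Q, IsPrimeDivisor S.v P → IsPrimeDivisor y Q →
      (∀ f, P.ord (algebraMap K M f) = Q.ord f) → (⌊A Q⌋ : ℚ) ≤ B P)
    (hB0 : ∀ P, IsPrimeDivisor S.v P → 0 ≤ B P)
    {x : Fin n → K} {E : Fin n → Derivation ℂ K K} (hx : IsTranscendenceBasis ℂ x)
    (hE : ∀ i j, E i (x j) = if i = j then 1 else 0) {R : ℕ}
    {η : (Fin n → Derivation ℂ K K) → K} (hη : IsPluri (2 * (b * R)) η)
    (hηge : ∀ D, IsPrimeDivisor y D →
      OrdGe D η (-(((2 * (b * R) : ℕ) : ℚ) * Δ D + A D))) :
    ∀ P', IsPrimeDivisor S.v P' →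
      OrdGe P' (th S.lM b R (fun i => algebraMap K M (x i)) (algebraMap K M (η E))) (-(B P')) := by
  classical
  have hessK := S.essK
  have hessM := S.essM
  intro P' hP'
  by_cases hηE : η E = 0
  · intro F' _
    left
    rw [hηE, map_zero, th_zero]
  by_cases htr : ∀ f : K, P'.ord (algebraMap K M f) = 0
  · refine (h.hor hP' htr R hx hE hηE).1.mono ?_
    have := hB0 P' hP'
    linarith
  · push Not at htr
    obtain ⟨e', D, hPD⟩ := FF.exists_over P' htr
    obtain ⟨hD, hDd, hord, hDθ⟩ := h.ver hP' hPD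
    obtain ⟨c', hc'⟩ := exists_ordEq h.trK hDd hη hx hE hηE
    have h1 := hDθ R η hη c' hc' x E hx hE
    have h2 := ordEq_le h.trK hDd hη hc' (hηge D hD)
    have h3 : -(2 * R * G D) - ⌊A D⌋ ≤ c' := by
      have h4 : (-(((2 * (b * R) : ℕ) : ℚ) * Δ D + A D)) = -(2 * R * (G D : ℚ)) - A D := by
        rw [hG D hD]
        push_cast
        ring
      rw [h4] at h2
      have h5 : -(2 * R * (G D : ℚ)) - c' ≤ A D := by linarith
      have h6 : ((-(2 * R * G D) - c' : ℤ) : ℚ) ≤ A D := by
        push_cast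
        exact h5
      have h7 := Int.le_floor.2 h6
      linarith
    refine h1.1.mono ?_
    have h8 := hB P' D hP' hD hord
    have h9 : -(2 * R * (G D : ℚ)) - ⌊A D⌋ ≤ c' := by exact_mod_cast h3
    push_cast
    linarith

/-- **The number of sections.** -/
theorem Cov.h0_eq (h : Cov S b z) (hr : 0 < r) {Δ : Place ℂ K → ℚ}
    (hG : ∀ P, IsPrimeDivisor y P → (G P : ℚ) = b * Δ P) (hlc : LogCanonical y n Δ) (R : ℕ) :
    h0 S.v (n + r) (2 * (b * R)) ((2 * (b * R)) • (0 : Place ℂ M → ℚ)) =
      h0 y n (2 * (b * R)) ((2 * (b * R)) • Δ) := by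
  classical
  have hessK := S.essK
  have hessM := S.essM
  obtain ⟨x, E, hx, hE⟩ := exists_crd h.trK
  obtain ⟨xM, hxM⟩ : ∃ xM : Fin n → M, xM = fun i => algebraMap K M (x i) := ⟨_, rfl⟩
  have e0 : ∀ D, ((2 * (b * R)) • Δ) D = ((2 * (b * R) : ℕ) : ℚ) * Δ D := fun D => by
    rw [Pi.smul_apply, nsmul_eq_mul]
  have e1 : ∀ P : Place ℂ M, ((2 * (b * R)) • (0 : Place ℂ M → ℚ)) P = 0 := fun P => by
    rw [smul_zero]
    rfl
  rw [Y172.h0_eq, Y172.h0_eq]
  symm
  let φ : secSub y n (2 * (b * R)) ((2 * (b * R)) • Δ) →ₗ[ℂ]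
      secSub S.v (n + r) (2 * (b * R)) ((2 * (b * R)) • (0 : Place ℂ M → ℚ)) :=
    { toFun := fun ω => ⟨th S.lM b R xM
        (algebraMap K M ((ω : (Fin n → Derivation ℂ K K) → K) E)),
        th_pluri S.sysM _ _ _ _, fun P hP => by
          have h1 := h.sec_up (A := 0) (B := 0) hG (fun P Q _ _ _ => by simp)
            (fun P _ => le_rfl) hx hE ω.2.1 (fun D hD => by
              have h2 := ω.2.2 D hD
              rw [e0] at h2
              simpa using h2) P hP
          rw [e1, hxM]
          exact h1⟩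
      map_add' := fun ω ω' => by
        apply Subtype.ext
        funext D
        change th S.lM b R xM (algebraMap K M ((ω : (Fin n → Derivation ℂ K K) → K) E +
          (ω' : (Fin n → Derivation ℂ K K) → K) E)) D =
          th S.lM b R xM (algebraMap K M ((ω : (Fin n → Derivation ℂ K K) → K) E)) D +
          th S.lM b R xM (algebraMap K M ((ω' : (Fin n → Derivation ℂ K K) → K) E)) D
        unfold th
        rw [map_add]
        ring
      map_smul' := fun a ω => by
        apply Subtype.ext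
        funext D
        change th S.lM b R xM (algebraMap K M (a • (ω : (Fin n → Derivation ℂ K K) → K) E)) D =
          a • th S.lM b R xM (algebraMap K M ((ω : (Fin n → Derivation ℂ K K) → K) E)) D
        generalize (ω : (Fin n → Derivation ℂ K K) → K) E = w
        rw [Algebra.smul_def, map_mul, ← IsScalarTower.algebraMap_apply ℂ K M, th_mul,
          Algebra.smul_def] }
  refine (LinearEquiv.ofBijective φ ⟨?_, ?_⟩).finrank_eq
  · rw [← LinearMap.ker_eq_bot, LinearMap.ker_eq_bot']
    intro ω hω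
    apply Subtype.ext
    apply pluri_zero (frame_dual hx hE) ω.2.1
    by_contra h0
    have h1 := congrArg Subtype.val hω
    have h2 : th S.lM b R xM (algebraMap K M ((ω : (Fin n → Derivation ℂ K K) → K) E)) = 0 := h1
    have hbas : IsTranscendenceBasis ℂ (Fin.append (fun i => algebraMap K M (x i))
        (ts S.lM (sA 0)) : Fin (n + r) → M) := by
      refine append_basis hx ?_
      have h1 : IsTranscendenceBasis K (algebraMap L M ∘ ts S.l (sA 0)) :=
        (Gens_basis (gens_ts S.sys S.gens (sA 0))).algebraMap_comp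
      have h2 : ts S.lM (sA 0) = algebraMap L M ∘ ts S.l (sA 0) := by
        funext p
        exact ts_up _ _
      rw [h2]
      exact h1
    choose F hF using fun u : Fin (n + r) => exists_der (L := ℂ) _ hbas
      (fun v => if u = v then (1 : M) else 0)
    have h3 := congrFun h2 F
    rw [hxM, th_self S.sysM (i := 0) (Or.inl rfl) hF] at h3
    exact div_ne_zero (mul_ne_zero (pow_ne_zero _ (S.sysM.ne _)) (by
      rwa [Ne, map_eq_zero]))
      (pow_ne_zero _ (Finset.prod_ne_zero_iff.2 fun k _ => S.sysM.ne k)) h3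
  · rintro ⟨W, hWp, hWge⟩
    obtain ⟨a, hW, ha⟩ := h.sec_down hr hG hlc hx hE hWp (fun P' hP' => by
      have h1 := hWge P' hP'
      rw [e1, neg_zero] at h1
      exact h1)
    refine ⟨⟨frm x (2 * (b * R)) a, frm_pluri x _ _, fun D hD => ?_⟩, ?_⟩
    · rw [e0]
      exact ha D hD
    · apply Subtype.ext
      change th S.lM b R xM (algebraMap K M (frm x (2 * (b * R)) a E)) = W
      rw [frm_self hE, hW, hxM]

end

end Pool.Agent.H890
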