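import Pool.Agent.H890.Alg

/-!
Ramification in fields generated by several roots.
-/

set_option autoImplicit false
set_option linter.unusedSectionVars false
set_option linter.overlappingInstances false

open FF Polynomial Pool.Agent.W602.GT Pool.Agent.W603.LV Pool.Agent.Y172

namespace Pool.Agent.H890

section

variable {k L M : Type} [Field k] [Field L] [Field M] [Algebra k L] [Algebra k M] [Algebra L M]
  [IsScalarTower k L M]

/-- Kummer extensions by functions whose orders are divisible by `N` are unramified -/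
theorem kummer_div [CharZero k] {Q : Place k M} {P : Place k L} {e : ℕ} (h : Over Q P e)
    {N : ℕ} (hN : 0 < N) {z : M} {φ : L} (hφ : φ ≠ 0) (hφP : (N : ℤ) ∣ P.ord φ)
    (hz : z ^ N = algebraMap L M φ) (hgen : ∀ x : M, ∃ p : L[X], x = aeval z p) : e = 1 := by
  obtain ⟨m, hm⟩ := hφP
  obtain ⟨π, hπ0, hπ⟩ := P.surj
  have hc0 : π ^ (-m) ≠ 0 := zpow_ne_zero _ hπ0
  refine kummer_unr h hN (z := algebraMap L M (π ^ (-m)) * z) (φ := (π ^ (-m)) ^ N * φ)
    (mul_ne_zero (pow_ne_zero _ hc0) hφ) ?_ ?_ fun x => ?_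
  · rw [P.ord_mul (pow_ne_zero _ hc0) hφ, P.ord_pow, P.ord_zpow, hπ, hm]
    ring
  · rw [mul_pow, hz, map_mul, map_pow]
  · obtain ⟨p, rfl⟩ := hgen x
    refine ⟨p.comp (C (π ^ m) * X), ?_⟩
    rw [aeval_comp, map_mul, aeval_C, aeval_X, ← mul_assoc, ← map_mul, ← zpow_add₀ hπ0,
      add_neg_cancel, zpow_zero, map_one, one_mul]

theorem gen_of_top {z : M} (hz : IsIntegral L z) (h : IntermediateField.adjoin L {z} = ⊤) (x : M) :
    ∃ p : L[X], x = aeval z p := by
  have h1 : x ∈ (IntermediateField.adjoin L {z}).toSubalgebra := by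
    rw [h]
    exact IntermediateField.mem_top
  rw [IntermediateField.adjoin_simple_toSubalgebra_of_isAlgebraic hz.isAlgebraic,
    Algebra.adjoin_singleton_eq_range_aeval] at h1
  obtain ⟨p, hp⟩ := h1
  exact ⟨p, hp.symm⟩

/-- the field without one of the generators -/
theorem kum_tower {m : ℕ} {z : Fin (m + 1) → M} (k0 : Fin (m + 1))
    (h : IntermediateField.adjoin L (Set.range z) = ⊤) :
    ∃ (F : IntermediateField L M) (z' : Fin m → F), (∀ i, (z' i : M) = z (k0.succAbove i)) ∧
      IntermediateField.adjoin L (Set.range z') = ⊤ ∧ IntermediateField.adjoin F {z k0} = ⊤ := by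
  refine ⟨IntermediateField.adjoin L (Set.range fun i => z (k0.succAbove i)),
    fun i => ⟨z (k0.succAbove i), IntermediateField.subset_adjoin L _ ⟨i, rfl⟩⟩, fun i => rfl,
    ?_, ?_⟩
  · obtain ⟨F, hF⟩ : ∃ F, F = IntermediateField.adjoin L (Set.range fun i => z (k0.succAbove i)) :=
      ⟨_, rfl⟩
    apply IntermediateField.map_injective (IntermediateField.val _)
    rw [IntermediateField.adjoin_map, ← Set.range_comp, ← AlgHom.fieldRange_eq_map,
      IntermediateField.fieldRange_val]
    rfl
  · rw [← IntermediateField.restrictScalars_eq_top_iff (K := L),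
      IntermediateField.adjoin_adjoin_left, ← h]
    congr 1
    ext w
    constructor
    · rintro (⟨i, rfl⟩ | hw)
      · exact ⟨_, rfl⟩
      · exact ⟨k0, hw.symm⟩
    · rintro ⟨i, rfl⟩
      by_cases hi : i = k0
      · right
        rw [hi]
        rfl
      · left
        obtain ⟨j, hj⟩ := Fin.exists_succAbove_eq hi
        exact ⟨j, by rw [← hj]⟩

/-- **Fields generated by roots are unramified if the orders are divisible.** -/
theorem kummer_multi [CharZero k] {N : ℕ} (hN : 0 < N) : ∀ (m : ℕ) (M : Type) [Field M]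
    [Algebra k M] [Algebra L M] [IsScalarTower k L M] [FiniteDimensional L M] (z : Fin m → M)
    (a : Fin m → L), IntermediateField.adjoin L (Set.range z) = ⊤ →
    (∀ i, z i ^ N = algebraMap L M (a i)) → (∀ i, a i ≠ 0) → ∀ (Q : Place k M) (P : Place k L)
    (e : ℕ), Over Q P e → (∀ i, (N : ℤ) ∣ P.ord (a i)) → e = 1 := by
  intro m
  induction m with
  | zero =>
    intro M _ _ _ _ _ z a hgen hz ha Q P e h hd
    have h1 : (⊥ : IntermediateField L M) = ⊤ := by
      rw [← hgen, Set.range_eq_empty, IntermediateField.adjoin_empty]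
    obtain ⟨π, hπ0, hπ⟩ := Q.surj
    have h2 : π ∈ (⊥ : IntermediateField L M) := by
      rw [h1]
      exact IntermediateField.mem_top
    obtain ⟨f, rfl⟩ := IntermediateField.mem_bot.1 h2
    rw [h.2] at hπ
    have h3 := Int.isUnit_iff.1 (IsUnit.of_mul_eq_one _ hπ)
    rcases h3 with h3 | h3
    · exact_mod_cast h3
    · have := h.1
      omega
  | succ m ih =>
    intro M _ _ _ _ _ z a hgen hz ha Q P e h hd
    obtain ⟨F, z', hz', hF1, hF2⟩ := kum_tower (0 : Fin (m + 1)) hgen
    have hsc : IsScalarTower k F M := IsScalarTower.of_algebraMap_eq fun c => rfl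
    obtain ⟨PF, e', h'⟩ := exists_below (K := F) Q
    obtain ⟨P₁, e₁, h₁⟩ := exists_below (K := L) PF
    have h2 : Over Q P₁ (e' * e₁) := by
      refine ⟨Nat.mul_pos h'.1 h₁.1, fun f => ?_⟩
      rw [IsScalarTower.algebraMap_apply L F M, h'.2, h₁.2]
      push_cast
      ring
    obtain ⟨h3, h4⟩ := over_unique' h h2
    subst h3
    have h5 : e₁ = 1 := ih F z' (fun i => a ((0 : Fin (m + 1)).succAbove i)) hF1 (fun i => by
      apply Subtype.ext
      change (z' i : M) ^ N = algebraMap L M _
      rw [hz', hz]) (fun i => ha _) PF P e₁ h₁ fun i => hd _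
    subst h5
    rw [h4, mul_one]
    refine kummer_div h' hN (z := z 0) (φ := algebraMap L F (a 0)) ?_ ?_ ?_ ?_
    · rw [Ne, map_eq_zero]
      exact ha 0
    · rw [h₁.2, Nat.cast_one, one_mul]
      exact hd 0
    · rw [hz, ← IsScalarTower.algebraMap_apply]
    · exact gen_of_top (Algebra.IsIntegral.isIntegral _) hF2

/-- **At most one generator gives ramification at most `N`.** -/
theorem kummer_one [CharZero k] [FiniteDimensional L M] {N : ℕ} (hN : 0 < N) {m : ℕ}
    {z : Fin (m + 1) → M}
    {a : Fin (m + 1) → L} (hgen : IntermediateField.adjoin L (Set.range z) = ⊤)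
    (hz : ∀ i, z i ^ N = algebraMap L M (a i)) (ha : ∀ i, a i ≠ 0) {Q : Place k M} {P : Place k L}
    {e : ℕ} (h : Over Q P e) (k0 : Fin (m + 1)) (hd : ∀ i, i ≠ k0 → (N : ℤ) ∣ P.ord (a i)) :
    e ≤ N := by
  obtain ⟨F, z', hz', hF1, hF2⟩ := kum_tower k0 hgen
  have hsc : IsScalarTower k F M := IsScalarTower.of_algebraMap_eq fun c => rfl
  obtain ⟨PF, e', h'⟩ := exists_below (K := F) Q
  obtain ⟨P₁, e₁, h₁⟩ := exists_below (K := L) PF
  have h2 : Over Q P₁ (e' * e₁) := by
    refine ⟨Nat.mul_pos h'.1 h₁.1, fun f => ?_⟩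
    rw [IsScalarTower.algebraMap_apply L F M, h'.2, h₁.2]
    push_cast
    ring
  obtain ⟨h3, h4⟩ := over_unique' h h2
  subst h3
  have h5 : e₁ = 1 := kummer_multi hN m F z' (fun i => a (k0.succAbove i)) hF1 (fun i => by
    apply Subtype.ext
    change (z' i : M) ^ N = algebraMap L M _
    rw [hz', hz]) (fun i => ha _) PF P e₁ h₁ fun i => hd _ (Fin.succAbove_ne k0 i)
  rw [h4, h5, mul_one]
  refine (over_le h').trans ?_
  have hint : IsIntegral F (z k0) := Algebra.IsIntegral.isIntegral _
  have h6 : Module.finrank F M = (minpoly F (z k0)).natDegree := by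
    rw [← IntermediateField.adjoin.finrank hint, hF2, IntermediateField.finrank_top']
  rw [h6]
  have h7 : aeval (z k0) (X ^ N - C (algebraMap L F (a k0))) = 0 := by
    rw [map_sub, map_pow, aeval_X, aeval_C, hz, ← IsScalarTower.algebraMap_apply, sub_self]
  have h8 := natDegree_le_of_dvd (minpoly.dvd F (z k0) h7)
    (monic_X_pow_sub_C _ hN.ne').ne_zero
  rwa [natDegree_X_pow_sub_C] at h8

end

end Pool.Agent.H890
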