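import Pool.Agent.H890.CaSct

/-!
The sections of the cyclic covering in the other charts.
-/

set_option autoImplicit false
set_option linter.unusedSectionVars false
set_option linter.overlappingInstances false

open FF MvPolynomial Pool.Agent.W602.GT Pool.Agent.W603.LV Pool.Agent.W619.PQ Pool.Agent.Y172
  Pool.Agent.TH122.AB Pool.Agent.R887

namespace Pool.Agent.H890

/-- the index of the `p`-th variable in the chart `i` -/
def ix {r : ℕ} (i : Fin (r + 1)) (p : Fin r) : Fin (r + 1) := Equiv.swap 0 i p.succ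

section

variable {K L M : Type} [Field K] [Field L] [Field M] [Algebra ℂ K] [Algebra ℂ L]
  [Algebra ℂ M] [Algebra K L] [Algebra L M] [Algebra K M] [IsScalarTower ℂ K L]
  [IsScalarTower ℂ L M] [IsScalarTower ℂ K M] [IsScalarTower K L M] [FiniteDimensional L M]
  {N : ℕ} {y : Fin (N + 1) → K} {n r : ℕ} {G : Place ℂ K → ℤ}
  {S : Mod K L M y n r G} {b : ℕ} {z : M}

namespace CvT

open CvS

/-- the variables in the chart `i` -/
noncomputable def tt (S : Mod K L M y n r G) (i : Fin (r + 1)) (gg : Fin (r + 1) → K)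
    (p : Fin r) : L :=
  ts S.l (sA i) p * algebraMap K L (gg (ix i p) / gg i)

theorem ix_eq (i : Fin (r + 1)) (p : Fin r) : sA i p.succ.castSucc = (ix i p).castSucc := by
  unfold sA ix
  by_cases h : p.succ = i
  · rw [h, Equiv.swap_apply_right, Equiv.swap_apply_right, Fin.castSucc_zero]
  · rw [Equiv.swap_apply_of_ne_of_ne (Fin.succ_ne_zero p) h, Equiv.swap_apply_of_ne_of_ne]
    · intro h1
      have := congrArg Fin.val h1
      simp at this
    · intro h1
      exact h (Fin.castSucc_injective _ h1)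

theorem ix_ne (i : Fin (r + 1)) (p : Fin r) : ix i p ≠ i := by
  unfold ix
  intro h
  have h1 : p.succ = Equiv.swap 0 i i := by
    rw [← Equiv.swap_apply_self 0 i p.succ]
    exact congrArg _ h
  rw [Equiv.swap_apply_right] at h1
  exact Fin.succ_ne_zero p h1

theorem exists_ix {i i' : Fin (r + 1)} (h : i' ≠ i) : ∃ p, ix i p = i' := by
  have h1 : Equiv.swap 0 i i' ≠ 0 := by
    intro h2
    apply h
    have h3 := congrArg (Equiv.swap 0 i) h2
    rwa [Equiv.swap_apply_self, Equiv.swap_apply_left] at h3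
  obtain ⟨p, hp⟩ := Fin.exists_succ_eq.2 h1
  refine ⟨p, ?_⟩
  unfold ix
  rw [hp, Equiv.swap_apply_self]

theorem tt_gens (S : Mod K L M y n r G) (i : Fin (r + 1)) {gg : Fin (r + 1) → K}
    (hg : ∀ i, gg i ≠ 0) : Gens (k := K) (tt S i gg) := by
  refine gens_change (gens_ts S.sys S.gens (sA i)) fun p => ?_
  have h1 : ts S.l (sA i) p = tt S i gg p * algebraMap K L (gg (ix i p) / gg i)⁻¹ := by
    unfold tt
    rw [mul_assoc, ← map_mul, mul_inv_cancel₀ (div_ne_zero (hg _) (hg _)), map_one, mul_one]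
  rw [h1]
  exact mul_mem (IntermediateField.subset_adjoin K _ ⟨p, rfl⟩)
    (IntermediateField.algebraMap_mem _ _)

theorem tt_val (S : Mod K L M y n r G) (i : Fin (r + 1)) (gg : Fin (r + 1) → K) (p : Fin r) :
    tt S i gg p = S.l (ix i p).castSucc / S.l i.castSucc * algebraMap K L (gg (ix i p) / gg i) := by
  unfold tt ts
  rw [ix_eq, sA_zero]

/-- the quotients of the sections are polynomials -/
theorem quot_mem {i : Fin (r + 1)} {gg : Fin (r + 1) → K} (hg : ∀ i, gg i ≠ 0)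
    {A : Subalgebra ℂ K} (hf : ∀ i, ∀ f ∈ S.F i, f / gg i ∈ A) {c : Fin (S.s + 1)}
    (hu : S.u c = S.l i.castSucc * algebraMap K L (gg i)) (c' : Fin (S.s + 1)) :
    S.u c' / S.u c ∈ RR A (tt S i gg) := by
  obtain ⟨i', f', hf', hu'⟩ := S.u_eq c'
  have h0 := hf i' f' hf'
  have hl0 : S.l i.castSucc ≠ 0 := S.sys.ne _
  have hg0 : algebraMap K L (gg i) ≠ 0 := by
    rw [Ne, map_eq_zero]
    exact hg i
  by_cases hi : i' = i
  · subst hi
    have h1 : S.u c' / S.u c = algebraMap K L (f' / gg i') := by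
      rw [hu', hu, map_div₀, mul_div_mul_left _ _ hl0]
    rw [h1]
    exact RR_base h0
  · obtain ⟨p, hp⟩ := exists_ix hi
    have hgp : algebraMap K L (gg i') ≠ 0 := by
      rw [Ne, map_eq_zero]
      exact hg _
    have h1 : S.u c' / S.u c = tt S i gg p * algebraMap K L (f' / gg i') := by
      rw [tt_val, hu', hu, hp, map_div₀, map_div₀]
      field_simp
    rw [h1]
    exact (RR A (tt S i gg)).mul_mem (RR_var p) (RR_base h0)

theorem chart_le {i : Fin (r + 1)} {gg : Fin (r + 1) → K} (hg : ∀ i, gg i ≠ 0)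
    {A : Subalgebra ℂ K} (hf : ∀ i, ∀ f ∈ S.F i, f / gg i ∈ A) {c : Fin (S.s + 1)}
    (hu : S.u c = S.l i.castSucc * algebraMap K L (gg i)) : chart S.u c ≤ RR A (tt S i gg) := by
  apply Algebra.adjoin_le
  rintro _ ⟨c', rfl⟩
  exact quot_mem hg hf hu c'

theorem cen {i : Fin (r + 1)} {gg : Fin (r + 1) → K} (hg : ∀ i, gg i ≠ 0) {A : Subalgebra ℂ K}
    (hf : ∀ i, ∀ f ∈ S.F i, f / gg i ∈ A) {c : Fin (S.s + 1)}
    (hu : S.u c = S.l i.castSucc * algebraMap K L (gg i)) {P : Place ℂ M}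
    (hP : Gd A (tt S i gg) P) : S.Cen c P := by
  intro c'
  have h1 := hP.ring _ (quot_mem hg hf hu c')
  rw [map_div₀] at h1
  have h2 := (P.reg_iff (div_ne_zero (S.uM_ne c') (S.uM_ne c))).1 h1
  rw [P.ord_div (S.uM_ne c') (S.uM_ne c)] at h2
  linarith

/-- changing the local equations -/
theorem change {i : Fin (r + 1)} {Q : Place ℂ K} {gg gg' : Fin (r + 1) → K} (hG : GG S Q gg)
    (hG' : GG S Q gg') {P : Place ℂ M} (hP : Gd (lsub y Q) (tt S i gg) P) :
    Gd (lsub y Q) (tt S i gg') P := by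
  refine ⟨hP.reg, fun p => ?_⟩
  have h0 : ∀ i, ∀ D, IsPrimeDivisor y D → Through y D Q → D.ord (gg i) = D.ord (gg' i) := by
    intro i D hD hDQ
    obtain ⟨j, hj⟩ := exists_centred S.ny D
    rw [hG.ord i D hD hDQ j hj, hG'.ord i D hD hDQ j hj]
  have h1 : (gg' (ix i p) / gg' i) / (gg (ix i p) / gg i) ∈ lsub y Q := by
    intro D hD hDQ
    right
    rw [D.ord_div (div_ne_zero (hG'.ne _) (hG'.ne _)) (div_ne_zero (hG.ne _) (hG.ne _)),
      D.ord_div (hG'.ne _) (hG'.ne _), D.ord_div (hG.ne _) (hG.ne _), h0 _ D hD hDQ,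
      h0 _ D hD hDQ, sub_self]
  have h2 : algebraMap L M (tt S i gg' p) = algebraMap L M (tt S i gg p) *
      algebraMap K M ((gg' (ix i p) / gg' i) / (gg (ix i p) / gg i)) := by
    rw [IsScalarTower.algebraMap_apply K L M, ← map_mul]
    congr 1
    unfold tt
    rw [mul_assoc, ← map_mul]
    congr 2
    have := hG.ne i
    have := hG.ne (ix i p)
    field_simp
  rw [h2]
  have h3 := (hP.var p).mul (show Ge P 0 _ from hP.reg _ h1)
  rwa [add_zero] at h3

/-- the variables belong to the local ring -/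
theorem tt_mem {i : Fin (r + 1)} {gg : Fin (r + 1) → K} (hg : ∀ i, gg i ∈ S.F i)
    {A : Subalgebra ℂ K} (hf : ∀ i, ∀ f ∈ S.F i, f / gg i ∈ A) {P : Place ℂ M}
    (hP : Gd A (tt S i gg) P) (p : Fin r) : algebraMap L M (tt S i gg p) ∈ localRing S.v P := by
  obtain ⟨c1, hc1⟩ := S.exists_u (ix i p) (hg (ix i p))
  obtain ⟨c2, hc2⟩ := S.exists_u i (hg i)
  have hne : ∀ i, gg i ≠ 0 := fun i => (S.fam i).ne _ (hg i)
  have hc := cen hne hf hc2 hP
  have hg0 : algebraMap K L (gg i) ≠ 0 := by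
    rw [Ne, map_eq_zero]
    exact hne i
  have hl0 : S.l i.castSucc ≠ 0 := S.sys.ne _
  have h1 : tt S i gg p = S.u c1 / S.u c2 := by
    rw [tt_val, hc1, hc2, map_div₀]
    field_simp
  have h2 : tt S i gg p ∈ chart S.u c2 := by
    rw [h1]
    exact gen_mem S.u c2 c1
  refine chart_localRing hc.centred ((S.chart_iff c2 _).2 ?_)
  exact isIntegral_algebraMap (R := chart S.u c2) (A := M) (x := ⟨_, h2⟩)

/-- the place along a variable -/
theorem exists_v (h : Cov S b z) (hr : 0 < r) (i : Fin (r + 1)) {gg : Fin (r + 1) → K}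
    (hg : ∀ i, gg i ≠ 0) :
    ∃ v : Place K L, (∀ F : MvPolynomial (Fin r) K, F ≠ 0 → ¬ (X (⟨0, hr⟩ : Fin r) ∣ F) →
      v.ord (aeval (tt S i gg) F) = 0) ∧
      (v.ord (∏ k, S.l k ^ sg k) = 1 ∨ v.ord (∏ k, S.l k ^ sg k) = -1) := by
  classical
  have hgens := tt_gens S i hg
  obtain ⟨p0, hp0⟩ : ∃ p0 : Fin r, p0 = ⟨0, hr⟩ := ⟨_, rfl⟩
  rw [← hp0]
  obtain ⟨v, hv1, hv2⟩ := exists_adic hgens (X_prime (R := K) (i := p0)).irreducible
  rw [aeval_X] at hv1
  have hgq : ∀ p : Fin r, gg (ix i p) / gg i ≠ 0 := fun p => div_ne_zero (hg _) (hg _)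
  have hgo : ∀ p : Fin r, v.ord (algebraMap K L (gg (ix i p) / gg i)) = 0 := fun p =>
    v.ord_const (hgq p)
  have hgL : ∀ p : Fin r, algebraMap K L (gg (ix i p) / gg i) ≠ 0 := fun p => by
    rw [Ne, map_eq_zero]
    exact hgq p
  have htt : ∀ p, v.ord (tt S i gg p) = v.ord (ts S.l (sA i) p) := fun p => by
    unfold tt
    rw [v.ord_mul (S.sys.ts_ne (sA i) p) (hgL p), hgo, add_zero]
  have ht : ∀ p, v.ord (ts S.l (sA i) p) = if p = p0 then 1 else 0 := by
    intro p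
    rw [← htt]
    by_cases hp : p = p0
    · rw [if_pos hp, hp, hv1]
    · rw [if_neg hp]
      have h1 := (hv2 (X p) (X_ne_zero p)).2.2 (fun h1 => hp (X_dvd_X.1 h1).symm)
      rwa [aeval_X] at h1
  have hlast : v.ord (S.l (Fin.last (r + 1)) / S.l i.castSucc) = 0 := by
    have h1 := S.sys.one_add (sA i)
    rw [sA_last, sA_zero] at h1
    have h2 : S.l (Fin.last (r + 1)) / S.l i.castSucc = - aeval (tt S i gg)
        (1 + ∑ p, C (gg (ix i p) / gg i)⁻¹ * X p : MvPolynomial (Fin r) K) := by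
      rw [map_add, map_one, map_sum]
      have h3 : ∀ p : Fin r, aeval (tt S i gg) (C (gg (ix i p) / gg i)⁻¹ * X p :
          MvPolynomial (Fin r) K) = ts S.l (sA i) p := by
        intro p
        rw [map_mul, aeval_C, aeval_X]
        unfold tt
        rw [mul_comm, mul_assoc, ← map_mul, mul_inv_cancel₀ (hgq p), map_one, mul_one]
      rw [Finset.sum_congr rfl fun p _ => h3 p, h1, neg_neg]
    have h3 : constantCoeff (1 + ∑ p, C (gg (ix i p) / gg i)⁻¹ * X p :
        MvPolynomial (Fin r) K) = 1 := by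
      rw [map_add, map_one, map_sum]
      simp
    have h4 : ¬ (X p0 : MvPolynomial (Fin r) K) ∣ (1 + ∑ p, C (gg (ix i p) / gg i)⁻¹ * X p) := by
      rintro ⟨F, hF⟩
      rw [hF, map_mul, constantCoeff_X, zero_mul] at h3
      exact zero_ne_one h3
    have h5 : (1 + ∑ p, C (gg (ix i p) / gg i)⁻¹ * X p : MvPolynomial (Fin r) K) ≠ 0 := by
      intro h5
      rw [h5, map_zero] at h3
      exact zero_ne_one h3
    rw [h2, v.ord_neg]
    exact (hv2 _ h5).2.2 h4
  have ho : ∀ k, v.ord (S.l k) - v.ord (S.l i.castSucc) =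
      if k = (ix i p0).castSucc then 1 else 0 := by
    intro k
    obtain ⟨k', rfl⟩ := (sA i).surjective k
    by_cases hk0 : k' = 0
    · rw [hk0, sA_zero, sub_self, if_neg]
      intro h3
      exact ix_ne i p0 (Fin.castSucc_injective _ h3).symm
    by_cases hkl : k' = Fin.last (r + 1)
    · rw [v.ord_div (S.sys.ne _) (S.sys.ne _)] at hlast
      rw [hkl, sA_last, hlast, if_neg]
      intro h3
      have h4 := congrArg Fin.val h3
      have h5 := (ix i p0).2
      simp only [Fin.val_last, Fin.val_castSucc] at h4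
      omega
    obtain ⟨p, rfl⟩ := mid_of_ne hk0 hkl
    have h1 := ht p
    unfold ts at h1
    rw [sA_zero, v.ord_div (S.sys.ne _) (S.sys.ne _)] at h1
    rw [h1, ← ix_eq]
    by_cases hp : p = p0
    · rw [if_pos hp, hp, if_pos rfl]
    · rw [if_neg hp, if_neg]
      intro h3
      apply hp
      have h4 := congrArg Fin.val ((sA i).injective h3)
      simp only [Fin.val_castSucc, Fin.val_succ] at h4
      exact Fin.ext (by omega)
  refine ⟨v, fun F hF hd => (hv2 F hF).2.2 hd, ?_⟩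
  have h1 := h.phi_ord (restr v) i.castSucc
  simp only [restr_ord, ho] at h1
  rw [h1]
  simp only [mul_ite, mul_one, mul_zero, Finset.sum_ite_eq', Finset.mem_univ, if_true]
  exact sg_cases _

/-- residues of the integral elements -/
theorem ires (h : Cov S b z) (hr : 0 < r) {i : Fin (r + 1)} {gg : Fin (r + 1) → K}
    (hg : ∀ i, gg i ≠ 0) {A : Subalgebra ℂ K} {S₀ : Set (Place ℂ K)} (hA : CI A S₀)
    (hf : ∀ i, ∀ f ∈ S.F i, f / gg i ∈ A) {c : Fin (S.s + 1)}
    (hu : S.u c = S.l i.castSucc * algebraMap K L (gg i)) {x : M}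
    (hx : x ∈ chart S.v (S.j c)) :
    ∃ κ ∈ A, ∀ P : Place ℂ M, Gd A (tt S i gg) P → Ge P 1 (x - algebraMap K M κ) := by
  obtain ⟨v, hv1, hv2⟩ := exists_v h hr i hg
  obtain ⟨κ, hκ, h1⟩ := kum_res (tt_gens S i hg) hA (Nat.succ_pos _) h.zN (phi_ne S.sys)
    (CvS.top_eq h) (CvS.fin_eq h hr) hv1 hv2
    (int_mono (chart_le hg hf hu) ((S.chart_iff c x).1 hx))
  exact ⟨κ, hκ, fun P hP => h1 P hP.reg hP.var⟩

/-- **Residues of the functions in the local rings.** -/
theorem lres (h : Cov S b z) (hr : 0 < r) {Q : Place ℂ K} {i : Fin (r + 1)}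
    {gg : Fin (r + 1) → K} (hG : GG S Q gg) {c : Fin (S.s + 1)}
    (hu : S.u c = S.l i.castSucc * algebraMap K L (gg i))
    {P : Place ℂ M} (hP : Gd (lsub y Q) (tt S i gg) P) {e : ℕ} (hPQ : Over P Q e)
    {x : M} (hx : x ∈ localRing S.v P) : ∃ κ ∈ lsub y Q, ∀ P' : Place ℂ M,
      Gd (lsub y Q) (tt S i gg) P' →
      (∀ μ ∈ lsub y Q, μ ≠ 0 → Q.ord μ = 0 → P'.ord (algebraMap K M μ) = 0) →
      x ∈ localRing S.v P' ∧ Ge P' 1 (x - algebraMap K M κ) := by
  have hf : ∀ i, ∀ f ∈ S.F i, f / gg i ∈ lsub y Q := fun i f hf => hG.quot i hf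
  have hc := cen hG.ne hf hu hP
  obtain ⟨a, ha, b', hb', hb0, hbo, hab⟩ := (mem_localRing hc.centred).1 hx
  obtain ⟨κ₁, hκ₁, h1⟩ := ires h hr hG.ne (lsub_ci S.ny Q) hf hu ha
  obtain ⟨κ₂, hκ₂, h2⟩ := ires h hr hG.ne (lsub_ci S.ny Q) hf hu hb'
  have h3 := (h2 P hP).neg
  rw [neg_sub] at h3
  obtain ⟨h4, h5⟩ := ge_unit h3 hb0 hbo
  have hκ0 : κ₂ ≠ 0 := by
    rintro rfl
    exact h4 (map_zero _)
  have hκQ : Q.ord κ₂ = 0 := by
    rw [hPQ.2] at h5
    rcases mul_eq_zero.1 h5 with h6 | h6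
    · have := hPQ.1
      omega
    · exact h6
  refine ⟨κ₁ * κ₂⁻¹, (lsub y Q).mul_mem hκ₁ (lsub_inv S.ny hκ₂ hκ0 hκQ), fun P' hP' hunit => ?_⟩
  have h6 := hunit κ₂ hκ₂ hκ0 hκQ
  obtain ⟨h7, h8⟩ := ge_unit (h2 P' hP') h4 h6
  refine ⟨⟨S.j c, (cen hG.ne hf hu hP').centred, a, ha, b', hb', hb0, h8, hab⟩, ?_⟩
  have h9 : x = a / b' := by
    rw [← hab]
    field_simp
  rw [h9, map_mul, map_inv₀, ← div_eq_mul_inv]
  exact ge_div (h1 P' hP') (h2 P' hP') h4 h6 (hP'.reg κ₁ hκ₁)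

/-- local equations exist -/
theorem exists_GG (S : Mod K L M y n r G) {Q : Place ℂ K} (hQ : Divisorial n Q)
    (i : Fin (r + 1)) : ∃ (gg : Fin (r + 1) → K) (c : Fin (S.s + 1)), GG S Q gg ∧
      (∀ i, gg i ∈ S.F i) ∧ S.u c = S.l i.castSucc * algebraMap K L (gg i) := by
  choose gg hgg hggD using fun i => (S.fam i).gen Q hQ
  obtain ⟨c, hc⟩ := S.exists_u i (hgg i)
  refine ⟨gg, c, ⟨fun i => (S.fam i).ne _ (hgg i), fun i D hD hDQ j hj => ?_⟩, hgg, hc⟩
  exact hggD i D hD hDQ j hj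

/-- places over `Q` with centre on the section -/
theorem exists_sec (i : Fin (r + 1)) {gg : Fin (r + 1) → K} (hg : ∀ i, gg i ≠ 0) {Q : Place ℂ K}
    (hQ : Divisorial n Q) (hn : 0 < n) {A : Subalgebra ℂ K} (hAQ : ∀ a ∈ A, Q.Reg a) :
    ∃ (P : Place ℂ M) (e : ℕ), Divisorial (n + r) P ∧ Over P Q e ∧ Gd A (tt S i gg) P := by
  have hessK := S.essK
  have hgens := tt_gens S i hg
  obtain ⟨π, hπ0, hπ⟩ := Q.surj
  obtain ⟨t', ht'⟩ : ∃ t' : Fin r → L, t' = fun p => tt S i gg p * algebraMap K L π⁻¹ := ⟨_, rfl⟩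
  have htt : ∀ p, tt S i gg p = t' p * algebraMap K L π := fun p => by
    rw [ht']
    change tt S i gg p = tt S i gg p * _ * _
    rw [mul_assoc, ← map_mul, inv_mul_cancel₀ hπ0, map_one, mul_one]
  have hgens' : Gens (k := K) t' := gens_change hgens fun p => by
    rw [htt]
    exact mul_mem (IntermediateField.subset_adjoin K _ ⟨p, rfl⟩)
      (IntermediateField.algebraMap_mem _ _)
  obtain ⟨P₀, hP₀⟩ := exists_gauss hgens' Q 0
  have hgs : IsGauss t' Q P₀ := hP₀
  have hreg : ∀ a ∈ A, P₀.Reg (algebraMap K L a) := fun a ha => by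
    rcases hAQ a ha with h1 | h1
    · left
      rw [h1, map_zero]
    · right
      rwa [hgs.base]
  have hvar : ∀ p, P₀.ord (tt S i gg p) = 1 := fun p => by
    rw [htt, P₀.ord_mul (by
      rintro h0
      have h1 := hgens.ne (X_ne_zero p)
      rw [aeval_X, htt, h0, zero_mul] at h1
      exact h1 rfl) (by rwa [Ne, map_eq_zero]), hgs.var, hgs.base, hπ, zero_add]
  obtain ⟨P, e, hP⟩ := exists_above (L := M) P₀
  have he : (1 : ℤ) ≤ e := by exact_mod_cast hP.1
  refine ⟨P, e, divisorial_up hP (hgs.divisorial hgens' hn hQ), ⟨hP.1, fun f => ?_⟩,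
    fun a ha => ?_, fun p => ?_⟩
  · rw [IsScalarTower.algebraMap_apply K L M, hP.2, hgs.base]
  · rw [IsScalarTower.algebraMap_apply K L M]
    exact hP.reg.2 (hreg a ha)
  · right
    rw [hP.2, hvar, mul_one]
    exact he

end CvT

end

end Pool.Agent.H890
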