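import Pool.Agent.H890.Klt

/-!
The lower bound of the log discrepancies of the covering.
-/

set_option autoImplicit false
set_option linter.unusedSectionVars false
set_option linter.overlappingInstances false

open FF MvPolynomial Pool.Agent.W602.GT Pool.Agent.W603.LV Pool.Agent.Y172
  Pool.Agent.TH122.AB Pool.Agent.R887

namespace Pool.Agent.H890

section

variable {K L M : Type} [Field K] [Field L] [Field M] [Algebra ℂ K] [Algebra ℂ L]
  [Algebra ℂ M] [Algebra K L] [Algebra L M] [Algebra K M] [IsScalarTower ℂ K L]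
  [IsScalarTower ℂ L M] [IsScalarTower ℂ K M] [IsScalarTower K L M] [FiniteDimensional L M]
  {N : ℕ} {y : Fin (N + 1) → K} {n r : ℕ} {G : Place ℂ K → ℤ}
  {S : Mod K L M y n r G} {b : ℕ} {z : M}

theorem Cov.z_ord (h : Cov S b z) (P : Place ℂ M) (m : ℤ) :
    ((r + 2 : ℕ) : ℤ) * P.ord z = ∑ k, sg k * (P.ord (S.lM k) - m) := by
  have h1 : z ^ (r + 2) = ∏ k, S.lM k ^ sg k := by
    rw [h.zN, map_prod]
    refine Finset.prod_congr rfl fun k _ => ?_
    rw [map_zpow₀]
    rfl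
  rw [← P.ord_pow, h1, ord_prod' P _ _ fun k _ => zpow_ne_zero _ (S.sysM.ne k)]
  have h2 : ∀ k, P.ord (S.lM k ^ sg k) = sg k * (P.ord (S.lM k) - m) + sg k * m := by
    intro k
    rw [P.ord_zpow]
    ring
  rw [Finset.sum_congr rfl fun k _ => h2 k, Finset.sum_add_distrib, ← Finset.sum_mul,
    sum_sg h.hb, zero_mul, add_zero]

theorem Cov.two_le (h : Cov S b z) {P : Place ℂ M} {m : ℤ} (hm : ∀ k, m ≤ P.ord (S.lM k))
    (hne : ∃ k, P.ord (S.lM k) ≠ m) : 2 ≤ ∑ k, (P.ord (S.lM k) - m) := by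
  classical
  obtain ⟨k₀, hk₀⟩ := hne
  have h0 : ∀ k, 0 ≤ P.ord (S.lM k) - m := fun k => by
    have := hm k
    omega
  have h1 : 1 ≤ P.ord (S.lM k₀) - m := by
    have := hm k₀
    omega
  by_contra hcon
  push Not at hcon
  have h2 : ∑ k, (P.ord (S.lM k) - m) = (P.ord (S.lM k₀) - m) +
      ∑ k ∈ Finset.univ.erase k₀, (P.ord (S.lM k) - m) :=
    (Finset.add_sum_erase _ _ (Finset.mem_univ k₀)).symm
  have h3 : 0 ≤ ∑ k ∈ Finset.univ.erase k₀, (P.ord (S.lM k) - m) :=
    Finset.sum_nonneg fun k _ => h0 k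
  have h4 : P.ord (S.lM k₀) - m = 1 := by omega
  have h5 : ∑ k ∈ Finset.univ.erase k₀, (P.ord (S.lM k) - m) = 0 := by omega
  have h6 : ∀ k, k ≠ k₀ → P.ord (S.lM k) - m = 0 := fun k hk =>
    (Finset.sum_eq_zero_iff_of_nonneg fun k _ => h0 k).1 h5 k
      (Finset.mem_erase.2 ⟨hk, Finset.mem_univ _⟩)
  have h7 := h.z_ord P m
  rw [Finset.sum_eq_single k₀ (fun k _ hk => by rw [h6 k hk, mul_zero])
    (fun hk => absurd (Finset.mem_univ _) hk), h4, mul_one] at h7
  have h8 : ((r + 2 : ℕ) : ℤ) ∣ 1 := by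
    rcases sg_cases k₀ with h9 | h9
    · exact ⟨P.ord z, by rw [h7, h9]⟩
    · exact ⟨- P.ord z, by rw [mul_neg, h7, h9]; norm_num⟩
  have h9 := Int.le_of_dvd one_pos h8
  push_cast at h9
  omega

/-- **The order along a place over a place of the base.** -/
theorem Cov.ge_over_two (h : Cov S b z) {P : Place ℂ M} (hP : Divisorial (n + r) P)
    {Q : Place ℂ K} {e : ℕ} (hPQ : Over P Q e) (hne : ∃ k k', P.ord (S.lM k) ≠ P.ord (S.lM k'))
    {q : ℕ} {η : (Fin n → Derivation ℂ K K) → K}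
    (hη : IsPluri (2 * (b * q)) η) {a : ℤ} (ha : OrdGe Q η a) {x : Fin n → K}
    {E : Fin n → Derivation ℂ K K} (hx : IsTranscendenceBasis ℂ x)
    (hE : ∀ i j, E i (x j) = if i = j then 1 else 0) :
    OrdGe P (th S.lM b q (fun i => algebraMap K M (x i)) (algebraMap K M (η E)))
      ((e * (2 * (b * q) + a) + 2 * q : ℤ) - (2 * (b * q) : ℕ)) := by
  classical
  have hessK := S.essK
  have hessM := S.essM
  have hQd : Divisorial n Q := div_base (L := M) (by rw [S.trdeg_KM]) hPQ hP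
  obtain ⟨w, F, i0, hw⟩ := exists_loc h.trK hQd
  rw [th_change hx hw.bas hE hw.dual hη]
  refine ordGe_of_log h.trM hP (th_pluri S.sysM b q _ _) fun D hD => ?_
  obtain ⟨i, -, hi⟩ := Finset.exists_min_image Finset.univ
    (fun i : Fin (r + 1) => P.ord (S.lM i.castSucc)) ⟨0, Finset.mem_univ _⟩
  obtain ⟨s, hs, hs1, hs2⟩ := exists_good S.sysM P fun i' => hi i' (Finset.mem_univ _)
  have htord : ∀ p, P.ord (ts S.lM s p) = P.ord (S.lM (s p.succ.castSucc)) -
      P.ord (S.lM (s 0)) := fun p => by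
    unfold ts
    rw [P.ord_div (S.sysM.ne _) (S.sysM.ne _)]
  have hT2 := h.two_le (P := P) (m := P.ord (S.lM (s 0))) hs1 (by
    obtain ⟨k, k', hk⟩ := hne
    by_cases h1 : P.ord (S.lM k) = P.ord (S.lM (s 0))
    · exact ⟨k', fun h2 => hk (by rw [h1, h2])⟩
    · exact ⟨k, h1⟩)
  have hT : 2 ≤ ∑ p, P.ord (ts S.lM s p) := by
    have h1 := sum_sub s (fun k => P.ord (S.lM k))
    rw [hs2, sub_self, add_zero] at h1
    have h2 : ∑ p : Fin r, (P.ord (S.lM (s p.succ.castSucc)) - P.ord (S.lM (s 0))) =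
        ∑ p, P.ord (ts S.lM s p) := Finset.sum_congr rfl fun p _ => (htord p).symm
    rw [h2] at h1
    rw [Finset.sum_sub_distrib, h1] at hT2
    simp only [Finset.sum_const, Finset.card_univ, Fintype.card_fin, nsmul_eq_mul] at hT2
    push_cast at hT2
    linarith
  have hdt := dt_ge (P := P) (x := fun i => algebraMap K M (w i)) (t := ts S.lM s) (D := D)
    (a := fun i => if i = i0 then (e : ℤ) else 0) (c := fun p => P.ord (ts S.lM s p))
    (fun u i => by
      split_ifs with hi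
      · rw [hi]
        refine DerLog.ge (hD u) (Or.inr ?_)
        rw [hPQ.2, hw.unif, mul_one]
      · exact DerLog.ge (hD u) (hPQ.reg.2 (hw.reg i)))
    (fun u p => DerLog.ge (hD u) (ge_ord P _))
  rw [Finset.sum_ite_eq' Finset.univ i0, if_pos (Finset.mem_univ _)] at hdt
  have hηge : Ge P (e * a) (algebraMap K M (η F)) := by
    rcases (hw.rg.ordGe_iff hη).1 ha with h1 | h1
    · left
      rw [h1, map_zero]
    · right
      rw [hPQ.2]
      have h2 : a ≤ Q.ord (η F) := by exact_mod_cast h1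
      have h3 : (0 : ℤ) ≤ e := Int.natCast_nonneg _
      nlinarith
  refine (th_ge S.sysM hs hs2 h.hb hηge hdt (q := q)).mono ?_
  obtain ⟨T, hT'⟩ : ∃ T, T = ∑ p, P.ord (ts S.lM s p) := ⟨_, rfl⟩
  rw [← hT'] at hT ⊢
  have hb' : (r : ℤ) + 2 = 2 * b := by exact_mod_cast h.hb
  have hr : (r : ℤ) = 2 * b - 2 := by linarith
  rw [hr]
  have h4 : (0 : ℤ) ≤ q * (T - 2) := mul_nonneg (Int.natCast_nonneg _) (by linarith)
  linarith

end

end Pool.Agent.H890
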