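import Pool.Agent.H890.CaSct

/-!
The places over the places of `K` which compute the minimal log discrepancies.
-/

set_option autoImplicit false
set_option linter.unusedSectionVars false
set_option linter.overlappingInstances false

open FF MvPolynomial Pool.Agent.W602.GT Pool.Agent.W603.LV Pool.Agent.W619.PQ Pool.Agent.Y172
  Pool.Agent.TH122.AB Pool.Agent.R887

namespace Pool.Agent.H890

section

variable {K L : Type} [Field K] [Field L] [Algebra ℂ K] [Algebra ℂ L] [Algebra K L]
  [IsScalarTower ℂ K L] {r n : ℕ} {l : Fin (r + 2) → L}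

/-- the order of the form along a Gauss place: variant of `ver_ord` (Ord2.lean) with arbitrary orders
of the linear forms. PROOF: copy the proof of `ver_ord`; the value of the form on the regular frame is
`l i ^ ((r+1)(2bq)) (∏ g⁻¹) ^ (2bq) η(G) / (∏ l) ^ ((r+1)q)`; with `o k = P.ord (l k)`,
`o last = o i`, `T = ∑ (o k - o i)` its order is `(r+1)2bq o_i + 2bq T + D.ord (η G) -
(r+1) q (T + (r+2) o_i) = D.ord (η G) + q T`, because `r + 2 = 2 b` (`sum_sub (sA i)`). -/
theorem gauss_ord (hl : Sys l) [Algebra.EssFiniteType ℂ K] (hn : Algebra.trdeg ℂ K = n)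
    {D : Place ℂ K} (hD : Divisorial n D) {i : Fin (r + 1)} {g : Fin r → K} (hg0 : ∀ p, g p ≠ 0)
    (hτ : Gens (k := K) (fun p => ts l (sA i) p * algebraMap K L (g p))) {P : Place ℂ L}
    (hP : IsGauss (fun p => ts l (sA i) p * algebraMap K L (g p)) D P)
    (ho : P.ord (l (Fin.last (r + 1))) = P.ord (l i.castSucc))
    {b q : ℕ} (hb : r + 2 = 2 * b) {η : (Fin n → Derivation ℂ K K) → K}
    (hη : IsPluri (2 * (b * q)) η) {c : ℚ} (hc : OrdEq D η c) {x : Fin n → K}
    {E : Fin n → Derivation ℂ K K} (hx : IsTranscendenceBasis ℂ x)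
    (hE : ∀ i j, E i (x j) = if i = j then 1 else 0) :
    OrdEq P (th l b q (fun i => algebraMap K L (x i)) (algebraMap K L (η E)))
      (c + (q * ∑ k, (P.ord (l k) - P.ord (l i.castSucc)) : ℤ)) := by
  classical
  obtain ⟨z, G, i0, hz⟩ := exists_loc hn hD
  rw [th_change hx hz.bas hE hz.dual hη]
  obtain ⟨τ, hτd⟩ : ∃ τ : Fin r → L, τ = fun p => ts l (sA i) p * algebraMap K L (g p) :=
    ⟨_, rfl⟩
  rw [← hτd] at hτ hP
  have hA1 : ∀ a ∈ osub D, D.Reg a := fun a ha => ha
  have hA2 : ∀ a, D.Reg a → a ∈ osub D := fun a ha => ha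
  obtain ⟨F, hF, hFc⟩ := exists_rg hτ (A := osub D) hz.bas hz.dual (fun i => hz.reg i)
    (fun i a ha => hz.pres i a ha) (hP.reg hA1) (fun x hx => hP.rep hτ hA2 hx)
  -- the determinant
  have hgL : ∀ p, algebraMap K L (g p) ≠ 0 := fun p => by
    rw [Ne, map_eq_zero]
    exact hg0 p
  have hts : ∀ p, ts l (sA i) p = τ p * algebraMap K L (g p)⁻¹ := by
    intro p
    rw [hτd, map_inv₀]
    change _ = ts l (sA i) p * algebraMap K L (g p) * (algebraMap K L (g p))⁻¹
    rw [mul_assoc, mul_inv_cancel₀ (hgL p), mul_one]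
  have hdet : dt (fun i => algebraMap K L (z i)) (ts l (sA i)) F =
      ∏ p, algebraMap K L (g p)⁻¹ := by
    unfold dt
    rw [det_blk _ (fun p j => by
      rw [Matrix.of_apply, Fin.append_left]
      exact (hFc ⟨i0, i0.2⟩ (z j)).2 p)]
    have e1 : (Matrix.of fun a c => (Matrix.of fun u v => F u
        ((Fin.append (fun i => algebraMap K L (z i)) (ts l (sA i)) : Fin (n + r) → L) v) :
          Matrix (Fin (n + r)) (Fin (n + r)) L) (Fin.castAdd r a) (Fin.castAdd r c)) =
        (1 : Matrix (Fin n) (Fin n) L) := by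
      ext a c
      rw [Matrix.of_apply, Matrix.of_apply, Fin.append_left, (hFc a (z c)).1, hz.dual,
        apply_ite (algebraMap K L), map_one, map_zero, Matrix.one_apply]
    have e2 : (Matrix.of fun a c => (Matrix.of fun u v => F u
        ((Fin.append (fun i => algebraMap K L (z i)) (ts l (sA i)) : Fin (n + r) → L) v) :
          Matrix (Fin (n + r)) (Fin (n + r)) L) (Fin.natAdd n a) (Fin.natAdd n c)) =
        Matrix.diagonal fun p => algebraMap K L (g p)⁻¹ := by
      ext p p'
      rw [Matrix.of_apply, Matrix.of_apply, Fin.append_right, hts, (F _).leibniz,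
        (hFc ⟨i0, i0.2⟩ (g p')⁻¹).2 p, smul_zero, zero_add]
      have h1 := hF.dual (Fin.natAdd n p) (Fin.natAdd n p')
      rw [Fin.append_right] at h1
      rw [h1, smul_eq_mul, Matrix.diagonal_apply]
      by_cases hpp : p = p'
      · rw [if_pos (by rw [hpp]), if_pos hpp, mul_one, hpp]
      · rw [if_neg, if_neg hpp, mul_zero]
        intro h
        exact hpp (Fin.natAdd_injective r n h)
    rw [e1, e2, Matrix.det_one, one_mul, Matrix.det_diagonal]
  obtain ⟨hη0, hηc⟩ := (hz.rg.ordEq_iff hη).1 hc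
  have hηL : algebraMap K L (η G) ≠ 0 := by
    rw [Ne, map_eq_zero]
    exact hη0
  have hval : th l b q (fun i => algebraMap K L (z i)) (algebraMap K L (η G)) F =
      l i.castSucc ^ ((r + 1) * (2 * (b * q))) * (∏ p, algebraMap K L (g p)⁻¹) ^ (2 * (b * q)) *
        algebraMap K L (η G) / (∏ k, l k) ^ ((r + 1) * q) := by
    unfold th
    rw [← dsq_sA hl _ i]
    unfold dsq
    rw [hdet, sA_zero, ← pow_mul, mul_pow, ← pow_mul]
  have hd0 : (∏ p, algebraMap K L (g p)⁻¹) ^ (2 * (b * q)) ≠ 0 := by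
    refine pow_ne_zero _ (Finset.prod_ne_zero_iff.2 fun p _ => ?_)
    rw [Ne, map_eq_zero]
    exact inv_ne_zero (hg0 p)
  obtain ⟨hv0, hvo⟩ := ord_val hl P i.castSucc b q hηL hd0
  rw [← hval] at hv0 hvo
  rw [hF.ordEq_iff (th_pluri hl b q _ _)]
  refine ⟨hv0, ?_⟩
  -- the orders of the functions `g`
  have hgo : ∀ p, D.ord (g p) = - (P.ord (l (sA i p.succ.castSucc)) - P.ord (l i.castSucc)) := by
    intro p
    have h1 := hP.var p
    rw [hτd] at h1
    change P.ord (ts l (sA i) p * algebraMap K L (g p)) = 0 at h1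
    rw [P.ord_mul (hl.ts_ne _ _) (hgL p), hP.base] at h1
    unfold ts at h1
    rw [P.ord_div (hl.ne _) (hl.ne _), sA_zero] at h1
    omega
  have hdo : P.ord ((∏ p, algebraMap K L (g p)⁻¹) ^ (2 * (b * q))) = (2 * (b * q) : ℕ) *
      ∑ p : Fin r, (P.ord (l (sA i p.succ.castSucc)) - P.ord (l i.castSucc)) := by
    rw [P.ord_pow, ord_prod' P _ _ fun p _ => by
      rw [Ne, map_eq_zero]
      exact inv_ne_zero (hg0 p)]
    congr 1
    refine Finset.sum_congr rfl fun p _ => ?_
    rw [hP.base, D.ord_inv, hgo, neg_neg]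
  have hs1 := sum_sub (sA i) (fun k => P.ord (l k))
  rw [sA_zero, sA_last] at hs1
  -- the sum
  have hs2 : ∑ k, (P.ord (l k) - P.ord (l i.castSucc)) =
      (∑ k, P.ord (l k)) - (r + 2) * P.ord (l i.castSucc) := by
    rw [Finset.sum_sub_distrib]
    simp
  rw [ho] at hs1
  rw [hdo, hP.base] at hvo
  have hint : P.ord (th l b q (fun i => algebraMap K L (z i)) (algebraMap K L (η G)) F) =
      D.ord (η G) + q * ∑ k, (P.ord (l k) - P.ord (l i.castSucc)) := by
    rw [hvo, hs2]
    obtain ⟨S, hS⟩ : ∃ S, S = ∑ k, P.ord (l k) := ⟨_, rfl⟩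
    obtain ⟨T, hT⟩ : ∃ T, T = ∑ p : Fin r, (P.ord (l (sA i p.succ.castSucc)) -
        P.ord (l i.castSucc)) := ⟨_, rfl⟩
    rw [← hS, ← hT] at hs1
    rw [← hS, ← hT]
    obtain ⟨o, ho'⟩ : ∃ o, o = P.ord (l i.castSucc) := ⟨_, rfl⟩
    rw [← ho'] at hs1
    rw [← ho']
    have hb' : (r : ℤ) + 2 = 2 * b := by exact_mod_cast hb
    push_cast at hs1 ⊢
    have hT' : T = S - (r + 2) * o := by linarith
    rw [hT']
    have hr : (r : ℤ) = 2 * b - 2 := by linarith
    rw [hr]
    ring
  rw [hint]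
  push_cast
  rw [hηc]

end

section

variable {K L M : Type} [Field K] [Field L] [Field M] [Algebra ℂ K] [Algebra ℂ L]
  [Algebra ℂ M] [Algebra K L] [Algebra L M] [Algebra K M] [IsScalarTower ℂ K L]
  [IsScalarTower ℂ L M] [IsScalarTower ℂ K M] [IsScalarTower K L M] [FiniteDimensional L M]
  {N : ℕ} {y : Fin (N + 1) → K} {n r : ℕ} {G : Place ℂ K → ℤ}
  {S : Mod K L M y n r G} {b : ℕ} {z : M}

/-- the forms with weight `1`: one of each sign. PROOF: `S.wt01`, `h.ws : ∑ wt = 2`,
`h.wsg : ∑ sg * wt = 0`; so `∑ (1 + sg k) / 2 * wt k = 1`, `∑ (1 - sg k) / 2 * wt k = 1`, hence there is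
exactly one `k` with `wt k = 1`, `sg k = 1` and exactly one with `wt k = 1`, `sg k = -1`; both are
`castSucc` by `S.wtl`. -/
theorem Cov.exists_tw (h : Cov S b z) : ∃ i j : Fin (r + 1), S.wt i.castSucc = 1 ∧
    S.wt j.castSucc = 1 ∧ sg i.castSucc = 1 ∧ sg j.castSucc = -1 ∧
    ∀ k : Fin (r + 2), k ≠ i.castSucc → k ≠ j.castSucc → S.wt k = 0 := by
  classical
  let A : Finset (Fin (r + 2)) := Finset.univ.filter fun k => S.wt k = 1 ∧ sg k = 1
  let B : Finset (Fin (r + 2)) := Finset.univ.filter fun k => S.wt k = 1 ∧ sg k = -1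
  have hA : ∀ k, k ∈ A ↔ S.wt k = 1 ∧ sg k = 1 := fun k => by
    rw [Finset.mem_filter]
    exact ⟨fun h => h.2, fun h => ⟨Finset.mem_univ _, h⟩⟩
  have hB : ∀ k, k ∈ B ↔ S.wt k = 1 ∧ sg k = -1 := fun k => by
    rw [Finset.mem_filter]
    exact ⟨fun h => h.2, fun h => ⟨Finset.mem_univ _, h⟩⟩
  have h1 : ∑ k, S.wt k = (A.card : ℤ) + B.card := by
    have e1 : ∀ k, S.wt k = (if S.wt k = 1 ∧ sg k = 1 then 1 else 0) +
        (if S.wt k = 1 ∧ sg k = -1 then 1 else 0) := by
      intro k
      rcases S.wt01 k with h2 | h2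
      · rw [h2]
        simp
      · rcases sg_cases k with h3 | h3
        · rw [h2, h3]
          simp
        · rw [h2, h3]
          simp
    rw [Finset.sum_congr rfl fun k _ => e1 k, Finset.sum_add_distrib, Finset.sum_boole,
      Finset.sum_boole]
  have h2 : ∑ k, sg k * S.wt k = (A.card : ℤ) - B.card := by
    have e1 : ∀ k, sg k * S.wt k = (if S.wt k = 1 ∧ sg k = 1 then 1 else 0) -
        (if S.wt k = 1 ∧ sg k = -1 then 1 else 0) := by
      intro k
      rcases S.wt01 k with h2 | h2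
      · rw [h2]
        simp
      · rcases sg_cases k with h3 | h3
        · rw [h2, h3]
          simp
        · rw [h2, h3]
          simp
    rw [Finset.sum_congr rfl fun k _ => e1 k, Finset.sum_sub_distrib, Finset.sum_boole,
      Finset.sum_boole]
  rw [h.ws] at h1
  rw [h.wsg] at h2
  have hcA : A.card = 1 := by omega
  have hcB : B.card = 1 := by omega
  obtain ⟨i', hi'⟩ := Finset.card_eq_one.1 hcA
  obtain ⟨j', hj'⟩ := Finset.card_eq_one.1 hcB
  have hiA : i' ∈ A := by
    rw [hi']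
    exact Finset.mem_singleton_self _
  have hjB : j' ∈ B := by
    rw [hj']
    exact Finset.mem_singleton_self _
  rw [hA] at hiA
  rw [hB] at hjB
  have hlast : ∀ k, S.wt k = 1 → ∃ k' : Fin (r + 1), k = k'.castSucc := by
    intro k
    refine Fin.lastCases (fun hk => ?_) (fun k' _ => ⟨k', rfl⟩) k
    rw [S.wtl] at hk
    exact absurd hk zero_ne_one
  obtain ⟨i, rfl⟩ := hlast i' hiA.1
  obtain ⟨j, rfl⟩ := hlast j' hjB.1
  refine ⟨i, j, hiA.1, hjB.1, hiA.2, hjB.2, fun k hki hkj => ?_⟩
  rcases S.wt01 k with h3 | h3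
  · exact h3
  · exfalso
    rcases sg_cases k with h4 | h4
    · have h5 : k ∈ A := (hA k).2 ⟨h3, h4⟩
      rw [hi', Finset.mem_singleton] at h5
      exact hki h5
    · have h5 : k ∈ B := (hB k).2 ⟨h3, h4⟩
      rw [hj', Finset.mem_singleton] at h5
      exact hkj h5

/-- TASK MLD-3. **The place over `Q` of minimal log discrepancy.** (`i`, `j` as in `exists_tw`.)

PROOF. `0 ≠ i, j` because `S.wt0`. Let `Q.ord π = 1` (`Q.surj`), `g p = π⁻¹` if
`sA i p.succ.castSucc` is `0` or `j.castSucc` and `g p = 1` otherwise,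
`τ p = ts S.l (sA i) p * algebraMap K L (g p)`; `Gens τ` by `gens_change (gens_ts S.sys S.gens (sA i))`;
let `P₁` be the Gauss place over `Q` for `τ` (`exists_gauss`, `IsGauss.base`, `IsGauss.var`,
`IsGauss.divisorial`). So `P₁.ord (l k) - P₁.ord (l i) = 1` for `k = 0, j` and `0` for the other `k`
except perhaps the last one. For the last one: `S.sys.one_add (sA i)` says that
`1 + ∑ p, ts l (sA i) p` is minus `l (last) / l i`; it is `aeval τ F` with
`F = 1 + ∑ p, C (g p)⁻¹ * X p`, whose coefficients are regular at `Q` with constant coefficient `1`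
(`IsGauss.le_iff` and `mval_le`/`exists_mval`): order `0`. So `T = ∑ (o k - o i) = 2`, and the order of
`∏ l ^ sg` is `sg 0 + sg j = 0` (`h.phi_ord P₁ i.castSucc`). Let `P` be a place over `P₁`
(`exists_above`); its ramification index is `1` by `kummer_unr`. `divisorial_up`, and the order of the
form by `gauss_ord` and `up_th` (as in `Cov.ver`, Cov.lean). -/
theorem Cov.exists_mldPlace (h : Cov S b z) (hr : 2 ≤ r) (hn : 0 < n) {i j : Fin (r + 1)}
    (hi : S.wt i.castSucc = 1) (hj : S.wt j.castSucc = 1) (hsi : sg i.castSucc = 1)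
    (hsj : sg j.castSucc = -1) {Q : Place ℂ K} (hQ : Divisorial n Q) :
    ∃ P : Place ℂ M, Divisorial (n + r) P ∧ Over P Q 1 ∧
      (∀ k : Fin (r + 1), P.ord (S.lM k.castSucc) - P.ord (S.lM i.castSucc) =
        if k = 0 ∨ k = j then 1 else 0) ∧
      ∀ (q : ℕ) (η : (Fin n → Derivation ℂ K K) → K), IsPluri (2 * (b * q)) η → ∀ c : ℤ,
        OrdEq Q η c → ∀ (x : Fin n → K) (E : Fin n → Derivation ℂ K K), IsTranscendenceBasis ℂ x →
        (∀ i j, E i (x j) = if i = j then 1 else 0) →
        OrdEq P (th S.lM b q (fun i => algebraMap K M (x i)) (algebraMap K M (η E)))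
          (c + 2 * q : ℤ) := by
  classical
  have hessK := S.essK
  have hessL := S.essL
  have hessM := S.essM
  have hl0 : ∀ k, S.l k ≠ 0 := S.sys.ne
  have hi0 : i ≠ 0 := by
    rintro rfl
    have h1 := S.wt0
    rw [Fin.castSucc_zero] at hi
    rw [hi] at h1
    exact one_ne_zero h1
  have hj0 : j ≠ 0 := by
    rintro rfl
    have h1 := S.wt0
    rw [Fin.castSucc_zero] at hj
    rw [hj] at h1
    exact one_ne_zero h1
  have hij : i ≠ j := by
    rintro rfl
    rw [hsi] at hsj
    norm_num at hsj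
  obtain ⟨π, hπ0, hπ⟩ := Q.surj
  obtain ⟨g, hg⟩ : ∃ g : Fin r → K, g = fun p => if sA i p.succ.castSucc = 0 ∨
      sA i p.succ.castSucc = j.castSucc then π⁻¹ else 1 := ⟨_, rfl⟩
  have hg0 : ∀ p, g p ≠ 0 := by
    intro p
    rw [hg]
    change (if _ then π⁻¹ else (1 : K)) ≠ 0
    split_ifs
    · exact inv_ne_zero hπ0
    · exact one_ne_zero
  have hgo : ∀ p, Q.ord (g p) = if sA i p.succ.castSucc = 0 ∨
      sA i p.succ.castSucc = j.castSucc then -1 else 0 := by
    intro p
    rw [hg]
    change Q.ord (if _ then π⁻¹ else (1 : K)) = _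
    split_ifs
    · rw [Q.ord_inv, hπ]
    · rw [Q.ord_one]
  have hgL : ∀ p, algebraMap K L (g p) ≠ 0 := fun p => by
    rw [Ne, map_eq_zero]
    exact hg0 p
  obtain ⟨τ, hτ⟩ : ∃ τ : Fin r → L, τ = fun p => ts S.l (sA i) p * algebraMap K L (g p) :=
    ⟨_, rfl⟩
  have hτg : Gens (k := K) τ := by
    refine gens_change (gens_ts S.sys S.gens (sA i)) fun p => ?_
    have h1 : ts S.l (sA i) p = τ p * algebraMap K L (g p)⁻¹ := by
      rw [hτ]
      change _ = ts S.l (sA i) p * algebraMap K L (g p) * algebraMap K L (g p)⁻¹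
      rw [mul_assoc, ← map_mul, mul_inv_cancel₀ (hg0 p), map_one, mul_one]
    rw [h1]
    exact mul_mem (IntermediateField.subset_adjoin K _ ⟨p, rfl⟩)
      (IntermediateField.algebraMap_mem _ _)
  obtain ⟨P₁, hP₁⟩ := exists_gauss hτg Q 0
  have hgau : IsGauss τ Q P₁ := hP₁
  have hP₁d : Divisorial (n + r) P₁ := hgau.divisorial hτg hn hQ
  -- the orders of the forms
  have hsurj : ∀ k' : Fin (r + 1), k' ≠ i → ∃ p : Fin r, sA i p.succ.castSucc = k'.castSucc := by
    intro k' hk'
    obtain ⟨m, hm⟩ := (sA i).surjective k'.castSucc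
    have h0 : m ≠ 0 := by
      rintro rfl
      rw [sA_zero] at hm
      exact hk' (Fin.castSucc_injective _ hm).symm
    have h1 : m ≠ Fin.last (r + 1) := by
      rintro rfl
      rw [sA_last] at hm
      have h2 := congrArg Fin.val hm
      simp only [Fin.val_last, Fin.val_castSucc] at h2
      have := k'.2
      omega
    obtain ⟨p, rfl⟩ := mid_of_ne h0 h1
    exact ⟨p, hm⟩
  have ho : ∀ k' : Fin (r + 1), P₁.ord (S.l k'.castSucc) - P₁.ord (S.l i.castSucc) =
      if k' = 0 ∨ k' = j then 1 else 0 := by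
    intro k'
    by_cases hk' : k' = i
    · rw [hk', sub_self, if_neg]
      rintro (h1 | h1)
      · exact hi0 h1
      · exact hij h1
    · obtain ⟨p, hp⟩ := hsurj k' hk'
      have h1 := hgau.var p
      have h2 : τ p = S.l k'.castSucc / S.l i.castSucc * algebraMap K L (g p) := by
        rw [hτ]
        change ts S.l (sA i) p * _ = _
        unfold ts
        rw [hp, sA_zero]
      rw [h2, P₁.ord_mul (div_ne_zero (hl0 _) (hl0 _)) (hgL p), P₁.ord_div (hl0 _) (hl0 _),
        hgau.base, hgo, hp] at h1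
      have h3 : (k'.castSucc = 0 ∨ k'.castSucc = j.castSucc) ↔ (k' = 0 ∨ k' = j) := by
        rw [Fin.castSucc_inj]
        refine or_congr ⟨fun h4 => Fin.ext ?_, fun h4 => ?_⟩ Iff.rfl
        · have h5 := congrArg Fin.val h4
          simpa using h5
        · rw [h4]
          rfl
      by_cases h4 : k' = 0 ∨ k' = j
      · rw [if_pos (h3.2 h4)] at h1
        rw [if_pos h4]
        linarith
      · rw [if_neg (fun h5 => h4 (h3.1 h5))] at h1
        rw [if_neg h4]
        linarith
  have holast : P₁.ord (S.l (Fin.last (r + 1))) = P₁.ord (S.l i.castSucc) := by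
    apply le_antisymm
    · obtain ⟨F, hFd⟩ : ∃ F : MvPolynomial (Fin r) K, F = 1 + ∑ p, C (g p)⁻¹ * X p := ⟨_, rfl⟩
      have hFe : aeval τ F = - (S.l (Fin.last (r + 1)) / S.l i.castSucc) := by
        have h1 := S.sys.one_add (sA i)
        rw [sA_last, sA_zero] at h1
        rw [← h1, hFd, map_add, map_one, map_sum]
        congr 1
        refine Finset.sum_congr rfl fun p _ => ?_
        rw [map_mul, aeval_C, aeval_X, hτ]
        change algebraMap K L (g p)⁻¹ * (ts S.l (sA i) p * algebraMap K L (g p)) = _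
        rw [mul_comm, mul_assoc, ← map_mul, mul_inv_cancel₀ (hg0 p), map_one, mul_one]
      have hF0 : F ≠ 0 := by
        intro h1
        rw [h1, map_zero] at hFe
        exact div_ne_zero (hl0 (Fin.last (r + 1))) (hl0 i.castSucc) (neg_eq_zero.1 hFe.symm)
      have hordF : P₁.ord (aeval τ F) = P₁.ord (S.l (Fin.last (r + 1))) -
          P₁.ord (S.l i.castSucc) := by
        rw [hFe, P₁.ord_neg, P₁.ord_div (hl0 _) (hl0 _)]
      have hle := (hgau.le_iff hF0 (m := P₁.ord (aeval τ F))).1 le_rfl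
      have hc : F.coeff 0 = 1 := by
        rw [hFd, coeff_add, coeff_sum, coeff_zero_one]
        simp
      have h1 := hle 0 (by
        rw [mem_support_iff, hc]
        exact one_ne_zero)
      rw [hc, Q.ord_one, hordF] at h1
      linarith
    · have h2 : S.l (Fin.last (r + 1)) = - ∑ i' : Fin (r + 1), S.l i'.castSucc := by
        have := S.sys.sum
        rw [Fin.sum_univ_castSucc, add_comm] at this
        exact eq_neg_of_add_eq_zero_left this
      have h3 : Ge P₁ (P₁.ord (S.l i.castSucc)) (S.l (Fin.last (r + 1))) := by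
        rw [h2]
        refine Ge.neg (Ge.sum _ _ fun i' _ => Or.inr ?_)
        have h4 := ho i'
        have h5 : (0 : ℤ) ≤ if i' = 0 ∨ i' = j then 1 else 0 := by
          split_ifs
          · exact zero_le_one
          · exact le_rfl
        linarith
      exact h3.resolve_left (hl0 _)
  have hcard : ∀ f : Fin (r + 2) → ℤ, ∑ k, f k * (P₁.ord (S.l k) - P₁.ord (S.l i.castSucc)) =
      f 0 + f j.castSucc := by
    intro f
    rw [Fin.sum_univ_castSucc, holast, sub_self, mul_zero, add_zero]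
    have h1 : ∀ k' : Fin (r + 1), f k'.castSucc * (P₁.ord (S.l k'.castSucc) -
        P₁.ord (S.l i.castSucc)) = (if k' = 0 then f k'.castSucc else 0) +
          if k' = j then f k'.castSucc else 0 := by
      intro k'
      rw [ho]
      by_cases h2 : k' = 0
      · have h3 : k' ≠ j := fun h3 => hj0 (by rw [← h3, h2])
        rw [if_pos (Or.inl h2), if_pos h2, if_neg h3, mul_one, add_zero]
      · by_cases h3 : k' = j
        · rw [if_pos (Or.inr h3), if_neg h2, if_pos h3, mul_one, zero_add]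
        · rw [if_neg (not_or.2 ⟨h2, h3⟩), if_neg h2, if_neg h3, mul_zero, add_zero]
    rw [Finset.sum_congr rfl fun k _ => h1 k, Finset.sum_add_distrib,
      Finset.sum_ite_eq' Finset.univ (0 : Fin (r + 1)), if_pos (Finset.mem_univ _),
      Finset.sum_ite_eq' Finset.univ j, if_pos (Finset.mem_univ _)]
    rfl
  have hφ0 := phi_ne (S := S) S.sys
  have hφ : P₁.ord (∏ k, S.l k ^ sg k) = 0 := by
    rw [h.phi_ord P₁ i.castSucc, hcard sg, hsj]
    have h1 : sg (0 : Fin (r + 2)) = 1 := by
      unfold sg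
      rw [Fin.val_zero, Nat.zero_mod, if_pos rfl]
    rw [h1]
    norm_num
  have hT : ∑ k, (P₁.ord (S.l k) - P₁.ord (S.l i.castSucc)) = 2 := by
    have h1 := hcard fun _ => 1
    simp only [one_mul] at h1
    rw [h1]
    norm_num
  -- the place of the covering
  obtain ⟨P, e, hov⟩ := exists_above (L := M) P₁
  have he : e = 1 := kummer_unr hov (Nat.succ_pos _) hφ0 hφ h.zN h.gen
  subst he
  refine ⟨P, divisorial_up hov hP₁d, ⟨one_pos, fun f => ?_⟩, fun k => ?_,
    fun q η hη c hc x E' hx hE => ?_⟩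
  · rw [IsScalarTower.algebraMap_apply K L M, hov.2, hgau.base, Nat.cast_one]
  · rw [← ho k]
    unfold Mod.lM
    rw [hov.2, hov.2, Nat.cast_one, one_mul, one_mul]
  · rw [hτ] at hτg hgau
    have h1 := gauss_ord S.sys h.trK hQ hg0 hτg hgau holast h.hb hη hc hx hE
    rw [hT] at h1
    have h2 : OrdEq P₁ (th S.l b q (fun i => algebraMap K L (x i)) (algebraMap K L (η E')))
        ((c + 2 * q : ℤ) : ℚ) := by
      have e1 : ((c + 2 * q : ℤ) : ℚ) = (c : ℚ) + ((q * 2 : ℤ) : ℚ) := by
        push_cast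
        ring
      rw [e1]
      exact h1
    have h3 := up_th rfl h.trL S.sys hov hP₁d
      (append_basis hx (Gens_basis (gens_ts S.sys S.gens (sA 0)))) h2
    simp only [← IsScalarTower.algebraMap_apply] at h3
    have h4 : ((1 : ℕ) * (c + 2 * q + (2 * (b * q) : ℕ)) - (2 * (b * q) : ℕ) : ℤ) =
        c + 2 * q := by
      push_cast
      ring
    rw [h4] at h3
    exact h3

end

end Pool.Agent.H890
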