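import Pool.Agent.H890.CaSct
import Pool.Agent.H890.Klt
import Pool.Agent.H890.KDefsM

/-!
Elementary properties of log discrepancies.
-/

set_option autoImplicit false
set_option linter.unusedSectionVars false
set_option linter.overlappingInstances false

open FF MvPolynomial Pool.Agent.W602.GT Pool.Agent.W603.LV Pool.Agent.W619.PQ Pool.Agent.Y172
  Pool.Agent.TH122.AB Pool.Agent.R887

namespace Pool.Agent.H890

section

variable {K : Type} [Field K] [Algebra ℂ K] {N : ℕ} {y : Fin (N + 1) → K} {n : ℕ}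

/-- PROOF. `f ∈ localRing y Q` is `a / b` with `a, b` in a chart `chart y j` centred at `Q`,
`Q.ord b = 0`. The elements of this chart belong to `localRing y Q` (`chart_localRing`), so they are
regular at `P`, so `Centred y j P`; `P.ord b = 0` by `unit_through`. -/
theorem localRing_le {P Q : Place ℂ K} (h : Through y P Q) : localRing y Q ⊆ localRing y P := by
  rintro f ⟨j, hj, a, ha, b, hb, hb0, hbo, hab⟩
  refine ⟨j, ⟨hj.1, fun i => ?_⟩, a, ha, b, hb, hb0, ?_, hab⟩
  · exact h _ (chart_localRing hj (Algebra.subset_adjoin ⟨i, rfl⟩))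
  · exact unit_through h (chart_localRing hj hb) hb0 hbo

theorem through_of_le {P Q : Place ℂ K} (h : localRing y Q ⊆ localRing y P) : Through y P Q :=
  fun _ hf => localRing_reg (h hf)

theorem through_tr {P Q R : Place ℂ K} (h : Through y P Q) (h' : Through y R P) :
    Through y R Q := fun f hf => h' f (localRing_le h hf)

/-- the order of the quotient of two forms of the same weight -/
theorem ord_quot {P : Place ℂ K} {m : ℕ} {ω ω' : (Fin n → Derivation ℂ K K) → K}
    (hω : IsPluri m ω) (hω' : IsPluri m ω') {x : Fin n → K} {E : Fin n → Derivation ℂ K K}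
    (hx : IsTranscendenceBasis ℂ x) (hE : ∀ i j, E i (x j) = if i = j then 1 else 0) {c c' : ℚ}
    (h : OrdEq P ω c) (h' : OrdEq P ω' c') : (P.ord (ω E / ω' E) : ℚ) = c - c' := by
  have h0 : ω E ≠ 0 := val_ne hω hx hE h
  have h0' : ω' E ≠ 0 := val_ne hω' hx hE h'
  have key : ∀ D : Fin n → Derivation ℂ K K, ω D = (ω E / ω' E) * ω' D := by
    intro D
    rw [pluri_coord hx hE hω D, pluri_coord hx hE hω' D]
    field_simp
  have hf0 : ω E / ω' E ≠ 0 := div_ne_zero h0 h0'
  have hord : ∀ D : Fin n → Derivation ℂ K K, ω' D ≠ 0 →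
      P.ord (ω D) = P.ord (ω E / ω' E) + P.ord (ω' D) := by
    intro D hD
    rw [key D, P.ord_mul hf0 hD]
  obtain ⟨D, hD, hD0, hDc⟩ := h.2
  obtain ⟨D', hD', hD0', hDc'⟩ := h'.2
  have hDn : ω' D ≠ 0 := by
    intro h1
    apply hD0
    rw [key D, h1, mul_zero]
  have hDn' : ω D' ≠ 0 := by
    rw [key D']
    exact mul_ne_zero hf0 hD0'
  have e1 := (h'.1 D hD).resolve_left hDn
  have e2 := (h.1 D' hD').resolve_left hDn'
  have e3 : ((P.ord (ω D) : ℤ) : ℚ) = (P.ord (ω E / ω' E) : ℚ) + (P.ord (ω' D) : ℚ) := by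
    rw [hord D hDn]
    push_cast
    ring
  have e4 : ((P.ord (ω D') : ℤ) : ℚ) = (P.ord (ω E / ω' E) : ℚ) + (P.ord (ω' D') : ℚ) := by
    rw [hord D' hD0']
    push_cast
    ring
  apply le_antisymm
  · linarith
  · linarith

/-- PROOF. Let `η` (an `r`-canonical form) and `η'` (an `r'`-canonical form) be the forms in `h`, `h'`.
Let `x`, `E` be coordinates with dual frame (`exists_crd hn`), `f = η E ^ r' / η' E ^ r` (nonzero by
`val_ne`, `exists_through hy Q`), so `η D ^ r' = f * η' D ^ r` for all `D` (`pluri_coord`). For prime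
divisors `P` through `Q` both forms `η ^ r'`, `η' ^ r` have order `- r r' Δ P` (`ordEq_pow`), so
`P.ord f = 0`; hence `f, f⁻¹ ∈ localRing y Q` (`mem_localRing_of_reg hy`), so `Q.ord f = 0`, so both
forms have the same order along `Q`: `r' r (a - 1) = r r' (a' - 1)`. (For the order of the product of
a form and a function use `exists_loc` and `ordEq_iff` for the form, or `OrdEq` directly.) -/
theorem LogDisc.unique [Algebra.EssFiniteType ℂ K] (hy : NormalModel y)
    (hn : Algebra.trdeg ℂ K = n) {Δ : Place ℂ K → ℚ} {Q : Place ℂ K} (hQ : Divisorial n Q)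
    {a a' : ℚ} (h : LogDisc y n Δ Q a) (h' : LogDisc y n Δ Q a') : a = a' := by
  obtain ⟨r, hr, η, hη, hg, hc⟩ := h
  obtain ⟨r', hr', η', hη', hg', hc'⟩ := h'
  obtain ⟨x, E, hx, hE⟩ := exists_crd hn
  have p1 : IsPluri (r * r') (fun D => η D ^ r') := pluri_pow hη r'
  have p2 : IsPluri (r * r') (fun D => η' D ^ r) := by
    have := pluri_pow hη' r
    rwa [mul_comm r' r] at this
  have q1 : ∀ P, IsPrimeDivisor y P → Through y P Q → P.ord (η E ^ r' / η' E ^ r) = 0 := by
    intro P hP hPQ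
    have h1 := ord_quot p1 p2 hx hE (ordEq_pow (hg P hP hPQ) r') (ordEq_pow (hg' P hP hPQ) r)
    have h2 : (r' : ℚ) * (-(r * Δ P)) - r * (-(r' * Δ P)) = 0 := by ring
    rw [h2] at h1
    exact_mod_cast h1
  have m1 : η E ^ r' / η' E ^ r ∈ localRing y Q :=
    mem_localRing_of_reg hy fun P hP hPQ => Or.inr (q1 P hP hPQ).ge
  have m2 : (η E ^ r' / η' E ^ r)⁻¹ ∈ localRing y Q :=
    mem_localRing_of_reg hy fun P hP hPQ => Or.inr (by rw [P.ord_inv, q1 P hP hPQ, neg_zero])
  have o1 := reg_ord_nonneg (localRing_reg m1)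
  have o2 := reg_ord_nonneg (localRing_reg m2)
  rw [Q.ord_inv] at o2
  have o3 : Q.ord (η E ^ r' / η' E ^ r) = 0 := by omega
  have h1 := ord_quot p1 p2 hx hE (ordEq_pow hc r') (ordEq_pow hc' r)
  have h3 : (r' : ℚ) * (r * (a - 1)) - r * (r' * (a' - 1)) = 0 := by
    rw [← h1]
    exact_mod_cast o3
  have h4 : (r : ℚ) * r' * (a - a') = 0 := by linear_combination h3
  have h5 : (r : ℚ) * r' ≠ 0 := by positivity
  have h6 := (mul_eq_zero.1 h4).resolve_left h5
  linarith

/-- multiplication of a form by a function -/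
theorem ordEq_mul {P : Place ℂ K} {ω : (Fin n → Derivation ℂ K K) → K} {c : ℚ}
    (h : OrdEq P ω c) {g : K} (hg : g ≠ 0) : OrdEq P (fun D => ω D * g) (c + P.ord g) := by
  refine ⟨fun D hD => ?_, ?_⟩
  · rcases h.1 D hD with h0 | h1
    · left
      change ω D * g = 0
      rw [h0, zero_mul]
    · by_cases h0 : ω D = 0
      · left
        change ω D * g = 0
        rw [h0, zero_mul]
      · right
        change c + P.ord g ≤ P.ord (ω D * g)
        rw [P.ord_mul h0 hg]
        push_cast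
        linarith
  · obtain ⟨D, hD, h0, h1⟩ := h.2
    refine ⟨D, hD, mul_ne_zero h0 hg, ?_⟩
    change ((P.ord (ω D * g) : ℤ) : ℚ) = c + P.ord g
    rw [P.ord_mul h0 hg]
    push_cast
    rw [h1]

/-- PROOF. `r' = r b`, `η' D = η D ^ b * g ^ r`. -/
theorem LogDisc.shift {Δ Δ' : Place ℂ K → ℚ} {Q : Place ℂ K} {g : K} (hg : g ≠ 0) {b : ℕ}
    (hb : 0 < b) (hgΔ : ∀ P, IsPrimeDivisor y P → Through y P Q →
      (P.ord g : ℚ) = b * (Δ P - Δ' P)) {a : ℚ} (h : LogDisc y n Δ Q a) :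
    LogDisc y n Δ' Q (a + Q.ord g / b) := by
  obtain ⟨r, hr, η, hη, hG, hc⟩ := h
  have hb0 : (b : ℚ) ≠ 0 := by exact_mod_cast hb.ne'
  have hgr : g ^ r ≠ 0 := pow_ne_zero _ hg
  refine ⟨r * b, Nat.mul_pos hr hb, fun D => η D ^ b * g ^ r, ?_, ?_, ?_⟩
  · intro A D
    have h1 := pluri_pow hη b A D
    change η (fun i => ∑ j, A i j • D j) ^ b * g ^ r = A.det ^ (r * b) * (η D ^ b * g ^ r)
    rw [← mul_assoc, ← h1]
  · intro P hP hPQ
    have h1 := ordEq_mul (ordEq_pow (hG P hP hPQ) b) hgr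
    have h2 : (b : ℚ) * (-(r * Δ P)) + (P.ord (g ^ r) : ℚ) = -(((r * b : ℕ) : ℚ) * Δ' P) := by
      rw [P.ord_pow]
      push_cast
      rw [hgΔ P hP hPQ]
      ring
    rw [h2] at h1
    exact h1
  · have h1 := ordEq_mul (ordEq_pow hc b) hgr
    have h2 : (b : ℚ) * (r * (a - 1)) + (Q.ord (g ^ r) : ℚ) =
        ((r * b : ℕ) : ℚ) * (a + Q.ord g / b - 1) := by
      rw [Q.ord_pow]
      push_cast
      field_simp
      ring
    rw [h2] at h1
    exact h1

/-- the form which generates a multiple of `K_X + Δ`, with exponent divisible by `2 b`. PROOF. The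
power `2 b` of the form in `h` (`pluri_pow`, `ordEq_pow`); see the beginning of the proof of `Cov.lc`
in Klt.lean. -/
theorem LogDisc.form {Δ : Place ℂ K → ℚ} {Q : Place ℂ K} {a : ℚ} (h : LogDisc y n Δ Q a)
    {b : ℕ} (hb : 0 < b) {G : Place ℂ K → ℤ}
    (hG : ∀ P, IsPrimeDivisor y P → (G P : ℚ) = b * Δ P) :
    ∃ (q : ℕ) (η : (Fin n → Derivation ℂ K K) → K) (c : ℤ), 0 < q ∧ IsPluri (2 * (b * q)) η ∧
      (∀ D, IsPrimeDivisor y D → Through y D Q → OrdEq D η (-(2 * q * G D) : ℤ)) ∧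
      OrdEq Q η c ∧ (c : ℚ) = 2 * (b * q) * (a - 1) := by
  obtain ⟨q, hq, η₀, hη₀, hgen₀, hc₀⟩ := h
  obtain ⟨η, hηd⟩ : ∃ η : (Fin n → Derivation ℂ K K) → K, η = fun D => η₀ D ^ (2 * b) :=
    ⟨_, rfl⟩
  have hη : IsPluri (2 * (b * q)) η := by
    have h1 := pluri_pow hη₀ (2 * b)
    rw [show q * (2 * b) = 2 * (b * q) by ring] at h1
    rw [hηd]
    exact h1
  have hgen : ∀ D, IsPrimeDivisor y D → Through y D Q → OrdEq D η (-(2 * q * G D) : ℤ) := by
    intro D hD hDQ
    have h1 := ordEq_pow (hgen₀ D hD hDQ) (2 * b)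
    rw [← hηd] at h1
    have h2 : ((2 * b : ℕ) : ℚ) * (-(q * Δ D)) = (-(2 * q * G D) : ℤ) := by
      push_cast
      rw [hG D hD]
      ring
    rw [h2] at h1
    exact h1
  have h1 := ordEq_pow hc₀ (2 * b)
  rw [← hηd] at h1
  obtain ⟨D, hD, h0, hDc⟩ := h1.2
  refine ⟨q, η, Q.ord (η D), hq, hη, hgen, ?_, ?_⟩
  · rw [hDc]
    exact h1
  · rw [hDc]
    push_cast
    ring

end

end Pool.Agent.H890
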