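import Pool.Agent.H890.Mld1
import Pool.Agent.H890.Mld2
import Pool.Agent.H890.Mld3
import Pool.Agent.H890.Mld4

/-!
Minimal log discrepancies of the cyclic covering at the points of the section.
-/

set_option autoImplicit false
set_option linter.unusedSectionVars false
set_option linter.overlappingInstances false

open FF MvPolynomial Pool.Agent.W602.GT Pool.Agent.W603.LV Pool.Agent.W619.PQ Pool.Agent.Y172
  Pool.Agent.TH122.AB Pool.Agent.R887

namespace Pool.Agent.H890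

section loc

variable {K : Type} [Field K] [Algebra ℂ K] {N : ℕ} {y : Fin (N + 1) → K} {n : ℕ}

/-- units in equal local rings -/
theorem unit_of_eq {P Q : Place ℂ K} (h : localRing y P = localRing y Q) {f : K}
    (hf : f ∈ localRing y Q) (hf0 : f ≠ 0) : P.ord f = 0 ↔ Q.ord f = 0 := by
  constructor
  · intro h0
    exact unit_through (through_of_le (h ▸ subset_rfl)) (h ▸ hf) hf0 h0
  · intro h0
    exact unit_through (through_of_le (h ▸ subset_rfl)) hf hf0 h0

theorem lsub_le {P Q : Place ℂ K} (hy : NormalModel y) (h : Through y P Q) :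
    lsub y Q ≤ lsub y P :=
  fun _ hf => (lsub_iff hy).2 (localRing_le h ((lsub_iff hy).1 hf))

/-- local equations are regular -/
theorem cart_mem (hy : NormalModel y) {Δ : Place ℂ K → ℚ} {b : ℕ} (hΔ : Effective y Δ)
    {Q : Place ℂ K} {g : K} (hg : ∀ P, IsPrimeDivisor y P → Through y P Q →
      (P.ord g : ℚ) = b * Δ P) : g ∈ localRing y Q := by
  refine mem_localRing_of_reg hy fun P hP hT => Or.inr ?_
  have h1 := hg P hP hT
  have h2 : (0 : ℚ) ≤ b * Δ P := mul_nonneg (Nat.cast_nonneg _) (hΔ.1 P hP)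
  rw [← h1] at h2
  exact_mod_cast h2

/-- there are functions in the maximal ideal of the local ring at the centre of a place -/
theorem exists_nonunit (hy : NormalModel y) (Q : Place ℂ K) :
    ∃ f ∈ localRing y Q, f ≠ 0 ∧ 0 < Q.ord f := by
  obtain ⟨j, hj⟩ := exists_centred hy Q
  obtain ⟨π, hπ0, hπ⟩ := Q.surj
  have := hy.frac hj.1
  obtain ⟨a, b, hb, hab⟩ := IsFractionRing.div_surjective (chart y j) π
  have hb0 : (b : K) ≠ 0 := fun h => nonZeroDivisors.ne_zero hb (Subtype.ext h)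
  have hab' : (a : K) / b = π := hab
  have ha0 : (a : K) ≠ 0 := by
    intro h0
    rw [h0, zero_div] at hab'
    exact hπ0 hab'.symm
  refine ⟨a, chart_localRing hj a.2, ha0, ?_⟩
  have h1 := reg_ord_nonneg (localRing_reg (chart_localRing hj b.2))
  rw [← hab', Q.ord_div ha0 hb0] at hπ
  omega

end loc

section

variable {K L M : Type} [Field K] [Field L] [Field M] [Algebra ℂ K] [Algebra ℂ L]
  [Algebra ℂ M] [Algebra K L] [Algebra L M] [Algebra K M] [IsScalarTower ℂ K L]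
  [IsScalarTower ℂ L M] [IsScalarTower ℂ K M] [IsScalarTower K L M] [FiniteDimensional L M]
  {N : ℕ} {y : Fin (N + 1) → K} {n r : ℕ} {G : Place ℂ K → ℤ}
  {S : Mod K L M y n r G} {b : ℕ} {z : M}

open CvS

/-- the centre of the place `P` is the point of the section of the chart `i` over the centre of
`Q` -/
structure AtT (S : Mod K L M y n r G) (i : Fin (r + 1)) (Q : Place ℂ K) (P : Place ℂ M) :
    Prop where
  div : Divisorial (n + r) P
  ovr : ∃ e, Over P Q e
  good : ∀ gg, GG S Q gg → Gd (lsub y Q) (CvT.tt S i gg) P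

theorem _root_.Pool.Agent.H890.CvS.GG.of_through {Q Q' : Place ℂ K} (hT : Through y Q' Q) {gg : Fin (r + 1) → K}
    (hG : GG S Q gg) : GG S Q' gg :=
  ⟨hG.ne, fun i D hD hDQ j hj => hG.ord i D hD (through_tr hT hDQ) j hj⟩

/-- the local rings at the points of the section -/
theorem AtT.through (h : Cov S b z) (hr : 0 < r) {i : Fin (r + 1)} {Q Q' : Place ℂ K}
    (hQ : Divisorial n Q) {P P' : Place ℂ M} (hP : AtT S i Q P) (hP' : AtT S i Q' P')
    (hT : Through y Q' Q) : Through S.v P' P := by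
  have hy := S.ny
  obtain ⟨gg, c, hG, hgF, hu⟩ := CvT.exists_GG S hQ i
  obtain ⟨e, he⟩ := hP.ovr
  obtain ⟨e', he'⟩ := hP'.ovr
  have hG' : GG S Q' gg := hG.of_through hT
  have hgd' : Gd (lsub y Q) (CvT.tt S i gg) P' := (hP'.good gg hG').mono (lsub_le hy hT)
  intro x hx
  obtain ⟨κ, hκ, h1⟩ := CvT.lres h hr hG hu (hP.good gg hG) he hx
  refine localRing_reg (h1 P' hgd' fun μ hμ hμ0 hμQ => ?_).1
  rw [he'.2, unit_through hT ((lsub_iff hy).1 hμ) hμ0 hμQ, mul_zero]

/-- residues at the points of the section -/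
theorem AtT.res (h : Cov S b z) (hr : 0 < r) {i : Fin (r + 1)} {Q : Place ℂ K}
    (hQ : Divisorial n Q) {P : Place ℂ M} (hP : AtT S i Q P) {x : M}
    (hx : x ∈ localRing S.v P) : ∃ κ ∈ localRing y Q, Ge P 1 (x - algebraMap K M κ) := by
  have hy := S.ny
  obtain ⟨gg, c, hG, hgF, hu⟩ := CvT.exists_GG S hQ i
  obtain ⟨e, he⟩ := hP.ovr
  obtain ⟨κ, hκ, h1⟩ := CvT.lres h hr hG hu (hP.good gg hG) he hx
  refine ⟨κ, (lsub_iff hy).1 hκ, (h1 P (hP.good gg hG) fun μ hμ hμ0 hμQ => ?_).2⟩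
  rw [he.2, hμQ, mul_zero]

theorem AtT.closed (h : Cov S b z) (hr : 0 < r) {i : Fin (r + 1)} {Q : Place ℂ K}
    (hQ : Divisorial n Q) {P : Place ℂ M} (hP : AtT S i Q P) (hc : ClosedPoint y Q) :
    ClosedPoint S.v P := by
  intro x hx
  obtain ⟨e, he⟩ := hP.ovr
  have he0 : (0 : ℤ) < e := by exact_mod_cast he.1
  obtain ⟨κ, hκ, h1⟩ := hP.res h hr hQ hx
  obtain ⟨c, hc⟩ := hc κ hκ
  refine ⟨c, ?_⟩
  have h2 : Ge P 1 (algebraMap K M κ - algebraMap ℂ M c) := by
    rw [IsScalarTower.algebraMap_apply ℂ K M, ← map_sub]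
    rcases hc with hc | hc
    · left
      rw [hc, sub_self, map_zero]
    · right
      rw [he.2]
      nlinarith
  have h3 := h1.add h2
  rw [sub_add_sub_cancel] at h3
  rcases h3 with h3 | h3
  · left
    exact sub_eq_zero.1 h3
  · right
    omega

/-- residues of polynomials -/
theorem aeval_res {P : Place ℂ M} {d : ℕ} {f : Fin d → M} {κ : Fin d → K}
    (hf : ∀ i, Ge P 1 (f i - algebraMap K M (κ i))) (hκ : ∀ i, Ge P 0 (algebraMap K M (κ i)))
    (F : MvPolynomial (Fin d) ℂ) :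
    Ge P 1 (aeval f F - algebraMap K M (aeval κ F)) ∧ Ge P 0 (algebraMap K M (aeval κ F)) := by
  induction F using MvPolynomial.induction_on with
  | C a =>
    rw [algHom_C, algHom_C, ← IsScalarTower.algebraMap_apply, sub_self]
    exact ⟨Or.inl rfl, P.reg_const a⟩
  | add F F' h h' =>
    rw [map_add, map_add, map_add]
    refine ⟨?_, h.2.add h'.2⟩
    have := h.1.add h'.1
    rwa [add_sub_add_comm]
  | mul_X F i h =>
    rw [map_mul, map_mul, map_mul, aeval_X, aeval_X]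
    refine ⟨ge_mul h.1 (hf i) h.2 (hκ i), ?_⟩
    have := h.2.mul (hκ i)
    rwa [add_zero] at this

theorem AtT.dim (h : Cov S b z) (hr : 0 < r) {i : Fin (r + 1)} {Q : Place ℂ K}
    (hQ : Divisorial n Q) {P : Place ℂ M} (hP : AtT S i Q P) {d : ℕ} (hd : CentreDim y Q d) :
    CentreDim S.v P d := by
  obtain ⟨e, he⟩ := hP.ovr
  have he0 : (0 : ℤ) < e := by exact_mod_cast he.1
  refine ⟨?_, fun f hf => ?_⟩
  · obtain ⟨f, hf, hf'⟩ := hd.1
    refine ⟨fun i => algebraMap K M (f i), fun i => S.local_le he (hf i), fun F hF => ?_⟩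
    have h1 : aeval (fun i => algebraMap K M (f i)) F = algebraMap K M (aeval f F) := by
      rw [← aeval_algebraMap_apply]
      rfl
    rw [h1]
    obtain ⟨h2, h3⟩ := hf' F hF
    refine ⟨by rwa [Ne, map_eq_zero], ?_⟩
    rw [he.2, h3, mul_zero]
  · choose κ hκ hκ' using fun i => hP.res h hr hQ (hf.1 i)
    refine hd.2 κ ⟨hκ, fun F hF => ?_⟩
    obtain ⟨h1, h2⟩ := aeval_res hκ' (fun i => he.reg.2 (localRing_reg (hκ i))) F
    obtain ⟨h3, h4⟩ := hf.2 F hF
    have h5 := h1.neg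
    rw [neg_sub] at h5
    obtain ⟨h6, h7⟩ := ge_unit h5 h3 h4
    rw [Ne, map_eq_zero] at h6
    refine ⟨h6, ?_⟩
    rw [he.2] at h7
    rcases mul_eq_zero.1 h7 with h8 | h8
    · omega
    · exact h8

/-- the quotients of the local equations -/
theorem _root_.Pool.Agent.H890.CvS.GG.quo {Q : Place ℂ K} {gg : Fin (r + 1) → K} (hG : GG S Q gg) {Δ : Place ℂ K → ℚ}
    (hGΔ : ∀ P, IsPrimeDivisor y P → (G P : ℚ) = b * Δ P) {g : K} (hg0 : g ≠ 0)
    (hg : ∀ P, IsPrimeDivisor y P → Through y P Q → (P.ord g : ℚ) = b * Δ P)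
    (i k : Fin (r + 1)) :
    Q.ord (gg k / gg i) = (S.wt i.castSucc - S.wt k.castSucc) * Q.ord g := by
  have hy := S.ny
  have h0 : gg k / gg i ≠ 0 := div_ne_zero (hG.ne _) (hG.ne _)
  have h1 : (gg k / gg i) * g ^ (-(S.wt i.castSucc - S.wt k.castSucc)) ≠ 0 :=
    mul_ne_zero h0 (zpow_ne_zero _ hg0)
  have h2 : ∀ D, IsPrimeDivisor y D → Through y D Q →
      D.ord ((gg k / gg i) * g ^ (-(S.wt i.castSucc - S.wt k.castSucc))) = 0 := by
    intro D hD hDQ
    obtain ⟨j, hj⟩ := exists_centred hy D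
    have h3 : D.ord g = G D := by
      have h4 := hg D hD hDQ
      rw [← hGΔ D hD] at h4
      exact_mod_cast h4
    rw [D.ord_mul h0 (zpow_ne_zero _ hg0), D.ord_div (hG.ne _) (hG.ne _), D.ord_zpow,
      hG.ord k D hD hDQ j hj, hG.ord i D hD hDQ j hj, h3]
    ring
  have h3 : (gg k / gg i) * g ^ (-(S.wt i.castSucc - S.wt k.castSucc)) ∈ localRing y Q :=
    mem_localRing_of_reg hy fun D hD hDQ => Or.inr (h2 D hD hDQ).ge
  have h4 : ((gg k / gg i) * g ^ (-(S.wt i.castSucc - S.wt k.castSucc)))⁻¹ ∈ localRing y Q :=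
    mem_localRing_of_reg hy fun D hD hDQ => Or.inr (by rw [D.ord_inv, h2 D hD hDQ]; norm_num)
  have h5 := reg_ord_nonneg (localRing_reg h3)
  have h6 := reg_ord_nonneg (localRing_reg h4)
  rw [Q.ord_inv] at h6
  rw [Q.ord_mul h0 (zpow_ne_zero _ hg0), Q.ord_zpow] at h5 h6
  linarith

/-- the orders of the variables -/
theorem tt_ord {P : Place ℂ M} {Q : Place ℂ K} {e : ℕ} (he : Over P Q e) {i : Fin (r + 1)}
    {gg : Fin (r + 1) → K} (hg : ∀ i, gg i ≠ 0) (p : Fin r) :
    algebraMap L M (CvT.tt S i gg p) ≠ 0 ∧ P.ord (algebraMap L M (CvT.tt S i gg p)) =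
      P.ord (S.lM (ix i p).castSucc) - P.ord (S.lM i.castSucc) +
        e * Q.ord (gg (ix i p) / gg i) := by
  have h1 : algebraMap L M (CvT.tt S i gg p) =
      S.lM (ix i p).castSucc / S.lM i.castSucc * algebraMap K M (gg (ix i p) / gg i) := by
    unfold CvT.tt ts
    rw [map_mul, ← IsScalarTower.algebraMap_apply, CvT.ix_eq, sA_zero, map_div₀]
    rfl
  have h2 : algebraMap K M (gg (ix i p) / gg i) ≠ 0 := by
    rw [Ne, map_eq_zero]
    exact div_ne_zero (hg _) (hg _)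
  have h3 : S.lM (ix i p).castSucc / S.lM i.castSucc ≠ 0 :=
    div_ne_zero (S.sysM.ne _) (S.sysM.ne _)
  rw [h1]
  refine ⟨mul_ne_zero h3 h2, ?_⟩
  rw [P.ord_mul h3 h2, P.ord_div (S.sysM.ne _) (S.sysM.ne _), he.2]

/-- places with the same centre as a place with centre on the section -/
theorem AtT.down (h : Cov S b z) (hr : 0 < r) {i : Fin (r + 1)} {Q : Place ℂ K}
    (hQ : Divisorial n Q) {P P' : Place ℂ M} (hP : AtT S i Q P) (hP' : Divisorial (n + r) P')
    (heq : localRing S.v P' = localRing S.v P) :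
    ∃ Q', Divisorial n Q' ∧ localRing y Q' = localRing y Q ∧ AtT S i Q' P' := by
  have hy := S.ny
  obtain ⟨e, he⟩ := hP.ovr
  have he0 : (0 : ℤ) < e := by exact_mod_cast he.1
  obtain ⟨f, hf, hf0, hfo⟩ := exists_nonunit hy Q
  have hfM : algebraMap K M f ∈ localRing S.v P := S.local_le he hf
  have hfM0 : algebraMap K M f ≠ 0 := by rwa [Ne, map_eq_zero]
  have h1 : P'.ord (algebraMap K M f) ≠ 0 := by
    intro h1
    have h2 := (unit_of_eq heq hfM hfM0).1 h1
    rw [he.2] at h2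
    rcases mul_eq_zero.1 h2 with h3 | h3 <;> omega
  obtain ⟨e', Q', he'⟩ := FF.exists_over P' ⟨f, h1⟩
  have hQ' : Divisorial n Q' := div_base (L := M) (by rw [S.trdeg_KM]) he' hP'
  have hT : Through y Q' Q := fun f hf => he'.reg.1 (localRing_reg (heq ▸ S.local_le he hf))
  have hT' : Through y Q Q' := fun f hf => he.reg.1 (localRing_reg (heq ▸ S.local_le he' hf))
  refine ⟨Q', hQ', Set.Subset.antisymm (localRing_le hT') (localRing_le hT), hP', ⟨e', he'⟩,
    fun gg' hG' => ?_⟩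
  obtain ⟨gg, c, hG, hgF, hu⟩ := CvT.exists_GG S hQ i
  refine CvT.change (hG.of_through hT) hG' ⟨fun c hc => he'.reg.2 (lsub_reg hy hc), fun p => ?_⟩
  have h2 := CvT.tt_mem (S := S) hgF (fun i f hf => hG.quot i hf) (hP.good gg hG) p
  by_cases h0 : algebraMap L M (CvT.tt S i gg p) = 0
  · exact Or.inl h0
  right
  have h3 := reg_ord_nonneg (localRing_reg (heq ▸ h2 : _ ∈ localRing S.v P'))
  have h4 := (unit_of_eq heq h2 h0)
  have h5 := ((hP.good gg hG).var p).resolve_left h0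
  have h6 : P'.ord (algebraMap L M (CvT.tt S i gg p)) ≠ 0 := fun h6 => by
    have := h4.1 h6
    omega
  omega

/-- the forms do not have the same order at the places with centre on the section -/
theorem AtT.ne {i j : Fin (r + 1)} (hij : j ≠ i) (hi : S.wt i.castSucc = 1)
    (hj : S.wt j.castSucc = 1) {Q : Place ℂ K} (hQ : Divisorial n Q) {P : Place ℂ M}
    (hP : AtT S i Q P) : ∃ k k', P.ord (S.lM k) ≠ P.ord (S.lM k') := by
  have hy := S.ny
  obtain ⟨gg, c, hG, hgF, hu⟩ := CvT.exists_GG S hQ i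
  obtain ⟨e, he⟩ := hP.ovr
  obtain ⟨p, hp⟩ := CvT.exists_ix hij
  obtain ⟨h1, h2⟩ := tt_ord (S := S) he (i := i) hG.ne p
  have h3 := ((hP.good gg hG).var p).resolve_left h1
  have h4 : Q.ord (gg j / gg i) = 0 := by
    have h0 : gg j / gg i ≠ 0 := div_ne_zero (hG.ne _) (hG.ne _)
    have h5 : ∀ D, IsPrimeDivisor y D → Through y D Q → D.ord (gg j / gg i) = 0 := by
      intro D hD hDQ
      obtain ⟨j', hj'⟩ := exists_centred hy D
      rw [D.ord_div (hG.ne _) (hG.ne _), hG.ord j D hD hDQ j' hj', hG.ord i D hD hDQ j' hj', hi,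
        hj]
      ring
    have h6 := reg_ord_nonneg (localRing_reg (mem_localRing_of_reg hy (f := gg j / gg i) (Q := Q)
      fun D hD hDQ => Or.inr (h5 D hD hDQ).ge))
    have h7 := reg_ord_nonneg (localRing_reg (mem_localRing_of_reg hy (f := (gg j / gg i)⁻¹)
      (Q := Q) fun D hD hDQ => Or.inr (by rw [D.ord_inv, h5 D hD hDQ]; norm_num)))
    rw [Q.ord_inv] at h7
    omega
  rw [h2, hp, h4, mul_zero, add_zero] at h3
  exact ⟨j.castSucc, i.castSucc, fun h => by omega⟩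

/-- **The log discrepancies of the covering.** -/
theorem Cov.logDisc (h : Cov S b z) {Δ : Place ℂ K → ℚ}
    (hG : ∀ P, IsPrimeDivisor y P → (G P : ℚ) = b * Δ P) {P : Place ℂ M}
    (hP : Divisorial (n + r) P) {Q : Place ℂ K} {e : ℕ} (hPQ : Over P Q e) {a : ℚ}
    (ha : LogDisc y n Δ Q a) : ∃ a', LogDisc S.v (n + r) 0 P a' ∧ e * a ≤ a' ∧
      ((∃ k k', P.ord (S.lM k) ≠ P.ord (S.lM k')) → e * a + 1 / b ≤ a') := by
  have hessK := S.essK
  have hessM := S.essM
  have hb1 : 1 ≤ b := by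
    have := h.hb
    omega
  obtain ⟨x, E, hx, hE⟩ := exists_crd h.trK
  obtain ⟨q, η, c, hq, hη, hgen, hc, hca⟩ := ha.form hb1 hG
  have hθ := th_pluri S.sysM b q (fun i => algebraMap K M (x i)) (algebraMap K M (η E))
  have hpos : 0 < 2 * (b * q) := by
    have : 0 < b * q := Nat.mul_pos hb1 hq
    omega
  have hposQ : (0 : ℚ) < (2 * (b * q) : ℕ) := by exact_mod_cast hpos
  obtain ⟨D, hD, hDP⟩ := exists_through S.nv P
  obtain ⟨w, F, i0, hw⟩ := exists_loc h.trM hP
  have hne := val_ne hθ hw.bas hw.dual (h.gen0 hPQ hη hgen hx hE hD hDP)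
  obtain ⟨κ, hκ⟩ := exists_ordEq h.trM hP hθ hw.bas hw.dual hne
  have hκ' := (hw.rg.ordEq_iff hθ).1 hκ
  have hbound : ∀ c' : ℚ, OrdGe P (th S.lM b q (fun i => algebraMap K M (x i))
      (algebraMap K M (η E))) c' → c' ≤ κ := by
    intro c' hc'
    have h1 := ((hw.rg.ordGe_iff hθ).1 hc').resolve_left hne
    rw [hκ'.2] at h1
    exact h1
  have hbQ : (0 : ℚ) < b := by exact_mod_cast hb1
  have hqQ : (0 : ℚ) < q := by exact_mod_cast hq
  refine ⟨1 + κ / (2 * (b * q) : ℕ), ⟨2 * (b * q), hpos, _, hθ, fun P' hP' hT => ?_, ?_⟩, ?_,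
    fun hne' => ?_⟩
  · have h1 := h.gen0 hPQ hη hgen hx hE hP' hT
    simpa using h1
  · have h1 : ((2 * (b * q) : ℕ) : ℚ) * (1 + κ / (2 * (b * q) : ℕ) - 1) = κ := by
      rw [add_sub_cancel_left, mul_div_cancel₀ _ hposQ.ne']
    rw [h1]
    exact hκ
  · have h1 := hbound _ (h.ge_over hP hPQ hη hc.1 hx hE)
    have h2 : (e : ℚ) * a = 1 + (((e * (2 * (b * q) + c) : ℤ) : ℚ) - (2 * (b * q) : ℕ)) /
        (2 * (b * q) : ℕ) := by
      push_cast
      rw [hca]
      field_simp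
      ring
    rw [h2]
    gcongr
  · have h1 := hbound _ (h.ge_over_two hP hPQ hne' hη hc.1 hx hE)
    have h2 : (e : ℚ) * a + 1 / b = 1 + (((e * (2 * (b * q) + c) + 2 * q : ℤ) : ℚ) -
        (2 * (b * q) : ℕ)) / (2 * (b * q) : ℕ) := by
      push_cast
      rw [hca]
      field_simp
      ring
    rw [h2]
    gcongr

/-- the log discrepancies at the places which are trivial on the base -/
theorem Cov.logDisc_triv (h : Cov S b z) {P : Place ℂ M}
    (hP : Divisorial (n + r) P) (htr : ∀ f : K, P.ord (algebraMap K M f) = 0) :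
    ∃ a', LogDisc S.v (n + r) 0 P a' ∧ 0 ≤ a' := by
  have hessK := S.essK
  have hessM := S.essM
  have hb1 : 1 ≤ b := by
    have := h.hb
    omega
  obtain ⟨x, E, hx, hE⟩ := exists_crd h.trK
  have hθ := th_pluri S.sysM b 1 (fun i => algebraMap K M (x i)) (algebraMap K M 1)
  have hpos : 0 < 2 * (b * 1) := by omega
  have hposQ : (0 : ℚ) < (2 * (b * 1) : ℕ) := by exact_mod_cast hpos
  have hgen : ∀ P', IsPrimeDivisor S.v P' → Through S.v P' P → OrdEq P'
      (th S.lM b 1 (fun i => algebraMap K M (x i)) (algebraMap K M 1)) 0 := fun P' hP' hT =>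
    h.hor hP' (h.through_triv hT htr) 1 hx hE (one_ne_zero (α := K))
  obtain ⟨D, hD, hDP⟩ := exists_through S.nv P
  obtain ⟨w, F, i0, hw⟩ := exists_loc h.trM hP
  have hne := val_ne hθ hw.bas hw.dual (hgen D hD hDP)
  obtain ⟨κ, hκ⟩ := exists_ordEq h.trM hP hθ hw.bas hw.dual hne
  have hκ' := (hw.rg.ordEq_iff hθ).1 hκ
  refine ⟨1 + κ / (2 * (b * 1) : ℕ), ⟨2 * (b * 1), hpos, _, hθ, fun P' hP' hT => ?_, ?_⟩, ?_⟩
  · have h1 := hgen P' hP' hT
    simpa using h1
  · have h1 : ((2 * (b * 1) : ℕ) : ℚ) * (1 + κ / (2 * (b * 1) : ℕ) - 1) = κ := by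
      rw [add_sub_cancel_left, mul_div_cancel₀ _ hposQ.ne']
    rw [h1]
    exact hκ
  · have h1 := ((hw.rg.ordGe_iff hθ).1 (h.ge_triv hP htr one_pos)).resolve_left hne
    rw [hκ'.2] at h1
    have h2 : (0 : ℚ) = 1 + (- (2 * (b * 1) : ℕ)) / (2 * (b * 1) : ℕ) := by
      rw [neg_div, div_self hposQ.ne']
      ring
    rw [h2]
    gcongr
    linarith

/-- the covering is log canonical over the points where the pair is -/
theorem Cov.lcAt (h : Cov S b z) {Δ : Place ℂ K → ℚ}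
    (hG : ∀ P, IsPrimeDivisor y P → (G P : ℚ) = b * Δ P) {P : Place ℂ M} {Q : Place ℂ K} {e : ℕ}
    (hPQ : Over P Q e) (hlc : LcAt y n Δ Q) : LcAt S.v (n + r) 0 P := by
  intro P' hP' hT
  by_cases htr : ∀ f : K, P'.ord (algebraMap K M f) = 0
  · exact h.logDisc_triv hP' htr
  · push Not at htr
    obtain ⟨e', Q', hPQ'⟩ := FF.exists_over P' htr
    have hQ' : Divisorial n Q' := div_base (L := M) (by rw [S.trdeg_KM]) hPQ' hP'
    obtain ⟨a, ha, ha0⟩ := hlc Q' hQ' (h.through hT hPQ hPQ')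
    obtain ⟨a', ha', hle, -⟩ := h.logDisc hG hP' hPQ' ha
    exact ⟨a', ha', (mul_nonneg (Nat.cast_nonneg _) ha0).trans hle⟩

end

end Pool.Agent.H890
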