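import Pool.Agent.H890.Mld5

/-!
Minimal log discrepancies of the cyclic covering at the points of the section: the theorems.
-/

set_option autoImplicit false
set_option linter.unusedSectionVars false
set_option linter.overlappingInstances false

open FF MvPolynomial Pool.Agent.W602.GT Pool.Agent.W603.LV Pool.Agent.W619.PQ Pool.Agent.Y172
  Pool.Agent.TH122.AB Pool.Agent.R887

namespace Pool.Agent.H890

section

variable {K L M : Type} [Field K] [Field L] [Field M] [Algebra ℂ K] [Algebra ℂ L]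
  [Algebra ℂ M] [Algebra K L] [Algebra L M] [Algebra K M] [IsScalarTower ℂ K L]
  [IsScalarTower ℂ L M] [IsScalarTower ℂ K M] [IsScalarTower K L M] [FiniteDimensional L M]
  {N : ℕ} {y : Fin (N + 1) → K} {n r : ℕ} {G : Place ℂ K → ℤ}
  {S : Mod K L M y n r G} {b : ℕ} {z : M}

open CvS

/-- places with centre on the section exist -/
theorem exists_AtT (S : Mod K L M y n r G) (i : Fin (r + 1)) (hn : 0 < n) {Q : Place ℂ K}
    (hQ : Divisorial n Q) : ∃ P, AtT S i Q P := by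
  obtain ⟨gg, c, hG, hgF, hu⟩ := CvT.exists_GG S hQ i
  obtain ⟨P, e, hP, hPQ, hgd⟩ := CvT.exists_sec (S := S) i hG.ne hQ hn (A := lsub y Q)
    (fun a ha => lsub_reg S.ny ha)
  exact ⟨P, hP, ⟨e, hPQ⟩, fun gg' hG' => CvT.change hG hG' hgd⟩

/-- **The place over `Q` which computes the minimal log discrepancy.** -/
theorem Cov.exists_at (h : Cov S b z) (hr : 2 ≤ r) (hn : 0 < n) {i j : Fin (r + 1)}
    (hi : S.wt i.castSucc = 1) (hj : S.wt j.castSucc = 1) (hsi : sg i.castSucc = 1)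
    (hsj : sg j.castSucc = -1)
    (hk : ∀ k : Fin (r + 2), k ≠ i.castSucc → k ≠ j.castSucc → S.wt k = 0) {Δ : Place ℂ K → ℚ}
    (hG : ∀ P, IsPrimeDivisor y P → (G P : ℚ) = b * Δ P) {Q : Place ℂ K} (hQ : Divisorial n Q)
    {g : K} (hg0 : g ≠ 0)
    (hg : ∀ P, IsPrimeDivisor y P → Through y P Q → (P.ord g : ℚ) = b * Δ P) (hgQ : 0 < Q.ord g)
    {a : ℚ} (ha : LogDisc y n Δ Q a) :
    ∃ P, AtT S i Q P ∧ LogDisc S.v (n + r) 0 P (a + 1 / b) := by
  have hessK := S.essK
  have hb1 : 1 ≤ b := by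
    have := h.hb
    omega
  obtain ⟨P, hP, hPQ, hord, hform⟩ := h.exists_mldPlace hr hn hi hj hsi hsj hQ
  refine ⟨P, ⟨hP, ⟨1, hPQ⟩, fun gg hgg => ⟨fun c hc => hPQ.reg.2 (lsub_reg S.ny hc),
    fun p => Or.inr ?_⟩⟩, ?_⟩
  · rw [(tt_ord (S := S) hPQ hgg.ne p).2, hord, hgg.quo hG hg0 hg i (ix i p), hi]
    by_cases h1 : ix i p = j
    · rw [if_pos (Or.inr h1), h1, hj]
      simp
    · have h2 : S.wt (ix i p).castSucc = 0 := hk _
        (fun h3 => CvT.ix_ne i p (Fin.castSucc_injective _ h3))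
        (fun h3 => h1 (Fin.castSucc_injective _ h3))
      rw [h2]
      split_ifs <;> push_cast <;> omega
  · obtain ⟨x, E, hx, hE⟩ := exists_crd h.trK
    obtain ⟨q, η, c, hq, hη, hgen, hc, hca⟩ := ha.form hb1 hG
    have hpos : 0 < 2 * (b * q) := by
      have : 0 < b * q := Nat.mul_pos hb1 hq
      omega
    refine ⟨2 * (b * q), hpos, th S.lM b q (fun i => algebraMap K M (x i))
      (algebraMap K M (η E)), th_pluri S.sysM _ _ _ _, fun P' hP' hT => ?_, ?_⟩
    · have h1 := h.gen0 hPQ hη hgen hx hE hP' hT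
      simpa using h1
    · have h1 := hform q η hη c hc x E hx hE
      have hbQ : (b : ℚ) ≠ 0 := by exact_mod_cast (by omega : b ≠ 0)
      have h2 : ((2 * (b * q) : ℕ) : ℚ) * (a + 1 / b - 1) = ((c + 2 * q : ℤ) : ℚ) := by
        push_cast
        rw [hca]
        field_simp
        ring
      rw [h2]
      exact h1

/-- **Minimal log discrepancies of the covering.** -/
theorem Cov.isMld (h : Cov S b z) (hr : 2 ≤ r) (hn : 0 < n) {i j : Fin (r + 1)}
    (hi : S.wt i.castSucc = 1) (hj : S.wt j.castSucc = 1) (hsi : sg i.castSucc = 1)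
    (hsj : sg j.castSucc = -1)
    (hk : ∀ k : Fin (r + 2), k ≠ i.castSucc → k ≠ j.castSucc → S.wt k = 0) {Δ : Place ℂ K → ℚ}
    (hΔ : Effective y Δ)
    (hG : ∀ P, IsPrimeDivisor y P → (G P : ℚ) = b * Δ P) {Q : Place ℂ K} (hQ : Divisorial n Q)
    {g : K} (hg0 : g ≠ 0)
    (hg : ∀ P, IsPrimeDivisor y P → Through y P Q → (P.ord g : ℚ) = b * Δ P) (hgQ : 0 < Q.ord g)
    {P : Place ℂ M} (hP : AtT S i Q P) {c : ℚ} (hc0 : 0 ≤ c) (hc : IsMld y n Δ Q c) :
    IsMld S.v (n + r) 0 P (c + 1 / b) := by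
  have hy := S.ny
  have hij : j ≠ i := by
    rintro rfl
    rw [hsi] at hsj
    omega
  refine ⟨fun P' hP' heq => ?_, ?_⟩
  · obtain ⟨Q', hQ', heqQ, hAt⟩ := hP.down h (by omega) hQ hP' heq
    obtain ⟨a, ha, hca⟩ := hc.1 Q' hQ' heqQ
    obtain ⟨e', he'⟩ := hAt.ovr
    obtain ⟨a', ha', -, hle⟩ := h.logDisc hG hP' he' ha
    refine ⟨a', ha', le_trans ?_ (hle (hAt.ne hij hi hj hQ'))⟩
    have h1 : (1 : ℚ) ≤ e' := by exact_mod_cast he'.1
    have h2 : a ≤ e' * a := le_mul_of_one_le_left (hc0.trans hca) h1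
    linarith
  · obtain ⟨Q', hQ', heqQ, ha⟩ := hc.2
    have hT : Through y Q' Q := through_of_le heqQ.ge
    have hT' : Through y Q Q' := through_of_le heqQ.le
    have hgm : g ∈ localRing y Q := cart_mem hy hΔ hg
    have hg' : ∀ P, IsPrimeDivisor y P → Through y P Q' → (P.ord g : ℚ) = b * Δ P :=
      fun P hP hPQ => hg P hP (through_tr hT hPQ)
    have hgQ' : 0 < Q'.ord g := by
      have h1 := reg_ord_nonneg (localRing_reg (heqQ ▸ hgm : g ∈ localRing y Q'))
      have h2 := unit_of_eq heqQ hgm hg0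
      have h3 : Q'.ord g ≠ 0 := fun h3 => by
        have := h2.1 h3
        omega
      omega
    obtain ⟨P', hP', ha'⟩ := h.exists_at hr hn hi hj hsi hsj hk hG hQ' hg0 hg' hgQ' ha
    exact ⟨P', hP'.div, Set.Subset.antisymm
      (localRing_le (hP'.through h (by omega) hQ' hP hT'))
      (localRing_le (hP.through h (by omega) hQ hP' hT)), ha'⟩

/-- **Semicontinuity of minimal log discrepancies for pairs from the case without boundary.** -/
theorem Cov.semicontinuous (h : Cov S b z) (hr : 2 ≤ r) (hn : 0 < n) {Δ : Place ℂ K → ℚ}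
    (hΔ : Effective y Δ) (hcar : CartierMul y n b Δ)
    (hG : ∀ P, IsPrimeDivisor y P → (G P : ℚ) = b * Δ P)
    (hV : Semicontinuous S.v (n + r) 0) (hX : Semicontinuous y n 0) : Semicontinuous y n Δ := by
  intro Q R hQ hR hcl hlc hT d a hd ha
  have hy := S.ny
  have hessM := S.essM
  have hessK := S.essK
  have hb1 : 1 ≤ b := by
    have := h.hb
    omega
  have hbQ : (0 : ℚ) < b := by exact_mod_cast hb1
  obtain ⟨g, hg0, hg⟩ := hcar Q hQ
  have hgm : g ∈ localRing y Q := cart_mem hy hΔ hg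
  have hgR : ∀ P, IsPrimeDivisor y P → Through y P R → (P.ord g : ℚ) = b * Δ P :=
    fun P hP hPR => hg P hP (through_tr hT hPR)
  have hgR0 := reg_ord_nonneg (hT g hgm)
  by_cases hg1 : R.ord g = 0
  · -- the centre of `R` is not contained in the support of `Δ`
    have hsh : ∀ P, Through y P Q → ∀ a, LogDisc y n Δ P a →
        LogDisc y n 0 P (a + P.ord g / b) := fun P hPQ a ha =>
      ha.shift hg0 hb1 fun P' hP' hP'P => by
        rw [hg P' hP' (through_tr hPQ hP'P)]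
        simp
    have hlc0 : LcAt y n 0 Q := by
      intro P hP hPQ
      obtain ⟨a, ha, ha0⟩ := hlc P hP hPQ
      refine ⟨_, hsh P hPQ a ha, add_nonneg ha0 (div_nonneg ?_ hbQ.le)⟩
      exact_mod_cast reg_ord_nonneg (hPQ g hgm)
    have ha0 := hsh R hT a ha
    rw [hg1, Int.cast_zero, zero_div, add_zero] at ha0
    obtain ⟨P, a', hP, heq, ha', hle⟩ := hX Q R hQ hR hcl hlc0 hT d a hd ha0
    have hPQ : Through y P Q := through_of_le heq.ge
    have hginv : g⁻¹ ≠ 0 := inv_ne_zero hg0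
    have h1 := ha'.shift (Δ' := Δ) hginv hb1 fun P' hP' hP'P => by
      rw [P'.ord_inv]
      push_cast
      rw [hg P' hP' (through_tr hPQ hP'P)]
      simp
    refine ⟨P, _, hP, heq, h1, le_trans ?_ hle⟩
    rw [P.ord_inv]
    have h2 : (0 : ℚ) ≤ P.ord g := by exact_mod_cast reg_ord_nonneg (hPQ g hgm)
    have h3 : (0 : ℚ) ≤ P.ord g / b := div_nonneg h2 hbQ.le
    push_cast
    rw [neg_div]
    linarith
  · have hgR1 : 0 < R.ord g := by omega
    obtain ⟨i, j, hi, hj, hsi, hsj, hk⟩ := h.exists_tw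
    have hij : j ≠ i := by
      rintro rfl
      rw [hsi] at hsj
      omega
    obtain ⟨R', hR', haR'⟩ := h.exists_at hr hn hi hj hsi hsj hk hG hR hg0 hgR hgR1 ha
    obtain ⟨Q', hQ'⟩ := exists_AtT S i hn hQ
    obtain ⟨e, he⟩ := hQ'.ovr
    obtain ⟨P', a', hP', heq, ha', hle⟩ := hV Q' R' hQ'.div hR'.div
      (hQ'.closed h (by omega) hQ hcl) (h.lcAt hG he hlc) (hQ'.through h (by omega) hQ hR' hT) d _
      (hR'.dim h (by omega) hR hd) haR'
    obtain ⟨P, hP, heqP, hAt⟩ := hQ'.down h (by omega) hQ hP' heq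
    obtain ⟨a₁, ha₁, ha₁0⟩ := hlc P hP (through_of_le heqP.ge)
    obtain ⟨e', he'⟩ := hAt.ovr
    obtain ⟨a₂, ha₂, -, hle₂⟩ := h.logDisc hG hP' he' ha₁
    have h1 := hle₂ (hAt.ne hij hi hj hP)
    have h2 := LogDisc.unique S.nv h.trM hP' ha' ha₂
    have h3 : (1 : ℚ) ≤ e' := by exact_mod_cast he'.1
    have h4 : a₁ ≤ e' * a₁ := le_mul_of_one_le_left ha₁0 h3
    refine ⟨P, a₁, hP, heqP, ha₁, ?_⟩
    rw [h2] at hle
    linarith

end

end Pool.Agent.H890
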