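import Mathlib

set_option autoImplicit false

namespace Pool.Agent.H890

open Finset in
/-- TASK MLD-R1. -/
theorem exists_lin (s : Finset ℝ) (hs : ∀ c ∈ s, 0 < c) {ε : ℝ} (hε : 0 < ε) (hε1 : ε < 1) :
    ∃ lam : ℝ →ₗ[ℚ] ℚ, ∀ c ∈ s, (1 - ε) * c ≤ lam c ∧ (lam c : ℝ) ≤ c := by
  classical
  obtain ⟨W, hW⟩ : ∃ W : Submodule ℚ ℝ, W = Submodule.span ℚ (s : Set ℝ) := ⟨_, rfl⟩
  have hfin : FiniteDimensional ℚ W := by
    rw [hW]; exact FiniteDimensional.span_finset ℚ s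
  obtain ⟨P, hP⟩ := LinearMap.exists_extend (p := W) (LinearMap.id : W →ₗ[ℚ] W)
  have hPc : ∀ c ∈ s, ((P c : W) : ℝ) = c := by
    intro c hc
    have hcW : c ∈ W := by
      rw [hW]; exact Submodule.subset_span hc
    have h := LinearMap.congr_fun hP ⟨c, hcW⟩
    have h2 : P c = ⟨c, hcW⟩ := h
    rw [h2]
  let e := Module.finBasis ℚ W
  have hsum : ∀ c ∈ s, c = ∑ i, ((e.repr (P c) i : ℚ) : ℝ) * ((e i : W) : ℝ) := by
    intro c hc
    have h := e.sum_repr (P c)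
    have h2 := congrArg (fun x : W => (x : ℝ)) h
    simp only [Submodule.coe_sum, Submodule.coe_smul, Rat.smul_def] at h2
    rw [hPc c hc] at h2
    exact h2.symm
  obtain ⟨δ, hδ0, hδ⟩ : ∃ δ : ℝ, 0 < δ ∧ ∀ c ∈ s,
      δ * ∑ i, |((e.repr (P c) i : ℚ) : ℝ)| ≤ ε / 2 * c := by
    have h1 : ∀ c ∈ s, ∀ᶠ δ : ℝ in nhdsWithin 0 (Set.Ioi 0),
        δ * ∑ i, |((e.repr (P c) i : ℚ) : ℝ)| ≤ ε / 2 * c := by
      intro c hc
      have hpos : 0 < ε / 2 * c := mul_pos (half_pos hε) (hs c hc)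
      have ht : Filter.Tendsto (fun δ : ℝ => δ * ∑ i, |((e.repr (P c) i : ℚ) : ℝ)|) (nhds 0)
          (nhds (0 * ∑ i, |((e.repr (P c) i : ℚ) : ℝ)|)) :=
        (continuous_id.mul continuous_const).tendsto 0
      rw [zero_mul] at ht
      exact (ht.eventually_le_const hpos).filter_mono nhdsWithin_le_nhds
    have h2 : ∀ᶠ δ : ℝ in nhdsWithin 0 (Set.Ioi 0), ∀ c ∈ s,
        δ * ∑ i, |((e.repr (P c) i : ℚ) : ℝ)| ≤ ε / 2 * c :=
      (Filter.eventually_all_finset s).2 h1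
    have h3 : ∀ᶠ δ : ℝ in nhdsWithin 0 (Set.Ioi 0), 0 < δ :=
      eventually_mem_nhdsWithin
    obtain ⟨δ, h4, h5⟩ := (h3.and h2).exists
    exact ⟨δ, h4, h5⟩
  have hq : ∀ i, ∃ q : ℚ, |(q : ℝ) - (1 - ε / 2) * ((e i : W) : ℝ)| ≤ δ := by
    intro i
    obtain ⟨q, h1, h2⟩ := exists_rat_btwn (show (1 - ε / 2) * ((e i : W) : ℝ) - δ <
      (1 - ε / 2) * ((e i : W) : ℝ) by linarith)
    refine ⟨q, abs_le.2 ⟨by linarith, by linarith⟩⟩
  choose q hq using hq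
  refine ⟨(e.constr ℚ q).comp P, fun c hc => ?_⟩
  have hlam : ((((e.constr ℚ q).comp P) c : ℚ) : ℝ) =
      ∑ i, ((e.repr (P c) i : ℚ) : ℝ) * (q i : ℝ) := by
    rw [LinearMap.comp_apply, Module.Basis.constr_apply_fintype]
    push_cast
    refine Finset.sum_congr rfl fun i _ => ?_
    rw [smul_eq_mul, Rat.cast_mul, Module.Basis.equivFun_apply]
  have hdiff : ((((e.constr ℚ q).comp P) c : ℚ) : ℝ) - (1 - ε / 2) * c =
      ∑ i, ((e.repr (P c) i : ℚ) : ℝ) * ((q i : ℝ) - (1 - ε / 2) * ((e i : W) : ℝ)) := by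
    have h5 : (1 - ε / 2) * c =
        ∑ i, (1 - ε / 2) * (((e.repr (P c) i : ℚ) : ℝ) * ((e i : W) : ℝ)) := by
      rw [← Finset.mul_sum]
      exact congrArg (fun x => (1 - ε / 2) * x) (hsum c hc)
    rw [hlam, h5, ← Finset.sum_sub_distrib]
    refine Finset.sum_congr rfl fun i _ => ?_
    ring
  have habs : |((((e.constr ℚ q).comp P) c : ℚ) : ℝ) - (1 - ε / 2) * c| ≤ ε / 2 * c := by
    rw [hdiff]
    refine (Finset.abs_sum_le_sum_abs _ _).trans (le_trans ?_ (hδ c hc))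
    rw [Finset.mul_sum]
    refine Finset.sum_le_sum fun i _ => ?_
    rw [abs_mul, mul_comm]
    exact mul_le_mul_of_nonneg_right (hq i) (abs_nonneg _)
  obtain ⟨h1, h2⟩ := abs_le.1 habs
  constructor <;> nlinarith [hs c hc]

end Pool.Agent.H890
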