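import Pool.Agent.H890.Mld6
import Pool.Agent.H890.KDefsR
import Pool.Agent.H890.MldA

/-!
Log discrepancies with respect to real boundaries.
-/

set_option autoImplicit false
set_option linter.unusedSectionVars false
set_option linter.overlappingInstances false

open FF MvPolynomial Pool.Agent.W602.GT Pool.Agent.W603.LV Pool.Agent.W619.PQ Pool.Agent.Y172
  Pool.Agent.TH122.AB Pool.Agent.R887

namespace Pool.Agent.H890

section

variable {K : Type} [Field K] [Algebra ℂ K] {N : ℕ} {y : Fin (N + 1) → K} {n : ℕ}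

/-- rational combinations of principal divisors which are effective near a point -/
theorem rat_ord_nonneg (hy : NormalModel y) {Q : Place ℂ K} {m : ℕ} (t : Fin m → ℚ)
    (g : Fin m → K) (hg : ∀ j, g j ≠ 0)
    (h : ∀ P, IsPrimeDivisor y P → Through y P Q → 0 ≤ ∑ j, t j * (P.ord (g j) : ℚ)) :
    0 ≤ ∑ j, t j * (Q.ord (g j) : ℚ) := by
  classical
  obtain ⟨D, hD⟩ : ∃ D : ℕ, D = ∏ j, (t j).den := ⟨_, rfl⟩
  have hD0 : 0 < D := by
    rw [hD]
    exact Finset.prod_pos fun j _ => (t j).pos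
  have hDQ : (0 : ℚ) < D := by exact_mod_cast hD0
  have hint : ∀ j, ∃ z : ℤ, (z : ℚ) = D * t j := by
    intro j
    obtain ⟨c, hc⟩ : (t j).den ∣ D := by
      rw [hD]
      exact Finset.dvd_prod_of_mem _ (Finset.mem_univ j)
    refine ⟨c * (t j).num, ?_⟩
    rw [hc]
    push_cast
    have h1 := Rat.mul_den_eq_num (t j)
    rw [← h1]
    ring
  choose k hk using hint
  have hkey : ∀ P : Place ℂ K, ((P.ord (∏ j, g j ^ k j) : ℤ) : ℚ) =
      D * ∑ j, t j * (P.ord (g j) : ℚ) := by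
    intro P
    rw [ord_prod' P _ _ fun j _ => zpow_ne_zero _ (hg j)]
    push_cast
    rw [Finset.mul_sum]
    refine Finset.sum_congr rfl fun j _ => ?_
    rw [P.ord_zpow]
    push_cast
    rw [hk]
    ring
  have h1 : ∏ j, g j ^ k j ∈ localRing y Q := by
    refine mem_localRing_of_reg hy fun P hP hT => Or.inr ?_
    have h2 := mul_nonneg hDQ.le (h P hP hT)
    rw [← hkey] at h2
    exact_mod_cast h2
  have h2 := reg_ord_nonneg (localRing_reg h1)
  have h3 : (0 : ℚ) ≤ ((Q.ord (∏ j, g j ^ k j) : ℤ) : ℚ) := by exact_mod_cast h2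
  rw [hkey] at h3
  exact nonneg_of_mul_nonneg_right h3 hDQ

theorem lin_sum {m : ℕ} (lam : ℝ →ₗ[ℚ] ℚ) (t : Fin m → ℝ) (q : Fin m → ℤ) :
    lam (∑ j, t j * (q j : ℝ)) = ∑ j, lam (t j) * (q j : ℚ) := by
  rw [map_sum]
  refine Finset.sum_congr rfl fun j _ => ?_
  have h1 : t j * (q j : ℝ) = (q j : ℚ) • t j := by
    rw [Algebra.smul_def, mul_comm]
    simp
  rw [h1, map_smul, smul_eq_mul, mul_comm]

/-- **real combinations of principal divisors which are effective near a point** -/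
theorem real_ord_nonneg (hy : NormalModel y) {Q : Place ℂ K} {m : ℕ} (t : Fin m → ℝ)
    (g : Fin m → K) (hg : ∀ j, g j ≠ 0)
    (h : ∀ P, IsPrimeDivisor y P → Through y P Q → 0 ≤ ∑ j, t j * (P.ord (g j) : ℝ)) :
    0 ≤ ∑ j, t j * (Q.ord (g j) : ℝ) := by
  classical
  by_contra hneg
  push Not at hneg
  obtain ⟨w, hw⟩ : ∃ w, w = ∑ j, t j * (Q.ord (g j) : ℝ) := ⟨_, rfl⟩
  rw [← hw] at hneg
  have hfin : {P : Place ℂ K | IsPrimeDivisor y P ∧ ∃ j, P.ord (g j) ≠ 0}.Finite := by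
    refine (Set.finite_iUnion fun j => finite_ord hy (hg j)).subset ?_
    rintro P ⟨hP, j, hj⟩
    exact Set.mem_iUnion.2 ⟨j, hP, hj⟩
  obtain ⟨s, hs⟩ : ∃ s : Finset ℝ, s = insert (-w) ((hfin.toFinset.image fun P =>
      ∑ j, t j * (P.ord (g j) : ℝ)).filter fun c => 0 < c) := ⟨_, rfl⟩
  have hspos : ∀ c ∈ s, 0 < c := by
    intro c hc
    rw [hs, Finset.mem_insert, Finset.mem_filter] at hc
    rcases hc with hc | hc
    · rw [hc]
      linarith
    · exact hc.2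
  obtain ⟨lam, hlam⟩ := exists_lin s hspos (ε := 1 / 2) (by norm_num) (by norm_num)
  have h1 := rat_ord_nonneg hy (Q := Q) (fun j => lam (t j)) g hg fun P hP hT => by
    rw [← lin_sum]
    by_cases hP0 : ∃ j, P.ord (g j) ≠ 0
    · rcases (h P hP hT).lt_or_eq with h2 | h2
      · have h3 := (hlam _ (by
          rw [hs, Finset.mem_insert, Finset.mem_filter]
          exact Or.inr ⟨Finset.mem_image.2 ⟨P, hfin.mem_toFinset.2 ⟨hP, hP0⟩, rfl⟩, h2⟩)).1
        have h4 : (0 : ℝ) ≤ lam (∑ j, t j * (P.ord (g j) : ℝ)) := by linarith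
        exact_mod_cast h4
      · rw [← h2, map_zero]
    · push Not at hP0
      have h2 : ∑ j, t j * (P.ord (g j) : ℝ) = 0 :=
        Finset.sum_eq_zero fun j _ => by rw [hP0 j]; simp
      rw [h2, map_zero]
  rw [← lin_sum, ← hw] at h1
  have h2 := (hlam (-w) (by rw [hs]; exact Finset.mem_insert_self _ _)).1
  rw [map_neg] at h2
  push_cast at h2
  have h3 : (0 : ℝ) ≤ lam w := by exact_mod_cast h1
  linarith

theorem real_ord_le (hy : NormalModel y) {Q : Place ℂ K} {m m' : ℕ} (t : Fin m → ℝ)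
    (g : Fin m → K) (hg : ∀ j, g j ≠ 0) (t' : Fin m' → ℝ) (g' : Fin m' → K) (hg' : ∀ j, g' j ≠ 0)
    (h : ∀ P, IsPrimeDivisor y P → Through y P Q → ∑ j, t j * (P.ord (g j) : ℝ) ≤
      ∑ j, t' j * (P.ord (g' j) : ℝ)) :
    ∑ j, t j * (Q.ord (g j) : ℝ) ≤ ∑ j, t' j * (Q.ord (g' j) : ℝ) := by
  have h1 := real_ord_nonneg hy (Q := Q) (Fin.append (fun j => - t j) t') (Fin.append g g')
    (fun j => by
      refine Fin.addCases (fun j => ?_) (fun j => ?_) j
      · rw [Fin.append_left]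
        exact hg j
      · rw [Fin.append_right]
        exact hg' j) fun P hP hT => by
      rw [Fin.sum_univ_add]
      simp only [Fin.append_left, Fin.append_right, neg_mul, Finset.sum_neg_distrib]
      have := h P hP hT
      linarith
  rw [Fin.sum_univ_add] at h1
  simp only [Fin.append_left, Fin.append_right, neg_mul, Finset.sum_neg_distrib] at h1
  linarith

theorem real_ord_eq (hy : NormalModel y) {Q : Place ℂ K} {m m' : ℕ} (t : Fin m → ℝ)
    (g : Fin m → K) (hg : ∀ j, g j ≠ 0) (t' : Fin m' → ℝ) (g' : Fin m' → K) (hg' : ∀ j, g' j ≠ 0)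
    (h : ∀ P, IsPrimeDivisor y P → Through y P Q → ∑ j, t j * (P.ord (g j) : ℝ) =
      ∑ j, t' j * (P.ord (g' j) : ℝ)) :
    ∑ j, t j * (Q.ord (g j) : ℝ) = ∑ j, t' j * (Q.ord (g' j) : ℝ) :=
  le_antisymm (real_ord_le hy t g hg t' g' hg' fun P hP hT => (h P hP hT).le)
    (real_ord_le hy t' g' hg' t g hg fun P hP hT => (h P hP hT).ge)

/-- orders are integers -/
theorem ordEq_int {P : Place ℂ K} {ω : (Fin n → Derivation ℂ K K) → K} {c : ℚ}
    (h : OrdEq P ω c) : ∃ k : ℤ, c = k := by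
  obtain ⟨-, E, -, -, h1⟩ := h
  exact ⟨_, h1.symm⟩

/-- the definition of the log discrepancy in two steps -/
theorem rLogDisc_iff {Δ : Place ℂ K → ℝ} {Q : Place ℂ K} {a : ℝ} : RLogDisc y n Δ Q a ↔
    ∃ (a₀ : ℚ) (m : ℕ) (t : Fin m → ℝ) (g : Fin m → K), LogDisc y n 0 Q a₀ ∧ (∀ j, g j ≠ 0) ∧
      (∀ P, IsPrimeDivisor y P → Through y P Q → Δ P = ∑ j, t j * (P.ord (g j) : ℝ)) ∧
      a = a₀ - ∑ j, t j * (Q.ord (g j) : ℝ) := by
  constructor
  · rintro ⟨r, k, η, m, t, g, hr, hη, hη0, hk, hg, hΔ, ha⟩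
    have hr0 : (r : ℚ) ≠ 0 := by exact_mod_cast hr.ne'
    refine ⟨1 + k / r, m, t, g, ⟨r, hr, η, hη, fun P hP hT => ?_, ?_⟩, hg, hΔ, ?_⟩
    · have := hη0 P hP hT
      simpa using this
    · have h1 : (r : ℚ) * (1 + k / r - 1) = k := by
        field_simp
        ring
      rw [h1]
      exact hk
    · rw [ha]
      push_cast
      ring
  · rintro ⟨a₀, m, t, g, ⟨r, hr, η, hη, hη0, hk⟩, hg, hΔ, ha⟩
    obtain ⟨k, hk'⟩ := ordEq_int hk
    rw [hk'] at hk
    refine ⟨r, k, η, m, t, g, hr, hη, fun P hP hT => ?_, hk, hg, hΔ, ?_⟩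
    · have := hη0 P hP hT
      simpa using this
    · have hr0 : (r : ℝ) ≠ 0 := by exact_mod_cast hr.ne'
      have h1 : (a₀ : ℝ) = 1 + k / r := by
        have h2 : (r : ℝ) * (a₀ - 1) = k := by exact_mod_cast hk'
        field_simp
        linarith
      rw [ha, h1]

theorem RLogDisc.unique [Algebra.EssFiniteType ℂ K] (hy : NormalModel y)
    (hn : Algebra.trdeg ℂ K = n) {Δ : Place ℂ K → ℝ} {Q : Place ℂ K} (hQ : Divisorial n Q)
    {a a' : ℝ} (h : RLogDisc y n Δ Q a) (h' : RLogDisc y n Δ Q a') : a = a' := by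
  obtain ⟨a₀, m, t, g, h0, hg, hΔ, ha⟩ := rLogDisc_iff.1 h
  obtain ⟨a₀', m', t', g', h0', hg', hΔ', ha'⟩ := rLogDisc_iff.1 h'
  rw [ha, ha', LogDisc.unique hy hn hQ h0 h0', real_ord_eq hy t g hg t' g' hg' fun P hP hT => by
    rw [← hΔ P hP hT, hΔ' P hP hT]]

/-- changing the boundary -/
theorem RLogDisc.change (hy : NormalModel y) {Δ Δ' : Place ℂ K → ℝ} {Q : Place ℂ K} {m : ℕ}
    {t : Fin m → ℝ} {g : Fin m → K} (hg : ∀ j, g j ≠ 0)
    (hΔ : ∀ P, IsPrimeDivisor y P → Through y P Q → Δ P = Δ' P + ∑ j, t j * (P.ord (g j) : ℝ))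
    {a : ℝ} (h : RLogDisc y n Δ Q a) :
    RLogDisc y n Δ' Q (a + ∑ j, t j * (Q.ord (g j) : ℝ)) := by
  obtain ⟨a₀, m', t', g', h0, hg', hΔ', ha⟩ := rLogDisc_iff.1 h
  refine rLogDisc_iff.2 ⟨a₀, m' + m, Fin.append t' (fun j => - t j), Fin.append g' g, h0,
    fun j => ?_, fun P hP hT => ?_, ?_⟩
  · refine Fin.addCases (fun j => ?_) (fun j => ?_) j
    · rw [Fin.append_left]
      exact hg' j
    · rw [Fin.append_right]
      exact hg j
  · rw [Fin.sum_univ_add]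
    simp only [Fin.append_left, Fin.append_right, neg_mul, Finset.sum_neg_distrib]
    rw [← hΔ' P hP hT, hΔ P hP hT]
    ring
  · rw [Fin.sum_univ_add]
    simp only [Fin.append_left, Fin.append_right, neg_mul, Finset.sum_neg_distrib]
    rw [ha]
    ring

/-- without boundary -/
theorem LogDisc.real {Q : Place ℂ K} {a : ℚ} (h : LogDisc y n 0 Q a) :
    RLogDisc y n 0 Q (a : ℝ) :=
  rLogDisc_iff.2 ⟨a, 0, fun _ => 0, fun _ => 0, h, fun j => j.elim0, fun P _ _ => by simp,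
    by simp⟩

/-- rational boundaries -/
theorem LogDisc.toReal (hy : NormalModel y) {Δ : Place ℂ K → ℚ} {Q : Place ℂ K} {g : K}
    (hg0 : g ≠ 0) {b : ℕ} (hb : 0 < b)
    (hg : ∀ P, IsPrimeDivisor y P → Through y P Q → (P.ord g : ℚ) = b * Δ P) {a : ℚ}
    (h : LogDisc y n Δ Q a) : RLogDisc y n (fun P => (Δ P : ℝ)) Q (a : ℝ) := by
  have h1 := h.shift (Δ' := 0) hg0 hb fun P hP hT => by
    rw [hg P hP hT]
    simp
  have hbR : (b : ℝ) ≠ 0 := by exact_mod_cast hb.ne'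
  refine rLogDisc_iff.2 ⟨_, 1, fun _ => 1 / b, fun _ => g, h1, fun _ => hg0, fun P hP hT => ?_, ?_⟩
  · have h2 := hg P hP hT
    have h3 : ((P.ord g : ℤ) : ℝ) = b * (Δ P : ℝ) := by exact_mod_cast h2
    rw [Fin.sum_univ_one, h3]
    field_simp
  · rw [Fin.sum_univ_one]
    push_cast
    ring

theorem RLogDisc.toRat (hy : NormalModel y) {Δ : Place ℂ K → ℚ} {Q : Place ℂ K} {g : K}
    (hg0 : g ≠ 0) {b : ℕ} (hb : 0 < b)
    (hg : ∀ P, IsPrimeDivisor y P → Through y P Q → (P.ord g : ℚ) = b * Δ P) {a : ℝ}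
    (h : RLogDisc y n (fun P => (Δ P : ℝ)) Q a) : ∃ a' : ℚ, a = a' ∧ LogDisc y n Δ Q a' := by
  obtain ⟨a₀, m, t, g', h0, hg', hΔ, ha⟩ := rLogDisc_iff.1 h
  have hbR : (b : ℝ) ≠ 0 := by exact_mod_cast hb.ne'
  have hbQ : (b : ℚ) ≠ 0 := by exact_mod_cast hb.ne'
  have h1 := h0.shift (Δ' := Δ) (inv_ne_zero hg0) hb fun P hP hT => by
    rw [P.ord_inv]
    push_cast
    rw [hg P hP hT]
    simp
  refine ⟨_, ?_, h1⟩
  have h2 := real_ord_eq hy (Q := Q) t g' hg' (fun _ : Fin 1 => (1 / b : ℝ)) (fun _ => g)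
    (fun _ => hg0) fun P hP hT => by
      rw [← hΔ P hP hT, Fin.sum_univ_one]
      have h3 : ((P.ord g : ℤ) : ℝ) = b * (Δ P : ℝ) := by exact_mod_cast hg P hP hT
      rw [h3]
      field_simp
  rw [ha, h2, Fin.sum_univ_one, Q.ord_inv]
  push_cast
  ring

/-- without boundary -/
theorem RLogDisc.toRat0 (hy : NormalModel y) {Q : Place ℂ K} {a : ℝ}
    (h : RLogDisc y n 0 Q a) : ∃ a' : ℚ, a = a' ∧ LogDisc y n 0 Q a' := by
  have h1 : (0 : Place ℂ K → ℝ) = fun P => (((0 : Place ℂ K → ℚ) P : ℚ) : ℝ) := by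
    funext P
    simp
  rw [h1] at h
  refine h.toRat hy (g := 1) one_ne_zero (b := 1) one_pos fun P _ _ => ?_
  rw [P.ord_one]
  simp

end

end Pool.Agent.H890
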