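import Pool.Agent.H890.Mld7
import Pool.Agent.H890.Top2

/-!
Semicontinuity of minimal log discrepancies for pairs with real boundaries.
-/

set_option autoImplicit false
set_option linter.unusedSectionVars false
set_option linter.overlappingInstances false

open FF MvPolynomial Pool.Agent.W602.GT Pool.Agent.W603.LV Pool.Agent.W619.PQ Pool.Agent.Y172
  Pool.Agent.TH122.AB Pool.Agent.R887

namespace Pool.Agent.H890

section

variable {K : Type} [Field K] [Algebra ℂ K] {N : ℕ} {y : Fin (N + 1) → K} {n : ℕ}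

/-- approximation with strict inequalities -/
theorem exists_lin' (s : Finset ℝ) (hs : ∀ c ∈ s, 0 < c) {ε : ℝ} (hε : 0 < ε) (hε1 : ε < 1) :
    ∃ (lam : ℝ →ₗ[ℚ] ℚ) (δ : ℝ), 0 < δ ∧ ∀ c ∈ s, (1 - ε) * c ≤ lam c ∧
      (lam c : ℝ) ≤ (1 - δ) * c := by
  obtain ⟨lam, hlam⟩ := exists_lin s hs (ε := ε / 2) (by linarith) (by linarith)
  obtain ⟨δ, hδ0, hδ1⟩ := exists_rat_btwn (show (0 : ℝ) < ε / 2 by linarith)
  refine ⟨(1 - δ) • lam, δ, hδ0, fun c hc => ?_⟩
  obtain ⟨h1, h2⟩ := hlam c hc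
  have hc0 := hs c hc
  have h3 : (((1 - δ) • lam) c : ℚ) = (1 - δ) * lam c := by
    rw [LinearMap.smul_apply, smul_eq_mul]
  rw [h3]
  push_cast
  have h4 : (0 : ℝ) < 1 - δ := by linarith
  constructor
  · have h5 : (1 - (δ : ℝ)) * ((1 - ε / 2) * c) ≤ (1 - δ) * lam c :=
      mul_le_mul_of_nonneg_left h1 h4.le
    have h6 : (1 - ε) ≤ (1 - (δ : ℝ)) * (1 - ε / 2) := by
      have h7 : 0 ≤ (δ : ℝ) * (ε / 2) := by positivity
      linarith
    have h7 := mul_le_mul_of_nonneg_right h6 hc0.le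
    linarith
  · exact mul_le_mul_of_nonneg_left h2 h4.le

/-- rational approximation of a real boundary -/
theorem exists_approx {Δ : Place ℂ K → ℝ} (hΔ : REffective y Δ) (hcar : RCartier y n Δ) {ε : ℝ}
    (hε : 0 < ε) (hε1 : ε < 1) : ∃ (Δ' : Place ℂ K → ℚ) (b : ℕ) (δ : ℝ), 2 ≤ b ∧
      Effective y Δ' ∧ CartierMul y n b Δ' ∧ 0 < δ ∧ ∀ P, IsPrimeDivisor y P →
        (1 - ε) * Δ P ≤ Δ' P ∧ (Δ' P : ℝ) ≤ (1 - δ) * Δ P := by
  classical
  obtain ⟨m, t, D, hD, hΔD⟩ := hcar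
  obtain ⟨s, hs⟩ : ∃ s : Finset ℝ, s = (hΔ.2.toFinset.image Δ).filter fun c => 0 < c := ⟨_, rfl⟩
  obtain ⟨lam, δ, hδ, hlam⟩ := exists_lin' s (fun c hc => by
    rw [hs, Finset.mem_filter] at hc
    exact hc.2) hε hε1
  have hcmp : ∀ P, IsPrimeDivisor y P → (1 - ε) * Δ P ≤ lam (Δ P) ∧
      (lam (Δ P) : ℝ) ≤ (1 - δ) * Δ P := by
    intro P hP
    rcases (hΔ.1 P hP).lt_or_eq with h1 | h1
    · refine hlam _ ?_
      rw [hs, Finset.mem_filter]
      exact ⟨Finset.mem_image.2 ⟨P, hΔ.2.mem_toFinset.2 ⟨hP, h1.ne'⟩, rfl⟩, h1⟩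
    · rw [← h1, map_zero]
      simp
  obtain ⟨d, hd⟩ : ∃ d : ℕ, d = ∏ j, (lam (t j)).den := ⟨_, rfl⟩
  have hd0 : 0 < d := by
    rw [hd]
    exact Finset.prod_pos fun j _ => (lam (t j)).pos
  have hint : ∀ j, ∃ z : ℤ, (z : ℚ) = (2 * d : ℕ) * lam (t j) := by
    intro j
    obtain ⟨c, hc⟩ : (lam (t j)).den ∣ d := by
      rw [hd]
      exact Finset.dvd_prod_of_mem _ (Finset.mem_univ j)
    refine ⟨2 * (c * (lam (t j)).num), ?_⟩
    rw [hc]
    push_cast
    have h1 := Rat.mul_den_eq_num (lam (t j))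
    rw [← h1]
    ring
  choose k hk using hint
  have hval : ∀ P, IsPrimeDivisor y P → lam (Δ P) = ∑ j, lam (t j) * D j P := by
    intro P hP
    rw [hΔD P hP, map_sum]
    refine Finset.sum_congr rfl fun j _ => ?_
    have h1 : t j * (D j P : ℝ) = (D j P) • t j := by
      rw [Algebra.smul_def, mul_comm]
      simp
    rw [h1, map_smul, smul_eq_mul, mul_comm]
  refine ⟨fun P => lam (Δ P), 2 * d, δ, by omega, ⟨fun P hP => ?_, ?_⟩, fun Q hQ => ?_, hδ, hcmp⟩
  · have h1 := (hcmp P hP).1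
    have h2 : (0 : ℝ) ≤ lam (Δ P) :=
      (mul_nonneg (by linarith) (hΔ.1 P hP)).trans h1
    exact_mod_cast h2
  · refine hΔ.2.subset ?_
    rintro P ⟨hP, h1⟩
    refine ⟨hP, fun h2 => h1 ?_⟩
    change lam (Δ P) = 0
    rw [h2, map_zero]
  · choose g hg0 hg using fun j => hD j Q hQ
    refine ⟨∏ j, g j ^ k j, Finset.prod_ne_zero_iff.2 fun j _ => zpow_ne_zero _ (hg0 j),
      fun P hP hT => ?_⟩
    rw [ord_prod' P _ _ fun j _ => zpow_ne_zero _ (hg0 j)]
    change _ = _ * lam (Δ P)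
    rw [hval P hP, Finset.mul_sum]
    push_cast
    refine Finset.sum_congr rfl fun j _ => ?_
    rw [P.ord_zpow]
    push_cast
    rw [hg j P hP hT, hk]
    push_cast
    ring

theorem RLcAt.rat (hy : NormalModel y) {Δ : Place ℂ K → ℚ} {Q : Place ℂ K} {g : K}
    (hg0 : g ≠ 0) {b : ℕ} (hb : 0 < b)
    (hg : ∀ P, IsPrimeDivisor y P → Through y P Q → (P.ord g : ℚ) = b * Δ P)
    (h : RLcAt y n (fun P => (Δ P : ℝ)) Q) : LcAt y n Δ Q := by
  intro P hP hT
  obtain ⟨a, ha, ha0⟩ := h P hP hT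
  obtain ⟨a', rfl, ha'⟩ := ha.toRat hy hg0 hb fun P' hP' hT' => hg P' hP' (through_tr hT hT')
  exact ⟨a', ha', by exact_mod_cast ha0⟩

/-- **Real boundaries from rational boundaries.** -/
theorem real_semiAt (hy : NormalModel y) {Δ : Place ℂ K → ℝ} (hΔ : REffective y Δ)
    (hcar : RCartier y n Δ) {Q : Place ℂ K} (hQ : Divisorial n Q) (hlc : RLcAt y n Δ Q)
    (H : ∀ (Δ' : Place ℂ K → ℚ) (b : ℕ), 2 ≤ b → Effective y Δ' → CartierMul y n b Δ' →
      LcAt y n Δ' Q → (RKltAt y n 0 Q → RKltAt y n (fun P => (Δ' P : ℝ)) Q) →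
      SemicontinuousAt y n (fun P => (Δ' P : ℝ)) Q) : SemicontinuousAt y n Δ Q := by
  intro R hR hT d a hd ha ε hε
  have hcar' := hcar
  obtain ⟨m, t, D, hD, hΔD⟩ := hcar'
  choose h hh0 hh using fun j => hD j Q hQ
  have hloc : ∀ P, IsPrimeDivisor y P → Through y P Q → Δ P = ∑ j, t j * (P.ord (h j) : ℝ) := by
    intro P hP hPQ
    rw [hΔD P hP]
    refine Finset.sum_congr rfl fun j _ => ?_
    have h1 := hh j P hP hPQ
    have h2 : ((P.ord (h j) : ℤ) : ℝ) = (D j P : ℝ) := by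
      have h3 : ((P.ord (h j) : ℤ) : ℚ) = D j P := by
        rw [h1]
        push_cast
        ring
      exact_mod_cast h3
    rw [h2]
  obtain ⟨w, hw⟩ : ∃ w : Place ℂ K → ℝ, ∀ P, w P = ∑ j, t j * (P.ord (h j) : ℝ) :=
    ⟨_, fun _ => rfl⟩
  have hw0 : ∀ P, Through y P Q → 0 ≤ w P := by
    intro P hPQ
    rw [hw]
    refine real_ord_nonneg hy t h hh0 fun P' hP' hT' => ?_
    rw [← hloc P' hP' (through_tr hPQ hT')]
    exact hΔ.1 P' hP'
  have hwR := hw0 R hT
  obtain ⟨ε', hε'⟩ : ∃ ε', ε' = min (1 / 2) (ε / (2 * (w R + 1))) := ⟨_, rfl⟩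
  have hε'0 : 0 < ε' := by
    rw [hε']
    exact lt_min (by norm_num) (by positivity)
  have hε'1 : ε' < 1 := by
    rw [hε']
    exact (min_le_left _ _).trans_lt (by norm_num)
  have hε'2 : ε' * w R ≤ ε / 2 := by
    have h1 : ε' ≤ ε / (2 * (w R + 1)) := by
      rw [hε']
      exact min_le_right _ _
    have h2 : ε' * w R ≤ ε / (2 * (w R + 1)) * (w R + 1) := by
      apply mul_le_mul h1 (by linarith) hwR
      positivity
    have h3 : ε / (2 * (w R + 1)) * (w R + 1) = ε / 2 := by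
      field_simp
    linarith
  obtain ⟨Δ', b, δ, hb, hΔ', hcar', hδ, hcmp⟩ := exists_approx hΔ hcar hε'0 hε'1
  obtain ⟨g, hg0, hg⟩ := hcar' Q hQ
  have hbR : (0 : ℝ) < b := by
    have : 0 < b := by omega
    exact_mod_cast this
  have hgR : ∀ P, IsPrimeDivisor y P → Through y P Q → (Δ' P : ℝ) = P.ord g / b := by
    intro P hP hPQ
    have h1 : ((P.ord g : ℤ) : ℝ) = b * (Δ' P : ℝ) := by exact_mod_cast hg P hP hPQ
    rw [h1]
    field_simp
  -- comparison of the orders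
  have hle1 : ∀ P, Through y P Q → (1 - ε') * w P ≤ P.ord g / b := by
    intro P hPQ
    have h1 := real_ord_le hy (Q := P) (fun j => (1 - ε') * t j) h hh0
      (fun _ : Fin 1 => (1 / b : ℝ)) (fun _ => g) (fun _ => hg0) fun P' hP' hT' => by
        have h2 := (hcmp P' hP').1
        rw [hloc P' hP' (through_tr hPQ hT'), hgR P' hP' (through_tr hPQ hT'),
          Finset.mul_sum] at h2
        rw [Fin.sum_univ_one]
        simp only [mul_assoc]
        linarith [h2, show (P'.ord g : ℝ) / b = 1 / b * P'.ord g by ring]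
    rw [Fin.sum_univ_one] at h1
    simp only [mul_assoc] at h1
    rw [← Finset.mul_sum, ← hw] at h1
    linarith [h1, show (P.ord g : ℝ) / b = 1 / b * P.ord g by ring]
  have hle2 : ∀ P, Through y P Q → P.ord g / b ≤ (1 - δ) * w P := by
    intro P hPQ
    have h1 := real_ord_le hy (Q := P) (fun _ : Fin 1 => (1 / b : ℝ)) (fun _ => g) (fun _ => hg0)
      (fun j => (1 - δ) * t j) h hh0 fun P' hP' hT' => by
        have h2 := (hcmp P' hP').2
        rw [hloc P' hP' (through_tr hPQ hT'), hgR P' hP' (through_tr hPQ hT'),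
          Finset.mul_sum] at h2
        rw [Fin.sum_univ_one]
        simp only [mul_assoc]
        linarith [h2, show (P'.ord g : ℝ) / b = 1 / b * P'.ord g by ring]
    rw [Fin.sum_univ_one] at h1
    simp only [mul_assoc] at h1
    rw [← Finset.mul_sum, ← hw] at h1
    linarith [h1, show (P.ord g : ℝ) / b = 1 / b * P.ord g by ring]
  -- change of the boundary
  have hto : ∀ P, Through y P Q → ∀ a, RLogDisc y n Δ P a →
      RLogDisc y n (fun P => (Δ' P : ℝ)) P (a + (w P - P.ord g / b)) := by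
    intro P hPQ a ha
    have h1 := ha.change (Δ' := fun P => (Δ' P : ℝ)) hy (t := Fin.append t fun _ : Fin 1 =>
      (-(1 / b) : ℝ)) (g := Fin.append h fun _ => g) (fun j => by
        refine Fin.addCases (fun j => ?_) (fun j => ?_) j
        · rw [Fin.append_left]
          exact hh0 j
        · rw [Fin.append_right]
          exact hg0) fun P' hP' hT' => by
      rw [Fin.sum_univ_add]
      simp only [Fin.append_left, Fin.append_right, Fin.sum_univ_one]
      rw [← hloc P' hP' (through_tr hPQ hT'), hgR P' hP' (through_tr hPQ hT')]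
      ring
    rw [Fin.sum_univ_add] at h1
    simp only [Fin.append_left, Fin.append_right, Fin.sum_univ_one] at h1
    rw [← hw] at h1
    have h2 : a + (w P - P.ord g / b) = a + (w P + -(1 / b) * P.ord g) := by ring
    rw [h2]
    exact h1
  have hfrom : ∀ P, Through y P Q → ∀ a, RLogDisc y n (fun P => (Δ' P : ℝ)) P a →
      RLogDisc y n Δ P (a - (w P - P.ord g / b)) := by
    intro P hPQ a ha
    have h1 := ha.change (Δ' := Δ) hy (t := Fin.append (fun j => - t j) fun _ : Fin 1 =>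
      ((1 / b) : ℝ)) (g := Fin.append h fun _ => g) (fun j => by
        refine Fin.addCases (fun j => ?_) (fun j => ?_) j
        · rw [Fin.append_left]
          exact hh0 j
        · rw [Fin.append_right]
          exact hg0) fun P' hP' hT' => by
      rw [Fin.sum_univ_add]
      simp only [Fin.append_left, Fin.append_right, Fin.sum_univ_one, neg_mul,
        Finset.sum_neg_distrib]
      rw [← hloc P' hP' (through_tr hPQ hT'), hgR P' hP' (through_tr hPQ hT')]
      ring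
    rw [Fin.sum_univ_add] at h1
    simp only [Fin.append_left, Fin.append_right, Fin.sum_univ_one, neg_mul,
      Finset.sum_neg_distrib] at h1
    rw [← hw] at h1
    have h2 : a - (w P - P.ord g / b) = a + (- w P + 1 / b * P.ord g) := by ring
    rw [h2]
    exact h1
  have hlc' : RLcAt y n (fun P => (Δ' P : ℝ)) Q := by
    intro P hP hPQ
    obtain ⟨a, ha, ha0⟩ := hlc P hP hPQ
    refine ⟨_, hto P hPQ a ha, ?_⟩
    have h1 := hle2 P hPQ
    have h2 : 0 ≤ δ * w P := mul_nonneg hδ.le (hw0 P hPQ)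
    linarith
  have hklt' : RKltAt y n 0 Q → RKltAt y n (fun P => (Δ' P : ℝ)) Q := by
    intro hk P hP hPQ
    rcases (hw0 P hPQ).lt_or_eq with h0 | h0
    · obtain ⟨a, ha, ha0⟩ := hlc P hP hPQ
      refine ⟨_, hto P hPQ a ha, ?_⟩
      have h1 := hle2 P hPQ
      have h2 : 0 < δ * w P := mul_pos hδ h0
      linarith
    · obtain ⟨a, ha, ha0⟩ := hk P hP hPQ
      have h1 := ha.change (Δ' := fun P => (Δ' P : ℝ)) hy (t := fun _ : Fin 1 =>
        (-(1 / b) : ℝ)) (g := fun _ => g) (fun _ => hg0) fun P' hP' hT' => by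
          rw [Fin.sum_univ_one, hgR P' hP' (through_tr hPQ hT')]
          simp only [Pi.zero_apply]
          ring
      rw [Fin.sum_univ_one] at h1
      refine ⟨_, h1, ?_⟩
      have h2 := hle2 P hPQ
      rw [← h0, mul_zero] at h2
      linarith [show (P.ord g : ℝ) / b = 1 / b * P.ord g by ring]
  have hbr : 0 < b := by omega
  obtain ⟨P, a'', hP, heq, ha'', hlt⟩ := H Δ' b hb hΔ' hcar' (hlc'.rat hy hg0 hbr hg) hklt' R hR hT
    d _ hd (hto R hT a ha) (ε / 2) (by linarith)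
  have hPQ : Through y P Q := through_of_le heq.ge
  refine ⟨P, _, hP, heq, hfrom P hPQ a'' ha'', ?_⟩
  have h1 := hle2 P hPQ
  have h2 : 0 ≤ δ * w P := mul_nonneg hδ.le (hw0 P hPQ)
  have h3 := hle1 R hT
  linarith

end

section

variable {K L M : Type} [Field K] [Field L] [Field M] [Algebra ℂ K] [Algebra ℂ L]
  [Algebra ℂ M] [Algebra K L] [Algebra L M] [Algebra K M] [IsScalarTower ℂ K L]
  [IsScalarTower ℂ L M] [IsScalarTower ℂ K M] [IsScalarTower K L M] [FiniteDimensional L M]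
  {N : ℕ} {y : Fin (N + 1) → K} {n r : ℕ} {G : Place ℂ K → ℤ}
  {S : Mod K L M y n r G} {b : ℕ} {z : M}

theorem Cov.rLcAt (h : Cov S b z) {Δ : Place ℂ K → ℚ}
    (hG : ∀ P, IsPrimeDivisor y P → (G P : ℚ) = b * Δ P) {P : Place ℂ M} {Q : Place ℂ K} {e : ℕ}
    (hPQ : Over P Q e) (hlc : LcAt y n Δ Q) : RLcAt S.v (n + r) 0 P := by
  intro P' hP' hT
  obtain ⟨a, ha, ha0⟩ := h.lcAt hG hPQ hlc P' hP' hT
  exact ⟨a, ha.real, by exact_mod_cast ha0⟩

/-- the log discrepancies at the places which are trivial on the base are positive -/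
theorem Cov.logDisc_pos (h : Cov S b z) {P : Place ℂ M}
    (hP : Divisorial (n + r) P) (htr : ∀ f : K, P.ord (algebraMap K M f) = 0) :
    ∃ a', LogDisc S.v (n + r) 0 P a' ∧ 0 < a' := by
  have hessK := S.essK
  have hessM := S.essM
  have hb1 : 1 ≤ b := by
    have := h.hb
    omega
  obtain ⟨x, E, hx, hE⟩ := exists_crd h.trK
  have hθ := th_pluri S.sysM b 1 (fun i => algebraMap K M (x i)) (algebraMap K M 1)
  have hpos : 0 < 2 * (b * 1) := by omega
  have hposQ : (0 : ℚ) < (2 * (b * 1) : ℕ) := by exact_mod_cast hpos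
  have hgen : ∀ P', IsPrimeDivisor S.v P' → Through S.v P' P → OrdEq P'
      (th S.lM b 1 (fun i => algebraMap K M (x i)) (algebraMap K M 1)) 0 := fun P' hP' hT =>
    h.hor hP' (h.through_triv hT htr) 1 hx hE (one_ne_zero (α := K))
  obtain ⟨D, hD, hDP⟩ := exists_through S.nv P
  obtain ⟨w, F, i0, hw⟩ := exists_loc h.trM hP
  have hne := val_ne hθ hw.bas hw.dual (hgen D hD hDP)
  obtain ⟨κ, hκ⟩ := exists_ordEq h.trM hP hθ hw.bas hw.dual hne
  have hκ' := (hw.rg.ordEq_iff hθ).1 hκ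
  refine ⟨1 + κ / (2 * (b * 1) : ℕ), ⟨2 * (b * 1), hpos, _, hθ, fun P' hP' hT => ?_, ?_⟩, ?_⟩
  · have h1 := hgen P' hP' hT
    simpa using h1
  · have h1 : ((2 * (b * 1) : ℕ) : ℚ) * (1 + κ / (2 * (b * 1) : ℕ) - 1) = κ := by
      rw [add_sub_cancel_left, mul_div_cancel₀ _ hposQ.ne']
    rw [h1]
    exact hκ
  · have h1 := ((hw.rg.ordGe_iff hθ).1 (h.ge_triv hP htr one_pos)).resolve_left hne
    rw [hκ'.2] at h1
    have h2 : (0 : ℚ) < 1 + (1 - (2 * (b * 1) : ℕ)) / (2 * (b * 1) : ℕ) := by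
      rw [sub_div, div_self hposQ.ne']
      have : (0 : ℚ) < 1 / (2 * (b * 1) : ℕ) := by positivity
      linarith
    refine h2.trans_le ?_
    gcongr

/-- the covering is klt over the points where the pair is -/
theorem Cov.rKltAt (h : Cov S b z) {Δ : Place ℂ K → ℚ}
    (hG : ∀ P, IsPrimeDivisor y P → (G P : ℚ) = b * Δ P) {P : Place ℂ M} {Q : Place ℂ K} {e : ℕ}
    {g : K} (hg0 : g ≠ 0)
    (hg : ∀ P, IsPrimeDivisor y P → Through y P Q → (P.ord g : ℚ) = b * Δ P)
    (hPQ : Over P Q e) (hlc : RKltAt y n (fun P => (Δ P : ℝ)) Q) :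
    RKltAt S.v (n + r) 0 P := by
  have hb1 : 0 < b := by
    have := h.hb
    omega
  intro P' hP' hT
  by_cases htr : ∀ f : K, P'.ord (algebraMap K M f) = 0
  · obtain ⟨a, ha, ha0⟩ := h.logDisc_pos hP' htr
    exact ⟨a, ha.real, by exact_mod_cast ha0⟩
  · push Not at htr
    obtain ⟨e', Q', hPQ'⟩ := FF.exists_over P' htr
    have hQ' : Divisorial n Q' := div_base (L := M) (by rw [S.trdeg_KM]) hPQ' hP'
    have hTQ := h.through hT hPQ hPQ'
    obtain ⟨a, ha, ha0⟩ := hlc Q' hQ' hTQ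
    obtain ⟨a₁, rfl, ha₁⟩ := ha.toRat S.ny hg0 hb1 fun P' hP' hT' =>
      hg P' hP' (through_tr hTQ hT')
    obtain ⟨a', ha', hle, -⟩ := h.logDisc hG hP' hPQ' ha₁
    have h1 : (0 : ℚ) < a₁ := by exact_mod_cast ha0
    have h2 : (0 : ℚ) < e' := by exact_mod_cast hPQ'.1
    have h3 : 0 < a' := (mul_pos h2 h1).trans_le hle
    exact ⟨a', ha'.real, by exact_mod_cast h3⟩

/-- **Semicontinuity for pairs from the case without boundary, at a point.** -/
theorem Cov.semiAt (h : Cov S b z) (hr : 2 ≤ r) (hn : 0 < n) {i j : Fin (r + 1)}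
    (hi : S.wt i.castSucc = 1) (hj : S.wt j.castSucc = 1) (hsi : sg i.castSucc = 1)
    (hsj : sg j.castSucc = -1)
    (hk : ∀ k : Fin (r + 2), k ≠ i.castSucc → k ≠ j.castSucc → S.wt k = 0)
    {Δ : Place ℂ K → ℚ} (hΔ : Effective y Δ) (hcar : CartierMul y n b Δ)
    (hG : ∀ P, IsPrimeDivisor y P → (G P : ℚ) = b * Δ P) {Q : Place ℂ K} (hQ : Divisorial n Q)
    (hlc : LcAt y n Δ Q) (hX : SemicontinuousAt y n 0 Q)
    {Q' : Place ℂ M} (hQ' : AtT S i Q Q') (hV : SemicontinuousAt S.v (n + r) 0 Q') :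
    SemicontinuousAt y n (fun P => (Δ P : ℝ)) Q := by
  intro R hR hT d a hd ha ε hε
  have hy := S.ny
  have hessM := S.essM
  have hessK := S.essK
  have hb1 : 0 < b := by
    have := h.hb
    omega
  have hbQ : (0 : ℚ) < b := by exact_mod_cast hb1
  obtain ⟨g, hg0, hg⟩ := hcar Q hQ
  have hgm : g ∈ localRing y Q := cart_mem hy hΔ hg
  have hgR : ∀ P, IsPrimeDivisor y P → Through y P R → (P.ord g : ℚ) = b * Δ P :=
    fun P hP hPR => hg P hP (through_tr hT hPR)
  have hgR0 := reg_ord_nonneg (hT g hgm)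
  obtain ⟨a, rfl, har⟩ := ha.toRat hy hg0 hb1 hgR
  by_cases hg1 : R.ord g = 0
  · -- the centre of `R` is not contained in the support of `Δ`
    have ha0 := har.shift (Δ' := 0) hg0 hb1 fun P' hP' hP'P => by
      rw [hgR P' hP' hP'P]
      simp
    rw [hg1, Int.cast_zero, zero_div, add_zero] at ha0
    obtain ⟨P, a', hP, heq, ha', hle⟩ := hX R hR hT d a hd ha0.real ε hε
    obtain ⟨a', rfl, har'⟩ := ha'.toRat0 hy
    have hPQ : Through y P Q := through_of_le heq.ge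
    have h1 := har'.shift (Δ' := Δ) (inv_ne_zero hg0) hb1 fun P' hP' hP'P => by
      rw [P'.ord_inv]
      push_cast
      rw [hg P' hP' (through_tr hPQ hP'P)]
      simp
    refine ⟨P, _, hP, heq, h1.toReal hy hg0 hb1 fun P' hP' hP'P =>
      hg P' hP' (through_tr hPQ hP'P), lt_of_le_of_lt ?_ hle⟩
    rw [P.ord_inv]
    have h2 : (0 : ℚ) ≤ P.ord g := by exact_mod_cast reg_ord_nonneg (hPQ g hgm)
    have h3 : (0 : ℚ) ≤ P.ord g / b := div_nonneg h2 hbQ.le
    have h4 : a' + ((-P.ord g : ℤ) : ℚ) / b ≤ a' := by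
      push_cast
      rw [neg_div]
      linarith
    exact_mod_cast h4
  · have hgR1 : 0 < R.ord g := by omega
    have hij : j ≠ i := by
      rintro rfl
      rw [hsi] at hsj
      omega
    obtain ⟨R', hR', haR'⟩ := h.exists_at hr hn hi hj hsi hsj hk hG hR hg0 hgR hgR1 har
    obtain ⟨e, he⟩ := hQ'.ovr
    obtain ⟨P', a', hP', heq, ha', hle⟩ := hV R' hR'.div
      (hQ'.through h (by omega) hQ hR' hT) d _ (hR'.dim h (by omega) hR hd) haR'.real ε hε
    obtain ⟨a', rfl, har'⟩ := ha'.toRat0 S.nv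
    obtain ⟨P, hP, heqP, hAt⟩ := hQ'.down h (by omega) hQ hP' heq
    have hPQ : Through y P Q := through_of_le heqP.ge
    obtain ⟨a₁, ha₁, ha₁0⟩ := hlc P hP hPQ
    obtain ⟨e', he'⟩ := hAt.ovr
    obtain ⟨a₂, ha₂, -, hle₂⟩ := h.logDisc hG hP' he' ha₁
    have h1 := hle₂ (hAt.ne hij hi hj hP)
    have h2 := LogDisc.unique S.nv h.trM hP' har' ha₂
    have h3 : (1 : ℚ) ≤ e' := by exact_mod_cast he'.1
    have h4 : a₁ ≤ e' * a₁ := le_mul_of_one_le_left ha₁0 h3
    refine ⟨P, a₁, hP, heqP, ha₁.toReal hy hg0 hb1 fun P' hP' hP'P =>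
      hg P' hP' (through_tr hPQ hP'P), ?_⟩
    have h5 : a₁ + 1 / b ≤ a' := by
      rw [h2]
      linarith
    have h6 : ((a₁ + 1 / b : ℚ) : ℝ) ≤ a' := by exact_mod_cast h5
    push_cast at hle h6
    linarith

end

end Pool.Agent.H890
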