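import Pool.Agent.H890.Mld8
import Pool.Agent.H890.Top3

/-!
Minimal log discrepancies of pairs from varieties without boundary.
-/

set_option autoImplicit false
set_option linter.unusedSectionVars false
set_option linter.overlappingInstances false

open FF MvPolynomial Pool.Agent.W602.GT Pool.Agent.W603.LV Pool.Agent.W619.PQ Pool.Agent.Y172
  Pool.Agent.TH122.AB Pool.Agent.R887

namespace Pool.Agent.H890

section

variable {K L M : Type} [Field K] [Field L] [Field M] [Algebra ℂ K] [Algebra ℂ L]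
  [Algebra ℂ M] [Algebra K L] [Algebra L M] [Algebra K M] [IsScalarTower ℂ K L]
  [IsScalarTower ℂ L M] [IsScalarTower ℂ K M] [IsScalarTower K L M] [FiniteDimensional L M]
  {N : ℕ} {y : Fin (N + 1) → K} {n r : ℕ} {G : Place ℂ K → ℤ}
  {S : Mod K L M y n r G} {b : ℕ} {z : M}

/-- **Minimal log discrepancies of the covering.** -/
theorem Cov.rMld (h : Cov S b z) (hr : 2 ≤ r) (hn : 0 < n) {i j : Fin (r + 1)}
    (hi : S.wt i.castSucc = 1) (hj : S.wt j.castSucc = 1) (hsi : sg i.castSucc = 1)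
    (hsj : sg j.castSucc = -1)
    (hk : ∀ k : Fin (r + 2), k ≠ i.castSucc → k ≠ j.castSucc → S.wt k = 0) {Δ : Place ℂ K → ℚ}
    (hΔ : Effective y Δ)
    (hG : ∀ P, IsPrimeDivisor y P → (G P : ℚ) = b * Δ P) {Q : Place ℂ K} (hQ : Divisorial n Q)
    {g : K} (hg0 : g ≠ 0)
    (hg : ∀ P, IsPrimeDivisor y P → Through y P Q → (P.ord g : ℚ) = b * Δ P) (hgQ : 0 < Q.ord g)
    {P : Place ℂ M} (hP : AtT S i Q P) {c : ℝ} (hc0 : 0 ≤ c)
    (hc : RMld y n (fun P => (Δ P : ℝ)) Q c) : RMld S.v (n + r) 0 P (c + 1 / b) := by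
  have hy := S.ny
  have hb1 : 0 < b := by
    have := h.hb
    omega
  have hij : j ≠ i := by
    rintro rfl
    rw [hsi] at hsj
    omega
  refine ⟨fun P' hP' heq => ?_, fun ε hε => ?_⟩
  · obtain ⟨Q', hQ', heqQ, hAt⟩ := hP.down h (by omega) hQ hP' heq
    have hT : Through y Q' Q := through_of_le heqQ.ge
    obtain ⟨a, ha, hca⟩ := hc.1 Q' hQ' heqQ
    obtain ⟨a, rfl, har⟩ := ha.toRat hy hg0 hb1 fun P hP hPQ => hg P hP (through_tr hT hPQ)
    obtain ⟨e', he'⟩ := hAt.ovr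
    obtain ⟨a', ha', -, hle⟩ := h.logDisc hG hP' he' har
    refine ⟨a', ha'.real, ?_⟩
    have h0 := hle (hAt.ne hij hi hj hQ')
    have h1 : (1 : ℚ) ≤ e' := by exact_mod_cast he'.1
    have h2 : (0 : ℚ) ≤ a := by exact_mod_cast hc0.trans hca
    have h3 : a ≤ e' * a := le_mul_of_one_le_left h2 h1
    have h4 : a + 1 / b ≤ a' := by linarith
    have h5 : ((a + 1 / b : ℚ) : ℝ) ≤ a' := by exact_mod_cast h4
    push_cast at h5
    linarith
  · obtain ⟨Q', a, hQ', heqQ, ha, hlt⟩ := hc.2 ε hε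
    have hT : Through y Q' Q := through_of_le heqQ.ge
    have hT' : Through y Q Q' := through_of_le heqQ.le
    have hgm : g ∈ localRing y Q := cart_mem hy hΔ hg
    have hg' : ∀ P, IsPrimeDivisor y P → Through y P Q' → (P.ord g : ℚ) = b * Δ P :=
      fun P hP hPQ => hg P hP (through_tr hT hPQ)
    obtain ⟨a, rfl, har⟩ := ha.toRat hy hg0 hb1 hg'
    have hgQ' : 0 < Q'.ord g := by
      have h1 := reg_ord_nonneg (localRing_reg (heqQ ▸ hgm : g ∈ localRing y Q'))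
      have h2 := unit_of_eq heqQ hgm hg0
      have h3 : Q'.ord g ≠ 0 := fun h3 => by
        have := h2.1 h3
        omega
      omega
    obtain ⟨P', hP', ha'⟩ := h.exists_at hr hn hi hj hsi hsj hk hG hQ' hg0 hg' hgQ' har
    refine ⟨P', _, hP'.div, Set.Subset.antisymm
      (localRing_le (hP'.through h (by omega) hQ' hP hT'))
      (localRing_le (hP.through h (by omega) hQ hP' hT)), ha'.real, ?_⟩
    push_cast
    linarith

/-- the point of the section -/
theorem Cov.mldReplaces (h : Cov S b z) (hr : 2 ≤ r) (hn : 0 < n) {Δ : Place ℂ K → ℚ}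
    (hΔ : Effective y Δ) (hcar : CartierMul y n b Δ)
    (hG : ∀ P, IsPrimeDivisor y P → (G P : ℚ) = b * Δ P) {Q : Place ℂ K} (hQ : Divisorial n Q) :
    ∃ P, MldReplaces S.v (n + r) y n Δ b P Q := by
  have hy := S.ny
  have hb1 : 0 < b := by
    have := h.hb
    omega
  obtain ⟨i, j, hi, hj, hsi, hsj, hk⟩ := h.exists_tw
  obtain ⟨P, hP⟩ := exists_AtT S i hn hQ
  obtain ⟨e, he⟩ := hP.ovr
  obtain ⟨g, hg0, hg⟩ := hcar Q hQ
  refine ⟨P, hP.div, ⟨e, he⟩, fun k hk => hP.dim h (by omega) hQ hk,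
    hP.closed h (by omega) hQ, fun hlc => h.rLcAt hG he (hlc.rat hy hg0 hb1 hg),
    fun hklt => h.rKltAt hG hg0 hg he hklt, fun hsup c hc0 hc => ?_, fun hlc hX hV =>
      h.semiAt hr hn hi hj hsi hsj hk hΔ hcar hG hQ (hlc.rat hy hg0 hb1 hg) hX hP hV⟩
  have hgQ : 0 < Q.ord g := by
    have hgm : g ∈ localRing y Q := cart_mem hy hΔ hg
    have h1 := reg_ord_nonneg (localRing_reg hgm)
    have h2 : Q.ord g ≠ 0 := by
      intro h2
      obtain ⟨D, hD, hDQ, hD0⟩ := hsup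
      have h3 := unit_through hDQ hgm hg0 h2
      have h4 := hg D hD hDQ
      rw [h3] at h4
      have hbQ : (b : ℚ) ≠ 0 := by exact_mod_cast hb1.ne'
      rcases mul_eq_zero.1 h4.symm with h5 | h5
      · exact hbQ h5
      · exact hD0 h5
    omega
  exact h.rMld hr hn hi hj hsi hsj hk hΔ hG hQ hg0 hg hgQ hP hc0 hc

end

/-- **The variety without boundary.** -/
theorem mld_removal (K : Type) [Field K] [Algebra ℂ K] {n b : ℕ} (hb : 2 ≤ b) (hn1 : 1 ≤ n)
    (hn : Algebra.trdeg ℂ K = n) {N : ℕ} {y : Fin (N + 1) → K} (hy : NormalModel y)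
    {Δ : Place ℂ K → ℚ} (hΔ : Effective y Δ) (hcar : CartierMul y n b Δ) :
    ∃ (M : Type) (_ : Field M) (_ : Algebra ℂ M) (_ : Algebra K M) (_ : IsScalarTower ℂ K M)
      (t : Fin (2 * b - 2) → M) (N' : ℕ) (v : Fin (N' + 1) → M), AlgebraicIndependent K t ∧
      IntermediateField.adjoin K (Set.range t) = ⊤ ∧ NormalModel v ∧
      Algebra.trdeg ℂ M = (n + (2 * b - 2) : ℕ) ∧
      ∀ Q, Divisorial n Q → ∃ P, MldReplaces v (n + (2 * b - 2)) y n Δ b P Q := by
  obtain ⟨r, hr⟩ : ∃ r, r = 2 * b - 2 := ⟨_, rfl⟩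
  rw [← hr]
  obtain ⟨b', hb'⟩ : ∃ b', b = b' + 2 := ⟨b - 2, by omega⟩
  have hrb : r + 2 = 2 * b := by omega
  obtain ⟨L, _, _, _, _, t, ht⟩ := exists_L K r
  obtain ⟨M, _, _, _, z, hz, hgen, hfin⟩ := exists_M (∏ k, lfs t k ^ sg k)
    (N := r + 2) (Nat.succ_pos _)
  let _ : Algebra ℂ M := ((algebraMap L M).comp (algebraMap ℂ L)).toAlgebra
  let _ : Algebra K M := ((algebraMap L M).comp (algebraMap K L)).toAlgebra
  have _ : IsScalarTower ℂ L M := IsScalarTower.of_algebraMap_eq' rfl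
  have _ : IsScalarTower K L M := IsScalarTower.of_algebraMap_eq' rfl
  have _ : IsScalarTower ℂ K M := IsScalarTower.of_algebraMap_eq fun c => by
    rw [IsScalarTower.algebraMap_apply ℂ L M, IsScalarTower.algebraMap_apply ℂ K L,
      ← IsScalarTower.algebraMap_apply K L M]
  have htr : Algebra.trdeg K M = r := by
    have h1 : IsTranscendenceBasis K (algebraMap L M ∘ t) := (Gens_basis ht).algebraMap_comp
    rw [← h1.cardinalMk_eq_trdeg]
    simp
  obtain ⟨s, hs1, hs2⟩ := rational (b' := b') (by omega) (lfs_sys ht)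
    (by rw [lfs_ts]; exact ht) htr hz hgen
    (fun k k' hk hk' => lfs_pair ht k k' (by omega) hk hk')
  obtain ⟨G, hG, S, hcov⟩ := exists_cov (L := L) (M := M) hrb (by omega) ht hz hgen hfin hn hy
    hΔ hcar
  exact ⟨M, inferInstance, inferInstance, inferInstance, inferInstance, s, S.N', S.v, hs1, hs2,
    S.nv, hcov.trM, fun Q hQ => hcov.mldReplaces (by omega) hn1 hΔ hcar hG hQ⟩

theorem no_divisorial {K : Type} [Field K] [Algebra ℂ K] (hn : Algebra.trdeg ℂ K = (0 : ℕ)) {N : ℕ}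
    {y : Fin (N + 1) → K} (hy : NormalModel y) (Q : Place ℂ K) : ¬ Divisorial 0 Q := by
  intro hQ
  have hess := hy.ess
  obtain ⟨-, -, i0, -⟩ := exists_loc hn hQ
  exact absurd (Fin.pos i0) (lt_irrefl 0)

/-- the variety without boundary is log canonical -/
theorem LcAt.zero {K : Type} [Field K] [Algebra ℂ K] {N : ℕ} {y : Fin (N + 1) → K} {n : ℕ}
    (hy : NormalModel y) {Δ : Place ℂ K → ℚ} (hΔ : Effective y Δ) {b : ℕ} (hb : 0 < b)
    (hcar : CartierMul y n b Δ) {Q : Place ℂ K} (hQ : Divisorial n Q) (hlc : LcAt y n Δ Q) :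
    RLcAt y n 0 Q := by
  obtain ⟨g, hg0, hg⟩ := hcar Q hQ
  have hgm : g ∈ localRing y Q := cart_mem hy hΔ hg
  have hbQ : (0 : ℚ) < b := by exact_mod_cast hb
  intro P hP hPQ
  obtain ⟨a, ha, ha0⟩ := hlc P hP hPQ
  have h1 := ha.shift (Δ' := 0) hg0 hb fun P' hP' hP'P => by
    rw [hg P' hP' (through_tr hPQ hP'P)]
    simp
  refine ⟨_, h1.real, ?_⟩
  have h2 : (0 : ℚ) ≤ a + P.ord g / b := by
    refine add_nonneg ha0 (div_nonneg ?_ hbQ.le)
    exact_mod_cast reg_ord_nonneg (hPQ g hgm)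
  exact_mod_cast h2

theorem pair_of_variety (h : ∀ n, VarietySemicontinuity n) (n : ℕ) : PairSemicontinuity n := by
  intro K _ _ N y Δ hn hy hΔ hcar Q hQ hcl hlc
  by_cases hn1 : 1 ≤ n
  · refine real_semiAt hy hΔ hcar hQ hlc fun Δ' b hb hΔ' hcar' hlc' hklt' => ?_
    obtain ⟨M, _, _, _, _, t, N', v, h1, h2, h3, h4, h5⟩ := mld_removal K hb hn1 hn hy hΔ' hcar'
    obtain ⟨P, hP⟩ := h5 Q hQ
    have hb0 : 0 < b := by omega
    obtain ⟨g, hg0, hg⟩ := hcar' Q hQ
    have hlcR : RLcAt y n (fun P => (Δ' P : ℝ)) Q := fun P hP hPQ => by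
      obtain ⟨a, ha, ha0⟩ := hlc' P hP hPQ
      exact ⟨a, ha.toReal hy hg0 hb0 fun P' hP' hP'P => hg P' hP' (through_tr hPQ hP'P),
        by exact_mod_cast ha0⟩
    exact hP.semicontinuous hlcR (h n K N y hn hy Q hQ hcl (hlc'.zero hy hΔ' hb0 hcar' hQ))
      (h _ M N' v h4 h3 P hP.div (hP.closed hcl) (hP.lc hlcR))
  · obtain rfl : n = 0 := by omega
    exact absurd hQ (no_divisorial hn hy Q)

theorem kltPair_of_kltVariety (h : ∀ n, KltVarietySemicontinuity n) (n : ℕ) :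
    KltPairSemicontinuity n := by
  intro K _ _ N y Δ hn hy hΔ hcar Q hQ hcl hklt hlc
  by_cases hn1 : 1 ≤ n
  · refine real_semiAt hy hΔ hcar hQ hlc fun Δ' b hb hΔ' hcar' hlc' hklt' => ?_
    obtain ⟨M, _, _, _, _, t, N', v, h1, h2, h3, h4, h5⟩ := mld_removal K hb hn1 hn hy hΔ' hcar'
    obtain ⟨P, hP⟩ := h5 Q hQ
    have hb0 : 0 < b := by omega
    obtain ⟨g, hg0, hg⟩ := hcar' Q hQ
    have hlcR : RLcAt y n (fun P => (Δ' P : ℝ)) Q := fun P hP hPQ => by
      obtain ⟨a, ha, ha0⟩ := hlc' P hP hPQ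
      exact ⟨a, ha.toReal hy hg0 hb0 fun P' hP' hP'P => hg P' hP' (through_tr hPQ hP'P),
        by exact_mod_cast ha0⟩
    exact hP.semicontinuous hlcR (h n K N y hn hy Q hQ hcl hklt)
      (h _ M N' v h4 h3 P hP.div (hP.closed hcl) (hP.klt (hklt' hklt)))
  · obtain rfl : n = 0 := by omega
    exact absurd hQ (no_divisorial hn hy Q)

section zero

variable {K : Type} [Field K] [Algebra ℂ K] {N : ℕ} (y : Fin (N + 1) → K) (n : ℕ)

theorem rEffective_zero : REffective y (0 : Place ℂ K → ℝ) := by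
  refine ⟨fun P _ => le_rfl, Set.finite_empty.subset ?_⟩
  rintro P ⟨-, h0⟩
  exact h0 rfl

theorem rCartier_zero : RCartier y n (0 : Place ℂ K → ℝ) :=
  ⟨0, fun _ => 0, fun _ => 0, fun j => j.elim0, fun P _ => by simp⟩

end zero

/-- **Semicontinuity for pairs and for varieties.** -/
theorem semicontinuity_iff :
    ((∀ n, VarietySemicontinuity n) ↔ ∀ n, PairSemicontinuity n) ∧
    ((∀ n, KltVarietySemicontinuity n) ↔ ∀ n, KltPairSemicontinuity n) := by
  refine ⟨⟨pair_of_variety, fun h n K _ _ N y hn hy Q hQ hcl hlc =>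
    h n K N y 0 hn hy (rEffective_zero y) (rCartier_zero y n) Q hQ hcl hlc⟩,
    ⟨kltPair_of_kltVariety, fun h n K _ _ N y hn hy Q hQ hcl hklt =>
    h n K N y 0 hn hy (rEffective_zero y) (rCartier_zero y n) Q hQ hcl hklt
      fun P hP hPQ => ?_⟩⟩
  obtain ⟨a, ha, ha0⟩ := hklt P hP hPQ
  exact ⟨a, ha, ha0.le⟩

end Pool.Agent.H890
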