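import Pool.Agent.H890.Val
import Pool.Agent.H890.Nrm

/-!
Polynomial rings over the local rings of a normal variety; going down.
-/

set_option autoImplicit false
set_option linter.unusedSectionVars false
set_option linter.overlappingInstances false

open FF MvPolynomial IsLocalRing Pool.Agent.W602.GT Pool.Agent.W603.LV Pool.Agent.Y172
  Pool.Agent.TH122.AB

namespace Pool.Agent.H890

section ring

variable {K L : Type} [Field K] [Field L] [Algebra ℂ K] [Algebra ℂ L] [Algebra K L]
  [IsScalarTower ℂ K L] {r : ℕ} {A : Subalgebra ℂ K} {t : Fin r → L}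

/-- the polynomials in `t` with coefficients in `A` -/
def RR (A : Subalgebra ℂ K) (t : Fin r → L) : Subalgebra ℂ L :=
  Algebra.adjoin ℂ ((algebraMap K L) '' (A : Set K) ∪ Set.range t)

theorem RR_base {a : K} (ha : a ∈ A) : algebraMap K L a ∈ RR A t :=
  Algebra.subset_adjoin (Or.inl ⟨a, ha, rfl⟩)

theorem RR_var (p : Fin r) : t p ∈ RR A t := Algebra.subset_adjoin (Or.inr ⟨p, rfl⟩)

theorem mem_RR {x : L} :
    x ∈ RR A t ↔ ∃ F : MvPolynomial (Fin r) K, (∀ α, F.coeff α ∈ A) ∧ aeval t F = x := by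
  classical
  constructor
  · intro hx
    induction hx using Algebra.adjoin_induction with
    | mem x hx =>
      rcases hx with ⟨a, ha, rfl⟩ | ⟨p, rfl⟩
      · refine ⟨C a, fun α => ?_, by rw [aeval_C]⟩
        rw [coeff_C]
        split_ifs
        · exact ha
        · exact A.zero_mem
      · refine ⟨X p, fun α => ?_, by rw [aeval_X]⟩
        rw [coeff_X]
        split_ifs
        · exact A.one_mem
        · exact A.zero_mem
    | algebraMap c =>
      refine ⟨C (algebraMap ℂ K c), fun α => ?_, by rw [aeval_C, ← IsScalarTower.algebraMap_apply]⟩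
      rw [coeff_C]
      split_ifs
      · exact A.algebraMap_mem c
      · exact A.zero_mem
    | add x y _ _ hx hy =>
      obtain ⟨F, hF, rfl⟩ := hx
      obtain ⟨G, hG, rfl⟩ := hy
      exact ⟨F + G, fun α => by rw [coeff_add]; exact A.add_mem (hF α) (hG α), by rw [map_add]⟩
    | mul x y _ _ hx hy =>
      obtain ⟨F, hF, rfl⟩ := hx
      obtain ⟨G, hG, rfl⟩ := hy
      refine ⟨F * G, fun α => ?_, by rw [map_mul]⟩
      rw [coeff_mul]
      exact A.sum_mem fun x _ => A.mul_mem (hF _) (hG _)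
  · rintro ⟨F, hF, rfl⟩
    rw [aeval_def, eval₂_eq']
    refine (RR A t).sum_mem fun α _ => (RR A t).mul_mem (RR_base (hF α)) ?_
    exact (RR A t).prod_mem fun p _ => (RR A t).pow_mem (RR_var p) _

/-- the ring `A` is the intersection of valuation rings, with quotient field `K` -/
structure CI (A : Subalgebra ℂ K) (S : Set (Place ℂ K)) : Prop where
  mem : ∀ f, f ∈ A ↔ ∀ D ∈ S, D.Reg f
  frac : ∀ f : K, ∃ a ∈ A, ∃ b ∈ A, b ≠ 0 ∧ f * b = a

theorem common_den (hA : ∀ f : K, ∃ a ∈ A, ∃ b ∈ A, b ≠ 0 ∧ f * b = a)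
    (F : MvPolynomial (Fin r) K) : ∃ b ∈ A, b ≠ 0 ∧ ∀ α, b * F.coeff α ∈ A := by
  classical
  have h1 : ∀ s : Finset (Fin r →₀ ℕ), ∃ b ∈ A, b ≠ 0 ∧ ∀ α ∈ s, b * F.coeff α ∈ A := by
    intro s
    induction s using Finset.induction_on with
    | empty => exact ⟨1, A.one_mem, one_ne_zero, fun α hα => by simp at hα⟩
    | insert α s hα ih =>
      obtain ⟨b, hb, hb0, h⟩ := ih
      obtain ⟨a', ha', b', hb', hb0', hab⟩ := hA (F.coeff α)
      refine ⟨b * b', A.mul_mem hb hb', mul_ne_zero hb0 hb0', fun β hβ => ?_⟩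
      rcases Finset.mem_insert.1 hβ with rfl | hβ
      · have : b * b' * F.coeff β = b * a' := by rw [← hab]; ring
        rw [this]
        exact A.mul_mem hb ha'
      · have : b * b' * F.coeff β = b' * (b * F.coeff β) := by ring
        rw [this]
        exact A.mul_mem hb' (h β hβ)
  obtain ⟨b, hb, hb0, h⟩ := h1 F.support
  refine ⟨b, hb, hb0, fun α => ?_⟩
  by_cases hα : α ∈ F.support
  · exact h α hα
  · rw [notMem_support_iff.1 hα, mul_zero]
    exact A.zero_mem

theorem RR_div (ht : Gens (k := K) t) (hA : ∀ f : K, ∃ a ∈ A, ∃ b ∈ A, b ≠ 0 ∧ f * b = a) (x : L) :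
    ∃ a ∈ RR A t, ∃ b ∈ RR A t, b ≠ 0 ∧ x = a / b := by
  obtain ⟨F, G, hG, rfl⟩ := ht.gen x
  obtain ⟨c, hc, hc0, hcF⟩ := common_den hA F
  obtain ⟨d, hd, hd0, hdG⟩ := common_den hA G
  have hc' : algebraMap K L c ≠ 0 := by rwa [Ne, map_eq_zero]
  have hd' : algebraMap K L d ≠ 0 := by rwa [Ne, map_eq_zero]
  have h1 : algebraMap K L c * aeval t F ∈ RR A t := by
    rw [mem_RR]
    exact ⟨C c * F, fun α => by rw [coeff_C_mul]; exact hcF α, by rw [map_mul, aeval_C]⟩
  have h2 : algebraMap K L d * aeval t G ∈ RR A t := by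
    rw [mem_RR]
    exact ⟨C d * G, fun α => by rw [coeff_C_mul]; exact hdG α, by rw [map_mul, aeval_C]⟩
  refine ⟨_, (RR A t).mul_mem (RR_base hd) h1, _, (RR A t).mul_mem (RR_base hc) h2,
    mul_ne_zero hc' (mul_ne_zero hd' (ht.ne hG)), ?_⟩
  have hG' := ht.ne hG
  field_simp

theorem RR_frac (ht : Gens (k := K) t) (hA : ∀ f : K, ∃ a ∈ A, ∃ b ∈ A, b ≠ 0 ∧ f * b = a) :
    IsFractionRing (RR A t) L := by
  refine IsFractionRing.of_field _ L fun z => ?_
  obtain ⟨a, ha, b, hb, -, h⟩ := RR_div ht hA z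
  exact ⟨⟨a, ha⟩, ⟨b, hb⟩, h⟩

theorem RR_closed (ht : Gens (k := K) t) {S : Set (Place ℂ K)} (hA : CI A S) {x : L}
    (hx : IsIntegral (RR A t) x) : x ∈ RR A t := by
  classical
  -- a polynomial
  obtain ⟨F, hF⟩ := poly_of_reg ht (z := x) fun p hp v hv1 hv2 => by
    have h1 : ∀ a ∈ RR A t, algebraMap L L a ∈ v.O := by
      intro a ha
      obtain ⟨G, -, rfl⟩ := mem_RR.1 ha
      change v.Reg (aeval t G)
      by_cases hG : G = 0
      · rw [hG, map_zero]
        exact v.reg_zero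
      · exact Or.inr (hv2 G hG).1
    exact int_mem (M := L) h1 hx
  rw [mem_RR]
  refine ⟨F, fun α => ?_, hF.symm⟩
  rw [hA.mem]
  intro D hD
  obtain ⟨P, hP⟩ := exists_gauss ht D 0
  have hwt : ∀ (c : K) (β : Fin r →₀ ℕ), wt D 1 (0 : Fin r → ℤ) c β = D.ord c := by
    intro c β
    unfold wt
    simp
  have h1 : ∀ a ∈ RR A t, algebraMap L L a ∈ P.O := by
    intro a ha
    obtain ⟨G, hG1, rfl⟩ := mem_RR.1 ha
    change P.Reg (aeval t G)
    by_cases hG : G = 0
    · rw [hG, map_zero]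
      exact P.reg_zero
    · right
      rw [hP G hG, le_mval hG]
      intro β hβ
      rw [hwt]
      exact (D.reg_iff (mem_support_iff.1 hβ)).1 ((hA.mem _).1 (hG1 β) D hD)
  have h2 : P.Reg x := int_mem (M := L) h1 hx
  by_cases hα : F.coeff α = 0
  · rw [hα]
    exact D.reg_zero
  have hF0 : F ≠ 0 := by
    rintro rfl
    exact hα (coeff_zero _)
  rw [hF, P.reg_iff (ht.ne hF0), hP F hF0, le_mval hF0] at h2
  have h3 := h2 α (mem_support_iff.2 hα)
  rw [hwt] at h3
  exact Or.inr h3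

theorem RR_normal (ht : Gens (k := K) t) {S : Set (Place ℂ K)} (hA : CI A S) :
    IsIntegrallyClosed (RR A t) := by
  have := RR_frac ht hA.frac
  rw [isIntegrallyClosed_iff L]
  intro x hx
  exact ⟨⟨x, RR_closed ht hA hx⟩, rfl⟩

/-- derivations which preserve `A` and map the variables into the ring preserve the ring -/
theorem RR_der {D : Derivation ℂ L L} (h1 : ∀ a ∈ A, D (algebraMap K L a) ∈ RR A t)
    (h2 : ∀ p, D (t p) ∈ RR A t) {x : L} (hx : x ∈ RR A t) : D x ∈ RR A t := by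
  have h3 : ∀ x ∈ RR A t, x ∈ RR A t ∧ D x ∈ RR A t := by
    intro x hx
    refine Algebra.adjoin_induction (p := fun x _ => x ∈ RR A t ∧ D x ∈ RR A t) ?_ ?_ ?_ ?_ hx
    · rintro x (⟨a, ha, rfl⟩ | ⟨p, rfl⟩)
      · exact ⟨RR_base ha, h1 a ha⟩
      · exact ⟨RR_var p, h2 p⟩
    · intro c
      refine ⟨(RR A t).algebraMap_mem c, ?_⟩
      rw [D.map_algebraMap]
      exact (RR A t).zero_mem
    · rintro x y _ _ ⟨hx, hx'⟩ ⟨hy, hy'⟩
      exact ⟨(RR A t).add_mem hx hy, by rw [map_add]; exact (RR A t).add_mem hx' hy'⟩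
    · rintro x y _ _ ⟨hx, hx'⟩ ⟨hy, hy'⟩
      refine ⟨(RR A t).mul_mem hx hy, ?_⟩
      rw [D.leibniz]
      exact (RR A t).add_mem ((RR A t).mul_mem hx hy') ((RR A t).mul_mem hy hx')
  exact (h3 x hx).2

/-- derivations which preserve a ring are regular at the places which are its localizations -/
theorem derReg_of_ring {R : Subalgebra ℂ L} {P : Place ℂ L} (hR : ∀ a ∈ R, P.Reg a)
    (hloc : ∀ x, P.Reg x → ∃ a ∈ R, ∃ b ∈ R, b ≠ 0 ∧ P.ord b = 0 ∧ x = a / b)
    {D : Derivation ℂ L L} (hD : ∀ a ∈ R, D a ∈ R) : DerReg P D := by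
  intro x hx
  obtain ⟨a, ha, b, hb, hb0, hbo, rfl⟩ := hloc x hx
  rw [D.leibniz_div]
  simp only [smul_eq_mul]
  refine P.reg_mul (Or.inr (by rw [P.ord_pow, P.ord_inv, hbo]; simp)) ?_
  have h1 : Ge P 0 (b * D a) := by
    have := (show Ge P 0 b from hR b hb).mul (show Ge P 0 (D a) from hR _ (hD a ha))
    rwa [add_zero] at this
  have h2 : Ge P 0 (a * D b) := by
    have := (show Ge P 0 a from hR a ha).mul (show Ge P 0 (D b) from hR _ (hD b hb))
    rwa [add_zero] at this
  exact h1.sub h2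

end ring

section going

variable {L M : Type} [Field L] [Field M] [Algebra ℂ L] [Algebra ℂ M] [Algebra L M]
  [IsScalarTower ℂ L M]

/-- integral elements are regular -/
theorem reg_of_int {R : Subalgebra ℂ L} {P : Place ℂ M}
    (hR : ∀ a ∈ R, P.Reg (algebraMap L M a)) {x : M} (hx : IsIntegral R x) : P.Reg x :=
  int_mem (O := P.O) hR hx

/-- **Going down at a prime divisor.** -/
theorem going (R : Subalgebra ℂ L) [IsIntegrallyClosed R] {P : Place ℂ M}
    (hR : ∀ a ∈ R, P.Reg (algebraMap L M a))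
    (hloc : ∀ f, P.Reg f → ∃ a b : M, IsIntegral R a ∧ IsIntegral R b ∧ b ≠ 0 ∧ P.ord b = 0 ∧
      f * b = a) (q : Ideal R) [q.IsPrime] (hq : q ≠ ⊥)
    (hle : ∀ x ∈ q, x = 0 ∨ 0 < P.ord (algebraMap L M x)) (x : R)
    (hx : x = 0 ∨ 0 < P.ord (algebraMap L M x)) : x ∈ q := by
  let S := integralClosure R M
  have hSreg : ∀ a : S, P.Reg (a : M) := fun a => reg_of_int hR a.2
  let N : Ideal S := Ideal.comap ((algebraMap S M).codRestrict P.O fun a => hSreg a)
    (maximalIdeal P.O)
  have hN : ∀ a : S, a ∈ N ↔ (a = 0 ∨ 0 < P.ord (a : M)) := by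
    intro a
    change ((algebraMap S M).codRestrict P.O fun a => hSreg a) a ∈ maximalIdeal P.O ↔ _
    rw [mem_maximalIdeal, mem_nonunits_iff]
    have h1 := P.isUnit_O_iff (f := (a : M)) (hSreg a)
    have h2 : (((algebraMap S M).codRestrict P.O fun a => hSreg a) a : P.O) =
        ⟨(a : M), hSreg a⟩ := rfl
    rw [h2, h1]
    by_cases hr : a = 0
    · subst hr
      simp
    · have hr' : (a : M) ≠ 0 := fun h => hr (Subtype.ext h)
      have h3 := (P.reg_iff hr').1 (hSreg a)
      simp only [hr, false_or, not_and]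
      constructor
      · intro h
        have := h hr'
        omega
      · intro h _
        omega
  have hNp : N.IsPrime := inferInstance
  let q' : Ideal R := N.under R
  have hq' : ∀ a : R, a ∈ q' ↔ (a = 0 ∨ 0 < P.ord (algebraMap L M a)) := by
    intro a
    change algebraMap R S a ∈ N ↔ _
    rw [hN]
    have h1 : ((algebraMap R S a : S) : M) = algebraMap L M a := rfl
    rw [h1]
    have h2 : algebraMap R S a = 0 ↔ a = 0 := by
      constructor
      · intro h
        have h3 : algebraMap L M (a : L) = 0 := by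
          rw [← h1, h]
          rfl
        rw [map_eq_zero] at h3
        exact Subtype.ext h3
      · rintro rfl
        exact map_zero _
    rw [h2]
  have hfaith : FaithfulSMul R S := by
    rw [faithfulSMul_iff_algebraMap_injective]
    intro a b hab
    have h1 : algebraMap L M (a : L) = algebraMap L M (b : L) := congrArg Subtype.val hab
    exact Subtype.ext ((algebraMap L M).injective h1)
  have hle' : q ≤ q' := fun a ha => (hq' a).2 (hle a ha)
  have hlies : N.LiesOver q' := ⟨rfl⟩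
  obtain ⟨Nq, hNq, hNqp, hNql⟩ := Ideal.exists_ideal_le_liesOver_of_le (R := R) (S := S) (p := q)
    (q := q') N hle'
  -- the prime ideal is the whole centre
  obtain ⟨a, ha, ha0⟩ := (Submodule.ne_bot_iff q).1 hq
  have haS : algebraMap R S a ∈ Nq := by
    have := hNql.over
    rw [this] at ha
    exact ha
  have haM : algebraMap L M (a : L) ≠ 0 := by
    rw [Ne, map_eq_zero]
    exact fun h => ha0 (Subtype.ext h)
  have hxq : x ∈ q' := (hq' x).2 hx
  by_cases hx0 : x = 0
  · rw [hx0]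
    exact q.zero_mem
  have hxM : algebraMap L M (x : L) ≠ 0 := by
    rw [Ne, map_eq_zero]
    exact fun h => hx0 (Subtype.ext h)
  have hxo := hx.resolve_left hx0
  obtain ⟨m, hm⟩ : ∃ m : ℕ, P.ord (algebraMap L M (a : L)) ≤ m :=
    ⟨(P.ord (algebraMap L M (a : L))).toNat, Int.self_le_toNat _⟩
  have h2 : P.Reg (algebraMap L M (x : L) ^ m / algebraMap L M (a : L)) := by
    right
    rw [P.ord_div (pow_ne_zero _ hxM) haM, P.ord_pow]
    nlinarith
  obtain ⟨c, d, hc, hd, hd0, hdo, hcd⟩ := hloc _ h2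
  have hdN : (⟨d, hd⟩ : S) ∉ N := by
    rw [hN]
    rintro (h3 | h3)
    · exact hd0 (congrArg Subtype.val h3)
    · change 0 < P.ord d at h3
      omega
  have h3 : (algebraMap R S x) ^ m * ⟨d, hd⟩ = algebraMap R S a * ⟨c, hc⟩ := by
    apply Subtype.ext
    change algebraMap L M (x : L) ^ m * d = algebraMap L M (a : L) * c
    rw [← hcd]
    field_simp
  have h4 : (algebraMap R S x) ^ m * ⟨d, hd⟩ ∈ Nq := by
    rw [h3]
    exact Ideal.mul_mem_right _ _ haS
  have h5 : algebraMap R S x ∈ Nq := by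
    rcases hNqp.mem_or_mem h4 with h5 | h5
    · exact hNqp.mem_of_pow_mem _ h5
    · exact absurd (hNq h5) hdN
  have := hNql.over
  rw [this]
  exact h5

end going

end Pool.Agent.H890
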