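import Pool.Graph.R_seed8.Y172.UpB

/-!
Generation of the twists of an invertible divisorial sheaf by finitely many functions.
-/

set_option autoImplicit false
set_option linter.unusedSectionVars false
set_option linter.overlappingInstances false

open FF Pool.Agent.W602.GT Pool.Agent.W603.LV Pool.Agent.Y172

namespace Pool.Agent.H890

section

variable {K : Type} [Field K] [Algebra ℂ K] {N : ℕ} {y : Fin (N + 1) → K}

theorem reg_ord_nonneg {P : Place ℂ K} {f : K} (h : P.Reg f) : 0 ≤ P.ord f := by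
  rcases h with rfl | h
  · rw [P.ord_zero]
  · exact h

/-- units of the local rings -/
theorem unit_through {P Q : Place ℂ K} (h : Through y P Q) {f : K}
    (hf : f ∈ localRing y Q) (hf0 : f ≠ 0) (hfo : Q.ord f = 0) : P.ord f = 0 := by
  have h1 := reg_ord_nonneg (h f hf)
  obtain ⟨j, hj, a, ha, b, hb, hb0, hbo, hab⟩ := hf
  have ha0 : a ≠ 0 := by
    rw [← hab]
    exact mul_ne_zero hf0 hb0
  have hao : Q.ord a = 0 := by
    rw [← hab, Q.ord_mul hf0 hb0, hfo, hbo, add_zero]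
  have h2 : f⁻¹ ∈ localRing y Q := by
    refine ⟨j, hj, b, hb, a, ha, ha0, hao, ?_⟩
    rw [← hab]
    field_simp
  have h3 := reg_ord_nonneg (h _ h2)
  rw [P.ord_inv] at h3
  omega

theorem exists_sep {D Q : Place ℂ K} {j : Fin (N + 1)} (hD : Centred y j D)
    (hQ : Centred y j Q) (h : ¬ Through y D Q) :
    ∃ c ∈ chart y j, c ≠ 0 ∧ Q.ord c = 0 ∧ 0 < D.ord c := by
  unfold Through at h
  push Not at h
  obtain ⟨f, hf, hfD⟩ := h
  obtain ⟨a, ha, b, hb, hb0, hbo, hab⟩ := (mem_localRing hQ).1 hf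
  refine ⟨b, hb, hb0, hbo, ?_⟩
  have h1 := reg_ord_nonneg (hD.reg a ha)
  have h2 := reg_ord_nonneg (hD.reg b hb)
  by_contra hcon
  have h3 : D.ord b = 0 := by omega
  apply hfD
  by_cases hf0 : f = 0
  · rw [hf0]
    exact D.reg_zero
  right
  rw [← hab, D.ord_mul hf0 hb0, h3, add_zero] at h1
  exact h1

theorem exists_sep_many {Q : Place ℂ K} {j : Fin (N + 1)}
    (hQ : Centred y j Q) {S : Set (Place ℂ K)} (hS : S.Finite) (hSc : ∀ D ∈ S, Centred y j D)
    (hSt : ∀ D ∈ S, ¬ Through y D Q) (κ : ℕ) :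
    ∃ c ∈ chart y j, c ≠ 0 ∧ Q.ord c = 0 ∧ ∀ D ∈ S, (κ : ℤ) ≤ D.ord c := by
  induction S, hS using Set.Finite.induction_on with
  | empty => exact ⟨1, (chart y j).one_mem, one_ne_zero, Q.ord_one, fun P hP =>
      absurd hP (Set.notMem_empty P)⟩
  | insert _ _ ih =>
    rename_i P S _ _
    obtain ⟨c, hc, hc0, hco, h⟩ := ih (fun Q hQ => hSc Q (Set.mem_insert_of_mem _ hQ))
      fun Q hQ => hSt Q (Set.mem_insert_of_mem _ hQ)
    have hPc := hSc P (Set.mem_insert _ _)
    obtain ⟨d, hd, hd0, hdo, hdP⟩ := exists_sep hPc hQ (hSt P (Set.mem_insert _ _))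
    refine ⟨d ^ κ * c, (chart y j).mul_mem ((chart y j).pow_mem hd _) hc,
      mul_ne_zero (pow_ne_zero _ hd0) hc0, ?_, ?_⟩
    · rw [Q.ord_mul (pow_ne_zero _ hd0) hc0, Q.ord_pow, hdo, hco]
      ring
    · intro D hD
      rw [D.ord_mul (pow_ne_zero _ hd0) hc0, D.ord_pow]
      rcases Set.mem_insert_iff.1 hD with rfl | hD'
      · have h1 := reg_ord_nonneg (hPc.reg c hc)
        have h2 : (κ : ℤ) * 1 ≤ κ * D.ord d :=
          mul_le_mul_of_nonneg_left (by omega) (Int.natCast_nonneg _)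
        omega
      · have h1 := reg_ord_nonneg ((hSc D (Set.mem_insert_of_mem _ hD')).reg d hd)
        have h2 := h D hD'
        have h3 := mul_nonneg (Int.natCast_nonneg κ) h1
        omega

variable {n : ℕ} {G : Place ℂ K → ℤ}

/-- the divisor `G` is effective and Cartier -/
structure Car (y : Fin (N + 1) → K) (n : ℕ) (G : Place ℂ K → ℤ) : Prop where
  nonneg : ∀ P, IsPrimeDivisor y P → 0 ≤ G P
  fin : {P | IsPrimeDivisor y P ∧ G P ≠ 0}.Finite
  loc : ∀ Q, Divisorial n Q → ∃ g : K, g ≠ 0 ∧ ∀ P, IsPrimeDivisor y P → Through y P Q →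
    P.ord g = G P

/-- generation in a chart -/
theorem chart_gen (hy : NormalModel y) (hG : Car y n G) (j : Fin (N + 1)) :
    ∃ T : Finset K, (∀ f ∈ T, f ≠ 0) ∧
      (∀ D, IsPrimeDivisor y D → Centred y j D → ∀ f ∈ T, - G D ≤ D.ord f) ∧
      ∀ Q, Divisorial n Q → Centred y j Q → ∃ f ∈ T, ∀ D, IsPrimeDivisor y D → Through y D Q →
        D.ord f = - G D := by
  classical
  obtain ⟨s, hs, hs0, hsG⟩ := exists_high (y := y) (j := j)
    (S := {P | IsPrimeDivisor y P ∧ Centred y j P ∧ G P ≠ 0})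
    (hG.fin.subset fun P hP => ⟨hP.1, hP.2.2⟩) (fun P hP => hP.2.1) (fun P hP => hP.1)
    (fun P => (G P).toNat)
  have hsG' : ∀ D, IsPrimeDivisor y D → Centred y j D → G D ≤ D.ord s := by
    intro D hD hDj
    by_cases h0 : G D = 0
    · rw [h0]
      exact reg_ord_nonneg (hDj.reg s hs)
    · have := hsG D ⟨hD, hDj, h0⟩
      omega
  -- the ideal
  let I : Ideal (chart y j) :=
    { carrier := {a | ∀ D, IsPrimeDivisor y D → Centred y j D → Ge D (D.ord s - G D) (a : K)}
      add_mem' := fun {a b} ha hb D hD hDj => (ha D hD hDj).add (hb D hD hDj)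
      zero_mem' := fun D _ _ => Or.inl rfl
      smul_mem' := fun c {a} ha D hD hDj => by
        have h1 : Ge D 0 (c : K) := hDj.reg c c.2
        have h2 := h1.mul (ha D hD hDj)
        rw [zero_add] at h2
        exact h2 }
  have hI : ∀ a : chart y j, a ∈ I ↔
      ∀ D, IsPrimeDivisor y D → Centred y j D → Ge D (D.ord s - G D) (a : K) := fun _ => Iff.rfl
  obtain ⟨T, hT⟩ := (isNoetherianRing_iff_ideal_fg (chart y j)).1 inferInstance I
  refine ⟨(T.image fun a : chart y j => (a : K) / s).filter fun f => f ≠ 0, fun f hf =>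
    (Finset.mem_filter.1 hf).2, ?_, ?_⟩
  · intro D hD hDj f hf
    rw [Finset.mem_filter, Finset.mem_image] at hf
    obtain ⟨⟨a, ha, rfl⟩, hf0⟩ := hf
    have ha0 : (a : K) ≠ 0 := by
      intro h0
      rw [h0, zero_div] at hf0
      exact hf0 rfl
    have h1 : a ∈ I := by
      rw [← hT]
      exact Ideal.subset_span ha
    have h2 := ((hI a).1 h1 D hD hDj).resolve_left ha0
    rw [D.ord_div ha0 hs0]
    omega
  · intro Q hQ hQj
    obtain ⟨g, hg0, hg⟩ := hG.loc Q hQ
    have hsg : s / g ∈ localRing y Q := by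
      refine mem_localRing_of_reg hy fun D hD hDQ => Or.inr ?_
      rw [D.ord_div hs0 hg0, hg D hD hDQ]
      have := hsG' D hD (hDQ.centred hQj)
      omega
    obtain ⟨a₁, ha₁, b₁, hb₁, hb₁0, hb₁o, hab₁⟩ := (mem_localRing hQj).1 hsg
    have hsg0 : s / g ≠ 0 := div_ne_zero hs0 hg0
    have ha₁0 : a₁ ≠ 0 := by
      rw [← hab₁]
      exact mul_ne_zero hsg0 hb₁0
    -- the bad places
    have hBfin : {D | IsPrimeDivisor y D ∧ Centred y j D ∧ ¬ Through y D Q ∧
        (D.ord s ≠ 0 ∨ G D ≠ 0)}.Finite := by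
      refine ((finite_ord hy hs0).union hG.fin).subset ?_
      rintro D ⟨hD, -, -, h | h⟩
      · exact Or.inl ⟨hD, h⟩
      · exact Or.inr ⟨hD, h⟩
    obtain ⟨κ, hκ⟩ : ∃ κ : ℕ, ∀ D ∈ {D | IsPrimeDivisor y D ∧ Centred y j D ∧ ¬ Through y D Q ∧
        (D.ord s ≠ 0 ∨ G D ≠ 0)}, D.ord s - G D ≤ κ := by
      obtain ⟨κ, hκ⟩ := (hBfin.image fun D => (D.ord s - G D).toNat).bddAbove
      refine ⟨κ, fun D hD => ?_⟩
      have h1 : (D.ord s - G D).toNat ≤ κ := hκ ⟨D, hD, rfl⟩
      omega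
    obtain ⟨c, hc, hc0, hco, hcB⟩ := exists_sep_many hQj hBfin (fun D hD => hD.2.1)
      (fun D hD => hD.2.2.1) κ
    have haI : (⟨a₁ * c, (chart y j).mul_mem ha₁ hc⟩ : chart y j) ∈ I := by
      rw [hI]
      intro D hD hDj
      right
      change D.ord s - G D ≤ D.ord (a₁ * c)
      rw [D.ord_mul ha₁0 hc0]
      have h1 := reg_ord_nonneg (hDj.reg a₁ ha₁)
      have h2 := reg_ord_nonneg (hDj.reg c hc)
      by_cases hDQ : Through y D Q
      · have h3 := congrArg D.ord hab₁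
        rw [D.ord_mul hsg0 hb₁0, D.ord_div hs0 hg0, hg D hD hDQ] at h3
        have h4 := reg_ord_nonneg (hDj.reg b₁ hb₁)
        omega
      · by_cases hbad : D.ord s ≠ 0 ∨ G D ≠ 0
        · have h3 := hcB D ⟨hD, hDj, hDQ, hbad⟩
          have h4 := hκ D ⟨hD, hDj, hDQ, hbad⟩
          omega
        · push Not at hbad
          omega
    -- elements of the ideal times `g / s`
    have hreg : ∀ a : chart y j, a ∈ I → (a : K) * (g / s) ∈ localRing y Q := by
      intro a ha
      refine mem_localRing_of_reg hy fun D hD hDQ => ?_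
      by_cases ha0 : (a : K) = 0
      · rw [ha0, zero_mul]
        exact D.reg_zero
      right
      have h1 := ((hI a).1 ha D hD (hDQ.centred hQj)).resolve_left ha0
      rw [D.ord_mul ha0 (div_ne_zero hg0 hs0), D.ord_div hg0 hs0, hg D hD hDQ]
      omega
    have hex : ∃ a ∈ T, ¬ Ge Q 1 ((a : K) * (g / s)) := by
      by_contra hcon
      push Not at hcon
      have h1 : ∀ a ∈ I, Ge Q 1 ((a : K) * (g / s)) := by
        intro a ha
        rw [← hT] at ha
        refine Submodule.span_induction (p := fun (a : chart y j) _ => Ge Q 1 ((a : K) * (g / s))) ?_ ?_ ?_ ?_ ha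
        · intro a ha
          exact hcon a ha
        · exact Or.inl (by simp)
        · intro a b _ _ ha hb
          have : ((a + b : chart y j) : K) * (g / s) = (a : K) * (g / s) + (b : K) * (g / s) := by
            push_cast
            ring
          rw [this]
          exact ha.add hb
        · intro c a _ ha
          have : ((c • a : chart y j) : K) * (g / s) = (c : K) * ((a : K) * (g / s)) := by
            rw [smul_eq_mul]
            push_cast
            ring
          rw [this]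
          have h2 : Ge Q 0 (c : K) := hQj.reg c c.2
          have h3 := h2.mul ha
          rwa [zero_add] at h3
      have h2 := h1 _ haI
      have h3 : ((⟨a₁ * c, (chart y j).mul_mem ha₁ hc⟩ : chart y j) : K) * (g / s) = b₁ * c := by
        change a₁ * c * (g / s) = b₁ * c
        rw [← hab₁]
        field_simp
      rw [h3] at h2
      rcases h2 with h4 | h4
      · exact mul_ne_zero hb₁0 hc0 h4
      · rw [Q.ord_mul hb₁0 hc0, hb₁o, hco] at h4
        omega
    obtain ⟨a, haT, ha⟩ := hex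
    have haI' : a ∈ I := by
      rw [← hT]
      exact Ideal.subset_span haT
    have ha0 : (a : K) ≠ 0 := by
      intro h0
      apply ha
      left
      rw [h0, zero_mul]
    have hags0 : (a : K) * (g / s) ≠ 0 := mul_ne_zero ha0 (div_ne_zero hg0 hs0)
    have hao : Q.ord ((a : K) * (g / s)) = 0 := by
      have h1 := reg_ord_nonneg (localRing_reg (hreg a haI'))
      have h2 : ¬ (1 : ℤ) ≤ Q.ord ((a : K) * (g / s)) := fun h => ha (Or.inr h)
      omega
    refine ⟨(a : K) / s, Finset.mem_filter.2 ⟨Finset.mem_image.2 ⟨a, haT, rfl⟩,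
      div_ne_zero ha0 hs0⟩, fun D hD hDQ => ?_⟩
    have h1 := unit_through hDQ (hreg a haI') hags0 hao
    rw [D.ord_mul ha0 (div_ne_zero hg0 hs0), D.ord_div hg0 hs0, hg D hD hDQ] at h1
    rw [D.ord_div ha0 hs0]
    omega

/-- a finite set of functions which generates `c H + G` -/
structure Fam (y : Fin (N + 1) → K) (n : ℕ) (G : Place ℂ K → ℤ) (c : ℕ) (F : Finset K) : Prop where
  ne : ∀ f ∈ F, f ≠ 0
  non : F.Nonempty
  low : ∀ D, IsPrimeDivisor y D → ∀ j, Centred y j D → ∀ f ∈ F, c * D.ord (y j) - G D ≤ D.ord f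
  gen : ∀ Q, Divisorial n Q → ∃ f ∈ F, ∀ D, IsPrimeDivisor y D → Through y D Q →
    ∀ j, Centred y j D → D.ord f = c * D.ord (y j) - G D
  mul : ∀ f ∈ F, ∃ a, y a ≠ 0 ∧ ∀ a', y a' ≠ 0 → f * (y a' / y a) ∈ F

theorem cen_ord {D : Place ℂ K} {i j : Fin (N + 1)} (h : Centred y j D) (hi : y i ≠ 0) :
    D.ord (y j) ≤ D.ord (y i) := by
  have h1 := (D.reg_iff (div_ne_zero hi h.1)).1 (h.2 i)
  rw [D.ord_div hi h.1] at h1
  omega

theorem cen_eq {D : Place ℂ K} {i j : Fin (N + 1)} (h : Centred y j D) (h' : Centred y i D) :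
    D.ord (y j) = D.ord (y i) := le_antisymm (cen_ord h h'.1) (cen_ord h' h.1)

/-- **Generation.** -/
theorem exists_fam (hy : NormalModel y) (hG : Car y n G) :
    ∃ (c₀ : ℕ), ∀ c, c₀ ≤ c → ∃ F : Finset K, Fam y n G c F := by
  classical
  choose T hT0 hTlow hTgen using fun j => chart_gen hy hG j
  have hfin : ∀ j, {D | IsPrimeDivisor y D ∧ ∃ f ∈ T j, D.ord f < 0}.Finite := by
    intro j
    have h1 : {D | IsPrimeDivisor y D ∧ ∃ f ∈ T j, D.ord f < 0} ⊆
        ⋃ f ∈ (T j : Set K), {D | IsPrimeDivisor y D ∧ D.ord f ≠ 0} := by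
      rintro D ⟨hD, f, hf, h⟩
      refine Set.mem_iUnion₂.2 ⟨f, hf, hD, ?_⟩
      omega
    refine Set.Finite.subset ?_ h1
    exact Set.Finite.biUnion (T j).finite_toSet fun f hf => finite_ord hy (hT0 j f hf)
  have hκ : ∀ j, ∃ κ : ℕ, ∀ D, IsPrimeDivisor y D → ∀ f ∈ T j, - (κ : ℤ) ≤ D.ord f := by
    intro j
    obtain ⟨κ, hκ⟩ := ((hfin j).image fun D => (T j).sup fun f => (- D.ord f).toNat).bddAbove
    refine ⟨κ, fun D hD f hf => ?_⟩
    by_cases h0 : 0 ≤ D.ord f
    · have := Int.natCast_nonneg κ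
      omega
    · have h1 : ((T j).sup fun f => (- D.ord f).toNat) ≤ κ :=
        hκ ⟨D, ⟨hD, f, hf, by omega⟩, rfl⟩
      have h2 : (- D.ord f).toNat ≤ (T j).sup fun f => (- D.ord f).toNat :=
        Finset.le_sup (f := fun f => (- D.ord f).toNat) hf
      omega
  choose κ hκ using hκ
  refine ⟨(Finset.univ.sup κ) + 1, fun c hc => ?_⟩
  obtain ⟨k, hk⟩ : ∃ k, c = k + 1 := ⟨c - 1, by omega⟩
  have hkκ : ∀ j, κ j ≤ k := fun j => by
    have := Finset.le_sup (f := κ) (Finset.mem_univ j)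
    omega
  obtain ⟨J, hJ⟩ : ∃ J : Finset (Fin (N + 1)), J = Finset.univ.filter fun j => y j ≠ 0 := ⟨_, rfl⟩
  have hJ' : ∀ j, j ∈ J ↔ y j ≠ 0 := fun j => by rw [hJ]; simp
  let E : Finset K := J.biUnion fun j => insert (y j ^ k) ((T j).image fun f => y j ^ k * f)
  have hE : ∀ e, e ∈ E ↔ ∃ j, y j ≠ 0 ∧ (e = y j ^ k ∨ ∃ f ∈ T j, y j ^ k * f = e) := by
    intro e
    simp only [E, Finset.mem_biUnion, Finset.mem_insert, Finset.mem_image, hJ']
  have hE0 : ∀ e ∈ E, e ≠ 0 := by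
    intro e he
    obtain ⟨j, hj, rfl | ⟨f, hf, rfl⟩⟩ := (hE e).1 he
    · exact pow_ne_zero _ hj
    · exact mul_ne_zero (pow_ne_zero _ hj) (hT0 j f hf)
  have hElow : ∀ D, IsPrimeDivisor y D → ∀ j, Centred y j D → ∀ e ∈ E,
      k * D.ord (y j) - G D ≤ D.ord e := by
    intro D hD j hj e he
    have hGD := hG.nonneg D hD
    obtain ⟨i, hi, rfl | ⟨f, hf, rfl⟩⟩ := (hE e).1 he
    · rw [D.ord_pow]
      have h1 := mul_le_mul_of_nonneg_left (cen_ord hj hi) (Int.natCast_nonneg k)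
      linarith
    · rw [D.ord_mul (pow_ne_zero _ hi) (hT0 i f hf), D.ord_pow]
      by_cases hci : Centred y i D
      · rw [cen_eq hj hci]
        have := hTlow i D hD hci f hf
        linarith
      · have h1 : D.ord (y j) + 1 ≤ D.ord (y i) := by
          have h2 := cen_ord hj hi
          by_contra hcon
          have h3 : D.ord (y j) = D.ord (y i) := by omega
          apply hci
          refine ⟨hi, fun i' => ?_⟩
          by_cases hi' : y i' = 0
          · rw [hi', zero_div]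
            exact D.reg_zero
          · right
            rw [D.ord_div hi' hi]
            have := cen_ord hj hi'
            omega
        have h2 := hκ i D hD f hf
        have h3 : (κ i : ℤ) ≤ k := by exact_mod_cast hkκ i
        have h4 := mul_le_mul_of_nonneg_left h1 (Int.natCast_nonneg k)
        nlinarith
  let F : Finset K := J.biUnion fun a => E.image fun e => y a * e
  have hF : ∀ f, f ∈ F ↔ ∃ a, y a ≠ 0 ∧ ∃ e ∈ E, y a * e = f := by
    intro f
    simp only [F, Finset.mem_biUnion, Finset.mem_image, hJ']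
  refine ⟨F, ?_, ?_, ?_, ?_, ?_⟩
  · intro f hf
    obtain ⟨a, ha, e, he, rfl⟩ := (hF f).1 hf
    exact mul_ne_zero ha (hE0 e he)
  · obtain ⟨j, hj⟩ := hy.ne
    exact ⟨y j * y j ^ k, (hF _).2 ⟨j, hj, _, (hE _).2 ⟨j, hj, Or.inl rfl⟩, rfl⟩⟩
  · intro D hD j hj f hf
    obtain ⟨a, ha, e, he, rfl⟩ := (hF f).1 hf
    rw [D.ord_mul ha (hE0 e he), hk]
    have h1 := hElow D hD j hj e he
    have h2 := cen_ord hj ha
    push_cast
    linarith
  · intro Q hQ
    obtain ⟨i, hi⟩ := exists_centred hy Q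
    obtain ⟨f, hf, hfD⟩ := hTgen i Q hQ hi
    have hfe : y i ^ k * f ∈ E := (hE _).2 ⟨i, hi.1, Or.inr ⟨f, hf, rfl⟩⟩
    refine ⟨y i * (y i ^ k * f), (hF _).2 ⟨i, hi.1, _, hfe, rfl⟩, fun D hD hDQ j hj => ?_⟩
    rw [D.ord_mul hi.1 (hE0 _ hfe), D.ord_mul (pow_ne_zero _ hi.1) (hT0 i f hf), D.ord_pow,
      hfD D hD hDQ, hk, cen_eq hj (hDQ.centred hi)]
    push_cast
    ring
  · intro f hf
    obtain ⟨a, ha, e, he, rfl⟩ := (hF f).1 hf
    refine ⟨a, ha, fun a' ha' => (hF _).2 ⟨a', ha', e, he, ?_⟩⟩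
    field_simp

end

end Pool.Agent.H890
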