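import Pool.Agent.H890.Sys
import Pool.Agent.H890.RR
import Pool.Agent.H890.Ser
import Pool.Agent.H890.Unr

/-!
The model of the covering space of a projective bundle, and its horizontal prime divisors.
-/

set_option autoImplicit false
set_option linter.unusedSectionVars false
set_option linter.overlappingInstances false

open FF MvPolynomial IsLocalRing Pool.Agent.W602.GT Pool.Agent.W603.LV Pool.Agent.Y172
  Pool.Agent.TH122.AB Pool.Agent.R887

namespace Pool.Agent.H890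

/-- the data of the model -/
structure Mod (K L M : Type) [Field K] [Field L] [Field M] [Algebra ℂ K] [Algebra ℂ L]
    [Algebra ℂ M] [Algebra K L] [Algebra L M] {N : ℕ} (y : Fin (N + 1) → K) (n r : ℕ)
    (G : Place ℂ K → ℤ) where
  l : Fin (r + 2) → L
  wt : Fin (r + 2) → ℤ
  c : ℕ
  F : Fin (r + 1) → Finset K
  s : ℕ
  N' : ℕ
  d : ℕ
  u : Fin (s + 1) → L
  v : Fin (N' + 1) → M
  j : Fin (s + 1) → Fin (N' + 1)
  ny : NormalModel y
  car : Car y n G
  sys : Sys l
  gens : Gens (k := K) (ts l 1)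
  wt0 : wt 0 = 0
  wtl : wt (Fin.last (r + 1)) = 0
  wt01 : ∀ k, wt k = 0 ∨ wt k = 1
  fam : ∀ i, Fam y n (fun P => wt i.castSucc * G P) c (F i)
  ran : ∀ x, x ∈ Set.range u ↔ ∃ i, ∃ f ∈ F i, x = l i.castSucc * algebraMap K L f
  nv : NormalModel v
  dpos : 0 < d
  vj : ∀ c, v (j c) = algebraMap L M (u c) ^ d
  chart_iff : ∀ c x, x ∈ chart v (j c) ↔ IsIntegral (chart u c) x

section int

variable {L M : Type} [Field L] [Field M] [Algebra ℂ L] [Algebra ℂ M] [Algebra L M]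
  [IsScalarTower ℂ L M]

theorem int_mono {A B : Subalgebra ℂ L} (h : A ≤ B) {x : M} (hx : IsIntegral A x) :
    IsIntegral B x := by
  obtain ⟨p, hp, hpx⟩ := hx
  refine ⟨p.map (Subalgebra.inclusion h : A →+* B), hp.map _, ?_⟩
  rw [Polynomial.eval₂_map, ← hpx]
  rfl

end int

section

variable {K L M : Type} [Field K] [Field L] [Field M] [Algebra ℂ K] [Algebra ℂ L]
  [Algebra ℂ M] [Algebra K L] [Algebra L M] [Algebra K M] [IsScalarTower ℂ K L]
  [IsScalarTower ℂ L M] [IsScalarTower ℂ K M] [IsScalarTower K L M] [FiniteDimensional L M]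
  {N : ℕ} {y : Fin (N + 1) → K} {n r : ℕ} {G : Place ℂ K → ℤ}

variable (S : Mod K L M y n r G)

theorem Mod.u_eq (c : Fin (S.s + 1)) : ∃ i, ∃ f ∈ S.F i, S.u c = S.l i.castSucc * algebraMap K L f :=
  (S.ran _).1 ⟨c, rfl⟩

theorem Mod.exists_u (i : Fin (r + 1)) {f : K} (hf : f ∈ S.F i) :
    ∃ c, S.u c = S.l i.castSucc * algebraMap K L f := (S.ran _).2 ⟨i, f, hf, rfl⟩

theorem Mod.u_ne (c : Fin (S.s + 1)) : S.u c ≠ 0 := by
  obtain ⟨i, f, hf, h⟩ := S.u_eq c
  rw [h]
  refine mul_ne_zero (S.sys.ne _) ?_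
  rw [Ne, map_eq_zero]
  exact (S.fam i).ne f hf

theorem Mod.uM_ne (c : Fin (S.s + 1)) : algebraMap L M (S.u c) ≠ 0 := by
  rw [Ne, map_eq_zero]
  exact S.u_ne c

/-- `c` is the index of a chart which contains the centre -/
def Mod.Cen (c : Fin (S.s + 1)) (P : Place ℂ M) : Prop :=
  ∀ c', P.ord (algebraMap L M (S.u c)) ≤ P.ord (algebraMap L M (S.u c'))

theorem Mod.exists_cen (P : Place ℂ M) : ∃ c, S.Cen c P := by
  obtain ⟨c, -, hc⟩ := Finset.exists_min_image Finset.univ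
    (fun c => P.ord (algebraMap L M (S.u c))) ⟨0, Finset.mem_univ _⟩
  exact ⟨c, fun c' => hc c' (Finset.mem_univ _)⟩

theorem Mod.Cen.chart_reg {c : Fin (S.s + 1)} {P : Place ℂ M} (h : S.Cen c P) :
    ∀ a ∈ chart S.u c, P.Reg (algebraMap L M a) := by
  intro a ha
  induction ha using Algebra.adjoin_induction with
  | mem x hx =>
    obtain ⟨i, rfl⟩ := hx
    right
    rw [map_div₀, P.ord_div (S.uM_ne _) (S.uM_ne _)]
    have := h i
    omega
  | algebraMap z =>
    rw [← IsScalarTower.algebraMap_apply]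
    exact P.reg_const z
  | add x y _ _ hx hy =>
    rw [map_add]
    exact P.reg_add hx hy
  | mul x y _ _ hx hy =>
    rw [map_mul]
    exact P.reg_mul hx hy

theorem Mod.vj_ne (c : Fin (S.s + 1)) : S.v (S.j c) ≠ 0 := by
  rw [S.vj]
  exact pow_ne_zero _ (S.uM_ne c)

theorem Mod.Cen.centred {c : Fin (S.s + 1)} {P : Place ℂ M} (h : S.Cen c P) :
    Centred S.v (S.j c) P :=
  ⟨S.vj_ne c, fun i => reg_of_int h.chart_reg ((S.chart_iff c _).1 (gen_mem S.v (S.j c) i))⟩

theorem Mod.cen_of_centred {c : Fin (S.s + 1)} {P : Place ℂ M} (h : Centred S.v (S.j c) P) :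
    S.Cen c P := by
  intro c'
  have h1 := (P.reg_iff (div_ne_zero (S.vj_ne c') (S.vj_ne c))).1 (h.2 (S.j c'))
  rw [S.vj, S.vj, P.ord_div (pow_ne_zero _ (S.uM_ne _)) (pow_ne_zero _ (S.uM_ne _)), P.ord_pow,
    P.ord_pow] at h1
  have h2 : (0 : ℤ) < S.d := by exact_mod_cast S.dpos
  by_contra hcon
  push Not at hcon
  nlinarith

/-- prime divisors and rings which contain the chart -/
theorem Mod.loc {c : Fin (S.s + 1)} {P : Place ℂ M} (h : S.Cen c P)
    (hP : IsPrimeDivisor S.v P) {R : Subalgebra ℂ L} (hR : chart S.u c ≤ R) :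
    ∀ f, P.Reg f → ∃ a b : M, IsIntegral R a ∧ IsIntegral R b ∧ b ≠ 0 ∧ P.ord b = 0 ∧
      f * b = a := by
  intro f hf
  obtain ⟨a, ha, b, hb, hb0, hbo, hab⟩ := (mem_localRing h.centred).1 (hP f hf)
  exact ⟨a, b, int_mono hR ((S.chart_iff c a).1 ha), int_mono hR ((S.chart_iff c b).1 hb), hb0,
    hbo, hab⟩

/-- elements of the charts of `X` -/
theorem Mod.y_mem (c : Fin (S.s + 1)) : ∃ a, y a ≠ 0 ∧ ∀ x ∈ chart y a,
    algebraMap K L x ∈ chart S.u c := by
  obtain ⟨i, f, hf, h⟩ := S.u_eq c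
  obtain ⟨a, ha, hfa⟩ := (S.fam i).mul f hf
  refine ⟨a, ha, fun x hx => ?_⟩
  induction hx using Algebra.adjoin_induction with
  | mem x hx =>
    obtain ⟨a', rfl⟩ := hx
    by_cases ha' : y a' = 0
    · change algebraMap K L (y a' / y a) ∈ _
      rw [ha', zero_div, map_zero]
      exact Subalgebra.zero_mem _
    · obtain ⟨c', hc'⟩ := S.exists_u i (hfa a' ha')
      have h1 : algebraMap K L (y a' / y a) = S.u c' / S.u c := by
        have hf0 : algebraMap K L f ≠ 0 := by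
          rw [Ne, map_eq_zero]
          exact (S.fam i).ne f hf
        have hl0 := S.sys.ne i.castSucc
        rw [hc', h, map_mul, mul_div_mul_left _ _ hl0, mul_comm, mul_div_assoc, div_self hf0,
          mul_one]
      change algebraMap K L (y a' / y a) ∈ _
      rw [h1]
      exact gen_mem S.u c c'
  | algebraMap z =>
    rw [← IsScalarTower.algebraMap_apply]
    exact Subalgebra.algebraMap_mem _ z
  | add x y _ _ hx hy =>
    rw [map_add]
    exact Subalgebra.add_mem _ hx hy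
  | mul x y _ _ hx hy =>
    rw [map_mul]
    exact Subalgebra.mul_mem _ hx hy

theorem Mod.chart_base {c : Fin (S.s + 1)} {a : Fin (N + 1)}
    (ha : ∀ x ∈ chart y a, algebraMap K L x ∈ chart S.u c) {x : K} (hx : x ∈ chart y a) :
    algebraMap K M x ∈ chart S.v (S.j c) := by
  rw [S.chart_iff, IsScalarTower.algebraMap_apply K L M]
  exact isIntegral_algebraMap (R := chart S.u c) (A := M) (x := ⟨_, ha x hx⟩)

/-- the local ring of `X` is contained in the local ring of the model -/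
theorem Mod.local_le {P : Place ℂ M} {Q : Place ℂ K} {e : ℕ} (h : Over P Q e) {f : K}
    (hf : f ∈ localRing y Q) : algebraMap K M f ∈ localRing S.v P := by
  obtain ⟨c, hc⟩ := S.exists_cen P
  obtain ⟨a, ha0, ha⟩ := S.y_mem c
  have haQ : Centred y a Q := by
    refine ⟨ha0, fun i => ?_⟩
    rw [← h.reg]
    exact hc.centred.reg _ (S.chart_base ha (gen_mem y a i))
  obtain ⟨x, hx, z, hz, hz0, hzo, hxz⟩ := (mem_localRing haQ).1 hf
  refine ⟨S.j c, hc.centred, _, S.chart_base ha hx, _, S.chart_base ha hz, ?_, ?_, ?_⟩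
  · rwa [Ne, map_eq_zero]
  · rw [h.2, hzo, mul_zero]
  · rw [← map_mul, hxz]

theorem Mod.local_triv {P : Place ℂ M} (h : ∀ f : K, P.ord (algebraMap K M f) = 0) (f : K) :
    algebraMap K M f ∈ localRing S.v P := by
  obtain ⟨c, hc⟩ := S.exists_cen P
  obtain ⟨a, ha0, ha⟩ := S.y_mem c
  have := S.ny.frac ha0
  obtain ⟨x, z, hz, hxz⟩ := IsFractionRing.div_surjective (chart y a) f
  have hz0 : (z : K) ≠ 0 := fun h0 => nonZeroDivisors.ne_zero hz (Subtype.ext h0)
  refine ⟨S.j c, hc.centred, _, S.chart_base ha x.2, _, S.chart_base ha z.2, ?_, h _, ?_⟩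
  · rwa [Ne, map_eq_zero]
  · rw [← map_mul, ← hxz]
    congr 1
    change (x : K) / z * z = x
    field_simp

end

section hor

variable {K L : Type} [Field K] [Field L] [Algebra ℂ K] [Algebra ℂ L] [Algebra K L]
  [IsScalarTower ℂ K L] {r : ℕ} {t : Fin r → L}

theorem mem_RR_top {x : L} : x ∈ RR (⊤ : Subalgebra ℂ K) t ↔ ∃ F : MvPolynomial (Fin r) K,
    aeval t F = x := by
  rw [mem_RR]
  constructor
  · rintro ⟨F, -, h⟩
    exact ⟨F, h⟩
  · rintro ⟨F, h⟩
    exact ⟨F, fun _ => Algebra.mem_top, h⟩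

theorem ci_top : CI (⊤ : Subalgebra ℂ K) (∅ : Set (Place ℂ K)) :=
  ⟨fun _ => ⟨fun _ D hD => absurd hD (Set.notMem_empty D), fun _ => Algebra.mem_top⟩,
    fun f => ⟨f, Algebra.mem_top, 1, Algebra.mem_top, one_ne_zero, mul_one f⟩⟩

/-- the ring of polynomials -/
noncomputable def polyEquiv (ht : Gens (k := K) t) :
    MvPolynomial (Fin r) K ≃+* RR (⊤ : Subalgebra ℂ K) t :=
  RingEquiv.ofBijective
    (((aeval t : MvPolynomial (Fin r) K →ₐ[K] L) : MvPolynomial (Fin r) K →+* L).codRestrict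
      (RR (⊤ : Subalgebra ℂ K) t).toSubring fun F => mem_RR_top.2 ⟨F, rfl⟩)
    ⟨fun F F' h => ht.inj (congrArg Subtype.val h), fun x => by
      obtain ⟨F, hF⟩ := mem_RR_top.1 x.2
      exact ⟨F, Subtype.ext hF⟩⟩

theorem polyEquiv_val (ht : Gens (k := K) t) (F : MvPolynomial (Fin r) K) :
    ((polyEquiv ht F : RR (⊤ : Subalgebra ℂ K) t) : L) = aeval t F := rfl

variable {M : Type} [Field M] [Algebra ℂ M] [Algebra L M] [IsScalarTower ℂ L M]

/-- **Horizontal prime divisors.** -/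
theorem hor_prime (ht : Gens (k := K) t) {P : Place ℂ M} {P₁ : Place ℂ L} {e : ℕ}
    (h : Over P P₁ e) (htr : ∀ f : K, P₁.ord (algebraMap K L f) = 0) (hreg : ∀ p, P₁.Reg (t p))
    (hloc : ∀ f, P.Reg f → ∃ a b : M, IsIntegral (RR (⊤ : Subalgebra ℂ K) t) a ∧
      IsIntegral (RR (⊤ : Subalgebra ℂ K) t) b ∧ b ≠ 0 ∧ P.ord b = 0 ∧ f * b = a) :
    (∀ x, P₁.Reg x → ∃ a ∈ RR (⊤ : Subalgebra ℂ K) t, ∃ b ∈ RR (⊤ : Subalgebra ℂ K) t,
      b ≠ 0 ∧ P₁.ord b = 0 ∧ x = a / b) ∧
    (∀ p, P₁.ord (t p) = 0 ∨ P₁.ord (t p) = 1) ∧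
    (∀ p p', P₁.ord (t p) = 1 → P₁.ord (t p') = 1 → p = p') := by
  classical
  have he : (0 : ℤ) < e := by exact_mod_cast h.1
  have hpoly : ∀ F : MvPolynomial (Fin r) K, P₁.Reg (aeval t F) := by
    intro F
    rw [aeval_def, eval₂_eq']
    refine Ge.sum (P := P₁) (N := 0) _ _ fun α _ => ?_
    have h1 : Ge P₁ 0 (algebraMap K L (F.coeff α)) := Or.inr (htr _).ge
    have h2 : Ge P₁ 0 (∏ i, t i ^ α i) := by
      have := Ge.prod (P := P₁) Finset.univ (fun i => t i ^ α i) (fun _ => 0) fun i _ => by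
        have := (show Ge P₁ 0 (t i) from hreg i).pow (α i)
        rwa [mul_zero] at this
      simpa using this
    have h3 := h1.mul h2
    rwa [add_zero] at h3
  have hRreg : ∀ a ∈ RR (⊤ : Subalgebra ℂ K) t, P.Reg (algebraMap L M a) := by
    intro a ha
    obtain ⟨F, rfl⟩ := mem_RR_top.1 ha
    exact h.reg.2 (hpoly F)
  have hnor : IsIntegrallyClosed (RR (⊤ : Subalgebra ℂ K) t) := RR_normal ht ci_top
  -- an irreducible polynomial
  have hnn : ∀ F : MvPolynomial (Fin r) K, 0 ≤ P₁.ord (aeval t F) := fun F =>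
    reg_ord_nonneg (hpoly F)
  have hex : ∃ F : MvPolynomial (Fin r) K, F ≠ 0 ∧ 0 < P₁.ord (aeval t F) := by
    obtain ⟨z, hz0, hz⟩ := P₁.surj
    obtain ⟨F, F', hF', rfl⟩ := ht.gen z
    have hF : F ≠ 0 := by
      rintro rfl
      apply hz0
      rw [map_zero, zero_div]
    refine ⟨F, hF, ?_⟩
    rw [P₁.ord_div (ht.ne hF) (ht.ne hF')] at hz
    have := hnn F'
    omega
  have hirr : ∀ F : MvPolynomial (Fin r) K, F ≠ 0 → 0 < P₁.ord (aeval t F) →
      ∃ H : MvPolynomial (Fin r) K, Irreducible H ∧ 0 < P₁.ord (aeval t H) ∧ H ∣ F := by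
    intro F
    refine WfDvdMonoid.induction_on_irreducible (motive := fun F => F ≠ 0 → 0 < P₁.ord (aeval t F) →
      ∃ H : MvPolynomial (Fin r) K, Irreducible H ∧ 0 < P₁.ord (aeval t H) ∧ H ∣ F) F ?_ ?_ ?_
    · intro h0
      exact absurd rfl h0
    · intro F hF _ hpos
      exfalso
      obtain ⟨a, ha, hFa⟩ := MvPolynomial.isUnit_iff_eq_C_of_isReduced.1 hF
      rw [hFa, aeval_C, htr] at hpos
      exact lt_irrefl _ hpos
    · intro F H hF hH ih _ hpos
      have hH0 := hH.ne_zero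
      by_cases h1 : 0 < P₁.ord (aeval t H)
      · exact ⟨H, hH, h1, dvd_mul_right _ _⟩
      · rw [map_mul, P₁.ord_mul (ht.ne hH0) (ht.ne hF)] at hpos
        obtain ⟨H', hH', hpos', hdvd⟩ := ih hF (by omega)
        exact ⟨H', hH', hpos', hdvd.mul_left _⟩
  obtain ⟨F₀, hF₀, hF₀pos⟩ := hex
  obtain ⟨H, hH, hHpos, -⟩ := hirr F₀ hF₀ hF₀pos
  have hHp : Prime H := hH.prime
  -- going down
  have hall : ∀ F : MvPolynomial (Fin r) K, 0 < P₁.ord (aeval t F) → H ∣ F := by
    intro F hF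
    let q : Ideal (RR (⊤ : Subalgebra ℂ K) t) :=
      (Ideal.span {H}).comap (polyEquiv ht).symm.toRingHom
    have hqp : (Ideal.span {H}).IsPrime := (Ideal.span_singleton_prime hHp.ne_zero).2 hHp
    have hqp' : q.IsPrime := Ideal.comap_isPrime _ _
    have hq : ∀ F : MvPolynomial (Fin r) K, polyEquiv ht F ∈ q ↔ H ∣ F := by
      intro F
      change (polyEquiv ht).symm (polyEquiv ht F) ∈ Ideal.span {H} ↔ _
      rw [RingEquiv.symm_apply_apply, Ideal.mem_span_singleton]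
    have hq0 : q ≠ ⊥ := by
      intro h0
      have h1 : polyEquiv ht H ∈ q := (hq H).2 dvd_rfl
      rw [h0, Ideal.mem_bot] at h1
      exact hHp.ne_zero ((polyEquiv ht).injective (by rw [h1, map_zero]))
    have h1 := going (M := M) (RR (⊤ : Subalgebra ℂ K) t) hRreg hloc q hq0 (fun x hx => by
      obtain ⟨F', rfl⟩ := (polyEquiv ht).surjective x
      obtain ⟨F'', rfl⟩ := (hq F').1 hx
      by_cases h0 : H * F'' = 0
      · left
        rw [h0, map_zero]
      right
      have hF'' : F'' ≠ 0 := right_ne_zero_of_mul h0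
      rw [h.2, polyEquiv_val, map_mul, P₁.ord_mul (ht.ne hHp.ne_zero) (ht.ne hF'')]
      have := hnn F''
      positivity) (polyEquiv ht F) (Or.inr (by
        rw [h.2, polyEquiv_val]
        positivity))
    exact (hq F).1 h1
  have hHdvd : ∀ F : MvPolynomial (Fin r) K, F ≠ 0 →
      P₁.ord (aeval t H) ∣ P₁.ord (aeval t F) := by
    intro F hF
    obtain ⟨F', hF', hnd⟩ := (FiniteMultiplicity.of_prime_left hHp hF).exists_eq_pow_mul_and_not_dvd
    have hF'0 : F' ≠ 0 := by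
      rintro rfl
      exact hnd (dvd_zero _)
    have h1 : P₁.ord (aeval t F') = 0 := by
      have h2 := hnn F'
      by_contra h3
      exact hnd (hall F' (by omega))
    rw [hF', map_mul, map_pow, P₁.ord_mul (pow_ne_zero _ (ht.ne hHp.ne_zero)) (ht.ne hF'0), h1,
      P₁.ord_pow, add_zero]
    exact dvd_mul_left _ _
  have hH1 : P₁.ord (aeval t H) = 1 := by
    obtain ⟨z, hz0, hz⟩ := P₁.surj
    obtain ⟨F, F', hF', rfl⟩ := ht.gen z
    have hF : F ≠ 0 := by
      rintro rfl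
      apply hz0
      rw [map_zero, zero_div]
    rw [P₁.ord_div (ht.ne hF) (ht.ne hF')] at hz
    have h1 : P₁.ord (aeval t H) ∣ 1 := by
      rw [← hz]
      exact dvd_sub (hHdvd F hF) (hHdvd F' hF')
    have := Int.le_of_dvd one_pos h1
    omega
  have hX : ∀ p, 0 < P₁.ord (t p) → H ∣ X p := fun p hp => hall (X p) (by rwa [aeval_X])
  have hXa : ∀ p, 0 < P₁.ord (t p) → Associated H (X p) := fun p hp =>
    hH.associated_of_dvd (X_prime (i := p)).irreducible (hX p hp)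
  refine ⟨?_, ?_, ?_⟩
  · intro x hx
    obtain ⟨P0, Q0, hQ0, hz1⟩ := ht.gen x
    obtain ⟨a', b', c', hcop, ha, hb⟩ :=
      UniqueFactorizationMonoid.exists_reduced_factors' P0 Q0 hQ0
    have hb'0 : b' ≠ 0 := by
      rintro rfl
      apply hQ0
      rw [← hb, mul_zero]
    have hc'0 : c' ≠ 0 := by
      rintro rfl
      apply hQ0
      rw [← hb, zero_mul]
    have hx' : x = aeval t a' / aeval t b' := by
      rw [hz1, ← ha, ← hb, map_mul, map_mul, mul_div_mul_left _ _ (ht.ne hc'0)]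
    refine ⟨_, mem_RR_top.2 ⟨a', rfl⟩, _, mem_RR_top.2 ⟨b', rfl⟩, ht.ne hb'0, ?_, hx'⟩
    have h1 := hnn b'
    by_contra h2
    have h3 : 0 < P₁.ord (aeval t b') := by omega
    have h4 := hall b' h3
    by_cases ha0 : a' = 0
    · rw [ha0] at hcop
      exact hH.not_isUnit (hcop (dvd_zero _) h4)
    · have h5 := hx
      rw [hx', P₁.reg_iff (div_ne_zero (ht.ne ha0) (ht.ne hb'0)),
        P₁.ord_div (ht.ne ha0) (ht.ne hb'0)] at h5
      exact hH.not_isUnit (hcop (hall a' (by omega)) h4)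
  · intro p
    have h1 := reg_ord_nonneg (hreg p)
    by_cases h2 : 0 < P₁.ord (t p)
    · right
      have h3 := hXa p h2
      obtain ⟨w, hw⟩ := h3
      obtain ⟨a, ha, hwa⟩ := MvPolynomial.isUnit_iff_eq_C_of_isReduced.1 w.isUnit
      have h4 := congrArg (aeval t) hw
      rw [map_mul, aeval_X, hwa, aeval_C] at h4
      have ha0 : algebraMap K L a ≠ 0 := by
        rw [Ne, map_eq_zero]
        exact ha.ne_zero
      rw [← h4, P₁.ord_mul (ht.ne hHp.ne_zero) ha0, hH1, htr, add_zero]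
    · left
      omega
  · intro p p' hp hp'
    have h1 := (hXa p (by omega)).symm.trans (hXa p' (by omega))
    exact X_dvd_X.1 h1.dvd

end hor

end Pool.Agent.H890
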