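import Pool.Agent.H890.Klt

/-!
The canonical divisor of the covering space is nef.
-/

set_option autoImplicit false
set_option linter.unusedSectionVars false
set_option linter.overlappingInstances false

open FF MvPolynomial Pool.Agent.W602.GT Pool.Agent.W603.LV Pool.Agent.Y172
  Pool.Agent.TH122.AB Pool.Agent.R887

namespace Pool.Agent.H890

section smul

variable {K : Type} [Field K] [Algebra ℂ K] {n : ℕ} {P : Place ℂ K}
  {ω : (Fin n → Derivation ℂ K K) → K} {c : ℚ}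

theorem pluri_smul' {m : ℕ} (h : IsPluri m ω) (κ : K) : IsPluri m (fun D => κ * ω D) := by
  intro A D
  change κ * ω _ = _
  rw [h]
  ring

theorem ordGe_smul {κ : K} (hκ : κ ≠ 0) (h : OrdGe P ω c) :
    OrdGe P (fun D => κ * ω D) (P.ord κ + c) := by
  intro D hD
  by_cases h0 : ω D = 0
  · left
    change κ * ω D = 0
    rw [h0, mul_zero]
  · right
    have h1 := (h D hD).resolve_left h0
    rw [P.ord_mul hκ h0]
    push_cast
    linarith

theorem ordEq_smul {κ : K} (hκ : κ ≠ 0) (h : OrdEq P ω c) :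
    OrdEq P (fun D => κ * ω D) (P.ord κ + c) := by
  refine ⟨ordGe_smul hκ h.1, ?_⟩
  obtain ⟨D, hD, h0, h1⟩ := h.2
  refine ⟨D, hD, mul_ne_zero hκ h0, ?_⟩
  rw [P.ord_mul hκ h0]
  push_cast
  rw [h1]

theorem ordGe_zero (h : ∀ D, ω D = 0) (c : ℚ) : OrdGe P ω c := fun D _ => Or.inl (h D)

/-- the exact order of a form -/
theorem exists_ordEq [Algebra.EssFiniteType ℂ K] (hn : Algebra.trdeg ℂ K = n)
    (hP : Divisorial n P) {m : ℕ} (hω : IsPluri m ω) {x : Fin n → K}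
    {E : Fin n → Derivation ℂ K K} (hx : IsTranscendenceBasis ℂ x)
    (hE : ∀ i j, E i (x j) = if i = j then 1 else 0) (h0 : ω E ≠ 0) : ∃ c : ℤ, OrdEq P ω c := by
  obtain ⟨w, F, i0, hw⟩ := exists_loc hn hP
  have h1 : ω F ≠ 0 := by
    intro h1
    apply h0
    rw [pluri_coord hw.bas hw.dual hω E, h1, mul_zero]
  exact ⟨P.ord (ω F), (hw.rg.ordEq_iff hω).2 ⟨h1, rfl⟩⟩

theorem ordEq_le {c c' : ℚ} [Algebra.EssFiniteType ℂ K] (hn : Algebra.trdeg ℂ K = n)
    (hP : Divisorial n P) {m : ℕ} (hω : IsPluri m ω) (h : OrdEq P ω c) (h' : OrdGe P ω c') :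
    c' ≤ c := by
  obtain ⟨w, F, i0, hw⟩ := exists_loc hn hP
  obtain ⟨h1, h2⟩ := (hw.rg.ordEq_iff hω).1 h
  have h3 := ((hw.rg.ordGe_iff hω).1 h').resolve_left h1
  rw [h2] at h3
  exact h3

end smul

section

variable {K L M : Type} [Field K] [Field L] [Field M] [Algebra ℂ K] [Algebra ℂ L]
  [Algebra ℂ M] [Algebra K L] [Algebra L M] [Algebra K M] [IsScalarTower ℂ K L]
  [IsScalarTower ℂ L M] [IsScalarTower ℂ K M] [IsScalarTower K L M] [FiniteDimensional L M]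
  {N : ℕ} {y : Fin (N + 1) → K} {n r : ℕ} {G : Place ℂ K → ℤ}
  {S : Mod K L M y n r G} {b : ℕ} {z : M}

/-- **The canonical divisor of the covering space is nef.** -/
theorem Cov.nef (h : Cov S b z) {Δ : Place ℂ K → ℚ}
    (hG : ∀ P, IsPrimeDivisor y P → (G P : ℚ) = b * Δ P) (hnef : LogNef y n Δ)
    (hex : ∃ Q : Place ℂ K, Divisorial n Q) : CanonicalNef S.v (n + r) := by
  classical
  have hessK := S.essK
  have hessM := S.essM
  have hb1 : 1 ≤ b := by
    have := h.hb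
    omega
  obtain ⟨x, E, hx, hE⟩ := exists_crd h.trK
  obtain ⟨a₀, ha₀⟩ := S.ny.ne
  intro i₀ hi₀ q₀ hq₀
  obtain ⟨m₁, hm₁, hsec⟩ := hnef a₀ ha₀ q₀ hq₀
  obtain ⟨q, hq⟩ : ∃ q, q = m₁ * q₀ := ⟨_, rfl⟩
  obtain ⟨m, hm⟩ : ∃ m, m = 2 * b * m₁ := ⟨_, rfl⟩
  have hm1 : 1 ≤ m := by
    rw [hm]
    have : 1 ≤ b * m₁ := Nat.mul_pos hb1 hm₁
    nlinarith
  have hmq : m * q₀ = 2 * (b * q) := by
    rw [hm, hq]
    ring
  refine ⟨m, hm1, fun P hP => ?_⟩
  -- the section on the base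
  obtain ⟨Q, hQ, hQP⟩ : ∃ Q : Place ℂ K, Divisorial n Q ∧
      ((∀ f : K, P.ord (algebraMap K M f) = 0) ∨ ∃ e, Over P Q e) := by
    by_cases htr : ∀ f : K, P.ord (algebraMap K M f) = 0
    · obtain ⟨Q, hQ⟩ := hex
      exact ⟨Q, hQ, Or.inl htr⟩
    · have htr' := htr
      push Not at htr
      obtain ⟨e, Q, hPQ⟩ := FF.exists_over P htr
      exact ⟨Q, div_base (L := M) (by rw [S.trdeg_KM]) hPQ hP, Or.inr ⟨e, hPQ⟩⟩
  obtain ⟨s, ⟨hs1, hs2⟩, hs3⟩ := hsec Q hQ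
  obtain ⟨η, hηd⟩ : ∃ η : (Fin n → Derivation ℂ K K) → K, η = fun D => s D ^ (2 * b) :=
    ⟨_, rfl⟩
  have hη : IsPluri (2 * (b * q)) η := by
    have h1 := pluri_pow hs1 (2 * b)
    rw [show m₁ * q₀ * (2 * b) = 2 * (b * q) by rw [hq]; ring] at h1
    rw [hηd]
    exact h1
  have hcst : ∀ (D : Place ℂ K) (l : Fin (N + 1)), IsPrimeDivisor y D → y l ≠ 0 →
      ((2 * b : ℕ) : ℚ) * (-(((m₁ * q₀ : ℕ) : ℚ) * Δ D) - m₁ * (D.ord (y a₀ / y l) : ℚ)) =
        (-(2 * q * G D) - m * (D.ord (y a₀) - D.ord (y l)) : ℤ) := by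
    intro D l hD hl
    rw [D.ord_div ha₀ hl, hm, hq]
    push_cast
    rw [hG D hD]
    ring
  have hηge : ∀ D l, IsPrimeDivisor y D → Centred y l D →
      OrdGe D η (-(2 * q * G D) - m * (D.ord (y a₀) - D.ord (y l)) : ℤ) := by
    intro D l hD hl
    have h1 := ordGe_pow (hs2 D l hD hl) (2 * b)
    rw [← hηd, hcst D l hD hl.1] at h1
    exact h1
  have hηeq : ∀ D l, IsPrimeDivisor y D → Through y D Q → Centred y l D →
      OrdEq D η (-(2 * q * G D) - m * (D.ord (y a₀) - D.ord (y l)) : ℤ) := by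
    intro D l hD hDQ hl
    have h1 := ordEq_pow (hs3 D l hD hDQ hl) (2 * b)
    rw [← hηd, hcst D l hD hl.1] at h1
    exact h1
  have hηE : η E ≠ 0 := by
    obtain ⟨D, hD, hDQ⟩ := exists_through S.ny Q
    obtain ⟨l, hl⟩ := exists_centred S.ny D
    exact val_ne hη hx hE (hηeq D l hD hDQ hl)
  -- the chart
  obtain ⟨c₀, hc₀⟩ := S.exists_cen P
  obtain ⟨i, f, hf, hu⟩ := S.u_eq c₀
  obtain ⟨α, hα, hfα⟩ := (S.fam i).mul f hf
  have hf0 : f ≠ 0 := (S.fam i).ne f hf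
  obtain ⟨θ, hθ⟩ : ∃ θ, θ = th S.lM b q (fun i => algebraMap K M (x i)) (algebraMap K M (η E)) :=
    ⟨_, rfl⟩
  have hθp : IsPluri (2 * (b * q)) θ := by
    rw [hθ]
    exact th_pluri S.sysM _ _ _ _
  obtain ⟨κ, hκ⟩ : ∃ κ, κ = algebraMap K M (y a₀ / y α) ^ m * (S.v (S.j c₀) / S.v i₀) ^ m :=
    ⟨_, rfl⟩
  have hyM : algebraMap K M (y a₀ / y α) ≠ 0 := by
    rw [Ne, map_eq_zero]
    exact div_ne_zero ha₀ hα
  have hvM : S.v (S.j c₀) / S.v i₀ ≠ 0 := div_ne_zero (S.vj_ne c₀) hi₀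
  have hκ0 : κ ≠ 0 := by
    rw [hκ]
    exact mul_ne_zero (pow_ne_zero _ hyM) (pow_ne_zero _ hvM)
  have hκo : ∀ P' : Place ℂ M, P'.ord κ = m * P'.ord (algebraMap K M (y a₀ / y α)) +
      m * (P'.ord (S.v (S.j c₀)) - P'.ord (S.v i₀)) := by
    intro P'
    rw [hκ, P'.ord_mul (pow_ne_zero _ hyM) (pow_ne_zero _ hvM), P'.ord_pow, P'.ord_pow,
      P'.ord_div (S.vj_ne c₀) hi₀]
  -- the orders of the coordinates
  have hvj : ∀ (P' : Place ℂ M) (c : Fin (S.s + 1)),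
      P'.ord (S.v (S.j c)) = S.d * P'.ord (algebraMap L M (S.u c)) := by
    intro P' c
    rw [S.vj, P'.ord_pow]
  have hdpos : (1 : ℤ) ≤ S.d := by exact_mod_cast S.dpos
  -- multiplication by quotients of coordinates
  have hmul : ∀ (P' : Place ℂ M) (D : Place ℂ K), (∀ f, P'.ord (algebraMap K M f) = D.ord f) →
      ∀ l, y l ≠ 0 → ∃ c'', P'.ord (algebraMap L M (S.u c'')) =
        P'.ord (algebraMap L M (S.u c₀)) + (D.ord (y l) - D.ord (y α)) := by
    intro P' D hD l hl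
    obtain ⟨c'', hc''⟩ := S.exists_u i (hfα l hl)
    refine ⟨c'', ?_⟩
    have h1 : S.u c'' = S.u c₀ * algebraMap K L (y l / y α) := by
      rw [hc'', hu, map_mul, mul_assoc]
    have h2 : algebraMap K M (y l / y α) ≠ 0 := by
      rw [Ne, map_eq_zero]
      exact div_ne_zero hl hα
    rw [h1, map_mul, ← IsScalarTower.algebraMap_apply, P'.ord_mul (S.uM_ne c₀) h2, hD,
      D.ord_div hl hα]
  refine ⟨fun D => κ * θ D, ⟨?_, fun P' l' hP' hl' => ?_⟩, fun P' l' hP' hT hl' => ?_⟩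
  · rw [hmq]
    exact pluri_smul' hθp κ
  · -- the section
    have hgoal : ∀ c : ℚ, OrdGe P' θ c → (-(m * P'.ord (S.v i₀ / S.v l') : ℚ)) ≤ P'.ord κ + c →
        OrdGe P' (fun D => κ * θ D) (-(m * P'.ord (S.v i₀ / S.v l'))) := fun c h1 h2 =>
      (ordGe_smul hκ0 h1).mono h2
    have hmin : P'.ord (S.v l') ≤ P'.ord (S.v (S.j c₀)) := cen_ord hl' (S.vj_ne c₀)
    by_cases htr : ∀ f : K, P'.ord (algebraMap K M f) = 0
    · have h1 := h.hor hP' htr q hx hE hηE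
      rw [← hθ] at h1
      refine hgoal 0 h1.1 ?_
      rw [P'.ord_div hi₀ hl'.1, hκo, htr]
      have h2 : (-(m * (P'.ord (S.v i₀) - P'.ord (S.v l'))) : ℤ) ≤
          m * 0 + m * (P'.ord (S.v (S.j c₀)) - P'.ord (S.v i₀)) := by
        have h3 : (0 : ℤ) ≤ m := Int.natCast_nonneg _
        nlinarith
      have h3 : ((-(m * (P'.ord (S.v i₀) - P'.ord (S.v l'))) : ℤ) : ℚ) ≤
          ((m * 0 + m * (P'.ord (S.v (S.j c₀)) - P'.ord (S.v i₀)) : ℤ) : ℚ) := by exact_mod_cast h2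
      push_cast at h3 ⊢
      linarith
    · push Not at htr
      obtain ⟨e', D, hPD⟩ := FF.exists_over P' htr
      obtain ⟨hD, hDd, hDo, hDθ⟩ := h.ver hP' hPD
      obtain ⟨l, hl⟩ := exists_centred S.ny D
      obtain ⟨c', hc'⟩ := exists_ordEq h.trK hDd hη hx hE hηE
      have h1 := hDθ q η hη c' hc' x E hx hE
      rw [← hθ] at h1
      have h2 := ordEq_le h.trK hDd hη hc' (hηge D l hD hl)
      have h3 : -(2 * q * G D) - m * (D.ord (y a₀) - D.ord (y l)) ≤ c' := by exact_mod_cast h2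
      obtain ⟨c₁, hc₁⟩ := S.exists_cen P'
      have h4 : P'.ord (S.v l') = P'.ord (S.v (S.j c₁)) := cen_eq hc₁.centred hl' |>.symm
      obtain ⟨c'', hc''⟩ := hmul P' D hDo l hl.1
      have h5 := hc₁ c''
      rw [hc''] at h5
      have h6 : D.ord (y l) ≤ D.ord (y α) := cen_ord hl hα
      refine hgoal _ h1.1 ?_
      rw [P'.ord_div hi₀ hl'.1, hκo, hDo, D.ord_div ha₀ hα, h4, hvj, hvj]
      have h7 : (-(m * (P'.ord (S.v i₀) - S.d * P'.ord (algebraMap L M (S.u c₁)))) : ℤ) ≤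
          m * (D.ord (y a₀) - D.ord (y α)) +
          m * (S.d * P'.ord (algebraMap L M (S.u c₀)) - P'.ord (S.v i₀)) +
          (c' + 2 * q * G D) := by
        have h8 : (0 : ℤ) ≤ m := Int.natCast_nonneg _
        have h9 : (D.ord (y α) - D.ord (y l)) ≤
            S.d * (P'.ord (algebraMap L M (S.u c₀)) - P'.ord (algebraMap L M (S.u c₁))) := by
          nlinarith
        have h10 := mul_le_mul_of_nonneg_left h9 h8
        nlinarith
      have h8 : ((-(m * (P'.ord (S.v i₀) - S.d * P'.ord (algebraMap L M (S.u c₁)))) : ℤ) : ℚ) ≤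
          ((m * (D.ord (y a₀) - D.ord (y α)) +
          m * (S.d * P'.ord (algebraMap L M (S.u c₀)) - P'.ord (S.v i₀)) +
          (c' + 2 * q * G D) : ℤ) : ℚ) := by exact_mod_cast h7
      push_cast at h8 ⊢
      linarith
  · -- generation
    have hgoal : ∀ c : ℚ, OrdEq P' θ c → (-(m * P'.ord (S.v i₀ / S.v l') : ℚ)) = P'.ord κ + c →
        OrdEq P' (fun D => κ * θ D) (-(m * P'.ord (S.v i₀ / S.v l'))) := fun c h1 h2 => by
      rw [h2]
      exact ordEq_smul hκ0 h1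
    have hcen : Centred S.v (S.j c₀) P' := hT.centred hc₀.centred
    have hmin : P'.ord (S.v l') = P'.ord (S.v (S.j c₀)) := cen_eq hcen hl' |>.symm
    by_cases htr : ∀ f : K, P'.ord (algebraMap K M f) = 0
    · have h1 := h.hor hP' htr q hx hE hηE
      rw [← hθ] at h1
      refine hgoal 0 h1 ?_
      rw [P'.ord_div hi₀ hl'.1, hκo, htr, hmin]
      push_cast
      ring
    · have htr' := htr
      push Not at htr
      obtain ⟨e', D, hPD⟩ := FF.exists_over P' htr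
      obtain ⟨hD, hDd, hDo, hDθ⟩ := h.ver hP' hPD
      obtain ⟨l, hl⟩ := exists_centred S.ny D
      have hDQ : Through y D Q := by
        rcases hQP with h1 | ⟨e, h1⟩
        · exact absurd (h.through_triv hT h1) htr'
        · exact h.through hT h1 hPD
      have h1 := hDθ q η hη _ (hηeq D l hD hDQ hl) x E hx hE
      rw [← hθ] at h1
      have hc₁ := S.cen_of_centred hcen
      obtain ⟨c'', hc''⟩ := hmul P' D hDo l hl.1
      have h5 := hc₁ c''
      rw [hc''] at h5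
      have h6 : D.ord (y l) ≤ D.ord (y α) := cen_ord hl hα
      have h7 : D.ord (y l) = D.ord (y α) := by omega
      refine hgoal _ h1 ?_
      rw [P'.ord_div hi₀ hl'.1, hκo, hDo, D.ord_div ha₀ hα, hmin, h7]
      push_cast
      ring

end

end Pool.Agent.H890
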