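import Pool.Agent.H890.Res4
import Pool.Agent.H890.KDefs8

/-!
Fermat coverings: numerically semiample divisors.
-/

set_option autoImplicit false
set_option linter.unusedSectionVars false
set_option linter.overlappingInstances false

open FF MvPolynomial Pool.Agent.W602.GT Pool.Agent.W603.LV Pool.Agent.Y172
  Pool.Agent.TH122.AB Pool.Agent.R887

namespace Pool.Agent.H890

section base

variable {K : Type} [Field K] [Algebra ℂ K] {N n : ℕ} {y : Fin (N + 1) → K} {E E' : Place ℂ K → ℚ}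

/-- multiples of semiample divisors -/
theorem SemiampleDivisor.nsmul (h : SemiampleDivisor y n E) (k : ℕ) :
    SemiampleDivisor y n (fun P => k * E P) := by
  obtain ⟨m, hm, h1⟩ := h
  refine ⟨m, hm, fun Q hQ => ?_⟩
  obtain ⟨f, hf, h2⟩ := h1 Q hQ
  have hk0 : (0 : ℚ) ≤ k := Nat.cast_nonneg k
  refine ⟨f ^ k, ⟨pow_ne_zero _ hf.1, fun P hP => ?_⟩, fun P hP hPQ => ?_⟩
  · have h3 : -((m : ℚ) * E P) ≤ P.ord f := hf.2 P hP
    have h4 := mul_le_mul_of_nonneg_left h3 hk0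
    rw [P.ord_pow]
    push_cast
    linarith
  · have h3 := h2 P hP hPQ
    rw [P.ord_pow]
    push_cast
    rw [h3]
    ring

/-- `ℚ`-linear equivalence -/
theorem SemiampleDivisor.qshift {φ : K} (hφ : φ ≠ 0) {k : ℕ} (hk : 1 ≤ k)
    (he : ∀ P, IsPrimeDivisor y P → (P.ord φ : ℚ) = k * (E' P - E P)) (h : SemiampleDivisor y n E) :
    SemiampleDivisor y n E' := by
  refine SemiampleDivisor.unscale hk (SemiampleDivisor.shift (k := φ⁻¹) (inv_ne_zero hφ) ?_)
  refine (h.nsmul k).congr fun P hP => ?_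
  have h1 := he P hP
  rw [P.ord_inv]
  push_cast
  rw [h1]
  ring

theorem NefDivisor.qshift {φ : K} (hφ : φ ≠ 0) {k : ℕ} (hk : 1 ≤ k)
    (he : ∀ P, IsPrimeDivisor y P → (P.ord φ : ℚ) = k * (E' P - E P)) (h : NefDivisor y n E) :
    NefDivisor y n E' := by
  intro H hH q hq
  refine (h H hH q hq).qshift (φ := φ ^ q) (pow_ne_zero _ hφ) hk fun P hP => ?_
  rw [P.ord_pow]
  push_cast
  rw [he P hP]
  ring

theorem NefDivisor.congr (h : NefDivisor y n E) (he : ∀ P, IsPrimeDivisor y P → E P = E' P) :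
    NefDivisor y n E' := by
  intro H hH q hq
  exact (h H hH q hq).congr fun P hP => by rw [he P hP]

theorem Psef.qshift {φ : K} (hφ : φ ≠ 0) {k : ℕ} (hk : 1 ≤ k)
    (he : ∀ P, IsPrimeDivisor y P → (P.ord φ : ℚ) = k * (E' P - E P)) (h : Psef y E) :
    Psef y E' := by
  intro H hH q hq
  obtain ⟨m, hm, f, hf⟩ := h H hH q hq
  refine ⟨m * k, Nat.mul_pos hm hk, f ^ k * φ⁻¹ ^ (m * q),
    mul_ne_zero (pow_ne_zero _ hf.1) (pow_ne_zero _ (inv_ne_zero hφ)), fun P hP => ?_⟩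
  have h1 : -((m : ℚ) * (q * E P + H P)) ≤ P.ord f := hf.2 P hP
  have h2 := mul_le_mul_of_nonneg_left h1 (Nat.cast_nonneg (α := ℚ) k)
  rw [P.ord_mul (pow_ne_zero _ hf.1) (pow_ne_zero _ (inv_ne_zero hφ)), P.ord_pow, P.ord_pow,
    P.ord_inv]
  push_cast
  rw [he P hP]
  linarith

/-- the support of a divisor which is numerically equivalent to another one -/
theorem NumEquiv.finite (hy : NormalModel y) {F : Place ℂ K → ℚ} (hE : QDivisor y E)
    (hex : ∃ Q : Place ℂ K, Divisorial n Q) (h : NumEquiv y n E F) : QDivisor y F := by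
  obtain ⟨a, ha⟩ := hy.ne
  obtain ⟨H, hH, hHo⟩ := exists_hyperplane hy ha
  obtain ⟨Q, hQ⟩ := hex
  obtain ⟨m, hm, h1⟩ := h.1 H hH 1 le_rfl
  obtain ⟨m', hm', h1'⟩ := h.2 H hH 1 le_rfl
  obtain ⟨f, hf, -⟩ := h1 Q hQ
  obtain ⟨g, hg, -⟩ := h1' Q hQ
  have hHf : {P | IsPrimeDivisor y P ∧ H P ≠ 0}.Finite := by
    have h2 : ∀ l, {P | IsPrimeDivisor y P ∧ P.ord (y a / y l) ≠ 0}.Finite := by
      intro l
      by_cases hl : y l = 0
      · refine Set.finite_empty.subset ?_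
        rintro P ⟨-, h0⟩
        apply h0
        rw [hl, div_zero, P.ord_zero]
      · exact finite_ord hy (div_ne_zero ha hl)
    refine (Set.finite_iUnion h2).subset ?_
    rintro P ⟨hP, h0⟩
    obtain ⟨l, hl⟩ := exists_centred hy P
    refine Set.mem_iUnion.2 ⟨l, hP, fun h3 => h0 ?_⟩
    rw [hHo P l hl, h3, Int.cast_zero]
  have hff := finite_ord hy hf.1
  have hgf := finite_ord hy hg.1
  refine (((hE.union hHf).union hff).union hgf).subset ?_
  rintro P ⟨hP, h0⟩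
  by_contra hcon
  simp only [Set.mem_union, Set.mem_ofPred_eq, not_or, not_and, not_not] at hcon
  obtain ⟨⟨⟨h2, h3⟩, h4⟩, h5⟩ := hcon
  have h6 : -((m : ℚ) * (((1 : ℕ) : ℚ) * (E P - F P) + H P)) ≤ P.ord f := hf.2 P hP
  have h7 : -((m' : ℚ) * (((1 : ℕ) : ℚ) * (F P - E P) + H P)) ≤ P.ord g := hg.2 P hP
  rw [h2 hP, h3 hP, h4 hP] at h6
  rw [h2 hP, h3 hP, h5 hP] at h7
  have hm0 : (0 : ℚ) < m := by exact_mod_cast hm
  have hm0' : (0 : ℚ) < m' := by exact_mod_cast hm'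
  push_cast at h6 h7
  have h8 : 0 ≤ F P := by
    by_contra h9
    push Not at h9
    nlinarith
  have h9 : F P ≤ 0 := by
    by_contra h9
    push Not at h9
    nlinarith
  exact h0 (le_antisymm h9 h8)

end base

section

variable {K L M : Type} [Field K] [Field L] [Field M] [Algebra ℂ K] [Algebra ℂ L]
  [Algebra ℂ M] [Algebra K L] [Algebra L M] [Algebra K M] [IsScalarTower ℂ K L]
  [IsScalarTower ℂ L M] [IsScalarTower ℂ K M] [IsScalarTower K L M] [FiniteDimensional L M]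
  {N : ℕ} {y : Fin (N + 1) → K} {n r : ℕ} {G : Place ℂ K → ℤ}
  {S : Mod K L M y n r G} {s : K} {z : Fin (r + 2) → M} {w : ℤ} {ζ : ℂ} {W : Place ℂ M}

theorem pb_lin (a b : ℚ) (E E' : Place ℂ K → ℚ) (P : Place ℂ M) :
    pb y M (fun Q => a * E Q + b * E' Q) P = a * pb y M E P + b * pb y M E' P := by
  by_cases hq : ∃ Q, IsPrimeDivisor y Q ∧ ∀ f, P.ord (algebraMap K M f) = Q.ord f
  · obtain ⟨Q, hQ, hPQ⟩ := hq
    rw [pb_over hQ hPQ, pb_over hQ hPQ, pb_over hQ hPQ]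
  · unfold pb
    rw [dif_neg hq, dif_neg hq, dif_neg hq]
    ring

/-- **Numerically semiample divisors on Fermat coverings.** -/
theorem SecD.num (h : SecD S s z w ζ W) {E : Place ℂ K → ℚ} (hE : QDivisor y E)
    (hnef : NefDivisor y n E) :
    NumSemiample S.v (n + r) (pb y M E) ↔ NumSemiample y n E := by
  have hc := h.fer.cov
  constructor
  · rintro ⟨F', -, hF', h1, h2⟩
    obtain ⟨m₁, hm₁, hu₁⟩ := hF'.ugen
    obtain ⟨m₂, hm₂, hu₂⟩ := hnef.ugen S.ny
    have hm : 1 ≤ m₂ * m₁ := Nat.mul_pos hm₂ hm₁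
    obtain ⟨F₀, f₀, hres⟩ := h.exists_res hm (hu₁.scale m₂)
    have hu₃ := hu₂.scale m₁
    rw [mul_comm m₁ m₂] at hu₃
    have hpb := h.res_pb hu₃
    have h3 := h.nef hm (hpb.add h.gen (hres.neg h.gen)) (h1.congr fun P _ => by
      rw [Pi.sub_apply, sub_eq_add_neg])
    have h4 := h.nef hm (hres.add h.gen (hpb.neg h.gen)) (h2.congr fun P _ => by
      rw [Pi.sub_apply, sub_eq_add_neg])
    have h5 : NumEquiv y n E F₀ := ⟨h3.congr fun P _ => by rw [Pi.sub_apply, sub_eq_add_neg],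
      h4.congr fun P _ => by rw [Pi.sub_apply, sub_eq_add_neg]⟩
    exact ⟨F₀, h5.finite S.ny hE h.ex, h.semi hm hres hF', h5⟩
  · rintro ⟨F, hF, hFs, h1, h2⟩
    refine ⟨pb y M F, pb_finite (S := S) hF, hc.semi_up h.ex hFs, ?_, ?_⟩
    · refine (hc.nef_up h.ex h1).congr fun P _ => ?_
      have h3 := pb_lin (y := y) (M := M) 1 (-1) E F P
      have h4 : (fun Q => (1 : ℚ) * E Q + -1 * F Q) = E - F := by
        funext Q
        rw [Pi.sub_apply]
        ring
      rw [h4] at h3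
      rw [h3, Pi.sub_apply]
      ring
    · refine (hc.nef_up h.ex h2).congr fun P _ => ?_
      have h3 := pb_lin (y := y) (M := M) 1 (-1) F E P
      have h4 : (fun Q => (1 : ℚ) * F Q + -1 * E Q) = F - E := by
        funext Q
        rw [Pi.sub_apply]
        ring
      rw [h4] at h3
      rw [h3, Pi.sub_apply]
      ring

/-- the section of a Fermat covering -/
theorem Fer.exists_secD (h : Fer S s z w) (hn1 : 1 ≤ n) {Λ : Place ℂ K → ℤ}
    (hD : Divides y n (r + 2) G Λ s) : ∃ (ζ : ℂ) (W : Place ℂ M), SecD S s z w ζ W := by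
  obtain ⟨ζ, hζ⟩ := IsAlgClosed.exists_pow_nat_eq (-1 : ℂ) (Nat.succ_pos (r + 1))
  obtain ⟨W, h1, h2, h3⟩ := h.exists_gen hζ
  refine ⟨ζ, W, h, ?_, fun Q hQ => exists_locD h hQ (hD.loc hQ),
    fun Q hQ => h.exists_secAt hQ hn1 (hD.loc hQ) hζ, ⟨h1, h2, h3⟩,
    exists_divisorial h.trK hn1 S.ny⟩
  rintro rfl
  rw [zero_pow (Nat.succ_ne_zero _)] at hζ
  exact one_ne_zero (neg_eq_zero.1 hζ.symm)

end

end Pool.Agent.H890
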