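import Pool.Agent.H890.Dv

/-!
The pluricanonical forms on the covering space which are defined by the pluricanonical forms on the
base, and their orders.
-/

set_option autoImplicit false
set_option linter.unusedSectionVars false
set_option linter.overlappingInstances false

open FF MvPolynomial Pool.Agent.W602.GT Pool.Agent.W603.LV Pool.Agent.W619.PQ Pool.Agent.Y172
  Pool.Agent.TH122.AB Pool.Agent.R887

namespace Pool.Agent.H890

section blk

variable {M : Type} [Field M] {n r : ℕ}

/-- determinants of block matrices -/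
theorem det_blk (H : Matrix (Fin (n + r)) (Fin (n + r)) M)
    (h0 : ∀ p i, H (Fin.natAdd n p) (Fin.castAdd r i) = 0) :
    H.det = (Matrix.of fun i j => H (Fin.castAdd r i) (Fin.castAdd r j)).det *
      (Matrix.of fun p p' => H (Fin.natAdd n p) (Fin.natAdd n p')).det := by
  have h1 : H.submatrix finSumFinEquiv finSumFinEquiv = Matrix.fromBlocks
      (Matrix.of fun i j => H (Fin.castAdd r i) (Fin.castAdd r j))
      (Matrix.of fun i p => H (Fin.castAdd r i) (Fin.natAdd n p)) 0
      (Matrix.of fun p p' => H (Fin.natAdd n p) (Fin.natAdd n p')) := by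
    ext a b
    rcases a with a | a <;> rcases b with b | b
    · simp
    · simp
    · simp [h0]
    · simp
  rw [← Matrix.det_submatrix_equiv_self finSumFinEquiv H, h1, Matrix.det_fromBlocks_zero₂₁]

end blk

section th

variable {M : Type} [Field M] [Algebra ℂ M] {n r : ℕ}

/-- the form of the covering space -/
noncomputable def th (l : Fin (r + 2) → M) (b q : ℕ) (x : Fin n → M) (c : M)
    (D : Fin (n + r) → Derivation ℂ M M) : M :=
  dsq x l 1 D ^ (b * q) * c / (∏ k, l k) ^ ((r + 1) * q)

variable {l : Fin (r + 2) → M}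

theorem th_frm (h : Sys l) {i : Fin (r + 1)} {s : Equiv.Perm (Fin (r + 2))} (hs : Adm i s)
    (b q : ℕ) (x : Fin n → M) (c : M) :
    th l b q x c = frm (Fin.append x (ts l s)) (2 * (b * q))
      (l (s 0) ^ ((r + 1) * (2 * (b * q))) * c / (∏ k, l k) ^ ((r + 1) * q)) := by
  funext D
  unfold th frm
  rw [← hs.dsq h x D]
  unfold dsq dt
  rw [← pow_mul, mul_pow, ← pow_mul]
  ring

theorem th_pluri (h : Sys l) (b q : ℕ) (x : Fin n → M) (c : M) :
    IsPluri (2 * (b * q)) (th l b q x c) := by
  rw [th_frm h (i := 0) (Or.inl rfl)]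
  exact frm_pluri _ _ _

theorem th_mul (l : Fin (r + 2) → M) (b q : ℕ) (x : Fin n → M) (c c' : M)
    (D : Fin (n + r) → Derivation ℂ M M) : th l b q x (c' * c) D = c' * th l b q x c D := by
  unfold th
  ring

theorem th_zero (l : Fin (r + 2) → M) (b q : ℕ) (x : Fin n → M)
    (D : Fin (n + r) → Derivation ℂ M M) : th l b q x 0 D = 0 := by
  unfold th
  ring

theorem th_pow (l : Fin (r + 2) → M) (b q a : ℕ) (x : Fin n → M) (c : M)
    (D : Fin (n + r) → Derivation ℂ M M) : th l b (q * a) x (c ^ a) D = th l b q x c D ^ a := by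
  unfold th
  rw [div_pow, mul_pow, ← pow_mul, ← pow_mul]
  congr 2
  · congr 1
    ring
  · ring

end th

section change

variable {K M : Type} [Field K] [Field M] [Algebra ℂ K] [Algebra ℂ M] [Algebra K M]
  [IsScalarTower ℂ K M] {n r : ℕ} {l : Fin (r + 2) → M}

/-- independence of the coordinates on the base -/
theorem th_change {x x' : Fin n → K} {E E' : Fin n → Derivation ℂ K K}
    (hx : IsTranscendenceBasis ℂ x) (hx' : IsTranscendenceBasis ℂ x')
    (hE : ∀ i j, E i (x j) = if i = j then 1 else 0)
    (hE' : ∀ i j, E' i (x' j) = if i = j then 1 else 0) {b q : ℕ}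
    {η : (Fin n → Derivation ℂ K K) → K} (hη : IsPluri (2 * (b * q)) η) :
    th l b q (fun i => algebraMap K M (x i)) (algebraMap K M (η E)) =
      th l b q (fun i => algebraMap K M (x' i)) (algebraMap K M (η E')) := by
  classical
  funext D
  let H : Matrix (Fin (n + r)) (Fin (n + r)) M := Matrix.of fun u v =>
    Fin.addCases (fun c => Fin.addCases (fun i => algebraMap K M (E' c (x i))) (fun _ => 0) v)
      (fun p => Fin.addCases (fun _ => 0) (fun p' => if p = p' then 1 else 0) v) u
  have hH : H.det = algebraMap K M (Matrix.of fun c i => E' c (x i)).det := by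
    rw [det_blk H (fun p i => by simp [H])]
    have h1 : (Matrix.of fun p p' => H (Fin.natAdd n p) (Fin.natAdd n p')) =
        (1 : Matrix (Fin r) (Fin r) M) := by
      ext p p'
      simp [H, Matrix.one_apply]
    rw [h1, Matrix.det_one, mul_one, RingHom.map_det]
    congr 1
    ext i j
    simp [H]
  have hdt : dt (fun i => algebraMap K M (x i)) (ts l 1) D =
      dt (fun i => algebraMap K M (x' i)) (ts l 1) D *
        algebraMap K M (Matrix.of fun c i => E' c (x i)).det := by
    rw [← hH]
    unfold dt
    rw [← Matrix.det_mul]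
    congr 1
    ext a v
    rw [Matrix.mul_apply, Fin.sum_univ_add, Matrix.of_apply]
    refine Fin.addCases (fun i => ?_) (fun p => ?_) v
    · simp only [Matrix.of_apply, Fin.append_left, Fin.append_right, H, Fin.addCases_left,
        Fin.addCases_right, mul_zero, Finset.sum_const_zero, add_zero]
      exact Pool.Agent.W73.PG.PULL.chain x' hx' E' hE' (D a) (x i)
    · simp only [Matrix.of_apply, Fin.append_left, Fin.append_right, H, Fin.addCases_left,
        Fin.addCases_right, mul_zero, Finset.sum_const_zero, zero_add, mul_ite, mul_one,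
        Finset.sum_ite_eq', Finset.mem_univ, if_true]
  have h2 := pluri_coord hx hE hη E'
  unfold th dsq
  rw [hdt, h2]
  rw [map_mul, map_pow]
  ring

end change

section rg

variable {K L : Type} [Field K] [Field L] [Algebra ℂ K] [Algebra ℂ L] [Algebra K L]
  [IsScalarTower ℂ K L] {r n : ℕ} {t : Fin r → L}

/-- transcendence bases -/
theorem append_basis {x : Fin n → K} (hx : IsTranscendenceBasis ℂ x)
    (ht : IsTranscendenceBasis K t) :
    IsTranscendenceBasis ℂ (Fin.append (fun i => algebraMap K L (x i)) t : Fin (n + r) → L) := by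
  have h1 := hx.sumElim_comp ht
  have h2 : (Fin.append (fun i => algebraMap K L (x i)) t : Fin (n + r) → L) =
      Sum.elim t (algebraMap K L ∘ x) ∘ (finSumFinEquiv.symm.trans (Equiv.sumComm _ _)) := by
    funext a
    refine Fin.addCases (fun i => ?_) (fun p => ?_) a
    · simp
    · simp
  rw [h2]
  exact (isTranscendenceBasis_equiv _).2 h1

/-- dual frames which are regular at the place -/
theorem exists_rg (ht : Gens (k := K) t) {A : Subalgebra ℂ K} {x : Fin n → K}
    {E : Fin n → Derivation ℂ K K} (hx : IsTranscendenceBasis ℂ x)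
    (hE : ∀ i j, E i (x j) = if i = j then 1 else 0) (hxA : ∀ i, x i ∈ A)
    (hEA : ∀ i, ∀ a ∈ A, E i a ∈ A) {P : Place ℂ L} (hreg : ∀ a ∈ RR A t, P.Reg a)
    (hloc : ∀ x, P.Reg x → ∃ a ∈ RR A t, ∃ b ∈ RR A t, b ≠ 0 ∧ P.ord b = 0 ∧ x = a / b) :
    ∃ F, Rg P (Fin.append (fun i => algebraMap K L (x i)) t : Fin (n + r) → L) F ∧
      ∀ (i : Fin n) (a : K), F (Fin.castAdd r i) (algebraMap K L a) = algebraMap K L (E i a) ∧
      ∀ (p : Fin r), F (Fin.natAdd n p) (algebraMap K L a) = 0 := by
  have hb := append_basis hx (Gens_basis ht)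
  choose F hF using fun u : Fin (n + r) => exists_der (L := ℂ) _ hb
    (fun v => if u = v then (1 : L) else 0)
  have hc : ∀ (u : Fin (n + r)) (a : K), F u (algebraMap K L a) =
      ∑ c, (if u = Fin.castAdd r c then 1 else 0) * algebraMap K L (E c a) := by
    intro u a
    rw [Pool.Agent.W73.PG.PULL.chain x hx E hE (F u) a]
    refine Finset.sum_congr rfl fun c _ => ?_
    have h1 := hF u (Fin.castAdd r c)
    rw [Fin.append_left] at h1
    rw [h1]
  have hc1 : ∀ (i : Fin n) (a : K),
      F (Fin.castAdd r i) (algebraMap K L a) = algebraMap K L (E i a) := by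
    intro i a
    rw [hc, Finset.sum_eq_single i, if_pos rfl, one_mul]
    · intro c _ hci
      rw [if_neg, zero_mul]
      intro h
      exact hci (Fin.castAdd_injective n r h).symm
    · intro h
      exact absurd (Finset.mem_univ _) h
  have hc2 : ∀ (p : Fin r) (a : K), F (Fin.natAdd n p) (algebraMap K L a) = 0 := by
    intro p a
    rw [hc]
    refine Finset.sum_eq_zero fun c _ => ?_
    rw [if_neg, zero_mul]
    intro h
    have := congrArg Fin.val h
    simp only [Fin.val_natAdd, Fin.val_castAdd] at this
    omega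
  refine ⟨F, ⟨hb, hF, ?_, ?_⟩, fun i a => ⟨hc1 i a, fun p => hc2 p a⟩⟩
  · intro u
    refine Fin.addCases (fun i => ?_) (fun p => ?_) u
    · rw [Fin.append_left]
      exact hreg _ (RR_base (hxA i))
    · rw [Fin.append_right]
      exact hreg _ (RR_var p)
  · intro u
    refine derReg_of_ring hreg hloc fun a ha => RR_der (fun a ha => ?_) (fun p => ?_) ha
    · revert u
      intro u
      refine Fin.addCases (fun i => ?_) (fun p => ?_) u
      · rw [hc1]
        exact RR_base (hEA i a ha)
      · rw [hc2]
        exact (RR A t).zero_mem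
    · have h1 := hF u (Fin.natAdd n p)
      rw [Fin.append_right] at h1
      rw [h1]
      split_ifs
      · exact (RR A t).one_mem
      · exact (RR A t).zero_mem

end rg

end Pool.Agent.H890
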