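import Pool.Agent.H890.Ord
import Pool.Graph.R_seed8.W602.GT.Circ

/-!
The orders of the forms on the projective bundle.
-/

set_option autoImplicit false
set_option linter.unusedSectionVars false
set_option linter.overlappingInstances false

open FF MvPolynomial Pool.Agent.W602.GT Pool.Agent.W603.LV Pool.Agent.W619.PQ Pool.Agent.Y172
  Pool.Agent.TH122.AB Pool.Agent.R887

namespace Pool.Agent.H890

section

variable {K L : Type} [Field K] [Field L] [Algebra ℂ K] [Algebra ℂ L] [Algebra K L]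
  [IsScalarTower ℂ K L] {r n : ℕ} {l : Fin (r + 2) → L}

/-- the valuation ring as an algebra -/
def osub (D : Place ℂ K) : Subalgebra ℂ K where
  carrier := {f | D.Reg f}
  mul_mem' := fun ha hb => D.reg_mul ha hb
  add_mem' := fun ha hb => D.reg_add ha hb
  algebraMap_mem' := fun c => D.reg_const c

theorem sum_sub (s : Equiv.Perm (Fin (r + 2))) (o : Fin (r + 2) → ℤ) :
    ∑ k, o k = (r + 2) * o (s 0) + ∑ p : Fin r, (o (s p.succ.castSucc) - o (s 0)) +
      (o (s (Fin.last (r + 1))) - o (s 0)) := by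
  have h1 : ∑ k, o k = ∑ k, o (s k) := (Equiv.sum_comp s o).symm
  rw [h1, Fin.sum_univ_castSucc, Fin.sum_univ_succ, Fin.castSucc_zero, Finset.sum_sub_distrib]
  simp only [Finset.sum_const, Finset.card_univ, Fintype.card_fin, nsmul_eq_mul]
  ring

/-- the value of the form on a dual frame -/
theorem th_self (hl : Sys l) {i : Fin (r + 1)} {s : Equiv.Perm (Fin (r + 2))} (hs : Adm i s)
    {x : Fin n → L} {F : Fin (n + r) → Derivation ℂ L L}
    (hF : ∀ u v, F u ((Fin.append x (ts l s) : Fin (n + r) → L) v) = if u = v then 1 else 0)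
    (b q : ℕ) (c : L) : th l b q x c F =
      l (s 0) ^ ((r + 1) * (2 * (b * q))) * c / (∏ k, l k) ^ ((r + 1) * q) := by
  rw [th_frm hl hs, frm_self hF]

theorem ord_val (hl : Sys l) (P : Place ℂ L) (i0 : Fin (r + 2)) (b q : ℕ) {c d : L} (hc : c ≠ 0)
    (hd : d ≠ 0) :
    l i0 ^ ((r + 1) * (2 * (b * q))) * d * c / (∏ k, l k) ^ ((r + 1) * q) ≠ 0 ∧
    P.ord (l i0 ^ ((r + 1) * (2 * (b * q))) * d * c / (∏ k, l k) ^ ((r + 1) * q)) =
      ((r + 1) * (2 * (b * q)) : ℕ) * P.ord (l i0) + P.ord d + P.ord c -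
        ((r + 1) * q : ℕ) * ∑ k, P.ord (l k) := by
  have h1 : l i0 ^ ((r + 1) * (2 * (b * q))) ≠ 0 := pow_ne_zero _ (hl.ne _)
  have h2 : ∏ k, l k ≠ 0 := Finset.prod_ne_zero_iff.2 fun k _ => hl.ne k
  have h3 : (∏ k, l k) ^ ((r + 1) * q) ≠ 0 := pow_ne_zero _ h2
  refine ⟨div_ne_zero (mul_ne_zero (mul_ne_zero h1 hd) hc) h3, ?_⟩
  rw [P.ord_div (mul_ne_zero (mul_ne_zero h1 hd) hc) h3, P.ord_mul (mul_ne_zero h1 hd) hc,
    P.ord_mul h1 hd, P.ord_pow, P.ord_pow, ord_prod' P _ _ fun k _ => hl.ne k]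

/-- the order along vertical prime divisors -/
theorem ver_ord (hl : Sys l) [Algebra.EssFiniteType ℂ K] (hn : Algebra.trdeg ℂ K = n)
    {D : Place ℂ K} (hD : Divisorial n D) {i : Fin (r + 1)} {g : Fin r → K} (hg0 : ∀ p, g p ≠ 0)
    (hτ : Gens (k := K) (fun p => ts l (sA i) p * algebraMap K L (g p))) {P : Place ℂ L}
    (hP : IsGauss (fun p => ts l (sA i) p * algebraMap K L (g p)) D P) {wt : Fin (r + 2) → ℤ}
    (hwl : wt (Fin.last (r + 1)) = 0) (hws : ∑ k, wt k = 2) {γ : ℤ}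
    (ho : ∀ k, P.ord (l k) - P.ord (l i.castSucc) = (wt k - wt i.castSucc) * γ)
    {b q : ℕ} (hb : r + 2 = 2 * b) {η : (Fin n → Derivation ℂ K K) → K}
    (hη : IsPluri (2 * (b * q)) η) {c : ℚ} (hc : OrdEq D η c) {x : Fin n → K}
    {E : Fin n → Derivation ℂ K K} (hx : IsTranscendenceBasis ℂ x)
    (hE : ∀ i j, E i (x j) = if i = j then 1 else 0) :
    OrdEq P (th l b q (fun i => algebraMap K L (x i)) (algebraMap K L (η E)))
      (c + 2 * q * γ) := by
  classical
  obtain ⟨z, G, i0, hz⟩ := exists_loc hn hD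
  rw [th_change hx hz.bas hE hz.dual hη]
  obtain ⟨τ, hτd⟩ : ∃ τ : Fin r → L, τ = fun p => ts l (sA i) p * algebraMap K L (g p) :=
    ⟨_, rfl⟩
  rw [← hτd] at hτ hP
  have hA1 : ∀ a ∈ osub D, D.Reg a := fun a ha => ha
  have hA2 : ∀ a, D.Reg a → a ∈ osub D := fun a ha => ha
  obtain ⟨F, hF, hFc⟩ := exists_rg hτ (A := osub D) hz.bas hz.dual (fun i => hz.reg i)
    (fun i a ha => hz.pres i a ha) (hP.reg hA1) (fun x hx => hP.rep hτ hA2 hx)
  -- the determinant
  have hgL : ∀ p, algebraMap K L (g p) ≠ 0 := fun p => by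
    rw [Ne, map_eq_zero]
    exact hg0 p
  have hts : ∀ p, ts l (sA i) p = τ p * algebraMap K L (g p)⁻¹ := by
    intro p
    rw [hτd, map_inv₀]
    change _ = ts l (sA i) p * algebraMap K L (g p) * (algebraMap K L (g p))⁻¹
    rw [mul_assoc, mul_inv_cancel₀ (hgL p), mul_one]
  have hdet : dt (fun i => algebraMap K L (z i)) (ts l (sA i)) F =
      ∏ p, algebraMap K L (g p)⁻¹ := by
    unfold dt
    rw [det_blk _ (fun p j => by
      rw [Matrix.of_apply, Fin.append_left]
      exact (hFc ⟨i0, i0.2⟩ (z j)).2 p)]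
    have e1 : (Matrix.of fun a c => (Matrix.of fun u v => F u
        ((Fin.append (fun i => algebraMap K L (z i)) (ts l (sA i)) : Fin (n + r) → L) v) :
          Matrix (Fin (n + r)) (Fin (n + r)) L) (Fin.castAdd r a) (Fin.castAdd r c)) =
        (1 : Matrix (Fin n) (Fin n) L) := by
      ext a c
      rw [Matrix.of_apply, Matrix.of_apply, Fin.append_left, (hFc a (z c)).1, hz.dual,
        apply_ite (algebraMap K L), map_one, map_zero, Matrix.one_apply]
    have e2 : (Matrix.of fun a c => (Matrix.of fun u v => F u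
        ((Fin.append (fun i => algebraMap K L (z i)) (ts l (sA i)) : Fin (n + r) → L) v) :
          Matrix (Fin (n + r)) (Fin (n + r)) L) (Fin.natAdd n a) (Fin.natAdd n c)) =
        Matrix.diagonal fun p => algebraMap K L (g p)⁻¹ := by
      ext p p'
      rw [Matrix.of_apply, Matrix.of_apply, Fin.append_right, hts, (F _).leibniz,
        (hFc ⟨i0, i0.2⟩ (g p')⁻¹).2 p, smul_zero, zero_add]
      have h1 := hF.dual (Fin.natAdd n p) (Fin.natAdd n p')
      rw [Fin.append_right] at h1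
      rw [h1, smul_eq_mul, Matrix.diagonal_apply]
      by_cases hpp : p = p'
      · rw [if_pos (by rw [hpp]), if_pos hpp, mul_one, hpp]
      · rw [if_neg, if_neg hpp, mul_zero]
        intro h
        exact hpp (Fin.natAdd_injective r n h)
    rw [e1, e2, Matrix.det_one, one_mul, Matrix.det_diagonal]
  obtain ⟨hη0, hηc⟩ := (hz.rg.ordEq_iff hη).1 hc
  have hηL : algebraMap K L (η G) ≠ 0 := by
    rw [Ne, map_eq_zero]
    exact hη0
  have hval : th l b q (fun i => algebraMap K L (z i)) (algebraMap K L (η G)) F =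
      l i.castSucc ^ ((r + 1) * (2 * (b * q))) * (∏ p, algebraMap K L (g p)⁻¹) ^ (2 * (b * q)) *
        algebraMap K L (η G) / (∏ k, l k) ^ ((r + 1) * q) := by
    unfold th
    rw [← dsq_sA hl _ i]
    unfold dsq
    rw [hdet, sA_zero, ← pow_mul, mul_pow, ← pow_mul]
  have hd0 : (∏ p, algebraMap K L (g p)⁻¹) ^ (2 * (b * q)) ≠ 0 := by
    refine pow_ne_zero _ (Finset.prod_ne_zero_iff.2 fun p _ => ?_)
    rw [Ne, map_eq_zero]
    exact inv_ne_zero (hg0 p)
  obtain ⟨hv0, hvo⟩ := ord_val hl P i.castSucc b q hηL hd0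
  rw [← hval] at hv0 hvo
  rw [hF.ordEq_iff (th_pluri hl b q _ _)]
  refine ⟨hv0, ?_⟩
  -- the orders of the functions `g`
  have hgo : ∀ p, D.ord (g p) = - (P.ord (l (sA i p.succ.castSucc)) - P.ord (l i.castSucc)) := by
    intro p
    have h1 := hP.var p
    rw [hτd] at h1
    change P.ord (ts l (sA i) p * algebraMap K L (g p)) = 0 at h1
    rw [P.ord_mul (hl.ts_ne _ _) (hgL p), hP.base] at h1
    unfold ts at h1
    rw [P.ord_div (hl.ne _) (hl.ne _), sA_zero] at h1
    omega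
  have hdo : P.ord ((∏ p, algebraMap K L (g p)⁻¹) ^ (2 * (b * q))) = (2 * (b * q) : ℕ) *
      ∑ p : Fin r, (P.ord (l (sA i p.succ.castSucc)) - P.ord (l i.castSucc)) := by
    rw [P.ord_pow, ord_prod' P _ _ fun p _ => by
      rw [Ne, map_eq_zero]
      exact inv_ne_zero (hg0 p)]
    congr 1
    refine Finset.sum_congr rfl fun p _ => ?_
    rw [hP.base, D.ord_inv, hgo, neg_neg]
  have hs1 := sum_sub (sA i) (fun k => P.ord (l k))
  rw [sA_zero, sA_last] at hs1
  -- the sum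
  have hs2 : ∑ k, (P.ord (l k) - P.ord (l i.castSucc)) = (2 - (r + 2) * wt i.castSucc) * γ := by
    simp only [ho]
    rw [← Finset.sum_mul, Finset.sum_sub_distrib, hws]
    simp
  rw [Finset.sum_sub_distrib] at hs2
  simp only [Finset.sum_const, Finset.card_univ, Fintype.card_fin, nsmul_eq_mul] at hs2
  have hlast := ho (Fin.last (r + 1))
  rw [hwl] at hlast
  rw [hdo, hP.base] at hvo
  have hint : P.ord (th l b q (fun i => algebraMap K L (z i)) (algebraMap K L (η G)) F) =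
      D.ord (η G) + 2 * q * γ := by
    rw [hvo]
    obtain ⟨S, hS⟩ : ∃ S, S = ∑ k, P.ord (l k) := ⟨_, rfl⟩
    obtain ⟨T, hT⟩ : ∃ T, T = ∑ p : Fin r, (P.ord (l (sA i p.succ.castSucc)) -
        P.ord (l i.castSucc)) := ⟨_, rfl⟩
    rw [← hS, ← hT] at hs1
    rw [← hS] at hs2
    rw [← hS, ← hT]
    obtain ⟨o, ho'⟩ : ∃ o, o = P.ord (l i.castSucc) := ⟨_, rfl⟩
    obtain ⟨w, hw⟩ : ∃ w, w = wt i.castSucc := ⟨_, rfl⟩
    rw [← ho'] at hs1 hs2 hlast
    rw [← ho']
    rw [← hw] at hs2 hlast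
    rw [hlast] at hs1
    have hb' : (r : ℤ) + 2 = 2 * b := by exact_mod_cast hb
    push_cast at hs1 hs2 ⊢
    have hT' : T = S - (r + 2) * o - (0 - w) * γ := by linarith
    have hS' : S = (2 - (r + 2) * w) * γ + (r + 2) * o := by linarith
    rw [hT', hS']
    have hr : (r : ℤ) = 2 * b - 2 := by linarith
    rw [hr]
    ring
  rw [hint]
  push_cast
  rw [hηc]

end

end Pool.Agent.H890
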