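import Pool.Agent.H890.Ord2

/-!
The orders of the forms along horizontal prime divisors, and on the covering space.
-/

set_option autoImplicit false
set_option linter.unusedSectionVars false
set_option linter.overlappingInstances false

open FF MvPolynomial Pool.Agent.W602.GT Pool.Agent.W603.LV Pool.Agent.W619.PQ Pool.Agent.Y172
  Pool.Agent.TH122.AB Pool.Agent.R887

namespace Pool.Agent.H890

section

variable {K L : Type} [Field K] [Field L] [Algebra ℂ K] [Algebra ℂ L] [Algebra K L]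
  [IsScalarTower ℂ K L] {r n : ℕ} {l : Fin (r + 2) → L}

/-- the order along horizontal prime divisors -/
theorem hor_ord (hl : Sys l) {i : Fin (r + 1)} {s : Equiv.Perm (Fin (r + 2))} (hs : Adm i s)
    (ht : Gens (k := K) (ts l s)) {P : Place ℂ L} (htr : ∀ f : K, P.ord (algebraMap K L f) = 0)
    (hreg : ∀ p, P.Reg (ts l s p))
    (hloc : ∀ x, P.Reg x → ∃ a ∈ RR (⊤ : Subalgebra ℂ K) (ts l s),
      ∃ b ∈ RR (⊤ : Subalgebra ℂ K) (ts l s), b ≠ 0 ∧ P.ord b = 0 ∧ x = a / b)
    {b q : ℕ} (hb : r + 2 = 2 * b) {x : Fin n → K} {E : Fin n → Derivation ℂ K K}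
    (hx : IsTranscendenceBasis ℂ x) (hE : ∀ i j, E i (x j) = if i = j then 1 else 0)
    {c : K} (hc : c ≠ 0) :
    OrdEq P (th l b q (fun i => algebraMap K L (x i)) (algebraMap K L c))
      (-((r + 1) * q * ∑ k, (P.ord (l k) - P.ord (l (s 0)))) : ℤ) := by
  classical
  have hregR : ∀ a ∈ RR (⊤ : Subalgebra ℂ K) (ts l s), P.Reg a := by
    intro a ha
    obtain ⟨F, rfl⟩ := mem_RR_top.1 ha
    rw [aeval_def, eval₂_eq']
    refine Ge.sum (P := P) (N := 0) _ _ fun α _ => ?_
    have h1 : Ge P 0 (algebraMap K L (F.coeff α)) := Or.inr (htr _).ge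
    have h2 : Ge P 0 (∏ i, ts l s i ^ α i) := by
      have := Ge.prod (P := P) Finset.univ (fun i => ts l s i ^ α i) (fun _ => 0) fun i _ => by
        have := (show Ge P 0 (ts l s i) from hreg i).pow (α i)
        rwa [mul_zero] at this
      simpa using this
    have h3 := h1.mul h2
    rwa [add_zero] at h3
  obtain ⟨F, hF, hFc⟩ := exists_rg ht (A := ⊤) hx hE (fun i => Algebra.mem_top)
    (fun i a _ => Algebra.mem_top) hregR hloc
  rw [hF.ordEq_iff (th_pluri hl b q _ _), th_self hl hs hF.dual]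
  have hcL : algebraMap K L c ≠ 0 := by rwa [Ne, map_eq_zero]
  obtain ⟨h1, h2⟩ := ord_val hl P (s 0) b q hcL (one_ne_zero (α := L))
  rw [mul_one] at h1 h2
  refine ⟨h1, ?_⟩
  rw [h2, P.ord_one, htr, Finset.sum_sub_distrib]
  simp only [Finset.sum_const, Finset.card_univ, Fintype.card_fin, nsmul_eq_mul]
  have hb' : (r : ℚ) + 2 = 2 * b := by exact_mod_cast hb
  push_cast
  have hr : (r : ℚ) = 2 * b - 2 := by linarith
  rw [hr]
  ring

end

section up

variable {L M : Type} [Field L] [Field M] [Algebra ℂ L] [Algebra ℂ M] [Algebra L M]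
  [IsScalarTower ℂ L M] [FiniteDimensional L M] {n r : ℕ} {l : Fin (r + 2) → L}

theorem Sys.up (h : Sys l) : Sys (fun k => algebraMap L M (l k)) := by
  refine ⟨fun k => ?_, ?_⟩
  · rw [Ne, map_eq_zero]
    exact h.ne k
  · rw [← map_sum, h.sum, map_zero]

theorem ts_up (s : Equiv.Perm (Fin (r + 2))) (p : Fin r) :
    ts (fun k => algebraMap L M (l k)) s p = algebraMap L M (ts l s p) := by
  unfold ts
  rw [map_div₀]

/-- orders on the covering space -/
theorem up_th [Algebra.EssFiniteType ℂ L] [Algebra.EssFiniteType ℂ M] {d : ℕ}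
    (hd : d = n + r) (hn : Algebra.trdeg ℂ L = d) (hl : Sys l) {P : Place ℂ M} {P₁ : Place ℂ L}
    {e : ℕ} (h : Over P P₁ e) (hP : Divisorial (n + r) P₁) {x : Fin n → L}
    (hX : IsTranscendenceBasis ℂ (Fin.append x (ts l (sA 0)) : Fin (n + r) → L)) {b q : ℕ} {c : L}
    {κ : ℤ} (hκ : OrdEq P₁ (th l b q x c) κ) :
    OrdEq P (th (fun k => algebraMap L M (l k)) b q (fun i => algebraMap L M (x i))
      (algebraMap L M c)) (e * (κ + (2 * (b * q) : ℕ)) - (2 * (b * q) : ℕ) : ℤ) := by
  subst hd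
  rw [th_frm hl (i := 0) (Or.inl rfl)] at hκ
  have h1 := up_ordEq hn h hP hX hκ
  rw [th_frm hl.up (i := 0) (Or.inl rfl)]
  have h2 : (fun i => algebraMap L M ((Fin.append x (ts l (sA 0)) : Fin (n + r) → L) i)) =
      Fin.append (fun i => algebraMap L M (x i)) (ts (fun k => algebraMap L M (l k)) (sA 0)) := by
    funext a
    refine Fin.addCases (fun i => ?_) (fun p => ?_) a
    · rw [Fin.append_left, Fin.append_left]
    · rw [Fin.append_right, Fin.append_right, ts_up]
  have h3 : algebraMap L M (l (sA 0 0) ^ ((r + 1) * (2 * (b * q))) * c /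
      (∏ k, l k) ^ ((r + 1) * q)) = algebraMap L M (l (sA 0 0)) ^ ((r + 1) * (2 * (b * q))) *
        algebraMap L M c / (∏ k, algebraMap L M (l k)) ^ ((r + 1) * q) := by
    rw [map_div₀, map_mul, map_pow, map_pow, map_prod]
  rw [h2, h3] at h1
  exact h1

end up

end Pool.Agent.H890
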