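import Pool.Agent.H890.Cstr

/-!
The covering space is birational to the product of the base with a projective space.
-/

set_option autoImplicit false
set_option linter.unusedSectionVars false
set_option linter.overlappingInstances false

open FF MvPolynomial Pool.Agent.W602.GT Pool.Agent.W603.LV Pool.Agent.Y172
  Pool.Agent.TH122.AB Pool.Agent.R887

namespace Pool.Agent.H890

section

variable {K M : Type} [Field K] [Field M] [Algebra K M]

theorem alg_of_top' {r : ℕ} {s : Fin r → M}
    (htop : IntermediateField.adjoin K (Set.range s) = ⊤) :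
    Algebra.IsAlgebraic (Algebra.adjoin K (Set.range s)) M := by
  have hdiv : ∀ z : M, ∃ P Q : MvPolynomial (Fin r) K, aeval s Q ≠ 0 ∧
      z = aeval s P / aeval s Q := by
    intro z
    have hz : z ∈ IntermediateField.adjoin K (Set.range s) := by rw [htop]; trivial
    rw [IntermediateField.mem_adjoin_iff_div] at hz
    obtain ⟨a, ha, b, hb, hab⟩ := hz
    rw [Algebra.adjoin_range_eq_range_aeval] at ha hb
    obtain ⟨P, hP⟩ := ha
    obtain ⟨Q, hQ⟩ := hb
    by_cases hb0 : b = 0
    · refine ⟨0, 1, by simp, ?_⟩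
      rw [hab, hb0, div_zero, map_zero, zero_div]
    · refine ⟨P, Q, ?_, ?_⟩
      · rw [← hQ] at hb0
        exact hb0
      · rw [hab, ← hP, ← hQ]
        rfl
  refine ⟨fun z => ?_⟩
  obtain ⟨P, Q, hQ, hz⟩ := hdiv z
  have hP' : aeval s P ∈ Algebra.adjoin K (Set.range s) :=
    Algebra.adjoin_range_eq_range_aeval K s ▸ ⟨P, rfl⟩
  have hQ' : aeval s Q ∈ Algebra.adjoin K (Set.range s) :=
    Algebra.adjoin_range_eq_range_aeval K s ▸ ⟨Q, rfl⟩
  rw [hz, div_eq_mul_inv]
  refine (isAlgebraic_algebraMap (⟨_, hP'⟩ : Algebra.adjoin K (Set.range s))).mul ?_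
  exact (isAlgebraic_algebraMap (A := M) (⟨_, hQ'⟩ : Algebra.adjoin K (Set.range s))).inv

theorem trdeg_of_top {r : ℕ} {s : Fin r → M} (hs : AlgebraicIndependent K s)
    (htop : IntermediateField.adjoin K (Set.range s) = ⊤) : Algebra.trdeg K M = r := by
  have h1 : IsTranscendenceBasis K s :=
    hs.isTranscendenceBasis_iff_isAlgebraic.2 (alg_of_top' htop)
  rw [← h1.cardinalMk_eq_trdeg]
  simp

/-- few generators are independent -/
theorem exists_ind {r : ℕ} (hr : Algebra.trdeg K M = r) {T : Finset M} (hT : T.card ≤ r)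
    (htop : IntermediateField.adjoin K (T : Set M) = ⊤) :
    ∃ s : Fin r → M, AlgebraicIndependent K s ∧ IntermediateField.adjoin K (Set.range s) = ⊤ := by
  classical
  let s : Fin T.card → M := fun i => (T.equivFin.symm i : M)
  have hs : Set.range s = (T : Set M) := by
    ext x
    constructor
    · rintro ⟨i, rfl⟩
      exact (T.equivFin.symm i).2
    · intro hx
      exact ⟨T.equivFin ⟨x, hx⟩, by simp [s]⟩
  rw [← hs] at htop
  have halg := alg_of_top' htop
  have hcard : Cardinal.mk (Fin T.card) ≤ Algebra.trdeg K M := by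
    rw [hr, Cardinal.mk_fin]
    exact_mod_cast hT
  have h1 := Algebra.IsAlgebraic.isTranscendenceBasis_of_le_trdeg_of_finite K s hcard
  have h2 := h1.lift_cardinalMk_eq_trdeg
  rw [hr] at h2
  have h3 : T.card = r := by simpa using h2
  subst h3
  exact ⟨s, h1.1, htop⟩

end

section

variable {K L M : Type} [Field K] [Field L] [Field M] [Algebra ℂ K] [Algebra ℂ L]
  [Algebra ℂ M] [Algebra K L] [Algebra L M] [Algebra K M] [IsScalarTower ℂ K L]
  [IsScalarTower ℂ L M] [IsScalarTower ℂ K M] [IsScalarTower K L M]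

/-- products over the indices in pairs -/
theorem prod_pairs {r b : ℕ} (h : r + 2 = 2 * b) (f : ℕ → M) :
    ∏ k : Fin (r + 2), f k ^ sg k = ∏ i ∈ Finset.range b, f (2 * i) / f (2 * i + 1) := by
  have h1 : ∀ b : ℕ, ∏ k ∈ Finset.range (2 * b), f k ^ (if k % 2 = 0 then (1 : ℤ) else -1) =
      ∏ i ∈ Finset.range b, f (2 * i) / f (2 * i + 1) := by
    intro b
    induction b with
    | zero => simp
    | succ b ih =>
      have e1 : 2 * (b + 1) = 2 * b + 1 + 1 := by ring
      rw [e1, Finset.prod_range_succ, Finset.prod_range_succ, ih, Finset.prod_range_succ]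
      have e2 : (2 * b) % 2 = 0 := by omega
      have e3 : ¬ (2 * b + 1) % 2 = 0 := by omega
      rw [if_pos e2, if_neg e3, zpow_one, zpow_neg_one, mul_assoc, div_eq_mul_inv]
  have h2 := h1 b
  rw [← h, Finset.prod_range] at h2
  exact h2

theorem sum_pairs {r b : ℕ} (h : r + 2 = 2 * b) (f : ℕ → M) :
    ∑ k : Fin (r + 2), f k = ∑ i ∈ Finset.range b, (f (2 * i) + f (2 * i + 1)) := by
  have h1 : ∀ b : ℕ, ∑ k ∈ Finset.range (2 * b), f k =
      ∑ i ∈ Finset.range b, (f (2 * i) + f (2 * i + 1)) := by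
    intro b
    induction b with
    | zero => simp
    | succ b ih =>
      have e1 : 2 * (b + 1) = 2 * b + 1 + 1 := by ring
      rw [e1, Finset.sum_range_succ, Finset.sum_range_succ, ih, Finset.sum_range_succ, add_assoc]
  have h2 := h1 b
  rw [← h, Finset.sum_range] at h2
  exact h2

/-- **The covering space is rational over the base.** -/
theorem rational {r b' : ℕ} (hb : r + 2 = 2 * (b' + 2)) {l : Fin (r + 2) → L} (hl : Sys l)
    (ht : Gens (k := K) (ts l 1)) (hM : Algebra.trdeg K M = r) {z : M}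
    (hz : z ^ (r + 2) = algebraMap L M (∏ k, l k ^ sg k))
    (hgen : ∀ x : M, ∃ p : Polynomial L, x = Polynomial.aeval z p)
    (hne : ∀ k k' : Fin (r + 2), (k : ℕ) = r → (k' : ℕ) = r + 1 → l k + l k' ≠ 0) :
    ∃ s : Fin r → M, AlgebraicIndependent K s ∧ IntermediateField.adjoin K (Set.range s) = ⊤ := by
  classical
  -- the forms, indexed by natural numbers
  obtain ⟨f, hf⟩ : ∃ f : ℕ → M, ∀ k : Fin (r + 2), f k = algebraMap L M (l k) :=
    ⟨fun k => if h : k < r + 2 then algebraMap L M (l ⟨k, h⟩) else 0, fun k => by simp⟩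
  have hf0 : ∀ k, k < r + 2 → f k ≠ 0 := by
    intro k hk
    have h1 := hf ⟨k, hk⟩
    change f k = _ at h1
    rw [h1, Ne, map_eq_zero]
    exact hl.ne _
  have hzf : z ^ (r + 2) = ∏ i ∈ Finset.range (b' + 2), f (2 * i) / f (2 * i + 1) := by
    rw [← prod_pairs hb, hz, map_prod]
    refine Finset.prod_congr rfl fun k _ => ?_
    rw [map_zpow₀, hf]
  have hsf : ∑ i ∈ Finset.range (b' + 2), (f (2 * i) + f (2 * i + 1)) = 0 := by
    rw [← sum_pairs hb]
    have h1 : ∑ k : Fin (r + 2), f k = algebraMap L M (∑ k, l k) := by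
      rw [map_sum]
      exact Finset.sum_congr rfl fun k _ => hf k
    rw [h1, hl.sum, map_zero]
  let T : Finset M := {z} ∪ ((Finset.range (b' + 1)).image fun i => f (2 * i) / f (2 * i + 1)) ∪
    ((Finset.range b').image fun i => f (2 * (i + 1) + 1) / f 1)
  have hcard : T.card ≤ r := by
    refine (Finset.card_union_le _ _).trans ?_
    have h1 := Finset.card_union_le {z}
      ((Finset.range (b' + 1)).image fun i => f (2 * i) / f (2 * i + 1))
    have h2 := Finset.card_image_le (s := Finset.range (b' + 1))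
      (f := fun i => f (2 * i) / f (2 * i + 1))
    have h3 := Finset.card_image_le (s := Finset.range b')
      (f := fun i => f (2 * (i + 1) + 1) / f 1)
    rw [Finset.card_range] at h2 h3
    rw [Finset.card_singleton] at h1
    omega
  refine exists_ind hM hcard ?_
  obtain ⟨B, hB⟩ : ∃ B, B = IntermediateField.adjoin K (T : Set M) := ⟨_, rfl⟩
  rw [← hB]
  have hTB : ∀ x ∈ T, x ∈ B := fun x hx => by
    rw [hB]
    exact IntermediateField.subset_adjoin K _ hx
  have hzB : z ∈ B := hTB _ (by simp [T])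
  have haB : ∀ i, i < b' + 1 → f (2 * i) / f (2 * i + 1) ∈ B := by
    intro i hi
    refine hTB _ (Finset.mem_union_left _ (Finset.mem_union_right _ ?_))
    exact Finset.mem_image.2 ⟨i, Finset.mem_range.2 hi, rfl⟩
  have hρB : ∀ i, i < b' + 1 → f (2 * i + 1) / f 1 ∈ B := by
    intro i hi
    rcases i with _ | i
    · rw [mul_zero, zero_add, div_self (hf0 1 (by omega))]
      exact B.one_mem
    · refine hTB _ (Finset.mem_union_right _ ?_)
      exact Finset.mem_image.2 ⟨i, Finset.mem_range.2 (by omega), rfl⟩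
  have haB' : ∀ i, i < b' + 2 → f (2 * i) / f (2 * i + 1) ∈ B := by
    intro i hi
    by_cases hi' : i < b' + 1
    · exact haB i hi'
    have hi2 : i = b' + 1 := by omega
    rw [Finset.prod_range_succ] at hzf
    have h1 : ∏ i ∈ Finset.range (b' + 1), f (2 * i) / f (2 * i + 1) ∈ B :=
      B.toSubalgebra.prod_mem fun i hi => haB i (Finset.mem_range.1 hi)
    have h2 : ∏ i ∈ Finset.range (b' + 1), f (2 * i) / f (2 * i + 1) ≠ 0 := by
      refine Finset.prod_ne_zero_iff.2 fun i hi => ?_
      have := Finset.mem_range.1 hi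
      exact div_ne_zero (hf0 _ (by omega)) (hf0 _ (by omega))
    have h3 : f (2 * (b' + 1)) / f (2 * (b' + 1) + 1) =
        z ^ (r + 2) / ∏ i ∈ Finset.range (b' + 1), f (2 * i) / f (2 * i + 1) := by
      rw [hzf, mul_div_cancel_left₀ _ h2]
    rw [hi2, h3]
    exact B.div_mem (pow_mem hzB _) h1
  have hρB' : ∀ i, i < b' + 2 → f (2 * i + 1) / f 1 ∈ B := by
    intro i hi
    by_cases hi' : i < b' + 1
    · exact hρB i hi'
    have hi2 : i = b' + 1 := by omega
    have h0 : f 1 ≠ 0 := hf0 1 (by omega)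
    have hk1 : 2 * (b' + 1) < r + 2 := by omega
    have hk2 : 2 * (b' + 1) + 1 < r + 2 := by omega
    have h1 : f (2 * (b' + 1)) + f (2 * (b' + 1) + 1) ≠ 0 := by
      have e1 := hf ⟨2 * (b' + 1), hk1⟩
      have e2 := hf ⟨2 * (b' + 1) + 1, hk2⟩
      change f (2 * (b' + 1)) = _ at e1
      change f (2 * (b' + 1) + 1) = _ at e2
      rw [e1, e2, ← map_add, Ne, map_eq_zero]
      exact hne _ _ (by change 2 * (b' + 1) = r; omega) (by change 2 * (b' + 1) + 1 = r + 1; omega)
    have h2 : f (2 * (b' + 1) + 1) ≠ 0 := hf0 _ hk2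
    have h3 : ∑ i ∈ Finset.range (b' + 1), (f (2 * i + 1) / f 1) * (f (2 * i) / f (2 * i + 1) + 1) =
        (∑ i ∈ Finset.range (b' + 1), (f (2 * i) + f (2 * i + 1))) / f 1 := by
      rw [Finset.sum_div]
      refine Finset.sum_congr rfl fun i hi => ?_
      have := Finset.mem_range.1 hi
      have e1 : f (2 * i + 1) ≠ 0 := hf0 _ (by omega)
      field_simp
    have h4 : ∑ i ∈ Finset.range (b' + 1), (f (2 * i + 1) / f 1) *
        (f (2 * i) / f (2 * i + 1) + 1) ∈ B := by
      refine B.toSubalgebra.sum_mem fun i hi => ?_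
      have hi := Finset.mem_range.1 hi
      exact B.mul_mem (hρB i hi) (B.add_mem (haB i hi) B.one_mem)
    have h5 : f (2 * (b' + 1)) / f (2 * (b' + 1) + 1) + 1 ≠ 0 := by
      intro h5
      apply h1
      field_simp at h5
      rw [h5, mul_zero]
    have h6 : f (2 * (b' + 1) + 1) / f 1 = - (∑ i ∈ Finset.range (b' + 1), (f (2 * i + 1) / f 1) *
        (f (2 * i) / f (2 * i + 1) + 1)) / (f (2 * (b' + 1)) / f (2 * (b' + 1) + 1) + 1) := by
      rw [Finset.sum_range_succ] at hsf
      rw [h3, eq_div_iff h5, ← neg_div]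
      have h7 : - ∑ i ∈ Finset.range (b' + 1), (f (2 * i) + f (2 * i + 1)) =
          f (2 * (b' + 1)) + f (2 * (b' + 1) + 1) := by linear_combination -hsf
      rw [h7]
      field_simp
    rw [hi2, h6]
    exact B.div_mem (B.neg_mem h4) (B.add_mem (haB' _ (by omega)) B.one_mem)
  have hall : ∀ k, k < r + 2 → f k / f 1 ∈ B := by
    intro k hk
    rcases Nat.even_or_odd' k with ⟨i, rfl | rfl⟩
    · have h1 := B.mul_mem (haB' i (by omega)) (hρB' i (by omega))
      have h2 : f (2 * i + 1) ≠ 0 := hf0 _ (by omega)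
      rwa [div_mul_div_cancel₀ h2] at h1
    · exact hρB' i (by omega)
  have hts : ∀ p, algebraMap L M (ts l 1 p) ∈ B := by
    intro p
    have h1 := B.div_mem (hall (p.succ.castSucc : Fin (r + 2)) (p.succ.castSucc).2)
      (hall ((0 : Fin (r + 2)) : ℕ) (0 : Fin (r + 2)).2)
    rw [div_div_div_cancel_right₀ (hf0 1 (by omega)), hf, hf, ← map_div₀] at h1
    exact h1
  have hL : ∀ x : L, algebraMap L M x ∈ B := by
    have hpoly : ∀ P : MvPolynomial (Fin r) K, algebraMap L M (aeval (ts l 1) P) ∈ B := by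
      intro P
      induction P using MvPolynomial.induction_on with
      | C x =>
        rw [aeval_C, ← IsScalarTower.algebraMap_apply]
        exact B.algebraMap_mem x
      | add p q hp hq =>
        rw [map_add, map_add]
        exact B.add_mem hp hq
      | mul_X p i hp =>
        rw [map_mul, map_mul, aeval_X]
        exact B.mul_mem hp (hts i)
    intro x
    obtain ⟨P, Q, -, hx⟩ := ht.gen x
    rw [hx, map_div₀]
    exact B.div_mem (hpoly P) (hpoly Q)
  rw [eq_top_iff]
  intro x _
  obtain ⟨p, hp⟩ := hgen x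
  rw [hp, Polynomial.aeval_eq_sum_range]
  refine B.toSubalgebra.sum_mem fun i _ => ?_
  rw [Algebra.smul_def]
  exact B.mul_mem (hL _) (pow_mem hzB _)

end

end Pool.Agent.H890
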