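import Pool.Agent.H890.Res1

/-!
Fermat coverings: the section, and the places with centre on it.
-/

set_option autoImplicit false
set_option linter.unusedSectionVars false
set_option linter.overlappingInstances false

open FF MvPolynomial Pool.Agent.W602.GT Pool.Agent.W603.LV Pool.Agent.Y172
  Pool.Agent.TH122.AB Pool.Agent.R887

namespace Pool.Agent.H890

section

variable {K L M : Type} [Field K] [Field L] [Field M] [Algebra ℂ K] [Algebra ℂ L]
  [Algebra ℂ M] [Algebra K L] [Algebra L M] [Algebra K M] [IsScalarTower ℂ K L]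
  [IsScalarTower ℂ L M] [IsScalarTower ℂ K M] [IsScalarTower K L M] [FiniteDimensional L M]
  {N : ℕ} {y : Fin (N + 1) → K} {n r : ℕ} {G : Place ℂ K → ℤ}
  {S : Mod K L M y n r G} {s : K} {z : Fin (r + 2) → M} {w : ℤ}

/-- the field generated by all coordinates but the last one -/
theorem Fer.mid (h : Fer S s z w) {lam : K} (hl : lam ≠ 0) :
    ∃ (F : IntermediateField L M) (t : Fin r → F), (∀ p, (t p : M) = wk S z lam p.succ.castSucc) ∧
      Gens (k := K) t ∧ IntermediateField.adjoin F {z (Fin.last (r + 1))} = ⊤ ∧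
      Module.finrank F M = r + 2 := by
  have hK0 : CharZero K := charZero_of_injective_algebraMap (algebraMap ℂ K).injective
  obtain ⟨F, z', hz', hF1, hF2⟩ := kum_tower (Fin.last (r + 1)) h.gen
  have hsc : IsScalarTower K F M := IsScalarTower.of_algebraMap_eq fun c => rfl
  have hzc : ∀ i : Fin (r + 1), (z' i : M) = z i.castSucc := fun i => by
    rw [hz', Fin.succAbove_last]
  obtain ⟨t, ht⟩ : ∃ t : Fin r → F, t = fun p => z' p.succ *
      algebraMap K F (lam ^ (- S.wt p.succ.castSucc)) := ⟨_, rfl⟩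
  have htM : ∀ p, (t p : M) = wk S z lam p.succ.castSucc := fun p => by
    rw [ht]
    change (z' p.succ : M) * algebraMap K M _ = _
    rw [hzc]
    rfl
  have hlam : ∀ m : ℤ, algebraMap K F (lam ^ m) ≠ 0 := fun m => by
    rw [Ne, map_eq_zero]
    exact zpow_ne_zero _ hl
  -- algebraic independence
  have hind : AlgebraicIndependent K t := by
    have h1 := (h.basW hl 1).1
    have h2 : (ts (wk S z lam) 1) = (IsScalarTower.toAlgHom K F M) ∘ t := by
      funext p
      change wk S z lam p.succ.castSucc / wk S z lam 0 = algebraMap F M (t p)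
      have h3 : wk S z lam 0 = 1 := by
        unfold wk
        rw [h.z0, S.wt0, neg_zero, zpow_zero, map_one, mul_one]
      rw [h3, div_one]
      exact (htM p).symm
    rw [h2] at h1
    exact AlgebraicIndependent.of_comp _ h1
  -- generation
  have hgen : IntermediateField.adjoin K (Set.range t) = ⊤ := by
    obtain ⟨E, hE⟩ : ∃ E, E = IntermediateField.adjoin K (Set.range t) := ⟨_, rfl⟩
    rw [← hE]
    have ht' : ∀ p, t p ∈ E := fun p => by
      rw [hE]
      exact IntermediateField.subset_adjoin K _ ⟨p, rfl⟩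
    have hzp : ∀ i, z' i ∈ E := by
      refine Fin.cases ?_ fun p => ?_
      · have h1 : z' 0 = 1 := Subtype.ext (by
          rw [hzc]
          exact h.z0)
        rw [h1]
        exact one_mem _
      · have h1 : z' p.succ = t p * algebraMap K F (lam ^ (S.wt p.succ.castSucc)) := by
          rw [ht]
          change _ = z' p.succ * algebraMap K F _ * _
          rw [mul_assoc, ← map_mul, ← zpow_add₀ hl, neg_add_cancel, zpow_zero, map_one, mul_one]
        rw [h1]
        exact mul_mem (ht' p) (E.algebraMap_mem _)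
    have hlE : ∀ i : Fin (r + 1), algebraMap L F (S.l i.castSucc) ∈ E := by
      intro i
      have h1 : algebraMap L F (S.l i.castSucc) =
          z' i ^ (r + 2) * algebraMap K F (s ^ (S.wt i.castSucc)) := by
        apply Subtype.ext
        change algebraMap L M (S.l i.castSucc) = (z' i : M) ^ (r + 2) * algebraMap K M _
        rw [hzc, h.zN, map_mul, ← IsScalarTower.algebraMap_apply, mul_assoc, ← map_mul,
          ← zpow_add₀ h.s0, neg_add_cancel, zpow_zero, map_one, mul_one]
      rw [h1]
      exact mul_mem (pow_mem (hzp i) _) (E.algebraMap_mem _)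
    have hL : ∀ a : L, algebraMap L F a ∈ E := by
      intro a
      obtain ⟨P, Q, -, rfl⟩ := S.gens.gen a
      rw [map_div₀]
      have hts : ∀ p, algebraMap L F (ts S.l 1 p) ∈ E := fun p => by
        change algebraMap L F (S.l p.succ.castSucc / S.l 0) ∈ E
        rw [h.l0, div_one]
        exact hlE _
      have hP : ∀ P : MvPolynomial (Fin r) K, algebraMap L F (aeval (ts S.l 1) P) ∈ E := by
        intro P
        have h1 : algebraMap L F (aeval (ts S.l 1) P) =
            aeval (fun p => algebraMap L F (ts S.l 1 p)) P := by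
          rw [← MvPolynomial.aeval_algebraMap_apply]
          rfl
        rw [h1]
        have h2 : aeval (fun p => algebraMap L F (ts S.l 1 p)) P ∈
            Algebra.adjoin K (Set.range fun p => algebraMap L F (ts S.l 1 p)) := by
          rw [Algebra.adjoin_range_eq_range_aeval]
          exact ⟨P, rfl⟩
        have h3 : Algebra.adjoin K (Set.range fun p => algebraMap L F (ts S.l 1 p)) ≤
            E.toSubalgebra := by
          apply Algebra.adjoin_le
          rintro _ ⟨p, rfl⟩
          exact hts p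
        exact h3 h2
      exact div_mem (hP P) (hP Q)
    rw [eq_top_iff]
    intro a _
    have ha : a ∈ IntermediateField.adjoin L (Set.range z') := by
      rw [hF1]
      exact IntermediateField.mem_top
    induction ha using IntermediateField.adjoin_induction with
    | mem a ha =>
      obtain ⟨i, rfl⟩ := ha
      exact hzp i
    | algebraMap c => exact hL c
    | add a b _ _ ha hb => exact add_mem (ha trivial) (hb trivial)
    | inv a _ ha => exact inv_mem (ha trivial)
    | mul a b _ _ ha hb => exact mul_mem (ha trivial) (hb trivial)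
  -- the degree
  obtain ⟨v, hv⟩ := exists_van' S.sys S.gens h.rpos (k := Fin.last (r + 1)) (by
    intro h1
    have := congrArg Fin.val h1
    simp at this)
  rw [h.l0, v.ord_one] at hv
  obtain ⟨v', e, hv'⟩ := exists_above (L := F) v
  have hKs : ∀ m : ℤ, v.ord (algebraMap K L (s ^ m)) = 0 := fun m =>
    v.ord_const (zpow_ne_zero _ h.s0)
  have hne : ∀ k : Fin (r + 2), S.l k * algebraMap K L (s ^ (- S.wt k)) ≠ 0 := fun k =>
    mul_ne_zero (S.sys.ne _) (by
      rw [Ne, map_eq_zero]
      exact zpow_ne_zero _ h.s0)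
  have he : e = 1 := kummer_multi (N := r + 2) (by omega) (r + 1) F z'
    (fun i => S.l i.castSucc * algebraMap K L (s ^ (- S.wt i.castSucc))) hF1 (fun i => by
      apply Subtype.ext
      change (z' i : M) ^ (r + 2) = algebraMap L M _
      rw [hzc, h.zN]) (fun i => hne _) v' v e hv' fun i => by
        rw [v.ord_mul (S.sys.ne _) (by
          rw [Ne, map_eq_zero]
          exact zpow_ne_zero _ h.s0), hKs, add_zero]
        have h1 := hv i.castSucc
        rw [sub_zero, if_neg] at h1
        · rw [h1]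
          exact dvd_zero _
        · intro h2
          have := congrArg Fin.val h2
          simp only [Fin.val_castSucc, Fin.val_last] at this
          omega
  subst he
  have hfin : Module.finrank F M = r + 2 := by
    obtain ⟨P, e', hP⟩ := exists_above (L := M) v'
    have h1 : ((r + 2 : ℕ) : ℤ) * P.ord (z (Fin.last (r + 1))) = e' := by
      rw [← P.ord_pow, h.zN, IsScalarTower.algebraMap_apply L F M, hP.2, hv'.2,
        v.ord_mul (S.sys.ne _) (by
          rw [Ne, map_eq_zero]
          exact zpow_ne_zero _ h.s0), hKs, add_zero]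
      have h2 := hv (Fin.last (r + 1))
      rw [sub_zero, if_pos rfl] at h2
      rw [h2]
      push_cast
      ring
    have hdvd : (r + 2) ∣ e' := by
      have : ((r + 2 : ℕ) : ℤ) ∣ (e' : ℤ) := ⟨_, h1.symm⟩
      exact_mod_cast this
    have hle := over_le hP
    have hle' : Module.finrank F M ≤ r + 2 := by
      refine fin_le (by omega) (z := z (Fin.last (r + 1)))
        (φ := algebraMap L F (S.l (Fin.last (r + 1)) *
          algebraMap K L (s ^ (- S.wt (Fin.last (r + 1)))))) ?_ hF2
      rw [h.zN, ← IsScalarTower.algebraMap_apply]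
    have := Nat.le_of_dvd hP.1 hdvd
    omega
  have hsc2 : IsScalarTower ℂ K F := IsScalarTower.of_algebraMap_eq fun c => Subtype.ext (by
    change algebraMap ℂ M c = algebraMap K M (algebraMap ℂ K c)
    rw [← IsScalarTower.algebraMap_apply])
  exact ⟨F, t, htM, gens_of_top hind hgen, hF2, hfin⟩

theorem int_map {F : Type} [Field F] [Algebra ℂ F] [Algebra L F] [Algebra F M]
    [IsScalarTower L F M] {B : Subalgebra ℂ L} {R : Subalgebra ℂ F}
    (h : ∀ a ∈ B, algebraMap L F a ∈ R) {x : M} (hx : IsIntegral B x) : IsIntegral R x := by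
  obtain ⟨p, hp, hpx⟩ := hx
  let φ : B →+* R := ((algebraMap L F).comp B.val.toRingHom).codRestrict R.toSubring
    fun a => h a a.2
  refine ⟨p.map φ, hp.map _, ?_⟩
  rw [Polynomial.eval₂_map, ← hpx]
  congr 1
  ext a
  change algebraMap F M (algebraMap L F a) = algebraMap L M a
  rw [← IsScalarTower.algebraMap_apply]

/-- the coordinates in the intermediate field -/
theorem Fer.lF (h : Fer S s z w) {lam : K} (hl : lam ≠ 0) {F : IntermediateField L M} {t : Fin r → F}
    (ht : ∀ p, (t p : M) = wk S z lam p.succ.castSucc) (i : Fin (r + 1)) :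
    ∃ τ : F, (τ = 1 ∨ ∃ p, τ = t p) ∧ algebraMap L F (S.l i.castSucc) =
      τ ^ (r + 2) * algebraMap K F ((s * lam ^ (r + 2)) ^ (S.wt i.castSucc)) := by
  revert i
  refine Fin.cases ?_ fun p => ?_
  · refine ⟨1, Or.inl rfl, ?_⟩
    have h1 : S.wt (Fin.castSucc 0) = 0 := S.wt0
    have h2 : S.l (Fin.castSucc 0) = 1 := h.l0
    rw [h1, h2, zpow_zero, map_one, one_pow, map_one, mul_one]
  · refine ⟨t p, Or.inr ⟨p, rfl⟩, Subtype.ext ?_⟩
    change algebraMap L M (S.l p.succ.castSucc) = (t p : M) ^ (r + 2) * algebraMap K M _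
    rw [ht]
    exact h.wk_pow hl _

/-- the last coordinate in the intermediate field -/
theorem Fer.lastF (h : Fer S s z w) {lam : K} (hl : lam ≠ 0) {F : IntermediateField L M}
    {t : Fin r → F} (ht : ∀ p, (t p : M) = wk S z lam p.succ.castSucc) :
    algebraMap L F (S.l (Fin.last (r + 1))) + 1 = - ∑ p, t p ^ (r + 2) *
      algebraMap K F ((s * lam ^ (r + 2)) ^ (S.wt p.succ.castSucc)) := by
  apply Subtype.ext
  have h1 := S.sysM.sum
  rw [Fin.sum_univ_castSucc, Fin.sum_univ_succ] at h1
  have h2 : S.lM (Fin.castSucc 0) = 1 := by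
    change algebraMap L M (S.l 0) = 1
    rw [h.l0, map_one]
  have h3 : ∀ p : Fin r, S.lM p.succ.castSucc = ((t p ^ (r + 2) *
      algebraMap K F ((s * lam ^ (r + 2)) ^ (S.wt p.succ.castSucc)) : F) : M) := fun p => by
    change _ = (t p : M) ^ (r + 2) * algebraMap K M _
    rw [ht]
    exact h.wk_pow hl _
  have h4 : ((- ∑ p, t p ^ (r + 2) * algebraMap K F ((s * lam ^ (r + 2)) ^
      (S.wt p.succ.castSucc)) : F) : M) = - ∑ p : Fin r, S.lM p.succ.castSucc := by
    rw [Finset.sum_congr rfl fun p _ => h3 p]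
    push_cast
    rfl
  rw [h4]
  change algebraMap L M (S.l (Fin.last (r + 1))) + 1 = _
  change S.lM (Fin.last (r + 1)) + 1 = _
  rw [h2] at h1
  linear_combination h1

theorem Fer.wt_mem (_ : Fer S s z w) {lam : K} {A : Subalgebra ℂ K} (hgA : s * lam ^ (r + 2) ∈ A)
    (k : Fin (r + 2)) : (s * lam ^ (r + 2)) ^ (S.wt k) ∈ A := by
  rcases S.wt01 k with h1 | h1
  · rw [h1, zpow_zero]
    exact A.one_mem
  · rw [h1, zpow_one]
    exact hgA

/-- **Residues on the section.** -/
theorem Fer.res (h : Fer S s z w) {lam : K} (hl : lam ≠ 0) {A : Subalgebra ℂ K}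
    {S₀ : Set (Place ℂ K)} (hA : CI A S₀) (hgA : s * lam ^ (r + 2) ∈ A) {c : Fin (S.s + 1)} {f₀ : K}
    (hu : S.u c = algebraMap K L f₀)
    (hf : ∀ i : Fin (r + 1), ∀ f' ∈ S.F i, (s * lam ^ (r + 2)) ^ (S.wt i.castSucc) * (f' / f₀) ∈ A)
    {b : M} (hb : IsIntegral (chart S.u c) b) {ζ : ℂ} (hζ : ζ ≠ 0) :
    HasRes A (fun p => wk S z lam p.succ.castSucc) (z (Fin.last (r + 1))) ζ b := by
  obtain ⟨F, t, ht, hgens, htop, hfin⟩ := h.mid hl
  have hsc : IsScalarTower K F M := IsScalarTower.of_algebraMap_eq fun c => rfl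
  have hsc2 : IsScalarTower ℂ K F := IsScalarTower.of_algebraMap_eq fun c => Subtype.ext (by
    change algebraMap ℂ M c = algebraMap K M (algebraMap ℂ K c)
    rw [← IsScalarTower.algebraMap_apply])
  have hsc3 : IsScalarTower ℂ F M := IsScalarTower.of_algebraMap_eq fun c => rfl
  have hlR : ∀ i : Fin (r + 1), algebraMap L F (S.l i.castSucc) ∈ RR A t := by
    intro i
    obtain ⟨τ, hτ, h1⟩ := h.lF hl ht i
    rw [h1]
    refine (RR A t).mul_mem ((RR A t).pow_mem ?_ _) (RR_base (h.wt_mem hgA _))
    rcases hτ with rfl | ⟨p, rfl⟩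
    · exact (RR A t).one_mem
    · exact RR_var p
  have hlast : algebraMap L F (S.l (Fin.last (r + 1))) ∈ RR A t := by
    have h1 := S.sys.sum
    rw [Fin.sum_univ_castSucc] at h1
    have h2 : S.l (Fin.last (r + 1)) = - ∑ i : Fin (r + 1), S.l i.castSucc := by
      linear_combination h1
    rw [h2, map_neg, map_sum]
    exact (RR A t).neg_mem ((RR A t).sum_mem fun i _ => hlR i)
  have hx : z (Fin.last (r + 1)) ^ (r + 2) =
      algebraMap F M (algebraMap L F (S.l (Fin.last (r + 1)))) := by
    rw [h.zN, S.wtl, neg_zero, zpow_zero, map_one, mul_one, ← IsScalarTower.algebraMap_apply]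
  refine resid (F := F) (t := t) (fun p => (ht p).symm) hA hgens (by omega) hx hlast htop hfin hζ
    (int_map (L := L) (fun a ha => ?_) hb)
  induction ha using Algebra.adjoin_induction with
  | mem a ha =>
    obtain ⟨c', rfl⟩ := ha
    change algebraMap L F (S.u c' / S.u c) ∈ _
    obtain ⟨i, f', hf', hu'⟩ := S.u_eq c'
    obtain ⟨τ, hτ, h1⟩ := h.lF hl ht i
    have h2 : algebraMap L F (S.u c' / S.u c) = τ ^ (r + 2) *
        algebraMap K F ((s * lam ^ (r + 2)) ^ (S.wt i.castSucc) * (f' / f₀)) := by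
      rw [hu', hu, mul_div_assoc, ← map_div₀, map_mul, h1, ← IsScalarTower.algebraMap_apply,
        mul_assoc, ← map_mul]
    rw [h2]
    refine (RR A t).mul_mem ((RR A t).pow_mem ?_ _) (RR_base (hf i f' hf'))
    rcases hτ with rfl | ⟨p, rfl⟩
    · exact (RR A t).one_mem
    · exact RR_var p
  | algebraMap c =>
    rw [← IsScalarTower.algebraMap_apply]
    exact (RR A t).algebraMap_mem c
  | add a b _ _ ha hb =>
    rw [map_add]
    exact (RR A t).add_mem ha hb
  | mul a b _ _ ha hb =>
    rw [map_mul]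
    exact (RR A t).mul_mem ha hb

/-- places with centre on the section -/
theorem Fer.exists_at (h : Fer S s z w) {lam : K} (hl : lam ≠ 0) {F : IntermediateField L M}
    {t : Fin r → F} (ht : ∀ p, (t p : M) = wk S z lam p.succ.castSucc)
    (htop : IntermediateField.adjoin F {z (Fin.last (r + 1))} = ⊤)
    (hfin : Module.finrank F M = r + 2) {A : Subalgebra ℂ K} (hgA : s * lam ^ (r + 2) ∈ A) {ζ : ℂ}
    (hζ : ζ ^ (r + 2) = -1) {P₀ : Place ℂ F} (hreg : ∀ a ∈ A, P₀.Reg (algebraMap K F a))
    (hP₀ : ∀ p, Ge P₀ 1 (t p)) : ∃ (P : Place ℂ M) (e : ℕ), Over P P₀ e ∧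
      GoodAt A (fun p => wk S z lam p.succ.castSucc) (z (Fin.last (r + 1))) ζ P := by
  have hsc : IsScalarTower K F M := IsScalarTower.of_algebraMap_eq fun c => rfl
  have hsc3 : IsScalarTower ℂ F M := IsScalarTower.of_algebraMap_eq fun c => rfl
  have hx : z (Fin.last (r + 1)) ^ (r + 2) =
      algebraMap F M (algebraMap L F (S.l (Fin.last (r + 1)))) := by
    rw [h.zN, S.wtl, neg_zero, zpow_zero, map_one, mul_one, ← IsScalarTower.algebraMap_apply]
  have ha : Ge P₀ 1 (algebraMap L F (S.l (Fin.last (r + 1))) + 1) := by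
    rw [h.lastF hl ht]
    refine (Ge.sum _ _ fun p _ => ?_).neg
    have h1 := ((hP₀ p).pow (r + 2)).mono (show (1 : ℤ) ≤ (r + 2 : ℕ) * 1 by push_cast; omega)
    have h2 := h1.mul (show Ge P₀ 0 _ from hreg _ (h.wt_mem hgA p.succ.castSucc))
    rwa [add_zero] at h2
  obtain ⟨P, e, hP, hroot⟩ := exists_root_place (by omega) hx htop hfin hζ ha
  have he : (1 : ℤ) ≤ e := by exact_mod_cast hP.1
  refine ⟨P, e, hP, fun a haA => ?_, fun p => ?_, hroot⟩
  · rw [IsScalarTower.algebraMap_apply K F M]
    exact hP.reg.2 (hreg a haA)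
  · rw [← ht]
    change Ge P 1 (algebraMap F M (t p))
    rcases hP₀ p with h1 | h1
    · left
      rw [h1, map_zero]
    · right
      rw [hP.2]
      nlinarith

/-- **The places over the places of `K` with centre on the section.** -/
theorem Fer.exists_sec (h : Fer S s z w) {lam : K} (hl : lam ≠ 0) {Q : Place ℂ K}
    (hQ : Divisorial n Q) (hn : 0 < n) {A : Subalgebra ℂ K} (hgA : s * lam ^ (r + 2) ∈ A)
    (hAQ : ∀ a ∈ A, Q.Reg a) {ζ : ℂ} (hζ : ζ ^ (r + 2) = -1) :
    ∃ (P : Place ℂ M) (e : ℕ), Divisorial (n + r) P ∧ Over P Q e ∧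
      GoodAt A (fun p => wk S z lam p.succ.castSucc) (z (Fin.last (r + 1))) ζ P := by
  have hessK := S.essK
  obtain ⟨F, t, ht, hgens, htop, hfin⟩ := h.mid hl
  have hsc : IsScalarTower K F M := IsScalarTower.of_algebraMap_eq fun c => rfl
  have hsc2 : IsScalarTower ℂ K F := IsScalarTower.of_algebraMap_eq fun c => Subtype.ext (by
    change algebraMap ℂ M c = algebraMap K M (algebraMap ℂ K c)
    rw [← IsScalarTower.algebraMap_apply])
  have hsc3 : IsScalarTower ℂ F M := IsScalarTower.of_algebraMap_eq fun c => rfl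
  obtain ⟨π, hπ0, hπ⟩ := Q.surj
  obtain ⟨t', ht'⟩ : ∃ t' : Fin r → F, t' = fun p => t p * algebraMap K F π⁻¹ := ⟨_, rfl⟩
  have htt : ∀ p, t p = t' p * algebraMap K F π := fun p => by
    rw [ht']
    change t p = t p * _ * _
    rw [mul_assoc, ← map_mul, inv_mul_cancel₀ hπ0, map_one, mul_one]
  have hgens' : Gens (k := K) t' := gens_change hgens fun p => by
    rw [htt]
    exact mul_mem (IntermediateField.subset_adjoin K _ ⟨p, rfl⟩)
      (IntermediateField.algebraMap_mem _ _)
  obtain ⟨P₀, hP₀⟩ := exists_gauss hgens' Q 0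
  have hg : IsGauss t' Q P₀ := hP₀
  obtain ⟨P, e, hP, hgood⟩ := h.exists_at hl ht htop hfin hgA hζ (P₀ := P₀) (fun a ha => by
    rcases hAQ a ha with h1 | h1
    · left
      rw [h1, map_zero]
    · right
      rwa [hg.base]) (fun p => by
    right
    rw [htt, P₀.ord_mul (by
      rintro h0
      have h1 := hgens.ne (X_ne_zero p)
      rw [aeval_X, htt, h0, zero_mul] at h1
      exact h1 rfl) (by rwa [Ne, map_eq_zero]), hg.var, hg.base, hπ, zero_add])
  refine ⟨P, e, divisorial_up hP (hg.divisorial hgens' hn hQ), ⟨hP.1, fun f => ?_⟩, hgood⟩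
  rw [IsScalarTower.algebraMap_apply K F M, hP.2, hg.base]

/-- **The place at the generic point of the section.** -/
theorem Fer.exists_gen (h : Fer S s z w) {ζ : ℂ} (hζ : ζ ^ (r + 2) = -1) :
    ∃ P : Place ℂ M, (∀ f : K, P.ord (algebraMap K M f) = 0) ∧
      (∀ p : Fin r, Ge P 1 (z p.succ.castSucc)) ∧
      Ge P 1 (z (Fin.last (r + 1)) - algebraMap ℂ M ζ) := by
  have hone : (1 : K) ≠ 0 := one_ne_zero
  obtain ⟨F, t, ht, hgens, htop, hfin⟩ := h.mid hone
  have hsc : IsScalarTower K F M := IsScalarTower.of_algebraMap_eq fun c => rfl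
  have hsc2 : IsScalarTower ℂ K F := IsScalarTower.of_algebraMap_eq fun c => Subtype.ext (by
    change algebraMap ℂ M c = algebraMap K M (algebraMap ℂ K c)
    rw [← IsScalarTower.algebraMap_apply])
  have hsc3 : IsScalarTower ℂ F M := IsScalarTower.of_algebraMap_eq fun c => rfl
  obtain ⟨p0, hp0⟩ : ∃ p0 : Fin r, p0 = ⟨0, h.rpos⟩ := ⟨_, rfl⟩
  have htne : ∀ p, t p ≠ 0 := fun p => by
    have h1 := hgens.ne (X_ne_zero p)
    rwa [aeval_X] at h1
  obtain ⟨u, hu⟩ : ∃ u : Fin r → F, u = fun p => if p = p0 then t p0 else t p / t p0 := ⟨_, rfl⟩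
  have hu0 : u p0 = t p0 := by rw [hu]; exact if_pos rfl
  have hup : ∀ p, p ≠ p0 → t p = u p * u p0 := fun p hp => by
    rw [hu0, hu]
    change t p = (if p = p0 then t p0 else t p / t p0) * t p0
    rw [if_neg hp]
    have := htne p0
    field_simp
  have hgens' : Gens (k := K) u := gens_change hgens fun p => by
    have h1 : ∀ p, u p ∈ IntermediateField.adjoin K (Set.range u) := fun p =>
      IntermediateField.subset_adjoin K _ ⟨p, rfl⟩
    by_cases hp : p = p0
    · rw [hp, ← hu0]
      exact h1 _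
    · rw [hup p hp]
      exact mul_mem (h1 _) (h1 _)
  obtain ⟨v, hv1, hv2⟩ := exists_adic hgens' (X_prime (R := K) (i := p0)).irreducible
  rw [aeval_X] at hv1
  have hvt : ∀ p, v.ord (t p) = 1 := by
    intro p
    by_cases hp : p = p0
    · rw [hp, ← hu0, hv1]
    · have h1 := (hv2 (X p) (X_ne_zero p)).2.2 (fun h1 => hp (X_dvd_X.1 h1).symm)
      rw [aeval_X] at h1
      have h2 : u p ≠ 0 := fun h0 => htne p (by rw [hup p hp, h0, zero_mul])
      have h3 : u p0 ≠ 0 := by rw [hu0]; exact htne p0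
      rw [hup p hp, v.ord_mul h2 h3, h1, hv1, zero_add]
  obtain ⟨P, e, hP, hgood⟩ := h.exists_at (A := ⊤) hone ht htop hfin Algebra.mem_top hζ
    (P₀ := restr v) (fun a _ => Or.inr (restr_triv v a).ge) (fun p => by
      right
      rw [restr_ord, hvt])
  refine ⟨P, fun f => ?_, fun p => ?_, hgood.root⟩
  · rw [IsScalarTower.algebraMap_apply K F M, hP.2, restr_triv, mul_zero]
  · have h1 := hgood.var p
    have h2 : wk S z 1 p.succ.castSucc = z p.succ.castSucc := by
      unfold wk
      rw [one_zpow, map_one, mul_one]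
    rwa [h2] at h1

end

end Pool.Agent.H890
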