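import Pool.Agent.H890.Res3

/-!
Fermat coverings: the restriction of divisors to the section.
-/

set_option autoImplicit false
set_option linter.unusedSectionVars false
set_option linter.overlappingInstances false

open FF MvPolynomial Pool.Agent.W602.GT Pool.Agent.W603.LV Pool.Agent.Y172
  Pool.Agent.TH122.AB Pool.Agent.R887

namespace Pool.Agent.H890

section base

variable {K : Type} [Field K] [Algebra ℂ K] {N n : ℕ} {y : Fin (N + 1) → K} {E E' : Place ℂ K → ℚ}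

/-- `f` generates `m E` at the centre of `Q` -/
def GenD (y : Fin (N + 1) → K) (m : ℕ) (E : Place ℂ K → ℚ) (Q : Place ℂ K) (f : K) : Prop :=
  f ≠ 0 ∧ ∀ P, IsPrimeDivisor y P → Through y P Q → (P.ord f : ℚ) = -(m * E P)

/-- `m E` is a Cartier divisor -/
def UGen (y : Fin (N + 1) → K) (n m : ℕ) (E : Place ℂ K → ℚ) : Prop :=
  ∀ Q, Divisorial n Q → ∃ f, GenD y m E Q f

theorem UGen.scale {m : ℕ} (h : UGen y n m E) (k : ℕ) : UGen y n (k * m) E := by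
  intro Q hQ
  obtain ⟨f, hf, h1⟩ := h Q hQ
  refine ⟨f ^ k, pow_ne_zero _ hf, fun P hP hPQ => ?_⟩
  rw [P.ord_pow]
  push_cast
  rw [h1 P hP hPQ]
  ring

theorem UGen.add {m : ℕ} (h : UGen y n m E) (h' : UGen y n m E') :
    UGen y n m (fun P => E P + E' P) := by
  intro Q hQ
  obtain ⟨f, hf, h1⟩ := h Q hQ
  obtain ⟨g, hg, h2⟩ := h' Q hQ
  refine ⟨f * g, mul_ne_zero hf hg, fun P hP hPQ => ?_⟩
  rw [P.ord_mul hf hg]
  push_cast
  rw [h1 P hP hPQ, h2 P hP hPQ]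
  ring

theorem UGen.neg {m : ℕ} (h : UGen y n m E) : UGen y n m (fun P => - E P) := by
  intro Q hQ
  obtain ⟨f, hf, h1⟩ := h Q hQ
  refine ⟨f⁻¹, inv_ne_zero hf, fun P hP hPQ => ?_⟩
  rw [P.ord_inv]
  push_cast
  rw [h1 P hP hPQ]
  ring

theorem UGen.congr {m : ℕ} (h : UGen y n m E) (he : ∀ P, IsPrimeDivisor y P → E P = E' P) :
    UGen y n m E' := by
  intro Q hQ
  obtain ⟨f, hf, h1⟩ := h Q hQ
  exact ⟨f, hf, fun P hP hPQ => by rw [h1 P hP hPQ, he P hP]⟩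

theorem SemiampleDivisor.ugen (h : SemiampleDivisor y n E) : ∃ m : ℕ, 1 ≤ m ∧ UGen y n m E := by
  obtain ⟨m, hm, h1⟩ := h
  refine ⟨m, hm, fun Q hQ => ?_⟩
  obtain ⟨f, hf, h2⟩ := h1 Q hQ
  exact ⟨f, hf.1, h2⟩

theorem hyperplane_ugen (hy : NormalModel y) {H : Place ℂ K → ℚ} (hH : Hyperplane y H) :
    UGen y n 1 H := by
  obtain ⟨a, ha, hHo⟩ := hH
  intro Q hQ
  obtain ⟨l, hl⟩ := exists_centred hy Q
  refine ⟨y l / y a, div_ne_zero hl.1 ha, fun P hP hPQ => ?_⟩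
  rw [hHo P l hP (hPQ.centred hl), P.ord_div hl.1 ha, P.ord_div ha hl.1]
  push_cast
  ring

theorem NefDivisor.ugen (hy : NormalModel y) (h : NefDivisor y n E) :
    ∃ m : ℕ, 1 ≤ m ∧ UGen y n m E := by
  obtain ⟨a₀, ha₀⟩ := hy.ne
  obtain ⟨H, hH, hHo⟩ := exists_hyperplane hy ha₀
  obtain ⟨m, hm, h1⟩ := (h H hH 1 le_rfl).ugen
  have h2 := ((hyperplane_ugen (n := n) hy hH).scale m).neg
  rw [mul_one] at h2
  exact ⟨m, hm, (h1.add h2).congr fun P _ => by push_cast; ring⟩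

theorem SemiampleDivisor.congr (h : SemiampleDivisor y n E)
    (he : ∀ P, IsPrimeDivisor y P → E P = E' P) : SemiampleDivisor y n E' := by
  obtain ⟨m, hm, h1⟩ := h
  refine ⟨m, hm, fun Q hQ => ?_⟩
  obtain ⟨f, hf, h2⟩ := h1 Q hQ
  refine ⟨f, ⟨hf.1, fun P hP => ?_⟩, fun P hP hPQ => ?_⟩
  · change -((m : ℚ) * E' P) ≤ _
    rw [← he P hP]
    exact hf.2 P hP
  · rw [← he P hP]
    exact h2 P hP hPQ

theorem SemiampleDivisor.add (h : SemiampleDivisor y n E) (h' : SemiampleDivisor y n E') :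
    SemiampleDivisor y n (fun P => E P + E' P) := by
  obtain ⟨m, hm, h1⟩ := h
  obtain ⟨m', hm', h1'⟩ := h'
  refine ⟨m * m', Nat.mul_pos hm hm', fun Q hQ => ?_⟩
  obtain ⟨f, hf, h2⟩ := h1 Q hQ
  obtain ⟨g, hg, h3⟩ := h1' Q hQ
  have hm0 : (0 : ℚ) ≤ m := Nat.cast_nonneg m
  have hm0' : (0 : ℚ) ≤ m' := Nat.cast_nonneg m'
  refine ⟨f ^ m' * g ^ m, ⟨mul_ne_zero (pow_ne_zero _ hf.1) (pow_ne_zero _ hg.1),
    fun P hP => ?_⟩, fun P hP hPQ => ?_⟩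
  · rw [P.ord_mul (pow_ne_zero _ hf.1) (pow_ne_zero _ hg.1), P.ord_pow, P.ord_pow]
    have h4 := mul_le_mul_of_nonneg_left (hf.2 P hP) hm0'
    have h5 := mul_le_mul_of_nonneg_left (hg.2 P hP) hm0
    push_cast
    linarith
  · rw [P.ord_mul (pow_ne_zero _ hf.1) (pow_ne_zero _ hg.1), P.ord_pow, P.ord_pow]
    push_cast
    rw [h2 P hP hPQ, h3 P hP hPQ]
    ring

/-- multiples -/
theorem SemiampleDivisor.unscale {k : ℕ} (hk : 1 ≤ k)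
    (h : SemiampleDivisor y n (fun P => k * E P)) : SemiampleDivisor y n E := by
  obtain ⟨m, hm, h1⟩ := h
  refine ⟨m * k, Nat.mul_pos hm hk, fun Q hQ => ?_⟩
  obtain ⟨f, hf, h2⟩ := h1 Q hQ
  refine ⟨f, ⟨hf.1, fun P hP => ?_⟩, fun P hP hPQ => ?_⟩
  · have h3 := hf.2 P hP
    push_cast
    rw [mul_assoc]
    exact h3
  · have h3 := h2 P hP hPQ
    push_cast
    rw [mul_assoc]
    exact h3

/-- linear equivalence -/
theorem SemiampleDivisor.shift {k : K} (hk : k ≠ 0)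
    (h : SemiampleDivisor y n (fun P => E P + P.ord k)) : SemiampleDivisor y n E := by
  obtain ⟨m, hm, h1⟩ := h
  refine ⟨m, hm, fun Q hQ => ?_⟩
  obtain ⟨f, hf, h2⟩ := h1 Q hQ
  refine ⟨f * k ^ m, ⟨mul_ne_zero hf.1 (pow_ne_zero _ hk), fun P hP => ?_⟩, fun P hP hPQ => ?_⟩
  · have h3 : -((m : ℚ) * (E P + P.ord k)) ≤ P.ord f := hf.2 P hP
    rw [P.ord_mul hf.1 (pow_ne_zero _ hk), P.ord_pow]
    push_cast
    linarith
  · have h3 : (P.ord f : ℚ) = -((m : ℚ) * (E P + P.ord k)) := h2 P hP hPQ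
    rw [P.ord_mul hf.1 (pow_ne_zero _ hk), P.ord_pow]
    push_cast
    rw [h3]
    ring

theorem hyperplane_semi (hy : NormalModel y) {H : Place ℂ K → ℚ} (hH : Hyperplane y H) :
    SemiampleDivisor y n H := by
  obtain ⟨a, ha, hHo⟩ := hH
  refine ⟨1, le_rfl, fun Q hQ => ?_⟩
  obtain ⟨l, hl⟩ := exists_centred hy Q
  refine ⟨y l / y a, ⟨div_ne_zero hl.1 ha, fun P hP => ?_⟩, fun P hP hPQ => ?_⟩
  · obtain ⟨l', hl'⟩ := exists_centred hy P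
    change -(((1 : ℕ) : ℚ) * H P) ≤ _
    rw [hHo P l' hP hl', P.ord_div hl.1 ha, P.ord_div ha hl'.1]
    have h1 : (P.ord (y l') : ℚ) ≤ P.ord (y l) := by exact_mod_cast cen_ord hl' hl.1
    push_cast
    linarith
  · rw [hHo P l hP (hPQ.centred hl), P.ord_div hl.1 ha, P.ord_div ha hl.1]
    push_cast
    ring

end base

section

variable {K L M : Type} [Field K] [Field L] [Field M] [Algebra ℂ K] [Algebra ℂ L]
  [Algebra ℂ M] [Algebra K L] [Algebra L M] [Algebra K M] [IsScalarTower ℂ K L]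
  [IsScalarTower ℂ L M] [IsScalarTower ℂ K M] [IsScalarTower K L M] [FiniteDimensional L M]
  {N : ℕ} {y : Fin (N + 1) → K} {n r : ℕ} {G : Place ℂ K → ℤ}
  {S : Mod K L M y n r G} {s : K} {z : Fin (r + 2) → M} {w : ℤ} {ζ : ℂ} {W : Place ℂ M}

/-- the section -/
structure SecD (S : Mod K L M y n r G) (s : K) (z : Fin (r + 2) → M) (w : ℤ) (ζ : ℂ)
    (W : Place ℂ M) : Prop where
  fer : Fer S s z w
  z0 : ζ ≠ 0
  loc : ∀ Q, Divisorial n Q → ∃ lam f₀ c, LocD S s Q lam f₀ c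
  sec : ∀ Q, Divisorial n Q → ∃ P, SecAt S s z ζ Q P
  gen : GenAt K z ζ W
  ex : ∃ Q : Place ℂ K, Divisorial n Q

theorem SecD.res (h : SecD S s z w ζ W) {Q : Place ℂ K} (hQ : Divisorial n Q) {P : Place ℂ M}
    (hP : SecAt S s z ζ Q P) {b : M} (hb : b ∈ localRing S.v P) {κ : K}
    (hκ : Ge W 1 (b - algebraMap K M κ)) : κ ∈ lsub y Q := by
  obtain ⟨-, κ', hκ', h1⟩ := hP.gen h.fer h.z0 (h.loc Q hQ) h.gen hb
  rwa [h.gen.unique hκ h1]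

theorem SecD.mem (h : SecD S s z w ζ W) {Q : Place ℂ K} (hQ : Divisorial n Q) {P : Place ℂ M}
    (hP : SecAt S s z ζ Q P) {b : M} (hb : b ∈ localRing S.v P) : b ∈ localRing S.v W :=
  (hP.gen h.fer h.z0 (h.loc Q hQ) h.gen hb).1

theorem SecD.throughW (h : SecD S s z w ζ W) {Q : Place ℂ K} (hQ : Divisorial n Q)
    {P P' : Place ℂ M} (hP : SecAt S s z ζ Q P) (hT : Through S.v P' W) : Through S.v P' P :=
  fun _ hf => hT _ (h.mem hQ hP hf)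

/-- units have nonzero residues -/
theorem SecD.unitW (h : SecD S s z w ζ W) {b : M} (hb0 : b ≠ 0)
    (hb : ∀ P', IsPrimeDivisor S.v P' → Through S.v P' W → P'.ord b = 0) :
    ∃ κ : K, κ ≠ 0 ∧ Ge W 1 (b - algebraMap K M κ) := by
  have h1 : b ∈ localRing S.v W := mem_localRing_of_reg S.nv fun P' hP' hT =>
    Or.inr (hb P' hP' hT).ge
  have h2 : b⁻¹ ∈ localRing S.v W := mem_localRing_of_reg S.nv fun P' hP' hT =>
    Or.inr (by rw [P'.ord_inv, hb P' hP' hT, neg_zero])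
  have h3 := reg_ord_nonneg (localRing_reg h1)
  have h4 := reg_ord_nonneg (localRing_reg h2)
  rw [W.ord_inv] at h4
  obtain ⟨Q, hQ⟩ := h.ex
  obtain ⟨κ, hκ⟩ := h.gen.res h.fer h.z0 (h.loc Q hQ) h1
  refine ⟨κ, ?_, hκ⟩
  rintro rfl
  rw [map_zero, sub_zero] at hκ
  rcases hκ with h5 | h5
  · exact hb0 h5
  · omega

/-- the residues of units are units -/
theorem SecD.unit (h : SecD S s z w ζ W) {Q : Place ℂ K} (hQ : Divisorial n Q) {P : Place ℂ M}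
    (hP : SecAt S s z ζ Q P) {b : M} (hb0 : b ≠ 0)
    (hb : ∀ P', IsPrimeDivisor S.v P' → Through S.v P' P → P'.ord b = 0) {κ : K}
    (hκ : Ge W 1 (b - algebraMap K M κ)) {D : Place ℂ K} (hD : IsPrimeDivisor y D)
    (hDQ : Through y D Q) : κ ≠ 0 ∧ D.ord κ = 0 := by
  have h1 : b ∈ localRing S.v P := mem_localRing_of_reg S.nv fun P' hP' hT =>
    Or.inr (hb P' hP' hT).ge
  have h2 : b⁻¹ ∈ localRing S.v P := mem_localRing_of_reg S.nv fun P' hP' hT =>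
    Or.inr (by rw [P'.ord_inv, hb P' hP' hT, neg_zero])
  obtain ⟨κ', hκ'0, hκ'⟩ := h.unitW (inv_ne_zero hb0) fun P' hP' hT => by
    rw [P'.ord_inv, hb P' hP' (h.throughW hQ hP hT), neg_zero]
  have h3 := h.res hQ hP h1 hκ
  have h4 := h.res hQ hP h2 hκ'
  have h5 := ge_mul hκ hκ' (Or.inr (h.gen.triv κ).ge) (Or.inr (h.gen.triv κ').ge)
  rw [mul_inv_cancel₀ hb0, ← map_mul] at h5
  have h6 : Ge W 1 ((1 : M) - algebraMap K M 1) := by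
    rw [map_one, sub_self]
    exact Ge.zero
  have h7 : κ * κ' = 1 := h.gen.unique h5 h6
  have hκ0 : κ ≠ 0 := left_ne_zero_of_mul_eq_one h7
  have h8 := reg_ord_nonneg (h3 D hD hDQ)
  have h9 := reg_ord_nonneg (h4 D hD hDQ)
  have h10 : D.ord κ + D.ord κ' = 0 := by
    rw [← D.ord_mul hκ0 hκ'0, h7, D.ord_one]
  exact ⟨hκ0, by omega⟩

/-- the divisor `E₀` is the restriction of `E'` to the section -/
structure IsRes (S : Mod K L M y n r G) (s : K) (z : Fin (r + 2) → M) (ζ : ℂ) (W : Place ℂ M)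
    (m : ℕ) (E' : Place ℂ M → ℚ) (E₀ : Place ℂ K → ℚ) (f₀ : M) : Prop where
  ne : f₀ ≠ 0
  loc : ∀ Q, Divisorial n Q → ∀ P, SecAt S s z ζ Q P → ∃ f, GenD S.v m E' P f ∧
    ∃ κ : K, κ ≠ 0 ∧ Ge W 1 (f₀ / f - algebraMap K M κ) ∧
      ∀ D, IsPrimeDivisor y D → Through y D Q → (D.ord κ : ℚ) = m * E₀ D

/-- **Existence of the restriction.** -/
theorem SecD.exists_res (h : SecD S s z w ζ W) {m : ℕ} (hm : 1 ≤ m) {E' : Place ℂ M → ℚ}
    (hE' : UGen S.v (n + r) m E') : ∃ E₀ f₀, IsRes S s z ζ W m E' E₀ f₀ := by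
  classical
  have hessK := S.essK
  obtain ⟨Q₀, hQ₀⟩ := h.ex
  obtain ⟨P₀, hP₀⟩ := h.sec Q₀ hQ₀
  obtain ⟨f₀, hf₀, hf₀P⟩ := hE' P₀ hP₀.div
  have key : ∀ Q, Divisorial n Q → ∀ P, SecAt S s z ζ Q P → ∀ f, GenD S.v m E' P f →
      ∃ κ : K, κ ≠ 0 ∧ Ge W 1 (f₀ / f - algebraMap K M κ) := by
    intro Q hQ P hP f hf
    refine h.unitW (div_ne_zero hf₀ hf.1) fun P' hP' hT => ?_
    have h1 := hf₀P P' hP' (h.throughW hQ₀ hP₀ hT)
    have h2 := hf.2 P' hP' (h.throughW hQ hP hT)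
    rw [P'.ord_div hf₀ hf.1]
    have h3 : ((P'.ord f₀ - P'.ord f : ℤ) : ℚ) = 0 := by
      push_cast
      rw [h1, h2, sub_self]
    exact_mod_cast h3
  have hD : ∀ D : Place ℂ K, ∃ κ : K, Divisorial n D → ∃ P f, SecAt S s z ζ D P ∧
      GenD S.v m E' P f ∧ κ ≠ 0 ∧ Ge W 1 (f₀ / f - algebraMap K M κ) := by
    intro D
    by_cases hD : Divisorial n D
    · obtain ⟨P, hP⟩ := h.sec D hD
      obtain ⟨f, hf⟩ := hE' P hP.div
      obtain ⟨κ, hκ0, hκ⟩ := key D hD P hP f hf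
      exact ⟨κ, fun _ => ⟨P, f, hP, hf, hκ0, hκ⟩⟩
    · exact ⟨0, fun h1 => absurd h1 hD⟩
  choose κ₀ hκ₀ using hD
  have hm0 : (m : ℚ) ≠ 0 := by exact_mod_cast (show m ≠ 0 by omega)
  refine ⟨fun D => D.ord (κ₀ D) / m, f₀, hf₀, fun Q hQ P hP => ?_⟩
  obtain ⟨f, hf⟩ := hE' P hP.div
  obtain ⟨κ, hκ0, hκ⟩ := key Q hQ P hP f hf
  refine ⟨f, hf, κ, hκ0, hκ, fun D hD hDQ => ?_⟩
  have hDd := hD.divisorial S.ny h.fer.trK
  obtain ⟨P₁, g, hP₁, hg, h1, h2⟩ := hκ₀ D hDd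
  have hu : ∀ P', IsPrimeDivisor S.v P' → Through S.v P' P₁ → P'.ord (g / f) = 0 := by
    intro P' hP' hT
    have h3 := hg.2 P' hP' hT
    have h4 := hf.2 P' hP' fun b hb =>
      hT _ (hP.le h.fer h.z0 (h.loc Q hQ) hP₁ hD hDQ hb)
    rw [P'.ord_div hg.1 hf.1]
    have h5 : ((P'.ord g - P'.ord f : ℤ) : ℚ) = 0 := by
      push_cast
      rw [h3, h4, sub_self]
    exact_mod_cast h5
  have hgf : g / f ≠ 0 := div_ne_zero hg.1 hf.1
  obtain ⟨μ, hμ0, hμ⟩ := h.unitW hgf fun P' hP' hT => hu P' hP' (h.throughW hDd hP₁ hT)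
  have h3 := h.unit hDd hP₁ hgf hu hμ hD (through_self D)
  have h4 := ge_mul h2 hμ (Or.inr (h.gen.triv _).ge) (Or.inr (h.gen.triv _).ge)
  have h5 : f₀ / g * (g / f) = f₀ / f := by
    have := hg.1
    field_simp
  rw [h5, ← map_mul] at h4
  have h6 : κ = κ₀ D * μ := h.gen.unique hκ h4
  rw [h6, D.ord_mul h1 hμ0, h3.2, add_zero]
  field_simp

theorem ge_pow (h : GenAt K z ζ W) {a : M} {κ : K} (ha : Ge W 1 (a - algebraMap K M κ)) (k : ℕ) :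
    Ge W 1 (a ^ k - algebraMap K M (κ ^ k)) := by
  induction k with
  | zero =>
    rw [pow_zero, pow_zero, map_one, sub_self]
    exact Ge.zero
  | succ k ih =>
    have h1 := ge_mul ih ha (Or.inr (h.triv _).ge) (Or.inr (h.triv _).ge)
    rwa [← map_mul, ← pow_succ, ← pow_succ] at h1

theorem ge_inv (h : GenAt K z ζ W) {a : M} {κ : K} (ha : Ge W 1 (a - algebraMap K M κ))
    (hκ : κ ≠ 0) : Ge W 1 (a⁻¹ - algebraMap K M κ⁻¹) := by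
  have h1 : Ge W 1 ((1 : M) - algebraMap K M 1) := by
    rw [map_one, sub_self]
    exact Ge.zero
  have h2 := ge_div h1 ha (by rwa [Ne, map_eq_zero]) (h.triv κ) (Or.inr (h.triv 1).ge)
  rwa [← map_div₀, one_div, one_div] at h2

/-- sums -/
theorem IsRes.add (hW : GenAt K z ζ W) {m : ℕ} {E' E'' : Place ℂ M → ℚ} {E₀ E₁ : Place ℂ K → ℚ}
    {f₀ f₁ : M} (h : IsRes S s z ζ W m E' E₀ f₀) (h' : IsRes S s z ζ W m E'' E₁ f₁) :
    IsRes S s z ζ W m (fun P => E' P + E'' P) (fun D => E₀ D + E₁ D) (f₀ * f₁) := by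
  refine ⟨mul_ne_zero h.ne h'.ne, fun Q hQ P hP => ?_⟩
  obtain ⟨f, hf, κ, hκ0, hκ, hκD⟩ := h.loc Q hQ P hP
  obtain ⟨g, hg, μ, hμ0, hμ, hμD⟩ := h'.loc Q hQ P hP
  refine ⟨f * g, ⟨mul_ne_zero hf.1 hg.1, fun P' hP' hT => ?_⟩, κ * μ, mul_ne_zero hκ0 hμ0, ?_,
    fun D hD hDQ => ?_⟩
  · rw [P'.ord_mul hf.1 hg.1]
    push_cast
    rw [hf.2 P' hP' hT, hg.2 P' hP' hT]
    ring
  · have h1 := ge_mul hκ hμ (Or.inr (hW.triv _).ge) (Or.inr (hW.triv _).ge)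
    rw [← map_mul] at h1
    have h2 : f₀ * f₁ / (f * g) = f₀ / f * (f₁ / g) := by
      rw [div_mul_div_comm]
    rwa [h2]
  · rw [D.ord_mul hκ0 hμ0]
    push_cast
    rw [hκD D hD hDQ, hμD D hD hDQ]
    ring

/-- multiples -/
theorem IsRes.nsmul (hW : GenAt K z ζ W) {m : ℕ} {E' : Place ℂ M → ℚ} {E₀ : Place ℂ K → ℚ}
    {f₀ : M} (h : IsRes S s z ζ W m E' E₀ f₀) (k : ℕ) :
    IsRes S s z ζ W m (fun P => k * E' P) (fun D => k * E₀ D) (f₀ ^ k) := by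
  refine ⟨pow_ne_zero _ h.ne, fun Q hQ P hP => ?_⟩
  obtain ⟨f, hf, κ, hκ0, hκ, hκD⟩ := h.loc Q hQ P hP
  refine ⟨f ^ k, ⟨pow_ne_zero _ hf.1, fun P' hP' hT => ?_⟩, κ ^ k, pow_ne_zero _ hκ0, ?_,
    fun D hD hDQ => ?_⟩
  · rw [P'.ord_pow]
    push_cast
    rw [hf.2 P' hP' hT]
    ring
  · rw [← div_pow]
    exact ge_pow hW hκ k
  · rw [D.ord_pow]
    push_cast
    rw [hκD D hD hDQ]
    ring

theorem IsRes.scale (hW : GenAt K z ζ W) {m : ℕ} {E' : Place ℂ M → ℚ} {E₀ : Place ℂ K → ℚ}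
    {f₀ : M} (h : IsRes S s z ζ W m E' E₀ f₀) (k : ℕ) :
    IsRes S s z ζ W (k * m) E' E₀ (f₀ ^ k) := by
  refine ⟨pow_ne_zero _ h.ne, fun Q hQ P hP => ?_⟩
  obtain ⟨f, hf, κ, hκ0, hκ, hκD⟩ := h.loc Q hQ P hP
  refine ⟨f ^ k, ⟨pow_ne_zero _ hf.1, fun P' hP' hT => ?_⟩, κ ^ k, pow_ne_zero _ hκ0, ?_,
    fun D hD hDQ => ?_⟩
  · rw [P'.ord_pow]
    push_cast
    rw [hf.2 P' hP' hT]
    ring
  · rw [← div_pow]
    exact ge_pow hW hκ k
  · rw [D.ord_pow]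
    push_cast
    rw [hκD D hD hDQ]
    ring

theorem IsRes.neg (hW : GenAt K z ζ W) {m : ℕ} {E' : Place ℂ M → ℚ} {E₀ : Place ℂ K → ℚ}
    {f₀ : M} (h : IsRes S s z ζ W m E' E₀ f₀) :
    IsRes S s z ζ W m (fun P => - E' P) (fun D => - E₀ D) f₀⁻¹ := by
  refine ⟨inv_ne_zero h.ne, fun Q hQ P hP => ?_⟩
  obtain ⟨f, hf, κ, hκ0, hκ, hκD⟩ := h.loc Q hQ P hP
  refine ⟨f⁻¹, ⟨inv_ne_zero hf.1, fun P' hP' hT => ?_⟩, κ⁻¹, inv_ne_zero hκ0, ?_,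
    fun D hD hDQ => ?_⟩
  · rw [P'.ord_inv]
    push_cast
    rw [hf.2 P' hP' hT]
    ring
  · have h1 : f₀⁻¹ / f⁻¹ = (f₀ / f)⁻¹ := by
      rw [inv_div_inv, inv_div]
    rw [h1]
    exact ge_inv hW hκ hκ0
  · rw [D.ord_inv]
    push_cast
    rw [hκD D hD hDQ]
    ring

/-- the pull-back of a divisor restricts to the divisor -/
theorem SecD.res_pb (h : SecD S s z w ζ W) {m : ℕ} {E : Place ℂ K → ℚ} (hE : UGen y n m E) :
    IsRes S s z ζ W m (pb y M E) E 1 := by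
  refine ⟨one_ne_zero, fun Q hQ P hP => ?_⟩
  obtain ⟨g, hg0, hg⟩ := hE Q hQ
  obtain ⟨e, hPQ⟩ := hP.ovr
  have hc := h.fer.cov
  refine ⟨algebraMap K M g, ⟨by rwa [Ne, map_eq_zero], fun P' hP' hT => ?_⟩, g⁻¹, inv_ne_zero hg0,
    ?_, fun D hD hDQ => ?_⟩
  · rcases hc.cases hP' with htr | ⟨D, hD, hPD⟩
    · rw [pb_triv htr, htr]
      simp
    · rw [pb_over hD hPD, hPD]
      exact hg D hD (hc.through hT hPQ (over_of_eq hPD))
  · rw [one_div, ← map_inv₀, sub_self]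
    exact Ge.zero
  · rw [D.ord_inv]
    push_cast
    rw [hg D hD hDQ]
    ring

/-- hyperplane sections -/
theorem SecD.res_hyper (h : SecD S s z w ζ W) {a : Fin (N + 1)} (ha : y a ≠ 0)
    {H : Place ℂ K → ℚ} (hH : ∀ P l, IsPrimeDivisor y P → Centred y l P → H P = P.ord (y a / y l))
    {c₁ : Fin (S.s + 1)} {H' : Place ℂ M → ℚ}
    (hH' : ∀ P l, IsPrimeDivisor S.v P → Centred S.v l P → H' P = P.ord (S.v (S.j c₁) / S.v l)) :
    ∃ k : K, k ≠ 0 ∧ ∃ f₀, IsRes S s z ζ W 1 H'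
      (fun D => ((S.d * S.c : ℕ) : ℚ) * H D + D.ord k) f₀ := by
  obtain ⟨Q₀, hQ₀⟩ := h.ex
  obtain ⟨lam₀, g₀, c₀, hd₀⟩ := h.loc Q₀ hQ₀
  refine ⟨g₀ ^ S.d / y a ^ (S.d * S.c), div_ne_zero (pow_ne_zero _ hd₀.f0) (pow_ne_zero _ ha),
    algebraMap K M g₀ ^ S.d / S.v (S.j c₁), div_ne_zero (pow_ne_zero _ (by
      rw [Ne, map_eq_zero]
      exact hd₀.f0)) (S.vj_ne c₁), fun Q hQ P hP => ?_⟩
  obtain ⟨lam, g, c, hd⟩ := h.loc Q hQ
  have hcen := (hd.cen h.fer (hP.good lam hd.lam0 hd.g)).centred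
  have hg0 : algebraMap K M g ≠ 0 := by
    rw [Ne, map_eq_zero]
    exact hd.f0
  have hvj : S.v (S.j c) = algebraMap K M g ^ S.d := by
    rw [S.vj, hd.u, ← IsScalarTower.algebraMap_apply]
  refine ⟨S.v (S.j c) / S.v (S.j c₁), ⟨div_ne_zero (S.vj_ne c) (S.vj_ne c₁), fun P' hP' hT => ?_⟩,
    (g₀ / g) ^ S.d, pow_ne_zero _ (div_ne_zero hd₀.f0 hd.f0), ?_, fun D hD hDQ => ?_⟩
  · rw [hH' P' _ hP' (hT.centred hcen), P'.ord_div (S.vj_ne c) (S.vj_ne c₁),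
      P'.ord_div (S.vj_ne c₁) (S.vj_ne c)]
    push_cast
    ring
  · have h1 : algebraMap K M g₀ ^ S.d / S.v (S.j c₁) / (S.v (S.j c) / S.v (S.j c₁)) =
        algebraMap K M ((g₀ / g) ^ S.d) := by
      have := S.vj_ne c₁
      rw [div_div_div_cancel_right₀ this, hvj, ← div_pow, ← map_div₀, ← map_pow]
    rw [h1, sub_self]
    exact Ge.zero
  · obtain ⟨j, hj⟩ := exists_centred S.ny D
    rw [hH D j hD hj, D.ord_pow, D.ord_div hd₀.f0 hd.f0, hd.f D hD hDQ j hj, D.ord_div ha hj.1,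
      D.ord_div (pow_ne_zero _ hd₀.f0) (pow_ne_zero _ ha), D.ord_pow, D.ord_pow]
    push_cast
    ring

/-- **The restriction of a semiample divisor is semiample.** -/
theorem SecD.semi (h : SecD S s z w ζ W) {m : ℕ} (hm : 1 ≤ m) {E' : Place ℂ M → ℚ}
    {E₀ : Place ℂ K → ℚ} {f₀ : M} (hr : IsRes S s z ζ W m E' E₀ f₀)
    (hE' : SemiampleDivisor S.v (n + r) E') : SemiampleDivisor y n E₀ := by
  have hessK := S.essK
  obtain ⟨m₁, hm₁, hsec⟩ := hE'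
  refine ⟨m * m₁, Nat.mul_pos hm hm₁, fun Q hQ => ?_⟩
  obtain ⟨P, hP⟩ := h.sec Q hQ
  obtain ⟨f, hf, hfP⟩ := hsec P hP.div
  obtain ⟨g, hg, κ, hκ0, hκ, hκD⟩ := hr.loc Q hQ P hP
  have hf0 := hf.1
  have hg0 := hg.1
  have hf₀ := hr.ne
  -- the residue
  have hord : ∀ P', IsPrimeDivisor S.v P' → Through S.v P' P →
      P'.ord (f ^ m / g ^ m₁) = 0 := by
    intro P' hP' hT
    rw [P'.ord_div (pow_ne_zero _ hf0) (pow_ne_zero _ hg0), P'.ord_pow, P'.ord_pow]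
    have h1 : ((m * P'.ord f - m₁ * P'.ord g : ℤ) : ℚ) = 0 := by
      push_cast
      rw [hfP P' hP' hT, hg.2 P' hP' hT]
      ring
    exact_mod_cast h1
  have hne : f ^ m / g ^ m₁ ≠ 0 := div_ne_zero (pow_ne_zero _ hf0) (pow_ne_zero _ hg0)
  obtain ⟨κ', hκ'0, hκ'⟩ := h.unitW hne fun P' hP' hT => hord P' hP' (h.throughW hQ hP hT)
  have hu : ∀ {g : M} {κ κ' : K}, g ≠ 0 → κ ≠ 0 → Ge W 1 (f₀ / g - algebraMap K M κ) →
      Ge W 1 (f ^ m / g ^ m₁ - algebraMap K M κ') →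
      Ge W 1 (f ^ m / f₀ ^ m₁ - algebraMap K M (κ' / κ ^ m₁)) := by
    intro g κ κ' hg0 hκ0 h1 h2
    have h3 := ge_div h2 (ge_pow h.gen h1 m₁) (by
      rw [Ne, map_eq_zero]
      exact pow_ne_zero _ hκ0) (h.gen.triv _) (Or.inr (h.gen.triv _).ge)
    rw [← map_div₀, div_pow, div_div_div_cancel_right₀ (pow_ne_zero _ hg0)] at h3
    exact h3
  have hu1 := hu hg0 hκ0 hκ hκ'
  have hm0 : (0 : ℚ) ≤ m := Nat.cast_nonneg m
  have hm10 : (0 : ℚ) ≤ m₁ := Nat.cast_nonneg m₁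
  refine ⟨κ' / κ ^ m₁, ⟨div_ne_zero hκ'0 (pow_ne_zero _ hκ0), fun D hD => ?_⟩,
    fun D hD hDQ => ?_⟩
  · have hDd := hD.divisorial S.ny h.fer.trK
    obtain ⟨P₁, hP₁⟩ := h.sec D hDd
    obtain ⟨g₁, hg₁, κ₁, hκ₁0, hκ₁, hκ₁D⟩ := hr.loc D hDd P₁ hP₁
    have hmem : f ^ m / g₁ ^ m₁ ∈ localRing S.v P₁ := by
      refine mem_localRing_of_reg S.nv fun P' hP' hT => Or.inr ?_
      rw [P'.ord_div (pow_ne_zero _ hf0) (pow_ne_zero _ hg₁.1), P'.ord_pow, P'.ord_pow]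
      have h1 : -((m₁ : ℚ) * E' P') ≤ P'.ord f := hf.2 P' hP'
      have h2 := mul_le_mul_of_nonneg_left h1 hm0
      have h3 : (0 : ℚ) ≤ ((m * P'.ord f - m₁ * P'.ord g₁ : ℤ) : ℚ) := by
        push_cast
        rw [hg₁.2 P' hP' hT]
        linarith
      exact_mod_cast h3
    obtain ⟨κ₂, hκ₂⟩ := h.gen.res h.fer h.z0 (h.loc Q hQ) (h.mem hDd hP₁ hmem)
    have h4 := h.res hDd hP₁ hmem hκ₂
    have h5 := h.gen.unique hu1 (hu hg₁.1 hκ₁0 hκ₁ hκ₂)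
    have hκ₂0 : κ₂ ≠ 0 := by
      rintro rfl
      rw [zero_div] at h5
      exact div_ne_zero hκ'0 (pow_ne_zero _ hκ0) h5
    have h6 := reg_ord_nonneg (h4 D hD (through_self D))
    rw [h5, D.ord_div hκ₂0 (pow_ne_zero _ hκ₁0), D.ord_pow]
    have h7 := hκ₁D D hD (through_self D)
    have h8 : (0 : ℚ) ≤ D.ord κ₂ := by exact_mod_cast h6
    push_cast
    rw [h7]
    nlinarith
  · have h7 := (h.unit hQ hP hne hord hκ' hD hDQ).2
    rw [D.ord_div hκ'0 (pow_ne_zero _ hκ0), D.ord_pow, h7]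
    push_cast
    rw [hκD D hD hDQ]
    ring

/-- **The restriction of a nef divisor is nef.** -/
theorem SecD.nef (h : SecD S s z w ζ W) {m : ℕ} (hm : 1 ≤ m) {E' : Place ℂ M → ℚ}
    {E₀ : Place ℂ K → ℚ} {f₀ : M} (hr : IsRes S s z ζ W m E' E₀ f₀)
    (hE' : NefDivisor S.v (n + r) E') : NefDivisor y n E₀ := by
  rintro H hH q hq
  obtain ⟨a, ha, hHo⟩ := hH
  obtain ⟨H', hH', hHo'⟩ := exists_hyperplane S.nv (S.vj_ne 0)
  obtain ⟨k, hk, f₁, hr1⟩ := h.res_hyper ha hHo (c₁ := 0) (H' := H')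
    (fun P l _ hl => hHo' P l hl)
  have hr2 := hr1.scale h.gen m
  rw [mul_one] at hr2
  obtain ⟨t, ht⟩ : ∃ t, t = S.d * S.c + 1 := ⟨_, rfl⟩
  have hq' : 1 ≤ q * t := Nat.mul_pos hq (by omega)
  have h1 := (hr.nsmul h.gen (q * t)).add h.gen hr2
  have h2 := h.semi hm h1 (hE' H' hH' (q * t) hq')
  have h3 : SemiampleDivisor y n (fun D => (((q * t : ℕ) : ℚ) * E₀ D +
      ((S.d * S.c : ℕ) : ℚ) * H D) + D.ord k) := h2.congr fun D _ => by ring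
  have h4 := (h3.shift hk).add (hyperplane_semi S.ny ⟨a, ha, hHo⟩)
  refine SemiampleDivisor.unscale (k := t) (by omega) (h4.congr fun D _ => ?_)
  rw [ht]
  push_cast
  ring

end

end Pool.Agent.H890
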