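import Pool.Graph.R_seed8.R887.Frm
import Pool.Graph.R_seed8.R887.Pull

/-!
Orders of pluricanonical forms in regular coordinates, and in finite extensions.
-/

set_option autoImplicit false
set_option linter.unusedSectionVars false
set_option linter.overlappingInstances false

open FF MvPolynomial Pool.Agent.W602.GT Pool.Agent.W603.LV Pool.Agent.W619.PQ Pool.Agent.Y172
  Pool.Agent.R887

namespace Pool.Agent.H890

section

variable {K : Type} [Field K] [Algebra ℂ K] {n : ℕ}

/-- coordinates and the dual vector fields, regular at `P` -/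
structure Rg (P : Place ℂ K) (X : Fin n → K) (F : Fin n → Derivation ℂ K K) : Prop where
  bas : IsTranscendenceBasis ℂ X
  dual : ∀ i j, F i (X j) = if i = j then 1 else 0
  reg : ∀ i, P.Reg (X i)
  pres : ∀ i, DerReg P (F i)

theorem _root_.Pool.Agent.Y172.Loc.rg {P : Place ℂ K} {y : Fin n → K} {E : Fin n → Derivation ℂ K K}
    {i0 : Fin n} (h : Loc P y E i0) : Rg P y E := ⟨h.bas, h.dual, h.reg, h.pres⟩

variable {P : Place ℂ K} {X : Fin n → K} {F : Fin n → Derivation ℂ K K}

theorem Rg.ordGe_iff (h : Rg P X F) {m : ℕ} {ω : (Fin n → Derivation ℂ K K) → K}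
    (hω : IsPluri m ω) {c : ℚ} : OrdGe P ω c ↔ (ω F = 0 ∨ c ≤ P.ord (ω F)) := by
  constructor
  · intro h1
    exact h1 F h.pres
  · intro h1 D hD
    have h2 := pluri_coord h.bas h.dual hω D
    rcases h1 with h1 | h1
    · left
      rw [h2, h1, mul_zero]
    by_cases h0 : ω D = 0
    · exact Or.inl h0
    right
    have hd : (Matrix.of fun i j => D i (X j)).det ^ m ≠ 0 := by
      intro h3
      rw [h3, zero_mul] at h2
      exact h0 h2
    have hF : ω F ≠ 0 := by
      intro h3
      rw [h3, mul_zero] at h2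
      exact h0 h2
    have h3 : P.Reg ((Matrix.of fun i j => D i (X j)).det ^ m) := by
      have h4 : Ge P 0 (Matrix.of fun i j => D i (X j)).det :=
        det_reg fun i j => hD i _ (h.reg j)
      have h5 := h4.pow m
      rwa [mul_zero] at h5
    have h4 := (P.reg_iff hd).1 h3
    rw [h2, P.ord_mul hd hF]
    have h5 : (0 : ℚ) ≤ P.ord ((Matrix.of fun i j => D i (X j)).det ^ m) := by exact_mod_cast h4
    push_cast
    linarith

theorem Rg.ordEq_iff (h : Rg P X F) {m : ℕ} {ω : (Fin n → Derivation ℂ K K) → K}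
    (hω : IsPluri m ω) {c : ℚ} : OrdEq P ω c ↔ (ω F ≠ 0 ∧ (P.ord (ω F) : ℚ) = c) := by
  constructor
  · rintro ⟨h1, D, hD, h0, h2⟩
    have hF : ω F ≠ 0 := by
      intro h3
      apply h0
      rw [pluri_coord h.bas h.dual hω D, h3, mul_zero]
    refine ⟨hF, ?_⟩
    have h3 := (h1 F h.pres).resolve_left hF
    have h4 : OrdGe P ω (P.ord (ω F)) := (h.ordGe_iff hω).2 (Or.inr le_rfl)
    have h5 := (h4 D hD).resolve_left h0
    rw [h2] at h5
    exact le_antisymm h5 h3
  · rintro ⟨h1, h2⟩
    exact ⟨(h.ordGe_iff hω).2 (Or.inr h2.ge), F, h.pres, h1, h2⟩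

theorem Rg.ne (h : Rg P X F) (i : Fin n) : X i ≠ 0 := by
  intro h0
  have h1 := h.dual i i
  rw [h0, map_zero, if_pos rfl] at h1
  exact zero_ne_one h1

end

section

variable {L M : Type} [Field L] [Field M] [Algebra ℂ L] [Algebra ℂ M] [Algebra L M]
  [IsScalarTower ℂ L M] [FiniteDimensional L M] {n : ℕ}

/-- **The order of a pull-back.** -/
theorem up_ordEq [Algebra.EssFiniteType ℂ L] [Algebra.EssFiniteType ℂ M]
    (hn : Algebra.trdeg ℂ L = n) {Q : Place ℂ M} {P : Place ℂ L} {e : ℕ} (h : Over Q P e)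
    (hP : Divisorial n P) {X : Fin n → L} (hX : IsTranscendenceBasis ℂ X) {m : ℕ} {g : L} {c : ℤ}
    (hc : OrdEq P (frm X m g) c) :
    OrdEq Q (frm (fun i => algebraMap L M (X i)) m (algebraMap L M g)) (e * (c + m) - m : ℤ) := by
  classical
  obtain ⟨F, hF⟩ : ∃ F : Fin n → Derivation ℂ L L, ∀ i j, F i (X j) = if i = j then 1 else 0 := by
    choose F hF using fun i => exists_der (L := ℂ) X hX (fun j => if i = j then 1 else 0)
    exact ⟨F, hF⟩
  have hn' : Algebra.trdeg ℂ M = n := trdeg_up (L := M) hn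
  have hQ : Divisorial n Q := divisorial_up h hP
  obtain ⟨y, E, i0, hl⟩ := exists_loc hn hP
  obtain ⟨y', E', i0', hl'⟩ := exists_loc hn' hQ
  have hω := frm_pluri X m g
  have hω' := frm_pluri (fun i => algebraMap L M (X i)) m (algebraMap L M g)
  obtain ⟨hE0, hEc⟩ := (hl.rg.ordEq_iff hω).1 hc
  have hEc' : P.ord (frm X m g E) = c := by exact_mod_cast hEc
  -- lower bound
  have hlow : OrdGe Q (frm (fun i => algebraMap L M (X i)) m (algebraMap L M g))
      (e * (c + m) - m : ℤ) := by
    intro D hD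
    have h1 := pull_ord (K' := M) hn hX hF h hP hω hc.1 hD
    have h2 : pull M X F m (frm X m g) D =
        frm (fun i => algebraMap L M (X i)) m (algebraMap L M g) D := by
      unfold pull
      rw [frm_self hF]
      rfl
    rw [h2] at h1
    refine h1.imp_right fun h3 => ?_
    have h4 : (e * (c + m) - m : ℤ) ≤
        Q.ord (frm (fun i => algebraMap L M (X i)) m (algebraMap L M g) D) := by linarith
    exact_mod_cast h4
  -- the lifts
  choose E1 hE1 using fun i => exists_lift (L := M) hn (E i)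
  have hval : frm (fun i => algebraMap L M (X i)) m (algebraMap L M g) E1 =
      algebraMap L M (frm X m g E) := by
    unfold frm
    rw [map_mul, map_pow, RingHom.map_det]
    congr 3
    ext i j
    rw [Matrix.of_apply, RingHom.mapMatrix_apply, Matrix.map_apply, Matrix.of_apply]
    exact hE1 i (X j)
  have hy0 : algebraMap L M (y i0) ≠ 0 := by
    rw [Ne, map_eq_zero]
    exact hl.ne
  have hlog : ∀ i, DerLog Q (algebraMap L M (lc y i0 i) • E1 i) := fun i =>
    lift_log h (hl.log i) fun f => by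
      change algebraMap L M (lc y i0 i) * E1 i (algebraMap L M f) =
        algebraMap L M (lc y i0 i * E i f)
      rw [hE1, map_mul]
  have hdiag := pluri_diag hω' (fun i => algebraMap L M (lc y i0 i)) E1
  rw [← map_prod, prod_lc, hval] at hdiag
  have hne : frm (fun i => algebraMap L M (X i)) m (algebraMap L M g)
      (fun i => algebraMap L M (lc y i0 i) • E1 i) ≠ 0 := by
    rw [hdiag]
    refine mul_ne_zero (pow_ne_zero _ hy0) ?_
    rw [Ne, map_eq_zero]
    exact hE0
  have hne' : frm (fun i => algebraMap L M (X i)) m (algebraMap L M g) E' ≠ 0 := by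
    intro h0
    apply hne
    rw [pluri_coord hl'.bas hl'.dual hω', h0, mul_zero]
  obtain ⟨κ, hκ⟩ : ∃ κ, κ = Q.ord (frm (fun i => algebraMap L M (X i)) m (algebraMap L M g) E') :=
    ⟨_, rfl⟩
  have hge : OrdGe Q (frm (fun i => algebraMap L M (X i)) m (algebraMap L M g)) κ :=
    (hl'.rg.ordGe_iff hω').2 (Or.inr (by rw [hκ]))
  have h1 := log_gain hn' hQ hω' (c := (κ : ℝ)) (fun G hG =>
    (hge G hG).imp_right fun h2 => by exact_mod_cast h2) hlog
  have h2 := h1.resolve_left hne
  rw [hdiag, Q.ord_mul (pow_ne_zero _ hy0) (by rwa [Ne, map_eq_zero]), Q.ord_pow, h.2, h.2,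
    hl.unif, hEc'] at h2
  have h3 : κ + m ≤ m * (e * 1) + e * c := by exact_mod_cast h2
  refine ⟨hlow, E', hl'.pres, hne', ?_⟩
  have h4 := (hlow E' hl'.pres).resolve_left hne'
  rw [← hκ] at h4 ⊢
  have h5 : (e * (c + m) - m : ℤ) ≤ κ := by exact_mod_cast h4
  have h6 : κ = (e * (c + m) - m : ℤ) := by
    apply le_antisymm _ h5
    linarith
  rw [h6]

end

end Pool.Agent.H890
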