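import Pool.Agent.H890.Smo

/-!
Fermat coverings over smooth varieties are smooth.
-/

set_option autoImplicit false
set_option linter.unusedSectionVars false
set_option linter.overlappingInstances false

open FF MvPolynomial Pool.Agent.W602.GT Pool.Agent.W603.LV Pool.Agent.W619.PQ Pool.Agent.Y172
  Pool.Agent.TH122.AB Pool.Agent.R887

namespace Pool.Agent.H890

section

variable {K L M : Type} [Field K] [Field L] [Field M] [Algebra ℂ K] [Algebra ℂ L]
  [Algebra ℂ M] [Algebra K L] [Algebra L M] [Algebra K M] [IsScalarTower ℂ K L]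
  [IsScalarTower ℂ L M] [IsScalarTower ℂ K M] [IsScalarTower K L M] [FiniteDimensional L M]
  {N : ℕ} {y : Fin (N + 1) → K} {n r : ℕ} {G : Place ℂ K → ℤ}
  {S : Mod K L M y n r G} {s : K} {z : Fin (r + 2) → M} {w : ℤ}

theorem isU_nat {P : Place ℂ M} (S : Mod K L M y n r G) : IsU S.v P ((r + 2 : ℕ) : M) := by
  have h2 : ((r + 2 : ℕ) : M) = algebraMap ℂ M ((r + 2 : ℕ) : ℂ) := by rw [map_natCast]
  rw [h2]
  exact IsU.const S.nv (by exact_mod_cast Nat.succ_ne_zero (r + 1))

/-- the first charts -/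
theorem Fer.coordI (h : Fer S s z w) {lam : K} (hl : lam ≠ 0) {i : Fin (r + 1)}
    {σ : Equiv.Perm (Fin (r + 2))} (hσ : Adm i σ) {x : Fin n → K} {E : Fin n → Derivation ℂ K K}
    (hx : IsTranscendenceBasis ℂ x) (hE : ∀ i j, E i (x j) = if i = j then 1 else 0)
    {P : Place ℂ M} (hxP : ∀ i, algebraMap K M (x i) ∈ localRing S.v P)
    (hW : ∀ p, ts (wk S z lam) σ p ∈ localRing S.v P)
    (hWl : IsU S.v P (wk S z lam (σ 0) / wk S z lam (σ (Fin.last (r + 1)))))
    (hg : IsU S.v P (algebraMap K M ((s * lam ^ (r + 2)) ^ (S.wt (σ (Fin.last (r + 1)))))))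
    (hgen : ∀ P', IsPrimeDivisor S.v P' → Through S.v P' P →
      OrdEq P' (tq S.lM 1 (fun i => algebraMap K M (x i)) (algebraMap K M
        ((s * lam ^ (r + 2)) ^ (-(2 * w))))) 0) :
    ∃ (X : Fin (n + r) → M) (F : Fin (n + r) → Derivation ℂ M M), IsCoord S.v P X F := by
  have hv := S.nv
  have hessM := S.essM
  have hg0 : s * lam ^ (r + 2) ≠ 0 := mul_ne_zero h.s0 (pow_ne_zero _ hl)
  have hb := h.basXW hl σ hx
  choose F hF using fun u : Fin (n + r) => exists_der (L := ℂ) _ hb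
    (fun v => if u = v then (1 : M) else 0)
  refine ⟨_, F, coord_of_form hv h.trM hF ?_ (k := 2 * ((r + 2) * 1)) (by omega)
    (κ := (((r + 2 : ℕ) : M) ^ r * (wk S z lam (σ 0) / wk S z lam (σ (Fin.last (r + 1)))) ^
      (r + 1)) ^ (2 * ((r + 2) * 1)) * (algebraMap K M ((s * lam ^ (r + 2)) ^
        (S.wt (σ (Fin.last (r + 1)))))) ^ (-((2 * ((r + 2) * 1) : ℕ) : ℤ))) ?_
    (tq_pluri S.sysM 1 _ _) (fun D => ?_) hgen⟩
  · intro u
    refine Fin.addCases (fun i => ?_) (fun p => ?_) u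
    · rw [Fin.append_left]
      exact hxP i
    · rw [Fin.append_right]
      exact hW p
  · exact ((((isU_nat S).pow hv r).mul hv (hWl.pow hv (r + 1))).pow hv _).mul hv (hg.zpow hv _)
  · rw [h.tq_eq hl hσ hx hE]
    have h1 : (s * lam ^ (r + 2)) ^ (-(2 * w)) * (s * lam ^ (r + 2)) ^ (2 * ((1 : ℕ) : ℤ) * w -
        (2 * ((r + 2) * 1) : ℕ) * S.wt (σ (Fin.last (r + 1)))) =
        ((s * lam ^ (r + 2)) ^ (S.wt (σ (Fin.last (r + 1))))) ^ (-((2 * ((r + 2) * 1) : ℕ) : ℤ)) := by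
      rw [← zpow_add₀ hg0, ← zpow_mul]
      congr 1
      push_cast
      ring
    rw [h1, map_zpow₀]
    unfold dt
    ring

/-- the determinant for the new coordinates -/
theorem Fer.det_new (h : Fer S s z w) {lam : K} (hl : lam ≠ 0) {σ : Equiv.Perm (Fin (r + 2))}
    (hσ0 : S.wt (σ 0) = 1) (hσl : S.wt (σ (Fin.last (r + 1))) = 0)
    (hσp : ∀ p : Fin r, S.wt (σ p.succ.castSucc) = 0) {x : Fin n → K}
    {E : Fin n → Derivation ℂ K K} (hx : IsTranscendenceBasis ℂ x)
    (hE : ∀ i j, E i (x j) = if i = j then 1 else 0) (i0 : Fin n)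
    (D : Fin (n + r) → Derivation ℂ M M) :
    algebraMap K M (E i0 (s * lam ^ (r + 2))) *
      dt (fun i => algebraMap K M (x i)) (ts (wk S z lam) σ) D =
      -(((r + 2 : ℕ) : M) * (wk S z lam (σ (Fin.last (r + 1))) / wk S z lam (σ 0)) ^ (r + 1)) *
        dt (Function.update (fun i => algebraMap K M (x i)) i0
          (wk S z lam (σ (Fin.last (r + 1))) / wk S z lam (σ 0))) (ts (wk S z lam) σ) D := by
  classical
  obtain ⟨g, hgd⟩ : ∃ g, g = s * lam ^ (r + 2) := ⟨_, rfl⟩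
  have hg0 : g ≠ 0 := by
    rw [hgd]
    exact mul_ne_zero h.s0 (pow_ne_zero _ hl)
  obtain ⟨W, hW⟩ : ∃ W, W = wk S z lam (σ (Fin.last (r + 1))) / wk S z lam (σ 0) := ⟨_, rfl⟩
  have hlast := h.last_pow hl σ
  rw [← hW, ← hgd, hσ0, hσl] at hlast
  -- the equation
  have heq : W ^ (r + 2) = -(algebraMap K M g + ∑ p, ts (wk S z lam) σ p ^ (r + 2)) := by
    rw [hlast]
    have h1 : ∀ p : Fin r, ts (wk S z lam) σ p ^ (r + 2) *
        algebraMap K M (g ^ (S.wt (σ p.succ.castSucc) - 1)) =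
        ts (wk S z lam) σ p ^ (r + 2) * (algebraMap K M g)⁻¹ := by
      intro p
      rw [hσp, zero_sub, zpow_neg, zpow_one, map_inv₀]
    rw [Finset.sum_congr rfl fun p _ => h1 p, ← Finset.sum_mul, sub_zero, zpow_one]
    have h2 : algebraMap K M g ≠ 0 := by rwa [Ne, map_eq_zero]
    field_simp
  rw [← hgd, ← hW]
  -- derivatives
  have hder : ∀ D : Derivation ℂ M M, -(((r + 2 : ℕ) : M) * W ^ (r + 1)) * D W =
      ∑ i, algebraMap K M (E i g) * D (algebraMap K M (x i)) +
        ∑ p, (((r + 2 : ℕ) : M) * ts (wk S z lam) σ p ^ (r + 1)) * D (ts (wk S z lam) σ p) := by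
    intro D
    have h1 := congrArg D heq
    rw [D.leibniz_pow, map_neg, map_add, map_sum] at h1
    have h2 : r + 2 - 1 = r + 1 := by omega
    rw [h2, nsmul_eq_mul, smul_eq_mul, Pool.Agent.W73.PG.PULL.chain x hx E hE D g] at h1
    have h3 : ∀ p, D (ts (wk S z lam) σ p ^ (r + 2)) =
        (((r + 2 : ℕ) : M) * ts (wk S z lam) σ p ^ (r + 1)) * D (ts (wk S z lam) σ p) := by
      intro p
      rw [D.leibniz_pow, h2, nsmul_eq_mul, smul_eq_mul, mul_assoc]
    simp only [h3] at h1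
    have h4 : ∑ c, D (algebraMap K M (x c)) * algebraMap K M (E c g) =
        ∑ i, algebraMap K M (E i g) * D (algebraMap K M (x i)) :=
      Finset.sum_congr rfl fun i _ => mul_comm _ _
    rw [h4] at h1
    linear_combination -h1
  obtain ⟨A, hA⟩ : ∃ A : Matrix (Fin (n + r)) (Fin (n + r)) M, A = Matrix.of fun a b => D a
    ((Fin.append (fun i => algebraMap K M (x i)) (ts (wk S z lam) σ) : Fin (n + r) → M) b) :=
    ⟨_, rfl⟩
  obtain ⟨c, hc⟩ : ∃ c : Fin (n + r) → M, c = Fin.append (fun i => algebraMap K M (E i g))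
    (fun p => ((r + 2 : ℕ) : M) * ts (wk S z lam) σ p ^ (r + 1)) := ⟨_, rfl⟩
  have h1 := Matrix.det_updateCol_sum A (Fin.castAdd r i0) c
  have h2 : (fun k => ∑ i, c i • A k i) =
      (-(((r + 2 : ℕ) : M) * W ^ (r + 1))) • fun k => D k W := by
    funext k
    rw [Fin.sum_univ_add, Pi.smul_apply, smul_eq_mul, hder]
    simp only [hc, hA, Matrix.of_apply, Fin.append_left, Fin.append_right, smul_eq_mul]
  rw [h2, Matrix.det_updateCol_smul] at h1
  have h3 : c (Fin.castAdd r i0) = algebraMap K M (E i0 g) := by rw [hc, Fin.append_left]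
  have h4 : A.updateCol (Fin.castAdd r i0) (fun k => D k W) = Matrix.of fun a b => D a
      ((Fin.append (Function.update (fun i => algebraMap K M (x i)) i0 W) (ts (wk S z lam) σ) :
        Fin (n + r) → M) b) := by
    ext a b
    refine Fin.addCases (fun i => ?_) (fun p => ?_) b
    · rw [Matrix.of_apply, Fin.append_left]
      by_cases hi : i = i0
      · rw [hi, Matrix.updateCol_self, Function.update_self]
      · rw [Matrix.updateCol_ne (fun h0 => hi (Fin.castAdd_injective n r h0)),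
          Function.update_of_ne hi, hA, Matrix.of_apply, Fin.append_left]
    · rw [Matrix.of_apply, Fin.append_right, Matrix.updateCol_ne, hA, Matrix.of_apply,
        Fin.append_right]
      intro h0
      have := congrArg Fin.val h0
      simp only [Fin.val_natAdd, Fin.val_castAdd] at this
      omega
  rw [h3, h4, smul_eq_mul] at h1
  unfold dt
  rw [← hA, ← h1]

/-- the second charts -/
theorem Fer.coordII (h : Fer S s z w) {lam : K} (hl : lam ≠ 0) {i : Fin (r + 1)}
    {σ : Equiv.Perm (Fin (r + 2))} (hσ : Adm i σ) (hσ0 : S.wt (σ 0) = 1)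
    (hσl : S.wt (σ (Fin.last (r + 1))) = 0)
    (hσp : ∀ p : Fin r, S.wt (σ p.succ.castSucc) = 0) {x : Fin n → K}
    {E : Fin n → Derivation ℂ K K} (hx : IsTranscendenceBasis ℂ x)
    (hE : ∀ i j, E i (x j) = if i = j then 1 else 0) {i0 : Fin n}
    {P : Place ℂ M} (hxP : ∀ i, algebraMap K M (x i) ∈ localRing S.v P)
    (hW : ∀ k, wk S z lam k / wk S z lam (σ 0) ∈ localRing S.v P)
    (hg : IsU S.v P (algebraMap K M (E i0 (s * lam ^ (r + 2)))))
    (hgen : ∀ P', IsPrimeDivisor S.v P' → Through S.v P' P →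
      OrdEq P' (tq S.lM 1 (fun i => algebraMap K M (x i)) (algebraMap K M
        ((s * lam ^ (r + 2)) ^ (-(2 * w))))) 0) :
    ∃ (X : Fin (n + r) → M) (F : Fin (n + r) → Derivation ℂ M M), IsCoord S.v P X F := by
  classical
  have hv := S.nv
  have hessM := S.essM
  have hg0 : s * lam ^ (r + 2) ≠ 0 := mul_ne_zero h.s0 (pow_ne_zero _ hl)
  have hb := h.basXW hl σ hx
  choose F₀ hF₀ using fun u : Fin (n + r) => exists_der (L := ℂ) _ hb
    (fun v => if u = v then (1 : M) else 0)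
  obtain ⟨W, hWd⟩ : ∃ W, W = wk S z lam (σ (Fin.last (r + 1))) / wk S z lam (σ 0) := ⟨_, rfl⟩
  have hW0 : W ≠ 0 := by
    rw [hWd]
    exact div_ne_zero (h.wk_ne hl _) (h.wk_ne hl _)
  have hnew := h.det_new hl hσ0 hσl hσp hx hE i0
  rw [← hWd] at hnew
  -- the new frame
  have hdet : (Matrix.of fun a b => F₀ a ((Fin.append (Function.update
      (fun i => algebraMap K M (x i)) i0 W) (ts (wk S z lam) σ) : Fin (n + r) → M) b)).det ≠ 0 := by
    intro h0
    have h1 := hnew F₀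
    have h2 : dt (Function.update (fun i => algebraMap K M (x i)) i0 W) (ts (wk S z lam) σ) F₀ =
        0 := h0
    have h3 : dt (fun i => algebraMap K M (x i)) (ts (wk S z lam) σ) F₀ = 1 := by
      unfold dt
      rw [← Matrix.det_one (n := Fin (n + r))]
      congr 1
      ext a b
      rw [Matrix.of_apply, hF₀, Matrix.one_apply]
    rw [h2, h3, mul_zero, mul_one] at h1
    exact hg.ne h1
  obtain ⟨F, hF⟩ := dual_of_det hdet
  refine ⟨_, F, coord_of_form hv h.trM hF ?_ (k := 2 * ((r + 2) * 1)) (by omega)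
    (κ := (((r + 2 : ℕ) : M) ^ (r + 1) * (algebraMap K M (E i0 (s * lam ^ (r + 2))))⁻¹) ^
      (2 * ((r + 2) * 1))) ?_ (tq_pluri S.sysM 1 _ _) (fun D => ?_) hgen⟩
  · intro u
    refine Fin.addCases (fun i => ?_) (fun p => ?_) u
    · rw [Fin.append_left]
      by_cases hi : i = i0
      · rw [hi, Function.update_self, hWd]
        exact hW _
      · rw [Function.update_of_ne hi]
        exact hxP i
    · rw [Fin.append_right]
      exact hW _
  · exact (((isU_nat S).pow hv (r + 1)).mul hv hg.inv).pow hv _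
  · rw [h.tq_eq hl hσ hx hE]
    have h1 : (s * lam ^ (r + 2)) ^ (-(2 * w)) * (s * lam ^ (r + 2)) ^ (2 * ((1 : ℕ) : ℤ) * w -
        (2 * ((r + 2) * 1) : ℕ) * S.wt (σ (Fin.last (r + 1)))) = 1 := by
      rw [← zpow_add₀ hg0, hσl]
      have h2 : -(2 * w) + (2 * ((1 : ℕ) : ℤ) * w - (2 * ((r + 2) * 1) : ℕ) * 0) = 0 := by
        push_cast
        ring
      rw [h2, zpow_zero]
    rw [h1, map_one, mul_one]
    have h2 := hnew D
    have h3 : wk S z lam (σ 0) / wk S z lam (σ (Fin.last (r + 1))) = W⁻¹ := by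
      rw [hWd, inv_div]
    rw [h3]
    obtain ⟨T, hT⟩ : ∃ T, T = dt (fun i => algebraMap K M (x i)) (ts (wk S z lam) σ) D := ⟨_, rfl⟩
    obtain ⟨T', hT'⟩ : ∃ T', T' = dt (Function.update (fun i => algebraMap K M (x i)) i0 W)
      (ts (wk S z lam) σ) D := ⟨_, rfl⟩
    have h4 : (Matrix.of fun a b => D a ((Fin.append (Function.update
      (fun i => algebraMap K M (x i)) i0 W) (ts (wk S z lam) σ) : Fin (n + r) → M) b)).det = T' := by
      rw [hT']
      rfl
    rw [h4]
    rw [← hT, ← hT'] at h2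
    rw [← hT]
    obtain ⟨a, ha⟩ : ∃ a, a = algebraMap K M (E i0 (s * lam ^ (r + 2))) := ⟨_, rfl⟩
    rw [← ha] at h2 ⊢
    have ha0 : a ≠ 0 := by
      rw [ha]
      exact hg.ne
    have h5 : T = a⁻¹ * (-(((r + 2 : ℕ) : M) * W ^ (r + 1)) * T') := by
      rw [← h2]
      field_simp
    have h6 : ((r + 2 : ℕ) : M) ^ r * W⁻¹ ^ (r + 1) * T =
        - ((((r + 2 : ℕ) : M) ^ (r + 1) * a⁻¹) * T') := by
      rw [h5, inv_pow]
      have := pow_ne_zero (r + 1) hW0
      field_simp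
      ring
    rw [h6, ← mul_pow]
    have h7 : Even (2 * ((r + 2) * 1)) := even_two_mul _
    rw [h7.neg_pow]

end

end Pool.Agent.H890
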