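import Pool.Agent.H890.Smo2

/-!
Fermat coverings over smooth varieties are smooth: the theorem.
-/

set_option autoImplicit false
set_option linter.unusedSectionVars false
set_option linter.overlappingInstances false

open FF MvPolynomial Pool.Agent.W602.GT Pool.Agent.W603.LV Pool.Agent.W619.PQ Pool.Agent.Y172
  Pool.Agent.TH122.AB Pool.Agent.R887

namespace Pool.Agent.H890

section

variable {K L M : Type} [Field K] [Field L] [Field M] [Algebra ℂ K] [Algebra ℂ L]
  [Algebra ℂ M] [Algebra K L] [Algebra L M] [Algebra K M] [IsScalarTower ℂ K L]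
  [IsScalarTower ℂ L M] [IsScalarTower ℂ K M] [IsScalarTower K L M] [FiniteDimensional L M]
  {N : ℕ} {y : Fin (N + 1) → K} {n r : ℕ} {G : Place ℂ K → ℤ}
  {S : Mod K L M y n r G} {s : K} {z : Fin (r + 2) → M} {w : ℤ}

theorem Fer.coord_triv (h : Fer S s z w) {P : Place ℂ M}
    (htr : ∀ f : K, P.ord (algebraMap K M f) = 0) :
    ∃ (X : Fin (n + r) → M) (F : Fin (n + r) → Derivation ℂ M M), IsCoord S.v P X F := by
  obtain ⟨x, E, hx, hE⟩ := exists_crd h.trK
  obtain ⟨i, hi⟩ := h.chart_triv (one_ne_zero (α := K)) htr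
  obtain ⟨i', -, hi'⟩ := Finset.exists_min_image Finset.univ
    (fun i : Fin (r + 1) => P.ord (S.lM i.castSucc)) ⟨0, Finset.mem_univ _⟩
  obtain ⟨σ, hσ, hσ1, hσ2⟩ := exists_good S.sysM P fun i => hi' i (Finset.mem_univ _)
  have hw0 : ∀ k, wk S z (1 : K) k ≠ 0 := h.wk_ne one_ne_zero
  have hg0 : s * (1 : K) ^ (r + 2) ≠ 0 := mul_ne_zero h.s0 (pow_ne_zero _ one_ne_zero)
  have hord : ∀ k, P.ord (S.lM k) = (r + 2 : ℕ) * P.ord (wk S z (1 : K) k) := by
    intro k
    rw [h.wk_pow (one_ne_zero (α := K)), P.ord_mul (pow_ne_zero _ (hw0 k)) (by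
      rw [Ne, map_eq_zero]
      exact zpow_ne_zero _ hg0), P.ord_pow, htr, add_zero]
  have hr2 : (0 : ℤ) < (r + 2 : ℕ) := by exact_mod_cast Nat.succ_pos _
  have h1 : ∀ k, P.ord (wk S z (1 : K) (σ 0)) ≤ P.ord (wk S z (1 : K) k) := by
    intro k
    have := hσ1 k
    rw [hord, hord] at this
    exact le_of_mul_le_mul_left this hr2
  have h2 : P.ord (wk S z (1 : K) (σ (Fin.last (r + 1)))) = P.ord (wk S z (1 : K) (σ 0)) := by
    rw [hord, hord] at hσ2
    exact mul_left_cancel₀ hr2.ne' hσ2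
  have h3 : P.ord (wk S z (1 : K) (σ 0)) = P.ord (wk S z (1 : K) i.castSucc) := by
    have h4 := reg_ord_nonneg (localRing_reg (hi (σ 0)))
    rw [P.ord_div (hw0 _) (hw0 _)] at h4
    have h5 := h1 i.castSucc
    omega
  have hU : ∀ k, P.ord (wk S z (1 : K) k) = P.ord (wk S z (1 : K) i.castSucc) →
      IsU S.v P (wk S z (1 : K) k / wk S z (1 : K) i.castSucc) := fun k hk =>
    ⟨hi k, div_ne_zero (hw0 _) (hw0 _), by rw [P.ord_div (hw0 _) (hw0 _), hk, sub_self]⟩
  refine h.coordI one_ne_zero hσ hx hE (fun i => S.local_triv htr _) (h.ts_mem one_ne_zero hi h3)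
    ?_ ?_ fun P' hP' hT => h.hor hP' (S.through_triv hT htr) 1 hx hE (zpow_ne_zero _ hg0)
  · have h4 : wk S z (1 : K) (σ 0) / wk S z (1 : K) (σ (Fin.last (r + 1))) =
        (wk S z (1 : K) (σ 0) / wk S z (1 : K) i.castSucc) *
          (wk S z (1 : K) (σ (Fin.last (r + 1))) / wk S z (1 : K) i.castSucc)⁻¹ := by
      have e1 := hw0 i.castSucc
      have e2 := hw0 (σ (Fin.last (r + 1)))
      field_simp
    rw [h4]
    exact (hU _ h3).mul S.nv (hU _ (h2.trans h3)).inv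
  · exact ⟨S.local_triv htr _, by
      rw [Ne, map_eq_zero]
      exact zpow_ne_zero _ hg0, htr _⟩

theorem Fer.coord_over (h : Fer S s z w) (hwt : S.wt = wtd r 1) {lam : K} (hl : lam ≠ 0)
    {P : Place ℂ M} {Q : Place ℂ K} {e : ℕ} (hPQ : Over P Q e) (hQ : Divisorial n Q)
    (hlam : ∀ D, IsPrimeDivisor y D → Through y D Q → D.ord (s * lam ^ (r + 2)) = G D)
    {x : Fin n → K} {E : Fin n → Derivation ℂ K K} (hc : IsCoord y Q x E) {g : K} (hg0 : g ≠ 0)
    (hgm : g ∈ localRing y Q) (hg : ∀ D, IsPrimeDivisor y D → Through y D Q → D.ord g = G D)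
    (hsm : Q.ord g = 0 ∨ ∃ i, E i g ≠ 0 ∧ Q.ord (E i g) = 0) :
    ∃ (X : Fin (n + r) → M) (F : Fin (n + r) → Derivation ℂ M M), IsCoord S.v P X F := by
  classical
  have hy := S.ny
  have hessK := S.essK
  obtain ⟨g₁, hg₁⟩ : ∃ g₁, g₁ = s * lam ^ (r + 2) := ⟨_, rfl⟩
  have hg₁0 : g₁ ≠ 0 := by
    rw [hg₁]
    exact mul_ne_zero h.s0 (pow_ne_zero _ hl)
  have hx : IsTranscendenceBasis ℂ x := basis_of_dual hc.dual h.trK
  obtain ⟨i, hi⟩ := h.chart_w hl hPQ hQ hlam
  obtain ⟨i', -, hi'⟩ := Finset.exists_min_image Finset.univ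
    (fun i : Fin (r + 1) => P.ord (S.lM i.castSucc)) ⟨0, Finset.mem_univ _⟩
  obtain ⟨σ, hσ, hσ1, hσ2⟩ := exists_good S.sysM P fun i => hi' i (Finset.mem_univ _)
  have hw0 : ∀ k, wk S z lam k ≠ 0 := h.wk_ne hl
  have he : (1 : ℤ) ≤ e := by exact_mod_cast hPQ.1
  have hN : (0 : ℤ) < (r + 2 : ℕ) := by exact_mod_cast Nat.succ_pos _
  -- the order of `g`
  have hg₁m : g₁ ∈ localRing y Q := mem_localRing_of_reg hy fun D hD hDQ => Or.inr (by
    rw [hg₁, hlam D hD hDQ]
    exact S.car.nonneg D hD)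
  have hgQ : 0 ≤ Q.ord g₁ := reg_ord_nonneg (localRing_reg hg₁m)
  obtain ⟨γ, hγ⟩ : ∃ γ, γ = e * Q.ord g₁ := ⟨_, rfl⟩
  have hγ0 : 0 ≤ γ := by
    rw [hγ]
    exact mul_nonneg (by linarith) hgQ
  have hord : ∀ k, P.ord (S.lM k) = (r + 2 : ℕ) * P.ord (wk S z lam k) + S.wt k * γ := by
    intro k
    rw [h.wk_pow hl, ← hg₁, P.ord_mul (pow_ne_zero _ (hw0 k)) (by
      rw [Ne, map_eq_zero]
      exact zpow_ne_zero _ hg₁0), P.ord_pow, hPQ.2, Q.ord_zpow, hγ]
    ring
  obtain ⟨o, ho⟩ : ∃ o, o = P.ord (wk S z lam i.castSucc) := ⟨_, rfl⟩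
  have hak : ∀ k, o ≤ P.ord (wk S z lam k) := by
    intro k
    have h1 := reg_ord_nonneg (localRing_reg (hi k))
    rw [P.ord_div (hw0 _) (hw0 _)] at h1
    omega
  obtain ⟨μ, hμ⟩ : ∃ μ, μ = P.ord (S.lM (σ 0)) - (r + 2 : ℕ) * o := ⟨_, rfl⟩
  have hwγ : ∀ k, 0 ≤ S.wt k * γ := by
    intro k
    rcases S.wt01 k with h1 | h1
    · rw [h1, zero_mul]
    · rw [h1, one_mul]
      exact hγ0
  have hμ0 : 0 ≤ μ := by
    rw [hμ, hord]
    have h1 := hak (σ 0)
    have h2 := hwγ (σ 0)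
    have h3 : ((r + 2 : ℕ) : ℤ) * o ≤ (r + 2 : ℕ) * P.ord (wk S z lam (σ 0)) :=
      mul_le_mul_of_nonneg_left h1 (by linarith)
    linarith
  have hμi : μ ≤ S.wt i.castSucc * γ := by
    have h1 := hσ1 i.castSucc
    rw [hord i.castSucc, ← ho] at h1
    linarith
  -- the generator
  have hgen : ∀ P', IsPrimeDivisor S.v P' → Through S.v P' P →
      OrdEq P' (tq S.lM 1 (fun i => algebraMap K M (x i)) (algebraMap K M
        ((s * lam ^ (r + 2)) ^ (-(2 * w))))) 0 := by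
    obtain ⟨η, hηd⟩ : ∃ η : (Fin n → Derivation ℂ K K) → K,
      η = fun D => (s * lam ^ (r + 2)) ^ (-(2 * w)) * frm x (2 * ((r + 2) * 1)) 1 D := ⟨_, rfl⟩
    have hη : IsPluri (2 * ((r + 2) * 1)) η := by
      rw [hηd]
      exact pluri_smul' (frm_pluri x _ 1) _
    have hgen : ∀ D, IsPrimeDivisor y D → Through y D Q →
        OrdEq D η (-(2 * ((1 : ℕ) : ℤ) * (w * G D)) : ℤ) := by
      intro D hD hDQ
      have hg₂0 : s * lam ^ (r + 2) ≠ 0 := by
        rw [← hg₁]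
        exact hg₁0
      have h1 := ordEq_smul (zpow_ne_zero (-(2 * w)) hg₂0)
        (hc.gen hy h.trK hD hDQ (2 * ((r + 2) * 1)))
      rw [← hηd, D.ord_zpow, hlam D hD hDQ] at h1
      have h2 : (((-(2 * w)) * G D : ℤ) : ℚ) + 0 = (-(2 * ((1 : ℕ) : ℤ) * (w * G D)) : ℤ) := by
        push_cast
        ring
      rw [h2] at h1
      exact h1
    intro P' hP' hT
    have h1 := h.cov.gen0 hPQ hη hgen hx hc.dual hP' hT
    have h2 : η E = (s * lam ^ (r + 2)) ^ (-(2 * w)) := by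
      rw [hηd]
      change (s * lam ^ (r + 2)) ^ (-(2 * w)) * frm x (2 * ((r + 2) * 1)) 1 E = _
      rw [frm_self hc.dual, mul_one]
    rw [h2] at h1
    exact h1
  have hxP : ∀ i, algebraMap K M (x i) ∈ localRing S.v P := fun i => S.local_le hPQ (hc.reg i)
  by_cases hμz : μ = 0
  · have hz : ∀ k, P.ord (S.lM k) = P.ord (S.lM (σ 0)) →
        P.ord (wk S z lam k) = o ∧ S.wt k * Q.ord g₁ = 0 := by
      intro k hk
      rw [hord k] at hk
      have h1 := hak k
      have h2 := hwγ k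
      have h3 : ((r + 2 : ℕ) : ℤ) * (P.ord (wk S z lam k) - o) + S.wt k * γ = 0 := by
        have h4 : P.ord (S.lM (σ 0)) = (r + 2 : ℕ) * o := by linarith
        rw [h4] at hk
        linarith
      have h4 : 0 ≤ ((r + 2 : ℕ) : ℤ) * (P.ord (wk S z lam k) - o) :=
        mul_nonneg (by linarith) (by linarith)
      have h5 : S.wt k * γ = 0 := by linarith
      have h6 : ((r + 2 : ℕ) : ℤ) * (P.ord (wk S z lam k) - o) = 0 := by linarith
      refine ⟨?_, ?_⟩
      · rcases mul_eq_zero.1 h6 with h7 | h7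
        · omega
        · linarith
      · rw [hγ] at h5
        have h7 : (e : ℤ) * (S.wt k * Q.ord g₁) = 0 := by linarith
        rcases mul_eq_zero.1 h7 with h8 | h8
        · omega
        · exact h8
    obtain ⟨h0a, h0b⟩ := hz (σ 0) rfl
    obtain ⟨hla, hlb⟩ := hz (σ (Fin.last (r + 1))) hσ2
    have hU : ∀ k, P.ord (wk S z lam k) = o → IsU S.v P (wk S z lam k / wk S z lam i.castSucc) :=
      fun k hk => ⟨hi k, div_ne_zero (hw0 _) (hw0 _), by
        rw [P.ord_div (hw0 _) (hw0 _), hk, ho, sub_self]⟩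
    refine h.coordI hl hσ hx hc.dual hxP (h.ts_mem hl hi (h0a.trans ho)) ?_ ?_ hgen
    · have h4 : wk S z lam (σ 0) / wk S z lam (σ (Fin.last (r + 1))) =
          (wk S z lam (σ 0) / wk S z lam i.castSucc) *
            (wk S z lam (σ (Fin.last (r + 1))) / wk S z lam i.castSucc)⁻¹ := by
        have e1 := hw0 i.castSucc
        have e2 := hw0 (σ (Fin.last (r + 1)))
        field_simp
      rw [h4]
      exact (hU _ h0a).mul S.nv (hU _ hla).inv
    · rw [← hg₁]
      refine ⟨S.local_le hPQ ?_, by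
        rw [Ne, map_eq_zero]
        exact zpow_ne_zero _ hg₁0, by rw [hPQ.2, Q.ord_zpow, hlb, mul_zero]⟩
      rcases S.wt01 (σ (Fin.last (r + 1))) with h5 | h5
      · rw [h5, zpow_zero]
        exact (lsub_iff hy).1 (lsub y Q).one_mem
      · rw [h5, zpow_one]
        exact hg₁m
  · have hμp : 0 < μ := by omega
    have hwi : S.wt i.castSucc = 1 := by
      rcases S.wt01 i.castSucc with h1 | h1
      · rw [h1, zero_mul] at hμi
        omega
      · exact h1
    have hγp : 0 < γ := by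
      rw [hwi, one_mul] at hμi
      omega
    have hQp : 0 < Q.ord g₁ := by
      by_contra h1
      have h2 : Q.ord g₁ = 0 := by omega
      rw [hγ, h2, mul_zero] at hγp
      exact lt_irrefl _ hγp
    -- the unit
    obtain ⟨ε, hε⟩ : ∃ ε, ε = g₁ / g := ⟨_, rfl⟩
    have hε0 : ε ≠ 0 := by
      rw [hε]
      exact div_ne_zero hg₁0 hg0
    have hεD : ∀ D, IsPrimeDivisor y D → Through y D Q → D.ord ε = 0 := by
      intro D hD hDQ
      rw [hε, D.ord_div hg₁0 hg0, hg D hD hDQ, hg₁, hlam D hD hDQ, sub_self]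
    have hεm : ε ∈ localRing y Q :=
      mem_localRing_of_reg hy fun D hD hDQ => Or.inr (hεD D hD hDQ).ge
    have hεo : Q.ord ε = 0 := by
      have h3 : ε⁻¹ ∈ localRing y Q := mem_localRing_of_reg hy fun D hD hDQ => Or.inr (by
        rw [D.ord_inv, hεD D hD hDQ, neg_zero])
      have h4 := reg_ord_nonneg (localRing_reg hεm)
      have h5 := reg_ord_nonneg (localRing_reg h3)
      rw [Q.ord_inv] at h5
      omega
    have hgε : g₁ = g * ε := by
      rw [hε]
      field_simp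
    have hgp : 0 < Q.ord g := by
      rw [hgε, Q.ord_mul hg0 hε0, hεo, add_zero] at hQp
      exact hQp
    obtain ⟨i0, hi0, hi0o⟩ := hsm.resolve_left hgp.ne'
    have hEg : E i0 g₁ = g * E i0 ε + ε * E i0 g := by
      rw [hgε, (E i0).leibniz]
      rfl
    have h1 : Ge Q 1 (g * E i0 ε) := by
      have h2 : Ge Q 0 (E i0 ε) := localRing_reg (hc.pres i0 ε hεm)
      have h3 := (show Ge Q 1 g from Or.inr (by omega)).mul h2
      rwa [add_zero] at h3
    have h2 : ε * E i0 g ≠ 0 := mul_ne_zero hε0 hi0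
    have h3 : Q.ord (ε * E i0 g) = 0 := by rw [Q.ord_mul hε0 hi0, hεo, hi0o, add_zero]
    have hEm : E i0 g₁ ∈ localRing y Q := hc.pres i0 g₁ hg₁m
    have hE1 : ¬ Ge Q 1 (E i0 g₁) := by
      intro h4
      have h5 : ε * E i0 g = E i0 g₁ - g * E i0 ε := by
        rw [hEg]
        ring
      have h6 := h4.sub h1
      rw [← h5] at h6
      have h7 := h6.resolve_left h2
      omega
    have hE0 : E i0 g₁ ≠ 0 := fun h4 => hE1 (Or.inl h4)
    have hEo : Q.ord (E i0 g₁) = 0 := by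
      have h4 := reg_ord_nonneg (localRing_reg hEm)
      have h5 : ¬ 1 ≤ Q.ord (E i0 g₁) := fun h6 => hE1 (Or.inr h6)
      omega
    have hU : IsU S.v P (algebraMap K M (E i0 (s * lam ^ (r + 2)))) := by
      rw [← hg₁]
      exact ⟨S.local_le hPQ hEm, by rwa [Ne, map_eq_zero], by rw [hPQ.2, hEo, mul_zero]⟩
    -- the weights
    have hone : ∀ k, S.wt k = 1 → (k : ℕ) = 1 := by
      intro k hk
      rw [hwt] at hk
      unfold wtd at hk
      by_contra h4
      rw [if_neg (by omega)] at hk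
      exact zero_ne_one hk
    have hsA : S.wt (sA i 0) = 1 := by rw [sA_zero, hwi]
    refine h.coordII hl (σ := sA i) (Or.inl rfl) hsA (by rw [sA_last, S.wtl]) (fun p => ?_) hx
      hc.dual hxP (fun k => ?_) hU hgen
    · rcases S.wt01 (sA i p.succ.castSucc) with h4 | h4
      · exact h4
      · exfalso
        have h5 := (hone _ h4).trans (hone _ hsA).symm
        have h6 := (sA i).injective (Fin.ext h5)
        have h7 := congrArg Fin.val h6
        simp only [Fin.val_zero, Fin.val_castSucc, Fin.val_succ] at h7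
        omega
    · rw [sA_zero]
      exact hi k

/-- **Fermat coverings over smooth varieties are smooth.** -/
theorem Fer.smooth (h : Fer S s z w) (hwt : S.wt = wtd r 1) {Λ : Place ℂ K → ℤ}
    (hD : Divides y n (r + 2) G Λ s) (hsm : SmoothPair y n G) : SmoothVariety S.v (n + r) := by
  intro P hP
  by_cases htr : ∀ f : K, P.ord (algebraMap K M f) = 0
  · exact h.coord_triv htr
  · push Not at htr
    obtain ⟨e, Q, hPQ⟩ := FF.exists_over P htr
    have hQd : Divisorial n Q := div_base (L := M) (by rw [S.trdeg_KM]) hPQ hP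
    obtain ⟨lam, hl, hlam⟩ := hD.loc hQd
    obtain ⟨x, E, g, h1, h2, h3, h4, h5⟩ := hsm Q hQd
    exact h.coord_over hwt hl hPQ hQd hlam h1 h2 h3 h4 h5

end

theorem SmoothPair.variety {K : Type} [Field K] [Algebra ℂ K] {N n : ℕ} {y : Fin (N + 1) → K}
    {D : Place ℂ K → ℤ} (h : SmoothPair y n D) : SmoothVariety y n := by
  intro Q hQ
  obtain ⟨x, E, g, h1, -⟩ := h Q hQ
  exact ⟨x, E, h1⟩

theorem SmoothVariety.qcar {K : Type} [Field K] [Algebra ℂ K] {N n : ℕ} {y : Fin (N + 1) → K}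
    (hy : NormalModel y) (hn : Algebra.trdeg ℂ K = n) (h : SmoothVariety y n) : QCar y n 0 := by
  have hess := hy.ess
  intro Q hQ
  obtain ⟨x, E, h1⟩ := h Q hQ
  refine ⟨1, one_pos, frm x 1 1, frm_pluri x 1 1, fun P hP hPQ => ?_⟩
  rw [Pi.zero_apply, mul_zero, neg_zero]
  exact h1.gen hy hn hP hPQ 1

theorem smoothPair_zero {K : Type} [Field K] [Algebra ℂ K] {N n : ℕ} {y : Fin (N + 1) → K}
    (hy : NormalModel y) (h : SmoothVariety y n) : SmoothPair y n 0 := by
  intro Q hQ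
  obtain ⟨x, E, h1⟩ := h Q hQ
  obtain ⟨j, hj⟩ := exists_centred hy Q
  refine ⟨x, E, 1, h1, one_ne_zero, chart_localRing hj (chart y j).one_mem, fun P _ _ => ?_,
    Or.inl Q.ord_one⟩
  rw [P.ord_one]
  rfl

/-- **Fermat coverings over smooth varieties.** -/
theorem fermat_smooth (K : Type) [Field K] [Algebra ℂ K] {n r : ℕ} (hr : 0 < r)
    (hn1 : 1 ≤ n) (hn : Algebra.trdeg ℂ K = n) {N : ℕ} {y : Fin (N + 1) → K}
    (hy : NormalModel y) {D Λ : Place ℂ K → ℤ} {s : K} (hD : Divides y n (r + 2) D Λ s)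
    (hsm : SmoothPair y n D) :
    ∃ (M : Type) (_ : Field M) (_ : Algebra ℂ M) (_ : Algebra K M) (_ : IsScalarTower ℂ K M)
      (z : Fin (r + 2) → M) (N' : ℕ) (v : Fin (N' + 1) → M), FermatField K s r 1 z ∧
      Lifts v (n + r) y n (fun P => (1 : ℚ) / (r + 2 : ℕ) * D P) ∧ SmoothVariety v (n + r) := by
  obtain ⟨L, M, _, _, _, _, _, _, _, _, _, _, _, _, S, z, hwt, h⟩ :=
    exists_fer K hr (show 1 ≤ r from hr) hn hy hD
  have hq0 : QCar y n 0 := hsm.variety.qcar hy hn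
  have hq := hD.qcar (Nat.succ_pos _) hq0 1
  have he := hD.effective 1
  have h1 : (fun P => ((1 : ℕ) : ℚ) / (r + 2 : ℕ) * D P) =
      fun P => (1 : ℚ) / (r + 2 : ℕ) * D P := by
    funext P
    rw [Nat.cast_one]
  rw [h1] at hq he
  refine ⟨M, _, _, _, ‹_›, z, S.N', S.v, h.fermatField hwt, h.lifts hn1 he
    (fun P hP => ?_) hq, h.smooth hwt hD hsm⟩
  have h3 : ((r + 2 : ℕ) : ℚ) ≠ 0 := by exact_mod_cast Nat.succ_ne_zero (r + 1)
  push_cast at h3 ⊢
  field_simp

/-- weak abundance descends -/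
theorem weak_of_lifts {K M : Type} [Field K] [Algebra ℂ K] [Field M] [Algebra ℂ M] {N N' : ℕ}
    {v : Fin (N' + 1) → M} {d : ℕ} {y : Fin (N + 1) → K} {n : ℕ} {Δ : Place ℂ K → ℚ}
    (h : Lifts v d y n Δ) (hv : WeakAbundance v d 0) : WeakAbundance y n Δ := by
  intro A hA
  obtain ⟨A', hA', -, hle⟩ := h.nu A hA
  obtain ⟨h1, h2⟩ := hv A' hA'
  rw [h.kappa] at h1 h2
  refine ⟨fun h3 => ?_, fun k hk => hle.trans (h2 k hk)⟩
  rw [h1 h3] at hle
  exact le_bot_iff.1 hle

end Pool.Agent.H890
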