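import Pool.Agent.H890.Rg
import Pool.Graph.R_seed8.TH122.AB.Plc

/-!
Systems of linear forms with sum zero, the affine coordinates given by them, and the corresponding
determinants.
-/

set_option autoImplicit false
set_option linter.unusedSectionVars false
set_option linter.overlappingInstances false

open FF MvPolynomial Pool.Agent.W602.GT Pool.Agent.W603.LV Pool.Agent.Y172 Pool.Agent.TH122.AB

namespace Pool.Agent.H890

section sys

variable {M : Type} [Field M] {r : ℕ}

/-- nonzero elements with sum zero -/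
structure Sys (l : Fin (r + 2) → M) : Prop where
  ne : ∀ k, l k ≠ 0
  sum : ∑ k, l k = 0

/-- the affine coordinates -/
def ts (l : Fin (r + 2) → M) (s : Equiv.Perm (Fin (r + 2))) (p : Fin r) : M :=
  l (s p.succ.castSucc) / l (s 0)

variable {l : Fin (r + 2) → M}

theorem Sys.ts_ne (h : Sys l) (s : Equiv.Perm (Fin (r + 2))) (p : Fin r) : ts l s p ≠ 0 :=
  div_ne_zero (h.ne _) (h.ne _)

theorem Sys.one_add (h : Sys l) (s : Equiv.Perm (Fin (r + 2))) :
    1 + ∑ p, ts l s p = - (l (s (Fin.last (r + 1))) / l (s 0)) := by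
  have h1 : ∑ k, l (s k) = 0 := by
    rw [Equiv.sum_comp s l, h.sum]
  rw [Fin.sum_univ_castSucc, Fin.sum_univ_succ, Fin.castSucc_zero] at h1
  have h2 := h.ne (s 0)
  have h3 : ∑ p, ts l s p = (∑ p : Fin r, l (s p.succ.castSucc)) / l (s 0) := by
    rw [Finset.sum_div]
    rfl
  rw [h3, ← neg_div, eq_div_iff h2, add_mul, div_mul_cancel₀ _ h2, one_mul]
  linear_combination h1

/-- exchange of the denominator -/
theorem ts_swap0 (l : Fin (r + 2) → M) (s : Equiv.Perm (Fin (r + 2))) (p0 p : Fin r)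
    (hs : l (s 0) ≠ 0) :
    ts l (s * Equiv.swap 0 p0.succ.castSucc) p =
      if p = p0 then 1 / ts l s p0 else ts l s p / ts l s p0 := by
  have h0 : (0 : Fin (r + 2)) ≠ p0.succ.castSucc := by
    intro h
    have := congrArg Fin.val h
    simp at this
  unfold ts
  rw [Equiv.Perm.mul_apply, Equiv.Perm.mul_apply, Equiv.swap_apply_left]
  split_ifs with hp
  · rw [hp, Equiv.swap_apply_right, one_div, inv_div]
  · rw [Equiv.swap_apply_of_ne_of_ne, div_div_div_cancel_right₀ hs]
    · intro h
      have := congrArg Fin.val h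
      simp at this
    · intro h
      apply hp
      have h1 := congrArg Fin.val h
      simp only [Fin.val_castSucc, Fin.val_succ] at h1
      exact Fin.ext (by omega)

/-- exchange of the last form -/
theorem ts_swapL (h : Sys l) (s : Equiv.Perm (Fin (r + 2))) (p0 p : Fin r) :
    ts l (s * Equiv.swap p0.succ.castSucc (Fin.last (r + 1))) p =
      if p = p0 then - (1 + ∑ p, ts l s p) else ts l s p := by
  have h0 : (0 : Fin (r + 2)) ≠ p0.succ.castSucc := by
    intro h
    have := congrArg Fin.val h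
    simp at this
  have h0' : (0 : Fin (r + 2)) ≠ Fin.last (r + 1) := by
    intro h
    have := congrArg Fin.val h
    simp at this
  have h1 : (s * Equiv.swap p0.succ.castSucc (Fin.last (r + 1))) 0 = s 0 := by
    rw [Equiv.Perm.mul_apply, Equiv.swap_apply_of_ne_of_ne h0 h0']
  split_ifs with hp
  · rw [h.one_add, neg_neg, hp]
    unfold ts
    rw [h1, Equiv.Perm.mul_apply, Equiv.swap_apply_left]
  · unfold ts
    rw [h1, Equiv.Perm.mul_apply, Equiv.swap_apply_of_ne_of_ne]
    · intro h
      apply hp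
      have h1 := congrArg Fin.val h
      simp only [Fin.val_castSucc, Fin.val_succ] at h1
      exact Fin.ext (by omega)
    · intro h
      have h1 := congrArg Fin.val h
      simp only [Fin.val_castSucc, Fin.val_succ, Fin.val_last] at h1
      omega

end sys

section det

variable {M : Type} [Field M] [Algebra ℂ M] {n r : ℕ} {l : Fin (r + 2) → M}

/-- the determinant of the vector fields `D` -/
noncomputable def dt (x : Fin n → M) (t : Fin r → M) (D : Fin (n + r) → Derivation ℂ M M) : M :=
  (Matrix.of fun a b => D a ((Fin.append x t : Fin (n + r) → M) b)).det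

theorem dt_eq (x : Fin n → M) (t : Fin r → M) (D : Fin (n + r) → Derivation ℂ M M) :
    dt x t D = (Matrix.of fun b a => D a ((Fin.append x t : Fin (n + r) → M) b)).det := by
  unfold dt
  rw [← Matrix.det_transpose]
  rfl

theorem prod_append {n r : ℕ} (f : Fin n → M) (g : Fin r → M) :
    ∏ i, (Fin.append f g : Fin (n + r) → M) i = (∏ i, f i) * ∏ i, g i := by
  rw [Fin.prod_univ_add]
  congr 1
  · exact Finset.prod_congr rfl fun i _ => Fin.append_left _ _ _
  · exact Finset.prod_congr rfl fun i _ => Fin.append_right _ _ _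

/-- determinants for the new denominator -/
theorem dt_swap0 (h : Sys l) (x : Fin n → M) (s : Equiv.Perm (Fin (r + 2))) (p0 : Fin r)
    (D : Fin (n + r) → Derivation ℂ M M) :
    l ((s * Equiv.swap 0 p0.succ.castSucc) 0) ^ (r + 1) *
      dt x (ts l (s * Equiv.swap 0 p0.succ.castSucc)) D =
      - (l (s 0) ^ (r + 1) * dt x (ts l s) D) := by
  classical
  obtain ⟨t, ht⟩ : ∃ t, t = ts l s p0 := ⟨_, rfl⟩
  have ht0 : t ≠ 0 := by rw [ht]; exact h.ts_ne s p0
  obtain ⟨q, hq⟩ : ∃ q : Fin (n + r), q = Fin.natAdd n p0 := ⟨_, rfl⟩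
  have hD : ∀ (D : Derivation ℂ M M) (a b : M), b ≠ 0 → D (a / b) = (D a - a / b * D b) / b := by
    intro D a b hb
    rw [D.leibniz_div]
    simp only [smul_eq_mul]
    field_simp
  -- the scaling factors
  let v : Fin (n + r) → M := Fin.append (fun _ => 1) fun p => if p = p0 then - (t ^ 2)⁻¹ else t⁻¹
  let c : Fin (n + r) → M := Fin.append (fun _ => 0) fun p => if p = p0 then 0 else - ts l s p / t
  obtain ⟨B, hB⟩ : ∃ B : Matrix (Fin (n + r)) (Fin (n + r)) M,
    B = Matrix.of fun b a => D a ((Fin.append x (ts l s) : Fin (n + r) → M) b) := ⟨_, rfl⟩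
  have hBq : ∀ a, B q a = D a t := fun a => by
    rw [hB, hq, Matrix.of_apply, Fin.append_right, ht]
  have h1 : dt x (ts l (s * Equiv.swap 0 p0.succ.castSucc)) D =
      (Matrix.of fun i j => v i * (Matrix.of fun i j => B i j + c i * B q j :
        Matrix (Fin (n + r)) (Fin (n + r)) M) i j).det := by
    rw [dt_eq]
    congr 1
    ext b a
    rw [Matrix.of_apply, Matrix.of_apply, Matrix.of_apply]
    refine Fin.addCases (fun i => ?_) (fun p => ?_) b
    · simp only [v, c, Fin.append_left, one_mul, zero_mul, add_zero]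
      rw [hB, Matrix.of_apply, Fin.append_left]
    · simp only [v, c, Fin.append_right]
      rw [ts_swap0 l s p0 p (h.ne _), hBq, hB, Matrix.of_apply, Fin.append_right, ← ht]
      by_cases hp : p = p0
      · rw [if_pos hp, if_pos hp, if_pos hp, hp, ← ht, hD _ _ _ ht0]
        have h2 : D a 1 = 0 := (D a).map_one_eq_zero
        rw [h2]
        field_simp
        ring
      · rw [if_neg hp, if_neg hp, if_neg hp, hD _ _ _ ht0]
        field_simp
        ring
  have h2 : (Matrix.of fun i j => B i j + c i * B q j : Matrix (Fin (n + r)) (Fin (n + r)) M).det =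
      B.det := by
    refine Matrix.det_eq_of_forall_row_eq_smul_add_const c q ?_ fun i j => rfl
    simp only [c, hq, Fin.append_right, if_true]
  have h3 : ∏ i, v i = - (t ^ (r + 1))⁻¹ := by
    simp only [v]
    rw [prod_append, Finset.prod_const_one, one_mul, ← Finset.mul_prod_erase _ _ (Finset.mem_univ p0),
      if_pos rfl]
    have h4 : ∏ p ∈ Finset.univ.erase p0, (if p = p0 then - (t ^ 2)⁻¹ else t⁻¹) =
        (t⁻¹) ^ (r - 1) := by
      rw [Finset.prod_congr rfl (g := fun _ => t⁻¹), Finset.prod_const,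
        Finset.card_erase_of_mem (Finset.mem_univ _), Finset.card_univ, Fintype.card_fin]
      intro p hp
      rw [if_neg (Finset.ne_of_mem_erase hp)]
    rw [h4]
    have hr : 0 < r := Fin.pos p0
    obtain ⟨r', hr'⟩ : ∃ r', r = r' + 1 := ⟨r - 1, by omega⟩
    have h5 : r - 1 = r' := by omega
    rw [h5, hr', inv_pow]
    field_simp
    ring
  have h4 : dt x (ts l s) D = B.det := by rw [dt_eq, hB]
  rw [h1, Matrix.det_mul_column, h2, h3, h4]
  have h5 : (s * Equiv.swap 0 p0.succ.castSucc) 0 = s p0.succ.castSucc := by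
    rw [Equiv.Perm.mul_apply, Equiv.swap_apply_left]
  rw [h5]
  have h6 : l (s p0.succ.castSucc) = l (s 0) * t := by
    rw [ht]
    unfold ts
    rw [mul_div_cancel₀ _ (h.ne _)]
  rw [h6, mul_pow]
  field_simp

/-- determinants for the new last form -/
theorem dt_swapL (h : Sys l) (x : Fin n → M) (s : Equiv.Perm (Fin (r + 2))) (p0 : Fin r)
    (D : Fin (n + r) → Derivation ℂ M M) :
    dt x (ts l (s * Equiv.swap p0.succ.castSucc (Fin.last (r + 1)))) D = - dt x (ts l s) D := by
  classical
  obtain ⟨q, hq⟩ : ∃ q : Fin (n + r), q = Fin.natAdd n p0 := ⟨_, rfl⟩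
  obtain ⟨B, hB⟩ : ∃ B : Matrix (Fin (n + r)) (Fin (n + r)) M,
    B = Matrix.of fun b a => D a ((Fin.append x (ts l s) : Fin (n + r) → M) b) := ⟨_, rfl⟩
  let c : Fin (n + r) → M := Fin.append (fun _ => 0) fun _ => - 1
  have h1 : dt x (ts l (s * Equiv.swap p0.succ.castSucc (Fin.last (r + 1)))) D =
      (B.updateRow q (∑ k, c k • B k)).det := by
    rw [dt_eq]
    congr 1
    ext b a
    rw [Matrix.of_apply]
    have hsum : (∑ k, c k • B k) a = - ∑ p, D a (ts l s p) := by
      rw [Finset.sum_apply, Fin.sum_univ_add]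
      simp only [c, Fin.append_left, Fin.append_right, Pi.smul_apply, smul_eq_mul, zero_mul,
        Finset.sum_const_zero, zero_add, hB, Matrix.of_apply]
      rw [← Finset.sum_neg_distrib]
      exact Finset.sum_congr rfl fun p _ => by ring
    by_cases hb : b = q
    · rw [hb, Matrix.updateRow_self, hsum, hq, Fin.append_right, ts_swapL h, if_pos rfl]
      rw [map_neg, map_add, (D a).map_one_eq_zero, zero_add, map_sum]
    · rw [Matrix.updateRow_ne hb, hB, Matrix.of_apply]
      revert hb
      refine Fin.addCases (fun i => ?_) (fun p => ?_) b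
      · intro _
        rw [Fin.append_left, Fin.append_left]
      · intro hb
        rw [Fin.append_right, Fin.append_right, ts_swapL h, if_neg]
        intro hp
        apply hb
        rw [hp, hq]
  have h4 : dt x (ts l s) D = B.det := by rw [dt_eq, hB]
  rw [h1, Matrix.det_updateRow_sum, h4]
  simp only [c, hq, Fin.append_right, smul_eq_mul]
  ring

/-- the squares of the determinants -/
noncomputable def dsq (x : Fin n → M) (l : Fin (r + 2) → M) (s : Equiv.Perm (Fin (r + 2)))
    (D : Fin (n + r) → Derivation ℂ M M) : M := (l (s 0) ^ (r + 1) * dt x (ts l s) D) ^ 2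

theorem dsq_swap0 (h : Sys l) (x : Fin n → M) (s : Equiv.Perm (Fin (r + 2))) (p0 : Fin r)
    (D : Fin (n + r) → Derivation ℂ M M) :
    dsq x l (s * Equiv.swap 0 p0.succ.castSucc) D = dsq x l s D := by
  unfold dsq
  rw [dt_swap0 h, neg_sq]

theorem dsq_swapL (h : Sys l) (x : Fin n → M) (s : Equiv.Perm (Fin (r + 2))) (p0 : Fin r)
    (D : Fin (n + r) → Derivation ℂ M M) :
    dsq x l (s * Equiv.swap p0.succ.castSucc (Fin.last (r + 1))) D = dsq x l s D := by
  have h0 : (0 : Fin (r + 2)) ≠ p0.succ.castSucc := by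
    intro h
    have := congrArg Fin.val h
    simp at this
  have h0' : (0 : Fin (r + 2)) ≠ Fin.last (r + 1) := by
    intro h
    have := congrArg Fin.val h
    simp at this
  unfold dsq
  rw [dt_swapL h, Equiv.Perm.mul_apply, Equiv.swap_apply_of_ne_of_ne h0 h0']
  ring

end det

section perm

variable {r : ℕ}

/-- the permutation for the denominator `i` -/
def sA (i : Fin (r + 1)) : Equiv.Perm (Fin (r + 2)) := Equiv.swap 0 i.castSucc

/-- the permutation for the denominator `i` and a new last form -/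
def sB (i : Fin (r + 1)) (p : Fin r) : Equiv.Perm (Fin (r + 2)) :=
  sA i * Equiv.swap p.succ.castSucc (Fin.last (r + 1))

theorem sA_zero (i : Fin (r + 1)) : sA i 0 = i.castSucc := Equiv.swap_apply_left _ _

theorem sA_last (i : Fin (r + 1)) : sA i (Fin.last (r + 1)) = Fin.last (r + 1) := by
  unfold sA
  rw [Equiv.swap_apply_of_ne_of_ne]
  · intro h
    have := congrArg Fin.val h
    simp at this
  · intro h
    have := congrArg Fin.val h
    simp only [Fin.val_last, Fin.val_castSucc] at this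
    omega

theorem sB_zero (i : Fin (r + 1)) (p : Fin r) : sB i p 0 = i.castSucc := by
  unfold sB
  rw [Equiv.Perm.mul_apply, Equiv.swap_apply_of_ne_of_ne, sA_zero]
  · intro h
    have := congrArg Fin.val h
    simp at this
  · intro h
    have := congrArg Fin.val h
    simp at this

theorem sB_last (i : Fin (r + 1)) (p : Fin r) :
    sB i p (Fin.last (r + 1)) = sA i p.succ.castSucc := by
  unfold sB
  rw [Equiv.Perm.mul_apply, Equiv.swap_apply_right]

theorem mid_of_ne {k : Fin (r + 2)} (h0 : k ≠ 0) (hl : k ≠ Fin.last (r + 1)) :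
    ∃ p : Fin r, k = p.succ.castSucc := by
  have h1 : (k : ℕ) ≠ 0 := fun h => h0 (Fin.ext h)
  have h2 : (k : ℕ) ≠ r + 1 := fun h => hl (Fin.ext h)
  have h3 := k.2
  refine ⟨⟨(k : ℕ) - 1, by omega⟩, Fin.ext ?_⟩
  simp only [Fin.val_castSucc, Fin.val_succ]
  omega

variable {M : Type} [Field M] [Algebra ℂ M] {n : ℕ} {l : Fin (r + 2) → M}

theorem dsq_sA (h : Sys l) (x : Fin n → M) (i : Fin (r + 1)) (D : Fin (n + r) → Derivation ℂ M M) :
    dsq x l (sA i) D = dsq x l 1 D := by
  by_cases hi : i = 0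
  · rw [hi]
    have : sA (0 : Fin (r + 1)) = 1 := by
      unfold sA
      rw [Fin.castSucc_zero, Equiv.swap_self]
      rfl
    rw [this]
  · obtain ⟨p, hp⟩ := Fin.exists_succ_eq.2 hi
    have : sA i = 1 * Equiv.swap 0 p.succ.castSucc := by
      rw [one_mul, hp]
      rfl
    rw [this, dsq_swap0 h]

theorem dsq_sB (h : Sys l) (x : Fin n → M) (i : Fin (r + 1)) (p : Fin r)
    (D : Fin (n + r) → Derivation ℂ M M) : dsq x l (sB i p) D = dsq x l 1 D := by
  unfold sB
  rw [dsq_swapL h, dsq_sA h]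

/-- the permutations which are used -/
def Adm (i : Fin (r + 1)) (s : Equiv.Perm (Fin (r + 2))) : Prop := s = sA i ∨ ∃ p, s = sB i p

theorem Adm.zero {i : Fin (r + 1)} {s : Equiv.Perm (Fin (r + 2))} (h : Adm i s) :
    s 0 = i.castSucc := by
  rcases h with rfl | ⟨p, rfl⟩
  · exact sA_zero i
  · exact sB_zero i p

theorem Adm.dsq (hs : Sys l) {i : Fin (r + 1)} {s : Equiv.Perm (Fin (r + 2))} (h : Adm i s)
    (x : Fin n → M) (D : Fin (n + r) → Derivation ℂ M M) :
    H890.dsq x l s D = H890.dsq x l 1 D := by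
  rcases h with rfl | ⟨p, rfl⟩
  · exact dsq_sA hs x i D
  · exact dsq_sB hs x i p D

/-- the smallest order is attained twice -/
theorem Sys.twice (h : Sys l) (P : Place ℂ M) {k : Fin (r + 2)}
    (hk : ∀ k', P.ord (l k) ≤ P.ord (l k')) : ∃ k', k' ≠ k ∧ P.ord (l k') = P.ord (l k) := by
  classical
  by_contra hcon
  push Not at hcon
  have h1 : l k = - ∑ k' ∈ Finset.univ.erase k, l k' := by
    have := h.sum
    rw [← Finset.add_sum_erase _ _ (Finset.mem_univ k)] at this
    exact eq_neg_of_add_eq_zero_left this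
  have h2 : Ge P (P.ord (l k) + 1) (l k) := by
    rw [h1]
    refine Ge.neg (Ge.sum _ _ fun k' hk' => Or.inr ?_)
    rw [← h1]
    have h3 := hcon k' (Finset.ne_of_mem_erase hk')
    have h4 := hk k'
    omega
  rcases h2 with h3 | h3
  · exact h.ne k h3
  · omega

/-- minimal on the first forms implies minimal -/
theorem Sys.min_all (h : Sys l) (P : Place ℂ M) {i : Fin (r + 1)}
    (hi : ∀ i' : Fin (r + 1), P.ord (l i.castSucc) ≤ P.ord (l i'.castSucc)) (k : Fin (r + 2)) :
    P.ord (l i.castSucc) ≤ P.ord (l k) := by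
  classical
  refine Fin.lastCases ?_ (fun i' => hi i') k
  have h1 : l (Fin.last (r + 1)) = - ∑ i' : Fin (r + 1), l i'.castSucc := by
    have := h.sum
    rw [Fin.sum_univ_castSucc, add_comm] at this
    exact eq_neg_of_add_eq_zero_left this
  have h2 : Ge P (P.ord (l i.castSucc)) (l (Fin.last (r + 1))) := by
    rw [h1]
    exact Ge.neg (Ge.sum _ _ fun i' _ => Or.inr (hi i'))
  exact h2.resolve_left (h.ne _)

/-- good permutations -/
theorem exists_good (h : Sys l) (P : Place ℂ M) {i : Fin (r + 1)}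
    (hi : ∀ i' : Fin (r + 1), P.ord (l i.castSucc) ≤ P.ord (l i'.castSucc)) :
    ∃ s, Adm i s ∧ (∀ k, P.ord (l (s 0)) ≤ P.ord (l k)) ∧
      P.ord (l (s (Fin.last (r + 1)))) = P.ord (l (s 0)) := by
  have hall := h.min_all P hi
  obtain ⟨k, hk, hk'⟩ := h.twice P (k := i.castSucc) hall
  have h1 : ∀ s, Adm i s → ∀ k, P.ord (l (s 0)) ≤ P.ord (l k) := fun s hs k => by
    rw [hs.zero]
    exact hall k
  by_cases hkl : k = Fin.last (r + 1)
  · refine ⟨sA i, Or.inl rfl, h1 _ (Or.inl rfl), ?_⟩
    rw [sA_last, sA_zero, ← hkl, hk']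
  · have h2 : (sA i).symm k ≠ 0 := by
      intro h0
      apply hk
      rw [← sA_zero, ← h0, Equiv.apply_symm_apply]
    have h3 : (sA i).symm k ≠ Fin.last (r + 1) := by
      intro h0
      apply hkl
      rw [← sA_last i, ← h0, Equiv.apply_symm_apply]
    obtain ⟨p, hp⟩ := mid_of_ne h2 h3
    refine ⟨sB i p, Or.inr ⟨p, rfl⟩, h1 _ (Or.inr ⟨p, rfl⟩), ?_⟩
    rw [sB_last, sB_zero, ← hp, Equiv.apply_symm_apply, hk']

end perm

section gens

variable {K L : Type} [Field K] [Field L] [Algebra K L] {r : ℕ}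

theorem Gens_basis {t : Fin r → L} (h : Gens (k := K) t) : IsTranscendenceBasis K t := by
  have h1 : IntermediateField.adjoin K (Set.range t) = ⊤ := by
    rw [eq_top_iff]
    intro z _
    obtain ⟨P, Q, -, hz⟩ := h.gen z
    rw [hz]
    refine div_mem ?_ ?_
    · exact IntermediateField.algebra_adjoin_le_adjoin K _
        (Algebra.adjoin_range_eq_range_aeval K t ▸ ⟨P, rfl⟩)
    · exact IntermediateField.algebra_adjoin_le_adjoin K _
        (Algebra.adjoin_range_eq_range_aeval K t ▸ ⟨Q, rfl⟩)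
  refine h.ind.isTranscendenceBasis_iff_isAlgebraic.2 ?_
  refine ⟨fun z => ?_⟩
  obtain ⟨P, Q, hQ, hz⟩ := h.gen z
  have hP' : aeval t P ∈ Algebra.adjoin K (Set.range t) :=
    Algebra.adjoin_range_eq_range_aeval K t ▸ ⟨P, rfl⟩
  have hQ' : aeval t Q ∈ Algebra.adjoin K (Set.range t) :=
    Algebra.adjoin_range_eq_range_aeval K t ▸ ⟨Q, rfl⟩
  have hQ0 := h.ne hQ
  rw [hz, div_eq_mul_inv]
  refine (isAlgebraic_algebraMap (⟨_, hP'⟩ : Algebra.adjoin K (Set.range t))).mul ?_
  exact (isAlgebraic_algebraMap (A := L) (⟨_, hQ'⟩ : Algebra.adjoin K (Set.range t))).inv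

theorem gens_change {t t' : Fin r → L} (h : Gens (k := K) t)
    (ht : ∀ p, t p ∈ IntermediateField.adjoin K (Set.range t')) : Gens (k := K) t' := by
  have htop : IntermediateField.adjoin K (Set.range t') = ⊤ := by
    rw [eq_top_iff]
    intro z _
    obtain ⟨P, Q, -, hz⟩ := h.gen z
    have h1 : ∀ P : MvPolynomial (Fin r) K,
        aeval t P ∈ IntermediateField.adjoin K (Set.range t') := by
      intro P
      have h2 : aeval t P ∈ Algebra.adjoin K (Set.range t) :=
        Algebra.adjoin_range_eq_range_aeval K t ▸ ⟨P, rfl⟩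
      have h3 : Algebra.adjoin K (Set.range t) ≤
          (IntermediateField.adjoin K (Set.range t')).toSubalgebra := by
        apply Algebra.adjoin_le
        rintro _ ⟨p, rfl⟩
        exact ht p
      exact h3 h2
    rw [hz]
    exact div_mem (h1 P) (h1 Q)
  have hdiv : ∀ z : L, ∃ P Q : MvPolynomial (Fin r) K, aeval t' Q ≠ 0 ∧
      z = aeval t' P / aeval t' Q := by
    intro z
    have hz : z ∈ IntermediateField.adjoin K (Set.range t') := by rw [htop]; trivial
    rw [IntermediateField.mem_adjoin_iff_div] at hz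
    obtain ⟨a, ha, b, hb, hab⟩ := hz
    rw [Algebra.adjoin_range_eq_range_aeval] at ha hb
    obtain ⟨P, hP⟩ := ha
    obtain ⟨Q, hQ⟩ := hb
    by_cases hb0 : b = 0
    · refine ⟨0, 1, by simp, ?_⟩
      rw [hab, hb0, div_zero, map_zero, zero_div]
    · refine ⟨P, Q, ?_, ?_⟩
      · rw [← hQ] at hb0
        exact hb0
      · rw [hab, ← hP, ← hQ]
        rfl
  have halg : Algebra.IsAlgebraic (Algebra.adjoin K (Set.range t')) L := by
    refine ⟨fun z => ?_⟩
    obtain ⟨P, Q, hQ, hz⟩ := hdiv z
    have hP' : aeval t' P ∈ Algebra.adjoin K (Set.range t') :=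
      Algebra.adjoin_range_eq_range_aeval K t' ▸ ⟨P, rfl⟩
    have hQ' : aeval t' Q ∈ Algebra.adjoin K (Set.range t') :=
      Algebra.adjoin_range_eq_range_aeval K t' ▸ ⟨Q, rfl⟩
    rw [hz, div_eq_mul_inv]
    refine (isAlgebraic_algebraMap (⟨_, hP'⟩ : Algebra.adjoin K (Set.range t'))).mul ?_
    exact (isAlgebraic_algebraMap (A := L) (⟨_, hQ'⟩ : Algebra.adjoin K (Set.range t'))).inv
  have hcard : Cardinal.mk (Fin r) ≤ Algebra.trdeg K L := by
    have h1 := (Gens_basis h).lift_cardinalMk_eq_trdeg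
    rw [Cardinal.lift_id, Cardinal.lift_id] at h1
    exact h1.le
  have h1 := Algebra.IsAlgebraic.isTranscendenceBasis_of_le_trdeg_of_finite K t' hcard
  refine ⟨h1.1, fun z => ?_⟩
  obtain ⟨P, Q, hQ, hz⟩ := hdiv z
  refine ⟨P, Q, ?_, hz⟩
  rintro rfl
  exact hQ (map_zero _)

variable {l : Fin (r + 2) → L}

theorem ratio_mem (h : Sys l) (s : Equiv.Perm (Fin (r + 2))) (k : Fin (r + 2)) :
    l k / l (s 0) ∈ Algebra.adjoin K (Set.range (ts l s)) := by
  have hp : ∀ p, ts l s p ∈ Algebra.adjoin K (Set.range (ts l s)) := fun p =>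
    Algebra.subset_adjoin ⟨p, rfl⟩
  obtain ⟨k', hk'⟩ : ∃ k', s k' = k := s.surjective k
  rw [← hk']
  by_cases h0 : k' = 0
  · rw [h0, div_self (h.ne _)]
    exact Subalgebra.one_mem _
  by_cases hl : k' = Fin.last (r + 1)
  · have h1 : l (s k') / l (s 0) = - (1 + ∑ p, ts l s p) := by
      rw [h.one_add, neg_neg, hl]
    rw [h1]
    exact Subalgebra.neg_mem _ (Subalgebra.add_mem _ (Subalgebra.one_mem _)
      (Subalgebra.sum_mem _ fun p _ => hp p))
  · obtain ⟨p, hp'⟩ := mid_of_ne h0 hl
    rw [hp']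
    exact hp p

/-- all systems of coordinates generate the field -/
theorem gens_ts (h : Sys l) (hg : Gens (k := K) (ts l 1)) (s : Equiv.Perm (Fin (r + 2))) :
    Gens (k := K) (ts l s) := by
  refine gens_change hg fun p => ?_
  have h1 : ∀ k, l k / l (s 0) ∈ IntermediateField.adjoin K (Set.range (ts l s)) := fun k =>
    IntermediateField.algebra_adjoin_le_adjoin K _ (ratio_mem h s k)
  have h2 : ts l 1 p = (l p.succ.castSucc / l (s 0)) / (l 0 / l (s 0)) := by
    rw [div_div_div_cancel_right₀ (h.ne _)]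
    rfl
  rw [h2]
  exact div_mem (h1 _) (h1 _)

end gens

end Pool.Agent.H890
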