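import Pool.Agent.H890.Wl9

set_option autoImplicit false
set_option linter.unusedSectionVars false
set_option linter.overlappingInstances false

open FF MvPolynomial IsLocalRing Pool.Agent.W602.GT Pool.Agent.W603.LV Pool.Agent.W619.PQ
  Pool.Agent.Y172 Pool.Agent.TH122.AB Pool.Agent.R887

namespace Pool.Agent.H890

section

variable {K L M : Type} [Field K] [Field L] [Field M] [Algebra ℂ K] [Algebra ℂ L]
  [Algebra ℂ M] [Algebra K L] [Algebra L M] [Algebra K M] [IsScalarTower ℂ K L]
  [IsScalarTower ℂ L M] [IsScalarTower ℂ K M] [IsScalarTower K L M] [FiniteDimensional L M]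
  {N : ℕ} {y : Fin (N + 1) → K} {n r : ℕ} {G : Place ℂ K → ℤ}
  {S : Mod K L M y n r G} {b : ℕ} {z : M}

/-- **The crepant place over `Q`.** -/
theorem Cov.exists_crep (h : Cov S b z) (hn : 0 < n) {Δ : Place ℂ K → ℚ}
    (hG : ∀ P, IsPrimeDivisor y P → (G P : ℚ) = b * Δ P) {Q : Place ℂ K} (hQ : Divisorial n Q)
    {a : ℚ} (ha : LogDisc y n Δ Q a) :
    ∃ P : Place ℂ M, Divisorial (n + r) P ∧ Over P Q 1 ∧ LogDisc S.v (n + r) 0 P a := by
  classical
  have hessK := S.essK
  have hessL := S.essL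
  have hessM := S.essM
  have hb1 : 1 ≤ b := by
    have := h.hb
    omega
  have hl0 : ∀ k, S.l k ≠ 0 := S.sys.ne
  obtain ⟨i, hi⟩ : ∃ i : Fin (r + 1), i = 0 := ⟨_, rfl⟩
  obtain ⟨g, hg⟩ : ∃ g : Fin r → K, g = fun _ => 1 := ⟨_, rfl⟩
  have hg1 : ∀ p, g p = 1 := fun p => by rw [hg]
  have hg0 : ∀ p, g p ≠ 0 := by
    intro p
    rw [hg1]
    exact one_ne_zero
  have hgo : ∀ p, Q.ord (g p) = 0 := by
    intro p
    rw [hg1, Q.ord_one]
  have hgL : ∀ p, algebraMap K L (g p) ≠ 0 := fun p => by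
    rw [Ne, map_eq_zero]
    exact hg0 p
  obtain ⟨τ, hτ⟩ : ∃ τ : Fin r → L, τ = fun p => ts S.l (sA i) p * algebraMap K L (g p) :=
    ⟨_, rfl⟩
  have hτg : Gens (k := K) τ := by
    refine gens_change (gens_ts S.sys S.gens (sA i)) fun p => ?_
    have h1 : ts S.l (sA i) p = τ p * algebraMap K L (g p)⁻¹ := by
      rw [hτ]
      change _ = ts S.l (sA i) p * algebraMap K L (g p) * algebraMap K L (g p)⁻¹
      rw [mul_assoc, ← map_mul, mul_inv_cancel₀ (hg0 p), map_one, mul_one]
    rw [h1]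
    exact mul_mem (IntermediateField.subset_adjoin K _ ⟨p, rfl⟩)
      (IntermediateField.algebraMap_mem _ _)
  obtain ⟨P₁, hP₁⟩ := exists_gauss hτg Q 0
  have hgau : IsGauss τ Q P₁ := hP₁
  have hP₁d : Divisorial (n + r) P₁ := hgau.divisorial hτg hn hQ
  -- the orders of the forms
  have hsurj : ∀ k' : Fin (r + 1), k' ≠ i → ∃ p : Fin r, sA i p.succ.castSucc = k'.castSucc := by
    intro k' hk'
    obtain ⟨m, hm⟩ := (sA i).surjective k'.castSucc
    have h0 : m ≠ 0 := by
      rintro rfl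
      rw [sA_zero] at hm
      exact hk' (Fin.castSucc_injective _ hm).symm
    have h1 : m ≠ Fin.last (r + 1) := by
      rintro rfl
      rw [sA_last] at hm
      have h2 := congrArg Fin.val hm
      simp only [Fin.val_last, Fin.val_castSucc] at h2
      have := k'.2
      omega
    obtain ⟨p, rfl⟩ := mid_of_ne h0 h1
    exact ⟨p, hm⟩
  have ho : ∀ k' : Fin (r + 1), P₁.ord (S.l k'.castSucc) - P₁.ord (S.l i.castSucc) = 0 := by
    intro k'
    by_cases hk' : k' = i
    · rw [hk', sub_self]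
    · obtain ⟨p, hp⟩ := hsurj k' hk'
      have h1 := hgau.var p
      have h2 : τ p = S.l k'.castSucc / S.l i.castSucc * algebraMap K L (g p) := by
        rw [hτ]
        change ts S.l (sA i) p * _ = _
        unfold ts
        rw [hp, sA_zero]
      rw [h2, P₁.ord_mul (div_ne_zero (hl0 _) (hl0 _)) (hgL p), P₁.ord_div (hl0 _) (hl0 _),
        hgau.base, hgo] at h1
      linarith
  have holast : P₁.ord (S.l (Fin.last (r + 1))) = P₁.ord (S.l i.castSucc) := by
    apply le_antisymm
    · obtain ⟨F, hFd⟩ : ∃ F : MvPolynomial (Fin r) K, F = 1 + ∑ p, C (g p)⁻¹ * X p := ⟨_, rfl⟩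
      have hFe : aeval τ F = - (S.l (Fin.last (r + 1)) / S.l i.castSucc) := by
        have h1 := S.sys.one_add (sA i)
        rw [sA_last, sA_zero] at h1
        rw [← h1, hFd, map_add, map_one, map_sum]
        congr 1
        refine Finset.sum_congr rfl fun p _ => ?_
        rw [map_mul, aeval_C, aeval_X, hτ]
        change algebraMap K L (g p)⁻¹ * (ts S.l (sA i) p * algebraMap K L (g p)) = _
        rw [mul_comm, mul_assoc, ← map_mul, mul_inv_cancel₀ (hg0 p), map_one, mul_one]
      have hF0 : F ≠ 0 := by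
        intro h1
        rw [h1, map_zero] at hFe
        exact div_ne_zero (hl0 (Fin.last (r + 1))) (hl0 i.castSucc) (neg_eq_zero.1 hFe.symm)
      have hordF : P₁.ord (aeval τ F) = P₁.ord (S.l (Fin.last (r + 1))) -
          P₁.ord (S.l i.castSucc) := by
        rw [hFe, P₁.ord_neg, P₁.ord_div (hl0 _) (hl0 _)]
      have hle := (hgau.le_iff hF0 (m := P₁.ord (aeval τ F))).1 le_rfl
      have hc : F.coeff 0 = 1 := by
        rw [hFd, coeff_add, coeff_sum, coeff_zero_one]
        simp
      have h1 := hle 0 (by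
        rw [mem_support_iff, hc]
        exact one_ne_zero)
      rw [hc, Q.ord_one, hordF] at h1
      linarith
    · have h2 : S.l (Fin.last (r + 1)) = - ∑ i' : Fin (r + 1), S.l i'.castSucc := by
        have := S.sys.sum
        rw [Fin.sum_univ_castSucc, add_comm] at this
        exact eq_neg_of_add_eq_zero_left this
      have h3 : Ge P₁ (P₁.ord (S.l i.castSucc)) (S.l (Fin.last (r + 1))) := by
        rw [h2]
        refine Ge.neg (Ge.sum _ _ fun i' _ => Or.inr ?_)
        have h4 := ho i'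
        linarith
      exact h3.resolve_left (hl0 _)
  have hcard : ∀ f : Fin (r + 2) → ℤ, ∑ k, f k * (P₁.ord (S.l k) - P₁.ord (S.l i.castSucc)) =
      0 := by
    intro f
    rw [Fin.sum_univ_castSucc, holast, sub_self, mul_zero, add_zero]
    refine Finset.sum_eq_zero fun k _ => ?_
    rw [ho, mul_zero]
  have hφ0 := phi_ne (S := S) S.sys
  have hφ : P₁.ord (∏ k, S.l k ^ sg k) = 0 := by
    rw [h.phi_ord P₁ i.castSucc, hcard sg]
  have hT : ∑ k, (P₁.ord (S.l k) - P₁.ord (S.l i.castSucc)) = 0 := by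
    have h1 := hcard fun _ => 1
    simp only [one_mul] at h1
    exact h1
  -- the place of the covering
  obtain ⟨P, e, hov⟩ := exists_above (L := M) P₁
  have he : e = 1 := kummer_unr hov (Nat.succ_pos _) hφ0 hφ h.zN h.gen
  subst he
  have hPQ : Over P Q 1 := ⟨one_pos, fun f => by
    rw [IsScalarTower.algebraMap_apply K L M, hov.2, hgau.base, Nat.cast_one]⟩
  refine ⟨P, divisorial_up hov hP₁d, hPQ, ?_⟩
  obtain ⟨x, E, hx, hE⟩ := exists_crd h.trK
  obtain ⟨q, η, c, hq, hη, hgen, hc, hca⟩ := ha.form hb1 hG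
  have hpos : 0 < 2 * (b * q) := by
    have : 0 < b * q := Nat.mul_pos hb1 hq
    omega
  have hform : OrdEq P (th S.lM b q (fun i => algebraMap K M (x i)) (algebraMap K M (η E)))
      (c : ℤ) := by
    rw [hτ] at hτg hgau
    have h1 := gauss_ord S.sys h.trK hQ hg0 hτg hgau holast h.hb hη hc hx hE
    rw [hT] at h1
    have h2 : OrdEq P₁ (th S.l b q (fun i => algebraMap K L (x i)) (algebraMap K L (η E)))
        ((c : ℤ) : ℚ) := by
      have e1 : ((c : ℤ) : ℚ) = (c : ℚ) + ((q * 0 : ℤ) : ℚ) := by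
        push_cast
        ring
      rw [e1]
      exact h1
    have h3 := up_th rfl h.trL S.sys hov hP₁d
      (append_basis hx (Gens_basis (gens_ts S.sys S.gens (sA 0)))) h2
    simp only [← IsScalarTower.algebraMap_apply] at h3
    have h4 : ((1 : ℕ) * (c + (2 * (b * q) : ℕ)) - (2 * (b * q) : ℕ) : ℤ) =
        c := by
      push_cast
      ring
    rw [h4] at h3
    exact h3
  refine ⟨2 * (b * q), hpos, th S.lM b q (fun i => algebraMap K M (x i))
    (algebraMap K M (η E)), th_pluri S.sysM _ _ _ _, fun P' hP' hT => ?_, ?_⟩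
  · have h1 := h.gen0 hPQ hη hgen hx hE hP' hT
    simpa using h1
  · have hbQ : (b : ℚ) ≠ 0 := by exact_mod_cast (by omega : b ≠ 0)
    have h2 : ((2 * (b * q) : ℕ) : ℚ) * (a - 1) = ((c : ℤ) : ℚ) := by
      push_cast
      rw [hca]
      try push_cast
      try ring
    rw [h2]
    exact hform

end

end Pool.Agent.H890
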