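import Pool.Agent.H890.Wl9

set_option autoImplicit false
set_option linter.unusedSectionVars false
set_option linter.overlappingInstances false

open FF MvPolynomial IsLocalRing Pool.Agent.W602.GT Pool.Agent.W603.LV Pool.Agent.W619.PQ
  Pool.Agent.Y172 Pool.Agent.TH122.AB Pool.Agent.R887

namespace Pool.Agent.H890

/-- a polynomial which is algebraic over the field of coefficients is constant -/
theorem tf2_const {K : Type} [Field K] {r : ℕ} (P : MvPolynomial (Fin r) K)
    (hP : IsAlgebraic K P) : ∃ c : K, P = MvPolynomial.C c := by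
  by_cases h0 : P = 0
  · exact ⟨0, by rw [h0, MvPolynomial.C_0]⟩
  obtain ⟨c, hc, hd⟩ := hP.exists_nonzero_dvd (mem_nonZeroDivisors_of_ne_zero h0)
  have hu : IsUnit (algebraMap K (MvPolynomial (Fin r) K) c) := (IsUnit.mk0 c hc).map _
  have hPu : IsUnit P := isUnit_of_dvd_unit hd hu
  obtain ⟨c', -, h⟩ := MvPolynomial.isUnit_iff_eq_C_of_isReduced.1 hPu
  exact ⟨c', h⟩

theorem alg_closed_up {F K M : Type} [Field F] [Field K] [Field M] [Algebra F K] [Algebra K M]
    [Algebra F M] [IsScalarTower F K M] {r : ℕ} {t : Fin r → M} (ht : AlgebraicIndependent K t)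
    (hadj : IntermediateField.adjoin K (Set.range t) = ⊤)
    (h : ∀ x : K, IsAlgebraic F x → ∃ c : F, algebraMap F K c = x) (x : M)
    (hx : IsAlgebraic F x) : ∃ c : F, algebraMap F M c = x := by
  have hxK : IsAlgebraic K x := hx.tower_top K
  have hmem : x ∈ IntermediateField.adjoin K (Set.range t) := by
    rw [hadj]
    exact IntermediateField.mem_top
  let e := ht.aevalEquivField
  let x' : IntermediateField.adjoin K (Set.range t) := ⟨x, hmem⟩
  have hx' : IsAlgebraic K x' := by
    have h1 : IsAlgebraic K ((IntermediateField.adjoin K (Set.range t)).val x') := hxK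
    exact (isAlgebraic_algHom_iff _ Subtype.val_injective).1 h1
  have hy : IsAlgebraic K (e.symm x') := by
    exact (isAlgebraic_algHom_iff e.symm.toAlgHom e.symm.injective).2 hx'
  have hint : IsIntegral (MvPolynomial (Fin r) K) (e.symm x') := hy.isIntegral.tower_top
  obtain ⟨P, hP⟩ := IsIntegrallyClosed.isIntegral_iff.1 hint
  have hPalg : IsAlgebraic K P := by
    have h1 : IsAlgebraic K (algebraMap (MvPolynomial (Fin r) K)
        (FractionRing (MvPolynomial (Fin r) K)) P) := by
      rw [hP]
      exact hy
    exact (isAlgebraic_algebraMap_iff (IsFractionRing.injective _ _)).1 h1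
  obtain ⟨c, hc⟩ := tf2_const P hPalg
  have hxc : algebraMap K M c = x := by
    have h1 : x' = e (algebraMap _ _ P) := by
      rw [hP, AlgEquiv.apply_symm_apply]
    have h2 := ht.aevalEquivField_algebraMap_apply_coe P
    have h3 : x = aeval t P := by
      rw [← h2]
      exact congrArg Subtype.val h1
    rw [h3, hc, MvPolynomial.aeval_C]
  have hcalg : IsAlgebraic F c := by
    rw [← hxc] at hx
    exact (isAlgebraic_algebraMap_iff (FaithfulSMul.algebraMap_injective K M)).1 hx
  obtain ⟨c', hc'⟩ := h c hcalg
  exact ⟨c', by rw [IsScalarTower.algebraMap_apply F K M, hc', hxc]⟩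

end Pool.Agent.H890
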