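import Pool.Agent.H890.Wl9

set_option autoImplicit false
set_option linter.unusedSectionVars false
set_option linter.overlappingInstances false

open FF MvPolynomial IsLocalRing Pool.Agent.W602.GT Pool.Agent.W603.LV Pool.Agent.W619.PQ
  Pool.Agent.Y172 Pool.Agent.TH122.AB Pool.Agent.R887

namespace Pool.Agent.H890

section

variable {F K M : Type} [Field F] [Field K] [Field M] [Algebra ℂ F] [Algebra ℂ K] [Algebra ℂ M]
  [Algebra F K] [Algebra K M] [Algebra F M] [IsScalarTower ℂ F K] [IsScalarTower ℂ K M]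
  [IsScalarTower ℂ F M] [IsScalarTower F K M]

/-- Composition. (`Over w v e` is `1 ≤ e` and `w.ord (algebraMap f) = e * v.ord f`.) -/
theorem over_trans {E' : Place ℂ M} {E : Place ℂ K} {P : Place ℂ F} {e₁ e₂ : ℕ}
    (h₁ : Over E' E e₁) (h₂ : Over E P e₂) : Over E' P (e₁ * e₂) := by
  refine ⟨Nat.mul_pos h₁.1 h₂.1, fun f => ?_⟩
  rw [IsScalarTower.algebraMap_apply F K M f, h₁.2, h₂.2]
  push_cast
  ring

/-- Factorization. PROOF. Some `f : F` has `P.ord f = 1` (`P.surj`), so `E'.ord f = e ≠ 0`;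
`FF.exists_over` for `K → M` gives `E`, `e₁`, and `E.ord (algebraMap f) ≠ 0`, so `FF.exists_over` for
`F → K` gives `P₂`, `e₂` with `Over E P₂ e₂`. For all `f : F`: `e * P.ord f = e₁ * e₂ * P₂.ord f`. Taking
`P.ord f = 1` and `P₂.ord f = 1` (`surj`): each of `e`, `e₁ * e₂` divides the other, so they are equal
and `P = P₂` (`Place.ext`). -/
theorem over_factor {E' : Place ℂ M} {P : Place ℂ F} {e : ℕ} (h : Over E' P e) :
    ∃ (E : Place ℂ K) (e₁ e₂ : ℕ), Over E' E e₁ ∧ Over E P e₂ ∧ e = e₁ * e₂ := by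
  obtain ⟨f, -, hf1⟩ := P.surj
  have he : (e : ℤ) ≠ 0 := by
    have := h.1
    omega
  have hE' : E'.ord (algebraMap K M (algebraMap F K f)) ≠ 0 := by
    rw [← IsScalarTower.algebraMap_apply F K M f, h.2, hf1, mul_one]
    exact he
  obtain ⟨e₁, E, h₁⟩ := FF.exists_over E' ⟨algebraMap F K f, hE'⟩
  have hE : E.ord (algebraMap F K f) ≠ 0 := by
    intro h0
    rw [h₁.2, h0, mul_zero] at hE'
    exact hE' rfl
  obtain ⟨e₂, P₂, h₂⟩ := FF.exists_over E ⟨f, hE⟩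
  have h₃ : Over E' P₂ (e₁ * e₂) := over_trans h₁ h₂
  have heq : ∀ g : F, (e : ℤ) * P.ord g = ((e₁ * e₂ : ℕ) : ℤ) * P₂.ord g := fun g => by
    rw [← h.2 g, ← h₃.2 g]
  obtain ⟨g, -, hg1⟩ := P₂.surj
  have d1 : ((e₁ * e₂ : ℕ) : ℤ) ∣ (e : ℤ) := ⟨P₂.ord f, by
    have := heq f
    rwa [hf1, mul_one] at this⟩
  have d2 : (e : ℤ) ∣ ((e₁ * e₂ : ℕ) : ℤ) := ⟨P.ord g, by
    have := heq g
    rw [hg1, mul_one] at this
    exact this.symm⟩
  have hee : e = e₁ * e₂ := Nat.dvd_antisymm (Int.natCast_dvd_natCast.1 d2)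
    (Int.natCast_dvd_natCast.1 d1)
  have hP : P = P₂ := by
    ext g
    have h5 := heq g
    rw [← hee] at h5
    exact mul_left_cancel₀ he h5
  refine ⟨E, e₁, e₂, h₁, ?_, hee⟩
  rw [hP]
  exact h₂

end

end Pool.Agent.H890
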