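import Pool.Agent.H890.Tf1
import Pool.Agent.H890.Tf2
import Pool.Agent.H890.Tf3
import Pool.Agent.H890.KDefsT

/-!
Log trivial fibrations: removal of the boundary.
-/

set_option autoImplicit false
set_option linter.unusedSectionVars false
set_option linter.overlappingInstances false

open FF MvPolynomial Pool.Agent.W602.GT Pool.Agent.W603.LV Pool.Agent.W619.PQ Pool.Agent.Y172
  Pool.Agent.TH122.AB Pool.Agent.R887

namespace Pool.Agent.H890

section

variable {F K L M : Type} [Field F] [Field K] [Field L] [Field M] [Algebra ℂ F] [Algebra ℂ K]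
  [Algebra ℂ L] [Algebra ℂ M] [Algebra F K] [Algebra F M] [Algebra K L] [Algebra L M]
  [Algebra K M] [IsScalarTower ℂ F K] [IsScalarTower ℂ F M] [IsScalarTower F K M]
  [IsScalarTower ℂ K L] [IsScalarTower ℂ L M] [IsScalarTower ℂ K M] [IsScalarTower K L M]
  [FiniteDimensional L M]
  {N m : ℕ} {y : Fin (N + 1) → K} {w : Fin (m + 1) → F} {n r d : ℕ} {G : Place ℂ K → ℤ}
  {S : Mod K L M y n r G} {b : ℕ} {z : M} {Λ : Place ℂ F → ℚ}

/-- the morphism to `Z` -/
theorem Mod.morphism (S : Mod K L M y n r G) (hw : NormalModel w) (h : IsMorphism y w) :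
    IsMorphism S.v w := by
  intro P
  by_cases htr : ∀ f : K, P.ord (algebraMap K M f) = 0
  · obtain ⟨i, hi⟩ := hw.ne
    refine ⟨i, hi, fun j => ?_⟩
    rw [IsScalarTower.algebraMap_apply F K M]
    exact S.local_triv htr _
  · push Not at htr
    obtain ⟨e, Q, he⟩ := FF.exists_over P htr
    obtain ⟨i, hi, h1⟩ := h Q
    refine ⟨i, hi, fun j => ?_⟩
    rw [IsScalarTower.algebraMap_apply F K M]
    exact S.local_le he (h1 j)

/-- `K_V` is the pull-back of `L` -/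
theorem Cov.logPullBack (h : Cov S b z) (hn : 0 < n) {B : Place ℂ K → ℚ}
    (hG : ∀ P, IsPrimeDivisor y P → (G P : ℚ) = b * B P) (hL : LogPullBack y n B Λ) :
    LogPullBack S.v (n + r) 0 Λ := by
  have hy := S.ny
  have hessK := S.essK
  have hb1 : 0 < b := by
    have := h.hb
    omega
  obtain ⟨s, η, hs, hη, hdiv⟩ := hL
  obtain ⟨x, E, hx, hE⟩ := exists_crd h.trK
  obtain ⟨η', hη'⟩ : ∃ η' : (Fin n → Derivation ℂ K K) → K, η' = fun D => η D ^ (2 * b) :=
    ⟨_, rfl⟩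
  have hη'p : IsPluri (2 * (b * s)) η' := by
    rw [hη']
    have h1 := pluri_pow hη (2 * b)
    have h2 : s * (2 * b) = 2 * (b * s) := by ring
    rwa [h2] at h1
  have hpow : ∀ (D : Place ℂ K) (c : ℚ), OrdEq D η c → ∃ k : ℤ, (k : ℚ) = (2 * b : ℕ) * c ∧
      OrdEq D η' k := by
    intro D c hc
    have h1 := ordEq_pow hc (2 * b)
    obtain ⟨k, hk⟩ := ordEq_int h1
    refine ⟨k, hk.symm, ?_⟩
    rw [hη', ← hk]
    exact h1
  have hne : η' E ≠ 0 := by
    obtain ⟨Q, hQ⟩ := exists_divisorial h.trK hn hy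
    obtain ⟨D, hD, -⟩ := exists_through hy Q
    have h1 : ∃ c, OrdEq D η c := by
      by_cases htr : ∀ f : F, D.ord (algebraMap F K f) = 0
      · exact ⟨_, (hdiv D hD).1 htr⟩
      · push Not at htr
        obtain ⟨e, P, he⟩ := FF.exists_over D htr
        exact ⟨_, (hdiv D hD).2 P e he⟩
    obtain ⟨c, hc⟩ := h1
    rw [hη']
    exact pow_ne_zero _ (val_ne hη hx hE hc)
  refine ⟨2 * (b * s), th S.lM b s (fun i => algebraMap K M (x i)) (algebraMap K M (η' E)),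
    by positivity, th_pluri S.sysM _ _ _ _, fun D' hD' => ?_⟩
  have key : ∀ {D : Place ℂ K} {e₁ : ℕ}, Over D' D e₁ → ∀ c : ℚ, OrdEq D η (s * (c - B D)) →
      OrdEq D' (th S.lM b s (fun i => algebraMap K M (x i)) (algebraMap K M (η' E)))
        ((2 * (b * s) : ℕ) * c) := by
    intro D e₁ he₁ c hc
    obtain ⟨hD, -, -, h4⟩ := h.ver hD' he₁
    obtain ⟨k, hk, hk'⟩ := hpow D _ hc
    have h5 := h4 s η' hη'p k hk' x E hx hE
    have h6 : ((k + 2 * s * G D : ℤ) : ℚ) = (2 * (b * s) : ℕ) * c := by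
      push_cast
      rw [hk, hG D hD]
      push_cast
      ring
    rw [h6] at h5
    exact h5
  refine ⟨fun htr => ?_, fun P e he => ?_⟩
  · have h0 : (-(((2 * (b * s) : ℕ) : ℚ) * (0 : Place ℂ M → ℚ) D')) = 0 := by simp
    rw [h0]
    by_cases htrK : ∀ f : K, D'.ord (algebraMap K M f) = 0
    · exact h.hor hD' htrK s hx hE hne
    · push Not at htrK
      obtain ⟨e₁, D, he₁⟩ := FF.exists_over D' htrK
      obtain ⟨hD, -, h3, -⟩ := h.ver hD' he₁
      have h1 := (hdiv D hD).1 fun f => by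
        rw [← h3, ← IsScalarTower.algebraMap_apply]
        exact htr f
      have h2 : (-(s * B D) : ℚ) = s * (0 - B D) := by ring
      rw [h2] at h1
      have h4 := key he₁ 0 h1
      rw [mul_zero] at h4
      exact h4
  · have htrK : ∃ f : K, D'.ord (algebraMap K M f) ≠ 0 := by
      obtain ⟨π, -, hπ⟩ := P.surj
      refine ⟨algebraMap F K π, ?_⟩
      rw [← IsScalarTower.algebraMap_apply, he.2, hπ]
      have := he.1
      omega
    obtain ⟨e₁, D, he₁⟩ := FF.exists_over D' htrK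
    obtain ⟨hD, -, h3, -⟩ := h.ver hD' he₁
    have hDP : Over D P e := ⟨he.1, fun f => by
      rw [← h3, ← IsScalarTower.algebraMap_apply]
      exact he.2 f⟩
    have h4 := key he₁ _ ((hdiv D hD).2 P e hDP)
    simpa using h4

/-- **The thresholds do not change.** -/
theorem Cov.threshold (h : Cov S b z) (hn : 0 < n) {B : Place ℂ K → ℚ}
    (hG : ∀ P, IsPrimeDivisor y P → (G P : ℚ) = b * B P)
    (hK : ∀ Q, Divisorial n Q → ∃ a, LogDisc y n B Q a) {P : Place ℂ F} {t : ℚ}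
    (ht : Threshold y n B P t) : Threshold S.v (n + r) 0 P t := by
  have hessM := S.essM
  refine ⟨fun Q' e a' hQ' he ha' => ?_, fun ε hε => ?_⟩
  · obtain ⟨Q, e₁, e₂, h1, h2, rfl⟩ := over_factor (K := K) he
    have hQ : Divisorial n Q := div_base (L := M) (by rw [S.trdeg_KM]) h1 hQ'
    obtain ⟨a, ha⟩ := hK Q hQ
    have h3 := ht.1 Q e₂ a hQ h2 ha
    obtain ⟨a'', ha'', h4, -⟩ := h.logDisc hG hQ' h1 ha
    rw [LogDisc.unique S.nv h.trM hQ' ha' ha'']
    refine le_trans ?_ h4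
    have h5 : (0 : ℚ) ≤ e₁ := Nat.cast_nonneg _
    have h6 := mul_le_mul_of_nonneg_left h3 h5
    push_cast
    linarith
  · obtain ⟨Q, e, a, hQ, he, ha, hlt⟩ := ht.2 ε hε
    obtain ⟨Q', hQ', he', ha'⟩ := h.exists_crep hn hG hQ ha
    have h1 := over_trans he' he
    rw [one_mul] at h1
    exact ⟨Q', e, a, hQ', h1, ha', hlt⟩

/-- the converse -/
theorem Cov.threshold_conv (h : Cov S b z) (hn : 0 < n) {B : Place ℂ K → ℚ}
    (hG : ∀ P, IsPrimeDivisor y P → (G P : ℚ) = b * B P)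
    (hK : ∀ Q, Divisorial n Q → ∃ a, LogDisc y n B Q a) {P : Place ℂ F} {t : ℚ}
    (ht : Threshold S.v (n + r) 0 P t) : Threshold y n B P t := by
  have hessM := S.essM
  refine ⟨fun Q e a hQ he ha => ?_, fun ε hε => ?_⟩
  · obtain ⟨Q', hQ', he', ha'⟩ := h.exists_crep hn hG hQ ha
    have h1 := over_trans he' he
    rw [one_mul] at h1
    exact ht.1 Q' e a hQ' h1 ha'
  · obtain ⟨Q', e, a', hQ', he, ha', hlt⟩ := ht.2 ε hε
    obtain ⟨Q, e₁, e₂, h1, h2, rfl⟩ := over_factor (K := K) he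
    have hQ : Divisorial n Q := div_base (L := M) (by rw [S.trdeg_KM]) h1 hQ'
    obtain ⟨a, ha⟩ := hK Q hQ
    obtain ⟨a'', ha'', h4, -⟩ := h.logDisc hG hQ' h1 ha
    rw [LogDisc.unique S.nv h.trM hQ' ha' ha''] at hlt
    refine ⟨Q, e₂, a, hQ, h2, ha, ?_⟩
    have h5 : (0 : ℚ) < e₁ := by exact_mod_cast h1.1
    have h6 := h4.trans_lt hlt
    push_cast at h6
    rw [mul_assoc] at h6
    exact lt_of_mul_lt_mul_left h6 h5.le

theorem Cov.moduliPart (h : Cov S b z) (hn : 0 < n) {B : Place ℂ K → ℚ}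
    (hG : ∀ P, IsPrimeDivisor y P → (G P : ℚ) = b * B P)
    (hK : ∀ Q, Divisorial n Q → ∃ a, LogDisc y n B Q a) {μ : Place ℂ F → ℚ} :
    ModuliPart S.v (n + r) 0 d Λ μ ↔ ModuliPart y n B d Λ μ := by
  constructor
  · rintro ⟨s, ω, hs, hω, h1⟩
    refine ⟨s, ω, hs, hω, fun P hP => ?_⟩
    obtain ⟨k, t, h2, h3, h4⟩ := h1 P hP
    exact ⟨k, t, h2, h.threshold_conv hn hG hK h3, h4⟩
  · rintro ⟨s, ω, hs, hω, h1⟩
    refine ⟨s, ω, hs, hω, fun P hP => ?_⟩
    obtain ⟨k, t, h2, h3, h4⟩ := h1 P hP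
    exact ⟨k, t, h2, h.threshold hn hG hK h3, h4⟩

/-- the log discrepancies of `V` over the generic point of `Z` -/
theorem Cov.genericDisc (h : Cov S b z) {B : Place ℂ K → ℚ}
    (hG : ∀ P, IsPrimeDivisor y P → (G P : ℚ) = b * B P)
    {Q' : Place ℂ M} (hQ' : Divisorial (n + r) Q')
    (htr : ∀ f : F, Q'.ord (algebraMap F M f) = 0) :
    (∃ a', LogDisc S.v (n + r) 0 Q' a' ∧ 0 < a') ∨ ∃ (Q : Place ℂ K) (e : ℕ), Divisorial n Q ∧
      Over Q' Q e ∧ (∀ f : F, Q.ord (algebraMap F K f) = 0) ∧ ∀ a, LogDisc y n B Q a →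
        ∃ a', LogDisc S.v (n + r) 0 Q' a' ∧ e * a ≤ a' := by
  by_cases htrK : ∀ f : K, Q'.ord (algebraMap K M f) = 0
  · exact Or.inl (h.logDisc_pos hQ' htrK)
  · right
    push Not at htrK
    obtain ⟨e, Q, he⟩ := FF.exists_over Q' htrK
    have hQ : Divisorial n Q := div_base (L := M) (by rw [S.trdeg_KM]) he hQ'
    refine ⟨Q, e, hQ, he, fun f => ?_, fun a ha => ?_⟩
    · have h1 := htr f
      rw [IsScalarTower.algebraMap_apply F K M, he.2] at h1
      rcases mul_eq_zero.1 h1 with h2 | h2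
      · have := he.1
        omega
      · exact h2
    · obtain ⟨a', ha', h1, -⟩ := h.logDisc hG hQ' he ha
      exact ⟨a', ha', h1⟩

theorem Cov.kltGeneric (h : Cov S b z) {B : Place ℂ K → ℚ}
    (hG : ∀ P, IsPrimeDivisor y P → (G P : ℚ) = b * B P) (hk : KltGeneric F y n B) :
    KltGeneric F S.v (n + r) 0 := by
  intro Q' hQ' htr
  rcases h.genericDisc hG hQ' htr with h1 | ⟨Q, e, hQ, he, htrQ, h1⟩
  · exact h1
  · obtain ⟨a, ha, ha0⟩ := hk Q hQ htrQ
    obtain ⟨a', ha', h2⟩ := h1 a ha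
    have h3 : (0 : ℚ) < e := by exact_mod_cast he.1
    exact ⟨a', ha', (mul_pos h3 ha0).trans_le h2⟩

theorem Cov.lcGeneric (h : Cov S b z) {B : Place ℂ K → ℚ}
    (hG : ∀ P, IsPrimeDivisor y P → (G P : ℚ) = b * B P) (hk : LcGeneric F y n B) :
    LcGeneric F S.v (n + r) 0 := by
  intro Q' hQ' htr
  rcases h.genericDisc hG hQ' htr with ⟨a', ha', h1⟩ | ⟨Q, e, hQ, he, htrQ, h1⟩
  · exact ⟨a', ha', h1.le⟩
  · obtain ⟨a, ha, ha0⟩ := hk Q hQ htrQ
    obtain ⟨a', ha', h2⟩ := h1 a ha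
    have h3 : (0 : ℚ) ≤ e := Nat.cast_nonneg _
    exact ⟨a', ha', (mul_nonneg h3 ha0).trans h2⟩

end

end Pool.Agent.H890
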