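import Pool.Agent.H890.Tf4

/-!
Log trivial fibrations: the variety without boundary.
-/

set_option autoImplicit false
set_option linter.unusedSectionVars false
set_option linter.overlappingInstances false

open FF MvPolynomial Pool.Agent.W602.GT Pool.Agent.W603.LV Pool.Agent.W619.PQ Pool.Agent.Y172
  Pool.Agent.TH122.AB Pool.Agent.R887

namespace Pool.Agent.H890

/-- **The fibration without boundary.** -/
theorem fibration_removal (K F : Type) [Field K] [Algebra ℂ K] [Field F] [Algebra ℂ F]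
    [Algebra F K] [IsScalarTower ℂ F K] {n d b N m : ℕ} (hb : 2 ≤ b) (hn1 : 1 ≤ n)
    {y : Fin (N + 1) → K} {B : Place ℂ K → ℚ} {w : Fin (m + 1) → F} {Λ : Place ℂ F → ℚ}
    (hf : LogTrivialFibration y n B w d Λ) (hcar : CartierMul y n b B) :
    ∃ (M : Type) (_ : Field M) (_ : Algebra ℂ M) (_ : Algebra K M) (_ : Algebra F M)
      (_ : IsScalarTower ℂ K M) (_ : IsScalarTower F K M) (_ : IsScalarTower ℂ F M)
      (t : Fin (2 * b - 2) → M) (N' : ℕ) (v : Fin (N' + 1) → M), AlgebraicIndependent K t ∧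
      IntermediateField.adjoin K (Set.range t) = ⊤ ∧
      LogTrivialFibration v (n + (2 * b - 2)) 0 w d Λ ∧
      (KltGeneric F y n B → KltGeneric F v (n + (2 * b - 2)) 0) ∧
      (LcGeneric F y n B → LcGeneric F v (n + (2 * b - 2)) 0) ∧
      ∀ μ : Place ℂ F → ℚ,
        ModuliPart v (n + (2 * b - 2)) 0 d Λ μ ↔ ModuliPart y n B d Λ μ := by
  obtain ⟨r, hr⟩ : ∃ r, r = 2 * b - 2 := ⟨_, rfl⟩
  rw [← hr]
  obtain ⟨b', hb'⟩ : ∃ b', b = b' + 2 := ⟨b - 2, by omega⟩
  have hrb : r + 2 = 2 * b := by omega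
  obtain ⟨L, _, _, _, _, t, ht⟩ := exists_L K r
  obtain ⟨M, _, _, _, z, hz, hgen, hfin⟩ := exists_M (∏ k, lfs t k ^ sg k)
    (N := r + 2) (Nat.succ_pos _)
  let _ : Algebra ℂ M := ((algebraMap L M).comp (algebraMap ℂ L)).toAlgebra
  let _ : Algebra K M := ((algebraMap L M).comp (algebraMap K L)).toAlgebra
  let _ : Algebra F M := ((algebraMap K M).comp (algebraMap F K)).toAlgebra
  have _ : IsScalarTower ℂ L M := IsScalarTower.of_algebraMap_eq' rfl
  have _ : IsScalarTower K L M := IsScalarTower.of_algebraMap_eq' rfl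
  have _ : IsScalarTower F K M := IsScalarTower.of_algebraMap_eq' rfl
  have _ : IsScalarTower ℂ K M := IsScalarTower.of_algebraMap_eq fun c => by
    rw [IsScalarTower.algebraMap_apply ℂ L M, IsScalarTower.algebraMap_apply ℂ K L,
      ← IsScalarTower.algebraMap_apply K L M]
  have _ : IsScalarTower ℂ F M := IsScalarTower.of_algebraMap_eq fun c => by
    rw [IsScalarTower.algebraMap_apply ℂ K M, IsScalarTower.algebraMap_apply ℂ F K,
      ← IsScalarTower.algebraMap_apply F K M]
  have htr : Algebra.trdeg K M = r := by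
    have h1 : IsTranscendenceBasis K (algebraMap L M ∘ t) := (Gens_basis ht).algebraMap_comp
    rw [← h1.cardinalMk_eq_trdeg]
    simp
  obtain ⟨s, hs1, hs2⟩ := rational (b' := b') (by omega) (lfs_sys ht)
    (by rw [lfs_ts]; exact ht) htr hz hgen
    (fun k k' hk hk' => lfs_pair ht k k' (by omega) hk hk')
  obtain ⟨G, hG, S, h⟩ := exists_cov (L := L) (M := M) hrb (by omega) ht hz hgen hfin hf.dimX
    hf.normalX hf.effective hcar
  refine ⟨M, inferInstance, inferInstance, inferInstance, inferInstance, inferInstance,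
    inferInstance, inferInstance, s, S.N', S.v, hs1, hs2, ?_, fun hk => h.kltGeneric hG hk,
    fun hk => h.lcGeneric hG hk, fun μ => h.moduliPart hn1 hG hf.cartierK⟩
  exact {
    dimX := h.trM
    dimZ := hf.dimZ
    normalX := S.nv
    normalZ := hf.normalZ
    morphism := S.morphism hf.normalZ hf.morphism
    connected := fun x hx => alg_closed_up hs1 hs2 hf.connected x hx
    effective := eff_zero S.v
    cartierB := ⟨1, one_pos, fun Q _ => ⟨1, one_ne_zero, fun P _ _ => by simp [P.ord_one]⟩⟩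
    cartierK := fun Q' hQ' => by
      by_cases htrK : ∀ f : K, Q'.ord (algebraMap K M f) = 0
      · obtain ⟨a', ha', -⟩ := h.logDisc_pos hQ' htrK
        exact ⟨a', ha'⟩
      · push Not at htrK
        obtain ⟨e, Q, he⟩ := FF.exists_over Q' htrK
        have hQ : Divisorial n Q := div_base (L := M) (by rw [S.trdeg_KM]) he hQ'
        obtain ⟨a, ha⟩ := hf.cartierK Q hQ
        obtain ⟨a', ha', -⟩ := h.logDisc hG hQ' he ha
        exact ⟨a', ha'⟩
    cartierL := hf.cartierL
    pullBack := h.logPullBack hn1 hG hf.pullBack }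

/-- a Cartier multiple at least `2` -/
theorem exists_car {K : Type} [Field K] [Algebra ℂ K] {N n : ℕ} {y : Fin (N + 1) → K}
    {B : Place ℂ K → ℚ} (h : ∃ b : ℕ, 0 < b ∧ CartierMul y n b B) :
    ∃ b : ℕ, 2 ≤ b ∧ CartierMul y n b B := by
  obtain ⟨b, hb, hcar⟩ := h
  refine ⟨2 * b, by omega, fun Q hQ => ?_⟩
  obtain ⟨g, hg0, hg⟩ := hcar Q hQ
  refine ⟨g ^ 2, pow_ne_zero _ hg0, fun P hP hPQ => ?_⟩
  rw [P.ord_pow]
  push_cast
  rw [hg P hP hPQ]
  ring

/-- fields of transcendence degree `0` -/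
theorem bSemiample_zero {K F : Type} [Field K] [Algebra ℂ K] [Field F] [Algebra ℂ F]
    [Algebra F K] [IsScalarTower ℂ F K] {d m : ℕ} (hK : Algebra.trdeg ℂ K = (0 : ℕ))
    (hF : Algebra.trdeg ℂ F = d) {w : Fin (m + 1) → F} (hw : NormalModel w)
    (μ : Place ℂ F → ℚ) : BSemiample d μ := by
  have h1 : Algebra.trdeg ℂ F ≤ Algebra.trdeg ℂ K :=
    trdeg_le_of_injective (IsScalarTower.toAlgHom ℂ F K) (algebraMap F K).injective
  rw [hF, hK] at h1
  obtain rfl : d = 0 := by
    have h2 : d ≤ 0 := by exact_mod_cast h1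
    omega
  exact ⟨1, 0, fun _ => 1, one_pos, fun _ => one_ne_zero, fun P hP =>
    absurd hP (no_divisorial hF hw P)⟩

theorem moduli_klt : ModuliSemiampleKltVariety ↔ ModuliSemiampleKlt := by
  constructor
  · intro h K F _ _ _ _ _ _ n d N m y B w Λ μ hf hk hμ
    by_cases hn1 : 1 ≤ n
    · obtain ⟨b, hb, hcar⟩ := exists_car hf.cartierB
      obtain ⟨M, _, _, _, _, _, _, _, t, N', v, -, -, h3, h4, -, h6⟩ :=
        fibration_removal K F hb hn1 hf hcar
      exact h M F _ d N' m v w Λ μ h3 (h4 hk) ((h6 μ).2 hμ)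
    · obtain rfl : n = 0 := by omega
      exact bSemiample_zero hf.dimX hf.dimZ hf.normalZ μ
  · intro h K F _ _ _ _ _ _ n d N m y w Λ μ hf hk hμ
    exact h K F n d N m y 0 w Λ μ hf hk hμ

theorem moduli_lc : ModuliSemiampleLcVariety ↔ ModuliSemiampleLc := by
  constructor
  · intro h K F _ _ _ _ _ _ n d N m y B w Λ μ hf hk hμ
    by_cases hn1 : 1 ≤ n
    · obtain ⟨b, hb, hcar⟩ := exists_car hf.cartierB
      obtain ⟨M, _, _, _, _, _, _, _, t, N', v, -, -, h3, -, h5, h6⟩ :=
        fibration_removal K F hb hn1 hf hcar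
      exact h M F _ d N' m v w Λ μ h3 (h5 hk) ((h6 μ).2 hμ)
    · obtain rfl : n = 0 := by omega
      exact bSemiample_zero hf.dimX hf.dimZ hf.normalZ μ
  · intro h K F _ _ _ _ _ _ n d N m y w Λ μ hf hk hμ
    exact h K F n d N m y 0 w Λ μ hf hk hμ

end Pool.Agent.H890
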