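import Pool.Agent.H890.Rat

/-!
Main theorem: abundance for pairs and abundance for varieties without boundary.
-/

set_option autoImplicit false
set_option linter.unusedSectionVars false
set_option linter.overlappingInstances false

open FF MvPolynomial Pool.Agent.W602.GT Pool.Agent.W603.LV Pool.Agent.Y172
  Pool.Agent.TH122.AB Pool.Agent.R887

namespace Pool.Agent.H890

theorem lfs_pair {K L : Type} [Field K] [Field L] [Algebra ℂ K] [Algebra ℂ L] [Algebra K L]
    [IsScalarTower ℂ K L] {r : ℕ} {t : Fin r → L} (ht : Gens (k := K) t) (k k' : Fin (r + 2)) (hr : 0 < r) (hk : (k : ℕ) = r)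
    (hk' : (k' : ℕ) = r + 1) : lfs t k + lfs t k' ≠ 0 := by
  have h1 : k' = Fin.last (r + 1) := Fin.ext hk'
  obtain ⟨p, hp⟩ : ∃ p : Fin r, k = p.succ.castSucc :=
    ⟨⟨r - 1, by omega⟩, Fin.ext (by simp only [Fin.val_castSucc, Fin.val_succ]; omega)⟩
  rw [h1, hp, lfs_last, lfs_succ]
  have h2 : aeval t (X p - (1 + ∑ q, X q) : MvPolynomial (Fin r) K) =
      t p + -(1 + ∑ q, t q) := by
    rw [map_sub, map_add, map_one, map_sum]
    simp only [aeval_X]
    ring
  rw [← h2]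
  apply ht.ne
  intro h3
  have h4 : constantCoeff (X p - (1 + ∑ q, X q) : MvPolynomial (Fin r) K) = -1 := by
    rw [map_sub, map_add, map_one, map_sum]
    simp
  rw [h3, map_zero] at h4
  exact neg_ne_zero.2 one_ne_zero h4.symm

/-- the trivial boundary -/
theorem pair_variety {K : Type} [Field K] [Algebra ℂ K] {n b : ℕ} (h : PairAbundance K n b) :
    VarietyAbundance K n := by
  intro N y hy hklt hnef
  refine h N y hy 0 ⟨fun P _ => le_rfl, ?_⟩ (fun Q _ => ⟨1, one_ne_zero, fun P _ _ => ?_⟩) hklt ?_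
  · refine Set.finite_empty.subset ?_
    rintro P ⟨-, h0⟩
    exact h0 rfl
  · rw [P.ord_one]
    simp
  · intro i hi q hq
    obtain ⟨m, hm, h1⟩ := hnef i hi q hq
    refine ⟨m, hm, fun Q hQ => ?_⟩
    obtain ⟨ω, ⟨h2, h3⟩, h4⟩ := h1 Q hQ
    refine ⟨ω, ⟨h2, fun P l hP hl => ?_⟩, fun P l hP hT hl => ?_⟩
    · have h5 := h3 P l hP hl
      simpa using h5
    · have h5 := h4 P l hP hT hl
      simpa using h5

/-- multiples -/
theorem pair_mul {K : Type} [Field K] [Algebra ℂ K] {n b c : ℕ} (h : PairAbundance K n (c * b)) :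
    PairAbundance K n b := by
  intro N y hy Δ hΔ hcar hklt hnef
  refine h N y hy Δ hΔ (fun Q hQ => ?_) hklt hnef
  obtain ⟨g, hg0, hg⟩ := hcar Q hQ
  refine ⟨g ^ c, pow_ne_zero _ hg0, fun P hP hPQ => ?_⟩
  rw [P.ord_pow]
  push_cast
  rw [hg P hP hPQ]
  ring

/-- prime divisors exist -/
theorem exists_divisorial {K : Type} [Field K] [Algebra ℂ K] {n : ℕ} (hn : Algebra.trdeg ℂ K = n)
    (hn1 : 1 ≤ n) {N : ℕ} {y : Fin (N + 1) → K} (hy : NormalModel y) :
    ∃ Q : Place ℂ K, Divisorial n Q := by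
  have hess := hy.ess
  obtain ⟨x, -, hx, -⟩ := exists_crd hn
  have h1 : Transcendental ℂ (x ⟨0, hn1⟩) := hx.1.transcendental _
  obtain ⟨P, -⟩ := exists_pole_at hn h1
  obtain ⟨D, hD, -⟩ := exists_through hy P
  exact ⟨D, hD.divisorial hy hn⟩

/-- **Removal of the boundary.** -/
theorem removal (K : Type) [Field K] [Algebra ℂ K] {n b : ℕ} (hb : 2 ≤ b) (hn1 : 1 ≤ n)
    (hn : Algebra.trdeg ℂ K = n) {N : ℕ} {y : Fin (N + 1) → K} (hy : NormalModel y)
    {Δ : Place ℂ K → ℚ} (hΔ : Effective y Δ) (hcar : CartierMul y n b Δ)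
    (hlc : LogCanonical y n Δ) :
    ∃ (M : Type) (_ : Field M) (_ : Algebra ℂ M) (_ : Algebra K M) (_ : IsScalarTower ℂ K M)
      (t : Fin (2 * b - 2) → M) (N' : ℕ) (v : Fin (N' + 1) → M), AlgebraicIndependent K t ∧
      IntermediateField.adjoin K (Set.range t) = ⊤ ∧ Replaces v (n + (2 * b - 2)) y n Δ := by
  obtain ⟨r, hr⟩ : ∃ r, r = 2 * b - 2 := ⟨_, rfl⟩
  rw [← hr]
  obtain ⟨b', hb'⟩ : ∃ b', b = b' + 2 := ⟨b - 2, by omega⟩
  have hrb : r + 2 = 2 * b := by omega
  obtain ⟨L, _, _, _, _, t, ht⟩ := exists_L K r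
  obtain ⟨M, _, _, _, z, hz, hgen, hfin⟩ := exists_M (∏ k, lfs t k ^ sg k)
    (N := r + 2) (Nat.succ_pos _)
  let _ : Algebra ℂ M := ((algebraMap L M).comp (algebraMap ℂ L)).toAlgebra
  let _ : Algebra K M := ((algebraMap L M).comp (algebraMap K L)).toAlgebra
  have _ : IsScalarTower ℂ L M := IsScalarTower.of_algebraMap_eq' rfl
  have _ : IsScalarTower K L M := IsScalarTower.of_algebraMap_eq' rfl
  have _ : IsScalarTower ℂ K M := IsScalarTower.of_algebraMap_eq fun c => by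
    rw [IsScalarTower.algebraMap_apply ℂ L M, IsScalarTower.algebraMap_apply ℂ K L,
      ← IsScalarTower.algebraMap_apply K L M]
  have htr : Algebra.trdeg K M = r := by
    have h1 : IsTranscendenceBasis K (algebraMap L M ∘ t) := (Gens_basis ht).algebraMap_comp
    rw [← h1.cardinalMk_eq_trdeg]
    simp
  obtain ⟨s, hs1, hs2⟩ := rational (b' := b') (by omega) (lfs_sys ht)
    (by rw [lfs_ts]; exact ht) htr hz hgen
    (fun k k' hk hk' => lfs_pair ht k k' (by omega) hk hk')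
  obtain ⟨N', v, h1, h2, h3, h4, h5⟩ := core (L := L) (M := M) hrb (by omega) ht hz hgen hfin hn hy
    hΔ hcar hlc (exists_divisorial hn hn1 hy)
  exact ⟨M, inferInstance, inferInstance, inferInstance, inferInstance, s, N', v, hs1, hs2,
    h1, h2, h3, h4, h5⟩

/-- **Abundance for varieties and for pairs.** -/
theorem equivalence :
    (∀ (K : Type) [Field K] [Algebra ℂ K] (n : ℕ), Algebra.trdeg ℂ K = n → VarietyAbundance K n) ↔
      ∀ (K : Type) [Field K] [Algebra ℂ K] (n b : ℕ), Algebra.trdeg ℂ K = n → 1 ≤ b →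
        PairAbundance K n b := by
  constructor
  · intro h K _ _ n b hn hb
    refine pair_mul (c := 2) fun N y hy Δ hΔ hcar hklt hnef => ?_
    by_cases hn1 : 1 ≤ n
    · obtain ⟨M, _, _, _, _, t, N', v, h1, h2, h3⟩ := removal K (show 2 ≤ 2 * b by omega) hn1 hn hy
        hΔ hcar hklt.lc
      have h4 := trdeg_add_eq ℂ K (A := M)
      rw [hn, trdeg_of_top h1 h2] at h4
      refine h3.semiample.1 (h M (n + (2 * (2 * b) - 2)) ?_ N' v h3.normal (h3.klt hklt)
        (h3.nef hnef))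
      rw [← h4, Nat.cast_add]
    · refine ⟨1, le_rfl, fun Q hQ => ?_⟩
      exfalso
      have hess := hy.ess
      obtain ⟨-, -, i0, -⟩ := exists_loc hn hQ
      exact hn1 (Fin.pos i0)
  · intro h K _ _ n hn
    exact pair_variety (h K n 1 hn le_rfl)

end Pool.Agent.H890
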