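import Pool.Agent.H890.Cov

/-!
The pluricanonical forms on Fermat coverings.
-/

set_option autoImplicit false
set_option linter.unusedSectionVars false
set_option linter.overlappingInstances false

open FF MvPolynomial Pool.Agent.W602.GT Pool.Agent.W603.LV Pool.Agent.W619.PQ Pool.Agent.Y172
  Pool.Agent.TH122.AB Pool.Agent.R887

namespace Pool.Agent.H890

section th

variable {M : Type} [Field M] [Algebra ℂ M] {n r : ℕ}

/-- the form of the covering space -/
noncomputable def tq (l : Fin (r + 2) → M) (q : ℕ) (x : Fin n → M) (c : M)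
    (D : Fin (n + r) → Derivation ℂ M M) : M :=
  dsq x l 1 D ^ ((r + 2) * q) * c / (∏ k, l k) ^ ((r + 1) * (2 * q))

variable {l : Fin (r + 2) → M}

theorem tq_frm (h : Sys l) {i : Fin (r + 1)} {s : Equiv.Perm (Fin (r + 2))} (hs : Adm i s)
    (q : ℕ) (x : Fin n → M) (c : M) :
    tq l q x c = frm (Fin.append x (ts l s)) (2 * ((r + 2) * q))
      (l (s 0) ^ ((r + 1) * (2 * ((r + 2) * q))) * c / (∏ k, l k) ^ ((r + 1) * (2 * q))) := by
  funext D
  unfold tq frm
  rw [← hs.dsq h x D]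
  unfold dsq dt
  rw [← pow_mul, mul_pow, ← pow_mul]
  ring

theorem tq_pluri (h : Sys l) (q : ℕ) (x : Fin n → M) (c : M) :
    IsPluri (2 * ((r + 2) * q)) (tq l q x c) := by
  rw [tq_frm h (i := 0) (Or.inl rfl)]
  exact frm_pluri _ _ _

theorem tq_mul (l : Fin (r + 2) → M) (q : ℕ) (x : Fin n → M) (c c' : M)
    (D : Fin (n + r) → Derivation ℂ M M) : tq l q x (c' * c) D = c' * tq l q x c D := by
  unfold tq
  ring

theorem tq_zero (l : Fin (r + 2) → M) (q : ℕ) (x : Fin n → M)
    (D : Fin (n + r) → Derivation ℂ M M) : tq l q x 0 D = 0 := by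
  unfold tq
  ring

theorem tq_pow (l : Fin (r + 2) → M) (q a : ℕ) (x : Fin n → M) (c : M)
    (D : Fin (n + r) → Derivation ℂ M M) : tq l (q * a) x (c ^ a) D = tq l q x c D ^ a := by
  unfold tq
  rw [div_pow, mul_pow, ← pow_mul, ← pow_mul]
  congr 2
  · congr 1
    ring
  · ring

end th

section change

variable {K M : Type} [Field K] [Field M] [Algebra ℂ K] [Algebra ℂ M] [Algebra K M]
  [IsScalarTower ℂ K M] {n r : ℕ} {l : Fin (r + 2) → M}

/-- independence of the coordinates on the base -/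
theorem tq_change {x x' : Fin n → K} {E E' : Fin n → Derivation ℂ K K}
    (hx : IsTranscendenceBasis ℂ x) (hx' : IsTranscendenceBasis ℂ x')
    (hE : ∀ i j, E i (x j) = if i = j then 1 else 0)
    (hE' : ∀ i j, E' i (x' j) = if i = j then 1 else 0) {q : ℕ}
    {η : (Fin n → Derivation ℂ K K) → K} (hη : IsPluri (2 * ((r + 2) * q)) η) :
    tq l q (fun i => algebraMap K M (x i)) (algebraMap K M (η E)) =
      tq l q (fun i => algebraMap K M (x' i)) (algebraMap K M (η E')) := by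
  classical
  funext D
  let H : Matrix (Fin (n + r)) (Fin (n + r)) M := Matrix.of fun u v =>
    Fin.addCases (fun c => Fin.addCases (fun i => algebraMap K M (E' c (x i))) (fun _ => 0) v)
      (fun p => Fin.addCases (fun _ => 0) (fun p' => if p = p' then 1 else 0) v) u
  have hH : H.det = algebraMap K M (Matrix.of fun c i => E' c (x i)).det := by
    rw [det_blk H (fun p i => by simp [H])]
    have h1 : (Matrix.of fun p p' => H (Fin.natAdd n p) (Fin.natAdd n p')) =
        (1 : Matrix (Fin r) (Fin r) M) := by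
      ext p p'
      simp [H, Matrix.one_apply]
    rw [h1, Matrix.det_one, mul_one, RingHom.map_det]
    congr 1
    ext i j
    simp [H]
  have hdt : dt (fun i => algebraMap K M (x i)) (ts l 1) D =
      dt (fun i => algebraMap K M (x' i)) (ts l 1) D *
        algebraMap K M (Matrix.of fun c i => E' c (x i)).det := by
    rw [← hH]
    unfold dt
    rw [← Matrix.det_mul]
    congr 1
    ext a v
    rw [Matrix.mul_apply, Fin.sum_univ_add, Matrix.of_apply]
    refine Fin.addCases (fun i => ?_) (fun p => ?_) v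
    · simp only [Matrix.of_apply, Fin.append_left, Fin.append_right, H, Fin.addCases_left,
        Fin.addCases_right, mul_zero, Finset.sum_const_zero, add_zero]
      exact Pool.Agent.W73.PG.PULL.chain x' hx' E' hE' (D a) (x i)
    · simp only [Matrix.of_apply, Fin.append_left, Fin.append_right, H, Fin.addCases_left,
        Fin.addCases_right, mul_zero, Finset.sum_const_zero, zero_add, mul_ite, mul_one,
        Finset.sum_ite_eq', Finset.mem_univ, if_true]
  have h2 := pluri_coord hx hE hη E'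
  unfold tq dsq
  rw [hdt, h2]
  rw [map_mul, map_pow]
  ring

end change

section

variable {K L : Type} [Field K] [Field L] [Algebra ℂ K] [Algebra ℂ L] [Algebra K L]
  [IsScalarTower ℂ K L] {r n : ℕ} {l : Fin (r + 2) → L}

/-- the value of the form on a dual frame -/
theorem tq_self (hl : Sys l) {i : Fin (r + 1)} {s : Equiv.Perm (Fin (r + 2))} (hs : Adm i s)
    {x : Fin n → L} {F : Fin (n + r) → Derivation ℂ L L}
    (hF : ∀ u v, F u ((Fin.append x (ts l s) : Fin (n + r) → L) v) = if u = v then 1 else 0)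
    (q : ℕ) (c : L) : tq l q x c F =
      l (s 0) ^ ((r + 1) * (2 * ((r + 2) * q))) * c / (∏ k, l k) ^ ((r + 1) * (2 * q)) := by
  rw [tq_frm hl hs, frm_self hF]

theorem ordq_val (hl : Sys l) (P : Place ℂ L) (i0 : Fin (r + 2)) (q : ℕ) {c d : L} (hc : c ≠ 0)
    (hd : d ≠ 0) :
    l i0 ^ ((r + 1) * (2 * ((r + 2) * q))) * d * c / (∏ k, l k) ^ ((r + 1) * (2 * q)) ≠ 0 ∧
    P.ord (l i0 ^ ((r + 1) * (2 * ((r + 2) * q))) * d * c / (∏ k, l k) ^ ((r + 1) * (2 * q))) =
      ((r + 1) * (2 * ((r + 2) * q)) : ℕ) * P.ord (l i0) + P.ord d + P.ord c -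
        ((r + 1) * (2 * q) : ℕ) * ∑ k, P.ord (l k) := by
  have h1 : l i0 ^ ((r + 1) * (2 * ((r + 2) * q))) ≠ 0 := pow_ne_zero _ (hl.ne _)
  have h2 : ∏ k, l k ≠ 0 := Finset.prod_ne_zero_iff.2 fun k _ => hl.ne k
  have h3 : (∏ k, l k) ^ ((r + 1) * (2 * q)) ≠ 0 := pow_ne_zero _ h2
  refine ⟨div_ne_zero (mul_ne_zero (mul_ne_zero h1 hd) hc) h3, ?_⟩
  rw [P.ord_div (mul_ne_zero (mul_ne_zero h1 hd) hc) h3, P.ord_mul (mul_ne_zero h1 hd) hc,
    P.ord_mul h1 hd, P.ord_pow, P.ord_pow, ord_prod' P _ _ fun k _ => hl.ne k]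

/-- the order along vertical prime divisors -/
theorem verq_ord (hl : Sys l) [Algebra.EssFiniteType ℂ K] (hn : Algebra.trdeg ℂ K = n)
    {D : Place ℂ K} (hD : Divisorial n D) {i : Fin (r + 1)} {g : Fin r → K} (hg0 : ∀ p, g p ≠ 0)
    (hτ : Gens (k := K) (fun p => ts l (sA i) p * algebraMap K L (g p))) {P : Place ℂ L}
    (hP : IsGauss (fun p => ts l (sA i) p * algebraMap K L (g p)) D P) {wt : Fin (r + 2) → ℤ}
    (hwl : wt (Fin.last (r + 1)) = 0) {w₀ : ℤ}
    (hws : ∑ k, wt k = w₀) {γ : ℤ}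
    (ho : ∀ k, P.ord (l k) - P.ord (l i.castSucc) = (wt k - wt i.castSucc) * γ)
    {q : ℕ} {η : (Fin n → Derivation ℂ K K) → K}
    (hη : IsPluri (2 * ((r + 2) * q)) η) {c : ℚ} (hc : OrdEq D η c) {x : Fin n → K}
    {E : Fin n → Derivation ℂ K K} (hx : IsTranscendenceBasis ℂ x)
    (hE : ∀ i j, E i (x j) = if i = j then 1 else 0) :
    OrdEq P (tq l q (fun i => algebraMap K L (x i)) (algebraMap K L (η E)))
      (c + 2 * q * (w₀ * γ)) := by
  classical
  obtain ⟨z, G, i0, hz⟩ := exists_loc hn hD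
  rw [tq_change hx hz.bas hE hz.dual hη]
  obtain ⟨τ, hτd⟩ : ∃ τ : Fin r → L, τ = fun p => ts l (sA i) p * algebraMap K L (g p) :=
    ⟨_, rfl⟩
  rw [← hτd] at hτ hP
  have hA1 : ∀ a ∈ osub D, D.Reg a := fun a ha => ha
  have hA2 : ∀ a, D.Reg a → a ∈ osub D := fun a ha => ha
  obtain ⟨F, hF, hFc⟩ := exists_rg hτ (A := osub D) hz.bas hz.dual (fun i => hz.reg i)
    (fun i a ha => hz.pres i a ha) (hP.reg hA1) (fun x hx => hP.rep hτ hA2 hx)
  -- the determinant
  have hgL : ∀ p, algebraMap K L (g p) ≠ 0 := fun p => by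
    rw [Ne, map_eq_zero]
    exact hg0 p
  have hts : ∀ p, ts l (sA i) p = τ p * algebraMap K L (g p)⁻¹ := by
    intro p
    rw [hτd, map_inv₀]
    change _ = ts l (sA i) p * algebraMap K L (g p) * (algebraMap K L (g p))⁻¹
    rw [mul_assoc, mul_inv_cancel₀ (hgL p), mul_one]
  have hdet : dt (fun i => algebraMap K L (z i)) (ts l (sA i)) F =
      ∏ p, algebraMap K L (g p)⁻¹ := by
    unfold dt
    rw [det_blk _ (fun p j => by
      rw [Matrix.of_apply, Fin.append_left]
      exact (hFc ⟨i0, i0.2⟩ (z j)).2 p)]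
    have e1 : (Matrix.of fun a c => (Matrix.of fun u v => F u
        ((Fin.append (fun i => algebraMap K L (z i)) (ts l (sA i)) : Fin (n + r) → L) v) :
          Matrix (Fin (n + r)) (Fin (n + r)) L) (Fin.castAdd r a) (Fin.castAdd r c)) =
        (1 : Matrix (Fin n) (Fin n) L) := by
      ext a c
      rw [Matrix.of_apply, Matrix.of_apply, Fin.append_left, (hFc a (z c)).1, hz.dual,
        apply_ite (algebraMap K L), map_one, map_zero, Matrix.one_apply]
    have e2 : (Matrix.of fun a c => (Matrix.of fun u v => F u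
        ((Fin.append (fun i => algebraMap K L (z i)) (ts l (sA i)) : Fin (n + r) → L) v) :
          Matrix (Fin (n + r)) (Fin (n + r)) L) (Fin.natAdd n a) (Fin.natAdd n c)) =
        Matrix.diagonal fun p => algebraMap K L (g p)⁻¹ := by
      ext p p'
      rw [Matrix.of_apply, Matrix.of_apply, Fin.append_right, hts, (F _).leibniz,
        (hFc ⟨i0, i0.2⟩ (g p')⁻¹).2 p, smul_zero, zero_add]
      have h1 := hF.dual (Fin.natAdd n p) (Fin.natAdd n p')
      rw [Fin.append_right] at h1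
      rw [h1, smul_eq_mul, Matrix.diagonal_apply]
      by_cases hpp : p = p'
      · rw [if_pos (by rw [hpp]), if_pos hpp, mul_one, hpp]
      · rw [if_neg, if_neg hpp, mul_zero]
        intro h
        exact hpp (Fin.natAdd_injective r n h)
    rw [e1, e2, Matrix.det_one, one_mul, Matrix.det_diagonal]
  obtain ⟨hη0, hηc⟩ := (hz.rg.ordEq_iff hη).1 hc
  have hηL : algebraMap K L (η G) ≠ 0 := by
    rw [Ne, map_eq_zero]
    exact hη0
  have hval : tq l q (fun i => algebraMap K L (z i)) (algebraMap K L (η G)) F =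
      l i.castSucc ^ ((r + 1) * (2 * ((r + 2) * q))) * (∏ p, algebraMap K L (g p)⁻¹) ^ (2 * ((r + 2) * q)) *
        algebraMap K L (η G) / (∏ k, l k) ^ ((r + 1) * (2 * q)) := by
    unfold tq
    rw [← dsq_sA hl _ i]
    unfold dsq
    rw [hdet, sA_zero, ← pow_mul, mul_pow, ← pow_mul]
  have hd0 : (∏ p, algebraMap K L (g p)⁻¹) ^ (2 * ((r + 2) * q)) ≠ 0 := by
    refine pow_ne_zero _ (Finset.prod_ne_zero_iff.2 fun p _ => ?_)
    rw [Ne, map_eq_zero]
    exact inv_ne_zero (hg0 p)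
  obtain ⟨hv0, hvo⟩ := ordq_val hl P i.castSucc q hηL hd0
  rw [← hval] at hv0 hvo
  rw [hF.ordEq_iff (tq_pluri hl q _ _)]
  refine ⟨hv0, ?_⟩
  -- the orders of the functions `g`
  have hgo : ∀ p, D.ord (g p) = - (P.ord (l (sA i p.succ.castSucc)) - P.ord (l i.castSucc)) := by
    intro p
    have h1 := hP.var p
    rw [hτd] at h1
    change P.ord (ts l (sA i) p * algebraMap K L (g p)) = 0 at h1
    rw [P.ord_mul (hl.ts_ne _ _) (hgL p), hP.base] at h1
    unfold ts at h1
    rw [P.ord_div (hl.ne _) (hl.ne _), sA_zero] at h1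
    omega
  have hdo : P.ord ((∏ p, algebraMap K L (g p)⁻¹) ^ (2 * ((r + 2) * q))) = (2 * ((r + 2) * q) : ℕ) *
      ∑ p : Fin r, (P.ord (l (sA i p.succ.castSucc)) - P.ord (l i.castSucc)) := by
    rw [P.ord_pow, ord_prod' P _ _ fun p _ => by
      rw [Ne, map_eq_zero]
      exact inv_ne_zero (hg0 p)]
    congr 1
    refine Finset.sum_congr rfl fun p _ => ?_
    rw [hP.base, D.ord_inv, hgo, neg_neg]
  have hs1 := sum_sub (sA i) (fun k => P.ord (l k))
  rw [sA_zero, sA_last] at hs1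
  -- the sum
  have hs2 : ∑ k, (P.ord (l k) - P.ord (l i.castSucc)) = (w₀ - (r + 2) * wt i.castSucc) * γ := by
    simp only [ho]
    rw [← Finset.sum_mul, Finset.sum_sub_distrib, hws]
    simp
  rw [Finset.sum_sub_distrib] at hs2
  simp only [Finset.sum_const, Finset.card_univ, Fintype.card_fin, nsmul_eq_mul] at hs2
  have hlast := ho (Fin.last (r + 1))
  rw [hwl] at hlast
  rw [hdo, hP.base] at hvo
  have hint : P.ord (tq l q (fun i => algebraMap K L (z i)) (algebraMap K L (η G)) F) =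
      D.ord (η G) + 2 * q * (w₀ * γ) := by
    rw [hvo]
    obtain ⟨S, hS⟩ : ∃ S, S = ∑ k, P.ord (l k) := ⟨_, rfl⟩
    obtain ⟨T, hT⟩ : ∃ T, T = ∑ p : Fin r, (P.ord (l (sA i p.succ.castSucc)) -
        P.ord (l i.castSucc)) := ⟨_, rfl⟩
    rw [← hS, ← hT] at hs1
    rw [← hS] at hs2
    rw [← hS, ← hT]
    obtain ⟨o, ho'⟩ : ∃ o, o = P.ord (l i.castSucc) := ⟨_, rfl⟩
    obtain ⟨w, hw⟩ : ∃ w, w = wt i.castSucc := ⟨_, rfl⟩
    rw [← ho'] at hs1 hs2 hlast
    rw [← ho']
    rw [← hw] at hs2 hlast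
    rw [hlast] at hs1
    push_cast at hs1 hs2 ⊢
    have hT' : T = S - (r + 2) * o - (0 - w) * γ := by linarith
    have hS' : S = (w₀ - (r + 2) * w) * γ + (r + 2) * o := by linarith
    rw [hT', hS']
    ring
  rw [hint]
  push_cast
  rw [hηc]

/-- the order along horizontal prime divisors -/
theorem horq_ord (hl : Sys l) {i : Fin (r + 1)} {s : Equiv.Perm (Fin (r + 2))} (hs : Adm i s)
    (ht : Gens (k := K) (ts l s)) {P : Place ℂ L} (htr : ∀ f : K, P.ord (algebraMap K L f) = 0)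
    (hreg : ∀ p, P.Reg (ts l s p))
    (hloc : ∀ x, P.Reg x → ∃ a ∈ RR (⊤ : Subalgebra ℂ K) (ts l s),
      ∃ b ∈ RR (⊤ : Subalgebra ℂ K) (ts l s), b ≠ 0 ∧ P.ord b = 0 ∧ x = a / b)
    {q : ℕ} {x : Fin n → K} {E : Fin n → Derivation ℂ K K}
    (hx : IsTranscendenceBasis ℂ x) (hE : ∀ i j, E i (x j) = if i = j then 1 else 0)
    {c : K} (hc : c ≠ 0) :
    OrdEq P (tq l q (fun i => algebraMap K L (x i)) (algebraMap K L c))
      (-((r + 1) * (2 * q) * ∑ k, (P.ord (l k) - P.ord (l (s 0)))) : ℤ) := by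
  classical
  have hregR : ∀ a ∈ RR (⊤ : Subalgebra ℂ K) (ts l s), P.Reg a := by
    intro a ha
    obtain ⟨F, rfl⟩ := mem_RR_top.1 ha
    rw [aeval_def, eval₂_eq']
    refine Ge.sum (P := P) (N := 0) _ _ fun α _ => ?_
    have h1 : Ge P 0 (algebraMap K L (F.coeff α)) := Or.inr (htr _).ge
    have h2 : Ge P 0 (∏ i, ts l s i ^ α i) := by
      have := Ge.prod (P := P) Finset.univ (fun i => ts l s i ^ α i) (fun _ => 0) fun i _ => by
        have := (show Ge P 0 (ts l s i) from hreg i).pow (α i)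
        rwa [mul_zero] at this
      simpa using this
    have h3 := h1.mul h2
    rwa [add_zero] at h3
  obtain ⟨F, hF, hFc⟩ := exists_rg ht (A := ⊤) hx hE (fun i => Algebra.mem_top)
    (fun i a _ => Algebra.mem_top) hregR hloc
  rw [hF.ordEq_iff (tq_pluri hl q _ _), tq_self hl hs hF.dual]
  have hcL : algebraMap K L c ≠ 0 := by rwa [Ne, map_eq_zero]
  obtain ⟨h1, h2⟩ := ordq_val hl P (s 0) q hcL (one_ne_zero (α := L))
  rw [mul_one] at h1 h2
  refine ⟨h1, ?_⟩
  rw [h2, P.ord_one, htr, Finset.sum_sub_distrib]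
  simp only [Finset.sum_const, Finset.card_univ, Fintype.card_fin, nsmul_eq_mul]
  push_cast
  ring

end

section up

variable {L M : Type} [Field L] [Field M] [Algebra ℂ L] [Algebra ℂ M] [Algebra L M]
  [IsScalarTower ℂ L M] [FiniteDimensional L M] {n r : ℕ} {l : Fin (r + 2) → L}

/-- orders on the covering space -/
theorem up_tq [Algebra.EssFiniteType ℂ L] [Algebra.EssFiniteType ℂ M] {d : ℕ}
    (hd : d = n + r) (hn : Algebra.trdeg ℂ L = d) (hl : Sys l) {P : Place ℂ M} {P₁ : Place ℂ L}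
    {e : ℕ} (h : Over P P₁ e) (hP : Divisorial (n + r) P₁) {x : Fin n → L}
    (hX : IsTranscendenceBasis ℂ (Fin.append x (ts l (sA 0)) : Fin (n + r) → L)) {q : ℕ} {c : L}
    {κ : ℤ} (hκ : OrdEq P₁ (tq l q x c) κ) :
    OrdEq P (tq (fun k => algebraMap L M (l k)) q (fun i => algebraMap L M (x i))
      (algebraMap L M c)) (e * (κ + (2 * ((r + 2) * q) : ℕ)) - (2 * ((r + 2) * q) : ℕ) : ℤ) := by
  subst hd
  rw [tq_frm hl (i := 0) (Or.inl rfl)] at hκ
  have h1 := up_ordEq hn h hP hX hκ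
  rw [tq_frm hl.up (i := 0) (Or.inl rfl)]
  have h2 : (fun i => algebraMap L M ((Fin.append x (ts l (sA 0)) : Fin (n + r) → L) i)) =
      Fin.append (fun i => algebraMap L M (x i)) (ts (fun k => algebraMap L M (l k)) (sA 0)) := by
    funext a
    refine Fin.addCases (fun i => ?_) (fun p => ?_) a
    · rw [Fin.append_left, Fin.append_left]
    · rw [Fin.append_right, Fin.append_right, ts_up]
  have h3 : algebraMap L M (l (sA 0 0) ^ ((r + 1) * (2 * ((r + 2) * q))) * c /
      (∏ k, l k) ^ ((r + 1) * (2 * q))) = algebraMap L M (l (sA 0 0)) ^ ((r + 1) * (2 * ((r + 2) * q))) *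
        algebraMap L M c / (∏ k, algebraMap L M (l k)) ^ ((r + 1) * (2 * q)) := by
    rw [map_div₀, map_mul, map_pow, map_pow, map_prod]
  rw [h2, h3] at h1
  exact h1

end up

end Pool.Agent.H890
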