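import Pool.Agent.H890.Cod

/-!
The local structure of Fermat coverings.
-/

set_option autoImplicit false
set_option linter.unusedSectionVars false
set_option linter.overlappingInstances false

open FF MvPolynomial Pool.Agent.W602.GT Pool.Agent.W603.LV Pool.Agent.W619.PQ Pool.Agent.Y172
  Pool.Agent.TH122.AB Pool.Agent.R887

namespace Pool.Agent.H890

section loc

variable {M : Type} [Field M] [Algebra ℂ M] {N : ℕ} {v : Fin (N + 1) → M} {P : Place ℂ M}

/-- inverses of units of the local rings -/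
theorem localRing_inv {f : M} (hf : f ∈ localRing v P) (hf0 : f ≠ 0) (hfo : P.ord f = 0) :
    f⁻¹ ∈ localRing v P := by
  obtain ⟨j, hj, a, ha, b, hb, hb0, hbo, hab⟩ := hf
  have ha0 : a ≠ 0 := by
    rw [← hab]
    exact mul_ne_zero hf0 hb0
  have hao : P.ord a = 0 := by
    rw [← hab, P.ord_mul hf0 hb0, hfo, hbo, add_zero]
  refine ⟨j, hj, b, hb, a, ha, ha0, hao, ?_⟩
  rw [← hab]
  field_simp

/-- roots -/
theorem localRing_root (hv : NormalModel v) {f : M} {m : ℕ} (hm : 0 < m)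
    (hf : f ^ m ∈ localRing v P) : f ∈ localRing v P := by
  by_cases hf0 : f = 0
  · rw [hf0]
    refine mem_localRing_of_reg hv fun P' _ _ => P'.reg_zero
  refine mem_localRing_of_reg hv fun P' hP' hT => Or.inr ?_
  have h1 := reg_ord_nonneg (hT _ hf)
  rw [P'.ord_pow] at h1
  have h2 : (0 : ℤ) < m := by exact_mod_cast hm
  by_contra h3
  push Not at h3
  nlinarith

end loc

section

variable {K L M : Type} [Field K] [Field L] [Field M] [Algebra ℂ K] [Algebra ℂ L]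
  [Algebra ℂ M] [Algebra K L] [Algebra L M] [Algebra K M] [IsScalarTower ℂ K L]
  [IsScalarTower ℂ L M] [IsScalarTower ℂ K M] [IsScalarTower K L M] [FiniteDimensional L M]
  {N : ℕ} {y : Fin (N + 1) → K} {n r : ℕ} {G : Place ℂ K → ℤ}
  {S : Mod K L M y n r G} {s : K} {z : Fin (r + 2) → M} {w : ℤ}

/-- the coordinates on the bundle -/
theorem Fer.ts_pow (h : Fer S s z w) {lam : K} (hl : lam ≠ 0) (σ : Equiv.Perm (Fin (r + 2)))
    (p : Fin r) : ts S.lM σ p = ts (wk S z lam) σ p ^ (r + 2) *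
      algebraMap K M ((s * lam ^ (r + 2)) ^ (S.wt (σ p.succ.castSucc) - S.wt (σ 0))) := by
  have hg0 : s * lam ^ (r + 2) ≠ 0 := mul_ne_zero h.s0 (pow_ne_zero _ hl)
  unfold ts
  rw [h.wk_pow hl, h.wk_pow hl, zpow_sub₀ hg0, map_div₀, div_pow, mul_div_mul_comm]

theorem Fer.basW (h : Fer S s z w) {lam : K} (hl : lam ≠ 0) (σ : Equiv.Perm (Fin (r + 2))) :
    IsTranscendenceBasis K (ts (wk S z lam) σ) := by
  have hlM : ts S.lM σ = algebraMap L M ∘ ts S.l σ := by
    funext p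
    exact ts_up _ _
  have h1 : IsTranscendenceBasis K (ts S.lM σ) := by
    rw [hlM]
    exact (Gens_basis (gens_ts S.sys S.gens σ)).algebraMap_comp
  have h2 : Algebra.IsAlgebraic (Algebra.adjoin K (Set.range (ts S.lM σ))) M := h1.isAlgebraic
  have hle : Algebra.adjoin K (Set.range (ts S.lM σ)) ≤
      Algebra.adjoin K (Set.range (ts (wk S z lam) σ)) := by
    apply Algebra.adjoin_le
    rintro _ ⟨p, rfl⟩
    rw [h.ts_pow hl]
    refine Subalgebra.mul_mem _ (Subalgebra.pow_mem _ ?_ _) (Subalgebra.algebraMap_mem _ _)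
    exact Algebra.subset_adjoin (Set.mem_range_self p)
  have h3 : Algebra.IsAlgebraic (Algebra.adjoin K (Set.range (ts (wk S z lam) σ))) M :=
    ⟨fun a => (h2.isAlgebraic a).tower_top_of_subalgebra_le hle⟩
  have h4 : Cardinal.mk (Fin r) ≤ Algebra.trdeg K M := by
    rw [S.trdeg_KM]
    simp
  exact Algebra.IsAlgebraic.isTranscendenceBasis_of_le_trdeg_of_finite K _ h4

theorem Fer.basXW (h : Fer S s z w) {lam : K} (hl : lam ≠ 0) (σ : Equiv.Perm (Fin (r + 2)))
    {x : Fin n → K} (hx : IsTranscendenceBasis ℂ x) : IsTranscendenceBasis ℂ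
      (Fin.append (fun i => algebraMap K M (x i)) (ts (wk S z lam) σ) : Fin (n + r) → M) :=
  append_basis hx (h.basW hl σ)

/-- the last coordinate -/
theorem Fer.last_pow (h : Fer S s z w) {lam : K} (hl : lam ≠ 0) (σ : Equiv.Perm (Fin (r + 2))) :
    (wk S z lam (σ (Fin.last (r + 1))) / wk S z lam (σ 0)) ^ (r + 2) =
      -(1 + ∑ p, ts (wk S z lam) σ p ^ (r + 2) *
        algebraMap K M ((s * lam ^ (r + 2)) ^ (S.wt (σ p.succ.castSucc) - S.wt (σ 0)))) *
          algebraMap K M ((s * lam ^ (r + 2)) ^ (S.wt (σ 0) - S.wt (σ (Fin.last (r + 1))))) := by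
  have hg0 : s * lam ^ (r + 2) ≠ 0 := mul_ne_zero h.s0 (pow_ne_zero _ hl)
  have h1 := S.sysM.one_add σ
  have h2 : ∑ p, ts (wk S z lam) σ p ^ (r + 2) *
        algebraMap K M ((s * lam ^ (r + 2)) ^ (S.wt (σ p.succ.castSucc) - S.wt (σ 0))) =
      ∑ p, ts S.lM σ p := Finset.sum_congr rfl fun p _ => (h.ts_pow hl σ p).symm
  rw [h2, h1, neg_neg, h.wk_pow hl, h.wk_pow hl, div_pow, zpow_sub₀ hg0, map_div₀]
  have h3 : ∀ m : ℤ, algebraMap K M ((s * lam ^ (r + 2)) ^ m) ≠ 0 := fun m => by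
    rw [Ne, map_eq_zero]
    exact zpow_ne_zero _ hg0
  have h4 := h3 (S.wt (σ 0))
  have h5 := h3 (S.wt (σ (Fin.last (r + 1))))
  have h6 := pow_ne_zero (r + 2) (h.wk_ne hl (σ 0))
  field_simp

/-- the coordinates belong to the local ring: general form -/
theorem Fer.chart_aux (h : Fer S s z w) {lam : K} (hl : lam ≠ 0) {P : Place ℂ M}
    {c₀ : Fin (S.s + 1)} (hc₀ : S.Cen c₀ P) {i : Fin (r + 1)} {f₀ : K} (hf₀ : f₀ ∈ S.F i)
    (hu₀ : S.u c₀ = S.l i.castSucc * algebraMap K L f₀)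
    (hκ : ∀ i' : Fin (r + 1), ∃ f' ∈ S.F i', algebraMap K M
      (f₀ / f' * (s * lam ^ (r + 2)) ^ (S.wt i.castSucc - S.wt i'.castSucc)) ∈ localRing S.v P)
    (hg : algebraMap K M (s * lam ^ (r + 2)) ∈ localRing S.v P) (k : Fin (r + 2)) :
    wk S z lam k / wk S z lam i.castSucc ∈ localRing S.v P := by
  have hv := S.nv
  obtain ⟨g, hgd⟩ : ∃ g, g = s * lam ^ (r + 2) := ⟨_, rfl⟩
  have hg0 : g ≠ 0 := by
    rw [hgd]
    exact mul_ne_zero h.s0 (pow_ne_zero _ hl)
  have hgM : ∀ m : ℤ, algebraMap K M (g ^ m) ≠ 0 := fun m => by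
    rw [Ne, map_eq_zero]
    exact zpow_ne_zero _ hg0
  have hpow : ∀ k, S.lM k = wk S z lam k ^ (r + 2) * algebraMap K M (g ^ (S.wt k)) := fun k => by
    rw [hgd]
    exact h.wk_pow hl k
  rw [← hgd] at hκ hg
  have hw0 : ∀ k, wk S z lam k ≠ 0 := h.wk_ne hl
  -- the first coordinates
  have h1 : ∀ i' : Fin (r + 1), (wk S z lam i'.castSucc / wk S z lam i.castSucc) ^ (r + 2) ∈
      lsub S.v P := by
    intro i'
    obtain ⟨f', hf', hfm⟩ := hκ i'
    obtain ⟨c', hc'⟩ := S.exists_u i' hf'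
    have hf0 : f₀ ≠ 0 := (S.fam i).ne _ hf₀
    have hf'0 : f' ≠ 0 := (S.fam i').ne _ hf'
    have h2 : algebraMap L M (S.u c' / S.u c₀) ∈ localRing S.v P := by
      refine chart_localRing hc₀.centred ((S.chart_iff c₀ _).2 ?_)
      exact isIntegral_algebraMap (R := chart S.u c₀) (A := M)
        (x := ⟨S.u c' / S.u c₀, gen_mem S.u c₀ c'⟩)
    have h3 : (wk S z lam i'.castSucc / wk S z lam i.castSucc) ^ (r + 2) =
        algebraMap L M (S.u c' / S.u c₀) * algebraMap K M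
          (f₀ / f' * g ^ (S.wt i.castSucc - S.wt i'.castSucc)) := by
      have e1 : algebraMap L M (S.u c' / S.u c₀) = (S.lM i'.castSucc * algebraMap K M f') /
          (S.lM i.castSucc * algebraMap K M f₀) := by
        rw [hc', hu₀, map_div₀, map_mul, map_mul, ← IsScalarTower.algebraMap_apply,
          ← IsScalarTower.algebraMap_apply]
        rfl
      rw [e1, hpow, hpow, zpow_sub₀ hg0, map_mul, map_div₀, map_div₀, div_pow]
      have e2 := hgM (S.wt i.castSucc)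
      have e3 := hgM (S.wt i'.castSucc)
      have e4 := pow_ne_zero (r + 2) (hw0 i.castSucc)
      have e5 : algebraMap K M f₀ ≠ 0 := by rwa [Ne, map_eq_zero]
      have e6 : algebraMap K M f' ≠ 0 := by rwa [Ne, map_eq_zero]
      field_simp
    rw [h3]
    exact (lsub S.v P).mul_mem ((lsub_iff hv).2 h2) ((lsub_iff hv).2 hfm)
  refine localRing_root hv (m := r + 2) (by omega) ((lsub_iff hv).1 ?_)
  refine Fin.lastCases ?_ (fun i' => h1 i') k
  -- the last coordinate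
  have h4 : S.lM (Fin.last (r + 1)) = - ∑ i' : Fin (r + 1), S.lM i'.castSucc := by
    have := S.sysM.sum
    rw [Fin.sum_univ_castSucc, add_comm] at this
    exact eq_neg_of_add_eq_zero_left this
  have h5 : (wk S z lam (Fin.last (r + 1)) / wk S z lam i.castSucc) ^ (r + 2) =
      - ∑ i' : Fin (r + 1), (wk S z lam i'.castSucc / wk S z lam i.castSucc) ^ (r + 2) *
        algebraMap K M (g ^ (S.wt i'.castSucc)) := by
    have e1 : S.lM (Fin.last (r + 1)) = wk S z lam (Fin.last (r + 1)) ^ (r + 2) := by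
      rw [hpow, S.wtl, zpow_zero, map_one, mul_one]
    rw [div_pow, ← e1, h4, neg_div, Finset.sum_div]
    congr 1
    refine Finset.sum_congr rfl fun i' _ => ?_
    rw [hpow, div_pow]
    ring
  rw [h5]
  refine (lsub S.v P).neg_mem ((lsub S.v P).sum_mem fun i' _ => (lsub S.v P).mul_mem (h1 i') ?_)
  rcases S.wt01 i'.castSucc with h6 | h6
  · rw [h6, zpow_zero, map_one]
    exact (lsub S.v P).one_mem
  · rw [h6, zpow_one]
    exact (lsub_iff hv).2 hg

/-- the coordinates belong to the local ring -/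
theorem Fer.chart_w (h : Fer S s z w) {lam : K} (hl : lam ≠ 0) {P : Place ℂ M} {Q : Place ℂ K}
    {e : ℕ} (hPQ : Over P Q e) (hQ : Divisorial n Q)
    (hg : ∀ D, IsPrimeDivisor y D → Through y D Q → D.ord (s * lam ^ (r + 2)) = G D) :
    ∃ i : Fin (r + 1), ∀ k, wk S z lam k / wk S z lam i.castSucc ∈ localRing S.v P := by
  have hy := S.ny
  have hg0 : s * lam ^ (r + 2) ≠ 0 := mul_ne_zero h.s0 (pow_ne_zero _ hl)
  obtain ⟨c₀, hc₀⟩ := S.exists_cen P
  obtain ⟨i, f₀, hf₀, hu₀⟩ := S.u_eq c₀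
  have he : (0 : ℤ) < e := by exact_mod_cast hPQ.1
  obtain ⟨a, ha⟩ := exists_centred hy Q
  choose gg hgg hggD using fun i => (S.fam i).gen Q hQ
  have hgg0 : ∀ i, gg i ≠ 0 := fun i => (S.fam i).ne _ (hgg i)
  have hf₀0 : f₀ ≠ 0 := (S.fam i).ne _ hf₀
  have hfQ : f₀ / gg i ∈ localRing y Q := by
    refine mem_localRing_of_reg hy fun D hD hDQ => Or.inr ?_
    rw [D.ord_div hf₀0 (hgg0 i), hggD i D hD hDQ a (hDQ.centred ha)]
    have := (S.fam i).low D hD a (hDQ.centred ha) f₀ hf₀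
    omega
  have hordM : ∀ (f : K), f ≠ 0 → P.ord (algebraMap L M (S.l i.castSucc * algebraMap K L f)) =
      P.ord (algebraMap L M (S.l i.castSucc)) + e * Q.ord f := by
    intro f hf
    have h1 : algebraMap L M (S.l i.castSucc) ≠ 0 := by
      rw [Ne, map_eq_zero]
      exact S.sys.ne _
    have h2 : algebraMap K M f ≠ 0 := by rwa [Ne, map_eq_zero]
    rw [map_mul, ← IsScalarTower.algebraMap_apply, P.ord_mul h1 h2, hPQ.2]
  have h0 : Q.ord f₀ = Q.ord (gg i) := by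
    apply le_antisymm
    · obtain ⟨c', hc'⟩ := S.exists_u i (hgg i)
      have h1 := hc₀ c'
      rw [hu₀, hc', hordM f₀ hf₀0, hordM _ (hgg0 i)] at h1
      have h2 : (e : ℤ) * Q.ord f₀ ≤ e * Q.ord (gg i) := by linarith
      exact le_of_mul_le_mul_left h2 he
    · have h1 := reg_ord_nonneg (localRing_reg hfQ)
      rw [Q.ord_div hf₀0 (hgg0 i)] at h1
      omega
  have h0D : ∀ D, IsPrimeDivisor y D → Through y D Q → D.ord f₀ = D.ord (gg i) := by
    intro D hD hDQ
    have h1 := unit_through hDQ hfQ (div_ne_zero hf₀0 (hgg0 i)) (by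
      rw [Q.ord_div hf₀0 (hgg0 i), h0, sub_self])
    rw [D.ord_div hf₀0 (hgg0 i)] at h1
    omega
  refine ⟨i, h.chart_aux hl hc₀ hf₀ hu₀ (fun i' => ⟨gg i', hgg i', S.local_le hPQ ?_⟩)
    (S.local_le hPQ ?_)⟩
  · refine mem_localRing_of_reg hy fun D hD hDQ => Or.inr ?_
    have h1 := zpow_ne_zero (S.wt i.castSucc - S.wt i'.castSucc) hg0
    rw [D.ord_mul (div_ne_zero hf₀0 (hgg0 i')) h1, D.ord_div hf₀0 (hgg0 i'), D.ord_zpow,
      hg D hD hDQ, h0D D hD hDQ, hggD i D hD hDQ a (hDQ.centred ha),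
      hggD i' D hD hDQ a (hDQ.centred ha)]
    apply le_of_eq
    ring
  · refine mem_localRing_of_reg hy fun D hD hDQ => Or.inr ?_
    rw [hg D hD hDQ]
    exact S.car.nonneg D hD

theorem Fer.chart_triv (h : Fer S s z w) {lam : K} (hl : lam ≠ 0) {P : Place ℂ M}
    (htr : ∀ f : K, P.ord (algebraMap K M f) = 0) :
    ∃ i : Fin (r + 1), ∀ k, wk S z lam k / wk S z lam i.castSucc ∈ localRing S.v P := by
  obtain ⟨c₀, hc₀⟩ := S.exists_cen P
  obtain ⟨i, f₀, hf₀, hu₀⟩ := S.u_eq c₀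
  refine ⟨i, h.chart_aux hl hc₀ hf₀ hu₀ (fun i' => ?_) (S.local_triv htr _)⟩
  obtain ⟨f', hf'⟩ := (S.fam i').non
  exact ⟨f', hf', S.local_triv htr _⟩

end

end Pool.Agent.H890
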