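import Pool.Agent.H890.Trm2

/-!
Fermat coverings over terminal varieties are terminal.
-/

set_option autoImplicit false
set_option linter.unusedSectionVars false
set_option linter.overlappingInstances false

open FF MvPolynomial Pool.Agent.W602.GT Pool.Agent.W603.LV Pool.Agent.W619.PQ Pool.Agent.Y172
  Pool.Agent.TH122.AB Pool.Agent.R887

namespace Pool.Agent.H890

section ge

variable {M : Type} [Field M] [Algebra ℂ M] {n r : ℕ} {l : Fin (r + 2) → M} {P : Place ℂ M}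

theorem tq_ge (hl : Sys l) {i : Fin (r + 1)} {s : Equiv.Perm (Fin (r + 2))} (hs : Adm i s)
    (hs2 : P.ord (l (s (Fin.last (r + 1)))) = P.ord (l (s 0))) {q : ℕ}
    {x : Fin n → M} {D : Fin (n + r) → Derivation ℂ M M} {κ a : ℤ} {c : M} (hc : Ge P a c)
    (hκ : Ge P κ (dt x (ts l s) D)) :
    Ge P (2 * ((r + 2) * q) * κ + a - (r + 1) * (2 * q) * ∑ p, P.ord (ts l s p))
      (tq l q x c D) := by
  rw [tq_frm hl hs]
  have h1 : frm (Fin.append x (ts l s)) (2 * ((r + 2) * q))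
      (l (s 0) ^ ((r + 1) * (2 * ((r + 2) * q))) * c / (∏ k, l k) ^ ((r + 1) * (2 * q))) D =
      dt x (ts l s) D ^ (2 * ((r + 2) * q)) *
        (l (s 0) ^ ((r + 1) * (2 * ((r + 2) * q))) * c / (∏ k, l k) ^ ((r + 1) * (2 * q))) := rfl
  rw [h1]
  have h2 : l (s 0) ^ ((r + 1) * (2 * ((r + 2) * q))) ≠ 0 := pow_ne_zero _ (hl.ne _)
  have h3 : ∏ k, l k ≠ 0 := Finset.prod_ne_zero_iff.2 fun k _ => hl.ne k
  have h4 : (∏ k, l k) ^ ((r + 1) * (2 * q)) ≠ 0 := pow_ne_zero _ h3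
  have h5 : Ge P (((r + 1) * (2 * ((r + 2) * q)) : ℕ) * P.ord (l (s 0)) + a -
      ((r + 1) * (2 * q) : ℕ) * ∑ k, P.ord (l k))
      (l (s 0) ^ ((r + 1) * (2 * ((r + 2) * q))) * c / (∏ k, l k) ^ ((r + 1) * (2 * q))) := by
    rcases hc with hc | hc
    · left
      rw [hc]
      simp
    · by_cases hc0 : c = 0
      · left
        rw [hc0]
        simp
      right
      rw [P.ord_div (mul_ne_zero h2 hc0) h4, P.ord_mul h2 hc0, P.ord_pow, P.ord_pow,
        ord_prod' P _ _ fun k _ => hl.ne k]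
      linarith
  refine ((hκ.pow _).mul h5).mono (le_of_eq ?_)
  have hs3 := sum_sub s (fun k => P.ord (l k))
  rw [hs2, sub_self, add_zero] at hs3
  have hs4 : ∑ p : Fin r, (P.ord (l (s p.succ.castSucc)) - P.ord (l (s 0))) =
      ∑ p, P.ord (ts l s p) := by
    refine Finset.sum_congr rfl fun p _ => ?_
    unfold ts
    rw [P.ord_div (hl.ne _) (hl.ne _)]
  rw [hs4] at hs3
  rw [hs3]
  push_cast
  ring

end ge

section can

variable {K : Type} [Field K] [Algebra ℂ K] {N : ℕ} {y : Fin (N + 1) → K} {n : ℕ}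

/-- comparison of the generators of `K_X` and `K_X + D` -/
theorem can_ge (hy : NormalModel y) (hn : Algebra.trdeg ℂ K = n) {Q : Place ℂ K} {D : Place ℂ K → ℤ}
    {g : K} (hg0 : g ≠ 0) (hg : ∀ P, IsPrimeDivisor y P → Through y P Q → P.ord g = D P)
    {r₀ r₁ : ℕ} (hr₁ : 0 < r₁) {η₀ η₁ : (Fin n → Derivation ℂ K K) → K} (h0 : IsPluri r₀ η₀)
    (h1 : IsPluri r₁ η₁) (h0g : ∀ P, IsPrimeDivisor y P → Through y P Q → OrdEq P η₀ 0)
    (h1g : ∀ P, IsPrimeDivisor y P → Through y P Q → OrdEq P η₁ (-(r₁ * D P)))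
    (h1Q : OrdGe Q η₁ 0) {x : Fin n → K} {E : Fin n → Derivation ℂ K K} {i0 : Fin n}
    (hE : Loc Q x E i0) : (r₀ : ℤ) * Q.ord g ≤ Q.ord (η₀ E) := by
  have hess := hy.ess
  obtain ⟨P₀, hP₀, hP₀Q⟩ := exists_through hy Q
  have ha0 : η₀ E ≠ 0 := val_ne h0 hE.bas hE.dual (h0g P₀ hP₀ hP₀Q)
  have ha1 : η₁ E ≠ 0 := val_ne h1 hE.bas hE.dual (h1g P₀ hP₀ hP₀Q)
  obtain ⟨κ, hκ⟩ : ∃ κ, κ = η₀ E ^ r₁ / (g ^ (r₀ * r₁) * η₁ E ^ r₀) := ⟨_, rfl⟩
  have hκ0 : κ ≠ 0 := by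
    rw [hκ]
    exact div_ne_zero (pow_ne_zero _ ha0) (mul_ne_zero (pow_ne_zero _ hg0) (pow_ne_zero _ ha1))
  have hκo : ∀ P : Place ℂ K, P.ord κ = r₁ * P.ord (η₀ E) - (r₀ * r₁ * P.ord g + r₀ * P.ord (η₁ E)) := by
    intro P
    rw [hκ, P.ord_div (pow_ne_zero _ ha0) (mul_ne_zero (pow_ne_zero _ hg0) (pow_ne_zero _ ha1)),
      P.ord_mul (pow_ne_zero _ hg0) (pow_ne_zero _ ha1), P.ord_pow, P.ord_pow, P.ord_pow]
    push_cast
    ring
  have hunit : ∀ P, IsPrimeDivisor y P → Through y P Q → P.ord κ = 0 := by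
    intro P hP hPQ
    obtain ⟨x', E', i', hE'⟩ := exists_loc hn (hP.divisorial hy hn)
    obtain ⟨hb0, hb1⟩ := (hE'.rg.ordEq_iff h0).1 (h0g P hP hPQ)
    obtain ⟨hc0, hc1⟩ := (hE'.rg.ordEq_iff h1).1 (h1g P hP hPQ)
    obtain ⟨δ, hδ⟩ : ∃ δ, δ = (Matrix.of fun i j => E i (x' j)).det := ⟨_, rfl⟩
    have e0 := pluri_coord hE'.bas hE'.dual h0 E
    have e1 := pluri_coord hE'.bas hE'.dual h1 E
    rw [← hδ] at e0 e1
    have hδ0 : δ ≠ 0 := by
      intro hd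
      rw [hd, zero_pow hr₁.ne', zero_mul] at e1
      exact ha1 e1
    rw [hκo, e0, e1, P.ord_mul (pow_ne_zero _ hδ0) hb0, P.ord_mul (pow_ne_zero _ hδ0) hc0,
      P.ord_pow, P.ord_pow, hg P hP hPQ]
    have hb2 : P.ord (η₀ E') = 0 := by exact_mod_cast hb1
    have hc2 : P.ord (η₁ E') = -(r₁ * D P) := by exact_mod_cast hc1
    rw [hb2, hc2]
    ring
  have hQκ : Q.ord κ = 0 := by
    have h2 : κ ∈ localRing y Q :=
      mem_localRing_of_reg hy fun P hP hPQ => Or.inr (hunit P hP hPQ).ge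
    have h3 : κ⁻¹ ∈ localRing y Q := mem_localRing_of_reg hy fun P hP hPQ => Or.inr (by
      rw [P.ord_inv, hunit P hP hPQ, neg_zero])
    have h4 := reg_ord_nonneg (localRing_reg h2)
    have h5 := reg_ord_nonneg (localRing_reg h3)
    rw [Q.ord_inv] at h5
    omega
  have h2 := ((hE.rg.ordGe_iff h1).1 h1Q).resolve_left ha1
  have h3 : 0 ≤ Q.ord (η₁ E) := by exact_mod_cast h2
  rw [hκo] at hQκ
  have h4 : (0 : ℤ) < r₁ := by exact_mod_cast hr₁
  have h5 : (0 : ℤ) ≤ r₀ * Q.ord (η₁ E) := mul_nonneg (Int.natCast_nonneg _) h3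
  have h6 : (r₁ : ℤ) * (r₀ * Q.ord g) ≤ r₁ * Q.ord (η₀ E) := by linarith
  exact le_of_mul_le_mul_left h6 h4

end can

section

variable {K L M : Type} [Field K] [Field L] [Field M] [Algebra ℂ K] [Algebra ℂ L]
  [Algebra ℂ M] [Algebra K L] [Algebra L M] [Algebra K M] [IsScalarTower ℂ K L]
  [IsScalarTower ℂ L M] [IsScalarTower ℂ K M] [IsScalarTower K L M] [FiniteDimensional L M]
  {N : ℕ} {y : Fin (N + 1) → K} {n r : ℕ} {G : Place ℂ K → ℤ}
  {S : Mod K L M y n r G} {s : K} {z : Fin (r + 2) → M} {w : ℤ}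

/-- the form in étale coordinates -/
theorem Fer.tq_two (h : Fer S s z w) {lam : K} (hl : lam ≠ 0) {i : Fin (r + 1)}
    {σ : Equiv.Perm (Fin (r + 2))} (hσ : Adm i σ) {x : Fin n → K} {E : Fin n → Derivation ℂ K K}
    (hx : IsTranscendenceBasis ℂ x) (hE : ∀ i j, E i (x j) = if i = j then 1 else 0) {q : ℕ}
    {c : K} {P : Place ℂ M} {D : Fin (n + r) → Derivation ℂ M M}
    (hWl : P.ord (wk S z lam (σ (Fin.last (r + 1))) / wk S z lam (σ 0)) = 0)
    (hdt : Ge P 2 (dt (fun i => algebraMap K M (x i)) (ts (wk S z lam) σ) D))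
    (hc : Ge P 0 (algebraMap K M (c * (s * lam ^ (r + 2)) ^
      (2 * q * w - (2 * ((r + 2) * q) : ℕ) * S.wt (σ (Fin.last (r + 1))))))) :
    Ge P (2 * (2 * ((r + 2) * q) : ℕ) : ℤ)
      (tq S.lM q (fun i => algebraMap K M (x i)) (algebraMap K M c) D) := by
  rw [h.tq_eq hl hσ hx hE]
  have h1 : Ge P 0 ((((r + 2 : ℕ) : M)) ^ r) := by
    have h2 : ((r + 2 : ℕ) : M) = algebraMap ℂ M ((r + 2 : ℕ) : ℂ) := by rw [map_natCast]
    rw [h2, ← map_pow]
    exact P.reg_const _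
  have h2 : P.ord (wk S z lam (σ 0) / wk S z lam (σ (Fin.last (r + 1)))) = 0 := by
    rw [← inv_div, P.ord_inv, hWl, neg_zero]
  have h3 : Ge P 0 ((wk S z lam (σ 0) / wk S z lam (σ (Fin.last (r + 1)))) ^ (r + 1)) := by
    right
    rw [P.ord_pow, h2, mul_zero]
  have h4 := (((h1.mul h3).mul hdt).pow (2 * ((r + 2) * q))).mul hc
  refine h4.mono (le_of_eq ?_)
  ring

/-- units in the charts -/
theorem Fer.ts_mem (h : Fer S s z w) {lam : K} (hl : lam ≠ 0) {P : Place ℂ M} {i : Fin (r + 1)}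
    (hi : ∀ k, wk S z lam k / wk S z lam i.castSucc ∈ localRing S.v P) {σ : Equiv.Perm (Fin (r + 2))}
    (hσ : P.ord (wk S z lam (σ 0)) = P.ord (wk S z lam i.castSucc)) (p : Fin r) :
    ts (wk S z lam) σ p ∈ localRing S.v P := by
  have hw0 : ∀ k, wk S z lam k ≠ 0 := h.wk_ne hl
  have h1 : ts (wk S z lam) σ p = (wk S z lam (σ p.succ.castSucc) / wk S z lam i.castSucc) *
      (wk S z lam (σ 0) / wk S z lam i.castSucc)⁻¹ := by
    unfold ts
    have e1 := hw0 i.castSucc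
    have e2 := hw0 (σ 0)
    field_simp
  rw [h1]
  refine (lsub_iff S.nv).1 ((lsub S.v P).mul_mem ((lsub_iff S.nv).2 (hi _))
    ((lsub_iff S.nv).2 (localRing_inv (hi _) (div_ne_zero (hw0 _) (hw0 _)) ?_)))
  rw [P.ord_div (hw0 _) (hw0 _), hσ, sub_self]

/-- **Places over the generic point.** -/
theorem Fer.trm_triv (h : Fer S s z w) {P : Place ℂ M} (hP : Divisorial (n + r) P)
    (htr : ∀ f : K, P.ord (algebraMap K M f) = 0) (hnp : ¬ IsPrimeDivisor S.v P) {x : Fin n → K}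
    {E : Fin n → Derivation ℂ K K} (hx : IsTranscendenceBasis ℂ x)
    (hE : ∀ i j, E i (x j) = if i = j then 1 else 0) :
    OrdGe P (tq S.lM 1 (fun i => algebraMap K M (x i)) (algebraMap K M 1)) 1 := by
  have hessM := S.essM
  obtain ⟨i, hi⟩ := h.chart_triv (one_ne_zero (α := K)) htr
  obtain ⟨i', -, hi'⟩ := Finset.exists_min_image Finset.univ
    (fun i : Fin (r + 1) => P.ord (S.lM i.castSucc)) ⟨0, Finset.mem_univ _⟩
  obtain ⟨σ, hσ, hσ1, hσ2⟩ := exists_good S.sysM P fun i => hi' i (Finset.mem_univ _)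
  have hw0 : ∀ k, wk S z (1 : K) k ≠ 0 := h.wk_ne one_ne_zero
  have hg0 : s * (1 : K) ^ (r + 2) ≠ 0 := mul_ne_zero h.s0 (pow_ne_zero _ one_ne_zero)
  have hord : ∀ k, P.ord (S.lM k) = (r + 2 : ℕ) * P.ord (wk S z (1 : K) k) := by
    intro k
    rw [h.wk_pow (one_ne_zero (α := K)), P.ord_mul (pow_ne_zero _ (hw0 k)) (by
      rw [Ne, map_eq_zero]
      exact zpow_ne_zero _ hg0), P.ord_pow, htr, add_zero]
  have hr2 : (0 : ℤ) < (r + 2 : ℕ) := by exact_mod_cast Nat.succ_pos _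
  have h1 : ∀ k, P.ord (wk S z (1 : K) (σ 0)) ≤ P.ord (wk S z (1 : K) k) := by
    intro k
    have := hσ1 k
    rw [hord, hord] at this
    exact le_of_mul_le_mul_left this hr2
  have h2 : P.ord (wk S z (1 : K) (σ (Fin.last (r + 1)))) = P.ord (wk S z (1 : K) (σ 0)) := by
    rw [hord, hord] at hσ2
    exact mul_left_cancel₀ hr2.ne' hσ2
  have h3 : P.ord (wk S z (1 : K) (σ 0)) = P.ord (wk S z (1 : K) i.castSucc) := by
    have h4 := reg_ord_nonneg (localRing_reg (hi (σ 0)))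
    rw [P.ord_div (hw0 _) (hw0 _)] at h4
    have h5 := h1 i.castSucc
    omega
  have hWl : P.ord (wk S z (1 : K) (σ (Fin.last (r + 1))) / wk S z (1 : K) (σ 0)) = 0 := by
    rw [P.ord_div (hw0 _) (hw0 _), h2, sub_self]
  refine (ordGe_of_log h.trM hP (tq_pluri S.sysM 1 _ _) (c := (2 * (2 * ((r + 2) * 1) : ℕ) : ℤ))
    fun D hD => h.tq_two one_ne_zero hσ hx hE hWl ?_ (Or.inr (htr _).ge)).mono ?_
  · exact h.etale_ge one_ne_zero σ hx hE (A := ⊤) (fun _ => Algebra.mem_top)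
      (fun _ _ _ => Algebra.mem_top) (fun _ => Algebra.mem_top) Algebra.mem_top
      (fun a _ => S.local_triv htr a) (h.ts_mem one_ne_zero hi h3) hWl hnp hD
  · push_cast
    have h4 : (0 : ℚ) ≤ r := Nat.cast_nonneg r
    linarith

end

end Pool.Agent.H890
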