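import Pool.Agent.H890.Trm3

/-!
Fermat coverings over terminal varieties are terminal: places over divisorial places.
-/

set_option autoImplicit false
set_option linter.unusedSectionVars false
set_option linter.overlappingInstances false

open FF MvPolynomial Pool.Agent.W602.GT Pool.Agent.W603.LV Pool.Agent.W619.PQ Pool.Agent.Y172
  Pool.Agent.TH122.AB Pool.Agent.R887

namespace Pool.Agent.H890

/-- the last estimate -/
theorem num_ge {e α₀ r₀ N γ μ A a T m w q : ℤ} (he : 1 ≤ e) (hr₀ : 1 ≤ r₀)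
    (hN : 1 ≤ N) (hA : 0 ≤ A) (hm : m = 2 * (N * r₀)) (hγ : γ = e * q)
    (ha : a = 2 * N * α₀ - 2 * w * r₀ * q) (hT : T = N * A + w * γ - N * μ) (hμγ : μ ≤ γ)
    (hpos : 0 < μ → 2 ≤ A) (hμ0 : 0 ≤ μ)
    (hcase : (1 ≤ α₀ ∧ r₀ * q ≤ α₀) ∨ (α₀ = 0 ∧ q ≤ 1 ∧ 0 < μ)) :
    1 ≤ m * e + e * a + 2 * r₀ * T - m := by
  have h1 : m * e + e * a + 2 * r₀ * T - m =
      2 * N * (r₀ * (e - 1) + e * α₀ + r₀ * A - r₀ * μ) := by
    rw [hm, ha, hT, hγ]
    ring
  rw [h1]
  have h2 : 1 ≤ r₀ * (e - 1) + e * α₀ + r₀ * A - r₀ * μ := by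
    have h0 : 0 ≤ r₀ * (e - 1) := mul_nonneg (by linarith) (by linarith)
    have h0' : 0 ≤ r₀ * A := mul_nonneg (by linarith) hA
    rcases hcase with ⟨h3, h4⟩ | ⟨h3, h4, h5⟩
    · have h6 : r₀ * μ ≤ e * α₀ := by
        have h7 : r₀ * μ ≤ r₀ * (e * q) := by
          rw [← hγ]
          exact mul_le_mul_of_nonneg_left hμγ (by linarith)
        have h8 : e * (r₀ * q) ≤ e * α₀ := mul_le_mul_of_nonneg_left h4 (by linarith)
        linarith
      by_cases hμ : 0 < μ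
      · have h9 := hpos hμ
        have h10 : r₀ * 2 ≤ r₀ * A := mul_le_mul_of_nonneg_left h9 (by linarith)
        linarith
      · have h9 : μ = 0 := by omega
        rw [h9, mul_zero]
        have h10 : 1 * 1 ≤ e * α₀ := mul_le_mul he h3 zero_le_one (by linarith)
        linarith
    · have h9 := hpos h5
      have h10 : r₀ * 2 ≤ r₀ * A := mul_le_mul_of_nonneg_left h9 (by linarith)
      have h11 : μ ≤ e := by
        have : e * q ≤ e * 1 := mul_le_mul_of_nonneg_left h4 (by linarith)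
        linarith
      have h12 : r₀ * μ ≤ r₀ * e := mul_le_mul_of_nonneg_left h11 (by linarith)
      rw [h3]
      linarith
  have h3 : 1 * 1 ≤ N * (r₀ * (e - 1) + e * α₀ + r₀ * A - r₀ * μ) :=
    mul_le_mul hN h2 zero_le_one (by linarith)
  linarith

section

variable {K L M : Type} [Field K] [Field L] [Field M] [Algebra ℂ K] [Algebra ℂ L]
  [Algebra ℂ M] [Algebra K L] [Algebra L M] [Algebra K M] [IsScalarTower ℂ K L]
  [IsScalarTower ℂ L M] [IsScalarTower ℂ K M] [IsScalarTower K L M] [FiniteDimensional L M]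
  {N : ℕ} {y : Fin (N + 1) → K} {n r : ℕ} {G : Place ℂ K → ℤ}
  {S : Mod K L M y n r G} {s : K} {z : Fin (r + 2) → M} {w : ℤ}

/-- **Places over divisorial places.** -/
theorem Fer.trm_over (h : Fer S s z w) {lam : K} (hl : lam ≠ 0) {P : Place ℂ M}
    (hP : Divisorial (n + r) P) (hnp : ¬ IsPrimeDivisor S.v P) {Q : Place ℂ K} {e : ℕ}
    (hPQ : Over P Q e) (hQ : Divisorial n Q)
    (hg : ∀ D, IsPrimeDivisor y D → Through y D Q → D.ord (s * lam ^ (r + 2)) = G D)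
    {r₀ : ℕ} (hr₀ : 0 < r₀) {η₀ : (Fin n → Derivation ℂ K K) → K} (hη₀ : IsPluri r₀ η₀)
    {x : Fin n → K} {E : Fin n → Derivation ℂ K K} {i0 : Fin n} (hE : Loc Q x E i0)
    (hE0 : η₀ E ≠ 0)
    (hcase : (1 ≤ Q.ord (η₀ E) ∧ r₀ * Q.ord (s * lam ^ (r + 2)) ≤ Q.ord (η₀ E)) ∨
      (Q.ord (η₀ E) = 0 ∧ Q.ord (s * lam ^ (r + 2)) ≤ 1 ∧ IsPrimeDivisor y Q)) :
    OrdGe P (tq S.lM r₀ (fun i => algebraMap K M (x i)) (algebraMap K M
      ((s * lam ^ (r + 2)) ^ (-(2 * w * r₀)) * η₀ E ^ (2 * (r + 2))))) 1 := by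
  classical
  have hessM := S.essM
  obtain ⟨g, hgd⟩ : ∃ g, g = s * lam ^ (r + 2) := ⟨_, rfl⟩
  have hg0 : g ≠ 0 := by
    rw [hgd]
    exact mul_ne_zero h.s0 (pow_ne_zero _ hl)
  obtain ⟨i, hi⟩ := h.chart_w hl hPQ hQ hg
  obtain ⟨i', -, hi'⟩ := Finset.exists_min_image Finset.univ
    (fun i : Fin (r + 1) => P.ord (S.lM i.castSucc)) ⟨0, Finset.mem_univ _⟩
  obtain ⟨σ, hσ, hσ1, hσ2⟩ := exists_good S.sysM P fun i => hi' i (Finset.mem_univ _)
  have hw0 : ∀ k, wk S z lam k ≠ 0 := h.wk_ne hl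
  have he : (1 : ℤ) ≤ e := by exact_mod_cast hPQ.1
  have hN : (1 : ℤ) ≤ (r + 2 : ℕ) := by
    push_cast
    have := Int.natCast_nonneg r
    linarith
  -- the order of `g`
  have hgQ : 0 ≤ Q.ord g := by
    refine reg_ord_nonneg (localRing_reg (mem_localRing_of_reg S.ny fun D hD hDQ => Or.inr ?_))
    rw [hgd, hg D hD hDQ]
    exact S.car.nonneg D hD
  obtain ⟨γ, hγ⟩ : ∃ γ, γ = e * Q.ord g := ⟨_, rfl⟩
  have hγ0 : 0 ≤ γ := by
    rw [hγ]
    exact mul_nonneg (by linarith) hgQ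
  have hord : ∀ k, P.ord (S.lM k) = (r + 2 : ℕ) * P.ord (wk S z lam k) + S.wt k * γ := by
    intro k
    rw [h.wk_pow hl, ← hgd, P.ord_mul (pow_ne_zero _ (hw0 k)) (by
      rw [Ne, map_eq_zero]
      exact zpow_ne_zero _ hg0), P.ord_pow, hPQ.2, Q.ord_zpow, hγ]
    ring
  -- the orders of the coordinates
  obtain ⟨o, ho⟩ : ∃ o, o = P.ord (wk S z lam i.castSucc) := ⟨_, rfl⟩
  have hak : ∀ k, o ≤ P.ord (wk S z lam k) := by
    intro k
    have h1 := reg_ord_nonneg (localRing_reg (hi k))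
    rw [P.ord_div (hw0 _) (hw0 _)] at h1
    omega
  obtain ⟨μ, hμ⟩ : ∃ μ, μ = P.ord (S.lM (σ 0)) - (r + 2 : ℕ) * o := ⟨_, rfl⟩
  have hwγ : ∀ k, 0 ≤ S.wt k * γ := by
    intro k
    rcases S.wt01 k with h1 | h1
    · rw [h1, zero_mul]
    · rw [h1, one_mul]
      exact hγ0
  have hμ0 : 0 ≤ μ := by
    rw [hμ, hord]
    have h1 := hak (σ 0)
    have h2 := hwγ (σ 0)
    have h3 : ((r + 2 : ℕ) : ℤ) * o ≤ (r + 2 : ℕ) * P.ord (wk S z lam (σ 0)) :=
      mul_le_mul_of_nonneg_left h1 (by linarith)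
    linarith
  have hμi : μ ≤ S.wt i.castSucc * γ := by
    have h1 := hσ1 i.castSucc
    rw [hord i.castSucc, ← ho] at h1
    linarith
  have hμγ : μ ≤ γ := by
    rcases S.wt01 i.castSucc with h1 | h1
    · rw [h1, zero_mul] at hμi
      linarith
    · rw [h1, one_mul] at hμi
      exact hμi
  obtain ⟨A, hA⟩ : ∃ A, A = ∑ k, (P.ord (wk S z lam k) - o) := ⟨_, rfl⟩
  have hA0 : 0 ≤ A := by
    rw [hA]
    exact Finset.sum_nonneg fun k _ => by
      have := hak k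
      linarith
  have hpos : 0 < μ → 2 ≤ A := by
    intro hμp
    have h1 : ∀ k, S.wt k = 0 → 1 ≤ P.ord (wk S z lam k) - o := by
      intro k hk
      have h2 := hσ1 k
      rw [hord k, hk, zero_mul, add_zero] at h2
      have h3 : 0 < ((r + 2 : ℕ) : ℤ) * (P.ord (wk S z lam k) - o) := by linarith
      by_contra h4
      have h5 : P.ord (wk S z lam k) - o ≤ 0 := by omega
      have h6 : ((r + 2 : ℕ) : ℤ) * (P.ord (wk S z lam k) - o) ≤ 0 :=
        mul_nonpos_of_nonneg_of_nonpos (by linarith) h5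
      linarith
    have h2 : A = (P.ord (wk S z lam 0) - o) + (∑ k : Fin r, (P.ord (wk S z lam k.castSucc.succ) - o) +
        (P.ord (wk S z lam (Fin.last (r + 1))) - o)) := by
      rw [hA, Fin.sum_univ_succ, Fin.sum_univ_castSucc, Fin.succ_last]
    have h3 := h1 0 S.wt0
    have h4 := h1 _ S.wtl
    have h5 : 0 ≤ ∑ k : Fin r, (P.ord (wk S z lam k.castSucc.succ) - o) :=
      Finset.sum_nonneg fun k _ => by
        have := hak k.castSucc.succ
        linarith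
    linarith
  -- the sum of the orders
  have htord : ∀ p, P.ord (ts S.lM σ p) = P.ord (S.lM (σ p.succ.castSucc)) -
      P.ord (S.lM (σ 0)) := fun p => by
    unfold ts
    rw [P.ord_div (S.sysM.ne _) (S.sysM.ne _)]
  obtain ⟨T, hT⟩ : ∃ T, T = ∑ p, P.ord (ts S.lM σ p) := ⟨_, rfl⟩
  have hTeq : T = (r + 2 : ℕ) * A + w * γ - (r + 2 : ℕ) * μ := by
    have h1 := sum_sub σ (fun k => P.ord (S.lM k))
    simp only [hσ2, sub_self, add_zero] at h1
    have h2 : ∑ p : Fin r, (P.ord (S.lM (σ p.succ.castSucc)) - P.ord (S.lM (σ 0))) = T := by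
      rw [hT]
      exact Finset.sum_congr rfl fun p _ => (htord p).symm
    rw [h2] at h1
    have h3 : ∑ k, P.ord (S.lM k) = (r + 2 : ℕ) * (A + (r + 2 : ℕ) * o) + w * γ := by
      simp only [hord]
      rw [Finset.sum_add_distrib, ← Finset.mul_sum, ← Finset.sum_mul, h.ws, hA,
        Finset.sum_sub_distrib]
      simp only [Finset.sum_const, Finset.card_univ, Fintype.card_fin, nsmul_eq_mul]
      push_cast
      ring
    rw [h3] at h1
    have h4 : P.ord (S.lM (σ 0)) = μ + (r + 2 : ℕ) * o := by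
      rw [hμ]
      ring
    rw [h4] at h1
    push_cast at h1 ⊢
    linarith
  obtain ⟨c, hc⟩ : ∃ c, c = (s * lam ^ (r + 2)) ^ (-(2 * w * r₀)) * η₀ E ^ (2 * (r + 2)) :=
    ⟨_, rfl⟩
  have hc0 : c ≠ 0 := by
    rw [hc, ← hgd]
    exact mul_ne_zero (zpow_ne_zero _ hg0) (pow_ne_zero _ hE0)
  obtain ⟨a, ha⟩ : ∃ a, a = Q.ord c := ⟨_, rfl⟩
  have haeq : a = 2 * (r + 2 : ℕ) * Q.ord (η₀ E) - 2 * w * r₀ * Q.ord g := by
    rw [ha, hc, ← hgd, Q.ord_mul (zpow_ne_zero _ hg0) (pow_ne_zero _ hE0), Q.ord_zpow, Q.ord_pow]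
    push_cast
    ring
  rw [← hc]
  have hmain : ((1 ≤ Q.ord (η₀ E) ∧ r₀ * Q.ord g ≤ Q.ord (η₀ E)) ∨
      (Q.ord (η₀ E) = 0 ∧ Q.ord g ≤ 1 ∧ 0 < μ)) ∨ (Q.ord (η₀ E) = 0 ∧ IsPrimeDivisor y Q ∧
        μ = 0) := by
    rw [← hgd] at hcase
    rcases hcase with h1 | ⟨h1, h2, h3⟩
    · exact Or.inl (Or.inl h1)
    · by_cases h4 : 0 < μ
      · exact Or.inl (Or.inr ⟨h1, h2, h4⟩)
      · exact Or.inr ⟨h1, h3, by omega⟩
  rcases hmain with hmain | ⟨hα, hQp, hμz⟩
  · -- log vector fields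
    have hlog := ordGe_of_log h.trM hP (tq_pluri S.sysM r₀ (fun i => algebraMap K M (x i))
      (algebraMap K M c)) (c := (2 * ((r + 2) * r₀) * (e + T) + e * a -
        (r + 1) * (2 * r₀) * T : ℤ)) fun D hD => by
      have hdt := dt_ge (P := P) (x := fun i => algebraMap K M (x i)) (t := ts S.lM σ) (D := D)
        (a := fun i => if i = i0 then (e : ℤ) else 0) (c := fun p => P.ord (ts S.lM σ p))
        (fun u i => by
          split_ifs with hi
          · rw [hi]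
            refine DerLog.ge (hD u) (Or.inr ?_)
            rw [hPQ.2, hE.unif, mul_one]
          · exact DerLog.ge (hD u) (hPQ.reg.2 (hE.reg i)))
        (fun u p => DerLog.ge (hD u) (ge_ord P _))
      rw [Finset.sum_ite_eq' Finset.univ i0, if_pos (Finset.mem_univ _), ← hT] at hdt
      have hcge : Ge P (e * a) (algebraMap K M c) := by
        right
        rw [hPQ.2, ha]
      have h1 := tq_ge S.sysM hσ hσ2 hcge hdt (q := r₀)
      rw [← hT] at h1
      exact h1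
    refine hlog.mono ?_
    have h1 := num_ge (e := e) (α₀ := Q.ord (η₀ E)) (r₀ := r₀) (N := (r + 2 : ℕ)) (γ := γ) (μ := μ)
      (A := A) (a := a) (T := T) (m := 2 * ((r + 2 : ℕ) * r₀)) (w := w) (q := Q.ord g) he
      (by exact_mod_cast hr₀) hN hA0 rfl hγ haeq hTeq hμγ hpos hμ0 hmain
    have h2 : (1 : ℚ) ≤ ((2 * ((r + 2) * r₀) * (e + T) + e * a - (r + 1) * (2 * r₀) * T -
        (2 * ((r + 2) * r₀) : ℕ) : ℤ) : ℚ) := by
      have h3 : (1 : ℤ) ≤ 2 * ((r + 2) * r₀) * (e + T) + e * a - (r + 1) * (2 * r₀) * T -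
        (2 * ((r + 2) * r₀) : ℕ) := by
        push_cast at h1 ⊢
        linarith
      exact_mod_cast h3
    push_cast at h2 ⊢
    linarith
  · -- étale coordinates
    have hr2 : (0 : ℤ) < (r + 2 : ℕ) := by linarith
    have hz : ∀ k, P.ord (S.lM k) = P.ord (S.lM (σ 0)) →
        P.ord (wk S z lam k) = o ∧ S.wt k * Q.ord g = 0 := by
      intro k hk
      rw [hord k] at hk
      have h1 := hak k
      have h2 := hwγ k
      have h3 : ((r + 2 : ℕ) : ℤ) * (P.ord (wk S z lam k) - o) + S.wt k * γ = 0 := by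
        have h4 : P.ord (S.lM (σ 0)) = (r + 2 : ℕ) * o := by linarith
        rw [h4] at hk
        linarith
      have h4 : 0 ≤ ((r + 2 : ℕ) : ℤ) * (P.ord (wk S z lam k) - o) :=
        mul_nonneg (by linarith) (by linarith)
      have h5 : S.wt k * γ = 0 := by linarith
      have h6 : ((r + 2 : ℕ) : ℤ) * (P.ord (wk S z lam k) - o) = 0 := by linarith
      refine ⟨?_, ?_⟩
      · rcases mul_eq_zero.1 h6 with h7 | h7
        · omega
        · linarith
      · rw [hγ] at h5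
        have h7 : (e : ℤ) * (S.wt k * Q.ord g) = 0 := by linarith
        rcases mul_eq_zero.1 h7 with h8 | h8
        · omega
        · exact h8
    obtain ⟨h0a, h0b⟩ := hz (σ 0) rfl
    obtain ⟨hla, hlb⟩ := hz (σ (Fin.last (r + 1))) hσ2
    have hWl : P.ord (wk S z lam (σ (Fin.last (r + 1))) / wk S z lam (σ 0)) = 0 := by
      rw [P.ord_div (hw0 _) (hw0 _), h0a, hla, sub_self]
    refine (ordGe_of_log h.trM hP (tq_pluri S.sysM r₀ _ _)
      (c := (2 * (2 * ((r + 2) * r₀) : ℕ) : ℤ))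
      fun D hD => h.tq_two hl hσ hE.bas hE.dual hWl ?_ ?_).mono ?_
    · refine h.etale_ge hl σ hE.bas hE.dual (A := osub Q) (fun i => hE.reg i)
        (fun i a ha => hE.pres i a ha) (fun p => ?_) ?_ (fun a ha => S.local_le hPQ (hQp a ha))
        (h.ts_mem hl hi (h0a.trans ho)) hWl hnp hD
      · change Q.Reg _
        right
        rw [← hgd, Q.ord_zpow, sub_mul, h0b, sub_zero]
        rcases S.wt01 (σ p.succ.castSucc) with h1 | h1
        · rw [h1, zero_mul]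
        · rw [h1, one_mul]
          exact hgQ
      · change Q.Reg _
        right
        rw [← hgd, Q.ord_zpow, sub_mul, h0b, hlb, sub_zero]
    · right
      rw [← hgd, hPQ.2, Q.ord_mul hc0 (zpow_ne_zero _ hg0), ← ha, haeq, hα, Q.ord_zpow]
      have h1 : (2 * (r + 2 : ℕ) * (0 : ℤ) - 2 * w * r₀ * Q.ord g +
          (2 * r₀ * w - (2 * ((r + 2) * r₀) : ℕ) * S.wt (σ (Fin.last (r + 1)))) * Q.ord g) =
          - (2 * ((r + 2) * r₀) : ℕ) * (S.wt (σ (Fin.last (r + 1))) * Q.ord g) := by ring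
      rw [h1, hlb, mul_zero, mul_zero]
    · have h1 : (1 : ℚ) ≤ (2 * ((r + 2) * r₀) : ℕ) := by
        have h2 : 1 ≤ 2 * ((r + 2) * r₀) := by
          have : 0 < (r + 2) * r₀ := Nat.mul_pos (by omega) hr₀
          omega
        exact_mod_cast h2
      push_cast at h1 ⊢
      linarith

/-- **Fermat coverings over terminal varieties are terminal.** -/
theorem Fer.terminal (h : Fer S s z w) {Λ : Place ℂ K → ℤ} (hΛ : IsCartier y n Λ)
    (hs : ∀ D, IsPrimeDivisor y D → D.ord s = G D - (r + 2 : ℕ) * Λ D) (hred : IsReduced y G)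
    (hcan : CanonicalPair y n G) (hter : Terminal y n) : Terminal S.v (n + r) := by
  have hessK := S.essK
  intro P hP
  by_cases htr : ∀ f : K, P.ord (algebraMap K M f) = 0
  · obtain ⟨x, E, hx, hE⟩ := exists_crd h.trK
    refine ⟨2 * ((r + 2) * 1), by omega, tq S.lM 1 (fun i => algebraMap K M (x i))
      (algebraMap K M 1), tq_pluri S.sysM _ _ _, fun P' hP' hT =>
        h.hor hP' (S.through_triv hT htr) 1 hx hE one_ne_zero, fun hnp =>
          h.trm_triv hP htr hnp hx hE⟩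
  · push Not at htr
    obtain ⟨e, Q, hPQ⟩ := FF.exists_over P htr
    have hQd : Divisorial n Q := div_base (L := M) (by rw [S.trdeg_KM]) hPQ hP
    obtain ⟨r₀, hr₀, η₀, hη₀, hgen₀, hter₀⟩ := hter Q hQd
    obtain ⟨r₁, hr₁, η₁, hη₁, hgen₁, hcan₁⟩ := hcan Q hQd
    obtain ⟨lam, hl, hlam⟩ := hΛ Q hQd
    have hg0 : s * lam ^ (r + 2) ≠ 0 := mul_ne_zero h.s0 (pow_ne_zero _ hl)
    have hg : ∀ D, IsPrimeDivisor y D → Through y D Q → D.ord (s * lam ^ (r + 2)) = G D := by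
      intro D hD hDQ
      rw [D.ord_mul h.s0 (pow_ne_zero _ hl), D.ord_pow, hlam D hD hDQ, hs D hD]
      ring
    obtain ⟨x, E, i0, hE⟩ := exists_loc h.trK hQd
    obtain ⟨D₀, hD₀, hD₀Q⟩ := exists_through S.ny Q
    have hE0 : η₀ E ≠ 0 := val_ne hη₀ hE.bas hE.dual (hgen₀ D₀ hD₀ hD₀Q)
    obtain ⟨η, hηd⟩ : ∃ η : (Fin n → Derivation ℂ K K) → K,
      η = fun D => (s * lam ^ (r + 2)) ^ (-(2 * w * r₀)) * η₀ D ^ (2 * (r + 2)) := ⟨_, rfl⟩
    have hη : IsPluri (2 * ((r + 2) * r₀)) η := by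
      have h1 := pluri_smul' (pluri_pow hη₀ (2 * (r + 2))) ((s * lam ^ (r + 2)) ^ (-(2 * w * r₀)))
      rw [show r₀ * (2 * (r + 2)) = 2 * ((r + 2) * r₀) by ring] at h1
      rw [hηd]
      exact h1
    have hgen : ∀ D, IsPrimeDivisor y D → Through y D Q →
        OrdEq D η (-(2 * r₀ * (w * G D)) : ℤ) := by
      intro D hD hDQ
      have h1 := ordEq_smul (zpow_ne_zero (-(2 * w * r₀)) hg0)
        (ordEq_pow (hgen₀ D hD hDQ) (2 * (r + 2)))
      rw [← hηd, D.ord_zpow, hg D hD hDQ] at h1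
      have h2 : (((-(2 * w * r₀)) * G D : ℤ) : ℚ) + ((2 * (r + 2) : ℕ) : ℚ) * 0 =
          (-(2 * r₀ * (w * G D)) : ℤ) := by
        push_cast
        ring
      rw [h2] at h1
      exact h1
    have hpos : 0 < 2 * ((r + 2) * r₀) := by
      have : 0 < (r + 2) * r₀ := Nat.mul_pos (by omega) hr₀
      omega
    refine ⟨2 * ((r + 2) * r₀), hpos, tq S.lM r₀ (fun i => algebraMap K M (x i))
      (algebraMap K M (η E)), tq_pluri S.sysM _ _ _, fun P' hP' hT =>
        h.cov.gen0 hPQ hη hgen hE.bas hE.dual hP' hT, fun hnp => ?_⟩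
    have h1 : η E = (s * lam ^ (r + 2)) ^ (-(2 * w * r₀)) * η₀ E ^ (2 * (r + 2)) := by rw [hηd]
    rw [h1]
    refine h.trm_over hl hP hnp hPQ hQd hg hr₀ hη₀ hE hE0 ?_
    by_cases hQp : IsPrimeDivisor y Q
    · right
      have hQQ : Through y Q Q := fun f hf => localRing_reg hf
      have h2 := ((hE.rg.ordEq_iff hη₀).1 (hgen₀ Q hQp hQQ)).2
      refine ⟨by exact_mod_cast h2, ?_, hQp⟩
      rw [hg Q hQp hQQ]
      rcases hred.1 Q hQp with h3 | h3
      · rw [h3]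
        exact zero_le_one
      · rw [h3]
    · left
      have h2 := ((hE.rg.ordGe_iff hη₀).1 (hter₀ hQp)).resolve_left hE0
      exact ⟨by exact_mod_cast h2, can_ge S.ny h.trK hg0 hg hr₁ hη₀ hη₁ hgen₀ hgen₁
        (hcan₁ hQp) hE⟩

end

end Pool.Agent.H890
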