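import Pool.Graph.R_seed8.TH122.AB.Plc
import Pool.Graph.R_seed8.Y172.UpB

/-!
Valuations of a purely transcendental extension given by their values on polynomials; the monomial
extensions of a place.
-/

set_option autoImplicit false
set_option linter.unusedSectionVars false

open FF MvPolynomial Pool.Agent.W603.LV Pool.Agent.TH122.AB

namespace Pool.Agent.H890

section val

variable {k L : Type} [Field k] [Field L] [Algebra k L]

/-- a valuation with values in the integers, not necessarily onto -/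
structure IsVal (k : Type) {L : Type} [Field k] [Field L] [Algebra k L] (o : L → ℤ) : Prop where
  zero : o 0 = 0
  mul : ∀ f g, f ≠ 0 → g ≠ 0 → o (f * g) = o f + o g
  add : ∀ f g, f ≠ 0 → g ≠ 0 → f + g ≠ 0 → min (o f) (o g) ≤ o (f + g)
  const : ∀ c : k, c ≠ 0 → o (algebraMap k L c) = 0

theorem IsVal.one {o : L → ℤ} (h : IsVal k o) : o 1 = 0 := by
  have := h.const 1 one_ne_zero
  rwa [map_one] at this

theorem IsVal.inv {o : L → ℤ} (h : IsVal k o) {f : L} (hf : f ≠ 0) : o f⁻¹ = - o f := by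
  have := h.mul _ _ (inv_ne_zero hf) hf
  rw [inv_mul_cancel₀ hf, h.one] at this
  omega

theorem IsVal.pow {o : L → ℤ} (h : IsVal k o) {f : L} (hf : f ≠ 0) (n : ℕ) :
    o (f ^ n) = n * o f := by
  induction n with
  | zero => simp [h.one]
  | succ n ih =>
    rw [pow_succ, h.mul _ _ (pow_ne_zero _ hf) hf, ih]
    push_cast
    ring

theorem IsVal.zpow {o : L → ℤ} (h : IsVal k o) {f : L} (hf : f ≠ 0) (n : ℤ) :
    o (f ^ n) = n * o f := by
  cases n with
  | ofNat n => simpa using h.pow hf n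
  | negSucc n =>
    rw [zpow_negSucc, h.inv (pow_ne_zero _ hf), h.pow hf]
    simp only [Int.negSucc_eq]
    push_cast
    ring

/-- a valuation is a multiple of a place -/
theorem IsVal.exists_place {o : L → ℤ} (h : IsVal k o) (hne : ∃ f : L, f ≠ 0 ∧ o f ≠ 0) :
    ∃ (P : Place k L) (d : ℕ), 0 < d ∧ ∀ f, o f = d * P.ord f := by
  classical
  -- the positive value group
  have hex : ∃ d : ℕ, 0 < d ∧ ∃ f : L, f ≠ 0 ∧ o f = d := by
    obtain ⟨f, hf, hof⟩ := hne
    rcases lt_or_gt_of_ne hof with h1 | h1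
    · refine ⟨(- o f).toNat, by omega, f⁻¹, inv_ne_zero hf, ?_⟩
      rw [h.inv hf]
      omega
    · exact ⟨(o f).toNat, by omega, f, hf, by omega⟩
  obtain ⟨hd0, t, ht, hot⟩ := Nat.find_spec hex
  obtain ⟨d, hd⟩ : ∃ d, d = Nat.find hex := ⟨_, rfl⟩
  rw [← hd] at hd0 hot
  have hmin : ∀ f : L, f ≠ 0 → 0 < o f → (d : ℤ) ≤ o f := by
    intro f hf hpos
    by_contra hcon
    push Not at hcon
    have h1 : (o f).toNat < Nat.find hex := by
      rw [← hd]
      omega
    exact Nat.find_min hex h1 ⟨by omega, f, hf, by omega⟩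
  have hdvd : ∀ f : L, (d : ℤ) ∣ o f := by
    intro f
    by_cases hf : f = 0
    · rw [hf, h.zero]
      exact dvd_zero _
    have hd0' : (0 : ℤ) < d := by exact_mod_cast hd0
    rw [Int.dvd_iff_emod_eq_zero]
    by_contra hcon
    have h1 := Int.emod_nonneg (o f) hd0'.ne'
    have h2 := Int.emod_lt_of_pos (o f) hd0'
    have h3 : o (f * t ^ (-(o f / d))) = o f % d := by
      rw [h.mul _ _ hf (zpow_ne_zero _ ht), h.zpow ht, hot]
      have := Int.emod_add_mul_ediv (o f) d
      linarith
    have h4 := hmin _ (mul_ne_zero hf (zpow_ne_zero _ ht)) (by rw [h3]; omega)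
    rw [h3] at h4
    omega
  have hd0' : (0 : ℤ) < d := by exact_mod_cast hd0
  refine ⟨⟨fun f => o f / d, ?_, ?_, ?_, ?_, ?_⟩, d, hd0, fun f => ?_⟩
  · simp [h.zero]
  · intro f g hf hg
    change o (f * g) / d = o f / d + o g / d
    rw [h.mul _ _ hf hg, Int.add_ediv_of_dvd_left (hdvd f)]
  · intro f g hf hg hfg
    have h1 := h.add _ _ hf hg hfg
    rcases min_le_iff.1 h1 with h2 | h2
    · exact min_le_iff.2 (Or.inl (Int.ediv_le_ediv hd0' h2))
    · exact min_le_iff.2 (Or.inr (Int.ediv_le_ediv hd0' h2))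
  · intro c hc
    change o (algebraMap k L c) / d = 0
    rw [h.const c hc]
    simp
  · refine ⟨t, ht, ?_⟩
    change o t / d = 1
    rw [hot]
    exact Int.ediv_self hd0'.ne'
  · exact (Int.mul_ediv_cancel' (hdvd f)).symm

end val

section ext

variable {k K L : Type} [Field k] [Field K] [Field L] [Algebra k K] [Algebra k L] [Algebra K L]
  [IsScalarTower k K L] {r : ℕ} {t : Fin r → L}

/-- a valuation given by its values on polynomials -/
theorem exists_val (h : Gens (k := K) t) {ν : MvPolynomial (Fin r) K → ℤ}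
    (hmul : ∀ P Q, P ≠ 0 → Q ≠ 0 → ν (P * Q) = ν P + ν Q)
    (hadd : ∀ P Q, P ≠ 0 → Q ≠ 0 → P + Q ≠ 0 → min (ν P) (ν Q) ≤ ν (P + Q))
    (hconst : ∀ c : k, c ≠ 0 → ν (C (algebraMap k K c)) = 0) :
    ∃ o : L → ℤ, IsVal k o ∧ ∀ P, P ≠ 0 → o (aeval t P) = ν P := by
  classical
  choose num den hden hz using h.gen
  have hnum : ∀ z, z ≠ 0 → num z ≠ 0 := by
    intro z hz0 h0
    apply hz0
    rw [hz z, h0, map_zero, zero_div]
  -- well-definedness
  have hwd : ∀ (z : L) (P Q : MvPolynomial (Fin r) K), z ≠ 0 → Q ≠ 0 →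
      z = aeval t P / aeval t Q → P ≠ 0 ∧ ν (num z) - ν (den z) = ν P - ν Q := by
    intro z P Q hz0 hQ hzPQ
    have hP : P ≠ 0 := by
      intro h0
      apply hz0
      rw [hzPQ, h0, map_zero, zero_div]
    refine ⟨hP, ?_⟩
    have h1 : aeval t (num z * Q) = aeval t (P * den z) := by
      rw [map_mul, map_mul]
      have h3 := h.ne (hden z)
      have h4 := h.ne hQ
      have h5 : aeval t P / aeval t Q = aeval t (num z) / aeval t (den z) := by
        rw [← hzPQ]
        exact hz z
      rw [div_eq_div_iff h4 h3] at h5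
      rw [← h5]
    have h2 := h.inj h1
    have h3 := congrArg ν h2
    rw [hmul _ _ (hnum z hz0) hQ, hmul _ _ hP (hden z)] at h3
    linarith
  let o : L → ℤ := fun z => if z = 0 then 0 else ν (num z) - ν (den z)
  have ho : ∀ (z : L) (P Q : MvPolynomial (Fin r) K), z ≠ 0 → Q ≠ 0 →
      z = aeval t P / aeval t Q → o z = ν P - ν Q := by
    intro z P Q hz0 hQ hzPQ
    simp only [o, if_neg hz0]
    exact (hwd z P Q hz0 hQ hzPQ).2
  have hone : ν 1 = 0 := by
    have := hconst 1 one_ne_zero
    rwa [map_one, C_1] at this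
  have hval : ∀ P, P ≠ 0 → o (aeval t P) = ν P := by
    intro P hP
    rw [ho (aeval t P) P 1 (h.ne hP) one_ne_zero (by rw [map_one, div_one]), hone, sub_zero]
  refine ⟨o, ⟨if_pos rfl, ?_, ?_, ?_⟩, hval⟩
  · intro f g hf hg
    have hnf := hnum f hf
    have hng := hnum g hg
    rw [ho (f * g) (num f * num g) (den f * den g) (mul_ne_zero hf hg)
      (mul_ne_zero (hden f) (hden g)) (by
        rw [map_mul, map_mul]
        conv_lhs => rw [hz f, hz g]
        rw [div_mul_div_comm]), ho f _ _ hf (hden f) (hz f), ho g _ _ hg (hden g) (hz g),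
      hmul _ _ hnf hng, hmul _ _ (hden f) (hden g)]
    ring
  · intro f g hf hg hfg
    have hnf := hnum f hf
    have hng := hnum g hg
    have hdf := hden f
    have hdg := hden g
    have h1 : f + g = aeval t (num f * den g + num g * den f) / aeval t (den f * den g) := by
      rw [map_add, map_mul, map_mul, map_mul]
      conv_lhs => rw [hz f, hz g]
      have h3 := h.ne hdf
      have h4 := h.ne hdg
      field_simp
    have h2 := (hwd (f + g) _ _ hfg (mul_ne_zero hdf hdg) h1).1
    have h3 := hadd _ _ (mul_ne_zero hnf hdg) (mul_ne_zero hng hdf) h2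
    rw [ho (f + g) _ _ hfg (mul_ne_zero hdf hdg) h1, ho f _ _ hf hdf (hz f),
      ho g _ _ hg hdg (hz g)]
    rw [hmul _ _ hnf hdg, hmul _ _ hng hdf] at h3
    rw [hmul _ _ hdf hdg]
    rcases min_le_iff.1 h3 with h4 | h4
    · exact le_trans (min_le_left _ _) (by linarith)
    · exact le_trans (min_le_right _ _) (by linarith)
  · intro c hc
    have h1 : algebraMap k L c = aeval t (C (algebraMap k K c)) := by
      rw [aeval_C, ← IsScalarTower.algebraMap_apply]
    have h2 : (C (algebraMap k K c) : MvPolynomial (Fin r) K) ≠ 0 := by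
      rw [Ne, C_eq_zero, map_eq_zero]
      exact hc
    rw [h1, hval _ h2]
    exact hconst c hc

end ext

section mono

variable {k K : Type} [Field k] [Field K] [Algebra k K] {r : ℕ}

/-- the weight of a term -/
noncomputable def wt (Q : Place k K) (e : ℕ) (a : Fin r → ℤ) (c : K) (α : Fin r →₀ ℕ) : ℤ :=
  e * Q.ord c + ∑ j, (α j : ℤ) * a j

/-- the least weight of the terms of a polynomial -/
noncomputable def mval (Q : Place k K) (e : ℕ) (a : Fin r → ℤ) (F : MvPolynomial (Fin r) K) : ℤ :=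
  if h : F.support.Nonempty then F.support.inf' h (fun α => wt Q e a (F.coeff α) α) else 0

variable {Q : Place k K} {e : ℕ} {a : Fin r → ℤ}

theorem wt_mul {c d : K} (hc : c ≠ 0) (hd : d ≠ 0) (α β : Fin r →₀ ℕ) :
    wt Q e a (c * d) (α + β) = wt Q e a c α + wt Q e a d β := by
  unfold wt
  rw [Q.ord_mul hc hd]
  have : ∑ j, (((α + β) j : ℕ) : ℤ) * a j = ∑ j, (α j : ℤ) * a j + ∑ j, (β j : ℤ) * a j := by
    rw [← Finset.sum_add_distrib]
    refine Finset.sum_congr rfl fun j _ => ?_
    rw [Finsupp.add_apply]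
    push_cast
    ring
  rw [this]
  ring

theorem le_mval {F : MvPolynomial (Fin r) K} (hF : F ≠ 0) {N : ℤ} :
    N ≤ mval Q e a F ↔ ∀ α ∈ F.support, N ≤ wt Q e a (F.coeff α) α := by
  have h : F.support.Nonempty := support_nonempty.2 hF
  unfold mval
  rw [dif_pos h, Finset.le_inf'_iff]

theorem mval_le {F : MvPolynomial (Fin r) K} {α : Fin r →₀ ℕ} (hα : α ∈ F.support) :
    mval Q e a F ≤ wt Q e a (F.coeff α) α := by
  have hF : F ≠ 0 := by
    rintro rfl
    simp at hα
  exact (le_mval hF).1 le_rfl α hα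

theorem exists_mval {F : MvPolynomial (Fin r) K} (hF : F ≠ 0) :
    ∃ α ∈ F.support, mval Q e a F = wt Q e a (F.coeff α) α := by
  have h : F.support.Nonempty := support_nonempty.2 hF
  obtain ⟨α, hα, h1⟩ := Finset.exists_mem_eq_inf' h (fun α => wt Q e a (F.coeff α) α)
  refine ⟨α, hα, ?_⟩
  unfold mval
  rw [dif_pos h]
  exact h1

/-- the terms of least weight: the one of the largest exponent -/
theorem exists_top {F : MvPolynomial (Fin r) K} (hF : F ≠ 0) :
    ∃ α ∈ F.support, mval Q e a F = wt Q e a (F.coeff α) α ∧ ∀ β ∈ F.support,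
      mval Q e a F = wt Q e a (F.coeff β) β →
        (MonomialOrder.lex (σ := Fin r)).toSyn β ≤ (MonomialOrder.lex (σ := Fin r)).toSyn α := by
  classical
  obtain ⟨α0, hα0, h0⟩ := exists_mval (Q := Q) (e := e) (a := a) hF
  obtain ⟨α, hα, hmax⟩ := Finset.exists_max_image
    (F.support.filter fun α => mval Q e a F = wt Q e a (F.coeff α) α)
    (fun α => (MonomialOrder.lex (σ := Fin r)).toSyn α) ⟨α0, by simp only [Finset.mem_filter]; exact ⟨hα0, h0⟩⟩
  rw [Finset.mem_filter] at hα
  exact ⟨α, hα.1, hα.2, fun β hβ h1 => hmax β (Finset.mem_filter.2 ⟨hβ, h1⟩)⟩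

theorem ge_wt {N : ℤ} {c : K} {α : Fin r →₀ ℕ} (h : c = 0 ∨ N ≤ wt Q e a c α) :
    c = 0 ∨ N - ∑ j, (α j : ℤ) * a j ≤ e * Q.ord c := by
  rcases h with h | h
  · exact Or.inl h
  · right
    unfold wt at h
    linarith

/-- `e ord` on sums -/
theorem eord_add (he : 0 < e) {N : ℤ} {c d : K} (hc : c = 0 ∨ N ≤ e * Q.ord c)
    (hd : d = 0 ∨ N ≤ e * Q.ord d) : c + d = 0 ∨ N ≤ e * Q.ord (c + d) := by
  by_cases h1 : c = 0
  · rwa [h1, zero_add]
  by_cases h2 : d = 0
  · rwa [h2, add_zero]
  by_cases h3 : c + d = 0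
  · exact Or.inl h3
  right
  have h4 := Q.ord_add h1 h2 h3
  have he' : (0 : ℤ) ≤ e := Int.natCast_nonneg e
  have h5 := mul_le_mul_of_nonneg_left h4 he'
  have h6 := hc.resolve_left h1
  have h7 := hd.resolve_left h2
  rcases min_le_iff.1 (le_refl (min (Q.ord c) (Q.ord d))) with h8 | h8
  · rcases le_total (Q.ord c) (Q.ord d) with h9 | h9
    · rw [min_eq_left h9] at h5
      linarith
    · rw [min_eq_right h9] at h5
      linarith
  · rcases le_total (Q.ord c) (Q.ord d) with h9 | h9
    · rw [min_eq_left h9] at h5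
      linarith
    · rw [min_eq_right h9] at h5
      linarith

theorem eord_sum (he : 0 < e) {N : ℤ} {ι : Type} (s : Finset ι) (c : ι → K)
    (h : ∀ i ∈ s, c i = 0 ∨ N ≤ e * Q.ord (c i)) :
    ∑ i ∈ s, c i = 0 ∨ N ≤ e * Q.ord (∑ i ∈ s, c i) := by
  classical
  induction s using Finset.induction_on with
  | empty => left; simp
  | insert a s ha ih =>
    rw [Finset.sum_insert ha]
    exact eord_add he (h a (Finset.mem_insert_self a s))
      (ih fun i hi => h i (Finset.mem_insert_of_mem hi))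

theorem eord_main (he : 0 < e) {N : ℤ} {c d : K} (hc : c ≠ 0) (hcN : e * Q.ord c = N)
    (hd : d = 0 ∨ N < e * Q.ord d) : c + d ≠ 0 ∧ e * Q.ord (c + d) = N := by
  by_cases h2 : d = 0
  · rw [h2, add_zero]
    exact ⟨hc, hcN⟩
  have h3 := hd.resolve_left h2
  have h4 : Q.ord c < Q.ord d := by
    have he' : (0 : ℤ) < e := by exact_mod_cast he
    rw [← hcN] at h3
    exact lt_of_mul_lt_mul_left h3 he'.le
  obtain ⟨h5, h6⟩ := Q.ord_add_eq hc h2 h4
  exact ⟨h5, by rw [h6, hcN]⟩

theorem mval_mul (he : 0 < e) (P R : MvPolynomial (Fin r) K) (hP : P ≠ 0) (hR : R ≠ 0) :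
    mval Q e a (P * R) = mval Q e a P + mval Q e a R := by
  classical
  have hPR : P * R ≠ 0 := mul_ne_zero hP hR
  have hw : ∀ γ : Fin r →₀ ℕ, ∀ x ∈ Finset.HasAntidiagonal.antidiagonal γ, coeff x.1 P * coeff x.2 R = 0 ∨
      mval Q e a P + mval Q e a R ≤ wt Q e a (coeff x.1 P * coeff x.2 R) γ := by
    intro γ x hx
    by_cases h1 : coeff x.1 P = 0
    · left; rw [h1, zero_mul]
    by_cases h2 : coeff x.2 R = 0
    · left; rw [h2, mul_zero]
    right
    rw [Finset.HasAntidiagonal.mem_antidiagonal] at hx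
    rw [← hx, wt_mul h1 h2]
    exact add_le_add (mval_le (mem_support_iff.2 h1)) (mval_le (mem_support_iff.2 h2))
  apply le_antisymm
  · obtain ⟨α, hα, hαv, hαm⟩ := exists_top (Q := Q) (e := e) (a := a) hP
    obtain ⟨β, hβ, hβv, hβm⟩ := exists_top (Q := Q) (e := e) (a := a) hR
    have hα0 := mem_support_iff.1 hα
    have hβ0 := mem_support_iff.1 hβ
    have h1 : coeff (α + β) (P * R) = coeff α P * coeff β R +
        ∑ x ∈ (Finset.HasAntidiagonal.antidiagonal (α + β)).erase (α, β), coeff x.1 P * coeff x.2 R := by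
      rw [coeff_mul, ← Finset.add_sum_erase _ _ (show (α, β) ∈ Finset.HasAntidiagonal.antidiagonal (α + β) from
        Finset.HasAntidiagonal.mem_antidiagonal.2 rfl)]
    have hmain : (e : ℤ) * Q.ord (coeff α P * coeff β R) =
        mval Q e a P + mval Q e a R - ∑ j, ((α + β) j : ℤ) * a j := by
      have h2 := wt_mul (Q := Q) (e := e) (a := a) hα0 hβ0 α β
      rw [← hαv, ← hβv] at h2
      unfold wt at h2
      linarith
    have hrest : (∑ x ∈ (Finset.HasAntidiagonal.antidiagonal (α + β)).erase (α, β),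
        coeff x.1 P * coeff x.2 R) = 0 ∨
        mval Q e a P + mval Q e a R - ∑ j, ((α + β) j : ℤ) * a j + 1 ≤
        e * Q.ord (∑ x ∈ (Finset.HasAntidiagonal.antidiagonal (α + β)).erase (α, β),
          coeff x.1 P * coeff x.2 R) := by
      refine eord_sum he _ _ fun x hx => ?_
      rw [Finset.mem_erase] at hx
      rcases hw _ x hx.2 with h2 | h2
      · exact Or.inl h2
      by_cases h3 : coeff x.1 P = 0
      · left; rw [h3, zero_mul]
      by_cases h4 : coeff x.2 R = 0
      · left; rw [h4, mul_zero]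
      right
      have hx2 := Finset.HasAntidiagonal.mem_antidiagonal.1 hx.2
      have h5 := wt_mul (Q := Q) (e := e) (a := a) h3 h4 x.1 x.2
      rw [hx2] at h5
      have h6 := mval_le (Q := Q) (e := e) (a := a) (mem_support_iff.2 h3)
      have h7 := mval_le (Q := Q) (e := e) (a := a) (mem_support_iff.2 h4)
      have h8 : mval Q e a P + mval Q e a R < wt Q e a (coeff x.1 P * coeff x.2 R) (α + β) := by
        rw [h5]
        by_contra hcon
        push Not at hcon
        have h9 : mval Q e a P = wt Q e a (coeff x.1 P) x.1 := by linarith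
        have h10 : mval Q e a R = wt Q e a (coeff x.2 R) x.2 := by linarith
        have h11 := hαm _ (mem_support_iff.2 h3) h9
        have h12 := hβm _ (mem_support_iff.2 h4) h10
        have h13 : (MonomialOrder.lex (σ := Fin r)).toSyn x.1 +
            (MonomialOrder.lex (σ := Fin r)).toSyn x.2 =
            (MonomialOrder.lex (σ := Fin r)).toSyn α +
            (MonomialOrder.lex (σ := Fin r)).toSyn β := by
          rw [← map_add, ← map_add, hx2]
        have h14 : (MonomialOrder.lex (σ := Fin r)).toSyn x.1 =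
            (MonomialOrder.lex (σ := Fin r)).toSyn α := by
          apply le_antisymm h11
          by_contra h15
          push Not at h15
          have := add_lt_add_of_lt_of_le h15 h12
          rw [h13] at this
          exact lt_irrefl _ this
        have h15 : x.1 = α := (MonomialOrder.lex (σ := Fin r)).toSyn.injective h14
        have h16 : x.2 = β := by
          have := hx2
          rw [h15] at this
          exact add_left_cancel this
        exact hx.1 (Prod.ext h15 h16)
      unfold wt at h8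
      linarith
    have h2 := eord_main he (mul_ne_zero hα0 hβ0) hmain (hrest.imp_right fun h => by linarith)
    rw [← h1] at h2
    have h3 := mval_le (Q := Q) (e := e) (a := a) (mem_support_iff.2 h2.1)
    unfold wt at h3
    rw [h2.2] at h3
    linarith
  · rw [le_mval hPR]
    intro γ hγ
    have h1 : coeff γ (P * R) = 0 ∨ mval Q e a P + mval Q e a R - ∑ j, (γ j : ℤ) * a j ≤
        e * Q.ord (coeff γ (P * R)) := by
      rw [coeff_mul]
      refine eord_sum he _ _ fun x hx => ?_
      rcases hw γ x hx with h2 | h2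
      · exact Or.inl h2
      · right
        unfold wt at h2
        linarith
    have h2 := h1.resolve_left (mem_support_iff.1 hγ)
    unfold wt
    linarith

theorem mval_add (he : 0 < e) (P R : MvPolynomial (Fin r) K) (hP : P ≠ 0) (hR : R ≠ 0)
    (hPR : P + R ≠ 0) : min (mval Q e a P) (mval Q e a R) ≤ mval Q e a (P + R) := by
  rw [le_mval hPR]
  intro γ hγ
  have h1 : ∀ F : MvPolynomial (Fin r) K, min (mval Q e a P) (mval Q e a R) ≤ mval Q e a F →
      coeff γ F = 0 ∨ min (mval Q e a P) (mval Q e a R) - ∑ j, (γ j : ℤ) * a j ≤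
      e * Q.ord (coeff γ F) := by
    intro F hF
    by_cases h2 : coeff γ F = 0
    · exact Or.inl h2
    right
    have h3 := mval_le (Q := Q) (e := e) (a := a) (mem_support_iff.2 h2)
    unfold wt at h3
    linarith
  have h2 := eord_add he (h1 P (min_le_left _ _)) (h1 R (min_le_right _ _))
  rw [← coeff_add] at h2
  have h3 := h2.resolve_left (mem_support_iff.1 hγ)
  unfold wt
  linarith

theorem mval_C {c : K} (hc : c ≠ 0) :
    mval Q e a (C c : MvPolynomial (Fin r) K) = e * Q.ord c := by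
  classical
  have h0 : (C c : MvPolynomial (Fin r) K) ≠ 0 := by rwa [Ne, C_eq_zero]
  obtain ⟨α, hα, h1⟩ := exists_mval (Q := Q) (e := e) (a := a) h0
  have h2 : α = 0 := by
    by_contra h3
    rw [mem_support_iff, coeff_C, if_neg (Ne.symm h3)] at hα
    exact hα rfl
  rw [h1, h2, coeff_C, if_pos rfl]
  unfold wt
  simp

theorem mval_X (i : Fin r) : mval Q e a (X i : MvPolynomial (Fin r) K) = a i := by
  classical
  have h0 : (X i : MvPolynomial (Fin r) K) ≠ 0 := X_ne_zero i
  obtain ⟨α, hα, h1⟩ := exists_mval (Q := Q) (e := e) (a := a) h0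
  have h2 : α = Finsupp.single i 1 := by
    by_contra h3
    rw [mem_support_iff, coeff_X, if_neg (fun h => h3 h.symm)] at hα
    exact hα rfl
  rw [h1, h2, coeff_X, if_pos rfl]
  unfold wt
  rw [Q.ord_one, mul_zero, zero_add, Finset.sum_eq_single i]
  · simp
  · intro j _ hj
    rw [Finsupp.single_apply, if_neg (Ne.symm hj)]
    simp
  · intro h
    exact absurd (Finset.mem_univ i) h

variable {L : Type} [Field L] [Algebra k L] [Algebra K L] [IsScalarTower k K L] {t : Fin r → L}

/-- **Monomial extensions.** -/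
theorem exists_mono (h : Gens (k := K) t) (Q : Place k K) {e : ℕ} (he : 0 < e) (a : Fin r → ℤ) :
    ∃ (P : Place k L) (d : ℕ), 0 < d ∧ ∀ F : MvPolynomial (Fin r) K, F ≠ 0 →
      d * P.ord (aeval t F) = mval Q e a F := by
  obtain ⟨o, ho, hoF⟩ := exists_val (k := k) h (ν := mval Q e a) (mval_mul he) (mval_add he)
    (fun c hc => by
      rw [mval_C (by rwa [Ne, map_eq_zero]), Q.ord_const hc, mul_zero])
  obtain ⟨π, hπ0, hπ⟩ := Q.surj
  obtain ⟨P, d, hd, hP⟩ := ho.exists_place ⟨aeval t (C π), h.ne (by rwa [Ne, C_eq_zero]), by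
    rw [hoF _ (by rwa [Ne, C_eq_zero]), mval_C hπ0, hπ]
    have : (0 : ℤ) < e := by exact_mod_cast he
    omega⟩
  refine ⟨P, d, hd, fun F hF => ?_⟩
  rw [← hP, hoF F hF]

/-- **Gauss extensions.** -/
theorem exists_gauss (h : Gens (k := K) t) (Q : Place k K) (a : Fin r → ℤ) :
    ∃ P : Place k L, ∀ F : MvPolynomial (Fin r) K, F ≠ 0 → P.ord (aeval t F) = mval Q 1 a F := by
  obtain ⟨P, d, hd, hP⟩ := exists_mono h Q (e := 1) one_pos a
  obtain ⟨π, hπ0, hπ⟩ := Q.surj
  have h1 := hP (C π) (by rwa [Ne, C_eq_zero])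
  rw [mval_C hπ0, hπ] at h1
  have h2 : d = 1 := by
    have h3 : (d : ℤ) ∣ 1 := ⟨P.ord (aeval t (C π)), by rw [h1]; norm_num⟩
    have h4 : d ∣ 1 := by exact_mod_cast h3
    exact Nat.dvd_one.1 h4
  refine ⟨P, fun F hF => ?_⟩
  have h3 := hP F hF
  rw [h2] at h3
  simpa using h3

end mono

end Pool.Agent.H890
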