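import Pool.Agent.H890.Mod

/-!
The vertical prime divisors of the model.
-/

set_option autoImplicit false
set_option linter.unusedSectionVars false
set_option linter.overlappingInstances false

open FF MvPolynomial IsLocalRing Pool.Agent.W602.GT Pool.Agent.W603.LV Pool.Agent.Y172
  Pool.Agent.TH122.AB Pool.Agent.R887

namespace Pool.Agent.H890

section loc

variable {K : Type} [Field K] [Algebra ℂ K] {N : ℕ} {y : Fin (N + 1) → K}

/-- the functions which are regular at all prime divisors through the centre of `Q` -/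
def lsub (y : Fin (N + 1) → K) (Q : Place ℂ K) : Subalgebra ℂ K where
  carrier := {f | ∀ D, IsPrimeDivisor y D → Through y D Q → D.Reg f}
  mul_mem' := fun ha hb D hD hDQ => D.reg_mul (ha D hD hDQ) (hb D hD hDQ)
  add_mem' := fun ha hb D hD hDQ => D.reg_add (ha D hD hDQ) (hb D hD hDQ)
  algebraMap_mem' := fun c D _ _ => D.reg_const c

theorem mem_lsub {Q : Place ℂ K} {f : K} :
    f ∈ lsub y Q ↔ ∀ D, IsPrimeDivisor y D → Through y D Q → D.Reg f := Iff.rfl

theorem lsub_iff (hy : NormalModel y) {Q : Place ℂ K} {f : K} :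
    f ∈ lsub y Q ↔ f ∈ localRing y Q :=
  ⟨fun h => mem_localRing_of_reg hy h, fun h _ _ hDQ => hDQ f h⟩

theorem lsub_ci (hy : NormalModel y) (Q : Place ℂ K) :
    CI (lsub y Q) {D | IsPrimeDivisor y D ∧ Through y D Q} := by
  refine ⟨fun f => ⟨fun h D hD => h D hD.1 hD.2, fun h D hD hDQ => h D ⟨hD, hDQ⟩⟩, fun f => ?_⟩
  obtain ⟨j, hj⟩ := exists_centred hy Q
  have := hy.frac hj.1
  obtain ⟨a, b, hb, hab⟩ := IsFractionRing.div_surjective (chart y j) f
  have hb0 : (b : K) ≠ 0 := fun h => nonZeroDivisors.ne_zero hb (Subtype.ext h)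
  refine ⟨a, (lsub_iff hy).2 (chart_localRing hj a.2), b, (lsub_iff hy).2 (chart_localRing hj b.2),
    hb0, ?_⟩
  rw [← hab]
  change (a : K) / b * b = a
  field_simp

end loc

section gauss

variable {K L : Type} [Field K] [Field L] [Algebra ℂ K] [Algebra ℂ L] [Algebra K L]
  [IsScalarTower ℂ K L] {r : ℕ} {t : Fin r → L}

theorem wt_zero (D : Place ℂ K) (c : K) (β : Fin r →₀ ℕ) :
    wt D 1 (0 : Fin r → ℤ) c β = D.ord c := by
  unfold wt
  simp

/-- the place `P` is the Gauss extension of `D` -/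
def IsGauss (t : Fin r → L) (D : Place ℂ K) (P : Place ℂ L) : Prop :=
  ∀ F : MvPolynomial (Fin r) K, F ≠ 0 → P.ord (aeval t F) = mval D 1 0 F

variable {D : Place ℂ K} {P : Place ℂ L}

theorem IsGauss.le_iff (h : IsGauss t D P) {F : MvPolynomial (Fin r) K} (hF : F ≠ 0) {m : ℤ} :
    m ≤ P.ord (aeval t F) ↔ ∀ α ∈ F.support, m ≤ D.ord (F.coeff α) := by
  rw [h F hF, le_mval hF]
  simp only [wt_zero]

theorem IsGauss.base (h : IsGauss t D P) (f : K) : P.ord (algebraMap K L f) = D.ord f := by
  by_cases hf : f = 0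
  · rw [hf, map_zero, P.ord_zero, D.ord_zero]
  have h1 : (C f : MvPolynomial (Fin r) K) ≠ 0 := by rwa [Ne, C_eq_zero]
  have h2 := h (C f) h1
  rw [aeval_C, mval_C hf] at h2
  rw [h2]
  push_cast
  ring

theorem IsGauss.var (h : IsGauss t D P) (p : Fin r) : P.ord (t p) = 0 := by
  have h2 := h (X p) (X_ne_zero p)
  rw [aeval_X, mval_X] at h2
  exact h2

theorem IsGauss.reg (h : IsGauss t D P) {A : Subalgebra ℂ K} (hA : ∀ a ∈ A, D.Reg a) :
    ∀ a ∈ RR A t, P.Reg a := by
  intro a ha
  obtain ⟨F, hF, rfl⟩ := mem_RR.1 ha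
  by_cases hF0 : F = 0
  · rw [hF0, map_zero]
    exact P.reg_zero
  · right
    rw [h.le_iff hF0]
    intro α hα
    exact (D.reg_iff (mem_support_iff.1 hα)).1 (hA _ (hF α))

/-- elements of the valuation ring are quotients of polynomials -/
theorem IsGauss.rep (h : IsGauss t D P) (ht : Gens (k := K) t) {A : Subalgebra ℂ K}
    (hA : ∀ a, D.Reg a → a ∈ A) {x : L} (hx : P.Reg x) :
    ∃ a ∈ RR A t, ∃ b ∈ RR A t, b ≠ 0 ∧ P.ord b = 0 ∧ x = a / b := by
  obtain ⟨F, F', hF', rfl⟩ := ht.gen x
  obtain ⟨π, hπ0, hπ⟩ := D.surj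
  obtain ⟨μ, hμ⟩ : ∃ μ, μ = P.ord (aeval t F') := ⟨_, rfl⟩
  have hc0 : π ^ (-μ) ≠ 0 := zpow_ne_zero _ hπ0
  have hco : D.ord (π ^ (-μ)) = -μ := by rw [D.ord_zpow, hπ, mul_one]
  have hcL : algebraMap K L (π ^ (-μ)) ≠ 0 := by rwa [Ne, map_eq_zero]
  have hb0 : algebraMap K L (π ^ (-μ)) * aeval t F' ≠ 0 := mul_ne_zero hcL (ht.ne hF')
  have hbo : P.ord (algebraMap K L (π ^ (-μ)) * aeval t F') = 0 := by
    rw [P.ord_mul hcL (ht.ne hF'), h.base, hco, ← hμ]
    omega
  have hmem : ∀ H : MvPolynomial (Fin r) K, (aeval t H = 0 ∨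
      0 ≤ P.ord (algebraMap K L (π ^ (-μ)) * aeval t H)) →
      algebraMap K L (π ^ (-μ)) * aeval t H ∈ RR A t := by
    intro H hH
    rw [mem_RR]
    refine ⟨C (π ^ (-μ)) * H, fun α => hA _ ?_, by rw [map_mul, aeval_C]⟩
    by_cases h0 : (C (π ^ (-μ)) * H).coeff α = 0
    · rw [h0]
      exact D.reg_zero
    right
    have hH0 : H ≠ 0 := by
      rintro rfl
      rw [mul_zero, coeff_zero] at h0
      exact h0 rfl
    have h1 := hH.resolve_left (ht.ne hH0)
    have h2 : (C (π ^ (-μ)) * H : MvPolynomial (Fin r) K) ≠ 0 :=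
      mul_ne_zero (by rwa [Ne, C_eq_zero]) hH0
    have h3 : aeval t (C (π ^ (-μ)) * H : MvPolynomial (Fin r) K) =
        algebraMap K L (π ^ (-μ)) * aeval t H := by rw [map_mul, aeval_C]
    rw [← h3, h.le_iff h2] at h1
    exact h1 α (mem_support_iff.2 h0)
  refine ⟨_, hmem F ?_, _, hmem F' (Or.inr hbo.ge), hb0, hbo, ?_⟩
  · by_cases hF : aeval t F = 0
    · exact Or.inl hF
    right
    have h1 : algebraMap K L (π ^ (-μ)) * aeval t F =
        (aeval t F / aeval t F') * (algebraMap K L (π ^ (-μ)) * aeval t F') := by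
      have := ht.ne hF'
      field_simp
    rw [h1, P.ord_mul (div_ne_zero hF (ht.ne hF')) hb0, hbo, add_zero]
    exact (P.reg_iff (div_ne_zero hF (ht.ne hF'))).1 hx
  · rw [mul_div_mul_left _ _ hcL]

end gauss

section

variable {K L M : Type} [Field K] [Field L] [Field M] [Algebra ℂ K] [Algebra ℂ L]
  [Algebra ℂ M] [Algebra K L] [Algebra L M] [Algebra K M] [IsScalarTower ℂ K L]
  [IsScalarTower ℂ L M] [IsScalarTower ℂ K M] [IsScalarTower K L M] [FiniteDimensional L M]
  {N : ℕ} {y : Fin (N + 1) → K} {n r : ℕ} {G : Place ℂ K → ℤ}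

variable (S : Mod K L M y n r G)

/-- **Vertical prime divisors.** -/
theorem Mod.ver {P : Place ℂ M} {Q : Place ℂ K} {e : ℕ} (h : Over P Q e) (hQ : Divisorial n Q)
    (hP : IsPrimeDivisor S.v P) {P₁ : Place ℂ L} {e₁ : ℕ} (h₁ : Over P P₁ e₁) :
    IsPrimeDivisor y Q ∧ ∃ (i : Fin (r + 1)) (g : Fin r → K), (∀ p, g p ≠ 0) ∧
      Gens (k := K) (fun p => ts S.l (sA i) p * algebraMap K L (g p)) ∧
      IsGauss (fun p => ts S.l (sA i) p * algebraMap K L (g p)) Q P₁ ∧
      ∀ k, P₁.ord (S.l k) - P₁.ord (S.l i.castSucc) = (S.wt k - S.wt i.castSucc) * G Q := by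
  classical
  have hy := S.ny
  have he : (0 : ℤ) < e := by exact_mod_cast h.1
  have he₁ : (0 : ℤ) < e₁ := by exact_mod_cast h₁.1
  obtain ⟨c₀, hc₀⟩ := S.exists_cen P
  obtain ⟨i, f₀, hf₀, hu₀⟩ := S.u_eq c₀
  obtain ⟨a, ha⟩ := exists_centred hy Q
  choose gg hgg hggD using fun i => (S.fam i).gen Q hQ
  have hgg0 : ∀ i, gg i ≠ 0 := fun i => (S.fam i).ne _ (hgg i)
  have hf₀0 : f₀ ≠ 0 := (S.fam i).ne _ hf₀
  have hfQ : ∀ i, ∀ f ∈ S.F i, f / gg i ∈ localRing y Q := by
    intro i f hf
    refine mem_localRing_of_reg hy fun D hD hDQ => Or.inr ?_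
    rw [D.ord_div ((S.fam i).ne f hf) (hgg0 i), hggD i D hD hDQ a (hDQ.centred ha)]
    have := (S.fam i).low D hD a (hDQ.centred ha) f hf
    omega
  have hordM : ∀ (i : Fin (r + 1)) (f : K), f ≠ 0 →
      P.ord (algebraMap L M (S.l i.castSucc * algebraMap K L f)) =
        P.ord (algebraMap L M (S.l i.castSucc)) + e * Q.ord f := by
    intro i f hf
    have h1 : algebraMap L M (S.l i.castSucc) ≠ 0 := by
      rw [Ne, map_eq_zero]
      exact S.sys.ne _
    have h2 : algebraMap K M f ≠ 0 := by rwa [Ne, map_eq_zero]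
    rw [map_mul, ← IsScalarTower.algebraMap_apply, P.ord_mul h1 h2, h.2]
  have h0 : Q.ord f₀ = Q.ord (gg i) := by
    apply le_antisymm
    · obtain ⟨c', hc'⟩ := S.exists_u i (hgg i)
      have h1 := hc₀ c'
      rw [hu₀, hc', hordM i f₀ hf₀0, hordM i _ (hgg0 i)] at h1
      have h2 : (e : ℤ) * Q.ord f₀ ≤ e * Q.ord (gg i) := by linarith
      exact le_of_mul_le_mul_left h2 he
    · have h1 := reg_ord_nonneg (localRing_reg (hfQ i f₀ hf₀))
      rw [Q.ord_div hf₀0 (hgg0 i)] at h1
      omega
  have h0D : ∀ D, IsPrimeDivisor y D → Through y D Q → D.ord f₀ = D.ord (gg i) := by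
    intro D hD hDQ
    have h1 := unit_through hDQ (hfQ i f₀ hf₀) (div_ne_zero hf₀0 (hgg0 i)) (by
      rw [Q.ord_div hf₀0 (hgg0 i), h0, sub_self])
    rw [D.ord_div hf₀0 (hgg0 i)] at h1
    omega
  have h0' : gg i / f₀ ∈ localRing y Q := by
    refine mem_localRing_of_reg hy fun D hD hDQ => Or.inr ?_
    rw [D.ord_div (hgg0 i) hf₀0, h0D D hD hDQ, sub_self]
  -- the indices
  have hix : ∀ p : Fin r, ∃ i' : Fin (r + 1), sA i p.succ.castSucc = i'.castSucc := by
    intro p
    have h1 : sA i p.succ.castSucc ≠ Fin.last (r + 1) := by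
      intro h2
      rw [← sA_last i] at h2
      have h3 := (sA i).injective h2
      have := congrArg Fin.val h3
      simp only [Fin.val_castSucc, Fin.val_succ, Fin.val_last] at this
      omega
    obtain ⟨i', hi'⟩ := Fin.exists_castSucc_eq.2 h1
    exact ⟨i', hi'.symm⟩
  choose ix hix using hix
  have hixs : ∀ i', i' ≠ i → ∃ p, ix p = i' := by
    intro i' hi'
    have h1 : (sA i).symm i'.castSucc ≠ 0 := by
      intro h2
      apply hi'
      apply Fin.castSucc_injective
      have h3 := sA_zero i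
      rw [← h2, Equiv.apply_symm_apply] at h3
      exact h3
    have h2 : (sA i).symm i'.castSucc ≠ Fin.last (r + 1) := by
      intro h3
      have h4 : i'.castSucc = Fin.last (r + 1) := by
        rw [← sA_last i, ← h3, Equiv.apply_symm_apply]
      have := congrArg Fin.val h4
      simp only [Fin.val_castSucc, Fin.val_last] at this
      omega
    obtain ⟨p, hp⟩ := mid_of_ne h1 h2
    refine ⟨p, ?_⟩
    apply Fin.castSucc_injective
    rw [← hix p, ← hp, Equiv.apply_symm_apply]
  obtain ⟨g, hg⟩ : ∃ g : Fin r → K, ∀ p, g p = gg (ix p) / gg i := ⟨_, fun _ => rfl⟩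
  have hg0 : ∀ p, g p ≠ 0 := fun p => by
    rw [hg]
    exact div_ne_zero (hgg0 _) (hgg0 _)
  obtain ⟨τ, hτ⟩ : ∃ τ : Fin r → L, τ = fun p => ts S.l (sA i) p * algebraMap K L (g p) :=
    ⟨_, rfl⟩
  have hτ1 : ∀ p, τ p = (S.l (ix p).castSucc * algebraMap K L (gg (ix p))) /
      (S.l i.castSucc * algebraMap K L (gg i)) := by
    intro p
    rw [hτ]
    change ts S.l (sA i) p * algebraMap K L (g p) = _
    unfold ts
    rw [hix, sA_zero, hg, map_div₀, div_mul_div_comm]
  have hl0 : ∀ k, S.l k ≠ 0 := S.sys.ne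
  have hgL : ∀ i, algebraMap K L (gg i) ≠ 0 := fun i => by
    rw [Ne, map_eq_zero]
    exact hgg0 i
  have hf₀L : algebraMap K L f₀ ≠ 0 := by rwa [Ne, map_eq_zero]
  have hτreg : ∀ p, P.Reg (algebraMap L M (τ p)) := by
    intro p
    right
    obtain ⟨c', hc'⟩ := S.exists_u (ix p) (hgg (ix p))
    have h1 := hc₀ c'
    rw [hu₀, hc', hordM i f₀ hf₀0, hordM _ _ (hgg0 _), h0] at h1
    have h2 : ∀ i, algebraMap L M (S.l i.castSucc * algebraMap K L (gg i)) ≠ 0 := fun i => by
      rw [Ne, map_eq_zero]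
      exact mul_ne_zero (hl0 _) (hgL i)
    rw [hτ1, map_div₀, P.ord_div (h2 _) (h2 _), hordM _ _ (hgg0 _), hordM _ _ (hgg0 _)]
    linarith
  have hτg : Gens (k := K) τ := by
    refine gens_change (gens_ts S.sys S.gens (sA i)) fun p => ?_
    have h1 : ts S.l (sA i) p = τ p * algebraMap K L (g p)⁻¹ := by
      rw [hτ]
      change _ = ts S.l (sA i) p * algebraMap K L (g p) * algebraMap K L (g p)⁻¹
      rw [mul_assoc, ← map_mul, mul_inv_cancel₀ (hg0 p), map_one, mul_one]
    rw [h1]
    exact mul_mem (IntermediateField.subset_adjoin K _ ⟨p, rfl⟩)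
      (IntermediateField.algebraMap_mem _ _)
  -- the ring
  have hA := lsub_ci hy Q
  have hchart : chart S.u c₀ ≤ RR (lsub y Q) τ := by
    apply Algebra.adjoin_le
    rintro _ ⟨c', rfl⟩
    change S.u c' / S.u c₀ ∈ RR (lsub y Q) τ
    obtain ⟨i', f', hf', hu'⟩ := S.u_eq c'
    have hmem : (f' / gg i') * (gg i / f₀) ∈ lsub y Q :=
      Subalgebra.mul_mem _ ((lsub_iff hy).2 (hfQ i' f' hf')) ((lsub_iff hy).2 h0')
    by_cases hi : i' = i
    · subst hi
      have h1 : S.u c' / S.u c₀ = algebraMap K L ((f' / gg i') * (gg i' / f₀)) := by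
        rw [hu', hu₀, div_mul_div_cancel₀ (hgg0 i'), map_div₀, mul_div_mul_left _ _ (hl0 _)]
      rw [h1]
      exact RR_base hmem
    · obtain ⟨p, rfl⟩ := hixs i' hi
      have h1 : S.u c' / S.u c₀ =
          τ p * algebraMap K L ((f' / gg (ix p)) * (gg i / f₀)) := by
        have e1 := hl0 (ix p).castSucc
        have e2 := hl0 i.castSucc
        have e3 := hgL i
        have e4 := hgL (ix p)
        rw [hu', hu₀, hτ1, map_mul, map_div₀, map_div₀]
        field_simp
      rw [h1]
      exact (RR (lsub y Q) τ).mul_mem (RR_var p) (RR_base hmem)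
  have hbaseQ : ∀ c ∈ lsub y Q, Q.Reg c := fun c hc => localRing_reg ((lsub_iff hy).1 hc)
  have hRreg : ∀ x ∈ RR (lsub y Q) τ, P.Reg (algebraMap L M x) := by
    intro x hx
    induction hx using Algebra.adjoin_induction with
    | mem x hx =>
      rcases hx with ⟨c, hc, rfl⟩ | ⟨p, rfl⟩
      · rw [← IsScalarTower.algebraMap_apply]
        exact h.reg.2 (hbaseQ c hc)
      · exact hτreg p
    | algebraMap z =>
      rw [← IsScalarTower.algebraMap_apply]
      exact P.reg_const z
    | add x y _ _ hx hy =>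
      rw [map_add]
      exact P.reg_add hx hy
    | mul x y _ _ hx hy =>
      rw [map_mul]
      exact P.reg_mul hx hy
  have hnor : IsIntegrallyClosed (RR (lsub y Q) τ) := RR_normal hτg hA
  have hloc := S.loc hc₀ hP hchart
  -- the Gauss place
  obtain ⟨D, hD, hDQ⟩ := exists_through hy Q
  obtain ⟨PD, hPD⟩ := exists_gauss hτg D 0
  have hPD' : IsGauss τ D PD := hPD
  have hPDreg : ∀ x ∈ RR (lsub y Q) τ, PD.Reg x := hPD'.reg fun c hc => hc D hD hDQ
  have hpos : ∀ c ∈ lsub y Q, 0 < D.ord c → 0 < Q.ord c := by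
    intro c hc hcD
    have h1 := reg_ord_nonneg (hbaseQ c hc)
    by_contra h2
    have h3 : Q.ord c = 0 := by omega
    have hc0 : c ≠ 0 := by
      rintro rfl
      rw [D.ord_zero] at hcD
      exact lt_irrefl _ hcD
    have := unit_through hDQ ((lsub_iff hy).1 hc) hc0 h3
    omega
  let q : Ideal (RR (lsub y Q) τ) := centre (RR (lsub y Q) τ) PD hPDreg
  have hq : ∀ x : RR (lsub y Q) τ, x ∈ q ↔ (x = 0 ∨ 0 < PD.ord (x : L)) := fun x => mem_centre
  have hDa := hDQ.centred ha
  have hq0 : q ≠ ⊥ := by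
    obtain ⟨π, hπ0, hπ⟩ := D.surj
    obtain ⟨x, hx, z, hz, hz0, hzo, hxz⟩ := (mem_localRing hDa).1 (hD π (Or.inr (by omega)))
    have hx0 : x ≠ 0 := by
      rw [← hxz]
      exact mul_ne_zero hπ0 hz0
    have hxo : D.ord x = 1 := by rw [← hxz, D.ord_mul hπ0 hz0, hπ, hzo, add_zero]
    have hxA : x ∈ lsub y Q := (lsub_iff hy).2 (chart_localRing ha hx)
    intro h1
    have h2 : (⟨_, RR_base hxA⟩ : RR (lsub y Q) τ) ∈ q := by
      rw [hq]
      right
      change 0 < PD.ord (algebraMap K L x)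
      rw [hPD'.base, hxo]
      exact one_pos
    rw [h1, Ideal.mem_bot] at h2
    have h3 : algebraMap K L x = 0 := congrArg Subtype.val h2
    rw [map_eq_zero] at h3
    exact hx0 h3
  have hgoing := fun (x : RR (lsub y Q) τ) => going (M := M) (RR (lsub y Q) τ) hRreg hloc q hq0
    (fun x hx => by
      by_cases hx0 : x = 0
      · exact Or.inl hx0
      right
      have h1 := ((hq x).1 hx).resolve_left hx0
      obtain ⟨F, hF, hFx⟩ := mem_RR.1 x.2
      have hF0 : F ≠ 0 := by
        rintro rfl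
        rw [map_zero] at hFx
        exact hx0 (Subtype.ext hFx.symm)
      have h2 : (1 : ℤ) ≤ PD.ord (aeval τ F) := by
        rw [hFx]
        omega
      rw [hPD'.le_iff hF0] at h2
      have h3 : Ge P 1 (algebraMap L M (x : L)) := by
        rw [← hFx, aeval_def, eval₂_eq', map_sum]
        refine Ge.sum _ _ fun α hα => ?_
        rw [map_mul, ← IsScalarTower.algebraMap_apply, map_prod]
        have h4 : Ge P 1 (algebraMap K M (F.coeff α)) := by
          right
          rw [h.2]
          have := hpos _ (hF α) (by have := h2 α hα; omega)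
          nlinarith
        have h5 : Ge P 0 (∏ p, algebraMap L M (τ p ^ α p)) := by
          have := Ge.prod (P := P) Finset.univ (fun p => algebraMap L M (τ p ^ α p))
            (fun _ => 0) fun p _ => by
              have := (show Ge P 0 (algebraMap L M (τ p)) from hτreg p).pow (α p)
              rw [mul_zero, ← map_pow] at this
              exact this
          simpa using this
        have h6 := h4.mul h5
        rwa [add_zero] at h6
      have h4 : algebraMap L M (x : L) ≠ 0 := by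
        rw [Ne, map_eq_zero]
        exact fun h => hx0 (Subtype.ext h)
      have := h3.resolve_left h4
      omega) x
  -- `D = Q`
  have hDQeq : D = Q := by
    refine hD.eq_of_centre hDa ha ?_
    ext x
    rw [mem_centre, mem_centre]
    have hxA : (x : K) ∈ lsub y Q := (lsub_iff hy).2 (chart_localRing ha x.2)
    refine or_congr_right' fun hx0 => ?_
    constructor
    · exact hpos _ hxA
    · intro h1
      have h2 := hgoing ⟨_, RR_base hxA⟩ (Or.inr (by
        change 0 < P.ord (algebraMap L M (algebraMap K L (x : K)))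
        rw [← IsScalarTower.algebraMap_apply, h.2]
        positivity))
      rw [hq] at h2
      rcases h2 with h3 | h3
      · exfalso
        have h4 : algebraMap K L (x : K) = 0 := congrArg Subtype.val h3
        rw [map_eq_zero] at h4
        exact hx0 (Subtype.ext h4)
      · change 0 < PD.ord (algebraMap K L (x : K)) at h3
        rwa [hPD'.base] at h3
  subst hDQeq
  have hAll : ∀ c, D.Reg c → c ∈ lsub y D := fun c hc => (lsub_iff hy).2 (hD c hc)
  have hPeq : PD = P₁ := by
    apply Place.eq_of_le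
    intro f hf0 hf
    obtain ⟨x, hx, z, hz, hz0, hzo, hxz⟩ := hPD'.rep hτg hAll (Or.inr hf : PD.Reg f)
    have h1 : P₁.Reg x := h₁.reg.1 (hRreg x hx)
    have h2 : P₁.ord z = 0 := by
      have h3 := reg_ord_nonneg (h₁.reg.1 (hRreg z hz))
      by_contra h4
      have h5 : 0 < P.ord (algebraMap L M z) := by
        rw [h₁.2]
        have : 0 < P₁.ord z := by omega
        positivity
      have h6 := (hq ⟨z, hz⟩).1 (hgoing ⟨z, hz⟩ (Or.inr h5))
      rcases h6 with h7 | h7
      · exact hz0 (congrArg Subtype.val h7)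
      · change 0 < PD.ord z at h7
        omega
    have hx0 : x ≠ 0 := by
      rintro rfl
      rw [zero_div] at hxz
      exact hf0 hxz
    rw [hxz, P₁.ord_div hx0 hz0, h2, sub_zero]
    exact reg_ord_nonneg h1
  subst hPeq
  have hGD : 0 ≤ G D := S.car.nonneg D hD
  have hggo : ∀ i, D.ord (gg i) = S.c * D.ord (y a) - S.wt i.castSucc * G D := fun i =>
    hggD i D hD (fun f hf => localRing_reg hf) a ha
  have hordl : ∀ i' : Fin (r + 1), PD.ord (S.l i'.castSucc) - PD.ord (S.l i.castSucc) =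
      (S.wt i'.castSucc - S.wt i.castSucc) * G D := by
    intro i'
    by_cases hi : i' = i
    · rw [hi]
      ring
    · obtain ⟨p, rfl⟩ := hixs i' hi
      have h1 := hPD'.var p
      rw [hτ1, PD.ord_div (mul_ne_zero (hl0 _) (hgL _)) (mul_ne_zero (hl0 _) (hgL _)),
        PD.ord_mul (hl0 _) (hgL _), PD.ord_mul (hl0 _) (hgL _), hPD'.base, hPD'.base, hggo,
        hggo] at h1
      linarith
  refine ⟨hD, i, g, hg0, ?_, ?_, ?_⟩
  · rw [← hτ]
    exact hτg
  · rw [← hτ]
    exact hPD'
  · intro k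
    refine Fin.lastCases ?_ (fun i' => hordl i') k
    rw [S.wtl]
    apply le_antisymm
    · -- the coefficient of weight zero
      let F : MvPolynomial (Fin r) K := 1 + ∑ p, C (g p)⁻¹ * X p
      have hFe : aeval τ F = - (S.l (Fin.last (r + 1)) / S.l i.castSucc) := by
        have h1 := S.sys.one_add (sA i)
        rw [sA_last, sA_zero] at h1
        rw [← h1]
        change aeval τ (1 + ∑ p, C (g p)⁻¹ * X p) = _
        rw [map_add, map_one, map_sum]
        congr 1
        refine Finset.sum_congr rfl fun p _ => ?_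
        rw [map_mul, aeval_C, aeval_X, hτ]
        change algebraMap K L (g p)⁻¹ * (ts S.l (sA i) p * algebraMap K L (g p)) = _
        rw [mul_comm, mul_assoc, ← map_mul, mul_inv_cancel₀ (hg0 p), map_one, mul_one]
      have hF0 : F ≠ 0 := by
        intro h1
        rw [h1, map_zero] at hFe
        exact div_ne_zero (hl0 (Fin.last (r + 1))) (hl0 i.castSucc) (neg_eq_zero.1 hFe.symm)
      have hordF : PD.ord (aeval τ F) = PD.ord (S.l (Fin.last (r + 1))) -
          PD.ord (S.l i.castSucc) := by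
        rw [hFe, PD.ord_neg, PD.ord_div (hl0 _) (hl0 _)]
      rw [← hordF]
      have hle := (hPD'.le_iff hF0 (m := PD.ord (aeval τ F))).1 le_rfl
      by_cases hi : i = 0
      · have hc : F.coeff 0 = 1 := by
          change (1 + ∑ p, C (g p)⁻¹ * X p : MvPolynomial (Fin r) K).coeff 0 = 1
          rw [coeff_add, coeff_sum, coeff_zero_one]
          simp
        have h1 := hle 0 (by rw [mem_support_iff, hc]; exact one_ne_zero)
        rw [hc, D.ord_one] at h1
        rw [hi, Fin.castSucc_zero, S.wt0]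
        linarith
      · obtain ⟨p, hp⟩ := hixs 0 (Ne.symm hi)
        have hc : F.coeff (Finsupp.single p 1) = (g p)⁻¹ := by
          change (1 + ∑ p, C (g p)⁻¹ * X p : MvPolynomial (Fin r) K).coeff _ = _
          rw [coeff_add, coeff_sum, coeff_one, if_neg (by
            intro h1
            have := Finsupp.single_eq_zero.1 h1.symm
            exact one_ne_zero this), zero_add, Finset.sum_eq_single p]
          · rw [coeff_C_mul, coeff_X, if_pos rfl, mul_one]
          · intro p' _ hp'
            rw [coeff_C_mul, coeff_X, if_neg, mul_zero]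
            intro h1
            exact hp' (Finsupp.single_left_injective one_ne_zero h1)
          · intro h1
            exact absurd (Finset.mem_univ p) h1
        have h1 := hle (Finsupp.single p 1) (by
          rw [mem_support_iff, hc]
          exact inv_ne_zero (hg0 p))
        rw [hc, D.ord_inv, hg, D.ord_div (hgg0 _) (hgg0 _), hggo, hggo, hp, Fin.castSucc_zero,
          S.wt0] at h1
        linarith
    · have h1 : ∀ i' : Fin (r + 1), PD.ord (S.l i.castSucc) + (0 - S.wt i.castSucc) * G D ≤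
          PD.ord (S.l i'.castSucc) := by
        intro i'
        have h2 := hordl i'
        have h3 : 0 ≤ S.wt i'.castSucc * G D := by
          rcases S.wt01 i'.castSucc with h4 | h4
          · rw [h4]
            simp
          · rw [h4, one_mul]
            exact hGD
        linarith
      have h2 : S.l (Fin.last (r + 1)) = - ∑ i' : Fin (r + 1), S.l i'.castSucc := by
        have := S.sys.sum
        rw [Fin.sum_univ_castSucc, add_comm] at this
        exact eq_neg_of_add_eq_zero_left this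
      have h3 : Ge PD (PD.ord (S.l i.castSucc) + (0 - S.wt i.castSucc) * G D)
          (S.l (Fin.last (r + 1))) := by
        rw [h2]
        exact Ge.neg (Ge.sum _ _ fun i' _ => Or.inr (h1 i'))
      have := h3.resolve_left (hl0 _)
      linarith

end

end Pool.Agent.H890
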