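import Pool.Agent.H890.Mld9

/-!
Rings of polynomials with coefficients in the sheaves of a Weil divisor.
-/

set_option autoImplicit false
set_option linter.unusedSectionVars false
set_option linter.overlappingInstances false

open FF MvPolynomial Pool.Agent.W602.GT Pool.Agent.W603.LV Pool.Agent.W619.PQ Pool.Agent.Y172
  Pool.Agent.TH122.AB Pool.Agent.R887

namespace Pool.Agent.H890

section

variable {K L : Type} [Field K] [Field L] [Algebra ℂ K] [Algebra ℂ L] [Algebra K L]
  [IsScalarTower ℂ K L] {N : ℕ} {y : Fin (N + 1) → K} {r : ℕ}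

/-- the weight of an exponent -/
def wd (a : Fin r → ℕ) (α : Fin r →₀ ℕ) : ℤ := ∑ p, (α p : ℤ) * a p

theorem wd_add (a : Fin r → ℕ) (α β : Fin r →₀ ℕ) : wd a (α + β) = wd a α + wd a β := by
  unfold wd
  rw [← Finset.sum_add_distrib]
  refine Finset.sum_congr rfl fun p _ => ?_
  rw [Finsupp.add_apply]
  push_cast
  ring

theorem wd_zero (a : Fin r → ℕ) : wd a 0 = 0 := by
  unfold wd
  simp

theorem wd_nonneg (a : Fin r → ℕ) (α : Fin r →₀ ℕ) : 0 ≤ wd a α :=
  Finset.sum_nonneg fun _ _ => mul_nonneg (Int.natCast_nonneg _) (Int.natCast_nonneg _)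

/-- near the centre of `Q` the divisor `I G` is the divisor of `g` -/
structure WD (y : Fin (N + 1) → K) (G : Place ℂ K → ℤ) (Q : Place ℂ K) (I : ℕ) (g : K) :
    Prop where
  pos : 0 < I
  ne : g ≠ 0
  nonneg : ∀ D, IsPrimeDivisor y D → 0 ≤ G D
  eq : ∀ D, IsPrimeDivisor y D → Through y D Q → D.ord g = I * G D

theorem WD.of_through {G : Place ℂ K → ℤ} {Q Q' : Place ℂ K} {I : ℕ} {g : K}
    (h : WD y G Q I g) (hT : Through y Q' Q) : WD y G Q' I g :=
  ⟨h.pos, h.ne, h.nonneg, fun D hD hDQ => h.eq D hD (through_tr hT hDQ)⟩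

/-- the polynomials in `t` such that the coefficient of `t ^ α` is a section of `- |α| G` near the
centre of `Q`, where `|α|` is the weight of `α` -/
def WR (y : Fin (N + 1) → K) (G : Place ℂ K → ℤ) (Q : Place ℂ K) (a : Fin r → ℕ)
    (t : Fin r → L) : Subalgebra ℂ L where
  carrier := {x | ∃ F : MvPolynomial (Fin r) K, aeval t F = x ∧
    ∀ α D, IsPrimeDivisor y D → Through y D Q → Ge D (wd a α * G D) (F.coeff α)}
  mul_mem' := by
    classical
    rintro _ _ ⟨F, rfl, hF⟩ ⟨F', rfl, hF'⟩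
    refine ⟨F * F', by rw [map_mul], fun α D hD hDQ => ?_⟩
    rw [coeff_mul]
    refine Ge.sum _ _ fun x hx => ?_
    have h1 := (hF x.1 D hD hDQ).mul (hF' x.2 D hD hDQ)
    rw [← add_mul, ← wd_add, Finset.HasAntidiagonal.mem_antidiagonal.1 hx] at h1
    exact h1
  add_mem' := by
    rintro _ _ ⟨F, rfl, hF⟩ ⟨F', rfl, hF'⟩
    refine ⟨F + F', by rw [map_add], fun α D hD hDQ => ?_⟩
    rw [coeff_add]
    exact (hF α D hD hDQ).add (hF' α D hD hDQ)
  algebraMap_mem' := by
    classical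
    intro c
    refine ⟨C (algebraMap ℂ K c), by rw [aeval_C, ← IsScalarTower.algebraMap_apply],
      fun α D hD hDQ => ?_⟩
    rw [coeff_C]
    split_ifs with h
    · rw [← h, wd_zero, zero_mul]
      exact D.reg_const c
    · exact Ge.zero

variable {G : Place ℂ K → ℤ} {Q : Place ℂ K} {a : Fin r → ℕ} {t : Fin r → L}

theorem mem_WR {x : L} : x ∈ WR y G Q a t ↔ ∃ F : MvPolynomial (Fin r) K, aeval t F = x ∧
    ∀ α D, IsPrimeDivisor y D → Through y D Q → Ge D (wd a α * G D) (F.coeff α) := Iff.rfl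

theorem WR_mono {Q' : Place ℂ K} (hT : Through y Q' Q) : WR y G Q a t ≤ WR y G Q' a t := by
  rintro x ⟨F, hF, h⟩
  exact ⟨F, hF, fun α D hD hDQ => h α D hD (through_tr hT hDQ)⟩

theorem WR_base {c : K} (hc : c ∈ lsub y Q) : algebraMap K L c ∈ WR y G Q a t := by
  classical
  refine ⟨C c, by rw [aeval_C], fun α D hD hDQ => ?_⟩
  rw [coeff_C]
  split_ifs with h
  · rw [← h, wd_zero, zero_mul]
    exact hc D hD hDQ
  · exact Ge.zero

/-- monomials -/
theorem WR_mono_mem {I : ℕ} {g : K} (hw : WD y G Q I g) (p : Fin r) {m k : ℕ}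
    (hmk : m * a p ≤ I * k) : algebraMap K L (g ^ k) * t p ^ m ∈ WR y G Q a t := by
  classical
  refine ⟨monomial (Finsupp.single p m) (g ^ k), ?_, fun α D hD hDQ => ?_⟩
  · rw [aeval_monomial, Finsupp.prod_single_index (h := fun i k => t i ^ k) (pow_zero _)]
  · rw [coeff_monomial]
    split_ifs with h
    · right
      rw [← h, D.ord_pow, hw.eq D hD hDQ]
      have h1 : wd a (Finsupp.single p m) = m * a p := by
        unfold wd
        rw [Finset.sum_eq_single p]
        · rw [Finsupp.single_eq_same]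
        · intro p' _ hp'
          rw [Finsupp.single_eq_of_ne hp']
          simp
        · intro h2
          exact absurd (Finset.mem_univ p) h2
      rw [h1]
      have h2 := hw.nonneg D hD
      have h3 : ((m * a p : ℕ) : ℤ) ≤ ((I * k : ℕ) : ℤ) := by exact_mod_cast hmk
      push_cast at h3
      nlinarith
    · exact Ge.zero

end

section

variable {K L M : Type} [Field K] [Field L] [Field M] [Algebra ℂ K] [Algebra ℂ L]
  [Algebra ℂ M] [Algebra K L] [Algebra L M] [Algebra K M] [IsScalarTower ℂ K L]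
  [IsScalarTower ℂ L M] [IsScalarTower ℂ K M] [IsScalarTower K L M]
  {N : ℕ} {y : Fin (N + 1) → K} {r : ℕ} {G : Place ℂ K → ℤ} {Q : Place ℂ K} {I : ℕ} {g : K}
  {a : Fin r → ℕ} {t : Fin r → L}

/-- the place `P` is regular on the ring (`c = 0`), and the variables vanish at its centre
(`c = 1`) -/
structure GW (y : Fin (N + 1) → K) (Q : Place ℂ K) (I : ℕ) (g : K) (a : Fin r → ℕ)
    (t : Fin r → L) (c : ℤ) (P : Place ℂ M) : Prop where
  reg : ∀ x ∈ lsub y Q, P.Reg (algebraMap K M x)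
  var : ∀ p, c ≤ I * P.ord (algebraMap L M (t p)) + a p * P.ord (algebraMap K M g)

/-- the order of a term: `I ord (f t ^ α) = ord (f ^ I / g ^ |α|) + ∑ α p (I ord (t p) + a p ord g)` -/
theorem term_eq (ht : ∀ p, t p ≠ 0) (hg : g ≠ 0) (P : Place ℂ M) {f : K} (hf : f ≠ 0)
    (α : Fin r →₀ ℕ) : (I : ℤ) * P.ord (algebraMap K M f * ∏ p, algebraMap L M (t p) ^ α p) =
      P.ord (algebraMap K M (f ^ I * g ^ (-wd a α))) +
        ∑ p, (α p : ℤ) * (I * P.ord (algebraMap L M (t p)) + a p * P.ord (algebraMap K M g)) := by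
  have hfM : algebraMap K M f ≠ 0 := by rwa [Ne, map_eq_zero]
  have hgM : algebraMap K M g ≠ 0 := by rwa [Ne, map_eq_zero]
  have htM : ∀ p, algebraMap L M (t p) ^ α p ≠ 0 := fun p => pow_ne_zero _ (by
    rw [Ne, map_eq_zero]
    exact ht p)
  rw [P.ord_mul hfM (Finset.prod_ne_zero_iff.2 fun p _ => htM p), ord_prod' P _ _ fun p _ => htM p,
    map_mul, map_pow, map_zpow₀, P.ord_mul (pow_ne_zero _ hfM) (zpow_ne_zero _ hgM), P.ord_pow,
    P.ord_zpow]
  simp only [P.ord_pow]
  have h1 : ∑ p, (α p : ℤ) * (I * P.ord (algebraMap L M (t p)) + a p * P.ord (algebraMap K M g)) =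
      I * (∑ p, (α p : ℤ) * P.ord (algebraMap L M (t p))) + wd a α * P.ord (algebraMap K M g) := by
    unfold wd
    rw [Finset.mul_sum, Finset.sum_mul, ← Finset.sum_add_distrib]
    refine Finset.sum_congr rfl fun p _ => ?_
    ring
  rw [h1]
  ring

/-- the quotient in `term_eq` belongs to the local ring -/
theorem term_mem (hw : WD y G Q I g) {f : K} (hf : f ≠ 0) {α : Fin r →₀ ℕ}
    (h : ∀ D, IsPrimeDivisor y D → Through y D Q → Ge D (wd a α * G D) f) :
    f ^ I * g ^ (-wd a α) ∈ lsub y Q := by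
  intro D hD hDQ
  right
  have h1 := (h D hD hDQ).resolve_left hf
  rw [D.ord_mul (pow_ne_zero _ hf) (zpow_ne_zero _ hw.ne), D.ord_pow, D.ord_zpow,
    hw.eq D hD hDQ]
  have h2 : (0 : ℤ) ≤ I := Int.natCast_nonneg _
  nlinarith

/-- the elements of the ring are regular -/
theorem GW.ring (ht : ∀ p, t p ≠ 0) (hw : WD y G Q I g) {P : Place ℂ M}
    (hP : GW y Q I g a t 0 P) {x : L} (hx : x ∈ WR y G Q a t) : P.Reg (algebraMap L M x) := by
  obtain ⟨F, rfl, hF⟩ := hx
  rw [aeval_def, eval₂_eq', map_sum]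
  refine Ge.sum (P := P) (N := 0) _ _ fun α hα => ?_
  have hf : F.coeff α ≠ 0 := mem_support_iff.1 hα
  right
  have h1 := term_eq (I := I) (a := a) ht hw.ne P hf α
  have h2 := reg_ord_nonneg (hP.reg _ (term_mem hw hf (hF α)))
  have h3 : 0 ≤ ∑ p, (α p : ℤ) * (I * P.ord (algebraMap L M (t p)) +
      a p * P.ord (algebraMap K M g)) :=
    Finset.sum_nonneg fun p _ => mul_nonneg (Int.natCast_nonneg _) (hP.var p)
  have h4 : (0 : ℤ) < I := by exact_mod_cast hw.pos
  rw [map_mul, ← IsScalarTower.algebraMap_apply, map_prod]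
  simp only [map_pow]
  by_contra h5
  push Not at h5
  nlinarith

end

/-- the variety `V` near the point `p`: in the chart `j₀` it is the integral closure of a subring of
`WR` in `M` -/
structure WV {K L M : Type} [Field K] [Field L] [Field M] [Algebra ℂ K] [Algebra ℂ L]
    [Algebra ℂ M] [Algebra K L] [Algebra L M] [Algebra K M] [IsScalarTower ℂ K L]
    [IsScalarTower ℂ L M] {N N' r : ℕ} (y : Fin (N + 1) → K) (G : Place ℂ K → ℤ) (Q : Place ℂ K)
    (I : ℕ) (g : K) (a : Fin r → ℕ) (t : Fin r → L) (v : Fin (N' + 1) → M) (j₀ : Fin (N' + 1)) :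
    Prop where
  nv : NormalModel v
  ne : v j₀ ≠ 0
  base : ∃ j, Centred y j Q ∧ ∀ x ∈ chart y j, algebraMap K M x ∈ chart v j₀
  var : ∀ p, algebraMap K M (g ^ a p) * algebraMap L M (t p) ^ I ∈ chart v j₀
  int : ∀ x ∈ chart v j₀, IsIntegral (WR y G Q a t) x

end Pool.Agent.H890
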