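import Pool.Agent.H890.Wl0

set_option autoImplicit false
set_option linter.unusedSectionVars false
set_option linter.overlappingInstances false

open FF MvPolynomial IsLocalRing Pool.Agent.W602.GT Pool.Agent.W603.LV Pool.Agent.W619.PQ
  Pool.Agent.Y172 Pool.Agent.TH122.AB Pool.Agent.R887

namespace Pool.Agent.H890

section

variable {K L : Type} [Field K] [Field L] [Algebra ℂ K] [Algebra ℂ L] [Algebra K L]
  [IsScalarTower ℂ K L] {N : ℕ} {y : Fin (N + 1) → K} {r : ℕ} {G : Place ℂ K → ℤ}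
  {Q : Place ℂ K} {a : Fin r → ℕ} {t : Fin r → L}

theorem wt_wd (D : Place ℂ K) (m : ℤ) (c : K) (α : Fin r →₀ ℕ) :
    wt D 1 (fun p => -((a p : ℤ) * m)) c α = D.ord c - wd a α * m := by
  unfold wt wd
  rw [Finset.sum_mul, Nat.cast_one, one_mul, sub_eq_add_neg, ← Finset.sum_neg_distrib]
  refine congrArg (D.ord c + ·) (Finset.sum_congr rfl fun p _ => ?_)
  ring

/-- The ring `WR` is integrally closed in `L`. -/
theorem WR_closed (ht : Gens (k := K) t) {x : L} (hx : IsIntegral (WR y G Q a t) x) :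
    x ∈ WR y G Q a t := by
  classical
  have hle : WR y G Q a t ≤ RR (⊤ : Subalgebra ℂ K) t := by
    rintro z ⟨F, hF, -⟩
    exact mem_RR_top.2 ⟨F, hF⟩
  obtain ⟨F, hF⟩ := mem_RR_top.1 (RR_closed ht ci_top (int_mono (M := L) hle hx))
  refine ⟨F, hF, fun α D hD hDQ => ?_⟩
  obtain ⟨P, hP⟩ := exists_gauss ht D (fun p => -((a p : ℤ) * G D))
  have h1 : ∀ z ∈ WR y G Q a t, algebraMap L L z ∈ P.O := by
    intro z hz
    obtain ⟨F', rfl, hF'⟩ := hz
    change P.Reg (aeval t F')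
    by_cases h0 : F' = 0
    · rw [h0, map_zero]
      exact P.reg_zero
    · right
      rw [hP F' h0, le_mval h0]
      intro β hβ
      rw [wt_wd]
      have h2 := (hF' β D hD hDQ).resolve_left (mem_support_iff.1 hβ)
      omega
  have h2 : P.Reg x := int_mem (M := L) h1 hx
  by_cases hα : F.coeff α = 0
  · exact Or.inl hα
  have hF0 : F ≠ 0 := by
    rintro rfl
    exact hα (coeff_zero _)
  rw [← hF, P.reg_iff (ht.ne hF0), hP F hF0, le_mval hF0] at h2
  have h3 := h2 α (mem_support_iff.2 hα)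
  rw [wt_wd] at h3
  right
  omega

/-- multiples of a polynomial which belong to the ring -/
theorem WR_den (hy : NormalModel y) {I : ℕ} {g : K} (hw : WD y G Q I g)
    (F : MvPolynomial (Fin r) K) : ∃ c : K, c ≠ 0 ∧ algebraMap K L c ∈ WR y G Q a t ∧
      algebraMap K L c * aeval t F ∈ WR y G Q a t := by
  classical
  obtain ⟨b, hb, hb0, hbF⟩ := common_den (lsub_ci hy Q).frac F
  obtain ⟨m, hm⟩ : ∃ m : ℕ, ∀ α ∈ F.support, wd a α ≤ m := by
    refine ⟨F.support.sup (fun α => (wd a α).toNat), fun α hα => ?_⟩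
    refine (Int.self_le_toNat _).trans ?_
    exact_mod_cast Finset.le_sup (f := fun α => (wd a α).toNat) hα
  have hI : (1 : ℤ) ≤ I := by exact_mod_cast hw.pos
  have hg : g ∈ lsub y Q := by
    intro D hD hDQ
    right
    rw [hw.eq D hD hDQ]
    exact mul_nonneg (by linarith) (hw.nonneg D hD)
  refine ⟨b * g ^ m, mul_ne_zero hb0 (pow_ne_zero _ hw.ne),
    WR_base ((lsub y Q).mul_mem hb ((lsub y Q).pow_mem hg m)), C (b * g ^ m) * F,
    by rw [map_mul, aeval_C], fun α D hD hDQ => ?_⟩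
  rw [coeff_C_mul]
  by_cases hα : α ∈ F.support
  · have h1 : Ge D 0 (b * F.coeff α) := hbF α D hD hDQ
    have h2 : Ge D (m * (I * G D)) (g ^ m) := by
      right
      rw [D.ord_pow, hw.eq D hD hDQ]
    have h3 := h1.mul h2
    rw [zero_add] at h3
    have h4 : b * g ^ m * F.coeff α = b * F.coeff α * g ^ m := by ring
    rw [h4]
    refine h3.mono ?_
    have h5 := hw.nonneg D hD
    have h6 := hm α hα
    have h7 : wd a α * G D ≤ m * G D := mul_le_mul_of_nonneg_right h6 h5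
    have h8 : (0 : ℤ) ≤ m * G D := mul_nonneg (Int.natCast_nonneg _) h5
    nlinarith
  · rw [notMem_support_iff.1 hα, mul_zero]
    exact Ge.zero

/-- The fraction field of `WR` is `L`. -/
theorem WR_div (hy : NormalModel y) (ht : Gens (k := K) t) {I : ℕ} {g : K}
    (hw : WD y G Q I g) (x : L) :
    ∃ b ∈ WR y G Q a t, ∃ c ∈ WR y G Q a t, c ≠ 0 ∧ x = b / c := by
  obtain ⟨F, F', hF', rfl⟩ := ht.gen x
  obtain ⟨c, hc0, hc, hcF⟩ := WR_den (a := a) (t := t) hy hw F
  obtain ⟨d, hd0, hd, hdF⟩ := WR_den (a := a) (t := t) hy hw F'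
  have hc' : algebraMap K L c ≠ 0 := by rwa [Ne, map_eq_zero]
  have hd' : algebraMap K L d ≠ 0 := by rwa [Ne, map_eq_zero]
  refine ⟨_, (WR y G Q a t).mul_mem hd hcF, _, (WR y G Q a t).mul_mem hc hdF,
    mul_ne_zero hc' (mul_ne_zero hd' (ht.ne hF')), ?_⟩
  have h1 := ht.ne hF'
  field_simp

theorem WR_frac (hy : NormalModel y) (ht : Gens (k := K) t) {I : ℕ} {g : K}
    (hw : WD y G Q I g) : IsFractionRing (WR y G Q a t) L := by
  refine IsFractionRing.of_field _ L fun z => ?_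
  obtain ⟨b, hb, c, hc, -, h⟩ := WR_div (a := a) hy ht hw z
  exact ⟨⟨b, hb⟩, ⟨c, hc⟩, h⟩

theorem WR_normal (hy : NormalModel y) (ht : Gens (k := K) t) {I : ℕ} {g : K}
    (hw : WD y G Q I g) : IsIntegrallyClosed (WR y G Q a t) := by
  have := WR_frac (a := a) hy ht hw
  rw [isIntegrallyClosed_iff L]
  intro x hx
  exact ⟨⟨x, WR_closed ht hx⟩, rfl⟩

end

end Pool.Agent.H890
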