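import Pool.Agent.H890.Wl1

set_option autoImplicit false
set_option linter.unusedSectionVars false
set_option linter.overlappingInstances false

open FF MvPolynomial IsLocalRing Pool.Agent.W602.GT Pool.Agent.W603.LV Pool.Agent.W619.PQ
  Pool.Agent.Y172 Pool.Agent.TH122.AB Pool.Agent.R887

namespace Pool.Agent.H890

/-- The value of an element of `WR` at the places with centre on the section.

PROOF. `x = aeval t F`, `κ = F.coeff 0`, in `lsub y Q` because `wd a 0 = 0`. `x - κ` is the sum of the
terms with `α ≠ 0`: by `term_eq`, `term_mem` (nonnegative first summand) and `hP.var`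
(`1 ≤ ..`, so the second sum is at least `1` for `α ≠ 0`) each of them has `Ge P 1` (compare `GW.ring`). -/
theorem WR_val {K L M : Type} [Field K] [Field L] [Field M] [Algebra ℂ K] [Algebra ℂ L]
    [Algebra ℂ M] [Algebra K L] [Algebra L M] [Algebra K M] [IsScalarTower ℂ K L]
    [IsScalarTower ℂ L M] [IsScalarTower ℂ K M] [IsScalarTower K L M]
    {N : ℕ} {y : Fin (N + 1) → K} {r : ℕ} {G : Place ℂ K → ℤ} {Q : Place ℂ K} {I : ℕ} {g : K}
    {a : Fin r → ℕ} {t : Fin r → L} (ht : ∀ p, t p ≠ 0) (hw : WD y G Q I g)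
    {F : MvPolynomial (Fin r) K}
    (hF : ∀ α D, IsPrimeDivisor y D → Through y D Q → Ge D (wd a α * G D) (F.coeff α)) :
    F.coeff 0 ∈ lsub y Q ∧ ∀ P : Place ℂ M, GW y Q I g a t 1 P →
      Ge P 1 (algebraMap L M (aeval t F) - algebraMap K M (F.coeff 0)) := by
  classical
  constructor
  · intro D hD hDQ
    have h := hF 0 D hD hDQ
    rw [wd_zero, zero_mul] at h
    exact h
  · intro P hP
    obtain ⟨F', hF'⟩ : ∃ F' : MvPolynomial (Fin r) K, F' = F - C (F.coeff 0) := ⟨_, rfl⟩
    have hc0 : F'.coeff 0 = 0 := by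
      rw [hF', coeff_sub, coeff_C, if_pos rfl, sub_self]
    have hc : ∀ α : Fin r →₀ ℕ, α ≠ 0 → F'.coeff α = F.coeff α := by
      intro α hα
      rw [hF', coeff_sub, coeff_C, if_neg (Ne.symm hα), sub_zero]
    have e1 : algebraMap L M (aeval t F) - algebraMap K M (F.coeff 0) =
        algebraMap L M (aeval t F') := by
      rw [hF', map_sub, map_sub, aeval_C, ← IsScalarTower.algebraMap_apply]
    rw [e1, aeval_def, eval₂_eq', map_sum]
    refine Ge.sum (P := P) (N := 1) _ _ fun α hα => ?_
    have hf : F'.coeff α ≠ 0 := mem_support_iff.1 hα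
    have hα0 : α ≠ 0 := by
      rintro rfl
      exact hf hc0
    right
    have h1 := term_eq (I := I) (a := a) ht hw.ne P hf α
    have h2 := reg_ord_nonneg (hP.reg _ (term_mem (α := α) hw hf (by
      rw [hc α hα0]
      exact hF α)))
    have h3 : 1 ≤ ∑ p, (α p : ℤ) * (I * P.ord (algebraMap L M (t p)) +
        a p * P.ord (algebraMap K M g)) := by
      obtain ⟨p, hp⟩ : ∃ p, α p ≠ 0 := by
        by_contra h
        push Not at h
        exact hα0 (Finsupp.ext h)
      have h4 : (1 : ℤ) ≤ (α p : ℤ) * (I * P.ord (algebraMap L M (t p)) +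
          a p * P.ord (algebraMap K M g)) := by
        have h5 : (1 : ℤ) ≤ α p := by
          have := Nat.one_le_iff_ne_zero.2 hp
          exact_mod_cast this
        have h6 := hP.var p
        nlinarith
      refine h4.trans (Finset.single_le_sum (f := fun p => (α p : ℤ) *
        (I * P.ord (algebraMap L M (t p)) + a p * P.ord (algebraMap K M g)))
        (fun q _ => mul_nonneg (Int.natCast_nonneg _) ?_) (Finset.mem_univ p))
      have := hP.var q
      linarith
    have h4 : (0 : ℤ) < I := by exact_mod_cast hw.pos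
    rw [map_mul, ← IsScalarTower.algebraMap_apply, map_prod]
    simp only [map_pow]
    by_contra h5
    push Not at h5
    nlinarith

/-- **Residues of integral elements.** This is `kum_res` (CaKr.lean) for the ring `WR`
instead of `RR A t`.

PROOF. Follow the proof of `kum_res`: `kres_cmp (WR y G Q a t) hN hz hφ0 htop hfin hb` gives the
components `s i`, `N * b = ∑ s i * z ^ i`, with `s i * z ^ i` integral over `WR`. For `i = 0`, `s 0 ∈ WR`
(`isIntegral_algebraMap_iff`, `WR_closed`), residue by `WR_val`. For `0 < i < N`, `s i ≠ 0`: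
`s i ^ N * φ ^ i` is in `WR`, equal to `aeval t F`; `v.ord (aeval t F) ≠ 0` as in `kum_res`, so
`X p₀ ∣ F` (`hv`), so `F.coeff 0 = 0`, so by `WR_val` `Ge P 1 ((s i * z ^ i) ^ N)` and hence
`Ge P 1 (s i * z ^ i)`. Sum up (the residue `κ` of the sum is `(s 0)`'s residue; divide by `N`, a
constant in `lsub y Q`); everything for all `P` with `GW y Q I g a t 1 P`. -/
theorem wr_res {K L M : Type} [Field K] [Field L] [Field M] [Algebra ℂ K] [Algebra ℂ L]
    [Algebra ℂ M] [Algebra K L] [Algebra L M] [Algebra K M] [IsScalarTower ℂ K L]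
    [IsScalarTower ℂ L M] [IsScalarTower ℂ K M] [IsScalarTower K L M] [FiniteDimensional L M]
    {N₀ : ℕ} {y : Fin (N₀ + 1) → K} {r : ℕ} {G : Place ℂ K → ℤ} {Q : Place ℂ K} {I : ℕ} {g : K}
    {a : Fin r → ℕ} {t : Fin r → L} (ht : Gens (k := K) t) (hw : WD y G Q I g) {N : ℕ}
    (hN : 0 < N) {z : M} {φ : L} (hz : z ^ N = algebraMap L M φ)
    (hφ0 : φ ≠ 0) (htop : IntermediateField.adjoin L {z} = ⊤) (hfin : Module.finrank L M = N)
    {p₀ : Fin r} {v : Place K L} (hv : ∀ F : MvPolynomial (Fin r) K, F ≠ 0 → ¬ (X p₀ ∣ F) →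
      v.ord (aeval t F) = 0) (hvφ : v.ord φ = 1 ∨ v.ord φ = -1) {b : M}
    (hb : IsIntegral (WR y G Q a t) b) :
    ∃ κ ∈ lsub y Q, ∀ P : Place ℂ M, GW y Q I g a t 1 P → Ge P 1 (b - algebraMap K M κ) := by
  classical
  have hM0 : CharZero M := charZero_of_injective_algebraMap (algebraMap ℂ M).injective
  have hN' : (N : M) ≠ 0 := Nat.cast_ne_zero.2 hN.ne'
  have hz0 : z ≠ 0 := by
    rintro rfl
    rw [zero_pow hN.ne'] at hz
    exact hφ0 ((map_eq_zero _).1 hz.symm)
  have ht0 : ∀ p, t p ≠ 0 := by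
    intro p
    have h := ht.ne (X_ne_zero (R := K) p)
    rwa [aeval_X] at h
  obtain ⟨s, hs1, hs2⟩ := kres_cmp (WR y G Q a t) hN hz hφ0 htop hfin hb
  -- all components have residues
  have hcomp : ∀ i < N, ∃ κ ∈ lsub y Q, ∀ P : Place ℂ M, GW y Q I g a t 1 P →
      Ge P 1 (algebraMap L M (s i) * z ^ i - algebraMap K M κ) := by
    intro i hi
    have hint := hs2 i hi
    rcases Nat.eq_zero_or_pos i with rfl | hi0
    · rw [pow_zero, mul_one] at hint
      have h1 : IsIntegral (WR y G Q a t) (s 0) :=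
        (isIntegral_algebraMap_iff (algebraMap L M).injective).1 hint
      obtain ⟨F, hF1, hF2⟩ := mem_WR.1 (WR_closed ht h1)
      obtain ⟨k1, k2⟩ := WR_val (M := M) (a := a) ht0 hw hF2
      refine ⟨F.coeff 0, k1, fun P hP => ?_⟩
      have h2 := k2 P hP
      rw [hF1] at h2
      rw [pow_zero, mul_one]
      exact h2
    · refine ⟨0, (lsub y Q).zero_mem, fun P hP => ?_⟩
      rw [map_zero, sub_zero]
      by_cases hs0 : s i = 0
      · rw [hs0, map_zero, zero_mul]
        exact Ge.zero
      · have hu0 : algebraMap L M (s i) * z ^ i ≠ 0 :=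
          mul_ne_zero (by rwa [Ne, map_eq_zero]) (pow_ne_zero _ hz0)
        have h1 : (algebraMap L M (s i) * z ^ i) ^ N = algebraMap L M (s i ^ N * φ ^ i) := by
          rw [mul_pow, ← pow_mul, mul_comm i N, pow_mul, hz, map_mul, map_pow, map_pow]
        have h2 : IsIntegral (WR y G Q a t) (s i ^ N * φ ^ i) := by
          refine (isIntegral_algebraMap_iff (algebraMap L M).injective).1 ?_
          rw [← h1]
          exact hint.pow N
        obtain ⟨F, hF2, hF1⟩ := mem_WR.1 (WR_closed ht h2)
        have h3 : s i ^ N * φ ^ i ≠ 0 := mul_ne_zero (pow_ne_zero _ hs0) (pow_ne_zero _ hφ0)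
        have hF0 : F ≠ 0 := by
          rintro rfl
          rw [map_zero] at hF2
          exact h3 hF2.symm
        have h4 : v.ord (aeval t F) ≠ 0 := by
          rw [hF2, v.ord_mul (pow_ne_zero _ hs0) (pow_ne_zero _ hφ0), v.ord_pow, v.ord_pow]
          intro h5
          have h6 : (N : ℤ) ∣ (i : ℤ) := by
            rcases hvφ with h | h
            · rw [h] at h5
              exact ⟨-v.ord (s i), by linarith⟩
            · rw [h] at h5
              exact ⟨v.ord (s i), by linarith⟩
          have h7 := Int.le_of_dvd (by exact_mod_cast hi0) h6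
          omega
        have h5 : X p₀ ∣ F := by
          by_contra h6
          exact h4 (hv F hF0 h6)
        have h6 : F.coeff 0 = 0 := by
          obtain ⟨F'', rfl⟩ := h5
          rw [← constantCoeff_eq, map_mul, constantCoeff_X, zero_mul]
        have h7 := (WR_val (M := M) (a := a) ht0 hw hF1).2 P hP
        rw [h6, map_zero, sub_zero] at h7
        have h8 : Ge P 1 ((algebraMap L M (s i) * z ^ i) ^ N) := by
          rw [h1, ← hF2]
          exact h7
        right
        have h9 := h8.resolve_left (pow_ne_zero _ hu0)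
        rw [P.ord_pow] at h9
        by_contra h10
        push Not at h10
        have h11 : P.ord (algebraMap L M (s i) * z ^ i) ≤ 0 := by omega
        have h12 : (N : ℤ) * P.ord (algebraMap L M (s i) * z ^ i) ≤ 0 :=
          mul_nonpos_of_nonneg_of_nonpos (Int.natCast_nonneg N) h11
        omega
  have hsum : ∀ m ≤ N, ∃ κ ∈ lsub y Q, ∀ P : Place ℂ M, GW y Q I g a t 1 P →
      Ge P 1 (∑ i ∈ Finset.range m, algebraMap L M (s i) * z ^ i - algebraMap K M κ) := by
    intro m
    induction m with
    | zero =>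
      intro _
      refine ⟨0, (lsub y Q).zero_mem, fun P hP => ?_⟩
      rw [Finset.sum_range_zero, map_zero, sub_zero]
      exact Ge.zero
    | succ m ih =>
      intro hm
      obtain ⟨κ, hκ, h1⟩ := ih (by omega)
      obtain ⟨κ', hκ', h2⟩ := hcomp m (by omega)
      refine ⟨κ + κ', (lsub y Q).add_mem hκ hκ', fun P hP => ?_⟩
      have h3 := (h1 P hP).add (h2 P hP)
      have h4 : ∑ i ∈ Finset.range (m + 1), algebraMap L M (s i) * z ^ i - algebraMap K M (κ + κ') =
          ∑ i ∈ Finset.range m, algebraMap L M (s i) * z ^ i - algebraMap K M κ +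
            (algebraMap L M (s m) * z ^ m - algebraMap K M κ') := by
        rw [Finset.sum_range_succ, map_add]
        ring
      rw [h4]
      exact h3
  obtain ⟨κ, hκ, h1⟩ := hsum N le_rfl
  refine ⟨algebraMap ℂ K ((N : ℂ)⁻¹) * κ, (lsub y Q).mul_mem ((lsub y Q).algebraMap_mem _) hκ,
    fun P hP => ?_⟩
  have h2 := h1 P hP
  rw [← hs1] at h2
  have h3 := (Ge.const (P := P) ((N : ℂ)⁻¹)).mul h2
  have h4 : algebraMap ℂ M ((N : ℂ)⁻¹) * ((N : M) * b - algebraMap K M κ) =
      b - algebraMap K M (algebraMap ℂ K ((N : ℂ)⁻¹) * κ) := by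
    rw [map_mul, ← IsScalarTower.algebraMap_apply ℂ K M, mul_sub, ← mul_assoc]
    congr 1
    rw [map_inv₀, map_natCast, inv_mul_cancel₀ hN', one_mul]
  rw [h4, zero_add] at h3
  exact h3

end Pool.Agent.H890
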