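import Pool.Agent.H890.Wl1

set_option autoImplicit false
set_option linter.unusedSectionVars false
set_option linter.overlappingInstances false

open FF MvPolynomial IsLocalRing Pool.Agent.W602.GT Pool.Agent.W603.LV Pool.Agent.W619.PQ
  Pool.Agent.Y172 Pool.Agent.TH122.AB Pool.Agent.R887

namespace Pool.Agent.H890

/-- twisting the coefficients -/
noncomputable def twst {K : Type} [Field K] {r : ℕ} (c : (Fin r →₀ ℕ) → K)
    (F : MvPolynomial (Fin r) K) : MvPolynomial (Fin r) K :=
  ∑ α ∈ F.support, monomial α (F.coeff α * c α)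

theorem coeff_twst {K : Type} [Field K] {r : ℕ} (c : (Fin r →₀ ℕ) → K)
    (F : MvPolynomial (Fin r) K) (β : Fin r →₀ ℕ) : (twst c F).coeff β = F.coeff β * c β := by
  classical
  unfold twst
  rw [coeff_sum]
  simp only [coeff_monomial]
  rw [Finset.sum_ite_eq']
  split_ifs with h
  · rfl
  · rw [notMem_support_iff.1 h, zero_mul]

theorem aeval_twst {K L : Type} [Field K] [Field L] [Algebra K L] {r : ℕ} {t τ : Fin r → L}
    (c : (Fin r →₀ ℕ) → K)
    (hc : ∀ α : Fin r →₀ ℕ, algebraMap K L (c α) * ∏ p, τ p ^ α p = ∏ p, t p ^ α p)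
    (F : MvPolynomial (Fin r) K) : aeval τ (twst c F) = aeval t F := by
  unfold twst
  rw [map_sum, aeval_def (R := K) t, eval₂_eq']
  refine Finset.sum_congr rfl fun α _ => ?_
  rw [aeval_monomial, map_mul, Finsupp.prod_fintype _ _ (fun i => pow_zero _), mul_assoc, hc]

theorem prod_wd {K : Type} [Field K] {r : ℕ} (a : Fin r → ℕ) (h₀ : K) (α : Fin r →₀ ℕ) :
    ∏ p, (h₀ ^ a p) ^ α p = h₀ ^ wd a α := by
  have h1 : wd a α = ((∑ p, a p * α p : ℕ) : ℤ) := by
    unfold wd
    push_cast
    exact Finset.sum_congr rfl fun p _ => mul_comm _ _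
  rw [h1, zpow_natCast, ← Finset.prod_pow_eq_pow_sum]
  exact Finset.prod_congr rfl fun p _ => (pow_mul _ _ _).symm

theorem prod_tau {K L : Type} [Field K] [Field L] [Algebra K L] {r : ℕ} (a : Fin r → ℕ) (h₀ : K)
    (t : Fin r → L) (α : Fin r →₀ ℕ) :
    ∏ p, (t p * algebraMap K L (h₀ ^ a p)) ^ α p =
      (∏ p, t p ^ α p) * algebraMap K L (h₀ ^ wd a α) := by
  rw [← prod_wd, map_prod, ← Finset.prod_mul_distrib]
  refine Finset.prod_congr rfl fun p _ => ?_
  rw [mul_pow, map_pow (algebraMap K L) (h₀ ^ a p)]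

/-- **Vertical prime divisors.** Variant of `Mod.ver` (Ver.lean) for the ring `WR`.

PROOF. Follow the proof of `Mod.ver` from the line -- the Gauss place on. Let `D` be a prime divisor
of `X` through `Q` (`exists_through hy Q`), `R = WR y G Q a t` (normal by `WR_normal`), and `PD` the
monomial place over `D` with `PD.ord (aeval t F) = mval D 1 (fun p => - a p * G D) F`
(`exists_gauss ht D _`; `wt D 1 _ c α = D.ord c - wd a α * G D`). `R` is regular at `PD` (`le_mval`,
`mem_WR`) and at `P` (`hP.ring`). `hpos`: for `c ∈ lsub y Q`, `0 < D.ord c → 0 < Q.ord c` (as in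
`Mod.ver`). Let `q = centre R PD`; `q ≠ ⊥` as in `Mod.ver` (`WR_base`). Every `x ∈ q` satisfies
`0 < P.ord x` or `x = 0`: `x = aeval t F` with `1 ≤ mval D 1 _ F`, so `wd a α * G D + 1 ≤ D.ord f` for
the coefficient `f` of `t ^ α`; by `term_eq` and `term_mem` the element `c = f ^ I * g ^ (- wd a α)` is in
`lsub y Q` with `D.ord c = I * (D.ord f - wd a α * G D) > 0`, so `Q.ord c > 0` (`hpos`),
`P.ord (algebraMap K M c) = e * Q.ord c > 0`, and the sum in `term_eq` is nonnegative by `hP.var`; so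
`P.ord` of each term is positive. By `going` (RR.lean): `x ∈ R`, `0 < P.ord x` implies `x ∈ q`.
`D = Q` as in `Mod.ver` (`IsPrimeDivisor.eq_of_centre`), with `h₀ ∈ K`, `D.ord h₀ = G D`
(`h₀ = π ^ G D`, `D.surj`). Put `τ p = t p * algebraMap K L (h₀ ^ a p)`. Then `Gens τ` (`gens_change`),
and `PD` is the Gauss place for `τ`: `IsGauss τ D PD` (for a polynomial `H`, `aeval τ H = aeval t F`
with `F.coeff α = H.coeff α * h₀ ^ (wd a α)` [`∏ p (h₀ ^ a p) ^ α p`], so
`mval D 1 _ F = mval D 1 0 H`; `F` is e.g. the image of `H` under `X p ↦ C (h₀ ^ a p) * X p`; or prove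
`PD.ord (aeval τ H) = PD.ord` by another way: let `PD'` be the Gauss place for `τ` over `D`
(`exists_gauss hτ D 0`) and USE IT INSTEAD of `PD` from the beginning; for `x = aeval t F` one has
`x = aeval τ H` with `H.coeff α = F.coeff α * h₀ ^ (- wd a α)`). `PD = P₁` as in `Mod.ver`, with
`IsGauss.rep hτ hAll`, where now elements of `RR (lsub y D) τ` belong to `R`: they are `aeval τ H`, `H`
with coefficients regular at `D`, equal to `aeval t F` with `F.coeff α = H.coeff α * h₀ ^ (wd a α)`, and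
the only prime divisor `D'` of `X` through `D` is `D` (`through_self`; if `D'` is through `D` then
`D'.Reg` on `localRing y D`, which is the valuation ring of `D`, so `D' = D` by `Place.eq_of_le`). -/
theorem wr_ver {K L M : Type} [Field K] [Field L] [Field M] [Algebra ℂ K] [Algebra ℂ L]
    [Algebra ℂ M] [Algebra K L] [Algebra L M] [Algebra K M] [IsScalarTower ℂ K L]
    [IsScalarTower ℂ L M] [IsScalarTower ℂ K M] [IsScalarTower K L M] [FiniteDimensional L M]
    {N n : ℕ} {y : Fin (N + 1) → K} {r : ℕ} {G : Place ℂ K → ℤ} {I : ℕ} {g : K}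
    {a : Fin r → ℕ} {t : Fin r → L} (hy : NormalModel y) (ht : Gens (k := K) t)
    {P : Place ℂ M} {Q : Place ℂ K} {e : ℕ} (h : Over P Q e) (hQ : Divisorial n Q)
    {P₁ : Place ℂ L} {e₁ : ℕ} (h₁ : Over P P₁ e₁) (hw : WD y G Q I g) (hP : GW y Q I g a t 0 P)
    (hloc : ∀ f, P.Reg f → ∃ b c : M, IsIntegral (WR y G Q a t) b ∧ IsIntegral (WR y G Q a t) c ∧
      c ≠ 0 ∧ P.ord c = 0 ∧ f * c = b) :
    IsPrimeDivisor y Q ∧ ∃ h₀ : K, h₀ ≠ 0 ∧ Q.ord h₀ = G Q ∧
      IsGauss (fun p => t p * algebraMap K L (h₀ ^ a p)) Q P₁ := by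
  classical
  have he : (0 : ℤ) < e := by exact_mod_cast h.1
  have he₁ : (0 : ℤ) < e₁ := by exact_mod_cast h₁.1
  obtain ⟨j, ha⟩ := exists_centred hy Q
  have ht0 : ∀ p, t p ≠ 0 := by
    intro p
    have h1 := ht.ne (X_ne_zero (R := K) p)
    rwa [aeval_X] at h1
  have hnor : IsIntegrallyClosed (WR y G Q a t) := WR_normal hy ht hw
  have hbaseQ : ∀ c ∈ lsub y Q, Q.Reg c := fun c hc => localRing_reg ((lsub_iff hy).1 hc)
  have hRreg : ∀ x ∈ WR y G Q a t, P.Reg (algebraMap L M x) := fun x hx => hP.ring ht0 hw hx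
  obtain ⟨D, hD, hDQ⟩ := exists_through hy Q
  obtain ⟨π₀, hπ₀0, hπ₀⟩ := D.surj
  obtain ⟨h₀, hh₀⟩ : ∃ h₀ : K, h₀ = π₀ ^ G D := ⟨_, rfl⟩
  have h₀0 : h₀ ≠ 0 := by
    rw [hh₀]
    exact zpow_ne_zero _ hπ₀0
  have h₀D : D.ord h₀ = G D := by rw [hh₀, D.ord_zpow, hπ₀, mul_one]
  have hcL : ∀ k : ℤ, algebraMap K L (h₀ ^ k) ≠ 0 := fun k => by
    rw [Ne, map_eq_zero]
    exact zpow_ne_zero _ h₀0
  obtain ⟨τ, hτ⟩ : ∃ τ : Fin r → L, τ = fun p => t p * algebraMap K L (h₀ ^ a p) := ⟨_, rfl⟩
  have hτp : ∀ α : Fin r →₀ ℕ, ∏ p, τ p ^ α p =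
      (∏ p, t p ^ α p) * algebraMap K L (h₀ ^ wd a α) := by
    intro α
    rw [hτ]
    exact prod_tau a h₀ t α
  have hτg : Gens (k := K) τ := by
    refine gens_change ht fun p => ?_
    have h1 : t p = τ p * algebraMap K L (h₀ ^ a p)⁻¹ := by
      rw [hτ]
      change _ = t p * algebraMap K L (h₀ ^ a p) * algebraMap K L (h₀ ^ a p)⁻¹
      rw [mul_assoc, ← map_mul, mul_inv_cancel₀ (pow_ne_zero _ h₀0), map_one, mul_one]
    rw [h1]
    exact mul_mem (IntermediateField.subset_adjoin K _ ⟨p, rfl⟩)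
      (IntermediateField.algebraMap_mem _ _)
  -- from polynomials in `t` to polynomials in `τ` and back
  have htw1 : ∀ F : MvPolynomial (Fin r) K,
      aeval τ (twst (fun α => h₀ ^ (-wd a α)) F) = aeval t F := by
    intro F
    refine aeval_twst _ (fun α => ?_) F
    rw [hτp, mul_comm, mul_assoc, ← map_mul, ← zpow_add₀ h₀0, add_neg_cancel, zpow_zero, map_one,
      mul_one]
  have htw2 : ∀ H : MvPolynomial (Fin r) K,
      aeval t (twst (fun α => h₀ ^ wd a α) H) = aeval τ H := by
    intro H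
    refine aeval_twst _ (fun α => ?_) H
    rw [hτp, mul_comm]
  obtain ⟨PD, hPD⟩ := exists_gauss hτg D 0
  have hPD' : IsGauss τ D PD := hPD
  -- the value of `PD` on `aeval t F`
  have hPDle : ∀ (F : MvPolynomial (Fin r) K), F ≠ 0 → ∀ m : ℤ,
      (m ≤ PD.ord (aeval t F) ↔ ∀ α ∈ F.support, m + wd a α * G D ≤ D.ord (F.coeff α)) := by
    intro F hF m
    have hH0 : twst (fun α => h₀ ^ (-wd a α)) F ≠ 0 := by
      intro h1
      have h2 := htw1 F
      rw [h1, map_zero] at h2
      exact ht.ne hF h2.symm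
    rw [← htw1 F, hPD'.le_iff hH0]
    constructor
    · intro h1 α hα
      have hf : F.coeff α ≠ 0 := mem_support_iff.1 hα
      have h2 := h1 α (by
        rw [mem_support_iff, coeff_twst]
        exact mul_ne_zero hf (zpow_ne_zero _ h₀0))
      rw [coeff_twst, D.ord_mul hf (zpow_ne_zero _ h₀0), D.ord_zpow, h₀D] at h2
      linarith
    · intro h1 α hα
      rw [mem_support_iff, coeff_twst] at hα
      have hf : F.coeff α ≠ 0 := left_ne_zero_of_mul hα
      have h2 := h1 α (mem_support_iff.2 hf)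
      rw [coeff_twst, D.ord_mul hf (zpow_ne_zero _ h₀0), D.ord_zpow, h₀D]
      linarith
  have hPDreg : ∀ x ∈ WR y G Q a t, PD.Reg x := by
    intro x hx
    obtain ⟨F, rfl, hF⟩ := mem_WR.1 hx
    by_cases hF0 : F = 0
    · rw [hF0, map_zero]
      exact PD.reg_zero
    · right
      rw [hPDle F hF0]
      intro α hα
      have h1 := (hF α D hD hDQ).resolve_left (mem_support_iff.1 hα)
      linarith
  have hpos : ∀ c ∈ lsub y Q, 0 < D.ord c → 0 < Q.ord c := by
    intro c hc hcD
    have h1 := reg_ord_nonneg (hbaseQ c hc)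
    by_contra h2
    have h3 : Q.ord c = 0 := by omega
    have hc0 : c ≠ 0 := by
      rintro rfl
      rw [D.ord_zero] at hcD
      exact lt_irrefl _ hcD
    have := unit_through hDQ ((lsub_iff hy).1 hc) hc0 h3
    omega
  let q : Ideal (WR y G Q a t) := centre (WR y G Q a t) PD hPDreg
  have hq : ∀ x : WR y G Q a t, x ∈ q ↔ (x = 0 ∨ 0 < PD.ord (x : L)) := fun x => mem_centre
  have hDa := hDQ.centred ha
  have hq0 : q ≠ ⊥ := by
    obtain ⟨π, hπ0, hπ⟩ := D.surj
    obtain ⟨x, hx, z, hz, hz0, hzo, hxz⟩ := (mem_localRing hDa).1 (hD π (Or.inr (by omega)))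
    have hx0 : x ≠ 0 := by
      rw [← hxz]
      exact mul_ne_zero hπ0 hz0
    have hxo : D.ord x = 1 := by rw [← hxz, D.ord_mul hπ0 hz0, hπ, hzo, add_zero]
    have hxA : x ∈ lsub y Q := (lsub_iff hy).2 (chart_localRing ha hx)
    intro h1
    have h2 : (⟨_, WR_base hxA⟩ : WR y G Q a t) ∈ q := by
      rw [hq]
      right
      change 0 < PD.ord (algebraMap K L x)
      rw [hPD'.base, hxo]
      exact one_pos
    rw [h1, Ideal.mem_bot] at h2
    have h3 : algebraMap K L x = 0 := congrArg Subtype.val h2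
    rw [map_eq_zero] at h3
    exact hx0 h3
  have hIpos : (0 : ℤ) < I := by exact_mod_cast hw.pos
  have hgoing := fun (x : WR y G Q a t) => going (M := M) (WR y G Q a t) hRreg hloc q hq0
    (fun x hx => by
      by_cases hx0 : x = 0
      · exact Or.inl hx0
      right
      have h1 := ((hq x).1 hx).resolve_left hx0
      obtain ⟨F, hFx, hF⟩ := mem_WR.1 x.2
      have hF0 : F ≠ 0 := by
        rintro rfl
        rw [map_zero] at hFx
        exact hx0 (Subtype.ext hFx.symm)
      have h2 : (1 : ℤ) ≤ PD.ord (aeval t F) := by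
        rw [hFx]
        omega
      rw [hPDle F hF0] at h2
      have h3 : Ge P 1 (algebraMap L M (x : L)) := by
        rw [← hFx, aeval_def, eval₂_eq', map_sum]
        refine Ge.sum _ _ fun α hα => ?_
        have hf : F.coeff α ≠ 0 := mem_support_iff.1 hα
        have h4 := term_eq (I := I) (a := a) ht0 hw.ne P hf α
        have hcm : F.coeff α ^ I * g ^ (-wd a α) ∈ lsub y Q := term_mem hw hf (hF α)
        have hcD : 0 < D.ord (F.coeff α ^ I * g ^ (-wd a α)) := by
          rw [D.ord_mul (pow_ne_zero _ hf) (zpow_ne_zero _ hw.ne), D.ord_pow, D.ord_zpow,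
            hw.eq D hD hDQ]
          have h5 := h2 α hα
          nlinarith
        have h6 := hpos _ hcm hcD
        have h7 : 0 < P.ord (algebraMap K M (F.coeff α ^ I * g ^ (-wd a α))) := by
          rw [h.2]
          positivity
        have h8 : 0 ≤ ∑ p, (α p : ℤ) * (I * P.ord (algebraMap L M (t p)) +
            a p * P.ord (algebraMap K M g)) :=
          Finset.sum_nonneg fun p _ => mul_nonneg (Int.natCast_nonneg _) (hP.var p)
        right
        rw [map_mul, ← IsScalarTower.algebraMap_apply, map_prod]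
        simp only [map_pow]
        by_contra h9
        push Not at h9
        nlinarith
      have h4 : algebraMap L M (x : L) ≠ 0 := by
        rw [Ne, map_eq_zero]
        exact fun h => hx0 (Subtype.ext h)
      have := h3.resolve_left h4
      omega) x
  -- `D = Q`
  have hDQeq : D = Q := by
    refine hD.eq_of_centre hDa ha ?_
    ext x
    rw [mem_centre, mem_centre]
    have hxA : (x : K) ∈ lsub y Q := (lsub_iff hy).2 (chart_localRing ha x.2)
    refine or_congr_right' fun hx0 => ?_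
    constructor
    · exact hpos _ hxA
    · intro h1
      have h2 := hgoing ⟨_, WR_base hxA⟩ (Or.inr (by
        change 0 < P.ord (algebraMap L M (algebraMap K L (x : K)))
        rw [← IsScalarTower.algebraMap_apply, h.2]
        positivity))
      rw [hq] at h2
      rcases h2 with h3 | h3
      · exfalso
        have h4 : algebraMap K L (x : K) = 0 := congrArg Subtype.val h3
        rw [map_eq_zero] at h4
        exact hx0 (Subtype.ext h4)
      · change 0 < PD.ord (algebraMap K L (x : K)) at h3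
        rwa [hPD'.base] at h3
  subst hDQeq
  have hAll : ∀ c, D.Reg c → c ∈ lsub y D := fun c hc => (lsub_iff hy).2 (hD c hc)
  have huniq : ∀ D', IsPrimeDivisor y D' → Through y D' D → D = D' := by
    intro D' _ hT
    apply Place.eq_of_le
    intro f hf0 hf
    exact reg_ord_nonneg (hT f (hD f (Or.inr hf)))
  have hRR : ∀ x ∈ RR (lsub y D) τ, x ∈ WR y G D a t := by
    intro x hx
    obtain ⟨H, hH, rfl⟩ := mem_RR.1 hx
    refine mem_WR.2 ⟨twst (fun α => h₀ ^ wd a α) H, htw2 H, fun α D' hD' hT => ?_⟩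
    rw [coeff_twst]
    obtain rfl := huniq D' hD' hT
    by_cases h1 : H.coeff α = 0
    · left
      rw [h1, zero_mul]
    · right
      have h2 := reg_ord_nonneg (hH α D hD (through_self D))
      rw [D.ord_mul h1 (zpow_ne_zero _ h₀0), D.ord_zpow, h₀D]
      linarith
  have hPeq : PD = P₁ := by
    apply Place.eq_of_le
    intro f hf0 hf
    obtain ⟨x, hx, z, hz, hz0, hzo, hxz⟩ := hPD'.rep hτg hAll (Or.inr hf : PD.Reg f)
    have h1 : P₁.Reg x := h₁.reg.1 (hRreg x (hRR x hx))
    have h2 : P₁.ord z = 0 := by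
      have h3 := reg_ord_nonneg (h₁.reg.1 (hRreg z (hRR z hz)))
      by_contra h4
      have h5 : 0 < P.ord (algebraMap L M z) := by
        rw [h₁.2]
        have : 0 < P₁.ord z := by omega
        positivity
      have h6 := (hq ⟨z, hRR z hz⟩).1 (hgoing ⟨z, hRR z hz⟩ (Or.inr h5))
      rcases h6 with h7 | h7
      · exact hz0 (congrArg Subtype.val h7)
      · change 0 < PD.ord z at h7
        omega
    have hx0 : x ≠ 0 := by
      rintro rfl
      rw [zero_div] at hxz
      exact hf0 hxz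
    rw [hxz, P₁.ord_div hx0 hz0, h2, sub_zero]
    exact reg_ord_nonneg h1
  subst hPeq
  refine ⟨hD, h₀, h₀0, h₀D, ?_⟩
  rw [← hτ]
  exact hPD'

end Pool.Agent.H890
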