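import Pool.Agent.H890.Wl0

set_option autoImplicit false
set_option linter.unusedSectionVars false
set_option linter.overlappingInstances false

open FF MvPolynomial IsLocalRing Pool.Agent.W602.GT Pool.Agent.W603.LV Pool.Agent.W619.PQ
  Pool.Agent.Y172 Pool.Agent.TH122.AB Pool.Agent.R887

namespace Pool.Agent.H890

/-- **The variety.** -/
theorem exists_wv {K L M : Type} [Field K] [Field L] [Field M] [Algebra ℂ K] [Algebra ℂ L]
    [Algebra ℂ M] [Algebra K L] [Algebra L M] [Algebra K M] [IsScalarTower ℂ K L]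
    [IsScalarTower ℂ L M] [IsScalarTower ℂ K M] [IsScalarTower K L M] [FiniteDimensional L M]
    {N : ℕ} {y : Fin (N + 1) → K} {r : ℕ} {G : Place ℂ K → ℤ} {Q : Place ℂ K} {I : ℕ} {g : K}
    {a : Fin r → ℕ} {t : Fin r → L} (hy : NormalModel y) (ht : Gens (k := K) t)
    (hw : WD y G Q I g) :
    ∃ (N' : ℕ) (v : Fin (N' + 1) → M) (j₀ : Fin (N' + 1)), WV y G Q I g a t v j₀ := by
  classical
  obtain ⟨j, hj⟩ := exists_centred hy Q
  have htne : ∀ p, t p ≠ 0 := fun p => ht.ind.ne_zero p
  have hgL : ∀ k : ℕ, algebraMap K L (g ^ k) ≠ 0 := fun k => by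
    rw [Ne, map_eq_zero]
    exact pow_ne_zero _ hw.ne
  obtain ⟨T0, hT0⟩ : ∃ T0 : Set L, T0 = {1} ∪ (Set.range fun k => algebraMap K L (y k / y j)) ∪
      (Set.range fun p => algebraMap K L (g ^ a p) * t p ^ I) ∪
      (Set.range fun p => algebraMap K L (g ^ a p) * t p) := ⟨_, rfl⟩
  have hT0f : T0.Finite := by
    rw [hT0]
    exact (((Set.finite_singleton _).union (Set.finite_range _)).union (Set.finite_range _)).union
      (Set.finite_range _)
  have hWR0 : ∀ x ∈ T0, x ∈ WR y G Q a t := by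
    intro x hx
    rw [hT0] at hx
    rcases hx with ((hx | ⟨k, rfl⟩) | ⟨p, rfl⟩) | ⟨p, rfl⟩
    · rw [Set.mem_singleton_iff.1 hx]
      exact Subalgebra.one_mem _
    · exact WR_base ((lsub_iff hy).2 (chart_localRing hj (gen_mem y j k)))
    · exact WR_mono_mem hw p le_rfl
    · have h1 := WR_mono_mem (t := t) hw p (m := 1) (k := a p)
        (Nat.mul_le_mul_right _ hw.pos)
      rwa [pow_one] at h1
  obtain ⟨s, u, hu⟩ := exists_fin_range (M := L) (T := T0 \ {0}) (hT0f.subset Set.sdiff_subset)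
    ⟨1, by rw [hT0]; exact Or.inl (Or.inl (Or.inl rfl)), one_ne_zero⟩
  have hu0 : ∀ c, u c ∈ T0 ∧ u c ≠ 0 := fun c => by
    have h1 : u c ∈ Set.range u := ⟨c, rfl⟩
    rw [hu] at h1
    exact h1
  have hex : ∀ x ∈ T0, x ≠ 0 → ∃ c, u c = x := fun x hx hx0 => by
    have h1 : x ∈ Set.range u := by
      rw [hu]
      exact ⟨hx, hx0⟩
    exact h1
  obtain ⟨c₀, hc₀⟩ := hex 1 (by rw [hT0]; exact Or.inl (Or.inl (Or.inl rfl))) one_ne_zero
  have hfield : ∀ c, IntermediateField.adjoin ℂ (Set.range fun i => u i / u c) = ⊤ := by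
    intro c
    obtain ⟨A, hA⟩ : ∃ A, A = IntermediateField.adjoin ℂ (Set.range fun i => u i / u c) := ⟨_, rfl⟩
    rw [← hA]
    have huA : ∀ i, u i / u c ∈ A := fun i => by
      rw [hA]
      exact IntermediateField.subset_adjoin ℂ _ ⟨i, rfl⟩
    have hcA : u c ∈ A := by
      have h1 := A.inv_mem (huA c₀)
      rw [hc₀, one_div, inv_inv] at h1
      exact h1
    have huA' : ∀ i, u i ∈ A := fun i => by
      have h1 := A.mul_mem (huA i) hcA
      rwa [div_mul_cancel₀ _ (hu0 c).2] at h1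
    have hTA : ∀ x ∈ T0, x ∈ A := fun x hx => by
      by_cases hx0 : x = 0
      · rw [hx0]
        exact zero_mem A
      · obtain ⟨i, hi⟩ := hex x hx hx0
        rw [← hi]
        exact huA' i
    have hK : ∀ x : K, algebraMap K L x ∈ A := by
      intro x
      have h1 : IntermediateField.adjoin ℂ (Set.range fun i => y i / y j) ≤
          A.comap (IsScalarTower.toAlgHom ℂ K L) := by
        rw [IntermediateField.adjoin_le_iff]
        rintro _ ⟨k, rfl⟩
        change algebraMap K L (y k / y j) ∈ A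
        refine hTA _ ?_
        rw [hT0]
        exact Or.inl (Or.inl (Or.inr ⟨k, rfl⟩))
      rw [hy.field j hj.1] at h1
      exact h1 (show x ∈ (⊤ : IntermediateField ℂ K) from trivial)
    have ht' : ∀ p, t p ∈ A := by
      intro p
      have h1 : algebraMap K L (g ^ a p) * t p ∈ A := by
        refine hTA _ ?_
        rw [hT0]
        exact Or.inr ⟨p, rfl⟩
      have h2 := A.div_mem h1 (hK (g ^ a p))
      rwa [mul_div_cancel_left₀ _ (hgL (a p))] at h2
    rw [eq_top_iff]
    intro z _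
    have hpoly : ∀ P : MvPolynomial (Fin r) K, aeval t P ∈ A := by
      intro P
      induction P using MvPolynomial.induction_on with
      | C x =>
        rw [aeval_C]
        exact hK x
      | add p q hp hq =>
        rw [map_add]
        exact A.add_mem hp hq
      | mul_X p i hp =>
        rw [map_mul, aeval_X]
        exact A.mul_mem hp (ht' i)
    obtain ⟨P, Q, -, hz⟩ := ht.gen z
    rw [hz]
    exact A.div_mem (hpoly P) (hpoly Q)
  obtain ⟨N', v, d, jj, -, hnv, hv, hchart⟩ := exists_nrm (M := M) (fun c => (hu0 c).2) hfield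
  have hT0c : ∀ x ∈ T0, x ∈ chart u c₀ := fun x hx => by
    by_cases hx0 : x = 0
    · rw [hx0]
      exact Subalgebra.zero_mem _
    · obtain ⟨i, hi⟩ := hex x hx hx0
      have h1 := gen_mem u c₀ i
      rwa [hc₀, div_one, hi] at h1
  have hbase : ∀ x ∈ chart y j, algebraMap K L x ∈ chart u c₀ := by
    have h1 : chart y j ≤ (chart u c₀).comap (IsScalarTower.toAlgHom ℂ K L) := by
      apply Algebra.adjoin_le
      rintro _ ⟨k, rfl⟩
      change algebraMap K L (y k / y j) ∈ chart u c₀
      refine hT0c _ ?_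
      rw [hT0]
      exact Or.inl (Or.inl (Or.inr ⟨k, rfl⟩))
    intro x hx
    exact h1 hx
  refine ⟨N', v, jj c₀, ⟨hnv, ?_, ⟨j, hj, fun x hx => ?_⟩, fun p => ?_, fun x hx => ?_⟩⟩
  · rw [hv, hc₀, map_one, one_pow]
    exact one_ne_zero
  · rw [hchart, IsScalarTower.algebraMap_apply K L M]
    exact isIntegral_algebraMap (R := chart u c₀) (A := M) (x := ⟨_, hbase x hx⟩)
  · have h1 : algebraMap K M (g ^ a p) * algebraMap L M (t p) ^ I =
        algebraMap L M (algebraMap K L (g ^ a p) * t p ^ I) := by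
      rw [map_mul (algebraMap L M), map_pow (algebraMap L M), ← IsScalarTower.algebraMap_apply K L M]
    have h2 : algebraMap K L (g ^ a p) * t p ^ I ∈ chart u c₀ := by
      refine hT0c _ ?_
      rw [hT0]
      exact Or.inl (Or.inr ⟨p, rfl⟩)
    rw [hchart, h1]
    exact isIntegral_algebraMap (R := chart u c₀) (A := M) (x := ⟨_, h2⟩)
  · rw [hchart] at hx
    refine int_mono ?_ hx
    apply Algebra.adjoin_le
    rintro _ ⟨i, rfl⟩
    change u i / u c₀ ∈ WR y G Q a t
    rw [hc₀, div_one]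
    exact hWR0 _ (hu0 i).1

end Pool.Agent.H890
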