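import Pool.Agent.H890.Wl0

set_option autoImplicit false
set_option linter.unusedSectionVars false
set_option linter.overlappingInstances false

open FF MvPolynomial IsLocalRing Pool.Agent.W602.GT Pool.Agent.W603.LV Pool.Agent.W619.PQ
  Pool.Agent.Y172 Pool.Agent.TH122.AB Pool.Agent.R887

namespace Pool.Agent.H890

section

variable {K L M : Type} [Field K] [Field L] [Field M] [Algebra ℂ K] [Algebra ℂ L]
  [Algebra ℂ M] [Algebra K L] [Algebra L M] [Algebra K M] [IsScalarTower ℂ K L]
  [IsScalarTower ℂ L M] [IsScalarTower ℂ K M] [IsScalarTower K L M] [FiniteDimensional L M]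
  {N : ℕ} {y : Fin (N + 1) → K} {n r : ℕ} {G₀ : Place ℂ K → ℤ} {S : Mod K L M y n r G₀}

/-- **Horizontal prime divisors of `V` are horizontal prime divisors of the old model
`S.v`.** -/
theorem wv_hor {i : Fin (r + 1)} {G : Place ℂ K → ℤ} {Q : Place ℂ K} {I : ℕ} {g : K}
    {a : Fin r → ℕ} {N' : ℕ} {v : Fin (N' + 1) → M} {j₀ : Fin (N' + 1)} (hI : 0 < I)
    (hg : g ≠ 0)
    (hv : WV y G Q I g a (ts S.l (sA i)) v j₀) {D : Place ℂ M} (hD : IsPrimeDivisor v D)
    (hc : Centred v j₀ D) (htr : ∀ f : K, D.ord (algebraMap K M f) = 0) :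
    IsPrimeDivisor S.v D := by
  have hKM : ∀ f : K, algebraMap L M (algebraMap K L f) = algebraMap K M f := fun f =>
    (IsScalarTower.algebraMap_apply K L M f).symm
  have htne : ∀ p, algebraMap L M (ts S.l (sA i) p) ≠ 0 := fun p => by
    rw [Ne, map_eq_zero]
    exact S.sys.ts_ne (sA i) p
  -- the variables are regular at `D`
  have ht : ∀ p, 0 ≤ D.ord (algebraMap L M (ts S.l (sA i) p)) := by
    intro p
    have hg0 : algebraMap K M (g ^ a p) ≠ 0 := by
      rw [Ne, map_eq_zero]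
      exact pow_ne_zero _ hg
    have h1 := (D.reg_iff (mul_ne_zero hg0 (pow_ne_zero I (htne p)))).1 (hc.reg _ (hv.var p))
    rw [D.ord_mul hg0 (pow_ne_zero I (htne p)), htr, D.ord_pow, zero_add] at h1
    have h2 : (0 : ℤ) < I := by exact_mod_cast hI
    by_contra h3
    push Not at h3
    nlinarith
  have hlne : ∀ k, algebraMap L M (S.l k) ≠ 0 := fun k => by
    rw [Ne, map_eq_zero]
    exact S.sys.ne k
  have hts : ∀ p, ts S.l (sA i) p = S.l (ix i p).castSucc / S.l i.castSucc := by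
    intro p
    unfold ts
    rw [CvT.ix_eq, sA_zero]
  have hle : ∀ k : Fin (r + 1), D.ord (algebraMap L M (S.l i.castSucc)) ≤
      D.ord (algebraMap L M (S.l k.castSucc)) := by
    intro k
    by_cases hk : k = i
    · rw [hk]
    · obtain ⟨p, rfl⟩ := CvT.exists_ix hk
      have h1 := ht p
      rw [hts, map_div₀, D.ord_div (hlne _) (hlne _)] at h1
      linarith
  -- the chart
  obtain ⟨f, hf⟩ := (S.fam i).non
  obtain ⟨c, hcu⟩ := S.exists_u i hf
  have hFne : ∀ k, ∀ f ∈ S.F k, algebraMap K M f ≠ 0 := fun k f hf => by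
    rw [Ne, map_eq_zero]
    exact (S.fam k).ne f hf
  have hord : ∀ k : Fin (r + 1), ∀ f ∈ S.F k,
      D.ord (algebraMap L M (S.l k.castSucc * algebraMap K L f)) =
        D.ord (algebraMap L M (S.l k.castSucc)) := by
    intro k f hf
    rw [map_mul, hKM, D.ord_mul (hlne _) (hFne k f hf), htr, add_zero]
  have hcen : S.Cen c D := by
    intro c'
    obtain ⟨k, f', hf', hu'⟩ := S.u_eq c'
    rw [hcu, hu', hord i f hf, hord k f' hf']
    exact hle k
  -- (1)
  have h1 : ∀ f : K, algebraMap K M f ∈ lsub S.v D := fun f =>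
    (lsub_iff S.nv).2 (S.local_triv htr f)
  -- (2)
  have h2 : ∀ p, algebraMap L M (ts S.l (sA i) p) ∈ lsub S.v D := by
    intro p
    obtain ⟨f', hf'⟩ := (S.fam (ix i p)).non
    obtain ⟨c', hcu'⟩ := S.exists_u (ix i p) hf'
    have h3 : algebraMap L M (S.u c' / S.u c) ∈ lsub S.v D := by
      rw [lsub_iff S.nv]
      refine chart_localRing hcen.centred ((S.chart_iff c _).2 ?_)
      exact isIntegral_algebraMap (R := chart S.u c) (A := M) (x := ⟨_, gen_mem S.u c c'⟩)
    have h4 : algebraMap L M (ts S.l (sA i) p) =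
        algebraMap L M (S.u c' / S.u c) * algebraMap K M (f / f') := by
      have h5 := hFne _ f hf
      have h6 := hFne _ f' hf'
      have h7 := hlne i.castSucc
      rw [hts, hcu, hcu', map_div₀, map_div₀, map_div₀, map_mul, map_mul, hKM, hKM]
      field_simp
    rw [h4]
    exact (lsub S.v D).mul_mem h3 (h1 _)
  -- (3)
  have h3 : ∀ w : M, IsIntegral (RR (⊤ : Subalgebra ℂ K) (ts S.l (sA i))) w →
      w ∈ lsub S.v D := by
    intro w hw D' hD' hT
    refine Pool.Agent.H890.reg_of_int (R := RR (⊤ : Subalgebra ℂ K) (ts S.l (sA i)))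
      (fun x hx => ?_) hw
    induction hx using Algebra.adjoin_induction with
    | mem x hx =>
      rcases hx with ⟨x, -, rfl⟩ | ⟨p, rfl⟩
      · rw [hKM]
        exact h1 x D' hD' hT
      · exact h2 p D' hD' hT
    | algebraMap z =>
      rw [← IsScalarTower.algebraMap_apply]
      exact D'.reg_const z
    | add x y _ _ hx hy =>
      rw [map_add]
      exact D'.reg_add hx hy
    | mul x y _ _ hx hy =>
      rw [map_mul]
      exact D'.reg_mul hx hy
  -- (4)
  have hWR : WR y G Q a (ts S.l (sA i)) ≤ RR (⊤ : Subalgebra ℂ K) (ts S.l (sA i)) := by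
    intro x hx
    obtain ⟨F, hF, -⟩ := mem_WR.1 hx
    exact mem_RR_top.2 ⟨F, hF⟩
  intro w hw
  obtain ⟨x, hx, z, hz, hz0, hzo, hxz⟩ := (mem_localRing hc).1 (hD w hw)
  have hx' := h3 x (int_mono hWR (hv.int x hx))
  have hz' := h3 z (int_mono hWR (hv.int z hz))
  have hzi := (lsub_iff S.nv).2 (localRing_inv ((lsub_iff S.nv).1 hz') hz0 hzo)
  have hw' : w = x * z⁻¹ := by
    rw [← hxz, mul_assoc, mul_inv_cancel₀ hz0, mul_one]
  rw [← lsub_iff S.nv, hw']
  exact (lsub S.v D).mul_mem hx' hzi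

end

end Pool.Agent.H890
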