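import Pool.Agent.H890.Wl0

set_option autoImplicit false
set_option linter.unusedSectionVars false
set_option linter.overlappingInstances false

open FF MvPolynomial IsLocalRing Pool.Agent.W602.GT Pool.Agent.W603.LV Pool.Agent.W619.PQ
  Pool.Agent.Y172 Pool.Agent.TH122.AB Pool.Agent.R887

namespace Pool.Agent.H890

section

variable {K L M : Type} [Field K] [Field L] [Field M] [Algebra ℂ K] [Algebra ℂ L]
  [Algebra ℂ M] [Algebra K L] [Algebra L M] [Algebra K M] [IsScalarTower ℂ K L]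
  [IsScalarTower ℂ L M] [IsScalarTower ℂ K M] [IsScalarTower K L M] [FiniteDimensional L M]
  {N : ℕ} {y : Fin (N + 1) → K} {n r : ℕ} {G₀ : Place ℂ K → ℤ} {S : Mod K L M y n r G₀}
  {b : ℕ} {z : M}

/-- generators of the field, scaled -/
theorem wr_gens (S : Mod K L M y n r G₀) (i : Fin (r + 1)) {g : Fin r → K} (hg0 : ∀ p, g p ≠ 0) :
    Gens (k := K) (fun p => ts S.l (sA i) p * algebraMap K L (g p)) := by
  refine gens_change (gens_ts S.sys S.gens (sA i)) fun p => ?_
  have h1 : ts S.l (sA i) p =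
      (ts S.l (sA i) p * algebraMap K L (g p)) * algebraMap K L (g p)⁻¹ := by
    rw [mul_assoc, ← map_mul, mul_inv_cancel₀ (hg0 p), map_one, mul_one]
  rw [h1]
  exact mul_mem (IntermediateField.subset_adjoin K _ ⟨p, rfl⟩)
    (IntermediateField.algebraMap_mem _ _)

/-- the orders of the forms -/
theorem wr_ord (S : Mod K L M y n r G₀) {i : Fin (r + 1)} (hi : S.wt i.castSucc = 1)
    {a : Fin r → ℕ} (ha : ∀ p, (a p : ℤ) = 1 - S.wt (ix i p).castSucc) {Q : Place ℂ K}
    {P₁ : Place ℂ L} {h₀ : K} (h₀0 : h₀ ≠ 0) {γ : ℤ} (hγ0 : 0 ≤ γ) (hγ : Q.ord h₀ = γ)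
    (hgau : IsGauss (fun p => ts S.l (sA i) p * algebraMap K L (h₀ ^ a p)) Q P₁) :
    ∀ k, P₁.ord (S.l k) - P₁.ord (S.l i.castSucc) = (S.wt k - S.wt i.castSucc) * γ := by
  classical
  have hl0 : ∀ k, S.l k ≠ 0 := S.sys.ne
  have hg0 : ∀ p, h₀ ^ a p ≠ 0 := fun p => pow_ne_zero _ h₀0
  have hgL : ∀ p, algebraMap K L (h₀ ^ a p) ≠ 0 := fun p => by
    rw [Ne, map_eq_zero]
    exact hg0 p
  have hordl : ∀ i' : Fin (r + 1), P₁.ord (S.l i'.castSucc) - P₁.ord (S.l i.castSucc) =
      (S.wt i'.castSucc - S.wt i.castSucc) * γ := by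
    intro i'
    by_cases hii : i' = i
    · rw [hii]
      ring
    · obtain ⟨p, rfl⟩ := CvT.exists_ix hii
      have h1 := hgau.var p
      have h2 : ts S.l (sA i) p = S.l (ix i p).castSucc / S.l i.castSucc := by
        unfold ts
        rw [CvT.ix_eq, sA_zero]
      change P₁.ord (ts S.l (sA i) p * algebraMap K L (h₀ ^ a p)) = 0 at h1
      rw [h2, P₁.ord_mul (div_ne_zero (hl0 _) (hl0 _)) (hgL p), P₁.ord_div (hl0 _) (hl0 _),
        hgau.base, Q.ord_pow, hγ, ha p] at h1
      rw [hi]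
      linarith
  intro k
  refine Fin.lastCases ?_ (fun i' => hordl i') k
  rw [S.wtl, hi]
  apply le_antisymm
  · let F : MvPolynomial (Fin r) K := 1 + ∑ p, C (h₀ ^ a p)⁻¹ * X p
    have hFe : aeval (fun p => ts S.l (sA i) p * algebraMap K L (h₀ ^ a p)) F =
        - (S.l (Fin.last (r + 1)) / S.l i.castSucc) := by
      have h1 := S.sys.one_add (sA i)
      rw [sA_last, sA_zero] at h1
      rw [← h1]
      change aeval (fun p => ts S.l (sA i) p * algebraMap K L (h₀ ^ a p))
        (1 + ∑ p, C (h₀ ^ a p)⁻¹ * X p) = _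
      rw [map_add, map_one, map_sum]
      congr 1
      refine Finset.sum_congr rfl fun p _ => ?_
      rw [map_mul, aeval_C, aeval_X]
      rw [mul_comm, mul_assoc, ← map_mul, mul_inv_cancel₀ (hg0 p), map_one, mul_one]
    have hF0 : F ≠ 0 := by
      intro h1
      rw [h1, map_zero] at hFe
      exact div_ne_zero (hl0 (Fin.last (r + 1))) (hl0 i.castSucc) (neg_eq_zero.1 hFe.symm)
    have hordF : P₁.ord (aeval (fun p => ts S.l (sA i) p * algebraMap K L (h₀ ^ a p)) F) =
        P₁.ord (S.l (Fin.last (r + 1))) - P₁.ord (S.l i.castSucc) := by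
      rw [hFe, P₁.ord_neg, P₁.ord_div (hl0 _) (hl0 _)]
    rw [← hordF]
    have hle := (hgau.le_iff hF0 (m := P₁.ord (aeval
      (fun p => ts S.l (sA i) p * algebraMap K L (h₀ ^ a p)) F))).1 le_rfl
    have hi0 : (0 : Fin (r + 1)) ≠ i := by
      rintro rfl
      rw [Fin.castSucc_zero, S.wt0] at hi
      exact zero_ne_one hi
    obtain ⟨p, hp⟩ := CvT.exists_ix hi0
    have hc : F.coeff (Finsupp.single p 1) = (h₀ ^ a p)⁻¹ := by
      change (1 + ∑ p, C (h₀ ^ a p)⁻¹ * X p : MvPolynomial (Fin r) K).coeff _ = _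
      rw [coeff_add, coeff_sum, coeff_one, if_neg (by
        intro h1
        have := Finsupp.single_eq_zero.1 h1.symm
        exact one_ne_zero this), zero_add, Finset.sum_eq_single p]
      · rw [coeff_C_mul, coeff_X, if_pos rfl, mul_one]
      · intro p' _ hp'
        rw [coeff_C_mul, coeff_X, if_neg, mul_zero]
        intro h1
        exact hp' (Finsupp.single_left_injective one_ne_zero h1)
      · intro h1
        exact absurd (Finset.mem_univ p) h1
    have h1 := hle (Finsupp.single p 1) (by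
      rw [mem_support_iff, hc]
      exact inv_ne_zero (hg0 p))
    have h2 := ha p
    rw [hp, Fin.castSucc_zero, S.wt0] at h2
    rw [hc, Q.ord_inv, Q.ord_pow, hγ, h2] at h1
    linarith
  · have h1 : S.l (Fin.last (r + 1)) = - ∑ i' : Fin (r + 1), S.l i'.castSucc := by
      have := S.sys.sum
      rw [Fin.sum_univ_castSucc, add_comm] at this
      exact eq_neg_of_add_eq_zero_left this
    have h2 : Ge P₁ (P₁.ord (S.l i.castSucc) - γ) (S.l (Fin.last (r + 1))) := by
      rw [h1]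
      refine Ge.neg (Ge.sum _ _ fun i' _ => Or.inr ?_)
      have h3 := hordl i'
      rw [hi] at h3
      rcases S.wt01 i'.castSucc with h4 | h4
      · rw [h4] at h3
        linarith
      · rw [h4] at h3
        linarith
    have h3 := h2.resolve_left (hl0 _)
    linarith

/-- **The form along vertical prime divisors.** Variant of the second half of `Cov.ver`
(Cov.lean), for the chart `i` of weight `1` and a Gauss place with respect to
`τ p = ts S.l (sA i) p * algebraMap K L (h₀ ^ a p)`, `a p = 1 - wt`, `Q.ord h₀ = γ ≥ 0`. -/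
theorem wr_form (h : Cov S b z) {i : Fin (r + 1)} (hi : S.wt i.castSucc = 1) {a : Fin r → ℕ}
    (ha : ∀ p, (a p : ℤ) = 1 - S.wt (ix i p).castSucc) {P : Place ℂ M}
    (hP : Divisorial (n + r) P) {Q : Place ℂ K} (hQd : Divisorial n Q) {e : ℕ}
    (hPQ : Over P Q e) {P₁ : Place ℂ L} {e₁ : ℕ} (h₁ : Over P P₁ e₁) {h₀ : K} (h₀0 : h₀ ≠ 0)
    {γ : ℤ} (hγ0 : 0 ≤ γ) (hγ : Q.ord h₀ = γ)
    (hgau : IsGauss (fun p => ts S.l (sA i) p * algebraMap K L (h₀ ^ a p)) Q P₁) :
    ∀ (q : ℕ) (η : (Fin n → Derivation ℂ K K) → K), IsPluri (2 * (b * q)) η → ∀ c : ℤ,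
      OrdEq Q η c → ∀ (x : Fin n → K) (E : Fin n → Derivation ℂ K K), IsTranscendenceBasis ℂ x →
      (∀ i j, E i (x j) = if i = j then 1 else 0) →
      OrdEq P (th S.lM b q (fun i => algebraMap K M (x i)) (algebraMap K M (η E)))
        (c + 2 * q * γ : ℤ) := by
  have hessK := S.essK
  have hessL := S.essL
  have hessM := S.essM
  have hP₁ : Divisorial (n + r) P₁ := divisorial_down h₁ hP
  have hg0 : ∀ p, h₀ ^ a p ≠ 0 := fun p => pow_ne_zero _ h₀0
  have hτ := wr_gens S i hg0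
  have ho := wr_ord S hi ha h₀0 hγ0 hγ hgau
  have hφ0 := phi_ne (S := S) S.sys
  have hφ : P₁.ord (∏ k, S.l k ^ sg k) = 0 := by
    rw [h.phi_ord P₁ i.castSucc]
    have h1 : ∀ k, sg k * (P₁.ord (S.l k) - P₁.ord (S.l i.castSucc)) =
        sg k * S.wt k * γ - sg k * (S.wt i.castSucc * γ) := by
      intro k
      rw [ho]
      ring
    rw [Finset.sum_congr rfl fun k _ => h1 k, Finset.sum_sub_distrib, ← Finset.sum_mul,
      ← Finset.sum_mul, h.wsg, sum_sg h.hb]
    ring
  have he₁ : e₁ = 1 := kummer_unr h₁ (Nat.succ_pos _) hφ0 hφ h.zN h.gen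
  subst he₁
  intro q η hη c hc x E hx hE
  have h1 := ver_ord S.sys h.trK hQd hg0 hτ hgau S.wtl h.ws ho h.hb hη hc hx hE
  have h2 : OrdEq P₁ (th S.l b q (fun i => algebraMap K L (x i)) (algebraMap K L (η E)))
      ((c + 2 * q * γ : ℤ) : ℚ) := by
    push_cast
    exact h1
  have h3 := up_th rfl h.trL S.sys h₁ hP₁
    (append_basis hx (Gens_basis (gens_ts S.sys S.gens (sA 0)))) h2
  simp only [← IsScalarTower.algebraMap_apply] at h3
  have h4 : ((1 : ℕ) * (c + 2 * q * γ + (2 * (b * q) : ℕ)) - (2 * (b * q) : ℕ) : ℤ) =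
      c + 2 * q * γ := by
    push_cast
    ring
  rw [h4] at h3
  exact h3

end

end Pool.Agent.H890
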