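import Pool.Agent.H890.Wl2
import Pool.Agent.H890.Wl3
import Pool.Agent.H890.Wl4
import Pool.Agent.H890.Wl5
import Pool.Agent.H890.Wl6

/-!
Minimal log discrepancies of the covering for Weil divisors.
-/

set_option autoImplicit false
set_option linter.unusedSectionVars false
set_option linter.overlappingInstances false

open FF MvPolynomial Pool.Agent.W602.GT Pool.Agent.W603.LV Pool.Agent.W619.PQ Pool.Agent.Y172
  Pool.Agent.TH122.AB Pool.Agent.R887

namespace Pool.Agent.H890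

section

variable {K L M : Type} [Field K] [Field L] [Field M] [Algebra ℂ K] [Algebra ℂ L]
  [Algebra ℂ M] [Algebra K L] [Algebra L M] [Algebra K M] [IsScalarTower ℂ K L]
  [IsScalarTower ℂ L M] [IsScalarTower ℂ K M] [IsScalarTower K L M] [FiniteDimensional L M]
  {N : ℕ} {y : Fin (N + 1) → K} {n r : ℕ} {G₀ : Place ℂ K → ℤ} {S : Mod K L M y n r G₀}
  {b : ℕ} {z : M} {G : Place ℂ K → ℤ} {Q₀ : Place ℂ K} {I : ℕ} {g : K} {a : Fin r → ℕ}
  {i : Fin (r + 1)} {N' : ℕ} {v : Fin (N' + 1) → M} {j₀ : Fin (N' + 1)}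

theorem GW.zero {y : Fin (N + 1) → K} {Q : Place ℂ K} {t : Fin r → L} {P : Place ℂ M}
    (h : GW y Q I g a t 1 P) : GW y Q I g a t 0 P :=
  ⟨h.reg, fun p => by
    have := h.var p
    omega⟩

theorem ts_ne0 (S : Mod K L M y n r G₀) (i : Fin (r + 1)) (p : Fin r) :
    ts S.l (sA i) p ≠ 0 := S.sys.ts_ne _ _

/-- places which are regular on the ring have their centre in the chart -/
theorem WV.centred (hw : WD y G Q₀ I g) (hv : WV y G Q₀ I g a (ts S.l (sA i)) v j₀)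
    {Q : Place ℂ K} (hT : Through y Q Q₀) {P : Place ℂ M}
    (hP : GW y Q I g a (ts S.l (sA i)) 0 P) : Centred v j₀ P := by
  refine ⟨hv.ne, fun k => ?_⟩
  have h1 := hv.int _ (gen_mem v j₀ k)
  exact reg_of_int (fun x hx => hP.ring (ts_ne0 S i) (hw.of_through hT) hx)
    (int_mono (WR_mono hT) h1)

/-- the local ring of `X` is contained in the local ring of `V` -/
theorem WV.base_le (hw : WD y G Q₀ I g) (hv : WV y G Q₀ I g a (ts S.l (sA i)) v j₀)
    {Q : Place ℂ K} (hT : Through y Q Q₀) {P : Place ℂ M} {e : ℕ} (he : Over P Q e)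
    (hP : GW y Q I g a (ts S.l (sA i)) 0 P) {f : K} (hf : f ∈ localRing y Q₀) :
    algebraMap K M f ∈ localRing v P := by
  obtain ⟨j, hj, hb⟩ := hv.base
  obtain ⟨x, hx, w, hwc, hw0, hwo, hxw⟩ := (mem_localRing hj).1 hf
  refine ⟨j₀, hv.centred hw hT hP, _, hb x hx, _, hb w hwc, ?_, ?_, ?_⟩
  · rwa [Ne, map_eq_zero]
  · rw [he.2, unit_through hT (chart_localRing hj hwc) hw0 hwo, mul_zero]
  · rw [← map_mul, hxw]

/-- the centre of the place `P` is the point of the section over the centre of `Q` -/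
structure AtW (S : Mod K L M y n r G₀) (i : Fin (r + 1)) (I : ℕ) (g : K) (a : Fin r → ℕ)
    (Q : Place ℂ K) (P : Place ℂ M) : Prop where
  div : Divisorial (n + r) P
  ovr : ∃ e, Over P Q e
  good : GW y Q I g a (ts S.l (sA i)) 1 P

/-- **Residues of the functions in the local rings.** -/
theorem AtW.lres (h : Cov S b z) (hr : 0 < r) (hw : WD y G Q₀ I g)
    (hv : WV y G Q₀ I g a (ts S.l (sA i)) v j₀) {Q : Place ℂ K}
    (hQQ : localRing y Q = localRing y Q₀) {P : Place ℂ M} (hP : AtW S i I g a Q P) {x : M}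
    (hx : x ∈ localRing v P) : ∃ κ ∈ lsub y Q, ∀ P' : Place ℂ M,
      GW y Q I g a (ts S.l (sA i)) 1 P' →
      (∀ μ ∈ lsub y Q, μ ≠ 0 → Q.ord μ = 0 → P'.ord (algebraMap K M μ) = 0) →
      x ∈ localRing v P' ∧ Ge P' 1 (x - algebraMap K M κ) := by
  have hy := S.ny
  have hT : Through y Q Q₀ := through_of_le hQQ.ge
  obtain ⟨e, hPQ⟩ := hP.ovr
  obtain ⟨v₀, hv1, hv2⟩ := CvT.exists_v h hr i (gg := fun _ => 1) fun _ => one_ne_zero
  have htt : CvT.tt S i (fun _ => (1 : K)) = ts S.l (sA i) := by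
    funext p
    unfold CvT.tt
    rw [div_one, map_one, mul_one]
  rw [htt] at hv1
  have hgens : Gens (k := K) (ts S.l (sA i)) := gens_ts S.sys S.gens (sA i)
  have hres : ∀ x ∈ chart v j₀, ∃ κ ∈ lsub y Q, ∀ P' : Place ℂ M,
      GW y Q I g a (ts S.l (sA i)) 1 P' → Ge P' 1 (x - algebraMap K M κ) := fun x hx =>
    wr_res hgens (hw.of_through hT) (Nat.succ_pos _) h.zN (phi_ne S.sys) (CvS.top_eq h)
      (CvS.fin_eq h hr) hv1 hv2 (int_mono (WR_mono hT) (hv.int x hx))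
  have hc := hv.centred hw hT hP.good.zero
  obtain ⟨a', ha, b', hb', hb0, hbo, hab⟩ := (mem_localRing hc).1 hx
  obtain ⟨κ₁, hκ₁, h1⟩ := hres a' ha
  obtain ⟨κ₂, hκ₂, h2⟩ := hres b' hb'
  have h3 := (h2 P hP.good).neg
  rw [neg_sub] at h3
  obtain ⟨h4, h5⟩ := ge_unit h3 hb0 hbo
  have hκ0 : κ₂ ≠ 0 := by
    rintro rfl
    exact h4 (map_zero _)
  have hκQ : Q.ord κ₂ = 0 := by
    rw [hPQ.2] at h5
    rcases mul_eq_zero.1 h5 with h6 | h6
    · have := hPQ.1
      omega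
    · exact h6
  refine ⟨κ₁ * κ₂⁻¹, (lsub y Q).mul_mem hκ₁ (lsub_inv hy hκ₂ hκ0 hκQ), fun P' hP' hunit => ?_⟩
  have h6 := hunit κ₂ hκ₂ hκ0 hκQ
  obtain ⟨h7, h8⟩ := ge_unit (h2 P' hP') h4 h6
  refine ⟨⟨j₀, hv.centred hw hT hP'.zero, a', ha, b', hb', hb0, h8, hab⟩, ?_⟩
  have h9 : x = a' / b' := by
    rw [← hab]
    field_simp
  rw [h9, map_mul, map_inv₀, ← div_eq_mul_inv]
  exact ge_div (h1 P' hP') (h2 P' hP') h4 h6 (hP'.reg κ₁ hκ₁)

theorem lsub_eq (hy : NormalModel y) {Q Q' : Place ℂ K} (h : localRing y Q' = localRing y Q) :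
    lsub y Q' = lsub y Q :=
  le_antisymm (lsub_le hy (through_of_le h.le)) (lsub_le hy (through_of_le h.ge))

/-- the local rings at the points of the section -/
theorem AtW.le (h : Cov S b z) (hr : 0 < r) (hw : WD y G Q₀ I g)
    (hv : WV y G Q₀ I g a (ts S.l (sA i)) v j₀) {Q Q' : Place ℂ K}
    (hQQ : localRing y Q = localRing y Q₀) (hQQ' : localRing y Q' = localRing y Q₀)
    {P P' : Place ℂ M} (hP : AtW S i I g a Q P) (hP' : AtW S i I g a Q' P') :
    localRing v P ⊆ localRing v P' := by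
  have hy := S.ny
  have heq : localRing y Q' = localRing y Q := hQQ'.trans hQQ.symm
  intro x hx
  obtain ⟨e', he'⟩ := hP'.ovr
  obtain ⟨κ, hκ, h1⟩ := hP.lres h hr hw hv hQQ hx
  have hg : GW y Q I g a (ts S.l (sA i)) 1 P' :=
    ⟨fun x hx => hP'.good.reg x (by rwa [lsub_eq hy heq]), hP'.good.var⟩
  refine (h1 P' hg fun μ hμ hμ0 hμQ => ?_).1
  rw [he'.2, unit_through (through_of_le heq.ge) ((lsub_iff hy).1 hμ) hμ0 hμQ, mul_zero]

theorem AtW.closed (h : Cov S b z) (hr : 0 < r) (hw : WD y G Q₀ I g)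
    (hv : WV y G Q₀ I g a (ts S.l (sA i)) v j₀) {Q : Place ℂ K}
    (hQQ : localRing y Q = localRing y Q₀) {P : Place ℂ M} (hP : AtW S i I g a Q P)
    (hc : ClosedPoint y Q) : ClosedPoint v P := by
  have hy := S.ny
  intro x hx
  obtain ⟨e, he⟩ := hP.ovr
  have he0 : (0 : ℤ) < e := by exact_mod_cast he.1
  obtain ⟨κ, hκ, h1⟩ := hP.lres h hr hw hv hQQ hx
  obtain ⟨-, h1⟩ := h1 P hP.good fun μ _ _ hμQ => by rw [he.2, hμQ, mul_zero]
  obtain ⟨c, hc⟩ := hc κ ((lsub_iff hy).1 hκ)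
  refine ⟨c, ?_⟩
  have h2 : Ge P 1 (algebraMap K M κ - algebraMap ℂ M c) := by
    rw [IsScalarTower.algebraMap_apply ℂ K M, ← map_sub]
    rcases hc with hc | hc
    · left
      rw [hc, sub_self, map_zero]
    · right
      rw [he.2]
      nlinarith
  have h3 := h1.add h2
  rw [sub_add_sub_cancel] at h3
  rcases h3 with h3 | h3
  · left
    exact sub_eq_zero.1 h3
  · right
    omega

theorem T_ord (hg : g ≠ 0) (P : Place ℂ M) (p : Fin r) :
    algebraMap K M (g ^ a p) * algebraMap L M (ts S.l (sA i) p) ^ I ≠ 0 ∧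
    P.ord (algebraMap K M (g ^ a p) * algebraMap L M (ts S.l (sA i) p) ^ I) =
      I * P.ord (algebraMap L M (ts S.l (sA i) p)) + a p * P.ord (algebraMap K M g) := by
  have h1 : algebraMap K M (g ^ a p) ≠ 0 := by
    rw [Ne, map_eq_zero]
    exact pow_ne_zero _ hg
  have h2 : algebraMap L M (ts S.l (sA i) p) ^ I ≠ 0 := pow_ne_zero _ (by
    rw [Ne, map_eq_zero]
    exact ts_ne0 S i p)
  refine ⟨mul_ne_zero h1 h2, ?_⟩
  rw [P.ord_mul h1 h2, map_pow, P.ord_pow, P.ord_pow]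
  ring

/-- places with the same centre as a place with centre on the section -/
theorem AtW.down (h : Cov S b z) (hw : WD y G Q₀ I g)
    (hv : WV y G Q₀ I g a (ts S.l (sA i)) v j₀) {Q : Place ℂ K}
    (hQQ : localRing y Q = localRing y Q₀) {P P' : Place ℂ M} (hP : AtW S i I g a Q P)
    (hP' : Divisorial (n + r) P') (heq : localRing v P' = localRing v P) :
    ∃ Q', Divisorial n Q' ∧ localRing y Q' = localRing y Q₀ ∧ AtW S i I g a Q' P' := by
  have hy := S.ny
  have hT0 : Through y Q Q₀ := through_of_le hQQ.ge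
  obtain ⟨e, he⟩ := hP.ovr
  have he0 : (0 : ℤ) < e := by exact_mod_cast he.1
  have hle : ∀ f ∈ localRing y Q, algebraMap K M f ∈ localRing v P := fun f hf =>
    hv.base_le hw hT0 he hP.good.zero (hQQ ▸ hf)
  obtain ⟨f, hf, hf0, hfo⟩ := exists_nonunit hy Q
  have hfM := hle f hf
  have hfM0 : algebraMap K M f ≠ 0 := by rwa [Ne, map_eq_zero]
  have h1 : P'.ord (algebraMap K M f) ≠ 0 := by
    intro h1
    have h2 := (unit_of_eq heq hfM hfM0).1 h1
    rw [he.2] at h2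
    rcases mul_eq_zero.1 h2 with h3 | h3 <;> omega
  obtain ⟨e', Q', he'⟩ := FF.exists_over P' ⟨f, h1⟩
  have hQ' : Divisorial n Q' := div_base (L := M) (by rw [S.trdeg_KM]) he' hP'
  have hT : Through y Q' Q := fun f hf => he'.reg.1 (localRing_reg (heq ▸ hle f hf))
  have hc := hv.centred hw hT0 hP.good.zero
  have hvar : ∀ p, 1 ≤ (I : ℤ) * P'.ord (algebraMap L M (ts S.l (sA i) p)) +
      a p * P'.ord (algebraMap K M g) := by
    intro p
    have h2 := chart_localRing hc (hv.var p)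
    obtain ⟨h3, h4⟩ := T_ord (S := S) (i := i) (I := I) (a := a) hw.ne P p
    obtain ⟨-, h5⟩ := T_ord (S := S) (i := i) (I := I) (a := a) hw.ne P' p
    have h6 := reg_ord_nonneg (localRing_reg (heq ▸ h2 : _ ∈ localRing v P'))
    have h7 := unit_of_eq heq h2 h3
    have h8 := hP.good.var p
    rw [← h5]
    have h9 : P'.ord (algebraMap K M (g ^ a p) * algebraMap L M (ts S.l (sA i) p) ^ I) ≠ 0 :=
      fun h9 => by
        have := h7.1 h9
        omega
    omega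
  have hgood : GW y Q' I g a (ts S.l (sA i)) 1 P' :=
    ⟨fun x hx => he'.reg.2 (lsub_reg hy hx), hvar⟩
  have hT' : Through y Q Q' := by
    intro f hf
    -- the centres of `P` and `P'` on `X`
    obtain ⟨j, hj, hb⟩ := hv.base
    have hjQ : Centred y j Q := hT0.centred hj
    have hjQ' : Centred y j Q' := hT.centred hjQ
    obtain ⟨x, hx, w, hwc, hw0, hwo, hxw⟩ := (mem_localRing hjQ').1 hf
    have hwM : algebraMap K M w ∈ localRing v P := chart_localRing hc (hb w hwc)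
    have hwM0 : algebraMap K M w ≠ 0 := by rwa [Ne, map_eq_zero]
    have h2 : P'.ord (algebraMap K M w) = 0 := by rw [he'.2, hwo, mul_zero]
    have h3 := (unit_of_eq heq hwM hwM0).1 h2
    have h4 : Q.ord w = 0 := by
      rw [he.2] at h3
      rcases mul_eq_zero.1 h3 with h5 | h5
      · omega
      · exact h5
    have h5 : f = x / w := by
      rw [← hxw]
      field_simp
    rw [h5, div_eq_mul_inv]
    exact Q.reg_mul (localRing_reg (chart_localRing hjQ hx))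
      (Or.inr (by rw [Q.ord_inv, h4]; norm_num))
  exact ⟨Q', hQ', (Set.Subset.antisymm (localRing_le hT') (localRing_le hT)).trans hQQ, hP',
    ⟨e', he'⟩, hgood⟩

/-- the forms do not have the same order at the places with centre on the section -/
theorem AtW.ne {j : Fin (r + 1)} (hij : j ≠ i)
    (hj : S.wt j.castSucc = 1) (ha : ∀ p, (a p : ℤ) = 1 - S.wt (ix i p).castSucc)
    {Q : Place ℂ K} {P : Place ℂ M} (hP : AtW S i I g a Q P) :
    ∃ k k', P.ord (S.lM k) ≠ P.ord (S.lM k') := by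
  obtain ⟨p, hp⟩ := CvT.exists_ix hij
  have h1 := hP.good.var p
  have h2 := ha p
  rw [hp, hj, sub_self] at h2
  rw [h2, zero_mul, add_zero] at h1
  have h3 : algebraMap L M (ts S.l (sA i) p) = S.lM j.castSucc / S.lM i.castSucc := by
    unfold ts
    rw [CvT.ix_eq, sA_zero, map_div₀, hp]
    rfl
  rw [h3, P.ord_div (S.sysM.ne _) (S.sysM.ne _)] at h1
  refine ⟨j.castSucc, i.castSucc, fun h => ?_⟩
  rw [h, sub_self, mul_zero] at h1
  omega

/-- **The form generates the canonical divisor of `V` at the points of the section.** -/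
theorem AtW.gen (h : Cov S b z) (hn : 0 < n) (hi : S.wt i.castSucc = 1)
    (ha : ∀ p, (a p : ℤ) = 1 - S.wt (ix i p).castSucc) (hw : WD y G Q₀ I g)
    (hv : WV y G Q₀ I g a (ts S.l (sA i)) v j₀) {Q : Place ℂ K}
    (hQQ : localRing y Q = localRing y Q₀) {P : Place ℂ M} (hP : AtW S i I g a Q P)
    {q : ℕ} {η : (Fin n → Derivation ℂ K K) → K} (hη : IsPluri (2 * (b * q)) η)
    (hgen : ∀ D, IsPrimeDivisor y D → Through y D Q → OrdEq D η (-(2 * q * G D) : ℤ))
    {x : Fin n → K} {E : Fin n → Derivation ℂ K K} (hx : IsTranscendenceBasis ℂ x)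
    (hE : ∀ i j, E i (x j) = if i = j then 1 else 0) {P' : Place ℂ M}
    (hP' : IsPrimeDivisor v P') (hT : Through v P' P) :
    OrdEq P' (th S.lM b q (fun i => algebraMap K M (x i)) (algebraMap K M (η E))) 0 := by
  have hy := S.ny
  have hT0 : Through y Q Q₀ := through_of_le hQQ.ge
  obtain ⟨e, he⟩ := hP.ovr
  have hc := hv.centred hw hT0 hP.good.zero
  have hc' : Centred v j₀ P' := hT.centred hc
  have hle : ∀ f ∈ localRing y Q, P'.Reg (algebraMap K M f) := fun f hf =>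
    hT _ (hv.base_le hw hT0 he hP.good.zero (hQQ ▸ hf))
  by_cases htr : ∀ f : K, P'.ord (algebraMap K M f) = 0
  · refine h.hor (wv_hor (S := S) hw.pos hw.ne hv hP' hc' htr) htr q hx hE ?_
    obtain ⟨D, hD, hDQ⟩ := exists_through hy Q
    exact val_ne hη hx hE (hgen D hD hDQ)
  · push Not at htr
    obtain ⟨e', D₀, he'⟩ := FF.exists_over P' htr
    have hPd : Divisorial (n + r) P' := hP'.divisorial hv.nv h.trM
    have hD₀ : Divisorial n D₀ := div_base (L := M) (by rw [S.trdeg_KM]) he' hPd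
    have hDQ : Through y D₀ Q := fun f hf => he'.reg.1 (hle f hf)
    have hDQ0 : Through y D₀ Q₀ := through_tr hT0 hDQ
    obtain ⟨P₁, e₁, h₁⟩ := exists_below (K := L) P'
    have hGW : GW y D₀ I g a (ts S.l (sA i)) 0 P' := by
      refine ⟨fun x hx => he'.reg.2 (lsub_reg hy hx), fun p => ?_⟩
      rw [← (T_ord (S := S) (i := i) (I := I) (a := a) hw.ne P' p).2]
      exact reg_ord_nonneg (localRing_reg (chart_localRing hc' (hv.var p)))
    obtain ⟨hDp, h₀, h₀0, h₀o, hgau⟩ := wr_ver (n := n) hy (gens_ts S.sys S.gens (sA i)) he' hD₀ h₁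
      (hw.of_through hDQ0) hGW fun f hf => by
        obtain ⟨b₁, hb₁, c₁, hc₁, hc0, hco, hbc⟩ := (mem_localRing hc').1 (hP' f hf)
        exact ⟨b₁, c₁, int_mono (WR_mono hDQ0) (hv.int _ hb₁),
          int_mono (WR_mono hDQ0) (hv.int _ hc₁), hc0, hco, hbc⟩
    have h5 := wr_form h hi ha hPd hD₀ he' h₁ h₀0 (hw.nonneg D₀ hDp) h₀o hgau q η hη _
      (hgen D₀ hDp hDQ) x E hx hE
    have h6 : (-(2 * q * G D₀) + 2 * q * G D₀ : ℤ) = 0 := by ring
    rw [h6] at h5
    exact_mod_cast h5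

/-- **The log discrepancies of `V`.** -/
theorem AtW.logDisc (h : Cov S b z) (hn : 0 < n) {j : Fin (r + 1)} (hij : j ≠ i)
    (hi : S.wt i.castSucc = 1) (hj : S.wt j.castSucc = 1)
    (ha : ∀ p, (a p : ℤ) = 1 - S.wt (ix i p).castSucc) (hw : WD y G Q₀ I g)
    (hv : WV y G Q₀ I g a (ts S.l (sA i)) v j₀) {Q : Place ℂ K}
    (hQQ : localRing y Q = localRing y Q₀) {P : Place ℂ M} (hP : AtW S i I g a Q P)
    {Δ : Place ℂ K → ℚ} (hG : ∀ P, IsPrimeDivisor y P → (G P : ℚ) = b * Δ P) {e : ℕ}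
    (hPQ : Over P Q e) {α : ℚ} (hα : LogDisc y n Δ Q α) :
    ∃ a', LogDisc v (n + r) 0 P a' ∧ e * α + 1 / b ≤ a' := by
  have hessK := S.essK
  have hessM := S.essM
  have hb1 : 1 ≤ b := by
    have := h.hb
    omega
  obtain ⟨x, E, hx, hE⟩ := exists_crd h.trK
  obtain ⟨q, η, c, hq, hη, hgen, hc, hca⟩ := hα.form hb1 hG
  have hθ := th_pluri S.sysM b q (fun i => algebraMap K M (x i)) (algebraMap K M (η E))
  have hpos : 0 < 2 * (b * q) := by
    have : 0 < b * q := Nat.mul_pos hb1 hq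
    omega
  have hposQ : (0 : ℚ) < (2 * (b * q) : ℕ) := by exact_mod_cast hpos
  have hgenV := fun P' hP' hT => hP.gen h hn hi ha hw hv hQQ hη hgen hx hE (P' := P') hP' hT
  obtain ⟨D, hD, hDP⟩ := exists_through hv.nv P
  obtain ⟨w, F, i0, hw'⟩ := exists_loc h.trM hP.div
  have hne := val_ne hθ hw'.bas hw'.dual (hgenV D hD hDP)
  obtain ⟨κ, hκ⟩ := exists_ordEq h.trM hP.div hθ hw'.bas hw'.dual hne
  have hκ' := (hw'.rg.ordEq_iff hθ).1 hκ
  have hbQ : (0 : ℚ) < b := by exact_mod_cast hb1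
  have hqQ : (0 : ℚ) < q := by exact_mod_cast hq
  refine ⟨1 + κ / (2 * (b * q) : ℕ), ⟨2 * (b * q), hpos, _, hθ, fun P' hP' hT => ?_, ?_⟩, ?_⟩
  · have h1 := hgenV P' hP' hT
    simpa using h1
  · have h1 : ((2 * (b * q) : ℕ) : ℚ) * (1 + κ / (2 * (b * q) : ℕ) - 1) = κ := by
      rw [add_sub_cancel_left, mul_div_cancel₀ _ hposQ.ne']
    rw [h1]
    exact hκ
  · have h1 := ((hw'.rg.ordGe_iff hθ).1 (h.ge_over_two hP.div hPQ (hP.ne hij hj ha) hη hc.1 hx
      hE)).resolve_left hne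
    rw [hκ'.2] at h1
    have h2 : (e : ℚ) * α + 1 / b = 1 + (((e * (2 * (b * q) + c) + 2 * q : ℤ) : ℚ) -
        (2 * (b * q) : ℕ)) / (2 * (b * q) : ℕ) := by
      push_cast
      rw [hca]
      field_simp
      ring
    rw [h2]
    gcongr

/-- **The place over `Q` which computes the minimal log discrepancy.** -/
theorem exists_atW (h : Cov S b z) (hr : 2 ≤ r) (hn : 0 < n) {j : Fin (r + 1)}
    (hi : S.wt i.castSucc = 1) (hj : S.wt j.castSucc = 1) (hsi : sg i.castSucc = 1)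
    (hsj : sg j.castSucc = -1)
    (hk : ∀ k : Fin (r + 2), k ≠ i.castSucc → k ≠ j.castSucc → S.wt k = 0)
    (ha : ∀ p, (a p : ℤ) = 1 - S.wt (ix i p).castSucc) (hw : WD y G Q₀ I g)
    (hv : WV y G Q₀ I g a (ts S.l (sA i)) v j₀) {Q : Place ℂ K} (hQ : Divisorial n Q)
    (hQQ : localRing y Q = localRing y Q₀) (hgQ : 0 < Q.ord g)
    {Δ : Place ℂ K → ℚ} (hG : ∀ P, IsPrimeDivisor y P → (G P : ℚ) = b * Δ P)
    {α : ℚ} (hα : LogDisc y n Δ Q α) :
    ∃ P, AtW S i I g a Q P ∧ LogDisc v (n + r) 0 P (α + 1 / b) := by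
  have hessK := S.essK
  have hb1 : 1 ≤ b := by
    have := h.hb
    omega
  have hI : (0 : ℤ) < I := by exact_mod_cast hw.pos
  obtain ⟨P, hP, hPQ, hord, hform⟩ := h.exists_mldPlace hr hn hi hj hsi hsj hQ
  have hAt : AtW S i I g a Q P := by
    refine ⟨hP, ⟨1, hPQ⟩, fun c hc => hPQ.reg.2 (lsub_reg S.ny hc), fun p => ?_⟩
    have h3 : algebraMap L M (ts S.l (sA i) p) = S.lM (ix i p).castSucc / S.lM i.castSucc := by
      unfold ts
      rw [CvT.ix_eq, sA_zero, map_div₀]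
      rfl
    rw [h3, P.ord_div (S.sysM.ne _) (S.sysM.ne _), hord, hPQ.2, ha]
    by_cases h1 : ix i p = j
    · rw [if_pos (Or.inr h1), h1, hj]
      simp only [sub_self, zero_mul, add_zero, mul_one]
      omega
    · have h2 : S.wt (ix i p).castSucc = 0 := hk _
        (fun h3 => CvT.ix_ne i p (Fin.castSucc_injective _ h3))
        (fun h3 => h1 (Fin.castSucc_injective _ h3))
      rw [h2]
      have h4 : (0 : ℤ) ≤ I * (if ix i p = 0 ∨ ix i p = j then 1 else 0) := by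
        split_ifs <;> simp
      push_cast
      linarith
  refine ⟨P, hAt, ?_⟩
  obtain ⟨x, E, hx, hE⟩ := exists_crd h.trK
  obtain ⟨q, η, c, hq, hη, hgen, hc, hca⟩ := hα.form hb1 hG
  have hpos : 0 < 2 * (b * q) := by
    have : 0 < b * q := Nat.mul_pos hb1 hq
    omega
  refine ⟨2 * (b * q), hpos, th S.lM b q (fun i => algebraMap K M (x i))
    (algebraMap K M (η E)), th_pluri S.sysM _ _ _ _, fun P' hP' hT => ?_, ?_⟩
  · have h1 := hAt.gen h hn hi ha hw hv hQQ hη hgen hx hE hP' hT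
    simpa using h1
  · have h1 := hform q η hη c hc x E hx hE
    have hbQ : (b : ℚ) ≠ 0 := by exact_mod_cast (by omega : b ≠ 0)
    have h2 : ((2 * (b * q) : ℕ) : ℚ) * (α + 1 / b - 1) = ((c + 2 * q : ℤ) : ℚ) := by
      push_cast
      rw [hca]
      field_simp
      ring
    rw [h2]
    exact h1

/-- **Minimal log discrepancies of `V`.** -/
theorem AtW.isMld (h : Cov S b z) (hr : 2 ≤ r) (hn : 0 < n) {j : Fin (r + 1)}
    (hi : S.wt i.castSucc = 1) (hj : S.wt j.castSucc = 1) (hsi : sg i.castSucc = 1)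
    (hsj : sg j.castSucc = -1)
    (hk : ∀ k : Fin (r + 2), k ≠ i.castSucc → k ≠ j.castSucc → S.wt k = 0)
    (ha : ∀ p, (a p : ℤ) = 1 - S.wt (ix i p).castSucc) (hw : WD y G Q₀ I g)
    (hv : WV y G Q₀ I g a (ts S.l (sA i)) v j₀) (hgm : g ∈ localRing y Q₀)
    (hgQ : 0 < Q₀.ord g)
    {Δ : Place ℂ K → ℚ} (hG : ∀ P, IsPrimeDivisor y P → (G P : ℚ) = b * Δ P)
    {P : Place ℂ M} (hP : AtW S i I g a Q₀ P) {c : ℚ} (hc0 : 0 ≤ c)
    (hc : IsMld y n Δ Q₀ c) : IsMld v (n + r) 0 P (c + 1 / b) := by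
  have hy := S.ny
  have hij : j ≠ i := by
    rintro rfl
    rw [hsi] at hsj
    omega
  refine ⟨fun P' hP' heq => ?_, ?_⟩
  · obtain ⟨Q', hQ', heqQ, hAt⟩ := hP.down h hw hv rfl hP' heq
    obtain ⟨α, hα, hca⟩ := hc.1 Q' hQ' heqQ
    obtain ⟨e', he'⟩ := hAt.ovr
    obtain ⟨a', ha', hle⟩ := hAt.logDisc h hn hij hi hj ha hw hv heqQ hG he' hα
    refine ⟨a', ha', le_trans ?_ hle⟩
    have h1 : (1 : ℚ) ≤ e' := by exact_mod_cast he'.1
    have h2 : α ≤ e' * α := le_mul_of_one_le_left (hc0.trans hca) h1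
    linarith
  · obtain ⟨Q', hQ', heqQ, hα⟩ := hc.2
    have hgQ' : 0 < Q'.ord g := by
      have h1 := reg_ord_nonneg (localRing_reg (heqQ ▸ hgm : g ∈ localRing y Q'))
      have h2 := unit_of_eq heqQ hgm hw.ne
      have h3 : Q'.ord g ≠ 0 := fun h3 => by
        have := h2.1 h3
        omega
      omega
    obtain ⟨P', hP', ha'⟩ := exists_atW h hr hn hi hj hsi hsj hk ha hw hv hQ' heqQ hgQ' hG hα
    exact ⟨P', hP'.div, Set.Subset.antisymm (hP'.le h (by omega) hw hv heqQ rfl hP)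
      (hP.le h (by omega) hw hv rfl heqQ hP'), ha'⟩

end

end Pool.Agent.H890
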