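import Pool.Agent.H890.Wl7
import Pool.Agent.H890.KDefsW

/-!
The ascending chain condition for pairs and for varieties without boundary.
-/

set_option autoImplicit false
set_option linter.unusedSectionVars false
set_option linter.overlappingInstances false

open FF MvPolynomial Pool.Agent.W602.GT Pool.Agent.W603.LV Pool.Agent.W619.PQ Pool.Agent.Y172
  Pool.Agent.TH122.AB Pool.Agent.R887

namespace Pool.Agent.H890

section

variable {K L M : Type} [Field K] [Field L] [Field M] [Algebra ℂ K] [Algebra ℂ L]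
  [Algebra ℂ M] [Algebra K L] [Algebra L M] [Algebra K M] [IsScalarTower ℂ K L]
  [IsScalarTower ℂ L M] [IsScalarTower ℂ K M] [IsScalarTower K L M] [FiniteDimensional L M]
  {N : ℕ} {y : Fin (N + 1) → K} {n r : ℕ} {G₀ : Place ℂ K → ℤ} {S : Mod K L M y n r G₀}
  {b : ℕ} {z : M} {I : ℕ} {g : K} {a : Fin r → ℕ} {i : Fin (r + 1)}

/-- a place over `Q` with centre on the section -/
theorem exists_atW0 (h : Cov S b z) (hr : 2 ≤ r) (hn : 0 < n) {j : Fin (r + 1)}
    (hi : S.wt i.castSucc = 1) (hj : S.wt j.castSucc = 1) (hsi : sg i.castSucc = 1)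
    (hsj : sg j.castSucc = -1)
    (hk : ∀ k : Fin (r + 2), k ≠ i.castSucc → k ≠ j.castSucc → S.wt k = 0)
    (ha : ∀ p, (a p : ℤ) = 1 - S.wt (ix i p).castSucc) (hI0 : 0 < I) {Q : Place ℂ K}
    (hQ : Divisorial n Q) (hgQ : 0 < Q.ord g) : ∃ P, AtW S i I g a Q P := by
  have hI : (0 : ℤ) < I := by exact_mod_cast hI0
  obtain ⟨P, hP, hPQ, hord, hform⟩ := h.exists_mldPlace hr hn hi hj hsi hsj hQ
  refine ⟨P, hP, ⟨1, hPQ⟩, fun c hc => hPQ.reg.2 (lsub_reg S.ny hc), fun p => ?_⟩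
  have h3 : algebraMap L M (ts S.l (sA i) p) = S.lM (ix i p).castSucc / S.lM i.castSucc := by
    unfold ts
    rw [CvT.ix_eq, sA_zero, map_div₀]
    rfl
  rw [h3, P.ord_div (S.sysM.ne _) (S.sysM.ne _), hord, hPQ.2, ha]
  by_cases h1 : ix i p = j
  · rw [if_pos (Or.inr h1), h1, hj]
    simp only [sub_self, zero_mul, add_zero, mul_one]
    omega
  · have h2 : S.wt (ix i p).castSucc = 0 := hk _
      (fun h3 => CvT.ix_ne i p (Fin.castSucc_injective _ h3))
      (fun h3 => h1 (Fin.castSucc_injective _ h3))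
    rw [h2]
    have h4 : (0 : ℤ) ≤ I * (if ix i p = 0 ∨ ix i p = j then 1 else 0) := by
      split_ifs <;> simp
    push_cast
    linarith

end

/-- **The variety without boundary, at a point.** -/
theorem weil_removal (K : Type) [Field K] [Algebra ℂ K] {n b : ℕ} (hb : 2 ≤ b) (hn1 : 1 ≤ n)
    (hn : Algebra.trdeg ℂ K = n) {N : ℕ} {y : Fin (N + 1) → K} (hy : NormalModel y)
    {Δ : Place ℂ K → ℚ} (hΔ : Effective y Δ)
    (hint : ∀ P, IsPrimeDivisor y P → ∃ m : ℤ, (b : ℚ) * Δ P = m) {Q : Place ℂ K}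
    (hQ : Divisorial n Q) (hcl : ClosedPoint y Q) (hcar : QCartierAt y Δ Q)
    (hsup : InSupp y Δ Q) :
    ∃ (M : Type) (_ : Field M) (_ : Algebra ℂ M) (_ : Algebra K M) (_ : IsScalarTower ℂ K M)
      (t : Fin (2 * b - 2) → M) (N' : ℕ) (v : Fin (N' + 1) → M) (P : Place ℂ M),
      AlgebraicIndependent K t ∧ IntermediateField.adjoin K (Set.range t) = ⊤ ∧ NormalModel v ∧
      Algebra.trdeg ℂ M = (n + (2 * b - 2) : ℕ) ∧ Divisorial (n + (2 * b - 2)) P ∧
      (∃ e, Over P Q e) ∧ ClosedPoint v P ∧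
      ∀ c : ℚ, 0 ≤ c → IsMld y n Δ Q c → IsMld v (n + (2 * b - 2)) 0 P (c + 1 / b) := by
  obtain ⟨r, hr⟩ : ∃ r, r = 2 * b - 2 := ⟨_, rfl⟩
  rw [← hr]
  obtain ⟨b', hb'⟩ : ∃ b', b = b' + 2 := ⟨b - 2, by omega⟩
  have hrb : r + 2 = 2 * b := by omega
  have hr2 : 2 ≤ r := by omega
  obtain ⟨L, _, _, _, _, t, ht⟩ := exists_L K r
  obtain ⟨M, _, _, _, z, hz, hgen, hfin⟩ := exists_M (∏ k, lfs t k ^ sg k)
    (N := r + 2) (Nat.succ_pos _)
  let _ : Algebra ℂ M := ((algebraMap L M).comp (algebraMap ℂ L)).toAlgebra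
  let _ : Algebra K M := ((algebraMap L M).comp (algebraMap K L)).toAlgebra
  have _ : IsScalarTower ℂ L M := IsScalarTower.of_algebraMap_eq' rfl
  have _ : IsScalarTower K L M := IsScalarTower.of_algebraMap_eq' rfl
  have _ : IsScalarTower ℂ K M := IsScalarTower.of_algebraMap_eq fun c => by
    rw [IsScalarTower.algebraMap_apply ℂ L M, IsScalarTower.algebraMap_apply ℂ K L,
      ← IsScalarTower.algebraMap_apply K L M]
  have htr : Algebra.trdeg K M = r := by
    have h1 : IsTranscendenceBasis K (algebraMap L M ∘ t) := (Gens_basis ht).algebraMap_comp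
    rw [← h1.cardinalMk_eq_trdeg]
    simp
  obtain ⟨s, hs1, hs2⟩ := rational (b' := b') (by omega) (lfs_sys ht)
    (by rw [lfs_ts]; exact ht) htr hz hgen
    (fun k k' hk hk' => lfs_pair ht k k' (by omega) hk hk')
  have hE0 : Effective y (0 : Place ℂ K → ℚ) := by
    refine ⟨fun P _ => le_rfl, Set.finite_empty.subset ?_⟩
    rintro P ⟨-, h0⟩
    exact h0 rfl
  obtain ⟨G₀, hG₀, S, h⟩ := exists_cov (L := L) (M := M) hrb (by omega) ht hz hgen hfin hn hy
    hE0 (fun Q _ => ⟨1, one_ne_zero, fun P _ _ => by simp [P.ord_one]⟩ : CartierMul y n b 0)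
  obtain ⟨i, j, hi, hj, hsi, hsj, hk⟩ := h.exists_tw
  -- the divisor `b Δ`
  obtain ⟨G, hGd⟩ : ∃ G : Place ℂ K → ℤ, G = fun P => ⌊(b : ℚ) * Δ P⌋ := ⟨_, rfl⟩
  have hG : ∀ P, IsPrimeDivisor y P → (G P : ℚ) = b * Δ P := by
    intro P hP
    obtain ⟨m, hm⟩ := hint P hP
    rw [hGd]
    change ((⌊(b : ℚ) * Δ P⌋ : ℤ) : ℚ) = _
    rw [hm, Int.floor_intCast]
  have hbQ : (0 : ℚ) < b := by exact_mod_cast (by omega : 0 < b)
  obtain ⟨I, g₁, hI, hg₁, hg₁o⟩ := hcar
  have hw : WD y G Q I (g₁ ^ b) := by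
    refine ⟨hI, pow_ne_zero _ hg₁, fun D hD => ?_, fun D hD hDQ => ?_⟩
    · have h1 := mul_nonneg hbQ.le (hΔ.1 D hD)
      rw [← hG D hD] at h1
      exact_mod_cast h1
    · have h1 := hg₁o D hD hDQ
      have h2 := hG D hD
      have h3 : ((D.ord (g₁ ^ b) : ℤ) : ℚ) = ((I * G D : ℤ) : ℚ) := by
        rw [D.ord_pow]
        push_cast
        rw [h1, h2]
        ring
      exact_mod_cast h3
  obtain ⟨g, hg⟩ : ∃ g, g = g₁ ^ b := ⟨_, rfl⟩
  rw [← hg] at hw
  obtain ⟨a, had⟩ : ∃ a : Fin r → ℕ, a = fun p => (1 - S.wt (ix i p).castSucc).toNat := ⟨_, rfl⟩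
  have ha : ∀ p, (a p : ℤ) = 1 - S.wt (ix i p).castSucc := by
    intro p
    rw [had]
    change (((1 - S.wt (ix i p).castSucc).toNat : ℕ) : ℤ) = _
    rw [Int.toNat_of_nonneg]
    rcases S.wt01 (ix i p).castSucc with h1 | h1 <;> rw [h1] <;> norm_num
  obtain ⟨N', v, j₀, hv⟩ := exists_wv (M := M) (a := a) hy (gens_ts S.sys S.gens (sA i)) hw
  have hgm : g ∈ localRing y Q := by
    refine (lsub_iff hy).1 fun D hD hDQ => ?_
    right
    rw [hw.eq D hD hDQ]
    exact mul_nonneg (Int.natCast_nonneg _) (hw.nonneg D hD)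
  have hgQ : 0 < Q.ord g := by
    have h1 := reg_ord_nonneg (localRing_reg hgm)
    have h2 : Q.ord g ≠ 0 := by
      intro h2
      obtain ⟨D, hD, hDQ, hD0⟩ := hsup
      have h3 := unit_through hDQ hgm hw.ne h2
      have h4 := hw.eq D hD hDQ
      rw [h3] at h4
      have h5 := hG D hD
      rcases mul_eq_zero.1 h4.symm with h6 | h6
      · have : I = 0 := by exact_mod_cast h6
        omega
      · rw [h6, Int.cast_zero] at h5
        rcases mul_eq_zero.1 h5.symm with h7 | h7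
        · exact hbQ.ne' h7
        · exact hD0 h7
    omega
  obtain ⟨P, hP⟩ := exists_atW0 h hr2 (by omega) hi hj hsi hsj hk ha hI hQ hgQ
  exact ⟨M, inferInstance, inferInstance, inferInstance, inferInstance, s, N', v, P, hs1, hs2,
    hv.nv, h.trM, hP.div, hP.ovr, hP.closed h (by omega) hw hv rfl hcl, fun c hc0 hc =>
      hP.isMld h hr2 (by omega) hi hj hsi hsj hk ha hw hv hgm hgQ hG hc0 hc⟩

end Pool.Agent.H890
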