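import Pool.Agent.H890.Wl8

/-!
The ascending chain condition for pairs and for varieties without boundary.
-/

set_option autoImplicit false
set_option linter.unusedSectionVars false
set_option linter.overlappingInstances false

open FF MvPolynomial Pool.Agent.W602.GT Pool.Agent.W603.LV Pool.Agent.W619.PQ Pool.Agent.Y172
  Pool.Agent.TH122.AB Pool.Agent.R887

namespace Pool.Agent.H890

theorem acc_iff (s : Set ℚ) : SatisfiesACC s ↔ s.WellFoundedOn (· > ·) := by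
  have h1 : s.WellFoundedOn (· > ·) ↔ WellFoundedGT s := by
    constructor
    · intro h
      exact ⟨h⟩
    · intro h
      exact h.wf
  rw [h1, wellFoundedGT_iff_monotone_chain_condition]
  constructor
  · intro h f
    obtain ⟨m, hm⟩ := h (fun i => (f i : ℚ)) (fun i => (f i).2) (fun i j hij => f.monotone hij)
    exact ⟨m, fun i hi => Subtype.ext (hm i hi).symm⟩
  · intro h f hf hmono
    obtain ⟨m, hm⟩ := h ⟨fun i => ⟨f i, hf i⟩, fun i j hij => hmono hij⟩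
    refine ⟨m, fun i hi => ?_⟩
    have h2 := hm i hi
    exact (congrArg Subtype.val h2).symm

theorem SatisfiesACC.mono {s s' : Set ℚ} (h : SatisfiesACC s') (hs : s ⊆ s') : SatisfiesACC s :=
  fun f hf hm => h f (fun i => hs (hf i)) hm

theorem SatisfiesACC.union {s s' : Set ℚ} (h : SatisfiesACC s) (h' : SatisfiesACC s') :
    SatisfiesACC (s ∪ s') := by
  rw [acc_iff] at h h' ⊢
  exact h.union h'

theorem SatisfiesACC.shift {s : Set ℚ} (h : SatisfiesACC s) (a : ℚ) :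
    SatisfiesACC {c | c + a ∈ s} := by
  intro f hf hm
  obtain ⟨m, hm⟩ := h (fun i => f i + a) hf fun i j hij => by
    have := hm hij
    simpa using this
  refine ⟨m, fun i hi => ?_⟩
  have h1 := hm i hi
  simpa using h1

/-- a common denominator -/
theorem exists_denom {Γ : Set ℚ} (hΓ : Γ.Finite) :
    ∃ b : ℕ, 2 ≤ b ∧ ∀ γ ∈ Γ, ∃ m : ℤ, (b : ℚ) * γ = m := by
  classical
  refine ⟨2 * ∏ γ ∈ hΓ.toFinset, γ.den, ?_, fun γ hγ => ?_⟩
  · have h1 : 0 < ∏ γ ∈ hΓ.toFinset, γ.den := Finset.prod_pos fun γ _ => γ.den_pos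
    omega
  · have h1 : γ ∈ hΓ.toFinset := hΓ.mem_toFinset.2 hγ
    rw [← Finset.mul_prod_erase _ _ h1]
    refine ⟨2 * (∏ γ ∈ hΓ.toFinset.erase γ, γ.den) * γ.num, ?_⟩
    push_cast
    have h2 : (γ.den : ℚ) * γ = γ.num := Rat.den_mul_eq_num γ
    calc (2 : ℚ) * (γ.den * ∏ x ∈ hΓ.toFinset.erase γ, (x.den : ℚ)) * γ
        = 2 * (∏ x ∈ hΓ.toFinset.erase γ, (x.den : ℚ)) * (γ.den * γ) := by ring
      _ = _ := by rw [h2]

section

variable {K : Type} [Field K] [Algebra ℂ K] {N : ℕ} {y : Fin (N + 1) → K} {n : ℕ}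

/-- the boundary is zero near the point -/
theorem logDisc_zero {Δ : Place ℂ K → ℚ} {Q : Place ℂ K}
    (h0 : ∀ P, IsPrimeDivisor y P → Through y P Q → Δ P = 0) {P : Place ℂ K}
    (hP : localRing y P = localRing y Q) {a : ℚ} :
    LogDisc y n Δ P a ↔ LogDisc y n 0 P a := by
  have h1 : ∀ D, IsPrimeDivisor y D → Through y D P → Δ D = 0 := fun D hD hDP =>
    h0 D hD (through_tr (through_of_le hP.ge) hDP)
  constructor
  · rintro ⟨r, hr, η, hη, h2, h3⟩
    refine ⟨r, hr, η, hη, fun D hD hDP => ?_, h3⟩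
    have h4 := h2 D hD hDP
    rw [h1 D hD hDP] at h4
    exact h4
  · rintro ⟨r, hr, η, hη, h2, h3⟩
    refine ⟨r, hr, η, hη, fun D hD hDP => ?_, h3⟩
    have h4 := h2 D hD hDP
    rw [h1 D hD hDP]
    exact h4

theorem isMld_zero {Δ : Place ℂ K → ℚ} {Q : Place ℂ K}
    (h0 : ∀ P, IsPrimeDivisor y P → Through y P Q → Δ P = 0) {c : ℚ} (hc : IsMld y n Δ Q c) :
    IsMld y n 0 Q c := by
  refine ⟨fun P hP hPQ => ?_, ?_⟩
  · obtain ⟨a, ha, hca⟩ := hc.1 P hP hPQ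
    exact ⟨a, (logDisc_zero h0 hPQ).1 ha, hca⟩
  · obtain ⟨P, hP, hPQ, ha⟩ := hc.2
    exact ⟨P, hP, hPQ, (logDisc_zero h0 hPQ).1 ha⟩

end

theorem eff_zero {K : Type} [Field K] [Algebra ℂ K] {N : ℕ} (y : Fin (N + 1) → K) :
    Effective y (0 : Place ℂ K → ℚ) := by
  refine ⟨fun P _ => le_rfl, Set.finite_empty.subset ?_⟩
  rintro P ⟨-, h0⟩
  exact h0 rfl

theorem qCartierAt_zero {K : Type} [Field K] [Algebra ℂ K] {N : ℕ} (y : Fin (N + 1) → K)
    (Q : Place ℂ K) : QCartierAt y (0 : Place ℂ K → ℚ) Q :=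
  ⟨1, 1, one_pos, one_ne_zero, fun P _ _ => by simp [P.ord_one]⟩

/-- **Minimal log discrepancies of pairs from varieties without boundary.** -/
theorem mldSet_subset {n b : ℕ} (hb : 2 ≤ b) {Γ : Set ℚ}
    (hΓ : ∀ γ ∈ Γ, ∃ m : ℤ, (b : ℚ) * γ = m) :
    MldSet n Γ ⊆ MldSet n ∅ ∪ {c | c + 1 / b ∈ MldSet (n + (2 * b - 2)) ∅} := by
  rintro c ⟨hc0, K, _, _, N, y, Δ, Q, hn, hy, hΔ, hco, hQ, hcl, hcar, hc⟩
  by_cases hsup : InSupp y Δ Q
  · right
    by_cases hn1 : 1 ≤ n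
    · have hint : ∀ P, IsPrimeDivisor y P → ∃ m : ℤ, (b : ℚ) * Δ P = m := by
        intro P hP
        rcases hco P hP with h1 | h1
        · exact ⟨0, by rw [h1]; simp⟩
        · exact hΓ _ h1
      obtain ⟨M, _, _, _, _, t, N', v, P, h1, h2, h3, h4, h5, h6, h7, h8⟩ :=
        weil_removal K hb hn1 hn hy hΔ hint hQ hcl hcar hsup
      have hbQ : (0 : ℚ) < 1 / b := by
        have : (0 : ℚ) < b := by exact_mod_cast (by omega : 0 < b)
        positivity
      exact ⟨by linarith, M, inferInstance, inferInstance, N', v, 0, P, h4, h3, eff_zero v,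
        fun _ _ => Or.inl rfl, h5, h7, qCartierAt_zero v P, h8 c hc0 hc⟩
    · obtain rfl : n = 0 := by omega
      exact absurd hQ (no_divisorial hn hy Q)
  · left
    have h0 : ∀ P, IsPrimeDivisor y P → Through y P Q → Δ P = 0 := by
      intro P hP hPQ
      by_contra h1
      exact hsup ⟨P, hP, hPQ, h1⟩
    exact ⟨hc0, K, inferInstance, inferInstance, N, y, 0, Q, hn, hy, eff_zero y,
      fun _ _ => Or.inl rfl, hQ, hcl, qCartierAt_zero y Q, isMld_zero h0 hc⟩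

theorem mldSet_mono (n : ℕ) {Γ Γ' : Set ℚ} (h : Γ ⊆ Γ') : MldSet n Γ ⊆ MldSet n Γ' := by
  rintro c ⟨hc0, K, _, _, N, y, Δ, Q, hn, hy, hΔ, hco, hQ, hcl, hcar, hc⟩
  exact ⟨hc0, K, inferInstance, inferInstance, N, y, Δ, Q, hn, hy, hΔ,
    fun P hP => (hco P hP).imp_right fun h1 => h h1, hQ, hcl, hcar, hc⟩

/-- **The ascending chain condition for pairs and for varieties without boundary.** -/
theorem acc_mldSet {n b : ℕ} (hb : 2 ≤ b) {Γ : Set ℚ}
    (hΓ : ∀ γ ∈ Γ, ∃ m : ℤ, (b : ℚ) * γ = m) (h1 : SatisfiesACC (MldSet n ∅))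
    (h2 : SatisfiesACC (MldSet (n + (2 * b - 2)) ∅)) : SatisfiesACC (MldSet n Γ) :=
  (h1.union (h2.shift _)).mono (mldSet_subset hb hΓ)

theorem acc_iff_acc : (∀ n, SatisfiesACC (MldSet n ∅)) ↔
    ∀ (n : ℕ) (Γ : Set ℚ), Γ.Finite → SatisfiesACC (MldSet n Γ) := by
  constructor
  · intro h n Γ hΓ
    obtain ⟨b, hb, hb'⟩ := exists_denom hΓ
    exact acc_mldSet hb hb' (h n) (h _)
  · intro h n
    exact h n ∅ Set.finite_empty

end Pool.Agent.H890
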