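import Pool.Agent.H890.Wl9

set_option autoImplicit false
set_option linter.unusedSectionVars false
set_option linter.overlappingInstances false

open FF MvPolynomial IsLocalRing Pool.Agent.W602.GT Pool.Agent.W603.LV Pool.Agent.W619.PQ
  Pool.Agent.Y172 Pool.Agent.TH122.AB Pool.Agent.R887

namespace Pool.Agent.H890

/-- Norms of elements which are integral over `WR` and do not vanish at a point of the section.

PROOF. (1) `Algebra.norm L b` is integral over `WR` (`Algebra.isIntegral_norm`), so it belongs to `WR`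
(`WR_closed ht`, Wl1.lean): it is `aeval t F`, `F` as in `mem_WR`. `WR_val` (Wl2.lean; `t p ≠ 0` as in
the proof of `wr_res`) gives `F.coeff 0 ∈ lsub y Q` and
`Ge P 1 (algebraMap L M (aeval t F) - algebraMap K M (F.coeff 0))`.
(2) `wr_res ht hw hN hz hφ0 htop hfin hv hvφ hb` gives `κ` with `Ge P' 1 (b - κ)` for all good `P'`; by
`ge_unit` (Res3.lean; use `(h P hP).neg` and `neg_sub`): `algebraMap K M κ ≠ 0`, `P.ord (algebraMap K M κ) = 0`.
(3) For `σ : M ≃ₐ[L] M` let `P' := P.comp (σ.restrictScalars ℂ)` (`comp_ord`, `comp_reg` in Ca1.lean: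
`P'.ord x = P.ord (σ x)`, by `rfl`). As `σ` fixes `L` and `K`, `GW y Q I g a t 1 P'`. So
`Ge P' 1 (b - κ)`, that is `Ge P 1 (σ b - κ)`, and by `ge_unit` `P.ord (σ b) = 0`, `σ b ≠ 0`.
(4) `M / L` is Galois: `isGalois_of_isSplittingField_X_pow_sub_C`, or `IsGalois.of_separable_splitting_field`
for `X ^ N - C φ` (its roots are `ζ ^ j z`, `ζ ∈ ℂ` a primitive root of unity,
`Complex.isPrimitiveRoot_exp`; `htop`), or `IsGalois.of_card_aut_eq_finrank` with `kum_aut` (Res1.lean). By
`Algebra.norm_eq_prod_automorphisms` `algebraMap L M (norm b) = ∏ σ, σ b`, which has order `0` at `P`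
(`ord_prod'`). With (1) and `ge_unit`: `F.coeff 0 ≠ 0` and `P.ord (algebraMap K M (F.coeff 0)) = 0`; and
`hPQ.2` gives `Q.ord (F.coeff 0) = 0`. -/
theorem norm_wr {K L M : Type} [Field K] [Field L] [Field M] [Algebra ℂ K] [Algebra ℂ L]
    [Algebra ℂ M] [Algebra K L] [Algebra L M] [Algebra K M] [IsScalarTower ℂ K L]
    [IsScalarTower ℂ L M] [IsScalarTower ℂ K M] [IsScalarTower K L M] [FiniteDimensional L M]
    {N₀ : ℕ} {y : Fin (N₀ + 1) → K} {r : ℕ} {G : Place ℂ K → ℤ} {Q : Place ℂ K} {I : ℕ} {g : K}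
    {a : Fin r → ℕ} {t : Fin r → L} (ht : Gens (k := K) t) (hw : WD y G Q I g) {N : ℕ}
    (hN : 0 < N) {z : M} {φ : L} (hz : z ^ N = algebraMap L M φ)
    (hφ0 : φ ≠ 0) (htop : IntermediateField.adjoin L {z} = ⊤) (hfin : Module.finrank L M = N)
    {p₀ : Fin r} {v : Place K L} (hv : ∀ F : MvPolynomial (Fin r) K, F ≠ 0 → ¬ (X p₀ ∣ F) →
      v.ord (aeval t F) = 0) (hvφ : v.ord φ = 1 ∨ v.ord φ = -1) {b : M}
    (hb : IsIntegral (WR y G Q a t) b) {P : Place ℂ M} (hP : GW y Q I g a t 1 P) {e : ℕ}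
    (hPQ : Over P Q e) (hb0 : b ≠ 0) (hbo : P.ord b = 0) :
    ∃ F : MvPolynomial (Fin r) K, aeval t F = Algebra.norm L b ∧ F.coeff 0 ∈ lsub y Q ∧
      F.coeff 0 ≠ 0 ∧ Q.ord (F.coeff 0) = 0 := by
  classical
  have ht0 : ∀ p, t p ≠ 0 := by
    intro p
    have h := ht.ne (X_ne_zero (R := K) p)
    rwa [aeval_X] at h
  have hnorm : IsIntegral (WR y G Q a t) (Algebra.norm L b) := Algebra.isIntegral_norm L hb
  obtain ⟨F, hF1, hF2⟩ := mem_WR.1 (WR_closed ht hnorm)
  obtain ⟨hF0, hFv⟩ := WR_val (M := M) (a := a) ht0 hw hF2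
  have hval := hFv P hP
  rw [hF1] at hval
  obtain ⟨κ, -, hres⟩ := wr_res ht hw hN hz hφ0 htop hfin hv hvφ hb
  -- the residue is a unit
  have hk1 : Ge P 1 (algebraMap K M κ - b) := by
    have h := (hres P hP).neg
    rwa [neg_sub] at h
  obtain ⟨hκ0, hκo⟩ := ge_unit hk1 hb0 hbo
  -- the conjugates are units
  have hsig : ∀ σ : M ≃ₐ[L] M, σ b ≠ 0 ∧ P.ord (σ b) = 0 := by
    intro σ
    have hK : ∀ x : K, σ (algebraMap K M x) = algebraMap K M x := by
      intro x
      rw [IsScalarTower.algebraMap_apply K L M, σ.commutes]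
    have hG : GW y Q I g a t 1 (P.comp (σ.restrictScalars ℂ)) := by
      refine ⟨fun x hx => ?_, fun p => ?_⟩
      · rw [comp_reg]
        change P.Reg (σ (algebraMap K M x))
        rw [hK]
        exact hP.reg x hx
      · rw [comp_ord, comp_ord]
        change _ ≤ (I : ℤ) * P.ord (σ (algebraMap L M (t p))) +
          (a p : ℤ) * P.ord (σ (algebraMap K M g))
        rw [σ.commutes, hK]
        exact hP.var p
    have h := hres _ hG
    have h2 : Ge P 1 (σ b - algebraMap K M κ) := by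
      rcases h with h | h
      · left
        rw [sub_eq_zero] at h ⊢
        rw [h, hK]
      · right
        rw [comp_ord] at h
        change 1 ≤ P.ord (σ (b - algebraMap K M κ)) at h
        rwa [map_sub, hK] at h
    exact ge_unit h2 hκ0 hκo
  -- the extension is Galois
  have hgal : IsGalois L M := by
    have hζ : (primitiveRoots (Module.finrank L M) L).Nonempty := by
      have h1 : IsPrimitiveRoot (Complex.exp (2 * Real.pi * Complex.I / N)) N :=
        Complex.isPrimitiveRoot_exp N hN.ne'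
      have h2 := h1.map_of_injective (algebraMap ℂ L).injective
      refine ⟨_, (mem_primitiveRoots (hfin.symm ▸ hN)).2 (hfin.symm ▸ h2)⟩
    have hz' : z ^ Module.finrank L M = algebraMap L M φ := by rw [hfin, hz]
    have h3 := isSplittingField_X_pow_sub_C_of_root_adjoin_eq_top hζ hz' htop
    exact isGalois_of_isSplittingField_X_pow_sub_C hζ
      (irreducible_X_pow_sub_C_of_root_adjoin_eq_top hz' htop) M
  have hprod : algebraMap L M (Algebra.norm L b) = ∏ σ : M ≃ₐ[L] M, σ b :=
    Algebra.norm_eq_prod_automorphisms L b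
  have hn0 : algebraMap L M (Algebra.norm L b) ≠ 0 := by
    rw [hprod]
    exact Finset.prod_ne_zero_iff.2 fun σ _ => (hsig σ).1
  have hno : P.ord (algebraMap L M (Algebra.norm L b)) = 0 := by
    rw [hprod, ord_prod' P _ _ fun σ _ => (hsig σ).1]
    exact Finset.sum_eq_zero fun σ _ => (hsig σ).2
  have hval' : Ge P 1 (algebraMap K M (F.coeff 0) - algebraMap L M (Algebra.norm L b)) := by
    have h := hval.neg
    rwa [neg_sub] at h
  obtain ⟨h4, h5⟩ := ge_unit hval' hn0 hno
  refine ⟨F, hF1, hF0, ?_, ?_⟩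
  · intro h
    rw [h, map_zero] at h4
    exact h4 rfl
  · rw [hPQ.2] at h5
    rcases mul_eq_zero.1 h5 with h6 | h6
    · have := hPQ.1
      omega
    · exact h6

end Pool.Agent.H890
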