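import Pool.Agent.H890.Wl9

set_option autoImplicit false
set_option linter.unusedSectionVars false
set_option linter.overlappingInstances false

open FF MvPolynomial IsLocalRing Pool.Agent.W602.GT Pool.Agent.W603.LV Pool.Agent.W619.PQ
  Pool.Agent.Y172 Pool.Agent.TH122.AB Pool.Agent.R887

namespace Pool.Agent.H890

/-- trailing coefficients of powers -/
theorem desc_trail_pow {K : Type} [Field K] (p : Polynomial K) (n : ℕ) :
    (p ^ n).trailingCoeff = p.trailingCoeff ^ n := by
  induction n with
  | zero =>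
    rw [pow_zero, pow_zero]
    have h : (1 : Polynomial K).coeff 0 ≠ 0 := by
      rw [Polynomial.coeff_one_zero]
      exact one_ne_zero
    have h1 := Nat.le_zero.1 (Polynomial.natTrailingDegree_le_of_ne_zero h)
    rw [Polynomial.trailingCoeff, h1, Polynomial.coeff_one_zero]
  | succ n ih => rw [pow_succ, pow_succ, Polynomial.trailingCoeff_mul, ih]

/-- the line through the point `c` -/
noncomputable def descPsi {K : Type} [Field K] {r : ℕ} (c : Fin r → K) :
    MvPolynomial (Fin r) K →+* Polynomial K :=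
  MvPolynomial.eval₂Hom Polynomial.C fun p => Polynomial.C (c p) * Polynomial.X

theorem descPsi_one {K : Type} [Field K] {r : ℕ} (c : Fin r → K) (F : MvPolynomial (Fin r) K) :
    Polynomial.eval 1 (descPsi c F) = MvPolynomial.eval c F := by
  have h : (Polynomial.evalRingHom 1).comp (descPsi c) = MvPolynomial.eval c := by
    apply MvPolynomial.ringHom_ext
    · intro a
      simp [descPsi]
    · intro p
      simp [descPsi]
  exact congrArg (fun f : MvPolynomial (Fin r) K →+* K => f F) h

theorem descPsi_zero {K : Type} [Field K] {r : ℕ} (c : Fin r → K) (F : MvPolynomial (Fin r) K) :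
    (descPsi c F).coeff 0 = F.coeff 0 := by
  have h : (Polynomial.evalRingHom 0).comp (descPsi c) =
      (MvPolynomial.constantCoeff : MvPolynomial (Fin r) K →+* K) := by
    apply MvPolynomial.ringHom_ext
    · intro a
      simp [descPsi]
    · intro p
      simp [descPsi]
  have h1 : Polynomial.eval 0 (descPsi c F) = MvPolynomial.constantCoeff F :=
    congrArg (fun f : MvPolynomial (Fin r) K →+* K => f F) h
  rw [Polynomial.coeff_zero_eq_eval_zero, h1, MvPolynomial.constantCoeff_eq]

theorem descPsi_trail {K : Type} [Field K] {r : ℕ} (c : Fin r → K) {F : MvPolynomial (Fin r) K}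
    (hF : F.coeff 0 ≠ 0) : (descPsi c F).trailingCoeff = F.coeff 0 := by
  have h : (descPsi c F).coeff 0 ≠ 0 := by rwa [descPsi_zero]
  have h1 := Nat.le_zero.1 (Polynomial.natTrailingDegree_le_of_ne_zero h)
  rw [Polynomial.trailingCoeff, h1, descPsi_zero]

theorem descPsi_map {K : Type} [Field K] [Algebra ℂ K] {r : ℕ} (c : Fin r → ℂ)
    (D : MvPolynomial (Fin r) ℂ) :
    descPsi (fun p => algebraMap ℂ K (c p)) (MvPolynomial.map (algebraMap ℂ K) D) =
      Polynomial.map (algebraMap ℂ K) (descPsi c D) := by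
  have h : (descPsi (fun p => algebraMap ℂ K (c p))).comp
      (MvPolynomial.map (algebraMap ℂ K)) =
      (Polynomial.mapRingHom (algebraMap ℂ K)).comp (descPsi c) := by
    apply MvPolynomial.ringHom_ext
    · intro a
      simp [descPsi]
    · intro p
      simp [descPsi]
  exact congrArg (fun f : MvPolynomial (Fin r) ℂ →+* Polynomial K => f D) h

theorem desc_pow {K L : Type} [Field K] [Field L] [Algebra ℂ K] [Algebra ℂ L] [Algebra K L]
    [IsScalarTower ℂ K L] {r : ℕ} {t : Fin r → L} (ht : Gens (k := K) t) {w : L} (hw : w ≠ 0)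
    {m : ℕ} (hm : 0 < m) {k : K} (hk : k ≠ 0) {A B : MvPolynomial (Fin r) K}
    (hA : A.coeff 0 ≠ 0) (hB : B.coeff 0 ≠ 0) {D : MvPolynomial (Fin r) ℂ} (hD : D ≠ 0)
    (h : w ^ m * aeval t B * aeval t D = algebraMap K L k * aeval t A) :
    ∃ w' : K, w' ≠ 0 ∧ w' ^ m * B.coeff 0 = k * A.coeff 0 := by
  have hinj : Function.Injective (algebraMap ℂ K) := (algebraMap ℂ K).injective
  obtain ⟨C₁, C₂, hC₂, hwe⟩ := ht.gen w
  have hC₁ : C₁ ≠ 0 := by
    rintro rfl
    rw [map_zero, zero_div] at hwe
    exact hw hwe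
  have hDK : MvPolynomial.map (algebraMap ℂ K) D ≠ 0 := by
    intro h0
    apply hD
    apply MvPolynomial.map_injective _ hinj
    rw [h0, map_zero]
  have hDt : aeval t D = aeval t (MvPolynomial.map (algebraMap ℂ K) D) := by
    rw [MvPolynomial.aeval_map_algebraMap]
  have key : C₁ ^ m * B * MvPolynomial.map (algebraMap ℂ K) D = C k * C₂ ^ m * A := by
    apply ht.inj
    simp only [map_mul, map_pow, MvPolynomial.aeval_C]
    rw [← hDt]
    rw [hwe, div_pow] at h
    have h2 : (aeval t C₂ : L) ^ m ≠ 0 := pow_ne_zero _ (ht.ne hC₂)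
    field_simp at h
    linear_combination h
  have hH : C₁ * C₂ * MvPolynomial.map (algebraMap ℂ K) D ≠ 0 :=
    mul_ne_zero (mul_ne_zero hC₁ hC₂) hDK
  obtain ⟨c, hc⟩ : ∃ c : Fin r → ℂ, MvPolynomial.eval (fun p => algebraMap ℂ K (c p))
      (C₁ * C₂ * MvPolynomial.map (algebraMap ℂ K) D) ≠ 0 := by
    by_contra hcon
    push Not at hcon
    apply hH
    refine MvPolynomial.funext_set (fun _ => Set.range (algebraMap ℂ K))
      (fun _ => Set.infinite_range_of_injective hinj) fun x hx => ?_
    choose y hy using fun p => hx p (Set.mem_univ p)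
    have e : x = fun p => algebraMap ℂ K (y p) := funext fun p => (hy p).symm
    rw [map_zero, e]
    exact hcon y
  have hne : ∀ F : MvPolynomial (Fin r) K,
      MvPolynomial.eval (fun p => algebraMap ℂ K (c p)) F ≠ 0 →
      (descPsi (fun p => algebraMap ℂ K (c p)) F).trailingCoeff ≠ 0 := by
    intro F hF h0
    rw [Polynomial.trailingCoeff_eq_zero] at h0
    apply hF
    rw [← descPsi_one, h0, Polynomial.eval_zero]
  rw [map_mul, map_mul] at hc
  have c1 := hne C₁ (left_ne_zero_of_mul (left_ne_zero_of_mul hc))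
  have c2 := hne C₂ (right_ne_zero_of_mul (left_ne_zero_of_mul hc))
  have c3 := hne _ (right_ne_zero_of_mul hc)
  obtain ⟨d, hd⟩ : ∃ d : ℂ, (descPsi (fun p => algebraMap ℂ K (c p))
      (MvPolynomial.map (algebraMap ℂ K) D)).trailingCoeff = algebraMap ℂ K d := by
    rw [descPsi_map, Polynomial.trailingCoeff, Polynomial.coeff_map]
    exact ⟨_, rfl⟩
  have hd0 : d ≠ 0 := by
    rintro rfl
    rw [map_zero] at hd
    exact c3 hd
  have hkC : (descPsi (fun p => algebraMap ℂ K (c p)) (C k : MvPolynomial (Fin r) K)).trailingCoeff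
      = k := by
    have h0 : (C k : MvPolynomial (Fin r) K).coeff 0 = k := by
      rw [MvPolynomial.coeff_zero_C]
    rw [descPsi_trail _ (by rw [h0]; exact hk), h0]
  have key2 := congrArg (fun F => (descPsi (fun p => algebraMap ℂ K (c p)) F).trailingCoeff) key
  simp only [map_mul, map_pow, Polynomial.trailingCoeff_mul, desc_trail_pow] at key2
  rw [descPsi_trail _ hA, descPsi_trail _ hB, hd, hkC] at key2
  obtain ⟨δ, hδ⟩ := IsAlgClosed.exists_pow_nat_eq d hm
  have hδ0 : δ ≠ 0 := by
    rintro rfl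
    rw [zero_pow hm.ne'] at hδ
    exact hd0 hδ.symm
  generalize (descPsi (fun p => algebraMap ℂ K (c p)) C₁).trailingCoeff = τ₁ at *
  generalize (descPsi (fun p => algebraMap ℂ K (c p)) C₂).trailingCoeff = τ₂ at *
  refine ⟨algebraMap ℂ K δ * τ₁ / τ₂, div_ne_zero (mul_ne_zero
    ((map_ne_zero _).2 hδ0) c1) c2, ?_⟩
  rw [div_pow, mul_pow, ← map_pow, hδ]
  field_simp
  linear_combination key2

end Pool.Agent.H890
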