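import Pool.Agent.H890.Wl9

set_option autoImplicit false
set_option linter.unusedSectionVars false
set_option linter.overlappingInstances false

open FF MvPolynomial IsLocalRing Pool.Agent.W602.GT Pool.Agent.W603.LV Pool.Agent.W619.PQ
  Pool.Agent.Y172 Pool.Agent.TH122.AB Pool.Agent.R887

namespace Pool.Agent.H890

/-- Orders of pluricanonical forms and of their values.

PROOF. Local coordinates `hl : Loc P w E' i0` at `P` (`exists_loc hd hP`), `hl.rg : Rg P w E'`. By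
`hl.rg.ordEq_iff hω` (Rg.lean) `ω E' ≠ 0` and `P.ord (ω E') = c`, and the same for `θ`, `c'`. By
`pluri_coord hX hF hω E'`: `ω E' = δ ^ ℓ * ω F`, `θ E' = δ ^ m * θ F` with the same determinant
`δ = det (E' i (X j))`, so `ω F ≠ 0`, `θ F ≠ 0`; if `δ ≠ 0`, `m * P.ord (ω F) - ℓ * P.ord (θ F) = m * c - ℓ * c'`
(the terms `m * ℓ * P.ord δ` cancel). `δ ≠ 0` since otherwise `ω E' = 0` (`0 < ℓ`). -/
theorem ratio_ord {M : Type} [Field M] [Algebra ℂ M] [Algebra.EssFiniteType ℂ M] {d ℓ m : ℕ}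
    (hd : Algebra.trdeg ℂ M = d) (hℓ : 0 < ℓ) {ω θ : (Fin d → Derivation ℂ M M) → M}
    (hω : IsPluri ℓ ω) (hθ : IsPluri m θ) {X : Fin d → M} (hX : IsTranscendenceBasis ℂ X)
    {F : Fin d → Derivation ℂ M M} (hF : ∀ i j, F i (X j) = if i = j then 1 else 0)
    {P : Place ℂ M} (hP : Divisorial d P) {c c' : ℚ} (h : OrdEq P ω c) (h' : OrdEq P θ c') :
    ω F ≠ 0 ∧ θ F ≠ 0 ∧ (m : ℚ) * P.ord (ω F) - ℓ * P.ord (θ F) = m * c - ℓ * c' := by
  obtain ⟨w, E', i0, hl⟩ := exists_loc hd hP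
  obtain ⟨h1, h2⟩ := (hl.rg.ordEq_iff hω).1 h
  obtain ⟨h3, h4⟩ := (hl.rg.ordEq_iff hθ).1 h'
  rw [pluri_coord hX hF hω E'] at h1 h2
  rw [pluri_coord hX hF hθ E'] at h3 h4
  have hωF : ω F ≠ 0 := right_ne_zero_of_mul h1
  have hθF : θ F ≠ 0 := right_ne_zero_of_mul h3
  have hδ : (Matrix.of fun i j => (E' i) (X j)).det ≠ 0 := by
    intro h0
    rw [h0, zero_pow hℓ.ne', zero_mul] at h1
    exact h1 rfl
  rw [P.ord_mul (pow_ne_zero _ hδ) hωF, P.ord_pow] at h2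
  rw [P.ord_mul (pow_ne_zero _ hδ) hθF, P.ord_pow] at h4
  push_cast at h2 h4
  refine ⟨hωF, hθF, ?_⟩
  linear_combination (m : ℚ) * h2 - (ℓ : ℚ) * h4

end Pool.Agent.H890
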