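import Pool.Agent.H890.Wl9

set_option autoImplicit false
set_option linter.unusedSectionVars false
set_option linter.overlappingInstances false

open FF MvPolynomial IsLocalRing Pool.Agent.W602.GT Pool.Agent.W603.LV Pool.Agent.W619.PQ
  Pool.Agent.Y172 Pool.Agent.TH122.AB Pool.Agent.R887

namespace Pool.Agent.H890

/-- the constant polynomial in `th_val` -/
noncomputable def thD (r k : ℕ) : MvPolynomial (Fin r) ℂ :=
  ((∏ p, X p) * (-(1 + ∑ p, X p))) ^ k

/-- The value of the form of the covering.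

PROOF. The first claim: `X p ≠ 0` and `1 + ∑ p, X p ≠ 0` (its constant coefficient is `1`). The others:
`th_frm h hs b q x c` (Ord.lean, for `hs : Adm i (sA i)`, see Sys.lean/Cov.lean for the name of the lemma
which gives it: grep `Adm i (sA i)`) says `th l b q x c = frm (Fin.append x (ts l (sA i))) (2 * (b * q))
(l (sA i 0) ^ ((r + 1) * (2 * (b * q))) * c / (∏ k, l k) ^ ((r + 1) * q))`; the determinant in `frm` is
that of the identity matrix by `hF`. Now `2 * (b * q) = (r + 2) * q` by `hrb`, and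
`(∏ k, l k) / l i ^ (r + 2) = ∏ k, l k / l i = (∏ p, t p) * (l (last) / l i)`, `t = ts l (sA i)`
(`Equiv.prod_comp (sA i)`, `Fin.prod_univ_castSucc`, `Fin.prod_univ_succ`, `sA_zero`; and `sA i (last) = last`)
and `l last / l i = -(1 + ∑ t)` (`h.one_add (sA i)`, Sys.lean). -/
theorem th_val {M : Type} [Field M] [Algebra ℂ M] {n r b : ℕ} {l : Fin (r + 2) → M} (h : Sys l)
    (hrb : r + 2 = 2 * b) (i : Fin (r + 1)) (q : ℕ) (x : Fin n → M) (c : M)
    {F : Fin (n + r) → Derivation ℂ M M}
    (hF : ∀ i' j, F i' (Fin.append x (ts l (sA i)) j) = if i' = j then 1 else 0) :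
    thD r ((r + 1) * q) ≠ 0 ∧ th l b q x c F * aeval (ts l (sA i)) (thD r ((r + 1) * q)) = c := by
  constructor
  · unfold thD
    apply pow_ne_zero
    apply mul_ne_zero
    · exact Finset.prod_ne_zero_iff.mpr fun p _ => X_ne_zero p
    · rw [neg_ne_zero]
      intro h0
      have h1 := congrArg (MvPolynomial.aeval (fun _ : Fin r => (0 : ℂ))) h0
      rw [map_add, map_one, map_sum, map_zero] at h1
      simp at h1
  · have hL : l (sA i 0) ≠ 0 := h.ne _
    have hΛ : l (sA i (Fin.last (r + 1))) ≠ 0 := h.ne _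
    have hP : ∏ k, l k = l (sA i 0) ^ (r + 1) * (∏ p, ts l (sA i) p) *
        l (sA i (Fin.last (r + 1))) := by
      rw [← Equiv.prod_comp (sA i) l, Fin.prod_univ_castSucc, Fin.prod_univ_succ, Fin.castSucc_zero]
      have h1 : ∏ p : Fin r, l (sA i p.succ.castSucc) = l (sA i 0) ^ r * ∏ p, ts l (sA i) p := by
        have h2 : ∀ p : Fin r, l (sA i p.succ.castSucc) = l (sA i 0) * ts l (sA i) p := by
          intro p
          unfold ts
          rw [mul_div_cancel₀ _ hL]
        rw [Finset.prod_congr rfl fun p _ => h2 p, Finset.prod_mul_distrib, Finset.prod_const,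
          Finset.card_univ, Fintype.card_fin]
      rw [h1]
      ring
    have hT : ∏ p, ts l (sA i) p ≠ 0 := Finset.prod_ne_zero_iff.mpr fun p _ => h.ts_ne _ p
    have hD : aeval (ts l (sA i)) (thD r ((r + 1) * q)) = ((∏ p, ts l (sA i) p) *
        (l (sA i (Fin.last (r + 1))) / l (sA i 0))) ^ ((r + 1) * q) := by
      unfold thD
      rw [map_pow, map_mul, map_prod, map_neg, map_add, map_one, map_sum]
      simp only [aeval_X]
      rw [h.one_add, neg_neg]
    have hdet : (Matrix.of fun i' j => F i' (Fin.append x (ts l (sA i)) j)).det = 1 := by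
      have h1 : (Matrix.of fun i' j => F i' (Fin.append x (ts l (sA i)) j)) =
          (1 : Matrix (Fin (n + r)) (Fin (n + r)) M) := by
        ext i' j
        rw [Matrix.of_apply, hF, Matrix.one_apply]
      rw [h1, Matrix.det_one]
    rw [th_frm h (Or.inl rfl : Adm i (sA i)), hD, hP]
    unfold frm
    rw [hdet]
    have he : (r + 1) * (2 * (b * q)) = (r + 2) * ((r + 1) * q) := by
      rw [hrb]
      ring
    rw [one_pow, one_mul, he, pow_mul]
    have hw : l (sA i 0) ^ (r + 1) * (∏ p, ts l (sA i) p) * l (sA i (Fin.last (r + 1))) ≠ 0 :=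
      mul_ne_zero (mul_ne_zero (pow_ne_zero _ hL) hT) hΛ
    have hs : l (sA i 0) ^ (r + 2) * ((∏ p, ts l (sA i) p) *
        (l (sA i (Fin.last (r + 1))) / l (sA i 0))) =
        l (sA i 0) ^ (r + 1) * (∏ p, ts l (sA i) p) * l (sA i (Fin.last (r + 1))) := by
      field_simp
      ring
    obtain ⟨m, hm⟩ : ∃ m, m = (r + 1) * q := ⟨_, rfl⟩
    rw [← hm, ← hs, mul_pow]
    have h1 : (l (sA i 0) ^ (r + 2)) ^ m ≠ 0 := pow_ne_zero _ (pow_ne_zero _ hL)
    have h2 : ((∏ p, ts l (sA i) p) * (l (sA i (Fin.last (r + 1))) / l (sA i 0))) ^ m ≠ 0 :=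
      pow_ne_zero _ (mul_ne_zero hT (div_ne_zero hΛ hL))
    rw [div_mul_eq_mul_div, div_eq_iff (mul_ne_zero h1 h2)]
    ring

end Pool.Agent.H890
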