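import Pool.Agent.H890.Wx1
import Pool.Agent.H890.Wx2
import Pool.Agent.H890.Wx3
import Pool.Agent.H890.Wx4
import Pool.Agent.H890.KDefsX

/-!
The Cartier index of the pair and of the variety without boundary.
-/

set_option autoImplicit false
set_option linter.unusedSectionVars false
set_option linter.overlappingInstances false

open FF MvPolynomial Pool.Agent.W602.GT Pool.Agent.W603.LV Pool.Agent.W619.PQ Pool.Agent.Y172
  Pool.Agent.TH122.AB Pool.Agent.R887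

namespace Pool.Agent.H890

section

variable {K L M : Type} [Field K] [Field L] [Field M] [Algebra ℂ K] [Algebra ℂ L]
  [Algebra ℂ M] [Algebra K L] [Algebra L M] [Algebra K M] [IsScalarTower ℂ K L]
  [IsScalarTower ℂ L M] [IsScalarTower ℂ K M] [IsScalarTower K L M] [FiniteDimensional L M]
  {N : ℕ} {y : Fin (N + 1) → K} {n r : ℕ} {G₀ : Place ℂ K → ℤ} {S : Mod K L M y n r G₀}
  {b : ℕ} {z : M} {G : Place ℂ K → ℤ} {Q₀ : Place ℂ K} {I : ℕ} {g : K} {a : Fin r → ℕ}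
  {i : Fin (r + 1)} {N' : ℕ} {v : Fin (N' + 1) → M} {j₀ : Fin (N' + 1)}

theorem basM (S : Mod K L M y n r G₀) (i : Fin (r + 1)) {x : Fin n → K}
    (hx : IsTranscendenceBasis ℂ x) : IsTranscendenceBasis ℂ
      (Fin.append (fun i => algebraMap K M (x i)) (ts S.lM (sA i)) : Fin (n + r) → M) := by
  refine append_basis hx ?_
  have h1 : IsTranscendenceBasis K (algebraMap L M ∘ ts S.l (sA i)) :=
    (Gens_basis (gens_ts S.sys S.gens (sA i))).algebraMap_comp
  have h2 : ts S.lM (sA i) = algebraMap L M ∘ ts S.l (sA i) := by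
    funext p
    exact ts_up _ _
  rw [h2]
  exact h1

/-- norms of the units in the local ring -/
theorem AtW.norm (h : Cov S b z) (hr : 0 < r) (hw : WD y G Q₀ I g)
    (hv : WV y G Q₀ I g a (ts S.l (sA i)) v j₀) {P : Place ℂ M} (hP : AtW S i I g a Q₀ P)
    {x : M} (hx : x ∈ chart v j₀) (hx0 : x ≠ 0) (hxo : P.ord x = 0) :
    ∃ F : MvPolynomial (Fin r) K, aeval (ts S.l (sA i)) F = Algebra.norm L x ∧
      F.coeff 0 ∈ lsub y Q₀ ∧ F.coeff 0 ≠ 0 ∧ Q₀.ord (F.coeff 0) = 0 := by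
  obtain ⟨e, he⟩ := hP.ovr
  obtain ⟨v₀, hv1, hv2⟩ := CvT.exists_v h hr i (gg := fun _ => 1) fun _ => one_ne_zero
  have htt : CvT.tt S i (fun _ => (1 : K)) = ts S.l (sA i) := by
    funext p
    unfold CvT.tt
    rw [div_one, map_one, mul_one]
  rw [htt] at hv1
  exact norm_wr (gens_ts S.sys S.gens (sA i)) hw (Nat.succ_pos _) h.zN (phi_ne S.sys)
    (CvS.top_eq h) (CvS.fin_eq h hr) hv1 hv2 (hv.int x hx) hP.good he hx0 hxo

/-- **The Cartier index.** -/
theorem AtW.index (h : Cov S b z) (hr : 0 < r) (hn : 0 < n) {j : Fin (r + 1)} (hij : j ≠ i)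
    (hi : S.wt i.castSucc = 1)
    (ha : ∀ p, (a p : ℤ) = 1 - S.wt (ix i p).castSucc) (hw : WD y G Q₀ I g)
    (hv : WV y G Q₀ I g a (ts S.l (sA i)) v j₀) (hQ₀ : Divisorial n Q₀) {P : Place ℂ M}
    (hP : AtW S i I g a Q₀ P) {Δ : Place ℂ K → ℚ}
    (hG : ∀ P, IsPrimeDivisor y P → (G P : ℚ) = b * Δ P) {α : ℚ} (hα : LogDisc y n Δ Q₀ α)
    {s : ℕ} (hs : 0 < s) (hc : LogCartierAt v (n + r) 0 s P) :
    LogCartierAt y n Δ (s * (r + 2)) Q₀ := by
  have hy := S.ny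
  have hessK := S.essK
  have hessM := S.essM
  have hb1 : 1 ≤ b := by
    have := h.hb
    omega
  obtain ⟨x, E, hx, hE⟩ := exists_crd h.trK
  obtain ⟨q, η, c, hq, hη, hgen, -, -⟩ := hα.form hb1 hG
  obtain ⟨m, hm⟩ : ∃ m, m = 2 * (b * q) := ⟨_, rfl⟩
  have hbq : 0 < b * q := Nat.mul_pos hb1 hq
  have hm0 : 0 < m := by omega
  have hηm : IsPluri m η := by
    rw [hm]
    exact hη
  obtain ⟨D₀, hD₀, hD₀Q⟩ := exists_through hy Q₀
  have hηE : η E ≠ 0 := val_ne hη hx hE (hgen D₀ hD₀ hD₀Q)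
  -- the coordinates of `V`
  have hX := basM S i hx
  obtain ⟨F, hF⟩ : ∃ F : Fin (n + r) → Derivation ℂ M M, ∀ i' j',
      F i' ((Fin.append (fun i => algebraMap K M (x i)) (ts S.lM (sA i)) : Fin (n + r) → M) j') =
        if i' = j' then 1 else 0 := by
    choose F hF using fun i' => exists_der (L := ℂ) _ hX (fun j' => if i' = j' then 1 else 0)
    exact ⟨F, hF⟩
  obtain ⟨θ, hθd⟩ : ∃ θ, θ = th S.lM b q (fun i => algebraMap K M (x i))
    (algebraMap K M (η E)) := ⟨_, rfl⟩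
  have hθ : IsPluri m θ := by
    rw [hθd, hm]
    exact th_pluri S.sysM b q (fun i => algebraMap K M (x i)) (algebraMap K M (η E))
  obtain ⟨ω, hω, hωo⟩ := hc
  have hk : ∀ P', IsPrimeDivisor v P' → Through v P' P → ω F ≠ 0 ∧ θ F ≠ 0 ∧
      P'.ord (ω F ^ m / θ F ^ s) = 0 := by
    intro P' hP' hT
    have h1 := hP.gen h hn hi ha hw hv rfl hη hgen hx hE hP' hT
    rw [← hθd] at h1
    obtain ⟨h2, h3, h4⟩ := ratio_ord h.trM hs hω hθ hX hF (hP'.divisorial hv.nv h.trM)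
      (hωo P' hP' hT) h1
    refine ⟨h2, h3, ?_⟩
    rw [P'.ord_div (pow_ne_zero _ h2) (pow_ne_zero _ h3), P'.ord_pow, P'.ord_pow]
    have h5 : ((m * P'.ord (ω F) - s * P'.ord (θ F) : ℤ) : ℚ) = 0 := by
      push_cast
      rw [h4]
      simp
    exact_mod_cast h5
  obtain ⟨D₁, hD₁, hD₁P⟩ := exists_through hv.nv P
  obtain ⟨hω0, hθ0, -⟩ := hk D₁ hD₁ hD₁P
  obtain ⟨u, hu⟩ : ∃ u, u = ω F ^ m / θ F ^ s := ⟨_, rfl⟩
  have hu0 : u ≠ 0 := by
    rw [hu]
    exact div_ne_zero (pow_ne_zero _ hω0) (pow_ne_zero _ hθ0)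
  have hu1 : u ∈ localRing v P := mem_localRing_of_reg hv.nv fun P' hP' hT => by
    right
    rw [hu, (hk P' hP' hT).2.2]
  have hu2 : u⁻¹ ∈ localRing v P := mem_localRing_of_reg hv.nv fun P' hP' hT => by
    right
    rw [P'.ord_inv, hu, (hk P' hP' hT).2.2]
    norm_num
  have huo : P.ord u = 0 := by
    have h1 := reg_ord_nonneg (localRing_reg hu1)
    have h2 := reg_ord_nonneg (localRing_reg hu2)
    rw [P.ord_inv] at h2
    omega
  -- norms
  obtain ⟨e, he⟩ := hP.ovr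
  have hcen : Centred v j₀ P := hv.centred hw (fun f hf => localRing_reg hf) hP.good.zero
  obtain ⟨a', ha', b', hb', hb0, hbo, hab⟩ := (mem_localRing hcen).1 hu1
  have hau : a' = u * b' := hab.symm
  have ha0 : a' ≠ 0 := by
    rw [hau]
    exact mul_ne_zero hu0 hb0
  have hao : P.ord a' = 0 := by
    rw [hau, P.ord_mul hu0 hb0, huo, hbo, add_zero]
  obtain ⟨A, hA1, hA2, hA3, hA4⟩ := hP.norm h hr hw hv ha' ha0 hao
  obtain ⟨B, hB1, hB2, hB3, hB4⟩ := hP.norm h hr hw hv hb' hb0 hbo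
  obtain ⟨hT0, hTv⟩ := th_val S.sysM h.hb i q (fun i => algebraMap K M (x i))
    (algebraMap K M (η E)) hF
  rw [← hθd] at hTv
  obtain ⟨T, hTd⟩ : ∃ T, T = thD r ((r + 1) * q) := ⟨_, rfl⟩
  rw [← hTd] at hT0 hTv
  have hTL : aeval (ts S.lM (sA i)) T = algebraMap L M (aeval (ts S.l (sA i)) T) := by
    have h2 : ts S.lM (sA i) = fun p => algebraMap L M (ts S.l (sA i) p) := by
      funext p
      exact ts_up _ _
    rw [h2, ← aeval_algebraMap_apply]
    rfl
  have hkey : ω F ^ m * b' * (algebraMap L M (aeval (ts S.l (sA i)) T)) ^ s =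
      algebraMap K M (η E) ^ s * a' := by
    have h0 : θ F ^ s ≠ 0 := pow_ne_zero _ hθ0
    have h1 : u * θ F ^ s = ω F ^ m := by
      rw [hu, div_mul_cancel₀ _ h0]
    rw [hau, ← hTL, ← hTv, mul_pow, ← h1]
    ring
  have hnorm := congrArg (Algebra.norm L) hkey
  rw [map_mul, map_mul, map_mul, map_pow, map_pow, map_pow, Algebra.norm_algebraMap,
    IsScalarTower.algebraMap_apply K L M, Algebra.norm_algebraMap, CvS.fin_eq h hr, ← hA1,
    ← hB1] at hnorm
  obtain ⟨w', hw0, hw'⟩ := desc_pow (gens_ts S.sys S.gens (sA i)) (w := Algebra.norm L (ω F))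
    ((Algebra.norm_ne_zero_iff).2 hω0) hm0 (k := η E ^ (s * (r + 2))) (pow_ne_zero _ hηE)
    hA3 hB3 (D := T ^ (s * (r + 2))) (pow_ne_zero _ hT0) (by
      rw [map_pow, map_pow]
      rw [← pow_mul, ← pow_mul, mul_comm (r + 2) s] at hnorm
      exact hnorm)
  -- the form on `X`
  refine ⟨frm x (s * (r + 2)) w', frm_pluri x _ w', fun D hD hDQ => ?_⟩
  have hfE : frm x (s * (r + 2)) w' E = w' := by
    unfold frm
    have h1 : (Matrix.of fun i j => E i (x j)) = 1 := by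
      ext i' j'
      rw [Matrix.of_apply, hE, Matrix.one_apply]
    rw [h1, Matrix.det_one, one_pow, one_mul]
  have hDd := hD.divisorial hy h.trK
  obtain ⟨c', hc'⟩ := exists_ordEq h.trK hDd (frm_pluri x (s * (r + 2)) w') hx hE (by
    rw [hfE]
    exact hw0)
  have hsr : 0 < s * (r + 2) := Nat.mul_pos hs (Nat.succ_pos _)
  obtain ⟨-, -, h1⟩ := ratio_ord h.trK hsr (frm_pluri x (s * (r + 2)) w') hηm hx hE hDd hc'
    (hgen D hD hDQ)
  rw [hfE] at h1
  have h2 : (m : ℤ) * D.ord w' = (s * (r + 2) : ℕ) * D.ord (η E) := by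
    have h3 := congrArg D.ord hw'
    rw [D.ord_mul (pow_ne_zero _ hw0) hB3, D.ord_mul (pow_ne_zero _ hηE) hA3, D.ord_pow,
      D.ord_pow, unit_through hDQ ((lsub_iff hy).1 hA2) hA3 hA4,
      unit_through hDQ ((lsub_iff hy).1 hB2) hB3 hB4] at h3
    linarith
  have h3 : (m : ℚ) * D.ord w' = (s * (r + 2) : ℕ) * D.ord (η E) := by exact_mod_cast h2
  rw [h3, sub_self] at h1
  have h4 := hG D hD
  have h5 : (m : ℚ) ≠ 0 := by exact_mod_cast hm0.ne'
  have h6 : (c' : ℚ) = -((s * (r + 2) : ℕ) * Δ D) := by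
    have h7 : (m : ℚ) = 2 * (b * q) := by
      rw [hm]
      push_cast
      ring
    have h8 : (m : ℚ) * c' = m * (-((s * (r + 2) : ℕ) * Δ D)) := by
      have h9 : (m : ℚ) * c' = (s * (r + 2) : ℕ) * ((-(2 * q * G D) : ℤ) : ℚ) := by
        linarith
      rw [h9, h7]
      push_cast
      rw [h4]
      ring
    exact mul_left_cancel₀ h5 h8
  rw [← h6]
  exact hc'

end

end Pool.Agent.H890
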