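import Pool.Agent.H890.Wx5

/-!
The index of log pairs and of varieties without boundary.
-/

set_option autoImplicit false
set_option linter.unusedSectionVars false
set_option linter.overlappingInstances false

open FF MvPolynomial Pool.Agent.W602.GT Pool.Agent.W603.LV Pool.Agent.W619.PQ Pool.Agent.Y172
  Pool.Agent.TH122.AB Pool.Agent.R887

namespace Pool.Agent.H890

section

variable {K L M : Type} [Field K] [Field L] [Field M] [Algebra ℂ K] [Algebra ℂ L]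
  [Algebra ℂ M] [Algebra K L] [Algebra L M] [Algebra K M] [IsScalarTower ℂ K L]
  [IsScalarTower ℂ L M] [IsScalarTower ℂ K M] [IsScalarTower K L M] [FiniteDimensional L M]
  {N : ℕ} {y : Fin (N + 1) → K} {n r : ℕ} {G₀ : Place ℂ K → ℤ} {S : Mod K L M y n r G₀}
  {b : ℕ} {z : M} {G : Place ℂ K → ℤ} {Q₀ : Place ℂ K} {I : ℕ} {g : K} {a : Fin r → ℕ}
  {i : Fin (r + 1)} {N' : ℕ} {v : Fin (N' + 1) → M} {j₀ : Fin (N' + 1)}

/-- the dimension of the centre -/
theorem AtW.dim (h : Cov S b z) (hr : 0 < r) (hw : WD y G Q₀ I g)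
    (hv : WV y G Q₀ I g a (ts S.l (sA i)) v j₀) {P : Place ℂ M} (hP : AtW S i I g a Q₀ P)
    {d : ℕ} (hd : CentreDim y Q₀ d) : CentreDim v P d := by
  have hy := S.ny
  have hT : Through y Q₀ Q₀ := fun f hf => localRing_reg hf
  obtain ⟨e, he⟩ := hP.ovr
  have he0 : (0 : ℤ) < e := by exact_mod_cast he.1
  refine ⟨?_, fun f hf => ?_⟩
  · obtain ⟨f, hf, hf'⟩ := hd.1
    refine ⟨fun i => algebraMap K M (f i), fun i => hv.base_le hw hT he hP.good.zero (hf i),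
      fun F hF => ?_⟩
    have h1 : aeval (fun i => algebraMap K M (f i)) F = algebraMap K M (aeval f F) := by
      rw [← aeval_algebraMap_apply]
      rfl
    rw [h1]
    obtain ⟨h2, h3⟩ := hf' F hF
    refine ⟨by rwa [Ne, map_eq_zero], ?_⟩
    rw [he.2, h3, mul_zero]
  · choose κ hκ hκ' using fun i => hP.lres h hr hw hv rfl (hf.1 i)
    have hκP : ∀ i, Ge P 1 (f i - algebraMap K M (κ i)) := fun i =>
      (hκ' i P hP.good fun μ _ _ hμ => by rw [he.2, hμ, mul_zero]).2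
    refine hd.2 κ ⟨fun i => (lsub_iff hy).1 (hκ i), fun F hF => ?_⟩
    obtain ⟨h1, h2⟩ := aeval_res hκP
      (fun i => he.reg.2 (localRing_reg ((lsub_iff hy).1 (hκ i)))) F
    obtain ⟨h3, h4⟩ := hf.2 F hF
    have h5 := h1.neg
    rw [neg_sub] at h5
    obtain ⟨h6, h7⟩ := ge_unit h5 h3 h4
    rw [Ne, map_eq_zero] at h6
    refine ⟨h6, ?_⟩
    rw [he.2] at h7
    rcases mul_eq_zero.1 h7 with h8 | h8
    · omega
    · exact h8

end

/-- **The variety without boundary, at a point.** -/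
theorem weil_removal_index (K : Type) [Field K] [Algebra ℂ K] {n b : ℕ} (hb : 2 ≤ b) (hn1 : 1 ≤ n)
    (hn : Algebra.trdeg ℂ K = n) {N : ℕ} {y : Fin (N + 1) → K} (hy : NormalModel y)
    {Δ : Place ℂ K → ℚ} (hΔ : Effective y Δ)
    (hint : ∀ P, IsPrimeDivisor y P → ∃ m : ℤ, (b : ℚ) * Δ P = m) {Q : Place ℂ K}
    (hQ : Divisorial n Q) (hcar : QCartierAt y Δ Q) (hsup : InSupp y Δ Q) :
    ∃ (M : Type) (_ : Field M) (_ : Algebra ℂ M) (_ : Algebra K M) (_ : IsScalarTower ℂ K M)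
      (t : Fin (2 * b - 2) → M) (N' : ℕ) (v : Fin (N' + 1) → M) (P : Place ℂ M),
      AlgebraicIndependent K t ∧ IntermediateField.adjoin K (Set.range t) = ⊤ ∧ NormalModel v ∧
      Algebra.trdeg ℂ M = (n + (2 * b - 2) : ℕ) ∧ Divisorial (n + (2 * b - 2)) P ∧
      (∃ e, Over P Q e) ∧ (∀ d, CentreDim y Q d → CentreDim v P d) ∧
      (ClosedPoint y Q → ClosedPoint v P) ∧
      (∀ c : ℚ, 0 ≤ c → IsMld y n Δ Q c → IsMld v (n + (2 * b - 2)) 0 P (c + 1 / b)) ∧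
      ∀ (s : ℕ) (c : ℚ), 0 < s → LogDisc y n Δ Q c →
        LogCartierAt v (n + (2 * b - 2)) 0 s P → LogCartierAt y n Δ (2 * b * s) Q := by
  obtain ⟨r, hr⟩ : ∃ r, r = 2 * b - 2 := ⟨_, rfl⟩
  rw [← hr]
  obtain ⟨b', hb'⟩ : ∃ b', b = b' + 2 := ⟨b - 2, by omega⟩
  have hrb : r + 2 = 2 * b := by omega
  have hr2 : 2 ≤ r := by omega
  obtain ⟨L, _, _, _, _, t, ht⟩ := exists_L K r
  obtain ⟨M, _, _, _, z, hz, hgen, hfin⟩ := exists_M (∏ k, lfs t k ^ sg k)
    (N := r + 2) (Nat.succ_pos _)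
  let _ : Algebra ℂ M := ((algebraMap L M).comp (algebraMap ℂ L)).toAlgebra
  let _ : Algebra K M := ((algebraMap L M).comp (algebraMap K L)).toAlgebra
  have _ : IsScalarTower ℂ L M := IsScalarTower.of_algebraMap_eq' rfl
  have _ : IsScalarTower K L M := IsScalarTower.of_algebraMap_eq' rfl
  have _ : IsScalarTower ℂ K M := IsScalarTower.of_algebraMap_eq fun c => by
    rw [IsScalarTower.algebraMap_apply ℂ L M, IsScalarTower.algebraMap_apply ℂ K L,
      ← IsScalarTower.algebraMap_apply K L M]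
  have htr : Algebra.trdeg K M = r := by
    have h1 : IsTranscendenceBasis K (algebraMap L M ∘ t) := (Gens_basis ht).algebraMap_comp
    rw [← h1.cardinalMk_eq_trdeg]
    simp
  obtain ⟨s, hs1, hs2⟩ := rational (b' := b') (by omega) (lfs_sys ht)
    (by rw [lfs_ts]; exact ht) htr hz hgen
    (fun k k' hk hk' => lfs_pair ht k k' (by omega) hk hk')
  have hE0 : Effective y (0 : Place ℂ K → ℚ) := by
    refine ⟨fun P _ => le_rfl, Set.finite_empty.subset ?_⟩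
    rintro P ⟨-, h0⟩
    exact h0 rfl
  obtain ⟨G₀, hG₀, S, h⟩ := exists_cov (L := L) (M := M) hrb (by omega) ht hz hgen hfin hn hy
    hE0 (fun Q _ => ⟨1, one_ne_zero, fun P _ _ => by simp [P.ord_one]⟩ : CartierMul y n b 0)
  obtain ⟨i, j, hi, hj, hsi, hsj, hk⟩ := h.exists_tw
  have hij : j ≠ i := by
    rintro rfl
    rw [hsi] at hsj
    omega
  -- the divisor `b Δ`
  obtain ⟨G, hGd⟩ : ∃ G : Place ℂ K → ℤ, G = fun P => ⌊(b : ℚ) * Δ P⌋ := ⟨_, rfl⟩
  have hG : ∀ P, IsPrimeDivisor y P → (G P : ℚ) = b * Δ P := by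
    intro P hP
    obtain ⟨m, hm⟩ := hint P hP
    rw [hGd]
    change ((⌊(b : ℚ) * Δ P⌋ : ℤ) : ℚ) = _
    rw [hm, Int.floor_intCast]
  have hbQ : (0 : ℚ) < b := by exact_mod_cast (by omega : 0 < b)
  obtain ⟨I, g₁, hI, hg₁, hg₁o⟩ := hcar
  have hw : WD y G Q I (g₁ ^ b) := by
    refine ⟨hI, pow_ne_zero _ hg₁, fun D hD => ?_, fun D hD hDQ => ?_⟩
    · have h1 := mul_nonneg hbQ.le (hΔ.1 D hD)
      rw [← hG D hD] at h1
      exact_mod_cast h1
    · have h1 := hg₁o D hD hDQ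
      have h2 := hG D hD
      have h3 : ((D.ord (g₁ ^ b) : ℤ) : ℚ) = ((I * G D : ℤ) : ℚ) := by
        rw [D.ord_pow]
        push_cast
        rw [h1, h2]
        ring
      exact_mod_cast h3
  obtain ⟨g, hg⟩ : ∃ g, g = g₁ ^ b := ⟨_, rfl⟩
  rw [← hg] at hw
  obtain ⟨a, had⟩ : ∃ a : Fin r → ℕ, a = fun p => (1 - S.wt (ix i p).castSucc).toNat := ⟨_, rfl⟩
  have ha : ∀ p, (a p : ℤ) = 1 - S.wt (ix i p).castSucc := by
    intro p
    rw [had]
    change (((1 - S.wt (ix i p).castSucc).toNat : ℕ) : ℤ) = _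
    rw [Int.toNat_of_nonneg]
    rcases S.wt01 (ix i p).castSucc with h1 | h1 <;> rw [h1] <;> norm_num
  obtain ⟨N', v, j₀, hv⟩ := exists_wv (M := M) (a := a) hy (gens_ts S.sys S.gens (sA i)) hw
  have hgm : g ∈ localRing y Q := by
    refine (lsub_iff hy).1 fun D hD hDQ => ?_
    right
    rw [hw.eq D hD hDQ]
    exact mul_nonneg (Int.natCast_nonneg _) (hw.nonneg D hD)
  have hgQ : 0 < Q.ord g := by
    have h1 := reg_ord_nonneg (localRing_reg hgm)
    have h2 : Q.ord g ≠ 0 := by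
      intro h2
      obtain ⟨D, hD, hDQ, hD0⟩ := hsup
      have h3 := unit_through hDQ hgm hw.ne h2
      have h4 := hw.eq D hD hDQ
      rw [h3] at h4
      have h5 := hG D hD
      rcases mul_eq_zero.1 h4.symm with h6 | h6
      · have : I = 0 := by exact_mod_cast h6
        omega
      · rw [h6, Int.cast_zero] at h5
        rcases mul_eq_zero.1 h5.symm with h7 | h7
        · exact hbQ.ne' h7
        · exact hD0 h7
    omega
  obtain ⟨P, hP⟩ := exists_atW0 h hr2 (by omega) hi hj hsi hsj hk ha hI hQ hgQ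
  exact ⟨M, inferInstance, inferInstance, inferInstance, inferInstance, s, N', v, P, hs1, hs2,
    hv.nv, h.trM, hP.div, hP.ovr, fun d hd => hP.dim h (by omega) hw hv hd,
    hP.closed h (by omega) hw hv rfl, fun c hc0 hc =>
      hP.isMld h hr2 (by omega) hi hj hsi hsj hk ha hw hv hgm hgQ hG hc0 hc,
    fun s c hs hc hcar => by
      have h1 := hP.index h (by omega) (by omega) (j := j) hij hi ha hw hv hQ hG hc hs hcar
      rw [hrb, mul_comm] at h1
      exact h1⟩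

theorem LogCartierAt.mul {K : Type} [Field K] [Algebra ℂ K] {N : ℕ} {y : Fin (N + 1) → K}
    {n : ℕ} {Δ : Place ℂ K → ℚ} {s : ℕ} {Q : Place ℂ K} (h : LogCartierAt y n Δ s Q) (k : ℕ) :
    LogCartierAt y n Δ (k * s) Q := by
  obtain ⟨η, hη, h1⟩ := h
  refine ⟨fun D => η D ^ k, ?_, fun P hP hPQ => ?_⟩
  · intro A D
    change (η fun i => ∑ j, A i j • D j) ^ k = A.det ^ (k * s) * η D ^ k
    rw [hη A D, mul_pow, ← pow_mul, mul_comm s k]
  · have h2 := ordEq_pow (h1 P hP hPQ) k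
    have h3 : -(((k * s : ℕ) : ℚ) * Δ P) = k * -(s * Δ P) := by
      push_cast
      ring
    rw [h3]
    exact h2

/-- **Bounds for the index.** -/
theorem indexBound {n b : ℕ} (hb : 2 ≤ b) {Γ : Set ℚ} (hΓ : ∀ γ ∈ Γ, ∃ m : ℤ, (b : ℚ) * γ = m)
    {ε : ℚ} (hε : 0 ≤ ε) {I₁ I₂ : ℕ} (hI₂ : 0 < I₂) (h₁ : IndexBound n ∅ ε I₁)
    (h₂ : IndexBound (n + (2 * b - 2)) ∅ (ε + 1 / b) I₂) :
    IndexBound n Γ ε (I₁ * (2 * b * I₂)) := by
  intro K _ _ N y Δ Q hn hy hΔ hco hQ hcar hc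
  by_cases hsup : InSupp y Δ Q
  · refine LogCartierAt.mul ?_ _
    by_cases hn1 : 1 ≤ n
    · have hint : ∀ P, IsPrimeDivisor y P → ∃ m : ℤ, (b : ℚ) * Δ P = m := by
        intro P hP
        rcases hco P hP with h1 | h1
        · exact ⟨0, by rw [h1]; simp⟩
        · exact hΓ _ h1
      obtain ⟨M, _, _, _, _, t, N', v, P, h1, h2, h3, h4, h5, h6, h7, -, h8, h9⟩ :=
        weil_removal_index K hb hn1 hn hy hΔ hint hQ hcar hsup
      obtain ⟨c, hc', -⟩ := hc.1 Q hQ rfl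
      exact h9 I₂ c hI₂ hc' (h₂ M N' v 0 P h4 h3 (eff_zero v) (fun _ _ => Or.inl rfl) h5
        (qCartierAt_zero v P) (h8 ε hε hc))
    · obtain rfl : n = 0 := by omega
      exact absurd hQ (no_divisorial hn hy Q)
  · rw [mul_comm]
    refine LogCartierAt.mul ?_ _
    have h0 : ∀ P, IsPrimeDivisor y P → Through y P Q → Δ P = 0 := by
      intro P hP hPQ
      by_contra h1
      exact hsup ⟨P, hP, hPQ, h1⟩
    obtain ⟨η, hη, h1⟩ := h₁ K N y 0 Q hn hy (eff_zero y) (fun _ _ => Or.inl rfl) hQ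
      (qCartierAt_zero y Q) (isMld_zero h0 hc)
    refine ⟨η, hη, fun P hP hPQ => ?_⟩
    have h2 := h1 P hP hPQ
    rw [h0 P hP hPQ]
    exact h2

theorem index_iff_index : (∀ n (ε : ℚ), 0 ≤ ε → ∃ I, 0 < I ∧ IndexBound n ∅ ε I) ↔
    ∀ n (Γ : Set ℚ), Γ.Finite → ∀ ε : ℚ, 0 ≤ ε → ∃ I, 0 < I ∧ IndexBound n Γ ε I := by
  constructor
  · intro h n Γ hΓ ε hε
    obtain ⟨b, hb, hb'⟩ := exists_denom hΓ
    obtain ⟨I₁, hI₁, h₁⟩ := h n ε hε
    have hb0 : (0 : ℚ) ≤ 1 / b := by positivity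
    obtain ⟨I₂, hI₂, h₂⟩ := h (n + (2 * b - 2)) (ε + 1 / b) (add_nonneg hε hb0)
    exact ⟨_, Nat.mul_pos hI₁ (Nat.mul_pos (by omega) hI₂), indexBound hb hb' hε hI₂ h₁ h₂⟩
  · intro h n ε hε
    exact h n ∅ Set.finite_empty ε hε

end Pool.Agent.H890
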